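import Pool.Agent.Lib.MP_392c14_co.Sem1

set_option autoImplicit false

/-!
# The iterated blow-up construction and the limit (module Lower, helper67)
-/

open Finset

namespace K4m

/-! ### ordered triples and 3-sets -/

theorem low_ne {α : Type} [DecidableEq α] {x y z : α} (h : ({x, y, z} : Finset α).card = 3) :
    x ≠ y ∧ x ≠ z ∧ y ≠ z := by
  refine ⟨?_, ?_, ?_⟩
  · rintro rfl
    have : ({x, x, z} : Finset α) = {x, z} := by simp
    rw [this] at h
    have := card_le_two (a := x) (b := z)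
    omega
  · rintro rfl
    have : ({x, y, x} : Finset α) = {x, y} := by ext t; simp; tauto
    rw [this] at h
    have := card_le_two (a := x) (b := y)
    omega
  · rintro rfl
    have : ({x, y, y} : Finset α) = {x, y} := by simp
    rw [this] at h
    have := card_le_two (a := x) (b := y)
    omega

theorem low_card {α : Type} [DecidableEq α] {x y z : α} (h1 : x ≠ y) (h2 : x ≠ z) (h3 : y ≠ z) :
    ({x, y, z} : Finset α).card = 3 := card_eq_three.2 ⟨x, y, z, h1, h2, h3, rfl⟩

theorem low_triples {α : Type} [Fintype α] [DecidableEq α] {a b c : α} (hab : a ≠ b) (hac : a ≠ c)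
    (hbc : b ≠ c) :
    (univ.filter (fun p : α × α × α => ({p.1, p.2.1, p.2.2} : Finset α) = {a, b, c})).card = 6 := by
  have h : univ.filter (fun p : α × α × α => ({p.1, p.2.1, p.2.2} : Finset α) = {a, b, c})
      = {(a, b, c), (a, c, b), (b, a, c), (b, c, a), (c, a, b), (c, b, a)} := by
    ext ⟨x, y, z⟩
    simp only [mem_filter, mem_univ, true_and, mem_insert, mem_singleton, Prod.mk.injEq]
    constructor
    · intro h
      have hx : x ∈ ({a, b, c} : Finset α) := h ▸ mem_insert_self _ _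
      have hy : y ∈ ({a, b, c} : Finset α) := h ▸ mem_insert_of_mem (mem_insert_self _ _)
      have hz : z ∈ ({a, b, c} : Finset α) :=
        h ▸ mem_insert_of_mem (mem_insert_of_mem (mem_singleton_self _))
      have hcard : ({x, y, z} : Finset α).card = 3 := by
        rw [h]
        exact low_card hab hac hbc
      obtain ⟨h1, h2, h3⟩ := low_ne hcard
      clear h hcard
      simp only [mem_insert, mem_singleton] at hx hy hz
      rcases hx with rfl | rfl | rfl <;> rcases hy with rfl | rfl | rfl <;>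
        rcases hz with rfl | rfl | rfl <;> simp_all
    · have e1 : ({a, c, b} : Finset α) = {a, b, c} := by ext t; simp; tauto
      have e2 : ({b, a, c} : Finset α) = {a, b, c} := by ext t; simp; tauto
      have e3 : ({b, c, a} : Finset α) = {a, b, c} := by ext t; simp; tauto
      have e4 : ({c, a, b} : Finset α) = {a, b, c} := by ext t; simp; tauto
      have e5 : ({c, b, a} : Finset α) = {a, b, c} := by ext t; simp; tauto
      rintro (⟨rfl, rfl, rfl⟩ | ⟨rfl, rfl, rfl⟩ | ⟨rfl, rfl, rfl⟩ | ⟨rfl, rfl, rfl⟩ |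
        ⟨rfl, rfl, rfl⟩ | ⟨rfl, rfl, rfl⟩)
      · rfl
      · exact e1
      · exact e2
      · exact e3
      · exact e4
      · exact e5
  rw [h]
  have hba := hab.symm
  have hca := hac.symm
  have hcb := hbc.symm
  rw [card_insert_of_notMem, card_insert_of_notMem, card_insert_of_notMem, card_insert_of_notMem,
    card_insert_of_notMem, card_singleton]
  all_goals simp only [mem_insert, mem_singleton, Prod.mk.injEq, not_or, not_and]
  all_goals tauto

/-- the 3-sets of a weighted 3-graph -/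
def low_edges {n : ℕ} (G : TG (Fin n)) : Finset (Finset (Fin n)) :=
  (univ.filter (fun p : Fin n × Fin n × Fin n => G.E p.1 p.2.1 p.2.2 = true)).image
    (fun p => ({p.1, p.2.1, p.2.2} : Finset (Fin n)))

theorem low_E_ne {V : Type} (G : TG V) {x y z : V} (h : G.E x y z = true) :
    x ≠ y ∧ x ≠ z ∧ y ≠ z := by
  refine ⟨?_, ?_, ?_⟩
  · rintro rfl
    rw [G.irr] at h
    exact Bool.noConfusion h
  · rintro rfl
    rw [G.symm₂, G.irr] at h
    exact Bool.noConfusion h
  · rintro rfl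
    rw [G.symm₁, G.symm₂, G.irr] at h
    exact Bool.noConfusion h

/-- `E` only depends on the set of the three vertices -/
theorem low_E_congr {V : Type} [DecidableEq V] (G : TG V) {x y z a b c : V}
    (h : ({x, y, z} : Finset V) = {a, b, c}) (hE : G.E a b c = true) : G.E x y z = true := by
  obtain ⟨hab, hac, hbc⟩ := low_E_ne G hE
  have hx : x ∈ ({a, b, c} : Finset V) := h ▸ mem_insert_self _ _
  have hy : y ∈ ({a, b, c} : Finset V) := h ▸ mem_insert_of_mem (mem_insert_self _ _)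
  have hz : z ∈ ({a, b, c} : Finset V) :=
    h ▸ mem_insert_of_mem (mem_insert_of_mem (mem_singleton_self _))
  have hcard : ({x, y, z} : Finset V).card = 3 := by
    rw [h]
    exact low_card hab hac hbc
  obtain ⟨h1, h2, h3⟩ := low_ne hcard
  have s1 := G.symm₁
  have s2 := G.symm₂
  simp only [mem_insert, mem_singleton] at hx hy hz
  rcases hx with rfl | rfl | rfl <;> rcases hy with rfl | rfl | rfl <;>
    rcases hz with rfl | rfl | rfl <;>
    (first | exact absurd rfl h1 | exact absurd rfl h2 | exact absurd rfl h3 | exact hE | skip)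
  · rw [s2]; exact hE
  · rw [s1]; exact hE
  · rw [s2, s1]; exact hE
  · rw [s1, s2]; exact hE
  · rw [s1, s2, s1]; exact hE

theorem low_mem_edges {n : ℕ} (G : TG (Fin n)) {a b c : Fin n} :
    ({a, b, c} : Finset (Fin n)) ∈ low_edges G ↔ G.E a b c = true := by
  rw [low_edges, mem_image]
  constructor
  · rintro ⟨⟨x, y, z⟩, hp, h⟩
    exact low_E_congr G h.symm (mem_filter.1 hp).2
  · intro h
    exact ⟨(a, b, c), mem_filter.2 ⟨mem_univ _, h⟩, rfl⟩

/-- six ordered triples for every edge -/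
theorem low_six {n : ℕ} (H : Finset (Finset (Fin n))) (hH : ∀ e ∈ H, e.card = 3) :
    (univ.filter (fun p : Fin n × Fin n × Fin n =>
      ({p.1, p.2.1, p.2.2} : Finset (Fin n)) ∈ H)).card = 6 * H.card := by
  rw [card_eq_sum_card_fiberwise (f := fun p : Fin n × Fin n × Fin n =>
    ({p.1, p.2.1, p.2.2} : Finset (Fin n))) (t := H) (s := univ.filter
      (fun p : Fin n × Fin n × Fin n => ({p.1, p.2.1, p.2.2} : Finset (Fin n)) ∈ H))
    (fun p hp => (mem_filter.1 (mem_coe.1 hp)).2)]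
  rw [mul_comm, ← smul_eq_mul, ← sum_const]
  refine sum_congr rfl fun e he => ?_
  obtain ⟨a, b, c, hab, hac, hbc, rfl⟩ := card_eq_three.1 (hH e he)
  rw [← low_triples hab hac hbc]
  congr 1
  ext p
  simp only [mem_filter, mem_univ, true_and]
  constructor
  · exact fun h => h.2
  · exact fun h => ⟨h ▸ he, h⟩

theorem low_card_edges {n : ℕ} (G : TG (Fin n)) :
    (univ.filter (fun p : Fin n × Fin n × Fin n => G.E p.1 p.2.1 p.2.2 = true)).card
      = 6 * (low_edges G).card := by
  rw [← low_six (low_edges G)]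
  · congr 1
    ext p
    simp only [mem_filter, mem_univ, true_and]
    exact (low_mem_edges G).symm
  · intro e he
    rw [low_edges, mem_image] at he
    obtain ⟨p, hp, rfl⟩ := he
    obtain ⟨h1, h2, h3⟩ := low_E_ne G (mem_filter.1 hp).2
    exact low_card h1 h2 h3

/-! ### the extremal function -/

/-- the extremal function, exactly as in the frozen statement S08151 -/
noncomputable def exK4m (n : ℕ) : ℕ :=
  sSup {m : ℕ | ∃ H : Finset (Finset (Fin n)),
            (∀ e ∈ H, e.card = 3) ∧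
            (∀ a b c d : Fin n, a ≠ b → a ≠ c → a ≠ d → b ≠ c → b ≠ d → c ≠ d →
              ¬ (({a, b, c} : Finset (Fin n)) ∈ H ∧ ({a, b, d} : Finset (Fin n)) ∈ H ∧
                  ({a, c, d} : Finset (Fin n)) ∈ H)) ∧
            H.card = m}

/-- admissible systems -/
def Adm (n : ℕ) (H : Finset (Finset (Fin n))) : Prop :=
  (∀ e ∈ H, e.card = 3) ∧
            (∀ a b c d : Fin n, a ≠ b → a ≠ c → a ≠ d → b ≠ c → b ≠ d → c ≠ d →
              ¬ (({a, b, c} : Finset (Fin n)) ∈ H ∧ ({a, b, d} : Finset (Fin n)) ∈ H ∧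
                  ({a, c, d} : Finset (Fin n)) ∈ H))

theorem low_bdd (n : ℕ) : BddAbove {m : ℕ | ∃ H : Finset (Finset (Fin n)),
            (∀ e ∈ H, e.card = 3) ∧
            (∀ a b c d : Fin n, a ≠ b → a ≠ c → a ≠ d → b ≠ c → b ≠ d → c ≠ d →
              ¬ (({a, b, c} : Finset (Fin n)) ∈ H ∧ ({a, b, d} : Finset (Fin n)) ∈ H ∧
                  ({a, c, d} : Finset (Fin n)) ∈ H)) ∧
            H.card = m} := by
  refine ⟨Fintype.card (Finset (Fin n)), ?_⟩
  rintro m ⟨H, _, _, rfl⟩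
  exact card_le_univ H

theorem low_le_ex {n : ℕ} {H : Finset (Finset (Fin n))} (hH : Adm n H) : H.card ≤ exK4m n :=
  le_csSup (low_bdd n) ⟨H, hH.1, hH.2, rfl⟩

theorem low_exists_ex (n : ℕ) : ∃ H : Finset (Finset (Fin n)), Adm n H ∧ H.card = exK4m n := by
  have h : exK4m n ∈ {m : ℕ | ∃ H : Finset (Finset (Fin n)),
            (∀ e ∈ H, e.card = 3) ∧
            (∀ a b c d : Fin n, a ≠ b → a ≠ c → a ≠ d → b ≠ c → b ≠ d → c ≠ d →
              ¬ (({a, b, c} : Finset (Fin n)) ∈ H ∧ ({a, b, d} : Finset (Fin n)) ∈ H ∧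
                  ({a, c, d} : Finset (Fin n)) ∈ H)) ∧
            H.card = m} := by
    refine Nat.sSup_mem ⟨0, ∅, ?_, ?_, rfl⟩ (low_bdd n)
    · intro e he
      exact absurd he (notMem_empty e)
    · intro a b c d _ _ _ _ _ _ h
      exact absurd h.1 (notMem_empty _)
  obtain ⟨H, h1, h2, h3⟩ := h
  exact ⟨H, ⟨h1, h2⟩, h3⟩

theorem low_adm_edges {n : ℕ} (G : TG (Fin n)) : Adm n (low_edges G) := by
  refine ⟨?_, ?_⟩
  · intro e he
    rw [low_edges, mem_image] at he
    obtain ⟨p, hp, rfl⟩ := he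
    obtain ⟨h1, h2, h3⟩ := low_E_ne G (mem_filter.1 hp).2
    exact low_card h1 h2 h3
  · intro a b c d _ _ _ _ _ _ h
    rw [low_mem_edges, low_mem_edges, low_mem_edges] at h
    exact G.free a b c d h

/-- the weighted 3-graph of an admissible system -/
def low_TG {n : ℕ} (H : Finset (Finset (Fin n))) (hH : Adm n H) : TG (Fin n) where
  E x y z := decide (({x, y, z} : Finset (Fin n)) ∈ H)
  symm₁ x y z := by
    have : ({y, x, z} : Finset (Fin n)) = {x, y, z} := by ext t; simp; tauto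
    rw [this]
  symm₂ x y z := by
    have : ({x, z, y} : Finset (Fin n)) = {x, y, z} := by ext t; simp; tauto
    rw [this]
  irr x z := by
    refine decide_eq_false fun h => ?_
    exact (low_ne (hH.1 _ h)).1 rfl
  free a b c d := by
    rintro ⟨h1, h2, h3⟩
    have h1 := of_decide_eq_true h1
    have h2 := of_decide_eq_true h2
    have h3 := of_decide_eq_true h3
    obtain ⟨hab, hac, hbc⟩ := low_ne (hH.1 _ h1)
    obtain ⟨_, had, hbd⟩ := low_ne (hH.1 _ h2)
    obtain ⟨_, _, hcd⟩ := low_ne (hH.1 _ h3)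
    exact hH.2 a b c d hab hac had hbc hbd hcd ⟨h1, h2, h3⟩

theorem low_sum_ind {n : ℕ} (G : TG (Fin n)) :
    ∑ x, ∑ y, ∑ z, ind (G.E x y z) = 6 * ((low_edges G).card : ℝ) := by
  have h1 : ∑ x, ∑ y, ∑ z, ind (G.E x y z)
      = ((univ.filter (fun p : Fin n × Fin n × Fin n => G.E p.1 p.2.1 p.2.2 = true)).card : ℝ) := by
    rw [card_filter]
    push_cast
    rw [Fintype.sum_prod_type]
    refine sum_congr rfl fun x _ => ?_
    rw [Fintype.sum_prod_type]
    refine sum_congr rfl fun y _ => sum_congr rfl fun z _ => ?_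
    rfl
  rw [h1, low_card_edges]
  push_cast
  rfl

theorem exK4m_le (n : ℕ) : 6 * (exK4m n : ℝ) ≤ rho * (n : ℝ) ^ 3 := by
  obtain ⟨H, hH, hc⟩ := low_exists_ex n
  rw [← hc]
  rcases Nat.eq_zero_or_pos n with rfl | hn
  · have : H = ∅ := by
      rw [eq_empty_iff_forall_notMem]
      intro e he
      have h1 := hH.1 e he
      have h2 := card_le_univ e
      rw [Fintype.card_fin] at h2
      omega
    rw [this]
    simp
  · have hn' : (0 : ℝ) < n := Nat.cast_pos.2 hn
    set G := low_TG H hH with hG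
    have hHG : low_edges G = H := by
      ext e
      constructor
      · intro he
        rw [low_edges, mem_image] at he
        obtain ⟨p, hp, rfl⟩ := he
        exact of_decide_eq_true (mem_filter.1 hp).2
      · intro he
        obtain ⟨a, b, c, _, _, _, rfl⟩ := card_eq_three.1 (hH.1 e he)
        rw [low_mem_edges]
        exact decide_eq_true he
    have hw : IsW (fun _ : Fin n => (1 : ℝ) / n) := by
      refine ⟨fun _ => by positivity, ?_⟩
      rw [sum_const, card_univ, Fintype.card_fin, nsmul_eq_mul]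
      field_simp
    have h1 := val_le_rho G _ hw
    have h2 : val G (fun _ : Fin n => (1 : ℝ) / n) = 6 * (H.card : ℝ) / (n : ℝ) ^ 3 := by
      rw [← hHG, ← low_sum_ind, K4m.val, sum_div]
      refine sum_congr rfl fun x _ => ?_
      rw [sum_div]
      refine sum_congr rfl fun y _ => ?_
      rw [sum_div]
      refine sum_congr rfl fun z _ => ?_
      ring
    rw [h2, div_le_iff₀ (by positivity)] at h1
    exact h1

/-! ### push-forward of weights -/

/-- push-forward of weights -/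
noncomputable def low_push {V W : Type} [Fintype W] [DecidableEq V] (φ : W → V) (w : W → ℝ) (v : V) : ℝ :=
  ∑ x ∈ univ.filter (fun x => φ x = v), w x

theorem low_sum_push {V W : Type} [Fintype V] [Fintype W] [DecidableEq V] (φ : W → V) (w : W → ℝ)
    (F : V → ℝ) : ∑ x, w x * F (φ x) = ∑ v, low_push φ w v * F v := by
  rw [← sum_fiberwise univ φ]
  refine sum_congr rfl fun v _ => ?_
  rw [low_push, sum_mul]
  refine sum_congr rfl fun x hx => ?_
  rw [(mem_filter.1 hx).2]

theorem low_val_eq {V : Type} [Fintype V] (G : TG V) (w : V → ℝ) :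
    val G w = ∑ x, w x * ∑ y, w y * ∑ z, w z * ind (G.E x y z) := by
  unfold K4m.val
  refine sum_congr rfl fun x _ => ?_
  rw [mul_sum]
  refine sum_congr rfl fun y _ => ?_
  rw [mul_sum, mul_sum]
  refine sum_congr rfl fun z _ => ?_
  ring

theorem low_val_pull {V W : Type} [Fintype V] [Fintype W] [DecidableEq V] (G : TG V) (φ : W → V)
    (w : W → ℝ) : val (G.pull φ) w = val G (low_push φ w) := by
  rw [low_val_eq, low_val_eq]
  have h1 : ∀ a b : V, ∑ z, w z * ind (G.E a b (φ z)) = ∑ c, low_push φ w c * ind (G.E a b c) :=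
    fun a b => low_sum_push φ w (fun c => ind (G.E a b c))
  have h2 : ∀ a : V, ∑ y, w y * ∑ z, w z * ind (G.E a (φ y) (φ z))
      = ∑ b, low_push φ w b * ∑ c, low_push φ w c * ind (G.E a b c) := by
    intro a
    rw [← low_sum_push φ w (fun b => ∑ c, low_push φ w c * ind (G.E a b c))]
    exact sum_congr rfl fun y _ => by rw [h1]
  rw [← low_sum_push φ w (fun a => ∑ b, low_push φ w b * ∑ c, low_push φ w c * ind (G.E a b c))]
  exact sum_congr rfl fun x _ => by rw [← h2]; rfl

/-! ### the six vertex design -/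

/-- the 3-graph of the six vertex triangulation of the projective plane -/
def D6 : TG (Fin 6) where
  E x y z := [7, 11, 21, 41, 49, 38, 26, 50, 28, 44].contains
    (2 ^ (x : ℕ) + 2 ^ (y : ℕ) + 2 ^ (z : ℕ))
  symm₁ := by decide +kernel
  symm₂ := by decide +kernel
  irr := by decide +kernel
  free := by decide +kernel

theorem low_D6_count :
    (univ.filter (fun p : Fin 6 × Fin 6 × Fin 6 => D6.E p.1 p.2.1 p.2.2 = true)).card = 60 := by
  decide +kernel

theorem low_D6_sum : ∑ x, ∑ y, ∑ z, ind (D6.E x y z) = 60 := by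
  have h := low_D6_count
  have h1 : ∑ x, ∑ y, ∑ z, ind (D6.E x y z)
      = ((univ.filter (fun p : Fin 6 × Fin 6 × Fin 6 => D6.E p.1 p.2.1 p.2.2 = true)).card : ℝ) := by
    rw [card_filter]
    push_cast
    rw [Fintype.sum_prod_type]
    refine sum_congr rfl fun x _ => ?_
    rw [Fintype.sum_prod_type]
    refine sum_congr rfl fun y _ => sum_congr rfl fun z _ => ?_
    rfl
  rw [h1, h]
  norm_num

/-- six copies of `G`, joined by the design -/
def low_comp {V : Type} (G : TG V) : TG (Fin 6 × V) where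
  E x y z := if x.1 = y.1 ∧ y.1 = z.1 then G.E x.2 y.2 z.2 else D6.E x.1 y.1 z.1
  symm₁ x y z := by
    by_cases h : x.1 = y.1 ∧ y.1 = z.1
    · rw [if_pos h, if_pos ⟨h.1.symm, h.1.trans h.2⟩, G.symm₁]
    · rw [if_neg h, if_neg (fun h' => h ⟨h'.1.symm, h'.1.trans h'.2⟩), D6.symm₁]
  symm₂ x y z := by
    by_cases h : x.1 = y.1 ∧ y.1 = z.1
    · rw [if_pos h, if_pos ⟨h.1.trans h.2, h.2.symm⟩, G.symm₂]
    · rw [if_neg h, if_neg (fun h' => h ⟨h'.1.trans h'.2, h'.2.symm⟩), D6.symm₂]
  irr x z := by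
    by_cases h : x.1 = z.1
    · rw [if_pos ⟨rfl, h⟩, G.irr]
    · rw [if_neg (fun h' => h h'.2), D6.irr]
  free a b c d := by
    rintro ⟨h1, h2, h3⟩
    by_cases hab : a.1 = b.1
    · have hc : b.1 = c.1 := by
        by_contra hne
        rw [if_neg (fun h' => hne h'.2), hab, D6.irr] at h1
        exact Bool.noConfusion h1
      have hd : b.1 = d.1 := by
        by_contra hne
        rw [if_neg (fun h' => hne h'.2), hab, D6.irr] at h2
        exact Bool.noConfusion h2
      rw [if_pos ⟨hab, hc⟩] at h1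
      rw [if_pos ⟨hab, hd⟩] at h2
      rw [if_pos ⟨hab.trans hc, hc.symm.trans hd⟩] at h3
      exact G.free _ _ _ _ ⟨h1, h2, h3⟩
    · rw [if_neg (fun h' => hab h'.1)] at h1 h2
      by_cases hacd : a.1 = c.1 ∧ c.1 = d.1
      · rw [← hacd.1, D6.symm₂, D6.irr] at h1
        exact Bool.noConfusion h1
      · rw [if_neg hacd] at h3
        exact D6.free _ _ _ _ ⟨h1, h2, h3⟩

theorem low_ind_comp {V : Type} (G : TG V) (x y z : Fin 6 × V) :
    ind ((low_comp G).E x y z) = ind (D6.E x.1 y.1 z.1)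
      + if x.1 = y.1 ∧ y.1 = z.1 then ind (G.E x.2 y.2 z.2) else 0 := by
  show ind (if x.1 = y.1 ∧ y.1 = z.1 then G.E x.2 y.2 z.2 else D6.E x.1 y.1 z.1) = _
  by_cases h : x.1 = y.1 ∧ y.1 = z.1
  · rw [if_pos h, if_pos h, h.1, D6.irr]
    simp [ind]
  · rw [if_neg h, if_neg h, add_zero]

theorem low_val_comp {V : Type} [Fintype V] (G : TG V) (w : V → ℝ) (hw : IsW w) :
    val (low_comp G) (fun x => w x.2 / 6) = 5 / 18 + val G w / 36 := by
  have h1 : val (low_comp G) (fun x => w x.2 / 6) = val (D6.pull Prod.fst) (fun x : Fin 6 × V => w x.2 / 6)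
      + ∑ x : Fin 6 × V, ∑ y : Fin 6 × V, ∑ z : Fin 6 × V, (w x.2 / 6) * (w y.2 / 6) * (w z.2 / 6) *
        (if x.1 = y.1 ∧ y.1 = z.1 then ind (G.E x.2 y.2 z.2) else 0) := by
    unfold K4m.val
    rw [← sum_add_distrib]
    refine sum_congr rfl fun x _ => ?_
    rw [← sum_add_distrib]
    refine sum_congr rfl fun y _ => ?_
    rw [← sum_add_distrib]
    refine sum_congr rfl fun z _ => ?_
    rw [low_ind_comp, mul_add]
    rfl
  have hpush : low_push (Prod.fst : Fin 6 × V → Fin 6) (fun x => w x.2 / 6) = fun _ => 1 / 6 := by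
    funext i
    unfold low_push
    rw [sum_filter, Fintype.sum_prod_type]
    simp only
    have : ∀ j : Fin 6, (∑ v : V, if j = i then w v / 6 else 0) = if j = i then 1 / 6 else 0 := by
      intro j
      split_ifs
      · rw [← sum_div, hw.sum_eq]
      · simp
    rw [sum_congr rfl fun j _ => this j, sum_ite_eq' univ i, if_pos (mem_univ _)]
  have h2 : val (D6.pull Prod.fst) (fun x : Fin 6 × V => w x.2 / 6) = 5 / 18 := by
    rw [low_val_pull, hpush]
    have : val D6 (fun _ => (1 : ℝ) / 6) = (∑ x, ∑ y, ∑ z, ind (D6.E x y z)) / 216 := by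
      unfold K4m.val
      rw [sum_div]
      refine sum_congr rfl fun x _ => ?_
      rw [sum_div]
      refine sum_congr rfl fun y _ => ?_
      rw [sum_div]
      refine sum_congr rfl fun z _ => ?_
      ring
    rw [this, low_D6_sum]
    norm_num
  have h3 : ∑ x : Fin 6 × V, ∑ y : Fin 6 × V, ∑ z : Fin 6 × V, (w x.2 / 6) * (w y.2 / 6) * (w z.2 / 6) *
        (if x.1 = y.1 ∧ y.1 = z.1 then ind (G.E x.2 y.2 z.2) else 0) = val G w / 36 := by
    have e1 : ∀ (i : Fin 6) (a : V), ∑ y : Fin 6 × V, ∑ z : Fin 6 × V,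
        (w a / 6) * (w y.2 / 6) * (w z.2 / 6) *
        (if i = y.1 ∧ y.1 = z.1 then ind (G.E a y.2 z.2) else 0)
        = ∑ b : V, ∑ c : V, w a * w b * w c * ind (G.E a b c) / 216 := by
      intro i a
      rw [Fintype.sum_prod_type]
      rw [sum_eq_single i]
      · refine sum_congr rfl fun b _ => ?_
        rw [Fintype.sum_prod_type, sum_eq_single i]
        · refine sum_congr rfl fun c _ => ?_
          simp only [and_self, if_true]
          ring
        · intro j _ hj
          refine sum_eq_zero fun c _ => ?_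
          rw [if_neg (fun h => hj h.2.symm), mul_zero]
        · intro h
          exact absurd (mem_univ _) h
      · intro j _ hj
        refine sum_eq_zero fun b _ => sum_eq_zero fun z _ => ?_
        rw [if_neg (fun h => hj h.1.symm), mul_zero]
      · intro h
        exact absurd (mem_univ _) h
    rw [Fintype.sum_prod_type]
    have e2 : ∀ i : Fin 6, ∑ a : V, ∑ y : Fin 6 × V, ∑ z : Fin 6 × V,
        (w a / 6) * (w y.2 / 6) * (w z.2 / 6) *
        (if i = y.1 ∧ y.1 = z.1 then ind (G.E a y.2 z.2) else 0) = val G w / 216 := by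
      intro i
      rw [sum_congr rfl fun a _ => e1 i a]
      unfold K4m.val
      rw [sum_div]
      refine sum_congr rfl fun a _ => ?_
      rw [sum_div]
      refine sum_congr rfl fun b _ => ?_
      rw [sum_div]
    rw [sum_congr rfl fun i _ => e2 i, sum_const, card_univ, Fintype.card_fin, nsmul_eq_mul]
    push_cast
    ring
  rw [h1, h2, h3]

theorem low_isW_comp {V : Type} [Fintype V] (w : V → ℝ) (hw : IsW w) :
    IsW (fun x : Fin 6 × V => w x.2 / 6) := by
  refine ⟨fun x => div_nonneg (hw.nonneg _) (by norm_num), ?_⟩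
  rw [Fintype.sum_prod_type]
  simp only
  rw [sum_const, card_univ, Fintype.card_fin, ← sum_div, hw.sum_eq, nsmul_eq_mul]
  norm_num

theorem two_sevenths_le_rho : 2 / 7 ≤ rho := by
  have h : rho ≤ 36 * (rho - 5 / 18) := by
    refine csSup_le ?_ ?_
    · refine ⟨0, 1, ⟨fun _ _ _ => false, fun _ _ _ => rfl, fun _ _ _ => rfl, fun _ _ => rfl,
        fun _ _ _ _ h => Bool.noConfusion h.1⟩, fun _ => 1, ⟨fun _ => zero_le_one, by simp⟩, ?_⟩
      simp [K4m.val, ind]
    · rintro t ⟨n, G, w, hw, rfl⟩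
      have h1 := val_le_rho (low_comp G) _ (low_isW_comp w hw)
      rw [low_val_comp G w hw] at h1
      linarith
  linarith

/-! ### the limit -/

open Filter Topology

/-- `n^3 / 6 / C(n,3) → 1` -/
theorem low_ratio : Tendsto (fun n : ℕ => (n : ℝ) ^ 3 / 6 / ((n.choose 3 : ℕ) : ℝ)) atTop (𝓝 1) := by
  have h1 := (isEquivalent_choose 3).symm
  have h2 : ∀ᶠ n : ℕ in atTop, (fun n : ℕ => ((n.choose 3 : ℕ) : ℝ)) n ≠ 0 := by
    filter_upwards [eventually_ge_atTop 3] with n hn
    have := Nat.choose_pos hn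
    exact_mod_cast this.ne'
  have h3 := (Asymptotics.isEquivalent_iff_tendsto_one h2).1 h1
  refine h3.congr fun n => ?_
  simp only [Pi.div_apply]
  have : (Nat.factorial 3 : ℕ) = 6 := rfl
  rw [this]
  norm_num

/-- a blow-up with almost prescribed class sizes -/
theorem low_blow {k n : ℕ} (m : Fin k → ℕ) (h : ∑ a, m a ≤ n) (hk : 0 < k) :
    ∃ φ : Fin n → Fin k, ∀ a, m a ≤ (univ.filter (fun x => φ x = a)).card := by
  classical
  have h1 : Fintype.card (Σ a : Fin k, Fin (m a)) ≤ Fintype.card (Fin n) := by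
    rw [Fintype.card_sigma, Fintype.card_fin]
    simpa using h
  obtain ⟨f⟩ := Function.Embedding.nonempty_of_card_le h1
  refine ⟨fun x => if hx : ∃ p, f p = x then hx.choose.1 else ⟨0, hk⟩, fun a => ?_⟩
  calc m a = (univ : Finset (Fin (m a))).card := by rw [card_univ, Fintype.card_fin]
    _ ≤ _ := card_le_card_of_injOn (fun j => f ⟨a, j⟩) ?_ ?_
  · intro j _
    refine mem_coe.2 (mem_filter.2 ⟨mem_univ _, ?_⟩)
    have hx : ∃ p, f p = f ⟨a, j⟩ := ⟨_, rfl⟩
    show (if hx : ∃ p, f p = f ⟨a, j⟩ then hx.choose.1 else ⟨0, hk⟩) = a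
    rw [dif_pos hx]
    have := f.injective hx.choose_spec
    rw [this]
  · intro j _ j' _ hjj
    have := f.injective hjj
    simpa using this

theorem low_ex_ge {k n : ℕ} (G : TG (Fin k)) (m : Fin k → ℕ) (h : ∑ a, m a ≤ n) (hk : 0 < k) :
    ∑ a, ∑ b, ∑ c, (m a : ℝ) * m b * m c * ind (G.E a b c) ≤ 6 * (exK4m n : ℝ) := by
  obtain ⟨φ, hφ⟩ := low_blow m h hk
  have h1 : ((low_edges (G.pull φ)).card : ℝ) ≤ exK4m n := by
    exact_mod_cast low_le_ex (low_adm_edges (G.pull φ))
  have h2 := low_sum_ind (G.pull φ)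
  have h3 : ∑ x, ∑ y, ∑ z, ind ((G.pull φ).E x y z) = K4m.val (G.pull φ) (fun _ => 1) := by
    unfold K4m.val
    refine sum_congr rfl fun x _ => sum_congr rfl fun y _ => sum_congr rfl fun z _ => ?_
    ring
  rw [low_val_pull] at h3
  have h4 : ∀ a, (m a : ℝ) ≤ low_push φ (fun _ => 1) a := by
    intro a
    unfold low_push
    rw [sum_const, nsmul_eq_mul, mul_one]
    exact_mod_cast hφ a
  have h5 : ∑ a, ∑ b, ∑ c, (m a : ℝ) * m b * m c * ind (G.E a b c)
      ≤ K4m.val G (low_push φ (fun _ => 1)) := by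
    unfold K4m.val
    refine sum_le_sum fun a _ => sum_le_sum fun b _ => sum_le_sum fun c _ => ?_
    have h6 : 0 ≤ ind (G.E a b c) := by
      unfold ind
      split_ifs <;> norm_num
    refine mul_le_mul_of_nonneg_right ?_ h6
    have ha := h4 a
    have hb := h4 b
    have hc := h4 c
    have e1 : (0 : ℝ) ≤ m a := Nat.cast_nonneg _
    have e2 : (0 : ℝ) ≤ m b := Nat.cast_nonneg _
    have e3 : (0 : ℝ) ≤ m c := Nat.cast_nonneg _
    exact mul_le_mul (mul_le_mul ha hb e2 (e1.trans ha)) hc e3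
      (mul_nonneg (e1.trans ha) (e2.trans hb))
  linarith

theorem low_upper (n : ℕ) (hn : 3 ≤ n) :
    (exK4m n : ℝ) / ((n.choose 3 : ℕ) : ℝ) ≤ rho * ((n : ℝ) ^ 3 / 6 / ((n.choose 3 : ℕ) : ℝ)) := by
  have hc : (0 : ℝ) < ((n.choose 3 : ℕ) : ℝ) := by exact_mod_cast Nat.choose_pos hn
  have h := exK4m_le n
  rw [div_le_iff₀ hc]
  have : rho * ((n : ℝ) ^ 3 / 6 / ((n.choose 3 : ℕ) : ℝ)) * ((n.choose 3 : ℕ) : ℝ)
      = rho * (n : ℝ) ^ 3 / 6 := by
    field_simp
  rw [this]
  linarith

theorem low_lower {k : ℕ} (G : TG (Fin k)) (w : Fin k → ℝ) (hw : IsW w) :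
    ∃ F : ℕ → ℝ, Tendsto F atTop (𝓝 (K4m.val G w)) ∧
      ∀ n : ℕ, 3 ≤ n → F n ≤ (exK4m n : ℝ) / ((n.choose 3 : ℕ) : ℝ) := by
  have hk : 0 < k := by
    rcases Nat.eq_zero_or_pos k with rfl | h
    · have := hw.sum_eq
      simp at this
    · exact h
  refine ⟨fun n => (∑ a, ∑ b, ∑ c, ((⌊w a * n⌋₊ : ℝ) / n) * ((⌊w b * n⌋₊ : ℝ) / n)
    * ((⌊w c * n⌋₊ : ℝ) / n) * ind (G.E a b c)) * ((n : ℝ) ^ 3 / 6 / ((n.choose 3 : ℕ) : ℝ)),
    ?_, ?_⟩
  · have h1 : ∀ a, Tendsto (fun n : ℕ => (⌊w a * n⌋₊ : ℝ) / n) atTop (𝓝 (w a)) := fun a =>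
      (tendsto_nat_floor_mul_div_atTop (hw.nonneg a)).comp tendsto_natCast_atTop_atTop
    have h2 : Tendsto (fun n : ℕ => ∑ a, ∑ b, ∑ c, ((⌊w a * n⌋₊ : ℝ) / n) * ((⌊w b * n⌋₊ : ℝ) / n)
        * ((⌊w c * n⌋₊ : ℝ) / n) * ind (G.E a b c)) atTop (𝓝 (K4m.val G w)) := by
      unfold K4m.val
      refine tendsto_finsetSum _ fun a _ => tendsto_finsetSum _ fun b _ =>
        tendsto_finsetSum _ fun c _ => ?_
      exact (((h1 a).mul (h1 b)).mul (h1 c)).mul tendsto_const_nhds
    have h3 := h2.mul low_ratio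
    rwa [mul_one] at h3
  · intro n hn
    have hn' : (0 : ℝ) < n := by
      have : 0 < n := by omega
      exact_mod_cast this
    have hc : (0 : ℝ) < ((n.choose 3 : ℕ) : ℝ) := by exact_mod_cast Nat.choose_pos hn
    have hsum : ∑ a, ⌊w a * n⌋₊ ≤ n := by
      have : ((∑ a, ⌊w a * n⌋₊ : ℕ) : ℝ) ≤ n := by
        push_cast
        calc ∑ a, (⌊w a * n⌋₊ : ℝ) ≤ ∑ a, w a * n :=
              sum_le_sum fun a _ => Nat.floor_le (mul_nonneg (hw.nonneg a) hn'.le)
          _ = n := by rw [← sum_mul, hw.sum_eq, one_mul]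
      exact_mod_cast this
    have h1 := low_ex_ge G (fun a => ⌊w a * n⌋₊) hsum hk
    have h2 : (∑ a, ∑ b, ∑ c, ((⌊w a * n⌋₊ : ℝ) / n) * ((⌊w b * n⌋₊ : ℝ) / n)
        * ((⌊w c * n⌋₊ : ℝ) / n) * ind (G.E a b c))
        = (∑ a, ∑ b, ∑ c, (⌊w a * n⌋₊ : ℝ) * ⌊w b * n⌋₊ * ⌊w c * n⌋₊ * ind (G.E a b c))
          / (n : ℝ) ^ 3 := by
      rw [sum_div]
      refine sum_congr rfl fun a _ => ?_
      rw [sum_div]
      refine sum_congr rfl fun b _ => ?_
      rw [sum_div]
      refine sum_congr rfl fun c _ => ?_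
      field_simp
    simp only
    rw [h2, le_div_iff₀ hc]
    have h3 : ∀ S : ℝ, S / (n : ℝ) ^ 3 * ((n : ℝ) ^ 3 / 6 / ((n.choose 3 : ℕ) : ℝ))
        * ((n.choose 3 : ℕ) : ℝ) = S / 6 := by
      intro S
      field_simp
    rw [h3]
    linarith

/-- `rho` is the Turan density (also gives `2/7 ≤ rho`) -/
theorem tendsto_rho :
    Filter.Tendsto (fun n : ℕ => (exK4m n : ℝ) / ((n.choose 3 : ℕ) : ℝ)) Filter.atTop
      (nhds rho) := by
  rw [tendsto_order]
  constructor
  · intro a ha
    obtain ⟨t, ⟨k, G, w, hw, rfl⟩, hat⟩ := exists_lt_of_lt_csSup (by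
      refine ⟨0, 1, ⟨fun _ _ _ => false, fun _ _ _ => rfl, fun _ _ _ => rfl, fun _ _ => rfl,
        fun _ _ _ _ h => Bool.noConfusion h.1⟩, fun _ => 1, ⟨fun _ => zero_le_one, by simp⟩, ?_⟩
      simp [K4m.val, ind]) ha
    obtain ⟨F, hF1, hF2⟩ := low_lower G w hw
    filter_upwards [(tendsto_order.1 hF1).1 a hat, eventually_ge_atTop 3] with n h1 h2
    exact h1.trans_le (hF2 n h2)
  · intro a ha
    have h1 : Tendsto (fun n : ℕ => rho * ((n : ℝ) ^ 3 / 6 / ((n.choose 3 : ℕ) : ℝ))) atTop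
        (𝓝 rho) := by
      have := low_ratio.const_mul rho
      rwa [mul_one] at this
    filter_upwards [(tendsto_order.1 h1).2 a ha, eventually_ge_atTop 3] with n h2 h3
    exact (low_upper n h3).trans_lt h2

theorem two_sevenths_le_liminf (ε : ℝ) (hε : 0 < ε) :
    ∀ᶠ n in Filter.atTop, 2 / 7 - ε < (exK4m n : ℝ) / ((n.choose 3 : ℕ) : ℝ) := by
  have h := two_sevenths_le_rho
  exact (tendsto_order.1 tendsto_rho).1 _ (by linarith)

end K4m
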