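import Mathlib
import Pool.Agent.Lib.MP_392c14_co.Lower

/-!
# Step E of the exact determination of `pi(K_4^-)`: the counting lemma, part A (definitions and
symmetric triple sums)
-/

set_option autoImplicit false

namespace K4m

open Finset

/-- indicator of a block of the six vertex design -/
def blk (i j k : Fin 6) : ℝ := ind (D6.E i j k)

/-- indicator of three equal classes -/
def e3 (i j k : Fin 6) : ℝ := if i = j ∧ j = k then 1 else 0

/-- indicator of `i = j ≠ k` -/
def p1 (i j k : Fin 6) : ℝ := if i = j ∧ j ≠ k then 1 else 0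

/-- indicator of three different classes which do not form a block -/
def nbl (i j k : Fin 6) : ℝ :=
  if i ≠ j ∧ i ≠ k ∧ j ≠ k ∧ D6.E i j k = false then 1 else 0

theorem ind_cases (b : Bool) : (b = true ∧ ind b = 1) ∨ (b = false ∧ ind b = 0) := by
  cases b <;> simp [ind]

theorem ind_true {b : Bool} (h : b = true) : ind b = 1 := by simp [ind, h]

theorem ind_false {b : Bool} (h : b = false) : ind b = 0 := by simp [ind, h]

theorem blk_nonneg (i j k : Fin 6) : 0 ≤ blk i j k := ind_nonneg _

theorem blk_le_one (i j k : Fin 6) : blk i j k ≤ 1 := ind_le_one _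

theorem blk_swap12 (i j k : Fin 6) : blk j i k = blk i j k := by
  unfold blk; rw [D6.symm₁]

theorem blk_swap23 (i j k : Fin 6) : blk i k j = blk i j k := by
  unfold blk; rw [D6.symm₂]

theorem D6_irr2 (i j : Fin 6) : D6.E i j i = false := by rw [D6.symm₂, D6.irr]

theorem D6_irr3 (i j : Fin 6) : D6.E i j j = false := by rw [D6.symm₁, D6.symm₂, D6.irr]

theorem blk_irr1 (i j : Fin 6) : blk i i j = 0 := ind_false (D6.irr i j)

theorem blk_irr2 (i j : Fin 6) : blk i j i = 0 := ind_false (D6_irr2 i j)

theorem blk_irr3 (i j : Fin 6) : blk i j j = 0 := ind_false (D6_irr3 i j)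

theorem pattern_sum (i j k : Fin 6) :
    e3 i j k + p1 i j k + p1 i k j + p1 j k i + nbl i j k + blk i j k = 1 := by
  unfold e3 p1 nbl
  by_cases h1 : i = j
  · subst h1
    by_cases h2 : i = k
    · subst h2; simp [blk_irr1]
    · have h3 : ¬ k = i := fun h => h2 h.symm
      simp [blk_irr1, h2]
  · by_cases h2 : i = k
    · subst h2
      have h3 : ¬ j = i := fun h => h1 h.symm
      simp [blk_irr2, h1, h3]
    · by_cases h3 : j = k
      · subst h3
        have h4 : ¬ j = i := fun h => h1 h.symm
        simp [blk_irr3, h1, h4]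
      · have h4 : ¬ j = i := fun h => h1 h.symm
        have h5 : ¬ k = i := fun h => h2 h.symm
        have h6 : ¬ k = j := fun h => h3 h.symm
        rcases ind_cases (D6.E i j k) with ⟨h, h'⟩ | ⟨h, h'⟩
        · simp [h1, h2, h3, h, blk, ind]
        · simp [h1, h2, h3, h, blk, ind]

theorem nbl_nonneg (i j k : Fin 6) : 0 ≤ nbl i j k := by
  unfold nbl; split_ifs <;> norm_num

theorem p1_nonneg (i j k : Fin 6) : 0 ≤ p1 i j k := by
  unfold p1; split_ifs <;> norm_num

theorem e3_nonneg (i j k : Fin 6) : 0 ≤ e3 i j k := by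
  unfold e3; split_ifs <;> norm_num

theorem nbl_add_blk_le (i j k : Fin 6) : nbl i j k + blk i j k ≤ 1 := by
  have h := pattern_sum i j k
  have h1 := e3_nonneg i j k
  have h2 := p1_nonneg i j k
  have h3 := p1_nonneg i k j
  have h4 := p1_nonneg j k i
  linarith

theorem D6_two : ∀ i j : Fin 6, i ≠ j →
    (univ.filter (fun k => D6.E i j k = true)).card = 2 := by decide +kernel

theorem D6_nb1 : ∀ i j k : Fin 6, i ≠ j → i ≠ k → j ≠ k → D6.E i j k = false →
    ∃ l, D6.E i j l = true ∧ D6.E i k l = true := by decide +kernel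

section T3

variable {V : Type} [Fintype V] (w : V → ℝ)

/-- weighted triple sums -/
noncomputable def T3 (F : V → V → V → ℝ) : ℝ := ∑ x, ∑ y, ∑ z, w x * w y * w z * F x y z

theorem T3_swap12 (F : V → V → V → ℝ) : T3 w (fun x y z => F y x z) = T3 w F := by
  unfold T3
  rw [sum_comm]
  refine sum_congr rfl fun x _ => sum_congr rfl fun y _ => sum_congr rfl fun z _ => ?_
  ring

theorem T3_swap23 (F : V → V → V → ℝ) : T3 w (fun x y z => F x z y) = T3 w F := by
  unfold T3
  refine sum_congr rfl fun x _ => ?_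
  rw [sum_comm]
  refine sum_congr rfl fun y _ => sum_congr rfl fun z _ => ?_
  ring

theorem T3_swap13 (F : V → V → V → ℝ) : T3 w (fun x y z => F z y x) = T3 w F := by
  have h1 := T3_swap12 w (fun x y z => F z x y)
  have h2 := T3_swap23 w (fun x y z => F y x z)
  have h3 := T3_swap12 w F
  -- h1 : T3 (F z y x) = T3 (F z x y); h2 : T3 (F z x y) = T3 (F y x z)
  exact h1.trans (h2.trans h3)

/-- cyclic rotation -/
theorem T3_rot (F : V → V → V → ℝ) : T3 w (fun x y z => F z x y) = T3 w F := by
  have h2 := T3_swap23 w (fun x y z => F y x z)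
  exact h2.trans (T3_swap12 w F)

theorem T3_add (F H : V → V → V → ℝ) :
    T3 w (fun x y z => F x y z + H x y z) = T3 w F + T3 w H := by
  unfold T3
  simp only [mul_add, sum_add_distrib]

theorem T3_sub (F H : V → V → V → ℝ) :
    T3 w (fun x y z => F x y z - H x y z) = T3 w F - T3 w H := by
  unfold T3
  simp only [mul_sub, sum_sub_distrib]

theorem T3_mul (a : ℝ) (F : V → V → V → ℝ) :
    T3 w (fun x y z => a * F x y z) = a * T3 w F := by
  unfold T3
  simp only [mul_sum]
  refine sum_congr rfl fun x _ => sum_congr rfl fun y _ => sum_congr rfl fun z _ => ?_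
  ring

theorem T3_mono (hw : ∀ x, 0 ≤ w x) {F H : V → V → V → ℝ} (h : ∀ x y z, F x y z ≤ H x y z) :
    T3 w F ≤ T3 w H := by
  unfold T3
  refine sum_le_sum fun x _ => sum_le_sum fun y _ => sum_le_sum fun z _ => ?_
  exact mul_le_mul_of_nonneg_left (h x y z) (mul_nonneg (mul_nonneg (hw x) (hw y)) (hw z))

theorem T3_congr {F H : V → V → V → ℝ} (h : ∀ x y z, F x y z = H x y z) :
    T3 w F = T3 w H := by
  have : F = H := by funext x y z; exact h x y z
  rw [this]

/-- summing over the last variable first -/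
theorem T3_eq (F : V → V → V → ℝ) :
    T3 w F = ∑ x, w x * ∑ y, w y * ∑ z, w z * F x y z := by
  unfold T3
  refine sum_congr rfl fun x _ => ?_
  rw [mul_sum]
  refine sum_congr rfl fun y _ => ?_
  rw [mul_sum, mul_sum]
  refine sum_congr rfl fun z _ => ?_
  ring

theorem T3_fst (F : V → V → ℝ) (H : V → V → V → ℝ) :
    T3 w (fun x y z => F x y * H x y z) = ∑ x, w x * ∑ y, w y * (F x y * ∑ z, w z * H x y z) := by
  rw [T3_eq]
  refine sum_congr rfl fun x _ => ?_
  congr 1
  refine sum_congr rfl fun y _ => ?_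
  congr 1
  rw [mul_sum]
  refine sum_congr rfl fun z _ => ?_
  ring

theorem T3_prod (F : V → V → ℝ) :
    T3 w (fun x y z => F x y * F x z) = ∑ x, w x * (∑ y, w y * F x y) ^ 2 := by
  rw [T3_eq]
  refine sum_congr rfl fun x _ => ?_
  congr 1
  rw [sq, sum_mul]
  refine sum_congr rfl fun y _ => ?_
  have h1 : w y * F x y * ∑ z, w z * F x z = w y * ∑ z, w z * (F x y * F x z) := by
    rw [mul_assoc, mul_sum univ (fun z => w z * F x z) (F x y)]
    congr 1
    refine sum_congr rfl fun z _ => ?_
    ring
  rw [h1]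

end T3

section Defs

variable {V : Type} [Fintype V] (G : TG V) (w : V → ℝ) (c : V → Fin 6)

/-- mass of a class -/
noncomputable def cl (i : Fin 6) : ℝ := ∑ x, w x * (if c x = i then 1 else 0)

/-- mass of the third classes of a pair of classes -/
noncomputable def SS (i j : Fin 6) : ℝ := ∑ u, w u * blk i j (c u)

/-- missing codegree of a pair -/
noncomputable def miss (x z : V) : ℝ := ∑ u, w u * (blk (c x) (c z) (c u) * (1 - ind (G.E x z u)))

/-- missing degree of a vertex -/
noncomputable def mis (x : V) : ℝ := ∑ z, w z * miss G w c x z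

/-- mass of the common neighbours of `z, r` in the class of `z` -/
noncomputable def own (z r : V) : ℝ :=
  ∑ y, w y * ((if c y = c z then 1 else 0) * ind (G.E z y r))

end Defs

end K4m
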