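import Mathlib
import Pool.Agent.Lib.MP_392c14_co.CountA

/-!
# Step E: counting lemma, part B (charging bad edges to heavy pairs)
-/

set_option autoImplicit false

namespace K4m

open Finset

section B

variable {V : Type} [Fintype V] (G : TG V) (w : V → ℝ) (c : V → Fin 6)

/-- the pair has a noticeable missing codegree -/
noncomputable def chi (t : ℝ) (x z : V) : ℝ :=
  if c x ≠ c z ∧ t ≤ miss G w c x z then 1 else 0

/-- at least half of the codegree is missing -/
noncomputable def hv (x z : V) : ℝ :=
  if c x ≠ c z ∧ SS w c (c x) (c z) ≤ 2 * miss G w c x z then 1 else 0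

theorem chi_nonneg (t : ℝ) (x z : V) : 0 ≤ chi G w c t x z := by
  unfold chi; split_ifs <;> norm_num

theorem hv_nonneg (x z : V) : 0 ≤ hv G w c x z := by
  unfold hv; split_ifs <;> norm_num

theorem chi_zero_or_one (t : ℝ) (x z : V) : chi G w c t x z = 0 ∨ chi G w c t x z = 1 := by
  unfold chi; split_ifs
  · right; rfl
  · left; rfl

theorem hv_zero_or_one (x z : V) : hv G w c x z = 0 ∨ hv G w c x z = 1 := by
  unfold hv; split_ifs
  · right; rfl
  · left; rfl

theorem E_swap13 (x y z : V) : G.E z y x = G.E x y z := by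
  rw [G.symm₁, G.symm₂, G.symm₁]

theorem E_rot (x y z : V) : G.E z x y = G.E x y z := by
  rw [G.symm₁, G.symm₂]

theorem miss_symm (x z : V) : miss G w c z x = miss G w c x z := by
  unfold miss
  refine sum_congr rfl fun u _ => ?_
  rw [blk_swap12, G.symm₁]

theorem SS_symm (i j : Fin 6) : SS w c j i = SS w c i j := by
  unfold SS
  refine sum_congr rfl fun u _ => ?_
  rw [blk_swap12]

theorem chi_symm (t : ℝ) (x z : V) : chi G w c t z x = chi G w c t x z := by
  unfold chi
  rw [miss_symm]
  by_cases h : c x = c z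
  · rw [if_neg, if_neg]
    · rintro ⟨h1, -⟩; exact h1 h
    · rintro ⟨h1, -⟩; exact h1 h.symm
  · have h' : ¬ c z = c x := fun e => h e.symm
    simp [h, h']

theorem hv_symm (x z : V) : hv G w c z x = hv G w c x z := by
  unfold hv
  rw [miss_symm, SS_symm]
  by_cases h : c x = c z
  · rw [if_neg, if_neg]
    · rintro ⟨h1, -⟩; exact h1 h
    · rintro ⟨h1, -⟩; exact h1 h.symm
  · have h' : ¬ c z = c x := fun e => h e.symm
    simp [h, h']

variable (hw : ∀ x, 0 ≤ w x)
include hw

theorem miss_nonneg (x z : V) : 0 ≤ miss G w c x z := by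
  unfold miss
  refine sum_nonneg fun u _ => mul_nonneg (hw u) (mul_nonneg (blk_nonneg _ _ _) ?_)
  have := ind_le_one (G.E x z u)
  linarith

/-- two pairs `(z,x)`, `(z,y)` with `x, y` in the same class and `xyz` an edge -/
theorem miss_add_ge (x y z : V) (hxy : c x = c y) (hE : G.E z x y = true) :
    SS w c (c z) (c x) ≤ miss G w c z x + miss G w c z y := by
  unfold SS miss
  rw [← sum_add_distrib]
  refine sum_le_sum fun u _ => ?_
  rw [← mul_add, ← hxy, ← mul_add]
  refine mul_le_mul_of_nonneg_left ?_ (hw u)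
  have h1 : 1 ≤ (1 - ind (G.E z x u)) + (1 - ind (G.E z y u)) := by
    rcases ind_cases (G.E z x u) with ⟨h, h'⟩ | ⟨h, h'⟩
    · rcases ind_cases (G.E z y u) with ⟨k, k'⟩ | ⟨k, k'⟩
      · exact absurd ⟨hE, h, k⟩ (G.free z x y u)
      · rw [h', k']; norm_num
    · rcases ind_cases (G.E z y u) with ⟨k, k'⟩ | ⟨k, k'⟩
      · rw [h', k']; norm_num
      · rw [h', k']; norm_num
  calc blk (c z) (c x) (c u) = blk (c z) (c x) (c u) * 1 := by ring
    _ ≤ _ := mul_le_mul_of_nonneg_left h1 (blk_nonneg _ _ _)

/-- the class of `u` is a common third class -/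
theorem miss_add_ge_cl (x y z : V) (l : Fin 6) (h1 : D6.E (c x) (c y) l = true)
    (h2 : D6.E (c x) (c z) l = true) (hE : G.E x y z = true) :
    cl w c l ≤ miss G w c x y + miss G w c x z := by
  unfold cl miss
  rw [← sum_add_distrib]
  refine sum_le_sum fun u _ => ?_
  rw [← mul_add]
  refine mul_le_mul_of_nonneg_left ?_ (hw u)
  have hn1 : 0 ≤ blk (c x) (c y) (c u) * (1 - ind (G.E x y u)) := by
    refine mul_nonneg (blk_nonneg _ _ _) ?_
    have := ind_le_one (G.E x y u)
    linarith
  have hn2 : 0 ≤ blk (c x) (c z) (c u) * (1 - ind (G.E x z u)) := by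
    refine mul_nonneg (blk_nonneg _ _ _) ?_
    have := ind_le_one (G.E x z u)
    linarith
  by_cases hu : c u = l
  · rw [if_pos hu]
    subst hu
    have e1 : blk (c x) (c y) (c u) = 1 := ind_true h1
    have e2 : blk (c x) (c z) (c u) = 1 := ind_true h2
    rw [e1, e2]
    rcases ind_cases (G.E x y u) with ⟨h, h'⟩ | ⟨h, h'⟩
    · rcases ind_cases (G.E x z u) with ⟨k, k'⟩ | ⟨k, k'⟩
      · exact absurd ⟨hE, h, k⟩ (G.free x y z u)
      · rw [h', k']; norm_num
    · rcases ind_cases (G.E x z u) with ⟨k, k'⟩ | ⟨k, k'⟩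
      · rw [h', k']; norm_num
      · rw [h', k']; norm_num
  · rw [if_neg hu]
    linarith

/-- (K1) -/
theorem bad2_le : T3 w (fun x y z => p1 (c x) (c y) (c z) * ind (G.E x y z)) ≤
    2 * ∑ r, w r * ∑ z, w z * (hv G w c r z * own G w c z r) := by
  have key : ∀ x y z, p1 (c x) (c y) (c z) * ind (G.E x y z) ≤
      hv G w c z x * ((if c y = c x then 1 else 0) * ind (G.E x y z)) +
      hv G w c z y * ((if c x = c y then 1 else 0) * ind (G.E y x z)) := by
    intro x y z
    rcases ind_cases (G.E x y z) with ⟨h, h'⟩ | ⟨h, h'⟩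
    · have h2 : ind (G.E y x z) = 1 := by rw [G.symm₁]; exact h'
      rw [h', h2]
      unfold p1
      by_cases hc : c x = c y ∧ c y ≠ c z
      · rw [if_pos hc]
        obtain ⟨hxy, hyz⟩ := hc
        rw [if_pos hxy.symm, if_pos hxy]
        have hE : G.E z x y = true := by rw [E_rot]; exact h
        have h3 := miss_add_ge G w c hw x y z hxy hE
        have hzx : c z ≠ c x := by rw [hxy]; exact hyz.symm
        have hzy : c z ≠ c y := hyz.symm
        by_cases h4 : SS w c (c z) (c x) ≤ 2 * miss G w c z x
        · have : hv G w c z x = 1 := by unfold hv; rw [if_pos ⟨hzx, h4⟩]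
          rw [this]
          have := hv_nonneg G w c z y
          linarith
        · have h5 : SS w c (c z) (c y) ≤ 2 * miss G w c z y := by
            rw [← hxy]
            push Not at h4
            linarith
          have : hv G w c z y = 1 := by unfold hv; rw [if_pos ⟨hzy, h5⟩]
          rw [this]
          have := hv_nonneg G w c z x
          linarith
      · rw [if_neg hc]
        have a1 := hv_nonneg G w c z x
        have a2 := hv_nonneg G w c z y
        have b1 : (0 : ℝ) ≤ (if c y = c x then 1 else 0) := by split_ifs <;> norm_num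
        have b2 : (0 : ℝ) ≤ (if c x = c y then 1 else 0) := by split_ifs <;> norm_num
        have := mul_nonneg a1 b1
        have := mul_nonneg a2 b2
        linarith
    · have h2 : ind (G.E y x z) = 0 := by rw [G.symm₁]; exact h'
      rw [h', h2]
      simp
  refine (T3_mono w hw key).trans ?_
  rw [T3_add]
  have e1 : T3 w (fun x y z => hv G w c z y * ((if c x = c y then 1 else 0) * ind (G.E y x z))) =
      T3 w (fun x y z => hv G w c z x * ((if c y = c x then 1 else 0) * ind (G.E x y z))) :=
    T3_swap12 w (fun x y z => hv G w c z x * ((if c y = c x then 1 else 0) * ind (G.E x y z)))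
  have e2 : T3 w (fun x y z => hv G w c z x * ((if c y = c x then 1 else 0) * ind (G.E x y z))) =
      T3 w (fun r z y => hv G w c r z * ((if c y = c z then 1 else 0) * ind (G.E z y r))) :=
    T3_rot w (fun r z y => hv G w c r z * ((if c y = c z then 1 else 0) * ind (G.E z y r)))
  have e3 : T3 w (fun r z y => hv G w c r z * ((if c y = c z then 1 else 0) * ind (G.E z y r))) =
      ∑ r, w r * ∑ z, w z * (hv G w c r z * own G w c z r) :=
    T3_fst w (fun r z => hv G w c r z) (fun r z y => (if c y = c z then 1 else 0) * ind (G.E z y r))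
  rw [e1, e2, e3]
  linarith

/-- pairs of a bad edge of three different classes -/
theorem chi_add_ge (t : ℝ) (ht : ∀ i, 2 * t ≤ cl w c i) (x y z : V) (hxy : c x ≠ c y)
    (hxz : c x ≠ c z) (hyz : c y ≠ c z) (hb : D6.E (c x) (c y) (c z) = false)
    (hE : G.E x y z = true) : 1 ≤ chi G w c t x y + chi G w c t x z := by
  obtain ⟨l, h1, h2⟩ := D6_nb1 (c x) (c y) (c z) hxy hxz hyz hb
  have h3 := miss_add_ge_cl G w c hw x y z l h1 h2 hE
  have h4 := ht l
  by_cases h5 : t ≤ miss G w c x y
  · have : chi G w c t x y = 1 := by unfold chi; rw [if_pos ⟨hxy, h5⟩]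
    rw [this]
    have := chi_nonneg G w c t x z
    linarith
  · have h6 : t ≤ miss G w c x z := by
      push Not at h5
      linarith
    have : chi G w c t x z = 1 := by unfold chi; rw [if_pos ⟨hxz, h6⟩]
    rw [this]
    have := chi_nonneg G w c t x y
    linarith

/-- (K2) -/
theorem bad3_le (t : ℝ) (ht : ∀ i, 2 * t ≤ cl w c i) :
    T3 w (fun x y z => nbl (c x) (c y) (c z) * ind (G.E x y z)) ≤
    3 * T3 w (fun x y z => nbl (c x) (c y) (c z) * (chi G w c t x y * chi G w c t x z)) := by
  have nbl_swap12 : ∀ i j k, nbl j i k = nbl i j k := by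
    intro i j k
    unfold nbl
    rw [D6.symm₁]
    congr 1
    exact propext ⟨fun h => ⟨h.1.symm, h.2.2.1, h.2.1, h.2.2.2⟩,
      fun h => ⟨h.1.symm, h.2.2.1, h.2.1, h.2.2.2⟩⟩
  have nbl_swap23 : ∀ i j k, nbl i k j = nbl i j k := by
    intro i j k
    unfold nbl
    rw [D6.symm₂]
    congr 1
    exact propext ⟨fun h => ⟨h.2.1, h.1, h.2.2.1.symm, h.2.2.2⟩,
      fun h => ⟨h.2.1, h.1, h.2.2.1.symm, h.2.2.2⟩⟩
  have key : ∀ x y z, nbl (c x) (c y) (c z) * ind (G.E x y z) ≤
      nbl (c x) (c y) (c z) * (chi G w c t x y * chi G w c t x z) +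
      (nbl (c y) (c x) (c z) * (chi G w c t y x * chi G w c t y z) +
      nbl (c z) (c y) (c x) * (chi G w c t z y * chi G w c t z x)) := by
    intro x y z
    have n1 : nbl (c y) (c x) (c z) = nbl (c x) (c y) (c z) := nbl_swap12 _ _ _
    have n2 : nbl (c z) (c y) (c x) = nbl (c x) (c y) (c z) := by
      rw [nbl_swap12, nbl_swap23, nbl_swap12]
    rw [n1, n2, chi_symm G w c t x y, chi_symm G w c t y z, chi_symm G w c t x z, ← mul_add,
      ← mul_add]
    by_cases hc : c x ≠ c y ∧ c x ≠ c z ∧ c y ≠ c z ∧ D6.E (c x) (c y) (c z) = false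
    · have e1 : nbl (c x) (c y) (c z) = 1 := by unfold nbl; rw [if_pos hc]
      rw [e1, one_mul, one_mul]
      obtain ⟨hxy, hxz, hyz, hb⟩ := hc
      rcases ind_cases (G.E x y z) with ⟨h, h'⟩ | ⟨h, h'⟩
      · have a1 := chi_add_ge G w c hw t ht x y z hxy hxz hyz hb h
        have a2 := chi_add_ge G w c hw t ht y x z hxy.symm hyz hxz
          (by rw [D6.symm₁]; exact hb) (by rw [G.symm₁]; exact h)
        have a3 := chi_add_ge G w c hw t ht z x y hxz.symm hyz.symm hxy
          (by rw [D6.symm₁, D6.symm₂]; exact hb) (by rw [E_rot]; exact h)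
        rw [chi_symm G w c t x y] at a2
        rw [chi_symm G w c t x z, chi_symm G w c t y z] at a3
        rw [h']
        rcases chi_zero_or_one G w c t x y with b1 | b1 <;>
        rcases chi_zero_or_one G w c t x z with b2 | b2 <;>
        rcases chi_zero_or_one G w c t y z with b3 | b3 <;>
        rw [b1, b2, b3] <;> rw [b1, b2] at a1 <;> rw [b1, b3] at a2 <;> rw [b2, b3] at a3 <;>
        linarith
      · rw [h']
        have := mul_nonneg (chi_nonneg G w c t x y) (chi_nonneg G w c t x z)
        have := mul_nonneg (chi_nonneg G w c t x y) (chi_nonneg G w c t y z)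
        have := mul_nonneg (chi_nonneg G w c t y z) (chi_nonneg G w c t x z)
        linarith
    · have e1 : nbl (c x) (c y) (c z) = 0 := by unfold nbl; rw [if_neg hc]
      rw [e1, zero_mul, zero_mul]
  refine (T3_mono w hw key).trans ?_
  rw [T3_add, T3_add]
  have e1 := T3_swap12 w
    (fun x y z => nbl (c x) (c y) (c z) * (chi G w c t x y * chi G w c t x z))
  have e2 := T3_swap13 w
    (fun x y z => nbl (c x) (c y) (c z) * (chi G w c t x y * chi G w c t x z))
  rw [e1, e2]
  linarith

/-- (K3) -/
theorem missing_ge (t : ℝ) :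
    3 * (∑ r, w r * ∑ z, w z * (chi G w c t r z * miss G w c r z)) -
      3 * T3 w (fun x y z => blk (c x) (c y) (c z) * (1 - ind (G.E x y z)) *
        (chi G w c t x y * chi G w c t x z)) ≤
    T3 w (fun x y z => blk (c x) (c y) (c z) * (1 - ind (G.E x y z))) := by
  set A : V → V → V → ℝ := fun x y z => blk (c x) (c y) (c z) * (1 - ind (G.E x y z)) with hA
  have A_nonneg : ∀ x y z, 0 ≤ A x y z := by
    intro x y z
    refine mul_nonneg (blk_nonneg _ _ _) ?_
    have := ind_le_one (G.E x y z)
    linarith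
  have A12 : ∀ x y z, A y x z = A x y z := by
    intro x y z; simp only [hA]; rw [blk_swap12, G.symm₁]
  have A23 : ∀ x y z, A x z y = A x y z := by
    intro x y z; simp only [hA]; rw [blk_swap23, G.symm₂]
  have key : ∀ x y z, A x y z * (chi G w c t x y) + (A y z x * chi G w c t y z +
      A z x y * chi G w c t z x) - (A x y z * (chi G w c t x y * chi G w c t x z) +
      (A y x z * (chi G w c t y x * chi G w c t y z) +
      A z y x * (chi G w c t z y * chi G w c t z x))) ≤ A x y z := by
    intro x y z
    have n1 : A y z x = A x y z := by rw [A23 y x z, A12]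
    have n2 : A z x y = A x y z := by rw [A12 x z y, A23]
    have n3 : A y x z = A x y z := A12 x y z
    have n4 : A z y x = A x y z := by rw [A12 y z x, A23, A12]
    rw [n1, n2, n3, n4, chi_symm G w c t x y, chi_symm G w c t y z, chi_symm G w c t x z]
    have hn := A_nonneg x y z
    rcases chi_zero_or_one G w c t x y with b1 | b1 <;>
    rcases chi_zero_or_one G w c t x z with b2 | b2 <;>
    rcases chi_zero_or_one G w c t y z with b3 | b3 <;>
    rw [b1, b2, b3] <;> linarith
  have h1 := T3_mono w hw key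
  rw [T3_sub, T3_add, T3_add, T3_add, T3_add] at h1
  have r1 : T3 w (fun x y z => A y z x * chi G w c t y z) =
      T3 w (fun x y z => A x y z * chi G w c t x y) := by
    have := T3_rot w (fun x y z => A y z x * chi G w c t y z)
    exact this.symm
  have r2 : T3 w (fun x y z => A z x y * chi G w c t z x) =
      T3 w (fun x y z => A x y z * chi G w c t x y) :=
    T3_rot w (fun x y z => A x y z * chi G w c t x y)
  have r3 := T3_swap12 w (fun x y z => A x y z * (chi G w c t x y * chi G w c t x z))
  have r4 := T3_swap13 w (fun x y z => A x y z * (chi G w c t x y * chi G w c t x z))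
  have r5 : T3 w (fun x y z => A x y z * chi G w c t x y) =
      ∑ r, w r * ∑ z, w z * (chi G w c t r z * miss G w c r z) := by
    have e : T3 w (fun x y z => A x y z * chi G w c t x y) =
        T3 w (fun x y z => chi G w c t x y * A x y z) := T3_congr w (fun x y z => mul_comm _ _)
    rw [e]
    exact T3_fst w (fun r z => chi G w c t r z) A
  rw [r1, r2, r3, r4, r5] at h1
  linarith

end B

end K4m
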