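import Mathlib
import Pool.Agent.Lib.MP_392c14_co.CountB

/-!
# Step E: counting lemma, part C (the inequality at one root)
-/

set_option autoImplicit false

namespace K4m

open Finset

section C

variable {V : Type} [Fintype V] (G : TG V) (w : V → ℝ) (c : V → Fin 6)

theorem SS_eq (i j : Fin 6) : SS w c i j = ∑ k, blk i j k * cl w c k := by
  unfold SS cl
  simp only [mul_sum]
  rw [sum_comm]
  refine sum_congr rfl fun u _ => ?_
  have : ∀ k : Fin 6, blk i j k * (w u * (if c u = k then (1 : ℝ) else 0)) =
      if c u = k then w u * blk i j k else 0 := by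
    intro k; split_ifs <;> ring
  rw [sum_congr rfl (fun k _ => this k), sum_ite_eq, if_pos (mem_univ _)]

theorem sum_blk (i j : Fin 6) (h : i ≠ j) : ∑ k, blk i j k = 2 := by
  have h1 := D6_two i j h
  have h2 : ∑ k, blk i j k = ((univ.filter (fun k => D6.E i j k = true)).card : ℝ) := by
    rw [card_filter]
    push_cast
    refine sum_congr rfl fun k _ => ?_
    unfold blk ind
    rfl
  rw [h2, h1]; norm_num

theorem SS_ge (a : ℝ) (ha : ∀ i, a ≤ cl w c i) (i j : Fin 6) (h : i ≠ j) :
    2 * a ≤ SS w c i j := by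
  rw [SS_eq, ← sum_blk i j h, sum_mul]
  exact sum_le_sum fun k _ => mul_le_mul_of_nonneg_left (ha k) (blk_nonneg _ _ _)

theorem SS_le (b : ℝ) (hb : ∀ i, cl w c i ≤ b) (i j : Fin 6) (h : i ≠ j) :
    SS w c i j ≤ 2 * b := by
  rw [SS_eq, ← sum_blk i j h, sum_mul]
  exact sum_le_sum fun k _ => mul_le_mul_of_nonneg_left (hb k) (blk_nonneg _ _ _)

variable (hw : ∀ x, 0 ≤ w x)
include hw

theorem cl_nonneg (i : Fin 6) : 0 ≤ cl w c i := by
  unfold cl
  refine sum_nonneg fun x _ => mul_nonneg (hw x) ?_
  split_ifs <;> norm_num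

theorem miss_le_SS (x z : V) : miss G w c x z ≤ SS w c (c x) (c z) := by
  unfold miss SS
  refine sum_le_sum fun u _ => mul_le_mul_of_nonneg_left ?_ (hw u)
  have h1 := ind_nonneg (G.E x z u)
  calc blk (c x) (c z) (c u) * (1 - ind (G.E x z u)) ≤ blk (c x) (c z) (c u) * 1 :=
        mul_le_mul_of_nonneg_left (by linarith) (blk_nonneg _ _ _)
    _ = _ := by ring

theorem mis_nonneg (x : V) : 0 ≤ mis G w c x := by
  unfold mis
  exact sum_nonneg fun z _ => mul_nonneg (hw z) (miss_nonneg G w c hw x z)

theorem own_nonneg (z r : V) : 0 ≤ own G w c z r := by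
  unfold own
  refine sum_nonneg fun y _ => mul_nonneg (hw y) (mul_nonneg ?_ (ind_nonneg _))
  split_ifs <;> norm_num

/-- the missing pairs at `r` with one end in a given class -/
theorem mis_class (r : V) (k : Fin 6) :
    2 * ∑ y, w y * ((if c y = k then 1 else 0) * miss G w c r y) ≤ mis G w c r := by
  set a : V → V → ℝ := fun y u => blk (c r) (c y) (c u) * (1 - ind (G.E r y u)) with ha
  have a_nonneg : ∀ y u, 0 ≤ a y u := by
    intro y u
    refine mul_nonneg (blk_nonneg _ _ _) ?_
    have := ind_le_one (G.E r y u)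
    linarith
  have a_symm : ∀ y u, a u y = a y u := by
    intro y u; simp only [ha]; rw [blk_swap23, G.symm₂]
  have e1 : ∑ y, w y * ((if c y = k then 1 else 0) * miss G w c r y) =
      ∑ y, ∑ u, w y * w u * ((if c y = k then 1 else 0) * a y u) := by
    refine sum_congr rfl fun y _ => ?_
    unfold miss
    rw [mul_sum, mul_sum]
    refine sum_congr rfl fun u _ => ?_
    simp only [ha]; ring
  have e2 : ∑ y, w y * ((if c y = k then 1 else 0) * miss G w c r y) =
      ∑ y, ∑ u, w y * w u * ((if c u = k then 1 else 0) * a y u) := by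
    rw [e1, sum_comm]
    refine sum_congr rfl fun y _ => sum_congr rfl fun u _ => ?_
    rw [a_symm]; ring
  have e3 : mis G w c r = ∑ y, ∑ u, w y * w u * a y u := by
    unfold mis miss
    refine sum_congr rfl fun y _ => ?_
    rw [mul_sum]
    refine sum_congr rfl fun u _ => ?_
    simp only [ha]; ring
  have e4 : 2 * ∑ y, w y * ((if c y = k then 1 else 0) * miss G w c r y) =
      ∑ y, ∑ u, w y * w u * (((if c y = k then 1 else 0) + (if c u = k then 1 else 0)) * a y u) := by
    have : 2 * ∑ y, w y * ((if c y = k then 1 else 0) * miss G w c r y) =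
      (∑ y, ∑ u, w y * w u * ((if c y = k then 1 else 0) * a y u)) +
      ∑ y, ∑ u, w y * w u * ((if c u = k then 1 else 0) * a y u) := by
      rw [← e1, ← e2]; ring
    rw [this, ← sum_add_distrib]
    refine sum_congr rfl fun y _ => ?_
    rw [← sum_add_distrib]
    refine sum_congr rfl fun u _ => ?_
    ring
  rw [e4, e3]
  refine sum_le_sum fun y _ => sum_le_sum fun u _ => ?_
  refine mul_le_mul_of_nonneg_left ?_ (mul_nonneg (hw y) (hw u))
  by_cases h1 : c y = k
  · by_cases h2 : c u = k
    · have : a y u = 0 := by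
        simp only [ha]; rw [h1, h2, blk_irr3, zero_mul]
      rw [this]; simp
    · rw [if_pos h1, if_neg h2]; simp
  · by_cases h2 : c u = k
    · rw [if_neg h1, if_pos h2]; simp
    · rw [if_neg h1, if_neg h2]
      have := a_nonneg y u
      linarith

/-- the product inequality -/
theorem own_mul_le (r z : V) :
    own G w c z r * (SS w c (c r) (c z) - miss G w c r z) ≤ mis G w c r / 2 := by
  have h1 := mis_class G w c hw r (c z)
  have h2 : own G w c z r * (SS w c (c r) (c z) - miss G w c r z) ≤
      ∑ y, w y * ((if c y = c z then 1 else 0) * miss G w c r y) := by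
    unfold own
    rw [sum_mul]
    refine sum_le_sum fun y _ => ?_
    rw [mul_assoc]
    refine mul_le_mul_of_nonneg_left ?_ (hw y)
    rw [mul_assoc]
    by_cases hy : c y = c z
    · rw [if_pos hy, one_mul, one_mul]
      rcases ind_cases (G.E z y r) with ⟨h, h'⟩ | ⟨h, h'⟩
      · rw [h', one_mul]
        have hE : G.E r z y = true := by rw [E_rot]; exact h
        have h3 := miss_add_ge G w c hw z y r hy.symm hE
        linarith
      · rw [h', zero_mul]
        exact miss_nonneg G w c hw r y
    · rw [if_neg hy, zero_mul, zero_mul]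
  linarith

/-- the mass inequality for a set of partners of `r` -/
theorem mass_le (r : V) (ζ : V → ℝ) (hζ : ∀ z, ζ z = 0 ∨ ζ z = 1) :
    2 * ∑ z, w z * (ζ z * miss G w c r z) ≤ mis G w c r + (∑ z, w z * ζ z) ^ 2 := by
  set a : V → V → ℝ := fun y u => blk (c r) (c y) (c u) * (1 - ind (G.E r y u)) with ha
  have a_nonneg : ∀ y u, 0 ≤ a y u := by
    intro y u
    refine mul_nonneg (blk_nonneg _ _ _) ?_
    have := ind_le_one (G.E r y u)
    linarith
  have a_le : ∀ y u, a y u ≤ 1 := by
    intro y u
    have h1 := blk_nonneg (c r) (c y) (c u)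
    have h2 := blk_le_one (c r) (c y) (c u)
    have h3 := ind_nonneg (G.E r y u)
    have h4 := ind_le_one (G.E r y u)
    calc a y u ≤ 1 * 1 := mul_le_mul h2 (by linarith) (by linarith) (by norm_num)
      _ = 1 := by norm_num
  have a_symm : ∀ y u, a u y = a y u := by
    intro y u; simp only [ha]; rw [blk_swap23, G.symm₂]
  have e1 : ∑ y, w y * (ζ y * miss G w c r y) =
      ∑ y, ∑ u, w y * w u * (ζ y * a y u) := by
    refine sum_congr rfl fun y _ => ?_
    unfold miss
    rw [mul_sum, mul_sum]
    refine sum_congr rfl fun u _ => ?_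
    simp only [ha]; ring
  have e2 : ∑ y, w y * (ζ y * miss G w c r y) =
      ∑ y, ∑ u, w y * w u * (ζ u * a y u) := by
    rw [e1, sum_comm]
    refine sum_congr rfl fun y _ => sum_congr rfl fun u _ => ?_
    rw [a_symm]; ring
  have e3 : mis G w c r = ∑ y, ∑ u, w y * w u * a y u := by
    unfold mis miss
    refine sum_congr rfl fun y _ => ?_
    rw [mul_sum]
    refine sum_congr rfl fun u _ => ?_
    simp only [ha]; ring
  have e5 : (∑ z, w z * ζ z) ^ 2 = ∑ y, ∑ u, w y * w u * (ζ y * ζ u) := by
    rw [sq, sum_mul]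
    refine sum_congr rfl fun y _ => ?_
    rw [mul_sum]
    refine sum_congr rfl fun u _ => ?_
    ring
  have e4 : 2 * ∑ y, w y * (ζ y * miss G w c r y) =
      ∑ y, ∑ u, w y * w u * ((ζ y + ζ u) * a y u) := by
    have : 2 * ∑ y, w y * (ζ y * miss G w c r y) =
      (∑ y, ∑ u, w y * w u * (ζ y * a y u)) +
      ∑ y, ∑ u, w y * w u * (ζ u * a y u) := by
      rw [← e1, ← e2]; ring
    rw [this, ← sum_add_distrib]
    refine sum_congr rfl fun y _ => ?_
    rw [← sum_add_distrib]
    refine sum_congr rfl fun u _ => ?_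
    ring
  rw [e4, e3, e5, ← sum_add_distrib]
  refine sum_le_sum fun y _ => ?_
  rw [← sum_add_distrib]
  refine sum_le_sum fun u _ => ?_
  rw [← mul_add]
  refine mul_le_mul_of_nonneg_left ?_ (mul_nonneg (hw y) (hw u))
  have h1 := a_nonneg y u
  have h2 := a_le y u
  rcases hζ y with h | h <;> rcases hζ u with h' | h' <;> rw [h, h'] <;> linarith

/-- the numerical side conditions of the inequality at one root: `a` is a lower bound for the
masses of the classes, `τ` an upper bound for the missing degree, `β` an upper bound for `own` -/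
structure RootNum (a τ β s1 H0 X0 η : ℝ) : Prop where
  a_pos : 0 < a
  s1_pos : 0 < s1
  s1_le : s1 ≤ a
  mid : τ ≤ s1 * (a / 2)
  high : ∀ o s : ℝ, 0 ≤ o → o ≤ β → 0 ≤ s → s ≤ s1 → o * s ≤ τ / 2 → s + 2 * o ≤ 2 * a - η
  massH : ∀ H : ℝ, 0 ≤ H → (2 * a - s1) * H ≤ τ → 2 * ((2 * a - s1) * H) ≤ τ + H ^ 2 → H ≤ H0
  massX : ∀ X : ℝ, 0 ≤ X → a / 2 * X ≤ τ → 2 * (a / 2 * X) ≤ τ + X ^ 2 → X ≤ X0
  H_le : H0 ≤ η
  X_le : X0 + 2 * H0 ≤ a / 2

/-- the inequality at one root -/
theorem root_le {a τ β s1 H0 X0 η : ℝ} (N : RootNum a τ β s1 H0 X0 η) (r : V)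
    (hsz : ∀ i, a ≤ cl w c i) (hmis : mis G w c r ≤ τ)
    (hown : ∀ z, c r ≠ c z → own G w c z r ≤ β) :
    2 * (∑ z, w z * (hv G w c r z * own G w c z r)) +
      (∑ z, w z * chi G w c (a / 2) r z) ^ 2 ≤
    ∑ z, w z * (chi G w c (a / 2) r z * miss G w c r z) := by
  classical
  have a_pos := N.a_pos
  have s1_pos := N.s1_pos
  have s1_le := N.s1_le
  have S1 : ∀ z, c r ≠ c z → 2 * a ≤ SS w c (c r) (c z) :=
    fun z hz => SS_ge w c a hsz (c r) (c z) hz
  set hi : V → ℝ := fun z => if c r ≠ c z ∧ SS w c (c r) (c z) - s1 < miss G w c r z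
    then 1 else 0 with hhi
  have hi01 : ∀ z, hi z = 0 ∨ hi z = 1 := by
    intro z; simp only [hhi]; split_ifs
    · right; rfl
    · left; rfl
  have hi_nonneg : ∀ z, 0 ≤ hi z := by
    intro z; rcases hi01 z with h | h <;> rw [h]; norm_num
  set H : ℝ := ∑ z, w z * hi z with hH
  set X : ℝ := ∑ z, w z * chi G w c (a / 2) r z with hX
  have H_nonneg : 0 ≤ H := sum_nonneg fun z _ => mul_nonneg (hw z) (hi_nonneg z)
  have X_nonneg : 0 ≤ X := sum_nonneg fun z _ => mul_nonneg (hw z) (chi_nonneg G w c _ r z)
  have hi_le_chi : ∀ z, hi z ≤ chi G w c (a / 2) r z := by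
    intro z
    simp only [hhi]
    by_cases h : c r ≠ c z ∧ SS w c (c r) (c z) - s1 < miss G w c r z
    · rw [if_pos h]
      have h1 := S1 z h.1
      have : a / 2 ≤ miss G w c r z := by linarith [h.2]
      unfold chi
      rw [if_pos ⟨h.1, this⟩]
    · rw [if_neg h]; exact chi_nonneg G w c _ r z
  have mass1 : 2 * ∑ z, w z * (hi z * miss G w c r z) ≤ τ + H ^ 2 :=
    (mass_le G w c hw r hi hi01).trans (by linarith)
  have mass2 : 2 * ∑ z, w z * (chi G w c (a / 2) r z * miss G w c r z) ≤ τ + X ^ 2 :=
    (mass_le G w c hw r _ (fun z => chi_zero_or_one G w c _ r z)).trans (by linarith)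
  have low1 : (2 * a - s1) * H ≤ ∑ z, w z * (hi z * miss G w c r z) := by
    rw [hH, mul_sum]
    refine sum_le_sum fun z _ => ?_
    have : (2 * a - s1) * (w z * hi z) = w z * ((2 * a - s1) * hi z) := by ring
    rw [this]
    refine mul_le_mul_of_nonneg_left ?_ (hw z)
    simp only [hhi]
    by_cases h : c r ≠ c z ∧ SS w c (c r) (c z) - s1 < miss G w c r z
    · rw [if_pos h]
      have h1 := S1 z h.1
      linarith [h.2]
    · rw [if_neg h]; simp
  have low2 : a / 2 * X ≤ ∑ z, w z * (chi G w c (a / 2) r z * miss G w c r z) := by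
    rw [hX, mul_sum]
    refine sum_le_sum fun z _ => ?_
    have : a / 2 * (w z * chi G w c (a / 2) r z) =
        w z * (a / 2 * chi G w c (a / 2) r z) := by ring
    rw [this]
    refine mul_le_mul_of_nonneg_left ?_ (hw z)
    unfold chi
    by_cases h : c r ≠ c z ∧ a / 2 ≤ miss G w c r z
    · rw [if_pos h]; linarith [h.2]
    · rw [if_neg h]; simp
  have crude1 : ∑ z, w z * (hi z * miss G w c r z) ≤ τ := by
    refine le_trans (sum_le_sum fun z _ => mul_le_mul_of_nonneg_left ?_ (hw z)) hmis
    have := miss_nonneg G w c hw r z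
    rcases hi01 z with h | h <;> rw [h] <;> linarith
  have crude2 : ∑ z, w z * (chi G w c (a / 2) r z * miss G w c r z) ≤ τ := by
    refine le_trans (sum_le_sum fun z _ => mul_le_mul_of_nonneg_left ?_ (hw z)) hmis
    have := miss_nonneg G w c hw r z
    rcases chi_zero_or_one G w c (a / 2) r z with h | h <;> rw [h] <;> linarith
  have H2 : H ≤ H0 := N.massH H H_nonneg (low1.trans crude1)
    ((mul_le_mul_of_nonneg_left low1 (by norm_num)).trans mass1)
  have X3 : X ≤ X0 := N.massX X X_nonneg (low2.trans crude2)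
    ((mul_le_mul_of_nonneg_left low2 (by norm_num)).trans mass2)
  -- the gain of one partner
  have gain : ∀ z, a / 2 * (chi G w c (a / 2) r z - hi z) + η * hi z +
      2 * (hv G w c r z * own G w c z r) ≤ chi G w c (a / 2) r z * miss G w c r z := by
    intro z
    have ho := own_nonneg G w c hw z r
    have hm := miss_nonneg G w c hw r z
    have hm' := miss_le_SS G w c hw r z
    have hp := own_mul_le G w c hw r z
    by_cases hz : c r ≠ c z
    · have s1' := S1 z hz
      have ho3 := hown z hz
      by_cases h1 : a / 2 ≤ miss G w c r z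
      · have c1 : chi G w c (a / 2) r z = 1 := by unfold chi; rw [if_pos ⟨hz, h1⟩]
        by_cases h2 : SS w c (c r) (c z) - s1 < miss G w c r z
        · have e1 : hi z = 1 := by simp only [hhi]; rw [if_pos ⟨hz, h2⟩]
          have hvo : hv G w c r z * own G w c z r ≤ own G w c z r := by
            rcases hv_zero_or_one G w c r z with h | h <;> rw [h] <;> linarith
          rw [c1, e1]
          have hfin := N.high (own G w c z r) (SS w c (c r) (c z) - miss G w c r z) ho ho3
            (by linarith) (by linarith) (by linarith)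
          linarith
        · have e1 : hi z = 0 := by
            simp only [hhi]; rw [if_neg]; rintro ⟨-, h⟩; exact h2 h
          push Not at h2
          rw [c1, e1]
          rcases hv_zero_or_one G w c r z with h | h
          · rw [h]; linarith
          · have h5 : SS w c (c r) (c z) ≤ 2 * miss G w c r z := by
              by_contra hne
              have : hv G w c r z = 0 := by
                unfold hv; rw [if_neg]; rintro ⟨-, h'⟩; exact hne h'
              rw [this] at h; norm_num at h
            have h6 : own G w c z r * s1 ≤ τ / 2 := by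
              have : own G w c z r * s1 ≤
                  own G w c z r * (SS w c (c r) (c z) - miss G w c r z) :=
                mul_le_mul_of_nonneg_left (by linarith) ho
              linarith
            have h7 : 2 * own G w c z r ≤ a / 2 := by
              have h8 : (2 * own G w c z r) * s1 ≤ (a / 2) * s1 := by
                have := N.mid
                linarith
              exact le_of_mul_le_mul_right h8 s1_pos
            rw [h]; linarith
      · have c1 : chi G w c (a / 2) r z = 0 := by
          unfold chi; rw [if_neg]; rintro ⟨-, h⟩; exact h1 h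
        have e1 : hi z = 0 := by
          simp only [hhi]; rw [if_neg]; rintro ⟨-, h⟩; apply h1; linarith
        have v1 : hv G w c r z = 0 := by
          unfold hv; rw [if_neg]; rintro ⟨-, h⟩; apply h1; linarith
        rw [c1, e1, v1]; simp
    · have c1 : chi G w c (a / 2) r z = 0 := by
        unfold chi; rw [if_neg]; rintro ⟨h, -⟩; exact hz h
      have e1 : hi z = 0 := by
        simp only [hhi]; rw [if_neg]; rintro ⟨h, -⟩; exact hz h
      have v1 : hv G w c r z = 0 := by
        unfold hv; rw [if_neg]; rintro ⟨h, -⟩; exact hz h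
      rw [c1, e1, v1]; simp
  have total : a / 2 * (X - H) + η * H +
      2 * (∑ z, w z * (hv G w c r z * own G w c z r)) ≤
      ∑ z, w z * (chi G w c (a / 2) r z * miss G w c r z) := by
    have h1 : ∑ z, w z * (a / 2 * (chi G w c (a / 2) r z - hi z) + η * hi z +
      2 * (hv G w c r z * own G w c z r)) ≤
      ∑ z, w z * (chi G w c (a / 2) r z * miss G w c r z) :=
      sum_le_sum fun z _ => mul_le_mul_of_nonneg_left (gain z) (hw z)
    have h2 : ∑ z, w z * (a / 2 * (chi G w c (a / 2) r z - hi z) + η * hi z +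
      2 * (hv G w c r z * own G w c z r)) = a / 2 * (X - H) + η * H +
      2 * (∑ z, w z * (hv G w c r z * own G w c z r)) := by
      rw [hX, hH, ← sum_sub_distrib, mul_sum, mul_sum, mul_sum, ← sum_add_distrib,
        ← sum_add_distrib]
      refine sum_congr rfl fun z _ => ?_
      ring
    rw [← h2]; exact h1
  have hHX : H ≤ X := sum_le_sum fun z _ => mul_le_mul_of_nonneg_left (hi_le_chi z) (hw z)
  -- `X ^ 2 = (X - H) * (X + H) + H * H`
  have f1 : (X - H) * (X + H) ≤ (X - H) * (a / 2) :=
    mul_le_mul_of_nonneg_left (by linarith [N.X_le]) (by linarith)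
  have f2 : H * H ≤ η * H := mul_le_mul_of_nonneg_right (H2.trans N.H_le) H_nonneg
  have f3 : X ^ 2 = (X - H) * (X + H) + H * H := by ring
  linarith

end C

end K4m
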