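import Mathlib
import Pool.Agent.Lib.MP_392c14_co.CountC

/-!
# Steps E and F: bad edges are paid by missing block triples, and the bound for `rho`
-/

set_option autoImplicit false

namespace K4m

open Finset

section D

variable {V : Type} [Fintype V] (G : TG V) (w : V → ℝ) (c : V → Fin 6)

/-- Step E: the bad edges are paid by the missing block triples -/
theorem bad_le_missing {a τ β s1 H0 X0 η : ℝ} (N : RootNum a τ β s1 H0 X0 η)
    (hw : ∀ x, 0 ≤ w x) (hsz : ∀ i, a ≤ cl w c i)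
    (hmis : ∀ r, mis G w c r ≤ τ)
    (hown : ∀ r z, c r ≠ c z → own G w c z r ≤ β) :
    3 * T3 w (fun x y z => p1 (c x) (c y) (c z) * ind (G.E x y z)) +
      T3 w (fun x y z => nbl (c x) (c y) (c z) * ind (G.E x y z)) ≤
    T3 w (fun x y z => blk (c x) (c y) (c z) * (1 - ind (G.E x y z))) := by
  have ht : ∀ i, 2 * (a / 2) ≤ cl w c i := fun i => by
    have := hsz i
    linarith
  have k1 := bad2_le G w c hw
  have k2 := bad3_le G w c hw (a / 2) ht
  have k3 := missing_ge G w c hw (a / 2)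
  set A1 := ∑ r, w r * ∑ z, w z * (hv G w c r z * own G w c z r) with hA1
  set A2 := ∑ r, w r * ∑ z, w z * (chi G w c (a / 2) r z * miss G w c r z) with hA2
  have k4 : T3 w (fun x y z => nbl (c x) (c y) (c z) *
        (chi G w c (a / 2) x y * chi G w c (a / 2) x z)) +
      T3 w (fun x y z => blk (c x) (c y) (c z) * (1 - ind (G.E x y z)) *
        (chi G w c (a / 2) x y * chi G w c (a / 2) x z)) ≤
      ∑ x, w x * (∑ y, w y * chi G w c (a / 2) x y) ^ 2 := by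
    rw [← T3_add, ← T3_prod]
    refine T3_mono w hw fun x y z => ?_
    have h1 := nbl_add_blk_le (c x) (c y) (c z)
    have h2 := blk_nonneg (c x) (c y) (c z)
    have h3 := ind_nonneg (G.E x y z)
    have h4 := mul_nonneg (chi_nonneg G w c (a / 2) x y) (chi_nonneg G w c (a / 2) x z)
    rw [← add_mul]
    have h5 : nbl (c x) (c y) (c z) + blk (c x) (c y) (c z) * (1 - ind (G.E x y z)) ≤ 1 := by
      nlinarith
    nlinarith
  have k5 : 2 * A1 + ∑ x, w x * (∑ y, w y * chi G w c (a / 2) x y) ^ 2 ≤ A2 := by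
    rw [hA1, hA2, mul_sum, ← sum_add_distrib]
    refine sum_le_sum fun r _ => ?_
    have h := root_le G w c hw N r hsz (hmis r) (hown r)
    have h' := mul_le_mul_of_nonneg_left h (hw r)
    calc _ = w r * (2 * (∑ z, w z * (hv G w c r z * own G w c z r)) +
      (∑ z, w z * chi G w c (a / 2) r z) ^ 2) := by ring
      _ ≤ _ := h'
  linarith

/-- the density of the block triples -/
noncomputable def Tb (x : Fin 6 → ℝ) : ℝ := ∑ i, ∑ j, ∑ k, blk i j k * (x i * x j * x k)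

theorem T3_blk : T3 w (fun x y z => blk (c x) (c y) (c z)) = Tb (cl w c) := by
  have e0 : ∀ g : Fin 6 → ℝ, ∑ x, w x * g (c x) = ∑ i, cl w c i * g i := by
    intro g
    unfold cl
    simp only [sum_mul]
    rw [sum_comm]
    refine sum_congr rfl fun u _ => ?_
    have : ∀ k : Fin 6, w u * (if c u = k then (1 : ℝ) else 0) * g k =
        if c u = k then w u * g k else 0 := by
      intro k; split_ifs <;> ring
    rw [sum_congr rfl (fun k _ => this k), sum_ite_eq, if_pos (mem_univ _)]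
  rw [T3_eq]
  have e1 : ∀ i j : Fin 6, ∑ z, w z * blk i j (c z) = ∑ k, cl w c k * blk i j k :=
    fun i j => e0 (fun k => blk i j k)
  have e2 : ∀ i : Fin 6, ∑ y, w y * ∑ z, w z * blk i (c y) (c z) =
      ∑ j, cl w c j * ∑ k, cl w c k * blk i j k := by
    intro i
    rw [← e0 (fun j => ∑ k, cl w c k * blk i j k)]
    exact sum_congr rfl fun y _ => by rw [e1]
  rw [sum_congr rfl (fun x _ => by rw [e2 (c x)] : ∀ x ∈ univ, w x * ∑ y, w y * ∑ z, w z *
    blk (c x) (c y) (c z) = w x * ∑ j, cl w c j * ∑ k, cl w c k * blk (c x) j k)]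
  rw [e0 (fun i => ∑ j, cl w c j * ∑ k, cl w c k * blk i j k)]
  unfold Tb
  refine sum_congr rfl fun i _ => ?_
  rw [mul_sum]
  refine sum_congr rfl fun j _ => ?_
  rw [mul_sum, mul_sum]
  refine sum_congr rfl fun k _ => ?_
  ring

theorem T3_e3_le (hw : ∀ x, 0 ≤ w x) :
    T3 w (fun x y z => e3 (c x) (c y) (c z) * ind (G.E x y z)) ≤ rho * ∑ i, cl w c i ^ 3 := by
  have h1 : T3 w (fun x y z => e3 (c x) (c y) (c z) * ind (G.E x y z)) =
      ∑ i, val G (fun x => w x * (if c x = i then 1 else 0)) := by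
    have h2 : ∀ i, val G (fun x => w x * (if c x = i then 1 else 0)) =
        T3 w (fun x y z => (if c x = i then 1 else 0) * (if c y = i then 1 else 0) *
          (if c z = i then 1 else 0) * ind (G.E x y z)) := by
      intro i
      unfold val T3
      refine sum_congr rfl fun x _ => sum_congr rfl fun y _ => sum_congr rfl fun z _ => ?_
      ring
    rw [sum_congr rfl (fun i _ => h2 i)]
    unfold T3
    conv_rhs => rw [sum_comm]
    refine sum_congr rfl fun x _ => ?_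
    conv_rhs => rw [sum_comm]
    refine sum_congr rfl fun y _ => ?_
    conv_rhs => rw [sum_comm]
    refine sum_congr rfl fun z _ => ?_
    have h3 : e3 (c x) (c y) (c z) = ∑ i, (if c x = i then (1 : ℝ) else 0) *
        (if c y = i then 1 else 0) * (if c z = i then 1 else 0) := by
      rw [sum_eq_single (c x)]
      · unfold e3
        by_cases h4 : c x = c y ∧ c y = c z
        · rw [if_pos h4, if_pos rfl, if_pos h4.1.symm, if_pos (h4.1.trans h4.2).symm]; norm_num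
        · rw [if_neg h4, if_pos rfl]
          by_cases h5 : c y = c x
          · have h6 : ¬ c z = c x := fun h => h4 ⟨h5.symm, h5.trans h.symm⟩
            rw [if_neg h6]; ring
          · rw [if_neg h5]; ring
      · intro i _ hi
        rw [if_neg (fun h => hi h.symm)]; ring
      · intro h; exact absurd (mem_univ _) h
    show w x * w y * w z * (e3 (c x) (c y) (c z) * ind (G.E x y z)) = ∑ i, w x * w y * w z *
      ((if c x = i then 1 else 0) * (if c y = i then 1 else 0) * (if c z = i then 1 else 0) *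
        ind (G.E x y z))
    rw [h3, sum_mul, mul_sum]
  rw [h1, mul_sum]
  refine sum_le_sum fun i _ => ?_
  have h2 := val_le_rho_hom G (fun x => w x * (if c x = i then 1 else 0)) (fun x =>
    mul_nonneg (hw x) (by split_ifs <;> norm_num))
  exact h2

theorem val_split : val G w = T3 w (fun x y z => e3 (c x) (c y) (c z) * ind (G.E x y z)) +
    3 * T3 w (fun x y z => p1 (c x) (c y) (c z) * ind (G.E x y z)) +
    T3 w (fun x y z => nbl (c x) (c y) (c z) * ind (G.E x y z)) +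
    T3 w (fun x y z => blk (c x) (c y) (c z)) -
    T3 w (fun x y z => blk (c x) (c y) (c z) * (1 - ind (G.E x y z))) := by
  have h0 : val G w = T3 w (fun x y z => ind (G.E x y z)) := rfl
  have h1 : T3 w (fun x y z => ind (G.E x y z)) =
      T3 w (fun x y z => e3 (c x) (c y) (c z) * ind (G.E x y z) +
        (p1 (c x) (c y) (c z) * ind (G.E x y z) + (p1 (c x) (c z) (c y) * ind (G.E x z y) +
        (p1 (c z) (c y) (c x) * ind (G.E z y x) + (nbl (c x) (c y) (c z) * ind (G.E x y z) +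
        (blk (c x) (c y) (c z) - blk (c x) (c y) (c z) * (1 - ind (G.E x y z)))))))) := by
    refine T3_congr w fun x y z => ?_
    have hp := pattern_sum (c x) (c y) (c z)
    have hp1 : p1 (c z) (c y) (c x) = p1 (c y) (c z) (c x) := by
      unfold p1
      congr 1
      exact propext ⟨fun h => ⟨h.1.symm, h.1 ▸ h.2⟩, fun h => ⟨h.1.symm, h.1 ▸ h.2⟩⟩
    rw [G.symm₂ x y z, E_swap13 G x y z, hp1]
    calc ind (G.E x y z) = (e3 (c x) (c y) (c z) + p1 (c x) (c y) (c z) + p1 (c x) (c z) (c y) +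
        p1 (c y) (c z) (c x) + nbl (c x) (c y) (c z) + blk (c x) (c y) (c z)) *
        ind (G.E x y z) := by rw [hp, one_mul]
      _ = _ := by ring
  rw [h0, h1, T3_add, T3_add, T3_add, T3_add, T3_add, T3_sub]
  have s1 := T3_swap23 w (fun x y z => p1 (c x) (c y) (c z) * ind (G.E x y z))
  have s2 := T3_swap13 w (fun x y z => p1 (c x) (c y) (c z) * ind (G.E x y z))
  rw [s1, s2]
  ring

theorem D6_list : ∀ i j k : Fin 6, D6.E i j k =
    ([7, 11, 21, 41, 49, 38, 26, 50, 28, 44].contains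
      (2 ^ (i : ℕ) + 2 ^ (j : ℕ) + 2 ^ (k : ℕ))) := fun _ _ _ => rfl

/-- the ten blocks, written out -/
theorem Tb_eq (x : Fin 6 → ℝ) : Tb x = 6 * (x 0 * x 1 * x 2 + x 0 * x 1 * x 3 +
    x 0 * x 2 * x 4 + x 0 * x 3 * x 5 + x 0 * x 4 * x 5 + x 1 * x 2 * x 5 + x 1 * x 3 * x 4 +
    x 1 * x 4 * x 5 + x 2 * x 3 * x 4 + x 2 * x 3 * x 5) := by
  unfold Tb blk
  have h : ∀ i j k : Fin 6, ind (D6.E i j k) = if D6.E i j k = true then 1 else 0 :=
    fun _ _ _ => rfl
  simp only [Fin.sum_univ_six]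
  have e : ∀ i j k : Fin 6, D6.E i j k = true ∨ D6.E i j k = false := by
    intro i j k; cases D6.E i j k <;> simp
  simp only [h]
  simp (decide := true) only [if_true, if_false]
  ring

/-- a product of three small numbers -/
theorem prod_le_sq (a b d e : ℝ) (hd : |d| ≤ e) : a * b * d ≤ e / 2 * (a ^ 2 + b ^ 2) := by
  have he : 0 ≤ e := (abs_nonneg d).trans hd
  have h1 : a * b * d ≤ |a * b| * |d| := by rw [← abs_mul]; exact le_abs_self _
  have h2 : |a * b| * |d| ≤ |a * b| * e := mul_le_mul_of_nonneg_left hd (abs_nonneg _)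
  have h3 : |a * b| ≤ (a ^ 2 + b ^ 2) / 2 := by
    rw [abs_le]
    constructor <;> nlinarith [sq_nonneg (a + b), sq_nonneg (a - b)]
  have h4 : |a * b| * e ≤ (a ^ 2 + b ^ 2) / 2 * e := mul_le_mul_of_nonneg_right h3 he
  linarith

/-- Step F, the polynomial inequality near the centre -/
theorem Tb_le (r : ℝ) (hr : 0 ≤ r) (hr' : r ≤ 1) (x : Fin 6 → ℝ) (hx : ∑ i, x i = 1)
    (h : ∀ i, |x i - 1 / 6| ≤ 1 / 600) : Tb x + r * ∑ i, x i ^ 3 ≤ (10 + r) / 36 := by
  rw [Tb_eq]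
  simp only [Fin.sum_univ_six] at hx ⊢
  have e0 : ∀ i, x i = 1 / 6 + (x i - 1 / 6) := fun i => by ring
  generalize hy0 : x 0 - 1 / 6 = y0 at *
  generalize hy1 : x 1 - 1 / 6 = y1 at *
  generalize hy2 : x 2 - 1 / 6 = y2 at *
  generalize hy3 : x 3 - 1 / 6 = y3 at *
  generalize hy4 : x 4 - 1 / 6 = y4 at *
  generalize hy5 : x 5 - 1 / 6 = y5 at *
  have b0 : |y0| ≤ 1 / 600 := hy0 ▸ h 0
  have b1 : |y1| ≤ 1 / 600 := hy1 ▸ h 1
  have b2 : |y2| ≤ 1 / 600 := hy2 ▸ h 2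
  have b3 : |y3| ≤ 1 / 600 := hy3 ▸ h 3
  have b4 : |y4| ≤ 1 / 600 := hy4 ▸ h 4
  have b5 : |y5| ≤ 1 / 600 := hy5 ▸ h 5
  have x0 : x 0 = 1 / 6 + y0 := by linarith
  have x1 : x 1 = 1 / 6 + y1 := by linarith
  have x2 : x 2 = 1 / 6 + y2 := by linarith
  have x3 : x 3 = 1 / 6 + y3 := by linarith
  have x4 : x 4 = 1 / 6 + y4 := by linarith
  have x5 : x 5 = 1 / 6 + y5 := by linarith
  rw [x0, x1, x2, x3, x4, x5] at hx ⊢
  have hs : y5 = -(y0 + y1 + y2 + y3 + y4) := by linarith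
  -- cubic terms
  have c1 := prod_le_sq y0 y1 y2 _ b2
  have c2 := prod_le_sq y0 y1 y3 _ b3
  have c3 := prod_le_sq y0 y2 y4 _ b4
  have c4 := prod_le_sq y0 y3 y5 _ b5
  have c5 := prod_le_sq y0 y4 y5 _ b5
  have c6 := prod_le_sq y1 y2 y5 _ b5
  have c7 := prod_le_sq y1 y3 y4 _ b4
  have c8 := prod_le_sq y1 y4 y5 _ b5
  have c9 := prod_le_sq y2 y3 y4 _ b4
  have c10 := prod_le_sq y2 y3 y5 _ b5
  have d0 := prod_le_sq y0 y0 y0 _ b0
  have d1 := prod_le_sq y1 y1 y1 _ b1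
  have d2 := prod_le_sq y2 y2 y2 _ b2
  have d3 := prod_le_sq y3 y3 y3 _ b3
  have d4 := prod_le_sq y4 y4 y4 _ b4
  have d5 := prod_le_sq y5 y5 y5 _ b5
  have hd : r * (y0 * y0 * y0 + y1 * y1 * y1 + y2 * y2 * y2 + y3 * y3 * y3 + y4 * y4 * y4 +
      y5 * y5 * y5) ≤ 1 / 600 * (y0 ^ 2 + y1 ^ 2 + y2 ^ 2 + y3 ^ 2 + y4 ^ 2 + y5 ^ 2) := by
    have h1 : y0 * y0 * y0 + y1 * y1 * y1 + y2 * y2 * y2 + y3 * y3 * y3 + y4 * y4 * y4 +
      y5 * y5 * y5 ≤ 1 / 600 * (y0 ^ 2 + y1 ^ 2 + y2 ^ 2 + y3 ^ 2 + y4 ^ 2 + y5 ^ 2) := by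
      linarith
    have h2 : 0 ≤ 1 / 600 * (y0 ^ 2 + y1 ^ 2 + y2 ^ 2 + y3 ^ 2 + y4 ^ 2 + y5 ^ 2) := by
      positivity
    calc _ ≤ r * (1 / 600 * (y0 ^ 2 + y1 ^ 2 + y2 ^ 2 + y3 ^ 2 + y4 ^ 2 + y5 ^ 2)) :=
          mul_le_mul_of_nonneg_left h1 hr
      _ ≤ 1 * (1 / 600 * (y0 ^ 2 + y1 ^ 2 + y2 ^ 2 + y3 ^ 2 + y4 ^ 2 + y5 ^ 2)) :=
          mul_le_mul_of_nonneg_right hr' h2
      _ = _ := one_mul _
  have hq : r / 2 * (y0 ^ 2 + y1 ^ 2 + y2 ^ 2 + y3 ^ 2 + y4 ^ 2 + y5 ^ 2) ≤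
      1 / 2 * (y0 ^ 2 + y1 ^ 2 + y2 ^ 2 + y3 ^ 2 + y4 ^ 2 + y5 ^ 2) := by
    refine mul_le_mul_of_nonneg_right (by linarith) (by positivity)
  have hQ : 0 ≤ y0 ^ 2 + y1 ^ 2 + y2 ^ 2 + y3 ^ 2 + y4 ^ 2 + y5 ^ 2 := by positivity
  have key : 6 * ((1 / 6 + y0) * (1 / 6 + y1) * (1 / 6 + y2) +
      (1 / 6 + y0) * (1 / 6 + y1) * (1 / 6 + y3) + (1 / 6 + y0) * (1 / 6 + y2) * (1 / 6 + y4) +
      (1 / 6 + y0) * (1 / 6 + y3) * (1 / 6 + y5) + (1 / 6 + y0) * (1 / 6 + y4) * (1 / 6 + y5) +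
      (1 / 6 + y1) * (1 / 6 + y2) * (1 / 6 + y5) + (1 / 6 + y1) * (1 / 6 + y3) * (1 / 6 + y4) +
      (1 / 6 + y1) * (1 / 6 + y4) * (1 / 6 + y5) + (1 / 6 + y2) * (1 / 6 + y3) * (1 / 6 + y4) +
      (1 / 6 + y2) * (1 / 6 + y3) * (1 / 6 + y5)) +
      r * ((1 / 6 + y0) ^ 3 + (1 / 6 + y1) ^ 3 + (1 / 6 + y2) ^ 3 + (1 / 6 + y3) ^ 3 +
      (1 / 6 + y4) ^ 3 + (1 / 6 + y5) ^ 3) = (10 + r) / 36 -
      (y0 ^ 2 + y1 ^ 2 + y2 ^ 2 + y3 ^ 2 + y4 ^ 2 + y5 ^ 2) +
      r / 2 * (y0 ^ 2 + y1 ^ 2 + y2 ^ 2 + y3 ^ 2 + y4 ^ 2 + y5 ^ 2) +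
      6 * (y0 * y1 * y2 + y0 * y1 * y3 + y0 * y2 * y4 + y0 * y3 * y5 + y0 * y4 * y5 +
        y1 * y2 * y5 + y1 * y3 * y4 + y1 * y4 * y5 + y2 * y3 * y4 + y2 * y3 * y5) +
      r * (y0 * y0 * y0 + y1 * y1 * y1 + y2 * y2 * y2 + y3 * y3 * y3 + y4 * y4 * y4 +
      y5 * y5 * y5) := by
    rw [hs]; ring
  rw [key]
  linarith [sq_nonneg y0, sq_nonneg y1, sq_nonneg y2, sq_nonneg y3, sq_nonneg y4, sq_nonneg y5]

/-- Steps E and F, general form -/
theorem val_le_of_partition_gen {a τ β s1 H0 X0 η : ℝ} (N : RootNum a τ β s1 H0 X0 η)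
    (hw : IsW w) (hsz : ∀ i, |cl w c i - 1 / 6| ≤ 1 / 600)
    (hsz' : ∀ i, a ≤ cl w c i)
    (hmis : ∀ r, mis G w c r ≤ τ)
    (hown : ∀ r z, c r ≠ c z → own G w c z r ≤ β) :
    val G w ≤ (10 + rho) / 36 := by
  have h1 := bad_le_missing G w c N hw.nonneg hsz' hmis hown
  have h2 := T3_e3_le G w c hw.nonneg
  have h3 := val_split G w c
  rw [T3_blk] at h3
  have hsum : ∑ i, cl w c i = 1 := by
    have e : ∑ i, cl w c i = ∑ x, w x := by
      unfold cl
      rw [sum_comm]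
      refine sum_congr rfl fun x _ => ?_
      rw [← mul_sum, sum_ite_eq, if_pos (mem_univ _), mul_one]
    rw [e, hw.sum_eq]
  have hrho : 0 ≤ rho := by
    have := val_le_rho G w hw
    exact (val_nonneg_of G w hw.nonneg).trans this
  have h4 := Tb_le rho hrho rho_le_one (cl w c) hsum hsz
  linarith

/-- numerical instance: masses within 1 percent, missing degree at most 0.006,
own codegree at most `0.87 * 101 / 600` -/
theorem rootNum1 : RootNum (99 / 600) (6 / 1000) (14645 / 100000) (75 / 1000) (124 / 10000)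
    (57 / 1000) (155 / 10000) where
  a_pos := by norm_num
  s1_pos := by norm_num
  s1_le := by norm_num
  mid := by norm_num
  high := by
    intro o s ho ho' hs hs' hos
    by_cases h3 : 14 / 100 ≤ o
    · have : s ≤ 2143 / 100000 := by nlinarith
      linarith
    · push Not at h3
      by_cases h4 : s ≤ 215 / 10000
      · linarith
      · push Not at h4
        nlinarith
  massH := by
    intro H h0 h1 h2
    have H1 : H ≤ 24 / 1000 := by linarith
    nlinarith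
  massX := by
    intro X h0 h1 h2
    have X1 : X ≤ 73 / 1000 := by linarith
    have X2 : X ≤ 66 / 1000 := by nlinarith
    have X3 : X ≤ 61 / 1000 := by nlinarith
    have X4 : X ≤ 58 / 1000 := by nlinarith
    nlinarith
  H_le := by norm_num
  X_le := by norm_num

/-- Steps E and F -/
theorem val_le_of_partition (hw : IsW w) (hsz : ∀ i, |cl w c i - 1 / 6| ≤ 1 / 600)
    (hmis : ∀ r, mis G w c r ≤ 6 / 1000)
    (hown : ∀ r z, c r ≠ c z → own G w c z r ≤ 87 / 100 * cl w c (c z)) :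
    val G w ≤ (10 + rho) / 36 := by
  have s1 : ∀ i, 99 / 600 ≤ cl w c i := fun i => by
    have := (abs_le.1 (hsz i)).1
    linarith
  have s2 : ∀ i, cl w c i ≤ 101 / 600 := fun i => by
    have := (abs_le.1 (hsz i)).2
    linarith
  refine val_le_of_partition_gen G w c rootNum1 hw hsz s1 hmis fun r z h => ?_
  have h1 := hown r z h
  have h2 := s2 (c z)
  linarith

end D

end K4m
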