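import Pool.Agent.Lib.MP_392c14_co.Defs

/-!
# Module Sem2: near-extremal weighted 3-graphs with all degrees equal to the density
-/

set_option autoImplicit false

namespace K4m

open Filter Topology

/-- the symmetric trilinear form of a 3-graph -/
noncomputable def tri {V : Type} [Fintype V] (G : TG V) (u v w : V → ℝ) : ℝ :=
  ∑ x, ∑ y, ∑ z, u x * v y * w z * ind (G.E x y z)

theorem tri_swap12 {V : Type} [Fintype V] (G : TG V) (u v w : V → ℝ) :
    tri G u v w = tri G v u w := by
  unfold tri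
  rw [Finset.sum_comm]
  refine Finset.sum_congr rfl fun y _ => Finset.sum_congr rfl fun x _ =>
    Finset.sum_congr rfl fun z _ => ?_
  rw [G.symm₁ x y z]
  ring

theorem tri_swap23 {V : Type} [Fintype V] (G : TG V) (u v w : V → ℝ) :
    tri G u v w = tri G u w v := by
  unfold tri
  refine Finset.sum_congr rfl fun x _ => ?_
  rw [Finset.sum_comm]
  refine Finset.sum_congr rfl fun y _ => Finset.sum_congr rfl fun z _ => ?_
  rw [G.symm₂ x y z]
  ring

theorem tri_lin {V : Type} [Fintype V] (G : TG V) (u u' v w : V → ℝ) (t : ℝ) :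
    tri G (fun x => u x + t * u' x) v w = tri G u v w + t * tri G u' v w := by
  unfold tri
  simp only [Finset.mul_sum, ← Finset.sum_add_distrib]
  refine Finset.sum_congr rfl fun x _ => Finset.sum_congr rfl fun y _ =>
    Finset.sum_congr rfl fun z _ => ?_
  ring

theorem tri_lin2 {V : Type} [Fintype V] (G : TG V) (u v v' w : V → ℝ) (t : ℝ) :
    tri G u (fun x => v x + t * v' x) w = tri G u v w + t * tri G u v' w := by
  rw [tri_swap12, tri_lin, tri_swap12 G v u w, tri_swap12 G v' u w]

theorem tri_lin3 {V : Type} [Fintype V] (G : TG V) (u v w w' : V → ℝ) (t : ℝ) :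
    tri G u v (fun x => w x + t * w' x) = tri G u v w + t * tri G u v w' := by
  rw [tri_swap23, tri_lin2, tri_swap23 G u w v, tri_swap23 G u w' v]

theorem val_eq_tri {V : Type} [Fintype V] (G : TG V) (w : V → ℝ) : val G w = tri G w w w := rfl

theorem tri_eq_sum_deg {V : Type} [Fintype V] (G : TG V) (v w : V → ℝ) :
    tri G v w w = ∑ x, v x * deg G w x := by
  unfold tri deg
  refine Finset.sum_congr rfl fun x _ => ?_
  rw [Finset.mul_sum]
  refine Finset.sum_congr rfl fun y _ => ?_
  rw [Finset.mul_sum]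
  refine Finset.sum_congr rfl fun z _ => ?_
  ring

/-- the value along a line -/
theorem val_line {V : Type} [Fintype V] (G : TG V) (w v : V → ℝ) (t : ℝ) :
    val G (fun x => w x + t * v x) =
      val G w + t * (3 * tri G v w w) + t ^ 2 * (3 * tri G v v w) + t ^ 3 * tri G v v v := by
  rw [val_eq_tri, tri_lin, tri_lin2, tri_lin2, tri_lin3, tri_lin3, tri_lin3, tri_lin3,
    val_eq_tri]
  have h1 : tri G w v w = tri G v w w := tri_swap12 G w v w
  have h2 : tri G w w v = tri G v w w := by rw [tri_swap23, tri_swap12]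
  have h3 : tri G w v v = tri G v v w := by rw [tri_swap12, tri_swap23]
  have h4 : tri G v w v = tri G v v w := tri_swap23 G v w v
  rw [h1, h2, h3, h4]
  ring

/-- Lagrange condition at an interior maximum -/
theorem deg_eq_of_max {n : ℕ} (G : TG (Fin n)) (w : Fin n → ℝ) (hw : IsW w)
    (hpos : ∀ x, 0 < w x) (hmax : ∀ w', IsW w' → val G w' ≤ val G w) (x y : Fin n) :
    deg G w x = deg G w y := by
  classical
  by_cases hxy : x = y
  · rw [hxy]
  let v : Fin n → ℝ := fun z => (if z = x then 1 else 0) - (if z = y then 1 else 0)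
  have hv0 : ∑ z, v z = 0 := by
    simp [v, Finset.sum_sub_distrib]
  have hvw : tri G v w w = deg G w x - deg G w y := by
    rw [tri_eq_sum_deg]
    simp [v, sub_mul, Finset.sum_sub_distrib]
  let f : ℝ → ℝ := fun t => val G (fun z => w z + t * v z)
  have hf : ∀ t, f t = val G w + t * (3 * tri G v w w) + t ^ 2 * (3 * tri G v v w) +
      t ^ 3 * tri G v v v := fun t => val_line G w v t
  have hder : HasDerivAt f (3 * tri G v w w) 0 := by
    have h1 : HasDerivAt (fun t : ℝ => val G w + t * (3 * tri G v w w) +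
        t ^ 2 * (3 * tri G v v w) + t ^ 3 * tri G v v v)
        (0 + 1 * (3 * tri G v w w) + (2 * 0 ^ (2 - 1) * 1) * (3 * tri G v v w) +
          (3 * 0 ^ (3 - 1) * 1) * tri G v v v) 0 := by
      refine HasDerivAt.add (HasDerivAt.add (HasDerivAt.add (hasDerivAt_const _ _) ?_) ?_) ?_
      · exact (hasDerivAt_id (0 : ℝ)).mul_const _
      · have := ((hasDerivAt_id (0 : ℝ)).pow 2).mul_const (3 * tri G v v w)
        exact this
      · have := ((hasDerivAt_id (0 : ℝ)).pow 3).mul_const (tri G v v v)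
        exact this
    have h2 : f = fun t : ℝ => val G w + t * (3 * tri G v w w) +
        t ^ 2 * (3 * tri G v v w) + t ^ 3 * tri G v v v := funext hf
    rw [h2]
    have h3 : (0 + 1 * (3 * tri G v w w) + (2 * 0 ^ (2 - 1) * 1) * (3 * tri G v v w) +
          (3 * 0 ^ (3 - 1) * 1) * tri G v v v : ℝ) = 3 * tri G v w w := by
      norm_num
    rw [h3] at h1
    exact h1
  have hloc : IsLocalMax f 0 := by
    have hδ : 0 < min (w x) (w y) := lt_min (hpos x) (hpos y)
    have hev : ∀ᶠ t : ℝ in 𝓝 0, |t| < min (w x) (w y) := by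
      have := Metric.ball_mem_nhds (0 : ℝ) hδ
      filter_upwards [this] with t ht
      simpa [Metric.mem_ball, Real.dist_eq] using ht
    filter_upwards [hev] with t ht
    have hW : IsW (fun z => w z + t * v z) := by
      refine ⟨?_, ?_⟩
      · intro z
        have h1 : |t| < w x := lt_of_lt_of_le ht (min_le_left _ _)
        have h2 : |t| < w y := lt_of_lt_of_le ht (min_le_right _ _)
        have h3 := abs_lt.1 h1
        have h4 := abs_lt.1 h2
        by_cases hzx : z = x
        · have hzy : z ≠ y := fun h => hxy (hzx.symm.trans h)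
          simp only [v, hzx, if_true, if_neg (show ¬ x = y from hxy)]
          linarith [h3.1]
        · by_cases hzy : z = y
          · simp only [v, if_neg hzx, if_pos hzy, hzy]
            rw [if_neg (fun h : y = x => hxy h.symm)]
            simp only [if_true]
            linarith [h4.2]
          · simp only [v, if_neg hzx, if_neg hzy]
            have := hw.nonneg z
            linarith
      · rw [Finset.sum_add_distrib, ← Finset.mul_sum, hv0, hw.sum_eq]
        ring
    have h5 : f 0 = val G w := by rw [hf]; ring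
    rw [h5]
    exact hmax _ hW
  have hzero := hloc.hasDerivAt_eq_zero hder
  rw [hvw] at hzero
  linarith

/-- removing a vertex of weight zero -/
theorem val_remove {m : ℕ} (G : TG (Fin (m + 1))) (w : Fin (m + 1) → ℝ) (x : Fin (m + 1))
    (hx : w x = 0) :
    val (G.pull x.succAbove) (fun i => w (x.succAbove i)) = val G w := by
  unfold val
  rw [Fin.sum_univ_succAbove _ x]
  simp only [hx, zero_mul, Finset.sum_const_zero, zero_add]
  refine Finset.sum_congr rfl fun i _ => ?_
  rw [Fin.sum_univ_succAbove _ x]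
  simp only [hx, zero_mul, mul_zero, Finset.sum_const_zero, zero_add]
  refine Finset.sum_congr rfl fun j _ => ?_
  rw [Fin.sum_univ_succAbove _ x]
  simp only [hx, zero_mul, mul_zero, zero_add]
  rfl

theorem isW_remove {m : ℕ} (w : Fin (m + 1) → ℝ) (hw : IsW w) (x : Fin (m + 1))
    (hx : w x = 0) : IsW (fun i => w (x.succAbove i)) := by
  refine ⟨fun i => hw.nonneg _, ?_⟩
  have h := hw.sum_eq
  rw [Fin.sum_univ_succAbove _ x, hx, zero_add] at h
  exact h

theorem continuous_val {n : ℕ} (G : TG (Fin n)) : Continuous (fun w : Fin n → ℝ => val G w) := by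
  unfold val
  fun_prop

/-- existence of optimal weights -/
theorem exists_max {n : ℕ} (G : TG (Fin n)) (w₀ : Fin n → ℝ) (h₀ : IsW w₀) :
    ∃ w, IsW w ∧ ∀ w', IsW w' → val G w' ≤ val G w := by
  have hmem : ∀ w : Fin n → ℝ, w ∈ stdSimplex ℝ (Fin n) ↔ IsW w := fun w =>
    ⟨fun h => ⟨h.1, h.2⟩, fun h => ⟨h.nonneg, h.sum_eq⟩⟩
  obtain ⟨w, hw, hmax⟩ := (isCompact_stdSimplex ℝ (Fin n)).exists_isMaxOn ⟨w₀, (hmem w₀).2 h₀⟩
    (continuous_val G).continuousOn
  exact ⟨w, (hmem w).1 hw, fun w' hw' => hmax ((hmem w').2 hw')⟩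

/-- the 3-graph without edges -/
def TG.empty (V : Type) : TG V where
  E _ _ _ := false
  symm₁ _ _ _ := rfl
  symm₂ _ _ _ := rfl
  irr _ _ := rfl
  free _ _ _ _ := by simp

/-- variant: `w` is moreover a global maximum of `val G` on the simplex -/
theorem exists_near_opt (ε : ℝ) (hε : 0 < ε) :
    ∃ (n : ℕ) (G : TG (Fin n)) (w : Fin n → ℝ), IsW w ∧ (∀ x, 0 < w x) ∧
      (∀ x, deg G w x = val G w) ∧ (∀ w', IsW w' → val G w' ≤ val G w) ∧
      rho - ε < val G w := by
  classical
  have hne : {t : ℝ | ∃ (n : ℕ) (G : TG (Fin n)) (w : Fin n → ℝ), IsW w ∧ t = val G w}.Nonempty :=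
    ⟨_, 1, TG.empty (Fin 1), fun _ => 1, ⟨fun _ => zero_le_one, by simp⟩, rfl⟩
  have hlt : rho - ε < sSup {t : ℝ | ∃ (n : ℕ) (G : TG (Fin n)) (w : Fin n → ℝ),
      IsW w ∧ t = val G w} := by
    have : rho - ε < rho := by linarith
    exact this
  obtain ⟨t, ⟨n₁, G₁, w₁, hw₁, rfl⟩, ht⟩ := exists_lt_of_lt_csSup hne hlt
  let P : ℕ → Prop := fun n => ∃ (G : TG (Fin n)) (w : Fin n → ℝ), IsW w ∧ rho - ε < val G w
  have hP : ∃ n, P n := ⟨n₁, G₁, w₁, hw₁, ht⟩
  obtain ⟨n, hn, hmin⟩ : ∃ n, P n ∧ ∀ m < n, ¬ P m :=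
    ⟨Nat.find hP, Nat.find_spec hP, fun m hm => Nat.find_min hP hm⟩
  obtain ⟨G, w₀, hw₀, hval⟩ := hn
  obtain ⟨w, hw, hmax⟩ := exists_max G w₀ hw₀
  have hval' : rho - ε < val G w := lt_of_lt_of_le hval (hmax w₀ hw₀)
  have hpos : ∀ x, 0 < w x := by
    intro x
    rcases (hw.nonneg x).lt_or_eq with h | h
    · exact h
    · exfalso
      cases n with
      | zero => exact Fin.elim0 x
      | succ m =>
        refine hmin m (Nat.lt_succ_self m) ⟨G.pull x.succAbove, fun i => w (x.succAbove i),
          isW_remove w hw x h.symm, ?_⟩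
        rw [val_remove G w x h.symm]
        exact hval'
  refine ⟨n, G, w, hw, hpos, ?_, hmax, hval'⟩
  intro x
  have h1 : val G w = ∑ y, w y * deg G w y := by
    rw [val_eq_tri, tri_eq_sum_deg]
  have h2 : ∑ y, w y * deg G w y = ∑ y, w y * deg G w x :=
    Finset.sum_congr rfl fun y _ => by rw [deg_eq_of_max G w hw hpos hmax y x]
  rw [h1, h2, ← Finset.sum_mul, hw.sum_eq, one_mul]

/-- near-extremal weighted 3-graphs with all degrees exactly equal to the density -/
theorem exists_near (ε : ℝ) (hε : 0 < ε) :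
    ∃ (n : ℕ) (G : TG (Fin n)) (w : Fin n → ℝ), IsW w ∧ (∀ x, 0 < w x) ∧
      (∀ x, deg G w x = val G w) ∧ rho - ε < val G w := by
  obtain ⟨n, G, w, hw, hpos, hdeg, -, hval⟩ := exists_near_opt ε hε
  exact ⟨n, G, w, hw, hpos, hdeg, hval⟩

end K4m
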