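import Mathlib
import Pool.Agent.Lib.MP_392c14_co.CountD
import Pool.Agent.Lib.MP_392c14_co.Sem2

/-!
# Step D: the codegree form is conditionally negative semidefinite at an interior maximum, and the
independence bound for own neighbourhoods
-/

set_option autoImplicit false

namespace K4m

open Finset

section Cnd

theorem exists_small {n : ℕ} (w f : Fin n → ℝ) (hpos : ∀ x, 0 < w x) :
    ∃ δ : ℝ, 0 < δ ∧ ∀ x, δ * |f x| ≤ w x := by
  classical
  by_cases hn : (univ : Finset (Fin n)).Nonempty
  · obtain ⟨m, -, hm⟩ := exists_min_image univ w hn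
    refine ⟨w m / (∑ x, |f x| + 1), ?_, ?_⟩
    · have : 0 ≤ ∑ x, |f x| := sum_nonneg fun x _ => abs_nonneg _
      exact div_pos (hpos m) (by linarith)
    · intro x
      have h0 : 0 ≤ ∑ x, |f x| := sum_nonneg fun x _ => abs_nonneg _
      have h1 : |f x| ≤ ∑ x, |f x| + 1 := by
        have := single_le_sum (f := fun x => |f x|) (fun x _ => abs_nonneg (f x)) (mem_univ x)
        linarith
      rw [div_mul_eq_mul_div, div_le_iff₀ (by linarith)]
      have h2 := hm x (mem_univ x)
      calc w m * |f x| ≤ w m * (∑ x, |f x| + 1) :=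
            mul_le_mul_of_nonneg_left h1 (hpos m).le
        _ ≤ w x * (∑ x, |f x| + 1) := mul_le_mul_of_nonneg_right h2 (by linarith)
  · refine ⟨1, one_pos, fun x => ?_⟩
    exact absurd ⟨x, mem_univ x⟩ hn

/-- second order condition at an interior maximum -/
theorem cnd_of_opt {n : ℕ} (G : TG (Fin n)) (w : Fin n → ℝ) (hw : IsW w) (hpos : ∀ x, 0 < w x)
    (hmax : ∀ w', IsW w' → val G w' ≤ val G w) (f : Fin n → ℝ) (hf : ∑ x, f x = 0) :
    tri G f f w ≤ 0 := by
  obtain ⟨δ, hδ, hδw⟩ := exists_small w f hpos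
  have h1 : tri G f w w = 0 := by
    rw [tri_eq_sum_deg]
    by_cases hn : (univ : Finset (Fin n)).Nonempty
    · obtain ⟨x0, -⟩ := hn
      have : ∀ x, f x * deg G w x = f x * deg G w x0 := fun x => by
        rw [deg_eq_of_max G w hw hpos hmax x x0]
      rw [sum_congr rfl (fun x _ => this x), ← sum_mul, hf, zero_mul]
    · rw [not_nonempty_iff_eq_empty] at hn
      rw [hn, sum_empty]
  have key : ∀ t : ℝ, 0 < t → t ≤ δ → 3 * tri G f f w + t * tri G f f f ≤ 0 := by
    intro t ht htδ
    have hW : IsW (fun x => w x + t * f x) := by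
      refine ⟨fun x => ?_, ?_⟩
      · have h2 := hδw x
        have h3 : t * |f x| ≤ δ * |f x| := mul_le_mul_of_nonneg_right htδ (abs_nonneg _)
        have h4 : -(t * |f x|) ≤ t * f x := by
          have := mul_le_mul_of_nonneg_left (neg_abs_le (f x)) ht.le
          linarith
        linarith
      · rw [sum_add_distrib, ← mul_sum, hf, hw.sum_eq]; ring
    have h5 := hmax _ hW
    rw [val_line, h1] at h5
    have h6 : t ^ 2 * (3 * tri G f f w + t * tri G f f f) ≤ 0 := by
      have : t ^ 2 * (3 * tri G f f w + t * tri G f f f) =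
        t ^ 2 * (3 * tri G f f w) + t ^ 3 * tri G f f f := by ring
      rw [this]; linarith
    by_contra hne
    push Not at hne
    have : 0 < t ^ 2 * (3 * tri G f f w + t * tri G f f f) := mul_pos (pow_pos ht 2) hne
    linarith
  by_contra hne
  push Not at hne
  set K := tri G f f f with hK
  set Q := tri G f f w with hQ
  have hK0 : 0 ≤ |K| := abs_nonneg K
  set t : ℝ := min δ (Q / (|K| + 1)) with ht
  have ht0 : 0 < t := lt_min hδ (div_pos hne (by linarith))
  have h2 := key t ht0 (min_le_left _ _)
  have h3 : t * |K| ≤ Q := by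
    have h4 : t ≤ Q / (|K| + 1) := min_le_right _ _
    have h5 : t * (|K| + 1) ≤ Q := by
      rw [le_div_iff₀ (by linarith)] at h4
      exact h4
    linarith
  have h6 : -(t * |K|) ≤ t * K := by
    have := mul_le_mul_of_nonneg_left (neg_abs_le K) ht0.le
    linarith
  linarith

end Cnd

section Own

variable {V : Type} [Fintype V] (G : TG V) (w : V → ℝ) (c : V → Fin 6)

/-- indicator of the class `k` -/
noncomputable def pin (k : Fin 6) (y : V) : ℝ := if c y = k then 1 else 0

/-- inner degree of `z` in the class `k` -/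
noncomputable def inn (k : Fin 6) (z : V) : ℝ :=
  ∑ y, ∑ v, w y * w v * (pin c k y * pin c k v * ind (G.E z y v))

/-- total degree of `z` into the class `k` (pairs with the first vertex in the class) -/
noncomputable def cin (k : Fin 6) (z : V) : ℝ :=
  ∑ y, ∑ v, w y * w v * (pin c k y * ind (G.E z y v))

theorem pin_zero_or_one (k : Fin 6) (y : V) : pin c k y = 0 ∨ pin c k y = 1 := by
  unfold pin; split_ifs
  · right; rfl
  · left; rfl

theorem pin_nonneg (k : Fin 6) (y : V) : 0 ≤ pin c k y := by
  rcases pin_zero_or_one c k y with h | h <;> rw [h]; norm_num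

theorem pin_le_one (k : Fin 6) (y : V) : pin c k y ≤ 1 := by
  rcases pin_zero_or_one c k y with h | h <;> rw [h]; norm_num

/-- the bilinear form of the codegree -/
theorem tri_delta [DecidableEq V] (z : V) (v : V → ℝ) :
    tri G (fun x => if x = z then 1 else 0) v w = ∑ y, ∑ u, v y * w u * ind (G.E z y u) := by
  unfold tri
  rw [sum_eq_single z]
  · refine sum_congr rfl fun y _ => sum_congr rfl fun u _ => ?_
    simp
  · intro x _ hx
    simp [hx]
  · intro h; exact absurd (mem_univ _) h

theorem tri_delta_delta [DecidableEq V] (z : V) :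
    tri G (fun x => if x = z then 1 else 0) (fun x => if x = z then 1 else 0) w = 0 := by
  rw [tri_delta]
  refine sum_eq_zero fun y _ => sum_eq_zero fun u _ => ?_
  by_cases h : y = z
  · subst h
    rw [G.irr]; simp [ind]
  · rw [if_neg h]; ring

theorem quad_expand (a b : ℝ) (d s p : V → ℝ) :
    tri G (fun x => (d x + a * s x) + b * p x) (fun x => (d x + a * s x) + b * p x) w =
      tri G d d w + a ^ 2 * tri G s s w + b ^ 2 * tri G p p w + 2 * a * tri G d s w +
        2 * b * tri G d p w + 2 * a * b * tri G s p w := by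
  rw [tri_lin G (fun x => d x + a * s x) p, tri_lin2 G (fun x => d x + a * s x) _ p,
    tri_lin2 G p _ p, tri_lin G d s (fun x => d x + a * s x), tri_lin2 G d d s,
    tri_lin2 G s d s, tri_lin G d s p, tri_lin2 G p d s]
  rw [tri_swap12 G s d, tri_swap12 G p d, tri_swap12 G p s]
  ring

variable (hw : ∀ x, 0 ≤ w x)
include hw

theorem tri_nonneg_of (u v : V → ℝ) (hu : ∀ x, 0 ≤ u x) (hv : ∀ x, 0 ≤ v x) :
    0 ≤ tri G u v w := by
  unfold tri
  refine sum_nonneg fun x _ => sum_nonneg fun y _ => sum_nonneg fun z _ => ?_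
  exact mul_nonneg (mul_nonneg (mul_nonneg (hu x) (hv y)) (hw z)) (ind_nonneg _)

/-- Step D: the independence bound. `σ = 1 - α`. -/
theorem own_le (hcnd : ∀ f : V → ℝ, ∑ x, f x = 0 → tri G f f w ≤ 0) (k : Fin 6) (z r : V)
    (hz : c z = k) (hπ : 0 < cl w c k) (σ Cs Ca : ℝ) (hσ : 0 ≤ σ)
    (hin : 0 < inn G w c k z)
    (hCs : ∀ y, c y = k → cin G w c k y ≤ Cs)
    (hCa : Ca * cl w c k ≤ ∑ y, w y * (pin c k y * cin G w c k y))
    (hnum : σ * (3 * cin G w c k z + 3 / 2 * Cs - 9 / 4 * Ca) < inn G w c k z / 2) :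
    own G w c z r ≤ (1 - σ) * cl w c k := by
  classical
  set π : ℝ := cl w c k with hπdef
  -- the complement of the neighbourhood
  set S : V → ℝ := fun y => pin c k y * (1 - ind (G.E z y r)) with hS
  have S_nonneg : ∀ y, 0 ≤ S y := by
    intro y
    have := ind_le_one (G.E z y r)
    exact mul_nonneg (pin_nonneg c k y) (by linarith)
  have S_le : ∀ y, S y ≤ pin c k y := by
    intro y
    have h1 := ind_nonneg (G.E z y r)
    have h2 := pin_nonneg c k y
    simp only [hS]
    nlinarith
  set s : ℝ := ∑ y, w y * S y with hs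
  have s_nonneg : 0 ≤ s := sum_nonneg fun y _ => mul_nonneg (hw y) (S_nonneg y)
  have hown : own G w c z r = π - s := by
    rw [hπdef, hs]
    unfold own cl
    rw [← sum_sub_distrib]
    refine sum_congr rfl fun y _ => ?_
    simp only [hS, pin, hz]
    ring
  by_contra hne
  push Not at hne
  have hsσ : s < σ * π := by rw [hown] at hne; linarith
  set uS : V → ℝ := fun y => w y * S y with huS
  set uP : V → ℝ := fun y => w y * pin c k y with huP
  set d : V → ℝ := fun x => if x = z then 1 else 0 with hd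
  -- `A = ∑ y ∈ S, w y * c(z, y)`
  have hA : inn G w c k z ≤ 2 * tri G d uS w := by
    have e1 : tri G d uS w = ∑ y, ∑ u, uS y * w u * ind (G.E z y u) := tri_delta G w z uS
    have e2 : tri G d uS w = ∑ y, ∑ u, uS u * w y * ind (G.E z y u) := by
      rw [e1, sum_comm]
      refine sum_congr rfl fun y _ => sum_congr rfl fun u _ => ?_
      rw [G.symm₂ z y u]
    have e3 : 2 * tri G d uS w = ∑ y, ∑ u, w y * w u * ((S y + S u) * ind (G.E z y u)) := by
      have : 2 * tri G d uS w = (∑ y, ∑ u, uS y * w u * ind (G.E z y u)) +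
          ∑ y, ∑ u, uS u * w y * ind (G.E z y u) := by rw [← e1, ← e2]; ring
      rw [this, ← sum_add_distrib]
      refine sum_congr rfl fun y _ => ?_
      rw [← sum_add_distrib]
      refine sum_congr rfl fun u _ => ?_
      simp only [huS]; ring
    rw [e3]
    unfold inn
    refine sum_le_sum fun y _ => sum_le_sum fun v _ => ?_
    refine mul_le_mul_of_nonneg_left ?_ (mul_nonneg (hw y) (hw v))
    rcases ind_cases (G.E z y v) with ⟨h, h'⟩ | ⟨h, h'⟩
    · rw [h', mul_one, mul_one]
      rcases pin_zero_or_one c k y with py | py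
      · rw [py, zero_mul]
        have := S_nonneg y
        have := S_nonneg v
        linarith
      · rcases pin_zero_or_one c k v with pv | pv
        · rw [pv, mul_zero]
          have := S_nonneg y
          have := S_nonneg v
          linarith
        · rw [py, pv]
          simp only [hS]
          rw [py, pv]
          rcases ind_cases (G.E z y r) with ⟨a, a'⟩ | ⟨a, a'⟩
          · rcases ind_cases (G.E z v r) with ⟨b, b'⟩ | ⟨b, b'⟩
            · exact absurd ⟨h, a, b⟩ (G.free z y v r)
            · rw [a', b']; norm_num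
          · rcases ind_cases (G.E z v r) with ⟨b, b'⟩ | ⟨b, b'⟩
            · rw [a', b']; norm_num
            · rw [a', b']; norm_num
    · rw [h', mul_zero, mul_zero]
  have hs0 : 0 < s := by
    rcases s_nonneg.lt_or_eq with h | h
    · exact h
    · exfalso
      have hz0 : ∀ y, w y * S y = 0 := by
        have := (sum_eq_zero_iff_of_nonneg (fun y _ => mul_nonneg (hw y) (S_nonneg y))).1 h.symm
        exact fun y => this y (mem_univ y)
      have : tri G d uS w = 0 := by
        rw [tri_delta G w z uS]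
        refine sum_eq_zero fun y _ => sum_eq_zero fun u _ => ?_
        simp only [huS]
        rw [hz0 y]; ring
      rw [this] at hA
      linarith
  -- the test function
  have hsum : ∑ x, ((d x + 1 / (2 * s) * uS x) + (-(3 / (2 * π))) * uP x) = 0 := by
    rw [sum_add_distrib, sum_add_distrib, ← mul_sum, ← mul_sum]
    have h1 : ∑ x, d x = 1 := by simp [hd]
    have h2 : ∑ x, uS x = s := rfl
    have h3 : ∑ x, uP x = π := rfl
    rw [h1, h2, h3]
    field_simp
    ring
  have hq := hcnd _ hsum
  rw [quad_expand G w] at hq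
  rw [hd, tri_delta_delta G w z, ← hd] at hq
  have nSS : 0 ≤ tri G uS uS w := tri_nonneg_of G w hw uS uS
    (fun x => mul_nonneg (hw x) (S_nonneg x)) (fun x => mul_nonneg (hw x) (S_nonneg x))
  -- identify the other terms
  have tP : tri G d uP w = cin G w c k z := by
    rw [tri_delta G w z uP]
    unfold cin
    refine sum_congr rfl fun y _ => sum_congr rfl fun v _ => ?_
    simp only [huP]; ring
  have tXP : ∀ u : V → ℝ, tri G (fun y => w y * u y) uP w = ∑ y, w y * (u y * cin G w c k y) := by
    intro u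
    unfold tri cin
    refine sum_congr rfl fun x _ => ?_
    rw [mul_sum, mul_sum]
    refine sum_congr rfl fun y _ => ?_
    rw [mul_sum, mul_sum]
    refine sum_congr rfl fun v _ => ?_
    simp only [huP]; ring
  have tPP : tri G uP uP w = ∑ y, w y * (pin c k y * cin G w c k y) := tXP (pin c k)
  have tSP : tri G uS uP w = ∑ y, w y * (S y * cin G w c k y) := tXP S
  have hSP : tri G uS uP w ≤ s * Cs := by
    rw [tSP, hs, sum_mul]
    refine sum_le_sum fun y _ => ?_
    have hass : w y * S y * Cs = w y * (S y * Cs) := by ring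
    rw [hass]
    refine mul_le_mul_of_nonneg_left ?_ (hw y)
    by_cases hy : c y = k
    · exact mul_le_mul_of_nonneg_left (hCs y hy) (S_nonneg y)
    · have : S y = 0 := by simp only [hS, pin]; rw [if_neg hy]; ring
      rw [this]; simp
  have hPP : Ca * π ≤ tri G uP uP w := by rw [tPP]; exact hCa
  rw [tP] at hq
  -- clear denominators
  have e1 : (1 / (2 * s)) ^ 2 * tri G uS uS w + (-(3 / (2 * π))) ^ 2 * tri G uP uP w +
      2 * (1 / (2 * s)) * tri G d uS w + 2 * (-(3 / (2 * π))) * cin G w c k z +
      2 * (1 / (2 * s)) * (-(3 / (2 * π))) * tri G uS uP w ≤ 0 := by linarith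
  have e2 : tri G d uS w / s ≤ 3 * cin G w c k z / π + 3 / 2 * Cs / π - 9 / 4 * Ca / π := by
    have a1 : 0 ≤ (1 / (2 * s)) ^ 2 * tri G uS uS w := by positivity
    have a2 : 9 / 4 * Ca / π ≤ (-(3 / (2 * π))) ^ 2 * tri G uP uP w := by
      have : (-(3 / (2 * π))) ^ 2 * tri G uP uP w = 9 / 4 / π ^ 2 * tri G uP uP w := by
        field_simp
        ring
      rw [this]
      have h3 : 9 / 4 / π ^ 2 * (Ca * π) ≤ 9 / 4 / π ^ 2 * tri G uP uP w :=
        mul_le_mul_of_nonneg_left hPP (by positivity)
      have h4 : 9 / 4 / π ^ 2 * (Ca * π) = 9 / 4 * Ca / π := by field_simp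
      linarith
    have a3 : 2 * (1 / (2 * s)) * (3 / (2 * π)) * tri G uS uP w ≤ 3 / 2 * Cs / π := by
      have h3 : 2 * (1 / (2 * s)) * (3 / (2 * π)) * tri G uS uP w ≤
          2 * (1 / (2 * s)) * (3 / (2 * π)) * (s * Cs) :=
        mul_le_mul_of_nonneg_left hSP (by positivity)
      have h4 : 2 * (1 / (2 * s)) * (3 / (2 * π)) * (s * Cs) = 3 / 2 * Cs / π := by field_simp
      linarith
    have a4 : 2 * (1 / (2 * s)) * tri G d uS w = tri G d uS w / s := by field_simp
    have a5 : 2 * (-(3 / (2 * π))) * cin G w c k z = -(3 * cin G w c k z / π) := by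
      field_simp
    have a6 : 2 * (1 / (2 * s)) * (-(3 / (2 * π))) * tri G uS uP w =
        -(2 * (1 / (2 * s)) * (3 / (2 * π)) * tri G uS uP w) := by ring
    rw [a4, a5, a6] at e1
    linarith
  set Z : ℝ := 3 * cin G w c k z + 3 / 2 * Cs - 9 / 4 * Ca with hZ
  have e3 : tri G d uS w / s ≤ Z / π := by
    have : Z / π = 3 * cin G w c k z / π + 3 / 2 * Cs / π - 9 / 4 * Ca / π := by
      rw [hZ]; ring
    rw [this]; exact e2
  have e4 : tri G d uS w * π ≤ Z * s := by
    rw [div_le_div_iff₀ hs0 hπ] at e3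
    exact e3
  have e5 : inn G w c k z / 2 * π ≤ Z * s := by
    have := mul_le_mul_of_nonneg_right hA hπ.le
    linarith
  have hZpos : 0 < Z := by
    by_contra hZn
    push Not at hZn
    have h1 : Z * s ≤ 0 := mul_nonpos_of_nonpos_of_nonneg hZn s_nonneg
    have h2 : 0 < inn G w c k z / 2 * π := mul_pos (by linarith) hπ
    linarith
  have e6 : Z * s ≤ Z * (σ * π) := mul_le_mul_of_nonneg_left hsσ.le hZpos.le
  have e7 : Z * (σ * π) < inn G w c k z / 2 * π := by
    have := mul_lt_mul_of_pos_right hnum hπ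
    calc Z * (σ * π) = σ * Z * π := by ring
      _ < _ := this
  linarith

end Own

end K4m
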