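import Mathlib
import Pool.Agent.Lib.MP_392c14_co.CountD
import Pool.Agent.Lib.MP_392c14_co.Cnd

/-!
# Local analysis at a vertex: the degree identity and bounds for the bad pairs
-/

set_option autoImplicit false

namespace K4m

open Finset

section S2

variable {V : Type} [Fintype V] (w : V → ℝ)

/-- weighted double sums -/
noncomputable def S2 (F : V → V → ℝ) : ℝ := ∑ u, ∑ v, w u * w v * F u v

theorem S2_swap (F : V → V → ℝ) : S2 w (fun u v => F v u) = S2 w F := by
  unfold S2
  rw [sum_comm]
  refine sum_congr rfl fun x _ => sum_congr rfl fun y _ => ?_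
  ring

theorem S2_add (F H : V → V → ℝ) :
    S2 w (fun u v => F u v + H u v) = S2 w F + S2 w H := by
  unfold S2
  simp only [mul_add, sum_add_distrib]

theorem S2_sub (F H : V → V → ℝ) :
    S2 w (fun u v => F u v - H u v) = S2 w F - S2 w H := by
  unfold S2
  simp only [mul_sub, sum_sub_distrib]

theorem S2_mul (a : ℝ) (F : V → V → ℝ) :
    S2 w (fun u v => a * F u v) = a * S2 w F := by
  unfold S2
  simp only [mul_sum]
  refine sum_congr rfl fun x _ => sum_congr rfl fun y _ => ?_
  ring

theorem S2_mono (hw : ∀ x, 0 ≤ w x) {F H : V → V → ℝ} (h : ∀ u v, F u v ≤ H u v) :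
    S2 w F ≤ S2 w H := by
  unfold S2
  refine sum_le_sum fun x _ => sum_le_sum fun y _ => ?_
  exact mul_le_mul_of_nonneg_left (h x y) (mul_nonneg (hw x) (hw y))

theorem S2_nonneg (hw : ∀ x, 0 ≤ w x) {F : V → V → ℝ} (h : ∀ u v, 0 ≤ F u v) :
    0 ≤ S2 w F := by
  unfold S2
  refine sum_nonneg fun x _ => sum_nonneg fun y _ => ?_
  exact mul_nonneg (mul_nonneg (hw x) (hw y)) (h x y)

theorem S2_congr {F H : V → V → ℝ} (h : ∀ u v, F u v = H u v) : S2 w F = S2 w H := by
  have : F = H := by funext x y; exact h x y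
  rw [this]

theorem S2_eq (F : V → V → ℝ) : S2 w F = ∑ u, w u * ∑ v, w v * F u v := by
  unfold S2
  refine sum_congr rfl fun x _ => ?_
  rw [mul_sum]
  refine sum_congr rfl fun y _ => ?_
  ring

theorem S2_fst (f : V → ℝ) (H : V → V → ℝ) :
    S2 w (fun u v => f u * H u v) = ∑ u, w u * (f u * ∑ v, w v * H u v) := by
  rw [S2_eq]
  refine sum_congr rfl fun x _ => ?_
  congr 1
  rw [mul_sum]
  refine sum_congr rfl fun y _ => ?_
  ring

theorem S2_snd (f : V → ℝ) (H : V → V → ℝ) :
    S2 w (fun u v => f v * H u v) = ∑ v, w v * (f v * ∑ u, w u * H u v) := by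
  have h := S2_swap w (fun v u => f v * H u v)
  exact h.trans (S2_fst w f (fun v u => H u v))

theorem S2_prod (f g : V → ℝ) :
    S2 w (fun u v => f u * g v) = (∑ u, w u * f u) * ∑ v, w v * g v := by
  rw [S2_fst, sum_mul]
  refine sum_congr rfl fun x _ => ?_
  ring

/-- a triple sum as a sum of double sums -/
theorem T3_S2 (F : V → V → V → ℝ) : T3 w F = ∑ z, w z * S2 w (F z) := by
  rw [T3_eq]
  refine sum_congr rfl fun x _ => ?_
  rw [S2_eq]

end S2

section R

variable {V : Type} [Fintype V] (G : TG V) (w : V → ℝ) (c : V → Fin 6)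

/-- pairs at `z` with exactly the first vertex in the class of `z` -/
noncomputable def bz (z : V) : ℝ := S2 w (fun u v => p1 (c z) (c u) (c v) * ind (G.E z u v))

/-- pairs at `z` in a common class different from the class of `z` -/
noncomputable def btw (z : V) : ℝ := S2 w (fun u v => p1 (c u) (c v) (c z) * ind (G.E z u v))

/-- pairs at `z` which form a non-block with the class of `z` -/
noncomputable def gm (z : V) : ℝ := S2 w (fun u v => nbl (c z) (c u) (c v) * ind (G.E z u v))

/-- the number of bad pairs at `z` -/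
noncomputable def bad (z : V) : ℝ := 2 * bz G w c z + btw G w c z + gm G w c z

/-- the mass of the block pairs at the class `k` -/
noncomputable def idl (k : Fin 6) : ℝ := S2 w (fun u v => blk k (c u) (c v))

/-- missing mass carried by the heavy partners of `z` -/
noncomputable def Tz (z : V) : ℝ := ∑ v, w v * (hv G w c z v * miss G w c z v)

/-- mass of the heavy partners of `z` -/
noncomputable def Hz (z : V) : ℝ := ∑ v, w v * hv G w c z v

/-- missing mass with one vertex in the class `k` -/
noncomputable def Mk (k : Fin 6) : ℝ := ∑ u, w u * (pin c k u * mis G w c u)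

/-- missing codegrees of the non-block pairs at the class `k` -/
noncomputable def Wk (k : Fin 6) : ℝ := S2 w (fun u v => nbl k (c u) (c v) * miss G w c u v)

/-- total missing mass -/
noncomputable def MM : ℝ := T3 w (fun x y z => blk (c x) (c y) (c z) * (1 - ind (G.E x y z)))

theorem mis_eq_S2 (z : V) :
    mis G w c z = S2 w (fun u v => blk (c z) (c u) (c v) * (1 - ind (G.E z u v))) := by
  rw [S2_eq]; rfl

theorem MM_eq_sum : MM G w c = ∑ z, w z * mis G w c z := by
  unfold MM
  rw [T3_S2]
  refine sum_congr rfl fun z _ => ?_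
  rw [mis_eq_S2]

theorem e3_eq_pin (z u v : V) : e3 (c z) (c u) (c v) = pin c (c z) u * pin c (c z) v := by
  unfold e3 pin
  by_cases h1 : c z = c u
  · by_cases h2 : c u = c v
    · rw [if_pos ⟨h1, h2⟩, if_pos h1.symm, if_pos (h1.trans h2).symm]; norm_num
    · rw [if_neg (fun h => h2 h.2), if_pos h1.symm, if_neg (fun h => h2 (h1.symm.trans h.symm))]
      norm_num
  · rw [if_neg (fun h => h1 h.1), if_neg (fun h => h1 h.symm)]; norm_num

theorem pin_eq_e3_p1 (z u v : V) :
    pin c (c z) u = e3 (c z) (c u) (c v) + p1 (c z) (c u) (c v) := by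
  unfold e3 pin p1
  by_cases h1 : c z = c u
  · by_cases h2 : c u = c v
    · rw [if_pos h1.symm, if_pos ⟨h1, h2⟩, if_neg (fun h => h.2 h2)]; norm_num
    · rw [if_pos h1.symm, if_neg (fun h => h2 h.2), if_pos ⟨h1, h2⟩]; norm_num
  · rw [if_neg (fun h => h1 h.symm), if_neg (fun h => h1 h.1), if_neg (fun h => h1 h.1)]; norm_num

theorem inn_eq_S2 (z : V) :
    inn G w c (c z) z = S2 w (fun u v => e3 (c z) (c u) (c v) * ind (G.E z u v)) := by
  unfold inn
  refine (S2_congr w fun u v => ?_ : S2 w _ = _)
  rw [e3_eq_pin]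

/-- total degree into the class of `z` -/
theorem cin_eq (z : V) : cin G w c (c z) z = inn G w c (c z) z + bz G w c z := by
  rw [inn_eq_S2]
  unfold bz
  rw [← S2_add]
  unfold cin
  refine (S2_congr w fun u v => ?_ : S2 w _ = _)
  rw [pin_eq_e3_p1 c z u v]; ring

/-- the degree identity -/
theorem deg_eq (z : V) : deg G w z = inn G w c (c z) z + bad G w c z + idl w c (c z) -
    mis G w c z := by
  have h1 : deg G w z = S2 w (fun u v => e3 (c z) (c u) (c v) * ind (G.E z u v) +
      (p1 (c z) (c u) (c v) * ind (G.E z u v) + (p1 (c z) (c v) (c u) * ind (G.E z v u) +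
      (p1 (c u) (c v) (c z) * ind (G.E z u v) + (nbl (c z) (c u) (c v) * ind (G.E z u v) +
      (blk (c z) (c u) (c v) - blk (c z) (c u) (c v) * (1 - ind (G.E z u v)))))))) := by
    unfold deg S2
    refine sum_congr rfl fun u _ => sum_congr rfl fun v _ => ?_
    have hp := pattern_sum (c z) (c u) (c v)
    beta_reduce
    rw [G.symm₂ z u v]
    have : ind (G.E z u v) = (e3 (c z) (c u) (c v) + p1 (c z) (c u) (c v) +
        p1 (c z) (c v) (c u) + p1 (c u) (c v) (c z) + nbl (c z) (c u) (c v) +
        blk (c z) (c u) (c v)) * ind (G.E z u v) := by rw [hp, one_mul]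
    calc w u * w v * ind (G.E z u v) = w u * w v * ((e3 (c z) (c u) (c v) +
        p1 (c z) (c u) (c v) +
        p1 (c z) (c v) (c u) + p1 (c u) (c v) (c z) + nbl (c z) (c u) (c v) +
        blk (c z) (c u) (c v)) * ind (G.E z u v)) := by rw [← this]
      _ = _ := by ring
  rw [h1, S2_add, S2_add, S2_add, S2_add, S2_add, S2_sub, ← inn_eq_S2, ← mis_eq_S2]
  have s1 := S2_swap w (fun u v => p1 (c z) (c u) (c v) * ind (G.E z u v))
  rw [s1]
  unfold bad bz btw gm idl
  ring

variable (hw : ∀ x, 0 ≤ w x)
include hw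

theorem Tz_nonneg (z : V) : 0 ≤ Tz G w c z :=
  sum_nonneg fun v _ => mul_nonneg (hw v) (mul_nonneg (hv_nonneg G w c z v)
    (miss_nonneg G w c hw z v))

theorem Hz_nonneg (z : V) : 0 ≤ Hz G w c z :=
  sum_nonneg fun v _ => mul_nonneg (hw v) (hv_nonneg G w c z v)

theorem Mk_nonneg (k : Fin 6) : 0 ≤ Mk G w c k :=
  sum_nonneg fun v _ => mul_nonneg (hw v) (mul_nonneg (pin_nonneg c k v)
    (mis_nonneg G w c hw v))

theorem Wk_nonneg (k : Fin 6) : 0 ≤ Wk G w c k :=
  S2_nonneg w hw fun u v => mul_nonneg (nbl_nonneg _ _ _) (miss_nonneg G w c hw u v)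

theorem Tz_le_mis (z : V) : Tz G w c z ≤ mis G w c z := by
  unfold Tz mis
  refine sum_le_sum fun v _ => mul_le_mul_of_nonneg_left ?_ (hw v)
  have := miss_nonneg G w c hw z v
  rcases hv_zero_or_one G w c z v with h | h <;> rw [h] <;> linarith

theorem two_Tz_le (z : V) : 2 * Tz G w c z ≤ mis G w c z + Hz G w c z ^ 2 :=
  mass_le G w c hw z (fun v => hv G w c z v) (fun v => hv_zero_or_one G w c z v)

theorem Hz_le (p : ℝ) (hp : ∀ i, p ≤ cl w c i) (z : V) : p * Hz G w c z ≤ Tz G w c z := by
  unfold Hz Tz
  rw [mul_sum]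
  refine sum_le_sum fun v _ => ?_
  have e : p * (w v * hv G w c z v) = w v * (p * hv G w c z v) := by ring
  rw [e]
  refine mul_le_mul_of_nonneg_left ?_ (hw v)
  by_cases h : c z ≠ c v ∧ SS w c (c z) (c v) ≤ 2 * miss G w c z v
  · have h1 : hv G w c z v = 1 := by unfold hv; rw [if_pos h]
    have h2 := SS_ge w c p hp (c z) (c v) h.1
    rw [h1]; linarith [h.2]
  · have h1 : hv G w c z v = 0 := by unfold hv; rw [if_neg h]
    rw [h1]; simp

/-- own pairs at `z` -/
theorem bz_le (p Q : ℝ) (hp0 : 0 < p) (hp : ∀ i, p ≤ cl w c i) (z : V)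
    (hQ : ∀ v, c z ≠ c v → own G w c z v ≤ Q) :
    2 * p * bz G w c z ≤ Q * Tz G w c z + 2 * Mk G w c (c z) := by
  have key : ∀ u v, 2 * p * (p1 (c z) (c u) (c v) * ind (G.E z u v)) ≤
      (hv G w c z v * miss G w c z v) * ((if c u = c z then 1 else 0) * ind (G.E z u v)) +
      2 * (pin c (c z) u * miss G w c u v) := by
    intro u v
    have n1 : 0 ≤ (hv G w c z v * miss G w c z v) *
        ((if c u = c z then 1 else 0) * ind (G.E z u v)) := by
      refine mul_nonneg (mul_nonneg (hv_nonneg G w c z v) (miss_nonneg G w c hw z v))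
        (mul_nonneg ?_ (ind_nonneg _))
      split_ifs <;> norm_num
    have n2 : 0 ≤ pin c (c z) u * miss G w c u v :=
      mul_nonneg (pin_nonneg c _ u) (miss_nonneg G w c hw u v)
    by_cases h : c z = c u ∧ c u ≠ c v
    · rcases ind_cases (G.E z u v) with ⟨e, e'⟩ | ⟨e, e'⟩
      · have hE : G.E v z u = true := by rw [E_rot]; exact e
        have h1 := miss_add_ge G w c hw z u v h.1 hE
        have hvz : c v ≠ c z := fun hh => h.2 (by rw [hh]; exact h.1.symm)
        have hp2 := SS_ge w c p hp (c v) (c z) hvz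
        rw [miss_symm G w c z v, miss_symm G w c u v] at h1
        have e1 : p1 (c z) (c u) (c v) = 1 := by unfold p1; rw [if_pos h]
        have e2 : pin c (c z) u = 1 := by unfold pin; rw [if_pos h.1.symm]
        rw [e1, e2, e', if_pos h.1.symm]
        by_cases hh : SS w c (c z) (c v) ≤ 2 * miss G w c z v
        · have h3 : hv G w c z v = 1 := by unfold hv; rw [if_pos ⟨hvz.symm, hh⟩]
          rw [h3]
          have := miss_nonneg G w c hw u v
          linarith
        · have h3 : hv G w c z v = 0 := by
            unfold hv; rw [if_neg]; rintro ⟨-, h'⟩; exact hh h'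
          rw [h3]
          push Not at hh
          rw [SS_symm] at hh
          linarith
      · rw [e', mul_zero, mul_zero, mul_zero, mul_zero]
        linarith
    · have e1 : p1 (c z) (c u) (c v) = 0 := by unfold p1; rw [if_neg h]
      rw [e1, zero_mul, mul_zero]
      linarith
  have h1 := S2_mono w hw key
  rw [S2_mul, S2_add, S2_mul] at h1
  have h2 : S2 w (fun u v => (hv G w c z v * miss G w c z v) *
      ((if c u = c z then 1 else 0) * ind (G.E z u v))) =
      ∑ v, w v * ((hv G w c z v * miss G w c z v) * own G w c z v) :=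
    S2_snd w (fun v => hv G w c z v * miss G w c z v)
      (fun u v => (if c u = c z then 1 else 0) * ind (G.E z u v))
  have h3 : S2 w (fun u v => pin c (c z) u * miss G w c u v) = Mk G w c (c z) :=
    S2_fst w (fun u => pin c (c z) u) (fun u v => miss G w c u v)
  have h4 : ∑ v, w v * ((hv G w c z v * miss G w c z v) * own G w c z v) ≤ Q * Tz G w c z := by
    unfold Tz
    rw [mul_sum]
    refine sum_le_sum fun v _ => ?_
    have e : Q * (w v * (hv G w c z v * miss G w c z v)) =
        w v * ((hv G w c z v * miss G w c z v) * Q) := by ring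
    rw [e]
    refine mul_le_mul_of_nonneg_left ?_ (hw v)
    by_cases h : c z ≠ c v
    · exact mul_le_mul_of_nonneg_left (hQ v h) (mul_nonneg (hv_nonneg G w c z v)
        (miss_nonneg G w c hw z v))
    · have h5 : hv G w c z v = 0 := by unfold hv; rw [if_neg]; rintro ⟨h', -⟩; exact h h'
      rw [h5]; simp
  rw [h2, h3] at h1
  unfold bz
  linarith

/-- pairs at `z` in a common other class -/
theorem bt_le (p Q : ℝ) (hp : ∀ i, p ≤ cl w c i) (z : V)
    (hQ : ∀ u, c z ≠ c u → own G w c u z ≤ Q) :
    p * btw G w c z ≤ Q * Tz G w c z + Hz G w c z * (mis G w c z - Tz G w c z) := by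
  set m : V → ℝ := fun u => miss G w c z u with hm
  set H : V → ℝ := fun u => hv G w c z u with hH
  have m0 : ∀ u, 0 ≤ m u := fun u => miss_nonneg G w c hw z u
  have H0 : ∀ u, 0 ≤ H u := fun u => hv_nonneg G w c z u
  have H1 : ∀ u, H u ≤ 1 := by
    intro u
    rcases hv_zero_or_one G w c z u with h | h <;> simp only [hH] <;> rw [h]; norm_num
  set o : V → V → ℝ := fun u v => (if c v = c u then 1 else 0) * ind (G.E u v z) with ho
  have key : ∀ u v, 2 * p * (p1 (c u) (c v) (c z) * ind (G.E z u v)) ≤
      ((H u * m u) * o u v + (H v * m v) * o v u) +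
      (((1 - H u) * m u) * H v + ((1 - H v) * m v) * H u) := by
    intro u v
    have n0 : 0 ≤ o u v := by
      simp only [ho]
      refine mul_nonneg ?_ (ind_nonneg _)
      split_ifs <;> norm_num
    have n0' : 0 ≤ o v u := by
      simp only [ho]
      refine mul_nonneg ?_ (ind_nonneg _)
      split_ifs <;> norm_num
    have n1 := mul_nonneg (mul_nonneg (H0 u) (m0 u)) n0
    have n2 := mul_nonneg (mul_nonneg (H0 v) (m0 v)) n0'
    have n3 : 0 ≤ ((1 - H u) * m u) * H v :=
      mul_nonneg (mul_nonneg (by linarith [H1 u]) (m0 u)) (H0 v)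
    have n4 : 0 ≤ ((1 - H v) * m v) * H u :=
      mul_nonneg (mul_nonneg (by linarith [H1 v]) (m0 v)) (H0 u)
    by_cases h : c u = c v ∧ c v ≠ c z
    · rcases ind_cases (G.E z u v) with ⟨e, e'⟩ | ⟨e, e'⟩
      · have h1 := miss_add_ge G w c hw u v z h.1 e
        have hzu : c z ≠ c u := fun hh => h.2 (by rw [hh]; exact h.1.symm)
        have hp2 := SS_ge w c p hp (c z) (c u) hzu
        have e1 : p1 (c u) (c v) (c z) = 1 := by unfold p1; rw [if_pos h]
        have f1 : G.E u v z = true := by rw [← E_rot G u v z]; exact e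
        have f2 : G.E v u z = true := by rw [G.symm₁]; exact f1
        have o1 : o u v = 1 := by
          simp only [ho]; rw [if_pos h.1.symm, ind_true f1]; norm_num
        have o2 : o v u = 1 := by
          simp only [ho]; rw [if_pos h.1, ind_true f2]; norm_num
        rw [e1, e', o1, o2]
        have h3 : 2 * p ≤ m u + m v := by
          simp only [hm]; linarith
        rcases hv_zero_or_one G w c z u with a | a
        · rcases hv_zero_or_one G w c z v with b | b
          · exfalso
            have a' : ¬ SS w c (c z) (c u) ≤ 2 * miss G w c z u := by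
              intro hh
              have : hv G w c z u = 1 := by unfold hv; rw [if_pos ⟨hzu, hh⟩]
              rw [this] at a; norm_num at a
            have b' : ¬ SS w c (c z) (c v) ≤ 2 * miss G w c z v := by
              intro hh
              have : hv G w c z v = 1 := by
                unfold hv; rw [if_pos ⟨fun e => h.2 e.symm, hh⟩]
              rw [this] at b; norm_num at b
            push Not at a' b'
            rw [← h.1] at b'
            linarith
          · have a2 : H u = 0 := a
            have b2 : H v = 1 := b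
            rw [a2, b2]; linarith
        · rcases hv_zero_or_one G w c z v with b | b
          · have a2 : H u = 1 := a
            have b2 : H v = 0 := b
            rw [a2, b2]; linarith
          · have a2 : H u = 1 := a
            have b2 : H v = 1 := b
            rw [a2, b2]; linarith
      · rw [e', mul_zero, mul_zero]
        linarith
    · have e1 : p1 (c u) (c v) (c z) = 0 := by unfold p1; rw [if_neg h]
      rw [e1, zero_mul, mul_zero]
      linarith
  have h1 := S2_mono w hw key
  rw [S2_mul, S2_add, S2_add, S2_add] at h1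
  have s1 := S2_swap w (fun u v => (H u * m u) * o u v)
  have s2 := S2_swap w (fun u v => ((1 - H u) * m u) * H v)
  rw [s1, s2] at h1
  have h2 : S2 w (fun u v => (H u * m u) * o u v) ≤ Q * Tz G w c z := by
    rw [S2_fst]
    unfold Tz
    rw [mul_sum]
    refine sum_le_sum fun u _ => ?_
    have e : Q * (w u * (hv G w c z u * miss G w c z u)) =
        w u * ((H u * m u) * Q) := by simp only [hH, hm]; ring
    rw [e]
    refine mul_le_mul_of_nonneg_left ?_ (hw u)
    by_cases h : c z ≠ c u
    · exact mul_le_mul_of_nonneg_left (hQ u h) (mul_nonneg (H0 u) (m0 u))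
    · have h5 : H u = 0 := by
        simp only [hH]; unfold hv; rw [if_neg]; rintro ⟨h', -⟩; exact h h'
      rw [h5]; simp
  have h3 : S2 w (fun u v => ((1 - H u) * m u) * H v) =
      Hz G w c z * (mis G w c z - Tz G w c z) := by
    rw [S2_prod]
    have e1 : ∑ u, w u * ((1 - H u) * m u) = mis G w c z - Tz G w c z := by
      unfold mis Tz
      rw [← sum_sub_distrib]
      refine sum_congr rfl fun u _ => ?_
      simp only [hH, hm]; ring
    rw [e1]
    unfold Hz
    ring
  rw [h3] at h1
  unfold btw
  linarith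

end R

end K4m
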