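import Mathlib
import Pool.Agent.Lib.MP_392c14_co.Root

/-!
# Local analysis at a vertex, continued: non-block pairs, and the sums over the classes
-/

set_option autoImplicit false

namespace K4m

open Finset

theorem D6_four : ∀ i j k l : Fin 6, i ≠ j → i ≠ k → j ≠ k → D6.E i j k = false →
    (D6.E i j l = false ∧ D6.E i k l = false ∧ D6.E j k l = false) ∨
    (D6.E i j l = true ∧ D6.E i k l = true ∧ D6.E j k l = false) ∨
    (D6.E i j l = true ∧ D6.E i k l = false ∧ D6.E j k l = true) ∨
    (D6.E i j l = false ∧ D6.E i k l = true ∧ D6.E j k l = true) := by decide +kernel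

theorem D6_ne : ∀ i j k : Fin 6, D6.E i j k = true → i ≠ j ∧ i ≠ k ∧ j ≠ k := by
  decide +kernel

theorem D6_Wnat : ∀ k i j l : Fin 6, D6.E i j l = true →
    (if k ≠ i ∧ k ≠ j ∧ i ≠ j ∧ D6.E k i j = false then 1 else 0) +
    ((if k ≠ l ∧ k ≠ i ∧ l ≠ i ∧ D6.E k l i = false then 1 else 0) +
    (if k ≠ j ∧ k ≠ l ∧ j ≠ l ∧ D6.E k j l = false then 1 else 0)) +
    2 * ((if i = k then 1 else 0) + ((if l = k then 1 else 0) + (if j = k then 1 else 0))) ≤
    2 := by decide +kernel

section R2

variable {V : Type} [Fintype V] (G : TG V) (w : V → ℝ) (c : V → Fin 6)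

variable (hw : ∀ x, 0 ≤ w x)
include hw

/-- three missing codegrees of a bad edge of three different classes -/
theorem miss_three (z u v : V) (hzu : c z ≠ c u) (hzv : c z ≠ c v) (huv : c u ≠ c v)
    (hb : D6.E (c z) (c u) (c v) = false) (hE : G.E z u v = true) (p : ℝ)
    (hp : ∀ i, p ≤ cl w c i) :
    3 * p ≤ miss G w c z u + miss G w c z v + miss G w c u v := by
  have h1 : (SS w c (c z) (c u) + SS w c (c z) (c v) + SS w c (c u) (c v)) / 2 ≤
      miss G w c z u + miss G w c z v + miss G w c u v := by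
    unfold SS miss
    rw [← sum_add_distrib, ← sum_add_distrib, ← sum_add_distrib, ← sum_add_distrib, sum_div]
    refine sum_le_sum fun x _ => ?_
    have e1 : (w x * blk (c z) (c u) (c x) + w x * blk (c z) (c v) (c x) +
        w x * blk (c u) (c v) (c x)) / 2 = w x * ((blk (c z) (c u) (c x) +
        blk (c z) (c v) (c x) + blk (c u) (c v) (c x)) / 2) := by ring
    rw [e1, ← mul_add, ← mul_add]
    refine mul_le_mul_of_nonneg_left ?_ (hw x)
    have i1 := ind_le_one (G.E z u x)
    have i2 := ind_le_one (G.E z v x)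
    have i3 := ind_le_one (G.E u v x)
    rcases D6_four (c z) (c u) (c v) (c x) hzu hzv huv hb with
      ⟨a, b, d⟩ | ⟨a, b, d⟩ | ⟨a, b, d⟩ | ⟨a, b, d⟩
    · have a' : blk (c z) (c u) (c x) = 0 := ind_false a
      have b' : blk (c z) (c v) (c x) = 0 := ind_false b
      have d' : blk (c u) (c v) (c x) = 0 := ind_false d
      rw [a', b', d']; norm_num
    · have a' : blk (c z) (c u) (c x) = 1 := ind_true a
      have b' : blk (c z) (c v) (c x) = 1 := ind_true b
      have d' : blk (c u) (c v) (c x) = 0 := ind_false d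
      rw [a', b', d']
      rcases ind_cases (G.E z u x) with ⟨e, e'⟩ | ⟨e, e'⟩
      · rcases ind_cases (G.E z v x) with ⟨f, f'⟩ | ⟨f, f'⟩
        · exact absurd ⟨hE, e, f⟩ (G.free z u v x)
        · rw [e', f']; norm_num
      · rw [e']; linarith
    · have a' : blk (c z) (c u) (c x) = 1 := ind_true a
      have b' : blk (c z) (c v) (c x) = 0 := ind_false b
      have d' : blk (c u) (c v) (c x) = 1 := ind_true d
      rw [a', b', d']
      rcases ind_cases (G.E z u x) with ⟨e, e'⟩ | ⟨e, e'⟩
      · rcases ind_cases (G.E u v x) with ⟨f, f'⟩ | ⟨f, f'⟩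
        · exact absurd ⟨by rw [G.symm₁]; exact hE, by rw [G.symm₁]; exact e, f⟩ (G.free u z v x)
        · rw [e', f']; norm_num
      · rw [e']; linarith
    · have a' : blk (c z) (c u) (c x) = 0 := ind_false a
      have b' : blk (c z) (c v) (c x) = 1 := ind_true b
      have d' : blk (c u) (c v) (c x) = 1 := ind_true d
      rw [a', b', d']
      rcases ind_cases (G.E z v x) with ⟨e, e'⟩ | ⟨e, e'⟩
      · rcases ind_cases (G.E u v x) with ⟨f, f'⟩ | ⟨f, f'⟩
        · refine absurd ⟨?_, ?_, ?_⟩ (G.free v z u x)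
          · rw [E_rot]; exact hE
          · rw [G.symm₁]; exact e
          · rw [G.symm₁]; exact f
        · rw [e', f']; norm_num
      · rw [e']; linarith
  have s1 := SS_ge w c p hp (c z) (c u) hzu
  have s2 := SS_ge w c p hp (c z) (c v) hzv
  have s3 := SS_ge w c p hp (c u) (c v) huv
  linarith

/-- non-block pairs at `z` -/
theorem gm_le (p q : ℝ) (hp : ∀ i, p ≤ cl w c i) (hq : ∀ i, cl w c i ≤ q) (hq0 : 0 ≤ q)
    (z : V) :
    2 * q * (3 * p - 2 * q) * gm G w c z ≤ mis G w c z ^ 2 + 2 * q * Wk G w c (c z) := by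
  have key : ∀ u v, 2 * q * (3 * p - 2 * q) * (nbl (c z) (c u) (c v) * ind (G.E z u v)) ≤
      miss G w c z u * miss G w c z v + 2 * q * (nbl (c z) (c u) (c v) * miss G w c u v) := by
    intro u v
    have mu := miss_nonneg G w c hw z u
    have mv := miss_nonneg G w c hw z v
    have muv := miss_nonneg G w c hw u v
    have n1 : 0 ≤ miss G w c z u * miss G w c z v := mul_nonneg mu mv
    have n2 : 0 ≤ 2 * q * (nbl (c z) (c u) (c v) * miss G w c u v) :=
      mul_nonneg (by linarith) (mul_nonneg (nbl_nonneg _ _ _) muv)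
    by_cases h : c z ≠ c u ∧ c z ≠ c v ∧ c u ≠ c v ∧ D6.E (c z) (c u) (c v) = false
    · have e1 : nbl (c z) (c u) (c v) = 1 := by unfold nbl; rw [if_pos h]
      obtain ⟨hzu, hzv, huv, hb⟩ := h
      rcases ind_cases (G.E z u v) with ⟨e, e'⟩ | ⟨e, e'⟩
      · rw [e1, e']
        have h3 := miss_three G w c hw z u v hzu hzv huv hb e p hp
        have a1 := (miss_le_SS G w c hw z u).trans (SS_le w c q hq (c z) (c u) hzu)
        have a2 := (miss_le_SS G w c hw z v).trans (SS_le w c q hq (c z) (c v) hzv)
        have h4 : 0 ≤ (2 * q - miss G w c z u) * (2 * q - miss G w c z v) :=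
          mul_nonneg (by linarith) (by linarith)
        have h5 : 0 ≤ 2 * q * (miss G w c z u + miss G w c z v + miss G w c u v - 3 * p) :=
          mul_nonneg (by linarith) (by linarith)
        linarith
      · rw [e', mul_zero, mul_zero]; linarith
    · have e1 : nbl (c z) (c u) (c v) = 0 := by unfold nbl; rw [if_neg h]
      rw [e1, zero_mul, mul_zero, zero_mul, mul_zero]; linarith
  have h1 := S2_mono w hw key
  rw [S2_mul, S2_add, S2_mul, S2_prod] at h1
  have h2 : ∑ u, w u * miss G w c z u = mis G w c z := rfl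
  rw [h2] at h1
  unfold gm Wk
  linarith

theorem Mk_le (k : Fin 6) : 3 * Mk G w c k ≤ MM G w c := by
  set A : V → V → V → ℝ := fun x y z => blk (c x) (c y) (c z) * (1 - ind (G.E x y z)) with hA
  have A0 : ∀ x y z, 0 ≤ A x y z := by
    intro x y z
    refine mul_nonneg (blk_nonneg _ _ _) ?_
    have := ind_le_one (G.E x y z)
    linarith
  have A12 : ∀ x y z, A y x z = A x y z := by
    intro x y z; simp only [hA]; rw [blk_swap12, G.symm₁]
  have A23 : ∀ x y z, A x z y = A x y z := by
    intro x y z; simp only [hA]; rw [blk_swap23, G.symm₂]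
  have e1 : Mk G w c k = T3 w (fun x y z => pin c k x * A x y z) := by
    rw [T3_S2]
    unfold Mk
    refine sum_congr rfl fun x _ => ?_
    rw [mis_eq_S2, S2_mul]
  have e2 : Mk G w c k = T3 w (fun x y z => pin c k y * A x y z) := by
    rw [e1, ← T3_swap12 w (fun x y z => pin c k x * A x y z)]
    exact T3_congr w fun x y z => by rw [A12]
  have e3 : Mk G w c k = T3 w (fun x y z => pin c k z * A x y z) := by
    rw [e2, ← T3_swap23 w (fun x y z => pin c k y * A x y z)]
    exact T3_congr w fun x y z => by rw [A23]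
  have h1 : T3 w (fun x y z => pin c k x * A x y z + (pin c k y * A x y z +
      pin c k z * A x y z)) ≤ T3 w A := by
    refine T3_mono w hw fun x y z => ?_
    rw [← add_mul, ← add_mul]
    rcases ind_cases (D6.E (c x) (c y) (c z)) with ⟨b, b'⟩ | ⟨b, b'⟩
    · obtain ⟨n1, n2, n3⟩ := D6_ne _ _ _ b
      have h2 : pin c k x + (pin c k y + pin c k z) ≤ 1 := by
        unfold pin
        by_cases i1 : c x = k
        · have i2 : ¬ c y = k := fun h => n1 (i1.trans h.symm)
          have i3 : ¬ c z = k := fun h => n2 (i1.trans h.symm)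
          rw [if_pos i1, if_neg i2, if_neg i3]; norm_num
        · by_cases i2 : c y = k
          · have i3 : ¬ c z = k := fun h => n3 (i2.trans h.symm)
            rw [if_neg i1, if_pos i2, if_neg i3]; norm_num
          · rw [if_neg i1, if_neg i2]
            split_ifs <;> norm_num
      have := mul_le_mul_of_nonneg_right h2 (A0 x y z)
      linarith
    · have : A x y z = 0 := by
        simp only [hA]
        have : blk (c x) (c y) (c z) = 0 := b'
        rw [this, zero_mul]
      rw [this, mul_zero]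
  rw [T3_add, T3_add, ← e1, ← e2, ← e3] at h1
  have h2 : T3 w A = MM G w c := rfl
  linarith

theorem Wk_le (k : Fin 6) : 3 * Wk G w c k + 6 * Mk G w c k ≤ 2 * MM G w c := by
  set A : V → V → V → ℝ := fun x y z => blk (c x) (c y) (c z) * (1 - ind (G.E x y z)) with hA
  have A0 : ∀ x y z, 0 ≤ A x y z := by
    intro x y z
    refine mul_nonneg (blk_nonneg _ _ _) ?_
    have := ind_le_one (G.E x y z)
    linarith
  have A12 : ∀ x y z, A y x z = A x y z := by
    intro x y z; simp only [hA]; rw [blk_swap12, G.symm₁]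
  have A23 : ∀ x y z, A x z y = A x y z := by
    intro x y z; simp only [hA]; rw [blk_swap23, G.symm₂]
  have e1 : Mk G w c k = T3 w (fun x y z => pin c k x * A x y z) := by
    rw [T3_S2]
    unfold Mk
    refine sum_congr rfl fun x _ => ?_
    rw [mis_eq_S2, S2_mul]
  have e2 : Mk G w c k = T3 w (fun x y z => pin c k y * A x y z) := by
    rw [e1, ← T3_swap12 w (fun x y z => pin c k x * A x y z)]
    exact T3_congr w fun x y z => by rw [A12]
  have e3 : Mk G w c k = T3 w (fun x y z => pin c k z * A x y z) := by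
    rw [e2, ← T3_swap23 w (fun x y z => pin c k y * A x y z)]
    exact T3_congr w fun x y z => by rw [A23]
  have nbl_swap : ∀ i j l, nbl i l j = nbl i j l := by
    intro i j l
    unfold nbl
    rw [D6.symm₂]
    congr 1
    exact propext ⟨fun h => ⟨h.2.1, h.1, h.2.2.1.symm, h.2.2.2⟩,
      fun h => ⟨h.2.1, h.1, h.2.2.1.symm, h.2.2.2⟩⟩
  have f1 : Wk G w c k = T3 w (fun x y z => nbl k (c x) (c y) * A x y z) := by
    rw [T3_eq]
    unfold Wk
    rw [S2_eq]
    refine sum_congr rfl fun x _ => ?_
    congr 1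
    refine sum_congr rfl fun y _ => ?_
    congr 1
    unfold miss
    rw [mul_sum]
    refine sum_congr rfl fun z _ => ?_
    simp only [hA]; ring
  have f2 : Wk G w c k = T3 w (fun x y z => nbl k (c z) (c x) * A x y z) := by
    rw [f1, ← T3_rot w (fun x y z => nbl k (c x) (c y) * A x y z)]
    exact T3_congr w fun x y z => by rw [A12 x z y, A23]
  have f3 : Wk G w c k = T3 w (fun x y z => nbl k (c y) (c z) * A x y z) := by
    rw [f2, ← T3_swap12 w (fun x y z => nbl k (c z) (c x) * A x y z)]
    exact T3_congr w fun x y z => by rw [A12, nbl_swap]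
  have h1 : T3 w (fun x y z => (nbl k (c x) (c y) * A x y z + (nbl k (c z) (c x) * A x y z +
      nbl k (c y) (c z) * A x y z)) + (2 * (pin c k x * A x y z) + (2 * (pin c k z * A x y z) +
      2 * (pin c k y * A x y z)))) ≤ T3 w (fun x y z => 2 * A x y z) := by
    refine T3_mono w hw fun x y z => ?_
    have e : (nbl k (c x) (c y) * A x y z + (nbl k (c z) (c x) * A x y z +
      nbl k (c y) (c z) * A x y z)) + (2 * (pin c k x * A x y z) + (2 * (pin c k z * A x y z) +
      2 * (pin c k y * A x y z))) = (nbl k (c x) (c y) + (nbl k (c z) (c x) +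
      nbl k (c y) (c z)) + 2 * (pin c k x + (pin c k z + pin c k y))) * A x y z := by ring
    rw [e]
    rcases ind_cases (D6.E (c x) (c y) (c z)) with ⟨b, b'⟩ | ⟨b, b'⟩
    · have h2 := D6_Wnat k (c x) (c y) (c z) b
      have h3 : nbl k (c x) (c y) + (nbl k (c z) (c x) + nbl k (c y) (c z)) +
          2 * (pin c k x + (pin c k z + pin c k y)) ≤ 2 := by
        unfold nbl pin
        exact_mod_cast h2
      exact mul_le_mul_of_nonneg_right h3 (A0 x y z)
    · have : A x y z = 0 := by
        simp only [hA]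
        have : blk (c x) (c y) (c z) = 0 := b'
        rw [this, zero_mul]
      rw [this, mul_zero, mul_zero]
  rw [T3_add, T3_add, T3_add, T3_add, T3_add, T3_mul, T3_mul, T3_mul, T3_mul, ← e1, ← e2, ← e3,
    ← f1, ← f2, ← f3] at h1
  have h2 : T3 w A = MM G w c := rfl
  linarith

end R2

end K4m
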