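import Mathlib
import Pool.Agent.Lib.MP_392c14_co.Root2

/-!
# Sums over the classes, and the comparison of bad and missing triples with a factor
-/

set_option autoImplicit false

namespace K4m

open Finset

section R3

variable {V : Type} [Fintype V] (G : TG V) (w : V → ℝ) (c : V → Fin 6)

/-- density inside a class (not normalised) -/
noncomputable def VV (k : Fin 6) : ℝ := val G (fun x => w x * pin c k x)

/-- bad minus missing, first vertex in the class `k` -/
noncomputable def Ek (k : Fin 6) : ℝ := ∑ z, w z * (pin c k z * (bad G w c z - mis G w c z))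

/-- total bad mass -/
noncomputable def BBw : ℝ := 3 * T3 w (fun x y z => p1 (c x) (c y) (c z) * ind (G.E x y z)) +
      T3 w (fun x y z => nbl (c x) (c y) (c z) * ind (G.E x y z))

theorem cl_eq_pin (k : Fin 6) : cl w c k = ∑ x, w x * pin c k x := rfl

theorem sum_pin (z : V) : ∑ k, pin c k z = 1 := by
  unfold pin
  rw [sum_ite_eq, if_pos (mem_univ _)]

theorem sum_cl : ∑ k, cl w c k = ∑ x, w x := by
  unfold cl
  rw [sum_comm]
  refine sum_congr rfl fun x _ => ?_
  rw [← mul_sum, sum_ite_eq, if_pos (mem_univ _), mul_one]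

theorem sum_inn (k : Fin 6) : ∑ z, w z * (pin c k z * inn G w c k z) = VV G w c k := by
  unfold VV val inn
  refine sum_congr rfl fun z _ => ?_
  rw [mul_sum, mul_sum]
  refine sum_congr rfl fun y _ => ?_
  rw [mul_sum, mul_sum]
  refine sum_congr rfl fun v _ => ?_
  ring

/-- averaging the degrees over a class -/
theorem class_deg (t : ℝ) (hdeg : ∀ z, deg G w z = t) (k : Fin 6) :
    t * cl w c k = VV G w c k + cl w c k * idl w c k + Ek G w c k := by
  have h1 : ∑ z, w z * (pin c k z * deg G w z) = t * cl w c k := by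
    rw [cl_eq_pin, mul_sum]
    refine sum_congr rfl fun z _ => ?_
    rw [hdeg]; ring
  rw [← h1, ← sum_inn, cl_eq_pin w c k, sum_mul]
  unfold Ek
  rw [← sum_add_distrib, ← sum_add_distrib]
  refine sum_congr rfl fun z _ => ?_
  by_cases h : c z = k
  · have h2 := deg_eq G w c z
    rw [h] at h2
    rw [h2]; ring
  · have : pin c k z = 0 := by unfold pin; rw [if_neg h]
    rw [this]; ring

theorem sum_bad : ∑ z, w z * bad G w c z = BBw G w c := by
  have h1 : ∑ z, w z * bz G w c z = T3 w (fun x y z => p1 (c x) (c y) (c z) *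
      ind (G.E x y z)) := (T3_S2 w _).symm
  have h2 : ∑ z, w z * btw G w c z = T3 w (fun x y z => p1 (c x) (c y) (c z) *
      ind (G.E x y z)) := by
    have e1 : ∑ z, w z * btw G w c z = T3 w (fun z u v => p1 (c u) (c v) (c z) *
      ind (G.E z u v)) := (T3_S2 w _).symm
    rw [e1, ← T3_rot w (fun z u v => p1 (c u) (c v) (c z) * ind (G.E z u v))]
    exact T3_congr w fun x y z => by rw [E_rot]
  have h3 : ∑ z, w z * gm G w c z = T3 w (fun x y z => nbl (c x) (c y) (c z) *
      ind (G.E x y z)) := (T3_S2 w _).symm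
  unfold BBw bad
  rw [← h3]
  have e : ∑ z, w z * (2 * bz G w c z + btw G w c z + gm G w c z) =
      2 * ∑ z, w z * bz G w c z + ∑ z, w z * btw G w c z + ∑ z, w z * gm G w c z := by
    rw [mul_sum, ← sum_add_distrib, ← sum_add_distrib]
    refine sum_congr rfl fun z _ => ?_
    ring
  rw [e, h1, h2]
  ring

theorem sum_Ek : ∑ k, Ek G w c k = BBw G w c - MM G w c := by
  unfold Ek
  rw [sum_comm]
  have e : ∀ z ∈ univ, ∑ k, w z * (pin c k z * (bad G w c z - mis G w c z)) =
      w z * bad G w c z - w z * mis G w c z := by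
    intro z _
    rw [← mul_sum, ← sum_mul, sum_pin]; ring
  rw [sum_congr rfl e, sum_sub_distrib, sum_bad, MM_eq_sum]

theorem sum_Mk : ∑ k, Mk G w c k = MM G w c := by
  unfold Mk
  rw [sum_comm, MM_eq_sum]
  refine sum_congr rfl fun z _ => ?_
  rw [← mul_sum, ← sum_mul, sum_pin, one_mul]

variable (hw : ∀ x, 0 ≤ w x)
include hw

theorem bz_nonneg (z : V) : 0 ≤ bz G w c z :=
  S2_nonneg w hw fun u v => mul_nonneg (p1_nonneg _ _ _) (ind_nonneg _)

theorem bt_nonneg (z : V) : 0 ≤ btw G w c z :=
  S2_nonneg w hw fun u v => mul_nonneg (p1_nonneg _ _ _) (ind_nonneg _)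

theorem gm_nonneg (z : V) : 0 ≤ gm G w c z :=
  S2_nonneg w hw fun u v => mul_nonneg (nbl_nonneg _ _ _) (ind_nonneg _)

theorem bad_nonneg (z : V) : 0 ≤ bad G w c z := by
  have h1 := bz_nonneg G w c hw z
  have h2 := bt_nonneg G w c hw z
  have h3 := gm_nonneg G w c hw z
  unfold bad
  linarith

theorem Ek_ge (k : Fin 6) : - Mk G w c k ≤ Ek G w c k := by
  unfold Ek Mk
  rw [← sum_neg_distrib]
  refine sum_le_sum fun z _ => ?_
  rw [← mul_neg]
  refine mul_le_mul_of_nonneg_left ?_ (hw z)
  rw [← mul_neg]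
  refine mul_le_mul_of_nonneg_left ?_ (pin_nonneg c k z)
  have := bad_nonneg G w c hw z
  linarith

/-- a pointwise bound for the bad pairs gives a bound for a class -/
theorem Ek_le (k : Fin 6) (a b : ℝ) (h : ∀ z, c z = k → bad G w c z - mis G w c z ≤
    a * mis G w c z + b) : Ek G w c k ≤ a * Mk G w c k + b * cl w c k := by
  unfold Ek Mk
  rw [cl_eq_pin, mul_sum, mul_sum, ← sum_add_distrib]
  refine sum_le_sum fun z _ => ?_
  have e : a * (w z * (pin c k z * mis G w c z)) + b * (w z * pin c k z) =
      w z * (pin c k z * (a * mis G w c z + b)) := by ring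
  rw [e]
  refine mul_le_mul_of_nonneg_left ?_ (hw z)
  by_cases hk : c z = k
  · exact mul_le_mul_of_nonneg_left (h z hk) (pin_nonneg c k z)
  · have : pin c k z = 0 := by unfold pin; rw [if_neg hk]
    rw [this, zero_mul, zero_mul]

theorem VV_le (k : Fin 6) : VV G w c k ≤ rho * cl w c k ^ 3 := by
  have h := val_le_rho_hom G (fun x => w x * pin c k x) (fun x =>
    mul_nonneg (hw x) (pin_nonneg c k x))
  exact h

/-- the numerical side conditions of the inequality at one root, with a factor `lam` -/
structure RootNumL (a τ β s1 H0 X0 η lam : ℝ) : Prop where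
  a_pos : 0 < a
  s1_pos : 0 < s1
  s1_le : s1 ≤ a
  lam_ge : 1 ≤ lam
  mid : τ ≤ s1 * (a / 2)
  high : ∀ o s : ℝ, 0 ≤ o → o ≤ β → 0 ≤ s → s ≤ s1 → o * s ≤ τ / 2 →
    2 * o + η ≤ lam * (2 * a - s)
  massH : ∀ H : ℝ, 0 ≤ H → (2 * a - s1) * H ≤ τ → 2 * ((2 * a - s1) * H) ≤ τ + H ^ 2 → H ≤ H0
  massX : ∀ X : ℝ, 0 ≤ X → a / 2 * X ≤ τ → 2 * (a / 2 * X) ≤ τ + X ^ 2 → X ≤ X0
  H_le : H0 ≤ η
  X_le : X0 + H0 ≤ a / 2

/-- the inequality at one root, with a factor -/
theorem root_leL {a τ β s1 H0 X0 η lam : ℝ} (N : RootNumL a τ β s1 H0 X0 η lam) (r : V)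
    (hsz : ∀ i, a ≤ cl w c i) (hmis : mis G w c r ≤ τ)
    (hown : ∀ z, c r ≠ c z → own G w c z r ≤ β) :
    2 * (∑ z, w z * (hv G w c r z * own G w c z r)) +
      (∑ z, w z * chi G w c (a / 2) r z) ^ 2 ≤
    lam * ∑ z, w z * (chi G w c (a / 2) r z * miss G w c r z) := by
  classical
  have a_pos := N.a_pos
  have s1_pos := N.s1_pos
  have s1_le := N.s1_le
  have S1 : ∀ z, c r ≠ c z → 2 * a ≤ SS w c (c r) (c z) :=
    fun z hz => SS_ge w c a hsz (c r) (c z) hz
  set hi : V → ℝ := fun z => if c r ≠ c z ∧ SS w c (c r) (c z) - s1 < miss G w c r z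
    then 1 else 0 with hhi
  have hi01 : ∀ z, hi z = 0 ∨ hi z = 1 := by
    intro z; simp only [hhi]; split_ifs
    · right; rfl
    · left; rfl
  have hi_nonneg : ∀ z, 0 ≤ hi z := by
    intro z; rcases hi01 z with h | h <;> rw [h]; norm_num
  set H : ℝ := ∑ z, w z * hi z with hH
  set X : ℝ := ∑ z, w z * chi G w c (a / 2) r z with hX
  have H_nonneg : 0 ≤ H := sum_nonneg fun z _ => mul_nonneg (hw z) (hi_nonneg z)
  have X_nonneg : 0 ≤ X := sum_nonneg fun z _ => mul_nonneg (hw z) (chi_nonneg G w c _ r z)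
  have hi_le_chi : ∀ z, hi z ≤ chi G w c (a / 2) r z := by
    intro z
    simp only [hhi]
    by_cases h : c r ≠ c z ∧ SS w c (c r) (c z) - s1 < miss G w c r z
    · rw [if_pos h]
      have h1 := S1 z h.1
      have : a / 2 ≤ miss G w c r z := by linarith [h.2]
      unfold chi
      rw [if_pos ⟨h.1, this⟩]
    · rw [if_neg h]; exact chi_nonneg G w c _ r z
  have mass1 : 2 * ∑ z, w z * (hi z * miss G w c r z) ≤ τ + H ^ 2 :=
    (mass_le G w c hw r hi hi01).trans (by linarith)
  have mass2 : 2 * ∑ z, w z * (chi G w c (a / 2) r z * miss G w c r z) ≤ τ + X ^ 2 :=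
    (mass_le G w c hw r _ (fun z => chi_zero_or_one G w c _ r z)).trans (by linarith)
  have low1 : (2 * a - s1) * H ≤ ∑ z, w z * (hi z * miss G w c r z) := by
    rw [hH, mul_sum]
    refine sum_le_sum fun z _ => ?_
    have : (2 * a - s1) * (w z * hi z) = w z * ((2 * a - s1) * hi z) := by ring
    rw [this]
    refine mul_le_mul_of_nonneg_left ?_ (hw z)
    simp only [hhi]
    by_cases h : c r ≠ c z ∧ SS w c (c r) (c z) - s1 < miss G w c r z
    · rw [if_pos h]
      have h1 := S1 z h.1
      linarith [h.2]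
    · rw [if_neg h]; simp
  have low2 : a / 2 * X ≤ ∑ z, w z * (chi G w c (a / 2) r z * miss G w c r z) := by
    rw [hX, mul_sum]
    refine sum_le_sum fun z _ => ?_
    have : a / 2 * (w z * chi G w c (a / 2) r z) =
        w z * (a / 2 * chi G w c (a / 2) r z) := by ring
    rw [this]
    refine mul_le_mul_of_nonneg_left ?_ (hw z)
    unfold chi
    by_cases h : c r ≠ c z ∧ a / 2 ≤ miss G w c r z
    · rw [if_pos h]; linarith [h.2]
    · rw [if_neg h]; simp
  have crude1 : ∑ z, w z * (hi z * miss G w c r z) ≤ τ := by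
    refine le_trans (sum_le_sum fun z _ => mul_le_mul_of_nonneg_left ?_ (hw z)) hmis
    have := miss_nonneg G w c hw r z
    rcases hi01 z with h | h <;> rw [h] <;> linarith
  have crude2 : ∑ z, w z * (chi G w c (a / 2) r z * miss G w c r z) ≤ τ := by
    refine le_trans (sum_le_sum fun z _ => mul_le_mul_of_nonneg_left ?_ (hw z)) hmis
    have := miss_nonneg G w c hw r z
    rcases chi_zero_or_one G w c (a / 2) r z with h | h <;> rw [h] <;> linarith
  have H2 : H ≤ H0 := N.massH H H_nonneg (low1.trans crude1)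
    ((mul_le_mul_of_nonneg_left low1 (by norm_num)).trans mass1)
  have X3 : X ≤ X0 := N.massX X X_nonneg (low2.trans crude2)
    ((mul_le_mul_of_nonneg_left low2 (by norm_num)).trans mass2)
  have lam1 := N.lam_ge
  -- the gain of one partner
  have gain : ∀ z, a / 2 * (chi G w c (a / 2) r z - hi z) + η * hi z +
      2 * (hv G w c r z * own G w c z r) ≤
      lam * (chi G w c (a / 2) r z * miss G w c r z) := by
    intro z
    have ho := own_nonneg G w c hw z r
    have hm := miss_nonneg G w c hw r z
    have hm' := miss_le_SS G w c hw r z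
    have hp := own_mul_le G w c hw r z
    have hml : miss G w c r z ≤ lam * miss G w c r z := by
      have := mul_le_mul_of_nonneg_right lam1 hm
      linarith
    by_cases hz : c r ≠ c z
    · have s1' := S1 z hz
      have ho3 := hown z hz
      by_cases h1 : a / 2 ≤ miss G w c r z
      · have c1 : chi G w c (a / 2) r z = 1 := by unfold chi; rw [if_pos ⟨hz, h1⟩]
        by_cases h2 : SS w c (c r) (c z) - s1 < miss G w c r z
        · have e1 : hi z = 1 := by simp only [hhi]; rw [if_pos ⟨hz, h2⟩]
          have hvo : hv G w c r z * own G w c z r ≤ own G w c z r := by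
            rcases hv_zero_or_one G w c r z with h | h <;> rw [h] <;> linarith
          rw [c1, e1]
          have hfin := N.high (own G w c z r) (SS w c (c r) (c z) - miss G w c r z) ho ho3
            (by linarith) (by linarith) (by linarith)
          have h3 : lam * (2 * a - (SS w c (c r) (c z) - miss G w c r z)) ≤
              lam * miss G w c r z := mul_le_mul_of_nonneg_left (by linarith) (by linarith)
          linarith
        · have e1 : hi z = 0 := by
            simp only [hhi]; rw [if_neg]; rintro ⟨-, h⟩; exact h2 h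
          push Not at h2
          rw [c1, e1]
          rcases hv_zero_or_one G w c r z with h | h
          · rw [h]; linarith
          · have h5 : SS w c (c r) (c z) ≤ 2 * miss G w c r z := by
              by_contra hne
              have : hv G w c r z = 0 := by
                unfold hv; rw [if_neg]; rintro ⟨-, h'⟩; exact hne h'
              rw [this] at h; norm_num at h
            have h6 : own G w c z r * s1 ≤ τ / 2 := by
              have : own G w c z r * s1 ≤
                  own G w c z r * (SS w c (c r) (c z) - miss G w c r z) :=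
                mul_le_mul_of_nonneg_left (by linarith) ho
              linarith
            have h7 : 2 * own G w c z r ≤ a / 2 := by
              have h8 : (2 * own G w c z r) * s1 ≤ (a / 2) * s1 := by
                have := N.mid
                linarith
              exact le_of_mul_le_mul_right h8 s1_pos
            rw [h]; linarith
      · have c1 : chi G w c (a / 2) r z = 0 := by
          unfold chi; rw [if_neg]; rintro ⟨-, h⟩; exact h1 h
        have e1 : hi z = 0 := by
          simp only [hhi]; rw [if_neg]; rintro ⟨-, h⟩; apply h1; linarith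
        have v1 : hv G w c r z = 0 := by
          unfold hv; rw [if_neg]; rintro ⟨-, h⟩; apply h1; linarith
        rw [c1, e1, v1]; simp
    · have c1 : chi G w c (a / 2) r z = 0 := by
        unfold chi; rw [if_neg]; rintro ⟨h, -⟩; exact hz h
      have e1 : hi z = 0 := by
        simp only [hhi]; rw [if_neg]; rintro ⟨h, -⟩; exact hz h
      have v1 : hv G w c r z = 0 := by
        unfold hv; rw [if_neg]; rintro ⟨h, -⟩; exact hz h
      rw [c1, e1, v1]; simp
  have total : a / 2 * (X - H) + η * H +
      2 * (∑ z, w z * (hv G w c r z * own G w c z r)) ≤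
      lam * ∑ z, w z * (chi G w c (a / 2) r z * miss G w c r z) := by
    have h1 : ∑ z, w z * (a / 2 * (chi G w c (a / 2) r z - hi z) + η * hi z +
      2 * (hv G w c r z * own G w c z r)) ≤
      ∑ z, w z * (lam * (chi G w c (a / 2) r z * miss G w c r z)) :=
      sum_le_sum fun z _ => mul_le_mul_of_nonneg_left (gain z) (hw z)
    have h2 : ∑ z, w z * (a / 2 * (chi G w c (a / 2) r z - hi z) + η * hi z +
      2 * (hv G w c r z * own G w c z r)) = a / 2 * (X - H) + η * H +
      2 * (∑ z, w z * (hv G w c r z * own G w c z r)) := by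
      rw [hX, hH, ← sum_sub_distrib, mul_sum, mul_sum, mul_sum, ← sum_add_distrib,
        ← sum_add_distrib]
      refine sum_congr rfl fun z _ => ?_
      ring
    have h3 : ∑ z, w z * (lam * (chi G w c (a / 2) r z * miss G w c r z)) =
        lam * ∑ z, w z * (chi G w c (a / 2) r z * miss G w c r z) := by
      rw [mul_sum]
      refine sum_congr rfl fun z _ => ?_
      ring
    rw [← h2, ← h3]; exact h1
  have hHX : H ≤ X := sum_le_sum fun z _ => mul_le_mul_of_nonneg_left (hi_le_chi z) (hw z)
  -- `X ^ 2 = (X - H) * (X + H) + H * H`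
  have f1 : (X - H) * (X + H) ≤ (X - H) * (a / 2) :=
    mul_le_mul_of_nonneg_left (by linarith [N.X_le]) (by linarith)
  have f2 : H * H ≤ η * H := mul_le_mul_of_nonneg_right (H2.trans N.H_le) H_nonneg
  have f3 : X ^ 2 = (X - H) * (X + H) + H * H := by ring
  linarith

/-- Step E with a factor -/
theorem bad_leL {a τ β s1 H0 X0 η lam : ℝ} (N : RootNumL a τ β s1 H0 X0 η lam)
    (hsz : ∀ i, a ≤ cl w c i) (hmis : ∀ r, mis G w c r ≤ τ)
    (hown : ∀ r z, c r ≠ c z → own G w c z r ≤ β) :
    BBw G w c ≤ (4 * lam - 3) * MM G w c := by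
  have ht : ∀ i, 2 * (a / 2) ≤ cl w c i := fun i => by
    have := hsz i
    linarith
  have k1 := bad2_le G w c hw
  have k2 := bad3_le G w c hw (a / 2) ht
  have k3 := missing_ge G w c hw (a / 2)
  have lam1 := N.lam_ge
  set A1 := ∑ r, w r * ∑ z, w z * (hv G w c r z * own G w c z r) with hA1
  set A2 := ∑ r, w r * ∑ z, w z * (chi G w c (a / 2) r z * miss G w c r z) with hA2
  set B1 := T3 w (fun x y z => blk (c x) (c y) (c z) * (1 - ind (G.E x y z)) *
        (chi G w c (a / 2) x y * chi G w c (a / 2) x z)) with hB1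
  have k4 : T3 w (fun x y z => nbl (c x) (c y) (c z) *
        (chi G w c (a / 2) x y * chi G w c (a / 2) x z)) + B1 ≤
      ∑ x, w x * (∑ y, w y * chi G w c (a / 2) x y) ^ 2 := by
    rw [hB1, ← T3_add, ← T3_prod]
    refine T3_mono w hw fun x y z => ?_
    have h1 := nbl_add_blk_le (c x) (c y) (c z)
    have h2 := blk_nonneg (c x) (c y) (c z)
    have h3 := ind_nonneg (G.E x y z)
    have h4 := mul_nonneg (chi_nonneg G w c (a / 2) x y) (chi_nonneg G w c (a / 2) x z)
    rw [← add_mul]
    have h5 : nbl (c x) (c y) (c z) + blk (c x) (c y) (c z) * (1 - ind (G.E x y z)) ≤ 1 := by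
      nlinarith
    nlinarith
  have k5 : 2 * A1 + ∑ x, w x * (∑ y, w y * chi G w c (a / 2) x y) ^ 2 ≤ lam * A2 := by
    rw [hA1, hA2, mul_sum, mul_sum, ← sum_add_distrib]
    refine sum_le_sum fun r _ => ?_
    have h := root_leL G w c hw N r hsz (hmis r) (hown r)
    have h' := mul_le_mul_of_nonneg_left h (hw r)
    calc _ = w r * (2 * (∑ z, w z * (hv G w c r z * own G w c z r)) +
      (∑ z, w z * chi G w c (a / 2) r z) ^ 2) := by ring
      _ ≤ _ := h'
      _ = _ := by ring
  have k6 : B1 ≤ MM G w c := by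
    rw [hB1]
    unfold MM
    refine T3_mono w hw fun x y z => ?_
    have h1 : 0 ≤ blk (c x) (c y) (c z) * (1 - ind (G.E x y z)) := by
      have := ind_le_one (G.E x y z)
      exact mul_nonneg (blk_nonneg _ _ _) (by linarith)
    have h2 : chi G w c (a / 2) x y * chi G w c (a / 2) x z ≤ 1 := by
      rcases chi_zero_or_one G w c (a / 2) x y with h | h <;>
      rcases chi_zero_or_one G w c (a / 2) x z with h' | h' <;> rw [h, h'] <;> norm_num
    have := mul_le_mul_of_nonneg_left h2 h1
    linarith
  have k7 : 3 * A2 - 3 * B1 ≤ MM G w c := k3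
  have k8 : lam * (3 * A2 - 3 * B1) ≤ lam * MM G w c :=
    mul_le_mul_of_nonneg_left k7 (by linarith)
  have k9 : (lam - 1) * B1 ≤ (lam - 1) * MM G w c :=
    mul_le_mul_of_nonneg_left k6 (by linarith)
  unfold BBw
  linarith

end R3

end K4m
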