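import Mathlib
import Pool.Agent.Lib.MP_392c14_co.Root3

/-!
# The bound `rho ≤ 1/3`, and the masses of the classes
-/

set_option autoImplicit false

namespace K4m

open Finset

section Third

variable {V : Type} [Fintype V] (G : TG V) (w : V → ℝ)

/-- codegree -/
noncomputable def cdg (x y : V) : ℝ := ∑ z, w z * ind (G.E x y z)

theorem three_val_sq_le (hw : IsW w) : 3 * val G w ^ 2 ≤ val G w := by
  have hw0 := hw.nonneg
  have hval : val G w = T3 w (fun x y z => ind (G.E x y z)) := rfl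
  have h1 : T3 w (fun x y z => cdg G w x y * ind (G.E x y z) +
      (cdg G w x z * ind (G.E x y z) + cdg G w z y * ind (G.E x y z))) ≤
      T3 w (fun x y z => ind (G.E x y z)) := by
    refine T3_mono w hw0 fun x y z => ?_
    rcases ind_cases (G.E x y z) with ⟨e, e'⟩ | ⟨e, e'⟩
    · rw [e', mul_one, mul_one, mul_one]
      unfold cdg
      rw [← sum_add_distrib, ← sum_add_distrib]
      refine le_trans (sum_le_sum fun u _ => ?_ : _ ≤ ∑ u, w u * 1) ?_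
      · rw [← mul_add, ← mul_add]
        refine mul_le_mul_of_nonneg_left ?_ (hw0 u)
        rcases ind_cases (G.E x y u) with ⟨a, a'⟩ | ⟨a, a'⟩ <;>
        rcases ind_cases (G.E x z u) with ⟨b, b'⟩ | ⟨b, b'⟩ <;>
        rcases ind_cases (G.E z y u) with ⟨d, d'⟩ | ⟨d, d'⟩ <;>
        rw [a', b', d'] <;> try norm_num
        · exact G.free x y z u ⟨e, a, b⟩
        · exact G.free x y z u ⟨e, a, b⟩
        · exact G.free y x z u ⟨by rw [G.symm₁]; exact e, by rw [G.symm₁]; exact a,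
            by rw [G.symm₁]; exact d⟩
        · exact G.free z x y u ⟨by rw [E_rot]; exact e, by rw [G.symm₁]; exact b, d⟩
      · have : ∑ u, w u * 1 = 1 := by simp only [mul_one]; exact hw.sum_eq
        rw [this]
    · rw [e', mul_zero, mul_zero, mul_zero]; norm_num
  rw [T3_add, T3_add] at h1
  have h2 : T3 w (fun x y z => cdg G w x y * ind (G.E x y z)) =
      ∑ x, w x * ∑ y, w y * (cdg G w x y * cdg G w x y) := by
    rw [T3_fst w (fun x y => cdg G w x y) (fun x y z => ind (G.E x y z))]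
    rfl
  have h3 : T3 w (fun x y z => cdg G w x z * ind (G.E x y z)) =
      T3 w (fun x y z => cdg G w x y * ind (G.E x y z)) := by
    rw [← T3_swap23 w (fun x y z => cdg G w x y * ind (G.E x y z))]
    exact T3_congr w fun x y z => by rw [G.symm₂]
  have h4 : T3 w (fun x y z => cdg G w z y * ind (G.E x y z)) =
      T3 w (fun x y z => cdg G w x y * ind (G.E x y z)) := by
    rw [← T3_swap13 w (fun x y z => cdg G w x y * ind (G.E x y z))]
    exact T3_congr w fun x y z => by rw [E_swap13]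
  have h5 : val G w = ∑ x, w x * ∑ y, w y * cdg G w x y := by
    rw [hval, T3_eq]; rfl
  -- Cauchy-Schwarz through `(c - v)^2 ≥ 0`
  have h6 : val G w ^ 2 ≤ ∑ x, w x * ∑ y, w y * (cdg G w x y * cdg G w x y) := by
    set v := val G w with hv
    have h7 : 0 ≤ S2 w (fun x y => (cdg G w x y - v) ^ 2) :=
      S2_nonneg w hw0 fun x y => sq_nonneg _
    have h8 : S2 w (fun x y => (cdg G w x y - v) ^ 2) =
        S2 w (fun x y => cdg G w x y * cdg G w x y + (-(2 * v) * cdg G w x y + v ^ 2 * 1)) :=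
      S2_congr w fun x y => by ring
    rw [h8, S2_add, S2_add, S2_mul, S2_mul] at h7
    have h9 : S2 w (fun _ _ => (1 : ℝ)) = 1 := by
      have := S2_prod w (fun _ => (1 : ℝ)) (fun _ => (1 : ℝ))
      simp only [mul_one, hw.sum_eq] at this
      exact this
    have h10 : S2 w (fun x y => cdg G w x y) = v := by
      rw [S2_eq, h5]
    have h11 : S2 w (fun x y => cdg G w x y * cdg G w x y) =
        ∑ x, w x * ∑ y, w y * (cdg G w x y * cdg G w x y) := by rw [S2_eq]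
    rw [h9, h10, h11] at h7
    nlinarith
  rw [h3, h4, h2] at h1
  rw [← hval] at h1
  linarith

theorem val_le_third (hw : IsW w) : val G w ≤ 1 / 3 := by
  have h := three_val_sq_le G w hw
  have h0 := val_nonneg_of G w hw.nonneg
  by_contra hne
  push Not at hne
  nlinarith

end Third

theorem rho_le_third : rho ≤ 1 / 3 := by
  unfold rho
  refine csSup_le ?_ ?_
  · refine ⟨val (TG.empty (Fin 1)) (fun _ => 1), 1, TG.empty (Fin 1), fun _ => 1, ⟨fun _ =>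
      zero_le_one, by simp⟩, rfl⟩
  · rintro t ⟨n, G, w, hw, rfl⟩
    exact val_le_third G w hw

section Poly

/-- mass of the block pairs at a class as a polynomial in the masses -/
noncomputable def idp (x : Fin 6 → ℝ) (k : Fin 6) : ℝ := ∑ i, ∑ j, blk k i j * (x i * x j)

theorem idp_list (x : Fin 6 → ℝ) :
    idp x 0 = 2 * (x 1 * x 2 + x 1 * x 3 + x 2 * x 4 + x 3 * x 5 + x 4 * x 5) ∧
    idp x 1 = 2 * (x 0 * x 2 + x 0 * x 3 + x 2 * x 5 + x 3 * x 4 + x 4 * x 5) ∧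
    idp x 2 = 2 * (x 0 * x 1 + x 0 * x 4 + x 1 * x 5 + x 3 * x 4 + x 3 * x 5) ∧
    idp x 3 = 2 * (x 0 * x 1 + x 0 * x 5 + x 1 * x 4 + x 2 * x 4 + x 2 * x 5) ∧
    idp x 4 = 2 * (x 0 * x 2 + x 0 * x 5 + x 1 * x 3 + x 1 * x 5 + x 2 * x 3) ∧
    idp x 5 = 2 * (x 0 * x 3 + x 0 * x 4 + x 1 * x 2 + x 1 * x 4 + x 2 * x 3) := by
  have h : ∀ i j k : Fin 6, ind (D6.E i j k) = if D6.E i j k = true then 1 else 0 :=
    fun _ _ _ => rfl
  refine ⟨?_, ?_, ?_, ?_, ?_, ?_⟩ <;>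
  · unfold idp blk
    simp only [Fin.sum_univ_six]
    simp only [h]
    simp (decide := true) only [if_true, if_false]
    ring

theorem sum_mul_idp (x : Fin 6 → ℝ) : ∑ k, x k * idp x k = Tb x := by
  unfold idp Tb
  refine sum_congr rfl fun k _ => ?_
  rw [mul_sum]
  refine sum_congr rfl fun i _ => ?_
  rw [mul_sum]
  refine sum_congr rfl fun j _ => ?_
  ring

theorem pent_bounds (a b c d e f : ℝ) (h : a + b + c + d + e + f = 1) :
    2 * (b * c + c * d + d * e + e * f + f * b) ≤ 10 / 36 - 2 / 3 * (a - 1 / 6) +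
      2 * ((b - 1 / 6) ^ 2 + (c - 1 / 6) ^ 2 + (d - 1 / 6) ^ 2 + (e - 1 / 6) ^ 2 +
        (f - 1 / 6) ^ 2) ∧
    10 / 36 - 2 / 3 * (a - 1 / 6) -
      2 * ((b - 1 / 6) ^ 2 + (c - 1 / 6) ^ 2 + (d - 1 / 6) ^ 2 + (e - 1 / 6) ^ 2 +
        (f - 1 / 6) ^ 2) ≤ 2 * (b * c + c * d + d * e + e * f + f * b) := by
  have ha : a = 1 - b - c - d - e - f := by linarith
  constructor
  · have e1 : 10 / 36 - 2 / 3 * (a - 1 / 6) +
      2 * ((b - 1 / 6) ^ 2 + (c - 1 / 6) ^ 2 + (d - 1 / 6) ^ 2 + (e - 1 / 6) ^ 2 +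
        (f - 1 / 6) ^ 2) - 2 * (b * c + c * d + d * e + e * f + f * b) =
        (b - c) ^ 2 + (c - d) ^ 2 + (d - e) ^ 2 + (e - f) ^ 2 + (f - b) ^ 2 := by
      rw [ha]; ring
    have e2 : 0 ≤ (b - c) ^ 2 + (c - d) ^ 2 + (d - e) ^ 2 + (e - f) ^ 2 + (f - b) ^ 2 := by
      positivity
    linarith
  · have e1 : 2 * (b * c + c * d + d * e + e * f + f * b) - (10 / 36 - 2 / 3 * (a - 1 / 6) -
      2 * ((b - 1 / 6) ^ 2 + (c - 1 / 6) ^ 2 + (d - 1 / 6) ^ 2 + (e - 1 / 6) ^ 2 +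
        (f - 1 / 6) ^ 2)) =
        (b + c - 1 / 3) ^ 2 + (c + d - 1 / 3) ^ 2 + (d + e - 1 / 3) ^ 2 + (e + f - 1 / 3) ^ 2 +
        (f + b - 1 / 3) ^ 2 := by
      rw [ha]; ring
    have e2 : 0 ≤ (b + c - 1 / 3) ^ 2 + (c + d - 1 / 3) ^ 2 + (d + e - 1 / 3) ^ 2 +
        (e + f - 1 / 3) ^ 2 + (f + b - 1 / 3) ^ 2 := by
      positivity
    linarith

theorem idp_bounds (x : Fin 6 → ℝ) (hx : ∑ i, x i = 1) (k : Fin 6) :
    idp x k ≤ 10 / 36 - 2 / 3 * (x k - 1 / 6) +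
      2 * (∑ i, (x i - 1 / 6) ^ 2 - (x k - 1 / 6) ^ 2) ∧
    10 / 36 - 2 / 3 * (x k - 1 / 6) -
      2 * (∑ i, (x i - 1 / 6) ^ 2 - (x k - 1 / 6) ^ 2) ≤ idp x k := by
  obtain ⟨h0, h1, h2, h3, h4, h5⟩ := idp_list x
  simp only [Fin.sum_univ_six] at hx ⊢
  fin_cases k
  · have h := pent_bounds (x 0) (x 2) (x 1) (x 3) (x 5) (x 4) (by linarith)
    simp only [Fin.zero_eta]
    rw [h0]
    constructor <;> linarith [h.1, h.2]
  · have h := pent_bounds (x 1) (x 2) (x 0) (x 3) (x 4) (x 5) (by linarith)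
    simp only [Fin.mk_one]
    rw [h1]
    constructor <;> linarith [h.1, h.2]
  · have h := pent_bounds (x 2) (x 1) (x 0) (x 4) (x 3) (x 5) (by linarith)
    simp only [Fin.reduceFinMk]
    rw [h2]
    constructor <;> linarith [h.1, h.2]
  · have h := pent_bounds (x 3) (x 1) (x 0) (x 5) (x 2) (x 4) (by linarith)
    simp only [Fin.reduceFinMk]
    rw [h3]
    constructor <;> linarith [h.1, h.2]
  · have h := pent_bounds (x 4) (x 2) (x 0) (x 5) (x 1) (x 3) (by linarith)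
    simp only [Fin.reduceFinMk]
    rw [h4]
    constructor <;> linarith [h.1, h.2]
  · have h := pent_bounds (x 5) (x 3) (x 0) (x 4) (x 1) (x 2) (by linarith)
    simp only [Fin.reduceFinMk]
    rw [h5]
    constructor <;> linarith [h.1, h.2]

theorem sum_idp (x : Fin 6 → ℝ) (hx : ∑ i, x i = 1) :
    ∑ k, idp x k = 10 / 6 - 2 * ∑ i, (x i - 1 / 6) ^ 2 := by
  obtain ⟨h0, h1, h2, h3, h4, h5⟩ := idp_list x
  simp only [Fin.sum_univ_six] at hx ⊢
  rw [h0, h1, h2, h3, h4, h5]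
  have e5 : x 5 = 1 - x 0 - x 1 - x 2 - x 3 - x 4 := by linarith
  rw [e5]
  ring

/-- the polynomial inequality near the centre, with a quadratic gain -/
theorem Tb_slack (r : ℝ) (hr : 0 ≤ r) (hr' : r ≤ 1 / 3) (x : Fin 6 → ℝ) (hx : ∑ i, x i = 1)
    (h : ∀ i, |x i - 1 / 6| ≤ 1 / 200) :
    Tb x + r * ∑ i, x i ^ 3 ≤ (10 + r) / 36 - 3 / 4 * ∑ i, (x i - 1 / 6) ^ 2 := by
  rw [Tb_eq]
  simp only [Fin.sum_univ_six] at hx ⊢
  generalize hy0 : x 0 - 1 / 6 = y0 at *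
  generalize hy1 : x 1 - 1 / 6 = y1 at *
  generalize hy2 : x 2 - 1 / 6 = y2 at *
  generalize hy3 : x 3 - 1 / 6 = y3 at *
  generalize hy4 : x 4 - 1 / 6 = y4 at *
  generalize hy5 : x 5 - 1 / 6 = y5 at *
  have b0 : |y0| ≤ 1 / 200 := hy0 ▸ h 0
  have b1 : |y1| ≤ 1 / 200 := hy1 ▸ h 1
  have b2 : |y2| ≤ 1 / 200 := hy2 ▸ h 2
  have b3 : |y3| ≤ 1 / 200 := hy3 ▸ h 3
  have b4 : |y4| ≤ 1 / 200 := hy4 ▸ h 4
  have b5 : |y5| ≤ 1 / 200 := hy5 ▸ h 5
  have x0 : x 0 = 1 / 6 + y0 := by linarith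
  have x1 : x 1 = 1 / 6 + y1 := by linarith
  have x2 : x 2 = 1 / 6 + y2 := by linarith
  have x3 : x 3 = 1 / 6 + y3 := by linarith
  have x4 : x 4 = 1 / 6 + y4 := by linarith
  have x5 : x 5 = 1 / 6 + y5 := by linarith
  rw [x0, x1, x2, x3, x4, x5] at hx ⊢
  have hs : y5 = -(y0 + y1 + y2 + y3 + y4) := by linarith
  -- cubic terms
  have c1 := prod_le_sq y0 y1 y2 _ b2
  have c2 := prod_le_sq y0 y1 y3 _ b3
  have c3 := prod_le_sq y0 y2 y4 _ b4
  have c4 := prod_le_sq y0 y3 y5 _ b5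
  have c5 := prod_le_sq y0 y4 y5 _ b5
  have c6 := prod_le_sq y1 y2 y5 _ b5
  have c7 := prod_le_sq y1 y3 y4 _ b4
  have c8 := prod_le_sq y1 y4 y5 _ b5
  have c9 := prod_le_sq y2 y3 y4 _ b4
  have c10 := prod_le_sq y2 y3 y5 _ b5
  have d0 := prod_le_sq y0 y0 y0 _ b0
  have d1 := prod_le_sq y1 y1 y1 _ b1
  have d2 := prod_le_sq y2 y2 y2 _ b2
  have d3 := prod_le_sq y3 y3 y3 _ b3
  have d4 := prod_le_sq y4 y4 y4 _ b4
  have d5 := prod_le_sq y5 y5 y5 _ b5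
  have hQ : 0 ≤ y0 ^ 2 + y1 ^ 2 + y2 ^ 2 + y3 ^ 2 + y4 ^ 2 + y5 ^ 2 := by positivity
  have hd : r * (y0 * y0 * y0 + y1 * y1 * y1 + y2 * y2 * y2 + y3 * y3 * y3 + y4 * y4 * y4 +
      y5 * y5 * y5) ≤ 1 / 600 * (y0 ^ 2 + y1 ^ 2 + y2 ^ 2 + y3 ^ 2 + y4 ^ 2 + y5 ^ 2) := by
    have h1 : y0 * y0 * y0 + y1 * y1 * y1 + y2 * y2 * y2 + y3 * y3 * y3 + y4 * y4 * y4 +
      y5 * y5 * y5 ≤ 1 / 200 * (y0 ^ 2 + y1 ^ 2 + y2 ^ 2 + y3 ^ 2 + y4 ^ 2 + y5 ^ 2) := by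
      linarith
    have h2 : 0 ≤ 1 / 200 * (y0 ^ 2 + y1 ^ 2 + y2 ^ 2 + y3 ^ 2 + y4 ^ 2 + y5 ^ 2) := by
      positivity
    calc _ ≤ r * (1 / 200 * (y0 ^ 2 + y1 ^ 2 + y2 ^ 2 + y3 ^ 2 + y4 ^ 2 + y5 ^ 2)) :=
          mul_le_mul_of_nonneg_left h1 hr
      _ ≤ 1 / 3 * (1 / 200 * (y0 ^ 2 + y1 ^ 2 + y2 ^ 2 + y3 ^ 2 + y4 ^ 2 + y5 ^ 2)) :=
          mul_le_mul_of_nonneg_right hr' h2
      _ = _ := by ring
  have hq : r / 2 * (y0 ^ 2 + y1 ^ 2 + y2 ^ 2 + y3 ^ 2 + y4 ^ 2 + y5 ^ 2) ≤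
      1 / 6 * (y0 ^ 2 + y1 ^ 2 + y2 ^ 2 + y3 ^ 2 + y4 ^ 2 + y5 ^ 2) := by
    refine mul_le_mul_of_nonneg_right (by linarith) (by positivity)
  have key : 6 * ((1 / 6 + y0) * (1 / 6 + y1) * (1 / 6 + y2) +
      (1 / 6 + y0) * (1 / 6 + y1) * (1 / 6 + y3) + (1 / 6 + y0) * (1 / 6 + y2) * (1 / 6 + y4) +
      (1 / 6 + y0) * (1 / 6 + y3) * (1 / 6 + y5) + (1 / 6 + y0) * (1 / 6 + y4) * (1 / 6 + y5) +
      (1 / 6 + y1) * (1 / 6 + y2) * (1 / 6 + y5) + (1 / 6 + y1) * (1 / 6 + y3) * (1 / 6 + y4) +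
      (1 / 6 + y1) * (1 / 6 + y4) * (1 / 6 + y5) + (1 / 6 + y2) * (1 / 6 + y3) * (1 / 6 + y4) +
      (1 / 6 + y2) * (1 / 6 + y3) * (1 / 6 + y5)) +
      r * ((1 / 6 + y0) ^ 3 + (1 / 6 + y1) ^ 3 + (1 / 6 + y2) ^ 3 + (1 / 6 + y3) ^ 3 +
      (1 / 6 + y4) ^ 3 + (1 / 6 + y5) ^ 3) = (10 + r) / 36 -
      (y0 ^ 2 + y1 ^ 2 + y2 ^ 2 + y3 ^ 2 + y4 ^ 2 + y5 ^ 2) +
      r / 2 * (y0 ^ 2 + y1 ^ 2 + y2 ^ 2 + y3 ^ 2 + y4 ^ 2 + y5 ^ 2) +
      6 * (y0 * y1 * y2 + y0 * y1 * y3 + y0 * y2 * y4 + y0 * y3 * y5 + y0 * y4 * y5 +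
        y1 * y2 * y5 + y1 * y3 * y4 + y1 * y4 * y5 + y2 * y3 * y4 + y2 * y3 * y5) +
      r * (y0 * y0 * y0 + y1 * y1 * y1 + y2 * y2 * y2 + y3 * y3 * y3 + y4 * y4 * y4 +
      y5 * y5 * y5) := by
    rw [hs]; ring
  rw [key]
  linarith [sq_nonneg y0, sq_nonneg y1, sq_nonneg y2, sq_nonneg y3, sq_nonneg y4, sq_nonneg y5]

/-- the masses of the classes from the averaged degrees -/
theorem sizes_num (r t : ℝ) (x E : Fin 6 → ℝ) (hx : ∑ i, x i = 1)
    (hbox : ∀ i, |x i - 1 / 6| ≤ 1 / 200) (hr0 : 0 ≤ r) (hr1 : r ≤ 1 / 3)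
    (ht : (10 + r) / 36 - 1 / 10 ^ 7 ≤ t)
    (hE : ∀ k, t * x k ≤ r * x k ^ 3 + x k * idp x k + E k)
    (hup : ∀ k, E k ≤ 82 / 10 ^ 6) (hlo : ∀ k, -(334 / 10 ^ 7) ≤ E k)
    (hsum : ∑ k, E k ≤ 66 / 10 ^ 6) (k : Fin 6) : |x k - 1 / 6| ≤ 1 / 600 := by
  set S : ℝ := ∑ i, (x i - 1 / 6) ^ 2 with hS
  have xpos : ∀ k, 97 / 600 ≤ x k := fun k => by
    have := (abs_le.1 (hbox k)).1
    linarith
  have xle : ∀ k, x k ≤ 103 / 600 := fun k => by
    have := (abs_le.1 (hbox k)).2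
    linarith
  -- the total
  have h1 : t ≤ (10 + r) / 36 - 3 / 4 * S + ∑ k, E k := by
    have h2 := Tb_slack r hr0 hr1 x hx hbox
    have h3 : ∑ k, t * x k ≤ ∑ k, (r * x k ^ 3 + x k * idp x k + E k) :=
      sum_le_sum fun k _ => hE k
    rw [← mul_sum, hx, sum_add_distrib, sum_add_distrib, ← mul_sum, sum_mul_idp] at h3
    linarith
  have hS0 : 0 ≤ S := sum_nonneg fun i _ => sq_nonneg _
  have hS1 : S ≤ 882 / 10 ^ 7 := by linarith
  -- one class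
  set u : Fin 6 → ℝ := fun k => E k / x k with hu
  have h2 : ∀ k, t ≤ r * x k ^ 2 + idp x k + u k := by
    intro k
    have hk := hE k
    have xk := xpos k
    have xk0 : 0 < x k := by linarith
    have e1 : x k * u k = E k := by simp only [hu]; field_simp
    have e2 : x k * t ≤ x k * (r * x k ^ 2 + idp x k + u k) := by
      calc x k * t = t * x k := by ring
        _ ≤ r * x k ^ 3 + x k * idp x k + E k := hk
        _ = x k * (r * x k ^ 2 + idp x k + u k) := by rw [← e1]; ring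
    exact le_of_mul_le_mul_left e2 xk0
  have hu1 : ∀ k, u k ≤ 51 / 10 ^ 5 := by
    intro k
    have xk := xpos k
    have xk0 : 0 < x k := by linarith
    simp only [hu]
    rw [div_le_iff₀ xk0]
    have := hup k
    linarith
  have hu2 : ∀ k, u k ≤ 6 * E k + 16 / 10 ^ 6 := by
    intro k
    have xk := xpos k
    have xk0 : 0 < x k := by linarith
    simp only [hu]
    rw [div_le_iff₀ xk0]
    have a1 := hup k
    have a2 := hlo k
    have a3 := abs_le.1 (hbox k)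
    -- `E (1 - 6 x) ≤ 16e-6 x`
    have e1 : |E k| ≤ 82 / 10 ^ 6 := by
      rw [abs_le]; constructor <;> linarith
    have e2 : |1 - 6 * x k| ≤ 6 / 200 := by
      rw [abs_le]; constructor <;> linarith
    have e3 : E k * (1 - 6 * x k) ≤ 82 / 10 ^ 6 * (6 / 200) := by
      calc E k * (1 - 6 * x k) ≤ |E k * (1 - 6 * x k)| := le_abs_self _
        _ = |E k| * |1 - 6 * x k| := abs_mul _ _
        _ ≤ 82 / 10 ^ 6 * (6 / 200) := mul_le_mul e1 e2 (abs_nonneg _) (by norm_num)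
    have e4 : (6 * E k + 16 / 10 ^ 6) * x k - E k = 16 / 10 ^ 6 * x k -
        E k * (1 - 6 * x k) := by ring
    linarith
  have hy2 : ∀ k, 0 ≤ (x k - 1 / 6) ^ 2 := fun k => sq_nonneg _
  have hyS : ∀ k, (x k - 1 / 6) ^ 2 ≤ S := fun k =>
    single_le_sum (f := fun i => (x i - 1 / 6) ^ 2) (fun i _ => sq_nonneg _) (mem_univ k)
  have hexp : ∀ k, r * x k ^ 2 = r / 36 + r / 3 * (x k - 1 / 6) + r * (x k - 1 / 6) ^ 2 := by
    intro k; ring
  rw [abs_le]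
  constructor
  · -- lower bound
    set f : Fin 6 → ℝ := fun j => (2 / 3 - r / 3) * (x j - 1 / 6) - 1 / 10 ^ 7 -
      (idp x j - 10 / 36 + 2 / 3 * (x j - 1 / 6)) - r * (x j - 1 / 6) ^ 2 - 6 * E j -
      16 / 10 ^ 6 with hf
    have f0 : ∀ j, f j ≤ 0 := by
      intro j
      have a1 := h2 j
      have a2 := hu2 j
      have a3 := hexp j
      simp only [hf]
      linarith
    have f1 : ∑ j ∈ univ.erase k, f j ≤ 0 := sum_nonpos fun j _ => f0 j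
    rw [sum_erase_eq_sub (mem_univ k)] at f1
    have f2 : ∑ j, f j = -(6 / 10 ^ 7) + 2 * S - r * S - 6 * ∑ j, E j - 96 / 10 ^ 6 := by
      have g1 := sum_idp x hx
      have g2 : ∑ j, (x j - 1 / 6) = 0 := by
        rw [sum_sub_distrib, hx]; simp
      simp only [hf]
      rw [sum_sub_distrib, sum_sub_distrib, sum_sub_distrib, sum_sub_distrib, sum_sub_distrib,
        sum_add_distrib, sum_sub_distrib, ← mul_sum, ← mul_sum, ← mul_sum, ← mul_sum, g1, g2,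
        ← hS]
      simp only [sum_const, card_univ, Fintype.card_fin]
      norm_num
    rw [f2] at f1
    have g1 := (idp_bounds x hx k).2
    have g2 := hlo k
    have g3 := hyS k
    have g4 := hy2 k
    have g5 : r * S ≤ 1 / 3 * S := mul_le_mul_of_nonneg_right hr1 hS0
    have g6 : 0 ≤ r * (x k - 1 / 6) ^ 2 := mul_nonneg hr0 g4
    have g7 : f k = (2 / 3 - r / 3) * (x k - 1 / 6) - 1 / 10 ^ 7 -
      (idp x k - 10 / 36 + 2 / 3 * (x k - 1 / 6)) - r * (x k - 1 / 6) ^ 2 - 6 * E k -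
      16 / 10 ^ 6 := rfl
    rw [g7] at f1
    have g8 : -((2 / 3 - r / 3) * (x k - 1 / 6)) ≤ 8 / 10 ^ 4 := by
      rw [← hS] at g1
      linarith
    by_contra hne
    push Not at hne
    have g9 : (5 / 9) * (1 / 600) ≤ (2 / 3 - r / 3) * (-(x k - 1 / 6)) :=
      mul_le_mul (by linarith) (by linarith) (by norm_num) (by linarith)
    have g10 : -((2 / 3 - r / 3) * (x k - 1 / 6)) = (2 / 3 - r / 3) * (-(x k - 1 / 6)) := by ring
    rw [g10] at g8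
    norm_num at g8 g9
    linarith
  · -- upper bound
    have a1 := h2 k
    have a2 := hu1 k
    have a3 := hexp k
    have g1 := (idp_bounds x hx k).1
    rw [← hS] at g1
    have g3 := hyS k
    have g4 := hy2 k
    have g5 : r * (x k - 1 / 6) ^ 2 ≤ 1 / 3 * (x k - 1 / 6) ^ 2 :=
      mul_le_mul_of_nonneg_right hr1 g4
    have g8 : (2 / 3 - r / 3) * (x k - 1 / 6) ≤ 7 / 10 ^ 4 := by
      linarith
    by_contra hne
    push Not at hne
    have g9 : (5 / 9) * (1 / 600) ≤ (2 / 3 - r / 3) * (x k - 1 / 6) :=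
      mul_le_mul (by linarith) (by linarith) (by norm_num) (by linarith)
    norm_num at g8 g9
    linarith

end Poly

end K4m
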