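import Mathlib
import Pool.Agent.Lib.MP_392c14_co.Root4

/-!
# The end game: a partition with small missing degrees forces the bound `(10 + rho) / 36`
-/

set_option autoImplicit false

namespace K4m

open Finset

theorem rootNumCoarse : RootNumL (97 / 600) (6 / 1000) (103 / 600) (743 / 10000) (1236 / 100000)
    (578 / 10000) (1236 / 100000) (1165 / 1000) where
  a_pos := by norm_num
  s1_pos := by norm_num
  s1_le := by norm_num
  lam_ge := by norm_num
  mid := by norm_num
  high := by
    intro o s ho ho' hs hs' hos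
    by_cases h3 : 16 / 100 ≤ o
    · have : s ≤ 1875 / 100000 := by nlinarith
      nlinarith
    · push Not at h3
      by_cases h4 : s ≤ 18 / 1000
      · linarith
      · push Not at h4
        nlinarith
  massH := by
    intro H h0 h1 h2
    have H1 : H ≤ 25 / 1000 := by linarith
    by_contra hne
    push Not at hne
    nlinarith
  massX := by
    intro X h0 h1 h2
    have X1 : X ≤ 743 / 10000 := by linarith
    by_contra hne
    push Not at hne
    nlinarith
  H_le := by norm_num
  X_le := by norm_num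

theorem rootNumFine : RootNumL (99 / 600) (6 / 1000) (101 / 600) (728 / 10000) (1195 / 100000)
    (542 / 10000) (1195 / 100000) (112 / 100) where
  a_pos := by norm_num
  s1_pos := by norm_num
  s1_le := by norm_num
  lam_ge := by norm_num
  mid := by norm_num
  high := by
    intro o s ho ho' hs hs' hos
    by_cases h3 : 16 / 100 ≤ o
    · have : s ≤ 1875 / 100000 := by nlinarith
      nlinarith
    · push Not at h3
      by_cases h4 : s ≤ 18 / 1000
      · linarith
      · push Not at h4
        nlinarith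
  massH := by
    intro H h0 h1 h2
    have H1 : H ≤ 24 / 1000 := by linarith
    by_contra hne
    push Not at hne
    nlinarith
  massX := by
    intro X h0 h1 h2
    have X1 : X ≤ 728 / 10000 := by linarith
    by_contra hne
    push Not at hne
    nlinarith
  H_le := by norm_num
  X_le := by norm_num

theorem rootNumLast : RootNumL (99 / 600) (6 / 1000) (1489 / 10000) (728 / 10000) (1195 / 100000)
    (542 / 10000) (1195 / 100000) 1 where
  a_pos := by norm_num
  s1_pos := by norm_num
  s1_le := by norm_num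
  lam_ge := by norm_num
  mid := by norm_num
  high := by
    intro o s ho ho' hs hs' hos
    by_cases h3 : 14 / 100 ≤ o
    · have : s ≤ 2143 / 100000 := by nlinarith
      nlinarith
    · push Not at h3
      by_cases h4 : s ≤ 215 / 10000
      · linarith
      · push Not at h4
        nlinarith
  massH := rootNumFine.massH
  massX := rootNumFine.massX
  H_le := by norm_num
  X_le := by norm_num

section Num

/-- numerical bounds for the heavy partners -/
theorem T_bd (p T H m : ℝ) (hp : 97 / 600 ≤ p) (hT0 : 0 ≤ T) (hH0 : 0 ≤ H) (hm : m ≤ 6 / 1000)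
    (hTm : T ≤ m) (h2 : 2 * T ≤ m + H ^ 2) (h3 : p * H ≤ T) :
    T ≤ 32 / 10000 ∧ H ≤ 198 / 10000 ∧ H ^ 2 ≤ 1225 / 10000 * T ∧ T ≤ 533 / 1000 * m := by
  have h4 : 97 / 600 * H ≤ T := (mul_le_mul_of_nonneg_right hp hH0).trans h3
  have a1 : H ≤ 372 / 10000 := by linarith
  have a2 : T ≤ 37 / 10000 := by nlinarith
  have a3 : H ≤ 229 / 10000 := by linarith
  have a4 : T ≤ 3263 / 1000000 := by nlinarith
  have a5 : H ≤ 202 / 10000 := by linarith
  have a6 : T ≤ 32041 / 10000000 := by nlinarith
  have a7 : H ≤ 1982 / 100000 := by linarith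
  have a8 : T ≤ 3197 / 1000000 := by nlinarith
  have a9 : H ≤ 198 / 10000 := by linarith
  have a10 : H ^ 2 ≤ 1225 / 10000 * T := by
    have : H ^ 2 = H * H := by ring
    rw [this]
    calc H * H ≤ 198 / 10000 * H := mul_le_mul_of_nonneg_right a9 hH0
      _ ≤ 1225 / 10000 * T := by linarith
  refine ⟨by linarith, a9, a10, ?_⟩
  linarith

end Num

section Final

variable {V : Type} [Fintype V] (G : TG V) (w : V → ℝ) (c : V → Fin 6)

theorem class_sum (g : Fin 6 → ℝ) : ∑ x, w x * g (c x) = ∑ i, cl w c i * g i := by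
  unfold cl
  simp only [sum_mul]
  rw [sum_comm]
  refine sum_congr rfl fun u _ => ?_
  have : ∀ k : Fin 6, w u * (if c u = k then (1 : ℝ) else 0) * g k =
      if c u = k then w u * g k else 0 := by
    intro k; split_ifs <;> ring
  rw [sum_congr rfl (fun k _ => this k), sum_ite_eq, if_pos (mem_univ _)]

theorem idl_eq_idp (k : Fin 6) : idl w c k = idp (cl w c) k := by
  unfold idl
  rw [S2_eq]
  have e1 : ∀ i, ∑ v, w v * blk k i (c v) = ∑ j, cl w c j * blk k i j :=
    fun i => class_sum w c (fun j => blk k i j)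
  rw [sum_congr rfl (fun u _ => by rw [e1 (c u)] : ∀ u ∈ univ, w u * ∑ v, w v *
    blk k (c u) (c v) = w u * ∑ j, cl w c j * blk k (c u) j)]
  rw [class_sum w c (fun i => ∑ j, cl w c j * blk k i j)]
  unfold idp
  refine sum_congr rfl fun i _ => ?_
  rw [mul_sum]
  refine sum_congr rfl fun j _ => ?_
  ring

variable (hw : ∀ x, 0 ≤ w x)
include hw

/-- the inner degree is at most the density inside, up to a second order term -/
theorem inn_le (k : Fin 6) (y : V) (s : ℝ) (hs : 0 ≤ s) :
    3 * s * inn G w c k y ≤ rho * (cl w c k + s) ^ 3 - VV G w c k := by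
  classical
  set wp : V → ℝ := fun x => w x * pin c k x with hwp
  have h1 := val_le_rho_hom G (fun x => wp x + s * (if x = y then 1 else 0)) (fun x => by
    have := mul_nonneg (hw x) (pin_nonneg c k x)
    have : 0 ≤ s * (if x = y then (1 : ℝ) else 0) := mul_nonneg hs (by split_ifs <;> norm_num)
    simp only [hwp]
    linarith)
  have h2 := val_line G wp (fun x => if x = y then 1 else 0) s
  have h3 : tri G (fun x => if x = y then 1 else 0) wp wp = inn G w c k y := by
    rw [tri_delta G wp y wp]
    unfold inn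
    refine sum_congr rfl fun a _ => sum_congr rfl fun b _ => ?_
    simp only [hwp]; ring
  have h4 : tri G (fun x => if x = y then 1 else 0) (fun x => if x = y then 1 else 0) wp = 0 :=
    tri_delta_delta G wp y
  have h5 : tri G (fun x => if x = y then (1 : ℝ) else 0) (fun x => if x = y then 1 else 0)
      (fun x => if x = y then 1 else 0) = 0 := tri_delta_delta G _ y
  rw [h3, h4, h5] at h2
  have h6 : ∑ x, (wp x + s * (if x = y then 1 else 0)) = cl w c k + s := by
    rw [sum_add_distrib, ← mul_sum, sum_ite_eq', if_pos (mem_univ _)]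
    rw [cl_eq_pin]; ring
  rw [h6, h2] at h1
  have h7 : val G wp = VV G w c k := rfl
  rw [h7] at h1
  linarith

/-- bad minus missing pairs at a vertex, coarse masses -/
theorem bad_coarse (hsz : ∀ i, |cl w c i - 1 / 6| ≤ 1 / 200) (z : V)
    (hm : mis G w c z ≤ 6 / 1000) : bad G w c z - mis G w c z ≤
    32 / 100 * mis G w c z + (123712 / 10000 * Mk G w c (c z) + 70589 / 10000 *
      Wk G w c (c z)) := by
  have lo : ∀ i, 97 / 600 ≤ cl w c i := fun i => by
    have := (abs_le.1 (hsz i)).1; linarith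
  have hi : ∀ i, cl w c i ≤ 103 / 600 := fun i => by
    have := (abs_le.1 (hsz i)).2; linarith
  have own_le_cl : ∀ u v, own G w c u v ≤ cl w c (c u) := by
    intro u v
    unfold own cl
    refine sum_le_sum fun y _ => mul_le_mul_of_nonneg_left ?_ (hw y)
    have := ind_le_one (G.E u y v)
    have := ind_nonneg (G.E u y v)
    split_ifs <;> linarith
  have b1 := bz_le G w c hw (97 / 600) (103 / 600) (by norm_num) lo z
    (fun v _ => (own_le_cl z v).trans (hi _))
  have b2 := bt_le G w c hw (97 / 600) (103 / 600) lo z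
    (fun v _ => (own_le_cl v z).trans (hi _))
  have b3 := gm_le G w c hw (97 / 600) (103 / 600) lo hi (by norm_num) z
  have T0 := Tz_nonneg G w c hw z
  have H0 := Hz_nonneg G w c hw z
  have Tm := Tz_le_mis G w c hw z
  have T2 := two_Tz_le G w c hw z
  have HT := Hz_le G w c hw (97 / 600) lo z
  have M0 := Mk_nonneg G w c hw (c z)
  have W0 := Wk_nonneg G w c hw (c z)
  obtain ⟨t1, t2, t3, t4⟩ := T_bd (97 / 600) _ _ _ le_rfl T0 H0 hm Tm T2 HT
  unfold bad
  set T := Tz G w c z
  set H := Hz G w c z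
  set m := mis G w c z
  set B1 := bz G w c z
  set B2 := btw G w c z
  set B3 := gm G w c z
  set M := Mk G w c (c z)
  set W := Wk G w c (c z)
  have m0 : 0 ≤ m := T0.trans Tm
  -- products
  have q1 : H * (m - T) ≤ 600 / 97 * T * (m - T) :=
    mul_le_mul_of_nonneg_right (by linarith) (by linarith)
  have q2 : T * (m - T) ≤ 6 / 4000 * m := by
    have e1 : T * (m - T) ≤ m ^ 2 / 4 := by nlinarith [sq_nonneg (m - 2 * T)]
    have e2 : m ^ 2 ≤ 6 / 1000 * m := by
      have : m ^ 2 = m * m := by ring
      rw [this]; exact mul_le_mul_of_nonneg_right hm m0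
    linarith
  have q3 : m ^ 2 ≤ 6 / 1000 * m := by
    have : m ^ 2 = m * m := by ring
    rw [this]; exact mul_le_mul_of_nonneg_right hm m0
  have q4 : H * (m - T) ≤ 600 / 97 * (6 / 4000) * m := by linarith
  norm_num at b1 b2 b3 q4 ⊢
  linarith

/-- bad minus missing pairs at a vertex, fine masses -/
theorem bad_fine (hsz : ∀ i, |cl w c i - 1 / 6| ≤ 1 / 600) (z : V)
    (hm : mis G w c z ≤ 6 / 1000) (hM : MM G w c ≤ 1 / 10 ^ 4) :
    bad G w c z - mis G w c z ≤ 194 / 10 ^ 5 ∧ bz G w c z ≤ 184 / 10 ^ 5 := by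
  have lo : ∀ i, 99 / 600 ≤ cl w c i := fun i => by
    have := (abs_le.1 (hsz i)).1; linarith
  have hi : ∀ i, cl w c i ≤ 101 / 600 := fun i => by
    have := (abs_le.1 (hsz i)).2; linarith
  have own_le_cl : ∀ u v, own G w c u v ≤ cl w c (c u) := by
    intro u v
    unfold own cl
    refine sum_le_sum fun y _ => mul_le_mul_of_nonneg_left ?_ (hw y)
    have := ind_le_one (G.E u y v)
    have := ind_nonneg (G.E u y v)
    split_ifs <;> linarith
  have b1 := bz_le G w c hw (99 / 600) (101 / 600) (by norm_num) lo z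
    (fun v _ => (own_le_cl z v).trans (hi _))
  have b2 := bt_le G w c hw (99 / 600) (101 / 600) lo z
    (fun v _ => (own_le_cl v z).trans (hi _))
  have b3 := gm_le G w c hw (99 / 600) (101 / 600) lo hi (by norm_num) z
  have T0 := Tz_nonneg G w c hw z
  have H0 := Hz_nonneg G w c hw z
  have Tm := Tz_le_mis G w c hw z
  have T2 := two_Tz_le G w c hw z
  have HT := Hz_le G w c hw (99 / 600) lo z
  have M0 := Mk_nonneg G w c hw (c z)
  have W0 := Wk_nonneg G w c hw (c z)
  have M3 := Mk_le G w c hw (c z)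
  have W3 := Wk_le G w c hw (c z)
  obtain ⟨t1, t2, t3, t4⟩ := T_bd (99 / 600) _ _ _ (by norm_num) T0 H0 hm Tm T2 HT
  unfold bad
  set T := Tz G w c z
  set H := Hz G w c z
  set m := mis G w c z
  set B1 := bz G w c z
  set B2 := btw G w c z
  set B3 := gm G w c z
  set M := Mk G w c (c z)
  set W := Wk G w c (c z)
  set Mt := MM G w c
  have m0 : 0 ≤ m := T0.trans Tm
  have H1 : H ≤ 194 / 10000 := by linarith
  have H2 : H ^ 2 ≤ 37636 / 10 ^ 8 := by
    have : H ^ 2 ≤ (194 / 10000) ^ 2 := pow_le_pow_left₀ H0 H1 2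
    norm_num at this ⊢
    linarith
  -- products
  have q1 : H * (m - T) ≤ 600 / 99 * T * (m - T) :=
    mul_le_mul_of_nonneg_right (by linarith) (by linarith)
  have q3 : m ^ 2 ≤ 36 / 10 ^ 6 := by
    have : m ^ 2 ≤ (6 / 1000) ^ 2 := pow_le_pow_left₀ m0 hm 2
    norm_num at this ⊢
    linarith
  have q2 : T * (m - T) ≤ 9 / 10 ^ 6 := by
    have e1 : T * (m - T) ≤ m ^ 2 / 4 := by nlinarith [sq_nonneg (m - 2 * T)]
    norm_num at q3 ⊢
    linarith
  have q4 : H * (m - T) ≤ 600 / 99 * (9 / 10 ^ 6) := by linarith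
  norm_num at b1 b2 b3 q3 q4 hM H2 ⊢
  constructor <;> linarith

end Final

/-- The end game.  `(G, w)` is an optimal weighted `K_4^-`-free 3-graph, and `c` is a partition
into six classes for which every vertex has small missing degree. -/
theorem endgame {n : ℕ} (G : TG (Fin n)) (w : Fin n → ℝ) (c : Fin n → Fin 6) (hw : IsW w)
    (hpos : ∀ x, 0 < w x) (hdeg : ∀ x, deg G w x = val G w)
    (hmax : ∀ w', IsW w' → val G w' ≤ val G w) (hnear : rho - 1 / 10 ^ 7 ≤ val G w)
    (hsz : ∀ i, |cl w c i - 1 / 6| ≤ 1 / 200) (hmis : ∀ z, mis G w c z ≤ 6 / 1000)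
    (hM : MM G w c ≤ 1 / 10 ^ 4) : val G w ≤ (10 + rho) / 36 := by
  have hw0 := hw.nonneg
  have r1 := rho_le_third
  have r2 := two_sevenths_le_rho
  have hr0 : 0 ≤ rho := by linarith
  have hMM0 : 0 ≤ MM G w c := by
    have := Mk_le G w c hw0 0
    have := Mk_nonneg G w c hw0 0
    linarith
  have own_le_cl : ∀ u v, own G w c u v ≤ cl w c (c u) := by
    intro u v
    unfold own cl
    refine sum_le_sum fun y _ => mul_le_mul_of_nonneg_left ?_ (hw0 y)
    have := ind_le_one (G.E u y v)
    have := ind_nonneg (G.E u y v)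
    split_ifs <;> linarith
  have hx : ∑ i, cl w c i = 1 := by rw [sum_cl, hw.sum_eq]
  set t := val G w with ht
  have hcd := class_deg G w c t hdeg
  have hVV := VV_le G w c hw0
  -- fine masses
  have hfine : ∀ i, |cl w c i - 1 / 6| ≤ 1 / 600 := by
    have lo : ∀ i, 97 / 600 ≤ cl w c i := fun i => by
      have := (abs_le.1 (hsz i)).1; linarith
    have hi : ∀ i, cl w c i ≤ 103 / 600 := fun i => by
      have := (abs_le.1 (hsz i)).2; linarith
    have hB := bad_leL G w c hw0 rootNumCoarse lo hmis
      (fun r z _ => (own_le_cl z r).trans (hi _))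
    have hsum := sum_Ek G w c
    refine sizes_num rho t (cl w c) (Ek G w c) hx hsz hr0 r1 (by linarith) ?_ ?_ ?_ ?_
    · intro k
      have h1 := hcd k
      have h2 := hVV k
      rw [idl_eq_idp] at h1
      linarith
    · intro k
      have h1 := Ek_le G w c hw0 k (32 / 100) (123712 / 10000 * Mk G w c k +
        70589 / 10000 * Wk G w c k) (fun z hz => by
          have := bad_coarse G w c hw0 hsz z (hmis z)
          rw [hz] at this
          exact this)
      have h2 := Mk_le G w c hw0 k
      have h3 := Wk_le G w c hw0 k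
      have h4 := Mk_nonneg G w c hw0 k
      have h5 := Wk_nonneg G w c hw0 k
      have h6 : (123712 / 10000 * Mk G w c k + 70589 / 10000 * Wk G w c k) * cl w c k ≤
          (123712 / 10000 * Mk G w c k + 70589 / 10000 * Wk G w c k) * (103 / 600) :=
        mul_le_mul_of_nonneg_left (hi k) (by linarith)
      norm_num at hM ⊢
      linarith
    · intro k
      have h1 := Ek_ge G w c hw0 k
      have h2 := Mk_le G w c hw0 k
      norm_num at hM ⊢
      linarith
    · rw [hsum]
      norm_num at hB hM ⊢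
      linarith
  have lo : ∀ i, 99 / 600 ≤ cl w c i := fun i => by
    have := (abs_le.1 (hfine i)).1; linarith
  have hi : ∀ i, cl w c i ≤ 101 / 600 := fun i => by
    have := (abs_le.1 (hfine i)).2; linarith
  -- densities inside the classes
  have hinside : ∀ k, rho * cl w c k ^ 3 - 481 / 10 ^ 7 ≤ VV G w c k := by
    intro k
    have hB := bad_leL G w c hw0 rootNumFine lo hmis
      (fun r z _ => (own_le_cl z r).trans (hi _))
    have hsum := sum_Ek G w c
    have h1 := Tb_slack rho hr0 r1 (cl w c) hx hsz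
    have h2 : t = ∑ k, VV G w c k + Tb (cl w c) + ∑ k, Ek G w c k := by
      have h3 : ∑ k, t * cl w c k = ∑ k, (VV G w c k + cl w c k * idl w c k + Ek G w c k) :=
        sum_congr rfl fun k _ => hcd k
      rw [← mul_sum, hx, mul_one, sum_add_distrib, sum_add_distrib] at h3
      rw [h3, ← sum_mul_idp]
      simp only [idl_eq_idp]
    have h4 : rho * cl w c k ^ 3 - VV G w c k ≤ ∑ k, (rho * cl w c k ^ 3 - VV G w c k) :=
      single_le_sum (f := fun k => rho * cl w c k ^ 3 - VV G w c k)
        (fun i _ => by have := hVV i; linarith) (mem_univ k)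
    rw [sum_sub_distrib, ← mul_sum] at h4
    have h5 : 0 ≤ ∑ i, (cl w c i - 1 / 6) ^ 2 := sum_nonneg fun i _ => sq_nonneg _
    norm_num at hB hM hnear ⊢
    linarith
  have hpoint := fun z => bad_fine G w c hw0 hfine z (hmis z) hM
  have hS : ∀ k, ∑ i, (cl w c i - 1 / 6) ^ 2 - (cl w c k - 1 / 6) ^ 2 ≤ 5 / 360000 := by
    intro k
    have h1 : ∀ i, (cl w c i - 1 / 6) ^ 2 ≤ 1 / 360000 := by
      intro i
      have h2 := hfine i
      have h3 : (cl w c i - 1 / 6) ^ 2 = |cl w c i - 1 / 6| ^ 2 := (sq_abs _).symm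
      rw [h3]
      have : |cl w c i - 1 / 6| ^ 2 ≤ (1 / 600) ^ 2 := pow_le_pow_left₀ (abs_nonneg _) h2 2
      norm_num at this ⊢
      linarith
    have h4 : ∑ i ∈ univ.erase k, (cl w c i - 1 / 6) ^ 2 ≤ ∑ i ∈ univ.erase k, (1 / 360000 : ℝ) :=
      sum_le_sum fun i _ => h1 i
    rw [sum_erase_eq_sub (mem_univ k)] at h4
    have h5 : ∑ i ∈ univ.erase k, (1 / 360000 : ℝ) = 5 / 360000 := by
      rw [sum_const, card_erase_of_mem (mem_univ k), card_univ, Fintype.card_fin]
      norm_num
    rw [h5] at h4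
    exact h4
  -- lower bound for the inner degree
  have hinn : ∀ z, rho - 280858 / 10 ^ 6 ≤ inn G w c (c z) z := by
    intro z
    have h1 := deg_eq G w c z
    rw [hdeg z, idl_eq_idp] at h1
    have h2 := (idp_bounds (cl w c) hx (c z)).1
    have h3 := hS (c z)
    have h4 := (hpoint z).1
    have h5 := (abs_le.1 (hfine (c z))).1
    norm_num at h4 h2 h3 h5 hnear ⊢
    linarith
  -- own neighbourhoods
  have hown : ∀ r z, c r ≠ c z → own G w c z r ≤ 1489 / 10000 := by
    intro r z _
    set k := c z with hk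
    set x := cl w c k with hxk
    have xlo : 99 / 600 ≤ x := lo k
    have xhi : x ≤ 101 / 600 := hi k
    have xpos : 0 < x := by linarith
    set C : ℝ := rho * (x ^ 2 + x * (185 / 10000) + (185 / 10000) ^ 2 / 3) +
      481 / 10 ^ 7 / (3 * (185 / 10000)) + 184 / 10 ^ 5 with hC
    have hCs : ∀ y, c y = k → cin G w c k y ≤ C := by
      intro y hy
      have h1 := cin_eq G w c y
      rw [hy] at h1
      have h2 := inn_le G w c hw0 k y (185 / 10000) (by norm_num)
      have h3 := hinside k
      have h4 := (hpoint y).2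
      have h5 : rho * (x + 185 / 10000) ^ 3 = rho * x ^ 3 +
        3 * (185 / 10000) * (rho * (x ^ 2 + x * (185 / 10000) + (185 / 10000) ^ 2 / 3)) := by
        ring
      rw [← hxk, h5] at h2
      rw [← hxk] at h3
      rw [h1, hC]
      norm_num at h2 h3 h4 ⊢
      linarith
    have hCa : VV G w c k / x * x ≤ ∑ y, w y * (pin c k y * cin G w c k y) := by
      rw [div_mul_cancel₀ _ xpos.ne', ← sum_inn]
      refine sum_le_sum fun y _ => mul_le_mul_of_nonneg_left ?_ (hw0 y)
      by_cases hy : c y = k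
      · refine mul_le_mul_of_nonneg_left ?_ (pin_nonneg c k y)
        have h1 := cin_eq G w c y
        rw [hy] at h1
        have h2 := bz_nonneg G w c hw0 y
        linarith
      · have : pin c k y = 0 := by unfold pin; rw [if_neg hy]
        rw [this, zero_mul, zero_mul]
    have hz1 : cin G w c k z = inn G w c k z + bz G w c z := cin_eq G w c z
    have hz2 := (hpoint z).2
    have hz3 : rho - 280858 / 10 ^ 6 ≤ inn G w c k z := hinn z
    have hCa2 : rho * x ^ 2 - 2916 / 10 ^ 7 ≤ VV G w c k / x := by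
      rw [le_div_iff₀ xpos]
      have h1 := hinside k
      have h2 : (rho * x ^ 2 - 2916 / 10 ^ 7) * x = rho * x ^ 3 - 2916 / 10 ^ 7 * x := by ring
      rw [h2]
      norm_num at h1 ⊢
      linarith
    have hx2 : (99 / 600) ^ 2 ≤ x ^ 2 := pow_le_pow_left₀ (by norm_num) xlo 2
    have hx3 : x ^ 2 ≤ 101 / 600 * x := by
      have : x ^ 2 = x * x := by ring
      rw [this]; exact mul_le_mul_of_nonneg_right xhi xpos.le
    -- the bracket multiplying `rho`
    have hbr : 2 / 7 * (3 / 4 * x ^ 2 - 3 / 2 * (x * (185 / 10000) + (185 / 10000) ^ 2 / 3)) ≤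
        rho * (3 / 4 * x ^ 2 - 3 / 2 * (x * (185 / 10000) + (185 / 10000) ^ 2 / 3)) := by
      refine mul_le_mul_of_nonneg_right r2 ?_
      norm_num at hx2 hx3 ⊢
      nlinarith
    have h := own_le G w c hw0 (cnd_of_opt G w hw hpos hmax) k z r rfl xpos (1155 / 10000) C
      (VV G w c k / x) (by norm_num) (by norm_num at hz3 ⊢; linarith) hCs hCa ?_
    · have h2 : (1 - 1155 / 10000) * x ≤ 1489 / 10000 := by linarith
      exact h.trans h2
    · have hx4 : 2 / 7 * (3 / 4 * x ^ 2 - 3 / 2 * (x * (185 / 10000) +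
          (185 / 10000) ^ 2 / 3)) ≥ 44 / 10 ^ 4 := by
        norm_num at hx2 hx3 ⊢
        nlinarith
      rw [hz1, hC]
      norm_num at hz2 hz3 hCa2 hbr hx4 ⊢
      linarith
  -- steps E and F
  have hB := bad_leL G w c hw0 rootNumLast lo hmis hown
  have h1 := T3_e3_le G w c hw0
  have h2 := val_split G w c
  rw [T3_blk] at h2
  have h3 := Tb_slack rho hr0 r1 (cl w c) hx hsz
  have h4 : 0 ≤ ∑ i, (cl w c i - 1 / 6) ^ 2 := sum_nonneg fun i _ => sq_nonneg _
  unfold BBw MM at hB
  rw [ht]
  linarith

end K4m
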