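import Mathlib
import Pool.Agent.Lib.MP_392c14_co.Cnd

/-!
# Own codegrees of a pair, averaged over a part

`a` is the indicator of a part `A`, `ma` its mass.  For arbitrary `x` the common neighbours of
`x` and `z` in `A` have mass at most `3/4` of the mass of `A`, up to an error controlled by the
deviation of the degrees `ca` into `A`.
-/

set_option autoImplicit false

namespace K4m

open Finset

section OwnAvg

variable {V : Type} [Fintype V] (G : TG V) (w a : V → ℝ)

/-- mass of the part -/
noncomputable def ma : ℝ := ∑ y, w y * a y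

/-- pairs at `z` inside the part -/
noncomputable def ia (z : V) : ℝ := ∑ y, ∑ v, w y * w v * (a y * a v * ind (G.E z y v))

/-- pairs at `z` with the first vertex in the part -/
noncomputable def ca (z : V) : ℝ := ∑ y, ∑ v, w y * w v * (a y * ind (G.E z y v))

/-- common neighbours of `x` and `z` in the part -/
noncomputable def oa (x z : V) : ℝ := ∑ y, w y * (a y * ind (G.E z y x))

/-- total of `ca` over the part -/
noncomputable def cta : ℝ := ∑ y, w y * (a y * ca G w a y)

/-- positive deviation of `ca` from its mean over the part, multiplied by the mass -/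
noncomputable def dva : ℝ := ∑ y, w y * (a y * max (ma w a * ca G w a y - cta G w a) 0)

variable (hw : ∀ x, 0 ≤ w x) (ha : ∀ x, a x = 0 ∨ a x = 1)
include hw ha

theorem a_nonneg (x : V) : 0 ≤ a x := by
  rcases ha x with h | h <;> rw [h]; norm_num

theorem a_le_one (x : V) : a x ≤ 1 := by
  rcases ha x with h | h <;> rw [h]; norm_num

theorem ma_nonneg : 0 ≤ ma w a :=
  sum_nonneg fun y _ => mul_nonneg (hw y) (a_nonneg w a hw ha y)

theorem ia_le_ca (z : V) : ia G w a z ≤ ca G w a z := by
  unfold ia ca
  refine sum_le_sum fun y _ => sum_le_sum fun v _ => ?_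
  refine mul_le_mul_of_nonneg_left ?_ (mul_nonneg (hw y) (hw v))
  have h1 := a_nonneg w a hw ha y
  have h2 := a_le_one w a hw ha v
  have h3 := ind_nonneg (G.E z y v)
  have h4 : a y * a v ≤ a y := by
    calc a y * a v ≤ a y * 1 := mul_le_mul_of_nonneg_left h2 h1
      _ = a y := mul_one _
  exact mul_le_mul_of_nonneg_right h4 h3

theorem ia_nonneg (z : V) : 0 ≤ ia G w a z := by
  unfold ia
  refine sum_nonneg fun y _ => sum_nonneg fun v _ => mul_nonneg (mul_nonneg (hw y) (hw v)) ?_
  exact mul_nonneg (mul_nonneg (a_nonneg w a hw ha y) (a_nonneg w a hw ha v)) (ind_nonneg _)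

theorem oa_nonneg (x z : V) : 0 ≤ oa G w a x z := by
  unfold oa
  exact sum_nonneg fun y _ => mul_nonneg (hw y) (mul_nonneg (a_nonneg w a hw ha y)
    (ind_nonneg _))

theorem oa_le (x z : V) : oa G w a x z ≤ ma w a := by
  unfold oa ma
  refine sum_le_sum fun y _ => mul_le_mul_of_nonneg_left ?_ (hw y)
  have h1 := a_nonneg w a hw ha y
  have h2 := ind_le_one (G.E z y x)
  calc a y * ind (G.E z y x) ≤ a y * 1 := mul_le_mul_of_nonneg_left h2 h1
    _ = a y := mul_one _

/-- the codegree of two vertices is controlled by their degrees into the part -/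
theorem cod_le (hcnd : ∀ f : V → ℝ, ∑ x, f x = 0 → tri G f f w ≤ 0) (hm : 0 < ma w a)
    (z y : V) : ma w a ^ 2 * ∑ u, w u * ind (G.E z y u) ≤
      2 * ma w a * ca G w a z + 2 * ma w a * ca G w a y - 2 * cta G w a := by
  classical
  set m := ma w a with hmd
  set d : V → ℝ := fun x => if x = z then 1 else 0 with hd
  set e : V → ℝ := fun x => if x = y then 1 else 0 with he
  set p : V → ℝ := fun x => w x * a x with hp
  have hsum : ∑ x, ((d x + 1 * e x) + (-(2 / m)) * p x) = 0 := by
    rw [sum_add_distrib, sum_add_distrib, ← mul_sum, ← mul_sum]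
    have h1 : ∑ x, d x = 1 := by simp [hd]
    have h2 : ∑ x, e x = 1 := by simp [he]
    have h3 : ∑ x, p x = m := rfl
    rw [h1, h2, h3]
    field_simp
    ring
  have hq := hcnd _ hsum
  rw [quad_expand G w] at hq
  have t1 : tri G d d w = 0 := tri_delta_delta G w z
  have t2 : tri G e e w = 0 := tri_delta_delta G w y
  have t3 : tri G d e w = ∑ u, w u * ind (G.E z y u) := by
    rw [tri_delta G w z e]
    rw [sum_eq_single y]
    · refine sum_congr rfl fun u _ => ?_
      simp [he]
    · intro b _ hb
      simp [he, hb]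
    · intro h; exact absurd (mem_univ _) h
  have t4 : ∀ r, tri G (fun x => if x = r then 1 else 0) p w = ca G w a r := by
    intro r
    rw [tri_delta G w r p]
    unfold ca
    refine sum_congr rfl fun u _ => sum_congr rfl fun v _ => ?_
    simp only [hp]; ring
  have t5 : tri G p p w = cta G w a := by
    unfold cta ca tri
    refine sum_congr rfl fun x _ => ?_
    rw [mul_sum, mul_sum]
    refine sum_congr rfl fun u _ => ?_
    rw [mul_sum, mul_sum]
    refine sum_congr rfl fun v _ => ?_
    simp only [hp]; ring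
  rw [t1, t2, t3, t4 z, t4 y, t5] at hq
  have h1 : m ^ 2 * (0 + 1 ^ 2 * 0 + (-(2 / m)) ^ 2 * cta G w a +
      2 * 1 * (∑ u, w u * ind (G.E z y u)) + 2 * (-(2 / m)) * ca G w a z +
      2 * 1 * (-(2 / m)) * ca G w a y) =
      4 * cta G w a + 2 * (m ^ 2 * ∑ u, w u * ind (G.E z y u)) - 4 * m * ca G w a z -
      4 * m * ca G w a y := by
    field_simp
    ring
  have h2 := mul_nonpos_of_nonneg_of_nonpos (sq_nonneg m) hq
  rw [h1] at h2
  linarith

/-- the pointwise inequality -/
theorem oa_point (hcnd : ∀ f : V → ℝ, ∑ x, f x = 0 → tri G f f w ≤ 0) (hm : 0 < ma w a)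
    (x z : V) : ma w a ^ 2 * ia G w a z ≤
      4 * ma w a * (ma w a - oa G w a x z) * ca G w a z + 4 * dva G w a := by
  set m := ma w a with hmd
  set S : V → ℝ := fun y => a y * (1 - ind (G.E z y x)) with hS
  have S0 : ∀ y, 0 ≤ S y := by
    intro y
    have := ind_le_one (G.E z y x)
    exact mul_nonneg (a_nonneg w a hw ha y) (by linarith)
  have Sle : ∀ y, S y ≤ a y := by
    intro y
    have h1 := ind_nonneg (G.E z y x)
    have h2 := a_nonneg w a hw ha y
    simp only [hS]
    nlinarith
  -- every pair at `z` inside the part meets `S`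
  have h1 : ia G w a z ≤ 2 * ∑ y, w y * (S y * ∑ v, w v * ind (G.E z y v)) := by
    have e1 : ∑ y, w y * (S y * ∑ v, w v * ind (G.E z y v)) =
        ∑ y, ∑ v, w y * w v * (S y * ind (G.E z y v)) := by
      refine sum_congr rfl fun y _ => ?_
      rw [mul_sum, mul_sum]
      refine sum_congr rfl fun v _ => ?_
      ring
    have e2 : ∑ y, w y * (S y * ∑ v, w v * ind (G.E z y v)) =
        ∑ y, ∑ v, w y * w v * (S v * ind (G.E z y v)) := by
      rw [e1, sum_comm]
      refine sum_congr rfl fun y _ => sum_congr rfl fun v _ => ?_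
      rw [G.symm₂ z y v]; ring
    have e3 : 2 * ∑ y, w y * (S y * ∑ v, w v * ind (G.E z y v)) =
        ∑ y, ∑ v, w y * w v * ((S y + S v) * ind (G.E z y v)) := by
      have : 2 * ∑ y, w y * (S y * ∑ v, w v * ind (G.E z y v)) =
          (∑ y, ∑ v, w y * w v * (S y * ind (G.E z y v))) +
          ∑ y, ∑ v, w y * w v * (S v * ind (G.E z y v)) := by rw [← e1, ← e2]; ring
      rw [this, ← sum_add_distrib]
      refine sum_congr rfl fun y _ => ?_
      rw [← sum_add_distrib]
      refine sum_congr rfl fun v _ => ?_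
      ring
    rw [e3]
    unfold ia
    refine sum_le_sum fun y _ => sum_le_sum fun v _ => ?_
    refine mul_le_mul_of_nonneg_left ?_ (mul_nonneg (hw y) (hw v))
    rcases ind_cases (G.E z y v) with ⟨h, h'⟩ | ⟨h, h'⟩
    · rw [h', mul_one, mul_one]
      rcases ha y with py | py
      · rw [py, zero_mul]
        have := S0 y
        have := S0 v
        linarith
      · rcases ha v with pv | pv
        · rw [pv, mul_zero]
          have := S0 y
          have := S0 v
          linarith
        · rw [py, pv]
          simp only [hS]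
          rw [py, pv]
          rcases ind_cases (G.E z y x) with ⟨b, b'⟩ | ⟨b, b'⟩
          · rcases ind_cases (G.E z v x) with ⟨d, d'⟩ | ⟨d, d'⟩
            · exact absurd ⟨h, b, d⟩ (G.free z y v x)
            · rw [b', d']; norm_num
          · rcases ind_cases (G.E z v x) with ⟨d, d'⟩ | ⟨d, d'⟩
            · rw [b', d']; norm_num
            · rw [b', d']; norm_num
    · rw [h', mul_zero, mul_zero]
  have h2 : m ^ 2 * ∑ y, w y * (S y * ∑ v, w v * ind (G.E z y v)) ≤
      2 * m * (m - oa G w a x z) * ca G w a z + 2 * dva G w a := by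
    have e1 : m ^ 2 * ∑ y, w y * (S y * ∑ v, w v * ind (G.E z y v)) =
        ∑ y, w y * (S y * (m ^ 2 * ∑ v, w v * ind (G.E z y v))) := by
      rw [mul_sum]
      refine sum_congr rfl fun y _ => ?_
      ring
    have e2 : m - oa G w a x z = ∑ y, w y * S y := by
      rw [hmd]
      unfold ma oa
      rw [← sum_sub_distrib]
      refine sum_congr rfl fun y _ => ?_
      simp only [hS]; ring
    rw [e1, e2]
    have e3 : 2 * m * (∑ y, w y * S y) * ca G w a z + 2 * dva G w a =
        ∑ y, w y * (S y * (2 * m * ca G w a z) +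
          2 * (a y * max (m * ca G w a y - cta G w a) 0)) := by
      unfold dva
      rw [mul_sum, mul_sum, sum_mul, ← sum_add_distrib]
      refine sum_congr rfl fun y _ => ?_
      rw [← hmd]
      ring
    rw [e3]
    refine sum_le_sum fun y _ => mul_le_mul_of_nonneg_left ?_ (hw y)
    have c1 := cod_le G w a hw ha hcnd hm z y
    rw [← hmd] at c1
    have c2 : S y * (m ^ 2 * ∑ v, w v * ind (G.E z y v)) ≤
        S y * (2 * m * ca G w a z + 2 * m * ca G w a y - 2 * cta G w a) :=
      mul_le_mul_of_nonneg_left c1 (S0 y)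
    have c3 : S y * (2 * (m * ca G w a y - cta G w a)) ≤
        2 * (a y * max (m * ca G w a y - cta G w a) 0) := by
      have m0 : 0 ≤ max (m * ca G w a y - cta G w a) 0 := le_max_right _ _
      have m1 : m * ca G w a y - cta G w a ≤ max (m * ca G w a y - cta G w a) 0 :=
        le_max_left _ _
      calc S y * (2 * (m * ca G w a y - cta G w a)) ≤
          S y * (2 * max (m * ca G w a y - cta G w a) 0) :=
            mul_le_mul_of_nonneg_left (by linarith) (S0 y)
        _ ≤ a y * (2 * max (m * ca G w a y - cta G w a) 0) :=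
            mul_le_mul_of_nonneg_right (Sle y) (by linarith)
        _ = _ := by ring
    have c4 : S y * (2 * m * ca G w a z + 2 * m * ca G w a y - 2 * cta G w a) =
        S y * (2 * m * ca G w a z) + S y * (2 * (m * ca G w a y - cta G w a)) := by ring
    linarith
  have h3 := mul_le_mul_of_nonneg_left h1 (sq_nonneg m)
  linarith

/-- `own - 3/4` at one vertex -/
theorem oa_point2 (hcnd : ∀ f : V → ℝ, ∑ x, f x = 0 → tri G f f w ≤ 0) (hm : 0 < ma w a)
    (x z : V) : ma w a * (oa G w a x z - 3 / 4 * ma w a) * ca G w a z ≤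
      1 / 4 * ma w a ^ 2 * (ca G w a z - ia G w a z) + dva G w a := by
  have h := oa_point G w a hw ha hcnd hm x z
  linarith

/-- the averaged bound -/
theorem oa_avg (hcnd : ∀ f : V → ℝ, ∑ x, f x = 0 → tri G f f w ≤ 0) (hm : 0 < ma w a)
    (x : V) :
    cta G w a * ∑ z, w z * (a z * max (oa G w a x z - 3 / 4 * ma w a) 0) ≤
      ma w a * (1 / 4 * ma w a * (cta G w a - ∑ z, w z * (a z * ia G w a z)) +
        5 / 4 * dva G w a) := by
  set m := ma w a with hmd
  set D := dva G w a with hDd
  set C := cta G w a with hCd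
  have D0 : 0 ≤ D := sum_nonneg fun y _ => mul_nonneg (hw y) (mul_nonneg
    (a_nonneg w a hw ha y) (le_max_right _ _))
  have C0 : 0 ≤ C := by
    refine sum_nonneg fun y _ => mul_nonneg (hw y) (mul_nonneg (a_nonneg w a hw ha y) ?_)
    exact (ia_nonneg G w a hw ha y).trans (ia_le_ca G w a hw ha y)
  -- the negative deviation has the same mass as the positive one
  have hdev : ∑ z, w z * (a z * max (C - m * ca G w a z) 0) = D := by
    have e1 : ∀ z, max (C - m * ca G w a z) 0 = max (m * ca G w a z - C) 0 -
        (m * ca G w a z - C) := by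
      intro z
      rcases le_total (m * ca G w a z) C with h | h
      · rw [max_eq_left (by linarith), max_eq_right (by linarith)]; ring
      · rw [max_eq_right (by linarith), max_eq_left (by linarith)]; ring
    have e2 : ∑ z, w z * (a z * max (C - m * ca G w a z) 0) =
        ∑ z, w z * (a z * max (m * ca G w a z - C) 0) -
        ∑ z, w z * (a z * (m * ca G w a z - C)) := by
      rw [← sum_sub_distrib]
      refine sum_congr rfl fun z _ => ?_
      rw [e1]; ring
    have e3 : ∑ z, w z * (a z * (m * ca G w a z - C)) = 0 := by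
      have : ∑ z, w z * (a z * (m * ca G w a z - C)) =
          m * ∑ z, w z * (a z * ca G w a z) - (∑ z, w z * a z) * C := by
        rw [mul_sum, sum_mul, ← sum_sub_distrib]
        refine sum_congr rfl fun z _ => ?_
        ring
      rw [this]
      have e4 : ∑ z, w z * (a z * ca G w a z) = C := rfl
      have e5 : ∑ z, w z * a z = m := rfl
      rw [e4, e5]; ring
    rw [e2, e3, sub_zero]
    rfl
  have key : ∀ z, C * (a z * max (oa G w a x z - 3 / 4 * m) 0) ≤
      a z * ((1 / 4 * m ^ 2 * (ca G w a z - ia G w a z) + D) +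
        m / 4 * max (C - m * ca G w a z) 0) := by
    intro z
    have e : C * (a z * max (oa G w a x z - 3 / 4 * m) 0) =
      a z * (C * max (oa G w a x z - 3 / 4 * m) 0) := by ring
    rw [e]
    refine mul_le_mul_of_nonneg_left ?_ (a_nonneg w a hw ha z)
    have n1 : 0 ≤ 1 / 4 * m ^ 2 * (ca G w a z - ia G w a z) + D := by
      have := ia_le_ca G w a hw ha z
      have : 0 ≤ 1 / 4 * m ^ 2 * (ca G w a z - ia G w a z) :=
        mul_nonneg (by positivity) (by linarith)
      linarith
    have n3 : 0 ≤ max (C - m * ca G w a z) 0 := le_max_right _ _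
    have n4 : C - m * ca G w a z ≤ max (C - m * ca G w a z) 0 := le_max_left _ _
    rcases le_total (oa G w a x z - 3 / 4 * m) 0 with h | h
    · rw [max_eq_right h, mul_zero]
      have := mul_nonneg (by linarith : 0 ≤ m / 4) n3
      linarith
    · rw [max_eq_left h]
      have p1 := oa_point2 G w a hw ha hcnd hm x z
      rw [← hmd] at p1
      have p2 := oa_le G w a hw ha x z
      have p3 : (oa G w a x z - 3 / 4 * m) * (C - m * ca G w a z) ≤
          m / 4 * max (C - m * ca G w a z) 0 := by
        calc (oa G w a x z - 3 / 4 * m) * (C - m * ca G w a z) ≤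
            (oa G w a x z - 3 / 4 * m) * max (C - m * ca G w a z) 0 :=
              mul_le_mul_of_nonneg_left n4 h
          _ ≤ m / 4 * max (C - m * ca G w a z) 0 :=
              mul_le_mul_of_nonneg_right (by linarith) n3
      have e2 : C * (oa G w a x z - 3 / 4 * m) = m * (oa G w a x z - 3 / 4 * m) * ca G w a z +
          (oa G w a x z - 3 / 4 * m) * (C - m * ca G w a z) := by ring
      linarith
  rw [mul_sum]
  have h1 : ∑ z, C * (w z * (a z * max (oa G w a x z - 3 / 4 * m) 0)) ≤
      ∑ z, w z * (a z * ((1 / 4 * m ^ 2 * (ca G w a z - ia G w a z) + D) +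
        m / 4 * max (C - m * ca G w a z) 0)) := by
    refine sum_le_sum fun z _ => ?_
    have e : C * (w z * (a z * max (oa G w a x z - 3 / 4 * m) 0)) =
        w z * (C * (a z * max (oa G w a x z - 3 / 4 * m) 0)) := by ring
    rw [e]
    exact mul_le_mul_of_nonneg_left (key z) (hw z)
  refine h1.trans (le_of_eq ?_)
  have h2 : ∑ z, w z * (a z * ((1 / 4 * m ^ 2 * (ca G w a z - ia G w a z) + D) +
        m / 4 * max (C - m * ca G w a z) 0)) =
      1 / 4 * m ^ 2 * (∑ z, w z * (a z * ca G w a z) -
        ∑ z, w z * (a z * ia G w a z)) + D * (∑ z, w z * a z) +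
      m / 4 * ∑ z, w z * (a z * max (C - m * ca G w a z) 0) := by
    rw [← sum_sub_distrib, mul_sum, mul_sum, mul_sum, ← sum_add_distrib, ← sum_add_distrib]
    refine sum_congr rfl fun z _ => ?_
    ring
  rw [h2, hdev]
  have e4 : ∑ z, w z * (a z * ca G w a z) = C := rfl
  have e5 : ∑ z, w z * a z = m := rfl
  rw [e4, e5]
  ring

/-- the deviation of `ca` is controlled by any decomposition `ca z = k0 + e z - f z` on the part
with `e, f ≥ 0` -/
theorem dva_le (k0 : ℝ) (e f : V → ℝ) (he : ∀ z, 0 ≤ e z) (hf : ∀ z, 0 ≤ f z)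
    (h : ∀ z, a z = 1 → ca G w a z = k0 + e z - f z) :
    dva G w a ≤ ma w a * (∑ z, w z * (a z * e z) + ∑ z, w z * (a z * f z)) := by
  set m := ma w a with hmd
  have m0 : 0 ≤ m := ma_nonneg w a hw ha
  have hC : cta G w a = m * k0 + ∑ z, w z * (a z * e z) - ∑ z, w z * (a z * f z) := by
    have e5 : ∑ z, w z * a z = m := rfl
    rw [← e5, sum_mul, ← sum_add_distrib, ← sum_sub_distrib]
    unfold cta
    refine sum_congr rfl fun z _ => ?_
    rcases ha z with hz | hz
    · rw [hz]; ring
    · rw [h z hz, hz]; ring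
  set Se := ∑ z, w z * (a z * e z) with hSe
  set Sf := ∑ z, w z * (a z * f z) with hSf
  have Se0 : 0 ≤ Se := sum_nonneg fun z _ => mul_nonneg (hw z) (mul_nonneg
    (a_nonneg w a hw ha z) (he z))
  have Sf0 : 0 ≤ Sf := sum_nonneg fun z _ => mul_nonneg (hw z) (mul_nonneg
    (a_nonneg w a hw ha z) (hf z))
  have key : ∀ z, a z * max (m * ca G w a z - cta G w a) 0 ≤ a z * (m * e z + Sf) := by
    intro z
    rcases ha z with hz | hz
    · rw [hz, zero_mul, zero_mul]
    · rw [hz, one_mul, one_mul, h z hz, hC]
      refine max_le ?_ ?_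
      · have := mul_nonneg m0 (hf z)
        linarith
      · have := mul_nonneg m0 (he z)
        linarith
  unfold dva
  refine le_trans (sum_le_sum fun z _ => mul_le_mul_of_nonneg_left (key z) (hw z)) ?_
  have e5 : ∑ z, w z * a z = m := rfl
  refine le_of_eq ?_
  have : ∑ z, w z * (a z * (m * e z + Sf)) = m * Se + (∑ z, w z * a z) * Sf := by
    rw [hSe, mul_sum, sum_mul, ← sum_add_distrib]
    refine sum_congr rfl fun z _ => ?_
    ring
  rw [this, e5]
  ring

/-- the averaged bound with a uniform error term.  On the part, `ca z = k0 + e z - f z - h z` with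
`e, f ≥ 0` and `0 ≤ h ≤ κ1`, and `ca - ia ≤ f1 + κ2`. -/
theorem oa_avg2 (hcnd : ∀ f : V → ℝ, ∑ x, f x = 0 → tri G f f w ≤ 0) (hm : 0 < ma w a)
    (k0 κ1 κ2 μ : ℝ) (e f h f1 : V → ℝ) (he : ∀ z, 0 ≤ e z) (hf : ∀ z, 0 ≤ f z)
    (hh : ∀ z, 0 ≤ h z) (hf1 : ∀ z, 0 ≤ f1 z)
    (hh1 : ∀ z, a z = 1 → h z ≤ κ1) (hκ1 : 0 ≤ κ1)
    (hca : ∀ z, a z = 1 → ca G w a z = k0 + e z - f z - h z)
    (hb : ∀ z, a z = 1 → ca G w a z - ia G w a z ≤ f1 z + κ2)
    (hC : 0 < cta G w a) (hμ : 1 / 4 * (κ1 + κ2) * ma w a ≤ μ * cta G w a) (x : V) :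
    cta G w a * ∑ z, w z * (a z * max (oa G w a x z - (3 / 4 + μ) * ma w a) 0) ≤
      ma w a ^ 2 * (5 / 4 * (∑ z, w z * (a z * e z)) + 1 / 2 * (∑ z, w z * (a z * f z)) +
        1 / 4 * ∑ z, w z * (a z * f1 z)) := by
  set m := ma w a with hmd
  set C := cta G w a with hCd
  set E := ∑ z, w z * (a z * e z) with hE
  set F := ∑ z, w z * (a z * f z) with hF
  set F1 := ∑ z, w z * (a z * f1 z) with hF1
  set Hh := ∑ z, w z * (a z * h z) with hHh
  have E0 : 0 ≤ E := sum_nonneg fun z _ => mul_nonneg (hw z) (mul_nonneg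
    (a_nonneg w a hw ha z) (he z))
  have F0 : 0 ≤ F := sum_nonneg fun z _ => mul_nonneg (hw z) (mul_nonneg
    (a_nonneg w a hw ha z) (hf z))
  have Hh0 : 0 ≤ Hh := sum_nonneg fun z _ => mul_nonneg (hw z) (mul_nonneg
    (a_nonneg w a hw ha z) (hh z))
  have Hh1 : Hh ≤ κ1 * m := by
    have e5 : κ1 * m = ∑ z, w z * (a z * κ1) := by
      rw [hmd]
      unfold ma
      rw [mul_sum]
      refine sum_congr rfl fun z _ => ?_
      ring
    rw [e5]
    refine sum_le_sum fun z _ => mul_le_mul_of_nonneg_left ?_ (hw z)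
    rcases ha z with hz | hz
    · rw [hz, zero_mul, zero_mul]
    · exact mul_le_mul_of_nonneg_left (hh1 z hz) (a_nonneg w a hw ha z)
  have hCe : C = m * k0 + E - F - Hh := by
    have e5 : ∑ z, w z * a z = m := rfl
    rw [← e5, sum_mul, hE, hF, hHh, ← sum_add_distrib, ← sum_sub_distrib, ← sum_sub_distrib]
    rw [hCd]
    unfold cta
    refine sum_congr rfl fun z _ => ?_
    rcases ha z with hz | hz
    · rw [hz]; ring
    · rw [hca z hz, hz]; ring
  -- the deviation inside an arbitrary subset
  have hdevS : ∀ z, a z = 1 → m * ia G w a z ≤ 4 * (m - oa G w a x z) * (ca G w a z + κ1) +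
      4 * E + 4 * (F * ((m - oa G w a x z) / m)) := by
    intro z _
    set S : V → ℝ := fun y => a y * (1 - ind (G.E z y x)) with hS
    have S0 : ∀ y, 0 ≤ S y := by
      intro y
      have := ind_le_one (G.E z y x)
      exact mul_nonneg (a_nonneg w a hw ha y) (by linarith)
    have Sle : ∀ y, S y ≤ a y := by
      intro y
      have h1 := ind_nonneg (G.E z y x)
      have h2 := a_nonneg w a hw ha y
      simp only [hS]
      nlinarith
    have h1 : ia G w a z ≤ 2 * ∑ y, w y * (S y * ∑ v, w v * ind (G.E z y v)) := by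
      have e1 : ∑ y, w y * (S y * ∑ v, w v * ind (G.E z y v)) =
          ∑ y, ∑ v, w y * w v * (S y * ind (G.E z y v)) := by
        refine sum_congr rfl fun y _ => ?_
        rw [mul_sum, mul_sum]
        refine sum_congr rfl fun v _ => ?_
        ring
      have e2 : ∑ y, w y * (S y * ∑ v, w v * ind (G.E z y v)) =
          ∑ y, ∑ v, w y * w v * (S v * ind (G.E z y v)) := by
        rw [e1, sum_comm]
        refine sum_congr rfl fun y _ => sum_congr rfl fun v _ => ?_
        rw [G.symm₂ z y v]; ring
      have e3 : 2 * ∑ y, w y * (S y * ∑ v, w v * ind (G.E z y v)) =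
          ∑ y, ∑ v, w y * w v * ((S y + S v) * ind (G.E z y v)) := by
        have : 2 * ∑ y, w y * (S y * ∑ v, w v * ind (G.E z y v)) =
            (∑ y, ∑ v, w y * w v * (S y * ind (G.E z y v))) +
            ∑ y, ∑ v, w y * w v * (S v * ind (G.E z y v)) := by rw [← e1, ← e2]; ring
        rw [this, ← sum_add_distrib]
        refine sum_congr rfl fun y _ => ?_
        rw [← sum_add_distrib]
        refine sum_congr rfl fun v _ => ?_
        ring
      rw [e3]
      unfold ia
      refine sum_le_sum fun y _ => sum_le_sum fun v _ => ?_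
      refine mul_le_mul_of_nonneg_left ?_ (mul_nonneg (hw y) (hw v))
      rcases ind_cases (G.E z y v) with ⟨h, h'⟩ | ⟨h, h'⟩
      · rw [h', mul_one, mul_one]
        rcases ha y with py | py
        · rw [py, zero_mul]
          have := S0 y
          have := S0 v
          linarith
        · rcases ha v with pv | pv
          · rw [pv, mul_zero]
            have := S0 y
            have := S0 v
            linarith
          · rw [py, pv]
            simp only [hS]
            rw [py, pv]
            rcases ind_cases (G.E z y x) with ⟨b, b'⟩ | ⟨b, b'⟩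
            · rcases ind_cases (G.E z v x) with ⟨d, d'⟩ | ⟨d, d'⟩
              · exact absurd ⟨h, b, d⟩ (G.free z y v x)
              · rw [b', d']; norm_num
            · rcases ind_cases (G.E z v x) with ⟨d, d'⟩ | ⟨d, d'⟩
              · rw [b', d']; norm_num
              · rw [b', d']; norm_num
      · rw [h', mul_zero, mul_zero]
    have e2 : m - oa G w a x z = ∑ y, w y * S y := by
      rw [hmd]
      unfold ma oa
      rw [← sum_sub_distrib]
      refine sum_congr rfl fun y _ => ?_
      simp only [hS]; ring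
    have h2 : m ^ 2 * ∑ y, w y * (S y * ∑ v, w v * ind (G.E z y v)) ≤
        2 * m * (m - oa G w a x z) * (ca G w a z + κ1) + 2 * m * E +
          2 * F * (m - oa G w a x z) := by
      have e1 : m ^ 2 * ∑ y, w y * (S y * ∑ v, w v * ind (G.E z y v)) =
          ∑ y, w y * (S y * (m ^ 2 * ∑ v, w v * ind (G.E z y v))) := by
        rw [mul_sum]
        refine sum_congr rfl fun y _ => ?_
        ring
      rw [e1, e2]
      have e3 : 2 * m * (∑ y, w y * S y) * (ca G w a z + κ1) + 2 * m * E +
          2 * F * (∑ y, w y * S y) =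
          ∑ y, w y * (S y * (2 * m * (ca G w a z + κ1) + 2 * F) + 2 * m * (a y * e y)) := by
        rw [hE, mul_sum, mul_sum, sum_mul, mul_sum, ← sum_add_distrib, ← sum_add_distrib]
        refine sum_congr rfl fun y _ => ?_
        ring
      rw [e3]
      refine sum_le_sum fun y _ => mul_le_mul_of_nonneg_left ?_ (hw y)
      have c1 := cod_le G w a hw ha hcnd hm z y
      rw [← hmd] at c1
      have c2 : S y * (m ^ 2 * ∑ v, w v * ind (G.E z y v)) ≤
          S y * (2 * m * ca G w a z + 2 * m * ca G w a y - 2 * cta G w a) :=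
        mul_le_mul_of_nonneg_left c1 (S0 y)
      rcases ha y with hy | hy
      · have : S y = 0 := by simp only [hS]; rw [hy, zero_mul]
        rw [this, hy]; simp
      · have c3 := hca y hy
        have c4 : m * ca G w a y - C ≤ m * e y + F + m * κ1 := by
          rw [c3, hCe]
          have := mul_nonneg hm.le (hf y)
          have := mul_nonneg hm.le (hh y)
          linarith
        have c5 : S y * (2 * m * ca G w a z + 2 * m * ca G w a y - 2 * cta G w a) ≤
            S y * (2 * m * ca G w a z + 2 * (m * e y + F + m * κ1)) :=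
          mul_le_mul_of_nonneg_left (by rw [← hCd]; linarith) (S0 y)
        have c6 : S y * (m * e y) ≤ a y * (m * e y) :=
          mul_le_mul_of_nonneg_right (Sle y) (mul_nonneg hm.le (he y))
        have c7 : S y * (2 * m * ca G w a z + 2 * (m * e y + F + m * κ1)) =
            S y * (2 * m * (ca G w a z + κ1) + 2 * F) + 2 * (S y * (m * e y)) := by ring
        have c8 : 2 * m * (a y * e y) = 2 * (a y * (m * e y)) := by ring
        linarith
    have h3 := mul_le_mul_of_nonneg_left h1 (sq_nonneg m)
    have h4 : m * (m * ia G w a z) ≤ m * (4 * (m - oa G w a x z) * (ca G w a z + κ1) +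
      4 * E + 4 * (F * ((m - oa G w a x z) / m))) := by
      have h5 : m * (4 * (m - oa G w a x z) * (ca G w a z + κ1) +
        4 * E + 4 * (F * ((m - oa G w a x z) / m))) =
        4 * m * (m - oa G w a x z) * (ca G w a z + κ1) + 4 * m * E +
        4 * F * (m - oa G w a x z) := by
        field_simp
      rw [h5]
      linarith
    exact le_of_mul_le_mul_left h4 hm
  have key : ∀ z, C * (a z * max (oa G w a x z - (3 / 4 + μ) * m) 0) ≤
      a z * (m * (1 / 4 * m * (f1 z + f z) + 5 / 4 * E + 1 / 4 * F)) := by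
    intro z
    have e' : C * (a z * max (oa G w a x z - (3 / 4 + μ) * m) 0) =
      a z * (C * max (oa G w a x z - (3 / 4 + μ) * m) 0) := by ring
    rw [e']
    rcases ha z with hz | hz
    · rw [hz, zero_mul, zero_mul]
    rw [hz, one_mul, one_mul]
    have n0 : 0 ≤ m * (1 / 4 * m * (f1 z + f z) + 5 / 4 * E + 1 / 4 * F) := by
      have a1 : 0 ≤ 1 / 4 * m * (f1 z + f z) :=
        mul_nonneg (by linarith) (add_nonneg (hf1 z) (hf z))
      exact mul_nonneg hm.le (by linarith)
    rcases le_total (oa G w a x z - (3 / 4 + μ) * m) 0 with hn | hn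
    · rw [max_eq_right hn, mul_zero]; exact n0
    · rw [max_eq_left hn]
      have μ0 : 0 ≤ μ * m ∨ μ * m ≤ 0 := le_total _ _
      set s := m - oa G w a x z with hs
      have s0 : 0 ≤ s := by
        have := oa_le G w a hw ha x z
        rw [hs]; linarith
      -- if `oa ≥ 3/4 m` everything works; otherwise `μ < 0`
      rcases le_total (3 / 4 * m) (oa G w a x z) with h34 | h34
      · have hs4 : s ≤ m / 4 := by rw [hs]; linarith
        have q1 := hdevS z hz
        have q2 := hb z hz
        have q3 : F * (s / m) ≤ F * (1 / 4) := by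
          refine mul_le_mul_of_nonneg_left ?_ F0
          rw [div_le_iff₀ hm]; linarith
        -- lower bound of `ca + κ1`
        have q4 : C ≤ m * (ca G w a z + κ1) + E + m * f z := by
          rw [hCe, hca z hz]
          have := mul_nonneg hm.le (he z)
          have := mul_le_mul_of_nonneg_left (hh1 z hz) hm.le
          linarith
        have q5 : (oa G w a x z - 3 / 4 * m) * (ca G w a z + κ1) ≤
            1 / 4 * m * (κ1 + κ2) + 1 / 4 * m * f1 z + E + 1 / 4 * F := by
          have r1 : (oa G w a x z - 3 / 4 * m) * (ca G w a z + κ1) =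
              1 / 4 * m * (ca G w a z + κ1) - s * (ca G w a z + κ1) := by rw [hs]; ring
          rw [r1]
          have r2 : m * ca G w a z ≤ m * ia G w a z + m * (f1 z + κ2) := by
            have := mul_le_mul_of_nonneg_left q2 hm.le
            linarith
          linarith
        have hY0 : 0 ≤ oa G w a x z - 3 / 4 * m := by linarith
        have hY1 : oa G w a x z - 3 / 4 * m ≤ m / 4 := by
          have := oa_le G w a hw ha x z
          linarith
        have q6 : (oa G w a x z - 3 / 4 * m) * C ≤
            (oa G w a x z - 3 / 4 * m) * (m * (ca G w a z + κ1) + E + m * f z) :=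
          mul_le_mul_of_nonneg_left q4 hY0
        have q7 : (oa G w a x z - 3 / 4 * m) * (E + m * f z) ≤ m / 4 * (E + m * f z) :=
          mul_le_mul_of_nonneg_right hY1 (by
            have := mul_nonneg hm.le (hf z)
            linarith)
        have q8 := mul_le_mul_of_nonneg_left q5 hm.le
        have q9 := mul_le_mul_of_nonneg_right hμ hm.le
        have q10 : C * (oa G w a x z - (3 / 4 + μ) * m) =
            (oa G w a x z - 3 / 4 * m) * C - μ * C * m := by ring
        rw [q10]
        have q11 : (oa G w a x z - 3 / 4 * m) * (m * (ca G w a z + κ1) + E + m * f z) =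
            m * ((oa G w a x z - 3 / 4 * m) * (ca G w a z + κ1)) +
            (oa G w a x z - 3 / 4 * m) * (E + m * f z) := by ring
        rw [q11] at q6
        linarith
      · -- then `oa - (3/4 + μ) m ≤ - μ m`, and `μ C ≥ (κ1 + κ2) m / 4`
        have q9 := mul_le_mul_of_nonneg_right hμ hm.le
        have q2 := hb z hz
        have q3 := ia_le_ca G w a hw ha z
        have p1 : C * (oa G w a x z - (3 / 4 + μ) * m) ≤ C * (-(μ * m)) :=
          mul_le_mul_of_nonneg_left (by linarith) hC.le
        have p2 : C * (-(μ * m)) = -(μ * C * m) := by ring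
        have p3 : 0 ≤ f1 z + κ2 := by linarith
        have p4 : 0 ≤ m * m * (f1 z + κ2) := mul_nonneg (mul_nonneg hm.le hm.le) p3
        have p5 : 0 ≤ m * m * κ1 := mul_nonneg (mul_nonneg hm.le hm.le) hκ1
        have p6 : 0 ≤ m * m * f z := mul_nonneg (mul_nonneg hm.le hm.le) (hf z)
        have p7 : 0 ≤ m * E := mul_nonneg hm.le E0
        have p8 : 0 ≤ m * F := mul_nonneg hm.le F0
        linarith
  rw [mul_sum]
  have h1 : ∑ z, C * (w z * (a z * max (oa G w a x z - (3 / 4 + μ) * m) 0)) ≤
      ∑ z, w z * (a z * (m * (1 / 4 * m * (f1 z + f z) + 5 / 4 * E + 1 / 4 * F))) := by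
    refine sum_le_sum fun z _ => ?_
    have e' : C * (w z * (a z * max (oa G w a x z - (3 / 4 + μ) * m) 0)) =
        w z * (C * (a z * max (oa G w a x z - (3 / 4 + μ) * m) 0)) := by ring
    rw [e']
    exact mul_le_mul_of_nonneg_left (key z) (hw z)
  refine h1.trans (le_of_eq ?_)
  have h2 : ∑ z, w z * (a z * (m * (1 / 4 * m * (f1 z + f z) + 5 / 4 * E + 1 / 4 * F))) =
      1 / 4 * m ^ 2 * ((∑ z, w z * (a z * f1 z)) + ∑ z, w z * (a z * f z)) +
      m * (5 / 4 * E + 1 / 4 * F) * ∑ z, w z * a z := by
    have h3 : F1 + F = ∑ z, w z * (a z * (f1 z + f z)) := by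
      rw [hF, hF1, ← sum_add_distrib]
      refine sum_congr rfl fun z _ => ?_
      ring
    rw [h3]
    have h4 : 1 / 4 * m ^ 2 * (∑ z, w z * (a z * (f1 z + f z))) =
        ∑ z, 1 / 4 * m ^ 2 * (w z * (a z * (f1 z + f z))) := mul_sum _ _ _
    have h5 : m * (5 / 4 * E + 1 / 4 * F) * ∑ z, w z * a z =
        ∑ z, m * (5 / 4 * E + 1 / 4 * F) * (w z * a z) := mul_sum _ _ _
    rw [h4, h5, ← sum_add_distrib]
    refine sum_congr rfl fun z _ => ?_
    ring
  rw [h2]
  have e5 : ∑ z, w z * a z = m := rfl
  rw [e5]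
  ring

end OwnAvg

end K4m
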