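import Mathlib

/-!
# Weighted `K_4^-`-free 3-graphs: basic definitions

`TG V` : `K_4^-`-free 3-graphs on `V` (symmetric Boolean relation).  `val G w` : homomorphism
density of an edge under the weights `w`.  `rho` : supremum of `val` over all finite `K_4^-`-free
3-graphs and all probability weights (this is the Turan density of `K_4^-`).
`Ex G w h` : expectation of `h` of the 3-graph pulled back along a random map `Fin 7 → V`.
-/

set_option autoImplicit false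

namespace K4m

/-- A `K_4^-`-free 3-graph on the vertex set `V`, as a symmetric Boolean relation. -/
structure TG (V : Type) where
  E : V → V → V → Bool
  symm₁ : ∀ x y z, E y x z = E x y z
  symm₂ : ∀ x y z, E x z y = E x y z
  irr : ∀ x z, E x x z = false
  free : ∀ a b c d, ¬ (E a b c = true ∧ E a b d = true ∧ E a c d = true)

/-- Pull-back along an arbitrary map (relabelling, induced subgraph, blow-up). -/
def TG.pull {V W : Type} (G : TG V) (φ : W → V) : TG W where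
  E i j k := G.E (φ i) (φ j) (φ k)
  symm₁ _ _ _ := G.symm₁ _ _ _
  symm₂ _ _ _ := G.symm₂ _ _ _
  irr _ _ := G.irr _ _
  free _ _ _ _ := G.free _ _ _ _

/-- indicator -/
def ind (b : Bool) : ℝ := if b = true then 1 else 0

/-- probability weights -/
structure IsW {V : Type} [Fintype V] (w : V → ℝ) : Prop where
  nonneg : ∀ x, 0 ≤ w x
  sum_eq : ∑ x, w x = 1

/-- edge density under the weights `w` -/
noncomputable def val {V : Type} [Fintype V] (G : TG V) (w : V → ℝ) : ℝ :=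
  ∑ x, ∑ y, ∑ z, w x * w y * w z * ind (G.E x y z)

/-- degree of `x` under the weights `w` -/
noncomputable def deg {V : Type} [Fintype V] (G : TG V) (w : V → ℝ) (x : V) : ℝ :=
  ∑ y, ∑ z, w y * w z * ind (G.E x y z)

/-- the Turan density of `K_4^-`, as a supremum over weighted 3-graphs -/
noncomputable def rho : ℝ :=
  sSup {t : ℝ | ∃ (n : ℕ) (G : TG (Fin n)) (w : Fin n → ℝ), IsW w ∧ t = val G w}

/-- expectation of a function of the random pulled-back 3-graph on `Fin 7` -/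
noncomputable def Ex {V : Type} [Fintype V] (G : TG V) (w : V → ℝ) (h : TG (Fin 7) → ℝ) : ℝ :=
  ∑ φ : Fin 7 → V, (∏ i, w (φ i)) * h (G.pull φ)

/-- binary number with the given bits, least significant first -/
def bits : List Bool → ℕ
  | [] => 0
  | b :: l => b.toNat + 2 * bits l

/-- colexicographic code (10 bits) of a 3-graph on 5 vertices:
bit `C(k,3)+C(j,2)+i` is the triple `i<j<k` -/
def code5 (H : TG (Fin 5)) : ℕ :=
  bits [H.E 0 1 2, H.E 0 1 3, H.E 0 2 3, H.E 1 2 3,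
    H.E 0 1 4, H.E 0 2 4, H.E 1 2 4, H.E 0 3 4, H.E 1 3 4, H.E 2 3 4]

/-- 20 bits -/
def code6 (H : TG (Fin 6)) : ℕ :=
  bits [H.E 0 1 2, H.E 0 1 3, H.E 0 2 3, H.E 1 2 3,
    H.E 0 1 4, H.E 0 2 4, H.E 1 2 4, H.E 0 3 4, H.E 1 3 4, H.E 2 3 4,
    H.E 0 1 5, H.E 0 2 5, H.E 1 2 5, H.E 0 3 5, H.E 1 3 5, H.E 2 3 5,
    H.E 0 4 5, H.E 1 4 5, H.E 2 4 5, H.E 3 4 5]

/-- 35 bits -/
def code7 (H : TG (Fin 7)) : ℕ :=
  bits [H.E 0 1 2, H.E 0 1 3, H.E 0 2 3, H.E 1 2 3,
    H.E 0 1 4, H.E 0 2 4, H.E 1 2 4, H.E 0 3 4, H.E 1 3 4, H.E 2 3 4,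
    H.E 0 1 5, H.E 0 2 5, H.E 1 2 5, H.E 0 3 5, H.E 1 3 5, H.E 2 3 5,
    H.E 0 4 5, H.E 1 4 5, H.E 2 4 5, H.E 3 4 5,
    H.E 0 1 6, H.E 0 2 6, H.E 1 2 6, H.E 0 3 6, H.E 1 3 6, H.E 2 3 6,
    H.E 0 4 6, H.E 1 4 6, H.E 2 4 6, H.E 3 4 6,
    H.E 0 5 6, H.E 1 5 6, H.E 2 5 6, H.E 3 5 6, H.E 4 5 6]

end K4m
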