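import Mathlib
import Pool.Agent.Lib.MP_392c14_co.Defs

set_option autoImplicit false

namespace K4m

theorem ind_nonneg (b : Bool) : 0 ≤ ind b := by
  unfold ind; split_ifs <;> norm_num

theorem ind_le_one (b : Bool) : ind b ≤ 1 := by
  unfold ind; split_ifs <;> norm_num

theorem val_nonneg_of {V : Type} [Fintype V] (G : TG V) (w : V → ℝ) (hw : ∀ x, 0 ≤ w x) :
    0 ≤ val G w := by
  unfold val
  exact Finset.sum_nonneg fun x _ => Finset.sum_nonneg fun y _ => Finset.sum_nonneg fun z _ =>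
    mul_nonneg (mul_nonneg (mul_nonneg (hw x) (hw y)) (hw z)) (ind_nonneg _)

theorem val_le_cube {V : Type} [Fintype V] (G : TG V) (w : V → ℝ) (hw : ∀ x, 0 ≤ w x) :
    val G w ≤ (∑ x, w x) ^ 3 := by
  have h1 : val G w ≤ ∑ x, ∑ y, ∑ z, w x * w y * w z := by
    unfold val
    refine Finset.sum_le_sum fun x _ => Finset.sum_le_sum fun y _ => Finset.sum_le_sum fun z _ => ?_
    have := mul_nonneg (mul_nonneg (hw x) (hw y)) (hw z)
    calc w x * w y * w z * ind (G.E x y z) ≤ w x * w y * w z * 1 :=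
          mul_le_mul_of_nonneg_left (ind_le_one _) this
      _ = _ := mul_one _
  have h2 : ∑ x, ∑ y, ∑ z, w x * w y * w z = (∑ x, w x) ^ 3 := by
    have : (∑ x, w x) ^ 3 = (∑ x, w x) * (∑ x, w x) * (∑ x, w x) := by ring
    rw [this, Finset.sum_mul_sum, Finset.sum_mul]
    refine Finset.sum_congr rfl fun x _ => ?_
    rw [Finset.sum_mul]
    refine Finset.sum_congr rfl fun y _ => ?_
    rw [Finset.mul_sum]
  rw [← h2]; exact h1

theorem rho_bdd : BddAbove {t : ℝ | ∃ (n : ℕ) (G : TG (Fin n)) (w : Fin n → ℝ),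
    IsW w ∧ t = val G w} := by
  refine ⟨1, ?_⟩
  rintro t ⟨n, G, w, hw, rfl⟩
  have := val_le_cube G w hw.nonneg
  rw [hw.sum_eq] at this
  simpa using this

theorem rho_le_one : rho ≤ 1 := by
  unfold rho
  refine Real.sSup_le ?_ zero_le_one
  rintro t ⟨n, G, w, hw, rfl⟩
  have := val_le_cube G w hw.nonneg
  rw [hw.sum_eq] at this
  simpa using this

theorem val_le_rho {V : Type} [Fintype V] (G : TG V) (w : V → ℝ) (hw : IsW w) :
    val G w ≤ rho := by
  classical
  unfold rho
  let e := (Fintype.equivFin V).symm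
  have hval : val G w = val (G.pull e) (fun i => w (e i)) := by
    unfold val
    rw [← Equiv.sum_comp e]
    refine Finset.sum_congr rfl fun x _ => ?_
    rw [← Equiv.sum_comp e]
    refine Finset.sum_congr rfl fun y _ => ?_
    rw [← Equiv.sum_comp e]
    rfl
  refine le_csSup rho_bdd ⟨_, G.pull e, fun i => w (e i), ⟨fun i => hw.nonneg _, ?_⟩, hval⟩
  rw [Equiv.sum_comp e w]
  exact hw.sum_eq

/-- the recursion inequality (homogeneous form) -/
theorem val_le_rho_hom {V : Type} [Fintype V] (G : TG V) (w : V → ℝ) (hw : ∀ x, 0 ≤ w x) :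
    val G w ≤ rho * (∑ x, w x) ^ 3 := by
  classical
  by_cases h0 : ∑ x, w x = 0
  · have := val_le_cube G w hw
    rw [h0] at this ⊢
    simpa using this
  · have hpos : 0 < ∑ x, w x :=
      lt_of_le_of_ne (Finset.sum_nonneg fun x _ => hw x) (Ne.symm h0)
    set s := ∑ x, w x with hs
    have hW : IsW (fun x => w x / s) := by
      refine ⟨fun x => div_nonneg (hw x) hpos.le, ?_⟩
      rw [← Finset.sum_div, ← hs, div_self h0]
    have hv := val_le_rho G _ hW
    have hscale : val G (fun x => w x / s) = val G w / s ^ 3 := by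
      unfold val
      rw [Finset.sum_div]
      refine Finset.sum_congr rfl fun x _ => ?_
      rw [Finset.sum_div]
      refine Finset.sum_congr rfl fun y _ => ?_
      rw [Finset.sum_div]
      refine Finset.sum_congr rfl fun z _ => ?_
      field_simp
    rw [hscale, div_le_iff₀ (pow_pos hpos 3)] at hv
    exact hv

/-! ### nested sums -/

theorem sumS {V : Type} [Fintype V] {n : ℕ} (F : (Fin (n + 1) → V) → ℝ) :
    ∑ φ : Fin (n + 1) → V, F φ = ∑ x, ∑ ψ : Fin n → V, F (Matrix.vecCons x ψ) := by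
  rw [← Equiv.sum_comp (Fin.consEquiv (fun _ : Fin (n + 1) => V)) F, Fintype.sum_prod_type]
  rfl

theorem sum7 {V : Type} [Fintype V] (F : (Fin 7 → V) → ℝ) :
    ∑ φ : Fin 7 → V, F φ
      = ∑ a, ∑ b, ∑ c, ∑ d, ∑ e, ∑ f, ∑ g, F ![a, b, c, d, e, f, g] := by
  simp only [sumS]
  refine Finset.sum_congr rfl fun a _ => Finset.sum_congr rfl fun b _ =>
    Finset.sum_congr rfl fun c _ => Finset.sum_congr rfl fun d _ =>
    Finset.sum_congr rfl fun e _ => Finset.sum_congr rfl fun f _ =>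
    Finset.sum_congr rfl fun g _ => ?_
  rw [Fintype.sum_unique]
  congr 1

theorem Ex_eq {V : Type} [Fintype V] (G : TG V) (w : V → ℝ) (h : TG (Fin 7) → ℝ) :
    Ex G w h = ∑ a, ∑ b, ∑ c, ∑ d, ∑ e, ∑ f, ∑ g,
      w a * w b * w c * w d * w e * w f * w g * h (G.pull ![a, b, c, d, e, f, g]) := by
  unfold Ex
  rw [sum7]
  refine Finset.sum_congr rfl fun a _ => Finset.sum_congr rfl fun b _ =>
    Finset.sum_congr rfl fun c _ => Finset.sum_congr rfl fun d _ =>
    Finset.sum_congr rfl fun e _ => Finset.sum_congr rfl fun f _ =>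
    Finset.sum_congr rfl fun g _ => ?_
  rw [Fin.prod_univ_seven]
  rfl

theorem pull_pull {U V W : Type} (G : TG V) (φ : W → V) (ψ : U → W) :
    (G.pull φ).pull ψ = G.pull (φ ∘ ψ) := rfl

theorem Ex_edge {V : Type} [Fintype V] (G : TG V) (w : V → ℝ) (hw : IsW w) :
    Ex G w (fun H => ind (H.E 0 1 2)) = val G w := by
  rw [Ex_eq]
  unfold val
  refine Finset.sum_congr rfl fun a _ => Finset.sum_congr rfl fun b _ =>
    Finset.sum_congr rfl fun c _ => ?_
  have h : ∀ d e f g, w a * w b * w c * w d * w e * w f * w g *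
      ind ((G.pull ![a, b, c, d, e, f, g]).E 0 1 2)
      = (w a * w b * w c * ind (G.E a b c)) * (w d * (w e * (w f * w g))) := by
    intro d e f g
    have : (G.pull ![a, b, c, d, e, f, g]).E 0 1 2 = G.E a b c := rfl
    rw [this]; ring
  simp only [h, ← Finset.mul_sum]
  rw [hw.sum_eq]
  simp only [mul_one, hw.sum_eq]

theorem Ex_sos5 {V : Type} [Fintype V] (G : TG V) (w : V → ℝ) (hw : IsW w)
    (F : TG (Fin 6) → ℝ) :
    0 ≤ Ex G w (fun H => F (H.pull ![0,1,2,3,4,5]) * F (H.pull ![0,1,2,3,4,6])) := by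
  rw [Ex_eq]
  refine Finset.sum_nonneg fun a _ => Finset.sum_nonneg fun b _ =>
    Finset.sum_nonneg fun c _ => Finset.sum_nonneg fun d _ => Finset.sum_nonneg fun e _ => ?_
  have h : ∀ f g, w a * w b * w c * w d * w e * w f * w g *
      (F ((G.pull ![a, b, c, d, e, f, g]).pull ![0,1,2,3,4,5]) *
        F ((G.pull ![a, b, c, d, e, f, g]).pull ![0,1,2,3,4,6]))
      = (w a * w b * w c * w d * w e) *
        ((w f * F (G.pull ![a, b, c, d, e, f])) * (w g * F (G.pull ![a, b, c, d, e, g]))) := by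
    intro f g
    have h1 : (G.pull ![a, b, c, d, e, f, g]).pull ![0,1,2,3,4,5]
        = G.pull ![a, b, c, d, e, f] := by
      rw [pull_pull]; congr 1; funext i; fin_cases i <;> rfl
    have h2 : (G.pull ![a, b, c, d, e, f, g]).pull ![0,1,2,3,4,6]
        = G.pull ![a, b, c, d, e, g] := by
      rw [pull_pull]; congr 1; funext i; fin_cases i <;> rfl
    rw [h1, h2]; ring
  simp only [h, ← Finset.mul_sum]
  rw [← Finset.sum_mul]
  have hn := hw.nonneg
  exact mul_nonneg (mul_nonneg (mul_nonneg (mul_nonneg (mul_nonneg (hn a) (hn b)) (hn c)) (hn d))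
    (hn e)) (mul_self_nonneg _)

theorem Ex_sos3 {V : Type} [Fintype V] (G : TG V) (w : V → ℝ) (hw : IsW w)
    (F : TG (Fin 5) → ℝ) :
    0 ≤ Ex G w (fun H => F (H.pull ![0,1,2,3,4]) * F (H.pull ![0,1,2,5,6])) := by
  rw [Ex_eq]
  refine Finset.sum_nonneg fun a _ => Finset.sum_nonneg fun b _ =>
    Finset.sum_nonneg fun c _ => ?_
  have h : ∀ d e f g, w a * w b * w c * w d * w e * w f * w g *
      (F ((G.pull ![a, b, c, d, e, f, g]).pull ![0,1,2,3,4]) *
        F ((G.pull ![a, b, c, d, e, f, g]).pull ![0,1,2,5,6]))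
      = (w a * w b * w c) * ((w d * w e * F (G.pull ![a, b, c, d, e])) *
        (w f * w g * F (G.pull ![a, b, c, f, g]))) := by
    intro d e f g
    have h1 : (G.pull ![a, b, c, d, e, f, g]).pull ![0,1,2,3,4]
        = G.pull ![a, b, c, d, e] := by
      rw [pull_pull]; congr 1; funext i; fin_cases i <;> rfl
    have h2 : (G.pull ![a, b, c, d, e, f, g]).pull ![0,1,2,5,6]
        = G.pull ![a, b, c, f, g] := by
      rw [pull_pull]; congr 1; funext i; fin_cases i <;> rfl
    rw [h1, h2]; ring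
  simp only [h, ← Finset.mul_sum]
  simp only [← Finset.sum_mul]
  have hn := hw.nonneg
  exact mul_nonneg (mul_nonneg (mul_nonneg (hn a) (hn b)) (hn c)) (mul_self_nonneg _)

theorem Ex_cut {V : Type} [Fintype V] (G : TG V) (w : V → ℝ) (hw : IsW w)
    (U : TG (Fin 5) → ℝ) (hU : ∀ H, 0 ≤ U H) :
    0 ≤ Ex G w (fun H => U (H.pull ![0,1,2,3,4]) * U (H.pull ![0,1,2,3,5]) *
      U (H.pull ![0,1,2,3,6]) * (rho - ind (H.E 4 5 6))) := by
  rw [Ex_eq]
  refine Finset.sum_nonneg fun a _ => Finset.sum_nonneg fun b _ =>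
    Finset.sum_nonneg fun c _ => Finset.sum_nonneg fun d _ => ?_
  have hn := hw.nonneg
  set u : V → ℝ := fun x => w x * U (G.pull ![a, b, c, d, x]) with hu
  have h : ∀ e f g, w a * w b * w c * w d * w e * w f * w g *
      (U ((G.pull ![a, b, c, d, e, f, g]).pull ![0,1,2,3,4]) *
        U ((G.pull ![a, b, c, d, e, f, g]).pull ![0,1,2,3,5]) *
        U ((G.pull ![a, b, c, d, e, f, g]).pull ![0,1,2,3,6]) *
        (rho - ind ((G.pull ![a, b, c, d, e, f, g]).E 4 5 6)))
      = (w a * w b * w c * w d) * (rho * (u e * u f * u g) - u e * u f * u g * ind (G.E e f g)) := by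
    intro e f g
    have h1 : (G.pull ![a, b, c, d, e, f, g]).pull ![0,1,2,3,4]
        = G.pull ![a, b, c, d, e] := by
      rw [pull_pull]; congr 1; funext i; fin_cases i <;> rfl
    have h2 : (G.pull ![a, b, c, d, e, f, g]).pull ![0,1,2,3,5]
        = G.pull ![a, b, c, d, f] := by
      rw [pull_pull]; congr 1; funext i; fin_cases i <;> rfl
    have h3 : (G.pull ![a, b, c, d, e, f, g]).pull ![0,1,2,3,6]
        = G.pull ![a, b, c, d, g] := by
      rw [pull_pull]; congr 1; funext i; fin_cases i <;> rfl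
    have h4 : (G.pull ![a, b, c, d, e, f, g]).E 4 5 6 = G.E e f g := rfl
    rw [h1, h2, h3, h4, hu]; ring
  simp only [h, ← Finset.mul_sum]
  refine mul_nonneg (mul_nonneg (mul_nonneg (mul_nonneg (hn a) (hn b)) (hn c)) (hn d)) ?_
  simp only [Finset.sum_sub_distrib]
  have hu0 : ∀ x, 0 ≤ u x := fun x => mul_nonneg (hn x) (hU _)
  have hv := val_le_rho_hom G u hu0
  have h5 : ∑ x, ∑ y, ∑ z, rho * (u x * u y * u z) = rho * (∑ x, u x) ^ 3 := by
    have h2 : ∑ x, ∑ y, ∑ z, u x * u y * u z = (∑ x, u x) ^ 3 := by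
      have : (∑ x, u x) ^ 3 = (∑ x, u x) * (∑ x, u x) * (∑ x, u x) := by ring
      rw [this, Finset.sum_mul_sum, Finset.sum_mul]
      refine Finset.sum_congr rfl fun x _ => ?_
      rw [Finset.sum_mul]
      refine Finset.sum_congr rfl fun y _ => ?_
      rw [Finset.mul_sum]
    rw [← h2]
    simp only [Finset.mul_sum]
  rw [h5]
  have h6 : ∑ x, ∑ y, ∑ z, u x * u y * u z * ind (G.E x y z) = val G u := rfl
  rw [h6]
  linarith

theorem Ex_deg {V : Type} [Fintype V] (G : TG V) (w : V → ℝ) (hw : IsW w) (t : ℝ)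
    (hd : ∀ x, deg G w x = t) (F : TG (Fin 5) → ℝ) :
    Ex G w (fun H => F (H.pull ![0,1,2,3,4]) * (ind (H.E 0 5 6) - t)) = 0 := by
  rw [Ex_eq]
  refine Finset.sum_eq_zero fun a _ => Finset.sum_eq_zero fun b _ =>
    Finset.sum_eq_zero fun c _ => Finset.sum_eq_zero fun d _ => Finset.sum_eq_zero fun e _ => ?_
  have h : ∀ f g, w a * w b * w c * w d * w e * w f * w g *
      (F ((G.pull ![a, b, c, d, e, f, g]).pull ![0,1,2,3,4]) *
        (ind ((G.pull ![a, b, c, d, e, f, g]).E 0 5 6) - t))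
      = (w a * w b * w c * w d * w e * F (G.pull ![a, b, c, d, e])) *
        (w f * w g * ind (G.E a f g) - t * (w f * w g)) := by
    intro f g
    have h1 : (G.pull ![a, b, c, d, e, f, g]).pull ![0,1,2,3,4]
        = G.pull ![a, b, c, d, e] := by
      rw [pull_pull]; congr 1; funext i; fin_cases i <;> rfl
    have h4 : (G.pull ![a, b, c, d, e, f, g]).E 0 5 6 = G.E a f g := rfl
    rw [h1, h4]; ring
  simp only [h, ← Finset.mul_sum]
  have h2 : ∑ f, ∑ g, (w f * w g * ind (G.E a f g) - t * (w f * w g)) = 0 := by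
    simp only [Finset.sum_sub_distrib, ← Finset.mul_sum]
    have h3 : ∑ f, ∑ g, w f * w g * ind (G.E a f g) = t := hd a
    rw [h3]
    simp [hw.sum_eq]
  rw [h2, mul_zero]

end K4m
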