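import Mathlib
import Pool.Agent.Lib.MP_392c14_co.Sem1
import Pool.Agent.Lib.MP_392c14_co.EndGame
import Pool.Agent.Lib.MP_392c14_co.OwnAvg

/-!
# Link exchange

A valid link `M` of a `K_4^-`-free 3-graph `G` (adding a vertex with link `M` keeps the graph
`K_4^-`-free) has measure at most `rho + O(sqrt (rho - val))`.  The mixed link of two vertices
`x, z` (the link of `x` inside `S`, the link of `z` outside `S`, the intersection across) is
valid, which compares the inner link densities of `x` and `z`.
-/

set_option autoImplicit false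

namespace K4m

open Finset

section Link

variable {V : Type} (G : TG V)

/-- `M` can be the link of a new vertex -/
structure IsLink (M : V → V → Bool) : Prop where
  symm : ∀ x y, M y x = M x y
  irr : ∀ x, M x x = false
  tri : ∀ a b c, ¬ (M a b = true ∧ M a c = true ∧ M b c = true)
  edge : ∀ a b c, ¬ (G.E a b c = true ∧ M a b = true ∧ M a c = true)

/-- the edge relation after adding a vertex with link `M` -/
def extE (M : V → V → Bool) : Option V → Option V → Option V → Bool
  | some x, some y, some z => G.E x y z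
  | none, some y, some z => M y z
  | some x, none, some z => M x z
  | some x, some y, none => M x y
  | _, _, _ => false

variable {G}

/-- adding a vertex with link `M` -/
def TG.ext {M : V → V → Bool} (h : IsLink G M) : TG (Option V) where
  E := extE G M
  symm₁ x y z := by
    rcases x with _ | x <;> rcases y with _ | y <;> rcases z with _ | z <;> simp only [extE]
    all_goals first
      | exact G.symm₁ _ _ _
      | exact h.symm _ _
  symm₂ x y z := by
    rcases x with _ | x <;> rcases y with _ | y <;> rcases z with _ | z <;> simp only [extE]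
    all_goals first
      | exact G.symm₂ _ _ _
      | exact h.symm _ _
  irr x z := by
    rcases x with _ | x <;> rcases z with _ | z <;> simp only [extE]
    all_goals first
      | exact G.irr _ _
      | exact h.irr _
  free a b c d := by
    rcases a with _ | a <;> rcases b with _ | b <;> rcases c with _ | c <;> rcases d with _ | d <;>
      simp only [extE] <;> try (intro h1; simp at h1)
    · exact h.tri b c d
    · rintro ⟨h1, h2, h3⟩
      exact h.edge a c d ⟨h3, h1, h2⟩
    · rintro ⟨h1, h2, h3⟩
      exact h.edge a b d ⟨h2, h1, h3⟩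
    · rintro ⟨h1, h2, h3⟩
      exact h.edge a b c ⟨h1, h2, h3⟩
    · exact G.free a b c d

end Link

section Val

variable {V : Type} [Fintype V] (G : TG V) (w : V → ℝ)

/-- the measure of a link -/
noncomputable def lkM (M : V → V → Bool) : ℝ := ∑ y, ∑ v, w y * w v * ind (M y v)

theorem val_ext {M : V → V → Bool} (h : IsLink G M) (s : ℝ) :
    val (TG.ext h) (fun o => o.elim s w) = val G w + 3 * s * lkM w M := by
  unfold val lkM
  simp only [Fintype.sum_option, Option.elim]
  have e1 : ∀ x y z : V, (TG.ext h).E (some x) (some y) (some z) = G.E x y z := fun _ _ _ => rfl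
  have e2 : ∀ y z : V, (TG.ext h).E none (some y) (some z) = M y z := fun _ _ => rfl
  have e3 : ∀ y z : V, (TG.ext h).E (some y) none (some z) = M y z := fun _ _ => rfl
  have e4 : ∀ y z : V, (TG.ext h).E (some y) (some z) none = M y z := fun _ _ => rfl
  have e5 : ∀ y : V, (TG.ext h).E none none (some y) = false := fun _ => rfl
  have e6 : ∀ y : V, (TG.ext h).E none (some y) none = false := fun _ => rfl
  have e7 : ∀ y : V, (TG.ext h).E (some y) none none = false := fun _ => rfl
  have e8 : (TG.ext h).E none none none = false := rfl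
  simp only [e1, e2, e3, e4, e5, e6, e7, e8, ind_false, mul_zero, sum_const_zero, zero_add,
    add_zero, sum_add_distrib]
  have f1 : ∑ x, ∑ y, s * w x * w y * ind (M x y) = s * ∑ x, ∑ y, w x * w y * ind (M x y) := by
    simp only [mul_sum]
    refine sum_congr rfl fun x _ => sum_congr rfl fun y _ => ?_
    ring
  have f2 : ∑ x, ∑ y, w x * s * w y * ind (M x y) = s * ∑ x, ∑ y, w x * w y * ind (M x y) := by
    simp only [mul_sum]
    refine sum_congr rfl fun x _ => sum_congr rfl fun y _ => ?_
    ring
  have f3 : ∑ x, ∑ y, w x * w y * s * ind (M x y) = s * ∑ x, ∑ y, w x * w y * ind (M x y) := by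
    simp only [mul_sum]
    refine sum_congr rfl fun x _ => sum_congr rfl fun y _ => ?_
    ring
  rw [f1, f2, f3]
  ring

/-- a valid link has measure at most `rho + d` when `rho - d ^ 2 ≤ val` -/
theorem link_le {M : V → V → Bool} (h : IsLink G M) (hw : IsW w) (d : ℝ) (h0 : 0 < d)
    (h1 : d ≤ 1) (hval : rho - d ^ 2 ≤ val G w) : lkM w M ≤ rho + d := by
  have h2 := val_le_rho_hom (TG.ext h) (fun o => o.elim d w) (by
    intro o
    rcases o with _ | x
    · exact h0.le
    · exact hw.nonneg x)
  rw [val_ext] at h2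
  have h3 : ∑ o : Option V, o.elim d w = d + 1 := by
    rw [Fintype.sum_option]
    simp only [Option.elim]
    rw [hw.sum_eq]
  rw [h3] at h2
  have r1 := rho_le_third
  have r0 := two_sevenths_le_rho
  have h4 : 3 * d * lkM w M ≤ 3 * d * (rho + d) := by
    have e : rho * (d + 1) ^ 3 = rho + 3 * d * rho + rho * (3 * d ^ 2 + d ^ 3) := by ring
    have e2 : rho * (3 * d ^ 2 + d ^ 3) ≤ 1 / 3 * (3 * d ^ 2 + d ^ 2) := by
      have : d ^ 3 ≤ d ^ 2 := by
        have : d ^ 3 = d ^ 2 * d := by ring
        rw [this]; exact mul_le_of_le_one_right (sq_nonneg d) h1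
      have h5 : 0 ≤ 3 * d ^ 2 + d ^ 3 := by positivity
      calc rho * (3 * d ^ 2 + d ^ 3) ≤ 1 / 3 * (3 * d ^ 2 + d ^ 3) :=
            mul_le_mul_of_nonneg_right r1 h5
        _ ≤ 1 / 3 * (3 * d ^ 2 + d ^ 2) := by linarith
    rw [e] at h2
    nlinarith
  exact le_of_mul_le_mul_left h4 (by linarith)

/-- the mixed link: link of `x` inside `S`, link of `z` outside, intersection across -/
def mixL (S : V → Bool) (x z : V) (y v : V) : Bool :=
  if S y = S v then (if S y = true then G.E x y v else G.E z y v) else (G.E x y v && G.E z y v)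

theorem le_rot (x y v : V) : G.E y v x = G.E x y v := by
  rw [G.symm₂ y x v, G.symm₁ x y v]

theorem E_irr (x y : V) : G.E x y y = false := by
  have h := G.irr y x
  rw [le_rot G x y y] at h
  exact h

theorem free1 (x a b c : V) : ¬ (G.E a b c = true ∧ G.E x a b = true ∧ G.E x a c = true) := by
  rintro ⟨h1, h2, h3⟩
  refine G.free a b c x ⟨h1, ?_, ?_⟩
  · rw [le_rot]; exact h2
  · rw [le_rot]; exact h3

theorem isLink_mix (S : V → Bool) (x z : V) : IsLink G (mixL G S x z) where
  symm y v := by
    unfold mixL
    rw [G.symm₂ x y v, G.symm₂ z y v]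
    by_cases h : S y = S v
    · rw [if_pos h, if_pos h.symm, h]
    · rw [if_neg h, if_neg (Ne.symm h)]
  irr y := by
    unfold mixL
    rw [E_irr, E_irr]
    simp
  tri a b c := by
    unfold mixL
    rintro ⟨h1, h2, h3⟩
    rcases ha : S a <;> rcases hb : S b <;> rcases hc : S c <;>
      simp only [ha, hb, hc, if_true, if_false, Bool.and_eq_true, reduceCtorEq,
        Bool.false_eq_true] at h1 h2 h3
    · exact G.free z a b c ⟨h1, h2, h3⟩
    · exact G.free z a b c ⟨h1, h2.2, h3.2⟩
    · exact G.free z a b c ⟨h1.2, h2, h3.2⟩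
    · exact G.free x a b c ⟨h1.1, h2.1, h3⟩
    · exact G.free z a b c ⟨h1.2, h2.2, h3⟩
    · exact G.free x a b c ⟨h1.1, h2, h3.1⟩
    · exact G.free x a b c ⟨h1, h2.1, h3.1⟩
    · exact G.free x a b c ⟨h1, h2, h3⟩
  edge a b c := by
    unfold mixL
    rintro ⟨h1, h2, h3⟩
    rcases ha : S a <;> rcases hb : S b <;> rcases hc : S c <;>
      simp only [ha, hb, hc, if_true, if_false, Bool.and_eq_true, reduceCtorEq,
        Bool.false_eq_true] at h2 h3
    · exact free1 G z a b c ⟨h1, h2, h3⟩
    · exact free1 G z a b c ⟨h1, h2, h3.2⟩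
    · exact free1 G z a b c ⟨h1, h2.2, h3⟩
    · exact free1 G z a b c ⟨h1, h2.2, h3.2⟩
    · exact free1 G x a b c ⟨h1, h2.1, h3.1⟩
    · exact free1 G x a b c ⟨h1, h2.1, h3⟩
    · exact free1 G x a b c ⟨h1, h2, h3.1⟩
    · exact free1 G x a b c ⟨h1, h2, h3⟩

/-- LINK EXCHANGE: the inner link density of an arbitrary vertex `x` in the set `S` is at most
that of any vertex `z`, up to the part of the link of `z` across -/
theorem link_exchange (hw : IsW w) (S : V → Bool) (x z : V) (d : ℝ) (h0 : 0 < d) (h1 : d ≤ 1)
    (hval : rho - d ^ 2 ≤ val G w) (hdeg : deg G w z = val G w) :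
    ia G w (fun y => ind (S y)) x ≤
      2 * ca G w (fun y => ind (S y)) z - ia G w (fun y => ind (S y)) z + d + d ^ 2 := by
  have h2 := link_le G w (isLink_mix G S x z) hw d h0 h1 hval
  have h3 : ia G w (fun y => ind (S y)) x + (deg G w z -
      (2 * ca G w (fun y => ind (S y)) z - ia G w (fun y => ind (S y)) z)) ≤
      lkM w (mixL G S x z) := by
    have hca : ca G w (fun y => ind (S y)) z = ∑ y, ∑ v, w y * w v * (ind (S v) *
        ind (G.E z y v)) := by
      unfold ca
      rw [sum_comm]
      refine sum_congr rfl fun y _ => sum_congr rfl fun v _ => ?_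
      rw [G.symm₂ z y v]
      ring
    have h2ca : 2 * ca G w (fun y => ind (S y)) z = ∑ y, ∑ v, w y * w v * (ind (S y) *
        ind (G.E z y v)) + ∑ y, ∑ v, w y * w v * (ind (S v) * ind (G.E z y v)) := by
      rw [← hca]
      have : ca G w (fun y => ind (S y)) z = ∑ y, ∑ v, w y * w v * (ind (S y) *
        ind (G.E z y v)) := rfl
      rw [← this]; ring
    rw [h2ca]
    unfold lkM ia deg
    rw [← sub_nonneg]
    simp only [← sum_add_distrib, ← sum_sub_distrib]
    refine sum_nonneg fun y _ => sum_nonneg fun v _ => ?_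
    have hy := hw.nonneg y
    have hv := hw.nonneg v
    have hyv : 0 ≤ w y * w v := mul_nonneg hy hv
    have key : 0 ≤ ind (mixL G S x z y v) - (ind (S y) * ind (S v) * ind (G.E x y v) +
        (ind (G.E z y v) - ((ind (S y) * ind (G.E z y v) + ind (S v) * ind (G.E z y v)) -
          ind (S y) * ind (S v) * ind (G.E z y v)))) := by
      unfold mixL
      rcases S y <;> rcases S v <;> rcases G.E x y v <;> rcases G.E z y v <;> simp [ind]
    have := mul_nonneg hyv key
    linarith
  have h4 : rho ≤ deg G w z + d ^ 2 := by rw [hdeg]; linarith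
  linarith

/-- averaged form -/
theorem link_exchange_avg (hw : IsW w) (S : V → Bool) (x : V) (d : ℝ) (h0 : 0 < d)
    (h1 : d ≤ 1) (hval : rho - d ^ 2 ≤ val G w) (hdeg : ∀ z, deg G w z = val G w)
    (g : V → ℝ) (hg : ∀ z, 0 ≤ g z) :
    (∑ z, g z) * ia G w (fun y => ind (S y)) x ≤
      ∑ z, g z * (2 * ca G w (fun y => ind (S y)) z - ia G w (fun y => ind (S y)) z) +
        (∑ z, g z) * (d + d ^ 2) := by
  rw [sum_mul, sum_mul, ← sum_add_distrib]
  refine sum_le_sum fun z _ => ?_
  have h2 := mul_le_mul_of_nonneg_left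
    (link_exchange G w hw S x z d h0 h1 hval (hdeg z)) (hg z)
  linarith

end Val

end K4m
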