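import Mathlib
import Pool.Agent.Lib.MP_392c14_co.OwnAvg
import Pool.Agent.Lib.MP_392c14_co.Root3
import Pool.Agent.Lib.MP_392c14_co.Root4

/-!
# Own codegrees averaged over a class of a partition with garbage

`c` is a map to the six classes, `g` the indicator of the good vertices.
-/

set_option autoImplicit false

namespace K4m

open Finset

section OwnAvg2

variable {V : Type} [Fintype V] (G : TG V) (w : V → ℝ) (c : V → Fin 6) (g : V → ℝ)

/-- indicator of the good vertices of a class -/
noncomputable def gp (k : Fin 6) (z : V) : ℝ := pin c k z * g z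

noncomputable def misg (z : V) : ℝ :=
  S2 w (fun u v => g u * g v * (blk (c z) (c u) (c v) * (1 - ind (G.E z u v))))

noncomputable def bzg (z : V) : ℝ :=
  S2 w (fun u v => g u * g v * (p1 (c z) (c u) (c v) * ind (G.E z u v)))

noncomputable def btg (z : V) : ℝ :=
  S2 w (fun u v => g u * g v * (p1 (c u) (c v) (c z) * ind (G.E z u v)))

noncomputable def gmg (z : V) : ℝ :=
  S2 w (fun u v => g u * g v * (nbl (c z) (c u) (c v) * ind (G.E z u v)))

noncomputable def idlg (k : Fin 6) : ℝ := S2 w (fun u v => g u * g v * blk k (c u) (c v))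

/-- pairs with a garbage vertex -/
noncomputable def grb (z : V) : ℝ := S2 w (fun u v => (1 - g u * g v) * ind (G.E z u v))

/-- pairs with the first vertex good in the class of `z` and the second one garbage -/
noncomputable def grba (z : V) : ℝ :=
  S2 w (fun u v => pin c (c z) u * g u * (1 - g v) * ind (G.E z u v))

/-- mass of the garbage -/
noncomputable def Xg : ℝ := ∑ x, w x * (1 - g x)

/-- missing triples of good vertices, first vertex in the class -/
noncomputable def WMg (k : Fin 6) : ℝ := ∑ z, w z * (gp c g k z * misg G w c g z)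

/-- bad triples of good vertices, first vertex in the class -/
noncomputable def WBg (k : Fin 6) : ℝ :=
  ∑ z, w z * (gp c g k z * (2 * bzg G w c g z + btg G w c g z + gmg G w c g z))

theorem degg_eq (z : V) : deg G w z = ia G w (gp c g (c z)) z + 2 * bzg G w c g z +
    btg G w c g z + gmg G w c g z + idlg w c g (c z) - misg G w c g z + grb G w g z := by
  have h0 : ia G w (gp c g (c z)) z =
      S2 w (fun u v => g u * g v * (e3 (c z) (c u) (c v) * ind (G.E z u v))) := by
    unfold ia
    refine (S2_congr w fun u v => ?_ : S2 w _ = _)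
    rw [e3_eq_pin]
    unfold gp
    ring
  have h1 : deg G w z = S2 w (fun u v =>
      g u * g v * (e3 (c z) (c u) (c v) * ind (G.E z u v)) +
      (g u * g v * (p1 (c z) (c u) (c v) * ind (G.E z u v)) +
      (g v * g u * (p1 (c z) (c v) (c u) * ind (G.E z v u)) +
      (g u * g v * (p1 (c u) (c v) (c z) * ind (G.E z u v)) +
      (g u * g v * (nbl (c z) (c u) (c v) * ind (G.E z u v)) +
      ((g u * g v * blk (c z) (c u) (c v) -
        g u * g v * (blk (c z) (c u) (c v) * (1 - ind (G.E z u v)))) +
      (1 - g u * g v) * ind (G.E z u v))))))) := by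
    unfold deg S2
    refine sum_congr rfl fun u _ => sum_congr rfl fun v _ => ?_
    have hp := pattern_sum (c z) (c u) (c v)
    beta_reduce
    rw [G.symm₂ z u v]
    have : ind (G.E z u v) = g u * g v * ((e3 (c z) (c u) (c v) + p1 (c z) (c u) (c v) +
        p1 (c z) (c v) (c u) + p1 (c u) (c v) (c z) + nbl (c z) (c u) (c v) +
        blk (c z) (c u) (c v)) * ind (G.E z u v)) + (1 - g u * g v) * ind (G.E z u v) := by
      rw [hp, one_mul]; ring
    calc w u * w v * ind (G.E z u v) = w u * w v * (g u * g v * ((e3 (c z) (c u) (c v) +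
        p1 (c z) (c u) (c v) +
        p1 (c z) (c v) (c u) + p1 (c u) (c v) (c z) + nbl (c z) (c u) (c v) +
        blk (c z) (c u) (c v)) * ind (G.E z u v)) +
        (1 - g u * g v) * ind (G.E z u v)) := by rw [← this]
      _ = _ := by ring
  rw [h1, S2_add, S2_add, S2_add, S2_add, S2_add, S2_add, S2_sub, ← h0]
  have s1 := S2_swap w (fun u v => g u * g v * (p1 (c z) (c u) (c v) * ind (G.E z u v)))
  rw [s1]
  unfold bzg btg gmg idlg misg grb
  ring

theorem cag_eq (z : V) : ca G w (gp c g (c z)) z = ia G w (gp c g (c z)) z +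
    bzg G w c g z + grba G w c g z := by
  have h0 : ia G w (gp c g (c z)) z =
      S2 w (fun u v => g u * g v * (e3 (c z) (c u) (c v) * ind (G.E z u v))) := by
    unfold ia
    refine (S2_congr w fun u v => ?_ : S2 w _ = _)
    rw [e3_eq_pin]
    unfold gp
    ring
  rw [h0]
  unfold bzg grba
  rw [← S2_add, ← S2_add]
  unfold ca
  refine (S2_congr w fun u v => ?_ : S2 w _ = _)
  have h := pin_eq_e3_p1 c z u v
  unfold gp
  have e : g u * g v * (e3 (c z) (c u) (c v) * ind (G.E z u v)) +
      g u * g v * (p1 (c z) (c u) (c v) * ind (G.E z u v)) =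
      (e3 (c z) (c u) (c v) + p1 (c z) (c u) (c v)) * (g u * g v * ind (G.E z u v)) := by ring
  rw [e, ← h]
  ring

variable (hw : ∀ x, 0 ≤ w x) (hg : ∀ x, g x = 0 ∨ g x = 1)

include hg in
theorem gp01 (k : Fin 6) (z : V) : gp c g k z = 0 ∨ gp c g k z = 1 := by
  unfold gp
  rcases pin_zero_or_one c k z with h | h
  · left; rw [h, zero_mul]
  · rcases hg z with h' | h'
    · left; rw [h', mul_zero]
    · right; rw [h, h', one_mul]

include hg in
theorem g_nonneg (x : V) : 0 ≤ g x := by
  rcases hg x with h | h <;> rw [h]; norm_num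

include hg in
theorem g_le_one (x : V) : g x ≤ 1 := by
  rcases hg x with h | h <;> rw [h]; norm_num

include hg in
theorem gg_nonneg (u v : V) : 0 ≤ g u * g v :=
  mul_nonneg (g_nonneg g hg u) (g_nonneg g hg v)

include hw in
/-- every codegree is at most twice the degree -/
theorem cdg_le (hcnd : ∀ f : V → ℝ, ∑ x, f x = 0 → tri G f f w ≤ 0) (hs : ∑ x, w x = 1)
    (t : ℝ) (hdeg : ∀ z, deg G w z = t) (z u : V) : ∑ v, w v * ind (G.E z u v) ≤ 2 * t := by
  have m1 : ma w (fun _ => (1 : ℝ)) = 1 := by
    unfold ma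
    simp only [mul_one]
    exact hs
  have c1 : ∀ y, ca G w (fun _ => (1 : ℝ)) y = t := by
    intro y
    rw [← hdeg y]
    unfold ca deg
    simp only [one_mul]
  have ct : cta G w (fun _ => (1 : ℝ)) = t := by
    unfold cta
    simp only [c1, one_mul]
    rw [← sum_mul, hs, one_mul]
  have h := cod_le G w (fun _ => (1 : ℝ)) hw (fun _ => Or.inr rfl) hcnd (by rw [m1]; norm_num)
    z u
  rw [m1, c1, c1, ct] at h
  linarith

include hw hg in
theorem grb_bounds (hcnd : ∀ f : V → ℝ, ∑ x, f x = 0 → tri G f f w ≤ 0) (hs : ∑ x, w x = 1)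
    (t : ℝ) (hdeg : ∀ z, deg G w z = t) (z : V) :
    0 ≤ grba G w c g z ∧ grba G w c g z ≤ grb G w g z ∧ grba G w c g z ≤ 2 * t * Xg w g ∧
      grb G w g z ≤ 4 * t * Xg w g := by
  have hX : S2 w (fun u v => (1 - g v) * ind (G.E z u v)) ≤ 2 * t * Xg w g := by
    rw [S2_snd]
    unfold Xg
    rw [mul_sum]
    refine sum_le_sum fun v _ => ?_
    have e : 2 * t * (w v * (1 - g v)) = w v * ((1 - g v) * (2 * t)) := by ring
    rw [e]
    refine mul_le_mul_of_nonneg_left ?_ (hw v)
    have h1 := g_le_one g hg v
    refine mul_le_mul_of_nonneg_left ?_ (by linarith)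
    have h2 := cdg_le G w hw hcnd hs t hdeg z v
    have h3 : ∑ u, w u * ind (G.E z u v) = ∑ u, w u * ind (G.E z v u) :=
      sum_congr rfl fun u _ => by rw [G.symm₂ z u v]
    rw [h3]; exact h2
  have hX' : S2 w (fun u v => (1 - g u) * ind (G.E z u v)) ≤ 2 * t * Xg w g := by
    have h := S2_swap w (fun u v => (1 - g v) * ind (G.E z u v))
    have h2 : S2 w (fun u v => (1 - g u) * ind (G.E z v u)) =
        S2 w (fun u v => (1 - g u) * ind (G.E z u v)) :=
      S2_congr w fun u v => by rw [G.symm₂ z u v]
    rw [← h2, h]; exact hX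
  refine ⟨?_, ?_, ?_, ?_⟩
  · refine S2_nonneg w hw fun u v => ?_
    have h1 := g_le_one g hg v
    exact mul_nonneg (mul_nonneg (mul_nonneg (pin_nonneg c _ u) (g_nonneg g hg u))
      (by linarith)) (ind_nonneg _)
  · refine S2_mono w hw fun u v => mul_le_mul_of_nonneg_right ?_ (ind_nonneg _)
    have h1 := pin_nonneg c (c z) u
    have h2 := pin_le_one c (c z) u
    rcases hg u with hu | hu <;> rcases hg v with hv | hv <;> rw [hu, hv] <;> linarith
  · refine le_trans (S2_mono w hw fun u v => mul_le_mul_of_nonneg_right ?_ (ind_nonneg _)) hX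
    have h1 := pin_nonneg c (c z) u
    have h2 := pin_le_one c (c z) u
    rcases hg u with hu | hu <;> rcases hg v with hv | hv <;> rw [hu, hv] <;> linarith
  · have h : grb G w g z ≤ S2 w (fun u v => (1 - g u) * ind (G.E z u v)) +
        S2 w (fun u v => (1 - g v) * ind (G.E z u v)) := by
      rw [← S2_add]
      refine S2_mono w hw fun u v => ?_
      rw [← add_mul]
      refine mul_le_mul_of_nonneg_right ?_ (ind_nonneg _)
      rcases hg u with hu | hu <;> rcases hg v with hv | hv <;> rw [hu, hv] <;> norm_num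
    linarith

include hw hg in
/-- Own codegrees, averaged over a class, for an arbitrary vertex `x` (L1). -/
theorem own_avg (hcnd : ∀ f : V → ℝ, ∑ x, f x = 0 → tri G f f w ≤ 0) (hs : ∑ x, w x = 1)
    (t : ℝ) (ht : 0 ≤ t) (hdeg : ∀ z, deg G w z = t) (k : Fin 6) (hm : 0 < ma w (gp c g k))
    (hC : 0 < cta G w (gp c g k)) (μ um : ℝ)
    (hμ : 3 / 2 * t * Xg w g * ma w (gp c g k) ≤ μ * cta G w (gp c g k))
    (hum : (3 / 4 + μ) * ma w (gp c g k) + (cl w c k - ma w (gp c g k)) ≤ um * cl w c k)
    (hum1 : 3 / 4 ≤ um) (x : V) :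
    cta G w (gp c g k) * ∑ z, w z * (pin c k z * max (own G w c z x - um * cl w c k) 0) ≤
      ma w (gp c g k) ^ 2 * (5 / 4 * WMg G w c g k + 1 / 2 * WBg G w c g k) +
      cta G w (gp c g k) * (1 / 4 * cl w c k * (cl w c k - ma w (gp c g k))) := by
  set a : V → ℝ := gp c g k with ha'
  have ha : ∀ z, a z = 0 ∨ a z = 1 := gp01 c g hg k
  have hak : ∀ z, a z = 1 → c z = k := by
    intro z hz
    by_contra hne
    have : a z = 0 := by
      simp only [ha']; unfold gp pin; rw [if_neg hne, zero_mul]
    rw [this] at hz; norm_num at hz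
  set m := ma w a with hmd
  set C := cta G w a with hCd
  have X0 : 0 ≤ Xg w g := sum_nonneg fun z _ => mul_nonneg (hw z) (by
    have := g_le_one g hg z; linarith)
  have n1 : ∀ z, 0 ≤ misg G w c g z := fun z => S2_nonneg w hw fun u v => by
    have := ind_le_one (G.E z u v)
    exact mul_nonneg (gg_nonneg g hg u v) (mul_nonneg (blk_nonneg _ _ _) (by linarith))
  have n2 : ∀ z, 0 ≤ bzg G w c g z := fun z => S2_nonneg w hw fun u v =>
    mul_nonneg (gg_nonneg g hg u v) (mul_nonneg (p1_nonneg _ _ _) (ind_nonneg _))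
  have n3 : ∀ z, 0 ≤ btg G w c g z := fun z => S2_nonneg w hw fun u v =>
    mul_nonneg (gg_nonneg g hg u v) (mul_nonneg (p1_nonneg _ _ _) (ind_nonneg _))
  have n4 : ∀ z, 0 ≤ gmg G w c g z := fun z => S2_nonneg w hw fun u v =>
    mul_nonneg (gg_nonneg g hg u v) (mul_nonneg (nbl_nonneg _ _ _) (ind_nonneg _))
  have main := oa_avg2 G w a hw ha hcnd hm (t - idlg w c g k) (4 * t * Xg w g)
    (2 * t * Xg w g) μ (fun z => misg G w c g z)
    (fun z => bzg G w c g z + btg G w c g z + gmg G w c g z)
    (fun z => grb G w g z - grba G w c g z) (fun z => bzg G w c g z) n1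
    (fun z => by have := n2 z; have := n3 z; have := n4 z; linarith)
    (fun z => by have := (grb_bounds G w c g hw hg hcnd hs t hdeg z).2.1; linarith) n2
    (fun z _ => by
      obtain ⟨h1, h2, h3, h4⟩ := grb_bounds G w c g hw hg hcnd hs t hdeg z
      linarith)
    (by have := mul_nonneg ht X0; linarith)
    (fun z hz => by
      have h1 := degg_eq G w c g z
      have h2 := cag_eq G w c g z
      rw [hak z hz] at h1 h2
      rw [hdeg] at h1
      simp only [ha']
      linarith)
    (fun z hz => by
      have h2 := cag_eq G w c g z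
      rw [hak z hz] at h2
      obtain ⟨h1, h3, h4, h5⟩ := grb_bounds G w c g hw hg hcnd hs t hdeg z
      simp only [ha']
      linarith) hC (by linarith) x
  have hXk : cl w c k - m = ∑ z, w z * (pin c k z * (1 - g z)) := by
    rw [cl_eq_pin, hmd]
    unfold ma
    rw [← sum_sub_distrib]
    refine sum_congr rfl fun z _ => ?_
    simp only [ha']; unfold gp; ring
  have hXk0 : 0 ≤ cl w c k - m := by
    rw [hXk]
    refine sum_nonneg fun z _ => mul_nonneg (hw z) (mul_nonneg (pin_nonneg c k z) ?_)
    have := g_le_one g hg z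
    linarith
  have clk0 : 0 ≤ cl w c k := by linarith
  -- pointwise comparison
  have key : ∀ z, pin c k z * max (own G w c z x - um * cl w c k) 0 ≤
      a z * max (oa G w a x z - (3 / 4 + μ) * m) 0 +
        pin c k z * (1 - g z) * (1 / 4 * cl w c k) := by
    intro z
    by_cases hz : c z = k
    · have p : pin c k z = 1 := by unfold pin; rw [if_pos hz]
      have hown : own G w c z x ≤ oa G w a x z + (cl w c k - m) := by
        rw [hXk]
        unfold own oa
        rw [← sum_add_distrib]
        refine sum_le_sum fun y _ => ?_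
        rw [← mul_add]
        refine mul_le_mul_of_nonneg_left ?_ (hw y)
        simp only [ha']
        unfold gp pin
        rw [hz]
        have i0 := ind_nonneg (G.E z y x)
        have i1 := ind_le_one (G.E z y x)
        by_cases hy : c y = k
        · rw [if_pos hy]
          rcases hg y with h | h <;> rw [h] <;> linarith
        · rw [if_neg hy]; linarith
      have hown2 : own G w c z x ≤ cl w c k := by
        unfold own cl
        refine sum_le_sum fun y _ => mul_le_mul_of_nonneg_left ?_ (hw y)
        rw [hz]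
        have i0 := ind_nonneg (G.E z y x)
        have i1 := ind_le_one (G.E z y x)
        split_ifs <;> linarith
      rcases hg z with h | h
      · have : a z = 0 := by simp only [ha']; unfold gp; rw [h, mul_zero]
        rw [this, p, h]
        have h1 : max (own G w c z x - um * cl w c k) 0 ≤ 1 / 4 * cl w c k := by
          refine max_le ?_ (by linarith)
          have := mul_le_mul_of_nonneg_right hum1 clk0
          linarith
        linarith
      · have : a z = 1 := by simp only [ha']; unfold gp; rw [h, p, one_mul]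
        rw [this, p, h]
        have h1 : max (own G w c z x - um * cl w c k) 0 ≤
            max (oa G w a x z - (3 / 4 + μ) * m) 0 := by
          refine max_le_max ?_ le_rfl
          linarith
        linarith
    · have p : pin c k z = 0 := by unfold pin; rw [if_neg hz]
      have : a z = 0 := by simp only [ha']; unfold gp; rw [p, zero_mul]
      rw [p, this]; simp
  have h1 : ∑ z, w z * (pin c k z * max (own G w c z x - um * cl w c k) 0) ≤
      ∑ z, w z * (a z * max (oa G w a x z - (3 / 4 + μ) * m) 0) +
      1 / 4 * cl w c k * (cl w c k - m) := by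
    rw [hXk, mul_sum, ← sum_add_distrib]
    refine sum_le_sum fun z _ => ?_
    have h2 := mul_le_mul_of_nonneg_left (key z) (hw z)
    refine h2.trans (le_of_eq ?_)
    ring
  have h2 := mul_le_mul_of_nonneg_left h1 hC.le
  have h3 : 5 / 4 * (∑ z, w z * (a z * misg G w c g z)) +
      1 / 2 * (∑ z, w z * (a z * (bzg G w c g z + btg G w c g z + gmg G w c g z))) +
      1 / 4 * (∑ z, w z * (a z * bzg G w c g z)) ≤
      5 / 4 * WMg G w c g k + 1 / 2 * WBg G w c g k := by
    have e1 : ∑ z, w z * (a z * misg G w c g z) = WMg G w c g k := rfl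
    have e2 : 1 / 2 * (∑ z, w z * (a z * (bzg G w c g z + btg G w c g z + gmg G w c g z))) +
        1 / 4 * (∑ z, w z * (a z * bzg G w c g z)) ≤ 1 / 2 * WBg G w c g k := by
      unfold WBg
      rw [mul_sum, mul_sum, mul_sum, ← sum_add_distrib]
      refine sum_le_sum fun z _ => ?_
      have h4 : 0 ≤ w z * (a z * bzg G w c g z) := by
        refine mul_nonneg (hw z) (mul_nonneg ?_ (n2 z))
        rcases ha z with h | h <;> rw [h]; norm_num
      have e : 1 / 2 * (w z * (gp c g k z * (2 * bzg G w c g z + btg G w c g z +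
          gmg G w c g z))) = 1 / 2 * (w z * (a z * (bzg G w c g z + btg G w c g z +
          gmg G w c g z))) + 1 / 2 * (w z * (a z * bzg G w c g z)) := by
        simp only [ha']; ring
      rw [e]
      linarith
    rw [e1]; linarith
  have h4 := mul_le_mul_of_nonneg_left h3 (sq_nonneg m)
  calc C * ∑ z, w z * (pin c k z * max (own G w c z x - um * cl w c k) 0) ≤
      C * (∑ z, w z * (a z * max (oa G w a x z - (3 / 4 + μ) * m) 0) +
      1 / 4 * cl w c k * (cl w c k - m)) := h2
    _ ≤ _ := by linarith

/-- the missing triples of good vertices -/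
theorem sum_WMg : ∑ k, WMg G w c g k =
    T3 w (fun x y z => g x * g y * g z * (blk (c x) (c y) (c z) * (1 - ind (G.E x y z)))) := by
  unfold WMg
  rw [sum_comm, T3_S2]
  refine sum_congr rfl fun z _ => ?_
  rw [← mul_sum]
  congr 1
  have e1 : ∑ k, gp c g k z * misg G w c g z = g z * misg G w c g z := by
    rw [← sum_mul]
    congr 1
    unfold gp
    rw [← sum_mul, sum_pin, one_mul]
  rw [e1]
  unfold misg
  rw [← S2_mul]
  exact S2_congr w fun u v => by ring

/-- the bad triples of good vertices -/
theorem sum_WBg : ∑ k, WBg G w c g k =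
    T3 w (fun x y z => g x * g y * g z * ((1 - e3 (c x) (c y) (c z) - blk (c x) (c y) (c z)) *
      ind (G.E x y z))) := by
  unfold WBg
  rw [sum_comm, T3_S2]
  refine sum_congr rfl fun z _ => ?_
  rw [← mul_sum]
  congr 1
  have e1 : ∑ k, gp c g k z * (2 * bzg G w c g z + btg G w c g z + gmg G w c g z) =
      g z * (2 * bzg G w c g z + btg G w c g z + gmg G w c g z) := by
    rw [← sum_mul]
    congr 1
    unfold gp
    rw [← sum_mul, sum_pin, one_mul]
  rw [e1]
  have s1 := S2_swap w (fun u v => g u * g v * (p1 (c z) (c u) (c v) * ind (G.E z u v)))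
  have e2 : 2 * bzg G w c g z + btg G w c g z + gmg G w c g z =
      S2 w (fun u v => g u * g v * (p1 (c z) (c u) (c v) * ind (G.E z u v)) +
      (g v * g u * (p1 (c z) (c v) (c u) * ind (G.E z v u)) +
      (g u * g v * (p1 (c u) (c v) (c z) * ind (G.E z u v)) +
      g u * g v * (nbl (c z) (c u) (c v) * ind (G.E z u v))))) := by
    rw [S2_add, S2_add, S2_add, s1]
    unfold bzg btg gmg
    ring
  rw [e2, ← S2_mul]
  refine S2_congr w fun u v => ?_
  have hp := pattern_sum (c z) (c u) (c v)
  rw [G.symm₂ z u v]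
  have h2 : 1 - e3 (c z) (c u) (c v) - blk (c z) (c u) (c v) = p1 (c z) (c u) (c v) +
      p1 (c z) (c v) (c u) + p1 (c u) (c v) (c z) + nbl (c z) (c u) (c v) := by linarith
  rw [h2]
  ring

end OwnAvg2

end K4m
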