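import Mathlib
import Pool.Agent.Lib.MP_392c14_co.OwnAvg2

/-!
# Own codegrees averaged over a class: the uniform part of the error absorbed in the threshold

`oa_avg3`, `own_avg3` are versions of `oa_avg2`, `own_avg` in which the part of the error which does
not depend on `z` (in particular the missing triples) is absorbed in the threshold `um`.
-/

set_option autoImplicit false

namespace K4m

open Finset

section OwnAvg

variable {V : Type} [Fintype V] (G : TG V) (w a : V → ℝ)
variable (hw : ∀ x, 0 ≤ w x) (ha : ∀ x, a x = 0 ∨ a x = 1)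
include hw ha

/-- The averaged bound, uniform part of the error in the threshold.  On the part,
`ca z = k0 + e z - f z - h z` with `e, f ≥ 0` and `0 ≤ h ≤ κ1`, and `ca - ia ≤ f1 + κ2`. -/
theorem oa_avg3 (hcnd : ∀ f : V → ℝ, ∑ x, f x = 0 → tri G f f w ≤ 0) (hm : 0 < ma w a)
    (k0 κ1 κ2 μ : ℝ) (e f h f1 : V → ℝ) (he : ∀ z, 0 ≤ e z) (hf : ∀ z, 0 ≤ f z)
    (hh : ∀ z, 0 ≤ h z) (hf1 : ∀ z, 0 ≤ f1 z)
    (hh1 : ∀ z, a z = 1 → h z ≤ κ1) (hκ1 : 0 ≤ κ1)
    (hca : ∀ z, a z = 1 → ca G w a z = k0 + e z - f z - h z)
    (hb : ∀ z, a z = 1 → ca G w a z - ia G w a z ≤ f1 z + κ2)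
    (hC : 0 < cta G w a) (hμ : 1 / 4 * (κ1 + κ2) * ma w a + (5 / 4 * (∑ z, w z * (a z * e z)) +
      1 / 4 * ∑ z, w z * (a z * f z)) ≤ μ * cta G w a) (x : V) :
    cta G w a * ∑ z, w z * (a z * max (oa G w a x z - (3 / 4 + μ) * ma w a) 0) ≤
      1 / 4 * ma w a ^ 2 * ((∑ z, w z * (a z * f1 z)) + ∑ z, w z * (a z * f z)) := by
  set m := ma w a with hmd
  set C := cta G w a with hCd
  set E := ∑ z, w z * (a z * e z) with hE
  set F := ∑ z, w z * (a z * f z) with hF
  set F1 := ∑ z, w z * (a z * f1 z) with hF1
  set Hh := ∑ z, w z * (a z * h z) with hHh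
  have E0 : 0 ≤ E := sum_nonneg fun z _ => mul_nonneg (hw z) (mul_nonneg
    (a_nonneg w a hw ha z) (he z))
  have F0 : 0 ≤ F := sum_nonneg fun z _ => mul_nonneg (hw z) (mul_nonneg
    (a_nonneg w a hw ha z) (hf z))
  have Hh0 : 0 ≤ Hh := sum_nonneg fun z _ => mul_nonneg (hw z) (mul_nonneg
    (a_nonneg w a hw ha z) (hh z))
  have Hh1 : Hh ≤ κ1 * m := by
    have e5 : κ1 * m = ∑ z, w z * (a z * κ1) := by
      rw [hmd]
      unfold ma
      rw [mul_sum]
      refine sum_congr rfl fun z _ => ?_
      ring
    rw [e5]
    refine sum_le_sum fun z _ => mul_le_mul_of_nonneg_left ?_ (hw z)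
    rcases ha z with hz | hz
    · rw [hz, zero_mul, zero_mul]
    · exact mul_le_mul_of_nonneg_left (hh1 z hz) (a_nonneg w a hw ha z)
  have hCe : C = m * k0 + E - F - Hh := by
    have e5 : ∑ z, w z * a z = m := rfl
    rw [← e5, sum_mul, hE, hF, hHh, ← sum_add_distrib, ← sum_sub_distrib, ← sum_sub_distrib]
    rw [hCd]
    unfold cta
    refine sum_congr rfl fun z _ => ?_
    rcases ha z with hz | hz
    · rw [hz]; ring
    · rw [hca z hz, hz]; ring
  -- the deviation inside an arbitrary subset
  have hdevS : ∀ z, a z = 1 → m * ia G w a z ≤ 4 * (m - oa G w a x z) * (ca G w a z + κ1) +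
      4 * E + 4 * (F * ((m - oa G w a x z) / m)) := by
    intro z _
    set S : V → ℝ := fun y => a y * (1 - ind (G.E z y x)) with hS
    have S0 : ∀ y, 0 ≤ S y := by
      intro y
      have := ind_le_one (G.E z y x)
      exact mul_nonneg (a_nonneg w a hw ha y) (by linarith)
    have Sle : ∀ y, S y ≤ a y := by
      intro y
      have h1 := ind_nonneg (G.E z y x)
      have h2 := a_nonneg w a hw ha y
      simp only [hS]
      nlinarith
    have h1 : ia G w a z ≤ 2 * ∑ y, w y * (S y * ∑ v, w v * ind (G.E z y v)) := by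
      have e1 : ∑ y, w y * (S y * ∑ v, w v * ind (G.E z y v)) =
          ∑ y, ∑ v, w y * w v * (S y * ind (G.E z y v)) := by
        refine sum_congr rfl fun y _ => ?_
        rw [mul_sum, mul_sum]
        refine sum_congr rfl fun v _ => ?_
        ring
      have e2 : ∑ y, w y * (S y * ∑ v, w v * ind (G.E z y v)) =
          ∑ y, ∑ v, w y * w v * (S v * ind (G.E z y v)) := by
        rw [e1, sum_comm]
        refine sum_congr rfl fun y _ => sum_congr rfl fun v _ => ?_
        rw [G.symm₂ z y v]; ring
      have e3 : 2 * ∑ y, w y * (S y * ∑ v, w v * ind (G.E z y v)) =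
          ∑ y, ∑ v, w y * w v * ((S y + S v) * ind (G.E z y v)) := by
        have : 2 * ∑ y, w y * (S y * ∑ v, w v * ind (G.E z y v)) =
            (∑ y, ∑ v, w y * w v * (S y * ind (G.E z y v))) +
            ∑ y, ∑ v, w y * w v * (S v * ind (G.E z y v)) := by rw [← e1, ← e2]; ring
        rw [this, ← sum_add_distrib]
        refine sum_congr rfl fun y _ => ?_
        rw [← sum_add_distrib]
        refine sum_congr rfl fun v _ => ?_
        ring
      rw [e3]
      unfold ia
      refine sum_le_sum fun y _ => sum_le_sum fun v _ => ?_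
      refine mul_le_mul_of_nonneg_left ?_ (mul_nonneg (hw y) (hw v))
      rcases ind_cases (G.E z y v) with ⟨h, h'⟩ | ⟨h, h'⟩
      · rw [h', mul_one, mul_one]
        rcases ha y with py | py
        · rw [py, zero_mul]
          have := S0 y
          have := S0 v
          linarith
        · rcases ha v with pv | pv
          · rw [pv, mul_zero]
            have := S0 y
            have := S0 v
            linarith
          · rw [py, pv]
            simp only [hS]
            rw [py, pv]
            rcases ind_cases (G.E z y x) with ⟨b, b'⟩ | ⟨b, b'⟩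
            · rcases ind_cases (G.E z v x) with ⟨d, d'⟩ | ⟨d, d'⟩
              · exact absurd ⟨h, b, d⟩ (G.free z y v x)
              · rw [b', d']; norm_num
            · rcases ind_cases (G.E z v x) with ⟨d, d'⟩ | ⟨d, d'⟩
              · rw [b', d']; norm_num
              · rw [b', d']; norm_num
      · rw [h', mul_zero, mul_zero]
    have e2 : m - oa G w a x z = ∑ y, w y * S y := by
      rw [hmd]
      unfold ma oa
      rw [← sum_sub_distrib]
      refine sum_congr rfl fun y _ => ?_
      simp only [hS]; ring
    have h2 : m ^ 2 * ∑ y, w y * (S y * ∑ v, w v * ind (G.E z y v)) ≤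
        2 * m * (m - oa G w a x z) * (ca G w a z + κ1) + 2 * m * E +
          2 * F * (m - oa G w a x z) := by
      have e1 : m ^ 2 * ∑ y, w y * (S y * ∑ v, w v * ind (G.E z y v)) =
          ∑ y, w y * (S y * (m ^ 2 * ∑ v, w v * ind (G.E z y v))) := by
        rw [mul_sum]
        refine sum_congr rfl fun y _ => ?_
        ring
      rw [e1, e2]
      have e3 : 2 * m * (∑ y, w y * S y) * (ca G w a z + κ1) + 2 * m * E +
          2 * F * (∑ y, w y * S y) =
          ∑ y, w y * (S y * (2 * m * (ca G w a z + κ1) + 2 * F) + 2 * m * (a y * e y)) := by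
        rw [hE, mul_sum, mul_sum, sum_mul, mul_sum, ← sum_add_distrib, ← sum_add_distrib]
        refine sum_congr rfl fun y _ => ?_
        ring
      rw [e3]
      refine sum_le_sum fun y _ => mul_le_mul_of_nonneg_left ?_ (hw y)
      have c1 := cod_le G w a hw ha hcnd hm z y
      rw [← hmd] at c1
      have c2 : S y * (m ^ 2 * ∑ v, w v * ind (G.E z y v)) ≤
          S y * (2 * m * ca G w a z + 2 * m * ca G w a y - 2 * cta G w a) :=
        mul_le_mul_of_nonneg_left c1 (S0 y)
      rcases ha y with hy | hy
      · have : S y = 0 := by simp only [hS]; rw [hy, zero_mul]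
        rw [this, hy]; simp
      · have c3 := hca y hy
        have c4 : m * ca G w a y - C ≤ m * e y + F + m * κ1 := by
          rw [c3, hCe]
          have := mul_nonneg hm.le (hf y)
          have := mul_nonneg hm.le (hh y)
          linarith
        have c5 : S y * (2 * m * ca G w a z + 2 * m * ca G w a y - 2 * cta G w a) ≤
            S y * (2 * m * ca G w a z + 2 * (m * e y + F + m * κ1)) :=
          mul_le_mul_of_nonneg_left (by rw [← hCd]; linarith) (S0 y)
        have c6 : S y * (m * e y) ≤ a y * (m * e y) :=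
          mul_le_mul_of_nonneg_right (Sle y) (mul_nonneg hm.le (he y))
        have c7 : S y * (2 * m * ca G w a z + 2 * (m * e y + F + m * κ1)) =
            S y * (2 * m * (ca G w a z + κ1) + 2 * F) + 2 * (S y * (m * e y)) := by ring
        have c8 : 2 * m * (a y * e y) = 2 * (a y * (m * e y)) := by ring
        linarith
    have h3 := mul_le_mul_of_nonneg_left h1 (sq_nonneg m)
    have h4 : m * (m * ia G w a z) ≤ m * (4 * (m - oa G w a x z) * (ca G w a z + κ1) +
      4 * E + 4 * (F * ((m - oa G w a x z) / m))) := by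
      have h5 : m * (4 * (m - oa G w a x z) * (ca G w a z + κ1) +
        4 * E + 4 * (F * ((m - oa G w a x z) / m))) =
        4 * m * (m - oa G w a x z) * (ca G w a z + κ1) + 4 * m * E +
        4 * F * (m - oa G w a x z) := by
        field_simp
      rw [h5]
      linarith
    exact le_of_mul_le_mul_left h4 hm
  have key : ∀ z, C * (a z * max (oa G w a x z - (3 / 4 + μ) * m) 0) ≤
      a z * (m * (1 / 4 * m * (f1 z + f z))) := by
    intro z
    have e' : C * (a z * max (oa G w a x z - (3 / 4 + μ) * m) 0) =
      a z * (C * max (oa G w a x z - (3 / 4 + μ) * m) 0) := by ring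
    rw [e']
    rcases ha z with hz | hz
    · rw [hz, zero_mul, zero_mul]
    rw [hz, one_mul, one_mul]
    have n0 : 0 ≤ m * (1 / 4 * m * (f1 z + f z)) := by
      have a1 : 0 ≤ 1 / 4 * m * (f1 z + f z) :=
        mul_nonneg (by linarith) (add_nonneg (hf1 z) (hf z))
      exact mul_nonneg hm.le a1
    rcases le_total (oa G w a x z - (3 / 4 + μ) * m) 0 with hn | hn
    · rw [max_eq_right hn, mul_zero]; exact n0
    · rw [max_eq_left hn]
      have μ0 : 0 ≤ μ * m ∨ μ * m ≤ 0 := le_total _ _
      set s := m - oa G w a x z with hs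
      have s0 : 0 ≤ s := by
        have := oa_le G w a hw ha x z
        rw [hs]; linarith
      -- if `oa ≥ 3/4 m` everything works; otherwise `μ < 0`
      rcases le_total (3 / 4 * m) (oa G w a x z) with h34 | h34
      · have hs4 : s ≤ m / 4 := by rw [hs]; linarith
        have q1 := hdevS z hz
        have q2 := hb z hz
        have q3 : F * (s / m) ≤ F * (1 / 4) := by
          refine mul_le_mul_of_nonneg_left ?_ F0
          rw [div_le_iff₀ hm]; linarith
        -- lower bound of `ca + κ1`
        have q4 : C ≤ m * (ca G w a z + κ1) + E + m * f z := by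
          rw [hCe, hca z hz]
          have := mul_nonneg hm.le (he z)
          have := mul_le_mul_of_nonneg_left (hh1 z hz) hm.le
          linarith
        have q5 : (oa G w a x z - 3 / 4 * m) * (ca G w a z + κ1) ≤
            1 / 4 * m * (κ1 + κ2) + 1 / 4 * m * f1 z + E + 1 / 4 * F := by
          have r1 : (oa G w a x z - 3 / 4 * m) * (ca G w a z + κ1) =
              1 / 4 * m * (ca G w a z + κ1) - s * (ca G w a z + κ1) := by rw [hs]; ring
          rw [r1]
          have r2 : m * ca G w a z ≤ m * ia G w a z + m * (f1 z + κ2) := by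
            have := mul_le_mul_of_nonneg_left q2 hm.le
            linarith
          linarith
        have hY0 : 0 ≤ oa G w a x z - 3 / 4 * m := by linarith
        have hY1 : oa G w a x z - 3 / 4 * m ≤ m / 4 := by
          have := oa_le G w a hw ha x z
          linarith
        have q6 : (oa G w a x z - 3 / 4 * m) * C ≤
            (oa G w a x z - 3 / 4 * m) * (m * (ca G w a z + κ1) + E + m * f z) :=
          mul_le_mul_of_nonneg_left q4 hY0
        have q7 : (oa G w a x z - 3 / 4 * m) * (E + m * f z) ≤ m / 4 * (E + m * f z) :=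
          mul_le_mul_of_nonneg_right hY1 (by
            have := mul_nonneg hm.le (hf z)
            linarith)
        have q8 := mul_le_mul_of_nonneg_left q5 hm.le
        have q9 := mul_le_mul_of_nonneg_right hμ hm.le
        have q10 : C * (oa G w a x z - (3 / 4 + μ) * m) =
            (oa G w a x z - 3 / 4 * m) * C - μ * C * m := by ring
        rw [q10]
        have q11 : (oa G w a x z - 3 / 4 * m) * (m * (ca G w a z + κ1) + E + m * f z) =
            m * ((oa G w a x z - 3 / 4 * m) * (ca G w a z + κ1)) +
            (oa G w a x z - 3 / 4 * m) * (E + m * f z) := by ring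
        rw [q11] at q6
        linarith
      · -- then `oa - (3/4 + μ) m ≤ - μ m`, and `μ C ≥ (κ1 + κ2) m / 4`
        have q9 := mul_le_mul_of_nonneg_right hμ hm.le
        have q2 := hb z hz
        have q3 := ia_le_ca G w a hw ha z
        have p1 : C * (oa G w a x z - (3 / 4 + μ) * m) ≤ C * (-(μ * m)) :=
          mul_le_mul_of_nonneg_left (by linarith) hC.le
        have p2 : C * (-(μ * m)) = -(μ * C * m) := by ring
        have p3 : 0 ≤ f1 z + κ2 := by linarith
        have p4 : 0 ≤ m * m * (f1 z + κ2) := mul_nonneg (mul_nonneg hm.le hm.le) p3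
        have p5 : 0 ≤ m * m * κ1 := mul_nonneg (mul_nonneg hm.le hm.le) hκ1
        have p6 : 0 ≤ m * m * f z := mul_nonneg (mul_nonneg hm.le hm.le) (hf z)
        have p7 : 0 ≤ m * E := mul_nonneg hm.le E0
        have p8 : 0 ≤ m * F := mul_nonneg hm.le F0
        linarith
  rw [mul_sum]
  have h1 : ∑ z, C * (w z * (a z * max (oa G w a x z - (3 / 4 + μ) * m) 0)) ≤
      ∑ z, w z * (a z * (m * (1 / 4 * m * (f1 z + f z)))) := by
    refine sum_le_sum fun z _ => ?_
    have e' : C * (w z * (a z * max (oa G w a x z - (3 / 4 + μ) * m) 0)) =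
        w z * (C * (a z * max (oa G w a x z - (3 / 4 + μ) * m) 0)) := by ring
    rw [e']
    exact mul_le_mul_of_nonneg_left (key z) (hw z)
  refine h1.trans (le_of_eq ?_)
  rw [← sum_add_distrib, mul_sum]
  refine sum_congr rfl fun z _ => ?_
  ring

end OwnAvg

section OwnAvg3

variable {V : Type} [Fintype V] (G : TG V) (w : V → ℝ) (c : V → Fin 6) (g : V → ℝ)
variable (hw : ∀ x, 0 ≤ w x) (hg : ∀ x, g x = 0 ∨ g x = 1)

include hw hg in
/-- Own codegrees, averaged over a class, for an arbitrary vertex `x`; the missing triples only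
enter the threshold. -/
theorem own_avg3 (hcnd : ∀ f : V → ℝ, ∑ x, f x = 0 → tri G f f w ≤ 0) (hs : ∑ x, w x = 1)
    (t : ℝ) (ht : 0 ≤ t) (hdeg : ∀ z, deg G w z = t) (k : Fin 6) (hm : 0 < ma w (gp c g k))
    (hC : 0 < cta G w (gp c g k)) (μ um : ℝ)
    (hμ : 3 / 2 * t * Xg w g * ma w (gp c g k) + 5 / 4 * WMg G w c g k + 1 / 4 * WBg G w c g k ≤
      μ * cta G w (gp c g k))
    (hum : (3 / 4 + μ) * ma w (gp c g k) + (cl w c k - ma w (gp c g k)) ≤ um * cl w c k)
    (hum1 : 3 / 4 ≤ um) (x : V) :
    cta G w (gp c g k) * ∑ z, w z * (pin c k z * max (own G w c z x - um * cl w c k) 0) ≤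
      ma w (gp c g k) ^ 2 * (1 / 4 * WBg G w c g k) +
      cta G w (gp c g k) * (1 / 4 * cl w c k * (cl w c k - ma w (gp c g k))) := by
  set a : V → ℝ := gp c g k with ha'
  have ha : ∀ z, a z = 0 ∨ a z = 1 := gp01 c g hg k
  have hak : ∀ z, a z = 1 → c z = k := by
    intro z hz
    by_contra hne
    have : a z = 0 := by
      simp only [ha']; unfold gp pin; rw [if_neg hne, zero_mul]
    rw [this] at hz; norm_num at hz
  set m := ma w a with hmd
  set C := cta G w a with hCd
  have X0 : 0 ≤ Xg w g := sum_nonneg fun z _ => mul_nonneg (hw z) (by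
    have := g_le_one g hg z; linarith)
  have n1 : ∀ z, 0 ≤ misg G w c g z := fun z => S2_nonneg w hw fun u v => by
    have := ind_le_one (G.E z u v)
    exact mul_nonneg (gg_nonneg g hg u v) (mul_nonneg (blk_nonneg _ _ _) (by linarith))
  have n2 : ∀ z, 0 ≤ bzg G w c g z := fun z => S2_nonneg w hw fun u v =>
    mul_nonneg (gg_nonneg g hg u v) (mul_nonneg (p1_nonneg _ _ _) (ind_nonneg _))
  have n3 : ∀ z, 0 ≤ btg G w c g z := fun z => S2_nonneg w hw fun u v =>
    mul_nonneg (gg_nonneg g hg u v) (mul_nonneg (p1_nonneg _ _ _) (ind_nonneg _))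
  have n4 : ∀ z, 0 ≤ gmg G w c g z := fun z => S2_nonneg w hw fun u v =>
    mul_nonneg (gg_nonneg g hg u v) (mul_nonneg (nbl_nonneg _ _ _) (ind_nonneg _))
  have hWB : (∑ z, w z * (a z * bzg G w c g z)) +
      ∑ z, w z * (a z * (bzg G w c g z + btg G w c g z + gmg G w c g z)) = WBg G w c g k := by
    unfold WBg
    rw [← sum_add_distrib]
    refine sum_congr rfl fun z _ => ?_
    simp only [ha']; ring
  have hbz0 : 0 ≤ ∑ z, w z * (a z * bzg G w c g z) := sum_nonneg fun z _ =>
    mul_nonneg (hw z) (mul_nonneg (a_nonneg w a hw ha z) (n2 z))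
  have hWM : (∑ z, w z * (a z * misg G w c g z)) = WMg G w c g k := rfl
  have main := oa_avg3 G w a hw ha hcnd hm (t - idlg w c g k) (4 * t * Xg w g)
    (2 * t * Xg w g) μ (fun z => misg G w c g z)
    (fun z => bzg G w c g z + btg G w c g z + gmg G w c g z)
    (fun z => grb G w g z - grba G w c g z) (fun z => bzg G w c g z) n1
    (fun z => by have := n2 z; have := n3 z; have := n4 z; linarith)
    (fun z => by have := (grb_bounds G w c g hw hg hcnd hs t hdeg z).2.1; linarith) n2
    (fun z _ => by
      obtain ⟨h1, h2, h3, h4⟩ := grb_bounds G w c g hw hg hcnd hs t hdeg z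
      linarith)
    (by have := mul_nonneg ht X0; linarith)
    (fun z hz => by
      have h1 := degg_eq G w c g z
      have h2 := cag_eq G w c g z
      rw [hak z hz] at h1 h2
      rw [hdeg] at h1
      simp only [ha']
      linarith)
    (fun z hz => by
      have h2 := cag_eq G w c g z
      rw [hak z hz] at h2
      obtain ⟨h1, h3, h4, h5⟩ := grb_bounds G w c g hw hg hcnd hs t hdeg z
      simp only [ha']
      linarith) hC (by rw [hWM]; linarith) x
  have hXk : cl w c k - m = ∑ z, w z * (pin c k z * (1 - g z)) := by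
    rw [cl_eq_pin, hmd]
    unfold ma
    rw [← sum_sub_distrib]
    refine sum_congr rfl fun z _ => ?_
    simp only [ha']; unfold gp; ring
  have hXk0 : 0 ≤ cl w c k - m := by
    rw [hXk]
    refine sum_nonneg fun z _ => mul_nonneg (hw z) (mul_nonneg (pin_nonneg c k z) ?_)
    have := g_le_one g hg z
    linarith
  have clk0 : 0 ≤ cl w c k := by linarith
  -- pointwise comparison
  have key : ∀ z, pin c k z * max (own G w c z x - um * cl w c k) 0 ≤
      a z * max (oa G w a x z - (3 / 4 + μ) * m) 0 +
        pin c k z * (1 - g z) * (1 / 4 * cl w c k) := by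
    intro z
    by_cases hz : c z = k
    · have p : pin c k z = 1 := by unfold pin; rw [if_pos hz]
      have hown : own G w c z x ≤ oa G w a x z + (cl w c k - m) := by
        rw [hXk]
        unfold own oa
        rw [← sum_add_distrib]
        refine sum_le_sum fun y _ => ?_
        rw [← mul_add]
        refine mul_le_mul_of_nonneg_left ?_ (hw y)
        simp only [ha']
        unfold gp pin
        rw [hz]
        have i0 := ind_nonneg (G.E z y x)
        have i1 := ind_le_one (G.E z y x)
        by_cases hy : c y = k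
        · rw [if_pos hy]
          rcases hg y with h | h <;> rw [h] <;> linarith
        · rw [if_neg hy]; linarith
      have hown2 : own G w c z x ≤ cl w c k := by
        unfold own cl
        refine sum_le_sum fun y _ => mul_le_mul_of_nonneg_left ?_ (hw y)
        rw [hz]
        have i0 := ind_nonneg (G.E z y x)
        have i1 := ind_le_one (G.E z y x)
        split_ifs <;> linarith
      rcases hg z with h | h
      · have : a z = 0 := by simp only [ha']; unfold gp; rw [h, mul_zero]
        rw [this, p, h]
        have h1 : max (own G w c z x - um * cl w c k) 0 ≤ 1 / 4 * cl w c k := by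
          refine max_le ?_ (by linarith)
          have := mul_le_mul_of_nonneg_right hum1 clk0
          linarith
        linarith
      · have : a z = 1 := by simp only [ha']; unfold gp; rw [h, p, one_mul]
        rw [this, p, h]
        have h1 : max (own G w c z x - um * cl w c k) 0 ≤
            max (oa G w a x z - (3 / 4 + μ) * m) 0 := by
          refine max_le_max ?_ le_rfl
          linarith
        linarith
    · have p : pin c k z = 0 := by unfold pin; rw [if_neg hz]
      have : a z = 0 := by simp only [ha']; unfold gp; rw [p, zero_mul]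
      rw [p, this]; simp
  have h1 : ∑ z, w z * (pin c k z * max (own G w c z x - um * cl w c k) 0) ≤
      ∑ z, w z * (a z * max (oa G w a x z - (3 / 4 + μ) * m) 0) +
      1 / 4 * cl w c k * (cl w c k - m) := by
    rw [hXk, mul_sum, ← sum_add_distrib]
    refine sum_le_sum fun z _ => ?_
    have h2 := mul_le_mul_of_nonneg_left (key z) (hw z)
    refine h2.trans (le_of_eq ?_)
    ring
  have h2 := mul_le_mul_of_nonneg_left h1 hC.le
  rw [hWB] at main
  calc C * ∑ z, w z * (pin c k z * max (own G w c z x - um * cl w c k) 0) ≤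
      C * (∑ z, w z * (a z * max (oa G w a x z - (3 / 4 + μ) * m) 0) +
      1 / 4 * cl w c k * (cl w c k - m)) := h2
    _ ≤ _ := by linarith

end OwnAvg3

end K4m
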