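import Mathlib
import Pool.Agent.Lib.MP_392c14_co.Cnd

/-!
# Step A: standard copies of the design and the resampling chain

`St G u`: the labelled six points `u` span a standard copy of `D6`.  `EU G w F` is the (not
normalised) expectation of `F` over standard copies.  `vs G w u i` is the mass of the clones of
`u i`; `PK G w i F u` is the average of `F` after resampling the `i`-th point among its clones.
-/

set_option autoImplicit false

namespace K4m

open Finset Function

section StepA1

variable {V : Type} [Fintype V] [DecidableEq V] (G : TG V) (w : V → ℝ)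

/-- standard labelled copy -/
def St (u : Fin 6 → V) : Prop := ∀ a b c, G.E (u a) (u b) (u c) = D6.E a b c

instance decSt (u : Fin 6 → V) : Decidable (St G u) := by unfold St; infer_instance

/-- indicator of the standard copies -/
noncomputable def st (u : Fin 6 → V) : ℝ := ind (decide (St G u))

/-- weight of a six-tuple -/
noncomputable def pw (u : Fin 6 → V) : ℝ := ∏ i, w (u i)

/-- expectation over standard copies, not normalised -/
noncomputable def EU (F : (Fin 6 → V) → ℝ) : ℝ := ∑ u, pw w u * (st G u * F u)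

/-- mass of the clones of the `i`-th point -/
noncomputable def vs (u : Fin 6 → V) (i : Fin 6) : ℝ := ∑ x, w x * st G (update u i x)

/-- resampling the `i`-th point -/
noncomputable def PK (i : Fin 6) (F : (Fin 6 → V) → ℝ) (u : Fin 6 → V) : ℝ :=
  (∑ x, w x * (st G (update u i x) * F (update u i x))) / vs G w u i

theorem st_nonneg (u : Fin 6 → V) : 0 ≤ st G u := ind_nonneg _

theorem st_cases (u : Fin 6 → V) : (St G u ∧ st G u = 1) ∨ (¬ St G u ∧ st G u = 0) := by
  unfold st ind
  by_cases h : St G u
  · left; exact ⟨h, by simp [h]⟩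
  · right; exact ⟨h, by simp [h]⟩

theorem st_of (u : Fin 6 → V) (h : St G u) : st G u = 1 := by
  rcases st_cases G u with h' | h'
  · exact h'.2
  · exact absurd h h'.1

theorem st_le_one (u : Fin 6 → V) : st G u ≤ 1 := ind_le_one _

omit [Fintype V] [DecidableEq V] in
theorem pw_nonneg (hw : ∀ x, 0 ≤ w x) (u : Fin 6 → V) : 0 ≤ pw w u :=
  prod_nonneg fun i _ => hw _

omit [Fintype V] in
theorem pw_update (u : Fin 6 → V) (i : Fin 6) (x : V) :
    pw w (update u i x) * w (u i) = pw w u * w x := by
  unfold pw
  have h1 : ∏ j, w (update u i x j) = w x * ∏ j ∈ univ \ {i}, w (u j) := by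
    rw [← prod_update_of_mem (mem_univ i) (fun j => w (u j)) (w x)]
    refine prod_congr rfl fun j _ => ?_
    by_cases h : j = i
    · subst h; simp
    · simp [h]
  have h2 : ∏ j, w (u j) = w (u i) * ∏ j ∈ univ \ {i}, w (u j) := by
    rw [← prod_update_of_mem (mem_univ i) (fun j => w (u j)) (w (u i))]
    refine prod_congr rfl fun j _ => ?_
    by_cases h : j = i
    · subst h; simp
    · simp [h]
  rw [h1, h2]; ring

/-- the exchange of the `i`-th point with an extra point -/
def swp (i : Fin 6) : (Fin 6 → V) × V ≃ (Fin 6 → V) × V :=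
  Function.Involutive.toPerm (fun p => (update p.1 i p.2, p.1 i)) (by
    rintro ⟨u, x⟩
    simp)

theorem sum_swap (i : Fin 6) (F : (Fin 6 → V) → V → ℝ) :
    ∑ u, ∑ x, pw w u * w x * F u x = ∑ u, ∑ x, pw w u * w x * F (update u i x) (u i) := by
  have h1 : ∑ u, ∑ x, pw w u * w x * F u x =
      ∑ p : (Fin 6 → V) × V, pw w p.1 * w p.2 * F p.1 p.2 := by
    rw [← univ_product_univ, sum_product]
  have h2 : ∑ u : Fin 6 → V, ∑ x, pw w u * w x * F (update u i x) (u i) =
      ∑ p : (Fin 6 → V) × V, pw w p.1 * w p.2 * F (update p.1 i p.2) (p.1 i) := by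
    rw [← univ_product_univ, sum_product]
  rw [h1, h2, ← Equiv.sum_comp (swp i)]
  refine sum_congr rfl fun p _ => ?_
  obtain ⟨u, x⟩ := p
  show pw w (update u i x) * w (u i) * F (update u i x) (u i) =
    pw w u * w x * F (update u i x) (u i)
  rw [pw_update]

theorem vs_update (u : Fin 6 → V) (i : Fin 6) (x : V) : vs G w (update u i x) i = vs G w u i := by
  unfold vs
  simp only [update_idem]

theorem vs_nonneg (hw : ∀ x, 0 ≤ w x) (u : Fin 6 → V) (i : Fin 6) : 0 ≤ vs G w u i :=
  sum_nonneg fun x _ => mul_nonneg (hw x) (st_nonneg G _)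

theorem vs_pos (hw : ∀ x, 0 < w x) (u : Fin 6 → V) (hu : St G u) (i : Fin 6) :
    0 < vs G w u i := by
  unfold vs
  refine sum_pos' (fun x _ => mul_nonneg (hw x).le (st_nonneg G _)) ⟨u i, mem_univ _, ?_⟩
  rw [update_eq_self, st_of G u hu, mul_one]
  exact hw _

/-- the resampling kernel is stationary -/
theorem EU_PK (hw : ∀ x, 0 < w x) (i : Fin 6) (F : (Fin 6 → V) → ℝ) :
    EU G w (PK G w i F) = EU G w F := by
  have h1 : EU G w (PK G w i F) = ∑ u, ∑ x, pw w u * w x *
      (st G u * (st G (update u i x) * F (update u i x)) / vs G w u i) := by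
    unfold EU PK
    refine sum_congr rfl fun u _ => ?_
    rw [mul_div_assoc', mul_div_assoc', mul_sum, mul_sum, sum_div]
    refine sum_congr rfl fun x _ => ?_
    ring
  rw [h1, sum_swap w i (fun u x => st G u * (st G (update u i x) * F (update u i x)) /
    vs G w u i)]
  unfold EU
  refine sum_congr rfl fun u _ => ?_
  rcases st_cases G u with ⟨hu, h⟩ | ⟨_, h⟩
  · have hv := vs_pos G w hw u hu i
    have h2 : ∀ x, pw w u * w x * (st G (update u i x) * (st G (update (update u i x) i (u i)) *
        F (update (update u i x) i (u i))) / vs G w (update u i x) i) =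
        pw w u * F u / vs G w u i * (w x * st G (update u i x)) := by
      intro x
      rw [vs_update, update_idem, update_eq_self, h]
      ring
    rw [sum_congr rfl fun x _ => h2 x, ← mul_sum]
    have h3 : ∑ x, w x * st G (update u i x) = vs G w u i := rfl
    rw [h3, h]
    field_simp
  · have h2 : ∀ x, pw w u * w x * (st G (update u i x) * (st G (update (update u i x) i (u i)) *
        F (update (update u i x) i (u i))) / vs G w (update u i x) i) = 0 := by
      intro x
      rw [update_idem, update_eq_self, h]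
      ring
    rw [sum_congr rfl fun x _ => h2 x, h]
    simp

theorem EU_add (F H : (Fin 6 → V) → ℝ) :
    EU G w (fun u => F u + H u) = EU G w F + EU G w H := by
  unfold EU
  rw [← sum_add_distrib]
  exact sum_congr rfl fun u _ => by ring

theorem EU_mul (a : ℝ) (F : (Fin 6 → V) → ℝ) : EU G w (fun u => a * F u) = a * EU G w F := by
  unfold EU
  rw [mul_sum]
  exact sum_congr rfl fun u _ => by ring

theorem EU_sum {ι : Type} (s : Finset ι) (F : ι → (Fin 6 → V) → ℝ) :
    EU G w (fun u => ∑ i ∈ s, F i u) = ∑ i ∈ s, EU G w (F i) := by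
  unfold EU
  rw [sum_comm]
  refine sum_congr rfl fun u _ => ?_
  rw [mul_sum, mul_sum]

theorem EU_mono (hw : ∀ x, 0 ≤ w x) (F H : (Fin 6 → V) → ℝ) (h : ∀ u, St G u → F u ≤ H u) :
    EU G w F ≤ EU G w H := by
  unfold EU
  refine sum_le_sum fun u _ => mul_le_mul_of_nonneg_left ?_ (pw_nonneg w hw u)
  rcases st_cases G u with ⟨hu, e⟩ | ⟨_, e⟩
  · rw [e, one_mul, one_mul]; exact h u hu
  · rw [e, zero_mul, zero_mul]

theorem EU_nonneg (hw : ∀ x, 0 ≤ w x) (F : (Fin 6 → V) → ℝ) (h : ∀ u, St G u → 0 ≤ F u) :
    0 ≤ EU G w F := by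
  have := EU_mono G w hw (fun _ => 0) F h
  refine le_trans (le_of_eq ?_) this
  unfold EU
  simp

/-- there is a standard copy for which the functional is at most its average -/
theorem exists_le_avg (hw : ∀ x, 0 ≤ w x) (F : (Fin 6 → V) → ℝ) (y : ℝ)
    (h : EU G w F ≤ y * EU G w (fun _ => 1)) (hq : 0 < EU G w (fun _ => 1)) :
    ∃ u, St G u ∧ F u ≤ y := by
  by_contra hne
  push Not at hne
  have h1 : ∀ u, pw w u * (st G u * y) ≤ pw w u * (st G u * F u) := by
    intro u
    refine mul_le_mul_of_nonneg_left ?_ (pw_nonneg w hw u)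
    rcases st_cases G u with ⟨hu, e⟩ | ⟨_, e⟩
    · rw [e, one_mul, one_mul]; exact (hne u hu).le
    · rw [e, zero_mul, zero_mul]
  -- one term is strict
  obtain ⟨u, hu⟩ : ∃ u, 0 < pw w u * (st G u * 1) := by
    by_contra h2
    push Not at h2
    have : EU G w (fun _ => 1) ≤ 0 := by
      unfold EU
      exact sum_nonpos fun u _ => h2 u
    linarith
  have hst : St G u := by
    rcases st_cases G u with ⟨hu', _⟩ | ⟨_, e⟩
    · exact hu'
    · rw [e] at hu; simp at hu
  have hp : 0 < pw w u := by
    rw [st_of G u hst] at hu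
    simpa using hu
  have h3 : ∑ u, pw w u * (st G u * y) < ∑ u, pw w u * (st G u * F u) := by
    refine sum_lt_sum (fun u _ => h1 u) ⟨u, mem_univ _, ?_⟩
    rw [st_of G u hst]
    have := hne u hst
    have := mul_lt_mul_of_pos_left this hp
    linarith
  have h4 : ∑ u, pw w u * (st G u * y) = y * EU G w (fun _ => 1) := by
    unfold EU
    rw [mul_sum]
    exact sum_congr rfl fun u _ => by ring
  have h5 : ∑ u, pw w u * (st G u * F u) = EU G w F := rfl
  linarith

end StepA1

end K4m
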