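import Mathlib
import Pool.Agent.Lib.MP_392c14_co.StepA1

/-!
# Step A: failing pairs

Combinatorics of a standard copy `u` and of the clones of its points: full twins, failing pairs,
missing and bad triples.
-/

set_option autoImplicit false

namespace K4m

open Finset Function

section Comb

variable {V : Type} [DecidableEq V] (G : TG V)

/-- the link of `z` agrees with the link of the `k`-th point on the marked points -/
def Ag (S : Fin 6 → Bool) (k : Fin 6) (u : Fin 6 → V) (z : V) : Prop :=
  ∀ a b, S a = true → S b = true → G.E z (u a) (u b) = D6.E k a b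

instance decAg (S : Fin 6 → Bool) (k : Fin 6) (u : Fin 6 → V) (z : V) :
    Decidable (Ag G S k u z) := by unfold Ag; infer_instance

/-- all points -/
def Sall : Fin 6 → Bool := fun _ => true

/-- all points but one -/
def Soff (i : Fin 6) : Fin 6 → Bool := fun a => !decide (a = i)

/-- all points but two -/
def Soff2 (i j : Fin 6) : Fin 6 → Bool := fun a => !decide (a = i) && !decide (a = j)

theorem D6_ex_block : ∀ k b : Fin 6, k ≠ b → ∃ c, c ≠ k ∧ c ≠ b ∧ D6.E k b c = true := by
  decide +kernel

theorem D6_last : ∀ a b : Fin 6, D6.E a b b = false := by decide +kernel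

theorem D6_mid : ∀ a b : Fin 6, D6.E a b a = false := by decide +kernel

theorem D6_nonblock : ∀ i j k : Fin 6, i ≠ j → i ≠ k → j ≠ k → D6.E i j k = false →
    ∃ c, c ≠ i ∧ c ≠ j ∧ c ≠ k ∧ D6.E i k c = true ∧ D6.E j k c = true := by decide +kernel

omit [DecidableEq V] in
theorem E_last (x y : V) : G.E x y y = false := by
  have h := G.irr y x
  rw [← G.symm₁ x y y, ← G.symm₂ y x y]
  exact h

omit [DecidableEq V] in
theorem E_mid (x y : V) : G.E x y x = false := by
  rw [G.symm₂ x x y]; exact G.irr x y

omit [DecidableEq V] in
/-- cyclic rotation -/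
theorem E_cyc (x y z : V) : G.E y z x = G.E x y z := by
  rw [G.symm₂ y x z, G.symm₁ x y z]

omit [DecidableEq V] in
/-- three edges through `a` on four points -/
theorem free_a (a b c d : V) (h1 : G.E a b c = true) (h2 : G.E a b d = true)
    (h3 : G.E a c d = true) : False := G.free a b c d ⟨h1, h2, h3⟩

/-- clones agree off their index -/
theorem clone_off {u : Fin 6 → V} {k : Fin 6} {z : V} (h : St G (update u k z)) :
    Ag G (Soff k) k u z := by
  intro a b ha hb
  have ha' : a ≠ k := by
    intro e; subst e; simp [Soff] at ha
  have hb' : b ≠ k := by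
    intro e; subst e; simp [Soff] at hb
  have h1 := h k a b
  rw [update_self, update_of_ne ha', update_of_ne hb'] at h1
  exact h1

/-- a clone is a full twin -/
theorem clone_all {u : Fin 6 → V} (hu : St G u) {k : Fin 6} {z : V}
    (h : St G (update u k z)) (a b : Fin 6) : G.E z (u a) (u b) = D6.E k a b := by
  have hoff := clone_off G h
  have key : ∀ b, b ≠ k → G.E z (u k) (u b) = false := by
    intro b hb
    obtain ⟨c, hck, hcb, hc⟩ := D6_ex_block k b (Ne.symm hb)
    by_contra hne
    have h1 : G.E z (u k) (u b) = true := by
      rcases hE : G.E z (u k) (u b) with _ | _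
      · exact absurd hE hne
      · rfl
    have h2 : G.E z (u b) (u c) = true := by
      have := hoff b c (by simp [Soff, hb]) (by simp [Soff, hck])
      rw [this]; exact hc
    have h3 : G.E (u k) (u b) (u c) = true := by rw [hu k b c]; exact hc
    refine free_a G (u b) z (u k) (u c) ?_ ?_ ?_
    · rw [← E_cyc G (u b) z (u k)]
      exact h1
    · rw [G.symm₁ z (u b) (u c)]; exact h2
    · rw [G.symm₁ (u k) (u b) (u c)]; exact h3
  by_cases ha : a = k
  · by_cases hb : b = k
    · subst ha; subst hb
      rw [E_last, D6_last]
    · subst ha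
      rw [key b hb, D6.irr]
  · by_cases hb : b = k
    · subst hb
      rw [G.symm₂ z (u b) (u a), key a ha, D6_mid]
    · exact hoff a b (by simp [Soff, ha]) (by simp [Soff, hb])

/-- full twins are clones -/
theorem clone_of {u : Fin 6 → V} (hu : St G u) {k : Fin 6} {z : V}
    (h : Ag G (Soff k) k u z) : St G (update u k z) := by
  have key : ∀ b c, b ≠ k → c ≠ k → G.E z (u b) (u c) = D6.E k b c := fun b c hb hc =>
    h b c (by simp [Soff, hb]) (by simp [Soff, hc])
  intro a b c
  by_cases ha : a = k
  · subst ha
    rw [update_self]
    by_cases hb : b = a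
    · subst hb
      rw [update_self, G.irr, D6.irr]
    · rw [update_of_ne hb]
      by_cases hc : c = a
      · subst hc
        rw [update_self, E_mid, D6_mid]
      · rw [update_of_ne hc]
        exact key b c hb hc
  · rw [update_of_ne ha]
    by_cases hb : b = k
    · subst hb
      rw [update_self]
      by_cases hc : c = b
      · subst hc
        rw [update_self, E_last, D6_last]
      · rw [update_of_ne hc, G.symm₁, D6.symm₁ b a c]
        exact key a c ha hc
    · rw [update_of_ne hb]
      by_cases hc : c = k
      · subst hc
        rw [update_self, E_cyc G z (u a) (u b)]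
        have : D6.E a b c = D6.E c a b := by
          rw [← E_cyc D6 c a b]
        rw [this]
        exact key a b ha hb
      · rw [update_of_ne hc]
        exact hu a b c

/-- two clones of different points, one of them still a clone after replacing the other one -/
theorem pair_ok {u : Fin 6 → V} {i j : Fin 6} (hij : i ≠ j) {x y : V}
    (h : St G (update (update u i x) j y)) (b : Fin 6) (hbi : b ≠ i) (hbj : b ≠ j) :
    G.E x y (u b) = D6.E i j b := by
  have h1 := h i j b
  rw [update_self, update_of_ne hij, update_self, update_of_ne hbj, update_of_ne hbi] at h1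
  exact h1

/-- a bad edge in three different classes has two failing pairs -/
theorem bad_two {u : Fin 6 → V} {i j k : Fin 6} (hij : i ≠ j) (hik : i ≠ k) (hjk : j ≠ k)
    (hb : D6.E i j k = false) {x y z : V} (hE : G.E x y z = true)
    (h1 : St G (update (update u i x) k z)) (h2 : St G (update (update u j y) k z)) : False := by
  obtain ⟨c, hci, hcj, hck, c1, c2⟩ := D6_nonblock i j k hij hik hjk hb
  have e1 := pair_ok G hik h1 c hci hck
  have e2 := pair_ok G hjk h2 c hcj hck
  rw [c1] at e1
  rw [c2] at e2
  refine free_a G z x y (u c) ?_ ?_ ?_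
  · rw [← E_cyc G z x y]; exact hE
  · rw [G.symm₁ x z (u c)]; exact e1
  · rw [G.symm₁ y z (u c)]; exact e2

/-- a bad edge with two points in one class has a failing pair -/
theorem bad_own {u : Fin 6 → V} {i j : Fin 6} (hij : i ≠ j) {x y z : V} (hE : G.E x y z = true)
    (h1 : St G (update (update u i x) j z)) (h2 : St G (update (update u i y) j z)) : False := by
  obtain ⟨c, hci, hcj, hc⟩ := D6_ex_block i j hij
  have e1 := pair_ok G hij h1 c hci hcj
  have e2 := pair_ok G hij h2 c hci hcj
  rw [hc] at e1 e2
  refine free_a G z x y (u c) ?_ ?_ ?_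
  · rw [← E_cyc G z x y]; exact hE
  · rw [G.symm₁ x z (u c)]; exact e1
  · rw [G.symm₁ y z (u c)]; exact e2

/-- a clone of the `j`-th point agrees off `i` after replacing the `i`-th point -/
theorem ag_after {u : Fin 6 → V} (hu : St G u) {i j : Fin 6} {x y : V}
    (h : St G (update u j y)) : Ag G (Soff i) j (update u i x) y := by
  intro a b ha hb
  have ha' : a ≠ i := by
    intro e; subst e; simp [Soff] at ha
  have hb' : b ≠ i := by
    intro e; subst e; simp [Soff] at hb
  rw [update_of_ne ha', update_of_ne hb']
  exact clone_all G hu h a b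

/-- the same after replacing two points -/
theorem ag_after2 {u : Fin 6 → V} (hu : St G u) {i j k : Fin 6} {x y z : V}
    (h : St G (update u k z)) : Ag G (Soff2 i j) k (update (update u i x) j y) z := by
  intro a b ha hb
  simp only [Soff2, Bool.and_eq_true, Bool.not_eq_true', decide_eq_false_iff_not] at ha hb
  rw [update_of_ne ha.2, update_of_ne ha.1, update_of_ne hb.2, update_of_ne hb.1]
  exact clone_all G hu h a b

/-- a clone of the `j`-th point after replacing the `i`-th one agrees off `i` before -/
theorem ag_before {u : Fin 6 → V} {i j : Fin 6} {x y : V} (hx : St G (update u i x))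
    (h : St G (update (update u i x) j y)) : Ag G (Soff i) j u y := by
  intro a b ha hb
  have ha' : a ≠ i := by
    intro e; subst e; simp [Soff] at ha
  have hb' : b ≠ i := by
    intro e; subst e; simp [Soff] at hb
  have := clone_all G hx h a b
  rw [update_of_ne ha', update_of_ne hb'] at this
  exact this

/-- a point is a clone of at most one point -/
theorem clone_unique {u : Fin 6 → V} (hu : St G u) {i j : Fin 6} {x : V}
    (h1 : St G (update u i x)) (h2 : St G (update u j x)) : i = j := by
  by_contra hne
  obtain ⟨c, hci, hcj, hc⟩ := D6_ex_block i j hne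
  have e1 := clone_all G hu h1 j c
  have e2 := clone_all G hu h2 j c
  rw [e1, hc, D6.irr] at e2
  exact absurd e2 (by simp)

end Comb

end K4m
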