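import Mathlib
import Pool.Agent.Lib.MP_392c14_co.StepA2

/-!
# Step A: pointwise bounds by resampling functionals

For a standard copy `u`: the mass of failing pairs, of missing block triples and of bad triples of
clones, bounded by averages over one or two resampled points of masses of nonclones.
-/

set_option autoImplicit false

namespace K4m

open Finset Function

section Func

variable {V : Type} [Fintype V] [DecidableEq V] (G : TG V) (w : V → ℝ)

/-- indicator of agreement -/
noncomputable def agi (S : Fin 6 → Bool) (k : Fin 6) (u : Fin 6 → V) (z : V) : ℝ :=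
  ind (decide (Ag G S k u z))

/-- mass of the nonclones agreeing with the `j`-th point off `i` -/
noncomputable def xi (i j : Fin 6) (u : Fin 6 → V) : ℝ :=
  ∑ y, w y * (agi G (Soff i) j u y * (1 - st G (update u j y)))

/-- mass of the vertices agreeing with the `k`-th point off `i, j` for which the pair `i, j` is
missing -/
noncomputable def xm (i j k : Fin 6) (u : Fin 6 → V) : ℝ :=
  ∑ z, w z * (agi G (Soff2 i j) k u z * (1 - ind (G.E (u i) (u j) z)))

/-- mass of the vertices agreeing with the `i`-th point off `j` with the extra pair `i, j` -/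
noncomputable def xc (i j : Fin 6) (u : Fin 6 → V) : ℝ :=
  ∑ z, w z * (agi G (Soff j) i u z * ind (G.E (u i) (u j) z))

/-- mass of the failing pairs -/
noncomputable def Fm (i j : Fin 6) (u : Fin 6 → V) : ℝ :=
  ∑ x, ∑ y, w x * w y * (st G (update u i x) * st G (update u j y) *
    (1 - st G (update (update u i x) j y)))

/-- mass of the missing triples of clones -/
noncomputable def Mm (i j k : Fin 6) (u : Fin 6 → V) : ℝ :=
  ∑ x, ∑ y, ∑ z, w x * w y * w z * (st G (update u i x) * st G (update u j y) *
    st G (update u k z) * (1 - ind (G.E x y z)))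

/-- mass of the edges of clones -/
noncomputable def Bm (i j k : Fin 6) (u : Fin 6 → V) : ℝ :=
  ∑ x, ∑ y, ∑ z, w x * w y * w z * (st G (update u i x) * st G (update u j y) *
    st G (update u k z) * ind (G.E x y z))

theorem agi_nonneg (S : Fin 6 → Bool) (k : Fin 6) (u : Fin 6 → V) (z : V) :
    0 ≤ agi G S k u z := ind_nonneg _

theorem agi_of {S : Fin 6 → Bool} {k : Fin 6} {u : Fin 6 → V} {z : V} (h : Ag G S k u z) :
    agi G S k u z = 1 := by
  unfold agi ind
  simp [h]

theorem xi_nonneg (hw : ∀ x, 0 ≤ w x) (i j : Fin 6) (u : Fin 6 → V) : 0 ≤ xi G w i j u :=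
  sum_nonneg fun y _ => mul_nonneg (hw y) (mul_nonneg (agi_nonneg G _ _ _ _)
    (by have := st_le_one G (update u j y); linarith))

theorem xm_nonneg (hw : ∀ x, 0 ≤ w x) (i j k : Fin 6) (u : Fin 6 → V) : 0 ≤ xm G w i j k u :=
  sum_nonneg fun y _ => mul_nonneg (hw y) (mul_nonneg (agi_nonneg G _ _ _ _)
    (by have := ind_le_one (G.E (u i) (u j) y); linarith))

theorem xc_nonneg (hw : ∀ x, 0 ≤ w x) (i j : Fin 6) (u : Fin 6 → V) : 0 ≤ xc G w i j u :=
  sum_nonneg fun y _ => mul_nonneg (hw y) (mul_nonneg (agi_nonneg G _ _ _ _) (ind_nonneg _))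

theorem Fm_nonneg (hw : ∀ x, 0 ≤ w x) (i j : Fin 6) (u : Fin 6 → V) : 0 ≤ Fm G w i j u :=
  sum_nonneg fun x _ => sum_nonneg fun y _ => mul_nonneg (mul_nonneg (hw x) (hw y))
    (mul_nonneg (mul_nonneg (st_nonneg G _) (st_nonneg G _))
      (by have := st_le_one G (update (update u i x) j y); linarith))

theorem PK_nonneg (hw : ∀ x, 0 ≤ w x) (i : Fin 6) (F : (Fin 6 → V) → ℝ) (hF : ∀ u, 0 ≤ F u)
    (u : Fin 6 → V) : 0 ≤ PK G w i F u :=
  div_nonneg (sum_nonneg fun x _ => mul_nonneg (hw x) (mul_nonneg (st_nonneg G _) (hF _)))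
    (vs_nonneg G w hw u i)

theorem vs_PK (hw : ∀ x, 0 < w x) (u : Fin 6 → V) (hu : St G u) (i : Fin 6)
    (F : (Fin 6 → V) → ℝ) : vs G w u i * PK G w i F u =
    ∑ x, w x * (st G (update u i x) * F (update u i x)) := by
  have hv := vs_pos G w hw u hu i
  unfold PK
  field_simp

theorem Fm_symm (u : Fin 6 → V) (i j : Fin 6) (hij : i ≠ j) : Fm G w j i u = Fm G w i j u := by
  unfold Fm
  rw [sum_comm]
  refine sum_congr rfl fun x _ => sum_congr rfl fun y _ => ?_
  rw [update_comm hij]
  ring

/-- the masses of the clones after resampling -/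
theorem vs_after (hw : ∀ x, 0 ≤ w x) (u : Fin 6 → V) (i j : Fin 6) (x : V)
    (hx : St G (update u i x)) : vs G w (update u i x) j ≤ vs G w u j + xi G w i j u := by
  unfold vs xi
  rw [← sum_add_distrib]
  refine sum_le_sum fun y _ => ?_
  rw [← mul_add]
  refine mul_le_mul_of_nonneg_left ?_ (hw y)
  have h0 := agi_nonneg G (Soff i) j u y
  rcases st_cases G (update (update u i x) j y) with ⟨h, e⟩ | ⟨_, e⟩
  · rw [e, agi_of G (ag_before G hx h)]
    linarith
  · rw [e]
    have h1 := st_nonneg G (update u j y)
    have h2 := st_le_one G (update u j y)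
    have : 0 ≤ agi G (Soff i) j u y * (1 - st G (update u j y)) :=
      mul_nonneg h0 (by linarith)
    linarith

/-- failing pairs -/
theorem Fm_le (hw : ∀ x, 0 < w x) (u : Fin 6 → V) (hu : St G u) (i j : Fin 6) :
    Fm G w i j u ≤ vs G w u i * PK G w i (xi G w i j) u := by
  have hw0 : ∀ x, 0 ≤ w x := fun x => (hw x).le
  rw [vs_PK G w hw u hu]
  unfold Fm xi
  refine sum_le_sum fun x _ => ?_
  rw [mul_sum, mul_sum]
  refine sum_le_sum fun y _ => ?_
  have e : w x * (st G (update u i x) * (w y * (agi G (Soff i) j (update u i x) y *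
      (1 - st G (update (update u i x) j y))))) = w x * w y * (st G (update u i x) *
      agi G (Soff i) j (update u i x) y * (1 - st G (update (update u i x) j y))) := by ring
  rw [e]
  refine mul_le_mul_of_nonneg_left ?_ (mul_nonneg (hw0 x) (hw0 y))
  refine mul_le_mul_of_nonneg_right ?_ (by
    have := st_le_one G (update (update u i x) j y); linarith)
  refine mul_le_mul_of_nonneg_left ?_ (st_nonneg G _)
  rcases st_cases G (update u j y) with ⟨h, e⟩ | ⟨_, e⟩
  · rw [e, agi_of G (ag_after G hu h)]
  · rw [e]; exact agi_nonneg G _ _ _ _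

/-- a double sum over two resampled points -/
theorem two_step (hw : ∀ x, 0 < w x) (u : Fin 6 → V) (hu : St G u) (i j : Fin 6)
    (F : (Fin 6 → V) → ℝ) (hF : ∀ u, 0 ≤ F u) :
    ∑ x, ∑ y, w x * w y * (st G (update u i x) * (st G (update (update u i x) j y) *
      F (update (update u i x) j y))) ≤
    (vs G w u j + xi G w i j u) * (vs G w u i * PK G w i (PK G w j F) u) := by
  have hw0 : ∀ x, 0 ≤ w x := fun x => (hw x).le
  rw [vs_PK G w hw u hu, mul_sum]
  refine sum_le_sum fun x _ => ?_
  rcases st_cases G (update u i x) with ⟨h, e⟩ | ⟨_, e⟩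
  · have h1 := vs_PK G w hw (update u i x) h j F
    have h2 : ∑ y, w x * w y * (st G (update u i x) * (st G (update (update u i x) j y) *
        F (update (update u i x) j y))) = w x * (vs G w (update u i x) j *
        PK G w j F (update u i x)) := by
      rw [h1, mul_sum]
      refine sum_congr rfl fun y _ => ?_
      rw [e]; ring
    rw [h2, e]
    have h3 := PK_nonneg G w hw0 j F hF (update u i x)
    have h4 := vs_after G w hw0 u i j x h
    have h5 : vs G w (update u i x) j * PK G w j F (update u i x) ≤
        (vs G w u j + xi G w i j u) * PK G w j F (update u i x) :=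
      mul_le_mul_of_nonneg_right h4 h3
    calc w x * (vs G w (update u i x) j * PK G w j F (update u i x)) ≤
        w x * ((vs G w u j + xi G w i j u) * PK G w j F (update u i x)) :=
          mul_le_mul_of_nonneg_left h5 (hw0 x)
      _ = _ := by ring
  · rw [e]
    simp

/-- missing block triples -/
theorem Mm_le (hw : ∀ x, 0 < w x) (u : Fin 6 → V) (hu : St G u) (i j k : Fin 6) (hij : i ≠ j) :
    Mm G w i j k u ≤ vs G w u k * Fm G w i j u +
      (vs G w u j + xi G w i j u) * (vs G w u i * PK G w i (PK G w j (xm G w i j k)) u) := by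
  have hw0 : ∀ x, 0 ≤ w x := fun x => (hw x).le
  refine le_trans ?_ (add_le_add_right (two_step G w hw u hu i j (xm G w i j k)
    (xm_nonneg G w hw0 i j k)) _)
  have e1 : vs G w u k * Fm G w i j u = ∑ x, ∑ y, ∑ z, w x * w y * w z *
      (st G (update u k z) * (st G (update u i x) * st G (update u j y) *
    (1 - st G (update (update u i x) j y)))) := by
    unfold vs Fm
    rw [mul_sum]
    refine sum_congr rfl fun x _ => ?_
    rw [mul_sum]
    refine sum_congr rfl fun y _ => ?_
    rw [sum_mul]
    refine sum_congr rfl fun z _ => ?_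
    ring
  have e2 : ∑ x, ∑ y, w x * w y * (st G (update u i x) * (st G (update (update u i x) j y) *
      xm G w i j k (update (update u i x) j y))) = ∑ x, ∑ y, ∑ z, w x * w y * w z *
      (st G (update u i x) * (st G (update (update u i x) j y) *
      (agi G (Soff2 i j) k (update (update u i x) j y) z * (1 - ind (G.E x y z))))) := by
    refine sum_congr rfl fun x _ => sum_congr rfl fun y _ => ?_
    unfold xm
    rw [update_self, update_of_ne hij, update_self]
    simp only [mul_sum]
    refine sum_congr rfl fun z _ => ?_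
    ring
  rw [e1, e2, ← sum_add_distrib]
  unfold Mm
  refine sum_le_sum fun x _ => ?_
  rw [← sum_add_distrib]
  refine sum_le_sum fun y _ => ?_
  rw [← sum_add_distrib]
  refine sum_le_sum fun z _ => ?_
  rw [← mul_add]
  refine mul_le_mul_of_nonneg_left ?_ (mul_nonneg (mul_nonneg (hw0 x) (hw0 y)) (hw0 z))
  have i0 := ind_nonneg (G.E x y z)
  have i1 := ind_le_one (G.E x y z)
  have sx := st_nonneg G (update u i x)
  have sy := st_nonneg G (update u j y)
  have sz := st_nonneg G (update u k z)
  have sxy := st_nonneg G (update (update u i x) j y)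
  have sxy1 := st_le_one G (update (update u i x) j y)
  have ag0 := agi_nonneg G (Soff2 i j) k (update (update u i x) j y) z
  rcases st_cases G (update (update u i x) j y) with ⟨h, e⟩ | ⟨_, e⟩
  · rcases st_cases G (update u k z) with ⟨hz, ez⟩ | ⟨_, ez⟩
    · rw [e, ez, agi_of G (ag_after2 G hu hz)]
      have sy1 := st_le_one G (update u j y)
      have : st G (update u i x) * st G (update u j y) * 1 * (1 - ind (G.E x y z)) ≤
          st G (update u i x) * 1 * 1 * (1 - ind (G.E x y z)) := by
        refine mul_le_mul_of_nonneg_right ?_ (by linarith)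
        refine mul_le_mul_of_nonneg_right ?_ (by norm_num)
        exact mul_le_mul_of_nonneg_left sy1 sx
      linarith
    · rw [ez]
      have h1 : 0 ≤ st G (update u i x) * (st G (update (update u i x) j y) *
        (agi G (Soff2 i j) k (update (update u i x) j y) z * (1 - ind (G.E x y z)))) :=
        mul_nonneg sx (mul_nonneg sxy (mul_nonneg ag0 (by linarith)))
      linarith
  · rw [e]
    have h1 : st G (update u i x) * st G (update u j y) * st G (update u k z) *
        (1 - ind (G.E x y z)) ≤ st G (update u i x) * st G (update u j y) *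
        st G (update u k z) * 1 :=
      mul_le_mul_of_nonneg_left (by linarith) (mul_nonneg (mul_nonneg sx sy) sz)
    linarith

/-- a product of a failing pair with a third clone, in three positions -/
theorem fail_sum (i j k : Fin 6) (u : Fin 6 → V) :
    vs G w u k * Fm G w i j u = ∑ x, ∑ y, ∑ z, w x * w y * w z *
      (st G (update u i x) * st G (update u j y) * st G (update u k z) *
      (1 - st G (update (update u i x) j y))) := by
  unfold vs Fm
  rw [mul_sum]
  refine sum_congr rfl fun x _ => ?_
  rw [mul_sum]
  refine sum_congr rfl fun y _ => ?_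
  rw [sum_mul]
  refine sum_congr rfl fun z _ => ?_
  ring

theorem fail_sum23 (i j k : Fin 6) (u : Fin 6 → V) :
    vs G w u i * Fm G w j k u = ∑ x, ∑ y, ∑ z, w x * w y * w z *
      (st G (update u i x) * st G (update u j y) * st G (update u k z) *
      (1 - st G (update (update u j y) k z))) := by
  unfold vs Fm
  rw [sum_mul]
  refine sum_congr rfl fun x _ => ?_
  rw [mul_sum]
  refine sum_congr rfl fun y _ => ?_
  rw [mul_sum]
  refine sum_congr rfl fun z _ => ?_
  ring

theorem fail_sum13 (i j k : Fin 6) (u : Fin 6 → V) :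
    vs G w u j * Fm G w i k u = ∑ x, ∑ y, ∑ z, w x * w y * w z *
      (st G (update u i x) * st G (update u j y) * st G (update u k z) *
      (1 - st G (update (update u i x) k z))) := by
  unfold vs Fm
  rw [mul_sum]
  refine sum_congr rfl fun x _ => ?_
  rw [sum_mul]
  refine sum_congr rfl fun y _ => ?_
  rw [mul_sum]
  refine sum_congr rfl fun z _ => ?_
  ring

/-- bad edges in three different classes -/
theorem Bm_le (hw : ∀ x, 0 ≤ w x) (u : Fin 6 → V) (i j k : Fin 6) (hij : i ≠ j)
    (hik : i ≠ k) (hjk : j ≠ k) (hb : D6.E i j k = false) :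
    2 * Bm G w i j k u ≤ vs G w u k * Fm G w i j u + vs G w u i * Fm G w j k u +
      vs G w u j * Fm G w i k u := by
  rw [fail_sum, fail_sum23 G w i j k, fail_sum13 G w i j k, ← sum_add_distrib,
    ← sum_add_distrib]
  unfold Bm
  rw [mul_sum]
  refine sum_le_sum fun x _ => ?_
  rw [← sum_add_distrib, ← sum_add_distrib, mul_sum]
  refine sum_le_sum fun y _ => ?_
  rw [← sum_add_distrib, ← sum_add_distrib, mul_sum]
  refine sum_le_sum fun z _ => ?_
  have e : ∀ a b c d f p q s : ℝ, p * (q * (1 - a)) + p * (q * (1 - b)) + p * (q * (1 - c)) =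
      p * (q * (3 - a - b - c)) := fun a b c d f p q s => by ring
  rw [e _ _ _ 0 0 _ _ 0]
  have e2 : 2 * (w x * w y * w z * (st G (update u i x) * st G (update u j y) *
      st G (update u k z) * ind (G.E x y z))) = w x * w y * w z * (st G (update u i x) *
      st G (update u j y) * st G (update u k z) * (2 * ind (G.E x y z))) := by ring
  rw [e2]
  refine mul_le_mul_of_nonneg_left ?_ (mul_nonneg (mul_nonneg (hw x) (hw y)) (hw z))
  refine mul_le_mul_of_nonneg_left ?_ (mul_nonneg (mul_nonneg (st_nonneg G _) (st_nonneg G _))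
    (st_nonneg G _))
  have a1 := st_le_one G (update (update u i x) j y)
  have a2 := st_le_one G (update (update u j y) k z)
  have a3 := st_le_one G (update (update u i x) k z)
  rcases hE : G.E x y z with _ | _
  · have : ind false = 0 := by simp [ind]
    rw [this]; linarith
  · have h1 : ind true = 1 := by simp [ind]
    rw [h1]
    rcases st_cases G (update (update u i x) j y) with ⟨p1, q1⟩ | ⟨_, q1⟩ <;>
      rcases st_cases G (update (update u j y) k z) with ⟨p2, q2⟩ | ⟨_, q2⟩ <;>
      rcases st_cases G (update (update u i x) k z) with ⟨p3, q3⟩ | ⟨_, q3⟩ <;>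
      rw [q1, q2, q3] <;> try norm_num
    all_goals exfalso
    · exact bad_two G hij hik hjk hb hE p3 p2
    · -- (x,y) ok, (y,z) ok
      have hb' : D6.E i k j = false := by rw [D6.symm₂]; exact hb
      have hE' : G.E x z y = true := by rw [G.symm₂]; exact hE
      rw [update_comm hjk] at p2
      exact bad_two G hik hij (Ne.symm hjk) hb' hE' p1 p2
    · -- (x,y) ok, (x,z) ok
      have hb' : D6.E j k i = false := by rw [E_cyc]; exact hb
      have hE' : G.E y z x = true := by rw [E_cyc]; exact hE
      rw [update_comm hij] at p1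
      rw [update_comm hik] at p3
      exact bad_two G hjk (Ne.symm hij) (Ne.symm hik) hb' hE' p1 p3
    · exact bad_two G hij hik hjk hb hE p3 p2

/-- bad edges with two points in one class -/
theorem Bo_le (hw : ∀ x, 0 < w x) (u : Fin 6 → V) (hu : St G u) (i j : Fin 6) (hij : i ≠ j) :
    Bm G w i i j u ≤ vs G w u i * Fm G w i j u +
      2 * ((vs G w u j + xi G w i j u) * (vs G w u i * PK G w i (PK G w j (xc G w i j)) u)) := by
  have hw0 : ∀ x, 0 ≤ w x := fun x => (hw x).le
  have key := two_step G w hw u hu i j (xc G w i j) (xc_nonneg G w hw0 i j)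
  set T := (vs G w u j + xi G w i j u) * (vs G w u i * PK G w i (PK G w j (xc G w i j)) u)
  -- the double sum in two forms
  have e2 : ∑ x, ∑ y, w x * w y * (st G (update u i x) * (st G (update (update u i x) j y) *
      xc G w i j (update (update u i x) j y))) = ∑ x, ∑ y, ∑ z, w x * w y * w z *
      (st G (update u i x) * (st G (update (update u i x) j z) *
      (agi G (Soff j) i (update (update u i x) j z) y * ind (G.E x y z)))) := by
    refine sum_congr rfl fun x _ => ?_
    rw [sum_comm]
    refine sum_congr rfl fun y _ => ?_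
    unfold xc
    rw [update_self, update_of_ne hij, update_self]
    simp only [mul_sum]
    refine sum_congr rfl fun z _ => ?_
    rw [G.symm₂ x z y]
    ring
  have e3 : ∑ x, ∑ y, ∑ z, w x * w y * w z *
      (st G (update u i x) * (st G (update (update u i x) j z) *
      (agi G (Soff j) i (update (update u i x) j z) y * ind (G.E x y z)))) =
      ∑ x, ∑ y, ∑ z, w x * w y * w z *
      (st G (update u i y) * (st G (update (update u i y) j z) *
      (agi G (Soff j) i (update (update u i y) j z) x * ind (G.E x y z)))) := by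
    rw [sum_comm]
    refine sum_congr rfl fun x _ => sum_congr rfl fun y _ => sum_congr rfl fun z _ => ?_
    rw [G.symm₁ x y z]
    ring
  have h2T : ∑ x, ∑ y, ∑ z, w x * w y * w z *
      (st G (update u i x) * (st G (update (update u i x) j z) *
      (agi G (Soff j) i (update (update u i x) j z) y * ind (G.E x y z)))) +
      ∑ x, ∑ y, ∑ z, w x * w y * w z *
      (st G (update u i y) * (st G (update (update u i y) j z) *
      (agi G (Soff j) i (update (update u i y) j z) x * ind (G.E x y z)))) ≤ 2 * T := by
    rw [← e3, ← e2]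
    linarith
  refine le_trans ?_ (add_le_add_right h2T _)
  rw [fail_sum13 G w i i j, ← sum_add_distrib, ← sum_add_distrib]
  unfold Bm
  refine sum_le_sum fun x _ => ?_
  rw [← sum_add_distrib, ← sum_add_distrib]
  refine sum_le_sum fun y _ => ?_
  rw [← sum_add_distrib, ← sum_add_distrib]
  refine sum_le_sum fun z _ => ?_
  rw [← mul_add, ← mul_add]
  refine mul_le_mul_of_nonneg_left ?_ (mul_nonneg (mul_nonneg (hw0 x) (hw0 y)) (hw0 z))
  have i0 := ind_nonneg (G.E x y z)
  have sx := st_nonneg G (update u i x)
  have sy := st_nonneg G (update u i y)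
  have sz := st_nonneg G (update u j z)
  have sxz := st_nonneg G (update (update u i x) j z)
  have syz := st_nonneg G (update (update u i y) j z)
  have sxz1 := st_le_one G (update (update u i x) j z)
  have agx := agi_nonneg G (Soff j) i (update (update u i x) j z) y
  have agy := agi_nonneg G (Soff j) i (update (update u i y) j z) x
  have n1 : 0 ≤ st G (update u i x) * st G (update u i y) * st G (update u j z) *
      (1 - st G (update (update u i x) j z)) :=
    mul_nonneg (mul_nonneg (mul_nonneg sx sy) sz) (by linarith)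
  have n2 : 0 ≤ st G (update u i x) * (st G (update (update u i x) j z) *
      (agi G (Soff j) i (update (update u i x) j z) y * ind (G.E x y z))) :=
    mul_nonneg sx (mul_nonneg sxz (mul_nonneg agx i0))
  have n3 : 0 ≤ st G (update u i y) * (st G (update (update u i y) j z) *
      (agi G (Soff j) i (update (update u i y) j z) x * ind (G.E x y z))) :=
    mul_nonneg sy (mul_nonneg syz (mul_nonneg agy i0))
  rcases st_cases G (update u i x) with ⟨px, qx⟩ | ⟨_, qx⟩
  swap
  · rw [qx] at n1 n2 ⊢
    linarith
  rcases st_cases G (update u i y) with ⟨py, qy⟩ | ⟨_, qy⟩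
  swap
  · rw [qy] at n1 n3 ⊢
    linarith
  rcases st_cases G (update u j z) with ⟨pz, qz⟩ | ⟨_, qz⟩
  swap
  · rw [qz] at n1 ⊢
    linarith
  rcases hE : G.E x y z with _ | _
  · have hf : ind false = 0 := by simp [ind]
    rw [hE, hf] at n2 n3
    rw [hf]
    linarith
  have h1 : ind true = 1 := by simp [ind]
  rcases st_cases G (update (update u i x) j z) with ⟨pxz, qxz⟩ | ⟨_, qxz⟩
  swap
  · rw [hE, h1] at n2 n3
    rw [qx, qxz] at n2
    rw [qy] at n3
    rw [qx, qy, qz, qxz, h1]
    linarith
  · -- now `(x,z)` is fine
    have hag : Ag G (Soff j) i (update (update u i x) j z) y := by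
      have hyx : St G (update (update u i x) i y) := by rw [update_idem]; exact py
      have := clone_all G px hyx
      intro a b ha hb
      have ha' : a ≠ j := by
        intro e; subst e; simp [Soff] at ha
      have hb' : b ≠ j := by
        intro e; subst e; simp [Soff] at hb
      rw [update_of_ne ha', update_of_ne hb']
      exact this a b
    rw [hE, h1, qy] at n3
    rw [agi_of G hag, qx, qy, qz, qxz, h1]
    linarith

end Func

end K4m
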