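import Mathlib
import Pool.Agent.Lib.MP_392c14_co.StepA3
import Pool.Agent.Lib.MP_392c14_co.OwnAvg2

/-!
# Step A: the partition defined by a standard copy

`cu G u`, `gu G u`: the classes of the clones of the points of `u` and the indicator of the
vertices which are clones.  The missing and the bad mass of this partition are bounded by the
resampling functionals.
-/

set_option autoImplicit false

namespace K4m

open Finset Function

section Split

variable {V : Type} [Fintype V] (w : V → ℝ)

theorem T3_sum {ι : Type} (s : Finset ι) (H : ι → V → V → V → ℝ) :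
    T3 w (fun x y z => ∑ i ∈ s, H i x y z) = ∑ i ∈ s, T3 w (H i) := by
  classical
  induction s using Finset.induction_on with
  | empty =>
    simp [T3]
  | insert a s ha ih =>
    rw [sum_insert ha, ← ih, ← T3_add]
    exact T3_congr w fun x y z => by rw [sum_insert ha]

theorem sum_pin_mul (c : V → Fin 6) (x : V) (f : Fin 6 → ℝ) :
    ∑ i, pin c i x * f i = f (c x) := by
  unfold pin
  have : ∀ i, (if c x = i then (1 : ℝ) else 0) * f i = if c x = i then f i else 0 := by
    intro i; split_ifs <;> simp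
  rw [sum_congr rfl fun i _ => this i, sum_ite_eq, if_pos (mem_univ _)]

/-- splitting a triple sum over the classes -/
theorem T3_split (c : V → Fin 6) (g : V → ℝ) (φ : Fin 6 → Fin 6 → Fin 6 → ℝ)
    (F : V → V → V → ℝ) :
    T3 w (fun x y z => g x * g y * g z * (φ (c x) (c y) (c z) * F x y z)) =
      ∑ i, ∑ j, ∑ k, φ i j k * T3 w (fun x y z =>
        gp c g i x * gp c g j y * gp c g k z * F x y z) := by
  have h1 : ∀ i j k, φ i j k * T3 w (fun x y z => gp c g i x * gp c g j y * gp c g k z *
      F x y z) = T3 w (fun x y z => φ i j k * (gp c g i x * gp c g j y * gp c g k z *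
      F x y z)) := fun i j k => (T3_mul w _ _).symm
  rw [sum_congr rfl fun i _ => sum_congr rfl fun j _ => sum_congr rfl fun k _ => h1 i j k]
  rw [sum_congr rfl fun i _ => sum_congr rfl fun j _ => (T3_sum w univ (fun k x y z =>
    φ i j k * (gp c g i x * gp c g j y * gp c g k z * F x y z))).symm]
  rw [sum_congr rfl fun i _ => (T3_sum w univ (fun j x y z => ∑ k,
    φ i j k * (gp c g i x * gp c g j y * gp c g k z * F x y z))).symm]
  rw [← T3_sum w univ (fun i x y z => ∑ j, ∑ k,
    φ i j k * (gp c g i x * gp c g j y * gp c g k z * F x y z))]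
  refine T3_congr w fun x y z => ?_
  have e1 : ∀ i j, ∑ k, φ i j k * (gp c g i x * gp c g j y * gp c g k z * F x y z) =
      φ i j (c z) * (gp c g i x * gp c g j y * g z * F x y z) := by
    intro i j
    rw [← sum_pin_mul c z (fun k => φ i j k * (gp c g i x * gp c g j y * g z * F x y z))]
    refine sum_congr rfl fun k _ => ?_
    unfold gp
    ring
  have e2 : ∀ i, ∑ j, φ i j (c z) * (gp c g i x * gp c g j y * g z * F x y z) =
      φ i (c y) (c z) * (gp c g i x * g y * g z * F x y z) := by
    intro i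
    rw [← sum_pin_mul c y (fun j => φ i j (c z) * (gp c g i x * g y * g z * F x y z))]
    refine sum_congr rfl fun k _ => ?_
    unfold gp
    ring
  have e3 : ∑ i, φ i (c y) (c z) * (gp c g i x * g y * g z * F x y z) =
      φ (c x) (c y) (c z) * (g x * g y * g z * F x y z) := by
    rw [← sum_pin_mul c x (fun i => φ i (c y) (c z) * (g x * g y * g z * F x y z))]
    refine sum_congr rfl fun k _ => ?_
    unfold gp
    ring
  rw [sum_congr rfl fun i _ => sum_congr rfl fun j _ => e1 i j,
    sum_congr rfl fun i _ => e2 i, e3]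
  ring

end Split

section Part

variable {V : Type} [Fintype V] [DecidableEq V] (G : TG V) (w : V → ℝ)

open Classical in
/-- the class of a vertex with respect to a standard copy -/
noncomputable def cu (u : Fin 6 → V) (x : V) : Fin 6 :=
  if h : ∃ k, St G (update u k x) then h.choose else 0

open Classical in
/-- indicator of the clones -/
noncomputable def gu (u : Fin 6 → V) (x : V) : ℝ :=
  if ∃ k, St G (update u k x) then 1 else 0

/-- mass of the nonclones -/
noncomputable def Xu (u : Fin 6 → V) : ℝ := ∑ x, w x * (1 - ∑ k, st G (update u k x))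

omit [Fintype V] in
theorem gu01 (u : Fin 6 → V) (x : V) : gu G u x = 0 ∨ gu G u x = 1 := by
  unfold gu
  split_ifs
  · right; rfl
  · left; rfl

theorem gp_cu {u : Fin 6 → V} (hu : St G u) (k : Fin 6) (x : V) :
    gp (cu G u) (gu G u) k x = st G (update u k x) := by
  classical
  unfold gp pin
  by_cases h : ∃ k, St G (update u k x)
  · have hc : cu G u x = h.choose := by unfold cu; rw [dif_pos h]
    have hg : gu G u x = 1 := by unfold gu; rw [if_pos h]
    rw [hc, hg, mul_one]
    have hs := h.choose_spec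
    rcases st_cases G (update u k x) with ⟨p, q⟩ | ⟨p, q⟩
    · rw [q, if_pos (clone_unique G hu hs p)]
    · rw [q, if_neg]
      intro e
      rw [e] at hs
      exact p hs
  · have hg : gu G u x = 0 := by unfold gu; rw [if_neg h]
    rw [hg, mul_zero]
    rcases st_cases G (update u k x) with ⟨p, _⟩ | ⟨_, q⟩
    · exact absurd ⟨k, p⟩ h
    · rw [q]

theorem gu_eq {u : Fin 6 → V} (hu : St G u) (x : V) :
    gu G u x = ∑ k, st G (update u k x) := by
  rw [← sum_congr rfl fun k _ => gp_cu G hu k x]
  unfold gp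
  rw [← sum_mul, sum_pin, one_mul]

theorem ma_cu {u : Fin 6 → V} (hu : St G u) (k : Fin 6) :
    ma w (gp (cu G u) (gu G u) k) = vs G w u k := by
  unfold ma vs
  exact sum_congr rfl fun x _ => by rw [gp_cu G hu]

theorem Xg_cu {u : Fin 6 → V} (hu : St G u) : Xg w (gu G u) = Xu G w u := by
  unfold Xg Xu
  exact sum_congr rfl fun x _ => by rw [gu_eq G hu]

theorem Xu_eq (u : Fin 6 → V) : Xu G w u = ∑ x, w x - ∑ k, vs G w u k := by
  unfold Xu vs
  rw [sum_comm, ← sum_sub_distrib]
  refine sum_congr rfl fun x _ => ?_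
  rw [mul_sub, mul_one, mul_sum]

theorem WM_cu {u : Fin 6 → V} (hu : St G u) :
    ∑ k, WMg G w (cu G u) (gu G u) k = ∑ i, ∑ j, ∑ k, blk i j k * Mm G w i j k u := by
  rw [sum_WMg, T3_split w (cu G u) (gu G u) blk (fun x y z => 1 - ind (G.E x y z))]
  refine sum_congr rfl fun i _ => sum_congr rfl fun j _ => sum_congr rfl fun k _ => ?_
  congr 1
  unfold Mm T3
  refine sum_congr rfl fun x _ => sum_congr rfl fun y _ => sum_congr rfl fun z _ => ?_
  beta_reduce
  rw [gp_cu G hu, gp_cu G hu, gp_cu G hu]

theorem WB_cu {u : Fin 6 → V} (hu : St G u) :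
    ∑ k, WBg G w (cu G u) (gu G u) k =
      ∑ i, ∑ j, ∑ k, (1 - e3 i j k - blk i j k) * Bm G w i j k u := by
  rw [sum_WBg, T3_split w (cu G u) (gu G u) (fun i j k => 1 - e3 i j k - blk i j k)
    (fun x y z => ind (G.E x y z))]
  refine sum_congr rfl fun i _ => sum_congr rfl fun j _ => sum_congr rfl fun k _ => ?_
  congr 1
  unfold Bm T3
  refine sum_congr rfl fun x _ => sum_congr rfl fun y _ => sum_congr rfl fun z _ => ?_
  beta_reduce
  rw [gp_cu G hu, gp_cu G hu, gp_cu G hu]

theorem Bm_swap12 (i j k : Fin 6) (u : Fin 6 → V) : Bm G w j i k u = Bm G w i j k u := by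
  unfold Bm
  rw [sum_comm]
  refine sum_congr rfl fun x _ => sum_congr rfl fun y _ => sum_congr rfl fun z _ => ?_
  rw [G.symm₁ x y z]
  ring

theorem Bm_swap23 (i j k : Fin 6) (u : Fin 6 → V) : Bm G w i k j u = Bm G w i j k u := by
  unfold Bm
  refine sum_congr rfl fun x _ => ?_
  rw [sum_comm]
  refine sum_congr rfl fun y _ => sum_congr rfl fun z _ => ?_
  rw [G.symm₂ x y z]
  ring

theorem Mm_nonneg (hw : ∀ x, 0 ≤ w x) (i j k : Fin 6) (u : Fin 6 → V) :
    0 ≤ Mm G w i j k u :=
  sum_nonneg fun x _ => sum_nonneg fun y _ => sum_nonneg fun z _ =>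
    mul_nonneg (mul_nonneg (mul_nonneg (hw x) (hw y)) (hw z))
      (mul_nonneg (mul_nonneg (mul_nonneg (st_nonneg G _) (st_nonneg G _)) (st_nonneg G _))
        (by have := ind_le_one (G.E x y z); linarith))

theorem Bm_nonneg (hw : ∀ x, 0 ≤ w x) (i j k : Fin 6) (u : Fin 6 → V) :
    0 ≤ Bm G w i j k u :=
  sum_nonneg fun x _ => sum_nonneg fun y _ => sum_nonneg fun z _ =>
    mul_nonneg (mul_nonneg (mul_nonneg (hw x) (hw y)) (hw z))
      (mul_nonneg (mul_nonneg (mul_nonneg (st_nonneg G _) (st_nonneg G _)) (st_nonneg G _))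
        (ind_nonneg _))

/-- the bad triples in terms of the two kinds -/
theorem WB_kinds (u : Fin 6 → V) :
    ∑ i, ∑ j, ∑ k, (1 - e3 i j k - blk i j k) * Bm G w i j k u =
      ∑ i, ∑ j, ∑ k, nbl i j k * Bm G w i j k u +
        3 * ∑ i, ∑ j, (if i = j then 0 else 1) * Bm G w i i j u := by
  have h0 : ∀ i j k, (1 - e3 i j k - blk i j k) * Bm G w i j k u = nbl i j k * Bm G w i j k u +
      (p1 i j k * Bm G w i j k u + (p1 i k j * Bm G w i j k u + p1 j k i * Bm G w i j k u)) := by
    intro i j k
    have := pattern_sum i j k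
    have e : 1 - e3 i j k - blk i j k = p1 i j k + p1 i k j + p1 j k i + nbl i j k := by linarith
    rw [e]; ring
  rw [sum_congr rfl fun i _ => sum_congr rfl fun j _ => sum_congr rfl fun k _ => h0 i j k]
  simp only [sum_add_distrib]
  have e1 : ∑ i, ∑ j, ∑ k, p1 i j k * Bm G w i j k u =
      ∑ i, ∑ j, (if i = j then 0 else 1) * Bm G w i i j u := by
    refine sum_congr rfl fun i _ => ?_
    rw [sum_comm]
    refine sum_congr rfl fun k _ => ?_
    rw [sum_eq_single i]
    · unfold p1
      by_cases h : i = k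
      · simp [h]
      · simp [h]
    · intro j _ hj
      unfold p1
      rw [if_neg (fun h => hj h.1.symm), zero_mul]
    · intro h; exact absurd (mem_univ _) h
  have e2 : ∑ i, ∑ j, ∑ k, p1 i k j * Bm G w i j k u =
      ∑ i, ∑ j, ∑ k, p1 i j k * Bm G w i j k u := by
    refine sum_congr rfl fun i _ => ?_
    rw [sum_comm]
    refine sum_congr rfl fun j _ => sum_congr rfl fun k _ => ?_
    rw [Bm_swap23]
  have e3 : ∑ i, ∑ j, ∑ k, p1 j k i * Bm G w i j k u =
      ∑ i, ∑ j, ∑ k, p1 i j k * Bm G w i j k u := by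
    rw [sum_comm]
    refine sum_congr rfl fun j _ => ?_
    rw [sum_comm]
    refine sum_congr rfl fun k _ => sum_congr rfl fun i _ => ?_
    have : Bm G w i j k u = Bm G w j k i u := by
      rw [Bm_swap12 G w j i k u, Bm_swap23 G w j i k u]
    rw [this]
  rw [e2, e3, e1]
  ring

end Part

end K4m
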