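import Mathlib
import Pool.Agent.Lib.MP_392c14_co.StepA4

/-!
# Step A: the missing and the bad mass of the partition of a standard copy
-/

set_option autoImplicit false

namespace K4m

open Finset Function

theorem D6_off : ∀ i j l : Fin 6, i ≠ j →
    (∀ a b : Fin 6, a ≠ i → b ≠ i → D6.E j a b = D6.E l a b) → j = l := by decide +kernel

theorem D6_two' : ∀ i j : Fin 6, i ≠ j →
    (univ.filter (fun k : Fin 6 => D6.E i j k = true)).card = 2 := by decide +kernel

theorem D6_two_n : ∀ i j : Fin 6, i ≠ j →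
    (univ.filter (fun k : Fin 6 => i ≠ j ∧ i ≠ k ∧ j ≠ k ∧ D6.E i j k = false)).card = 2 := by
  decide +kernel

theorem blk_sum (i j : Fin 6) (hij : i ≠ j) : ∑ k, blk i j k = 2 := by
  have h := D6_two' i j hij
  unfold blk ind
  rw [sum_ite, sum_const_zero, add_zero, sum_const, h]
  norm_num

theorem nbl_sum (i j : Fin 6) (hij : i ≠ j) : ∑ k, nbl i j k = 2 := by
  have h := D6_two_n i j hij
  unfold nbl
  rw [sum_ite, sum_const_zero, add_zero, sum_const, h]
  norm_num

theorem blk_eq_zero (i k : Fin 6) : blk i i k = 0 := blk_irr1 i k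

theorem nbl_eq_zero (i k : Fin 6) : nbl i i k = 0 := by
  unfold nbl
  rw [if_neg]
  intro h; exact h.1 rfl

theorem nbl_swap12 (i j k : Fin 6) : nbl j i k = nbl i j k := by
  unfold nbl
  rw [D6.symm₁ i j k]
  by_cases h : i ≠ j ∧ i ≠ k ∧ j ≠ k ∧ D6.E i j k = false
  · rw [if_pos h, if_pos ⟨h.1.symm, h.2.2.1, h.2.1, h.2.2.2⟩]
  · rw [if_neg h, if_neg]
    intro h'
    exact h ⟨h'.1.symm, h'.2.2.1, h'.2.1, h'.2.2.2⟩

theorem nbl_swap23 (i j k : Fin 6) : nbl i k j = nbl i j k := by
  unfold nbl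
  rw [D6.symm₂ i j k]
  by_cases h : i ≠ j ∧ i ≠ k ∧ j ≠ k ∧ D6.E i j k = false
  · rw [if_pos h, if_pos ⟨h.2.1, h.1, h.2.2.1.symm, h.2.2.2⟩]
  · rw [if_neg h, if_neg]
    intro h'
    exact h ⟨h'.2.1, h'.1, h'.2.2.1.symm, h'.2.2.2⟩

section Num

variable {V : Type} [Fintype V] [DecidableEq V] (G : TG V) (w : V → ℝ)

/-- indicator of `i ≠ j` -/
def nee (i j : Fin 6) : ℝ := if i = j then 0 else 1

theorem nee_nonneg (i j : Fin 6) : 0 ≤ nee i j := by
  unfold nee; split_ifs <;> norm_num

/-- the three resampling functionals -/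
noncomputable def Pf (u : Fin 6 → V) : ℝ := ∑ i, ∑ j, nee i j * PK G w i (xi G w i j) u

noncomputable def Qf (u : Fin 6 → V) : ℝ :=
  ∑ i, ∑ j, ∑ k, blk i j k * PK G w i (PK G w j (xm G w i j k)) u

noncomputable def Rf (u : Fin 6 → V) : ℝ :=
  ∑ i, ∑ j, nee i j * PK G w i (PK G w j (xc G w i j)) u

theorem xi_le_Xu (hw : ∀ x, 0 ≤ w x) {u : Fin 6 → V} (hu : St G u) (i j : Fin 6)
    (hij : i ≠ j) : xi G w i j u ≤ Xu G w u := by
  unfold xi Xu
  refine sum_le_sum fun y _ => mul_le_mul_of_nonneg_left ?_ (hw y)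
  have h1 : ∑ k, st G (update u k y) ≤ 1 := by
    rw [← gu_eq G hu]
    rcases gu01 G u y with h | h <;> rw [h]
    norm_num
  by_cases hA : Ag G (Soff i) j u y
  · rw [agi_of G hA, one_mul]
    rcases st_cases G (update u j y) with ⟨p, q⟩ | ⟨p, q⟩
    · rw [q]; linarith
    · have : ∑ k, st G (update u k y) = 0 := by
        refine sum_eq_zero fun l _ => ?_
        rcases st_cases G (update u l y) with ⟨p', _⟩ | ⟨_, q'⟩
        · exfalso
          have hl := clone_all G hu p'
          have hjl : j = l := by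
            refine D6_off i j l hij fun a b ha hb => ?_
            rw [← hl a b]
            exact (hA a b (by simp [Soff, ha]) (by simp [Soff, hb])).symm
          rw [← hjl] at p'
          exact p p'
        · exact q'
      rw [this, q]
  · have : agi G (Soff i) j u y = 0 := by
      unfold agi ind
      simp [hA]
    rw [this, zero_mul]
    linarith

theorem Xu_nonneg (hw : ∀ x, 0 ≤ w x) {u : Fin 6 → V} (hu : St G u) : 0 ≤ Xu G w u := by
  unfold Xu
  refine sum_nonneg fun y _ => mul_nonneg (hw y) ?_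
  rw [← gu_eq G hu]
  rcases gu01 G u y with h | h <;> rw [h] <;> norm_num

theorem Fm_le_M (hw : ∀ x, 0 < w x) {u : Fin 6 → V} (hu : St G u) (M : ℝ)
    (hM : ∀ i, vs G w u i ≤ M) (i j : Fin 6) :
    Fm G w i j u ≤ M * PK G w i (xi G w i j) u := by
  have hw0 : ∀ x, 0 ≤ w x := fun x => (hw x).le
  exact (Fm_le G w hw u hu i j).trans
    (mul_le_mul_of_nonneg_right (hM i) (PK_nonneg G w hw0 i _ (xi_nonneg G w hw0 i j) u))

/-- the missing mass of the partition of a standard copy -/
theorem WM_le (hw : ∀ x, 0 < w x) {u : Fin 6 → V} (hu : St G u) (M : ℝ)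
    (hM : ∀ i, vs G w u i ≤ M) :
    ∑ k, WMg G w (cu G u) (gu G u) k ≤
      2 * M ^ 2 * Pf G w u + M * (M + Xu G w u) * Qf G w u := by
  have hw0 : ∀ x, 0 ≤ w x := fun x => (hw x).le
  have hM0 : 0 ≤ M := (vs_nonneg G w hw0 u 0).trans (hM 0)
  have hX0 := Xu_nonneg G w hw0 hu
  rw [WM_cu G w hu]
  have h1 : ∀ i j k, blk i j k * Mm G w i j k u ≤ M ^ 2 * (blk i j k *
      (nee i j * PK G w i (xi G w i j) u)) +
      M * (M + Xu G w u) * (blk i j k * PK G w i (PK G w j (xm G w i j k)) u) := by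
    intro i j k
    have hP := PK_nonneg G w hw0 i _ (xi_nonneg G w hw0 i j) u
    have hQ := PK_nonneg G w hw0 i _ (fun u => PK_nonneg G w hw0 j _
      (xm_nonneg G w hw0 i j k) u) u
    by_cases hij : i = j
    · subst hij
      rw [blk_eq_zero]
      simp
    · have hn : nee i j = 1 := by unfold nee; rw [if_neg hij]
      rw [hn, one_mul]
      have h2 := Mm_le G w hw u hu i j k hij
      have h3 : vs G w u k * Fm G w i j u ≤ M * (M * PK G w i (xi G w i j) u) :=
        mul_le_mul (hM k) (Fm_le_M G w hw hu M hM i j) (Fm_nonneg G w hw0 i j u) hM0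
      have h4 : (vs G w u j + xi G w i j u) * (vs G w u i *
          PK G w i (PK G w j (xm G w i j k)) u) ≤
          (M + Xu G w u) * (M * PK G w i (PK G w j (xm G w i j k)) u) := by
        refine mul_le_mul (add_le_add (hM j) (xi_le_Xu G w hw0 hu i j hij))
          (mul_le_mul_of_nonneg_right (hM i) hQ)
          (mul_nonneg (vs_nonneg G w hw0 u i) hQ) (by linarith)
      calc blk i j k * Mm G w i j k u ≤ blk i j k * (M * (M * PK G w i (xi G w i j) u) +
          (M + Xu G w u) * (M * PK G w i (PK G w j (xm G w i j k)) u)) :=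
            mul_le_mul_of_nonneg_left (by linarith) (blk_nonneg i j k)
        _ = _ := by ring
  refine (sum_le_sum fun i _ => sum_le_sum fun j _ => sum_le_sum fun k _ => h1 i j k).trans
    (le_of_eq ?_)
  simp only [sum_add_distrib, ← mul_sum]
  have h5 : ∑ i, ∑ j, (∑ k, blk i j k) * (nee i j * PK G w i (xi G w i j) u) =
      2 * Pf G w u := by
    unfold Pf
    simp only [mul_sum]
    refine sum_congr rfl fun i _ => sum_congr rfl fun j _ => ?_
    by_cases hij : i = j
    · have hn : nee i j = 0 := by unfold nee; rw [if_pos hij]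
      rw [hn]; ring
    · rw [blk_sum i j hij]
  simp only [← sum_mul]
  rw [h5]
  unfold Qf
  ring

/-- the bad mass of the partition of a standard copy -/
theorem WB_le (hw : ∀ x, 0 < w x) {u : Fin 6 → V} (hu : St G u) (M : ℝ)
    (hM : ∀ i, vs G w u i ≤ M) :
    ∑ k, WBg G w (cu G u) (gu G u) k ≤
      6 * M ^ 2 * Pf G w u + 6 * M * (M + Xu G w u) * Rf G w u := by
  have hw0 : ∀ x, 0 ≤ w x := fun x => (hw x).le
  have hM0 : 0 ≤ M := (vs_nonneg G w hw0 u 0).trans (hM 0)
  have hX0 := Xu_nonneg G w hw0 hu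
  rw [WB_cu G w hu, WB_kinds]
  set p : Fin 6 → Fin 6 → ℝ := fun i j => nee i j * PK G w i (xi G w i j) u with hp
  have hp0 : ∀ i j, 0 ≤ p i j := fun i j => mul_nonneg (nee_nonneg i j)
    (PK_nonneg G w hw0 i _ (xi_nonneg G w hw0 i j) u)
  have hF : ∀ i j, i ≠ j → Fm G w i j u ≤ M * p i j := by
    intro i j hij
    have hn : nee i j = 1 := by unfold nee; rw [if_neg hij]
    simp only [hp, hn, one_mul]
    exact Fm_le_M G w hw hu M hM i j
  -- three different classes
  have h1 : ∀ i j k, nbl i j k * Bm G w i j k u ≤ M ^ 2 / 2 * (nbl i j k * p i j +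
      nbl i j k * p j k + nbl i j k * p i k) := by
    intro i j k
    by_cases hb : i ≠ j ∧ i ≠ k ∧ j ≠ k ∧ D6.E i j k = false
    · have hn : nbl i j k = 1 := by unfold nbl; rw [if_pos hb]
      rw [hn, one_mul, one_mul, one_mul, one_mul]
      have h2 := Bm_le G w hw0 u i j k hb.1 hb.2.1 hb.2.2.1 hb.2.2.2
      have a1 : vs G w u k * Fm G w i j u ≤ M * (M * p i j) :=
        mul_le_mul (hM k) (hF i j hb.1) (Fm_nonneg G w hw0 i j u) hM0
      have a2 : vs G w u i * Fm G w j k u ≤ M * (M * p j k) :=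
        mul_le_mul (hM i) (hF j k hb.2.2.1) (Fm_nonneg G w hw0 j k u) hM0
      have a3 : vs G w u j * Fm G w i k u ≤ M * (M * p i k) :=
        mul_le_mul (hM j) (hF i k hb.2.1) (Fm_nonneg G w hw0 i k u) hM0
      have e : M ^ 2 / 2 * (p i j + p j k + p i k) =
        (M * (M * p i j) + M * (M * p j k) + M * (M * p i k)) / 2 := by ring
      rw [e]; linarith
    · have hn : nbl i j k = 0 := by unfold nbl; rw [if_neg hb]
      rw [hn]; simp
  have h2 : ∀ i j, (if i = j then 0 else 1) * Bm G w i i j u ≤ M ^ 2 * p i j +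
      2 * M * (M + Xu G w u) * (nee i j * PK G w i (PK G w j (xc G w i j)) u) := by
    intro i j
    have hR := PK_nonneg G w hw0 i _ (fun u => PK_nonneg G w hw0 j _
      (xc_nonneg G w hw0 i j) u) u
    by_cases hij : i = j
    · have hn : nee i j = 0 := by unfold nee; rw [if_pos hij]
      rw [if_pos hij, hn]
      have := hp0 i j
      have : 0 ≤ M ^ 2 * p i j := mul_nonneg (sq_nonneg M) this
      linarith
    · have hn : nee i j = 1 := by unfold nee; rw [if_neg hij]
      rw [if_neg hij, hn, one_mul, one_mul]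
      have h3 := Bo_le G w hw u hu i j hij
      have a1 : vs G w u i * Fm G w i j u ≤ M * (M * p i j) :=
        mul_le_mul (hM i) (hF i j hij) (Fm_nonneg G w hw0 i j u) hM0
      have a2 : (vs G w u j + xi G w i j u) * (vs G w u i *
          PK G w i (PK G w j (xc G w i j)) u) ≤
          (M + Xu G w u) * (M * PK G w i (PK G w j (xc G w i j)) u) := by
        refine mul_le_mul (add_le_add (hM j) (xi_le_Xu G w hw0 hu i j hij))
          (mul_le_mul_of_nonneg_right (hM i) hR)
          (mul_nonneg (vs_nonneg G w hw0 u i) hR) (by linarith)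
      have e : M ^ 2 * p i j + 2 * M * (M + Xu G w u) *
          PK G w i (PK G w j (xc G w i j)) u = M * (M * p i j) +
          2 * ((M + Xu G w u) * (M * PK G w i (PK G w j (xc G w i j)) u)) := by ring
      rw [e]; linarith
  have s1 : ∑ i, ∑ j, ∑ k, nbl i j k * p i j = 2 * Pf G w u := by
    unfold Pf
    simp only [mul_sum]
    refine sum_congr rfl fun i _ => sum_congr rfl fun j _ => ?_
    rw [← sum_mul]
    by_cases hij : i = j
    · have hn : nee i j = 0 := by unfold nee; rw [if_pos hij]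
      simp only [hp, hn]; ring
    · rw [nbl_sum i j hij]
  have s2 : ∑ i, ∑ j, ∑ k, nbl i j k * p j k = 2 * Pf G w u := by
    rw [← s1, sum_comm]
    refine sum_congr rfl fun j _ => ?_
    rw [sum_comm]
    refine sum_congr rfl fun k _ => sum_congr rfl fun i _ => ?_
    rw [← nbl_swap12 i j k, ← nbl_swap23 j i k]
  have s3 : ∑ i, ∑ j, ∑ k, nbl i j k * p i k = 2 * Pf G w u := by
    rw [← s1]
    refine sum_congr rfl fun i _ => ?_
    rw [sum_comm]
    refine sum_congr rfl fun k _ => sum_congr rfl fun j _ => ?_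
    rw [← nbl_swap23 i j k]
  have t1 : ∑ i, ∑ j, ∑ k, nbl i j k * Bm G w i j k u ≤ 3 * M ^ 2 * Pf G w u := by
    refine (sum_le_sum fun i _ => sum_le_sum fun j _ => sum_le_sum fun k _ => h1 i j k).trans
      (le_of_eq ?_)
    simp only [← mul_sum, sum_add_distrib]
    rw [s1, s2, s3]
    ring
  have t2 : ∑ i, ∑ j, (if i = j then 0 else 1) * Bm G w i i j u ≤ M ^ 2 * Pf G w u +
      2 * M * (M + Xu G w u) * Rf G w u := by
    refine (sum_le_sum fun i _ => sum_le_sum fun j _ => h2 i j).trans (le_of_eq ?_)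
    unfold Pf Rf
    simp only [sum_add_distrib, ← mul_sum]
    rfl
  nlinarith [t1, t2]

end Num

end K4m
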