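import Pool.Agent.Lib.MP_392c14_co.Lower

/-!
# The purity lemma

 (`i : Fin 6`) are six probability measures on `V`, `L` is a triangle-free graph on `V`.
For a random `z : Fin 6 → V` let `p j` be the probability that `L`, restricted to the six points
`z i`, is exactly the link pentagon of `j` in the design `D6`.  Then
`∑ p j (1 - p j) ≤ 2 (1 - ∑ p j)` (Efron-Stein inequality).
-/

set_option autoImplicit false

namespace K4m

open Finset

/-! ### the finite check -/

/-- the table of `D6` as one number -/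
def pTab (j a b : Fin 6) : Bool :=
  Nat.testBit 79206468143166111503716283143496017589449387132595861589664512 (36 * (j : ℕ) + 6 * (a : ℕ) + (b : ℕ))

theorem pTab_eq : ∀ j a b : Fin 6, D6.E j a b = pTab j a b := by decide +kernel

/-- the graph with prescribed star at `i` (given by the bits of `m`) and equal to the pentagon `j`
elsewhere -/
def pMk (i j : Fin 6) (m : Fin 64) (a b : Fin 6) : Bool :=
  if a = i then Nat.testBit m b else if b = i then Nat.testBit m a else pTab j a b

/-- there is a triangle -/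
def pTri (g : Fin 6 → Fin 6 → Bool) : Bool :=
  (List.finRange 6).any fun a => (List.finRange 6).any fun b => g a b &&
    (List.finRange 6).any fun c => g b c && g a c

/-- `g` agrees with the pentagon `j` away from `i` -/
def pAgB (g : Fin 6 → Fin 6 → Bool) (i j : Fin 6) : Bool :=
  (List.finRange 6).all fun a => a == i ||
    (List.finRange 6).all fun b => b == i || g a b == pTab j a b

/-- `g` is the pentagon `j` -/
def pEqB (g : Fin 6 → Fin 6 → Bool) (j : Fin 6) : Bool :=
  (List.finRange 6).all fun a => (List.finRange 6).all fun b => g a b == pTab j a b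

/-- the direction `i` is fixable -/
def pFx (g : Fin 6 → Fin 6 → Bool) (i : Fin 6) : Bool :=
  (List.finRange 6).any fun j => pAgB g i j

/-- number of fixable directions -/
def pCnt (g : Fin 6 → Fin 6 → Bool) : ℕ := (univ.filter fun i : Fin 6 => pFx g i = true).card

/-- the check of one graph -/
def pChk (i j : Fin 6) (m : Fin 64) : Bool :=
  pTri (pMk i j m) || (List.finRange 6).any (fun k => pEqB (pMk i j m) k) ||
    Nat.ble (pCnt (pMk i j m)) 2

theorem pChk_all : ((List.finRange 6).all fun i => (List.finRange 6).all fun j =>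
    (List.finRange 64).all fun m => pChk i j m) = true := by decide +kernel

theorem pMask : ∀ s0 s1 s2 s3 s4 s5 : Bool,
    s0.toNat + 2 * s1.toNat + 4 * s2.toNat + 8 * s3.toNat + 16 * s4.toNat + 32 * s5.toNat < 64 ∧
    ∀ b : Fin 6, Nat.testBit
      (s0.toNat + 2 * s1.toNat + 4 * s2.toNat + 8 * s3.toNat + 16 * s4.toNat + 32 * s5.toNat) b =
      ([s0, s1, s2, s3, s4, s5] : List Bool).getD b false := by decide +kernel

theorem pMask' (s : Fin 6 → Bool) : ∃ m : Fin 64, ∀ b : Fin 6, Nat.testBit m b = s b := by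
  obtain ⟨hm, h⟩ := pMask (s 0) (s 1) (s 2) (s 3) (s 4) (s 5)
  refine ⟨⟨_, hm⟩, fun b => ?_⟩
  refine (h b).trans ?_
  fin_cases b <;> rfl

theorem pAgB_iff {g : Fin 6 → Fin 6 → Bool} {i j : Fin 6} :
    pAgB g i j = true ↔ ∀ a b : Fin 6, a ≠ i → b ≠ i → g a b = pTab j a b := by
  unfold pAgB
  simp only [List.all_eq_true, List.mem_finRange, true_implies, Bool.or_eq_true, beq_iff_eq]
  constructor
  · intro h a b ha hb
    rcases h a with h1 | h1
    · exact absurd h1 ha
    · rcases h1 b with h2 | h2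
      · exact absurd h2 hb
      · exact h2
  · intro h a
    by_cases ha : a = i
    · exact Or.inl ha
    · refine Or.inr fun b => ?_
      by_cases hb : b = i
      · exact Or.inl hb
      · exact Or.inr (h a b ha hb)

theorem pEqB_iff {g : Fin 6 → Fin 6 → Bool} {j : Fin 6} :
    pEqB g j = true ↔ ∀ a b : Fin 6, g a b = pTab j a b := by
  unfold pEqB
  simp only [List.all_eq_true, List.mem_finRange, true_implies, beq_iff_eq]

theorem pFx_iff {g : Fin 6 → Fin 6 → Bool} {i : Fin 6} :
    pFx g i = true ↔ ∃ j, ∀ a b : Fin 6, a ≠ i → b ≠ i → g a b = pTab j a b := by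
  unfold pFx
  simp only [List.any_eq_true, List.mem_finRange, true_and]
  exact exists_congr fun j => pAgB_iff

theorem pTri_iff {g : Fin 6 → Fin 6 → Bool} :
    pTri g = true ↔ ∃ a b c : Fin 6, g a b = true ∧ g b c = true ∧ g a c = true := by
  unfold pTri
  simp only [List.any_eq_true, List.mem_finRange, true_and, Bool.and_eq_true]
  constructor
  · rintro ⟨a, b, h1, c, h2, h3⟩
    exact ⟨a, b, c, h1, h2, h3⟩
  · rintro ⟨a, b, c, h1, h2, h3⟩
    exact ⟨a, b, h1, c, h2, h3⟩

theorem pTab_pent : ∀ i j k : Fin 6, pAgB (pTab k) i j = true → j = k := by decide +kernel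

/-- a triangle-free symmetric graph on `Fin 6` which is not a pentagon has at most two fixable
directions -/
theorem pCnt_le {g : Fin 6 → Fin 6 → Bool} (hs : ∀ a b, g a b = g b a)
    (ht : ∀ a b c : Fin 6, ¬ (g a b = true ∧ g b c = true ∧ g a c = true))
    (hp : ∀ k : Fin 6, ¬ ∀ a b : Fin 6, g a b = pTab k a b) : pCnt g ≤ 2 := by
  by_cases hex : ∃ i, pFx g i = true
  · obtain ⟨i, hi⟩ := hex
    obtain ⟨j, hj⟩ := pFx_iff.1 hi
    obtain ⟨m, hm⟩ := pMask' (g i)
    have hg : g = pMk i j m := by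
      funext a b
      unfold pMk
      by_cases ha : a = i
      · rw [if_pos ha, hm, ha]
      · rw [if_neg ha]
        by_cases hb : b = i
        · rw [if_pos hb, hm, hb, hs]
        · rw [if_neg hb]; exact hj a b ha hb
    have h := pChk_all
    simp only [List.all_eq_true, List.mem_finRange, true_implies] at h
    have h1 := h i j m
    unfold pChk at h1
    rw [← hg] at h1
    simp only [Bool.or_eq_true, List.any_eq_true, List.mem_finRange, true_and] at h1
    rcases h1 with (h1 | ⟨k, h1⟩) | h1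
    · obtain ⟨a, b, c, h2⟩ := pTri_iff.1 h1
      exact absurd h2 (ht a b c)
    · exact absurd (pEqB_iff.1 h1) (hp k)
    · exact Nat.le_of_ble_eq_true h1
  · push Not at hex
    unfold pCnt
    rw [filter_false_of_mem fun i _ => hex i, card_empty]
    exact Nat.zero_le _

/-! ### averaging operators on a product of six finite probability spaces -/

section ES

variable {V : Type} [Fintype V] (μ : Fin 6 → V → ℝ)

/-- expectation on the product space -/
noncomputable def PE (f : (Fin 6 → V) → ℝ) : ℝ := ∑ z : Fin 6 → V, (∏ i, μ i (z i)) * f z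

/-- average over the coordinate `i` -/
noncomputable def pav (i : Fin 6) (f : (Fin 6 → V) → ℝ) (z : Fin 6 → V) : ℝ :=
  ∑ v, μ i v * f (Function.update z i v)

theorem PE_add (f g : (Fin 6 → V) → ℝ) : PE μ (fun z => f z + g z) = PE μ f + PE μ g := by
  unfold PE
  rw [← sum_add_distrib]
  exact sum_congr rfl fun z _ => by ring

theorem PE_sub (f g : (Fin 6 → V) → ℝ) : PE μ (fun z => f z - g z) = PE μ f - PE μ g := by
  unfold PE
  rw [← sum_sub_distrib]
  exact sum_congr rfl fun z _ => by ring

theorem PE_mul (a : ℝ) (f : (Fin 6 → V) → ℝ) : PE μ (fun z => a * f z) = a * PE μ f := by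
  unfold PE
  rw [mul_sum]
  exact sum_congr rfl fun z _ => by ring

theorem PE_sum {ι : Type} (s : Finset ι) (f : ι → (Fin 6 → V) → ℝ) :
    PE μ (fun z => ∑ j ∈ s, f j z) = ∑ j ∈ s, PE μ (f j) := by
  unfold PE
  rw [sum_comm]
  exact sum_congr rfl fun z _ => mul_sum _ _ _

theorem PE_nonneg (h0 : ∀ i v, 0 ≤ μ i v) {f : (Fin 6 → V) → ℝ} (hf : ∀ z, 0 ≤ f z) :
    0 ≤ PE μ f :=
  sum_nonneg fun z _ => mul_nonneg (prod_nonneg fun i _ => h0 i _) (hf z)

theorem PE_mono (h0 : ∀ i v, 0 ≤ μ i v) {f g : (Fin 6 → V) → ℝ} (hf : ∀ z, f z ≤ g z) :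
    PE μ f ≤ PE μ g :=
  sum_le_sum fun z _ => mul_le_mul_of_nonneg_left (hf z) (prod_nonneg fun i _ => h0 i _)

theorem PE_const (h1 : ∀ i, ∑ v, μ i v = 1) (a : ℝ) : PE μ (fun _ => a) = a := by
  unfold PE
  rw [← sum_mul]
  have h := (Finset.prod_univ_sum (fun _ : Fin 6 => (univ : Finset V)) (fun i v => μ i v)).symm
  rw [Fintype.piFinset_univ] at h
  rw [h, prod_congr rfl (fun i _ => h1 i), prod_const_one, one_mul]

open Classical in
/-- splitting off the coordinate `i` -/
theorem PE_split (i : Fin 6) (f : (Fin 6 → V) → ℝ) :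
    PE μ f = ∑ v, ∑ z : Fin 6 → V,
      (if z i = v then (∏ j ∈ univ.erase i, μ j (z j)) * (μ i v * f (Function.update z i v))
        else 0) := by
  unfold PE
  rw [sum_comm]
  refine sum_congr rfl fun z _ => ?_
  rw [sum_ite_eq, if_pos (mem_univ _), ← mul_prod_erase univ _ (mem_univ i),
    Function.update_eq_self]
  ring

open Classical in
/-- a sum over all `z` weighted independently of the coordinate `i` can be shifted -/
theorem sum_shift (i : Fin 6) (v v' : V) (g : (Fin 6 → V) → ℝ)
    (hg : ∀ z u, g (Function.update z i u) = g z) :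
    ∑ z : Fin 6 → V, (if z i = v then g z else 0) =
      ∑ z : Fin 6 → V, if z i = v' then g z else 0 := by
  rw [← sum_filter, ← sum_filter]
  refine sum_nbij' (fun z => Function.update z i v') (fun z => Function.update z i v) ?_ ?_ ?_ ?_ ?_
  · intro z _
    rw [mem_filter]
    exact ⟨mem_univ _, Function.update_self _ _ _⟩
  · intro z _
    rw [mem_filter]
    exact ⟨mem_univ _, Function.update_self _ _ _⟩
  · intro z hz
    rw [Function.update_idem, ← (mem_filter.1 hz).2, Function.update_eq_self]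
  · intro z hz
    rw [Function.update_idem, ← (mem_filter.1 hz).2, Function.update_eq_self]
  · intro z _
    exact (hg z v').symm

theorem prod_erase_update (i : Fin 6) (z : Fin 6 → V) (u : V) :
    (∏ j ∈ univ.erase i, μ j (Function.update z i u j)) = ∏ j ∈ univ.erase i, μ j (z j) :=
  prod_congr rfl fun j hj => by rw [Function.update_of_ne (ne_of_mem_erase hj)]

theorem pav_update (i : Fin 6) (f : (Fin 6 → V) → ℝ) (z : Fin 6 → V) (u : V) :
    pav μ i f (Function.update z i u) = pav μ i f z := by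
  unfold pav
  exact sum_congr rfl fun v _ => by rw [Function.update_idem]

theorem pav_update_ne {i j : Fin 6} (hij : i ≠ j) {f : (Fin 6 → V) → ℝ}
    (hf : ∀ z u, f (Function.update z i u) = f z) (z : Fin 6 → V) (u : V) :
    pav μ j f (Function.update z i u) = pav μ j f z := by
  unfold pav
  refine sum_congr rfl fun v _ => ?_
  rw [Function.update_comm hij, hf]

theorem pav_comm {i j : Fin 6} (hij : i ≠ j) (f : (Fin 6 → V) → ℝ) (z : Fin 6 → V) :
    pav μ i (pav μ j f) z = pav μ j (pav μ i f) z := by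
  unfold pav
  simp only [mul_sum]
  rw [sum_comm]
  refine sum_congr rfl fun v _ => sum_congr rfl fun u _ => ?_
  rw [Function.update_comm hij]
  ring

theorem PE_pav (h1 : ∀ i, ∑ v, μ i v = 1) (i : Fin 6) (f : (Fin 6 → V) → ℝ) :
    PE μ (pav μ i f) = PE μ f := by
  classical
  rcases isEmpty_or_nonempty V with hV | ⟨⟨v0⟩⟩
  · have := h1 0
    rw [univ_eq_empty, sum_empty] at this
    exact absurd this zero_ne_one
  -- both sides equal `∑ over z with z i = v0 of the product times the average`
  have key : ∀ g : (Fin 6 → V) → ℝ, PE μ g = ∑ z : Fin 6 → V,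
      if z i = v0 then (∏ j ∈ univ.erase i, μ j (z j)) * pav μ i g z else 0 := by
    intro g
    rw [PE_split μ i g]
    have e1 : ∀ v : V, ∑ z : Fin 6 → V,
        (if z i = v then (∏ j ∈ univ.erase i, μ j (z j)) * (μ i v * g (Function.update z i v))
          else 0) = ∑ z : Fin 6 → V, if z i = v0 then
            (∏ j ∈ univ.erase i, μ j (z j)) * (μ i v * g (Function.update z i v)) else 0 := by
      intro v
      refine sum_shift i v v0
        (fun z => (∏ j ∈ univ.erase i, μ j (z j)) * (μ i v * g (Function.update z i v))) ?_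
      intro z u
      beta_reduce
      rw [prod_erase_update, Function.update_idem]
    rw [sum_congr rfl fun v _ => e1 v, sum_comm]
    refine sum_congr rfl fun z _ => ?_
    by_cases hz : z i = v0
    · simp only [if_pos hz]
      unfold pav
      rw [mul_sum]
    · simp only [if_neg hz, sum_const_zero]
  rw [key (pav μ i f), key f]
  refine sum_congr rfl fun z _ => ?_
  have e2 : pav μ i (pav μ i f) z = pav μ i f z := by
    conv_lhs => unfold pav
    have e3 : ∀ v, μ i v * (∑ u, μ i u * f (Function.update (Function.update z i v) i u)) =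
        μ i v * pav μ i f z := by
      intro v
      unfold pav
      congr 1
      exact sum_congr rfl fun u _ => by rw [Function.update_idem]
    rw [sum_congr rfl fun v _ => e3 v, ← sum_mul, h1 i, one_mul]
  rw [e2]

theorem PE_mul_pav (h1 : ∀ i, ∑ v, μ i v = 1) (i : Fin 6) (f g : (Fin 6 → V) → ℝ)
    (hg : ∀ z u, g (Function.update z i u) = g z) :
    PE μ (fun z => g z * pav μ i f z) = PE μ (fun z => g z * f z) := by
  rw [← PE_pav μ h1 i (fun z => g z * f z)]
  congr 1
  funext z
  unfold pav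
  rw [mul_sum]
  refine sum_congr rfl fun v _ => ?_
  beta_reduce
  rw [hg]
  ring

/-- the variance in the direction `i` -/
noncomputable def dv (i : Fin 6) (f : (Fin 6 → V) → ℝ) : ℝ :=
  PE μ (fun z => f z ^ 2) - PE μ (fun z => pav μ i f z ^ 2)

theorem dv_eq (h1 : ∀ i, ∑ v, μ i v = 1) (i : Fin 6) (f : (Fin 6 → V) → ℝ) :
    dv μ i f = PE μ (fun z => (f z - pav μ i f z) ^ 2) := by
  have e1 : PE μ (fun z => pav μ i f z * f z) = PE μ (fun z => pav μ i f z ^ 2) := by
    rw [← PE_mul_pav μ h1 i f (pav μ i f) (pav_update μ i f)]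
    congr 1
    funext z
    ring
  have e2 : (fun z => (f z - pav μ i f z) ^ 2) =
      fun z => (f z ^ 2 + pav μ i f z ^ 2) - 2 * (pav μ i f z * f z) := by
    funext z; ring
  rw [e2, PE_sub, PE_add, PE_mul, e1]
  unfold dv
  ring

theorem dv_nonneg (h0 : ∀ i v, 0 ≤ μ i v) (h1 : ∀ i, ∑ v, μ i v = 1) (i : Fin 6)
    (f : (Fin 6 → V) → ℝ) : 0 ≤ dv μ i f := by
  rw [dv_eq μ h1]
  exact PE_nonneg μ h0 fun z => sq_nonneg _

theorem pav_sub (i : Fin 6) (f g : (Fin 6 → V) → ℝ) (z : Fin 6 → V) :
    pav μ i (fun y => f y - g y) z = pav μ i f z - pav μ i g z := by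
  unfold pav
  rw [← sum_sub_distrib]
  exact sum_congr rfl fun v _ => by ring

/-- averaging in another direction decreases the variance in the direction `i` -/
theorem dv_pav_le (h0 : ∀ i v, 0 ≤ μ i v) (h1 : ∀ i, ∑ v, μ i v = 1) {i j : Fin 6}
    (hij : i ≠ j) (f : (Fin 6 → V) → ℝ) : dv μ i (pav μ j f) ≤ dv μ i f := by
  rw [dv_eq μ h1, dv_eq μ h1]
  have e1 : (fun z => (pav μ j f z - pav μ i (pav μ j f) z) ^ 2) =
      fun z => pav μ j (fun y => f y - pav μ i f y) z ^ 2 := by
    funext z
    rw [pav_sub, pav_comm μ hij]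
  rw [e1]
  have h2 := dv_nonneg μ h0 h1 j (fun y => f y - pav μ i f y)
  unfold dv at h2
  linarith

/-- a function not depending on any coordinate is constant -/
theorem const_of_update {g : (Fin 6 → V) → ℝ} (hg : ∀ i z u, g (Function.update z i u) = g z)
    (z z' : Fin 6 → V) : g z = g z' := by
  have h : ∀ s : Finset (Fin 6), g (s.piecewise z' z) = g z := by
    intro s
    induction s using Finset.induction_on with
    | empty => rw [piecewise_empty]
    | insert j s hj ih => rw [piecewise_insert, hg, ih]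
  have h2 := h univ
  rw [piecewise_univ] at h2
  exact h2.symm

theorem efron_stein (h0 : ∀ i v, 0 ≤ μ i v) (h1 : ∀ i, ∑ v, μ i v = 1)
    (f : (Fin 6 → V) → ℝ) :
    PE μ (fun z => f z ^ 2) - (PE μ f) ^ 2 ≤ ∑ i, dv μ i f := by
  set f1 := pav μ 0 f with hf1
  set f2 := pav μ 1 f1 with hf2
  set f3 := pav μ 2 f2 with hf3
  set f4 := pav μ 3 f3 with hf4
  set f5 := pav μ 4 f4 with hf5
  set f6 := pav μ 5 f5 with hf6
  have u1 : ∀ z u, f1 (Function.update z 0 u) = f1 z := pav_update μ 0 f
  have u2 : ∀ z u, f2 (Function.update z 0 u) = f2 z := pav_update_ne μ (by decide) u1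
  have u3 : ∀ z u, f3 (Function.update z 0 u) = f3 z := pav_update_ne μ (by decide) u2
  have u4 : ∀ z u, f4 (Function.update z 0 u) = f4 z := pav_update_ne μ (by decide) u3
  have u5 : ∀ z u, f5 (Function.update z 0 u) = f5 z := pav_update_ne μ (by decide) u4
  have u6 : ∀ z u, f6 (Function.update z 0 u) = f6 z := pav_update_ne μ (by decide) u5
  have v2 : ∀ z u, f2 (Function.update z 1 u) = f2 z := pav_update μ 1 f1
  have v3 : ∀ z u, f3 (Function.update z 1 u) = f3 z := pav_update_ne μ (by decide) v2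
  have v4 : ∀ z u, f4 (Function.update z 1 u) = f4 z := pav_update_ne μ (by decide) v3
  have v5 : ∀ z u, f5 (Function.update z 1 u) = f5 z := pav_update_ne μ (by decide) v4
  have v6 : ∀ z u, f6 (Function.update z 1 u) = f6 z := pav_update_ne μ (by decide) v5
  have w3 : ∀ z u, f3 (Function.update z 2 u) = f3 z := pav_update μ 2 f2
  have w4 : ∀ z u, f4 (Function.update z 2 u) = f4 z := pav_update_ne μ (by decide) w3
  have w5 : ∀ z u, f5 (Function.update z 2 u) = f5 z := pav_update_ne μ (by decide) w4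
  have w6 : ∀ z u, f6 (Function.update z 2 u) = f6 z := pav_update_ne μ (by decide) w5
  have x4 : ∀ z u, f4 (Function.update z 3 u) = f4 z := pav_update μ 3 f3
  have x5 : ∀ z u, f5 (Function.update z 3 u) = f5 z := pav_update_ne μ (by decide) x4
  have x6 : ∀ z u, f6 (Function.update z 3 u) = f6 z := pav_update_ne μ (by decide) x5
  have y5 : ∀ z u, f5 (Function.update z 4 u) = f5 z := pav_update μ 4 f4
  have y6 : ∀ z u, f6 (Function.update z 4 u) = f6 z := pav_update_ne μ (by decide) y5
  have z6 : ∀ z u, f6 (Function.update z 5 u) = f6 z := pav_update μ 5 f5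
  have hall : ∀ i z u, f6 (Function.update z i u) = f6 z := by
    intro i
    fin_cases i
    · exact u6
    · exact v6
    · exact w6
    · exact x6
    · exact y6
    · exact z6
  have hE : PE μ f6 = PE μ f := by
    rw [hf6, PE_pav μ h1, hf5, PE_pav μ h1, hf4, PE_pav μ h1, hf3, PE_pav μ h1, hf2,
      PE_pav μ h1, hf1, PE_pav μ h1]
  rcases isEmpty_or_nonempty V with hV | ⟨⟨v0⟩⟩
  · have := h1 0
    rw [univ_eq_empty, sum_empty] at this
    exact absurd this zero_ne_one
  have hc : ∀ z, f6 z = PE μ f := by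
    intro z
    rw [← hE]
    have h3 : PE μ f6 = PE μ (fun _ => f6 z) := by
      congr 1
      funext y
      exact const_of_update hall y z
    rw [h3, PE_const μ h1]
  have hlast : PE μ (fun z => f6 z ^ 2) = (PE μ f) ^ 2 := by
    have h3 : (fun z => f6 z ^ 2) = fun _ => (PE μ f) ^ 2 := by
      funext z; rw [hc z]
    rw [h3, PE_const μ h1]
  have d0 : dv μ 0 f = PE μ (fun z => f z ^ 2) - PE μ (fun z => f1 z ^ 2) := rfl
  have d1 : dv μ 1 f1 = PE μ (fun z => f1 z ^ 2) - PE μ (fun z => f2 z ^ 2) := rfl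
  have d2 : dv μ 2 f2 = PE μ (fun z => f2 z ^ 2) - PE μ (fun z => f3 z ^ 2) := rfl
  have d3 : dv μ 3 f3 = PE μ (fun z => f3 z ^ 2) - PE μ (fun z => f4 z ^ 2) := rfl
  have d4 : dv μ 4 f4 = PE μ (fun z => f4 z ^ 2) - PE μ (fun z => f5 z ^ 2) := rfl
  have d5 : dv μ 5 f5 = PE μ (fun z => f5 z ^ 2) - PE μ (fun z => f6 z ^ 2) := rfl
  have l1 : dv μ 1 f1 ≤ dv μ 1 f := dv_pav_le μ h0 h1 (by decide) f
  have l2 : dv μ 2 f2 ≤ dv μ 2 f :=
    (dv_pav_le μ h0 h1 (by decide) f1).trans (dv_pav_le μ h0 h1 (by decide) f)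
  have l3 : dv μ 3 f3 ≤ dv μ 3 f :=
    (dv_pav_le μ h0 h1 (by decide) f2).trans ((dv_pav_le μ h0 h1 (by decide) f1).trans
      (dv_pav_le μ h0 h1 (by decide) f))
  have l4 : dv μ 4 f4 ≤ dv μ 4 f :=
    (dv_pav_le μ h0 h1 (by decide) f3).trans ((dv_pav_le μ h0 h1 (by decide) f2).trans
      ((dv_pav_le μ h0 h1 (by decide) f1).trans (dv_pav_le μ h0 h1 (by decide) f)))
  have l5 : dv μ 5 f5 ≤ dv μ 5 f :=
    (dv_pav_le μ h0 h1 (by decide) f4).trans ((dv_pav_le μ h0 h1 (by decide) f3).trans
      ((dv_pav_le μ h0 h1 (by decide) f2).trans ((dv_pav_le μ h0 h1 (by decide) f1).trans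
        (dv_pav_le μ h0 h1 (by decide) f))))
  rw [Fin.sum_univ_six]
  linarith

end ES

/-! ### the purity lemma -/

section Pur

variable {V : Type} [Fintype V] (μ : Fin 6 → V → ℝ) (L : V → V → Bool)

/-- indicator of the event that `L` on the six points is the pentagon `j` of `D6` -/
noncomputable def pInd (j : Fin 6) (z : Fin 6 → V) : ℝ :=
  ind (decide (∀ a b : Fin 6, L (z a) (z b) = D6.E j a b))

/-- probability of the pentagon `j` -/
noncomputable def pProb (j : Fin 6) : ℝ := PE μ (pInd L j)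

variable {L}

theorem pInd_one {j : Fin 6} {z : Fin 6 → V} (h : ∀ a b : Fin 6, L (z a) (z b) = pTab j a b) :
    pInd L j z = 1 := by
  unfold pInd ind
  rw [if_pos]
  exact decide_eq_true fun a b => by rw [pTab_eq]; exact h a b

theorem pInd_zero {j : Fin 6} {z : Fin 6 → V} (h : ¬ ∀ a b : Fin 6, L (z a) (z b) = pTab j a b) :
    pInd L j z = 0 := by
  unfold pInd ind
  rw [if_neg]
  intro h1
  exact h fun a b => by rw [← pTab_eq]; exact of_decide_eq_true h1 a b

theorem pInd_cases (L : V → V → Bool) (j : Fin 6) (z : Fin 6 → V) :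
    ((∀ a b : Fin 6, L (z a) (z b) = pTab j a b) ∧ pInd L j z = 1) ∨
      ((¬ ∀ a b : Fin 6, L (z a) (z b) = pTab j a b) ∧ pInd L j z = 0) := by
  by_cases h : ∀ a b : Fin 6, L (z a) (z b) = pTab j a b
  · exact Or.inl ⟨h, pInd_one h⟩
  · exact Or.inr ⟨h, pInd_zero h⟩

theorem pInd_nonneg (L : V → V → Bool) (j : Fin 6) (z : Fin 6 → V) : 0 ≤ pInd L j z := by
  rcases pInd_cases L j z with ⟨-, h⟩ | ⟨-, h⟩ <;> rw [h]
  norm_num

theorem pInd_sq (L : V → V → Bool) (j : Fin 6) (z : Fin 6 → V) : pInd L j z ^ 2 = pInd L j z := by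
  rcases pInd_cases L j z with ⟨-, h⟩ | ⟨-, h⟩ <;> rw [h] <;> norm_num

/-- two different pentagons are not connected by the change of one coordinate -/
theorem pent_unique {i j k : Fin 6} {z : Fin 6 → V} {v : V}
    (hk : ∀ a b : Fin 6, L (z a) (z b) = pTab k a b)
    (hj : ∀ a b : Fin 6, L (Function.update z i v a) (Function.update z i v b) = pTab j a b) :
    j = k := by
  refine pTab_pent i j k (pAgB_iff.2 fun a b ha hb => ?_)
  rw [← hk a b, ← hj a b, Function.update_of_ne ha, Function.update_of_ne hb]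

theorem pInd_sum_one {k : Fin 6} {z : Fin 6 → V}
    (hk : ∀ a b : Fin 6, L (z a) (z b) = pTab k a b) : ∑ j, pInd L j z = 1 := by
  rw [sum_eq_single_of_mem k (mem_univ k), pInd_one hk]
  intro j _ hjk
  refine pInd_zero fun hj => hjk ?_
  refine pent_unique (L := L) (i := 0) (z := z) (v := z 0) hk ?_
  rw [Function.update_eq_self]
  exact hj

theorem pInd_sum_le (L : V → V → Bool) (z : Fin 6 → V) : ∑ j, pInd L j z ≤ 1 := by
  by_cases h : ∃ k, ∀ a b : Fin 6, L (z a) (z b) = pTab k a b
  · obtain ⟨k, hk⟩ := h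
    exact (pInd_sum_one hk).le
  · push Not at h
    rw [sum_eq_zero]
    · norm_num
    · intro j _
      refine pInd_zero fun hj => ?_
      obtain ⟨a, b, hab⟩ := h j
      exact hab (hj a b)

variable (L)

/-- the pointwise inequality -/
theorem pur_point (h0 : ∀ i v, 0 ≤ μ i v) (h1 : ∀ i, ∑ v, μ i v = 1)
    (hs : ∀ x y, L x y = L y x)
    (ht : ∀ x y t, ¬ (L x y = true ∧ L y t = true ∧ L x t = true)) (z : Fin 6 → V) :
    ∑ j, ∑ i, (1 - pInd L j z) * pav μ i (pInd L j) z ≤ 2 * (1 - ∑ j, pInd L j z) := by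
  by_cases h : ∃ k, ∀ a b : Fin 6, L (z a) (z b) = pTab k a b
  · obtain ⟨k, hk⟩ := h
    rw [pInd_sum_one hk]
    have : ∑ j, ∑ i, (1 - pInd L j z) * pav μ i (pInd L j) z = 0 := by
      refine sum_eq_zero fun j _ => sum_eq_zero fun i _ => ?_
      by_cases hjk : j = k
      · rw [hjk, pInd_one hk, sub_self, zero_mul]
      · have : pav μ i (pInd L j) z = 0 := by
          unfold pav
          refine sum_eq_zero fun v _ => ?_
          rw [pInd_zero fun hj => hjk (pent_unique hk hj), mul_zero]
        rw [this, mul_zero]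
    rw [this]
    norm_num
  · push Not at h
    have hz : ∀ j, pInd L j z = 0 := by
      intro j
      refine pInd_zero fun hj => ?_
      obtain ⟨a, b, hab⟩ := h j
      exact hab (hj a b)
    have e1 : ∑ j, ∑ i, (1 - pInd L j z) * pav μ i (pInd L j) z =
        ∑ i, ∑ v, μ i v * ∑ j, pInd L j (Function.update z i v) := by
      rw [sum_comm]
      refine sum_congr rfl fun i _ => ?_
      have e2 : ∀ j, (1 - pInd L j z) * pav μ i (pInd L j) z =
          ∑ v, μ i v * pInd L j (Function.update z i v) := by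
        intro j
        rw [hz j, sub_zero, one_mul]
        rfl
      rw [sum_congr rfl fun j _ => e2 j, sum_comm]
      exact sum_congr rfl fun v _ => (mul_sum _ _ _).symm
    set g : Fin 6 → Fin 6 → Bool := fun a b => L (z a) (z b) with hg
    have e3 : ∀ i, ∑ v, μ i v * ∑ j, pInd L j (Function.update z i v) ≤
        if pFx g i = true then 1 else 0 := by
      intro i
      by_cases hi : pFx g i = true
      · rw [if_pos hi, ← h1 i]
        refine sum_le_sum fun v _ => ?_
        have := mul_le_mul_of_nonneg_left (pInd_sum_le L (Function.update z i v)) (h0 i v)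
        rw [mul_one] at this
        exact this
      · rw [if_neg hi]
        refine le_of_eq (sum_eq_zero fun v _ => ?_)
        rw [sum_eq_zero, mul_zero]
        intro j _
        refine pInd_zero fun hj => hi (pFx_iff.2 ⟨j, fun a b ha hb => ?_⟩)
        rw [← hj a b, Function.update_of_ne ha, Function.update_of_ne hb]
    have e4 : ∑ i, (if pFx g i = true then (1 : ℝ) else 0) = (pCnt g : ℝ) := by
      unfold pCnt
      rw [card_filter]
      push_cast
      rfl
    have e5 : pCnt g ≤ 2 := by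
      refine pCnt_le (fun a b => hs _ _) (fun a b c => ht _ _ _) fun k hk => ?_
      obtain ⟨a, b, hab⟩ := h k
      exact hab (hk a b)
    have e6 : (pCnt g : ℝ) ≤ 2 := by exact_mod_cast e5
    rw [e1, sum_eq_zero fun j _ => hz j, sub_zero, mul_one]
    exact (sum_le_sum fun i _ => e3 i).trans (e4.le.trans e6)

/-- the purity lemma -/
theorem purity (h0 : ∀ i v, 0 ≤ μ i v) (h1 : ∀ i, ∑ v, μ i v = 1)
    (hs : ∀ x y, L x y = L y x)
    (ht : ∀ x y t, ¬ (L x y = true ∧ L y t = true ∧ L x t = true)) :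
    ∑ j, pProb μ L j * (1 - pProb μ L j) ≤ 2 * (1 - ∑ j, pProb μ L j) := by
  have e1 : ∀ i j, dv μ i (pInd L j) =
      PE μ (fun z => (1 - pInd L j z) * pav μ i (pInd L j) z) := by
    intro i j
    have a1 : PE μ (fun z => pav μ i (pInd L j) z * pInd L j z) =
        PE μ (fun z => pav μ i (pInd L j) z ^ 2) := by
      rw [← PE_mul_pav μ h1 i (pInd L j) (pav μ i (pInd L j)) (pav_update μ i (pInd L j))]
      congr 1
      funext z
      ring
    have a2 : (fun z => (1 - pInd L j z) * pav μ i (pInd L j) z) =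
        fun z => pav μ i (pInd L j) z - pav μ i (pInd L j) z * pInd L j z := by
      funext z; ring
    have a3 : PE μ (fun z => pInd L j z ^ 2) = PE μ (pInd L j) := by
      congr 1
      funext z
      exact pInd_sq L j z
    have a4 : PE μ (fun z => pav μ i (pInd L j) z) = PE μ (pInd L j) := PE_pav μ h1 i _
    rw [a2, PE_sub, a1, a4]
    unfold dv
    rw [a3]
  have e2 : ∀ j, pProb μ L j * (1 - pProb μ L j) ≤
      ∑ i, PE μ (fun z => (1 - pInd L j z) * pav μ i (pInd L j) z) := by
    intro j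
    have h := efron_stein μ h0 h1 (pInd L j)
    rw [sum_congr rfl fun i _ => e1 i j] at h
    have a3 : PE μ (fun z => pInd L j z ^ 2) = PE μ (pInd L j) := by
      congr 1
      funext z
      exact pInd_sq L j z
    rw [a3] at h
    unfold pProb
    linarith
  have e3 : ∑ j, ∑ i, PE μ (fun z => (1 - pInd L j z) * pav μ i (pInd L j) z) =
      PE μ (fun z => ∑ j, ∑ i, (1 - pInd L j z) * pav μ i (pInd L j) z) := by
    rw [PE_sum]
    exact sum_congr rfl fun j _ => (PE_sum μ univ _).symm
  have e4 : PE μ (fun z => 2 * (1 - ∑ j, pInd L j z)) = 2 * (1 - ∑ j, pProb μ L j) := by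
    rw [PE_mul, PE_sub, PE_const μ h1, PE_sum]
    rfl
  rw [← e4]
  refine (sum_le_sum fun j _ => e2 j).trans ?_
  rw [e3]
  exact PE_mono μ h0 fun z => pur_point μ L h0 h1 hs ht z

theorem pProb_nonneg (h0 : ∀ i v, 0 ≤ μ i v) (j : Fin 6) : 0 ≤ pProb μ L j :=
  PE_nonneg μ h0 fun z => pInd_nonneg L j z

theorem pProb_sum_le (h0 : ∀ i v, 0 ≤ μ i v) (h1 : ∀ i, ∑ v, μ i v = 1) :
    ∑ j, pProb μ L j ≤ 1 := by
  unfold pProb
  rw [← PE_sum, ← PE_const μ h1 1]
  exact PE_mono μ h0 fun z => pInd_sum_le L z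

/-- one of the six pentagons dominates -/
theorem purity_max (h0 : ∀ i v, 0 ≤ μ i v) (h1 : ∀ i, ∑ v, μ i v = 1)
    (hs : ∀ x y, L x y = L y x)
    (ht : ∀ x y t, ¬ (L x y = true ∧ L y t = true ∧ L x t = true)) :
    ∃ j, 3 * (∑ k, pProb μ L k) - 2 ≤ pProb μ L j * ∑ k, pProb μ L k := by
  obtain ⟨j, -, hj⟩ := exists_max_image univ (pProb μ L) ⟨0, mem_univ 0⟩
  refine ⟨j, ?_⟩
  have h := purity μ L h0 h1 hs ht
  have h2 : ∑ k, pProb μ L k * (1 - pProb μ L k) =
      ∑ k, pProb μ L k - ∑ k, pProb μ L k * pProb μ L k := by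
    rw [← sum_sub_distrib]
    exact sum_congr rfl fun k _ => by ring
  have h3 : ∑ k, pProb μ L k * pProb μ L k ≤ pProb μ L j * ∑ k, pProb μ L k := by
    rw [mul_sum]
    exact sum_le_sum fun k _ =>
      mul_le_mul_of_nonneg_right (hj k (mem_univ k)) (pProb_nonneg μ L h0 k)
  linarith

end Pur

end K4m
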