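import Mathlib
import Pool.Agent.Lib.MP_392c14_co.CountA

/-!
# Local analysis at a vertex, part E: expectation over a random transversal
-/

set_option autoImplicit false

namespace K4m

open Finset Function

section LocE

variable {V : Type} [Fintype V]

/-- weight of a transversal -/
noncomputable def PW (μ : Fin 6 → V → ℝ) (z : Fin 6 → V) : ℝ := ∏ a, μ a (z a)

/-- expectation over a random transversal with independent coordinates -/
noncomputable def E6 (μ : Fin 6 → V → ℝ) (h : (Fin 6 → V) → ℝ) : ℝ :=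
  ∑ z : Fin 6 → V, PW μ z * h z

theorem PW_nonneg {μ : Fin 6 → V → ℝ} (hμ : ∀ a, IsW (μ a)) (z : Fin 6 → V) : 0 ≤ PW μ z :=
  prod_nonneg fun a _ => (hμ a).nonneg _

theorem PW_sum {μ : Fin 6 → V → ℝ} (hμ : ∀ a, IsW (μ a)) : ∑ z : Fin 6 → V, PW μ z = 1 := by
  unfold PW
  have h := Finset.prod_univ_sum (fun _ : Fin 6 => (univ : Finset V)) (fun a x => μ a x)
  rw [Fintype.piFinset_univ] at h
  rw [← h]
  exact prod_eq_one fun a _ => (hμ a).sum_eq

theorem E6_const {μ : Fin 6 → V → ℝ} (hμ : ∀ a, IsW (μ a)) (r : ℝ) : E6 μ (fun _ => r) = r := by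
  unfold E6
  rw [← sum_mul, PW_sum hμ, one_mul]

theorem E6_mono {μ : Fin 6 → V → ℝ} (hμ : ∀ a, IsW (μ a)) {h k : (Fin 6 → V) → ℝ}
    (hk : ∀ z, h z ≤ k z) : E6 μ h ≤ E6 μ k :=
  sum_le_sum fun z _ => mul_le_mul_of_nonneg_left (hk z) (PW_nonneg hμ z)

theorem E6_nonneg {μ : Fin 6 → V → ℝ} (hμ : ∀ a, IsW (μ a)) {h : (Fin 6 → V) → ℝ}
    (hk : ∀ z, 0 ≤ h z) : 0 ≤ E6 μ h :=
  sum_nonneg fun z _ => mul_nonneg (PW_nonneg hμ z) (hk z)

theorem E6_add (μ : Fin 6 → V → ℝ) (h k : (Fin 6 → V) → ℝ) :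
    E6 μ (fun z => h z + k z) = E6 μ h + E6 μ k := by
  unfold E6
  rw [← sum_add_distrib]
  exact sum_congr rfl fun z _ => by ring

theorem E6_sub (μ : Fin 6 → V → ℝ) (h k : (Fin 6 → V) → ℝ) :
    E6 μ (fun z => h z - k z) = E6 μ h - E6 μ k := by
  unfold E6
  rw [← sum_sub_distrib]
  exact sum_congr rfl fun z _ => by ring

theorem E6_smul (μ : Fin 6 → V → ℝ) (r : ℝ) (h : (Fin 6 → V) → ℝ) :
    E6 μ (fun z => r * h z) = r * E6 μ h := by
  unfold E6
  rw [mul_sum]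
  exact sum_congr rfl fun z _ => by ring

theorem E6_sum {ι : Type} (s : Finset ι) (μ : Fin 6 → V → ℝ) (h : ι → (Fin 6 → V) → ℝ) :
    E6 μ (fun z => ∑ i ∈ s, h i z) = ∑ i ∈ s, E6 μ (h i) := by
  unfold E6
  rw [sum_comm]
  exact sum_congr rfl fun z _ => by rw [mul_sum]

theorem E6_congr (μ : Fin 6 → V → ℝ) {h k : (Fin 6 → V) → ℝ} (hk : ∀ z, h z = k z) :
    E6 μ h = E6 μ k := by
  unfold E6
  exact sum_congr rfl fun z _ => by rw [hk z]

omit [Fintype V] in
theorem PW_swap (μ : Fin 6 → V → ℝ) (a : Fin 6) (z : Fin 6 → V) (y : V) :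
    PW μ (update z a y) * μ a (z a) = PW μ z * μ a y := by
  unfold PW
  rw [Fintype.prod_eq_mul_prod_compl a, Fintype.prod_eq_mul_prod_compl a (fun i => μ i (z i))]
  have : ∏ i ∈ {a}ᶜ, μ i (update z a y i) = ∏ i ∈ {a}ᶜ, μ i (z i) := by
    refine prod_congr rfl fun i hi => ?_
    have hi' : i ≠ a := by simpa using hi
    rw [update_of_ne hi']
  rw [this, update_self]
  ring

/-- exchangeability of the coordinate `a` with an independent copy -/
theorem E7_swap (μ : Fin 6 → V → ℝ) (a : Fin 6) (f : (Fin 6 → V) → V → ℝ) :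
    ∑ z : Fin 6 → V, ∑ y, PW μ z * μ a y * f (update z a y) (z a) =
      ∑ z : Fin 6 → V, ∑ y, PW μ z * μ a y * f z y := by
  rw [← Fintype.sum_prod_type', ← Fintype.sum_prod_type']
  refine Fintype.sum_bijective (fun p : (Fin 6 → V) × V => (update p.1 a p.2, p.1 a)) ?_ _ _ ?_
  · refine Function.Involutive.bijective fun p => ?_
    simp
  · rintro ⟨z, y⟩
    simp only
    rw [PW_swap]

/-- averaging over one coordinate -/
theorem E6_avg {μ : Fin 6 → V → ℝ} (hμ : ∀ a, IsW (μ a)) (a : Fin 6) (h : (Fin 6 → V) → ℝ) :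
    E6 μ (fun z => ∑ y, μ a y * h (update z a y)) = E6 μ h := by
  unfold E6
  have h1 := E7_swap μ a (fun z _ => h z)
  have h2 : ∀ z : Fin 6 → V, ∑ y, PW μ z * μ a y * h z = PW μ z * h z := by
    intro z
    rw [← sum_mul, ← mul_sum, (hμ a).sum_eq, mul_one]
  rw [sum_congr rfl fun z _ => h2 z] at h1
  rw [← h1]
  refine sum_congr rfl fun z _ => ?_
  rw [mul_sum]
  exact sum_congr rfl fun y _ => by ring

/-- independence of one coordinate from the others -/
theorem E6_indep1 {μ : Fin 6 → V → ℝ} (hμ : ∀ a, IsW (μ a)) (a : Fin 6) (u : V → ℝ)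
    (r : (Fin 6 → V) → ℝ) (hr : ∀ z y, r (update z a y) = r z) :
    E6 μ (fun z => u (z a) * r z) = (∑ y, μ a y * u y) * E6 μ r := by
  rw [← E6_avg hμ a, ← E6_smul]
  refine E6_congr μ fun z => ?_
  rw [sum_mul]
  refine sum_congr rfl fun y _ => ?_
  rw [update_self, hr]
  ring

/-- independence of two coordinates from the others -/
theorem E6_indep2 {μ : Fin 6 → V → ℝ} (hμ : ∀ a, IsW (μ a)) (a b : Fin 6) (hab : a ≠ b)
    (u : V → V → ℝ) (r : (Fin 6 → V) → ℝ) (hra : ∀ z y, r (update z a y) = r z)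
    (hrb : ∀ z y, r (update z b y) = r z) :
    E6 μ (fun z => u (z a) (z b) * r z) = (∑ y, ∑ v, μ a y * μ b v * u y v) * E6 μ r := by
  have h1 : E6 μ (fun z => u (z a) (z b) * r z) =
      E6 μ (fun z => (∑ y, μ a y * u y (z b)) * r z) := by
    rw [← E6_avg hμ a]
    refine E6_congr μ fun z => ?_
    rw [sum_mul]
    refine sum_congr rfl fun y _ => ?_
    rw [update_self, update_of_ne hab.symm, hra]
    ring
  rw [h1, E6_indep1 hμ b (fun v => ∑ y, μ a y * u y v) r hrb]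
  congr 1
  rw [sum_comm]
  refine sum_congr rfl fun v _ => ?_
  rw [mul_sum]
  exact sum_congr rfl fun y _ => by ring

/-- the expectation over a transversal and a second point of the class `a` -/
noncomputable def E7 (μ : Fin 6 → V → ℝ) (a : Fin 6) (f : (Fin 6 → V) → V → ℝ) : ℝ :=
  ∑ z : Fin 6 → V, ∑ y, PW μ z * μ a y * f z y

theorem E7_mono {μ : Fin 6 → V → ℝ} (hμ : ∀ a, IsW (μ a)) (a : Fin 6)
    {f g : (Fin 6 → V) → V → ℝ} (h : ∀ z y, f z y ≤ g z y) : E7 μ a f ≤ E7 μ a g :=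
  sum_le_sum fun z _ => sum_le_sum fun y _ =>
    mul_le_mul_of_nonneg_left (h z y) (mul_nonneg (PW_nonneg hμ z) ((hμ a).nonneg y))

theorem E7_add (μ : Fin 6 → V → ℝ) (a : Fin 6) (f g : (Fin 6 → V) → V → ℝ) :
    E7 μ a (fun z y => f z y + g z y) = E7 μ a f + E7 μ a g := by
  unfold E7
  rw [← sum_add_distrib]
  refine sum_congr rfl fun z _ => ?_
  rw [← sum_add_distrib]
  exact sum_congr rfl fun y _ => by ring

theorem E7_smul (μ : Fin 6 → V → ℝ) (a : Fin 6) (r : ℝ) (f : (Fin 6 → V) → V → ℝ) :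
    E7 μ a (fun z y => r * f z y) = r * E7 μ a f := by
  unfold E7
  rw [mul_sum]
  refine sum_congr rfl fun z _ => ?_
  rw [mul_sum]
  exact sum_congr rfl fun y _ => by ring

theorem E7_fst {μ : Fin 6 → V → ℝ} (hμ : ∀ a, IsW (μ a)) (a : Fin 6) (h : (Fin 6 → V) → ℝ) :
    E7 μ a (fun z _ => h z) = E6 μ h := by
  unfold E7 E6
  refine sum_congr rfl fun z _ => ?_
  rw [← sum_mul, ← mul_sum, (hμ a).sum_eq, mul_one]

theorem E7_snd {μ : Fin 6 → V → ℝ} (hμ : ∀ a, IsW (μ a)) (a : Fin 6) (h : (Fin 6 → V) → ℝ) :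
    E7 μ a (fun z y => h (update z a y)) = E6 μ h := by
  rw [← E7_fst hμ a h]
  exact E7_swap μ a (fun z _ => h z)

theorem E7_symm (μ : Fin 6 → V → ℝ) (a : Fin 6) (f : (Fin 6 → V) → V → ℝ) :
    E7 μ a (fun z y => f (update z a y) (z a)) = E7 μ a f :=
  E7_swap μ a f

/-- own pairs: first factor a function of the pair, second a function of the transversal -/
theorem E7_own (μ : Fin 6 → V → ℝ) (a : Fin 6) (o : V → V → ℝ) (h : (Fin 6 → V) → ℝ) :
    E7 μ a (fun z y => o (z a) y * h z) = E6 μ (fun z => (∑ y, μ a y * o (z a) y) * h z) := by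
  unfold E7 E6
  refine sum_congr rfl fun z _ => ?_
  beta_reduce
  rw [sum_mul, mul_sum]
  exact sum_congr rfl fun y _ => by ring

end LocE

end K4m
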