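import Mathlib
import Pool.Agent.Lib.MP_392c14_co.LocE

/-!
# Local analysis at a vertex, part C: codes of small graphs and the inequality on seven points

A graph on the six classes is coded, relative to a frame in which the class of interest has
position `0`, by five bits (pairs with position `0`) and ten bits (the other pairs).
The entry number `i` of a table `t` is `(t >>> (16 * i)) &&& 65535`.
-/

set_option autoImplicit false

namespace K4m

open Finset Function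

/-- entry of a table -/
def tget (t i : ℕ) : ℕ := Nat.land (Nat.shiftRight t (Nat.mul 16 i)) 65535

/-- bounded universal quantifier -/
def allN : ℕ → (ℕ → Bool) → Bool
  | 0, _ => true
  | n + 1, f => f n && allN n f

theorem allN_spec {n : ℕ} {f : ℕ → Bool} (h : allN n f = true) : ∀ i, i < n → f i = true := by
  induction n with
  | zero => intro i hi; omega
  | succ n ih =>
    intro i hi
    rw [allN, Bool.and_eq_true] at h
    rcases Nat.lt_succ_iff_lt_or_eq.1 hi with h1 | h1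
    · exact ih h.2 i h1
    · rw [h1]; exact h.1

/-- not all bits of the mask `m` are set -/
def tm (n m : ℕ) : Bool := !(Nat.beq (Nat.land n m) m)

/-- not all bits of both masks are set -/
def tp (s w m k : ℕ) : Bool := !(Nat.beq (Nat.land s m) m && Nat.beq (Nat.land w k) k)

/-- no triangle among the positions `1,...,5` -/
def tfW (w : ℕ) : Bool :=
  tm w 19 &&
  tm w 37 &&
  tm w 73 &&
  tm w 134 &&
  tm w 266 &&
  tm w 524 &&
  tm w 176 &&
  tm w 336 &&
  tm w 608 &&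
  tm w 896

/-- no triangle through the position `0` -/
def tfS (s w : ℕ) : Bool :=
  tp s w 3 1 &&
  tp s w 5 2 &&
  tp s w 9 4 &&
  tp s w 17 8 &&
  tp s w 6 16 &&
  tp s w 10 32 &&
  tp s w 18 64 &&
  tp s w 12 128 &&
  tp s w 20 256 &&
  tp s w 24 512

/-- first end of a distinguished path -/
def lp (tE w s : ℕ) : ℕ :=
  cond (Nat.beq s (Nat.land (tget tE w) 255) && !(Nat.beq s 0)) 1 0

/-- second end of a distinguished path -/
def ln (tE w s : ℕ) : ℕ :=
  cond (Nat.beq s (Nat.shiftRight (tget tE w) 8) && !(Nat.beq s 0)) 1 0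

/-- one check on seven points -/
def c7 (tR tX tT tE w s r : ℕ) : Bool :=
  Nat.ble (Nat.add 2000 (Nat.mul 1000 (Nat.add (Nat.mul (lp tE w s) (lp tE w r))
      (Nat.mul (ln tE w s) (ln tE w r)))))
    (Nat.add (Nat.add (Nat.mul 2 (tget tR w))
    (Nat.add (Nat.add (tget tX (Nat.add s (Nat.mul 32 w))) (tget tX (Nat.add r (Nat.mul 32 w))))
      (Nat.add (tget tT (Nat.add s (Nat.mul 32 w))) (tget tT (Nat.add r (Nat.mul 32 w))))))
      (Nat.mul 1000 (Nat.add (Nat.mul (lp tE w s) (ln tE w r))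
      (Nat.mul (ln tE w s) (lp tE w r)))))

/-- one check on six points -/
def c6 (tX tT tE b w s : ℕ) : Bool :=
  Nat.ble (Nat.mul 1000 (Nat.add (lp tE w s) (ln tE w s)))
    (Nat.mul 2 (tget tX (Nat.add s (Nat.mul 32 w)))) &&
    Nat.ble (tget tT (Nat.add s (Nat.mul 32 w))) b

/-- all checks on seven points -/
def chk7 (tR tX tT tE b : ℕ) : Bool :=
  allN 1024 fun w => !(tfW w) || allN 32 fun s => !(tfS s w) || (c6 tX tT tE b w s && allN 32 fun r =>
    !(Nat.beq (Nat.land s r) 0) || (!(tfS r w) || c7 tR tX tT tE w s r))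

/-- five bits -/
def h5 (a b c d e : ℕ) : ℕ :=
  Nat.add a (Nat.mul 2 (Nat.add b (Nat.mul 2 (Nat.add c (Nat.mul 2 (Nat.add d (Nat.mul 2 e)))))))

/-- ten bits -/
def h10 (a b c d e f g h i j : ℕ) : ℕ :=
  Nat.add a (Nat.mul 2 (Nat.add b (Nat.mul 2 (Nat.add c (Nat.mul 2 (Nat.add d (Nat.mul 2 (Nat.add e
    (Nat.mul 2 (h5 f g h i j))))))))))

theorem h5_lt (a b c d e : Bool) : h5 a.toNat b.toNat c.toNat d.toNat e.toNat < 32 := by
  revert a b c d e; decide

theorem h10_lt (a b c d e f g h i j : Bool) :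
    h10 a.toNat b.toNat c.toNat d.toNat e.toNat f.toNat g.toNat h.toNat i.toNat j.toNat < 1024 := by
  revert a b c d e f g h i j; decide +kernel

theorem h5_land (a b c d e a' b' c' d' e' : Bool) (h1 : (a && a') = false)
    (h2 : (b && b') = false) (h3 : (c && c') = false) (h4 : (d && d') = false)
    (h5' : (e && e') = false) :
    Nat.land (h5 a.toNat b.toNat c.toNat d.toNat e.toNat)
      (h5 a'.toNat b'.toNat c'.toNat d'.toNat e'.toNat) = 0 := by
  revert a b c d e a' b' c' d' e'; decide +kernel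

/-- the no-triangle test succeeds on the code of a graph without triangles -/
theorem tfW_of (a b c d e f g h i j : Bool) (h1 : (a && b && e) = false)
    (h2 : (a && c && f) = false) (h3 : (a && d && g) = false) (h4 : (b && c && h) = false)
    (h5' : (b && d && i) = false) (h6 : (c && d && j) = false) (h7 : (e && f && h) = false)
    (h8 : (e && g && i) = false) (h9 : (f && g && j) = false) (h10' : (h && i && j) = false) :
    tfW (h10 a.toNat b.toNat c.toNat d.toNat e.toNat f.toNat g.toNat h.toNat i.toNat j.toNat) =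
      true := by
  revert a b c d e f g h i j; decide +kernel

theorem h5_mask : ∀ a b c d e : Bool,
    (Nat.land (h5 a.toNat b.toNat c.toNat d.toNat e.toNat) 3 = 3 → a = true ∧ b = true) ∧
    (Nat.land (h5 a.toNat b.toNat c.toNat d.toNat e.toNat) 5 = 5 → a = true ∧ c = true) ∧
    (Nat.land (h5 a.toNat b.toNat c.toNat d.toNat e.toNat) 9 = 9 → a = true ∧ d = true) ∧
    (Nat.land (h5 a.toNat b.toNat c.toNat d.toNat e.toNat) 17 = 17 → a = true ∧ e = true) ∧
    (Nat.land (h5 a.toNat b.toNat c.toNat d.toNat e.toNat) 6 = 6 → b = true ∧ c = true) ∧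
    (Nat.land (h5 a.toNat b.toNat c.toNat d.toNat e.toNat) 10 = 10 → b = true ∧ d = true) ∧
    (Nat.land (h5 a.toNat b.toNat c.toNat d.toNat e.toNat) 18 = 18 → b = true ∧ e = true) ∧
    (Nat.land (h5 a.toNat b.toNat c.toNat d.toNat e.toNat) 12 = 12 → c = true ∧ d = true) ∧
    (Nat.land (h5 a.toNat b.toNat c.toNat d.toNat e.toNat) 20 = 20 → c = true ∧ e = true) ∧
    (Nat.land (h5 a.toNat b.toNat c.toNat d.toNat e.toNat) 24 = 24 → d = true ∧ e = true) := by
  decide +kernel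

theorem h10_mask : ∀ a b c d e f g h i j : Bool,
    (Nat.land (h10 a.toNat b.toNat c.toNat d.toNat e.toNat f.toNat g.toNat h.toNat i.toNat
      j.toNat) 1 = 1 → a = true) ∧
    (Nat.land (h10 a.toNat b.toNat c.toNat d.toNat e.toNat f.toNat g.toNat h.toNat i.toNat
      j.toNat) 2 = 2 → b = true) ∧
    (Nat.land (h10 a.toNat b.toNat c.toNat d.toNat e.toNat f.toNat g.toNat h.toNat i.toNat
      j.toNat) 4 = 4 → c = true) ∧
    (Nat.land (h10 a.toNat b.toNat c.toNat d.toNat e.toNat f.toNat g.toNat h.toNat i.toNat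
      j.toNat) 8 = 8 → d = true) ∧
    (Nat.land (h10 a.toNat b.toNat c.toNat d.toNat e.toNat f.toNat g.toNat h.toNat i.toNat
      j.toNat) 16 = 16 → e = true) ∧
    (Nat.land (h10 a.toNat b.toNat c.toNat d.toNat e.toNat f.toNat g.toNat h.toNat i.toNat
      j.toNat) 32 = 32 → f = true) ∧
    (Nat.land (h10 a.toNat b.toNat c.toNat d.toNat e.toNat f.toNat g.toNat h.toNat i.toNat
      j.toNat) 64 = 64 → g = true) ∧
    (Nat.land (h10 a.toNat b.toNat c.toNat d.toNat e.toNat f.toNat g.toNat h.toNat i.toNat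
      j.toNat) 128 = 128 → h = true) ∧
    (Nat.land (h10 a.toNat b.toNat c.toNat d.toNat e.toNat f.toNat g.toNat h.toNat i.toNat
      j.toNat) 256 = 256 → i = true) ∧
    (Nat.land (h10 a.toNat b.toNat c.toNat d.toNat e.toNat f.toNat g.toNat h.toNat i.toNat
      j.toNat) 512 = 512 → j = true) := by
  decide +kernel

theorem tp_of {s w m k : ℕ} (h : ¬ (Nat.land s m = m ∧ Nat.land w k = k)) : tp s w m k = true := by
  unfold tp
  rw [Bool.not_eq_true', Bool.and_eq_false_iff]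
  by_cases h1 : Nat.land s m = m
  · right
    have h2 : ¬ Nat.land w k = k := fun h2 => h ⟨h1, h2⟩
    cases hb : Nat.beq (Nat.land w k) k
    · rfl
    · exact absurd (Nat.eq_of_beq_eq_true hb) h2
  · left
    cases hb : Nat.beq (Nat.land s m) m
    · rfl
    · exact absurd (Nat.eq_of_beq_eq_true hb) h1

section codes

variable (l : Fin 6 → Fin 6 → Bool)

/-- code of the pairs with position `0` -/
def cS (σ : Fin 6 → Fin 6) : ℕ :=
  h5 (l (σ 0) (σ 1)).toNat (l (σ 0) (σ 2)).toNat (l (σ 0) (σ 3)).toNat (l (σ 0) (σ 4)).toNat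
    (l (σ 0) (σ 5)).toNat

/-- code of the other pairs -/
def cW (σ : Fin 6 → Fin 6) : ℕ :=
  h10 (l (σ 1) (σ 2)).toNat (l (σ 1) (σ 3)).toNat (l (σ 1) (σ 4)).toNat (l (σ 1) (σ 5)).toNat
    (l (σ 2) (σ 3)).toNat (l (σ 2) (σ 4)).toNat (l (σ 2) (σ 5)).toNat (l (σ 3) (σ 4)).toNat
    (l (σ 3) (σ 5)).toNat (l (σ 4) (σ 5)).toNat

theorem cS_lt (σ : Fin 6 → Fin 6) : cS l σ < 32 := h5_lt _ _ _ _ _

theorem cW_lt (σ : Fin 6 → Fin 6) : cW l σ < 1024 := h10_lt _ _ _ _ _ _ _ _ _ _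

/-- no triangle -/
def NoTri : Prop := ∀ i j k, ¬ (l i j = true ∧ l i k = true ∧ l j k = true)

variable {l}

theorem and3_false {a b c : Bool} (h : ¬ (a = true ∧ b = true ∧ c = true)) :
    (a && b && c) = false := by
  cases a <;> cases b <;> cases c <;> simp_all

theorem tfW_code (h : NoTri l) (σ : Fin 6 → Fin 6) : tfW (cW l σ) = true := by
  unfold cW
  exact tfW_of _ _ _ _ _ _ _ _ _ _ (and3_false (h _ _ _)) (and3_false (h _ _ _))
    (and3_false (h _ _ _)) (and3_false (h _ _ _)) (and3_false (h _ _ _)) (and3_false (h _ _ _))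
    (and3_false (h _ _ _)) (and3_false (h _ _ _)) (and3_false (h _ _ _)) (and3_false (h _ _ _))

theorem tfS_code (h : NoTri l) (σ : Fin 6 → Fin 6) : tfS (cS l σ) (cW l σ) = true := by
  obtain ⟨m1, m2, m3, m4, m5, m6, m7, m8, m9, m10⟩ := h5_mask (l (σ 0) (σ 1)) (l (σ 0) (σ 2))
    (l (σ 0) (σ 3)) (l (σ 0) (σ 4)) (l (σ 0) (σ 5))
  obtain ⟨k1, k2, k3, k4, k5, k6, k7, k8, k9, k10⟩ := h10_mask (l (σ 1) (σ 2)) (l (σ 1) (σ 3))
    (l (σ 1) (σ 4)) (l (σ 1) (σ 5)) (l (σ 2) (σ 3)) (l (σ 2) (σ 4)) (l (σ 2) (σ 5))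
    (l (σ 3) (σ 4)) (l (σ 3) (σ 5)) (l (σ 4) (σ 5))
  unfold tfS
  simp only [Bool.and_eq_true]
  refine ⟨⟨⟨⟨⟨⟨⟨⟨⟨?_, ?_⟩, ?_⟩, ?_⟩, ?_⟩, ?_⟩, ?_⟩, ?_⟩, ?_⟩, ?_⟩ <;>
    refine tp_of fun hh => ?_
  · exact h _ _ _ ⟨(m1 hh.1).1, (m1 hh.1).2, k1 hh.2⟩
  · exact h _ _ _ ⟨(m2 hh.1).1, (m2 hh.1).2, k2 hh.2⟩
  · exact h _ _ _ ⟨(m3 hh.1).1, (m3 hh.1).2, k3 hh.2⟩
  · exact h _ _ _ ⟨(m4 hh.1).1, (m4 hh.1).2, k4 hh.2⟩
  · exact h _ _ _ ⟨(m5 hh.1).1, (m5 hh.1).2, k5 hh.2⟩
  · exact h _ _ _ ⟨(m6 hh.1).1, (m6 hh.1).2, k6 hh.2⟩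
  · exact h _ _ _ ⟨(m7 hh.1).1, (m7 hh.1).2, k7 hh.2⟩
  · exact h _ _ _ ⟨(m8 hh.1).1, (m8 hh.1).2, k8 hh.2⟩
  · exact h _ _ _ ⟨(m9 hh.1).1, (m9 hh.1).2, k9 hh.2⟩
  · exact h _ _ _ ⟨(m10 hh.1).1, (m10 hh.1).2, k10 hh.2⟩

end codes

/-- sign of an end of a distinguished path -/
noncomputable def lr (tE w s : ℕ) : ℝ := (lp tE w s : ℝ) - (ln tE w s : ℝ)

theorem lp_zero_or_one (tE w s : ℕ) : lp tE w s = 0 ∨ lp tE w s = 1 := by
  unfold lp
  cases (Nat.beq s (Nat.land (tget tE w) 255) && !(Nat.beq s 0)) <;> simp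

theorem ln_zero_or_one (tE w s : ℕ) : ln tE w s = 0 ∨ ln tE w s = 1 := by
  unfold ln
  cases (Nat.beq s (Nat.shiftRight (tget tE w) 8) && !(Nat.beq s 0)) <;> simp

theorem lr_sq_le (tE w s : ℕ) : lr tE w s ^ 2 ≤ (lp tE w s : ℝ) + (ln tE w s : ℝ) := by
  unfold lr
  rcases lp_zero_or_one tE w s with h | h <;> rcases ln_zero_or_one tE w s with h' | h' <;>
    rw [h, h'] <;> norm_num

/-- value of the table of functions on six points -/
noncomputable def vX (tX w s : ℕ) : ℝ := (tget tX (s + 32 * w) : ℝ)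

theorem chk7_six {tR tX tT tE b : ℕ} (h : chk7 tR tX tT tE b = true) {w s : ℕ}
    (hw : w < 1024) (hs : s < 32) (h1 : tfW w = true) (h2 : tfS s w = true) :
    1000 * lr tE w s ^ 2 ≤ 2 * vX tX w s ∧ vX tT w s ≤ b := by
  have e1 := allN_spec h w hw
  rw [h1, Bool.not_true, Bool.false_or] at e1
  have e2 := allN_spec e1 s hs
  rw [h2, Bool.not_true, Bool.false_or, Bool.and_eq_true] at e2
  have e3 := e2.1
  unfold c6 at e3
  rw [Bool.and_eq_true] at e3
  have e4 := Nat.le_of_ble_eq_true e3.1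
  have e5 := Nat.le_of_ble_eq_true e3.2
  have e6 : 1000 * (lp tE w s + ln tE w s) ≤ 2 * tget tX (s + 32 * w) := e4
  have e7 : tget tT (s + 32 * w) ≤ b := e5
  have e8 : (1000 : ℝ) * ((lp tE w s : ℝ) + (ln tE w s : ℝ)) ≤ 2 * (tget tX (s + 32 * w) : ℝ) := by
    exact_mod_cast e6
  refine ⟨?_, ?_⟩
  · have := lr_sq_le tE w s
    unfold vX
    linarith
  · unfold vX
    exact_mod_cast e7

theorem chk7_own {tR tX tT tE b : ℕ} (h : chk7 tR tX tT tE b = true) {w s r : ℕ}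
    (hw : w < 1024) (hs : s < 32) (hr : r < 32) (h1 : tfW w = true) (h2 : tfS s w = true)
    (h3 : tfS r w = true) (h4 : Nat.land s r = 0) :
    2000 + 1000 * (lr tE w s * lr tE w r) ≤
      2 * (tget tR w : ℝ) + (vX tX w s + vX tX w r) + (vX tT w s + vX tT w r) := by
  have e1 := allN_spec h w hw
  rw [h1, Bool.not_true, Bool.false_or] at e1
  have e2 := allN_spec e1 s hs
  rw [h2, Bool.not_true, Bool.false_or, Bool.and_eq_true] at e2
  have e3 := allN_spec e2.2 r hr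
  have e4 : Nat.beq (Nat.land s r) 0 = true := by rw [h4]; rfl
  rw [e4, Bool.not_true, Bool.false_or, h3, Bool.not_true, Bool.false_or] at e3
  have e5 := Nat.le_of_ble_eq_true e3
  have e6 : 2000 + 1000 * (lp tE w s * lp tE w r + ln tE w s * ln tE w r) ≤
      (2 * tget tR w + ((tget tX (s + 32 * w) + tget tX (r + 32 * w)) +
        (tget tT (s + 32 * w) + tget tT (r + 32 * w)))) +
        1000 * (lp tE w s * ln tE w r + ln tE w s * lp tE w r) := e5
  have e7 : (2000 : ℝ) + 1000 * ((lp tE w s : ℝ) * (lp tE w r : ℝ) +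
      (ln tE w s : ℝ) * (ln tE w r : ℝ)) ≤
      (2 * (tget tR w : ℝ) + (((tget tX (s + 32 * w) : ℝ) + (tget tX (r + 32 * w) : ℝ)) +
        ((tget tT (s + 32 * w) : ℝ) + (tget tT (r + 32 * w) : ℝ)))) +
        1000 * ((lp tE w s : ℝ) * (ln tE w r : ℝ) + (ln tE w s : ℝ) * (lp tE w r : ℝ)) := by
    exact_mod_cast e6
  unfold lr vX
  have e8 : ((lp tE w s : ℝ) - (ln tE w s : ℝ)) * ((lp tE w r : ℝ) - (ln tE w r : ℝ)) =
      ((lp tE w s : ℝ) * (lp tE w r : ℝ) + (ln tE w s : ℝ) * (ln tE w r : ℝ)) -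
      ((lp tE w s : ℝ) * (ln tE w r : ℝ) + (ln tE w s : ℝ) * (lp tE w r : ℝ)) := by ring
  rw [e8]
  linarith

end K4m
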