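import Mathlib
import Pool.Agent.Lib.MP_392c14_co.LocC

/-!
# Local analysis at a vertex, part D: the inequality for the own density of one class

`μ a` is a probability measure on the class `a`, `L` is the link of the vertex under
consideration (a graph without triangles).  Tables `tR, tX, tT, tE` satisfying the finite check
`chk7` give an upper bound for the density of `L` inside the class `a`.
-/

set_option autoImplicit false

namespace K4m

open Finset Function

section LocD

variable {V : Type} [Fintype V]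

/-- indicator of adjacency -/
noncomputable def lk (L : V → V → Bool) (x y : V) : ℝ := if L x y = true then 1 else 0

/-- the graph on the classes shown by a transversal -/
def lz (L : V → V → Bool) (z : Fin 6 → V) (i j : Fin 6) : Bool := L (z i) (z j)

/-- degree of a vertex into a measure -/
noncomputable def dg (m : V → ℝ) (L : V → V → Bool) (v : V) : ℝ := ∑ y, m y * lk L v y

/-- density inside a measure -/
noncomputable def qd (m : V → ℝ) (L : V → V → Bool) : ℝ := ∑ v, m v * dg m L v

/-- excess of the degrees over `um` -/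
noncomputable def nuex (m : V → ℝ) (L : V → V → Bool) (um : ℝ) : ℝ :=
  ∑ v, m v * max 0 (dg m L v - um)

/-- frames of the classes: position `0` is the class itself -/
def Frame (σ : Fin 6 → Fin 6) (a : Fin 6) : Prop := σ 0 = a ∧ Injective σ

/-- value of the table `X` (or `T`) at a transversal -/
noncomputable def zX (tX : ℕ) (σ : Fin 6 → Fin 6) (L : V → V → Bool) (z : Fin 6 → V) : ℝ :=
  vX tX (cW (lz L z) σ) (cS (lz L z) σ)

/-- value of the table `R` at a transversal -/
noncomputable def zR (tR : ℕ) (σ : Fin 6 → Fin 6) (L : V → V → Bool) (z : Fin 6 → V) : ℝ :=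
  (tget tR (cW (lz L z) σ) : ℝ)

/-- value of the sign function at a transversal -/
noncomputable def zE (tE : ℕ) (σ : Fin 6 → Fin 6) (L : V → V → Bool) (z : Fin 6 → V) : ℝ :=
  lr tE (cW (lz L z) σ) (cS (lz L z) σ)

omit [Fintype V] in
theorem lk_nonneg (L : V → V → Bool) (x y : V) : 0 ≤ lk L x y := by
  unfold lk; split_ifs <;> norm_num

omit [Fintype V] in
theorem lk_le_one (L : V → V → Bool) (x y : V) : lk L x y ≤ 1 := by
  unfold lk; split_ifs <;> norm_num

theorem qd_nonneg {m : V → ℝ} (hm : IsW m) (L : V → V → Bool) : 0 ≤ qd m L :=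
  sum_nonneg fun v _ => mul_nonneg (hm.nonneg v)
    (sum_nonneg fun y _ => mul_nonneg (hm.nonneg y) (lk_nonneg L v y))

omit [Fintype V] in
theorem lz_notri {L : V → V → Bool} (hT : ∀ x y t, ¬ (L x y = true ∧ L x t = true ∧ L y t = true))
    (z : Fin 6 → V) : NoTri (lz L z) := fun _ _ _ => hT _ _ _

omit [Fintype V] in
theorem cW_update {σ : Fin 6 → Fin 6} {a : Fin 6} (hσ : Frame σ a) (L : V → V → Bool)
    (z : Fin 6 → V) (y : V) : cW (lz L (update z a y)) σ = cW (lz L z) σ := by
  have h : ∀ i : Fin 6, i ≠ 0 → (update z a y) (σ i) = z (σ i) := by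
    intro i hi
    refine update_of_ne ?_ _ _
    rw [← hσ.1]
    exact fun h => hi (hσ.2 h)
  unfold cW lz
  rw [h 1 (by decide), h 2 (by decide), h 3 (by decide), h 4 (by decide), h 5 (by decide)]

omit [Fintype V] in
theorem cS_update_land {σ : Fin 6 → Fin 6} {a : Fin 6} (hσ : Frame σ a) {L : V → V → Bool}
    (hT : ∀ x y t, ¬ (L x y = true ∧ L x t = true ∧ L y t = true))
    (z : Fin 6 → V) (y : V) (hy : L (z a) y = true) :
    Nat.land (cS (lz L z) σ) (cS (lz L (update z a y)) σ) = 0 := by
  have h : ∀ i : Fin 6, i ≠ 0 → (update z a y) (σ i) = z (σ i) := by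
    intro i hi
    refine update_of_ne ?_ _ _
    rw [← hσ.1]
    exact fun h => hi (hσ.2 h)
  have h0 : (update z a y) (σ 0) = y := by rw [hσ.1, update_self]
  unfold cS lz
  rw [h0, hσ.1, h 1 (by decide), h 2 (by decide), h 3 (by decide), h 4 (by decide),
    h 5 (by decide)]
  have key : ∀ t, (L (z a) t && L y t) = false := by
    intro t
    cases h1 : L (z a) t
    · rfl
    · cases h2 : L y t
      · rfl
      · exact absurd ⟨hy, h1, h2⟩ (hT (z a) y t)
  exact h5_land _ _ _ _ _ _ _ _ _ _ (key _) (key _) (key _) (key _) (key _)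

/-- abstract form of the pointwise inequality when the pair is not adjacent -/
theorem own_pt_zero {g g' x x' : ℝ} (h1 : 1000 * g ^ 2 ≤ 2 * x) (h2 : 1000 * g' ^ 2 ≤ 2 * x') :
    1000 * (g * g') ≤ x + x' := by
  nlinarith [sq_nonneg (g - g')]

omit [Fintype V] in
/-- pointwise inequality for a transversal and a second point of the class -/
theorem own_pt {tR tX tT tE b : ℕ} (hc : chk7 tR tX tT tE b = true) {σ : Fin 6 → Fin 6}
    {a : Fin 6} (hσ : Frame σ a) {L : V → V → Bool}
    (hT : ∀ x y t, ¬ (L x y = true ∧ L x t = true ∧ L y t = true)) (z : Fin 6 → V) (y : V) :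
    2000 * lk L (z a) y + 1000 * (zE tE σ L z * zE tE σ L (update z a y)) ≤
      2 * (lk L (z a) y * zR tR σ L z) +
      (lk L (z a) y * zX tT σ L z + lk L (z a) y * zX tT σ L (update z a y)) +
      (zX tX σ L z + zX tX σ L (update z a y)) := by
  have n1 := lz_notri hT z
  have n2 := lz_notri hT (update z a y)
  have w1 := cW_lt (lz L z) σ
  have s1 := cS_lt (lz L z) σ
  have s2 := cS_lt (lz L (update z a y)) σ
  have t1 := tfW_code n1 σ
  have t2 := tfS_code n1 σ
  have t3 := tfS_code n2 σ
  have eW := cW_update hσ L z y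
  rw [eW] at t3
  by_cases hy : L (z a) y = true
  · have e : lk L (z a) y = 1 := by unfold lk; rw [if_pos hy]
    have h := chk7_own hc w1 s1 s2 t1 t2 t3 (cS_update_land hσ hT z y hy)
    have e1 : zE tE σ L (update z a y) = lr tE (cW (lz L z) σ) (cS (lz L (update z a y)) σ) := by
      unfold zE; rw [eW]
    have e2 : zX tX σ L (update z a y) = vX tX (cW (lz L z) σ) (cS (lz L (update z a y)) σ) := by
      unfold zX; rw [eW]
    have e3 : zX tT σ L (update z a y) = vX tT (cW (lz L z) σ) (cS (lz L (update z a y)) σ) := by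
      unfold zX; rw [eW]
    rw [e, e1, e2, e3]
    calc _ = 2000 + 1000 * (lr tE (cW (lz L z) σ) (cS (lz L z) σ) *
            lr tE (cW (lz L z) σ) (cS (lz L (update z a y)) σ)) := by unfold zE; ring
      _ ≤ _ := h
      _ = _ := by unfold zR zX; ring
  · have e : lk L (z a) y = 0 := by unfold lk; rw [if_neg hy]
    have h1 := (chk7_six hc w1 s1 t1 t2).1
    have h2 := (chk7_six hc w1 s2 t1 t3).1
    have e1 : zE tE σ L (update z a y) = lr tE (cW (lz L z) σ) (cS (lz L (update z a y)) σ) := by
      unfold zE; rw [eW]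
    have e2 : zX tX σ L (update z a y) = vX tX (cW (lz L z) σ) (cS (lz L (update z a y)) σ) := by
      unfold zX; rw [eW]
    have h := own_pt_zero h1 h2
    rw [e, e1, e2]
    calc _ = 1000 * (lr tE (cW (lz L z) σ) (cS (lz L z) σ) *
            lr tE (cW (lz L z) σ) (cS (lz L (update z a y)) σ)) := by unfold zE; ring
      _ ≤ _ := h
      _ = _ := by unfold zX; ring

/-- the square term is nonnegative -/
theorem sq_term {μ : Fin 6 → V → ℝ} (hμ : ∀ a, IsW (μ a)) (a : Fin 6)
    (g : (Fin 6 → V) → ℝ) : 0 ≤ E7 μ a (fun z y => g z * g (update z a y)) := by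
  have h1 : E7 μ a (fun z y => g z * g (update z a y)) =
      E6 μ (fun z => g z * ∑ y, μ a y * g (update z a y)) := by
    unfold E7 E6
    refine sum_congr rfl fun z _ => ?_
    beta_reduce
    rw [mul_sum, mul_sum]
    exact sum_congr rfl fun y _ => by ring
  rw [h1, ← E6_avg hμ a]
  refine E6_nonneg hμ fun z => ?_
  have h2 : ∀ y, ∑ v, μ a v * g (update (update z a y) a v) = ∑ v, μ a v * g (update z a v) := by
    intro y
    exact sum_congr rfl fun v _ => by rw [update_idem]
  have h3 : ∑ y, μ a y * (g (update z a y) * ∑ v, μ a v * g (update (update z a y) a v)) =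
      (∑ v, μ a v * g (update z a v)) ^ 2 := by
    rw [sq, sum_mul]
    refine sum_congr rfl fun y _ => ?_
    rw [h2 y]
    ring
  rw [h3]
  exact sq_nonneg _

/-- own density: abstract form -/
theorem own_abs {μ : Fin 6 → V → ℝ} (hμ : ∀ a, IsW (μ a)) (a : Fin 6) (o : V → V → ℝ)
    (ho : ∀ x y, o x y = o y x) (R X T G : (Fin 6 → V) → ℝ)
    (hR : ∀ z y, R (update z a y) = R z) (b um : ℝ) (hT0 : ∀ z, 0 ≤ T z) (hTb : ∀ z, T z ≤ b)
    (hpt : ∀ z y, 2000 * o (z a) y + 1000 * (G z * G (update z a y)) ≤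
      2 * (o (z a) y * R z) + (o (z a) y * T z + o (z a) y * T (update z a y)) +
      (X z + X (update z a y))) :
    1000 * (∑ v, μ a v * ∑ y, μ a y * o v y) ≤
      (∑ v, μ a v * ∑ y, μ a y * o v y) * E6 μ R + um * E6 μ T + E6 μ X +
        b * ∑ v, μ a v * max 0 ((∑ y, μ a y * o v y) - um) := by
  have h := E7_mono hμ a hpt
  have q1 : E7 μ a (fun z y => o (z a) y) = ∑ v, μ a v * ∑ y, μ a y * o v y := by
    have h1 := E7_own μ a o (fun _ => (1 : ℝ))
    have h' : E7 μ a (fun z y => o (z a) y) = E7 μ a (fun z y => o (z a) y * 1) := by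
      congr 1; funext z y; rw [mul_one]
    rw [h', h1]
    have h2 := E6_indep1 hμ a (fun v => ∑ y, μ a y * o v y) (fun _ => (1 : ℝ)) (fun _ _ => rfl)
    rw [h2, E6_const hμ, mul_one]
  have q2 : E7 μ a (fun z y => o (z a) y * R z) =
      (∑ v, μ a v * ∑ y, μ a y * o v y) * E6 μ R := by
    rw [E7_own μ a o R]
    exact E6_indep1 hμ a (fun v => ∑ y, μ a y * o v y) R hR
  have q3 : E7 μ a (fun z y => o (z a) y * T z) =
      E6 μ (fun z => (∑ y, μ a y * o (z a) y) * T z) := E7_own μ a o T
  have q4 : E7 μ a (fun z y => o (z a) y * T (update z a y)) =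
      E6 μ (fun z => (∑ y, μ a y * o (z a) y) * T z) := by
    rw [← q3, ← E7_symm μ a (fun z y => o (z a) y * T z)]
    congr 1
    funext z y
    rw [update_self, ho]
  have q5 : E7 μ a (fun z _ => X z) = E6 μ X := E7_fst hμ a X
  have q6 : E7 μ a (fun z y => X (update z a y)) = E6 μ X := E7_snd hμ a X
  have q7 := sq_term hμ a G
  have e1 : E7 μ a (fun z y => 2000 * o (z a) y + 1000 * (G z * G (update z a y))) =
      2000 * (∑ v, μ a v * ∑ y, μ a y * o v y) +
      1000 * E7 μ a (fun z y => G z * G (update z a y)) := by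
    rw [E7_add μ a (fun z y => 2000 * o (z a) y) (fun z y => 1000 * (G z * G (update z a y))),
      E7_smul μ a 2000 (fun z y => o (z a) y),
      E7_smul μ a 1000 (fun z y => G z * G (update z a y)), q1]
  have e2 : E7 μ a (fun z y => 2 * (o (z a) y * R z) +
      (o (z a) y * T z + o (z a) y * T (update z a y)) + (X z + X (update z a y))) =
      2 * ((∑ v, μ a v * ∑ y, μ a y * o v y) * E6 μ R) +
      (E6 μ (fun z => (∑ y, μ a y * o (z a) y) * T z) +
        E6 μ (fun z => (∑ y, μ a y * o (z a) y) * T z)) + (E6 μ X + E6 μ X) := by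
    rw [E7_add μ a (fun z y => 2 * (o (z a) y * R z) +
      (o (z a) y * T z + o (z a) y * T (update z a y))) (fun z y => X z + X (update z a y)),
      E7_add μ a (fun z y => 2 * (o (z a) y * R z))
      (fun z y => o (z a) y * T z + o (z a) y * T (update z a y)),
      E7_add μ a (fun z y => o (z a) y * T z) (fun z y => o (z a) y * T (update z a y)),
      E7_add μ a (fun z _ => X z) (fun z y => X (update z a y)),
      E7_smul μ a 2 (fun z y => o (z a) y * R z), q2, q3, q4, q5, q6]
  rw [e1, e2] at h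
  have h8 : E6 μ (fun z => (∑ y, μ a y * o (z a) y) * T z) ≤
      um * E6 μ T + b * ∑ v, μ a v * max 0 ((∑ y, μ a y * o v y) - um) := by
    have h9 : ∑ v, μ a v * max 0 ((∑ y, μ a y * o v y) - um) =
        E6 μ (fun z => max 0 ((∑ y, μ a y * o (z a) y) - um)) := by
      have h2 := E6_indep1 hμ a (fun v => max 0 ((∑ y, μ a y * o v y) - um)) (fun _ => (1 : ℝ))
        (fun _ _ => rfl)
      rw [E6_const hμ, mul_one] at h2
      rw [← h2]
      exact E6_congr μ fun z => by rw [mul_one]
    rw [h9, ← E6_smul, ← E6_smul, ← E6_add]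
    refine E6_mono hμ fun z => ?_
    have h0 := hT0 z
    have hb := hTb z
    have h1 : (∑ y, μ a y * o (z a) y) - um ≤ max 0 ((∑ y, μ a y * o (z a) y) - um) :=
      le_max_right _ _
    have h2 : 0 ≤ max 0 ((∑ y, μ a y * o (z a) y) - um) := le_max_left _ _
    nlinarith [mul_le_mul_of_nonneg_right h1 h0, mul_le_mul_of_nonneg_left hb h2]
  linarith

/-- **Own density of one class.** -/
theorem own_ineq {tR tX tT tE b : ℕ} (hc : chk7 tR tX tT tE b = true) {σ : Fin 6 → Fin 6}
    {a : Fin 6} (hσ : Frame σ a) {μ : Fin 6 → V → ℝ} (hμ : ∀ a, IsW (μ a)) {L : V → V → Bool}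
    (hs : ∀ x y, L x y = L y x)
    (hT : ∀ x y t, ¬ (L x y = true ∧ L x t = true ∧ L y t = true)) (um : ℝ) :
    1000 * qd (μ a) L ≤ qd (μ a) L * E6 μ (zR tR σ L) + um * E6 μ (zX tT σ L) +
      E6 μ (zX tX σ L) + b * nuex (μ a) L um := by
  refine own_abs hμ a (lk L) (fun x y => by unfold lk; rw [hs x y]) (zR tR σ L) (zX tX σ L)
    (zX tT σ L) (zE tE σ L) (fun z y => by unfold zR; rw [cW_update hσ L z y]) b um
    (fun z => by unfold zX vX; positivity) (fun z => ?_) (fun z y => own_pt hc hσ hT z y)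
  have n1 := lz_notri hT z
  exact (chk7_six hc (cW_lt (lz L z) σ) (cS_lt (lz L z) σ) (tfW_code n1 σ) (tfS_code n1 σ)).2

end LocD

end K4m
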