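import Mathlib
import Pool.Agent.Lib.MP_392c14_co.LocD

/-!
# Local analysis, eight points, part A: a weighted Mantel inequality and the face inequality

Instead of a symmetrisation we use the following weighted form of Mantel's theorem: if `L` is a
graph without triangles, `m` a probability measure and the numbers `φ x ≥ 0` satisfy
`2 c l (1 - l) ≤ l φ x + (1 - l) φ y` for adjacent `x, y` and all `l ∈ [0, 1]`, then `c` times the
edge density is at most the mean of `φ`.
-/

set_option autoImplicit false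

namespace K4m

open Finset Function

section Z8a

variable {V : Type} [Fintype V]

/-- degrees of adjacent vertices -/
theorem dg_add_le {m : V → ℝ} (hm : IsW m) {L : V → V → Bool}
    (hT : ∀ x y t, ¬ (L x y = true ∧ L x t = true ∧ L y t = true)) {x y : V}
    (h : L x y = true) : dg m L x + dg m L y ≤ 1 := by
  unfold dg
  rw [← sum_add_distrib, ← hm.sum_eq]
  refine sum_le_sum fun t _ => ?_
  have h3 : lk L x t + lk L y t ≤ 1 := by
    unfold lk
    by_cases h1 : L x t = true
    · have h2 : ¬ L y t = true := fun h2 => hT x y t ⟨h, h1, h2⟩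
      rw [if_pos h1, if_neg h2]; norm_num
    · rw [if_neg h1]; split_ifs <;> norm_num
  nlinarith [hm.nonneg t]

theorem dg_nonneg {m : V → ℝ} (hm : IsW m) (L : V → V → Bool) (v : V) : 0 ≤ dg m L v :=
  sum_nonneg fun y _ => mul_nonneg (hm.nonneg y) (lk_nonneg L v y)

/-- the sum of the squares of the degrees -/
theorem sum_dg_sq_le {m : V → ℝ} (hm : IsW m) {L : V → V → Bool} (hs : ∀ x y, L x y = L y x)
    (hT : ∀ x y t, ¬ (L x y = true ∧ L x t = true ∧ L y t = true)) :
    2 * ∑ v, m v * dg m L v ^ 2 ≤ qd m L := by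
  have e1 : ∑ v, m v * dg m L v ^ 2 = ∑ v, ∑ y, m v * m y * lk L v y * dg m L v := by
    refine sum_congr rfl fun v _ => ?_
    rw [sq, ← mul_assoc]
    conv_lhs => rw [show m v * dg m L v * dg m L v = dg m L v * (m v * dg m L v) by ring]
    rw [show (dg m L v * (m v * dg m L v) : ℝ) = dg m L v * m v * ∑ y, m y * lk L v y by
      unfold dg; ring, mul_sum]
    exact sum_congr rfl fun y _ => by ring
  have e2 : ∑ v, ∑ y, m v * m y * lk L v y * dg m L v =
      ∑ v, ∑ y, m v * m y * lk L v y * dg m L y := by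
    rw [sum_comm]
    refine sum_congr rfl fun v _ => sum_congr rfl fun y _ => ?_
    have : lk L y v = lk L v y := by unfold lk; rw [hs y v]
    rw [this]; ring
  have e3 : qd m L = ∑ v, ∑ y, m v * m y * lk L v y := by
    unfold qd dg
    refine sum_congr rfl fun v _ => ?_
    rw [mul_sum]
    exact sum_congr rfl fun y _ => by ring
  have e4 : 2 * ∑ v, m v * dg m L v ^ 2 =
      ∑ v, ∑ y, m v * m y * lk L v y * (dg m L v + dg m L y) := by
    rw [two_mul]
    conv_lhs => rw [e1]
    conv_lhs => arg 2; rw [e2]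
    rw [← sum_add_distrib]
    refine sum_congr rfl fun v _ => ?_
    rw [← sum_add_distrib]
    exact sum_congr rfl fun y _ => by ring
  rw [e4, e3]
  refine sum_le_sum fun v _ => sum_le_sum fun y _ => ?_
  have h0 : 0 ≤ m v * m y := mul_nonneg (hm.nonneg v) (hm.nonneg y)
  by_cases h : L v y = true
  · have h1 : lk L v y = 1 := by unfold lk; rw [if_pos h]
    have h2 := dg_add_le hm hT h
    rw [h1]
    nlinarith
  · have h1 : lk L v y = 0 := by unfold lk; rw [if_neg h]
    rw [h1]
    simp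

/-- from the quadratic condition to square roots -/
theorem sqrt_of_quad {c p q : ℝ} (hc : 0 ≤ c) (hp : 0 ≤ p) (hq : 0 ≤ q)
    (h : ∀ l : ℝ, 0 ≤ l → l ≤ 1 → 2 * c * (l * (1 - l)) ≤ l * p + (1 - l) * q) :
    √(2 * c) ≤ √p + √q := by
  have a0 := Real.sqrt_nonneg p
  have b0 := Real.sqrt_nonneg q
  have ea := Real.sq_sqrt hp
  have eb := Real.sq_sqrt hq
  set a := √p
  set b := √q
  apply Real.sqrt_le_iff.2 ⟨by positivity, ?_⟩
  rcases lt_or_eq_of_le a0 with ha | ha
  · rcases lt_or_eq_of_le b0 with hb | hb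
    · have hs : 0 < a + b := by linarith
      have h1 := h (b / (a + b)) (by positivity) (by rw [div_le_one hs]; linarith)
      have e1 : 1 - b / (a + b) = a / (a + b) := by field_simp; ring
      rw [e1, ← ea, ← eb] at h1
      have e2 : b / (a + b) * a ^ 2 + a / (a + b) * b ^ 2 = a * b := by field_simp
      have e3 : 2 * c * (b / (a + b) * (a / (a + b))) = 2 * c * (a * b) / (a + b) ^ 2 := by
        field_simp
      rw [e2, e3, div_le_iff₀ (by positivity)] at h1
      have hab : 0 < a * b := mul_pos ha hb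
      nlinarith
    · rw [← hb] at eb
      have hq0 : q = 0 := by rw [← eb]; ring
      by_contra hcon
      push_neg at hcon
      have h2 : p < 2 * c := by rw [← ea]; rw [← hb] at hcon; nlinarith
      have hc' : 0 < c := by linarith
      have h1 := h ((2 * c - p) / (4 * c)) (by apply div_nonneg <;> linarith)
        (by rw [div_le_one (by linarith)]; linarith)
      rw [hq0] at h1
      have e1 : 2 * c * ((2 * c - p) / (4 * c) * (1 - (2 * c - p) / (4 * c))) =
          (2 * c - p) / (4 * c) * ((2 * c + p) / 2) := by field_simp; ring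
      rw [e1, mul_zero, add_zero] at h1
      have h3 : 0 < (2 * c - p) / (4 * c) := by apply div_pos <;> linarith
      have h4 := le_of_mul_le_mul_left h1 h3
      linarith
  · rw [← ha] at ea
    have hp0 : p = 0 := by rw [← ea]; ring
    by_contra hcon
    push_neg at hcon
    have h2 : q < 2 * c := by rw [← eb]; rw [← ha] at hcon; nlinarith
    have hc' : 0 < c := by linarith
    have h1 := h (1 - (2 * c - q) / (4 * c))
      (by rw [sub_nonneg, div_le_one (by linarith)]; linarith)
      (by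
        have : 0 ≤ (2 * c - q) / (4 * c) := by apply div_nonneg <;> linarith
        linarith)
    rw [hp0] at h1
    have e1 : 2 * c * ((1 - (2 * c - q) / (4 * c)) * (1 - (1 - (2 * c - q) / (4 * c)))) =
        (2 * c - q) / (4 * c) * ((2 * c + q) / 2) := by field_simp; ring
    have e2 : 1 - (1 - (2 * c - q) / (4 * c)) = (2 * c - q) / (4 * c) := by ring
    rw [e1, e2, mul_zero, zero_add] at h1
    have h3 : 0 < (2 * c - q) / (4 * c) := by apply div_pos <;> linarith
    have h4 := le_of_mul_le_mul_left h1 h3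
    linarith

/-- **weighted Mantel inequality** -/
theorem wmantel {m : V → ℝ} (hm : IsW m) {L : V → V → Bool} (hs : ∀ x y, L x y = L y x)
    (hT : ∀ x y t, ¬ (L x y = true ∧ L x t = true ∧ L y t = true)) {c : ℝ} (hc : 0 ≤ c)
    {φ : V → ℝ} (hφ : ∀ x, 0 ≤ φ x)
    (h : ∀ x y, L x y = true → ∀ l : ℝ, 0 ≤ l → l ≤ 1 →
      2 * c * (l * (1 - l)) ≤ l * φ x + (1 - l) * φ y) :
    c * qd m L ≤ ∑ x, m x * φ x := by
  set C := √(2 * c)
  have hC0 : 0 ≤ C := Real.sqrt_nonneg _
  have hC : C ^ 2 = 2 * c := Real.sq_sqrt (by linarith)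
  have e3 : qd m L = ∑ v, ∑ y, m v * m y * lk L v y := by
    unfold qd dg
    refine sum_congr rfl fun v _ => ?_
    rw [mul_sum]
    exact sum_congr rfl fun y _ => by ring
  have h1 : C * qd m L ≤ ∑ v, ∑ y, m v * m y * lk L v y * (√(φ v) + √(φ y)) := by
    rw [e3, mul_sum]
    refine sum_le_sum fun v _ => ?_
    rw [mul_sum]
    refine sum_le_sum fun y _ => ?_
    have h0 : 0 ≤ m v * m y := mul_nonneg (hm.nonneg v) (hm.nonneg y)
    by_cases hL : L v y = true
    · have h2 : lk L v y = 1 := by unfold lk; rw [if_pos hL]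
      have h3 : C ≤ √(φ v) + √(φ y) := sqrt_of_quad hc (hφ v) (hφ y) (h v y hL)
      rw [h2]
      nlinarith
    · have h2 : lk L v y = 0 := by unfold lk; rw [if_neg hL]
      rw [h2]
      simp
  have e5 : ∑ v, ∑ y, m v * m y * lk L v y * √(φ v) = ∑ v, m v * √(φ v) * dg m L v := by
    refine sum_congr rfl fun v _ => ?_
    unfold dg
    rw [mul_sum]
    exact sum_congr rfl fun y _ => by ring
  have e6 : ∑ v, ∑ y, m v * m y * lk L v y * √(φ y) = ∑ v, m v * √(φ v) * dg m L v := by
    rw [← e5, sum_comm]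
    refine sum_congr rfl fun v _ => sum_congr rfl fun y _ => ?_
    have : lk L y v = lk L v y := by unfold lk; rw [hs y v]
    rw [this]; ring
  have e7 : ∑ v, ∑ y, m v * m y * lk L v y * (√(φ v) + √(φ y)) =
      2 * ∑ v, m v * √(φ v) * dg m L v := by
    have : ∑ v, ∑ y, m v * m y * lk L v y * (√(φ v) + √(φ y)) =
        ∑ v, ∑ y, m v * m y * lk L v y * √(φ v) + ∑ v, ∑ y, m v * m y * lk L v y * √(φ y) := by
      rw [← sum_add_distrib]
      refine sum_congr rfl fun v _ => ?_
      rw [← sum_add_distrib]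
      exact sum_congr rfl fun y _ => by ring
    rw [this, e5, e6]; ring
  rw [e7] at h1
  have h4 : C * (2 * ∑ v, m v * √(φ v) * dg m L v) ≤
      ∑ v, m v * φ v + C ^ 2 * ∑ v, m v * dg m L v ^ 2 := by
    rw [mul_sum, mul_sum, mul_sum, ← sum_add_distrib]
    refine sum_le_sum fun v _ => ?_
    have h5 := Real.sq_sqrt (hφ v)
    have h6 := hm.nonneg v
    have h7 : 0 ≤ m v * (√(φ v) - C * dg m L v) ^ 2 := mul_nonneg h6 (sq_nonneg _)
    nlinarith
  have h8 := sum_dg_sq_le hm hs hT
  have h9 := mul_le_mul_of_nonneg_left h1 hC0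
  have h10 : C ^ 2 * (2 * ∑ v, m v * dg m L v ^ 2) ≤ C ^ 2 * qd m L :=
    mul_le_mul_of_nonneg_left h8 (sq_nonneg _)
  rw [hC] at h10 h4
  have h11 : C * (C * qd m L) = 2 * c * qd m L := by rw [← mul_assoc, ← sq, hC]
  rw [h11] at h9
  linarith

/-- the polynomial of a face -/
def fpoly (k0 k1 l0 l1 x0 x1 x2 x3 : ℝ) (l k : ℝ) : ℝ :=
  l * (k * x0 + (1 - k) * x1) + (1 - l) * (k * x2 + (1 - k) * x3) -
    2 * (l * (1 - l)) * (k * k0 + (1 - k) * k1) - 2 * (k * (1 - k)) * (l * l0 + (1 - l) * l1)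

/-- **face inequality** for two measures -/
theorem face {m m' : V → ℝ} (hm : IsW m) (hm' : IsW m') {L : V → V → Bool}
    (hs : ∀ x y, L x y = L y x)
    (hT : ∀ x y t, ¬ (L x y = true ∧ L x t = true ∧ L y t = true))
    {hk hl : V → ℝ} (hk0 : ∀ y, 0 ≤ hk y) (hl0 : ∀ x, 0 ≤ hl x) {X : V → V → ℝ}
    (h1 : ∀ x y, 0 ≤ X x y)
    (h2 : ∀ x y y', L y y' = true → ∀ k : ℝ, 0 ≤ k → k ≤ 1 →
      2 * (k * (1 - k)) * hl x ≤ k * X x y + (1 - k) * X x y')
    (h3 : ∀ x x' y, L x x' = true → ∀ l : ℝ, 0 ≤ l → l ≤ 1 →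
      2 * (l * (1 - l)) * hk y ≤ l * X x y + (1 - l) * X x' y)
    (h4 : ∀ x x' y y', L x x' = true → L y y' = true → ∀ l k : ℝ, 0 ≤ l → l ≤ 1 → 0 ≤ k →
      k ≤ 1 → 0 ≤ fpoly (hk y) (hk y') (hl x) (hl x') (X x y) (X x y') (X x' y) (X x' y') l k) :
    qd m L * (∑ y, m' y * hk y) + qd m' L * (∑ x, m x * hl x) ≤
      ∑ x, m x * ∑ y, m' y * X x y := by
  have key1 : ∀ x, qd m' L * hl x ≤ ∑ y, m' y * X x y := by
    intro x
    have := wmantel hm' hs hT (hl0 x) (h1 x) (fun y y' hy k hk0 hk1 => by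
      have := h2 x y y' hy k hk0 hk1
      linarith)
    linarith
  have key2 : ∀ x x', L x x' = true → ∀ l : ℝ, 0 ≤ l → l ≤ 1 →
      2 * (∑ y, m' y * hk y) * (l * (1 - l)) ≤
        l * ((∑ y, m' y * X x y) - qd m' L * hl x) +
          (1 - l) * ((∑ y, m' y * X x' y) - qd m' L * hl x') := by
    intro x x' hx l l0 l1
    have l1' : 0 ≤ 1 - l := by linarith
    have hw := wmantel hm' hs hT (c := l * hl x + (1 - l) * hl x')
      (by have := hl0 x; have := hl0 x'; positivity)
      (φ := fun y => l * X x y + (1 - l) * X x' y - 2 * (l * (1 - l)) * hk y)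
      (fun y => by have := h3 x x' y hx l l0 l1; linarith)
      (fun y y' hy k k0 k1 => by
        have := h4 x x' y y' hx hy l k l0 l1 k0 k1
        unfold fpoly at this
        nlinarith)
    have e1 : ∑ y, m' y * (l * X x y + (1 - l) * X x' y - 2 * (l * (1 - l)) * hk y) =
        l * (∑ y, m' y * X x y) + (1 - l) * (∑ y, m' y * X x' y) -
          2 * (l * (1 - l)) * ∑ y, m' y * hk y := by
      rw [mul_sum, mul_sum, mul_sum, ← sum_add_distrib, ← sum_sub_distrib]
      exact sum_congr rfl fun y _ => by ring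
    rw [e1] at hw
    nlinarith
  have hw := wmantel hm hs hT (c := ∑ y, m' y * hk y)
    (sum_nonneg fun y _ => mul_nonneg (hm'.nonneg y) (hk0 y))
    (φ := fun x => (∑ y, m' y * X x y) - qd m' L * hl x)
    (fun x => by have := key1 x; linarith) (fun x x' hx l l0 l1 => key2 x x' hx l l0 l1)
  have e2 : ∑ x, m x * ((∑ y, m' y * X x y) - qd m' L * hl x) =
      (∑ x, m x * ∑ y, m' y * X x y) - qd m' L * ∑ x, m x * hl x := by
    rw [mul_sum, ← sum_sub_distrib]
    exact sum_congr rfl fun x _ => by ring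
  rw [e2] at hw
  linarith

end Z8a

end K4m
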