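import Mathlib
import Pool.Agent.Lib.MP_392c14_co.Z8a

/-!
# Local analysis, eight points, part B: the finite check

The graph on the six classes is coded, relative to a frame whose positions `0` and `1` are the two
distinguished classes, by `w` (six bits, pairs of the positions `2,...,5`), `n` and `y` (four bits
each, pairs of the positions `0` resp. `1` with `2,...,5`) and one bit for the pair `0 1`.
-/

set_option autoImplicit false

namespace K4m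

open Finset Function

/-- evaluate the argument first -/
def frc (n : ℕ) (f : ℕ → Bool) : Bool :=
  match n with
  | Nat.zero => f Nat.zero
  | Nat.succ k => f (Nat.succ k)

theorem frc_eq (n : ℕ) (f : ℕ → Bool) : frc n f = f n := by cases n <;> rfl

/-- one control in the weight of the second class, all weights of the first class -/
def q8 (K0 K1 K2 x0 x1 x2 x3 k0 k1 l0 l1 : ℕ) : Bool :=
  frc (Nat.add (Nat.mul K0 x0) (Nat.mul K1 x1)) fun a =>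
  frc (Nat.add (Nat.mul K0 x2) (Nat.mul K1 x3)) fun c =>
  frc (Nat.mul 2 (Nat.mul K2 l0)) fun p =>
  frc (Nat.mul 2 (Nat.mul K2 l1)) fun r =>
  Nat.ble p a && (Nat.ble r c &&
  frc (Nat.sub a p) fun A =>
  frc (Nat.sub c r) fun C =>
  frc (Nat.sub (Nat.mul 2 (Nat.add (Nat.mul K0 k0) (Nat.mul K1 k1))) (Nat.add A C)) fun d =>
  Nat.ble (Nat.mul d d) (Nat.mul 4 (Nat.mul A C)))

/-- the control of an interval -/
def ctl (f : ℕ → ℕ → ℕ → Bool) (D a b : ℕ) : Bool :=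
  f (Nat.mul D (Nat.sub (Nat.mul 2 D) (Nat.add a b))) (Nat.mul D (Nat.add a b))
    (Nat.add (Nat.mul (Nat.sub D a) b) (Nat.mul a (Nat.sub D b)))

/-- bisection -/
def bis (f : ℕ → ℕ → ℕ → Bool) (D : ℕ) : ℕ → ℕ → ℕ → Bool
  | 0, a, b => ctl f D a b
  | n + 1, a, b => ctl f D a b || frc (Nat.div (Nat.add a b) 2) fun m =>
      ctl f D m m && (bis f D n a m && bis f D n m b)

/-- maximum -/
def mx2 (a b : ℕ) : ℕ := cond (Nat.ble a b) b a

/-- a quick sufficient condition -/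
def qk8 (x0 x1 x2 x3 k0 k1 l0 l1 : ℕ) : Bool :=
  frc (Nat.add (mx2 k0 k1) (mx2 l0 l1)) fun s =>
  Nat.ble s (Nat.mul 2 x0) && (Nat.ble s (Nat.mul 2 x1) && (Nat.ble s (Nat.mul 2 x2) &&
    Nat.ble s (Nat.mul 2 x3)))

/-- the check of one face -/
def c8 (x0 x1 x2 x3 k0 k1 l0 l1 : ℕ) : Bool :=
  qk8 x0 x1 x2 x3 k0 k1 l0 l1 || (q8 1 0 0 x0 x1 x2 x3 k0 k1 l0 l1 &&
    (q8 0 1 0 x0 x1 x2 x3 k0 k1 l0 l1 &&
    bis (fun K0 K1 K2 => q8 K0 K1 K2 x0 x1 x2 x3 k0 k1 l0 l1) 128 6 0 128))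

/-- no triangle among the positions `2,...,5` -/
def tf6 (w : ℕ) : Bool := tm w 11 && (tm w 21 && (tm w 38 && tm w 56))

/-- no triangle through a further point -/
def tf4 (s w : ℕ) : Bool :=
  tp s w 3 1 && (tp s w 5 2 && (tp s w 9 4 && (tp s w 6 8 && (tp s w 10 16 && tp s w 12 32))))

/-- part of the table for one `w` -/
def sub8 (t w : ℕ) : ℕ := Nat.land (Nat.shiftRight t (Nat.mul 8192 w)) (Nat.sub (Nat.pow 2 8192) 1)

/-- row of the table for one `n` -/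
def row8 (t n : ℕ) : ℕ := Nat.land (Nat.shiftRight t (Nat.mul 512 n)) (Nat.sub (Nat.pow 2 512) 1)

/-- part of a small table for one `w` -/
def sbh8 (t w : ℕ) : ℕ := Nat.land (Nat.shiftRight t (Nat.mul 256 w)) (Nat.sub (Nat.pow 2 256) 1)

/-- all crossings between two pairs of points -/
def m8 (R S n m y z k0 k1 l0 l1 : ℕ) : Bool :=
  frc (tget R (Nat.mul 2 y)) fun a0 =>
  frc (tget R (Nat.mul 2 z)) fun b0 =>
  frc (tget S (Nat.mul 2 y)) fun c0 =>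
  frc (tget S (Nat.mul 2 z)) fun d0 =>
  frc (tget R (Nat.add (Nat.mul 2 y) 1)) fun a1 =>
  frc (tget R (Nat.add (Nat.mul 2 z) 1)) fun b1 =>
  frc (tget S (Nat.add (Nat.mul 2 y) 1)) fun c1 =>
  frc (tget S (Nat.add (Nat.mul 2 z) 1)) fun d1 =>
  c8 a0 b0 c0 d0 k0 k1 l0 l1 &&
  ((!(Nat.beq (Nat.land n y) 0) || (c8 a1 b0 c0 d0 k0 k1 l0 l1 &&
    (!(Nat.beq (Nat.land m z) 0) || c8 a1 b0 c0 d1 k0 k1 l0 l1))) &&
  ((!(Nat.beq (Nat.land n z) 0) || (c8 a0 b1 c0 d0 k0 k1 l0 l1 &&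
    (!(Nat.beq (Nat.land m y) 0) || c8 a0 b1 c1 d0 k0 k1 l0 l1))) &&
  ((!(Nat.beq (Nat.land m y) 0) || c8 a0 b0 c1 d0 k0 k1 l0 l1) &&
    (!(Nat.beq (Nat.land m z) 0) || c8 a0 b0 c0 d1 k0 k1 l0 l1))))

/-- the check for one `w` -/
def chk8w (tX tH tG w : ℕ) : Bool :=
  !(tf6 w) || frc (sub8 tX w) fun T => frc (sbh8 tH w) fun H => frc (sbh8 tG w) fun G =>
  allN 16 fun n => !(tf4 n w) || frc (row8 T n) fun R => frc (tget G n) fun l0 =>
  allN (Nat.succ n) fun m => !(Nat.beq (Nat.land n m) 0) || (!(tf4 m w) ||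
    frc (row8 T m) fun S => frc (tget G m) fun l1 =>
  allN 16 fun y => !(tf4 y w) || frc (tget H y) fun k0 =>
  allN (Nat.succ y) fun z => !(Nat.beq (Nat.land y z) 0) || (!(tf4 z w) ||
    frc (tget H z) fun k1 => m8 R S n m y z k0 k1 l0 l1))

/-! ### soundness -/

theorem mx2_eq (a b : ℕ) : mx2 a b = max a b := by
  unfold mx2
  cases h : Nat.ble a b
  · have : ¬ a ≤ b := fun hh => by rw [Nat.ble_eq_true_of_le hh] at h; exact absurd h (by simp)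
    rw [cond_false, max_eq_left (by omega)]
  · rw [cond_true, max_eq_right (Nat.le_of_ble_eq_true h)]

theorem quad_nonneg {A C D l : ℝ} (hA : 0 ≤ A) (hC : 0 ≤ C) (h : D ≤ 0 ∨ D ^ 2 ≤ 4 * (A * C))
    (l0 : 0 ≤ l) (l1 : l ≤ 1) : 0 ≤ l ^ 2 * A + (1 - l) ^ 2 * C - l * (1 - l) * D := by
  have l1' : 0 ≤ 1 - l := by linarith
  have hl : 0 ≤ l * (1 - l) := mul_nonneg l0 l1'
  have hS : 0 ≤ l ^ 2 * A + (1 - l) ^ 2 * C := by positivity
  rcases h with h | h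
  · nlinarith
  · by_contra hcon
    push Not at hcon
    have h1 : l ^ 2 * A + (1 - l) ^ 2 * C < l * (1 - l) * D := by linarith
    have h2 : (l ^ 2 * A + (1 - l) ^ 2 * C) ^ 2 < (l * (1 - l) * D) ^ 2 := by
      apply pow_lt_pow_left₀ h1 hS (by norm_num)
    have h3 : (l * (1 - l) * D) ^ 2 ≤ (l * (1 - l)) ^ 2 * (4 * (A * C)) := by
      rw [mul_pow]
      exact mul_le_mul_of_nonneg_left h (sq_nonneg _)
    have h4 : (l * (1 - l)) ^ 2 * (4 * (A * C)) ≤ (l ^ 2 * A + (1 - l) ^ 2 * C) ^ 2 := by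
      nlinarith [sq_nonneg (l ^ 2 * A - (1 - l) ^ 2 * C)]
    linarith

theorem q8_sound {K0 K1 K2 x0 x1 x2 x3 k0 k1 l0 l1 : ℕ}
    (h : q8 K0 K1 K2 x0 x1 x2 x3 k0 k1 l0 l1 = true) {l : ℝ} (hl0 : 0 ≤ l) (hl1 : l ≤ 1) :
    0 ≤ (K0 : ℝ) * (l * x0 + (1 - l) * x2 - 2 * (l * (1 - l)) * k0) +
      K1 * (l * x1 + (1 - l) * x3 - 2 * (l * (1 - l)) * k1) - 2 * K2 * (l * l0 + (1 - l) * l1) := by
  unfold q8 at h
  simp only [frc_eq, Bool.and_eq_true] at h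
  obtain ⟨h1, h2, h3⟩ := h
  have h1' : 2 * (K2 * l0) ≤ K0 * x0 + K1 * x1 := Nat.le_of_ble_eq_true h1
  have h2' : 2 * (K2 * l1) ≤ K0 * x2 + K1 * x3 := Nat.le_of_ble_eq_true h2
  have h3' := Nat.le_of_ble_eq_true h3
  obtain ⟨A, hA⟩ := Nat.exists_eq_add_of_le h1'
  obtain ⟨C, hC⟩ := Nat.exists_eq_add_of_le h2'
  have eA : Nat.sub (Nat.add (Nat.mul K0 x0) (Nat.mul K1 x1)) (Nat.mul 2 (Nat.mul K2 l0)) = A := by
    change K0 * x0 + K1 * x1 - 2 * (K2 * l0) = A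
    omega
  have eC : Nat.sub (Nat.add (Nat.mul K0 x2) (Nat.mul K1 x3)) (Nat.mul 2 (Nat.mul K2 l1)) = C := by
    change K0 * x2 + K1 * x3 - 2 * (K2 * l1) = C
    omega
  rw [eA, eC] at h3'
  have hA' : (K0 : ℝ) * x0 + K1 * x1 = 2 * (K2 * l0) + A := by exact_mod_cast hA
  have hC' : (K0 : ℝ) * x2 + K1 * x3 = 2 * (K2 * l1) + C := by exact_mod_cast hC
  have hq : (2 * ((K0 : ℝ) * k0 + K1 * k1) - (A + C)) ≤ 0 ∨
      (2 * ((K0 : ℝ) * k0 + K1 * k1) - (A + C)) ^ 2 ≤ 4 * ((A : ℝ) * C) := by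
    have h4 : (2 * (K0 * k0 + K1 * k1) - (A + C)) * (2 * (K0 * k0 + K1 * k1) - (A + C)) ≤
        4 * (A * C) := h3'
    by_cases hh : 2 * (K0 * k0 + K1 * k1) ≤ A + C
    · left
      have : (2 * ((K0 : ℝ) * k0 + K1 * k1)) ≤ A + C := by exact_mod_cast hh
      linarith
    · right
      obtain ⟨d, hd⟩ : ∃ d : ℕ, 2 * (K0 * k0 + K1 * k1) = A + C + d :=
        ⟨2 * (K0 * k0 + K1 * k1) - (A + C), by omega⟩
      have e : 2 * (K0 * k0 + K1 * k1) - (A + C) = d := by omega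
      rw [e] at h4
      have hd' : 2 * ((K0 : ℝ) * k0 + K1 * k1) = A + C + d := by exact_mod_cast hd
      have h5 : (d : ℝ) * d ≤ 4 * (A * C) := by exact_mod_cast h4
      rw [hd']
      nlinarith
  have key := quad_nonneg (A := (A : ℝ)) (C := (C : ℝ)) (Nat.cast_nonneg A) (Nat.cast_nonneg C)
    hq hl0 hl1
  have e : (K0 : ℝ) * (l * x0 + (1 - l) * x2 - 2 * (l * (1 - l)) * k0) +
      K1 * (l * x1 + (1 - l) * x3 - 2 * (l * (1 - l)) * k1) - 2 * K2 * (l * l0 + (1 - l) * l1) =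
      l * ((K0 : ℝ) * x0 + K1 * x1 - 2 * (K2 * l0)) +
      (1 - l) * ((K0 : ℝ) * x2 + K1 * x3 - 2 * (K2 * l1)) -
      2 * (l * (1 - l)) * (K0 * k0 + K1 * k1) := by ring
  rw [e, hA', hC']
  have e2 : l * (2 * ((K2 : ℝ) * l0) + A - 2 * (K2 * l0)) +
      (1 - l) * (2 * ((K2 : ℝ) * l1) + C - 2 * (K2 * l1)) -
      2 * (l * (1 - l)) * (K0 * k0 + K1 * k1) =
      l ^ 2 * A + (1 - l) ^ 2 * C - l * (1 - l) * (2 * ((K0 : ℝ) * k0 + K1 * k1) - (A + C)) := by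
    ring
  rw [e2]
  exact key

/-- the symmetric form of a quadratic polynomial -/
noncomputable def blo (U W Z a b : ℝ) : ℝ :=
  (1 - (a + b) / 2) * U + (a + b) / 2 * W - ((1 - a) * b + a * (1 - b)) * Z

theorem blo_nonneg {U W Z a b t : ℝ} (hab : a < b) (h0 : 0 ≤ blo U W Z a a)
    (h1 : 0 ≤ blo U W Z a b) (h2 : 0 ≤ blo U W Z b b) (ha : a ≤ t) (hb : t ≤ b) :
    0 ≤ blo U W Z t t := by
  have e : (b - a) ^ 2 * blo U W Z t t = (b - t) ^ 2 * blo U W Z a a +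
      2 * ((b - t) * (t - a)) * blo U W Z a b + (t - a) ^ 2 * blo U W Z b b := by
    unfold blo; ring
  have h3 : 0 ≤ (b - a) ^ 2 * blo U W Z t t := by
    rw [e]
    have h4 : 0 ≤ (b - t) * (t - a) := mul_nonneg (by linarith) (by linarith)
    positivity
  have h5 : 0 < (b - a) ^ 2 := by have : 0 < b - a := by linarith
                                  positivity
  exact nonneg_of_mul_nonneg_right h3 h5

end K4m
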