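import Mathlib
import Pool.Agent.Lib.MP_392c14_co.Z8b

/-!
# Local analysis, eight points, part C: soundness of the finite check
-/

set_option autoImplicit false

namespace K4m

open Finset Function

theorem ctl_sound {f : ℕ → ℕ → ℕ → Bool} {U W Z : ℝ}
    (hf : ∀ K0 K1 K2 : ℕ, f K0 K1 K2 = true → 0 ≤ (K0 : ℝ) * U + K1 * W - 2 * K2 * Z)
    {D a b : ℕ} (hD : 0 < D) (ha : a ≤ D) (hb : b ≤ D) (h : ctl f D a b = true) :
    0 ≤ blo U W Z ((a : ℝ) / D) ((b : ℝ) / D) := by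
  have h1 := hf _ _ _ h
  obtain ⟨a', ha'⟩ := Nat.exists_eq_add_of_le ha
  obtain ⟨b', hb'⟩ := Nat.exists_eq_add_of_le hb
  have e0 : Nat.mul D (Nat.sub (Nat.mul 2 D) (Nat.add a b)) = D * (a' + b') := by
    change D * (2 * D - (a + b)) = D * (a' + b')
    congr 1
    omega
  have e1 : Nat.mul D (Nat.add a b) = D * (a + b) := rfl
  have e2 : Nat.add (Nat.mul (Nat.sub D a) b) (Nat.mul a (Nat.sub D b)) = a' * b + a * b' := by
    change (D - a) * b + a * (D - b) = a' * b + a * b'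
    have : D - a = a' := by omega
    have h' : D - b = b' := by omega
    rw [this, h']
  rw [e0, e1, e2] at h1
  push_cast at h1
  have ha2 : (a' : ℝ) = D - a := by have : (D : ℝ) = a + a' := by exact_mod_cast ha'
                                    linarith
  have hb2 : (b' : ℝ) = D - b := by have : (D : ℝ) = b + b' := by exact_mod_cast hb'
                                    linarith
  rw [ha2, hb2] at h1
  have hD' : (0 : ℝ) < D := by exact_mod_cast hD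
  have e3 : 2 * (D : ℝ) ^ 2 * blo U W Z ((a : ℝ) / D) ((b : ℝ) / D) =
      (D : ℝ) * ((D - a) + (D - b)) * U + D * (a + b) * W - 2 * ((D - a) * b + a * (D - b)) * Z := by
    unfold blo
    field_simp
    ring
  have h2 : 0 ≤ 2 * (D : ℝ) ^ 2 * blo U W Z ((a : ℝ) / D) ((b : ℝ) / D) := by rw [e3]; exact h1
  exact nonneg_of_mul_nonneg_right h2 (by positivity)

theorem bis_sound {f : ℕ → ℕ → ℕ → Bool} {U W Z : ℝ}
    (hf : ∀ K0 K1 K2 : ℕ, f K0 K1 K2 = true → 0 ≤ (K0 : ℝ) * U + K1 * W - 2 * K2 * Z)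
    {D : ℕ} (hD : 0 < D) (n : ℕ) : ∀ a b : ℕ, a ≤ b → b ≤ D → bis f D n a b = true →
    0 ≤ blo U W Z ((a : ℝ) / D) ((a : ℝ) / D) → 0 ≤ blo U W Z ((b : ℝ) / D) ((b : ℝ) / D) →
    ∀ t : ℝ, (a : ℝ) / D ≤ t → t ≤ (b : ℝ) / D → 0 ≤ blo U W Z t t := by
  have hD' : (0 : ℝ) < D := by exact_mod_cast hD
  have base : ∀ a b : ℕ, a ≤ b → b ≤ D → ctl f D a b = true →
      0 ≤ blo U W Z ((a : ℝ) / D) ((a : ℝ) / D) → 0 ≤ blo U W Z ((b : ℝ) / D) ((b : ℝ) / D) →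
      ∀ t : ℝ, (a : ℝ) / D ≤ t → t ≤ (b : ℝ) / D → 0 ≤ blo U W Z t t := by
    intro a b hab hb hc h0 h1 t h2 h3
    rcases Nat.lt_or_eq_of_le hab with hlt | heq
    · have : (a : ℝ) / D < (b : ℝ) / D := by
        apply div_lt_div_of_pos_right _ hD'
        exact_mod_cast hlt
      exact blo_nonneg this h0 (ctl_sound hf hD (hab.trans hb) hb hc) h1 h2 h3
    · subst heq
      have : t = (a : ℝ) / D := le_antisymm h3 h2
      rw [this]; exact h0
  induction n with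
  | zero => intro a b hab hb h h0 h1 t h2 h3; exact base a b hab hb h h0 h1 t h2 h3
  | succ n ih =>
    intro a b hab hb h h0 h1 t h2 h3
    rw [bis, Bool.or_eq_true] at h
    rcases h with h | h
    · exact base a b hab hb h h0 h1 t h2 h3
    · rw [frc_eq] at h
      simp only [Bool.and_eq_true] at h
      obtain ⟨hm, hl, hr⟩ := h
      set m := Nat.div (Nat.add a b) 2
      have em : m = (a + b) / 2 := rfl
      have ham : a ≤ m := by omega
      have hmb : m ≤ b := by omega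
      have hmid := ctl_sound hf hD (hmb.trans hb) (hmb.trans hb) hm
      rcases le_total t ((m : ℝ) / D) with ht | ht
      · exact ih a m ham (hmb.trans hb) hl h0 hmid t h2 ht
      · exact ih m b hmb hb hr hmid h1 t ht h3

/-- the polynomial of a face in terms of the symmetric form -/
theorem fpoly_eq (k0 k1 l0 l1 x0 x1 x2 x3 l k : ℝ) : fpoly k0 k1 l0 l1 x0 x1 x2 x3 l k =
    blo (l * x0 + (1 - l) * x2 - 2 * (l * (1 - l)) * k0)
      (l * x1 + (1 - l) * x3 - 2 * (l * (1 - l)) * k1) (l * l0 + (1 - l) * l1) (1 - k) (1 - k) := by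
  unfold fpoly blo; ring

theorem qk8_sound {x0 x1 x2 x3 k0 k1 l0 l1 : ℕ} (h : qk8 x0 x1 x2 x3 k0 k1 l0 l1 = true) {l k : ℝ}
    (hl0 : 0 ≤ l) (hl1 : l ≤ 1) (hk0 : 0 ≤ k) (hk1 : k ≤ 1) :
    0 ≤ fpoly k0 k1 l0 l1 x0 x1 x2 x3 l k := by
  unfold qk8 at h
  rw [frc_eq, mx2_eq, mx2_eq] at h
  simp only [Bool.and_eq_true] at h
  obtain ⟨h0, h1, h2, h3⟩ := h
  have g0 : max k0 k1 + max l0 l1 ≤ 2 * x0 := Nat.le_of_ble_eq_true h0
  have g1 : max k0 k1 + max l0 l1 ≤ 2 * x1 := Nat.le_of_ble_eq_true h1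
  have g2 : max k0 k1 + max l0 l1 ≤ 2 * x2 := Nat.le_of_ble_eq_true h2
  have g3 : max k0 k1 + max l0 l1 ≤ 2 * x3 := Nat.le_of_ble_eq_true h3
  obtain ⟨K, hK⟩ : ∃ K, K = max k0 k1 := ⟨_, rfl⟩
  obtain ⟨M, hM⟩ : ∃ M, M = max l0 l1 := ⟨_, rfl⟩
  rw [← hK, ← hM] at g0 g1 g2 g3
  have a0 : (k0 : ℝ) ≤ K := by rw [hK]; exact_mod_cast le_max_left _ _
  have a1 : (k1 : ℝ) ≤ K := by rw [hK]; exact_mod_cast le_max_right _ _
  have b0 : (l0 : ℝ) ≤ M := by rw [hM]; exact_mod_cast le_max_left _ _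
  have b1 : (l1 : ℝ) ≤ M := by rw [hM]; exact_mod_cast le_max_right _ _
  have c0 : (K : ℝ) + M ≤ 2 * x0 := by exact_mod_cast g0
  have c1 : (K : ℝ) + M ≤ 2 * x1 := by exact_mod_cast g1
  have c2 : (K : ℝ) + M ≤ 2 * x2 := by exact_mod_cast g2
  have c3 : (K : ℝ) + M ≤ 2 * x3 := by exact_mod_cast g3
  have hK0 : (0 : ℝ) ≤ K := Nat.cast_nonneg _
  have hM0 : (0 : ℝ) ≤ M := Nat.cast_nonneg _
  have l' : 0 ≤ 1 - l := by linarith
  have k' : 0 ≤ 1 - k := by linarith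
  have hl4 : l * (1 - l) ≤ 1 / 4 := by nlinarith [sq_nonneg (l - 1 / 2)]
  have hk4 : k * (1 - k) ≤ 1 / 4 := by nlinarith [sq_nonneg (k - 1 / 2)]
  have hl : 0 ≤ l * (1 - l) := mul_nonneg hl0 l'
  have hk : 0 ≤ k * (1 - k) := mul_nonneg hk0 k'
  have t1 : (K + M : ℝ) / 2 ≤ l * (k * x0 + (1 - k) * x1) + (1 - l) * (k * x2 + (1 - k) * x3) := by
    have i1 : (K + M : ℝ) / 2 ≤ k * x0 + (1 - k) * x1 := by nlinarith
    have i2 : (K + M : ℝ) / 2 ≤ k * x2 + (1 - k) * x3 := by nlinarith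
    nlinarith
  have t2 : (k * k0 + (1 - k) * k1 : ℝ) ≤ K := by nlinarith
  have t3 : (l * l0 + (1 - l) * l1 : ℝ) ≤ M := by nlinarith
  have t4 : 2 * (l * (1 - l)) * (k * k0 + (1 - k) * k1) ≤ K / 2 := by
    have : (l * (1 - l)) * (k * k0 + (1 - k) * k1) ≤ 1 / 4 * K := by
      apply mul_le_mul hl4 t2 _ (by norm_num)
      have := Nat.cast_nonneg (α := ℝ) k0
      have := Nat.cast_nonneg (α := ℝ) k1
      positivity
    linarith
  have t5 : 2 * (k * (1 - k)) * (l * l0 + (1 - l) * l1) ≤ M / 2 := by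
    have : (k * (1 - k)) * (l * l0 + (1 - l) * l1) ≤ 1 / 4 * M := by
      apply mul_le_mul hk4 t3 _ (by norm_num)
      have := Nat.cast_nonneg (α := ℝ) l0
      have := Nat.cast_nonneg (α := ℝ) l1
      positivity
    linarith
  unfold fpoly
  linarith

theorem c8_sound {x0 x1 x2 x3 k0 k1 l0 l1 : ℕ} (h : c8 x0 x1 x2 x3 k0 k1 l0 l1 = true) {l k : ℝ}
    (hl0 : 0 ≤ l) (hl1 : l ≤ 1) (hk0 : 0 ≤ k) (hk1 : k ≤ 1) :
    0 ≤ fpoly k0 k1 l0 l1 x0 x1 x2 x3 l k := by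
  unfold c8 at h
  rw [Bool.or_eq_true] at h
  rcases h with h | h
  · exact qk8_sound h hl0 hl1 hk0 hk1
  · simp only [Bool.and_eq_true] at h
    obtain ⟨h1, h2, h3⟩ := h
    rw [fpoly_eq]
    set U : ℝ := l * x0 + (1 - l) * x2 - 2 * (l * (1 - l)) * k0
    set W : ℝ := l * x1 + (1 - l) * x3 - 2 * (l * (1 - l)) * k1
    set Z : ℝ := l * l0 + (1 - l) * l1
    have hf : ∀ K0 K1 K2 : ℕ, q8 K0 K1 K2 x0 x1 x2 x3 k0 k1 l0 l1 = true →
        0 ≤ (K0 : ℝ) * U + K1 * W - 2 * K2 * Z := fun K0 K1 K2 hh => q8_sound hh hl0 hl1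
    have e0 := hf _ _ _ h1
    have e1 := hf _ _ _ h2
    refine bis_sound hf (D := 128) (by norm_num) 6 0 128 (by norm_num) le_rfl h3 ?_ ?_ (1 - k)
      (by push_cast; linarith) (by push_cast; linarith)
    · unfold blo
      push_cast at e0 ⊢
      linarith
    · unfold blo
      push_cast at e1 ⊢
      linarith

/-- value of the table of two classes -/
def X8 (t w n y e : ℕ) : ℕ := tget (row8 (sub8 t w) n) (Nat.add (Nat.mul 2 y) e)

/-- value of a table of one class -/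
def H8 (t w y : ℕ) : ℕ := tget (sbh8 t w) y

/-- the statement about one face -/
def Face8 (tX tH tG w n m y z : ℕ) (e0 e1 e2 e3 : Bool) : Prop :=
  ∀ l k : ℝ, 0 ≤ l → l ≤ 1 → 0 ≤ k → k ≤ 1 →
    0 ≤ fpoly (H8 tH w y) (H8 tH w z) (H8 tG w n) (H8 tG w m) (X8 tX w n y e0.toNat)
      (X8 tX w n z e1.toNat) (X8 tX w m y e2.toNat) (X8 tX w m z e3.toNat) l k

theorem Face8.swapx {tX tH tG w n m y z : ℕ} {e0 e1 e2 e3 : Bool}
    (h : Face8 tX tH tG w m n y z e2 e3 e0 e1) : Face8 tX tH tG w n m y z e0 e1 e2 e3 := by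
  intro l k l0 l1 k0 k1
  have := h (1 - l) k (by linarith) (by linarith) k0 k1
  unfold fpoly at this ⊢
  nlinarith

theorem Face8.swapy {tX tH tG w n m y z : ℕ} {e0 e1 e2 e3 : Bool}
    (h : Face8 tX tH tG w n m z y e1 e0 e3 e2) : Face8 tX tH tG w n m y z e0 e1 e2 e3 := by
  intro l k l0 l1 k0 k1
  have := h l (1 - k) l0 l1 (by linarith) (by linarith)
  unfold fpoly at this ⊢
  nlinarith

/-- admissible crossings -/
structure Adm8 (n m y z : ℕ) (e0 e1 e2 e3 : Bool) : Prop where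
  c0 : e0 = true → Nat.land n y = 0
  c1 : e1 = true → Nat.land n z = 0
  c2 : e2 = true → Nat.land m y = 0
  c3 : e3 = true → Nat.land m z = 0
  d01 : ¬ (e0 = true ∧ e1 = true)
  d02 : ¬ (e0 = true ∧ e2 = true)
  d13 : ¬ (e1 = true ∧ e3 = true)
  d23 : ¬ (e2 = true ∧ e3 = true)

theorem m8_sound {tX tH tG w n m y z : ℕ}
    (h : m8 (row8 (sub8 tX w) n) (row8 (sub8 tX w) m) n m y z (H8 tH w y) (H8 tH w z)
      (H8 tG w n) (H8 tG w m) = true) {e0 e1 e2 e3 : Bool} (ha : Adm8 n m y z e0 e1 e2 e3) :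
    Face8 tX tH tG w n m y z e0 e1 e2 e3 := by
  intro l k hl0 hl1 hk0 hk1
  unfold m8 at h
  simp only [frc_eq, Bool.and_eq_true, Bool.or_eq_true, Bool.not_eq_true'] at h
  obtain ⟨h0, h1, h2, h3, h4⟩ := h
  have nb : ∀ a b : ℕ, Nat.land a b = 0 → ¬ (Nat.beq (Nat.land a b) 0 = false) := by
    intro a b hab
    rw [hab]
    decide
  cases e0
  · cases e1
    · cases e2
      · cases e3
        · exact c8_sound h0 hl0 hl1 hk0 hk1
        · have := h4.resolve_left (nb _ _ (ha.c3 rfl))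
          exact c8_sound this hl0 hl1 hk0 hk1
      · cases e3
        · have := h3.resolve_left (nb _ _ (ha.c2 rfl))
          exact c8_sound this hl0 hl1 hk0 hk1
        · exact absurd ⟨rfl, rfl⟩ ha.d23
    · have g := h2.resolve_left (nb _ _ (ha.c1 rfl))
      cases e3
      · cases e2
        · exact c8_sound g.1 hl0 hl1 hk0 hk1
        · exact c8_sound (g.2.resolve_left (nb _ _ (ha.c2 rfl))) hl0 hl1 hk0 hk1
      · exact absurd ⟨rfl, rfl⟩ ha.d13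
  · have g := h1.resolve_left (nb _ _ (ha.c0 rfl))
    cases e1
    · cases e2
      · cases e3
        · exact c8_sound g.1 hl0 hl1 hk0 hk1
        · exact c8_sound (g.2.resolve_left (nb _ _ (ha.c3 rfl))) hl0 hl1 hk0 hk1
      · exact absurd ⟨rfl, rfl⟩ ha.d02
    · exact absurd ⟨rfl, rfl⟩ ha.d01

/-- the codes of two points of a class and two points of another class -/
structure Cod8 (w n m y z : ℕ) : Prop where
  hw : tf6 w = true
  hn : tf4 n w = true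
  hm : tf4 m w = true
  hy : tf4 y w = true
  hz : tf4 z w = true
  hnm : Nat.land n m = 0
  hyz : Nat.land y z = 0
  n16 : n < 16
  m16 : m < 16
  y16 : y < 16
  z16 : z < 16

theorem chk8w_sound {tX tH tG w : ℕ} (h : chk8w tX tH tG w = true) {n m y z : ℕ}
    (hc : Cod8 w n m y z) {e0 e1 e2 e3 : Bool} (ha : Adm8 n m y z e0 e1 e2 e3) :
    Face8 tX tH tG w n m y z e0 e1 e2 e3 := by
  have key : ∀ n m y z : ℕ, Cod8 w n m y z → m ≤ n → z ≤ y → ∀ e0 e1 e2 e3 : Bool,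
      Adm8 n m y z e0 e1 e2 e3 → Face8 tX tH tG w n m y z e0 e1 e2 e3 := by
    intro n m y z hc hmn hzy e0 e1 e2 e3 ha
    unfold chk8w at h
    rw [hc.hw, Bool.not_true, Bool.false_or] at h
    simp only [frc_eq] at h
    have h1 := allN_spec h n hc.n16
    rw [hc.hn, Bool.not_true, Bool.false_or] at h1
    have h2 := allN_spec h1 m (Nat.lt_succ_of_le hmn)
    have b1 : Nat.beq (Nat.land n m) 0 = true := by rw [hc.hnm]; rfl
    rw [b1, Bool.not_true, Bool.false_or, hc.hm, Bool.not_true, Bool.false_or] at h2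
    have h3 := allN_spec h2 y hc.y16
    rw [hc.hy, Bool.not_true, Bool.false_or] at h3
    have h4 := allN_spec h3 z (Nat.lt_succ_of_le hzy)
    have b2 : Nat.beq (Nat.land y z) 0 = true := by rw [hc.hyz]; rfl
    rw [b2, Bool.not_true, Bool.false_or, hc.hz, Bool.not_true, Bool.false_or] at h4
    exact m8_sound h4 ha
  have comm : ∀ a b : ℕ, Nat.land a b = 0 → Nat.land b a = 0 := by
    intro a b hab
    have : b &&& a = a &&& b := Nat.land_comm b a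
    exact this.trans hab
  rcases le_total m n with h1 | h1 <;> rcases le_total z y with h2 | h2
  · exact key n m y z hc h1 h2 e0 e1 e2 e3 ha
  · exact (key n m z y ⟨hc.hw, hc.hn, hc.hm, hc.hz, hc.hy, hc.hnm, comm _ _ hc.hyz, hc.n16, hc.m16,
      hc.z16, hc.y16⟩ h1 h2 e1 e0 e3 e2 ⟨ha.c1, ha.c0, ha.c3, ha.c2, fun t => ha.d01 ⟨t.2, t.1⟩,
      ha.d13, ha.d02, fun t => ha.d23 ⟨t.2, t.1⟩⟩).swapy
  · exact (key m n y z ⟨hc.hw, hc.hm, hc.hn, hc.hy, hc.hz, comm _ _ hc.hnm, hc.hyz, hc.m16, hc.n16,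
      hc.y16, hc.z16⟩ h1 h2 e2 e3 e0 e1 ⟨ha.c2, ha.c3, ha.c0, ha.c1, ha.d23,
      fun t => ha.d02 ⟨t.2, t.1⟩, fun t => ha.d13 ⟨t.2, t.1⟩, ha.d01⟩).swapx
  · exact (key m n z y ⟨hc.hw, hc.hm, hc.hn, hc.hz, hc.hy, comm _ _ hc.hnm, comm _ _ hc.hyz,
      hc.m16, hc.n16, hc.z16, hc.y16⟩ h1 h2 e3 e2 e1 e0 ⟨ha.c3, ha.c2, ha.c1, ha.c0,
      fun t => ha.d23 ⟨t.2, t.1⟩, fun t => ha.d13 ⟨t.2, t.1⟩, fun t => ha.d02 ⟨t.2, t.1⟩,
      fun t => ha.d01 ⟨t.2, t.1⟩⟩).swapy.swapx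

end K4m
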