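import Mathlib
import Pool.Agent.Lib.MP_392c14_co.Z8c

/-!
# Local analysis, eight points, part D: the inequality for two classes
-/

set_option autoImplicit false

namespace K4m

open Finset Function

/-- four bits -/
def h4 (a b c d : ℕ) : ℕ := Nat.add a (Nat.mul 2 (Nat.add b (Nat.mul 2 (Nat.add c (Nat.mul 2 d)))))

/-- six bits -/
def h6 (a b c d e f : ℕ) : ℕ :=
  Nat.add a (Nat.mul 2 (Nat.add b (Nat.mul 2 (h4 c d e f))))

theorem h4_lt (a b c d : Bool) : h4 a.toNat b.toNat c.toNat d.toNat < 16 := by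
  revert a b c d; decide

theorem h6_lt (a b c d e f : Bool) :
    h6 a.toNat b.toNat c.toNat d.toNat e.toNat f.toNat < 64 := by
  revert a b c d e f; decide

theorem h4_land : ∀ a b c d a' b' c' d' : Bool, (a && a') = false → (b && b') = false →
    (c && c') = false → (d && d') = false →
    Nat.land (h4 a.toNat b.toNat c.toNat d.toNat) (h4 a'.toNat b'.toNat c'.toNat d'.toNat) = 0 := by
  decide +kernel

theorem tf6_of : ∀ a b c d e f : Bool, (a && b && d) = false → (a && c && e) = false →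
    (b && c && f) = false → (d && e && f) = false →
    tf6 (h6 a.toNat b.toNat c.toNat d.toNat e.toNat f.toNat) = true := by
  decide +kernel

theorem tf4_of : ∀ s t u v a b c d e f : Bool, (s && t && a) = false → (s && u && b) = false →
    (s && v && c) = false → (t && u && d) = false → (t && v && e) = false →
    (u && v && f) = false → tf4 (h4 s.toNat t.toNat u.toNat v.toNat)
      (h6 a.toNat b.toNat c.toNat d.toNat e.toNat f.toNat) = true := by
  decide +kernel

section codes8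

variable (l : Fin 6 → Fin 6 → Bool)

/-- code of the pairs of the positions `2,...,5` -/
def w6 (σ : Fin 6 → Fin 6) : ℕ :=
  h6 (l (σ 2) (σ 3)).toNat (l (σ 2) (σ 4)).toNat (l (σ 2) (σ 5)).toNat (l (σ 3) (σ 4)).toNat
    (l (σ 3) (σ 5)).toNat (l (σ 4) (σ 5)).toNat

/-- code of the pairs of the position `i` with the positions `2,...,5` -/
def n4 (σ : Fin 6 → Fin 6) (i : Fin 6) : ℕ :=
  h4 (l (σ i) (σ 2)).toNat (l (σ i) (σ 3)).toNat (l (σ i) (σ 4)).toNat (l (σ i) (σ 5)).toNat

end codes8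

section Z8d

variable {V : Type}

/-- code of the pairs of a point with the positions `2,...,5` -/
def nx (L : V → V → Bool) (σ : Fin 6 → Fin 6) (z : Fin 6 → V) (x : V) : ℕ :=
  h4 (L x (z (σ 2))).toNat (L x (z (σ 3))).toNat (L x (z (σ 4))).toNat (L x (z (σ 5))).toNat

/-- own multiplier of the first class at a transversal -/
noncomputable def zH8 (t : ℕ) (σ : Fin 6 → Fin 6) (L : V → V → Bool) (z : Fin 6 → V) : ℝ :=
  (H8 t (w6 (lz L z) σ) (n4 (lz L z) σ 1) : ℝ)

/-- own multiplier of the second class at a transversal -/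
noncomputable def zG8 (t : ℕ) (σ : Fin 6 → Fin 6) (L : V → V → Bool) (z : Fin 6 → V) : ℝ :=
  (H8 t (w6 (lz L z) σ) (n4 (lz L z) σ 0) : ℝ)

/-- function of the two classes at a transversal -/
noncomputable def zX8 (t : ℕ) (σ : Fin 6 → Fin 6) (L : V → V → Bool) (z : Fin 6 → V) : ℝ :=
  (X8 t (w6 (lz L z) σ) (n4 (lz L z) σ 0) (n4 (lz L z) σ 1) (lz L z (σ 0) (σ 1)).toNat : ℝ)

variable {L : V → V → Bool} (hT : ∀ x y t, ¬ (L x y = true ∧ L x t = true ∧ L y t = true))
include hT

theorem nx_land (σ : Fin 6 → Fin 6) (z : Fin 6 → V) {x y : V} (h : L x y = true) :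
    Nat.land (nx L σ z x) (nx L σ z y) = 0 := by
  have key : ∀ t, (L x t && L y t) = false := by
    intro t
    cases h1 : L x t
    · rfl
    · cases h2 : L y t
      · rfl
      · exact absurd ⟨h, h1, h2⟩ (hT x y t)
  exact h4_land _ _ _ _ _ _ _ _ (key _) (key _) (key _) (key _)

theorem tf6_w6 (σ : Fin 6 → Fin 6) (z : Fin 6 → V) : tf6 (w6 (lz L z) σ) = true := by
  have n := lz_notri hT z
  exact tf6_of _ _ _ _ _ _ (and3_false (n _ _ _)) (and3_false (n _ _ _)) (and3_false (n _ _ _))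
    (and3_false (n _ _ _))

theorem tf4_nx (σ : Fin 6 → Fin 6) (z : Fin 6 → V) (x : V) :
    tf4 (nx L σ z x) (w6 (lz L z) σ) = true :=
  tf4_of _ _ _ _ _ _ _ _ _ _ (and3_false (hT _ _ _)) (and3_false (hT _ _ _))
    (and3_false (hT _ _ _)) (and3_false (hT _ _ _)) (and3_false (hT _ _ _)) (and3_false (hT _ _ _))

end Z8d

section Z8e

variable {V : Type} [Fintype V]

omit [Fintype V] in
theorem w6_update {σ : Fin 6 → Fin 6} (hσ : Injective σ) (L : V → V → Bool) (z : Fin 6 → V)
    (x : V) (i : Fin 6) (hi : i = 0 ∨ i = 1) :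
    w6 (lz L (update z (σ i) x)) σ = w6 (lz L z) σ := by
  have h : ∀ j : Fin 6, 2 ≤ j → (update z (σ i) x) (σ j) = z (σ j) := by
    intro j hj
    refine update_of_ne ?_ _ _
    intro h
    have := hσ h
    subst this
    rcases hi with hi | hi <;> subst hi <;> exact absurd hj (by decide)
  unfold w6 lz
  rw [h 2 (by decide), h 3 (by decide), h 4 (by decide), h 5 (by decide)]

/-- the check implies the inequality on the two classes, for fixed other coordinates -/
theorem face_at {tX tH tG : ℕ} (hc : allN 64 (chk8w tX tH tG) = true) {σ : Fin 6 → Fin 6}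
    {μ : Fin 6 → V → ℝ} (hμ : ∀ a, IsW (μ a)) {L : V → V → Bool} (hs : ∀ x y, L x y = L y x)
    (hT : ∀ x y t, ¬ (L x y = true ∧ L x t = true ∧ L y t = true)) (z : Fin 6 → V) :
    qd (μ (σ 0)) L * (∑ y, μ (σ 1) y * (H8 tH (w6 (lz L z) σ) (nx L σ z y) : ℝ)) +
      qd (μ (σ 1)) L * (∑ x, μ (σ 0) x * (H8 tG (w6 (lz L z) σ) (nx L σ z x) : ℝ)) ≤
      ∑ x, μ (σ 0) x * ∑ y, μ (σ 1) y *
        (X8 tX (w6 (lz L z) σ) (nx L σ z x) (nx L σ z y) (L x y).toNat : ℝ) := by
  have hw := h6_lt (lz L z (σ 2) (σ 3)) (lz L z (σ 2) (σ 4)) (lz L z (σ 2) (σ 5))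
    (lz L z (σ 3) (σ 4)) (lz L z (σ 3) (σ 5)) (lz L z (σ 4) (σ 5))
  have hw' : w6 (lz L z) σ < 64 := hw
  have h : ∀ {n m y v : ℕ}, Cod8 (w6 (lz L z) σ) n m y v → ∀ {e0 e1 e2 e3 : Bool},
      Adm8 n m y v e0 e1 e2 e3 → Face8 tX tH tG (w6 (lz L z) σ) n m y v e0 e1 e2 e3 :=
    by
      intro n m y v h1 e0 e1 e2 e3 h2
      exact chk8w_sound (allN_spec hc _ hw') h1 h2
  have n16 : ∀ x, nx L σ z x < 16 := fun x => h4_lt _ _ _ _
  have l0 : ∀ a, Nat.land a 0 = 0 := fun a => Nat.and_zero a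
  have z16 : (0 : ℕ) < 16 := by norm_num
  have tz : tf4 0 (w6 (lz L z) σ) = true := by
    unfold tf4 tp
    simp [Nat.land, Nat.beq]
  refine face (hμ _) (hμ _) hs hT (fun _ => Nat.cast_nonneg _) (fun _ => Nat.cast_nonneg _)
    (fun _ _ => Nat.cast_nonneg _) ?_ ?_ ?_
  · intro x y y' hy k k0 k1
    have hh := h (n := nx L σ z x) (m := 0) (y := nx L σ z y) (v := nx L σ z y')
      ⟨tf6_w6 hT σ z, tf4_nx hT σ z x, tz, tf4_nx hT σ z y, tf4_nx hT σ z y', l0 _,
        nx_land hT σ z hy, n16 _, z16, n16 _, n16 _⟩ (e0 := L x y) (e1 := L x y') (e2 := false)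
      (e3 := false) ⟨fun t => nx_land hT σ z t, fun t => nx_land hT σ z t, by simp, by simp,
        fun t => hT _ _ _ ⟨t.1, t.2, hy⟩, by simp, by simp, by simp⟩ 1 k (by norm_num) le_rfl k0 k1
    unfold fpoly at hh
    nlinarith
  · intro x x' y hx l l0' l1
    have hh := h (n := nx L σ z x) (m := nx L σ z x') (y := nx L σ z y) (v := 0)
      ⟨tf6_w6 hT σ z, tf4_nx hT σ z x, tf4_nx hT σ z x', tf4_nx hT σ z y, tz,
        nx_land hT σ z hx, l0 _, n16 _, n16 _, n16 _, z16⟩ (e0 := L x y) (e1 := false)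
      (e2 := L x' y) (e3 := false) ⟨fun t => nx_land hT σ z t, by simp, fun t => nx_land hT σ z t,
        by simp, by simp, fun t => hT _ _ _ ⟨hx, t.1, t.2⟩, by simp, by simp⟩ l 1 l0' l1
        (by norm_num) le_rfl
    unfold fpoly at hh
    nlinarith
  · intro x x' y y' hx hy l k l0' l1 k0 k1
    exact h (n := nx L σ z x) (m := nx L σ z x') (y := nx L σ z y) (v := nx L σ z y')
      ⟨tf6_w6 hT σ z, tf4_nx hT σ z x, tf4_nx hT σ z x', tf4_nx hT σ z y, tf4_nx hT σ z y',
        nx_land hT σ z hx, nx_land hT σ z hy, n16 _, n16 _, n16 _, n16 _⟩ (e0 := L x y)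
      (e1 := L x y') (e2 := L x' y) (e3 := L x' y') ⟨fun t => nx_land hT σ z t,
        fun t => nx_land hT σ z t, fun t => nx_land hT σ z t, fun t => nx_land hT σ z t,
        fun t => hT _ _ _ ⟨t.1, t.2, hy⟩, fun t => hT _ _ _ ⟨hx, t.1, t.2⟩,
        fun t => hT _ _ _ ⟨hx, t.1, t.2⟩, fun t => hT _ _ _ ⟨t.1, t.2, hy⟩⟩ l k l0' l1 k0 k1

/-- **the inequality for two classes** -/
theorem faceE {tX tH tG : ℕ} (hc : allN 64 (chk8w tX tH tG) = true) {σ : Fin 6 → Fin 6}
    (hσ : Injective σ) {μ : Fin 6 → V → ℝ} (hμ : ∀ a, IsW (μ a)) {L : V → V → Bool}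
    (hs : ∀ x y, L x y = L y x)
    (hT : ∀ x y t, ¬ (L x y = true ∧ L x t = true ∧ L y t = true)) :
    qd (μ (σ 0)) L * E6 μ (zH8 tH σ L) + qd (μ (σ 1)) L * E6 μ (zG8 tG σ L) ≤
      E6 μ (zX8 tX σ L) := by
  have h01 : σ 0 ≠ σ 1 := fun h => absurd (hσ h) (by decide)
  have e1 : E6 μ (zH8 tH σ L) =
      E6 μ (fun z => ∑ y, μ (σ 1) y * (H8 tH (w6 (lz L z) σ) (nx L σ z y) : ℝ)) := by
    rw [← E6_avg hμ (σ 1)]
    refine E6_congr μ fun z => sum_congr rfl fun y _ => ?_
    unfold zH8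
    rw [w6_update hσ L z y 1 (Or.inr rfl)]
    have : n4 (lz L (update z (σ 1) y)) σ 1 = nx L σ z y := by
      have h : ∀ j : Fin 6, 2 ≤ j → (update z (σ 1) y) (σ j) = z (σ j) := by
        intro j hj
        refine update_of_ne (fun h => ?_) _ _
        have := hσ h
        subst this
        exact absurd hj (by decide)
      unfold n4 nx lz
      rw [update_self, h 2 (by decide), h 3 (by decide), h 4 (by decide), h 5 (by decide)]
    rw [this]
  have e2 : E6 μ (zG8 tG σ L) =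
      E6 μ (fun z => ∑ x, μ (σ 0) x * (H8 tG (w6 (lz L z) σ) (nx L σ z x) : ℝ)) := by
    rw [← E6_avg hμ (σ 0)]
    refine E6_congr μ fun z => sum_congr rfl fun y _ => ?_
    unfold zG8
    rw [w6_update hσ L z y 0 (Or.inl rfl)]
    have : n4 (lz L (update z (σ 0) y)) σ 0 = nx L σ z y := by
      have h : ∀ j : Fin 6, 2 ≤ j → (update z (σ 0) y) (σ j) = z (σ j) := by
        intro j hj
        refine update_of_ne (fun h => ?_) _ _
        have := hσ h
        subst this
        exact absurd hj (by decide)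
      unfold n4 nx lz
      rw [update_self, h 2 (by decide), h 3 (by decide), h 4 (by decide), h 5 (by decide)]
    rw [this]
  have e3 : E6 μ (zX8 tX σ L) = E6 μ (fun z => ∑ x, μ (σ 0) x * ∑ y, μ (σ 1) y *
      (X8 tX (w6 (lz L z) σ) (nx L σ z x) (nx L σ z y) (L x y).toNat : ℝ)) := by
    rw [← E6_avg hμ (σ 1), ← E6_avg hμ (σ 0)]
    refine E6_congr μ fun z => sum_congr rfl fun x _ => ?_
    congr 1
    refine sum_congr rfl fun y _ => ?_
    congr 1
    have h : ∀ j : Fin 6, 2 ≤ j → (update (update z (σ 0) x) (σ 1) y) (σ j) = z (σ j) := by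
      intro j hj
      rw [update_of_ne (fun h => ?_), update_of_ne (fun h => ?_)]
      · have := hσ h
        subst this
        exact absurd hj (by decide)
      · have := hσ h
        subst this
        exact absurd hj (by decide)
    have h1 : (update (update z (σ 0) x) (σ 1) y) (σ 1) = y := update_self _ _ _
    have h0 : (update (update z (σ 0) x) (σ 1) y) (σ 0) = x := by
      rw [update_of_ne h01, update_self]
    unfold zX8
    have f1 : w6 (lz L (update (update z (σ 0) x) (σ 1) y)) σ = w6 (lz L z) σ := by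
      rw [w6_update hσ L _ y 1 (Or.inr rfl), w6_update hσ L _ x 0 (Or.inl rfl)]
    have f2 : n4 (lz L (update (update z (σ 0) x) (σ 1) y)) σ 0 = nx L σ z x := by
      unfold n4 nx lz
      rw [h0, h 2 (by decide), h 3 (by decide), h 4 (by decide), h 5 (by decide)]
    have f3 : n4 (lz L (update (update z (σ 0) x) (σ 1) y)) σ 1 = nx L σ z y := by
      unfold n4 nx lz
      rw [h1, h 2 (by decide), h 3 (by decide), h 4 (by decide), h 5 (by decide)]
    have f4 : lz L (update (update z (σ 0) x) (σ 1) y) (σ 0) (σ 1) = L x y := by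
      unfold lz
      rw [h0, h1]
    rw [f1, f2, f3, f4]
  rw [e1, e2, e3, ← E6_smul, ← E6_smul, ← E6_add]
  exact E6_mono hμ fun z => face_at hc hμ hs hT z

end Z8e

end K4m
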