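import Mathlib
import Pool.Agent.Lib.MP_392c14_co.Z8d

/-!
# Local analysis, eight points, part E: the inequality for one transversal (partly generated)

The fifteen pairs of classes are the positions `0, 1` of the fifteen frames `fr8 p`.
-/

set_option autoImplicit false

namespace K4m

open Finset Function

/-- the frames -/
def fr8 : Fin 15 → Fin 6 → Fin 6 := ![![0, 1, 2, 3, 4, 5], ![0, 2, 1, 4, 3, 5], ![0, 3, 1, 5, 2, 4], ![0, 4, 2, 5, 1, 3], ![0, 5, 3, 4, 1, 2], ![1, 2, 0, 5, 3, 4], ![1, 3, 0, 4, 2, 5], ![1, 4, 3, 5, 0, 2], ![1, 5, 2, 4, 0, 3], ![2, 3, 4, 5, 0, 1], ![2, 4, 0, 3, 1, 5], ![2, 5, 1, 3, 0, 4], ![3, 4, 1, 2, 0, 5], ![3, 5, 0, 2, 1, 4], ![4, 5, 0, 1, 2, 3]]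

theorem fr8_inj : ∀ p : Fin 15, Injective (fr8 p) := by
  have h : ∀ p : Fin 15, ∀ i j : Fin 6, fr8 p i = fr8 p j → i = j := by decide +kernel
  exact fun p i j => h p i j

/-- quantifier over one bit -/
def al2 (f : ℕ → Bool) : Bool := f 0 && f 1

theorem al2_spec {f : ℕ → Bool} (h : al2 f = true) (b : Bool) : f b.toNat = true := by
  unfold al2 at h
  rw [Bool.and_eq_true] at h
  cases b
  · exact h.1
  · exact h.2

/-- indicator of `2 ≤ t` -/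
def bl2 (t : ℕ) : ℕ := cond (Nat.ble 2 t) 1 0

/-- three bits are set -/
def tr3 (a b c : ℕ) : Bool := Nat.beq (Nat.add a (Nat.add b c)) 3

theorem tr3_false {a b c : Bool} (h : (a && b && c) = false) :
    tr3 a.toNat b.toNat c.toNat = false := by
  revert h
  cases a <;> cases b <;> cases c <;> decide

/-- sum of the own multipliers of the class `0` -/
def sk0 (tH tG : ℕ) (b01 b02 b12 b03 b13 b23 b04 b14 b24 b34 b05 b15 b25 b35 b45 : ℕ) : ℕ :=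
  Nat.add (H8 tH (h6 b23 b24 b25 b34 b35 b45)
    (h4 b12 b13 b14 b15))
    (Nat.add (H8 tH (h6 b14 b13 b15 b34 b45 b35)
    (h4 b12 b24 b23 b25))
    (Nat.add (H8 tH (h6 b15 b12 b14 b25 b45 b24)
    (h4 b13 b35 b23 b34))
    (Nat.add (H8 tH (h6 b25 b12 b23 b15 b35 b13)
    (h4 b24 b45 b14 b34))
    (H8 tH (h6 b34 b13 b23 b14 b24 b12)
    (h4 b35 b45 b15 b25)))))

/-- sum of the own multipliers of the class `1` -/
def sk1 (tH tG : ℕ) (b01 b02 b12 b03 b13 b23 b04 b14 b24 b34 b05 b15 b25 b35 b45 : ℕ) : ℕ :=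
  Nat.add (H8 tG (h6 b23 b24 b25 b34 b35 b45)
    (h4 b02 b03 b04 b05))
    (Nat.add (H8 tH (h6 b05 b03 b04 b35 b45 b34)
    (h4 b02 b25 b23 b24))
    (Nat.add (H8 tH (h6 b04 b02 b05 b24 b45 b25)
    (h4 b03 b34 b23 b35))
    (Nat.add (H8 tH (h6 b35 b03 b23 b05 b25 b02)
    (h4 b34 b45 b04 b24))
    (H8 tH (h6 b24 b02 b23 b04 b34 b03)
    (h4 b25 b45 b05 b35)))))

/-- sum of the own multipliers of the class `2` -/
def sk2 (tH tG : ℕ) (b01 b02 b12 b03 b13 b23 b04 b14 b24 b34 b05 b15 b25 b35 b45 : ℕ) : ℕ :=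
  Nat.add (H8 tG (h6 b14 b13 b15 b34 b45 b35)
    (h4 b01 b04 b03 b05))
    (Nat.add (H8 tG (h6 b05 b03 b04 b35 b45 b34)
    (h4 b01 b15 b13 b14))
    (Nat.add (H8 tH (h6 b45 b04 b14 b05 b15 b01)
    (h4 b34 b35 b03 b13))
    (Nat.add (H8 tH (h6 b03 b01 b05 b13 b35 b15)
    (h4 b04 b34 b14 b45))
    (H8 tH (h6 b13 b01 b14 b03 b34 b04)
    (h4 b15 b35 b05 b45)))))

/-- sum of the own multipliers of the class `3` -/
def sk3 (tH tG : ℕ) (b01 b02 b12 b03 b13 b23 b04 b14 b24 b34 b05 b15 b25 b35 b45 : ℕ) : ℕ :=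
  Nat.add (H8 tG (h6 b15 b12 b14 b25 b45 b24)
    (h4 b01 b05 b02 b04))
    (Nat.add (H8 tG (h6 b04 b02 b05 b24 b45 b25)
    (h4 b01 b14 b12 b15))
    (Nat.add (H8 tG (h6 b45 b04 b14 b05 b15 b01)
    (h4 b24 b25 b02 b12))
    (Nat.add (H8 tH (h6 b12 b01 b15 b02 b25 b05)
    (h4 b14 b24 b04 b45))
    (H8 tH (h6 b02 b01 b04 b12 b24 b14)
    (h4 b05 b25 b15 b45)))))

/-- sum of the own multipliers of the class `4` -/
def sk4 (tH tG : ℕ) (b01 b02 b12 b03 b13 b23 b04 b14 b24 b34 b05 b15 b25 b35 b45 : ℕ) : ℕ :=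
  Nat.add (H8 tG (h6 b25 b12 b23 b15 b35 b13)
    (h4 b02 b05 b01 b03))
    (Nat.add (H8 tG (h6 b35 b03 b23 b05 b25 b02)
    (h4 b13 b15 b01 b12))
    (Nat.add (H8 tG (h6 b03 b01 b05 b13 b35 b15)
    (h4 b02 b23 b12 b25))
    (Nat.add (H8 tG (h6 b12 b01 b15 b02 b25 b05)
    (h4 b13 b23 b03 b35))
    (H8 tH (h6 b01 b02 b03 b12 b13 b23)
    (h4 b05 b15 b25 b35)))))

/-- sum of the own multipliers of the class `5` -/
def sk5 (tH tG : ℕ) (b01 b02 b12 b03 b13 b23 b04 b14 b24 b34 b05 b15 b25 b35 b45 : ℕ) : ℕ :=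
  Nat.add (H8 tG (h6 b34 b13 b23 b14 b24 b12)
    (h4 b03 b04 b01 b02))
    (Nat.add (H8 tG (h6 b24 b02 b23 b04 b34 b03)
    (h4 b12 b14 b01 b13))
    (Nat.add (H8 tG (h6 b13 b01 b14 b03 b34 b04)
    (h4 b12 b23 b02 b24))
    (Nat.add (H8 tG (h6 b02 b01 b04 b12 b24 b14)
    (h4 b03 b23 b13 b34))
    (H8 tG (h6 b01 b02 b03 b12 b13 b23)
    (h4 b04 b14 b24 b34)))))

/-- sum of the functions of two classes -/
def sx8 (tX : ℕ) (b01 b02 b12 b03 b13 b23 b04 b14 b24 b34 b05 b15 b25 b35 b45 : ℕ) : ℕ :=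
  Nat.add (X8 tX (h6 b23 b24 b25 b34 b35 b45)
    (h4 b02 b03 b04 b05)
    (h4 b12 b13 b14 b15) b01)
    (Nat.add (X8 tX (h6 b14 b13 b15 b34 b45 b35)
    (h4 b01 b04 b03 b05)
    (h4 b12 b24 b23 b25) b02)
    (Nat.add (X8 tX (h6 b15 b12 b14 b25 b45 b24)
    (h4 b01 b05 b02 b04)
    (h4 b13 b35 b23 b34) b03)
    (Nat.add (X8 tX (h6 b25 b12 b23 b15 b35 b13)
    (h4 b02 b05 b01 b03)
    (h4 b24 b45 b14 b34) b04)
    (Nat.add (X8 tX (h6 b34 b13 b23 b14 b24 b12)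
    (h4 b03 b04 b01 b02)
    (h4 b35 b45 b15 b25) b05)
    (Nat.add (X8 tX (h6 b05 b03 b04 b35 b45 b34)
    (h4 b01 b15 b13 b14)
    (h4 b02 b25 b23 b24) b12)
    (Nat.add (X8 tX (h6 b04 b02 b05 b24 b45 b25)
    (h4 b01 b14 b12 b15)
    (h4 b03 b34 b23 b35) b13)
    (Nat.add (X8 tX (h6 b35 b03 b23 b05 b25 b02)
    (h4 b13 b15 b01 b12)
    (h4 b34 b45 b04 b24) b14)
    (Nat.add (X8 tX (h6 b24 b02 b23 b04 b34 b03)
    (h4 b12 b14 b01 b13)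
    (h4 b25 b45 b05 b35) b15)
    (Nat.add (X8 tX (h6 b45 b04 b14 b05 b15 b01)
    (h4 b24 b25 b02 b12)
    (h4 b34 b35 b03 b13) b23)
    (Nat.add (X8 tX (h6 b03 b01 b05 b13 b35 b15)
    (h4 b02 b23 b12 b25)
    (h4 b04 b34 b14 b45) b24)
    (Nat.add (X8 tX (h6 b13 b01 b14 b03 b34 b04)
    (h4 b12 b23 b02 b24)
    (h4 b15 b35 b05 b45) b25)
    (Nat.add (X8 tX (h6 b12 b01 b15 b02 b25 b05)
    (h4 b13 b23 b03 b35)
    (h4 b14 b24 b04 b45) b34)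
    (Nat.add (X8 tX (h6 b02 b01 b04 b12 b24 b14)
    (h4 b03 b23 b13 b34)
    (h4 b05 b25 b15 b45) b35)
    (X8 tX (h6 b01 b02 b03 b12 b13 b23)
    (h4 b04 b14 b24 b34)
    (h4 b05 b15 b25 b35) b45))))))))))))))

/-- number of pairs -/
def sd8 (b01 b02 b12 b03 b13 b23 b04 b14 b24 b34 b05 b15 b25 b35 b45 : ℕ) : ℕ :=
  Nat.add (b01) (Nat.add (b02) (Nat.add (b03) (Nat.add (b04) (Nat.add (b05) (Nat.add (b12) (Nat.add (b13) (Nat.add (b14) (Nat.add (b15) (Nat.add (b23) (Nat.add (b24) (Nat.add (b25) (Nat.add (b34) (Nat.add (b35) (b45))))))))))))))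

/-- number of blocks with two pairs -/
def sb8 (b01 b02 b12 b03 b13 b23 b04 b14 b24 b34 b05 b15 b25 b35 b45 : ℕ) : ℕ :=
  Nat.add (bl2 (Nat.add b01 (Nat.add b02 b12))) (Nat.add (bl2 (Nat.add b01 (Nat.add b03 b13))) (Nat.add (bl2 (Nat.add b02 (Nat.add b04 b24))) (Nat.add (bl2 (Nat.add b03 (Nat.add b05 b35))) (Nat.add (bl2 (Nat.add b04 (Nat.add b05 b45))) (Nat.add (bl2 (Nat.add b12 (Nat.add b15 b25))) (Nat.add (bl2 (Nat.add b13 (Nat.add b14 b34))) (Nat.add (bl2 (Nat.add b14 (Nat.add b15 b45))) (Nat.add (bl2 (Nat.add b23 (Nat.add b24 b34))) (bl2 (Nat.add b23 (Nat.add b25 b35)))))))))))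

/-- code of the graph -/
def sg8 (b01 b02 b12 b03 b13 b23 b04 b14 b24 b34 b05 b15 b25 b35 b45 : ℕ) : ℕ :=
  Nat.add b01 (Nat.mul 2 (Nat.add b02 (Nat.mul 2 (Nat.add b03 (Nat.mul 2 (Nat.add b04 (Nat.mul 2 (Nat.add b05 (Nat.mul 2 (Nat.add b12 (Nat.mul 2 (Nat.add b13 (Nat.mul 2 (Nat.add b14 (Nat.mul 2 (Nat.add b15 (Nat.mul 2 (Nat.add b23 (Nat.mul 2 (Nat.add b24 (Nat.mul 2 (Nat.add b25 (Nat.mul 2 (Nat.add b34 (Nat.mul 2 (Nat.add b35 (Nat.mul 2 (b45))))))))))))))))))))))))))))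

/-- the inequality at a transversal for one value of the bound of the own densities -/
def zin (N cb Q x d np b sh : ℕ) : Bool :=
  Nat.ble (Nat.add (Nat.mul Q (Nat.mul 6 N)) (Nat.add (Nat.mul 700 x)
    (Nat.add (Nat.mul 1400 (Nat.mul N d)) (Nat.mul 700 (Nat.mul cb np)))))
    (Nat.add (Nat.mul 7000 N) (Nat.add (Nat.mul Q N) (Nat.add (Nat.mul 2100 (Nat.mul N b))
      (Nat.mul Q sh))))

/-- not a pentagon -/
def np8 (g : ℕ) : ℕ :=
  cond (Nat.beq g 25696) 0 (cond (Nat.beq g 22534) 0 (cond (Nat.beq g 12553) 0 (cond (Nat.beq g 3217) 0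
    (cond (Nat.beq g 850) 0 (cond (Nat.beq g 684) 0 1)))))

/-- the check at one graph -/
def zlf (tX tH tG N cb Q1 Q2 : ℕ) (b01 b02 b12 b03 b13 b23 b04 b14 b24 b34 b05 b15 b25 b35 b45 : ℕ) : Bool :=
  frc (sk0 tH tG b01 b02 b12 b03 b13 b23 b04 b14 b24 b34 b05 b15 b25 b35 b45) fun s0 =>
  frc (sk1 tH tG b01 b02 b12 b03 b13 b23 b04 b14 b24 b34 b05 b15 b25 b35 b45) fun s1 =>
  frc (sk2 tH tG b01 b02 b12 b03 b13 b23 b04 b14 b24 b34 b05 b15 b25 b35 b45) fun s2 =>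
  frc (sk3 tH tG b01 b02 b12 b03 b13 b23 b04 b14 b24 b34 b05 b15 b25 b35 b45) fun s3 =>
  frc (sk4 tH tG b01 b02 b12 b03 b13 b23 b04 b14 b24 b34 b05 b15 b25 b35 b45) fun s4 =>
  frc (sk5 tH tG b01 b02 b12 b03 b13 b23 b04 b14 b24 b34 b05 b15 b25 b35 b45) fun s5 =>
  frc (sx8 tX b01 b02 b12 b03 b13 b23 b04 b14 b24 b34 b05 b15 b25 b35 b45) fun x =>
  frc (sd8 b01 b02 b12 b03 b13 b23 b04 b14 b24 b34 b05 b15 b25 b35 b45) fun d =>
  frc (sb8 b01 b02 b12 b03 b13 b23 b04 b14 b24 b34 b05 b15 b25 b35 b45) fun b =>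
  frc (sg8 b01 b02 b12 b03 b13 b23 b04 b14 b24 b34 b05 b15 b25 b35 b45) fun g =>
  frc (np8 g) fun np => frc (Nat.add s0 (Nat.add s1 (Nat.add s2 (Nat.add s3 (Nat.add s4 s5))))) fun sh =>
  Nat.ble s0 N && (Nat.ble s1 N && (Nat.ble s2 N && (Nat.ble s3 N && (Nat.ble s4 N && (Nat.ble s5 N && ((!(Nat.beq g 25696) || Nat.beq s0 0) && ((!(Nat.beq g 22534) || Nat.beq s1 0) && ((!(Nat.beq g 12553) || Nat.beq s2 0) && ((!(Nat.beq g 3217) || Nat.beq s3 0) && ((!(Nat.beq g 850) || Nat.beq s4 0) && ((!(Nat.beq g 684) || Nat.beq s5 0) && (zin N cb Q1 x d np b sh && (zin N cb Q2 x d np b sh)))))))))))))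

/-- all graphs without triangles -/
def chkz (tX tH tG N cb Q1 Q2 : ℕ) : Bool :=
  al2 fun b01 =>
  al2 fun b02 =>
  al2 fun b12 => tr3 b01 b02 b12 || (
  al2 fun b03 =>
  al2 fun b13 => tr3 b01 b03 b13 || (
  al2 fun b23 => tr3 b02 b03 b23 || ( tr3 b12 b13 b23 || (
  al2 fun b04 =>
  al2 fun b14 => tr3 b01 b04 b14 || (
  al2 fun b24 => tr3 b02 b04 b24 || ( tr3 b12 b14 b24 || (
  al2 fun b34 => tr3 b03 b04 b34 || ( tr3 b13 b14 b34 || ( tr3 b23 b24 b34 || (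
  al2 fun b05 =>
  al2 fun b15 => tr3 b01 b05 b15 || (
  al2 fun b25 => tr3 b02 b05 b25 || ( tr3 b12 b15 b25 || (
  al2 fun b35 => tr3 b03 b05 b35 || ( tr3 b13 b15 b35 || ( tr3 b23 b25 b35 || (
  al2 fun b45 => tr3 b04 b05 b45 || ( tr3 b14 b15 b45 || ( tr3 b24 b25 b45 || ( tr3 b34 b35 b45 || (
  zlf tX tH tG N cb Q1 Q2 b01 b02 b12 b03 b13 b23 b04 b14 b24 b34 b05 b15 b25 b35 b45))))))))))))))))))))

theorem chkz_spec {tX tH tG N cb Q1 Q2 : ℕ} (h : chkz tX tH tG N cb Q1 Q2 = true) (b01 b02 b12 b03 b13 b23 b04 b14 b24 b34 b05 b15 b25 b35 b45 : Bool)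
    (h1 : (b01 && b02 && b12) = false)
    (h2 : (b01 && b03 && b13) = false)
    (h3 : (b02 && b03 && b23) = false)
    (h4 : (b12 && b13 && b23) = false)
    (h5 : (b01 && b04 && b14) = false)
    (h6 : (b02 && b04 && b24) = false)
    (h7 : (b12 && b14 && b24) = false)
    (h8 : (b03 && b04 && b34) = false)
    (h9 : (b13 && b14 && b34) = false)
    (h10 : (b23 && b24 && b34) = false)
    (h11 : (b01 && b05 && b15) = false)
    (h12 : (b02 && b05 && b25) = false)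
    (h13 : (b12 && b15 && b25) = false)
    (h14 : (b03 && b05 && b35) = false)
    (h15 : (b13 && b15 && b35) = false)
    (h16 : (b23 && b25 && b35) = false)
    (h17 : (b04 && b05 && b45) = false)
    (h18 : (b14 && b15 && b45) = false)
    (h19 : (b24 && b25 && b45) = false)
    (h20 : (b34 && b35 && b45) = false) :
    zlf tX tH tG N cb Q1 Q2 b01.toNat b02.toNat b12.toNat b03.toNat b13.toNat b23.toNat b04.toNat b14.toNat b24.toNat b34.toNat b05.toNat b15.toNat b25.toNat b35.toNat b45.toNat = true := by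
  unfold chkz at h
  have h := al2_spec h b01
  have h := al2_spec h b02
  have h := al2_spec h b12
  rw [tr3_false h1, Bool.false_or] at h
  have h := al2_spec h b03
  have h := al2_spec h b13
  rw [tr3_false h2, Bool.false_or] at h
  have h := al2_spec h b23
  rw [tr3_false h3, Bool.false_or] at h
  rw [tr3_false h4, Bool.false_or] at h
  have h := al2_spec h b04
  have h := al2_spec h b14
  rw [tr3_false h5, Bool.false_or] at h
  have h := al2_spec h b24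
  rw [tr3_false h6, Bool.false_or] at h
  rw [tr3_false h7, Bool.false_or] at h
  have h := al2_spec h b34
  rw [tr3_false h8, Bool.false_or] at h
  rw [tr3_false h9, Bool.false_or] at h
  rw [tr3_false h10, Bool.false_or] at h
  have h := al2_spec h b05
  have h := al2_spec h b15
  rw [tr3_false h11, Bool.false_or] at h
  have h := al2_spec h b25
  rw [tr3_false h12, Bool.false_or] at h
  rw [tr3_false h13, Bool.false_or] at h
  have h := al2_spec h b35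
  rw [tr3_false h14, Bool.false_or] at h
  rw [tr3_false h15, Bool.false_or] at h
  rw [tr3_false h16, Bool.false_or] at h
  have h := al2_spec h b45
  rw [tr3_false h17, Bool.false_or] at h
  rw [tr3_false h18, Bool.false_or] at h
  rw [tr3_false h19, Bool.false_or] at h
  rw [tr3_false h20, Bool.false_or] at h
  exact h

section link

variable {l : Fin 6 → Fin 6 → Bool} (hs : ∀ i j, l i j = l j i)
include hs

theorem lw0 : w6 l (fr8 0) = h6 (l 2 3).toNat (l 2 4).toNat (l 2 5).toNat (l 3 4).toNat (l 3 5).toNat (l 4 5).toNat := by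
  rfl

theorem ln0 : n4 l (fr8 0) 0 = h4 (l 0 2).toNat (l 0 3).toNat (l 0 4).toNat (l 0 5).toNat := by
  rfl

theorem ly0 : n4 l (fr8 0) 1 = h4 (l 1 2).toNat (l 1 3).toNat (l 1 4).toNat (l 1 5).toNat := by
  rfl

theorem lw1 : w6 l (fr8 1) = h6 (l 1 4).toNat (l 1 3).toNat (l 1 5).toNat (l 3 4).toNat (l 4 5).toNat (l 3 5).toNat := by
  change h6 (l 1 4).toNat (l 1 3).toNat (l 1 5).toNat (l 4 3).toNat (l 4 5).toNat (l 3 5).toNat = _
  rw [hs 4 3]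

theorem ln1 : n4 l (fr8 1) 0 = h4 (l 0 1).toNat (l 0 4).toNat (l 0 3).toNat (l 0 5).toNat := by
  rfl

theorem ly1 : n4 l (fr8 1) 1 = h4 (l 1 2).toNat (l 2 4).toNat (l 2 3).toNat (l 2 5).toNat := by
  change h4 (l 2 1).toNat (l 2 4).toNat (l 2 3).toNat (l 2 5).toNat = _
  rw [hs 2 1]

theorem lw2 : w6 l (fr8 2) = h6 (l 1 5).toNat (l 1 2).toNat (l 1 4).toNat (l 2 5).toNat (l 4 5).toNat (l 2 4).toNat := by
  change h6 (l 1 5).toNat (l 1 2).toNat (l 1 4).toNat (l 5 2).toNat (l 5 4).toNat (l 2 4).toNat = _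
  rw [hs 5 2, hs 5 4]

theorem ln2 : n4 l (fr8 2) 0 = h4 (l 0 1).toNat (l 0 5).toNat (l 0 2).toNat (l 0 4).toNat := by
  rfl

theorem ly2 : n4 l (fr8 2) 1 = h4 (l 1 3).toNat (l 3 5).toNat (l 2 3).toNat (l 3 4).toNat := by
  change h4 (l 3 1).toNat (l 3 5).toNat (l 3 2).toNat (l 3 4).toNat = _
  rw [hs 3 1, hs 3 2]

theorem lw3 : w6 l (fr8 3) = h6 (l 2 5).toNat (l 1 2).toNat (l 2 3).toNat (l 1 5).toNat (l 3 5).toNat (l 1 3).toNat := by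
  change h6 (l 2 5).toNat (l 2 1).toNat (l 2 3).toNat (l 5 1).toNat (l 5 3).toNat (l 1 3).toNat = _
  rw [hs 2 1, hs 5 1, hs 5 3]

theorem ln3 : n4 l (fr8 3) 0 = h4 (l 0 2).toNat (l 0 5).toNat (l 0 1).toNat (l 0 3).toNat := by
  rfl

theorem ly3 : n4 l (fr8 3) 1 = h4 (l 2 4).toNat (l 4 5).toNat (l 1 4).toNat (l 3 4).toNat := by
  change h4 (l 4 2).toNat (l 4 5).toNat (l 4 1).toNat (l 4 3).toNat = _
  rw [hs 4 2, hs 4 1, hs 4 3]

theorem lw4 : w6 l (fr8 4) = h6 (l 3 4).toNat (l 1 3).toNat (l 2 3).toNat (l 1 4).toNat (l 2 4).toNat (l 1 2).toNat := by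
  change h6 (l 3 4).toNat (l 3 1).toNat (l 3 2).toNat (l 4 1).toNat (l 4 2).toNat (l 1 2).toNat = _
  rw [hs 3 1, hs 3 2, hs 4 1, hs 4 2]

theorem ln4 : n4 l (fr8 4) 0 = h4 (l 0 3).toNat (l 0 4).toNat (l 0 1).toNat (l 0 2).toNat := by
  rfl

theorem ly4 : n4 l (fr8 4) 1 = h4 (l 3 5).toNat (l 4 5).toNat (l 1 5).toNat (l 2 5).toNat := by
  change h4 (l 5 3).toNat (l 5 4).toNat (l 5 1).toNat (l 5 2).toNat = _
  rw [hs 5 3, hs 5 4, hs 5 1, hs 5 2]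

theorem lw5 : w6 l (fr8 5) = h6 (l 0 5).toNat (l 0 3).toNat (l 0 4).toNat (l 3 5).toNat (l 4 5).toNat (l 3 4).toNat := by
  change h6 (l 0 5).toNat (l 0 3).toNat (l 0 4).toNat (l 5 3).toNat (l 5 4).toNat (l 3 4).toNat = _
  rw [hs 5 3, hs 5 4]

theorem ln5 : n4 l (fr8 5) 0 = h4 (l 0 1).toNat (l 1 5).toNat (l 1 3).toNat (l 1 4).toNat := by
  change h4 (l 1 0).toNat (l 1 5).toNat (l 1 3).toNat (l 1 4).toNat = _
  rw [hs 1 0]

theorem ly5 : n4 l (fr8 5) 1 = h4 (l 0 2).toNat (l 2 5).toNat (l 2 3).toNat (l 2 4).toNat := by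
  change h4 (l 2 0).toNat (l 2 5).toNat (l 2 3).toNat (l 2 4).toNat = _
  rw [hs 2 0]

theorem lw6 : w6 l (fr8 6) = h6 (l 0 4).toNat (l 0 2).toNat (l 0 5).toNat (l 2 4).toNat (l 4 5).toNat (l 2 5).toNat := by
  change h6 (l 0 4).toNat (l 0 2).toNat (l 0 5).toNat (l 4 2).toNat (l 4 5).toNat (l 2 5).toNat = _
  rw [hs 4 2]

theorem ln6 : n4 l (fr8 6) 0 = h4 (l 0 1).toNat (l 1 4).toNat (l 1 2).toNat (l 1 5).toNat := by
  change h4 (l 1 0).toNat (l 1 4).toNat (l 1 2).toNat (l 1 5).toNat = _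
  rw [hs 1 0]

theorem ly6 : n4 l (fr8 6) 1 = h4 (l 0 3).toNat (l 3 4).toNat (l 2 3).toNat (l 3 5).toNat := by
  change h4 (l 3 0).toNat (l 3 4).toNat (l 3 2).toNat (l 3 5).toNat = _
  rw [hs 3 0, hs 3 2]

theorem lw7 : w6 l (fr8 7) = h6 (l 3 5).toNat (l 0 3).toNat (l 2 3).toNat (l 0 5).toNat (l 2 5).toNat (l 0 2).toNat := by
  change h6 (l 3 5).toNat (l 3 0).toNat (l 3 2).toNat (l 5 0).toNat (l 5 2).toNat (l 0 2).toNat = _
  rw [hs 3 0, hs 3 2, hs 5 0, hs 5 2]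

theorem ln7 : n4 l (fr8 7) 0 = h4 (l 1 3).toNat (l 1 5).toNat (l 0 1).toNat (l 1 2).toNat := by
  change h4 (l 1 3).toNat (l 1 5).toNat (l 1 0).toNat (l 1 2).toNat = _
  rw [hs 1 0]

theorem ly7 : n4 l (fr8 7) 1 = h4 (l 3 4).toNat (l 4 5).toNat (l 0 4).toNat (l 2 4).toNat := by
  change h4 (l 4 3).toNat (l 4 5).toNat (l 4 0).toNat (l 4 2).toNat = _
  rw [hs 4 3, hs 4 0, hs 4 2]

theorem lw8 : w6 l (fr8 8) = h6 (l 2 4).toNat (l 0 2).toNat (l 2 3).toNat (l 0 4).toNat (l 3 4).toNat (l 0 3).toNat := by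
  change h6 (l 2 4).toNat (l 2 0).toNat (l 2 3).toNat (l 4 0).toNat (l 4 3).toNat (l 0 3).toNat = _
  rw [hs 2 0, hs 4 0, hs 4 3]

theorem ln8 : n4 l (fr8 8) 0 = h4 (l 1 2).toNat (l 1 4).toNat (l 0 1).toNat (l 1 3).toNat := by
  change h4 (l 1 2).toNat (l 1 4).toNat (l 1 0).toNat (l 1 3).toNat = _
  rw [hs 1 0]

theorem ly8 : n4 l (fr8 8) 1 = h4 (l 2 5).toNat (l 4 5).toNat (l 0 5).toNat (l 3 5).toNat := by
  change h4 (l 5 2).toNat (l 5 4).toNat (l 5 0).toNat (l 5 3).toNat = _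
  rw [hs 5 2, hs 5 4, hs 5 0, hs 5 3]

theorem lw9 : w6 l (fr8 9) = h6 (l 4 5).toNat (l 0 4).toNat (l 1 4).toNat (l 0 5).toNat (l 1 5).toNat (l 0 1).toNat := by
  change h6 (l 4 5).toNat (l 4 0).toNat (l 4 1).toNat (l 5 0).toNat (l 5 1).toNat (l 0 1).toNat = _
  rw [hs 4 0, hs 4 1, hs 5 0, hs 5 1]

theorem ln9 : n4 l (fr8 9) 0 = h4 (l 2 4).toNat (l 2 5).toNat (l 0 2).toNat (l 1 2).toNat := by
  change h4 (l 2 4).toNat (l 2 5).toNat (l 2 0).toNat (l 2 1).toNat = _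
  rw [hs 2 0, hs 2 1]

theorem ly9 : n4 l (fr8 9) 1 = h4 (l 3 4).toNat (l 3 5).toNat (l 0 3).toNat (l 1 3).toNat := by
  change h4 (l 3 4).toNat (l 3 5).toNat (l 3 0).toNat (l 3 1).toNat = _
  rw [hs 3 0, hs 3 1]

theorem lw10 : w6 l (fr8 10) = h6 (l 0 3).toNat (l 0 1).toNat (l 0 5).toNat (l 1 3).toNat (l 3 5).toNat (l 1 5).toNat := by
  change h6 (l 0 3).toNat (l 0 1).toNat (l 0 5).toNat (l 3 1).toNat (l 3 5).toNat (l 1 5).toNat = _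
  rw [hs 3 1]

theorem ln10 : n4 l (fr8 10) 0 = h4 (l 0 2).toNat (l 2 3).toNat (l 1 2).toNat (l 2 5).toNat := by
  change h4 (l 2 0).toNat (l 2 3).toNat (l 2 1).toNat (l 2 5).toNat = _
  rw [hs 2 0, hs 2 1]

theorem ly10 : n4 l (fr8 10) 1 = h4 (l 0 4).toNat (l 3 4).toNat (l 1 4).toNat (l 4 5).toNat := by
  change h4 (l 4 0).toNat (l 4 3).toNat (l 4 1).toNat (l 4 5).toNat = _
  rw [hs 4 0, hs 4 3, hs 4 1]

theorem lw11 : w6 l (fr8 11) = h6 (l 1 3).toNat (l 0 1).toNat (l 1 4).toNat (l 0 3).toNat (l 3 4).toNat (l 0 4).toNat := by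
  change h6 (l 1 3).toNat (l 1 0).toNat (l 1 4).toNat (l 3 0).toNat (l 3 4).toNat (l 0 4).toNat = _
  rw [hs 1 0, hs 3 0]

theorem ln11 : n4 l (fr8 11) 0 = h4 (l 1 2).toNat (l 2 3).toNat (l 0 2).toNat (l 2 4).toNat := by
  change h4 (l 2 1).toNat (l 2 3).toNat (l 2 0).toNat (l 2 4).toNat = _
  rw [hs 2 1, hs 2 0]

theorem ly11 : n4 l (fr8 11) 1 = h4 (l 1 5).toNat (l 3 5).toNat (l 0 5).toNat (l 4 5).toNat := by
  change h4 (l 5 1).toNat (l 5 3).toNat (l 5 0).toNat (l 5 4).toNat = _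
  rw [hs 5 1, hs 5 3, hs 5 0, hs 5 4]

theorem lw12 : w6 l (fr8 12) = h6 (l 1 2).toNat (l 0 1).toNat (l 1 5).toNat (l 0 2).toNat (l 2 5).toNat (l 0 5).toNat := by
  change h6 (l 1 2).toNat (l 1 0).toNat (l 1 5).toNat (l 2 0).toNat (l 2 5).toNat (l 0 5).toNat = _
  rw [hs 1 0, hs 2 0]

theorem ln12 : n4 l (fr8 12) 0 = h4 (l 1 3).toNat (l 2 3).toNat (l 0 3).toNat (l 3 5).toNat := by
  change h4 (l 3 1).toNat (l 3 2).toNat (l 3 0).toNat (l 3 5).toNat = _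
  rw [hs 3 1, hs 3 2, hs 3 0]

theorem ly12 : n4 l (fr8 12) 1 = h4 (l 1 4).toNat (l 2 4).toNat (l 0 4).toNat (l 4 5).toNat := by
  change h4 (l 4 1).toNat (l 4 2).toNat (l 4 0).toNat (l 4 5).toNat = _
  rw [hs 4 1, hs 4 2, hs 4 0]

theorem lw13 : w6 l (fr8 13) = h6 (l 0 2).toNat (l 0 1).toNat (l 0 4).toNat (l 1 2).toNat (l 2 4).toNat (l 1 4).toNat := by
  change h6 (l 0 2).toNat (l 0 1).toNat (l 0 4).toNat (l 2 1).toNat (l 2 4).toNat (l 1 4).toNat = _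
  rw [hs 2 1]

theorem ln13 : n4 l (fr8 13) 0 = h4 (l 0 3).toNat (l 2 3).toNat (l 1 3).toNat (l 3 4).toNat := by
  change h4 (l 3 0).toNat (l 3 2).toNat (l 3 1).toNat (l 3 4).toNat = _
  rw [hs 3 0, hs 3 2, hs 3 1]

theorem ly13 : n4 l (fr8 13) 1 = h4 (l 0 5).toNat (l 2 5).toNat (l 1 5).toNat (l 4 5).toNat := by
  change h4 (l 5 0).toNat (l 5 2).toNat (l 5 1).toNat (l 5 4).toNat = _
  rw [hs 5 0, hs 5 2, hs 5 1, hs 5 4]

theorem lw14 : w6 l (fr8 14) = h6 (l 0 1).toNat (l 0 2).toNat (l 0 3).toNat (l 1 2).toNat (l 1 3).toNat (l 2 3).toNat := by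
  rfl

theorem ln14 : n4 l (fr8 14) 0 = h4 (l 0 4).toNat (l 1 4).toNat (l 2 4).toNat (l 3 4).toNat := by
  change h4 (l 4 0).toNat (l 4 1).toNat (l 4 2).toNat (l 4 3).toNat = _
  rw [hs 4 0, hs 4 1, hs 4 2, hs 4 3]

theorem ly14 : n4 l (fr8 14) 1 = h4 (l 0 5).toNat (l 1 5).toNat (l 2 5).toNat (l 3 5).toNat := by
  change h4 (l 5 0).toNat (l 5 1).toNat (l 5 2).toNat (l 5 3).toNat = _
  rw [hs 5 0, hs 5 1, hs 5 2, hs 5 3]

end link

end K4m
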