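import Mathlib
import Pool.Agent.Lib.MP_392c14_co.Z8e
import Pool.Agent.Lib.MP_392c14_co.Purity

/-!
# Local analysis, eight points, part F: the elimination inequality (partly generated)
-/

set_option autoImplicit false

namespace K4m

open Finset Function

theorem bit_inj {b d : Bool} {r c : ℕ}
    (h : Nat.add b.toNat (Nat.mul 2 r) = Nat.add d.toNat (Nat.mul 2 c)) : b = d ∧ r = c := by
  have h' : b.toNat + 2 * r = d.toNat + 2 * c := h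
  cases b <;> cases d <;> simp at h' <;> first | exact ⟨rfl, by omega⟩ | omega

theorem sg8_inj {a01 a02 a12 a03 a13 a23 a04 a14 a24 a34 a05 a15 a25 a35 a45 c01 c02 c12 c03 c13 c23 c04 c14 c24 c34 c05 c15 c25 c35 c45 : Bool}
    (h : sg8 a01.toNat a02.toNat a12.toNat a03.toNat a13.toNat a23.toNat a04.toNat a14.toNat a24.toNat a34.toNat a05.toNat a15.toNat a25.toNat a35.toNat a45.toNat =
      sg8 c01.toNat c02.toNat c12.toNat c03.toNat c13.toNat c23.toNat c04.toNat c14.toNat c24.toNat c34.toNat c05.toNat c15.toNat c25.toNat c35.toNat c45.toNat) :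
    a01 = c01 ∧ a02 = c02 ∧ a03 = c03 ∧ a04 = c04 ∧ a05 = c05 ∧ a12 = c12 ∧ a13 = c13 ∧ a14 = c14 ∧ a15 = c15 ∧ a23 = c23 ∧ a24 = c24 ∧ a25 = c25 ∧ a34 = c34 ∧ a35 = c35 ∧ a45 = c45 := by
  unfold sg8 at h
  obtain ⟨h01, h⟩ := bit_inj h
  obtain ⟨h02, h⟩ := bit_inj h
  obtain ⟨h03, h⟩ := bit_inj h
  obtain ⟨h04, h⟩ := bit_inj h
  obtain ⟨h05, h⟩ := bit_inj h
  obtain ⟨h12, h⟩ := bit_inj h
  obtain ⟨h13, h⟩ := bit_inj h
  obtain ⟨h14, h⟩ := bit_inj h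
  obtain ⟨h15, h⟩ := bit_inj h
  obtain ⟨h23, h⟩ := bit_inj h
  obtain ⟨h24, h⟩ := bit_inj h
  obtain ⟨h25, h⟩ := bit_inj h
  obtain ⟨h34, h⟩ := bit_inj h
  obtain ⟨h35, h⟩ := bit_inj h
  have h45 : a45 = c45 := by
    cases a45 <;> cases c45 <;> first | rfl | exact absurd h (by decide)
  exact ⟨h01, h02, h03, h04, h05, h12, h13, h14, h15, h23, h24, h25, h34, h35, h45⟩

theorem pTab_symm : ∀ k a b : Fin 6, pTab k a b = pTab k b a := by decide +kernel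

theorem pTab_diag : ∀ k a : Fin 6, pTab k a a = false := by decide +kernel

/-- codes of the pentagons -/
def pc8 : Fin 6 → ℕ := ![25696, 22534, 12553, 3217, 850, 684]

theorem pc8_eq : ∀ k : Fin 6, sg8 (pTab k 0 1).toNat (pTab k 0 2).toNat (pTab k 1 2).toNat (pTab k 0 3).toNat (pTab k 1 3).toNat (pTab k 2 3).toNat (pTab k 0 4).toNat (pTab k 1 4).toNat (pTab k 2 4).toNat (pTab k 3 4).toNat (pTab k 0 5).toNat (pTab k 1 5).toNat (pTab k 2 5).toNat (pTab k 3 5).toNat (pTab k 4 5).toNat = pc8 k := by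
  decide +kernel

theorem np8_zero {g : ℕ} (h : np8 g ≠ 1) : ∃ k : Fin 6, g = pc8 k := by
  unfold np8 at h
  by_cases h0 : Nat.beq g 25696 = true
  · exact ⟨0, Nat.eq_of_beq_eq_true h0⟩
  by_cases h1 : Nat.beq g 22534 = true
  · exact ⟨1, Nat.eq_of_beq_eq_true h1⟩
  by_cases h2 : Nat.beq g 12553 = true
  · exact ⟨2, Nat.eq_of_beq_eq_true h2⟩
  by_cases h3 : Nat.beq g 3217 = true
  · exact ⟨3, Nat.eq_of_beq_eq_true h3⟩
  by_cases h4 : Nat.beq g 850 = true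
  · exact ⟨4, Nat.eq_of_beq_eq_true h4⟩
  by_cases h5 : Nat.beq g 684 = true
  · exact ⟨5, Nat.eq_of_beq_eq_true h5⟩
  rw [Bool.not_eq_true] at h0 h1 h2 h3 h4 h5
  rw [h0, h1, h2, h3, h4, h5] at h
  exact absurd rfl h

section Z8f

variable {V : Type}

/-- number of pairs of a transversal -/
noncomputable def DD (L : V → V → Bool) (z : Fin 6 → V) : ℝ :=
  lk L (z 0) (z 1) + lk L (z 0) (z 2) + lk L (z 0) (z 3) + lk L (z 0) (z 4) + lk L (z 0) (z 5) + lk L (z 1) (z 2) + lk L (z 1) (z 3) + lk L (z 1) (z 4) + lk L (z 1) (z 5) + lk L (z 2) (z 3) + lk L (z 2) (z 4) + lk L (z 2) (z 5) + lk L (z 3) (z 4) + lk L (z 3) (z 5) + lk L (z 4) (z 5)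

/-- indicator of two pairs of a triple -/
noncomputable def bt (L : V → V → Bool) (x y t : V) : ℝ :=
  if 2 ≤ (L x y).toNat + ((L x t).toNat + (L y t).toNat) then 1 else 0

/-- number of blocks of a transversal with two pairs -/
noncomputable def BB (L : V → V → Bool) (z : Fin 6 → V) : ℝ :=
  bt L (z 0) (z 1) (z 2) + bt L (z 0) (z 1) (z 3) + bt L (z 0) (z 2) (z 4) + bt L (z 0) (z 3) (z 5) + bt L (z 0) (z 4) (z 5) + bt L (z 1) (z 2) (z 5) + bt L (z 1) (z 3) (z 4) + bt L (z 1) (z 4) (z 5) + bt L (z 2) (z 3) (z 4) + bt L (z 2) (z 3) (z 5)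

/-- sum of the own multipliers of the class `0` -/
noncomputable def SK0 (tH tG : ℕ) (L : V → V → Bool) (z : Fin 6 → V) : ℝ :=
  zH8 tH (fr8 0) L z + zH8 tH (fr8 1) L z + zH8 tH (fr8 2) L z + zH8 tH (fr8 3) L z + zH8 tH (fr8 4) L z

/-- sum of the own multipliers of the class `1` -/
noncomputable def SK1 (tH tG : ℕ) (L : V → V → Bool) (z : Fin 6 → V) : ℝ :=
  zG8 tG (fr8 0) L z + zH8 tH (fr8 5) L z + zH8 tH (fr8 6) L z + zH8 tH (fr8 7) L z + zH8 tH (fr8 8) L z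

/-- sum of the own multipliers of the class `2` -/
noncomputable def SK2 (tH tG : ℕ) (L : V → V → Bool) (z : Fin 6 → V) : ℝ :=
  zG8 tG (fr8 1) L z + zG8 tG (fr8 5) L z + zH8 tH (fr8 9) L z + zH8 tH (fr8 10) L z + zH8 tH (fr8 11) L z

/-- sum of the own multipliers of the class `3` -/
noncomputable def SK3 (tH tG : ℕ) (L : V → V → Bool) (z : Fin 6 → V) : ℝ :=
  zG8 tG (fr8 2) L z + zG8 tG (fr8 6) L z + zG8 tG (fr8 9) L z + zH8 tH (fr8 12) L z + zH8 tH (fr8 13) L z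

/-- sum of the own multipliers of the class `4` -/
noncomputable def SK4 (tH tG : ℕ) (L : V → V → Bool) (z : Fin 6 → V) : ℝ :=
  zG8 tG (fr8 3) L z + zG8 tG (fr8 7) L z + zG8 tG (fr8 10) L z + zG8 tG (fr8 12) L z + zH8 tH (fr8 14) L z

/-- sum of the own multipliers of the class `5` -/
noncomputable def SK5 (tH tG : ℕ) (L : V → V → Bool) (z : Fin 6 → V) : ℝ :=
  zG8 tG (fr8 4) L z + zG8 tG (fr8 8) L z + zG8 tG (fr8 11) L z + zG8 tG (fr8 13) L z + zG8 tG (fr8 14) L z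

/-- sum of the functions of two classes -/
noncomputable def SX8 (tX : ℕ) (L : V → V → Bool) (z : Fin 6 → V) : ℝ :=
  zX8 tX (fr8 0) L z + zX8 tX (fr8 1) L z + zX8 tX (fr8 2) L z + zX8 tX (fr8 3) L z + zX8 tX (fr8 4) L z + zX8 tX (fr8 5) L z + zX8 tX (fr8 6) L z + zX8 tX (fr8 7) L z + zX8 tX (fr8 8) L z + zX8 tX (fr8 9) L z + zX8 tX (fr8 10) L z + zX8 tX (fr8 11) L z + zX8 tX (fr8 12) L z + zX8 tX (fr8 13) L z + zX8 tX (fr8 14) L z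

variable {L : V → V → Bool} (hs : ∀ x y, L x y = L y x) (z : Fin 6 → V)
include hs

theorem sk0_eq (tH tG : ℕ) : (sk0 tH tG (lz L z 0 1).toNat (lz L z 0 2).toNat (lz L z 1 2).toNat (lz L z 0 3).toNat (lz L z 1 3).toNat (lz L z 2 3).toNat (lz L z 0 4).toNat (lz L z 1 4).toNat (lz L z 2 4).toNat (lz L z 3 4).toNat (lz L z 0 5).toNat (lz L z 1 5).toNat (lz L z 2 5).toNat (lz L z 3 5).toNat (lz L z 4 5).toNat : ℝ) =
    SK0 tH tG L z := by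
  have hz : ∀ i j, lz L z i j = lz L z j i := fun i j => hs _ _
  unfold SK0 zH8 sk0
  rw [lw0 hz, ly0 hz, lw1 hz, ly1 hz, lw2 hz, ly2 hz, lw3 hz, ly3 hz, lw4 hz, ly4 hz]
  simp only [Nat.add_eq, Nat.cast_add]
  ring

theorem sk1_eq (tH tG : ℕ) : (sk1 tH tG (lz L z 0 1).toNat (lz L z 0 2).toNat (lz L z 1 2).toNat (lz L z 0 3).toNat (lz L z 1 3).toNat (lz L z 2 3).toNat (lz L z 0 4).toNat (lz L z 1 4).toNat (lz L z 2 4).toNat (lz L z 3 4).toNat (lz L z 0 5).toNat (lz L z 1 5).toNat (lz L z 2 5).toNat (lz L z 3 5).toNat (lz L z 4 5).toNat : ℝ) =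
    SK1 tH tG L z := by
  have hz : ∀ i j, lz L z i j = lz L z j i := fun i j => hs _ _
  unfold SK1 zH8 zG8 sk1
  rw [lw0 hz, ln0 hz, lw5 hz, ly5 hz, lw6 hz, ly6 hz, lw7 hz, ly7 hz, lw8 hz, ly8 hz]
  simp only [Nat.add_eq, Nat.cast_add]
  ring

theorem sk2_eq (tH tG : ℕ) : (sk2 tH tG (lz L z 0 1).toNat (lz L z 0 2).toNat (lz L z 1 2).toNat (lz L z 0 3).toNat (lz L z 1 3).toNat (lz L z 2 3).toNat (lz L z 0 4).toNat (lz L z 1 4).toNat (lz L z 2 4).toNat (lz L z 3 4).toNat (lz L z 0 5).toNat (lz L z 1 5).toNat (lz L z 2 5).toNat (lz L z 3 5).toNat (lz L z 4 5).toNat : ℝ) =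
    SK2 tH tG L z := by
  have hz : ∀ i j, lz L z i j = lz L z j i := fun i j => hs _ _
  unfold SK2 zH8 zG8 sk2
  rw [lw1 hz, ln1 hz, lw5 hz, ln5 hz, lw9 hz, ly9 hz, lw10 hz, ly10 hz, lw11 hz, ly11 hz]
  simp only [Nat.add_eq, Nat.cast_add]
  ring

theorem sk3_eq (tH tG : ℕ) : (sk3 tH tG (lz L z 0 1).toNat (lz L z 0 2).toNat (lz L z 1 2).toNat (lz L z 0 3).toNat (lz L z 1 3).toNat (lz L z 2 3).toNat (lz L z 0 4).toNat (lz L z 1 4).toNat (lz L z 2 4).toNat (lz L z 3 4).toNat (lz L z 0 5).toNat (lz L z 1 5).toNat (lz L z 2 5).toNat (lz L z 3 5).toNat (lz L z 4 5).toNat : ℝ) =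
    SK3 tH tG L z := by
  have hz : ∀ i j, lz L z i j = lz L z j i := fun i j => hs _ _
  unfold SK3 zH8 zG8 sk3
  rw [lw2 hz, ln2 hz, lw6 hz, ln6 hz, lw9 hz, ln9 hz, lw12 hz, ly12 hz, lw13 hz, ly13 hz]
  simp only [Nat.add_eq, Nat.cast_add]
  ring

theorem sk4_eq (tH tG : ℕ) : (sk4 tH tG (lz L z 0 1).toNat (lz L z 0 2).toNat (lz L z 1 2).toNat (lz L z 0 3).toNat (lz L z 1 3).toNat (lz L z 2 3).toNat (lz L z 0 4).toNat (lz L z 1 4).toNat (lz L z 2 4).toNat (lz L z 3 4).toNat (lz L z 0 5).toNat (lz L z 1 5).toNat (lz L z 2 5).toNat (lz L z 3 5).toNat (lz L z 4 5).toNat : ℝ) =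
    SK4 tH tG L z := by
  have hz : ∀ i j, lz L z i j = lz L z j i := fun i j => hs _ _
  unfold SK4 zH8 zG8 sk4
  rw [lw3 hz, ln3 hz, lw7 hz, ln7 hz, lw10 hz, ln10 hz, lw12 hz, ln12 hz, lw14 hz, ly14 hz]
  simp only [Nat.add_eq, Nat.cast_add]
  ring

theorem sk5_eq (tH tG : ℕ) : (sk5 tH tG (lz L z 0 1).toNat (lz L z 0 2).toNat (lz L z 1 2).toNat (lz L z 0 3).toNat (lz L z 1 3).toNat (lz L z 2 3).toNat (lz L z 0 4).toNat (lz L z 1 4).toNat (lz L z 2 4).toNat (lz L z 3 4).toNat (lz L z 0 5).toNat (lz L z 1 5).toNat (lz L z 2 5).toNat (lz L z 3 5).toNat (lz L z 4 5).toNat : ℝ) =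
    SK5 tH tG L z := by
  have hz : ∀ i j, lz L z i j = lz L z j i := fun i j => hs _ _
  unfold SK5 zG8 sk5
  rw [lw4 hz, ln4 hz, lw8 hz, ln8 hz, lw11 hz, ln11 hz, lw13 hz, ln13 hz, lw14 hz, ln14 hz]
  simp only [Nat.add_eq, Nat.cast_add]
  ring

theorem sx8_eq (tX : ℕ) : (sx8 tX (lz L z 0 1).toNat (lz L z 0 2).toNat (lz L z 1 2).toNat (lz L z 0 3).toNat (lz L z 1 3).toNat (lz L z 2 3).toNat (lz L z 0 4).toNat (lz L z 1 4).toNat (lz L z 2 4).toNat (lz L z 3 4).toNat (lz L z 0 5).toNat (lz L z 1 5).toNat (lz L z 2 5).toNat (lz L z 3 5).toNat (lz L z 4 5).toNat : ℝ) =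
    SX8 tX L z := by
  have hz : ∀ i j, lz L z i j = lz L z j i := fun i j => hs _ _
  unfold SX8 zX8 sx8
  rw [lw0 hz, ln0 hz, ly0 hz, lw1 hz, ln1 hz, ly1 hz, lw2 hz, ln2 hz, ly2 hz, lw3 hz, ln3 hz, ly3 hz, lw4 hz, ln4 hz, ly4 hz, lw5 hz, ln5 hz, ly5 hz, lw6 hz, ln6 hz, ly6 hz, lw7 hz, ln7 hz, ly7 hz, lw8 hz, ln8 hz, ly8 hz, lw9 hz, ln9 hz, ly9 hz, lw10 hz, ln10 hz, ly10 hz, lw11 hz, ln11 hz, ly11 hz, lw12 hz, ln12 hz, ly12 hz, lw13 hz, ln13 hz, ly13 hz, lw14 hz, ln14 hz, ly14 hz]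
  simp only [Nat.add_eq, Nat.cast_add]
  have e : (fr8 0 0 = 0 ∧ fr8 0 1 = 1) ∧ (fr8 1 0 = 0 ∧ fr8 1 1 = 2) ∧ (fr8 2 0 = 0 ∧ fr8 2 1 = 3) ∧ (fr8 3 0 = 0 ∧ fr8 3 1 = 4) ∧ (fr8 4 0 = 0 ∧ fr8 4 1 = 5) ∧ (fr8 5 0 = 1 ∧ fr8 5 1 = 2) ∧ (fr8 6 0 = 1 ∧ fr8 6 1 = 3) ∧ (fr8 7 0 = 1 ∧ fr8 7 1 = 4) ∧ (fr8 8 0 = 1 ∧ fr8 8 1 = 5) ∧ (fr8 9 0 = 2 ∧ fr8 9 1 = 3) ∧ (fr8 10 0 = 2 ∧ fr8 10 1 = 4) ∧ (fr8 11 0 = 2 ∧ fr8 11 1 = 5) ∧ (fr8 12 0 = 3 ∧ fr8 12 1 = 4) ∧ (fr8 13 0 = 3 ∧ fr8 13 1 = 5) ∧ (fr8 14 0 = 4 ∧ fr8 14 1 = 5) := ⟨⟨rfl, rfl⟩, ⟨rfl, rfl⟩, ⟨rfl, rfl⟩, ⟨rfl, rfl⟩, ⟨rfl, rfl⟩, ⟨rfl, rfl⟩, ⟨rfl, rfl⟩, ⟨rfl, rfl⟩, ⟨rfl, rfl⟩, ⟨rfl, rfl⟩, ⟨rfl, rfl⟩, ⟨rfl, rfl⟩, ⟨rfl, rfl⟩, ⟨rfl, rfl⟩, ⟨rfl, rfl⟩⟩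
  simp only [e]
  ring

omit hs in
theorem sd8_eq : (sd8 (lz L z 0 1).toNat (lz L z 0 2).toNat (lz L z 1 2).toNat (lz L z 0 3).toNat (lz L z 1 3).toNat (lz L z 2 3).toNat (lz L z 0 4).toNat (lz L z 1 4).toNat (lz L z 2 4).toNat (lz L z 3 4).toNat (lz L z 0 5).toNat (lz L z 1 5).toNat (lz L z 2 5).toNat (lz L z 3 5).toNat (lz L z 4 5).toNat : ℝ) = DD L z := by
  have e : ∀ a b : Fin 6, ((lz L z a b).toNat : ℝ) = lk L (z a) (z b) := by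
    intro a b
    unfold lk lz
    cases L (z a) (z b) <;> simp
  unfold sd8 DD
  simp only [Nat.add_eq, Nat.cast_add, e]
  ring

omit hs in
theorem sb8_eq : (sb8 (lz L z 0 1).toNat (lz L z 0 2).toNat (lz L z 1 2).toNat (lz L z 0 3).toNat (lz L z 1 3).toNat (lz L z 2 3).toNat (lz L z 0 4).toNat (lz L z 1 4).toNat (lz L z 2 4).toNat (lz L z 3 4).toNat (lz L z 0 5).toNat (lz L z 1 5).toNat (lz L z 2 5).toNat (lz L z 3 5).toNat (lz L z 4 5).toNat : ℝ) = BB L z := by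
  have e : ∀ a b c : Fin 6, (bl2 (Nat.add (lz L z a b).toNat (Nat.add (lz L z a c).toNat
      (lz L z b c).toNat)) : ℝ) = bt L (z a) (z b) (z c) := by
    intro a b c
    unfold bt lz bl2
    cases L (z a) (z b) <;> cases L (z a) (z c) <;> cases L (z b) (z c) <;> simp (decide := true)
  unfold sb8 BB
  simp only [Nat.add_eq, Nat.cast_add] at e ⊢
  simp only [e]
  ring

theorem pent_of_code {k : Fin 6} (hT : ∀ x y t, ¬ (L x y = true ∧ L x t = true ∧ L y t = true))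
    (h : sg8 (lz L z 0 1).toNat (lz L z 0 2).toNat (lz L z 1 2).toNat (lz L z 0 3).toNat (lz L z 1 3).toNat (lz L z 2 3).toNat (lz L z 0 4).toNat (lz L z 1 4).toNat (lz L z 2 4).toNat (lz L z 3 4).toNat (lz L z 0 5).toNat (lz L z 1 5).toNat (lz L z 2 5).toNat (lz L z 3 5).toNat (lz L z 4 5).toNat = pc8 k) : ∀ a b : Fin 6, L (z a) (z b) = pTab k a b := by
  rw [← pc8_eq k] at h
  obtain ⟨g01, g02, g03, g04, g05, g12, g13, g14, g15, g23, g24, g25, g34, g35, g45⟩ := sg8_inj h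
  have key : ∀ a b : Fin 6, a < b → lz L z a b = pTab k a b := by
    intro a b hab
    fin_cases a <;> fin_cases b <;> first
      | exact absurd hab (by decide)
      | exact g01 | exact g02 | exact g03 | exact g04 | exact g05 | exact g12 | exact g13 | exact g14 | exact g15 | exact g23 | exact g24 | exact g25 | exact g34 | exact g35 | exact g45
  intro a b
  rcases lt_trichotomy a b with hab | hab | hab
  · exact key a b hab
  · subst hab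
    rw [pTab_diag]
    cases h1 : L (z a) (z a)
    · rfl
    · exact absurd ⟨h1, h1, h1⟩ (hT (z a) (z a) (z a))
  · rw [pTab_symm, hs]
    exact key b a hab

theorem code_of_pent {k : Fin 6} (h : ∀ a b : Fin 6, L (z a) (z b) = pTab k a b) :
    sg8 (lz L z 0 1).toNat (lz L z 0 2).toNat (lz L z 1 2).toNat (lz L z 0 3).toNat (lz L z 1 3).toNat (lz L z 2 3).toNat (lz L z 0 4).toNat (lz L z 1 4).toNat (lz L z 2 4).toNat (lz L z 3 4).toNat (lz L z 0 5).toNat (lz L z 1 5).toNat (lz L z 2 5).toNat (lz L z 3 5).toNat (lz L z 4 5).toNat = pc8 k := by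
  rw [← pc8_eq k]
  unfold lz
  simp only [h]

end Z8f

end K4m
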