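import Pool.Agent.Lib.MP_392c14_co.Purity

/-!
# Improvements of the purity lemma

With the notation of `Purity`: `∑ p j log (1 / p j) ≤ 2 (1 - ∑ p j)` (tensorisation of the
entropy), `√(p k) + √(p l) ≤ 1` for different `k` and `l`, and numerical consequences.
-/

set_option autoImplicit false

namespace K4m

open Finset

/-! ### tensorisation of the entropy -/

section Ent

variable {V : Type} [Fintype V] (μ : Fin 6 → V → ℝ)

theorem pav_pos (h0 : ∀ i v, 0 ≤ μ i v) (h1 : ∀ i, ∑ v, μ i v = 1) (i : Fin 6)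
    {f : (Fin 6 → V) → ℝ} (hf : ∀ z, 0 < f z) (z : Fin 6 → V) : 0 < pav μ i f z := by
  have hex : ∃ v, 0 < μ i v := by
    by_contra hcon
    push Not at hcon
    have : ∑ v, μ i v = 0 := sum_eq_zero fun v _ => le_antisymm (hcon v) (h0 i v)
    rw [h1 i] at this
    exact one_ne_zero this
  obtain ⟨v, hv⟩ := hex
  unfold pav
  exact sum_pos' (fun u _ => mul_nonneg (h0 i u) (hf _).le) ⟨v, mem_univ v, mul_pos hv (hf _)⟩

/-- the log-sum inequality -/
theorem log_sum {w x y : V → ℝ} (hw : ∀ v, 0 ≤ w v) (hx : ∀ v, 0 < x v) (hy : ∀ v, 0 < y v)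
    (hX : 0 < ∑ v, w v * x v) (hY : 0 < ∑ v, w v * y v) :
    (∑ v, w v * x v) * (Real.log (∑ v, w v * x v) - Real.log (∑ v, w v * y v)) ≤
      ∑ v, w v * (x v * (Real.log (x v) - Real.log (y v))) := by
  set X := ∑ v, w v * x v with hXd
  set Y := ∑ v, w v * y v with hYd
  have key : ∀ v, x v * (Real.log X - Real.log Y) + x v - y v * (X / Y) ≤
      x v * (Real.log (x v) - Real.log (y v)) := by
    intro v
    have hxv := hx v
    have hyv := hy v
    have ht : 0 < x v * Y / (y v * X) := by positivity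
    have h := Real.one_sub_inv_le_log_of_pos ht
    rw [Real.log_div (by positivity) (by positivity), Real.log_mul hxv.ne' hY.ne',
      Real.log_mul hyv.ne' hX.ne', inv_div] at h
    have h2 := mul_le_mul_of_nonneg_left h hxv.le
    have e : x v * (1 - y v * X / (x v * Y)) = x v - y v * (X / Y) := by
      field_simp
    rw [e] at h2
    nlinarith [h2]
  have h3 : ∑ v, w v * (x v * (Real.log X - Real.log Y) + x v - y v * (X / Y)) ≤
      ∑ v, w v * (x v * (Real.log (x v) - Real.log (y v))) :=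
    sum_le_sum fun v _ => mul_le_mul_of_nonneg_left (key v) (hw v)
  have e2 : ∑ v, w v * (x v * (Real.log X - Real.log Y) + x v - y v * (X / Y)) =
      X * (Real.log X - Real.log Y) + X - Y * (X / Y) := by
    rw [hXd, hYd, sum_mul, sum_mul, ← sum_add_distrib, ← sum_sub_distrib]
    exact sum_congr rfl fun v _ => by ring
  have e3 : Y * (X / Y) = X := by field_simp
  rw [e2, e3] at h3
  linarith

/-- the entropy in the direction `i` -/
noncomputable def en (i : Fin 6) (f : (Fin 6 → V) → ℝ) : ℝ :=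
  PE μ (fun z => f z * Real.log (f z)) - PE μ (fun z => pav μ i f z * Real.log (pav μ i f z))

theorem en_eq (h1 : ∀ i, ∑ v, μ i v = 1) (i : Fin 6) (f : (Fin 6 → V) → ℝ) :
    en μ i f = PE μ (fun z => f z * (Real.log (f z) - Real.log (pav μ i f z))) := by
  have e1 : PE μ (fun z => pav μ i f z * Real.log (pav μ i f z)) =
      PE μ (fun z => Real.log (pav μ i f z) * f z) := by
    rw [← PE_mul_pav μ h1 i f (fun z => Real.log (pav μ i f z))
      (fun z u => by rw [pav_update])]
    congr 1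
    funext z
    ring
  unfold en
  rw [e1, ← PE_sub]
  congr 1
  funext z
  ring

/-- averaging in another direction decreases the entropy in the direction `i` -/
theorem en_pav_le (h0 : ∀ i v, 0 ≤ μ i v) (h1 : ∀ i, ∑ v, μ i v = 1) {i j : Fin 6}
    (hij : i ≠ j) {f : (Fin 6 → V) → ℝ} (hf : ∀ z, 0 < f z) :
    en μ i (pav μ j f) ≤ en μ i f := by
  rw [en_eq μ h1, en_eq μ h1,
    ← PE_pav μ h1 j (fun z => f z * (Real.log (f z) - Real.log (pav μ i f z)))]
  refine PE_mono μ h0 fun z => ?_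
  rw [pav_comm μ hij]
  have hp := pav_pos μ h0 h1 i hf
  exact log_sum (hw := h0 j) (hx := fun v => hf (Function.update z j v))
    (hy := fun v => hp (Function.update z j v)) (pav_pos μ h0 h1 j hf z)
    (pav_pos μ h0 h1 j hp z)

theorem ent_tensor_pos (h0 : ∀ i v, 0 ≤ μ i v) (h1 : ∀ i, ∑ v, μ i v = 1)
    {f : (Fin 6 → V) → ℝ} (hf : ∀ z, 0 < f z) :
    PE μ (fun z => f z * Real.log (f z)) - PE μ f * Real.log (PE μ f) ≤ ∑ i, en μ i f := by
  set f1 := pav μ 0 f with hf1
  set f2 := pav μ 1 f1 with hf2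
  set f3 := pav μ 2 f2 with hf3
  set f4 := pav μ 3 f3 with hf4
  set f5 := pav μ 4 f4 with hf5
  set f6 := pav μ 5 f5 with hf6
  have p1 : ∀ z, 0 < f1 z := pav_pos μ h0 h1 0 hf
  have p2 : ∀ z, 0 < f2 z := pav_pos μ h0 h1 1 p1
  have p3 : ∀ z, 0 < f3 z := pav_pos μ h0 h1 2 p2
  have p4 : ∀ z, 0 < f4 z := pav_pos μ h0 h1 3 p3
  have p5 : ∀ z, 0 < f5 z := pav_pos μ h0 h1 4 p4
  have u1 : ∀ z u, f1 (Function.update z 0 u) = f1 z := pav_update μ 0 f
  have u2 : ∀ z u, f2 (Function.update z 0 u) = f2 z := pav_update_ne μ (by decide) u1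
  have u3 : ∀ z u, f3 (Function.update z 0 u) = f3 z := pav_update_ne μ (by decide) u2
  have u4 : ∀ z u, f4 (Function.update z 0 u) = f4 z := pav_update_ne μ (by decide) u3
  have u5 : ∀ z u, f5 (Function.update z 0 u) = f5 z := pav_update_ne μ (by decide) u4
  have u6 : ∀ z u, f6 (Function.update z 0 u) = f6 z := pav_update_ne μ (by decide) u5
  have v2 : ∀ z u, f2 (Function.update z 1 u) = f2 z := pav_update μ 1 f1
  have v3 : ∀ z u, f3 (Function.update z 1 u) = f3 z := pav_update_ne μ (by decide) v2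
  have v4 : ∀ z u, f4 (Function.update z 1 u) = f4 z := pav_update_ne μ (by decide) v3
  have v5 : ∀ z u, f5 (Function.update z 1 u) = f5 z := pav_update_ne μ (by decide) v4
  have v6 : ∀ z u, f6 (Function.update z 1 u) = f6 z := pav_update_ne μ (by decide) v5
  have w3 : ∀ z u, f3 (Function.update z 2 u) = f3 z := pav_update μ 2 f2
  have w4 : ∀ z u, f4 (Function.update z 2 u) = f4 z := pav_update_ne μ (by decide) w3
  have w5 : ∀ z u, f5 (Function.update z 2 u) = f5 z := pav_update_ne μ (by decide) w4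
  have w6 : ∀ z u, f6 (Function.update z 2 u) = f6 z := pav_update_ne μ (by decide) w5
  have x4 : ∀ z u, f4 (Function.update z 3 u) = f4 z := pav_update μ 3 f3
  have x5 : ∀ z u, f5 (Function.update z 3 u) = f5 z := pav_update_ne μ (by decide) x4
  have x6 : ∀ z u, f6 (Function.update z 3 u) = f6 z := pav_update_ne μ (by decide) x5
  have y5 : ∀ z u, f5 (Function.update z 4 u) = f5 z := pav_update μ 4 f4
  have y6 : ∀ z u, f6 (Function.update z 4 u) = f6 z := pav_update_ne μ (by decide) y5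
  have z6 : ∀ z u, f6 (Function.update z 5 u) = f6 z := pav_update μ 5 f5
  have hall : ∀ i z u, f6 (Function.update z i u) = f6 z := by
    intro i
    fin_cases i
    · exact u6
    · exact v6
    · exact w6
    · exact x6
    · exact y6
    · exact z6
  have hE : PE μ f6 = PE μ f := by
    rw [hf6, PE_pav μ h1, hf5, PE_pav μ h1, hf4, PE_pav μ h1, hf3, PE_pav μ h1, hf2,
      PE_pav μ h1, hf1, PE_pav μ h1]
  have hc : ∀ z, f6 z = PE μ f := by
    intro z
    rw [← hE]
    have h3 : PE μ f6 = PE μ (fun _ => f6 z) := by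
      congr 1
      funext y
      exact const_of_update hall y z
    rw [h3, PE_const μ h1]
  have hlast : PE μ (fun z => f6 z * Real.log (f6 z)) = PE μ f * Real.log (PE μ f) := by
    have h3 : (fun z => f6 z * Real.log (f6 z)) = fun _ => PE μ f * Real.log (PE μ f) := by
      funext z; rw [hc z]
    rw [h3, PE_const μ h1]
  have d0 : en μ 0 f = PE μ (fun z => f z * Real.log (f z)) -
      PE μ (fun z => f1 z * Real.log (f1 z)) := rfl
  have d1 : en μ 1 f1 = PE μ (fun z => f1 z * Real.log (f1 z)) -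
      PE μ (fun z => f2 z * Real.log (f2 z)) := rfl
  have d2 : en μ 2 f2 = PE μ (fun z => f2 z * Real.log (f2 z)) -
      PE μ (fun z => f3 z * Real.log (f3 z)) := rfl
  have d3 : en μ 3 f3 = PE μ (fun z => f3 z * Real.log (f3 z)) -
      PE μ (fun z => f4 z * Real.log (f4 z)) := rfl
  have d4 : en μ 4 f4 = PE μ (fun z => f4 z * Real.log (f4 z)) -
      PE μ (fun z => f5 z * Real.log (f5 z)) := rfl
  have d5 : en μ 5 f5 = PE μ (fun z => f5 z * Real.log (f5 z)) -
      PE μ (fun z => f6 z * Real.log (f6 z)) := rfl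
  have l1 : en μ 1 f1 ≤ en μ 1 f := en_pav_le μ h0 h1 (by decide) hf
  have l2 : en μ 2 f2 ≤ en μ 2 f :=
    (en_pav_le μ h0 h1 (by decide) p1).trans (en_pav_le μ h0 h1 (by decide) hf)
  have l3 : en μ 3 f3 ≤ en μ 3 f :=
    (en_pav_le μ h0 h1 (by decide) p2).trans ((en_pav_le μ h0 h1 (by decide) p1).trans
      (en_pav_le μ h0 h1 (by decide) hf))
  have l4 : en μ 4 f4 ≤ en μ 4 f :=
    (en_pav_le μ h0 h1 (by decide) p3).trans ((en_pav_le μ h0 h1 (by decide) p2).trans
      ((en_pav_le μ h0 h1 (by decide) p1).trans (en_pav_le μ h0 h1 (by decide) hf)))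
  have l5 : en μ 5 f5 ≤ en μ 5 f :=
    (en_pav_le μ h0 h1 (by decide) p4).trans ((en_pav_le μ h0 h1 (by decide) p3).trans
      ((en_pav_le μ h0 h1 (by decide) p2).trans ((en_pav_le μ h0 h1 (by decide) p1).trans
        (en_pav_le μ h0 h1 (by decide) hf))))
  rw [Fin.sum_univ_six]
  linarith

theorem pav_add_const (h1 : ∀ i, ∑ v, μ i v = 1) (i : Fin 6) (f : (Fin 6 → V) → ℝ) (a : ℝ)
    (z : Fin 6 → V) : pav μ i (fun y => f y + a) z = pav μ i f z + a := by
  unfold pav
  simp only [mul_add]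
  rw [sum_add_distrib, ← sum_mul, h1 i, one_mul]

/-- tensorisation of the entropy -/
theorem ent_tensor (h0 : ∀ i v, 0 ≤ μ i v) (h1 : ∀ i, ∑ v, μ i v = 1)
    {f : (Fin 6 → V) → ℝ} (hf : ∀ z, 0 ≤ f z) :
    PE μ (fun z => f z * Real.log (f z)) - PE μ f * Real.log (PE μ f) ≤ ∑ i, en μ i f := by
  set H : ℝ → ℝ := fun a => ∑ i, en μ i (fun z => f z + a) -
    (PE μ (fun z => (f z + a) * Real.log (f z + a)) -
      PE μ (fun z => f z + a) * Real.log (PE μ (fun z => f z + a))) with hH
  have hpos : ∀ a, 0 < a → 0 ≤ H a := by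
    intro a ha
    have := ent_tensor_pos μ h0 h1 (f := fun z => f z + a) (fun z => by have := hf z; linarith)
    rw [hH]
    exact sub_nonneg.2 this
  have hc1 : ∀ c : ℝ, Continuous fun a : ℝ => (c + a) * Real.log (c + a) := fun c =>
    Real.continuous_mul_log.comp (continuous_const.add continuous_id)
  have hH2 : H = fun a => ∑ i, (PE μ (fun z => (f z + a) * Real.log (f z + a)) -
      PE μ (fun z => (pav μ i f z + a) * Real.log (pav μ i f z + a))) -
    (PE μ (fun z => (f z + a) * Real.log (f z + a)) -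
      (PE μ f + a) * Real.log (PE μ f + a)) := by
    rw [hH]
    funext a
    have e1 : PE μ (fun z => f z + a) = PE μ f + a := by
      rw [PE_add, PE_const μ h1]
    rw [e1]
    unfold en
    simp only [pav_add_const μ h1]
  have hPE : ∀ g : (Fin 6 → V) → ℝ,
      Continuous fun a : ℝ => PE μ (fun z => (g z + a) * Real.log (g z + a)) := by
    intro g
    unfold PE
    exact continuous_finsetSum _ fun z _ => continuous_const.mul (hc1 (g z))
  have hcont : Continuous H := by
    rw [hH2]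
    exact (continuous_finsetSum _ fun i _ => (hPE f).sub (hPE (pav μ i f))).sub
      ((hPE f).sub (hc1 (PE μ f)))
  have h2 : 0 ≤ H 0 := by
    have ht : Filter.Tendsto H (nhdsWithin 0 (Set.Ioi 0)) (nhds (H 0)) :=
      (hcont.tendsto 0).mono_left nhdsWithin_le_nhds
    exact ge_of_tendsto ht (Filter.eventually_of_mem self_mem_nhdsWithin fun a ha => hpos a ha)
  rw [hH] at h2
  simp only [add_zero] at h2
  linarith

end Ent

/-! ### the entropy form of the purity lemma -/

section Pur2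

variable {V : Type} [Fintype V] (μ : Fin 6 → V → ℝ) (L : V → V → Bool)

theorem pInd_le_one (j : Fin 6) (z : Fin 6 → V) : pInd L j z ≤ 1 := by
  rcases pInd_cases L j z with ⟨-, h⟩ | ⟨-, h⟩ <;> rw [h]
  norm_num

theorem pav_nonneg (h0 : ∀ i v, 0 ≤ μ i v) (i : Fin 6) {f : (Fin 6 → V) → ℝ}
    (hf : ∀ z, 0 ≤ f z) (z : Fin 6 → V) : 0 ≤ pav μ i f z :=
  sum_nonneg fun v _ => mul_nonneg (h0 i v) (hf _)

open Classical in
/-- indicator of the event that the average of the pentagon indicator is positive -/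
noncomputable def pQ (i j : Fin 6) (z : Fin 6 → V) : ℝ :=
  if 0 < pav μ i (pInd L j) z then 1 else 0

theorem pQ_update (i j : Fin 6) (z : Fin 6 → V) (u : V) :
    pQ μ L i j (Function.update z i u) = pQ μ L i j z := by
  unfold pQ
  rw [pav_update]

theorem pQ_agree {i j : Fin 6} {z : Fin 6 → V} (h : 0 < pav μ i (pInd L j) z) :
    ∀ a b : Fin 6, a ≠ i → b ≠ i → L (z a) (z b) = pTab j a b := by
  by_contra hcon
  have : pav μ i (pInd L j) z = 0 := by
    unfold pav
    refine sum_eq_zero fun v _ => ?_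
    rw [pInd_zero, mul_zero]
    intro hj
    refine hcon fun a b ha hb => ?_
    rw [← hj a b, Function.update_of_ne ha, Function.update_of_ne hb]
  rw [this] at h
  exact lt_irrefl 0 h

/-- the pointwise inequality -/
theorem pur_point2 (hs : ∀ x y, L x y = L y x)
    (ht : ∀ x y t, ¬ (L x y = true ∧ L y t = true ∧ L x t = true)) (z : Fin 6 → V) :
    ∑ j, ∑ i, pQ μ L i j z * (1 - pInd L j z) ≤ 2 * (1 - ∑ j, pInd L j z) := by
  by_cases h : ∃ k, ∀ a b : Fin 6, L (z a) (z b) = pTab k a b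
  · obtain ⟨k, hk⟩ := h
    rw [pInd_sum_one hk]
    have : ∑ j, ∑ i, pQ μ L i j z * (1 - pInd L j z) = 0 := by
      refine sum_eq_zero fun j _ => sum_eq_zero fun i _ => ?_
      by_cases hjk : j = k
      · rw [hjk, pInd_one hk, sub_self, mul_zero]
      · have : pQ μ L i j z = 0 := by
          unfold pQ
          rw [if_neg]
          intro hq
          have h2 := pQ_agree μ L hq
          refine hjk (pTab_pent i j k (pAgB_iff.2 fun a b ha hb => ?_))
          rw [← hk a b]
          exact h2 a b ha hb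
        rw [this, zero_mul]
    rw [this]
    norm_num
  · push Not at h
    have hz : ∀ j, pInd L j z = 0 := by
      intro j
      refine pInd_zero fun hj => ?_
      obtain ⟨a, b, hab⟩ := h j
      exact hab (hj a b)
    set g : Fin 6 → Fin 6 → Bool := fun a b => L (z a) (z b) with hg
    have e3 : ∀ i, ∑ j, pQ μ L i j z ≤ if pFx g i = true then 1 else 0 := by
      intro i
      by_cases hex : ∃ j, 0 < pav μ i (pInd L j) z
      · obtain ⟨j, hj⟩ := hex
        have hagj := pQ_agree μ L hj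
        have hfx : pFx g i = true := pFx_iff.2 ⟨j, hagj⟩
        rw [if_pos hfx, sum_eq_single_of_mem j (mem_univ j)]
        · unfold pQ
          rw [if_pos hj]
        · intro k _ hkj
          unfold pQ
          rw [if_neg]
          intro hk
          have hagk := pQ_agree μ L hk
          refine hkj (pTab_pent i k j (pAgB_iff.2 fun a b ha hb => ?_))
          rw [← hagk a b ha hb, ← hagj a b ha hb]
      · push Not at hex
        have : ∑ j, pQ μ L i j z = 0 := by
          refine sum_eq_zero fun j _ => ?_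
          unfold pQ
          rw [if_neg (not_lt.2 (hex j))]
        rw [this]
        split_ifs <;> norm_num
    have e1 : ∑ j, ∑ i, pQ μ L i j z * (1 - pInd L j z) = ∑ i, ∑ j, pQ μ L i j z := by
      rw [sum_comm]
      refine sum_congr rfl fun i _ => sum_congr rfl fun j _ => ?_
      rw [hz j, sub_zero, mul_one]
    have e4 : ∑ i, (if pFx g i = true then (1 : ℝ) else 0) = (pCnt g : ℝ) := by
      unfold pCnt
      rw [card_filter]
      push_cast
      rfl
    have e5 : pCnt g ≤ 2 := by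
      refine pCnt_le (fun a b => hs _ _) (fun a b c => ht _ _ _) fun k hk => ?_
      obtain ⟨a, b, hab⟩ := h k
      exact hab (hk a b)
    have e6 : (pCnt g : ℝ) ≤ 2 := by exact_mod_cast e5
    rw [e1, sum_eq_zero fun j _ => hz j, sub_zero, mul_one]
    exact (sum_le_sum fun i _ => e3 i).trans (e4.le.trans e6)

/-- the entropy form of the purity lemma -/
theorem purity_ent (h0 : ∀ i v, 0 ≤ μ i v) (h1 : ∀ i, ∑ v, μ i v = 1)
    (hs : ∀ x y, L x y = L y x)
    (ht : ∀ x y t, ¬ (L x y = true ∧ L y t = true ∧ L x t = true)) :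
    ∑ j, Real.negMulLog (pProb μ L j) ≤ 2 * (1 - ∑ j, pProb μ L j) := by
  have e1 : ∀ i j, en μ i (pInd L j) ≤ PE μ (fun z => pQ μ L i j z * (1 - pInd L j z)) := by
    intro i j
    have a0 : PE μ (fun z => pInd L j z * Real.log (pInd L j z)) = 0 := by
      have : (fun z : Fin 6 → V => pInd L j z * Real.log (pInd L j z)) = fun _ => 0 := by
        funext z
        rcases pInd_cases L j z with ⟨-, h⟩ | ⟨-, h⟩ <;> rw [h]
        · rw [Real.log_one, mul_zero]
        · rw [zero_mul]
      rw [this, PE_const μ h1]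
    have a1 : PE μ (fun z => pQ μ L i j z * pav μ i (pInd L j) z) =
        PE μ (fun z => pQ μ L i j z * pInd L j z) :=
      PE_mul_pav μ h1 i (pInd L j) (pQ μ L i j) (pQ_update μ L i j)
    have a2 : (fun z => pQ μ L i j z * (1 - pInd L j z)) =
        fun z => pQ μ L i j z - pQ μ L i j z * pInd L j z := by
      funext z; ring
    have a3 : PE μ (fun z => pQ μ L i j z * (1 - pInd L j z)) =
        PE μ (fun z => pQ μ L i j z - pQ μ L i j z * pav μ i (pInd L j) z) := by
      rw [a2, PE_sub, PE_sub, a1]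
    unfold en
    rw [a0, a3, zero_sub]
    have a4 : -PE μ (fun z => pav μ i (pInd L j) z * Real.log (pav μ i (pInd L j) z)) =
        PE μ (fun z => (-1) * (pav μ i (pInd L j) z * Real.log (pav μ i (pInd L j) z))) := by
      rw [PE_mul]; ring
    rw [a4]
    refine PE_mono μ h0 fun z => ?_
    set q := pav μ i (pInd L j) z with hq
    have hq0 : 0 ≤ q := pav_nonneg μ h0 i (fun z => pInd_nonneg L j z) z
    rcases hq0.eq_or_lt with h | h
    · rw [← h]
      have : pQ μ L i j z = 0 := by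
        unfold pQ
        rw [← hq, ← h, if_neg (lt_irrefl 0)]
      rw [this]
      norm_num
    · have h5 : pQ μ L i j z = 1 := by
        unfold pQ
        rw [← hq, if_pos h]
      rw [h5, one_mul]
      have h6 := Real.one_sub_inv_le_log_of_pos h
      have h7 := mul_le_mul_of_nonneg_left h6 h.le
      have h8 : q * (1 - q⁻¹) = q - 1 := by field_simp
      rw [h8] at h7
      linarith
  have e2 : ∀ j, Real.negMulLog (pProb μ L j) ≤
      ∑ i, PE μ (fun z => pQ μ L i j z * (1 - pInd L j z)) := by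
    intro j
    have h := ent_tensor μ h0 h1 (f := pInd L j) (fun z => pInd_nonneg L j z)
    have a0 : PE μ (fun z => pInd L j z * Real.log (pInd L j z)) = 0 := by
      have : (fun z : Fin 6 → V => pInd L j z * Real.log (pInd L j z)) = fun _ => 0 := by
        funext z
        rcases pInd_cases L j z with ⟨-, h⟩ | ⟨-, h⟩ <;> rw [h]
        · rw [Real.log_one, mul_zero]
        · rw [zero_mul]
      rw [this, PE_const μ h1]
    rw [a0, zero_sub] at h
    have h2 := h.trans (sum_le_sum fun i _ => e1 i j)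
    unfold Real.negMulLog pProb
    linarith
  have e3 : ∑ j, ∑ i, PE μ (fun z => pQ μ L i j z * (1 - pInd L j z)) =
      PE μ (fun z => ∑ j, ∑ i, pQ μ L i j z * (1 - pInd L j z)) := by
    rw [PE_sum]
    exact sum_congr rfl fun j _ => (PE_sum μ univ _).symm
  have e4 : PE μ (fun z => 2 * (1 - ∑ j, pInd L j z)) = 2 * (1 - ∑ j, pProb μ L j) := by
    rw [PE_mul, PE_sub, PE_const μ h1, PE_sum]
    rfl
  rw [← e4]
  refine (sum_le_sum fun j _ => e2 j).trans ?_
  rw [e3]
  exact PE_mono μ h0 fun z => pur_point2 μ L hs ht z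

/-! ### two different pentagons -/

theorem pTab_pairs : ∀ k l : Fin 6, k ≠ l → ∃ a b c d : Fin 6,
    (a ≠ c ∧ a ≠ d ∧ b ≠ c ∧ b ≠ d ∧ c ≠ d) ∧
      (pTab l a b = !pTab k a b) ∧ (pTab l c d = !pTab k c d) := by decide +kernel

variable {μ} in
/-- independence of the pair `c, d` from the others -/
theorem PE_indep (h1 : ∀ i, ∑ v, μ i v = 1) {c d : Fin 6} (hcd : c ≠ d)
    {f g : (Fin 6 → V) → ℝ} (hfc : ∀ z u, f (Function.update z c u) = f z)
    (hfd : ∀ z u, f (Function.update z d u) = f z)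
    (hg : ∀ i, i ≠ c → i ≠ d → ∀ z u, g (Function.update z i u) = g z) :
    PE μ (fun z => f z * g z) = PE μ f * PE μ g := by
  have hall : ∀ i z u, pav μ c (pav μ d g) (Function.update z i u) = pav μ c (pav μ d g) z := by
    intro i
    by_cases hic : i = c
    · rw [hic]; exact pav_update μ c _
    · by_cases hid : i = d
      · rw [hid]; exact pav_update_ne μ hcd.symm (pav_update μ d g)
      · exact pav_update_ne μ hic (pav_update_ne μ hid (hg i hic hid))
  have hc : ∀ z, pav μ c (pav μ d g) z = PE μ g := by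
    intro z
    have h3 : PE μ (pav μ c (pav μ d g)) = PE μ (fun _ => pav μ c (pav μ d g) z) := by
      congr 1
      funext y
      exact const_of_update hall y z
    rw [PE_const μ h1, PE_pav μ h1, PE_pav μ h1] at h3
    exact h3.symm
  have e1 := PE_mul_pav μ h1 c (pav μ d g) f hfc
  have e2 := PE_mul_pav μ h1 d g f hfd
  rw [← e2, ← e1]
  have e3 : (fun z => f z * pav μ c (pav μ d g) z) = fun z => PE μ g * f z := by
    funext z
    rw [hc z, mul_comm]
  rw [e3, PE_mul, mul_comm]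

/-- indicator of the event that `L` takes the value `t` at the pair `z a, z b` -/
noncomputable def pPair (a b : Fin 6) (t : Bool) (z : Fin 6 → V) : ℝ :=
  ind (decide (L (z a) (z b) = t))

theorem pPair_nonneg (a b : Fin 6) (t : Bool) (z : Fin 6 → V) : 0 ≤ pPair L a b t z := by
  unfold pPair ind
  split_ifs <;> norm_num

theorem pPair_not (a b : Fin 6) (t : Bool) (z : Fin 6 → V) :
    pPair L a b (!t) z = 1 - pPair L a b t z := by
  unfold pPair ind
  rcases h : L (z a) (z b) <;> cases t <;> simp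

theorem pPair_update {a b i : Fin 6} (ha : i ≠ a) (hb : i ≠ b) (t : Bool) (z : Fin 6 → V)
    (u : V) : pPair L a b t (Function.update z i u) = pPair L a b t z := by
  unfold pPair
  rw [Function.update_of_ne ha.symm, Function.update_of_ne hb.symm]

theorem pInd_le_pair (j a b c d : Fin 6) (z : Fin 6 → V) :
    pInd L j z ≤ pPair L a b (pTab j a b) z * pPair L c d (pTab j c d) z := by
  rcases pInd_cases L j z with ⟨h1, h⟩ | ⟨-, h⟩
  · rw [h]
    unfold pPair ind
    rw [decide_eq_true (h1 a b), decide_eq_true (h1 c d)]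
    norm_num
  · rw [h]
    exact mul_nonneg (pPair_nonneg L _ _ _ z) (pPair_nonneg L _ _ _ z)

theorem pProb_sqrt (h0 : ∀ i v, 0 ≤ μ i v) (h1 : ∀ i, ∑ v, μ i v = 1) {k l : Fin 6}
    (hkl : k ≠ l) : Real.sqrt (pProb μ L k) + Real.sqrt (pProb μ L l) ≤ 1 := by
  obtain ⟨a, b, c, d, ⟨hac, had, hbc, hbd, hcd⟩, hab, hcd2⟩ := pTab_pairs k l hkl
  have hind : ∀ j, PE μ (fun z => pPair L a b (pTab j a b) z * pPair L c d (pTab j c d) z) =
      PE μ (pPair L a b (pTab j a b)) * PE μ (pPair L c d (pTab j c d)) := by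
    intro j
    exact PE_indep h1 hcd (pPair_update L hac.symm hbc.symm _)
      (pPair_update L had.symm hbd.symm _) (fun i hc hd => pPair_update L hc hd _)
  have hle : ∀ j, pProb μ L j ≤
      PE μ (pPair L a b (pTab j a b)) * PE μ (pPair L c d (pTab j c d)) := by
    intro j
    rw [← hind j]
    exact PE_mono μ h0 (pInd_le_pair L j a b c d)
  have hnot : ∀ (a b : Fin 6) (t : Bool),
      PE μ (pPair L a b (!t)) = 1 - PE μ (pPair L a b t) := by
    intro a b t
    have : pPair L a b (!t) = fun z => 1 - pPair L a b t z := by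
      funext z
      exact pPair_not L a b t z
    rw [this, PE_sub, PE_const μ h1]
  have hk := hle k
  have hl := hle l
  rw [hab, hcd2, hnot, hnot] at hl
  have n1 : 0 ≤ PE μ (pPair L a b (pTab k a b)) := PE_nonneg μ h0 (pPair_nonneg L _ _ _)
  have n2 : 0 ≤ PE μ (pPair L c d (pTab k c d)) := PE_nonneg μ h0 (pPair_nonneg L _ _ _)
  have n3 : 0 ≤ 1 - PE μ (pPair L a b (pTab k a b)) := by
    rw [← hnot]; exact PE_nonneg μ h0 (pPair_nonneg L _ _ _)
  have n4 : 0 ≤ 1 - PE μ (pPair L c d (pTab k c d)) := by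
    rw [← hnot]; exact PE_nonneg μ h0 (pPair_nonneg L _ _ _)
  set r := PE μ (pPair L a b (pTab k a b))
  set r' := PE μ (pPair L c d (pTab k c d))
  have s1 : Real.sqrt (pProb μ L k) ≤ (r + r') / 2 := by
    refine Real.sqrt_le_iff.2 ⟨by positivity, ?_⟩
    nlinarith [sq_nonneg (r - r')]
  have s2 : Real.sqrt (pProb μ L l) ≤ ((1 - r) + (1 - r')) / 2 := by
    refine Real.sqrt_le_iff.2 ⟨by positivity, ?_⟩
    nlinarith [sq_nonneg (r - r')]
  linarith

/-! ### numerical consequences -/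

theorem negMulLog_ge {p c : ℝ} (hp : 0 ≤ p) (h : p ≤ Real.exp (-c)) :
    c * p ≤ Real.negMulLog p := by
  rcases hp.eq_or_lt with h0 | h0
  · rw [← h0]; simp
  · have h1 := Real.log_le_log h0 h
    rw [Real.log_exp] at h1
    have h2 := mul_le_mul_of_nonneg_left h1 h0.le
    unfold Real.negMulLog
    linarith

theorem log_bd {y : ℝ} (hy : 0 < y) (m n : ℕ) (hn : 0 < n) (h : y ^ n * 2 ^ m ≤ 1) :
    (m / n : ℝ) * 0.6931471803 ≤ -Real.log y := by
  have h1 : Real.log (y ^ n * 2 ^ m) ≤ 0 := Real.log_nonpos (by positivity) h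
  rw [Real.log_mul (by positivity) (by positivity), Real.log_pow, Real.log_pow] at h1
  have h2 := Real.log_two_gt_d9
  have hn' : (0 : ℝ) < n := by exact_mod_cast hn
  have hm : (0 : ℝ) ≤ m := Nat.cast_nonneg m
  have h3 : (m : ℝ) * 0.6931471803 ≤ m * Real.log 2 := mul_le_mul_of_nonneg_left h2.le hm
  rw [div_mul_eq_mul_div, div_le_iff₀ hn']
  linarith

/-- all the probabilities are at most `exp (-β)` -/
theorem pur_small (h0 : ∀ i v, 0 ≤ μ i v) (h1 : ∀ i, ∑ v, μ i v = 1)
    (hs : ∀ x y, L x y = L y x)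
    (ht : ∀ x y t, ¬ (L x y = true ∧ L y t = true ∧ L x t = true))
    {b β S : ℝ} (hb : 0 < b) (hall : ∀ k, pProb μ L k ≤ b) (hβ : β ≤ -Real.log b)
    (hβ0 : 0 ≤ β) (hS : 2 ≤ S * (2 + β)) : ∑ k, pProb μ L k ≤ S := by
  have h := purity_ent μ L h0 h1 hs ht
  have h2 : ∑ k, β * pProb μ L k ≤ ∑ j, Real.negMulLog (pProb μ L j) := by
    refine sum_le_sum fun k _ => negMulLog_ge (pProb_nonneg μ L h0 k) ((hall k).trans ?_)
    rw [← Real.exp_log hb]
    exact Real.exp_le_exp.2 (by linarith)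
  rw [← mul_sum] at h2
  have h3 : (∑ k, pProb μ L k) * (2 + β) ≤ S * (2 + β) := by linarith
  exact le_of_mul_le_mul_right h3 (by linarith)

/-- one of the probabilities is in the interval from `x ^ 2` to `b` -/
theorem pur_step (h0 : ∀ i v, 0 ≤ μ i v) (h1 : ∀ i, ∑ v, μ i v = 1)
    (hs : ∀ x y, L x y = L y x)
    (ht : ∀ x y t, ¬ (L x y = true ∧ L y t = true ∧ L x t = true))
    (j : Fin 6) {x b c β S : ℝ} (hx1 : x < 1) (hx : x ^ 2 ≤ pProb μ L j)
    (hb : pProb μ L j ≤ b) (hb0 : 0 < b) (hc : c ≤ -Real.log (1 - x)) (hβ : β ≤ -Real.log b)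
    (hcβ : β ≤ 2 * c) (hc0 : 0 ≤ c) (hS : 2 + b * (2 * c - β) ≤ S * (2 + 2 * c)) :
    ∑ k, pProb μ L k ≤ S := by
  have h := purity_ent μ L h0 h1 hs ht
  have hsx : x ≤ Real.sqrt (pProb μ L j) := Real.le_sqrt_of_sq_le hx
  have h2 : ∀ k ∈ univ.erase j, 2 * c * pProb μ L k ≤ Real.negMulLog (pProb μ L k) := by
    intro k hk
    refine negMulLog_ge (pProb_nonneg μ L h0 k) ?_
    have h3 := pProb_sqrt μ L h0 h1 (ne_of_mem_erase hk)
    have h4 : Real.sqrt (pProb μ L k) ≤ 1 - x := by linarith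
    have h5 : pProb μ L k ≤ (1 - x) ^ 2 := by
      rw [Real.sqrt_le_left (by linarith)] at h4
      exact h4
    refine h5.trans ?_
    have h6 : 1 - x ≤ Real.exp (-c) := by
      rw [← Real.exp_log (show 0 < 1 - x by linarith)]
      exact Real.exp_le_exp.2 (by linarith)
    have h7 : Real.exp (-(2 * c)) = Real.exp (-c) ^ 2 := by
      rw [← Real.exp_nat_mul]
      congr 1
      push_cast
      ring
    rw [h7]
    exact pow_le_pow_left₀ (by linarith) h6 2
  have h8 : β * pProb μ L j ≤ Real.negMulLog (pProb μ L j) := by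
    refine negMulLog_ge (pProb_nonneg μ L h0 j) (hb.trans ?_)
    rw [← Real.exp_log hb0]
    exact Real.exp_le_exp.2 (by linarith)
  have h9 := sum_le_sum h2
  rw [← mul_sum] at h9
  have e1 := add_sum_erase univ (fun k => Real.negMulLog (pProb μ L k)) (mem_univ j)
  have e2 := add_sum_erase univ (pProb μ L) (mem_univ j)
  beta_reduce at e1
  have h10 : pProb μ L j * (2 * c - β) ≤ b * (2 * c - β) :=
    mul_le_mul_of_nonneg_right hb (by linarith)
  have e3 : ∑ k ∈ univ.erase j, pProb μ L k = ∑ k, pProb μ L k - pProb μ L j := by linarith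
  rw [e3] at h9
  have h3 : (∑ k, pProb μ L k) * (2 + 2 * c) ≤ S * (2 + 2 * c) := by nlinarith
  exact le_of_mul_le_mul_right h3 (by linarith)

/-- if all the probabilities are at most `0.5`, then their sum is at most `0.648` -/
theorem purity_50 (h0 : ∀ i v, 0 ≤ μ i v) (h1 : ∀ i, ∑ v, μ i v = 1)
    (hs : ∀ x y, L x y = L y x)
    (ht : ∀ x y t, ¬ (L x y = true ∧ L y t = true ∧ L x t = true))
    (hall : ∀ k, pProb μ L k ≤ 1 / 2) :
    ∑ k, pProb μ L k ≤ 81 / 125 := by
  obtain ⟨j, -, hj⟩ := exists_max_image univ (pProb μ L) ⟨0, mem_univ 0⟩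
  have hb0 := hall j
  by_cases c0 : (141 / 200 : ℝ) ^ 2 ≤ pProb μ L j
  · have l1 := log_bd (y := 1 - (141 / 200 : ℝ)) (by norm_num) 7 4 (by norm_num) (by norm_num)
    have l2 := log_bd (y := (1 / 2 : ℝ)) (by norm_num) 1 1 (by norm_num) (by norm_num)
    exact pur_step μ L h0 h1 hs ht j (x := (141 / 200 : ℝ)) (b := (1 / 2 : ℝ)) (by norm_num) c0
      (hb0) (by norm_num) l1 l2 (by norm_num) (by norm_num) (by norm_num)
  push Not at c0
  norm_num at c0
  by_cases c1 : (7 / 10 : ℝ) ^ 2 ≤ pProb μ L j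
  · have l1 := log_bd (y := 1 - (7 / 10 : ℝ)) (by norm_num) 33 19 (by norm_num) (by norm_num)
    have l2 := log_bd (y := (19881 / 40000 : ℝ)) (by norm_num) 1 1 (by norm_num) (by norm_num)
    exact pur_step μ L h0 h1 hs ht j (x := (7 / 10 : ℝ)) (b := (19881 / 40000 : ℝ)) (by norm_num) c1
      ((by linarith)) (by norm_num) l1 l2 (by norm_num) (by norm_num) (by norm_num)
  push Not at c1
  norm_num at c1
  by_cases c2 : (69 / 100 : ℝ) ^ 2 ≤ pProb μ L j
  · have l1 := log_bd (y := 1 - (69 / 100 : ℝ)) (by norm_num) 27 16 (by norm_num) (by norm_num)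
    have l2 := log_bd (y := (49 / 100 : ℝ)) (by norm_num) 1 1 (by norm_num) (by norm_num)
    exact pur_step μ L h0 h1 hs ht j (x := (69 / 100 : ℝ)) (b := (49 / 100 : ℝ)) (by norm_num) c2
      ((by linarith)) (by norm_num) l1 l2 (by norm_num) (by norm_num) (by norm_num)
  push Not at c2
  norm_num at c2
  by_cases c3 : (129 / 200 : ℝ) ^ 2 ≤ pProb μ L j
  · have l1 := log_bd (y := 1 - (129 / 200 : ℝ)) (by norm_num) 34 23 (by norm_num) (by norm_num)
    have l2 := log_bd (y := (4761 / 10000 : ℝ)) (by norm_num) 16 15 (by norm_num) (by norm_num)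
    exact pur_step μ L h0 h1 hs ht j (x := (129 / 200 : ℝ)) (b := (4761 / 10000 : ℝ)) (by norm_num) c3
      ((by linarith)) (by norm_num) l1 l2 (by norm_num) (by norm_num) (by norm_num)
  push Not at c3
  norm_num at c3
  by_cases c4 : (13 / 25 : ℝ) ^ 2 ≤ pProb μ L j
  · have l1 := log_bd (y := 1 - (13 / 25 : ℝ)) (by norm_num) 18 17 (by norm_num) (by norm_num)
    have l2 := log_bd (y := (16641 / 40000 : ℝ)) (by norm_num) 24 19 (by norm_num) (by norm_num)
    exact pur_step μ L h0 h1 hs ht j (x := (13 / 25 : ℝ)) (b := (16641 / 40000 : ℝ)) (by norm_num) c4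
      ((by linarith)) (by norm_num) l1 l2 (by norm_num) (by norm_num) (by norm_num)
  push Not at c4
  norm_num at c4
  have l1 := log_bd (y := (169 / 625 : ℝ)) (by norm_num) 32 17 (by norm_num) (by norm_num)
  exact pur_small μ L h0 h1 hs ht (b := (169 / 625 : ℝ)) (by norm_num)
    (fun k => (hj k (mem_univ k)).trans (by linarith)) l1 (by norm_num) (by norm_num)

/-- if all the probabilities are at most `0.6`, then their sum is at most `0.7` -/
theorem purity_60 (h0 : ∀ i v, 0 ≤ μ i v) (h1 : ∀ i, ∑ v, μ i v = 1)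
    (hs : ∀ x y, L x y = L y x)
    (ht : ∀ x y t, ¬ (L x y = true ∧ L y t = true ∧ L x t = true))
    (hall : ∀ k, pProb μ L k ≤ 3 / 5) :
    ∑ k, pProb μ L k ≤ 7 / 10 := by
  obtain ⟨j, -, hj⟩ := exists_max_image univ (pProb μ L) ⟨0, mem_univ 0⟩
  have hb0 := hall j
  by_cases c0 : (77 / 100 : ℝ) ^ 2 ≤ pProb μ L j
  · have l1 := log_bd (y := 1 - (77 / 100 : ℝ)) (by norm_num) 36 17 (by norm_num) (by norm_num)
    have l2 := log_bd (y := (3 / 5 : ℝ)) (by norm_num) 14 19 (by norm_num) (by norm_num)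
    exact pur_step μ L h0 h1 hs ht j (x := (77 / 100 : ℝ)) (b := (3 / 5 : ℝ)) (by norm_num) c0
      (hb0) (by norm_num) l1 l2 (by norm_num) (by norm_num) (by norm_num)
  push Not at c0
  norm_num at c0
  by_cases c1 : (3 / 4 : ℝ) ^ 2 ≤ pProb μ L j
  · have l1 := log_bd (y := 1 - (3 / 4 : ℝ)) (by norm_num) 2 1 (by norm_num) (by norm_num)
    have l2 := log_bd (y := (5929 / 10000 : ℝ)) (by norm_num) 3 4 (by norm_num) (by norm_num)
    exact pur_step μ L h0 h1 hs ht j (x := (3 / 4 : ℝ)) (b := (5929 / 10000 : ℝ)) (by norm_num) c1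
      ((by linarith)) (by norm_num) l1 l2 (by norm_num) (by norm_num) (by norm_num)
  push Not at c1
  norm_num at c1
  by_cases c2 : (16 / 25 : ℝ) ^ 2 ≤ pProb μ L j
  · have l1 := log_bd (y := 1 - (16 / 25 : ℝ)) (by norm_num) 28 19 (by norm_num) (by norm_num)
    have l2 := log_bd (y := (9 / 16 : ℝ)) (by norm_num) 19 23 (by norm_num) (by norm_num)
    exact pur_step μ L h0 h1 hs ht j (x := (16 / 25 : ℝ)) (b := (9 / 16 : ℝ)) (by norm_num) c2
      ((by linarith)) (by norm_num) l1 l2 (by norm_num) (by norm_num) (by norm_num)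
  push Not at c2
  norm_num at c2
  have l1 := log_bd (y := (256 / 625 : ℝ)) (by norm_num) 9 7 (by norm_num) (by norm_num)
  exact pur_small μ L h0 h1 hs ht (b := (256 / 625 : ℝ)) (by norm_num)
    (fun k => (hj k (mem_univ k)).trans (by linarith)) l1 (by norm_num) (by norm_num)

/-- if all the probabilities are at most `0.7`, then their sum is at most `0.764` -/
theorem purity_70 (h0 : ∀ i v, 0 ≤ μ i v) (h1 : ∀ i, ∑ v, μ i v = 1)
    (hs : ∀ x y, L x y = L y x)
    (ht : ∀ x y t, ¬ (L x y = true ∧ L y t = true ∧ L x t = true))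
    (hall : ∀ k, pProb μ L k ≤ 7 / 10) :
    ∑ k, pProb μ L k ≤ 191 / 250 := by
  obtain ⟨j, -, hj⟩ := exists_max_image univ (pProb μ L) ⟨0, mem_univ 0⟩
  have hb0 := hall j
  by_cases c0 : (167 / 200 : ℝ) ^ 2 ≤ pProb μ L j
  · have l1 := log_bd (y := 1 - (167 / 200 : ℝ)) (by norm_num) 57 22 (by norm_num) (by norm_num)
    have l2 := log_bd (y := (7 / 10 : ℝ)) (by norm_num) 1 2 (by norm_num) (by norm_num)
    exact pur_step μ L h0 h1 hs ht j (x := (167 / 200 : ℝ)) (b := (7 / 10 : ℝ)) (by norm_num) c0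
      (hb0) (by norm_num) l1 l2 (by norm_num) (by norm_num) (by norm_num)
  push Not at c0
  norm_num at c0
  by_cases c1 : (33 / 40 : ℝ) ^ 2 ≤ pProb μ L j
  · have l1 := log_bd (y := 1 - (33 / 40 : ℝ)) (by norm_num) 5 2 (by norm_num) (by norm_num)
    have l2 := log_bd (y := (27889 / 40000 : ℝ)) (by norm_num) 1 2 (by norm_num) (by norm_num)
    exact pur_step μ L h0 h1 hs ht j (x := (33 / 40 : ℝ)) (b := (27889 / 40000 : ℝ)) (by norm_num) c1
      ((by linarith)) (by norm_num) l1 l2 (by norm_num) (by norm_num) (by norm_num)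
  push Not at c1
  norm_num at c1
  by_cases c2 : (29 / 40 : ℝ) ^ 2 ≤ pProb μ L j
  · have l1 := log_bd (y := 1 - (29 / 40 : ℝ)) (by norm_num) 13 7 (by norm_num) (by norm_num)
    have l2 := log_bd (y := (1089 / 1600 : ℝ)) (by norm_num) 11 20 (by norm_num) (by norm_num)
    exact pur_step μ L h0 h1 hs ht j (x := (29 / 40 : ℝ)) (b := (1089 / 1600 : ℝ)) (by norm_num) c2
      ((by linarith)) (by norm_num) l1 l2 (by norm_num) (by norm_num) (by norm_num)
  push Not at c2
  norm_num at c2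
  have l1 := log_bd (y := (841 / 1600 : ℝ)) (by norm_num) 12 13 (by norm_num) (by norm_num)
  exact pur_small μ L h0 h1 hs ht (b := (841 / 1600 : ℝ)) (by norm_num)
    (fun k => (hj k (mem_univ k)).trans (by linarith)) l1 (by norm_num) (by norm_num)

/-- if all the probabilities are at most `0.8`, then their sum is at most `0.835` -/
theorem purity_80 (h0 : ∀ i v, 0 ≤ μ i v) (h1 : ∀ i, ∑ v, μ i v = 1)
    (hs : ∀ x y, L x y = L y x)
    (ht : ∀ x y t, ¬ (L x y = true ∧ L y t = true ∧ L x t = true))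
    (hall : ∀ k, pProb μ L k ≤ 4 / 5) :
    ∑ k, pProb μ L k ≤ 167 / 200 := by
  obtain ⟨j, -, hj⟩ := exists_max_image univ (pProb μ L) ⟨0, mem_univ 0⟩
  have hb0 := hall j
  by_cases c0 : (89 / 100 : ℝ) ^ 2 ≤ pProb μ L j
  · have l1 := log_bd (y := 1 - (89 / 100 : ℝ)) (by norm_num) 35 11 (by norm_num) (by norm_num)
    have l2 := log_bd (y := (4 / 5 : ℝ)) (by norm_num) 7 22 (by norm_num) (by norm_num)
    exact pur_step μ L h0 h1 hs ht j (x := (89 / 100 : ℝ)) (b := (4 / 5 : ℝ)) (by norm_num) c0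
      (hb0) (by norm_num) l1 l2 (by norm_num) (by norm_num) (by norm_num)
  push Not at c0
  norm_num at c0
  by_cases c1 : (41 / 50 : ℝ) ^ 2 ≤ pProb μ L j
  · have l1 := log_bd (y := 1 - (41 / 50 : ℝ)) (by norm_num) 47 19 (by norm_num) (by norm_num)
    have l2 := log_bd (y := (7921 / 10000 : ℝ)) (by norm_num) 1 3 (by norm_num) (by norm_num)
    exact pur_step μ L h0 h1 hs ht j (x := (41 / 50 : ℝ)) (b := (7921 / 10000 : ℝ)) (by norm_num) c1
      ((by linarith)) (by norm_num) l1 l2 (by norm_num) (by norm_num) (by norm_num)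
  push Not at c1
  norm_num at c1
  have l1 := log_bd (y := (1681 / 2500 : ℝ)) (by norm_num) 4 7 (by norm_num) (by norm_num)
  exact pur_small μ L h0 h1 hs ht (b := (1681 / 2500 : ℝ)) (by norm_num)
    (fun k => (hj k (mem_univ k)).trans (by linarith)) l1 (by norm_num) (by norm_num)

/-- if all the probabilities are at most `0.9`, then their sum is at most `0.914` -/
theorem purity_90 (h0 : ∀ i v, 0 ≤ μ i v) (h1 : ∀ i, ∑ v, μ i v = 1)
    (hs : ∀ x y, L x y = L y x)
    (ht : ∀ x y t, ¬ (L x y = true ∧ L y t = true ∧ L x t = true))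
    (hall : ∀ k, pProb μ L k ≤ 9 / 10) :
    ∑ k, pProb μ L k ≤ 457 / 500 := by
  obtain ⟨j, -, hj⟩ := exists_max_image univ (pProb μ L) ⟨0, mem_univ 0⟩
  have hb0 := hall j
  by_cases c0 : (47 / 50 : ℝ) ^ 2 ≤ pProb μ L j
  · have l1 := log_bd (y := 1 - (47 / 50 : ℝ)) (by norm_num) 69 17 (by norm_num) (by norm_num)
    have l2 := log_bd (y := (9 / 10 : ℝ)) (by norm_num) 3 20 (by norm_num) (by norm_num)
    exact pur_step μ L h0 h1 hs ht j (x := (47 / 50 : ℝ)) (b := (9 / 10 : ℝ)) (by norm_num) c0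
      (hb0) (by norm_num) l1 l2 (by norm_num) (by norm_num) (by norm_num)
  push Not at c0
  norm_num at c0
  by_cases c1 : (131 / 200 : ℝ) ^ 2 ≤ pProb μ L j
  · have l1 := log_bd (y := 1 - (131 / 200 : ℝ)) (by norm_num) 23 15 (by norm_num) (by norm_num)
    have l2 := log_bd (y := (2209 / 2500 : ℝ)) (by norm_num) 3 17 (by norm_num) (by norm_num)
    exact pur_step μ L h0 h1 hs ht j (x := (131 / 200 : ℝ)) (b := (2209 / 2500 : ℝ)) (by norm_num) c1
      ((by linarith)) (by norm_num) l1 l2 (by norm_num) (by norm_num) (by norm_num)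
  push Not at c1
  norm_num at c1
  have l1 := log_bd (y := (17161 / 40000 : ℝ)) (by norm_num) 28 23 (by norm_num) (by norm_num)
  exact pur_small μ L h0 h1 hs ht (b := (17161 / 40000 : ℝ)) (by norm_num)
    (fun k => (hj k (mem_univ k)).trans (by linarith)) l1 (by norm_num) (by norm_num)

/-- if all the probabilities are at most `0.95`, then their sum is at most `0.956` -/
theorem purity_95 (h0 : ∀ i v, 0 ≤ μ i v) (h1 : ∀ i, ∑ v, μ i v = 1)
    (hs : ∀ x y, L x y = L y x)
    (ht : ∀ x y t, ¬ (L x y = true ∧ L y t = true ∧ L x t = true))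
    (hall : ∀ k, pProb μ L k ≤ 19 / 20) :
    ∑ k, pProb μ L k ≤ 239 / 250 := by
  obtain ⟨j, -, hj⟩ := exists_max_image univ (pProb μ L) ⟨0, mem_univ 0⟩
  have hb0 := hall j
  by_cases c0 : (97 / 100 : ℝ) ^ 2 ≤ pProb μ L j
  · have l1 := log_bd (y := 1 - (97 / 100 : ℝ)) (by norm_num) 86 17 (by norm_num) (by norm_num)
    have l2 := log_bd (y := (19 / 20 : ℝ)) (by norm_num) 1 14 (by norm_num) (by norm_num)
    exact pur_step μ L h0 h1 hs ht j (x := (97 / 100 : ℝ)) (b := (19 / 20 : ℝ)) (by norm_num) c0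
      (hb0) (by norm_num) l1 l2 (by norm_num) (by norm_num) (by norm_num)
  push Not at c0
  norm_num at c0
  by_cases c1 : (13 / 20 : ℝ) ^ 2 ≤ pProb μ L j
  · have l1 := log_bd (y := 1 - (13 / 20 : ℝ)) (by norm_num) 3 2 (by norm_num) (by norm_num)
    have l2 := log_bd (y := (9409 / 10000 : ℝ)) (by norm_num) 2 23 (by norm_num) (by norm_num)
    exact pur_step μ L h0 h1 hs ht j (x := (13 / 20 : ℝ)) (b := (9409 / 10000 : ℝ)) (by norm_num) c1
      ((by linarith)) (by norm_num) l1 l2 (by norm_num) (by norm_num) (by norm_num)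
  push Not at c1
  norm_num at c1
  have l1 := log_bd (y := (169 / 400 : ℝ)) (by norm_num) 26 21 (by norm_num) (by norm_num)
  exact pur_small μ L h0 h1 hs ht (b := (169 / 400 : ℝ)) (by norm_num)
    (fun k => (hj k (mem_univ k)).trans (by linarith)) l1 (by norm_num) (by norm_num)

/-- the linear form near one -/
theorem pur_lin (h0 : ∀ i v, 0 ≤ μ i v) (h1 : ∀ i, ∑ v, μ i v = 1)
    (hs : ∀ x y, L x y = L y x)
    (ht : ∀ x y t, ¬ (L x y = true ∧ L y t = true ∧ L x t = true))
    (j : Fin 6) {x c : ℝ} (hx1 : x < 1) (hx : x ^ 2 ≤ pProb μ L j)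
    (hc : c ≤ -Real.log (1 - x)) :
    (1 - pProb μ L j) * (2 * c + x ^ 2) ≤ (2 + 2 * c) * (1 - ∑ k, pProb μ L k) := by
  have h := purity_ent μ L h0 h1 hs ht
  have hsx : x ≤ Real.sqrt (pProb μ L j) := Real.le_sqrt_of_sq_le hx
  have h2 : ∀ k ∈ univ.erase j, 2 * c * pProb μ L k ≤ Real.negMulLog (pProb μ L k) := by
    intro k hk
    refine negMulLog_ge (pProb_nonneg μ L h0 k) ?_
    have h3 := pProb_sqrt μ L h0 h1 (ne_of_mem_erase hk)
    have h4 : Real.sqrt (pProb μ L k) ≤ 1 - x := by linarith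
    have h5 : pProb μ L k ≤ (1 - x) ^ 2 := by
      rw [Real.sqrt_le_left (by linarith)] at h4
      exact h4
    refine h5.trans ?_
    have h6 : 1 - x ≤ Real.exp (-c) := by
      rw [← Real.exp_log (show 0 < 1 - x by linarith)]
      exact Real.exp_le_exp.2 (by linarith)
    have h7 : Real.exp (-(2 * c)) = Real.exp (-c) ^ 2 := by
      rw [← Real.exp_nat_mul]
      congr 1
      push_cast
      ring
    rw [h7]
    exact pow_le_pow_left₀ (by linarith) h6 2
  have hp1 : pProb μ L j ≤ 1 := (single_le_sum (fun k _ => pProb_nonneg μ L h0 k)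
    (mem_univ j)).trans (pProb_sum_le μ L h0 h1)
  have h8 : (1 - pProb μ L j) * pProb μ L j ≤ Real.negMulLog (pProb μ L j) := by
    rcases (pProb_nonneg μ L h0 j).eq_or_lt with h3 | h3
    · rw [← h3]; simp
    · have h4 := Real.log_le_sub_one_of_pos h3
      have h5 := mul_le_mul_of_nonneg_left h4 h3.le
      unfold Real.negMulLog
      nlinarith
  have h9 := sum_le_sum h2
  rw [← mul_sum] at h9
  have e1 := add_sum_erase univ (fun k => Real.negMulLog (pProb μ L k)) (mem_univ j)
  have e2 := add_sum_erase univ (pProb μ L) (mem_univ j)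
  beta_reduce at e1
  have e3 : ∑ k ∈ univ.erase j, pProb μ L k = ∑ k, pProb μ L k - pProb μ L j := by linarith
  rw [e3] at h9
  nlinarith [mul_nonneg (sub_nonneg.2 hp1) (sub_nonneg.2 hx)]

/-- a probability of at least `0.5` is almost the whole sum -/
theorem purity_lin50 (h0 : ∀ i v, 0 ≤ μ i v) (h1 : ∀ i, ∑ v, μ i v = 1)
    (hs : ∀ x y, L x y = L y x)
    (ht : ∀ x y t, ¬ (L x y = true ∧ L y t = true ∧ L x t = true))
    (j : Fin 6) (hj : 1 / 2 ≤ pProb μ L j) :
    1 - pProb μ L j ≤ 761 / 500 * (1 - ∑ k, pProb μ L k) := by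
  have l1 := log_bd (y := 1 - (7 / 10 : ℝ)) (by norm_num) 33 19 (by norm_num) (by norm_num)
  have h := pur_lin μ L h0 h1 hs ht j (x := (7 / 10 : ℝ)) (by norm_num)
    (le_trans (by norm_num) hj) l1
  have h2 := pProb_sum_le μ L h0 h1
  norm_num at h
  linarith

/-- a probability of at least `0.6` is almost the whole sum -/
theorem purity_lin60 (h0 : ∀ i v, 0 ≤ μ i v) (h1 : ∀ i, ∑ v, μ i v = 1)
    (hs : ∀ x y, L x y = L y x)
    (ht : ∀ x y t, ¬ (L x y = true ∧ L y t = true ∧ L x t = true))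
    (j : Fin 6) (hj : 3 / 5 ≤ pProb μ L j) :
    1 - pProb μ L j ≤ 1399 / 1000 * (1 - ∑ k, pProb μ L k) := by
  have l1 := log_bd (y := 1 - (77 / 100 : ℝ)) (by norm_num) 36 17 (by norm_num) (by norm_num)
  have h := pur_lin μ L h0 h1 hs ht j (x := (77 / 100 : ℝ)) (by norm_num)
    (le_trans (by norm_num) hj) l1
  have h2 := pProb_sum_le μ L h0 h1
  norm_num at h
  linarith

/-- a probability of at least `0.7` is almost the whole sum -/
theorem purity_lin70 (h0 : ∀ i v, 0 ≤ μ i v) (h1 : ∀ i, ∑ v, μ i v = 1)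
    (hs : ∀ x y, L x y = L y x)
    (ht : ∀ x y t, ¬ (L x y = true ∧ L y t = true ∧ L x t = true))
    (j : Fin 6) (hj : 7 / 10 ≤ pProb μ L j) :
    1 - pProb μ L j ≤ 163 / 125 * (1 - ∑ k, pProb μ L k) := by
  have l1 := log_bd (y := 1 - (167 / 200 : ℝ)) (by norm_num) 57 22 (by norm_num) (by norm_num)
  have h := pur_lin μ L h0 h1 hs ht j (x := (167 / 200 : ℝ)) (by norm_num)
    (le_trans (by norm_num) hj) l1
  have h2 := pProb_sum_le μ L h0 h1
  norm_num at h
  linarith

/-- a probability of at least `0.8` is almost the whole sum -/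
theorem purity_lin80 (h0 : ∀ i v, 0 ≤ μ i v) (h1 : ∀ i, ∑ v, μ i v = 1)
    (hs : ∀ x y, L x y = L y x)
    (ht : ∀ x y t, ¬ (L x y = true ∧ L y t = true ∧ L x t = true))
    (j : Fin 6) (hj : 4 / 5 ≤ pProb μ L j) :
    1 - pProb μ L j ≤ 1233 / 1000 * (1 - ∑ k, pProb μ L k) := by
  have l1 := log_bd (y := 1 - (89 / 100 : ℝ)) (by norm_num) 35 11 (by norm_num) (by norm_num)
  have h := pur_lin μ L h0 h1 hs ht j (x := (89 / 100 : ℝ)) (by norm_num)
    (le_trans (by norm_num) hj) l1
  have h2 := pProb_sum_le μ L h0 h1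
  norm_num at h
  linarith

/-- a probability of at least `0.9` is almost the whole sum -/
theorem purity_lin90 (h0 : ∀ i v, 0 ≤ μ i v) (h1 : ∀ i, ∑ v, μ i v = 1)
    (hs : ∀ x y, L x y = L y x)
    (ht : ∀ x y t, ¬ (L x y = true ∧ L y t = true ∧ L x t = true))
    (j : Fin 6) (hj : 9 / 10 ≤ pProb μ L j) :
    1 - pProb μ L j ≤ 583 / 500 * (1 - ∑ k, pProb μ L k) := by
  have l1 := log_bd (y := 1 - (189 / 200 : ℝ)) (by norm_num) 46 11 (by norm_num) (by norm_num)
  have h := pur_lin μ L h0 h1 hs ht j (x := (189 / 200 : ℝ)) (by norm_num)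
    (le_trans (by norm_num) hj) l1
  have h2 := pProb_sum_le μ L h0 h1
  norm_num at h
  linarith

/-- a probability of at least `0.95` is almost the whole sum -/
theorem purity_lin95 (h0 : ∀ i v, 0 ≤ μ i v) (h1 : ∀ i, ∑ v, μ i v = 1)
    (hs : ∀ x y, L x y = L y x)
    (ht : ∀ x y t, ¬ (L x y = true ∧ L y t = true ∧ L x t = true))
    (j : Fin 6) (hj : 19 / 20 ≤ pProb μ L j) :
    1 - pProb μ L j ≤ 567 / 500 * (1 - ∑ k, pProb μ L k) := by
  have l1 := log_bd (y := 1 - (97 / 100 : ℝ)) (by norm_num) 86 17 (by norm_num) (by norm_num)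
  have h := pur_lin μ L h0 h1 hs ht j (x := (97 / 100 : ℝ)) (by norm_num)
    (le_trans (by norm_num) hj) l1
  have h2 := pProb_sum_le μ L h0 h1
  norm_num at h
  linarith

end Pur2

end K4m
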