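import Mathlib
import Pool.Agent.Lib.MP_392c14_co.Z8f

/-!
# Local analysis, second stage: definitions used in the statement
-/

set_option autoImplicit false

namespace K4m

open Finset Function

section S2Defs

variable {V : Type}

/-- number of blocks through the class `k` with two pairs -/
noncomputable def BBin (k : Fin 6) (L : V → V → Bool) (z : Fin 6 → V) : ℝ :=
  1 / 2 * ∑ a, ∑ b, (if pTab k a b = true then bt L (z k) (z a) (z b) else 0)

/-- number of the other blocks with two pairs -/
noncomputable def BBout (k : Fin 6) (L : V → V → Bool) (z : Fin 6 → V) : ℝ :=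
  BB L z - BBin k L z

/-- missing density in the pentagon of the class `k` -/
noncomputable def hk [Fintype V] (μ : Fin 6 → V → ℝ) (L : V → V → Bool) (k : Fin 6) : ℝ :=
  1 / 2 * ∑ a, ∑ b, (if pTab k a b = true then 1 - ∑ x, ∑ y, μ a x * μ b y * lk L x y else 0)

end S2Defs

end K4m
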