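import Mathlib
import Pool.Agent.Lib.MP_392c14_co.Root4

/-!
# Replacing the insides of some classes by near-optimal 3-graphs
-/

set_option autoImplicit false

namespace K4m

open Finset

section Defn

variable {V W : Type}

/-- two points in the same class of `J` -/
def sameJ (c : V → Fin 6) (J : Fin 6 → Bool) (x y : V) : Bool :=
  decide (c x = c y) && J (c x)

/-- the 3-graph on `V × W` in which the insides of the classes in `J` are copies of `H`, and the
edges with exactly two vertices in a class of `J` are removed -/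
def TG.repl (G : TG V) (H : TG W) (c : V → Fin 6) (J : Fin 6 → Bool) : TG (V × W) where
  E a b d := (sameJ c J a.1 b.1 && sameJ c J b.1 d.1 && H.E a.2 b.2 d.2) ||
    (!(sameJ c J a.1 b.1) && !(sameJ c J b.1 d.1) && !(sameJ c J a.1 d.1) && G.E a.1 b.1 d.1)
  symm₁ x y z := by
    have h1 := H.symm₁ x.2 y.2 z.2
    have h2 := G.symm₁ x.1 y.1 z.1
    rw [h1, h2]
    unfold sameJ
    by_cases e1 : c x.1 = c y.1 <;> by_cases e2 : c y.1 = c z.1 <;> by_cases e3 : c x.1 = c z.1 <;>
      simp_all [eq_comm]
  symm₂ x y z := by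
    have h1 := H.symm₂ x.2 y.2 z.2
    have h2 := G.symm₂ x.1 y.1 z.1
    rw [h1, h2]
    unfold sameJ
    by_cases e1 : c x.1 = c y.1 <;> by_cases e2 : c y.1 = c z.1 <;> by_cases e3 : c x.1 = c z.1 <;>
      simp_all [eq_comm]
  irr x z := by
    rw [H.irr, G.irr]
    simp
  free x y z t := by
    have hs : ∀ p q r : V, sameJ c J p q = true → sameJ c J q r = true → sameJ c J p r = true := by
      intro p q r h1 h2
      unfold sameJ at h1 h2 ⊢
      simp only [Bool.and_eq_true, decide_eq_true_eq] at h1 h2 ⊢
      exact ⟨h1.1.trans h2.1, h1.2⟩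
    have hsy : ∀ p q : V, sameJ c J p q = true → sameJ c J q p = true := by
      intro p q h1
      unfold sameJ at h1 ⊢
      simp only [Bool.and_eq_true, decide_eq_true_eq] at h1 ⊢
      exact ⟨h1.1.symm, by rw [← h1.1]; exact h1.2⟩
    rintro ⟨h1, h2, h3⟩
    simp only [Bool.or_eq_true, Bool.and_eq_true, Bool.not_eq_true'] at h1 h2 h3
    have hF := H.free x.2 y.2 z.2 t.2
    have gF := G.free x.1 y.1 z.1 t.1
    rcases h1 with ⟨⟨a1, a2⟩, a3⟩ | ⟨⟨⟨a1, a2⟩, a3⟩, a4⟩
    · rcases h2 with ⟨⟨b1, b2⟩, b3⟩ | ⟨⟨⟨b1, b2⟩, b3⟩, b4⟩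
      · rcases h3 with ⟨⟨d1, d2⟩, d3⟩ | ⟨⟨⟨d1, d2⟩, d3⟩, d4⟩
        · exact hF ⟨a3, b3, d3⟩
        · have := hs _ _ _ a1 a2
          rw [this] at d1
          exact Bool.noConfusion d1
      · rw [a1] at b1
        exact Bool.noConfusion b1
    · rcases h2 with ⟨⟨b1, b2⟩, b3⟩ | ⟨⟨⟨b1, b2⟩, b3⟩, b4⟩
      · rw [a1] at b1
        exact Bool.noConfusion b1
      · rcases h3 with ⟨⟨d1, d2⟩, d3⟩ | ⟨⟨⟨d1, d2⟩, d3⟩, d4⟩
        · rw [a3] at d1
          exact Bool.noConfusion d1
        · exact gF ⟨a4, b4, d4⟩

end Defn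

section R

variable {V : Type} [Fintype V] (G : TG V) (w : V → ℝ) (c : V → Fin 6)

/-- the edges with two vertices in the class `k` and the third outside (ordered position) -/
noncomputable def KKs (k : Fin 6) : ℝ := T3 w (fun x y z =>
  pin c k x * pin c k y * ((1 - pin c k z) * ind (G.E x y z)))

omit [Fintype V] in
theorem pin_cases (k : Fin 6) (x : V) : pin c k x = 0 ∨ pin c k x = 1 := by
  unfold pin; split_ifs
  · right; rfl
  · left; rfl

theorem VV_T3 (k : Fin 6) : VV G w c k = T3 w (fun x y z =>
    pin c k x * pin c k y * pin c k z * ind (G.E x y z)) := by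
  unfold VV val T3
  refine sum_congr rfl fun x _ => sum_congr rfl fun y _ => sum_congr rfl fun z _ => ?_
  ring

theorem cl_cube (k : Fin 6) : cl w c k ^ 3 = T3 w (fun x y z =>
    pin c k x * pin c k y * pin c k z) := by
  rw [cl_eq_pin]
  unfold T3
  have e : ∀ s : ℝ, s ^ 3 = s * s * s := fun s => by ring
  rw [e, sum_mul_sum, sum_mul]
  refine sum_congr rfl fun x _ => ?_
  rw [sum_mul]
  refine sum_congr rfl fun y _ => ?_
  rw [mul_sum]
  refine sum_congr rfl fun z _ => ?_
  ring

/-- sum over `J` -/
noncomputable def sJ (J : Fin 6 → Bool) (f : Fin 6 → ℝ) : ℝ := ∑ k, ind (J k) * f k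

theorem sJ_T3 (J : Fin 6 → Bool) (F : Fin 6 → V → V → V → ℝ) :
    sJ J (fun k => T3 w (F k)) = T3 w (fun x y z => ∑ k, ind (J k) * F k x y z) := by
  unfold sJ T3
  simp only [mul_sum]
  rw [sum_comm]
  refine sum_congr rfl fun x _ => ?_
  rw [sum_comm]
  refine sum_congr rfl fun y _ => ?_
  rw [sum_comm]
  refine sum_congr rfl fun z _ => ?_
  refine sum_congr rfl fun k _ => ?_
  ring

omit [Fintype V] in
theorem pin_sum_single (J : Fin 6 → Bool) (x : V) (f : Fin 6 → ℝ) :
    ∑ k, ind (J k) * (pin c k x * f k) = ind (J (c x)) * f (c x) := by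
  have : ∀ k, ind (J k) * (pin c k x * f k) = if k = c x then ind (J k) * f k else 0 := by
    intro k
    unfold pin
    by_cases h : k = c x
    · rw [if_pos h.symm, if_pos h]; ring
    · rw [if_neg (fun h' => h h'.symm), if_neg h]; ring
  rw [sum_congr rfl (fun k _ => this k), sum_ite_eq', if_pos (mem_univ _)]

omit [Fintype V] in
/-- indicator form of the pairs in `J` -/
theorem ind_sameJ (J : Fin 6 → Bool) (x y : V) :
    ind (sameJ c J x y) = ind (J (c x)) * (if c x = c y then 1 else 0) := by
  unfold sameJ ind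
  by_cases h : c x = c y <;> by_cases h' : J (c x) = true <;> simp [h, h']

/-- the value of the new 3-graph -/
theorem val_repl {m : ℕ} (H : TG (Fin m)) (u : Fin m → ℝ) (hu : IsW u) (J : Fin 6 → Bool) :
    val (G.repl H c J) (fun p => w p.1 * u p.2) = val G w +
      sJ J (fun k => val H u * cl w c k ^ 3 - VV G w c k - 3 * KKs G w c k) := by
  -- the value as a triple sum over `V`
  have e1 : val (G.repl H c J) (fun p => w p.1 * u p.2) = T3 w (fun x y z =>
      ind (sameJ c J x y && sameJ c J y z) * val H u +
      ind (!(sameJ c J x y) && !(sameJ c J y z) && !(sameJ c J x z)) * ind (G.E x y z)) := by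
    have e2 : ∀ (x y z : V) (a b d : Fin m), ind ((G.repl H c J).E (x, a) (y, b) (z, d)) =
        ind (sameJ c J x y && sameJ c J y z) * ind (H.E a b d) +
        ind (!(sameJ c J x y) && !(sameJ c J y z) && !(sameJ c J x z)) * ind (G.E x y z) := by
      intro x y z a b d
      show ind ((sameJ c J x y && sameJ c J y z && H.E a b d) ||
        (!(sameJ c J x y) && !(sameJ c J y z) && !(sameJ c J x z) && G.E x y z)) = _
      cases sameJ c J x y <;> cases sameJ c J y z <;> cases sameJ c J x z <;>
        cases H.E a b d <;> cases G.E x y z <;> simp [ind]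
    unfold val T3
    rw [Fintype.sum_prod_type]
    refine sum_congr rfl fun x _ => ?_
    have e3 : ∀ a : Fin m, ∑ q : V × Fin m, ∑ r : V × Fin m, w x * u a * (w q.1 * u q.2) *
        (w r.1 * u r.2) * ind ((G.repl H c J).E (x, a) q r) =
        ∑ y, ∑ z, w x * w y * w z * (u a * ∑ b, ∑ d, u b * u d *
          (ind (sameJ c J x y && sameJ c J y z) * ind (H.E a b d) +
        ind (!(sameJ c J x y) && !(sameJ c J y z) && !(sameJ c J x z)) * ind (G.E x y z))) := by
      intro a
      rw [Fintype.sum_prod_type]
      refine sum_congr rfl fun y _ => ?_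
      have e4 : ∀ b : Fin m, ∑ r : V × Fin m, w x * u a * (w y * u b) *
        (w r.1 * u r.2) * ind ((G.repl H c J).E (x, a) (y, b) r) = ∑ z, ∑ d,
        w x * u a * (w y * u b) * (w z * u d) * (ind (sameJ c J x y && sameJ c J y z) *
        ind (H.E a b d) + ind (!(sameJ c J x y) && !(sameJ c J y z) && !(sameJ c J x z)) *
        ind (G.E x y z)) := by
        intro b
        rw [Fintype.sum_prod_type]
        refine sum_congr rfl fun z _ => sum_congr rfl fun d _ => ?_
        rw [e2]
      rw [sum_congr rfl (fun b _ => e4 b), sum_comm]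
      refine sum_congr rfl fun z _ => ?_
      rw [mul_sum, mul_sum]
      refine sum_congr rfl fun b _ => ?_
      rw [mul_sum, mul_sum]
      refine sum_congr rfl fun d _ => ?_
      ring
    rw [sum_congr rfl (fun a _ => e3 a), sum_comm]
    refine sum_congr rfl fun y _ => ?_
    rw [sum_comm]
    refine sum_congr rfl fun z _ => ?_
    rw [← mul_sum]
    congr 1
    have e5 : ∀ a : Fin m, u a * ∑ b, ∑ d, u b * u d *
          (ind (sameJ c J x y && sameJ c J y z) * ind (H.E a b d) +
        ind (!(sameJ c J x y) && !(sameJ c J y z) && !(sameJ c J x z)) * ind (G.E x y z)) =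
        ind (sameJ c J x y && sameJ c J y z) * ∑ b, ∑ d, u a * u b * u d * ind (H.E a b d) +
        (ind (!(sameJ c J x y) && !(sameJ c J y z) && !(sameJ c J x z)) * ind (G.E x y z)) *
          (u a) := by
      intro a
      have hs : ∑ b : Fin m, ∑ d : Fin m, u b * u d = 1 := by
        have : ∀ b : Fin m, ∑ d : Fin m, u b * u d = u b := by
          intro b; rw [← mul_sum, hu.sum_eq, mul_one]
        rw [sum_congr rfl (fun b _ => this b), hu.sum_eq]
      have e6 : (ind (!(sameJ c J x y) && !(sameJ c J y z) && !(sameJ c J x z)) *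
          ind (G.E x y z)) * u a = (ind (!(sameJ c J x y) && !(sameJ c J y z) &&
          !(sameJ c J x z)) * ind (G.E x y z)) * (u a * ∑ b : Fin m, ∑ d : Fin m, u b * u d) := by
        rw [hs, mul_one]
      rw [e6]
      simp only [mul_sum]
      rw [← sum_add_distrib]
      refine sum_congr rfl fun b _ => ?_
      rw [← sum_add_distrib]
      refine sum_congr rfl fun d _ => ?_
      ring
    rw [sum_congr rfl (fun a _ => e5 a), sum_add_distrib, ← mul_sum, ← mul_sum, hu.sum_eq,
      mul_one]
  -- the right hand side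
  have f1 : sJ J (fun k => val H u * cl w c k ^ 3 - VV G w c k - 3 * KKs G w c k) =
      T3 w (fun x y z => ind (sameJ c J x y && sameJ c J y z) * val H u -
        ind (sameJ c J x y && sameJ c J y z) * ind (G.E x y z) -
        (ind (sameJ c J x y && !(sameJ c J y z)) +
        (ind (sameJ c J y z && !(sameJ c J x y)) + ind (sameJ c J x z && !(sameJ c J y z)))) *
          ind (G.E x y z)) := by
    have g1 : ∀ k, cl w c k ^ 3 * val H u = T3 w (fun x y z =>
        pin c k x * (pin c k y * pin c k z * val H u)) := by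
      intro k
      rw [cl_cube, mul_comm, ← T3_mul]
      exact T3_congr w fun x y z => by ring
    have g2 : ∀ k, 3 * KKs G w c k = T3 w (fun x y z =>
        pin c k x * pin c k y * ((1 - pin c k z) * ind (G.E x y z)) +
        (pin c k y * pin c k z * ((1 - pin c k x) * ind (G.E x y z)) +
        pin c k x * pin c k z * ((1 - pin c k y) * ind (G.E x y z)))) := by
      intro k
      rw [T3_add, T3_add]
      have h1 := T3_swap23 w (fun x y z => pin c k x * pin c k y *
        ((1 - pin c k z) * ind (G.E x y z)))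
      have h2 := T3_swap13 w (fun x y z => pin c k x * pin c k y *
        ((1 - pin c k z) * ind (G.E x y z)))
      have h3 : T3 w (fun x y z => pin c k y * pin c k z * ((1 - pin c k x) *
          ind (G.E x y z))) = KKs G w c k := by
        unfold KKs
        rw [← h2]
        exact T3_congr w fun x y z => by rw [E_swap13]; ring
      have h4 : T3 w (fun x y z => pin c k x * pin c k z * ((1 - pin c k y) *
          ind (G.E x y z))) = KKs G w c k := by
        unfold KKs
        rw [← h1]
        exact T3_congr w fun x y z => by rw [G.symm₂]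
      rw [h3, h4]
      unfold KKs
      ring
    have g3 : (fun k => val H u * cl w c k ^ 3 - VV G w c k - 3 * KKs G w c k) = fun k =>
        T3 w (fun x y z => pin c k x * (pin c k y * pin c k z * val H u) -
          pin c k x * pin c k y * pin c k z * ind (G.E x y z) -
          (pin c k x * pin c k y * ((1 - pin c k z) * ind (G.E x y z)) +
          (pin c k y * pin c k z * ((1 - pin c k x) * ind (G.E x y z)) +
          pin c k x * pin c k z * ((1 - pin c k y) * ind (G.E x y z))))) := by
      funext k
      rw [T3_sub, T3_sub, ← g1, ← g2, VV_T3]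
      ring
    rw [g3, sJ_T3]
    refine T3_congr w fun x y z => ?_
    have i0 := ind_sameJ c J x y
    have split : ∀ k, ind (J k) * (pin c k x * (pin c k y * pin c k z * val H u) -
          pin c k x * pin c k y * pin c k z * ind (G.E x y z) -
          (pin c k x * pin c k y * ((1 - pin c k z) * ind (G.E x y z)) +
          (pin c k y * pin c k z * ((1 - pin c k x) * ind (G.E x y z)) +
          pin c k x * pin c k z * ((1 - pin c k y) * ind (G.E x y z))))) =
        ind (J k) * (pin c k x * (pin c k y * pin c k z * (val H u - ind (G.E x y z)) -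
          (pin c k y * ((1 - pin c k z) * ind (G.E x y z)) +
          pin c k z * ((1 - pin c k y) * ind (G.E x y z))))) -
        ind (J k) * (pin c k y * (pin c k z * ((1 - pin c k x) * ind (G.E x y z)))) := by
      intro k; ring
    rw [sum_congr rfl (fun k _ => split k), sum_sub_distrib,
      pin_sum_single c J x (fun k => pin c k y * pin c k z * (val H u - ind (G.E x y z)) -
          (pin c k y * ((1 - pin c k z) * ind (G.E x y z)) +
          pin c k z * ((1 - pin c k y) * ind (G.E x y z)))),
      pin_sum_single c J y (fun k => pin c k z * ((1 - pin c k x) * ind (G.E x y z)))]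
    unfold pin sameJ
    by_cases h1 : c x = c y
    · by_cases h2 : c y = c z
      · rw [h1, h2]
        by_cases hJ : J (c z) = true
        · simp [ind, hJ]
        · have hJ' : J (c z) = false := by simpa using hJ
          simp [ind, hJ']
      · have h3 : ¬ c x = c z := fun h => h2 (h1.symm.trans h)
        have h2' : ¬ c z = c y := fun h => h2 h.symm
        by_cases hJ : J (c y) = true
        · simp [h1, h2, h2', ind, hJ]
        · have hJ' : J (c y) = false := by simpa using hJ
          simp [h1, h2, h2', ind, hJ']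
    · have h1' : ¬ c y = c x := fun h => h1 h.symm
      by_cases h2 : c y = c z
      · have h3 : ¬ c x = c z := fun h => h1 (h.trans h2.symm)
        have h3' : ¬ c z = c x := fun h => h3 h.symm
        by_cases hJ : J (c z) = true
        · simp [h1, h1', h2, h3, h3', ind, hJ]
        · have hJ' : J (c z) = false := by simpa using hJ
          simp [h1, h1', h2, h3, h3', ind, hJ']
      · have h2' : ¬ c z = c y := fun h => h2 h.symm
        by_cases h3 : c x = c z
        · by_cases hJ : J (c z) = true
          · simp [h1, h1', h2, h2', h3, ind, hJ]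
          · have hJ' : J (c z) = false := by simpa using hJ
            simp [h1, h1', h2, h2', h3, ind, hJ']
        · have h3' : ¬ c z = c x := fun h => h3 h.symm
          simp [h1, h1', h2, h2', h3, h3', ind]
  rw [e1, f1]
  have f2 : val G w = T3 w (fun x y z => ind (G.E x y z)) := rfl
  rw [f2, ← T3_add]
  refine T3_congr w fun x y z => ?_
  have hs : sameJ c J x y = true → sameJ c J y z = true → sameJ c J x z = true := by
    intro h1 h2
    unfold sameJ at h1 h2 ⊢
    simp only [Bool.and_eq_true, decide_eq_true_eq] at h1 h2 ⊢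
    exact ⟨h1.1.trans h2.1, h1.2⟩
  have hs2 : sameJ c J x y = true → sameJ c J x z = true → sameJ c J y z = true := by
    intro h1 h2
    unfold sameJ at h1 h2 ⊢
    simp only [Bool.and_eq_true, decide_eq_true_eq] at h1 h2 ⊢
    exact ⟨h1.1.symm.trans h2.1, by rw [← h1.1]; exact h1.2⟩
  have hs3 : sameJ c J y z = true → sameJ c J x z = true → sameJ c J x y = true := by
    intro h1 h2
    unfold sameJ at h1 h2 ⊢
    simp only [Bool.and_eq_true, decide_eq_true_eq] at h1 h2 ⊢
    exact ⟨h2.1.trans h1.1.symm, h2.2⟩
  cases h1 : sameJ c J x y <;> cases h2 : sameJ c J y z <;> cases h3 : sameJ c J x z <;>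
    simp_all [ind]

/-- Replacement lemma. -/
theorem repl_le (hw : ∀ x, 0 ≤ w x) (J : Fin 6 → Bool) :
    val G w + sJ J (fun k => rho * cl w c k ^ 3 - VV G w c k - 3 * KKs G w c k) ≤
      rho * (∑ x, w x) ^ 3 := by
  have hcl : ∀ k, 0 ≤ cl w c k := fun k => by
    rw [cl_eq_pin]
    exact sum_nonneg fun x _ => mul_nonneg (hw x) (pin_nonneg c k x)
  have hsum : 0 ≤ sJ J (fun k => cl w c k ^ 3) := by
    unfold sJ
    exact sum_nonneg fun k _ => mul_nonneg (ind_nonneg _) (pow_nonneg (hcl k) 3)
  have key : ∀ ε : ℝ, 0 < ε → val G w + sJ J (fun k => rho * cl w c k ^ 3 - VV G w c k -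
      3 * KKs G w c k) ≤ rho * (∑ x, w x) ^ 3 + ε * sJ J (fun k => cl w c k ^ 3) := by
    intro ε hε
    obtain ⟨m, H, u, hu, -, -, hval⟩ := exists_near ε hε
    have h1 := val_le_rho_hom (G.repl H c J) (fun p => w p.1 * u p.2)
      (fun p => mul_nonneg (hw _) (hu.nonneg _))
    rw [val_repl G w c H u hu J] at h1
    have h2 : ∑ p : V × Fin m, w p.1 * u p.2 = ∑ x, w x := by
      rw [Fintype.sum_prod_type]
      refine sum_congr rfl fun x _ => ?_
      show ∑ y, w x * u y = w x
      rw [← mul_sum, hu.sum_eq, mul_one]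
    rw [h2] at h1
    have h3 : sJ J (fun k => rho * cl w c k ^ 3 - VV G w c k - 3 * KKs G w c k) ≤
        sJ J (fun k => val H u * cl w c k ^ 3 - VV G w c k - 3 * KKs G w c k) +
          ε * sJ J (fun k => cl w c k ^ 3) := by
      unfold sJ
      rw [mul_sum, ← sum_add_distrib]
      refine sum_le_sum fun k _ => ?_
      have h4 : 0 ≤ ind (J k) := ind_nonneg _
      have h5 : 0 ≤ cl w c k ^ 3 := pow_nonneg (hcl k) 3
      have h6 : 0 ≤ ind (J k) * ((val H u + ε - rho) * cl w c k ^ 3) :=
        mul_nonneg h4 (mul_nonneg (by linarith) h5)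
      nlinarith
    linarith
  refine le_of_forall_pos_le_add fun δ hδ => ?_
  have h := key (δ / (sJ J (fun k => cl w c k ^ 3) + 1)) (by positivity)
  have h2 : δ / (sJ J (fun k => cl w c k ^ 3) + 1) * sJ J (fun k => cl w c k ^ 3) ≤ δ := by
    rw [div_mul_eq_mul_div, div_le_iff₀ (by linarith)]
    nlinarith
  linarith

end R

end K4m
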