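import Mathlib
import Pool.Agent.Lib.MP_392c14_co.Root4

/-!
# The masses of the classes, global version

The masses of the classes of a partition are close to `1/6` as soon as the averaged degrees are
nearly those of the ideal structure, without any a priori information (except that no class is
smaller than its error).
-/

set_option autoImplicit false

namespace K4m

open Finset

section PolyGlobal

theorem c5_le (b c d e f : ℝ) (hb : 0 ≤ b) (hc : 0 ≤ c) (hd : 0 ≤ d) (he : 0 ≤ e) (hf : 0 ≤ f) :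
    4 * (b * c + c * d + d * e + e * f + f * b) ≤ (b + c + d + e + f) ^ 2 := by
  rcases le_total b c with h | h
  · have h1 := mul_nonneg hf (sub_nonneg.2 h)
    have h2 := mul_nonneg hb he
    have h3 := sq_nonneg (b - c + d - e + f)
    have e1 : (b + c + d + e + f) ^ 2 - 4 * (b * c + c * d + d * e + e * f + f * b) =
        (b - c + d - e + f) ^ 2 + 4 * (b * e) + 4 * (f * (c - b)) := by ring
    linarith
  · have h1 := mul_nonneg hd (sub_nonneg.2 h)
    have h2 := mul_nonneg hc he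
    have h3 := sq_nonneg (d - e + f - b + c)
    have e1 : (b + c + d + e + f) ^ 2 - 4 * (b * c + c * d + d * e + e * f + f * b) =
        (d - e + f - b + c) ^ 2 + 4 * (c * e) + 4 * (d * (b - c)) := by ring
    linarith

theorem pent_quad (a b c d e f : ℝ) (h : a + b + c + d + e + f = 0) :
    2 * (b * c + c * d + d * e + e * f + f * b) ≤
      5 / 8 * (a ^ 2 + b ^ 2 + c ^ 2 + d ^ 2 + e ^ 2 + f ^ 2) ∧
    -(13 / 8 * (a ^ 2 + b ^ 2 + c ^ 2 + d ^ 2 + e ^ 2 + f ^ 2)) ≤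
      2 * (b * c + c * d + d * e + e * f + f * b) := by
  have ha : a = -(b + c + d + e + f) := by linarith
  constructor
  · have e1 : 5 / 8 * (a ^ 2 + b ^ 2 + c ^ 2 + d ^ 2 + e ^ 2 + f ^ 2) -
      2 * (b * c + c * d + d * e + e * f + f * b) =
      (5/4)*(b + (-3/10)*c + (1/2)*d + (1/2)*e + (-3/10)*f)^2 +
      (91/80)*(c + (-15/91)*d + (5/7)*e + (41/91)*f)^2 +
      (165/182)*(d + (-403/660)*e + (653/660)*f)^2 + (101/5280)*(e + (-31/101)*f)^2 +
      (7/404)*f^2 := by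
      rw [ha]; ring
    have e2 : 0 ≤ (5/4)*(b + (-3/10)*c + (1/2)*d + (1/2)*e + (-3/10)*f)^2 +
      (91/80)*(c + (-15/91)*d + (5/7)*e + (41/91)*f)^2 +
      (165/182)*(d + (-403/660)*e + (653/660)*f)^2 + (101/5280)*(e + (-31/101)*f)^2 +
      (7/404)*f^2 := by positivity
    linarith
  · have e1 : 13 / 8 * (a ^ 2 + b ^ 2 + c ^ 2 + d ^ 2 + e ^ 2 + f ^ 2) +
      2 * (b * c + c * d + d * e + e * f + f * b) =
      (13/4)*(b + (21/26)*c + (1/2)*d + (1/2)*e + (21/26)*f)^2 +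
      (235/208)*(c + (273/235)*d + (13/47)*e + (-103/235)*f)^2 +
      (429/470)*(d + (2725/1716)*e + (1669/1716)*f)^2 + (677/13728)*(e + (545/677)*f)^2 +
      (47/2708)*f^2 := by
      rw [ha]; ring
    have e2 : 0 ≤ (13/4)*(b + (21/26)*c + (1/2)*d + (1/2)*e + (21/26)*f)^2 +
      (235/208)*(c + (273/235)*d + (13/47)*e + (-103/235)*f)^2 +
      (429/470)*(d + (2725/1716)*e + (1669/1716)*f)^2 + (677/13728)*(e + (545/677)*f)^2 +
      (47/2708)*f^2 := by positivity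
    linarith

theorem idp_quad (y : Fin 6 → ℝ) (hy : ∑ i, y i = 0) (k : Fin 6) :
    idp y k ≤ 5 / 8 * ∑ i, y i ^ 2 ∧ -(13 / 8 * ∑ i, y i ^ 2) ≤ idp y k := by
  obtain ⟨h0, h1, h2, h3, h4, h5⟩ := idp_list y
  simp only [Fin.sum_univ_six] at hy ⊢
  fin_cases k
  · have h := pent_quad (y 0) (y 2) (y 1) (y 3) (y 5) (y 4) (by linarith)
    simp only [Fin.zero_eta]
    rw [h0]
    constructor <;> linarith [h.1, h.2]
  · have h := pent_quad (y 1) (y 2) (y 0) (y 3) (y 4) (y 5) (by linarith)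
    simp only [Fin.mk_one]
    rw [h1]
    constructor <;> linarith [h.1, h.2]
  · have h := pent_quad (y 2) (y 1) (y 0) (y 4) (y 3) (y 5) (by linarith)
    simp only [Fin.reduceFinMk]
    rw [h2]
    constructor <;> linarith [h.1, h.2]
  · have h := pent_quad (y 3) (y 1) (y 0) (y 5) (y 2) (y 4) (by linarith)
    simp only [Fin.reduceFinMk]
    rw [h3]
    constructor <;> linarith [h.1, h.2]
  · have h := pent_quad (y 4) (y 2) (y 0) (y 5) (y 1) (y 3) (by linarith)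
    simp only [Fin.reduceFinMk]
    rw [h4]
    constructor <;> linarith [h.1, h.2]
  · have h := pent_quad (y 5) (y 3) (y 0) (y 4) (y 1) (y 2) (by linarith)
    simp only [Fin.reduceFinMk]
    rw [h5]
    constructor <;> linarith [h.1, h.2]

/-- the ideal degree at a class, expanded around the centre -/
theorem idp_expand (x : Fin 6 → ℝ) (hx : ∑ i, x i = 1) (k : Fin 6) :
    idp x k = 10 / 36 - 2 / 3 * (x k - 1 / 6) + idp (fun i => x i - 1 / 6) k := by
  obtain ⟨h0, h1, h2, h3, h4, h5⟩ := idp_list x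
  obtain ⟨g0, g1, g2, g3, g4, g5⟩ := idp_list (fun i => x i - 1 / 6)
  simp only [Fin.sum_univ_six] at hx
  have e5 : x 5 = 1 - x 0 - x 1 - x 2 - x 3 - x 4 := by linarith
  fin_cases k
  · simp only [Fin.zero_eta]
    rw [h0, g0, e5]; ring
  · simp only [Fin.mk_one]
    rw [h1, g1, e5]; ring
  · simp only [Fin.reduceFinMk]
    rw [h2, g2, e5]; ring
  · simp only [Fin.reduceFinMk]
    rw [h3, g3, e5]; ring
  · simp only [Fin.reduceFinMk]
    rw [h4, g4, e5]; ring
  · simp only [Fin.reduceFinMk]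
    rw [h5, g5, e5]; ring

theorem idp_le_sq (x : Fin 6 → ℝ) (hx : ∑ i, x i = 1) (h0 : ∀ i, 0 ≤ x i) (k : Fin 6) :
    idp x k ≤ (1 - x k) ^ 2 / 2 := by
  obtain ⟨g0, g1, g2, g3, g4, g5⟩ := idp_list x
  simp only [Fin.sum_univ_six] at hx
  fin_cases k
  · have h := c5_le (x 2) (x 1) (x 3) (x 5) (x 4) (h0 _) (h0 _) (h0 _) (h0 _) (h0 _)
    simp only [Fin.zero_eta]
    have e : x 2 + x 1 + x 3 + x 5 + x 4 = 1 - x 0 := by linarith
    rw [e] at h
    rw [g0]; linarith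
  · have h := c5_le (x 2) (x 0) (x 3) (x 4) (x 5) (h0 _) (h0 _) (h0 _) (h0 _) (h0 _)
    simp only [Fin.mk_one]
    have e : x 2 + x 0 + x 3 + x 4 + x 5 = 1 - x 1 := by linarith
    rw [e] at h
    rw [g1]; linarith
  · have h := c5_le (x 1) (x 0) (x 4) (x 3) (x 5) (h0 _) (h0 _) (h0 _) (h0 _) (h0 _)
    simp only [Fin.reduceFinMk]
    have e : x 1 + x 0 + x 4 + x 3 + x 5 = 1 - x 2 := by linarith
    rw [e] at h
    rw [g2]; linarith
  · have h := c5_le (x 1) (x 0) (x 5) (x 2) (x 4) (h0 _) (h0 _) (h0 _) (h0 _) (h0 _)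
    simp only [Fin.reduceFinMk]
    have e : x 1 + x 0 + x 5 + x 2 + x 4 = 1 - x 3 := by linarith
    rw [e] at h
    rw [g3]; linarith
  · have h := c5_le (x 2) (x 0) (x 5) (x 1) (x 3) (h0 _) (h0 _) (h0 _) (h0 _) (h0 _)
    simp only [Fin.reduceFinMk]
    have e : x 2 + x 0 + x 5 + x 1 + x 3 = 1 - x 4 := by linarith
    rw [e] at h
    rw [g4]; linarith
  · have h := c5_le (x 3) (x 0) (x 4) (x 1) (x 2) (h0 _) (h0 _) (h0 _) (h0 _) (h0 _)
    simp only [Fin.reduceFinMk]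
    have e : x 3 + x 0 + x 4 + x 1 + x 2 = 1 - x 5 := by linarith
    rw [e] at h
    rw [g5]; linarith

theorem blk_diag (j k : Fin 6) : blk j k k = 0 := by
  have h : D6.E j k k = false := by
    rw [D6.symm₁ k j k, ← D6.symm₂ k j k]
    exact D6.irr k j
  unfold blk
  rw [h]
  rfl

theorem idp_le_diag (x : Fin 6 → ℝ) (hx : ∑ i, x i = 1) (h0 : ∀ i, 0 ≤ x i) (j k : Fin 6) :
    idp x j ≤ 1 - x k ^ 2 := by
  have h1 : 1 - idp x j = ∑ a, ∑ b, (1 - blk j a b) * (x a * x b) := by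
    have e : (1 : ℝ) = ∑ a, ∑ b, x a * x b := by
      rw [← sum_mul_sum, hx, one_mul]
    unfold idp
    rw [e, ← sum_sub_distrib]
    refine sum_congr rfl fun a _ => ?_
    rw [← sum_sub_distrib]
    refine sum_congr rfl fun b _ => ?_
    rw [← e]; ring
  have hn : ∀ a b, 0 ≤ (1 - blk j a b) * (x a * x b) := fun a b =>
    mul_nonneg (by have := blk_le_one j a b; linarith) (mul_nonneg (h0 a) (h0 b))
  have h2 : (1 - blk j k k) * (x k * x k) ≤ ∑ a, ∑ b, (1 - blk j a b) * (x a * x b) := by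
    refine le_trans ?_ (single_le_sum (fun a _ => sum_nonneg fun b _ => hn a b) (mem_univ k))
    exact single_le_sum (f := fun b => (1 - blk j k b) * (x k * x b)) (fun b _ => hn k b)
      (mem_univ k)
  rw [blk_diag] at h2
  have h3 : (1 - (0 : ℝ)) * (x k * x k) = x k ^ 2 := by ring
  rw [h3] at h2
  linarith

/-- the polynomial as a function of the deviations from the centre -/
theorem F_expand (r : ℝ) (x : Fin 6 → ℝ) (hx : ∑ i, x i = 1) :
    Tb x + r * ∑ i, x i ^ 3 = (10 + r) / 36 - (1 - r / 2) * ∑ i, (x i - 1 / 6) ^ 2 +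
      Tb (fun i => x i - 1 / 6) + r * ∑ i, (x i - 1 / 6) ^ 3 := by
  rw [Tb_eq, Tb_eq]
  simp only [Fin.sum_univ_six] at hx ⊢
  have e5 : x 5 = 1 - x 0 - x 1 - x 2 - x 3 - x 4 := by linarith
  rw [e5]
  ring

theorem Tb_dev (y : Fin 6 → ℝ) (hy : ∑ i, y i = 0) :
    Tb y ≤ 9 / 8 * (∑ i, |y i|) * ∑ i, y i ^ 2 := by
  set S := ∑ i, y i ^ 2 with hS
  have h1 : Tb y = ∑ k, y k * (idp y k + 1 / 2 * S) := by
    have e : ∑ k, y k * (idp y k + 1 / 2 * S) = ∑ k, y k * idp y k + (∑ k, y k) * (1 / 2 * S) := by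
      rw [sum_mul, ← sum_add_distrib]
      exact sum_congr rfl fun k _ => by ring
    rw [e, hy, zero_mul, add_zero, sum_mul_idp]
  rw [h1]
  have e2 : 9 / 8 * (∑ i, |y i|) * S = ∑ k, |y k| * (9 / 8 * S) := by
    rw [← sum_mul]; ring
  rw [e2]
  refine sum_le_sum fun k _ => ?_
  have h2 : |idp y k + 1 / 2 * S| ≤ 9 / 8 * S := by
    obtain ⟨a, b⟩ := idp_quad y hy k
    rw [abs_le]
    constructor <;> linarith
  calc y k * (idp y k + 1 / 2 * S) ≤ |y k * (idp y k + 1 / 2 * S)| := le_abs_self _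
    _ = |y k| * |idp y k + 1 / 2 * S| := abs_mul _ _
    _ ≤ |y k| * (9 / 8 * S) := mul_le_mul_of_nonneg_left h2 (abs_nonneg _)

theorem F_slack (r : ℝ) (hr : 0 ≤ r) (hr' : r ≤ 1 / 3) (x : Fin 6 → ℝ) (hx : ∑ i, x i = 1)
    (L b : ℝ) (hb : 0 ≤ b) (hxb : ∀ i, x i - 1 / 6 ≤ b) (hL : ∑ i, |x i - 1 / 6| ≤ L) :
    Tb x + r * ∑ i, x i ^ 3 ≤
      (10 + r) / 36 - (5 / 6 - 9 / 8 * L - b / 3) * ∑ i, (x i - 1 / 6) ^ 2 := by
  have hy : ∑ i, (x i - 1 / 6) = 0 := by
    rw [sum_sub_distrib, hx]; norm_num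
  rw [F_expand r x hx]
  set S := ∑ i, (x i - 1 / 6) ^ 2 with hS
  have hS0 : 0 ≤ S := sum_nonneg fun i _ => sq_nonneg _
  have h1 := Tb_dev (fun i => x i - 1 / 6) hy
  have h2 : 9 / 8 * (∑ i, |x i - 1 / 6|) * S ≤ 9 / 8 * L * S :=
    mul_le_mul_of_nonneg_right (by linarith) hS0
  have h3 : ∑ i, (x i - 1 / 6) ^ 3 ≤ b * S := by
    rw [hS, mul_sum]
    refine sum_le_sum fun i _ => ?_
    have e : (x i - 1 / 6) ^ 3 = (x i - 1 / 6) * (x i - 1 / 6) ^ 2 := by ring
    rw [e]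
    exact mul_le_mul_of_nonneg_right (hxb i) (sq_nonneg _)
  have h4 : r * ∑ i, (x i - 1 / 6) ^ 3 ≤ 1 / 3 * (b * S) := by
    calc r * ∑ i, (x i - 1 / 6) ^ 3 ≤ r * (b * S) := mul_le_mul_of_nonneg_left h3 hr
      _ ≤ 1 / 3 * (b * S) := mul_le_mul_of_nonneg_right hr' (mul_nonneg hb hS0)
  have h5 : (1 - r / 2) * S ≥ 5 / 6 * S := mul_le_mul_of_nonneg_right (by linarith) hS0
  have h6 : Tb (fun i => x i - 1 / 6) ≤ 9 / 8 * L * S := h1.trans h2
  have e : (5 / 6 - 9 / 8 * L - b / 3) * S = 5 / 6 * S - 9 / 8 * L * S - 1 / 3 * (b * S) := by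
    ring
  rw [e]
  linarith

/-- if all masses are at most `11/40`, the total deviation is at most `2/3` -/
theorem abs_dev (y : Fin 6 → ℝ) (hy : ∑ i, y i = 0) (h0 : ∀ i, -(1 / 6) ≤ y i)
    (h1 : ∀ i, y i ≤ 13 / 120) : ∑ i, |y i| ≤ 2 / 3 := by
  classical
  set P := univ.filter (fun i => 0 ≤ y i) with hP
  have e1 : ∑ i, |y i| = ∑ i ∈ P, y i - ∑ i ∈ Pᶜ, y i := by
    have h2 : ∑ i ∈ P, |y i| = ∑ i ∈ P, y i := sum_congr rfl fun i hi =>
      abs_of_nonneg (mem_filter.1 hi).2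
    have h3 : ∑ i ∈ Pᶜ, |y i| = -∑ i ∈ Pᶜ, y i := by
      rw [← sum_neg_distrib]
      refine sum_congr rfl fun i hi => abs_of_nonpos ?_
      have h4 : i ∉ P := mem_compl.1 hi
      rw [hP, mem_filter] at h4
      push Not at h4
      exact (h4 (mem_univ _)).le
    rw [← sum_add_sum_compl P, h2, h3]; ring
  have e2 : ∑ i ∈ P, y i + ∑ i ∈ Pᶜ, y i = 0 := by
    rw [sum_add_sum_compl P]; exact hy
  have hc : (P.card : ℝ) + (Pᶜ.card : ℝ) = 6 := by
    have := card_add_card_compl P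
    rw [Fintype.card_fin] at this
    exact_mod_cast this
  have a1 : ∑ i ∈ P, y i ≤ P.card * (13 / 120) := by
    have := sum_le_card_nsmul P y (13 / 120) fun i _ => h1 i
    rw [nsmul_eq_mul] at this
    exact this
  have a2 : (Pᶜ.card : ℝ) * (-(1 / 6)) ≤ ∑ i ∈ Pᶜ, y i := by
    have := card_nsmul_le_sum Pᶜ y (-(1 / 6)) fun i _ => h0 i
    rw [nsmul_eq_mul] at this
    exact this
  rcases le_or_gt P.card 3 with h | h
  · have h' : (P.card : ℝ) ≤ 3 := by exact_mod_cast h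
    rw [e1]; linarith
  · have h' : (4 : ℝ) ≤ P.card := by exact_mod_cast h
    rw [e1]; linarith

/-- sums of absolute values and squares -/
theorem abs_sum_sq (y : Fin 6 → ℝ) (s l : ℝ) (hl : 0 ≤ l) (h : ∑ i, y i ^ 2 ≤ s)
    (hs : 6 * s ≤ l ^ 2) : ∑ i, |y i| ≤ l := by
  have h1 : (∑ i, |y i|) ^ 2 ≤ 6 * ∑ i, y i ^ 2 := by
    have h2 := sq_sum_le_card_mul_sum_sq (s := (univ : Finset (Fin 6))) (f := fun i => |y i|)
    simp only [sq_abs, card_univ, Fintype.card_fin] at h2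
    exact_mod_cast h2
  exact abs_le_of_sq_le_sq' (h1.trans (by linarith)) hl |>.2

theorem abs_one_sq (y : Fin 6 → ℝ) (s l : ℝ) (hl : 0 ≤ l) (h : ∑ i, y i ^ 2 ≤ s)
    (hs : s ≤ l ^ 2) (k : Fin 6) : |y k| ≤ l := by
  have h1 : y k ^ 2 ≤ ∑ i, y i ^ 2 :=
    single_le_sum (f := fun i => y i ^ 2) (fun i _ => sq_nonneg _) (mem_univ k)
  exact abs_le_of_sq_le_sq (h1.trans (h.trans hs)) hl

end PolyGlobal

section Num

/-- the linear step -/
theorem lin_step (r t ε η : ℝ) (x E : Fin 6 → ℝ) (hx : ∑ i, x i = 1) (hr0 : 2 / 7 ≤ r)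
    (hr1 : r ≤ 1 / 3) (ht : r - ε ≤ t) (hE : ∀ k, t * x k ≤ r * x k ^ 3 + x k * idp x k + E k)
    (hE0 : ∀ k, 0 ≤ E k) (hη : ∑ k, E k ≤ η) (a : ℝ) (ha : 0 < a) (hxa : ∀ k, a ≤ x k)
    (hε : 0 ≤ ε) (s : ℝ) (hs : ∑ i, (x i - 1 / 6) ^ 2 ≤ s) :
    (∀ k, |x k - 1 / 6| ≤ 9 / 5 * (η / a + 115 / 24 * s + 5 * ε)) ∧
      ∑ k, |x k - 1 / 6| ≤ 18 / 5 * (η / a + 23 / 4 * s + 6 * ε) := by
  set S := ∑ i, (x i - 1 / 6) ^ 2 with hS
  have hS0 : 0 ≤ S := sum_nonneg fun i _ => sq_nonneg _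
  have s0 : 0 ≤ s := hS0.trans hs
  have hy : ∑ i, (x i - 1 / 6) = 0 := by
    rw [sum_sub_distrib, hx]; norm_num
  set β := 23 / 24 * s + ε with hβ
  have β0 : 0 ≤ β := by rw [hβ]; linarith
  -- upper bound
  have h1 : ∀ k, x k - 1 / 6 ≤ 9 / 5 * (E k / a + β) := by
    intro k
    have xk : 0 < x k := lt_of_lt_of_le ha (hxa k)
    have q1 : t ≤ r * x k ^ 2 + idp x k + E k / a := by
      have q2 : x k * t ≤ x k * (r * x k ^ 2 + idp x k + E k / x k) := by
        have e : x k * (r * x k ^ 2 + idp x k + E k / x k) =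
            r * x k ^ 3 + x k * idp x k + E k := by
          field_simp
        rw [e]; linarith [hE k]
      have q3 := le_of_mul_le_mul_left q2 xk
      have q4 : E k / x k ≤ E k / a := div_le_div_of_nonneg_left (hE0 k) ha (hxa k)
      linarith
    have q2 := (idp_quad (fun i => x i - 1 / 6) hy k).1
    rw [← hS] at q2
    rw [idp_expand x hx k] at q1
    have q3 : (x k - 1 / 6) ^ 2 ≤ S :=
      single_le_sum (f := fun i => (x i - 1 / 6) ^ 2) (fun i _ => sq_nonneg _) (mem_univ k)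
    have q4 : r * x k ^ 2 = r / 36 + r / 3 * (x k - 1 / 6) + r * (x k - 1 / 6) ^ 2 := by ring
    have q5 : r * (x k - 1 / 6) ^ 2 ≤ 1 / 3 * S := by
      calc r * (x k - 1 / 6) ^ 2 ≤ 1 / 3 * (x k - 1 / 6) ^ 2 :=
            mul_le_mul_of_nonneg_right hr1 (sq_nonneg _)
        _ ≤ 1 / 3 * S := by linarith
    have q6 : (2 / 3 - r / 3) * (x k - 1 / 6) ≤ E k / a + β := by
      rw [hβ]; linarith
    rcases le_total (x k - 1 / 6) 0 with h | h
    · have : 0 ≤ E k / a := div_nonneg (hE0 k) ha.le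
      linarith
    · have : 5 / 9 * (x k - 1 / 6) ≤ (2 / 3 - r / 3) * (x k - 1 / 6) :=
        mul_le_mul_of_nonneg_right (by linarith) h
      linarith
  have hEa : ∀ k, 0 ≤ E k / a := fun k => div_nonneg (hE0 k) ha.le
  have hsum : ∑ k, E k / a ≤ η / a := by
    rw [← sum_div]
    exact div_le_div_of_nonneg_right hη ha.le
  have hsumk : ∀ k, E k / a + ∑ j ∈ univ.erase k, E j / a ≤ η / a := by
    intro k
    rw [add_sum_erase _ (fun j => E j / a) (mem_univ k)]
    exact hsum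
  constructor
  · intro k
    have hk := hsumk k
    have n1 : 0 ≤ ∑ j ∈ univ.erase k, E j / a := sum_nonneg fun j _ => hEa j
    have e : (x k - 1 / 6) + ∑ j ∈ univ.erase k, (x j - 1 / 6) = 0 := by
      rw [add_sum_erase _ (fun j => x j - 1 / 6) (mem_univ k)]
      exact hy
    have h2 : ∑ j ∈ univ.erase k, (x j - 1 / 6) ≤
        ∑ j ∈ univ.erase k, 9 / 5 * (E j / a + β) := sum_le_sum fun j _ => h1 j
    have h3 : ∑ j ∈ univ.erase k, 9 / 5 * (E j / a + β) =
        9 / 5 * (∑ j ∈ univ.erase k, E j / a + 5 * β) := by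
      rw [← mul_sum, sum_add_distrib, sum_const, card_erase_of_mem (mem_univ k), card_univ,
        Fintype.card_fin, nsmul_eq_mul]
      norm_num
    rw [h3] at h2
    have h4 := h1 k
    have h5 := hEa k
    rw [abs_le]
    constructor
    · rw [hβ] at h2; linarith
    · rw [hβ] at h4; linarith
  · have e : ∀ k, |x k - 1 / 6| = 2 * max (x k - 1 / 6) 0 - (x k - 1 / 6) := by
      intro k
      rcases le_total (x k - 1 / 6) 0 with h | h
      · rw [abs_of_nonpos h, max_eq_right h]; ring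
      · rw [abs_of_nonneg h, max_eq_left h]; ring
    have h2 : ∑ k, |x k - 1 / 6| = 2 * ∑ k, max (x k - 1 / 6) 0 := by
      rw [sum_congr rfl fun k _ => e k, sum_sub_distrib, hy, sub_zero, mul_sum]
    have h3 : ∑ k, max (x k - 1 / 6) 0 ≤ ∑ k, 9 / 5 * (E k / a + β) :=
      sum_le_sum fun k _ => max_le (h1 k) (by have := hEa k; linarith)
    have h4 : ∑ k, 9 / 5 * (E k / a + β) = 9 / 5 * (∑ k, E k / a + 6 * β) := by
      rw [← mul_sum, sum_add_distrib, sum_const, card_univ, Fintype.card_fin, nsmul_eq_mul]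
      norm_num
    rw [h2]
    rw [h4, hβ] at h3
    linarith

theorem S_le_prod (y : Fin 6 → ℝ) (m l : ℝ) (hm : ∀ k, |y k| ≤ m) (hl : ∑ k, |y k| ≤ l) (m0 : 0 ≤ m) :
    ∑ k, y k ^ 2 ≤ m * l := by
  calc ∑ k, y k ^ 2 ≤ ∑ k, m * |y k| := by
        refine sum_le_sum fun k _ => ?_
        rw [← sq_abs, sq]
        exact mul_le_mul_of_nonneg_right (hm k) (abs_nonneg _)
    _ = m * ∑ k, |y k| := by rw [mul_sum]
    _ ≤ m * l := mul_le_mul_of_nonneg_left hl m0

/-- The masses of the classes from the averaged degrees, no a priori box. -/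
theorem sizes0_num (r t ε η : ℝ) (x E : Fin 6 → ℝ) (hx : ∑ i, x i = 1) (hx0 : ∀ i, 0 ≤ x i)
    (hr0 : 2 / 7 ≤ r) (hr1 : r ≤ 1 / 3) (ht : r - ε ≤ t)
    (hE : ∀ k, t * x k ≤ r * x k ^ 3 + x k * idp x k + E k)
    (hE0 : ∀ k, 0 ≤ E k) (hη : ∑ k, E k ≤ η) (hε : 0 ≤ ε) (hz : η + ε ≤ 1 / 4000)
    (hmin : ∀ k, 4 * E k < x k) :
    (∀ k, |x k - 1 / 6| ≤ 25 / 2 * (η + ε)) ∧ ∑ i, (x i - 1 / 6) ^ 2 ≤ 320 * (η + ε) ^ 2 := by
  set z := η + ε with hzd
  have hEη : ∀ k, E k ≤ η := fun k => (single_le_sum (fun i _ => hE0 i) (mem_univ k)).trans hη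
  have η0 : 0 ≤ η := (hE0 0).trans (hEη 0)
  have z0 : 0 ≤ z := by rw [hzd]; linarith
  have xle1 : ∀ k, x k ≤ 1 := fun k => by
    rw [← hx]; exact single_le_sum (fun i _ => hx0 i) (mem_univ k)
  -- no class is large
  have hbox : ∀ k, x k ≤ 11 / 40 := by
    intro k
    by_contra hne
    push Not at hne
    have q1 := hE k
    have q2 := idp_le_sq x hx hx0 k
    have q3 : x k * idp x k ≤ x k * ((1 - x k) ^ 2 / 2) := mul_le_mul_of_nonneg_left q2 (hx0 k)
    have q4 : (r - ε) * x k ≤ t * x k := mul_le_mul_of_nonneg_right ht (hx0 k)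
    have q5 : ε * x k ≤ ε * 1 := mul_le_mul_of_nonneg_left (xle1 k) hε
    have q6 : r * (x k * (1 - x k ^ 2)) - x k * ((1 - x k) ^ 2 / 2) ≤ z := by
      have := hEη k
      rw [hzd]
      linarith
    have q7 : 0 ≤ x k * (1 - x k ^ 2) := by
      have := hx0 k
      have := xle1 k
      refine mul_nonneg (hx0 k) ?_
      nlinarith
    have q8 : 2 / 7 * (x k * (1 - x k ^ 2)) ≤ r * (x k * (1 - x k ^ 2)) :=
      mul_le_mul_of_nonneg_right hr0 q7
    have q9 : x k * (1 - x k) * ((11 * x k - 3) / 14) ≤ 1 / 4000 := by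
      have e : x k * (1 - x k) * ((11 * x k - 3) / 14) =
          2 / 7 * (x k * (1 - x k ^ 2)) - x k * ((1 - x k) ^ 2 / 2) := by ring
      rw [e]; linarith
    have q10 : 99 / 100 < x k := by
      by_contra hh
      push Not at hh
      rcases le_total (x k) (1 / 2) with h | h
      · have a1 : 199 / 1000 ≤ x k * (1 - x k) := by nlinarith
        have a2 : 1 / 560 ≤ (11 * x k - 3) / 14 := by linarith
        have a3 : 199 / 1000 * (1 / 560) ≤ x k * (1 - x k) * ((11 * x k - 3) / 14) :=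
          mul_le_mul a1 a2 (by norm_num) (by linarith)
        norm_num at a3
        linarith
      · have a1 : 99 / 10000 ≤ x k * (1 - x k) := by nlinarith
        have a2 : 1 / 6 ≤ (11 * x k - 3) / 14 := by linarith
        have a3 : 99 / 10000 * (1 / 6) ≤ x k * (1 - x k) * ((11 * x k - 3) / 14) :=
          mul_le_mul a1 a2 (by norm_num) (by linarith)
        norm_num at a3
        linarith
    -- another class
    obtain ⟨j, hj⟩ : ∃ j : Fin 6, j ≠ k := by
      rcases eq_or_ne k 0 with h | h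
      · exact ⟨1, by rw [h]; decide⟩
      · exact ⟨0, h.symm⟩
    have hxj : x j ≤ 1 / 100 := by
      have h1 : x j + x k ≤ ∑ i, x i := by
        have h2 : ∑ i ∈ ({j, k} : Finset (Fin 6)), x i ≤ ∑ i, x i :=
          sum_le_sum_of_subset_of_nonneg (subset_univ _) fun i _ _ => hx0 i
        rw [sum_pair hj] at h2
        exact h2
      rw [hx] at h1
      linarith
    have p1 := hE j
    have p2 := idp_le_diag x hx hx0 j k
    have p3 : idp x j ≤ 2 / 100 := by nlinarith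
    have p4 : x j * idp x j ≤ x j * (2 / 100) := mul_le_mul_of_nonneg_left p3 (hx0 j)
    have p5 : (r - ε) * x j ≤ t * x j := mul_le_mul_of_nonneg_right ht (hx0 j)
    have p6 : r * x j ^ 3 ≤ x j * (1 / 1000) := by
      have e : r * x j ^ 3 = x j * (r * (x j * x j)) := by ring
      rw [e]
      refine mul_le_mul_of_nonneg_left ?_ (hx0 j)
      have : x j * x j ≤ 1 / 100 * (1 / 100) := mul_le_mul hxj hxj (hx0 j) (by norm_num)
      nlinarith
    have p7 : (2 / 7 - 1 / 4000) * x j ≤ (r - ε) * x j :=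
      mul_le_mul_of_nonneg_right (by linarith) (hx0 j)
    have p8 := hmin j
    have p9 := hE0 j
    linarith
  have hy : ∑ i, (x i - 1 / 6) = 0 := by
    rw [sum_sub_distrib, hx]; norm_num
  set S := ∑ i, (x i - 1 / 6) ^ 2 with hS
  have hS0 : 0 ≤ S := sum_nonneg fun i _ => sq_nonneg _
  -- the total
  have htot : t ≤ Tb x + r * ∑ i, x i ^ 3 + η := by
    have h3 : ∑ k, t * x k ≤ ∑ k, (r * x k ^ 3 + x k * idp x k + E k) :=
      sum_le_sum fun k _ => hE k
    rw [← mul_sum, hx, sum_add_distrib, sum_add_distrib, ← mul_sum, sum_mul_idp] at h3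
    linarith
  have hstep : ∀ L b : ℝ, 0 ≤ b → (∀ i, x i - 1 / 6 ≤ b) → ∑ i, |x i - 1 / 6| ≤ L →
      (5 / 6 - 9 / 8 * L - b / 3) * S ≤ z := by
    intro L b hb h1 h2
    have h3 := F_slack r (by linarith) hr1 x hx L b hb h1 h2
    rw [hzd]
    linarith
  have c1 := hstep (2 / 3) (13 / 120) (by norm_num) (fun i => by have := hbox i; linarith)
    (abs_dev (fun i => x i - 1 / 6) hy (fun i => by have := hx0 i; linarith)
      (fun i => by have := hbox i; linarith))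
  have S1 : S ≤ 5296 / 10 ^ 6 := by norm_num at c1 ⊢; linarith
  have c2 := hstep (1783 / 10000) (728 / 10000) (by norm_num)
    (fun i => (le_abs_self _).trans (abs_one_sq (fun i => x i - 1 / 6) _ (728 / 10000)
      (by norm_num) S1 (by norm_num) i))
    (abs_sum_sq (fun i => x i - 1 / 6) _ (1783 / 10000) (by norm_num) S1 (by norm_num))
  have S2 : S ≤ 42 / 10 ^ 5 := by norm_num at c2 ⊢; linarith
  have c3 := hstep (503 / 10000) (205 / 10000) (by norm_num)
    (fun i => (le_abs_self _).trans (abs_one_sq (fun i => x i - 1 / 6) _ (205 / 10000)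
      (by norm_num) S2 (by norm_num) i))
    (abs_sum_sq (fun i => x i - 1 / 6) _ (503 / 10000) (by norm_num) S2 (by norm_num))
  have S3 : S ≤ 13 / 10 * z := by norm_num at c3 ⊢; linarith
  have S3' : S ≤ 325 / 10 ^ 6 := by norm_num at S3 ⊢; linarith
  have x3 : ∀ k, 1486 / 10000 ≤ x k := by
    intro k
    have := abs_one_sq (fun i => x i - 1 / 6) _ (1804 / 100000) (by norm_num) S3' (by norm_num) k
    have := (abs_le.1 this).1
    norm_num at this ⊢
    linarith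
  obtain ⟨d1, d2⟩ := lin_step r t ε η x E hx hr0 hr1 ht hE hE0 hη (1486 / 10000) (by norm_num)
    x3 hε _ S3
  have d1' : ∀ k, |x k - 1 / 6| ≤ 235 / 10 * z := fun k => (d1 k).trans (by
    rw [hzd]; norm_num; linarith)
  have d2' : ∑ k, |x k - 1 / 6| ≤ 515 / 10 * z := d2.trans (by
    rw [hzd]; norm_num; linarith)
  have S4 := S_le_prod (fun i => x i - 1 / 6) _ _ d1' d2' (by positivity)
  have S4' : S ≤ 3 / 10 * z + 1 / 100 * z := by
    have e : 235 / 10 * z * (515 / 10 * z) = 121025 / 100 * z * z := by ring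
    rw [e] at S4
    have : z * z ≤ z * (1 / 4000) := mul_le_mul_of_nonneg_left hz z0
    linarith
  obtain ⟨f1, f2⟩ := lin_step r t ε η x E hx hr0 hr1 ht hE hE0 hη (1486 / 10000) (by norm_num)
    x3 hε _ S4'
  have f1' : ∀ k, |x k - 1 / 6| ≤ 15 * z := fun k => (f1 k).trans (by
    rw [hzd]; norm_num; linarith)
  have f2' : ∑ k, |x k - 1 / 6| ≤ 31 * z := f2.trans (by
    rw [hzd]; norm_num; linarith)
  have S5 := S_le_prod (fun i => x i - 1 / 6) _ _ f1' f2' (by positivity)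
  have S5' : S ≤ 117 / 1000 * z := by
    have e : 15 * z * (31 * z) = 465 * z * z := by ring
    rw [e] at S5
    have : z * z ≤ z * (1 / 4000) := mul_le_mul_of_nonneg_left hz z0
    linarith
  have x5 : ∀ k, 1629 / 10000 ≤ x k := by
    intro k
    have := (abs_le.1 (f1' k)).1
    linarith
  obtain ⟨g1, g2⟩ := lin_step r t ε η x E hx hr0 hr1 ht hE hE0 hη (1629 / 10000) (by norm_num)
    x5 hε _ S5'
  have g1' : ∀ k, |x k - 1 / 6| ≤ 25 / 2 * z := fun k => (g1 k).trans (by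
    rw [hzd]; norm_num; linarith)
  have g2' : ∑ k, |x k - 1 / 6| ≤ 50 / 2 * z := g2.trans (by
    rw [hzd]; norm_num; linarith)
  refine ⟨g1', ?_⟩
  have S6 := S_le_prod (fun i => x i - 1 / 6) _ _ g1' g2' (by positivity)
  refine S6.trans ?_
  nlinarith [sq_nonneg z]

end Num

end K4m
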