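import Mathlib
import Pool.Agent.Lib.MP_392c14_co.Root3
import Pool.Agent.Lib.MP_392c14_co.Sizes0

/-!
# End game, second version, part A: pair sums over the pentagons, mass inequalities
-/

set_option autoImplicit false

namespace K4m

open Finset

section PolyA

/-- non-block pairs at a class -/
noncomputable def nbp (x : Fin 6 → ℝ) (k : Fin 6) : ℝ := ∑ i, ∑ j, nbl k i j * (x i * x j)

theorem nbp_list (x : Fin 6 → ℝ) :
    nbp x 0 = 2 * (x 1 * x 4 + x 1 * x 5 + x 2 * x 3 + x 2 * x 5 + x 3 * x 4) ∧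
    nbp x 1 = 2 * (x 0 * x 4 + x 0 * x 5 + x 2 * x 3 + x 2 * x 4 + x 3 * x 5) ∧
    nbp x 2 = 2 * (x 0 * x 3 + x 0 * x 5 + x 1 * x 3 + x 1 * x 4 + x 4 * x 5) ∧
    nbp x 3 = 2 * (x 0 * x 2 + x 0 * x 4 + x 1 * x 2 + x 1 * x 5 + x 4 * x 5) ∧
    nbp x 4 = 2 * (x 0 * x 1 + x 0 * x 3 + x 1 * x 2 + x 2 * x 5 + x 3 * x 5) ∧
    nbp x 5 = 2 * (x 0 * x 1 + x 0 * x 2 + x 1 * x 3 + x 2 * x 4 + x 3 * x 4) := by
  refine ⟨?_, ?_, ?_, ?_, ?_, ?_⟩ <;>
  · unfold nbp nbl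
    simp only [Fin.sum_univ_six]
    simp (decide := true) only [if_true, if_false]
    ring

theorem sub_sum_nonneg (x : Fin 6 → ℝ) (h0 : ∀ i, 0 ≤ x i) (k : Fin 6) :
    0 ≤ ∑ i, x i - x k ∧ ∑ i, x i - x k ≤ ∑ i, x i := by
  constructor
  · have := single_le_sum (f := x) (fun i _ => h0 i) (mem_univ k)
    linarith
  · linarith [h0 k]

theorem idp_le_half (x : Fin 6 → ℝ) (h0 : ∀ i, 0 ≤ x i) (k : Fin 6) :
    2 * idp x k ≤ (∑ i, x i) ^ 2 := by
  obtain ⟨g0, g1, g2, g3, g4, g5⟩ := idp_list x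
  obtain ⟨s1, s2⟩ := sub_sum_nonneg x h0 k
  have s3 : (∑ i, x i - x k) ^ 2 ≤ (∑ i, x i) ^ 2 := pow_le_pow_left₀ s1 s2 2
  refine le_trans ?_ s3
  simp only [Fin.sum_univ_six]
  fin_cases k
  · have h := c5_le (x 2) (x 1) (x 3) (x 5) (x 4) (h0 _) (h0 _) (h0 _) (h0 _) (h0 _)
    simp only [Fin.zero_eta]
    have e : x 2 + x 1 + x 3 + x 5 + x 4 = x 0 + x 1 + x 2 + x 3 + x 4 + x 5 - x 0 := by ring
    rw [e] at h
    rw [g0]; linarith
  · have h := c5_le (x 2) (x 0) (x 3) (x 4) (x 5) (h0 _) (h0 _) (h0 _) (h0 _) (h0 _)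
    simp only [Fin.mk_one]
    have e : x 2 + x 0 + x 3 + x 4 + x 5 = x 0 + x 1 + x 2 + x 3 + x 4 + x 5 - x 1 := by ring
    rw [e] at h
    rw [g1]; linarith
  · have h := c5_le (x 1) (x 0) (x 4) (x 3) (x 5) (h0 _) (h0 _) (h0 _) (h0 _) (h0 _)
    simp only [Fin.reduceFinMk]
    have e : x 1 + x 0 + x 4 + x 3 + x 5 = x 0 + x 1 + x 2 + x 3 + x 4 + x 5 - x 2 := by ring
    rw [e] at h
    rw [g2]; linarith
  · have h := c5_le (x 1) (x 0) (x 5) (x 2) (x 4) (h0 _) (h0 _) (h0 _) (h0 _) (h0 _)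
    simp only [Fin.reduceFinMk]
    have e : x 1 + x 0 + x 5 + x 2 + x 4 = x 0 + x 1 + x 2 + x 3 + x 4 + x 5 - x 3 := by ring
    rw [e] at h
    rw [g3]; linarith
  · have h := c5_le (x 2) (x 0) (x 5) (x 1) (x 3) (h0 _) (h0 _) (h0 _) (h0 _) (h0 _)
    simp only [Fin.reduceFinMk]
    have e : x 2 + x 0 + x 5 + x 1 + x 3 = x 0 + x 1 + x 2 + x 3 + x 4 + x 5 - x 4 := by ring
    rw [e] at h
    rw [g4]; linarith
  · have h := c5_le (x 3) (x 0) (x 4) (x 1) (x 2) (h0 _) (h0 _) (h0 _) (h0 _) (h0 _)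
    simp only [Fin.reduceFinMk]
    have e : x 3 + x 0 + x 4 + x 1 + x 2 = x 0 + x 1 + x 2 + x 3 + x 4 + x 5 - x 5 := by ring
    rw [e] at h
    rw [g5]; linarith

theorem nbp_le_half (x : Fin 6 → ℝ) (h0 : ∀ i, 0 ≤ x i) (k : Fin 6) :
    2 * nbp x k ≤ (∑ i, x i) ^ 2 := by
  obtain ⟨g0, g1, g2, g3, g4, g5⟩ := nbp_list x
  obtain ⟨s1, s2⟩ := sub_sum_nonneg x h0 k
  have s3 : (∑ i, x i - x k) ^ 2 ≤ (∑ i, x i) ^ 2 := pow_le_pow_left₀ s1 s2 2
  refine le_trans ?_ s3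
  simp only [Fin.sum_univ_six]
  fin_cases k
  · have h := c5_le (x 1) (x 4) (x 3) (x 2) (x 5) (h0 _) (h0 _) (h0 _) (h0 _) (h0 _)
    simp only [Fin.zero_eta]
    have e : x 1 + x 4 + x 3 + x 2 + x 5 = x 0 + x 1 + x 2 + x 3 + x 4 + x 5 - x 0 := by ring
    rw [e] at h
    rw [g0]; linarith
  · have h := c5_le (x 0) (x 4) (x 2) (x 3) (x 5) (h0 _) (h0 _) (h0 _) (h0 _) (h0 _)
    simp only [Fin.mk_one]
    have e : x 0 + x 4 + x 2 + x 3 + x 5 = x 0 + x 1 + x 2 + x 3 + x 4 + x 5 - x 1 := by ring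
    rw [e] at h
    rw [g1]; linarith
  · have h := c5_le (x 0) (x 3) (x 1) (x 4) (x 5) (h0 _) (h0 _) (h0 _) (h0 _) (h0 _)
    simp only [Fin.reduceFinMk]
    have e : x 0 + x 3 + x 1 + x 4 + x 5 = x 0 + x 1 + x 2 + x 3 + x 4 + x 5 - x 2 := by ring
    rw [e] at h
    rw [g2]; linarith
  · have h := c5_le (x 0) (x 2) (x 1) (x 5) (x 4) (h0 _) (h0 _) (h0 _) (h0 _) (h0 _)
    simp only [Fin.reduceFinMk]
    have e : x 0 + x 2 + x 1 + x 5 + x 4 = x 0 + x 1 + x 2 + x 3 + x 4 + x 5 - x 3 := by ring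
    rw [e] at h
    rw [g3]; linarith
  · have h := c5_le (x 0) (x 1) (x 2) (x 5) (x 3) (h0 _) (h0 _) (h0 _) (h0 _) (h0 _)
    simp only [Fin.reduceFinMk]
    have e : x 0 + x 1 + x 2 + x 5 + x 3 = x 0 + x 1 + x 2 + x 3 + x 4 + x 5 - x 4 := by ring
    rw [e] at h
    rw [g4]; linarith
  · have h := c5_le (x 0) (x 1) (x 3) (x 4) (x 2) (h0 _) (h0 _) (h0 _) (h0 _) (h0 _)
    simp only [Fin.reduceFinMk]
    have e : x 0 + x 1 + x 3 + x 4 + x 2 = x 0 + x 1 + x 2 + x 3 + x 4 + x 5 - x 5 := by ring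
    rw [e] at h
    rw [g5]; linarith

end PolyA

section A

variable {V : Type} [Fintype V] (G : TG V) (w : V → ℝ) (c : V → Fin 6)

/-- the part of a function on a class -/
noncomputable def cs (ζ : V → ℝ) (i : Fin 6) : ℝ := ∑ x, w x * (pin c i x * ζ x)

theorem cs_sum (ζ : V → ℝ) : ∑ i, cs w c ζ i = ∑ x, w x * ζ x := by
  unfold cs
  rw [sum_comm]
  refine sum_congr rfl fun x _ => ?_
  rw [← mul_sum, ← sum_mul, sum_pin, one_mul]

theorem cs_mul (ζ : V → ℝ) (g : Fin 6 → ℝ) :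
    ∑ x, w x * (ζ x * g (c x)) = ∑ i, cs w c ζ i * g i := by
  unfold cs
  simp only [sum_mul]
  rw [sum_comm]
  refine sum_congr rfl fun u _ => ?_
  have : ∀ k : Fin 6, w u * (pin c k u * ζ u) * g k =
      if c u = k then w u * (ζ u * g k) else 0 := by
    intro k; unfold pin; split_ifs <;> ring
  rw [sum_congr rfl (fun k _ => this k), sum_ite_eq, if_pos (mem_univ _)]

theorem S2_class (F : Fin 6 → Fin 6 → ℝ) (ζ : V → ℝ) :
    S2 w (fun u v => F (c u) (c v) * (ζ u * ζ v)) =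
      ∑ i, ∑ j, F i j * (cs w c ζ i * cs w c ζ j) := by
  rw [S2_eq]
  have e1 : ∀ u, ∑ v, w v * (F (c u) (c v) * (ζ u * ζ v)) =
      ζ u * ∑ j, cs w c ζ j * F (c u) j := by
    intro u
    rw [← cs_mul w c ζ (fun j => F (c u) j), mul_sum]
    refine sum_congr rfl fun v _ => ?_
    ring
  have e2 : ∑ u, w u * ∑ v, w v * (F (c u) (c v) * (ζ u * ζ v)) =
      ∑ u, w u * (ζ u * (fun i => ∑ j, cs w c ζ j * F i j) (c u)) :=
    sum_congr rfl fun u _ => by rw [e1]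
  rw [e2, cs_mul w c ζ (fun i => ∑ j, cs w c ζ j * F i j)]
  refine sum_congr rfl fun i _ => ?_
  rw [mul_sum]
  refine sum_congr rfl fun j _ => ?_
  ring

variable (hw : ∀ x, 0 ≤ w x)
include hw

theorem cs_nonneg (ζ : V → ℝ) (h : ∀ x, 0 ≤ ζ x) (i : Fin 6) : 0 ≤ cs w c ζ i :=
  sum_nonneg fun x _ => mul_nonneg (hw x) (mul_nonneg (pin_nonneg c i x) (h x))

theorem cs_mono (ζ ξ : V → ℝ) (h : ∀ x, ζ x ≤ ξ x) (i : Fin 6) : cs w c ζ i ≤ cs w c ξ i :=
  sum_le_sum fun x _ => mul_le_mul_of_nonneg_left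
    (mul_le_mul_of_nonneg_left (h x) (pin_nonneg c i x)) (hw x)

theorem blk_pair_le (ζ : V → ℝ) (h : ∀ x, 0 ≤ ζ x) (k : Fin 6) :
    2 * S2 w (fun u v => blk k (c u) (c v) * (ζ u * ζ v)) ≤ (∑ x, w x * ζ x) ^ 2 := by
  rw [S2_class w c (fun i j => blk k i j) ζ, ← cs_sum w c ζ]
  exact idp_le_half _ (cs_nonneg w c hw ζ h) k

theorem nbl_pair_le (ζ : V → ℝ) (h : ∀ x, 0 ≤ ζ x) (k : Fin 6) :
    2 * S2 w (fun u v => nbl k (c u) (c v) * (ζ u * ζ v)) ≤ (∑ x, w x * ζ x) ^ 2 := by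
  rw [S2_class w c (fun i j => nbl k i j) ζ, ← cs_sum w c ζ]
  exact nbp_le_half _ (cs_nonneg w c hw ζ h) k

omit hw in
/-- pairs in different classes -/
theorem ne_pair_eq (ζ : V → ℝ) :
    S2 w (fun u v => (1 - (if c u = c v then (1 : ℝ) else 0)) * (ζ u * ζ v)) =
      (∑ x, w x * ζ x) ^ 2 - ∑ i, cs w c ζ i ^ 2 := by
  rw [S2_class w c (fun i j => 1 - (if i = j then (1 : ℝ) else 0)) ζ, ← cs_sum w c ζ]
  have e1 : ∀ i, ∑ j, (1 - (if i = j then (1 : ℝ) else 0)) * (cs w c ζ i * cs w c ζ j) =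
      cs w c ζ i * ∑ j, cs w c ζ j - cs w c ζ i ^ 2 := by
    intro i
    have : ∀ j, (1 - (if i = j then (1 : ℝ) else 0)) * (cs w c ζ i * cs w c ζ j) =
        cs w c ζ i * cs w c ζ j - (if i = j then cs w c ζ i * cs w c ζ j else 0) := by
      intro j; split_ifs <;> ring
    rw [sum_congr rfl (fun j _ => this j), sum_sub_distrib, ← mul_sum, sum_ite_eq,
      if_pos (mem_univ _)]
    ring
  rw [sum_congr rfl (fun i _ => e1 i), sum_sub_distrib, ← sum_mul]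
  ring

/-- the mass inequality for a set of partners of `r`, sharper form -/
theorem mass_le2 (r : V) (ζ : V → ℝ) (hζ : ∀ z, ζ z = 0 ∨ ζ z = 1) :
    2 * ∑ z, w z * (ζ z * miss G w c r z) ≤ mis G w c r + (∑ z, w z * ζ z) ^ 2 / 2 := by
  have ζ0 : ∀ z, 0 ≤ ζ z := by
    intro z; rcases hζ z with h | h <;> rw [h]; norm_num
  set A : V → V → ℝ := fun u v => blk (c r) (c u) (c v) * (1 - ind (G.E r u v)) with hA
  have e1 : ∑ z, w z * (ζ z * miss G w c r z) = S2 w (fun u v => ζ u * A u v) := by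
    rw [S2_fst]
    rfl
  have e2 : ∑ z, w z * (ζ z * miss G w c r z) = S2 w (fun u v => ζ v * A u v) := by
    rw [e1, ← S2_swap w (fun u v => ζ u * A u v)]
    refine S2_congr w fun u v => ?_
    simp only [hA]
    rw [blk_swap23, G.symm₂]
  have e3 : mis G w c r = S2 w A := mis_eq_S2 G w c r
  have h1 := blk_pair_le w c hw ζ ζ0 (c r)
  have h2 : S2 w (fun u v => ζ u * A u v + ζ v * A u v) ≤
      S2 w (fun u v => A u v + blk (c r) (c u) (c v) * (ζ u * ζ v)) := by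
    refine S2_mono w hw fun u v => ?_
    have b0 := blk_nonneg (c r) (c u) (c v)
    have i0 := ind_nonneg (G.E r u v)
    have i1 := ind_le_one (G.E r u v)
    have a0 : 0 ≤ A u v := mul_nonneg b0 (by linarith)
    have a1 : A u v ≤ blk (c r) (c u) (c v) := by
      simp only [hA]
      have := mul_nonneg b0 i0
      linarith
    rcases hζ u with h | h <;> rcases hζ v with h' | h' <;> rw [h, h'] <;> linarith
  rw [S2_add, S2_add, ← e1, ← e2, ← e3] at h2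
  linarith

theorem two_Tz_le2 (z : V) : 2 * Tz G w c z ≤ mis G w c z + Hz G w c z ^ 2 / 2 :=
  mass_le2 G w c hw z (fun v => hv G w c z v) (fun v => hv_zero_or_one G w c z v)

/-- non-block pairs at `z`, sharper form -/
theorem gm_le2 (p q : ℝ) (hp : ∀ i, p ≤ cl w c i) (hq : ∀ i, cl w c i ≤ q) (hq0 : 0 ≤ q)
    (z : V) :
    2 * q * (3 * p - 2 * q) * gm G w c z ≤ mis G w c z ^ 2 / 2 + 2 * q * Wk G w c (c z) := by
  have key : ∀ u v, 2 * q * (3 * p - 2 * q) * (nbl (c z) (c u) (c v) * ind (G.E z u v)) ≤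
      nbl (c z) (c u) (c v) * (miss G w c z u * miss G w c z v) +
      2 * q * (nbl (c z) (c u) (c v) * miss G w c u v) := by
    intro u v
    have mu := miss_nonneg G w c hw z u
    have mv := miss_nonneg G w c hw z v
    have muv := miss_nonneg G w c hw u v
    have n0 := nbl_nonneg (c z) (c u) (c v)
    have n1 : 0 ≤ nbl (c z) (c u) (c v) * (miss G w c z u * miss G w c z v) :=
      mul_nonneg n0 (mul_nonneg mu mv)
    have n2 : 0 ≤ 2 * q * (nbl (c z) (c u) (c v) * miss G w c u v) :=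
      mul_nonneg (by linarith) (mul_nonneg n0 muv)
    by_cases h : c z ≠ c u ∧ c z ≠ c v ∧ c u ≠ c v ∧ D6.E (c z) (c u) (c v) = false
    · have e1 : nbl (c z) (c u) (c v) = 1 := by unfold nbl; rw [if_pos h]
      obtain ⟨hzu, hzv, huv, hb⟩ := h
      rcases ind_cases (G.E z u v) with ⟨e, e'⟩ | ⟨e, e'⟩
      · rw [e1, e']
        have h3 := miss_three G w c hw z u v hzu hzv huv hb e p hp
        have a1 := (miss_le_SS G w c hw z u).trans (SS_le w c q hq (c z) (c u) hzu)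
        have a2 := (miss_le_SS G w c hw z v).trans (SS_le w c q hq (c z) (c v) hzv)
        have h4 : 0 ≤ (2 * q - miss G w c z u) * (2 * q - miss G w c z v) :=
          mul_nonneg (by linarith) (by linarith)
        have h5 : 0 ≤ 2 * q * (miss G w c z u + miss G w c z v + miss G w c u v - 3 * p) :=
          mul_nonneg (by linarith) (by linarith)
        linarith
      · rw [e', mul_zero, mul_zero]; linarith
    · have e1 : nbl (c z) (c u) (c v) = 0 := by unfold nbl; rw [if_neg h]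
      rw [e1]; simp
  have h1 := S2_mono w hw key
  rw [S2_mul, S2_add, S2_mul] at h1
  have h3 := nbl_pair_le w c hw (fun u => miss G w c z u) (miss_nonneg G w c hw z) (c z)
  have h2 : ∑ u, w u * miss G w c z u = mis G w c z := rfl
  rw [h2] at h3
  unfold gm Wk
  linarith

end A

end K4m
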