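import Mathlib
import Pool.Agent.Lib.MP_392c14_co.End2A

/-!
# End game, second version, part B: the inequality at one root with class sums
-/

set_option autoImplicit false

namespace K4m

open Finset

section NumB

/-- the numerical side conditions of the inequality at one root -/
structure RootNum2 (a τ β s1 H0 lam : ℝ) : Prop where
  a_pos : 0 < a
  β_pos : 0 < β
  s1_pos : 0 < s1
  s1_le : s1 ≤ a / 2
  lam_ge : 1 ≤ lam
  s1_β : lam * s1 ≤ 2 * β
  τ_nonneg : 0 ≤ τ
  mid : τ ≤ s1 * (3 * a / 2 - s1)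
  massH : ∀ H : ℝ, 0 ≤ H → (2 * a - s1) * H ≤ τ →
    2 * ((2 * a - s1) * H) ≤ τ + H ^ 2 / 2 → H ≤ H0
  yy : ∀ H Y : ℝ, 0 ≤ H → 0 ≤ Y → (2 * a - s1) * H + a / 2 * Y ≤ τ →
    2 * ((2 * a - s1) * H + a / 2 * Y) ≤ τ + (H + Y) ^ 2 / 2 → 2 * H + 4 / 5 * Y ≤ a / 2
  pp : ∀ P B : ℝ, 0 ≤ P → 0 ≤ B → P + B ≤ H0 →
    lam * τ / (2 * β) * P + (P + B) ^ 2 ≤ (2 * a * lam - 2 * β) * (P + B) +
      (1 + lam * (2 * a - 2 * s1) / β) * (P ^ 2 / 2 + B ^ 2 / 4)

theorem high_aux (a β lam s o D S0 : ℝ) (hβ : 0 < β) (hlam : 0 ≤ lam) (hS : 2 * a ≤ S0)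
    (ho' : o ≤ β) (hos : o * s ≤ D) (hs : lam * s ≤ 2 * β) :
    2 * a * lam - 2 * β - lam * D / β + 2 * o ≤ lam * (S0 - s) := by
  have h1 : lam * s + 2 * o ≤ 2 * β + lam * D / β := by
    have h2 : β * (lam * s + 2 * o) ≤ β * (2 * β + lam * D / β) := by
      have e : β * (2 * β + lam * D / β) = 2 * β ^ 2 + lam * D := by
        field_simp
      rw [e]
      have h3 : lam * (o * s) ≤ lam * D := mul_le_mul_of_nonneg_left hos hlam
      have h4 : 0 ≤ (β - o) * (2 * β - lam * s) := mul_nonneg (by linarith) (by linarith)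
      nlinarith
    exact le_of_mul_le_mul_left h2 hβ
  have h5 : lam * (2 * a) ≤ lam * S0 := mul_le_mul_of_nonneg_left hS hlam
  linarith

theorem mid_aux (a τ s1 lam s o S0 : ℝ) (hs1 : 0 < s1) (hs1' : s1 ≤ a / 2) (hlam : 1 ≤ lam)
    (hmid : τ ≤ s1 * (3 * a / 2 - s1)) (hS : 2 * a ≤ S0) (h1 : s1 ≤ s) (h2 : 2 * s ≤ S0)
    (hos : o * s ≤ τ / 2) : a / 2 + 2 * o ≤ lam * (S0 - s) := by
  have hs : 0 < s := by linarith
  have h3 : 2 * o * s ≤ (S0 - s - a / 2) * s := by
    have h4 : s1 * (3 * a / 2 - s1) ≤ s * (S0 - s - a / 2) := by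
      have h5 : 0 ≤ (s - s1) * (S0 - a / 2 - s - s1) := mul_nonneg (by linarith) (by linarith)
      have h6 : s1 * (2 * a) ≤ s1 * S0 := mul_le_mul_of_nonneg_left hS hs1.le
      nlinarith
    linarith
  have h7 : 2 * o ≤ S0 - s - a / 2 := le_of_mul_le_mul_right h3 hs
  have h8 : 0 ≤ S0 - s := by linarith
  have h9 : 1 * (S0 - s) ≤ lam * (S0 - s) := mul_le_mul_of_nonneg_right hlam h8
  linarith

theorem exists_max_pair (f : Fin 6 → ℝ) :
    ∃ i j : Fin 6, i ≠ j ∧ ∀ i' j' : Fin 6, i' ≠ j' → f i' + f j' ≤ f i + f j := by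
  obtain ⟨p, hp, hm⟩ := exists_max_image (univ.filter (fun p : Fin 6 × Fin 6 => p.1 ≠ p.2))
    (fun p => f p.1 + f p.2) ⟨(0, 1), by simp⟩
  refine ⟨p.1, p.2, (mem_filter.1 hp).2, fun i' j' h => ?_⟩
  exact hm (i', j') (mem_filter.2 ⟨mem_univ _, h⟩)

theorem sq_sum_pair (f : Fin 6 → ℝ) (i j : Fin 6) (hij : i ≠ j) :
    (f i + f j) ^ 2 / 2 + (∑ k, f k - (f i + f j)) ^ 2 / 4 ≤ ∑ k, f k ^ 2 := by
  have e1 : ∑ k, f k - (f i + f j) = ∑ k ∈ (univ.erase i).erase j, f k := by
    rw [sum_erase_eq_sub (mem_erase.2 ⟨hij.symm, mem_univ j⟩), sum_erase_eq_sub (mem_univ i)]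
    ring
  have e2 : ∑ k, f k ^ 2 = f i ^ 2 + f j ^ 2 + ∑ k ∈ (univ.erase i).erase j, f k ^ 2 := by
    rw [sum_erase_eq_sub (mem_erase.2 ⟨hij.symm, mem_univ j⟩), sum_erase_eq_sub (mem_univ i)]
    ring
  have e3 : ((univ.erase i).erase j).card = 4 := by
    rw [card_erase_of_mem (mem_erase.2 ⟨hij.symm, mem_univ j⟩), card_erase_of_mem (mem_univ i),
      card_univ, Fintype.card_fin]
  have h1 := sq_sum_le_card_mul_sum_sq (s := (univ.erase i).erase j) (f := f)
  rw [e3] at h1
  rw [e1, e2]
  push_cast at h1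
  nlinarith [sq_nonneg (f i - f j)]

theorem sq_sum_five (f : Fin 6 → ℝ) (i : Fin 6) (hi : f i = 0) :
    (∑ k, f k) ^ 2 ≤ 5 * ∑ k, f k ^ 2 := by
  have e1 : ∑ k, f k = ∑ k ∈ univ.erase i, f k := by
    rw [sum_erase_eq_sub (mem_univ i), hi]; ring
  have e2 : ∑ k, f k ^ 2 = ∑ k ∈ univ.erase i, f k ^ 2 := by
    rw [sum_erase_eq_sub (mem_univ i), hi]; ring
  have e3 : (univ.erase i).card = 5 := by
    rw [card_erase_of_mem (mem_univ i), card_univ, Fintype.card_fin]
  have h1 := sq_sum_le_card_mul_sum_sq (s := univ.erase i) (f := f)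
  rw [e3] at h1
  rw [e1, e2]
  exact_mod_cast h1

end NumB

section B2

variable {V : Type} [Fintype V] (G : TG V) (w : V → ℝ) (c : V → Fin 6)

variable (hw : ∀ x, 0 ≤ w x)
include hw

/-- the missing pairs weighted by a function of the class -/
theorem miss_class_le (r : V) (f : Fin 6 → ℝ) (P : ℝ) (hP : ∀ i j, i ≠ j → f i + f j ≤ P) :
    2 * ∑ k, cs w c (fun z => miss G w c r z) k * f k ≤ P * mis G w c r := by
  set A : V → V → ℝ := fun u v => blk (c r) (c u) (c v) * (1 - ind (G.E r u v)) with hA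
  have e0 : ∑ k, cs w c (fun z => miss G w c r z) k * f k =
      ∑ u, w u * (miss G w c r u * f (c u)) := (cs_mul w c _ f).symm
  have e1 : ∑ u, w u * (miss G w c r u * f (c u)) = S2 w (fun u v => f (c u) * A u v) := by
    rw [S2_fst w (fun u => f (c u))]
    refine sum_congr rfl fun u _ => ?_
    have : ∑ v, w v * A u v = miss G w c r u := rfl
    rw [this]; ring
  have e2 : ∑ u, w u * (miss G w c r u * f (c u)) = S2 w (fun u v => f (c v) * A u v) := by
    rw [e1, ← S2_swap w (fun u v => f (c u) * A u v)]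
    refine S2_congr w fun u v => ?_
    simp only [hA]
    rw [blk_swap23, G.symm₂]
  have e3 : mis G w c r = S2 w A := mis_eq_S2 G w c r
  have h2 : S2 w (fun u v => f (c u) * A u v + f (c v) * A u v) ≤ S2 w (fun u v => P * A u v) := by
    refine S2_mono w hw fun u v => ?_
    have b0 := blk_nonneg (c r) (c u) (c v)
    have i1 := ind_le_one (G.E r u v)
    have a0 : 0 ≤ A u v := mul_nonneg b0 (by linarith)
    by_cases h : c u = c v
    · have : A u v = 0 := by simp only [hA]; rw [h, blk_irr3, zero_mul]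
      rw [this]; simp
    · rw [← add_mul]
      exact mul_le_mul_of_nonneg_right (hP _ _ h) a0
  rw [S2_add, S2_mul, ← e1, ← e2, ← e3] at h2
  rw [e0]; linarith

/-- the product inequality with the high partners taken into account -/
theorem own_mul_le2 (r z : V) (a s1 : ℝ) (hi : V → ℝ) (hhi : ∀ y, hi y = 0 ∨ hi y = 1)
    (hmi : ∀ y, hi y = 1 → 2 * a - s1 ≤ miss G w c r y)
    (hs : SS w c (c r) (c z) - miss G w c r z ≤ s1) :
    own G w c z r * (SS w c (c r) (c z) - miss G w c r z) ≤
      cs w c (fun y => miss G w c r y) (c z) - (2 * a - 2 * s1) * cs w c hi (c z) := by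
  have hi0 : ∀ y, 0 ≤ hi y := fun y => by rcases hhi y with h | h <;> rw [h]; norm_num
  have hm' := miss_le_SS G w c hw r z
  set s := SS w c (c r) (c z) - miss G w c r z with hsd
  have s0 : 0 ≤ s := by linarith
  have key : ∀ y, pin c (c z) y * ((2 * a - s1) * hi y) +
      (s * ((if c y = c z then 1 else 0) * ind (G.E z y r)) - s * (pin c (c z) y * hi y)) ≤
      pin c (c z) y * miss G w c r y := by
    intro y
    have i0 := ind_nonneg (G.E z y r)
    have i1 := ind_le_one (G.E z y r)
    have m0 := miss_nonneg G w c hw r y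
    unfold pin
    by_cases hy : c y = c z
    · rw [if_pos hy, one_mul, one_mul, one_mul, one_mul]
      rcases hhi y with h | h
      · rw [h]
        rcases ind_cases (G.E z y r) with ⟨e, e'⟩ | ⟨e, e'⟩
        · have hE : G.E r z y = true := by rw [E_rot]; exact e
          have h3 := miss_add_ge G w c hw z y r hy.symm hE
          rw [e']; linarith
        · rw [e']; linarith
      · rw [h]
        have h1 := hmi y h
        have h2 : s * ind (G.E z y r) ≤ s * 1 := mul_le_mul_of_nonneg_left i1 s0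
        linarith
    · rw [if_neg hy]; simp
  have h1 : ∑ y, w y * (pin c (c z) y * ((2 * a - s1) * hi y) +
      (s * ((if c y = c z then 1 else 0) * ind (G.E z y r)) - s * (pin c (c z) y * hi y))) ≤
      cs w c (fun y => miss G w c r y) (c z) :=
    sum_le_sum fun y _ => mul_le_mul_of_nonneg_left (key y) (hw y)
  have h2 : ∑ y, w y * (pin c (c z) y * ((2 * a - s1) * hi y) +
      (s * ((if c y = c z then 1 else 0) * ind (G.E z y r)) - s * (pin c (c z) y * hi y))) =
      (2 * a - s1) * cs w c hi (c z) + (s * own G w c z r - s * cs w c hi (c z)) := by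
    unfold cs own
    rw [mul_sum, mul_sum, mul_sum, ← sum_sub_distrib, ← sum_add_distrib]
    refine sum_congr rfl fun y _ => ?_
    ring
  rw [h2] at h1
  have h3 := cs_nonneg w c hw hi hi0 (c z)
  have h4 : s * cs w c hi (c z) ≤ s1 * cs w c hi (c z) := mul_le_mul_of_nonneg_right hs h3
  linarith

/-- the inequality at one root -/
theorem root_le2 {a τ β s1 H0 lam : ℝ} (N : RootNum2 a τ β s1 H0 lam) (r : V)
    (hsz : ∀ i, a ≤ cl w c i) (hmis : mis G w c r ≤ τ)
    (hown : ∀ z, c r ≠ c z → own G w c z r ≤ β) :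
    2 * (∑ z, w z * (hv G w c r z * own G w c z r)) +
      ((∑ z, w z * chi G w c (a / 2) r z) ^ 2 -
        ∑ k, cs w c (fun z => chi G w c (a / 2) r z) k ^ 2) ≤
    lam * ∑ z, w z * (chi G w c (a / 2) r z * miss G w c r z) := by
  classical
  have a_pos := N.a_pos
  have β_pos := N.β_pos
  have s1_pos := N.s1_pos
  have s1_le := N.s1_le
  have lam1 := N.lam_ge
  have lam0 : 0 ≤ lam := by linarith
  have S1 : ∀ z, c r ≠ c z → 2 * a ≤ SS w c (c r) (c z) :=
    fun z hz => SS_ge w c a hsz (c r) (c z) hz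
  set hi : V → ℝ := fun z => if c r ≠ c z ∧ SS w c (c r) (c z) - s1 < miss G w c r z
    then 1 else 0 with hhi
  have hi01 : ∀ z, hi z = 0 ∨ hi z = 1 := by
    intro z; simp only [hhi]; split_ifs
    · right; rfl
    · left; rfl
  have hi_nonneg : ∀ z, 0 ≤ hi z := by
    intro z; rcases hi01 z with h | h <;> rw [h]; norm_num
  set ch : V → ℝ := fun z => chi G w c (a / 2) r z with hch
  have ch_nonneg : ∀ z, 0 ≤ ch z := fun z => chi_nonneg G w c _ r z
  set H : ℝ := ∑ z, w z * hi z with hH
  set X : ℝ := ∑ z, w z * ch z with hX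
  have H_nonneg : 0 ≤ H := sum_nonneg fun z _ => mul_nonneg (hw z) (hi_nonneg z)
  have hi_le_chi : ∀ z, hi z ≤ ch z := by
    intro z
    simp only [hhi, hch]
    by_cases h : c r ≠ c z ∧ SS w c (c r) (c z) - s1 < miss G w c r z
    · rw [if_pos h]
      have h1 := S1 z h.1
      have : a / 2 ≤ miss G w c r z := by linarith [h.2]
      unfold chi
      rw [if_pos ⟨h.1, this⟩]
    · rw [if_neg h]; exact chi_nonneg G w c _ r z
  set Y : ℝ := X - H with hY
  have Y_nonneg : 0 ≤ Y := by
    rw [hY, hX, hH, ← sum_sub_distrib]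
    refine sum_nonneg fun z _ => ?_
    rw [← mul_sub]
    exact mul_nonneg (hw z) (by linarith [hi_le_chi z])
  have hmi : ∀ y, hi y = 1 → 2 * a - s1 ≤ miss G w c r y := by
    intro y hy
    simp only [hhi] at hy
    by_cases h : c r ≠ c y ∧ SS w c (c r) (c y) - s1 < miss G w c r y
    · have := S1 y h.1
      linarith [h.2]
    · rw [if_neg h] at hy; norm_num at hy
  have mass1 : 2 * ∑ z, w z * (hi z * miss G w c r z) ≤ τ + H ^ 2 / 2 :=
    (mass_le2 G w c hw r hi hi01).trans (by linarith)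
  have mass2 : 2 * ∑ z, w z * (ch z * miss G w c r z) ≤ τ + X ^ 2 / 2 :=
    (mass_le2 G w c hw r _ (fun z => chi_zero_or_one G w c _ r z)).trans (by linarith)
  have low1 : (2 * a - s1) * H ≤ ∑ z, w z * (hi z * miss G w c r z) := by
    rw [hH, mul_sum]
    refine sum_le_sum fun z _ => ?_
    have : (2 * a - s1) * (w z * hi z) = w z * ((2 * a - s1) * hi z) := by ring
    rw [this]
    refine mul_le_mul_of_nonneg_left ?_ (hw z)
    rcases hi01 z with h | h
    · rw [h]; simp
    · rw [h]; linarith [hmi z h]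
  have low2 : (2 * a - s1) * H + a / 2 * Y ≤ ∑ z, w z * (ch z * miss G w c r z) := by
    have e : (2 * a - s1) * H + a / 2 * Y = ∑ z, w z * ((2 * a - s1) * hi z +
        a / 2 * (ch z - hi z)) := by
      rw [hY, hX, hH, ← sum_sub_distrib, mul_sum, mul_sum, ← sum_add_distrib]
      refine sum_congr rfl fun z _ => ?_
      ring
    rw [e]
    refine sum_le_sum fun z _ => mul_le_mul_of_nonneg_left ?_ (hw z)
    rcases hi01 z with h | h
    · rw [h]
      rcases chi_zero_or_one G w c (a / 2) r z with h' | h'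
      · simp only [hch]; rw [h']; simp
      · simp only [hch]; rw [h']
        have : a / 2 ≤ miss G w c r z := by
          by_contra hne
          have : chi G w c (a / 2) r z = 0 := by
            unfold chi; rw [if_neg]; rintro ⟨-, h2⟩; exact hne h2
          rw [this] at h'; norm_num at h'
        linarith
    · have h1 := hi_le_chi z
      rw [h] at h1
      rcases chi_zero_or_one G w c (a / 2) r z with h' | h'
      · simp only [hch] at h1; rw [h'] at h1; norm_num at h1
      · simp only [hch]; rw [h, h']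
        linarith [hmi z h]
  have crude1 : ∑ z, w z * (hi z * miss G w c r z) ≤ τ := by
    refine le_trans (sum_le_sum fun z _ => mul_le_mul_of_nonneg_left ?_ (hw z)) hmis
    have := miss_nonneg G w c hw r z
    rcases hi01 z with h | h <;> rw [h] <;> linarith
  have crude2 : ∑ z, w z * (ch z * miss G w c r z) ≤ τ := by
    refine le_trans (sum_le_sum fun z _ => mul_le_mul_of_nonneg_left ?_ (hw z)) hmis
    have := miss_nonneg G w c hw r z
    rcases chi_zero_or_one G w c (a / 2) r z with h | h <;> simp only [hch] <;> rw [h] <;>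
      linarith
  have H2 : H ≤ H0 := N.massH H H_nonneg (low1.trans crude1)
    ((mul_le_mul_of_nonneg_left low1 (by norm_num)).trans mass1)
  have hXHY : X = H + Y := by rw [hY]; ring
  have hyy : 2 * H + 4 / 5 * Y ≤ a / 2 := by
    refine N.yy H Y H_nonneg Y_nonneg (low2.trans crude2) ?_
    rw [← hXHY]
    exact (mul_le_mul_of_nonneg_left low2 (by norm_num)).trans mass2
  -- class sums
  set Hc : Fin 6 → ℝ := fun k => cs w c hi k with hHc
  set Xc : Fin 6 → ℝ := fun k => cs w c ch k with hXc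
  set Mc : Fin 6 → ℝ := fun k => cs w c (fun z => miss G w c r z) k with hMc
  have Hc0 : ∀ k, 0 ≤ Hc k := cs_nonneg w c hw hi hi_nonneg
  have sumH : ∑ k, Hc k = H := cs_sum w c hi
  have sumX : ∑ k, Xc k = X := cs_sum w c ch
  have HXc : ∀ k, Hc k ≤ Xc k := cs_mono w c hw hi ch hi_le_chi
  -- the gain of one partner
  have gain : ∀ z, hi z * (2 * a * lam - 2 * β - lam * (Mc (c z) - (2 * a - 2 * s1) *
      Hc (c z)) / β) + a / 2 * (ch z - hi z) + 2 * (hv G w c r z * own G w c z r) ≤
      lam * (ch z * miss G w c r z) := by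
    intro z
    have ho := own_nonneg G w c hw z r
    have hm := miss_nonneg G w c hw r z
    have hm' := miss_le_SS G w c hw r z
    have hp := own_mul_le G w c hw r z
    have hml : miss G w c r z ≤ lam * miss G w c r z := by
      have := mul_le_mul_of_nonneg_right lam1 hm
      linarith
    by_cases hz : c r ≠ c z
    · have s1' := S1 z hz
      have ho3 := hown z hz
      by_cases h1 : a / 2 ≤ miss G w c r z
      · have c1 : ch z = 1 := by simp only [hch]; unfold chi; rw [if_pos ⟨hz, h1⟩]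
        by_cases h2 : SS w c (c r) (c z) - s1 < miss G w c r z
        · have e1 : hi z = 1 := by simp only [hhi]; rw [if_pos ⟨hz, h2⟩]
          have hvo : hv G w c r z * own G w c z r ≤ own G w c z r := by
            rcases hv_zero_or_one G w c r z with h | h <;> rw [h] <;> linarith
          have hD := own_mul_le2 G w c hw r z a s1 hi hi01 hmi (by linarith)
          have hls : lam * (SS w c (c r) (c z) - miss G w c r z) ≤ 2 * β := by
            have : lam * (SS w c (c r) (c z) - miss G w c r z) ≤ lam * s1 :=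
              mul_le_mul_of_nonneg_left (by linarith) lam0
            linarith [N.s1_β]
          have hfin := high_aux a β lam _ _ _ _ β_pos lam0 s1' ho3 hD hls
          have e2 : SS w c (c r) (c z) - (SS w c (c r) (c z) - miss G w c r z) =
              miss G w c r z := by ring
          rw [e2] at hfin
          rw [c1, e1]
          simp only [hMc, hHc]
          linarith
        · have e1 : hi z = 0 := by
            simp only [hhi]; rw [if_neg]; rintro ⟨-, h⟩; exact h2 h
          push Not at h2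
          rw [c1, e1]
          rcases hv_zero_or_one G w c r z with h | h
          · rw [h]; linarith
          · have h5 : SS w c (c r) (c z) ≤ 2 * miss G w c r z := by
              by_contra hne
              have : hv G w c r z = 0 := by
                unfold hv; rw [if_neg]; rintro ⟨-, h'⟩; exact hne h'
              rw [this] at h; norm_num at h
            have h6 := mid_aux a τ s1 lam (SS w c (c r) (c z) - miss G w c r z)
              (own G w c z r) (SS w c (c r) (c z)) s1_pos s1_le lam1 N.mid s1'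
              (by linarith) (by linarith) (by linarith)
            have e2 : SS w c (c r) (c z) - (SS w c (c r) (c z) - miss G w c r z) =
              miss G w c r z := by ring
            rw [e2] at h6
            rw [h]; linarith
      · have c1 : ch z = 0 := by
          simp only [hch]; unfold chi; rw [if_neg]; rintro ⟨-, h⟩; exact h1 h
        have e1 : hi z = 0 := by
          simp only [hhi]; rw [if_neg]; rintro ⟨-, h⟩; apply h1; linarith
        have v1 : hv G w c r z = 0 := by
          unfold hv; rw [if_neg]; rintro ⟨-, h⟩; apply h1; linarith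
        rw [c1, e1, v1]; simp
    · have c1 : ch z = 0 := by
        simp only [hch]; unfold chi; rw [if_neg]; rintro ⟨h, -⟩; exact hz h
      have e1 : hi z = 0 := by
        simp only [hhi]; rw [if_neg]; rintro ⟨h, -⟩; exact hz h
      have v1 : hv G w c r z = 0 := by
        unfold hv; rw [if_neg]; rintro ⟨h, -⟩; exact hz h
      rw [c1, e1, v1]; simp
  have total : ∑ k, Hc k * (2 * a * lam - 2 * β - lam * (Mc k - (2 * a - 2 * s1) * Hc k) / β) +
      a / 2 * Y + 2 * (∑ z, w z * (hv G w c r z * own G w c z r)) ≤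
      lam * ∑ z, w z * (ch z * miss G w c r z) := by
    have h1 : ∑ z, w z * (hi z * (2 * a * lam - 2 * β - lam * (Mc (c z) - (2 * a - 2 * s1) *
      Hc (c z)) / β) + a / 2 * (ch z - hi z) + 2 * (hv G w c r z * own G w c z r)) ≤
      ∑ z, w z * (lam * (ch z * miss G w c r z)) :=
      sum_le_sum fun z _ => mul_le_mul_of_nonneg_left (gain z) (hw z)
    have h2 : ∑ z, w z * (hi z * (2 * a * lam - 2 * β - lam * (Mc (c z) - (2 * a - 2 * s1) *
      Hc (c z)) / β) + a / 2 * (ch z - hi z) + 2 * (hv G w c r z * own G w c z r)) =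
      ∑ z, w z * (hi z * (fun k => 2 * a * lam - 2 * β - lam * (Mc k - (2 * a - 2 * s1) *
        Hc k) / β) (c z)) + a / 2 * Y + 2 * (∑ z, w z * (hv G w c r z * own G w c z r)) := by
      rw [hY, hX, hH, ← sum_sub_distrib, mul_sum, mul_sum, ← sum_add_distrib,
        ← sum_add_distrib]
      refine sum_congr rfl fun z _ => ?_
      ring
    have h3 : ∑ z, w z * (lam * (ch z * miss G w c r z)) =
        lam * ∑ z, w z * (ch z * miss G w c r z) := by
      rw [mul_sum]
      refine sum_congr rfl fun z _ => ?_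
      ring
    have h4 := cs_mul w c hi (fun k => 2 * a * lam - 2 * β - lam * (Mc k - (2 * a - 2 * s1) *
        Hc k) / β)
    rw [h2, h3, h4] at h1
    exact h1
  -- the missing pairs
  obtain ⟨i, j, hij, hmax⟩ := exists_max_pair Hc
  set P := Hc i + Hc j with hP
  have hMH := miss_class_le G w c hw r Hc P hmax
  have P0 : 0 ≤ P := by have := Hc0 i; have := Hc0 j; linarith
  have hPm : P * mis G w c r ≤ P * τ := mul_le_mul_of_nonneg_left hmis P0
  have hPH : P ≤ H := by
    rw [hP, ← sumH]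
    have h2 : ∑ k ∈ ({i, j} : Finset (Fin 6)), Hc k ≤ ∑ k, Hc k :=
      sum_le_sum_of_subset_of_nonneg (subset_univ _) fun k _ _ => Hc0 k
    rw [sum_pair hij] at h2
    exact h2
  have hsq := sq_sum_pair Hc i j hij
  rw [sumH, ← hP] at hsq
  have hpp := N.pp P (H - P) P0 (by linarith) (by linarith)
  have hPB : P + (H - P) = H := by ring
  rw [hPB] at hpp
  have e4 : ∑ k, Hc k * (2 * a * lam - 2 * β - lam * (Mc k - (2 * a - 2 * s1) * Hc k) / β) =
      (2 * a * lam - 2 * β) * H - lam / β * ∑ k, Mc k * Hc k +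
        lam * (2 * a - 2 * s1) / β * ∑ k, Hc k ^ 2 := by
    rw [← sumH, mul_sum, mul_sum, mul_sum, ← sum_sub_distrib, ← sum_add_distrib]
    refine sum_congr rfl fun k _ => ?_
    ring
  have lb0 : 0 ≤ lam / β := div_nonneg lam0 β_pos.le
  have e5 : lam / β * ∑ k, Mc k * Hc k ≤ lam * τ / (2 * β) * P := by
    have h1 : ∑ k, Mc k * Hc k ≤ P * τ / 2 := by linarith
    have h2 := mul_le_mul_of_nonneg_left h1 lb0
    have h3 : lam / β * (P * τ / 2) = lam * τ / (2 * β) * P := by field_simp
    rw [← h3]; exact h2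
  have c0 : 0 ≤ 1 + lam * (2 * a - 2 * s1) / β := by
    have : 0 ≤ lam * (2 * a - 2 * s1) / β :=
      div_nonneg (mul_nonneg lam0 (by linarith)) β_pos.le
    linarith
  have e6 : (1 + lam * (2 * a - 2 * s1) / β) * (P ^ 2 / 2 + (H - P) ^ 2 / 4) ≤
      (1 + lam * (2 * a - 2 * s1) / β) * ∑ k, Hc k ^ 2 := mul_le_mul_of_nonneg_left hsq c0
  -- squares of the class sums
  have hYc : (∑ k, (Xc k - Hc k)) ^ 2 ≤ 5 * ∑ k, (Xc k - Hc k) ^ 2 := by
    refine sq_sum_five _ (c r) ?_
    simp only [hXc, hHc]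
    unfold cs
    rw [← sum_sub_distrib]
    refine sum_eq_zero fun z _ => ?_
    by_cases hz : c z = c r
    · have c1 : ch z = 0 := by
        simp only [hch]; unfold chi; rw [if_neg]; rintro ⟨h, -⟩; exact h hz.symm
      have e1 : hi z = 0 := by
        simp only [hhi]; rw [if_neg]; rintro ⟨h, -⟩; exact h hz.symm
      rw [c1, e1]; ring
    · have : pin c (c r) z = 0 := by unfold pin; rw [if_neg hz]
      rw [this]; ring
  rw [sum_sub_distrib, sumX, sumH, ← hY] at hYc
  have hsqs : ∑ k, Hc k ^ 2 + ∑ k, (Xc k - Hc k) ^ 2 ≤ ∑ k, Xc k ^ 2 := by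
    rw [← sum_add_distrib]
    refine sum_le_sum fun k _ => ?_
    have h1 := Hc0 k
    have h2 := HXc k
    nlinarith [mul_nonneg h1 (sub_nonneg.2 h2)]
  have hy2 : Y * (2 * H + 4 / 5 * Y) ≤ Y * (a / 2) := mul_le_mul_of_nonneg_left hyy Y_nonneg
  have hX2 : X ^ 2 = H ^ 2 + 2 * H * Y + Y ^ 2 := by rw [hXHY]; ring
  rw [e4] at total
  have e7 : ∑ k, Xc k ^ 2 = ∑ k, cs w c (fun z => chi G w c (a / 2) r z) k ^ 2 := rfl
  rw [← e7, hX2]
  have e8 : (1 + lam * (2 * a - 2 * s1) / β) * ∑ k, Hc k ^ 2 = ∑ k, Hc k ^ 2 +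
      lam * (2 * a - 2 * s1) / β * ∑ k, Hc k ^ 2 := by ring
  rw [e8] at e6
  linarith

/-- Step E with a factor, second version -/
theorem bad_le2 {a τ β s1 H0 lam : ℝ} (N : RootNum2 a τ β s1 H0 lam)
    (hsz : ∀ i, a ≤ cl w c i) (hmis : ∀ r, mis G w c r ≤ τ)
    (hown : ∀ r z, c r ≠ c z → own G w c z r ≤ β) :
    BBw G w c ≤ (4 * lam - 3) * MM G w c := by
  have ht : ∀ i, 2 * (a / 2) ≤ cl w c i := fun i => by
    have := hsz i
    linarith
  have k1 := bad2_le G w c hw
  have k2 := bad3_le G w c hw (a / 2) ht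
  have k3 := missing_ge G w c hw (a / 2)
  have lam1 := N.lam_ge
  set A1 := ∑ r, w r * ∑ z, w z * (hv G w c r z * own G w c z r) with hA1
  set A2 := ∑ r, w r * ∑ z, w z * (chi G w c (a / 2) r z * miss G w c r z) with hA2
  set B1 := T3 w (fun x y z => blk (c x) (c y) (c z) * (1 - ind (G.E x y z)) *
        (chi G w c (a / 2) x y * chi G w c (a / 2) x z)) with hB1
  have k4 : T3 w (fun x y z => nbl (c x) (c y) (c z) *
        (chi G w c (a / 2) x y * chi G w c (a / 2) x z)) + B1 ≤
      ∑ x, w x * ((∑ y, w y * chi G w c (a / 2) x y) ^ 2 -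
        ∑ k, cs w c (fun z => chi G w c (a / 2) x z) k ^ 2) := by
    rw [hB1, ← T3_add, T3_S2]
    refine sum_le_sum fun x _ => mul_le_mul_of_nonneg_left ?_ (hw x)
    rw [← ne_pair_eq w c (fun z => chi G w c (a / 2) x z)]
    refine S2_mono w hw fun y z => ?_
    have h1 := nbl_add_blk_le (c x) (c y) (c z)
    have h2 := blk_nonneg (c x) (c y) (c z)
    have h3 := ind_nonneg (G.E x y z)
    have h4 := mul_nonneg (chi_nonneg G w c (a / 2) x y) (chi_nonneg G w c (a / 2) x z)
    rw [← add_mul]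
    refine mul_le_mul_of_nonneg_right ?_ h4
    by_cases hyz : c y = c z
    · have b0 : blk (c x) (c y) (c z) = 0 := by rw [hyz, blk_irr3]
      have n0 : nbl (c x) (c y) (c z) = 0 := by
        unfold nbl; rw [if_neg]; rintro ⟨-, -, h, -⟩; exact h hyz
      rw [b0, n0, if_pos hyz]; norm_num
    · rw [if_neg hyz]
      nlinarith [mul_nonneg h2 h3]
  have k5 : 2 * A1 + ∑ x, w x * ((∑ y, w y * chi G w c (a / 2) x y) ^ 2 -
        ∑ k, cs w c (fun z => chi G w c (a / 2) x z) k ^ 2) ≤ lam * A2 := by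
    rw [hA1, hA2, mul_sum, mul_sum, ← sum_add_distrib]
    refine sum_le_sum fun r _ => ?_
    have h := root_le2 G w c hw N r hsz (hmis r) (hown r)
    have h' := mul_le_mul_of_nonneg_left h (hw r)
    calc _ = w r * (2 * (∑ z, w z * (hv G w c r z * own G w c z r)) +
      ((∑ z, w z * chi G w c (a / 2) r z) ^ 2 -
        ∑ k, cs w c (fun z => chi G w c (a / 2) r z) k ^ 2)) := by ring
      _ ≤ _ := h'
      _ = _ := by ring
  have k6 : B1 ≤ MM G w c := by
    rw [hB1]
    unfold MM
    refine T3_mono w hw fun x y z => ?_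
    have h1 : 0 ≤ blk (c x) (c y) (c z) * (1 - ind (G.E x y z)) := by
      have := ind_le_one (G.E x y z)
      exact mul_nonneg (blk_nonneg _ _ _) (by linarith)
    have h2 : chi G w c (a / 2) x y * chi G w c (a / 2) x z ≤ 1 := by
      rcases chi_zero_or_one G w c (a / 2) x y with h | h <;>
      rcases chi_zero_or_one G w c (a / 2) x z with h' | h' <;> rw [h, h'] <;> norm_num
    have := mul_le_mul_of_nonneg_left h2 h1
    linarith
  have k7 : 3 * A2 - 3 * B1 ≤ MM G w c := k3
  have k8 : lam * (3 * A2 - 3 * B1) ≤ lam * MM G w c :=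
    mul_le_mul_of_nonneg_left k7 (by linarith)
  have k9 : (lam - 1) * B1 ≤ (lam - 1) * MM G w c :=
    mul_le_mul_of_nonneg_left k6 (by linarith)
  unfold BBw
  linarith

end B2

end K4m
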