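import Mathlib
import Pool.Agent.Lib.MP_392c14_co.End2B
import Pool.Agent.Lib.MP_392c14_co.EndGame

/-!
# End game, second version, part C: local bounds, errors of the classes and masses
-/

set_option autoImplicit false

namespace K4m

open Finset

section NumC

theorem kT_aux (a τ T H m HH kT : ℝ) (ha : 0 < a) (hT0 : 0 ≤ T) (hH0 : 0 ≤ H) (hm : m ≤ τ)
    (hTm : T ≤ m) (h2 : 2 * T ≤ m + H ^ 2 / 2) (h3 : a * H ≤ T)
    (hHH : ∀ H : ℝ, 0 ≤ H → a * H ≤ τ → 2 * (a * H) ≤ τ + H ^ 2 / 2 → H ≤ HH)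
    (hk0 : 0 ≤ kT) (hk : 1 ≤ kT * (2 - HH / (2 * a))) : T ≤ kT * m := by
  have h4 : H ≤ HH := hHH H hH0 (by linarith) (by linarith)
  have hHH0 : 0 ≤ HH := hH0.trans h4
  have h5 : H ^ 2 ≤ HH * (T / a) := by
    have e : H ^ 2 = H * H := by ring
    rw [e]
    refine mul_le_mul h4 ?_ hH0 hHH0
    rw [le_div_iff₀ ha]; linarith
  have h6 : T * (2 - HH / (2 * a)) ≤ m := by
    have e : HH * (T / a) / 2 = T * (HH / (2 * a)) := by field_simp
    have : T * (2 - HH / (2 * a)) = 2 * T - HH * (T / a) / 2 := by rw [e]; ring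
    rw [this]; linarith
  have h7 : kT * (T * (2 - HH / (2 * a))) ≤ kT * m := mul_le_mul_of_nonneg_left h6 hk0
  have h8 : T * 1 ≤ T * (kT * (2 - HH / (2 * a))) := mul_le_mul_of_nonneg_left hk hT0
  have e2 : kT * (T * (2 - HH / (2 * a))) = T * (kT * (2 - HH / (2 * a))) := by ring
  rw [e2] at h7
  linarith

theorem quad_prod (a T H m τ : ℝ) (hTm : T ≤ m) (hm : m ≤ τ)
    (hm0 : 0 ≤ m) (h3 : a * H ≤ T) : a * (H * (m - T)) ≤ τ / 4 * m := by
  have h1 : (a * H) * (m - T) ≤ T * (m - T) := mul_le_mul_of_nonneg_right h3 (by linarith)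
  have h2 : T * (m - T) ≤ m ^ 2 / 4 := by nlinarith [sq_nonneg (m - 2 * T)]
  have h4 : m ^ 2 ≤ τ * m := by
    have : m ^ 2 = m * m := by ring
    rw [this]; exact mul_le_mul_of_nonneg_right hm hm0
  have e : a * (H * (m - T)) = (a * H) * (m - T) := by ring
  rw [e]; linarith

/-- ratio of own codegree and missing codegree for a heavy pair -/
theorem ratio_aux (a β D κ o s S0 : ℝ) (hβ : 0 < β) (hD : 0 ≤ D) (hDa : D ≤ β * a)
    (hκ : β ≤ κ * (2 * a - D / β)) (hκ0 : 0 ≤ κ) (hoβ : o ≤ β) (hS : 2 * a ≤ S0)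
    (hs : 0 ≤ s) (hs2 : 2 * s ≤ S0) (hos : o * s ≤ D) : o ≤ κ * (S0 - s) := by
  have hDb : D / β ≤ a := by rw [div_le_iff₀ hβ]; linarith
  have hDb0 : 0 ≤ D / β := div_nonneg hD hβ.le
  rcases le_total s (D / β) with h | h
  · have h1 : κ * (2 * a - D / β) ≤ κ * (S0 - s) := mul_le_mul_of_nonneg_left (by linarith) hκ0
    linarith
  · rcases hs.lt_or_eq with hs0 | hs0
    · -- multiply by `s`
      have h2 : o * s ≤ κ * (S0 - s) * s := by
        have h3 : D ≤ κ * (2 * a - D / β) * (D / β) := by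
          have h4 : β * (D / β) = D := by field_simp
          calc D = β * (D / β) := h4.symm
            _ ≤ κ * (2 * a - D / β) * (D / β) := mul_le_mul_of_nonneg_right hκ hDb0
        have h5 : (2 * a - D / β) * (D / β) ≤ (S0 - s) * s := by
          have h6 : 0 ≤ (s - D / β) * (S0 - s - D / β) :=
            mul_nonneg (by linarith) (by linarith)
          have h7 : 2 * a * (D / β) ≤ S0 * (D / β) := mul_le_mul_of_nonneg_right hS hDb0
          nlinarith
        have h8 : κ * ((2 * a - D / β) * (D / β)) ≤ κ * ((S0 - s) * s) :=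
          mul_le_mul_of_nonneg_left h5 hκ0
        linarith
      exact le_of_mul_le_mul_right h2 hs0
    · have h9 : D / β = 0 := le_antisymm (by linarith) hDb0
      rw [h9] at hκ
      have h10 : κ * (2 * a - 0) ≤ κ * (S0 - s) := mul_le_mul_of_nonneg_left (by linarith) hκ0
      linarith

end NumC

section C2

variable {V : Type} [Fintype V] (G : TG V) (w : V → ℝ) (c : V → Fin 6)

/-- total mass of the own pairs of a class -/
noncomputable def BK (k : Fin 6) : ℝ := ∑ z, w z * (pin c k z * bz G w c z)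

/-- the part of a class in the heavy missing mass -/
noncomputable def TK (k : Fin 6) : ℝ := ∑ z, w z * (pin c k z * Tz G w c z)

variable (hw : ∀ x, 0 ≤ w x)
include hw

theorem BK_nonneg (k : Fin 6) : 0 ≤ BK G w c k :=
  sum_nonneg fun z _ => mul_nonneg (hw z) (mul_nonneg (pin_nonneg c k z) (bz_nonneg G w c hw z))

/-- the heavy missing mass of a vertex -/
theorem Tz_le_kT (a τ HH kT : ℝ) (ha : 0 < a) (hsz : ∀ i, a ≤ cl w c i) (z : V)
    (hm : mis G w c z ≤ τ)
    (hHH : ∀ H : ℝ, 0 ≤ H → a * H ≤ τ → 2 * (a * H) ≤ τ + H ^ 2 / 2 → H ≤ HH)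
    (hk0 : 0 ≤ kT) (hk : 1 ≤ kT * (2 - HH / (2 * a))) :
    Tz G w c z ≤ kT * mis G w c z :=
  kT_aux a τ _ _ _ HH kT ha (Tz_nonneg G w c hw z) (Hz_nonneg G w c hw z) hm
    (Tz_le_mis G w c hw z) (two_Tz_le2 G w c hw z) (Hz_le G w c hw a hsz z) hHH hk0 hk

theorem TK_le (a τ HH kT : ℝ) (ha : 0 < a) (hsz : ∀ i, a ≤ cl w c i)
    (hm : ∀ z, mis G w c z ≤ τ)
    (hHH : ∀ H : ℝ, 0 ≤ H → a * H ≤ τ → 2 * (a * H) ≤ τ + H ^ 2 / 2 → H ≤ HH)
    (hk0 : 0 ≤ kT) (hk : 1 ≤ kT * (2 - HH / (2 * a))) (k : Fin 6) :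
    TK G w c k ≤ kT * Mk G w c k := by
  unfold TK Mk
  rw [mul_sum]
  refine sum_le_sum fun z _ => ?_
  have e : kT * (w z * (pin c k z * mis G w c z)) = w z * (pin c k z * (kT * mis G w c z)) := by
    ring
  rw [e]
  exact mul_le_mul_of_nonneg_left (mul_le_mul_of_nonneg_left
    (Tz_le_kT G w c hw a τ HH kT ha hsz z (hm z) hHH hk0 hk) (pin_nonneg c k z)) (hw z)

/-- (K1) for one class -/
theorem BK_le_heavy (k : Fin 6) : BK G w c k ≤
    2 * ∑ z, w z * (pin c k z * ∑ r, w r * (hv G w c z r * own G w c z r)) := by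
  have e0 : BK G w c k = T3 w (fun x y z => pin c k x * (p1 (c x) (c y) (c z) *
      ind (G.E x y z))) := by
    rw [T3_S2]
    unfold BK bz
    refine sum_congr rfl fun z _ => ?_
    rw [S2_mul]
  have key : ∀ x y z, pin c k x * (p1 (c x) (c y) (c z) * ind (G.E x y z)) ≤
      (hv G w c z x * pin c k x) * ((if c y = c x then 1 else 0) * ind (G.E x y z)) +
      (hv G w c z y * pin c k y) * ((if c x = c y then 1 else 0) * ind (G.E y x z)) := by
    intro x y z
    have px := pin_nonneg c k x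
    have py := pin_nonneg c k y
    rcases ind_cases (G.E x y z) with ⟨h, h'⟩ | ⟨h, h'⟩
    · have h2 : ind (G.E y x z) = 1 := by rw [G.symm₁]; exact h'
      rw [h', h2]
      unfold p1
      by_cases hc : c x = c y ∧ c y ≠ c z
      · rw [if_pos hc]
        obtain ⟨hxy, hyz⟩ := hc
        rw [if_pos hxy.symm, if_pos hxy]
        have epin : pin c k y = pin c k x := by unfold pin; rw [hxy]
        rw [epin]
        have hE : G.E z x y = true := by rw [E_rot]; exact h
        have h3 := miss_add_ge G w c hw x y z hxy hE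
        have hzx : c z ≠ c x := by rw [hxy]; exact hyz.symm
        have hzy : c z ≠ c y := hyz.symm
        by_cases h4 : SS w c (c z) (c x) ≤ 2 * miss G w c z x
        · have : hv G w c z x = 1 := by unfold hv; rw [if_pos ⟨hzx, h4⟩]
          rw [this]
          have := mul_nonneg (hv_nonneg G w c z y) px
          linarith
        · have h5 : SS w c (c z) (c y) ≤ 2 * miss G w c z y := by
            rw [← hxy]
            push Not at h4
            linarith
          have : hv G w c z y = 1 := by unfold hv; rw [if_pos ⟨hzy, h5⟩]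
          rw [this]
          have := mul_nonneg (hv_nonneg G w c z x) px
          linarith
      · rw [if_neg hc]
        have a1 := mul_nonneg (hv_nonneg G w c z x) px
        have a2 := mul_nonneg (hv_nonneg G w c z y) py
        have b1 : (0 : ℝ) ≤ (if c y = c x then 1 else 0) := by split_ifs <;> norm_num
        have b2 : (0 : ℝ) ≤ (if c x = c y then 1 else 0) := by split_ifs <;> norm_num
        have := mul_nonneg a1 b1
        have := mul_nonneg a2 b2
        linarith
    · have h2 : ind (G.E y x z) = 0 := by rw [G.symm₁]; exact h'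
      rw [h', h2]
      simp
  rw [e0]
  refine (T3_mono w hw key).trans ?_
  rw [T3_add]
  have e1 := T3_swap12 w (fun x y z => (hv G w c z x * pin c k x) *
      ((if c y = c x then 1 else 0) * ind (G.E x y z)))
  have e2 : T3 w (fun x y z => (hv G w c z x * pin c k x) *
      ((if c y = c x then 1 else 0) * ind (G.E x y z))) =
      T3 w (fun x z y => (hv G w c x z * pin c k x) *
        ((if c y = c x then 1 else 0) * ind (G.E x y z))) := by
    rw [← T3_swap23 w (fun x z y => (hv G w c x z * pin c k x) *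
        ((if c y = c x then 1 else 0) * ind (G.E x y z)))]
    refine T3_congr w fun x y z => ?_
    rw [hv_symm G w c x z]
  have e3 := T3_fst w (fun x z => hv G w c x z * pin c k x)
    (fun x z y => (if c y = c x then 1 else 0) * ind (G.E x y z))
  have e4 : ∑ x, w x * ∑ z, w z * (hv G w c x z * pin c k x *
      ∑ y, w y * ((if c y = c x then 1 else 0) * ind (G.E x y z))) =
      ∑ z, w z * (pin c k z * ∑ r, w r * (hv G w c z r * own G w c z r)) := by
    refine sum_congr rfl fun x _ => ?_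
    congr 1
    rw [mul_sum]
    refine sum_congr rfl fun z _ => ?_
    unfold own
    ring
  rw [e1, e2, e3, e4]
  linarith

/-- bound for the own pairs of a class -/
theorem BK_le (a β τ κ : ℝ) (hsz : ∀ i, a ≤ cl w c i) (hβ : 0 < β) (hτ : 0 ≤ τ)
    (hDa : τ / 2 ≤ β * a) (hκ : β ≤ κ * (2 * a - τ / 2 / β)) (hκ0 : 0 ≤ κ)
    (hmis : ∀ z, mis G w c z ≤ τ) (hown : ∀ r z, c r ≠ c z → own G w c z r ≤ β) (k : Fin 6) :
    BK G w c k ≤ 2 * κ * TK G w c k := by
  refine (BK_le_heavy G w c hw k).trans ?_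
  have h : ∑ z, w z * (pin c k z * ∑ r, w r * (hv G w c z r * own G w c z r)) ≤
      κ * TK G w c k := by
    unfold TK
    rw [mul_sum]
    refine sum_le_sum fun z _ => ?_
    have e : κ * (w z * (pin c k z * Tz G w c z)) = w z * (pin c k z * (κ * Tz G w c z)) := by
      ring
    rw [e]
    refine mul_le_mul_of_nonneg_left (mul_le_mul_of_nonneg_left ?_ (pin_nonneg c k z)) (hw z)
    unfold Tz
    rw [mul_sum]
    refine sum_le_sum fun r _ => ?_
    have e2 : κ * (w r * (hv G w c z r * miss G w c z r)) =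
        w r * (κ * (hv G w c z r * miss G w c z r)) := by ring
    rw [e2]
    refine mul_le_mul_of_nonneg_left ?_ (hw r)
    by_cases hh : c z ≠ c r ∧ SS w c (c z) (c r) ≤ 2 * miss G w c z r
    · have e3 : hv G w c z r = 1 := by unfold hv; rw [if_pos hh]
      rw [e3, one_mul, one_mul]
      have hp := own_mul_le G w c hw r z
      have hm' := miss_le_SS G w c hw r z
      have hne : c r ≠ c z := hh.1.symm
      have hS := SS_ge w c a hsz (c r) (c z) hne
      have h2 := hh.2
      rw [SS_symm w c (c r) (c z), miss_symm G w c r z] at h2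
      have h3 := ratio_aux a β (τ / 2) κ (own G w c z r)
        (SS w c (c r) (c z) - miss G w c r z) (SS w c (c r) (c z)) hβ (by linarith) hDa hκ hκ0
        (hown r z hne) hS (by linarith) (by linarith) (by have := hmis r; linarith)
      have e4 : SS w c (c r) (c z) - (SS w c (c r) (c z) - miss G w c r z) =
          miss G w c z r := by rw [miss_symm G w c z r]; ring
      rw [e4] at h3
      exact h3
    · have e3 : hv G w c z r = 0 := by unfold hv; rw [if_neg hh]
      rw [e3]; simp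
  linarith

/-- the local bounds at a vertex -/
theorem local_bounds (a q β τ : ℝ) (ha : 0 < a) (hlo : ∀ i, a ≤ cl w c i)
    (hhi : ∀ i, cl w c i ≤ q) (hq : 0 ≤ q) (z : V)
    (hmis : ∀ z, mis G w c z ≤ τ) (hown : ∀ r z, c r ≠ c z → own G w c z r ≤ β) :
    2 * a * bz G w c z ≤ β * Tz G w c z + 2 * Mk G w c (c z) ∧
    a ^ 2 * btw G w c z ≤ a * β * Tz G w c z + τ / 4 * mis G w c z ∧
    2 * q * (3 * a - 2 * q) * gm G w c z ≤ τ / 2 * mis G w c z +
      2 * q * Wk G w c (c z) := by
  have m0 := mis_nonneg G w c hw z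
  have b1 := bz_le G w c hw a β ha hlo z (fun v hv => hown v z hv.symm)
  have b2 := bt_le G w c hw a β hlo z (fun v hv => hown z v hv)
  have b3 := gm_le2 G w c hw a q hlo hhi hq z
  refine ⟨b1, ?_, ?_⟩
  · have h1 := quad_prod a (Tz G w c z) (Hz G w c z) (mis G w c z) τ
      (Tz_le_mis G w c hw z) (hmis z) m0 (Hz_le G w c hw a hlo z)
    have h2 := mul_le_mul_of_nonneg_left b2 ha.le
    have e1 : a * (a * btw G w c z) = a ^ 2 * btw G w c z := by ring
    have e2 : a * (β * Tz G w c z + Hz G w c z * (mis G w c z - Tz G w c z)) =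
        a * β * Tz G w c z + a * (Hz G w c z * (mis G w c z - Tz G w c z)) := by ring
    rw [e1, e2] at h2
    linarith
  · have h4 : mis G w c z ^ 2 ≤ τ * mis G w c z := by
      have : mis G w c z ^ 2 = mis G w c z * mis G w c z := by ring
      rw [this]; exact mul_le_mul_of_nonneg_right (hmis z) m0
    linarith

end C2

section Sizes2

/-- the masses of the classes from the averaged degrees, with parameters -/
theorem sizes2 (r t ε a yl yu el eu es S0 ζ yl' yu' : ℝ) (x E : Fin 6 → ℝ) (hx : ∑ i, x i = 1)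
    (hlo : ∀ i, a ≤ x i) (ha : 0 < a) (hyl : ∀ i, 1 / 6 - yl ≤ x i) (hyu : ∀ i, x i ≤ 1 / 6 + yu)
    (hr0 : 0 ≤ r) (hr1 : r ≤ 1 / 3)
    (ht : (10 + r) / 36 - ε ≤ t)
    (hE : ∀ k, t * x k ≤ r * x k ^ 3 + x k * idp x k + E k)
    (hup : ∀ k, E k ≤ eu) (heu : 0 ≤ eu) (hel : ∀ k, -el ≤ E k) (hsum : ∑ k, E k ≤ es)
    (hS : ∑ i, (x i - 1 / 6) ^ 2 ≤ S0)
    (hζ0 : 0 ≤ ζ) (z1 : eu * (6 * yl) ≤ ζ * a) (z4 : el * (6 * yu) ≤ ζ * a)
    (hyu' : 9 / 5 * (ε + eu / a + 2 * S0) ≤ yu')
    (hyl' : 9 / 5 * (5 * ε + S0 / 3 + 6 * (es + el) + 5 * ζ) ≤ yl')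
    (hε : 0 ≤ ε) (hS00 : 0 ≤ S0) (hesel : 0 ≤ es + el) (k : Fin 6) :
    1 / 6 - yl' ≤ x k ∧ x k ≤ 1 / 6 + yu' := by
  set S : ℝ := ∑ i, (x i - 1 / 6) ^ 2 with hSd
  have hy2 : ∀ k, 0 ≤ (x k - 1 / 6) ^ 2 := fun k => sq_nonneg _
  have hyS : ∀ k, (x k - 1 / 6) ^ 2 ≤ S := fun k =>
    single_le_sum (f := fun i => (x i - 1 / 6) ^ 2) (fun i _ => sq_nonneg _) (mem_univ k)
  -- one class
  set u : Fin 6 → ℝ := fun k => E k / x k with hu
  have xk0 : ∀ k, 0 < x k := fun k => lt_of_lt_of_le ha (hlo k)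
  have h2 : ∀ k, t ≤ r * x k ^ 2 + idp x k + u k := by
    intro k
    have hk := hE k
    have e1 : x k * u k = E k := by
      have := (xk0 k).ne'
      simp only [hu]; field_simp
    have e2 : x k * t ≤ x k * (r * x k ^ 2 + idp x k + u k) := by
      calc x k * t = t * x k := by ring
        _ ≤ r * x k ^ 3 + x k * idp x k + E k := hk
        _ = x k * (r * x k ^ 2 + idp x k + u k) := by rw [← e1]; ring
    exact le_of_mul_le_mul_left e2 (xk0 k)
  have hu1 : ∀ k, u k ≤ eu / a := by
    intro k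
    simp only [hu]
    have h1 : E k / x k ≤ eu / x k := div_le_div_of_nonneg_right (hup k) (xk0 k).le
    exact h1.trans (div_le_div_of_nonneg_left heu ha (hlo k))
  have hu2 : ∀ k, u k ≤ 6 * E k + ζ := by
    intro k
    simp only [hu]
    rw [div_le_iff₀ (xk0 k)]
    have a1 := hup k
    have a2 := hel k
    have a3 := hyl k
    have a4 := hyu k
    have e4 : (6 * E k + ζ) * x k - E k = ζ * x k - E k * (1 - 6 * x k) := by ring
    have hζx : ζ * a ≤ ζ * x k := mul_le_mul_of_nonneg_left (hlo k) hζ0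
    have key : E k * (1 - 6 * x k) ≤ ζ * a := by
      rcases le_total 0 (E k) with hp | hp
      · rcases le_total 0 (1 - 6 * x k) with hq | hq
        · calc E k * (1 - 6 * x k) ≤ eu * (6 * yl) := mul_le_mul a1 (by linarith) hq heu
            _ ≤ ζ * a := z1
        · have : E k * (1 - 6 * x k) ≤ 0 := mul_nonpos_of_nonneg_of_nonpos hp hq
          have := mul_nonneg hζ0 ha.le
          linarith
      · rcases le_total 0 (1 - 6 * x k) with hq | hq
        · have : E k * (1 - 6 * x k) ≤ 0 := mul_nonpos_of_nonpos_of_nonneg hp hq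
          have := mul_nonneg hζ0 ha.le
          linarith
        · have e5 : E k * (1 - 6 * x k) = (-E k) * (6 * x k - 1) := by ring
          rw [e5]
          calc (-E k) * (6 * x k - 1) ≤ el * (6 * yu) :=
                mul_le_mul (by linarith) (by linarith) (by linarith) (by linarith)
            _ ≤ ζ * a := z4
    linarith
  have hexp : ∀ k, r * x k ^ 2 = r / 36 + r / 3 * (x k - 1 / 6) + r * (x k - 1 / 6) ^ 2 := by
    intro k; ring
  constructor
  · -- lower bound
    set f : Fin 6 → ℝ := fun j => (2 / 3 - r / 3) * (x j - 1 / 6) - ε -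
      (idp x j - 10 / 36 + 2 / 3 * (x j - 1 / 6)) - r * (x j - 1 / 6) ^ 2 - 6 * E j -
      ζ with hf
    have f0 : ∀ j, f j ≤ 0 := by
      intro j
      have a1 := h2 j
      have a2 := hu2 j
      have a3 := hexp j
      simp only [hf]
      linarith
    have f1 : ∑ j ∈ univ.erase k, f j ≤ 0 := sum_nonpos fun j _ => f0 j
    rw [sum_erase_eq_sub (mem_univ k)] at f1
    have f2 : ∑ j, f j = -(6 * ε) + 2 * S - r * S - 6 * ∑ j, E j - 6 * ζ := by
      have g1 := sum_idp x hx
      have g2 : ∑ j, (x j - 1 / 6) = 0 := by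
        rw [sum_sub_distrib, hx]; simp
      simp only [hf]
      rw [sum_sub_distrib, sum_sub_distrib, sum_sub_distrib, sum_sub_distrib, sum_sub_distrib,
        sum_add_distrib, sum_sub_distrib, ← mul_sum, ← mul_sum, ← mul_sum, ← mul_sum, g1, g2,
        ← hSd]
      simp only [sum_const, card_univ, Fintype.card_fin]
      norm_num
    rw [f2] at f1
    have g1 := (idp_bounds x hx k).2
    have g2 := hel k
    have g3 := hyS k
    have g4 := hy2 k
    have g5 : r * S ≤ 1 / 3 * S0 := mul_le_mul hr1 hS (hy2 k |>.trans g3) (by norm_num)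
    have g6 : 0 ≤ r * (x k - 1 / 6) ^ 2 := mul_nonneg hr0 g4
    have g7 : f k = (2 / 3 - r / 3) * (x k - 1 / 6) - ε -
      (idp x k - 10 / 36 + 2 / 3 * (x k - 1 / 6)) - r * (x k - 1 / 6) ^ 2 - 6 * E k -
      ζ := rfl
    rw [g7] at f1
    have g8 : (2 / 3 - r / 3) * (-(x k - 1 / 6)) ≤ 5 * ε + S0 / 3 + 6 * (es + el) + 5 * ζ := by
      rw [← hSd] at g1
      linarith
    by_contra hne
    push Not at hne
    have hyl0 : 0 ≤ yl' := le_trans (by positivity) hyl'
    have g9 : (5 / 9) * yl' < (2 / 3 - r / 3) * (-(x k - 1 / 6)) :=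
      calc (5 / 9) * yl' ≤ (2 / 3 - r / 3) * yl' :=
            mul_le_mul_of_nonneg_right (by linarith) hyl0
        _ < (2 / 3 - r / 3) * (-(x k - 1 / 6)) :=
            mul_lt_mul_of_pos_left (by linarith) (by linarith)
    linarith
  · -- upper bound
    have a1 := h2 k
    have a2 := hu1 k
    have a3 := hexp k
    have g1 := (idp_bounds x hx k).1
    rw [← hSd] at g1
    have g3 := hyS k
    have g4 := hy2 k
    have g5 : r * (x k - 1 / 6) ^ 2 ≤ 1 / 3 * (x k - 1 / 6) ^ 2 :=
      mul_le_mul_of_nonneg_right hr1 g4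
    have g8 : (2 / 3 - r / 3) * (x k - 1 / 6) ≤ ε + eu / a + 2 * S0 := by
      linarith
    by_contra hne
    push Not at hne
    have hyu0 : 0 ≤ yu' := by
      have : 0 ≤ eu / a := div_nonneg heu ha.le
      exact le_trans (by positivity) hyu'
    have g9 : (5 / 9) * yu' < (2 / 3 - r / 3) * (x k - 1 / 6) :=
      calc (5 / 9) * yu' ≤ (2 / 3 - r / 3) * yu' :=
            mul_le_mul_of_nonneg_right (by linarith) hyu0
        _ < (2 / 3 - r / 3) * (x k - 1 / 6) :=
            mul_lt_mul_of_pos_left (by linarith) (by linarith)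
    linarith

end Sizes2

end K4m
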