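import Mathlib
import Pool.Agent.Lib.MP_392c14_co.End2C
import Pool.Agent.Lib.MP_392c14_co.LinkEx

/-!
# End game, second version, part D: the bound for own neighbourhoods

The second order condition with the test function `delta_z + u_S / s - 2 u_P / x` and the link
exchange.
-/

set_option autoImplicit false

namespace K4m

open Finset

section D2

variable {V : Type} [Fintype V] (G : TG V) (w : V → ℝ) (c : V → Fin 6)

theorem tri_add3 (u v p q : V → ℝ) : tri G u v (fun x => p x + q x) = tri G u v p + tri G u v q := by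
  have h := tri_lin3 G u v p q 1
  simpa using h

theorem tri_add1 (u u' v p : V → ℝ) : tri G (fun x => u x + u' x) v p = tri G u v p + tri G u' v p := by
  have h := tri_lin G u u' v p 1
  simpa using h

theorem tri_add2 (u v v' p : V → ℝ) : tri G u (fun x => v x + v' x) p = tri G u v p + tri G u v' p := by
  have h := tri_lin2 G u v v' p 1
  simpa using h

/-- the exchange inequality inside a class -/
theorem inn_exchange (hw : IsW w) (k : Fin 6) (y z : V) (d : ℝ) (h0 : 0 < d) (h1 : d ≤ 1)
    (hval : rho - d ^ 2 ≤ val G w) (hdeg : deg G w z = val G w) (hz : c z = k) :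
    inn G w c k y ≤ inn G w c k z + 2 * bz G w c z + (d + d ^ 2) := by
  have h := link_exchange G w hw (fun x => decide (c x = k)) y z d h0 h1 hval hdeg
  have e0 : ∀ x, ind (decide (c x = k)) = pin c k x := by
    intro x
    unfold ind pin
    by_cases hx : c x = k
    · simp [hx]
    · simp [hx]
  have e1 : ∀ x, ia G w (fun y => ind (decide (c y = k))) x = inn G w c k x := by
    intro x
    unfold ia inn
    simp only [e0]
  have e2 : ca G w (fun y => ind (decide (c y = k))) z = cin G w c k z := by
    unfold ca cin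
    simp only [e0]
  rw [e1, e1, e2] at h
  have h3 := cin_eq G w c z
  rw [hz] at h3
  rw [h3] at h
  linarith

variable (hw : ∀ x, 0 ≤ w x)
include hw

/-- The independence bound, second version. -/
theorem own_le2 (hcnd : ∀ f : V → ℝ, ∑ x, f x = 0 → tri G f f w ≤ 0) (k : Fin 6) (z r : V)
    (hz : c z = k) (hπ : 0 < cl w c k) (σ I0 : ℝ) (hσ0 : 0 ≤ σ) (hσ : σ ≤ 1 / 2)
    (hin : 0 < inn G w c k z) (hI0 : ∀ y, c y = k → inn G w c k y ≤ I0)
    (hC : BK G w c k / cl w c k ≤ inn G w c k z + bz G w c z + I0 - VV G w c k / cl w c k)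
    (hnum : 2 * σ * (inn G w c k z + bz G w c z + I0 - VV G w c k / cl w c k) +
      (1 - 2 * σ) * (BK G w c k / cl w c k) < inn G w c k z / 2) :
    own G w c z r ≤ (1 - σ) * cl w c k := by
  classical
  set π : ℝ := cl w c k with hπdef
  -- the complement of the neighbourhood
  set S : V → ℝ := fun y => pin c k y * (1 - ind (G.E z y r)) with hS
  set Q : V → ℝ := fun y => pin c k y * ind (G.E z y r) with hQ
  have S_nonneg : ∀ y, 0 ≤ S y := by
    intro y
    have := ind_le_one (G.E z y r)
    exact mul_nonneg (pin_nonneg c k y) (by linarith)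
  have Q_nonneg : ∀ y, 0 ≤ Q y := fun y => mul_nonneg (pin_nonneg c k y) (ind_nonneg _)
  set s : ℝ := ∑ y, w y * S y with hs
  have s_nonneg : 0 ≤ s := sum_nonneg fun y _ => mul_nonneg (hw y) (S_nonneg y)
  have hown : own G w c z r = π - s := by
    rw [hπdef, hs]
    unfold own cl
    rw [← sum_sub_distrib]
    refine sum_congr rfl fun y _ => ?_
    simp only [hS, pin, hz]
    ring
  by_contra hne
  push Not at hne
  have hsσ : s < σ * π := by rw [hown] at hne; linarith
  set uS : V → ℝ := fun y => w y * S y with huS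
  set uQ : V → ℝ := fun y => w y * Q y with huQ
  set uP : V → ℝ := fun y => w y * pin c k y with huP
  set wO : V → ℝ := fun y => w y * (1 - pin c k y) with hwO
  set d : V → ℝ := fun x => if x = z then 1 else 0 with hd
  have ePSQ : uP = fun y => uS y + uQ y := by
    funext y
    simp only [huP, huS, huQ, hS, hQ]; ring
  have ewPO : w = fun y => uP y + wO y := by
    funext y
    simp only [huP, hwO]; ring
  have uS0 : ∀ y, 0 ≤ uS y := fun y => mul_nonneg (hw y) (S_nonneg y)
  have uQ0 : ∀ y, 0 ≤ uQ y := fun y => mul_nonneg (hw y) (Q_nonneg y)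
  have uP0 : ∀ y, 0 ≤ uP y := fun y => mul_nonneg (hw y) (pin_nonneg c k y)
  have wO0 : ∀ y, 0 ≤ wO y := fun y => mul_nonneg (hw y) (by
    have := pin_le_one c k y; linarith)
  -- `A = ∑ y ∈ S, w y * c(z, y)`
  have hA : inn G w c k z ≤ 2 * tri G d uS w := by
    have e1 : tri G d uS w = ∑ y, ∑ u, uS y * w u * ind (G.E z y u) := tri_delta G w z uS
    have e2 : tri G d uS w = ∑ y, ∑ u, uS u * w y * ind (G.E z y u) := by
      rw [e1, sum_comm]
      refine sum_congr rfl fun y _ => sum_congr rfl fun u _ => ?_
      rw [G.symm₂ z y u]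
    have e3 : 2 * tri G d uS w = ∑ y, ∑ u, w y * w u * ((S y + S u) * ind (G.E z y u)) := by
      have : 2 * tri G d uS w = (∑ y, ∑ u, uS y * w u * ind (G.E z y u)) +
          ∑ y, ∑ u, uS u * w y * ind (G.E z y u) := by rw [← e1, ← e2]; ring
      rw [this, ← sum_add_distrib]
      refine sum_congr rfl fun y _ => ?_
      rw [← sum_add_distrib]
      refine sum_congr rfl fun u _ => ?_
      simp only [huS]; ring
    rw [e3]
    unfold inn
    refine sum_le_sum fun y _ => sum_le_sum fun v _ => ?_
    refine mul_le_mul_of_nonneg_left ?_ (mul_nonneg (hw y) (hw v))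
    rcases ind_cases (G.E z y v) with ⟨h, h'⟩ | ⟨h, h'⟩
    · rw [h', mul_one, mul_one]
      rcases pin_zero_or_one c k y with py | py
      · rw [py, zero_mul]
        have := S_nonneg y
        have := S_nonneg v
        linarith
      · rcases pin_zero_or_one c k v with pv | pv
        · rw [pv, mul_zero]
          have := S_nonneg y
          have := S_nonneg v
          linarith
        · rw [py, pv]
          simp only [hS]
          rw [py, pv]
          rcases ind_cases (G.E z y r) with ⟨a, a'⟩ | ⟨a, a'⟩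
          · rcases ind_cases (G.E z v r) with ⟨b, b'⟩ | ⟨b, b'⟩
            · exact absurd ⟨h, a, b⟩ (G.free z y v r)
            · rw [a', b']; norm_num
          · rcases ind_cases (G.E z v r) with ⟨b, b'⟩ | ⟨b, b'⟩
            · rw [a', b']; norm_num
            · rw [a', b']; norm_num
    · rw [h', mul_zero, mul_zero]
  have hs0 : 0 < s := by
    rcases s_nonneg.lt_or_eq with h | h
    · exact h
    · exfalso
      have hz0 : ∀ y, w y * S y = 0 := by
        have := (sum_eq_zero_iff_of_nonneg (fun y _ => mul_nonneg (hw y) (S_nonneg y))).1 h.symm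
        exact fun y => this y (mem_univ y)
      have : tri G d uS w = 0 := by
        rw [tri_delta G w z uS]
        refine sum_eq_zero fun y _ => sum_eq_zero fun u _ => ?_
        simp only [huS]
        rw [hz0 y]; ring
      rw [this] at hA
      linarith
  -- the test function
  have hsum : ∑ x, ((d x + 1 / s * uS x) + (-(2 / π)) * uP x) = 0 := by
    rw [sum_add_distrib, sum_add_distrib, ← mul_sum, ← mul_sum]
    have h1 : ∑ x, d x = 1 := by simp [hd]
    have h2 : ∑ x, uS x = s := rfl
    have h3 : ∑ x, uP x = π := rfl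
    rw [h1, h2, h3]
    field_simp
    ring
  have hq := hcnd _ hsum
  rw [quad_expand G w] at hq
  rw [hd, tri_delta_delta G w z, ← hd] at hq
  -- the inside and the outside parts
  have hSS : tri G uS uS wO ≤ tri G uS uS w := by
    have e : tri G uS uS w = tri G uS uS uP + tri G uS uS wO := by
      conv_lhs => rw [ewPO]
      exact tri_add3 G uS uS uP wO
    have := tri_nonneg_of G uP uP0 uS uS uS0 uS0
    linarith
  have ePP : tri G uP uP w = VV G w c k + tri G uP uP wO := by
    have e : tri G uP uP w = tri G uP uP uP + tri G uP uP wO := by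
      conv_lhs => rw [ewPO]
      exact tri_add3 G uP uP uP wO
    rw [e]; rfl
  have eSP : tri G uS uP w = tri G uS uP uP + tri G uS uP wO := by
    conv_lhs => rw [ewPO]
    exact tri_add3 G uS uP uP wO
  have eSPO : tri G uS uP wO = tri G uS uS wO + tri G uS uQ wO := by
    conv_lhs => rw [ePSQ]
    exact tri_add2 G uS uS uQ wO
  have ePPO : tri G uP uP wO = tri G uS uS wO + 2 * tri G uS uQ wO + tri G uQ uQ wO := by
    have e1 : tri G uP uP wO = tri G uS uP wO + tri G uQ uP wO := by
      conv_lhs => rw [ePSQ]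
      rw [tri_add1]
      rw [← ePSQ]
    have e2 : tri G uQ uP wO = tri G uQ uS wO + tri G uQ uQ wO := by
      conv_lhs => rw [ePSQ]
      exact tri_add2 G uQ uS uQ wO
    have e3 : tri G uQ uS wO = tri G uS uQ wO := tri_swap12 G uQ uS wO
    rw [e1, e2, eSPO, e3]; ring
  have nQQ : 0 ≤ tri G uQ uQ wO := tri_nonneg_of G wO wO0 uQ uQ uQ0 uQ0
  have nSQ : 0 ≤ tri G uS uQ wO := tri_nonneg_of G wO wO0 uS uQ uS0 uQ0
  have nSS : 0 ≤ tri G uS uS wO := tri_nonneg_of G wO wO0 uS uS uS0 uS0
  have eBK : tri G uP uP wO = BK G w c k := by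
    unfold BK tri
    refine sum_congr rfl fun x _ => ?_
    by_cases hx : c x = k
    · have px : pin c k x = 1 := by unfold pin; rw [if_pos hx]
      unfold bz S2
      rw [px, one_mul, mul_sum]
      refine sum_congr rfl fun y _ => ?_
      rw [mul_sum]
      refine sum_congr rfl fun v _ => ?_
      simp only [huP, hwO]
      rw [px]
      have ep : p1 (c x) (c y) (c v) = pin c k y * (1 - pin c k v) := by
        unfold p1 pin
        rw [hx]
        by_cases hy : c y = k
        · by_cases hv : c v = k
          · rw [if_neg, if_pos hy, if_pos hv]; norm_num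
            rintro ⟨-, h⟩; exact h (hy.trans hv.symm)
          · rw [if_pos ⟨hy.symm, fun h => hv (h ▸ hy)⟩, if_pos hy, if_neg hv]; norm_num
        · rw [if_neg (fun h => hy h.1.symm), if_neg hy]; norm_num
      rw [ep]; ring
    · have px : pin c k x = 0 := by unfold pin; rw [if_neg hx]
      rw [px]
      simp only [zero_mul, mul_zero]
      refine sum_eq_zero fun y _ => sum_eq_zero fun v _ => ?_
      simp only [huP]
      rw [px]; ring
  -- identify the other terms
  have tP : tri G d uP w = inn G w c k z + bz G w c z := by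
    have h1 := cin_eq G w c z
    rw [hz] at h1
    rw [← h1, tri_delta G w z uP]
    unfold cin
    refine sum_congr rfl fun y _ => sum_congr rfl fun v _ => ?_
    simp only [huP]; ring
  have hSPi : tri G uS uP uP ≤ s * I0 := by
    have e : tri G uS uP uP = ∑ y, w y * (S y * inn G w c k y) := by
      unfold tri inn
      refine sum_congr rfl fun x _ => ?_
      rw [mul_sum, mul_sum]
      refine sum_congr rfl fun y _ => ?_
      rw [mul_sum, mul_sum]
      refine sum_congr rfl fun v _ => ?_
      simp only [huP, huS]; ring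
    rw [e, hs, sum_mul]
    refine sum_le_sum fun y _ => ?_
    have hass : w y * S y * I0 = w y * (S y * I0) := by ring
    rw [hass]
    refine mul_le_mul_of_nonneg_left ?_ (hw y)
    by_cases hy : c y = k
    · exact mul_le_mul_of_nonneg_left (hI0 y hy) (S_nonneg y)
    · have : S y = 0 := by simp only [hS, pin]; rw [if_neg hy]; ring
      rw [this]; simp
  set A := tri G d uS w with hAd
  set oSS := tri G uS uS wO with hoSS
  set oSQ := tri G uS uQ wO with hoSQ
  set oQQ := tri G uQ uQ wO with hoQQ
  set I := inn G w c k z with hI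
  set b := bz G w c z with hb
  set B := BK G w c k with hB
  set W := VV G w c k with hW
  rw [tP, ePP, eSP, eSPO, eBK] at hq
  have hB2 : 2 * oSQ ≤ B := by rw [← eBK, ePPO]; linarith
  have hBexp : B = oSS + 2 * oSQ + oQQ := by rw [← eBK, ePPO]
  -- clear denominators
  have sne : s ≠ 0 := hs0.ne'
  have pne : π ≠ 0 := hπ.ne'
  have hsπ : s ≤ π / 2 := by
    have : σ * π ≤ 1 / 2 * π := mul_le_mul_of_nonneg_right hσ hπ.le
    linarith
  have key : A ≤ 2 * (s / π) * (I + b + I0 - W / π) + (1 - 2 * (s / π)) * (B / π) := by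
    -- multiply the quadratic inequality by `s ^ 2 π ^ 2`
    have h1 : π ^ 2 * tri G uS uS w + 4 * s ^ 2 * (W + B) + 2 * s * π ^ 2 * A -
        4 * s ^ 2 * π * (I + b) - 4 * s * π * (tri G uS uP uP + (oSS + oSQ)) ≤ 0 := by
      have e : π ^ 2 * tri G uS uS w + 4 * s ^ 2 * (W + B) + 2 * s * π ^ 2 * A -
        4 * s ^ 2 * π * (I + b) - 4 * s * π * (tri G uS uP uP + (oSS + oSQ)) =
        (s ^ 2 * π ^ 2) * (0 + (1 / s) ^ 2 * tri G uS uS w + (-(2 / π)) ^ 2 * (W + B) +
          2 * (1 / s) * A + 2 * (-(2 / π)) * (I + b) +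
          2 * (1 / s) * (-(2 / π)) * (tri G uS uP uP + (oSS + oSQ))) := by
        field_simp
        ring
      rw [e]
      exact mul_nonpos_of_nonneg_of_nonpos (by positivity) hq
    have h2 : π ^ 2 * oSS ≤ π ^ 2 * tri G uS uS w :=
      mul_le_mul_of_nonneg_left hSS (by positivity)
    have h3 : 4 * s * π * tri G uS uP uP ≤ 4 * s * π * (s * I0) :=
      mul_le_mul_of_nonneg_left hSPi (by positivity)
    have h4 : 0 ≤ (π - 2 * s) ^ 2 * oSS := mul_nonneg (sq_nonneg _) nSS
    have h5 : 0 ≤ 4 * s ^ 2 * oQQ := by positivity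
    have h6 : 0 ≤ 2 * s * (π - 2 * s) * (B - 2 * oSQ) :=
      mul_nonneg (mul_nonneg (by linarith) (by linarith)) (by linarith)
    have h7 : 2 * s * (π ^ 2 * A) ≤ 2 * s * (2 * s * π * (I + b + I0) - 2 * s * W +
        (π - 2 * s) * B) := by
      have e2 : 4 * s ^ 2 * B = 4 * s ^ 2 * (oSS + 2 * oSQ + oQQ) := by rw [← hBexp]
      nlinarith
    have h8 : π ^ 2 * A ≤ 2 * s * π * (I + b + I0) - 2 * s * W + (π - 2 * s) * B :=
      le_of_mul_le_mul_left h7 (by linarith)
    have h9 : π ^ 2 * (2 * (s / π) * (I + b + I0 - W / π) + (1 - 2 * (s / π)) * (B / π)) =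
        2 * s * π * (I + b + I0) - 2 * s * W + (π - 2 * s) * B := by
      field_simp
    rw [← h9] at h8
    exact le_of_mul_le_mul_left h8 (by positivity)
  have hσ' : s / π ≤ σ := by rw [div_le_iff₀ hπ]; exact hsσ.le
  have hmono : 2 * (s / π) * (I + b + I0 - W / π) + (1 - 2 * (s / π)) * (B / π) ≤
      2 * σ * (I + b + I0 - W / π) + (1 - 2 * σ) * (B / π) := by
    have h1 : 0 ≤ 2 * (σ - s / π) * (I + b + I0 - W / π - B / π) :=
      mul_nonneg (by linarith) (by linarith)
    nlinarith
  linarith

/-- The independence bound with the exchange inequality. -/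
theorem own_le3 (hcnd : ∀ f : V → ℝ, ∑ x, f x = 0 → tri G f f w ≤ 0) (k : Fin 6) (z r : V)
    (hz : c z = k) (hπ : 0 < cl w c k) (σ d' : ℝ) (hσ0 : 0 ≤ σ) (hσ : σ ≤ 1 / 2) (hd' : 0 ≤ d')
    (hin : 0 < inn G w c k z)
    (hex : ∀ y v, c y = k → c v = k → inn G w c k y ≤ inn G w c k v + 2 * bz G w c v + d')
    (hnum : 2 * σ * (inn G w c k z + bz G w c z + 2 * (BK G w c k / cl w c k) + d') +
      (1 - 2 * σ) * (BK G w c k / cl w c k) < inn G w c k z / 2) :
    own G w c z r ≤ (1 - σ) * cl w c k := by
  have hB0 : 0 ≤ BK G w c k / cl w c k := div_nonneg (BK_nonneg G w c hw k) hπ.le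
  have hb0 := bz_nonneg G w c hw z
  have hI0 : ∀ y, c y = k → inn G w c k y ≤ VV G w c k / cl w c k +
      2 * (BK G w c k / cl w c k) + d' := by
    intro y hy
    have h1 : cl w c k * inn G w c k y ≤ VV G w c k + 2 * BK G w c k + d' * cl w c k := by
      have e1 : cl w c k * inn G w c k y = ∑ v, w v * (pin c k v * inn G w c k y) := by
        rw [cl_eq_pin, sum_mul]
        refine sum_congr rfl fun v _ => ?_
        ring
      have e2 : VV G w c k + 2 * BK G w c k + d' * cl w c k =
          ∑ v, w v * (pin c k v * (inn G w c k v + 2 * bz G w c v + d')) := by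
        rw [← sum_inn, cl_eq_pin]
        unfold BK
        rw [mul_sum, mul_sum, ← sum_add_distrib, ← sum_add_distrib]
        refine sum_congr rfl fun v _ => ?_
        ring
      rw [e1, e2]
      refine sum_le_sum fun v _ => mul_le_mul_of_nonneg_left ?_ (hw v)
      by_cases hv : c v = k
      · exact mul_le_mul_of_nonneg_left (hex y v hy hv) (pin_nonneg c k v)
      · have : pin c k v = 0 := by unfold pin; rw [if_neg hv]
        rw [this, zero_mul, zero_mul]
    have e3 : VV G w c k / cl w c k + 2 * (BK G w c k / cl w c k) + d' =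
        (VV G w c k + 2 * BK G w c k + d' * cl w c k) / cl w c k := by
      field_simp
    rw [e3, le_div_iff₀ hπ]
    linarith
  refine own_le2 G w c hw hcnd k z r hz hπ σ _ hσ0 hσ hin hI0 ?_ ?_
  · linarith
  · have e : inn G w c k z + bz G w c z + (VV G w c k / cl w c k +
        2 * (BK G w c k / cl w c k) + d') - VV G w c k / cl w c k =
        inn G w c k z + bz G w c z + 2 * (BK G w c k / cl w c k) + d' := by ring
    rw [e]; exact hnum

end D2

end K4m
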