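import Mathlib
import Pool.Agent.Lib.MP_392c14_co.End2D

/-!
# End game, second version, part E: the passes of the iteration
-/

set_option autoImplicit false

namespace K4m

open Finset

section NumE

/-- a linear functional on the polytope of the possible pairs `(Mk, Wk)` -/
theorem lin_poly (A C M W μ e : ℝ) (hM : 0 ≤ M) (h1 : 3 * M ≤ μ)
    (h2 : 3 * W + 6 * M ≤ 2 * μ) (hC : 0 ≤ C) (h3 : A * μ / 3 ≤ e) (h4 : 2 / 3 * C * μ ≤ e) :
    A * M + C * W ≤ e := by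
  have h5 : C * (3 * W + 6 * M) ≤ C * (2 * μ) := mul_le_mul_of_nonneg_left h2 hC
  rcases le_total (2 * C) A with h | h
  · have h6 : (A - 2 * C) * (3 * M) ≤ (A - 2 * C) * μ :=
      mul_le_mul_of_nonneg_left h1 (by linarith)
    linarith
  · have h6 : 0 ≤ (2 * C - A) * M := mul_nonneg (by linarith) hM
    linarith

/-- numerical data for the local bounds -/
structure LocNum (a q τ β HH kT κ : ℝ) : Prop where
  a_pos : 0 < a
  q_pos : 0 < q
  den : 0 < 3 * a - 2 * q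
  β_pos : 0 < β
  τ_nonneg : 0 ≤ τ
  massT : ∀ H : ℝ, 0 ≤ H → a * H ≤ τ → 2 * (a * H) ≤ τ + H ^ 2 / 2 → H ≤ HH
  kT0 : 0 ≤ kT
  kT1 : 1 ≤ kT * (2 - HH / (2 * a))
  βa : τ / 2 ≤ β * a
  κ0 : 0 ≤ κ
  κ1 : β ≤ κ * (2 * a - τ / 2 / β)

end NumE

section E

variable {V : Type} [Fintype V] (G : TG V) (w : V → ℝ) (c : V → Fin 6)

/-- the state of the iteration: bounds for the masses and for the own neighbourhoods -/
structure State (a q S0 β : ℝ) : Prop where
  lo : ∀ i, a ≤ cl w c i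
  hi : ∀ i, cl w c i ≤ q
  sq : ∑ i, (cl w c i - 1 / 6) ^ 2 ≤ S0
  own : ∀ r z, c r ≠ c z → own G w c z r ≤ β

variable {G w c}

theorem local2 {a q τ β S0 HH kT κ : ℝ} (hw : ∀ x, 0 ≤ w x) (N : LocNum a q τ β HH kT κ)
    (S : State G w c a q S0 β) (hmis : ∀ z, mis G w c z ≤ τ) (z : V) :
    bz G w c z ≤ β * kT / (2 * a) * mis G w c z + 1 / a * Mk G w c (c z) ∧
    btw G w c z ≤ (β * kT / a + τ / (4 * a ^ 2)) * mis G w c z ∧
    gm G w c z ≤ τ / (4 * q * (3 * a - 2 * q)) * mis G w c z +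
      1 / (3 * a - 2 * q) * Wk G w c (c z) := by
  have ha := N.a_pos
  have hq := N.q_pos
  have hd := N.den
  obtain ⟨b1, b2, b3⟩ := local_bounds G w c hw a q β τ ha S.lo S.hi hq.le z hmis S.own
  have hT := Tz_le_kT G w c hw a τ HH kT ha S.lo z (hmis z) N.massT N.kT0 N.kT1
  have hβT : β * Tz G w c z ≤ β * (kT * mis G w c z) := mul_le_mul_of_nonneg_left hT N.β_pos.le
  refine ⟨?_, ?_, ?_⟩
  · have h1 : bz G w c z ≤ (β * (kT * mis G w c z) + 2 * Mk G w c (c z)) / (2 * a) := by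
      rw [le_div_iff₀ (by linarith)]
      linarith
    refine h1.trans (le_of_eq ?_)
    field_simp
  · have h1 : btw G w c z ≤ (a * (β * (kT * mis G w c z)) + τ / 4 * mis G w c z) / a ^ 2 := by
      rw [le_div_iff₀ (by positivity)]
      have := mul_le_mul_of_nonneg_left hβT ha.le
      linarith
    refine h1.trans (le_of_eq ?_)
    field_simp
  · have h1 : gm G w c z ≤ (τ / 2 * mis G w c z + 2 * q * Wk G w c (c z)) /
        (2 * q * (3 * a - 2 * q)) := by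
      rw [le_div_iff₀ (by positivity)]
      linarith
    refine h1.trans (le_of_eq ?_)
    have hd' := hd.ne'
    field_simp
    ring

/-- upper bound for the error of a class -/
theorem Ek_le2 {a q τ β S0 HH kT κ : ℝ} (hw : ∀ x, 0 ≤ w x) (N : LocNum a q τ β HH kT κ)
    (S : State G w c a q S0 β) (hmis : ∀ z, mis G w c z ≤ τ) (μ : ℝ) (hμ : MM G w c ≤ μ)
    (A1 eu : ℝ)
    (n1 : 2 * β * kT / a + τ / (4 * a ^ 2) + τ / (4 * q * (3 * a - 2 * q)) - 1 ≤ A1)
    (n2 : (A1 + 2 * q / a) * μ / 3 ≤ eu) (n3 : 2 / 3 * (q / (3 * a - 2 * q)) * μ ≤ eu)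
    (k : Fin 6) : Ek G w c k ≤ eu := by
  have ha := N.a_pos
  have hq := N.q_pos
  have hd := N.den
  have hM := Mk_nonneg G w c hw k
  have hW := Wk_nonneg G w c hw k
  have h1 := Ek_le G w c hw k A1 (2 / a * Mk G w c k + 1 / (3 * a - 2 * q) * Wk G w c k)
    (fun z hz => by
      obtain ⟨b1, b2, b3⟩ := local2 hw N S hmis z
      have m0 := mis_nonneg G w c hw z
      have h2 := mul_le_mul_of_nonneg_right n1 m0
      have e1 : (2 * β * kT / a + τ / (4 * a ^ 2) + τ / (4 * q * (3 * a - 2 * q)) - 1) *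
          mis G w c z = 2 * (β * kT / (2 * a) * mis G w c z) +
          (β * kT / a + τ / (4 * a ^ 2)) * mis G w c z +
          τ / (4 * q * (3 * a - 2 * q)) * mis G w c z - mis G w c z := by
        have e2 : 2 * (β * kT / (2 * a)) = β * kT / a := by field_simp
        have e3 : 2 * β * kT / a = β * kT / a + β * kT / a := by ring
        rw [e3]
        linear_combination (-(mis G w c z)) * e2
      rw [hz] at b1 b3
      have e4 : 2 / a * Mk G w c k = 2 * (1 / a * Mk G w c k) := by ring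
      unfold bad
      rw [e4]
      linarith)
  have h0 : 0 ≤ 2 / a * Mk G w c k + 1 / (3 * a - 2 * q) * Wk G w c k := by positivity
  have h2 := mul_le_mul_of_nonneg_left (S.hi k) h0
  have h3 := lin_poly (A1 + 2 * q / a) (q / (3 * a - 2 * q)) (Mk G w c k) (Wk G w c k) μ eu hM
    (by have := Mk_le G w c hw k; linarith) (by have := Wk_le G w c hw k; linarith)
    (by positivity) n2 n3
  have e : A1 * Mk G w c k + (2 / a * Mk G w c k + 1 / (3 * a - 2 * q) * Wk G w c k) * q =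
      (A1 + 2 * q / a) * Mk G w c k + q / (3 * a - 2 * q) * Wk G w c k := by ring
  linarith

theorem MM_nonneg' (hw : ∀ x, 0 ≤ w x) : 0 ≤ MM G w c := by
  have := Mk_le G w c hw 0
  have := Mk_nonneg G w c hw 0
  linarith

/-- the sum of the errors -/
theorem sum_Ek_le2 {a q τ β S0 s1 H0 lam : ℝ} (hw : ∀ x, 0 ≤ w x)
    (N : RootNum2 a τ β s1 H0 lam) (S : State G w c a q S0 β)
    (hmis : ∀ z, mis G w c z ≤ τ) (μ es : ℝ) (hμ : MM G w c ≤ μ)
    (n : (4 * lam - 4) * μ ≤ es) : ∑ k, Ek G w c k ≤ es := by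
  have h1 := bad_le2 G w c hw N S.lo hmis S.own
  rw [sum_Ek]
  have h2 : (4 * lam - 4) * MM G w c ≤ (4 * lam - 4) * μ :=
    mul_le_mul_of_nonneg_left hμ (by have := N.lam_ge; linarith)
  linarith

end E

section E2

variable {n : ℕ} {G : TG (Fin n)} {w : Fin n → ℝ} {c : Fin n → Fin 6}

theorem class_eq (t : ℝ) (hdeg : ∀ z, deg G w z = t) (k : Fin 6) :
    t * cl w c k = VV G w c k + cl w c k * idp (cl w c) k + Ek G w c k := by
  rw [class_deg G w c t hdeg k, idl_eq_idp]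

theorem total_eq (hw : IsW w) (t : ℝ) (hdeg : ∀ z, deg G w z = t) :
    t = ∑ k, VV G w c k + Tb (cl w c) + ∑ k, Ek G w c k := by
  have hx : ∑ i, cl w c i = 1 := by rw [sum_cl, hw.sum_eq]
  have h3 : ∑ k, t * cl w c k = ∑ k, (VV G w c k + cl w c k * idp (cl w c) k + Ek G w c k) :=
    sum_congr rfl fun k _ => class_eq t hdeg k
  rw [← mul_sum, hx, mul_one, sum_add_distrib, sum_add_distrib] at h3
  rw [h3, ← sum_mul_idp]

/-- the second moment of the masses -/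
theorem S_pass (hw : IsW w) (t ε es : ℝ) (hdeg : ∀ z, deg G w z = t) (ht : rho - ε ≤ t)
    (hbox : ∀ i, |cl w c i - 1 / 6| ≤ 1 / 200) (hes : ∑ k, Ek G w c k ≤ es) (S' : ℝ)
    (n : 4 / 3 * (es + ε) ≤ S') : ∑ i, (cl w c i - 1 / 6) ^ 2 ≤ S' := by
  have hx : ∑ i, cl w c i = 1 := by rw [sum_cl, hw.sum_eq]
  have r1 := rho_le_third
  have r2 := two_sevenths_le_rho
  have h1 := Tb_slack rho (by linarith) r1 (cl w c) hx hbox
  have h2 := total_eq (c := c) hw t hdeg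
  have h3 : ∑ k, VV G w c k ≤ rho * ∑ k, cl w c k ^ 3 := by
    rw [mul_sum]
    exact sum_le_sum fun k _ => VV_le G w c hw.nonneg k
  linarith

/-- the second moment from the box -/
theorem S_box (a q y S' : ℝ) (lo : ∀ i, a ≤ cl w c i) (hi : ∀ i, cl w c i ≤ q)
    (h1 : 1 / 6 - y ≤ a) (h2 : q ≤ 1 / 6 + y) (n : 6 * y ^ 2 ≤ S') :
    ∑ i, (cl w c i - 1 / 6) ^ 2 ≤ S' := by
  have h : ∑ i, (cl w c i - 1 / 6) ^ 2 ≤ ∑ i : Fin 6, y ^ 2 := by
    refine sum_le_sum fun i _ => ?_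
    have a1 := lo i
    have a2 := hi i
    exact sq_le_sq' (by linarith) (by linarith)
  rw [sum_const, card_univ, Fintype.card_fin, nsmul_eq_mul] at h
  push_cast at h
  linarith

/-- the masses of the classes: one pass -/
theorem size_pass {a q τ β S0 HH kT κ s1 H0 lam : ℝ} (hw : IsW w) (t ε : ℝ)
    (hdeg : ∀ z, deg G w z = t) (ht : rho - ε ≤ t) (hε : 0 ≤ ε)
    (hmis : ∀ z, mis G w c z ≤ τ) (μ : ℝ) (hμ : MM G w c ≤ μ)
    (hbox : ∀ i, |cl w c i - 1 / 6| ≤ 1 / 200)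
    (N : LocNum a q τ β HH kT κ) (R : RootNum2 a τ β s1 H0 lam) (S : State G w c a q S0 β)
    (A1 es el eu ζ yl yu S1 a' q' S' : ℝ)
    (n1 : 2 * β * kT / a + τ / (4 * a ^ 2) + τ / (4 * q * (3 * a - 2 * q)) - 1 ≤ A1)
    (n2 : (A1 + 2 * q / a) * μ / 3 ≤ eu) (n3 : 2 / 3 * (q / (3 * a - 2 * q)) * μ ≤ eu)
    (n4 : (4 * lam - 4) * μ ≤ es) (n5 : μ / 3 ≤ el) (n6 : 1 / 6 - yl ≤ a) (n7 : q ≤ 1 / 6 + yu)
    (n8 : S0 ≤ S1 ∨ 4 / 3 * (es + ε) ≤ S1)
    (z0 : 0 ≤ ζ) (z1 : eu * (6 * yl) ≤ ζ * a) (z4 : el * (6 * yu) ≤ ζ * a)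
    (hyu' : 9 / 5 * (ε + eu / a + 2 * S1) ≤ q' - 1 / 6)
    (hyl' : 9 / 5 * (5 * ε + S1 / 3 + 6 * (es + el) + 5 * ζ) ≤ 1 / 6 - a')
    (n9 : S1 ≤ S' ∨ ∃ y, 1 / 6 - y ≤ a' ∧ q' ≤ 1 / 6 + y ∧ 6 * y ^ 2 ≤ S') :
    State G w c a' q' S' β := by
  have hw0 := hw.nonneg
  have r1 := rho_le_third
  have r2 := two_sevenths_le_rho
  have hx : ∑ i, cl w c i = 1 := by rw [sum_cl, hw.sum_eq]
  have hMM0 : 0 ≤ MM G w c := MM_nonneg' hw0
  have hes := sum_Ek_le2 hw0 R S hmis μ es hμ n4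
  have hes0 : 0 ≤ es := by
    have : 0 ≤ (4 * lam - 4) * μ := mul_nonneg (by have := R.lam_ge; linarith) (by linarith)
    linarith
  have hS : ∑ i, (cl w c i - 1 / 6) ^ 2 ≤ S1 := by
    rcases n8 with h | h
    · exact S.sq.trans h
    · exact S_pass hw t ε es hdeg ht hbox hes S1 h
  have hS0 : 0 ≤ ∑ i, (cl w c i - 1 / 6) ^ 2 := sum_nonneg fun i _ => sq_nonneg _
  have hel0 : 0 ≤ el := by linarith
  have hup := fun k => Ek_le2 hw0 N S hmis μ hμ A1 eu n1 n2 n3 k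
  have heu : 0 ≤ eu := by
    have hq := N.q_pos
    have hd := N.den
    have : 0 ≤ 2 / 3 * (q / (3 * a - 2 * q)) * μ := mul_nonneg (by positivity) (by linarith)
    linarith
  have key := fun k => sizes2 rho t ε a yl yu el eu es S1 ζ (1 / 6 - a') (q' - 1 / 6) (cl w c)
    (Ek G w c) hx S.lo N.a_pos (fun i => n6.trans (S.lo i)) (fun i => (S.hi i).trans n7)
    (by linarith) r1 (by linarith)
    (fun k => by
      have h1 := class_eq (c := c) t hdeg k
      have h2 := VV_le G w c hw0 k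
      linarith) hup heu
    (fun k => by
      have h1 := Ek_ge G w c hw0 k
      have h2 := Mk_le G w c hw0 k
      linarith) hes hS z0 z1 z4 hyu' hyl' hε (by linarith) (by linarith) k
  refine ⟨fun i => by have := (key i).1; linarith, fun i => by have := (key i).2; linarith, ?_,
    S.own⟩
  rcases n9 with h | ⟨y, h1, h2, h3⟩
  · exact hS.trans h
  · exact S_box a' q' y S' (fun i => by have := (key i).1; linarith)
      (fun i => by have := (key i).2; linarith) h1 h2 h3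

/-- the own neighbourhoods: one pass -/
theorem own_pass {a q τ β S0 HH kT κ : ℝ} (hw : IsW w) (t ε d : ℝ)
    (hcnd : ∀ f : Fin n → ℝ, ∑ x, f x = 0 → tri G f f w ≤ 0)
    (hval : val G w = t)
    (hdeg : ∀ z, deg G w z = t) (ht : rho - ε ≤ t) (hd0 : 0 < d) (hd1 : d ≤ 1)
    (hdε : ε ≤ d ^ 2)
    (hmis : ∀ z, mis G w c z ≤ τ) (μ : ℝ) (hμ : MM G w c ≤ μ)
    (N : LocNum a q τ β HH kT κ) (S : State G w c a q S0 β)
    (σ cm cM cW β' : ℝ) (hσ0 : 0 ≤ σ) (hσ : σ < 1 / 4)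
    (n1 : (1 - 2 * σ) * (β * kT / (2 * a)) - (1 / 2 - 2 * σ) * (1 - (β * kT / a + τ / (4 * a ^ 2))
      - τ / (4 * q * (3 * a - 2 * q))) ≤ cm) (cm0 : 0 ≤ cm)
    (n2 : (1 - 2 * σ) * (1 / a) + (1 + 2 * σ) * (2 * κ * kT / a) ≤ cM)
    (n3 : (1 / 2 - 2 * σ) * (1 / (3 * a - 2 * q)) ≤ cW)
    (n4 : cM * μ / 3 + cm * τ + 2 * σ * (d + d ^ 2) < (1 / 2 - 2 * σ) *
      (2 / 7 / 36 - ε - 2 / 3 * (1 / 6 - a) - 2 * S0))
    (n5 : 2 / 3 * cW * μ + cm * τ + 2 * σ * (d + d ^ 2) < (1 / 2 - 2 * σ) *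
      (2 / 7 / 36 - ε - 2 / 3 * (1 / 6 - a) - 2 * S0))
    (n6 : (1 - σ) * q ≤ β') : State G w c a q S0 β' := by
  have hw0 := hw.nonneg
  have r1 := rho_le_third
  have r2 := two_sevenths_le_rho
  have ha := N.a_pos
  have hq := N.q_pos
  have hd := N.den
  have hx : ∑ i, cl w c i = 1 := by rw [sum_cl, hw.sum_eq]
  have hMM0 : 0 ≤ MM G w c := MM_nonneg' hw0
  refine ⟨S.lo, S.hi, S.sq, fun r z _ => ?_⟩
  set k := c z with hk
  have hπ : 0 < cl w c k := lt_of_lt_of_le ha (S.lo k)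
  have hBK0 := BK_nonneg G w c hw0 k
  have hBK : BK G w c k ≤ 2 * κ * kT * Mk G w c k := by
    have h1 := BK_le G w c hw0 a β τ κ S.lo N.β_pos N.τ_nonneg N.βa N.κ1 N.κ0 hmis S.own k
    have h2 := TK_le G w c hw0 a τ HH kT ha S.lo hmis N.massT N.kT0 N.kT1 k
    have h3 := mul_le_mul_of_nonneg_left h2 (by have := N.κ0; linarith : 0 ≤ 2 * κ)
    linarith
  have hMk0 := Mk_nonneg G w c hw0 k
  have hWk0 := Wk_nonneg G w c hw0 k
  have hBc : BK G w c k / cl w c k ≤ 2 * κ * kT / a * Mk G w c k := by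
    have h1 : BK G w c k / cl w c k ≤ BK G w c k / a :=
      div_le_div_of_nonneg_left hBK0 ha (S.lo k)
    have h2 : BK G w c k / a ≤ 2 * κ * kT * Mk G w c k / a := div_le_div_of_nonneg_right hBK ha.le
    have e : 2 * κ * kT * Mk G w c k / a = 2 * κ * kT / a * Mk G w c k := by ring
    rw [← e]
    exact h1.trans h2
  have hBc0 : 0 ≤ BK G w c k / cl w c k := div_nonneg hBK0 hπ.le
  obtain ⟨b1, b2, b3⟩ := local2 hw0 N S hmis z
  rw [← hk] at b1 b3
  have b0 := bz_nonneg G w c hw0 z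
  have m0 := mis_nonneg G w c hw0 z
  have hm := hmis z
  have hdz := deg_eq G w c z
  rw [hdeg z, idl_eq_idp, ← hk] at hdz
  have hid := (idp_bounds (cl w c) hx k).1
  have hsq := S.sq
  have hsq0 : 0 ≤ (cl w c k - 1 / 6) ^ 2 := sq_nonneg _
  have hlo := S.lo k
  have hR : 2 / 7 / 36 - ε - 2 / 3 * (1 / 6 - a) - 2 * S0 ≤ t - idp (cl w c) k := by
    linarith
  set R : ℝ := 2 / 7 / 36 - ε - 2 / 3 * (1 / 6 - a) - 2 * S0 with hRd
  -- the linear functional
  have hpoly : cM * Mk G w c k + cW * Wk G w c k ≤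
      (1 / 2 - 2 * σ) * R - cm * τ - 2 * σ * (d + d ^ 2) -
      ((1 / 2 - 2 * σ) * R - cm * τ - 2 * σ * (d + d ^ 2) -
        max (cM * μ / 3) (2 / 3 * cW * μ)) := by
    have h3 := lin_poly cM cW (Mk G w c k) (Wk G w c k) μ (max (cM * μ / 3) (2 / 3 * cW * μ))
      hMk0 (by have := Mk_le G w c hw0 k; linarith) (by have := Wk_le G w c hw0 k; linarith)
      (by
        have : 0 ≤ (1 / 2 - 2 * σ) * (1 / (3 * a - 2 * q)) :=
          mul_nonneg (by linarith) (by positivity)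
        linarith) (le_max_left _ _) (le_max_right _ _)
    linarith
  have hmax : max (cM * μ / 3) (2 / 3 * cW * μ) <
      (1 / 2 - 2 * σ) * R - cm * τ - 2 * σ * (d + d ^ 2) :=
    max_lt (by linarith) (by linarith)
  have hcm : cm * mis G w c z ≤ cm * τ := mul_le_mul_of_nonneg_left hm cm0
  have p1 := mul_le_mul_of_nonneg_right n1 m0
  have p2 := mul_le_mul_of_nonneg_right n2 hMk0
  have p3 := mul_le_mul_of_nonneg_right n3 hWk0
  have p4 : (1 - 2 * σ) * bz G w c z ≤ (1 - 2 * σ) * (β * kT / (2 * a) * mis G w c z +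
      1 / a * Mk G w c k) := mul_le_mul_of_nonneg_left b1 (by linarith)
  have p5 : (1 / 2 - 2 * σ) * btw G w c z ≤ (1 / 2 - 2 * σ) *
      ((β * kT / a + τ / (4 * a ^ 2)) * mis G w c z) :=
    mul_le_mul_of_nonneg_left b2 (by linarith)
  have p6 : (1 / 2 - 2 * σ) * gm G w c z ≤ (1 / 2 - 2 * σ) *
      (τ / (4 * q * (3 * a - 2 * q)) * mis G w c z + 1 / (3 * a - 2 * q) * Wk G w c k) :=
    mul_le_mul_of_nonneg_left b3 (by linarith)
  have p7 : (1 + 2 * σ) * (BK G w c k / cl w c k) ≤ (1 + 2 * σ) *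
      (2 * κ * kT / a * Mk G w c k) := mul_le_mul_of_nonneg_left hBc (by linarith)
  have p8 : (1 / 2 - 2 * σ) * R ≤ (1 / 2 - 2 * σ) * (t - idp (cl w c) k) :=
    mul_le_mul_of_nonneg_left hR (by linarith)
  have hinn : inn G w c k z = t - idp (cl w c) k + mis G w c z - 2 * bz G w c z -
      btw G w c z - gm G w c z := by
    unfold bad at hdz
    linarith
  have key : 2 * σ * (bz G w c z + 2 * (BK G w c k / cl w c k) + (d + d ^ 2)) +
      (1 - 2 * σ) * (BK G w c k / cl w c k) < (1 / 2 - 2 * σ) * inn G w c k z := by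
    rw [hinn]
    linarith
  have hin : 0 < inn G w c k z := by
    have h1 : 0 ≤ 2 * σ * (bz G w c z + 2 * (BK G w c k / cl w c k) + (d + d ^ 2)) +
        (1 - 2 * σ) * (BK G w c k / cl w c k) := by
      have : 0 ≤ 1 - 2 * σ := by linarith
      positivity
    have h2 : 0 < (1 / 2 - 2 * σ) * inn G w c k z := lt_of_le_of_lt h1 key
    have h3 : 0 < 1 / 2 - 2 * σ := by linarith
    exact (mul_pos_iff_of_pos_left h3).1 h2
  have hfin := own_le3 G w c hw0 hcnd k z r hk.symm hπ σ (d + d ^ 2) hσ0 (by linarith)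
    (by positivity) hin
    (fun y v hy hv => inn_exchange G w c hw k y v d hd0 hd1 (by rw [hval]; linarith)
      (by rw [hdeg v, hval]) hv)
    (by linarith)
  refine hfin.trans (le_trans ?_ n6)
  exact mul_le_mul_of_nonneg_left (S.hi k) (by linarith)

/-- the last step -/
theorem last_pass {a q τ β S0 s1 H0 : ℝ} (hw : IsW w)
    (hdeg : ∀ z, deg G w z = val G w)
    (hmis : ∀ z, mis G w c z ≤ τ)
    (hbox : ∀ i, |cl w c i - 1 / 6| ≤ 1 / 200)
    (R : RootNum2 a τ β s1 H0 1) (S : State G w c a q S0 β) :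
    val G w ≤ (10 + rho) / 36 := by
  have hw0 := hw.nonneg
  have r1 := rho_le_third
  have r2 := two_sevenths_le_rho
  have hx : ∑ i, cl w c i = 1 := by rw [sum_cl, hw.sum_eq]
  have hB := bad_le2 G w c hw0 R S.lo hmis S.own
  have h2 := total_eq (c := c) hw _ hdeg
  have h3 := Tb_slack rho (by linarith) r1 (cl w c) hx hbox
  have h4 : 0 ≤ ∑ i, (cl w c i - 1 / 6) ^ 2 := sum_nonneg fun i _ => sq_nonneg _
  have h5 : ∑ k, VV G w c k ≤ rho * ∑ k, cl w c k ^ 3 := by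
    rw [mul_sum]
    exact sum_le_sum fun k _ => VV_le G w c hw0 k
  rw [sum_Ek] at h2
  linarith

end E2

end K4m
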