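import Mathlib
import Pool.Agent.Lib.MP_392c14_co.End2E

/-!
# End game, second version, part F: numerical conditions without quantifiers
-/

set_option autoImplicit false

namespace K4m

open Finset

/-- the small root of a quadratic inequality -/
theorem small_root (p τ x0 : ℝ) (hp : 0 < p) (hx0 : 0 ≤ x0) (h1 : τ + x0 ^ 2 / 2 ≤ 2 * p * x0)
    (h2 : p * x0 + τ < 4 * p ^ 2) (x : ℝ) (hx1 : p * x ≤ τ)
    (hx2 : 2 * (p * x) ≤ τ + x ^ 2 / 2) : x ≤ x0 := by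
  by_contra hne
  push Not at hne
  have h3 : x + x0 < 4 * p := by
    have h4 : p * (x + x0) < p * (4 * p) := by nlinarith
    exact lt_of_mul_lt_mul_left h4 hp.le
  have h5 : 0 < (x - x0) * (4 * p - (x + x0)) := mul_pos (by linarith) (by linarith)
  nlinarith

theorem mkLoc (a q τ β HH kT κ : ℝ) (ha : 0 < a) (hq : 0 < q) (hd : 0 < 3 * a - 2 * q)
    (hβ : 0 < β) (hτ : 0 ≤ τ) (hH : 0 ≤ HH) (h1 : τ + HH ^ 2 / 2 ≤ 2 * a * HH)
    (h2 : a * HH + τ < 4 * a ^ 2) (k0 : 0 ≤ kT) (k1 : 1 ≤ kT * (2 - HH / (2 * a)))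
    (hβa : τ / 2 ≤ β * a) (κ0 : 0 ≤ κ) (κ1 : β ≤ κ * (2 * a - τ / 2 / β)) :
    LocNum a q τ β HH kT κ where
  a_pos := ha
  q_pos := hq
  den := hd
  β_pos := hβ
  τ_nonneg := hτ
  massT := fun H _ h3 h4 => small_root a τ HH ha hH h1 h2 H h3 h4
  kT0 := k0
  kT1 := k1
  βa := hβa
  κ0 := κ0
  κ1 := κ1

theorem yy_aux (a τ s1 x0 : ℝ) (ha : 0 < a) (hs1 : s1 ≤ a / 2) (hx0 : 0 ≤ x0)
    (h1 : τ + x0 ^ 2 / 2 ≤ a * x0) (h2 : a * x0 + 2 * τ < 2 * a ^ 2)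
    (h3 : 6 / 5 * τ ≤ a / 2 * (3 * a - 2 * s1))
    (h4 : 6 / 5 * (τ - (a - x0 / 2) * x0) + 4 / 5 * (3 * a - 2 * s1) * x0 ≤
      a / 2 * (3 * a - 2 * s1)) (H Y : ℝ) (hH : 0 ≤ H) (hY : 0 ≤ Y)
    (h5 : (2 * a - s1) * H + a / 2 * Y ≤ τ)
    (h6 : 2 * ((2 * a - s1) * H + a / 2 * Y) ≤ τ + (H + Y) ^ 2 / 2) :
    2 * H + 4 / 5 * Y ≤ a / 2 := by
  set X := H + Y with hX
  have hX0 : 0 ≤ X := by linarith
  have hsH : s1 * H ≤ a / 2 * H := mul_le_mul_of_nonneg_right hs1 hH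
  have haH : 0 ≤ a * H := mul_nonneg ha.le hH
  have c1 : a / 2 * X ≤ τ := by rw [hX]; linarith
  have c2 : 2 * (a / 2 * X) ≤ τ + X ^ 2 / 2 := by rw [hX] at h6 ⊢; linarith
  have hXx : X ≤ x0 := small_root (a / 2) τ x0 (by linarith) hx0 (by linarith)
    (by linarith) X c1 c2
  have hX2 : X ^ 2 ≤ x0 * X := by
    have : X ^ 2 = X * X := by ring
    rw [this]; exact mul_le_mul_of_nonneg_right hXx hX0
  have hb : 0 < 3 * a - 2 * s1 := by linarith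
  -- `(3 a - 2 s1) H` is bounded
  have c3 : (3 * a - 2 * s1) * H ≤ τ - (a - x0 / 2) * X := by
    have e : (3 * a - 2 * s1) * H = 2 * ((2 * a - s1) * H + a / 2 * Y) - a * X := by
      rw [hX]; ring
    rw [e]; linarith
  have c4 : (3 * a - 2 * s1) * (6 / 5 * H + 4 / 5 * X) ≤ (3 * a - 2 * s1) * (a / 2) := by
    -- linear in `X`, check the end points
    rcases hx0.lt_or_eq with hpos | hzero
    · have l1 : 0 ≤ (x0 - X) * (a / 2 * (3 * a - 2 * s1) - 6 / 5 * τ) :=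
        mul_nonneg (by linarith) (by linarith)
      have l2 : 0 ≤ X * (a / 2 * (3 * a - 2 * s1) - (6 / 5 * (τ - (a - x0 / 2) * x0) +
          4 / 5 * (3 * a - 2 * s1) * x0)) := mul_nonneg hX0 (by linarith)
      have l3 : 0 ≤ x0 * (a / 2 * (3 * a - 2 * s1) - (6 / 5 * (τ - (a - x0 / 2) * X) +
          4 / 5 * (3 * a - 2 * s1) * X)) := by
        have e : x0 * (a / 2 * (3 * a - 2 * s1) - (6 / 5 * (τ - (a - x0 / 2) * X) +
          4 / 5 * (3 * a - 2 * s1) * X)) = (x0 - X) * (a / 2 * (3 * a - 2 * s1) - 6 / 5 * τ) +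
          X * (a / 2 * (3 * a - 2 * s1) - (6 / 5 * (τ - (a - x0 / 2) * x0) +
          4 / 5 * (3 * a - 2 * s1) * x0)) := by ring
        rw [e]; linarith
      have l4 : 0 ≤ a / 2 * (3 * a - 2 * s1) - (6 / 5 * (τ - (a - x0 / 2) * X) +
          4 / 5 * (3 * a - 2 * s1) * X) := by
        by_contra hne
        push Not at hne
        have := mul_neg_of_pos_of_neg hpos hne
        linarith
      linarith
    · have hX00 : X = 0 := le_antisymm (by linarith) hX0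
      rw [hX00] at c3 ⊢
      linarith
  have c5 : 6 / 5 * H + 4 / 5 * X ≤ a / 2 := le_of_mul_le_mul_left c4 hb
  have e : 2 * H + 4 / 5 * Y = 6 / 5 * H + 4 / 5 * X := by rw [hX]; ring
  rw [e]; exact c5

theorem pp_aux (κ g C H0 l : ℝ) (h1 : κ ≤ g) (h2 : 2 * l * H0 ≤ g) (hl0 : 0 ≤ l)
    (h3 : 0 < C / 2 - 1) (h4 : (1 - l) ^ 2 ≤ (C / 2 - 1) * (2 * l + C / 4 - 1))
    (P B : ℝ) (hP : 0 ≤ P) (hB : 0 ≤ B) (hPB : P + B ≤ H0) :
    κ * P + (P + B) ^ 2 ≤ g * (P + B) + C * (P ^ 2 / 2 + B ^ 2 / 4) := by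
  have q1 : 0 ≤ (C / 2 - 1) * P ^ 2 - 2 * (1 - l) * (P * B) + (2 * l + C / 4 - 1) * B ^ 2 := by
    have e : (C / 2 - 1) * ((C / 2 - 1) * P ^ 2 - 2 * (1 - l) * (P * B) +
        (2 * l + C / 4 - 1) * B ^ 2) = ((C / 2 - 1) * P - (1 - l) * B) ^ 2 +
        ((C / 2 - 1) * (2 * l + C / 4 - 1) - (1 - l) ^ 2) * B ^ 2 := by ring
    have e2 : 0 ≤ (C / 2 - 1) * ((C / 2 - 1) * P ^ 2 - 2 * (1 - l) * (P * B) +
        (2 * l + C / 4 - 1) * B ^ 2) := by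
      rw [e]
      have := mul_nonneg (by linarith : 0 ≤ (C / 2 - 1) * (2 * l + C / 4 - 1) - (1 - l) ^ 2)
        (sq_nonneg B)
      positivity
    by_contra hne
    push Not at hne
    have := mul_neg_of_pos_of_neg h3 hne
    linarith
  have q2 : 0 ≤ (g - κ) * P := mul_nonneg (by linarith) hP
  have q3 : 0 ≤ (g - 2 * l * H0) * B := mul_nonneg (by linarith) hB
  have q4 : 0 ≤ 2 * l * (B * (H0 - P - B)) :=
    mul_nonneg (by linarith) (mul_nonneg hB (by linarith))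
  nlinarith

theorem mkRoot (a τ β s1 H0 lam x0 l C κ : ℝ) (ha : 0 < a) (hβ : 0 < β) (hs : 0 < s1)
    (hs1 : s1 ≤ a / 2) (hlam : 1 ≤ lam) (hsβ : lam * s1 ≤ 2 * β) (hτ : 0 ≤ τ)
    (mid : τ ≤ s1 * (3 * a / 2 - s1)) (hH0 : 0 ≤ H0)
    (m1 : τ + H0 ^ 2 / 2 ≤ 2 * (2 * a - s1) * H0)
    (m2 : (2 * a - s1) * H0 + τ < 4 * (2 * a - s1) ^ 2)
    (hx0 : 0 ≤ x0) (y1 : τ + x0 ^ 2 / 2 ≤ a * x0) (y2 : a * x0 + 2 * τ < 2 * a ^ 2)
    (y3 : 6 / 5 * τ ≤ a / 2 * (3 * a - 2 * s1))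
    (y4 : 6 / 5 * (τ - (a - x0 / 2) * x0) + 4 / 5 * (3 * a - 2 * s1) * x0 ≤
      a / 2 * (3 * a - 2 * s1))
    (p0 : lam * τ / (2 * β) ≤ κ) (p1 : κ ≤ 2 * a * lam - 2 * β)
    (p2 : 2 * l * H0 ≤ 2 * a * lam - 2 * β) (hl0 : 0 ≤ l) (p3 : 0 < C / 2 - 1)
    (p4 : (1 - l) ^ 2 ≤ (C / 2 - 1) * (2 * l + C / 4 - 1))
    (p5 : C ≤ 1 + lam * (2 * a - 2 * s1) / β) : RootNum2 a τ β s1 H0 lam where
  a_pos := ha
  β_pos := hβ
  s1_pos := hs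
  s1_le := hs1
  lam_ge := hlam
  s1_β := hsβ
  τ_nonneg := hτ
  mid := mid
  massH := fun H _ h3 h4 => small_root (2 * a - s1) τ H0 (by linarith) hH0 m1 m2 H h3 h4
  yy := fun H Y hH hY h5 h6 => yy_aux a τ s1 x0 ha hs1 hx0 y1 y2 y3 y4 H Y hH hY h5 h6
  pp := fun P B hP hB hPB => by
    have h := pp_aux κ (2 * a * lam - 2 * β) C H0 l p1 p2 hl0 p3 p4 P B hP hB hPB
    have h1 := mul_le_mul_of_nonneg_right p0 hP
    have h2 := mul_le_mul_of_nonneg_right p5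
      (by positivity : 0 ≤ P ^ 2 / 2 + B ^ 2 / 4)
    linarith

end K4m
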