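import Mathlib
import Pool.Agent.Lib.MP_392c14_co.End2F

/-!
# End game, third version, part A: the refined inequality at one root

Partners `z` of the root with a large own neighbourhood have all their present block neighbours
among the partners.
-/

set_option autoImplicit false

namespace K4m

open Finset

section PolyA3

/-- the adjacency form of the pentagon -/
theorem pent_eig (b c d e f : ℝ) :
    2 * (b * c + c * d + d * e + e * f + f * b) ≤ 69 / 250 * (b + c + d + e + f) ^ 2 +
      31 / 50 * (b ^ 2 + c ^ 2 + d ^ 2 + e ^ 2 + f ^ 2) := by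
  have e1 : 69 / 250 * (b + c + d + e + f) ^ 2 +
      31 / 50 * (b ^ 2 + c ^ 2 + d ^ 2 + e ^ 2 + f ^ 2) -
      2 * (b * c + c * d + d * e + e * f + f * b) =
      (7 / 15174125 + 181 / 130250) * ((-16 * b + 13 * (c + f) - 5 * (d + e)) ^ 2 +
        (-16 * c + 13 * (d + b) - 5 * (e + f)) ^ 2 + (-16 * d + 13 * (e + c) - 5 * (f + b)) ^ 2 +
        (-16 * e + 13 * (f + d) - 5 * (b + c)) ^ 2 + (-16 * f + 13 * (b + e) - 5 * (c + d)) ^ 2) +
      7 / 15174125 * ((26 * b + 8 * (c + f) - 21 * (d + e)) ^ 2 +
        (26 * c + 8 * (d + b) - 21 * (e + f)) ^ 2 + (26 * d + 8 * (e + c) - 21 * (f + b)) ^ 2 +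
        (26 * e + 8 * (f + d) - 21 * (b + c)) ^ 2 + (26 * f + 8 * (b + e) - 21 * (c + d)) ^ 2) := by
    ring
  have e2 : 0 ≤ (7 / 15174125 + 181 / 130250 : ℝ) * ((-16 * b + 13 * (c + f) - 5 * (d + e)) ^ 2 +
        (-16 * c + 13 * (d + b) - 5 * (e + f)) ^ 2 + (-16 * d + 13 * (e + c) - 5 * (f + b)) ^ 2 +
        (-16 * e + 13 * (f + d) - 5 * (b + c)) ^ 2 + (-16 * f + 13 * (b + e) - 5 * (c + d)) ^ 2) +
      7 / 15174125 * ((26 * b + 8 * (c + f) - 21 * (d + e)) ^ 2 +
        (26 * c + 8 * (d + b) - 21 * (e + f)) ^ 2 + (26 * d + 8 * (e + c) - 21 * (f + b)) ^ 2 +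
        (26 * e + 8 * (f + d) - 21 * (b + c)) ^ 2 + (26 * f + 8 * (b + e) - 21 * (c + d)) ^ 2) := by
    positivity
  linarith

theorem idp_eig (x : Fin 6 → ℝ) (k : Fin 6) (hk : x k = 0) :
    idp x k ≤ 69 / 250 * (∑ i, x i) ^ 2 + 31 / 50 * ∑ i, x i ^ 2 := by
  obtain ⟨h0, h1, h2, h3, h4, h5⟩ := idp_list x
  simp only [Fin.sum_univ_six]
  fin_cases k
  · simp only [Fin.zero_eta] at hk ⊢
    have h := pent_eig (x 2) (x 1) (x 3) (x 5) (x 4)
    rw [h0, hk]
    linarith
  · simp only [Fin.mk_one] at hk ⊢
    have h := pent_eig (x 2) (x 0) (x 3) (x 4) (x 5)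
    rw [h1, hk]
    linarith
  · simp only [Fin.reduceFinMk] at hk ⊢
    have h := pent_eig (x 1) (x 0) (x 4) (x 3) (x 5)
    rw [h2, hk]
    linarith
  · simp only [Fin.reduceFinMk] at hk ⊢
    have h := pent_eig (x 1) (x 0) (x 5) (x 2) (x 4)
    rw [h3, hk]
    linarith
  · simp only [Fin.reduceFinMk] at hk ⊢
    have h := pent_eig (x 2) (x 0) (x 5) (x 1) (x 3)
    rw [h4, hk]
    linarith
  · simp only [Fin.reduceFinMk] at hk ⊢
    have h := pent_eig (x 3) (x 0) (x 4) (x 1) (x 2)
    rw [h5, hk]
    linarith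

/-- the numerical side conditions of the refined inequality at one root -/
structure RootNum3 (a τ β lam : ℝ) : Prop where
  a_pos : 0 < a
  lam_ge : 1 ≤ lam
  τ_le : τ ≤ a ^ 2 / 2
  fin : ∀ X X1 Q : ℝ, 0 ≤ X1 → X1 ≤ X → X ^ 2 ≤ 5 * Q → a / 2 * X ≤ τ →
    a * X ≤ τ + X ^ 2 / 2 →
    a * X + 3 * a * X1 ≤ τ + (69 / 250 * X ^ 2 + 31 / 50 * Q) + X1 * X →
    X ^ 2 - Q ≤ lam * (a / 2) * X + (3 / 2 * a * lam - 2 * β) * X1 - (lam - 1) * (X1 * X)

theorem mid_aux3 (a τ s o S0 : ℝ) (ha : 0 < a) (hτ : τ ≤ a ^ 2 / 2) (hS : 2 * a ≤ S0)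
    (h2 : 2 * s ≤ S0) (ho : 0 ≤ o) (ho' : o ≤ a / 2) (hos : o * s ≤ τ / 2) :
    a / 2 + 2 * o ≤ S0 - s := by
  have h3 : 0 ≤ (S0 / 2 - s) * (a / 2 - o) := mul_nonneg (by linarith) (by linarith)
  have h4 : 2 * a * o ≤ S0 * o := mul_le_mul_of_nonneg_right hS ho
  -- `a (s + 2 o) ≤ a (S0 / 2 + a / 2)`
  have h5 : a * (s + 2 * o) ≤ a * (S0 / 2 + a / 2) := by nlinarith
  have h6 : s + 2 * o ≤ S0 / 2 + a / 2 := le_of_mul_le_mul_left h5 ha
  linarith

end PolyA3

section A3

variable {V : Type} [Fintype V] (G : TG V) (w : V → ℝ) (c : V → Fin 6)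

variable (hw : ∀ x, 0 ≤ w x)
include hw

/-- (K2) with the factor of the edge -/
theorem bad3_le2 (t : ℝ) (ht : ∀ i, 2 * t ≤ cl w c i) :
    T3 w (fun x y z => nbl (c x) (c y) (c z) * ind (G.E x y z)) ≤
    3 * T3 w (fun x y z => nbl (c x) (c y) (c z) * ind (G.E x y z) *
      (chi G w c t x y * chi G w c t x z)) := by
  have nbl_swap12 : ∀ i j k, nbl j i k = nbl i j k := by
    intro i j k
    unfold nbl
    rw [D6.symm₁]
    congr 1
    exact propext ⟨fun h => ⟨h.1.symm, h.2.2.1, h.2.1, h.2.2.2⟩,
      fun h => ⟨h.1.symm, h.2.2.1, h.2.1, h.2.2.2⟩⟩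
  have nbl_swap23 : ∀ i j k, nbl i k j = nbl i j k := by
    intro i j k
    unfold nbl
    rw [D6.symm₂]
    congr 1
    exact propext ⟨fun h => ⟨h.2.1, h.1, h.2.2.1.symm, h.2.2.2⟩,
      fun h => ⟨h.2.1, h.1, h.2.2.1.symm, h.2.2.2⟩⟩
  have key : ∀ x y z, nbl (c x) (c y) (c z) * ind (G.E x y z) ≤
      nbl (c x) (c y) (c z) * ind (G.E x y z) * (chi G w c t x y * chi G w c t x z) +
      (nbl (c y) (c x) (c z) * ind (G.E y x z) * (chi G w c t y x * chi G w c t y z) +
      nbl (c z) (c y) (c x) * ind (G.E z y x) * (chi G w c t z y * chi G w c t z x)) := by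
    intro x y z
    have n1 : nbl (c y) (c x) (c z) = nbl (c x) (c y) (c z) := nbl_swap12 _ _ _
    have n2 : nbl (c z) (c y) (c x) = nbl (c x) (c y) (c z) := by
      rw [nbl_swap12, nbl_swap23, nbl_swap12]
    have g1 : G.E y x z = G.E x y z := G.symm₁ _ _ _
    have g2 : G.E z y x = G.E x y z := E_swap13 G x y z
    rw [n1, n2, g1, g2, chi_symm G w c t x y, chi_symm G w c t y z, chi_symm G w c t x z,
      ← mul_add, ← mul_add]
    by_cases hc : c x ≠ c y ∧ c x ≠ c z ∧ c y ≠ c z ∧ D6.E (c x) (c y) (c z) = false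
    · have e1 : nbl (c x) (c y) (c z) = 1 := by unfold nbl; rw [if_pos hc]
      rw [e1, one_mul]
      obtain ⟨hxy, hxz, hyz, hb⟩ := hc
      rcases ind_cases (G.E x y z) with ⟨h, h'⟩ | ⟨h, h'⟩
      · have a1 := chi_add_ge G w c hw t ht x y z hxy hxz hyz hb h
        have a2 := chi_add_ge G w c hw t ht y x z hxy.symm hyz hxz
          (by rw [D6.symm₁]; exact hb) (by rw [G.symm₁]; exact h)
        have a3 := chi_add_ge G w c hw t ht z x y hxz.symm hyz.symm hxy
          (by rw [D6.symm₁, D6.symm₂]; exact hb) (by rw [E_rot]; exact h)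
        rw [chi_symm G w c t x y] at a2
        rw [chi_symm G w c t x z, chi_symm G w c t y z] at a3
        rw [h', one_mul]
        rcases chi_zero_or_one G w c t x y with b1 | b1 <;>
        rcases chi_zero_or_one G w c t x z with b2 | b2 <;>
        rcases chi_zero_or_one G w c t y z with b3 | b3 <;>
        rw [b1, b2, b3] <;> rw [b1, b2] at a1 <;> rw [b1, b3] at a2 <;> rw [b2, b3] at a3 <;>
        linarith
      · rw [h', zero_mul]
    · have e1 : nbl (c x) (c y) (c z) = 0 := by unfold nbl; rw [if_neg hc]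
      rw [e1, zero_mul, zero_mul]
  refine (T3_mono w hw key).trans ?_
  rw [T3_add, T3_add]
  have e1 := T3_swap12 w
    (fun x y z => nbl (c x) (c y) (c z) * ind (G.E x y z) *
      (chi G w c t x y * chi G w c t x z))
  have e2 := T3_swap13 w
    (fun x y z => nbl (c x) (c y) (c z) * ind (G.E x y z) *
      (chi G w c t x y * chi G w c t x z))
  rw [e1, e2]
  linarith

/-- present block neighbours of `z` miss all own neighbours of `z` -/
theorem own_le_miss (r z u : V) (hb : blk (c r) (c z) (c u) = 1) (hE : G.E r z u = true) :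
    own G w c z r ≤ miss G w c r u := by
  unfold own miss
  refine sum_le_sum fun y _ => mul_le_mul_of_nonneg_left ?_ (hw y)
  have b0 := blk_nonneg (c r) (c u) (c y)
  have i1 := ind_le_one (G.E r u y)
  by_cases hy : c y = c z
  · rw [if_pos hy, one_mul]
    have e1 : blk (c r) (c u) (c y) = 1 := by rw [hy, blk_swap23]; exact hb
    rw [e1, one_mul]
    rcases ind_cases (G.E z y r) with ⟨h, h'⟩ | ⟨h, h'⟩
    · have h1 : G.E r z y = true := by rw [E_rot]; exact h
      rcases ind_cases (G.E r u y) with ⟨k, k'⟩ | ⟨k, k'⟩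
      · exfalso
        -- the triples `r z u`, `r z y`, `r u y`
        refine G.free r z u y ⟨hE, h1, k⟩
      · rw [h', k']; norm_num
    · rw [h']
      linarith
  · rw [if_neg hy, zero_mul]
    exact mul_nonneg b0 (by linarith)

/-- the mass inequality with the missing pairs inside the set -/
theorem mass_le3 (r : V) (ζ : V → ℝ) (hζ : ∀ z, ζ z = 0 ∨ ζ z = 1) :
    2 * ∑ z, w z * (ζ z * miss G w c r z) ≤ mis G w c r +
      S2 w (fun u v => blk (c r) (c u) (c v) * (1 - ind (G.E r u v)) * (ζ u * ζ v)) := by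
  set A : V → V → ℝ := fun u v => blk (c r) (c u) (c v) * (1 - ind (G.E r u v)) with hA
  have e1 : ∑ z, w z * (ζ z * miss G w c r z) = S2 w (fun u v => ζ u * A u v) := by
    rw [S2_fst]
    rfl
  have e2 : ∑ z, w z * (ζ z * miss G w c r z) = S2 w (fun u v => ζ v * A u v) := by
    rw [e1, ← S2_swap w (fun u v => ζ u * A u v)]
    refine S2_congr w fun u v => ?_
    simp only [hA]
    rw [blk_swap23, G.symm₂]
  have e3 : mis G w c r = S2 w A := mis_eq_S2 G w c r
  have h2 : S2 w (fun u v => ζ u * A u v + ζ v * A u v) ≤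
      S2 w (fun u v => A u v + A u v * (ζ u * ζ v)) := by
    refine S2_mono w hw fun u v => ?_
    have b0 := blk_nonneg (c r) (c u) (c v)
    have i1 := ind_le_one (G.E r u v)
    have a0 : 0 ≤ A u v := mul_nonneg b0 (by linarith)
    rcases hζ u with h | h <;> rcases hζ v with h' | h' <;> rw [h, h'] <;> linarith
  rw [S2_add, S2_add, ← e1, ← e2, ← e3] at h2
  linarith

/-- the refined inequality at one root -/
theorem root_le3 {a τ β lam : ℝ} (N : RootNum3 a τ β lam) (r : V)
    (hsz : ∀ i, a ≤ cl w c i) (hmis : mis G w c r ≤ τ)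
    (hown : ∀ z, c r ≠ c z → own G w c z r ≤ β) :
    2 * (∑ z, w z * (hv G w c r z * own G w c z r)) +
      (S2 w (fun u v => nbl (c r) (c u) (c v) * ind (G.E r u v) *
        (chi G w c (a / 2) r u * chi G w c (a / 2) r v)) +
      S2 w (fun u v => blk (c r) (c u) (c v) * (1 - ind (G.E r u v)) *
        (chi G w c (a / 2) r u * chi G w c (a / 2) r v))) ≤
    lam * ∑ z, w z * (chi G w c (a / 2) r z * miss G w c r z) := by
  classical
  have a_pos := N.a_pos
  have lam1 := N.lam_ge
  have lam0 : 0 ≤ lam := by linarith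
  have S1 : ∀ z, c r ≠ c z → 2 * a ≤ SS w c (c r) (c z) :=
    fun z hz => SS_ge w c a hsz (c r) (c z) hz
  set ch : V → ℝ := fun z => chi G w c (a / 2) r z with hch
  have ch01 : ∀ z, ch z = 0 ∨ ch z = 1 := fun z => chi_zero_or_one G w c (a / 2) r z
  have ch0 : ∀ z, 0 ≤ ch z := fun z => chi_nonneg G w c _ r z
  set t1 : V → ℝ := fun z => if ch z = 1 ∧ a / 2 ≤ own G w c z r then 1 else 0 with ht1
  have t101 : ∀ z, t1 z = 0 ∨ t1 z = 1 := by
    intro z; simp only [ht1]; split_ifs
    · right; rfl
    · left; rfl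
  have t10 : ∀ z, 0 ≤ t1 z := by
    intro z; rcases t101 z with h | h <;> rw [h]; norm_num
  have t1ch : ∀ z, t1 z ≤ ch z := by
    intro z
    simp only [ht1]
    by_cases h : ch z = 1 ∧ a / 2 ≤ own G w c z r
    · rw [if_pos h, h.1]
    · rw [if_neg h]; exact ch0 z
  set X : ℝ := ∑ z, w z * ch z with hX
  set X1 : ℝ := ∑ z, w z * t1 z with hX1
  set Q : ℝ := ∑ k, cs w c ch k ^ 2 with hQ
  set A : V → V → ℝ := fun u v => blk (c r) (c u) (c v) * (1 - ind (G.E r u v)) with hA
  set Pr : V → V → ℝ := fun u v => blk (c r) (c u) (c v) * ind (G.E r u v) with hPr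
  have Pr0 : ∀ u v, 0 ≤ Pr u v := fun u v => mul_nonneg (blk_nonneg _ _ _) (ind_nonneg _)
  set P : V → ℝ := fun z => ∑ u, w u * (Pr z u * ch u) with hP
  set P1 : ℝ := S2 w (fun u v => t1 u * (Pr u v * ch v)) with hP1
  have P1eq : P1 = ∑ z, w z * (t1 z * P z) := by
    rw [hP1, S2_fst]
  have X1_0 : 0 ≤ X1 := sum_nonneg fun z _ => mul_nonneg (hw z) (t10 z)
  have X1X : X1 ≤ X := sum_le_sum fun z _ => mul_le_mul_of_nonneg_left (t1ch z) (hw z)
  -- the present block neighbours of a partner of type 1
  have hmiss1 : ∀ z, t1 z = 1 → miss G w c r z = SS w c (c r) (c z) - P z := by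
    intro z hz
    have hz' : ch z = 1 ∧ a / 2 ≤ own G w c z r := by
      simp only [ht1] at hz
      by_contra hne
      rw [if_neg hne] at hz
      norm_num at hz
    simp only [hP]
    unfold miss SS
    rw [← sum_sub_distrib]
    refine sum_congr rfl fun u _ => ?_
    have : Pr z u * ch u = Pr z u := by
      rcases ind_cases (G.E r z u) with ⟨h, h'⟩ | ⟨h, h'⟩
      · by_cases hb : D6.E (c r) (c z) (c u) = true
        · have hb1 : blk (c r) (c z) (c u) = 1 := ind_true hb
          have h1 := own_le_miss G w c hw r z u hb1 h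
          have hne : c r ≠ c u := by
            intro he
            rw [he, D6_irr2] at hb
            exact absurd hb (by decide)
          have h2 : ch u = 1 := by
            simp only [hch]
            unfold chi
            rw [if_pos ⟨hne, by linarith [hz'.2]⟩]
          rw [h2, mul_one]
        · have hb1 : blk (c r) (c z) (c u) = 0 := ind_false (by simpa using hb)
          simp only [hPr]
          rw [hb1]; ring
      · simp only [hPr]
        rw [h']; ring
    rw [this]
    simp only [hPr]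
    ring
  -- the gain of one partner
  have gain : ∀ z, 2 * (hv G w c r z * own G w c z r) + (t1 z * (2 * a * lam - 2 * β) -
      lam * (t1 z * P z)) + lam * (a / 2) * (ch z - t1 z) ≤ lam * (ch z * miss G w c r z) := by
    intro z
    have ho := own_nonneg G w c hw z r
    have hm := miss_nonneg G w c hw r z
    have hp := own_mul_le G w c hw r z
    by_cases hz : c r ≠ c z
    · have s1' := S1 z hz
      have ho3 := hown z hz
      by_cases h1 : a / 2 ≤ miss G w c r z
      · have c1 : ch z = 1 := by simp only [hch]; unfold chi; rw [if_pos ⟨hz, h1⟩]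
        by_cases h2 : a / 2 ≤ own G w c z r
        · have e1 : t1 z = 1 := by simp only [ht1]; rw [if_pos ⟨c1, h2⟩]
          have h3 := hmiss1 z e1
          have hvo : hv G w c r z * own G w c z r ≤ own G w c z r := by
            rcases hv_zero_or_one G w c r z with h | h <;> rw [h] <;> linarith
          have h4 : lam * (2 * a) ≤ lam * SS w c (c r) (c z) :=
            mul_le_mul_of_nonneg_left s1' lam0
          have h5 : lam * (1 * miss G w c r z) = lam * SS w c (c r) (c z) - lam * P z := by
            rw [h3]; ring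
          rw [c1, e1, h5]
          linarith
        · have e1 : t1 z = 0 := by
            simp only [ht1]; rw [if_neg]; rintro ⟨-, h⟩; exact h2 h
          push Not at h2
          rw [c1, e1]
          have h6 : a / 2 + 2 * (hv G w c r z * own G w c z r) ≤ miss G w c r z := by
            rcases hv_zero_or_one G w c r z with h | h
            · rw [h]; linarith
            · have h5 : SS w c (c r) (c z) ≤ 2 * miss G w c r z := by
                by_contra hne
                have : hv G w c r z = 0 := by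
                  unfold hv; rw [if_neg]; rintro ⟨-, h'⟩; exact hne h'
                rw [this] at h; norm_num at h
              have h6 := mid_aux3 a τ (SS w c (c r) (c z) - miss G w c r z)
                (own G w c z r) (SS w c (c r) (c z)) a_pos N.τ_le s1'
                (by linarith) ho h2.le (by linarith)
              rw [h]; linarith
          have h7 : (lam - 1) * (a / 2) ≤ (lam - 1) * miss G w c r z :=
            mul_le_mul_of_nonneg_left h1 (by linarith)
          linarith
      · have c1 : ch z = 0 := by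
          simp only [hch]; unfold chi; rw [if_neg]; rintro ⟨-, h⟩; exact h1 h
        have e1 : t1 z = 0 := by
          have := t1ch z
          have := t10 z
          linarith
        have v1 : hv G w c r z = 0 := by
          unfold hv; rw [if_neg]; rintro ⟨-, h⟩; apply h1; linarith
        rw [c1, e1, v1]; simp
    · have c1 : ch z = 0 := by
        simp only [hch]; unfold chi; rw [if_neg]; rintro ⟨h, -⟩; exact hz h
      have e1 : t1 z = 0 := by
        have := t1ch z
        have := t10 z
        linarith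
      have v1 : hv G w c r z = 0 := by
        unfold hv; rw [if_neg]; rintro ⟨h, -⟩; exact hz h
      rw [c1, e1, v1]; simp
  have lowm : ∀ z, 2 * a * t1 z - t1 z * P z + a / 2 * (ch z - t1 z) ≤
      ch z * miss G w c r z := by
    intro z
    rcases t101 z with h | h
    · rw [h]
      rcases ch01 z with h' | h'
      · rw [h']; simp
      · rw [h']
        have h1 : a / 2 ≤ miss G w c r z := by
          by_contra hne
          have : ch z = 0 := by
            simp only [hch]; unfold chi; rw [if_neg]; rintro ⟨-, h2⟩; exact hne h2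
          rw [this] at h'; norm_num at h'
        linarith
    · have h1 := t1ch z
      rw [h] at h1
      have h' : ch z = 1 := by
        rcases ch01 z with h' | h'
        · rw [h'] at h1; norm_num at h1
        · exact h'
      have hz : c r ≠ c z := by
        intro he
        have : ch z = 0 := by
          simp only [hch]; unfold chi; rw [if_neg]; rintro ⟨h2, -⟩; exact h2 he
        rw [this] at h'; norm_num at h'
      rw [h, h', hmiss1 z h]
      have := S1 z hz
      linarith
  set M : ℝ := ∑ z, w z * (ch z * miss G w c r z) with hM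
  set D : ℝ := S2 w (fun u v => A u v * (ch u * ch v)) with hD
  set Nn : ℝ := S2 w (fun u v => nbl (c r) (c u) (c v) * ind (G.E r u v) * (ch u * ch v))
    with hNn
  have total : 2 * (∑ z, w z * (hv G w c r z * own G w c z r)) + ((2 * a * lam - 2 * β) * X1 -
      lam * P1) + lam * (a / 2) * (X - X1) ≤ lam * M := by
    have h1 : ∑ z, w z * (2 * (hv G w c r z * own G w c z r) + (t1 z * (2 * a * lam - 2 * β) -
      lam * (t1 z * P z)) + lam * (a / 2) * (ch z - t1 z)) ≤
      ∑ z, w z * (lam * (ch z * miss G w c r z)) :=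
      sum_le_sum fun z _ => mul_le_mul_of_nonneg_left (gain z) (hw z)
    have h2 : ∑ z, w z * (2 * (hv G w c r z * own G w c z r) + (t1 z * (2 * a * lam - 2 * β) -
      lam * (t1 z * P z)) + lam * (a / 2) * (ch z - t1 z)) =
      2 * (∑ z, w z * (hv G w c r z * own G w c z r)) + ((2 * a * lam - 2 * β) * X1 -
      lam * P1) + lam * (a / 2) * (X - X1) := by
      rw [P1eq, hX, hX1, mul_sub, mul_sum, mul_sum, mul_sum, mul_sum, mul_sum,
        ← sum_sub_distrib, ← sum_sub_distrib, ← sum_add_distrib, ← sum_add_distrib]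
      refine sum_congr rfl fun z _ => ?_
      ring
    have h3 : ∑ z, w z * (lam * (ch z * miss G w c r z)) = lam * M := by
      rw [hM, mul_sum]
      refine sum_congr rfl fun z _ => ?_
      ring
    rw [h2, h3] at h1
    exact h1
  have lowM : 2 * a * X1 - P1 + a / 2 * (X - X1) ≤ M := by
    have h1 : ∑ z, w z * (2 * a * t1 z - t1 z * P z + a / 2 * (ch z - t1 z)) ≤
      ∑ z, w z * (ch z * miss G w c r z) :=
      sum_le_sum fun z _ => mul_le_mul_of_nonneg_left (lowm z) (hw z)
    have h2 : ∑ z, w z * (2 * a * t1 z - t1 z * P z + a / 2 * (ch z - t1 z)) =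
        2 * a * X1 - P1 + a / 2 * (X - X1) := by
      rw [P1eq, hX, hX1, ← sum_sub_distrib, mul_sum, mul_sum, ← sum_sub_distrib,
        ← sum_add_distrib]
      refine sum_congr rfl fun z _ => ?_
      ring
    rw [h2] at h1
    exact h1
  have budget : 2 * M ≤ τ + D := (mass_le3 G w c hw r ch ch01).trans (by linarith)
  have crudeM : M ≤ τ := by
    refine le_trans (sum_le_sum fun z _ => mul_le_mul_of_nonneg_left ?_ (hw z)) hmis
    have := miss_nonneg G w c hw r z
    rcases ch01 z with h | h <;> rw [h] <;> linarith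
  have lowX : a / 2 * X ≤ M := by
    rw [hX, mul_sum]
    refine sum_le_sum fun z _ => ?_
    have e : a / 2 * (w z * ch z) = w z * (a / 2 * ch z) := by ring
    rw [e]
    refine mul_le_mul_of_nonneg_left ?_ (hw z)
    rcases ch01 z with h' | h'
    · rw [h']; simp
    · rw [h']
      have h1 : a / 2 ≤ miss G w c r z := by
        by_contra hne
        have : ch z = 0 := by
          simp only [hch]; unfold chi; rw [if_neg]; rintro ⟨-, h2⟩; exact hne h2
        rw [this] at h'; norm_num at h'
      linarith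
  -- pairs inside the set of partners
  have hD1 : D + P1 ≤ S2 w (fun u v => blk (c r) (c u) (c v) * (ch u * ch v)) := by
    rw [hD, hP1, ← S2_add]
    refine S2_mono w hw fun u v => ?_
    have h1 : t1 u * (Pr u v * ch v) ≤ ch u * (Pr u v * ch v) :=
      mul_le_mul_of_nonneg_right (t1ch u) (mul_nonneg (Pr0 u v) (ch0 v))
    have e : A u v * (ch u * ch v) + ch u * (Pr u v * ch v) =
        blk (c r) (c u) (c v) * (ch u * ch v) := by
      simp only [hA, hPr]; ring
    linarith
  have hB1 : S2 w (fun u v => blk (c r) (c u) (c v) * (ch u * ch v)) ≤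
      69 / 250 * X ^ 2 + 31 / 50 * Q := by
    rw [S2_class w c (fun i j => blk (c r) i j) ch]
    have h1 := idp_eig (fun i => cs w c ch i) (c r) (by
      show cs w c ch (c r) = 0
      unfold cs
      refine sum_eq_zero fun z _ => ?_
      by_cases hz : c z = c r
      · have c1 : ch z = 0 := by
          simp only [hch]; unfold chi; rw [if_neg]; rintro ⟨h, -⟩; exact h hz.symm
        rw [c1]; ring
      · have : pin c (c r) z = 0 := by unfold pin; rw [if_neg hz]
        rw [this]; ring)
    have h2 : ∑ i, cs w c ch i = X := cs_sum w c ch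
    rw [h2] at h1
    exact h1
  have hB2 : S2 w (fun u v => blk (c r) (c u) (c v) * (ch u * ch v)) ≤ X ^ 2 / 2 := by
    have h1 := blk_pair_le w c hw ch ch0 (c r)
    linarith
  have hNe : D + Nn + P1 ≤ X ^ 2 - Q := by
    rw [hX, hQ, ← ne_pair_eq w c ch, hD, hNn, hP1, ← S2_add, ← S2_add]
    refine S2_mono w hw fun u v => ?_
    have h1 : t1 u * (Pr u v * ch v) ≤ ch u * (Pr u v * ch v) :=
      mul_le_mul_of_nonneg_right (t1ch u) (mul_nonneg (Pr0 u v) (ch0 v))
    have h4 := mul_nonneg (ch0 u) (ch0 v)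
    have h2 := nbl_add_blk_le (c r) (c u) (c v)
    have n0 := nbl_nonneg (c r) (c u) (c v)
    have i1 := ind_le_one (G.E r u v)
    have h5 : nbl (c r) (c u) (c v) * ind (G.E r u v) ≤ nbl (c r) (c u) (c v) := by
      have := mul_le_mul_of_nonneg_left i1 n0
      linarith
    have e : A u v * (ch u * ch v) + nbl (c r) (c u) (c v) * ind (G.E r u v) * (ch u * ch v) +
        ch u * (Pr u v * ch v) =
        (blk (c r) (c u) (c v) + nbl (c r) (c u) (c v) * ind (G.E r u v)) * (ch u * ch v) := by
      simp only [hA, hPr]; ring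
    have h6 : (blk (c r) (c u) (c v) + nbl (c r) (c u) (c v) * ind (G.E r u v)) *
        (ch u * ch v) ≤ (1 - (if c u = c v then (1 : ℝ) else 0)) * (ch u * ch v) := by
      refine mul_le_mul_of_nonneg_right ?_ h4
      by_cases hyz : c u = c v
      · have b0 : blk (c r) (c u) (c v) = 0 := by rw [hyz, blk_irr3]
        have n0' : nbl (c r) (c u) (c v) = 0 := by
          unfold nbl; rw [if_neg]; rintro ⟨-, -, h, -⟩; exact h hyz
        rw [b0, n0', if_pos hyz]; norm_num
      · rw [if_neg hyz]
        linarith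
    linarith
  have hP1X : P1 ≤ X1 * X := by
    have e : X1 * X = S2 w (fun u v => t1 u * ch v) := by
      rw [hX1, hX, S2_prod]
    rw [e]
    refine S2_mono w hw fun u v => mul_le_mul_of_nonneg_left ?_ (t10 u)
    have h1 : Pr u v ≤ 1 := by
      simp only [hPr]
      have := mul_le_mul (blk_le_one (c r) (c u) (c v)) (ind_le_one (G.E r u v))
        (ind_nonneg _) (by norm_num)
      linarith
    have := mul_le_mul_of_nonneg_right h1 (ch0 v)
    linarith
  have hQX : X ^ 2 ≤ 5 * Q := by
    have h1 := sq_sum_five (fun k => cs w c ch k) (c r) (by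
      show cs w c ch (c r) = 0
      unfold cs
      refine sum_eq_zero fun z _ => ?_
      by_cases hz : c z = c r
      · have c1 : ch z = 0 := by
          simp only [hch]; unfold chi; rw [if_neg]; rintro ⟨h, -⟩; exact h hz.symm
        rw [c1]; ring
      · have : pin c (c r) z = 0 := by unfold pin; rw [if_neg hz]
        rw [this]; ring)
    have h2 : ∑ i, cs w c ch i = X := cs_sum w c ch
    rw [h2] at h1
    exact h1
  have hP10 : 0 ≤ P1 := S2_nonneg w hw fun u v =>
    mul_nonneg (t10 u) (mul_nonneg (Pr0 u v) (ch0 v))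
  have hfin := N.fin X X1 Q X1_0 X1X hQX (by linarith) (by linarith) (by linarith)
  have h8 : (lam - 1) * P1 ≤ (lam - 1) * (X1 * X) :=
    mul_le_mul_of_nonneg_left hP1X (by linarith)
  linarith

/-- Step E with a factor, third version -/
theorem bad_le3 {a τ β lam : ℝ} (N : RootNum3 a τ β lam)
    (hsz : ∀ i, a ≤ cl w c i) (hmis : ∀ r, mis G w c r ≤ τ)
    (hown : ∀ r z, c r ≠ c z → own G w c z r ≤ β) :
    BBw G w c ≤ (4 * lam - 3) * MM G w c := by
  have ht : ∀ i, 2 * (a / 2) ≤ cl w c i := fun i => by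
    have := hsz i
    linarith
  have k1 := bad2_le G w c hw
  have k2 := bad3_le2 G w c hw (a / 2) ht
  have k3 := missing_ge G w c hw (a / 2)
  have lam1 := N.lam_ge
  set A1 := ∑ r, w r * ∑ z, w z * (hv G w c r z * own G w c z r) with hA1
  set A2 := ∑ r, w r * ∑ z, w z * (chi G w c (a / 2) r z * miss G w c r z) with hA2
  set B1 := T3 w (fun x y z => blk (c x) (c y) (c z) * (1 - ind (G.E x y z)) *
        (chi G w c (a / 2) x y * chi G w c (a / 2) x z)) with hB1
  set C1 := T3 w (fun x y z => nbl (c x) (c y) (c z) * ind (G.E x y z) *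
      (chi G w c (a / 2) x y * chi G w c (a / 2) x z)) with hC1
  have k5 : 2 * A1 + (C1 + B1) ≤ lam * A2 := by
    rw [hC1, hB1, T3_S2, T3_S2, hA1, hA2, mul_sum, mul_sum, ← sum_add_distrib,
      ← sum_add_distrib]
    refine sum_le_sum fun r _ => ?_
    have h := root_le3 G w c hw N r hsz (hmis r) (hown r)
    have h' := mul_le_mul_of_nonneg_left h (hw r)
    calc _ = w r * (2 * (∑ z, w z * (hv G w c r z * own G w c z r)) +
      (S2 w (fun u v => nbl (c r) (c u) (c v) * ind (G.E r u v) *
        (chi G w c (a / 2) r u * chi G w c (a / 2) r v)) +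
      S2 w (fun u v => blk (c r) (c u) (c v) * (1 - ind (G.E r u v)) *
        (chi G w c (a / 2) r u * chi G w c (a / 2) r v)))) := by ring
      _ ≤ _ := h'
      _ = _ := by ring
  have k6 : B1 ≤ MM G w c := by
    rw [hB1]
    unfold MM
    refine T3_mono w hw fun x y z => ?_
    have h1 : 0 ≤ blk (c x) (c y) (c z) * (1 - ind (G.E x y z)) := by
      have := ind_le_one (G.E x y z)
      exact mul_nonneg (blk_nonneg _ _ _) (by linarith)
    have h2 : chi G w c (a / 2) x y * chi G w c (a / 2) x z ≤ 1 := by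
      rcases chi_zero_or_one G w c (a / 2) x y with h | h <;>
      rcases chi_zero_or_one G w c (a / 2) x z with h' | h' <;> rw [h, h'] <;> norm_num
    have := mul_le_mul_of_nonneg_left h2 h1
    linarith
  have k7 : 3 * A2 - 3 * B1 ≤ MM G w c := k3
  have k8 : lam * (3 * A2 - 3 * B1) ≤ lam * MM G w c :=
    mul_le_mul_of_nonneg_left k7 (by linarith)
  have k9 : (lam - 1) * B1 ≤ (lam - 1) * MM G w c :=
    mul_le_mul_of_nonneg_left k6 (by linarith)
  unfold BBw
  linarith

end A3

end K4m
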