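import Mathlib
import Pool.Agent.Lib.MP_392c14_co.End3A

/-!
# End game, third version, part B: numerical conditions and passes
-/

set_option autoImplicit false

namespace K4m

open Finset

section NumB3

theorem mkRoot3 (a τ β lam x0 x1 x2 e A κ : ℝ) (ha : 0 < a) (hlam : 1 ≤ lam)
    (hτ : τ ≤ a ^ 2 / 2) (hx0 : 0 ≤ x0) (y1 : τ + x0 ^ 2 / 2 ≤ a * x0)
    (y2 : a * x0 + 2 * τ < 2 * a ^ 2) (he : 0 < e)
    (he1 : 2 * β - 3 / 2 * a * lam ≤ e) (hAe : A = 3 * a - 31 / 50 * e)
    (hκ : κ = 1 + 31 / 50 * (lam - 1)) (hA : κ * x0 ≤ A)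
    (hx2 : x2 = 5 / 8 * lam * a) (hx1 : x1 * (4 / 5 + (lam - 1)) ≤ lam * a / 2 - e)
    (hx12 : x1 < x2)
    (g1 : 0 ≤ (e + (lam - 1) * x1) * (a * (1 + 31 / 100 * lam) * x1 - 112 / 125 * x1 ^ 2 - τ) +
      (A - κ * x1) * (lam * a / 2 - 4 / 5 * x1) * x1)
    (g2 : τ ≤ a * (1 + 31 / 100 * lam) * x2 - 112 / 125 * x2 ^ 2)
    (g3 : x0 ≤ x2 ∨ τ ≤ a * (1 + 31 / 100 * lam) * x0 - 112 / 125 * x0 ^ 2)
    (g4 : (4 / 5 * κ - 112 / 125 * (lam - 1)) * (3 * x2) ≤ 112 / 125 * e -
      (lam - 1) * (a * (1 + 31 / 100 * lam)) + 4 / 5 * A + κ * (lam * a / 2))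
    (g5 : 0 ≤ 4 / 5 * κ - 112 / 125 * (lam - 1)) :
    RootNum3 a τ β lam where
  a_pos := ha
  lam_ge := hlam
  τ_le := hτ
  fin := by
    intro X X1 Q h0 h1 hQ c1 c2 h5
    have hX0 : 0 ≤ X := h0.trans h1
    have hl0 : 0 ≤ lam - 1 := by linarith
    have hκ0 : 0 ≤ κ := by linarith
    have hXx : X ≤ x0 := small_root (a / 2) τ x0 (by linarith) hx0 (by linarith)
      (by linarith) X c1 (by linarith)
    by_contra hne
    push Not at hne
    have m2 : (2 * β - 3 / 2 * a * lam) * X1 ≤ e * X1 :=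
      mul_le_mul_of_nonneg_right he1 h0
    have hQ2 : Q < X ^ 2 - lam * (a / 2) * X + (e + (lam - 1) * X) * X1 := by
      have e1 : (e + (lam - 1) * X) * X1 = e * X1 + (lam - 1) * (X1 * X) := by ring
      rw [e1]; linarith
    have i2 : lam * (a / 2) * X < 4 / 5 * X ^ 2 + (e + (lam - 1) * X) * X1 := by linarith
    have i1 : a * (1 + 31 / 100 * lam) * X + (A - κ * X) * X1 < τ + 112 / 125 * X ^ 2 := by
      rw [hAe, hκ]
      have e1 : (e + (lam - 1) * X) * X1 = e * X1 + (lam - 1) * (X1 * X) := by ring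
      rw [e1] at hQ2
      have e2 : (3 * a - 31 / 50 * e - (1 + 31 / 50 * (lam - 1)) * X) * X1 =
          3 * a * X1 - 31 / 50 * (e * X1) - X1 * X - 31 / 50 * ((lam - 1) * (X1 * X)) := by ring
      rw [e2]
      linarith
    have hXpos : 0 < X := by
      rcases hX0.lt_or_eq with h | h
      · exact h
      · exfalso
        have h10 : X1 = 0 := le_antisymm (by linarith) h0
        rw [← h, h10] at i2
        norm_num at i2
    have heX : 0 ≤ e + (lam - 1) * X := by
      have := mul_nonneg hl0 hX0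
      linarith
    have heX' : 0 < e + (lam - 1) * X := by
      have := mul_nonneg hl0 hX0
      linarith
    have m3 : (e + (lam - 1) * X) * X1 ≤ (e + (lam - 1) * X) * X :=
      mul_le_mul_of_nonneg_left h1 heX
    have hXx1 : x1 ≤ X := by
      have h2 : X * (lam * (a / 2)) < X * (4 / 5 * X + (e + (lam - 1) * X)) := by nlinarith
      have h3 : lam * (a / 2) < 4 / 5 * X + (e + (lam - 1) * X) :=
        lt_of_mul_lt_mul_left h2 hX0
      have h4 : x1 * (4 / 5 + (lam - 1)) < X * (4 / 5 + (lam - 1)) := by linarith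
      exact (lt_of_mul_lt_mul_right h4 (by linarith)).le
    have hAX : 0 ≤ A - κ * X := by
      have := mul_le_mul_of_nonneg_left hXx hκ0
      linarith
    rcases le_total X x2 with hX2 | hX2
    · have k1 : (e + (lam - 1) * X) * (a * (1 + 31 / 100 * lam) * X + (A - κ * X) * X1) <
          (e + (lam - 1) * X) * (τ + 112 / 125 * X ^ 2) := mul_lt_mul_of_pos_left i1 heX'
      have k2 : (A - κ * X) * (lam * (a / 2) * X) ≤
          (A - κ * X) * (4 / 5 * X ^ 2 + (e + (lam - 1) * X) * X1) :=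
        mul_le_mul_of_nonneg_left i2.le hAX
      -- the cubic
      set C : ℝ → ℝ := fun Y => (e + (lam - 1) * Y) *
        (a * (1 + 31 / 100 * lam) * Y - 112 / 125 * Y ^ 2 - τ) +
        (A - κ * Y) * (lam * a / 2 - 4 / 5 * Y) * Y with hC
      have k3 : C X < 0 := by
        simp only [hC]
        nlinarith
      have k4 : (x2 - x1) * C X = (x2 - X) * C x1 + (X - x1) * C x2 +
          (x2 - x1) * ((X - x1) * (x2 - X)) * (112 / 125 * e -
          (lam - 1) * (a * (1 + 31 / 100 * lam)) + 4 / 5 * A + κ * (lam * a / 2) -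
          (4 / 5 * κ - 112 / 125 * (lam - 1)) * (X + x1 + x2)) := by
        simp only [hC]; ring
      have hx2pos : 0 ≤ x2 := by
        rw [hx2]
        have : 0 ≤ lam := by linarith
        positivity
      have k5 : 0 ≤ C x2 := by
        simp only [hC]
        have e1 : lam * a / 2 - 4 / 5 * x2 = 0 := by rw [hx2]; ring
        rw [e1]
        have h3 : 0 ≤ (e + (lam - 1) * x2) *
            (a * (1 + 31 / 100 * lam) * x2 - 112 / 125 * x2 ^ 2 - τ) := by
          have := mul_nonneg hl0 hx2pos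
          exact mul_nonneg (by linarith) (by linarith)
        linarith
      have k6 : 0 ≤ (x2 - X) * C x1 := mul_nonneg (by linarith) g1
      have k7 : 0 ≤ (X - x1) * C x2 := mul_nonneg (by linarith) k5
      have k8 : 0 ≤ (x2 - x1) * ((X - x1) * (x2 - X)) * (112 / 125 * e -
          (lam - 1) * (a * (1 + 31 / 100 * lam)) + 4 / 5 * A + κ * (lam * a / 2) -
          (4 / 5 * κ - 112 / 125 * (lam - 1)) * (X + x1 + x2)) := by
        refine mul_nonneg (mul_nonneg (by linarith) (mul_nonneg (by linarith) (by linarith))) ?_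
        have h3 : (4 / 5 * κ - 112 / 125 * (lam - 1)) * (X + x1 + x2) ≤
            (4 / 5 * κ - 112 / 125 * (lam - 1)) * (3 * x2) :=
          mul_le_mul_of_nonneg_left (by linarith) g5
        linarith
      have k9 : (x2 - x1) * C X < 0 := mul_neg_of_pos_of_neg (by linarith) k3
      linarith
    · rcases hX2.lt_or_eq with hlt | heq
      · rcases g3 with g3 | g3
        · linarith
        · have m4 : 0 ≤ (A - κ * X) * X1 := mul_nonneg hAX h0
          have k1 : (x0 - x2) * (a * (1 + 31 / 100 * lam) * X - 112 / 125 * X ^ 2) =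
              (x0 - X) * (a * (1 + 31 / 100 * lam) * x2 - 112 / 125 * x2 ^ 2) +
              (X - x2) * (a * (1 + 31 / 100 * lam) * x0 - 112 / 125 * x0 ^ 2) +
              112 / 125 * (x0 - x2) * ((X - x2) * (x0 - X)) := by ring
          have k2 : (x0 - X) * τ ≤ (x0 - X) * (a * (1 + 31 / 100 * lam) * x2 -
              112 / 125 * x2 ^ 2) := mul_le_mul_of_nonneg_left g2 (by linarith)
          have k3 : (X - x2) * τ ≤ (X - x2) * (a * (1 + 31 / 100 * lam) * x0 -
              112 / 125 * x0 ^ 2) := mul_le_mul_of_nonneg_left g3 (by linarith)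
          have k4 : 0 ≤ 112 / 125 * (x0 - x2) * ((X - x2) * (x0 - X)) :=
            mul_nonneg (mul_nonneg (by norm_num) (by linarith))
              (mul_nonneg (by linarith) (by linarith))
          have k5 : (x0 - x2) * (a * (1 + 31 / 100 * lam) * X - 112 / 125 * X ^ 2) <
              (x0 - x2) * τ := mul_lt_mul_of_pos_left (by linarith) (by linarith)
          linarith
      · have m4 : 0 ≤ (A - κ * X) * X1 := mul_nonneg hAX h0
        rw [← heq] at i1 m4
        linarith

end NumB3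

section E3

variable {V : Type} [Fintype V] {G : TG V} {w : V → ℝ} {c : V → Fin 6}

/-- the sum of the errors -/
theorem sum_Ek_le3 {a q τ β S0 lam : ℝ} (hw : ∀ x, 0 ≤ w x)
    (N : RootNum3 a τ β lam) (S : State G w c a q S0 β)
    (hmis : ∀ z, mis G w c z ≤ τ) (μ es : ℝ) (hμ : MM G w c ≤ μ)
    (n : (4 * lam - 4) * μ ≤ es) : ∑ k, Ek G w c k ≤ es := by
  have h1 := bad_le3 G w c hw N S.lo hmis S.own
  rw [sum_Ek]
  have h2 : (4 * lam - 4) * MM G w c ≤ (4 * lam - 4) * μ :=
    mul_le_mul_of_nonneg_left hμ (by have := N.lam_ge; linarith)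
  linarith

end E3

section E4

variable {n : ℕ} {G : TG (Fin n)} {w : Fin n → ℝ} {c : Fin n → Fin 6}

/-- the last step -/
theorem last_pass3 {a q τ β S0 : ℝ} (hw : IsW w)
    (hdeg : ∀ z, deg G w z = val G w)
    (hmis : ∀ z, mis G w c z ≤ τ)
    (hbox : ∀ i, |cl w c i - 1 / 6| ≤ 1 / 200)
    (R : RootNum3 a τ β 1) (S : State G w c a q S0 β) :
    val G w ≤ (10 + rho) / 36 := by
  have hw0 := hw.nonneg
  have r1 := rho_le_third
  have r2 := two_sevenths_le_rho
  have hx : ∑ i, cl w c i = 1 := by rw [sum_cl, hw.sum_eq]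
  have hB := bad_le3 G w c hw0 R S.lo hmis S.own
  have h2 := total_eq (c := c) hw _ hdeg
  have h3 := Tb_slack rho (by linarith) r1 (cl w c) hx hbox
  have h4 : 0 ≤ ∑ i, (cl w c i - 1 / 6) ^ 2 := sum_nonneg fun i _ => sq_nonneg _
  have h5 : ∑ k, VV G w c k ≤ rho * ∑ k, cl w c k ^ 3 := by
    rw [mul_sum]
    exact sum_le_sum fun k _ => VV_le G w c hw0 k
  rw [sum_Ek] at h2
  linarith

/-- the starting state -/
theorem start_state (hw : IsW w) (a q S0 β y : ℝ) (ha : a ≤ 1 / 6 - y) (hq : 1 / 6 + y ≤ q)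
    (hS : 6 * y ^ 2 ≤ S0) (hβ : 1 / 6 + y ≤ β) (hsz : ∀ i, |cl w c i - 1 / 6| ≤ y) :
    State G w c a q S0 β := by
  have hw0 := hw.nonneg
  have lo : ∀ i, 1 / 6 - y ≤ cl w c i := fun i => by
    have := (abs_le.1 (hsz i)).1; linarith
  have hi : ∀ i, cl w c i ≤ 1 / 6 + y := fun i => by
    have := (abs_le.1 (hsz i)).2; linarith
  refine ⟨fun i => ha.trans (lo i), fun i => (hi i).trans hq,
    S_box (1 / 6 - y) (1 / 6 + y) y S0 lo hi le_rfl le_rfl hS, fun r z _ => ?_⟩
  have own_le : own G w c z r ≤ cl w c (c z) := by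
    unfold own cl
    refine sum_le_sum fun y _ => mul_le_mul_of_nonneg_left ?_ (hw0 y)
    have := ind_le_one (G.E z y r)
    have := ind_nonneg (G.E z y r)
    split_ifs <;> linarith
  exact own_le.trans ((hi _).trans hβ)

/-- the starting state with a bound for the own neighbourhoods -/
theorem start_state_own (hw : IsW w) (a q S0 β y : ℝ) (ha : a ≤ 1 / 6 - y) (hq : 1 / 6 + y ≤ q)
    (hS : 6 * y ^ 2 ≤ S0) (hown : ∀ r z, c r ≠ c z → own G w c z r ≤ β)
    (hsz : ∀ i, |cl w c i - 1 / 6| ≤ y) :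
    State G w c a q S0 β := by
  have hw0 := hw.nonneg
  have lo : ∀ i, 1 / 6 - y ≤ cl w c i := fun i => by
    have := (abs_le.1 (hsz i)).1; linarith
  have hi : ∀ i, cl w c i ≤ 1 / 6 + y := fun i => by
    have := (abs_le.1 (hsz i)).2; linarith
  exact ⟨fun i => ha.trans (lo i), fun i => (hi i).trans hq,
    S_box (1 / 6 - y) (1 / 6 + y) y S0 lo hi le_rfl le_rfl hS, hown⟩

end E4

end K4m
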