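import Mathlib
import Pool.Agent.Lib.MP_392c14_co.End3B

/-!
# End game, third version, part C: sharper local bounds and passes
-/

set_option autoImplicit false

namespace K4m

open Finset

section NumC3

theorem bt_aux (a β τ μs D m o S : ℝ) (hμs : 0 < μs) (h1 : τ / 2 ≤ β * (2 * a - μs))
    (hD0 : 0 ≤ D) (hD : D ≤ β * μs) (hS : 2 * a ≤ S) (hm : S ≤ 2 * m) (hm0 : 0 ≤ m)
    (ho : o ≤ β) (hos : o * (S - m) ≤ τ / 2) :
    μs * (m * o + D) ≤ m * (μs * β + D) := by
  rcases le_total μs m with h | h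
  · have k1 : μs * D ≤ m * D := mul_le_mul_of_nonneg_right h hD0
    have k2 : μs * m * o ≤ μs * m * β := mul_le_mul_of_nonneg_left ho (by positivity)
    linarith
  · have hs : S - m ≤ m := by linarith
    have hbo : 0 ≤ β - o := by linarith
    have k1 : (β - o) * (S - m) ≤ (β - o) * m := mul_le_mul_of_nonneg_left hs hbo
    have k2 : β * (μs - m) ≤ (β - o) * (S - m) ∨ β < 0 := by
      rcases le_or_gt 0 β with hβ | hβ
      · left
        have := mul_le_mul_of_nonneg_left hS hβ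
        linarith
      · right; exact hβ
    rcases k2 with k2 | k2
    · have k3 : β * (μs - m) ≤ m * (β - o) := by linarith
      have k4 : μs * (β * (μs - m)) ≤ μs * (m * (β - o)) :=
        mul_le_mul_of_nonneg_left k3 hμs.le
      have k5 : D * (μs - m) ≤ β * μs * (μs - m) :=
        mul_le_mul_of_nonneg_right hD (by linarith)
      linarith
    · have : β * μs < 0 := mul_neg_of_neg_of_pos k2 hμs
      linarith

end NumC3

section C3

variable {V : Type} [Fintype V] (G : TG V) (w : V → ℝ) (c : V → Fin 6)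

variable (hw : ∀ x, 0 ≤ w x)
include hw

/-- pairs at `z` in a common other class, raw form -/
theorem bt_raw (p : ℝ) (hp : ∀ i, p ≤ cl w c i) (z : V) :
    p * btw G w c z ≤ ∑ u, w u * ((hv G w c z u * miss G w c z u) * own G w c u z) +
      Hz G w c z * (mis G w c z - Tz G w c z) := by
  set m : V → ℝ := fun u => miss G w c z u with hm
  set H : V → ℝ := fun u => hv G w c z u with hH
  have m0 : ∀ u, 0 ≤ m u := fun u => miss_nonneg G w c hw z u
  have H0 : ∀ u, 0 ≤ H u := fun u => hv_nonneg G w c z u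
  have H1 : ∀ u, H u ≤ 1 := by
    intro u
    rcases hv_zero_or_one G w c z u with h | h <;> simp only [hH] <;> rw [h]; norm_num
  set o : V → V → ℝ := fun u v => (if c v = c u then 1 else 0) * ind (G.E u v z) with ho
  have key : ∀ u v, 2 * p * (p1 (c u) (c v) (c z) * ind (G.E z u v)) ≤
      ((H u * m u) * o u v + (H v * m v) * o v u) +
      (((1 - H u) * m u) * H v + ((1 - H v) * m v) * H u) := by
    intro u v
    have n0 : 0 ≤ o u v := by
      simp only [ho]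
      refine mul_nonneg ?_ (ind_nonneg _)
      split_ifs <;> norm_num
    have n0' : 0 ≤ o v u := by
      simp only [ho]
      refine mul_nonneg ?_ (ind_nonneg _)
      split_ifs <;> norm_num
    have n1 := mul_nonneg (mul_nonneg (H0 u) (m0 u)) n0
    have n2 := mul_nonneg (mul_nonneg (H0 v) (m0 v)) n0'
    have n3 : 0 ≤ ((1 - H u) * m u) * H v :=
      mul_nonneg (mul_nonneg (by linarith [H1 u]) (m0 u)) (H0 v)
    have n4 : 0 ≤ ((1 - H v) * m v) * H u :=
      mul_nonneg (mul_nonneg (by linarith [H1 v]) (m0 v)) (H0 u)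
    by_cases h : c u = c v ∧ c v ≠ c z
    · rcases ind_cases (G.E z u v) with ⟨e, e'⟩ | ⟨e, e'⟩
      · have h1 := miss_add_ge G w c hw u v z h.1 e
        have hzu : c z ≠ c u := fun hh => h.2 (by rw [hh]; exact h.1.symm)
        have hp2 := SS_ge w c p hp (c z) (c u) hzu
        have e1 : p1 (c u) (c v) (c z) = 1 := by unfold p1; rw [if_pos h]
        have f1 : G.E u v z = true := by rw [← E_rot G u v z]; exact e
        have f2 : G.E v u z = true := by rw [G.symm₁]; exact f1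
        have o1 : o u v = 1 := by
          simp only [ho]; rw [if_pos h.1.symm, ind_true f1]; norm_num
        have o2 : o v u = 1 := by
          simp only [ho]; rw [if_pos h.1, ind_true f2]; norm_num
        rw [e1, e', o1, o2]
        have h3 : 2 * p ≤ m u + m v := by
          simp only [hm]; linarith
        rcases hv_zero_or_one G w c z u with a | a
        · rcases hv_zero_or_one G w c z v with b | b
          · exfalso
            have a' : ¬ SS w c (c z) (c u) ≤ 2 * miss G w c z u := by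
              intro hh
              have : hv G w c z u = 1 := by unfold hv; rw [if_pos ⟨hzu, hh⟩]
              rw [this] at a; norm_num at a
            have b' : ¬ SS w c (c z) (c v) ≤ 2 * miss G w c z v := by
              intro hh
              have : hv G w c z v = 1 := by
                unfold hv; rw [if_pos ⟨fun e => h.2 e.symm, hh⟩]
              rw [this] at b; norm_num at b
            push Not at a' b'
            rw [← h.1] at b'
            linarith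
          · have a2 : H u = 0 := a
            have b2 : H v = 1 := b
            rw [a2, b2]; linarith
        · rcases hv_zero_or_one G w c z v with b | b
          · have a2 : H u = 1 := a
            have b2 : H v = 0 := b
            rw [a2, b2]; linarith
          · have a2 : H u = 1 := a
            have b2 : H v = 1 := b
            rw [a2, b2]; linarith
      · rw [e', mul_zero, mul_zero]
        linarith
    · have e1 : p1 (c u) (c v) (c z) = 0 := by unfold p1; rw [if_neg h]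
      rw [e1, zero_mul, mul_zero]
      linarith
  have h1 := S2_mono w hw key
  rw [S2_mul, S2_add, S2_add, S2_add] at h1
  have s1 := S2_swap w (fun u v => (H u * m u) * o u v)
  have s2 := S2_swap w (fun u v => ((1 - H u) * m u) * H v)
  rw [s1, s2] at h1
  have h2 : S2 w (fun u v => (H u * m u) * o u v) =
      ∑ u, w u * ((hv G w c z u * miss G w c z u) * own G w c u z) := by
    rw [S2_fst]
    rfl
  have h3 : S2 w (fun u v => ((1 - H u) * m u) * H v) =
      Hz G w c z * (mis G w c z - Tz G w c z) := by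
    rw [S2_prod]
    have e1 : ∑ u, w u * ((1 - H u) * m u) = mis G w c z - Tz G w c z := by
      unfold mis Tz
      rw [← sum_sub_distrib]
      refine sum_congr rfl fun u _ => ?_
      simp only [hH, hm]; ring
    rw [e1]
    unfold Hz
    ring
  rw [h2, h3] at h1
  unfold btw
  linarith

/-- pairs at `z` in a common other class, sharper form -/
theorem bt_le2 (a β τ μs : ℝ) (hsz : ∀ i, a ≤ cl w c i) (hμs : 0 < μs)
    (h1 : τ / 2 ≤ β * (2 * a - μs)) (h2 : τ ≤ β * μs) (z : V) (hm : mis G w c z ≤ τ)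
    (hown : ∀ u, c z ≠ c u → own G w c u z ≤ β) :
    μs * (a * btw G w c z) ≤ μs * (β * Tz G w c z) + τ / 4 * mis G w c z := by
  have hb := bt_raw G w c hw a hsz z
  have T0 := Tz_nonneg G w c hw z
  have Tm := Tz_le_mis G w c hw z
  set D := mis G w c z - Tz G w c z with hD
  have D0 : 0 ≤ D := by linarith
  have hDβ : D ≤ β * μs := by linarith
  have key : ∀ u, μs * ((hv G w c z u * miss G w c z u) * own G w c u z + hv G w c z u * D) ≤
      (hv G w c z u * miss G w c z u) * (μs * β + D) := by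
    intro u
    by_cases h : c z ≠ c u ∧ SS w c (c z) (c u) ≤ 2 * miss G w c z u
    · have h3 : hv G w c z u = 1 := by unfold hv; rw [if_pos h]
      rw [h3, one_mul, one_mul]
      have hp := own_mul_le G w c hw z u
      exact bt_aux a β τ μs D (miss G w c z u) (own G w c u z) (SS w c (c z) (c u)) hμs h1 D0
        hDβ (SS_ge w c a hsz (c z) (c u) h.1) h.2 (miss_nonneg G w c hw z u) (hown u h.1)
        (by linarith)
    · have h3 : hv G w c z u = 0 := by unfold hv; rw [if_neg h]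
      rw [h3]; simp
  have h3 : ∑ u, w u * (μs * ((hv G w c z u * miss G w c z u) * own G w c u z +
      hv G w c z u * D)) ≤ ∑ u, w u * ((hv G w c z u * miss G w c z u) * (μs * β + D)) :=
    sum_le_sum fun u _ => mul_le_mul_of_nonneg_left (key u) (hw u)
  have e1 : ∑ u, w u * (μs * ((hv G w c z u * miss G w c z u) * own G w c u z +
      hv G w c z u * D)) = μs * (∑ u, w u * ((hv G w c z u * miss G w c z u) *
      own G w c u z) + Hz G w c z * D) := by
    unfold Hz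
    rw [sum_mul, ← sum_add_distrib, mul_sum]
    refine sum_congr rfl fun u _ => ?_
    ring
  have e2 : ∑ u, w u * ((hv G w c z u * miss G w c z u) * (μs * β + D)) =
      Tz G w c z * (μs * β + D) := by
    unfold Tz
    rw [sum_mul]
    refine sum_congr rfl fun u _ => ?_
    ring
  rw [e1, e2] at h3
  have h4 := mul_le_mul_of_nonneg_left hb hμs.le
  have h5 : Tz G w c z * D ≤ τ / 4 * mis G w c z := by
    have k1 : Tz G w c z * D ≤ mis G w c z ^ 2 / 4 := by
      rw [hD]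
      nlinarith [sq_nonneg (mis G w c z - 2 * Tz G w c z)]
    have m0 := mis_nonneg G w c hw z
    have k2 : mis G w c z ^ 2 ≤ τ * mis G w c z := by
      have : mis G w c z ^ 2 = mis G w c z * mis G w c z := by ring
      rw [this]; exact mul_le_mul_of_nonneg_right hm m0
    linarith
  linarith

end C3

section E3C

variable {V : Type} [Fintype V] {G : TG V} {w : V → ℝ} {c : V → Fin 6}

/-- numerical data for the local bounds, with the sharper bound for `btw` -/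
structure LocNum3 (a q τ β HH kT κ μs : ℝ) : Prop extends LocNum a q τ β HH kT κ where
  μs_pos : 0 < μs
  μs1 : τ / 2 ≤ β * (2 * a - μs)
  μs2 : τ ≤ β * μs

theorem local3 {a q τ β S0 HH kT κ μs : ℝ} (hw : ∀ x, 0 ≤ w x)
    (N : LocNum3 a q τ β HH kT κ μs)
    (S : State G w c a q S0 β) (hmis : ∀ z, mis G w c z ≤ τ) (z : V) :
    bz G w c z ≤ β * kT / (2 * a) * mis G w c z + 1 / a * Mk G w c (c z) ∧
    btw G w c z ≤ (β * kT / a + τ / (4 * a * μs)) * mis G w c z ∧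
    gm G w c z ≤ τ / (4 * q * (3 * a - 2 * q)) * mis G w c z +
      1 / (3 * a - 2 * q) * Wk G w c (c z) := by
  obtain ⟨b1, b2, b3⟩ := local2 hw N.toLocNum S hmis z
  refine ⟨b1, ?_, b3⟩
  have ha := N.a_pos
  have hμ := N.μs_pos
  have h := bt_le2 G w c hw a β τ μs S.lo hμ N.μs1 N.μs2 z (hmis z)
    (fun u hu => S.own z u hu)
  have hT := Tz_le_kT G w c hw a τ HH kT ha S.lo z (hmis z) N.massT N.kT0 N.kT1
  have hβT : β * Tz G w c z ≤ β * (kT * mis G w c z) := mul_le_mul_of_nonneg_left hT N.β_pos.le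
  have hβT2 := mul_le_mul_of_nonneg_left hβT hμ.le
  have h1 : btw G w c z ≤ (μs * (β * (kT * mis G w c z)) + τ / 4 * mis G w c z) /
      (μs * a) := by
    rw [le_div_iff₀ (by positivity)]
    linarith
  refine h1.trans (le_of_eq ?_)
  field_simp

/-- upper bound for the error of a class -/
theorem Ek_le3 {a q τ β S0 HH kT κ μs : ℝ} (hw : ∀ x, 0 ≤ w x)
    (N : LocNum3 a q τ β HH kT κ μs)
    (S : State G w c a q S0 β) (hmis : ∀ z, mis G w c z ≤ τ) (μ : ℝ) (hμ : MM G w c ≤ μ)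
    (A1 eu : ℝ)
    (n1 : 2 * β * kT / a + τ / (4 * a * μs) + τ / (4 * q * (3 * a - 2 * q)) - 1 ≤ A1)
    (n2 : (A1 + 2 * q / a) * μ / 3 ≤ eu) (n3 : 2 / 3 * (q / (3 * a - 2 * q)) * μ ≤ eu)
    (k : Fin 6) : Ek G w c k ≤ eu := by
  have ha := N.a_pos
  have hq := N.q_pos
  have hd := N.den
  have hM := Mk_nonneg G w c hw k
  have hW := Wk_nonneg G w c hw k
  have h1 := Ek_le G w c hw k A1 (2 / a * Mk G w c k + 1 / (3 * a - 2 * q) * Wk G w c k)
    (fun z hz => by
      obtain ⟨b1, b2, b3⟩ := local3 hw N S hmis z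
      have m0 := mis_nonneg G w c hw z
      have h2 := mul_le_mul_of_nonneg_right n1 m0
      have e1 : (2 * β * kT / a + τ / (4 * a * μs) + τ / (4 * q * (3 * a - 2 * q)) - 1) *
          mis G w c z = 2 * (β * kT / (2 * a) * mis G w c z) +
          (β * kT / a + τ / (4 * a * μs)) * mis G w c z +
          τ / (4 * q * (3 * a - 2 * q)) * mis G w c z - mis G w c z := by
        have e2 : 2 * (β * kT / (2 * a)) = β * kT / a := by field_simp
        have e3 : 2 * β * kT / a = β * kT / a + β * kT / a := by ring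
        rw [e3]
        linear_combination (-(mis G w c z)) * e2
      rw [hz] at b1 b3
      have e4 : 2 / a * Mk G w c k = 2 * (1 / a * Mk G w c k) := by ring
      unfold bad
      rw [e4]
      linarith)
  have h0 : 0 ≤ 2 / a * Mk G w c k + 1 / (3 * a - 2 * q) * Wk G w c k := by positivity
  have h2 := mul_le_mul_of_nonneg_left (S.hi k) h0
  have h3 := lin_poly (A1 + 2 * q / a) (q / (3 * a - 2 * q)) (Mk G w c k) (Wk G w c k) μ eu hM
    (by have := Mk_le G w c hw k; linarith) (by have := Wk_le G w c hw k; linarith)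
    (by positivity) n2 n3
  have e : A1 * Mk G w c k + (2 / a * Mk G w c k + 1 / (3 * a - 2 * q) * Wk G w c k) * q =
      (A1 + 2 * q / a) * Mk G w c k + q / (3 * a - 2 * q) * Wk G w c k := by ring
  linarith

end E3C

section E3D

variable {n : ℕ} {G : TG (Fin n)} {w : Fin n → ℝ} {c : Fin n → Fin 6}

/-- the masses of the classes: one pass -/
theorem size_pass3 {a q τ β S0 HH kT κ μs lam : ℝ} (hw : IsW w) (t ε : ℝ)
    (hdeg : ∀ z, deg G w z = t) (ht : rho - ε ≤ t) (hε : 0 ≤ ε)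
    (hmis : ∀ z, mis G w c z ≤ τ) (μ : ℝ) (hμ : MM G w c ≤ μ)
    (N : LocNum3 a q τ β HH kT κ μs) (R : RootNum3 a τ β lam) (S : State G w c a q S0 β)
    (S1 : ℝ) (hS : ∑ i, (cl w c i - 1 / 6) ^ 2 ≤ S1)
    (A1 es el eu ζ yl yu a' q' S' : ℝ)
    (n1 : 2 * β * kT / a + τ / (4 * a * μs) + τ / (4 * q * (3 * a - 2 * q)) - 1 ≤ A1)
    (n2 : (A1 + 2 * q / a) * μ / 3 ≤ eu) (n3 : 2 / 3 * (q / (3 * a - 2 * q)) * μ ≤ eu)
    (n4 : (4 * lam - 4) * μ ≤ es) (n5 : μ / 3 ≤ el) (n6 : 1 / 6 - yl ≤ a) (n7 : q ≤ 1 / 6 + yu)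
    (z0 : 0 ≤ ζ) (z1 : eu * (6 * yl) ≤ ζ * a) (z4 : el * (6 * yu) ≤ ζ * a)
    (hyu' : 9 / 5 * (ε + eu / a + 2 * S1) ≤ q' - 1 / 6)
    (hyl' : 9 / 5 * (5 * ε + S1 / 3 + 6 * (es + el) + 5 * ζ) ≤ 1 / 6 - a')
    (n9 : S1 ≤ S' ∨ ∃ y, 1 / 6 - y ≤ a' ∧ q' ≤ 1 / 6 + y ∧ 6 * y ^ 2 ≤ S') :
    State G w c a' q' S' β := by
  have hw0 := hw.nonneg
  have r1 := rho_le_third
  have r2 := two_sevenths_le_rho
  have hx : ∑ i, cl w c i = 1 := by rw [sum_cl, hw.sum_eq]
  have hMM0 : 0 ≤ MM G w c := MM_nonneg' hw0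
  have hes := sum_Ek_le3 hw0 R S hmis μ es hμ n4
  have hes0 : 0 ≤ es := by
    have : 0 ≤ (4 * lam - 4) * μ := mul_nonneg (by have := R.lam_ge; linarith) (by linarith)
    linarith
  have hS0 : 0 ≤ ∑ i, (cl w c i - 1 / 6) ^ 2 := sum_nonneg fun i _ => sq_nonneg _
  have hel0 : 0 ≤ el := by linarith
  have hup := fun k => Ek_le3 hw0 N S hmis μ hμ A1 eu n1 n2 n3 k
  have heu : 0 ≤ eu := by
    have hq := N.q_pos
    have hd := N.den
    have : 0 ≤ 2 / 3 * (q / (3 * a - 2 * q)) * μ := mul_nonneg (by positivity) (by linarith)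
    linarith
  have key := fun k => sizes2 rho t ε a yl yu el eu es S1 ζ (1 / 6 - a') (q' - 1 / 6) (cl w c)
    (Ek G w c) hx S.lo N.a_pos (fun i => n6.trans (S.lo i)) (fun i => (S.hi i).trans n7)
    (by linarith) r1 (by linarith)
    (fun k => by
      have h1 := class_eq (c := c) t hdeg k
      have h2 := VV_le G w c hw0 k
      linarith) hup heu
    (fun k => by
      have h1 := Ek_ge G w c hw0 k
      have h2 := Mk_le G w c hw0 k
      linarith) hes hS z0 z1 z4 hyu' hyl' hε (by linarith) (by linarith) k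
  refine ⟨fun i => by have := (key i).1; linarith, fun i => by have := (key i).2; linarith, ?_,
    S.own⟩
  rcases n9 with h | ⟨y, h1, h2, h3⟩
  · exact hS.trans h
  · exact S_box a' q' y S' (fun i => by have := (key i).1; linarith)
      (fun i => by have := (key i).2; linarith) h1 h2 h3

/-- numerical conditions of the own pass at a class of mass `X` -/
structure OwnNum (a q τ β S0 kT κ μs ε d μ β' X : ℝ) (cm cM cW : ℝ) : Prop where
  p_pos : 0 < 2 * β' - 3 / 2 * X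
  cm0 : 0 ≤ cm
  n1 : (2 * β' - X) * (β * kT / (2 * a)) - (2 * β' - 3 / 2 * X) * (1 - (β * kT / a +
    τ / (4 * a * μs)) - τ / (4 * q * (3 * a - 2 * q))) ≤ cm
  n2 : (2 * β' - X) * (1 / a) + (3 - 2 * β' / q) * (2 * κ * kT) ≤ cM
  n3 : (2 * β' - 3 / 2 * X) * (1 / (3 * a - 2 * q)) ≤ cW
  n4 : cM * μ / 3 + cm * τ + 2 * (X - β') * (d + d ^ 2) < (2 * β' - 3 / 2 * X) *
    (2 / 7 / 36 - ε + 2 / 3 * (X - 1 / 6) - 2 * S0)
  n5 : 2 / 3 * cW * μ + cm * τ + 2 * (X - β') * (d + d ^ 2) < (2 * β' - 3 / 2 * X) *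
    (2 / 7 / 36 - ε + 2 / 3 * (X - 1 / 6) - 2 * S0)

/-- the lower bound at one end point -/
theorem own_end {a q τ β S0 kT κ μs ε d μ β' X cm cM cW : ℝ} (hd : 0 < 3 * a - 2 * q)
    (O : OwnNum a q τ β S0 kT κ μs ε d μ β' X cm cM cW) (m M W : ℝ) (hm0 : 0 ≤ m) (hm : m ≤ τ)
    (hM0 : 0 ≤ M) (hW0 : 0 ≤ W) (h3 : 3 * M ≤ μ) (h6 : 3 * W + 6 * M ≤ 2 * μ) :
    0 < (2 * β' - 3 / 2 * X) * (2 / 7 / 36 - ε + 2 / 3 * (X - 1 / 6) - 2 * S0 +
      m - (β * kT / a + τ / (4 * a * μs)) * m - (τ / (4 * q * (3 * a - 2 * q)) * m +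
        1 / (3 * a - 2 * q) * W)) -
      (2 * β' - X) * (β * kT / (2 * a) * m + 1 / a * M) - 2 * (X - β') * (d + d ^ 2) -
      (3 - 2 * β' / q) * (2 * κ * kT * M) := by
  have hp := O.p_pos
  have p1 := mul_le_mul_of_nonneg_right O.n1 hm0
  have p2 := mul_le_mul_of_nonneg_right O.n2 hM0
  have p3 := mul_le_mul_of_nonneg_right O.n3 hW0
  have hcW : 0 ≤ cW := by
    have : 0 ≤ (2 * β' - 3 / 2 * X) * (1 / (3 * a - 2 * q)) := by positivity
    linarith [O.n3]
  have hpoly := lin_poly cM cW M W μ (max (cM * μ / 3) (2 / 3 * cW * μ)) hM0 h3 h6 hcW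
    (le_max_left _ _) (le_max_right _ _)
  have hmax : max (cM * μ / 3) (2 / 3 * cW * μ) < (2 * β' - 3 / 2 * X) *
      (2 / 7 / 36 - ε + 2 / 3 * (X - 1 / 6) - 2 * S0) - cm * τ -
      2 * (X - β') * (d + d ^ 2) :=
    max_lt (by linarith [O.n4]) (by linarith [O.n5])
  have hcm : cm * m ≤ cm * τ := mul_le_mul_of_nonneg_left hm O.cm0
  linarith

/-- the own neighbourhoods: one pass -/
theorem own_pass3 {a q τ β S0 HH kT κ μs : ℝ} (hw : IsW w) (t ε d : ℝ)
    (hcnd : ∀ f : Fin n → ℝ, ∑ x, f x = 0 → tri G f f w ≤ 0)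
    (hval : val G w = t)
    (hdeg : ∀ z, deg G w z = t) (ht : rho - ε ≤ t) (hd0 : 0 < d) (hd1 : d ≤ 1)
    (hdε : ε ≤ d ^ 2)
    (hmis : ∀ z, mis G w c z ≤ τ) (μ : ℝ) (hμ : MM G w c ≤ μ)
    (N : LocNum3 a q τ β HH kT κ μs) (S : State G w c a q S0 β)
    (β' xl cm1 cM1 cW1 cm2 cM2 cW2 : ℝ)
    (O1 : OwnNum a q τ β S0 kT κ μs ε d μ β' xl cm1 cM1 cW1)
    (O2 : OwnNum a q τ β S0 kT κ μs ε d μ β' q cm2 cM2 cW2)
    (hxl : xl ≤ a ∨ xl ≤ β') (hxl2 : β' ≤ xl) (hxq : xl < q) : State G w c a q S0 β' := by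
  have hw0 := hw.nonneg
  have r1 := rho_le_third
  have r2 := two_sevenths_le_rho
  have ha := N.a_pos
  have hq := N.q_pos
  have hd := N.den
  have hx : ∑ i, cl w c i = 1 := by rw [sum_cl, hw.sum_eq]
  have hMM0 : 0 ≤ MM G w c := MM_nonneg' hw0
  refine ⟨S.lo, S.hi, S.sq, fun r z _ => ?_⟩
  set k := c z with hk
  set x := cl w c k with hxk
  have hxa : a ≤ x := S.lo k
  have hxq' : x ≤ q := S.hi k
  have hπ : 0 < x := lt_of_lt_of_le ha hxa
  have own_le : own G w c z r ≤ x := by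
    rw [hxk, hk]
    unfold own cl
    refine sum_le_sum fun y _ => mul_le_mul_of_nonneg_left ?_ (hw0 y)
    have := ind_le_one (G.E z y r)
    have := ind_nonneg (G.E z y r)
    split_ifs <;> linarith
  rcases le_or_gt x β' with hxβ | hxβ
  · exact own_le.trans hxβ
  have hxlx : xl ≤ x := by
    rcases hxl with h | h
    · exact h.trans hxa
    · exact h.trans hxβ.le
  have hBK0 := BK_nonneg G w c hw0 k
  have hBK : BK G w c k ≤ 2 * κ * kT * Mk G w c k := by
    have h1 := BK_le G w c hw0 a β τ κ S.lo N.β_pos N.τ_nonneg N.βa N.κ1 N.κ0 hmis S.own k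
    have h2 := TK_le G w c hw0 a τ HH kT ha S.lo hmis N.massT N.kT0 N.kT1 k
    have h3 := mul_le_mul_of_nonneg_left h2 (by have := N.κ0; linarith : 0 ≤ 2 * κ)
    linarith
  have hMk0 := Mk_nonneg G w c hw0 k
  have hWk0 := Wk_nonneg G w c hw0 k
  have hBc0 : 0 ≤ BK G w c k / x := div_nonneg hBK0 hπ.le
  obtain ⟨b1, b2, b3⟩ := local3 hw0 N S hmis z
  rw [← hk] at b1 b3
  have b0 := bz_nonneg G w c hw0 z
  have m0 := mis_nonneg G w c hw0 z
  have hm := hmis z
  have hdz := deg_eq G w c z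
  rw [hdeg z, idl_eq_idp, ← hk] at hdz
  have hid := (idp_bounds (cl w c) hx k).1
  rw [← hxk] at hid
  have hsq := S.sq
  have hsq0 : 0 ≤ (x - 1 / 6) ^ 2 := sq_nonneg _
  have hR : 2 / 7 / 36 - ε + 2 / 3 * (x - 1 / 6) - 2 * S0 ≤ t - idp (cl w c) k := by
    linarith
  -- the bound at the mass `x`
  set m := mis G w c z with hmd
  set M := Mk G w c k with hMd
  set W := Wk G w c k with hWd
  have h3M : 3 * M ≤ μ := by have := Mk_le G w c hw0 k; linarith
  have h6M : 3 * W + 6 * M ≤ 2 * μ := by have := Wk_le G w c hw0 k; linarith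
  have L1 := own_end hd O1 m M W m0 hm hMk0 hWk0 h3M h6M
  have L2 := own_end hd O2 m M W m0 hm hMk0 hWk0 h3M h6M
  set L : ℝ → ℝ := fun X => (2 * β' - 3 / 2 * X) * (2 / 7 / 36 - ε + 2 / 3 * (X - 1 / 6) -
      2 * S0 + m - (β * kT / a + τ / (4 * a * μs)) * m - (τ / (4 * q * (3 * a - 2 * q)) * m +
        1 / (3 * a - 2 * q) * W)) -
      (2 * β' - X) * (β * kT / (2 * a) * m + 1 / a * M) - 2 * (X - β') * (d + d ^ 2) -
      (3 - 2 * β' / q) * (2 * κ * kT * M) with hL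
  have L1' : 0 < L xl := L1
  have L2' : 0 < L q := L2
  have hLx : 0 < L x := by
    have e : (q - xl) * L x = (q - x) * L xl + (x - xl) * L q +
        (q - xl) * ((x - xl) * (q - x)) := by
      simp only [hL]; ring
    have k1 : 0 < (q - xl) * L x := by
      rw [e]
      have a1 : 0 ≤ (q - xl) * ((x - xl) * (q - x)) :=
        mul_nonneg (by linarith) (mul_nonneg (by linarith) (by linarith))
      rcases hxq'.lt_or_eq with h | h
      · have a2 : 0 < (q - x) * L xl := mul_pos (by linarith) L1'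
        have a3 : 0 ≤ (x - xl) * L q := mul_nonneg (by linarith) L2'.le
        linarith
      · have a2 : 0 < (x - xl) * L q := mul_pos (by linarith) L2'
        have a3 : 0 ≤ (q - x) * L xl := mul_nonneg (by linarith) L1'.le
        linarith
    exact (mul_pos_iff_of_pos_left (by linarith)).1 k1
  have hinn : inn G w c k z = t - idp (cl w c) k + m - 2 * bz G w c z -
      btw G w c z - gm G w c z := by
    unfold bad at hdz
    linarith
  have hp1 : 0 < 2 * β' - 3 / 2 * x := by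
    have := O2.p_pos
    linarith
  have hp2 : 0 ≤ 2 * β' - x := by linarith
  have hβ'0 : 0 < β' := by linarith
  -- the coefficient of the own mass
  have hc3 : 3 - 2 * β' / x ≤ 3 - 2 * β' / q := by
    have : 2 * β' / q ≤ 2 * β' / x := div_le_div_of_nonneg_left (by linarith) hπ hxq'
    linarith
  have hc30 : 0 ≤ 3 - 2 * β' / x := by
    have : 2 * β' / x ≤ 3 := by
      rw [div_le_iff₀ hπ]; linarith
    linarith
  have q1 : (3 - 2 * β' / x) * BK G w c k ≤ (3 - 2 * β' / q) * (2 * κ * kT * M) :=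
    mul_le_mul hc3 hBK hBK0 (hc30.trans hc3)
  have q2 : (2 * β' - 3 / 2 * x) * (2 / 7 / 36 - ε + 2 / 3 * (x - 1 / 6) - 2 * S0 + m -
      (β * kT / a + τ / (4 * a * μs)) * m - (τ / (4 * q * (3 * a - 2 * q)) * m +
        1 / (3 * a - 2 * q) * W)) ≤ (2 * β' - 3 / 2 * x) * (t - idp (cl w c) k + m -
      btw G w c z - gm G w c z) := mul_le_mul_of_nonneg_left (by linarith) hp1.le
  have q3 : (2 * β' - x) * bz G w c z ≤ (2 * β' - x) * (β * kT / (2 * a) * m + 1 / a * M) :=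
    mul_le_mul_of_nonneg_left b1 hp2
  have hLx' : 0 < (2 * β' - 3 / 2 * x) * (t - idp (cl w c) k + m -
      btw G w c z - gm G w c z) - (2 * β' - x) * bz G w c z - 2 * (x - β') * (d + d ^ 2) -
      (3 - 2 * β' / x) * BK G w c k := by
    simp only [hL] at hLx
    linarith
  have hmain : 0 < (2 * β' - 3 / 2 * x) * inn G w c k z - 2 * (x - β') * bz G w c z -
      2 * (x - β') * (d + d ^ 2) - (3 - 2 * β' / x) * BK G w c k := by
    rw [hinn]
    linarith
  have hdd : 0 ≤ d + d ^ 2 := by positivity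
  have hin : 0 < inn G w c k z := by
    have h1 : 0 ≤ 2 * (x - β') * bz G w c z := mul_nonneg (by linarith) b0
    have h2 : 0 ≤ 2 * (x - β') * (d + d ^ 2) := mul_nonneg (by linarith) hdd
    have h3 : 0 ≤ (3 - 2 * β' / x) * BK G w c k := mul_nonneg hc30 hBK0
    have h4 : 0 < (2 * β' - 3 / 2 * x) * inn G w c k z := by linarith
    exact (mul_pos_iff_of_pos_left hp1).1 h4
  set σ : ℝ := 1 - β' / x with hσ
  have hσ0 : 0 ≤ σ := by
    have : β' / x ≤ 1 := by rw [div_le_iff₀ hπ]; linarith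
    linarith
  have hσ1 : σ ≤ 1 / 2 := by
    have : 1 / 2 ≤ β' / x := by rw [le_div_iff₀ hπ]; linarith
    linarith
  have hfin := own_le3 G w c hw0 hcnd k z r hk.symm hπ σ (d + d ^ 2) hσ0 hσ1 hdd hin
    (fun y v hy hv => inn_exchange G w c hw k y v d hd0 hd1 (by rw [hval]; linarith)
      (by rw [hdeg v, hval]) hv) (by
      have e1 : x * (2 * σ * (inn G w c k z + bz G w c z + 2 * (BK G w c k / x) +
          (d + d ^ 2)) + (1 - 2 * σ) * (BK G w c k / x)) = 2 * (x - β') *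
          (inn G w c k z + bz G w c z + (d + d ^ 2)) + (3 - 2 * β' / x) * BK G w c k := by
        rw [hσ]
        field_simp
        ring
      have e2 : x * (2 * σ * (inn G w c k z + bz G w c z + 2 * (BK G w c k / x) +
          (d + d ^ 2)) + (1 - 2 * σ) * (BK G w c k / x)) < x * (inn G w c k z / 2) := by
        rw [e1]; linarith
      exact lt_of_mul_lt_mul_left e2 hπ.le)
  refine hfin.trans (le_of_eq ?_)
  rw [hσ, ← hxk]
  field_simp
  ring

/-- the polynomial inequality in a larger box -/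
theorem Tb_slack80 (r : ℝ) (hr : 0 ≤ r) (hr' : r ≤ 1 / 3) (x : Fin 6 → ℝ) (hx : ∑ i, x i = 1)
    (h : ∀ i, |x i - 1 / 6| ≤ 1 / 80) :
    Tb x + r * ∑ i, x i ^ 3 ≤ (10 + r) / 36 - 16 / 25 * ∑ i, (x i - 1 / 6) ^ 2 := by
  rw [Tb_eq]
  simp only [Fin.sum_univ_six] at hx ⊢
  generalize hy0 : x 0 - 1 / 6 = y0 at *
  generalize hy1 : x 1 - 1 / 6 = y1 at *
  generalize hy2 : x 2 - 1 / 6 = y2 at *
  generalize hy3 : x 3 - 1 / 6 = y3 at *
  generalize hy4 : x 4 - 1 / 6 = y4 at *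
  generalize hy5 : x 5 - 1 / 6 = y5 at *
  have b0 : |y0| ≤ 1 / 80 := hy0 ▸ h 0
  have b1 : |y1| ≤ 1 / 80 := hy1 ▸ h 1
  have b2 : |y2| ≤ 1 / 80 := hy2 ▸ h 2
  have b3 : |y3| ≤ 1 / 80 := hy3 ▸ h 3
  have b4 : |y4| ≤ 1 / 80 := hy4 ▸ h 4
  have b5 : |y5| ≤ 1 / 80 := hy5 ▸ h 5
  have x0 : x 0 = 1 / 6 + y0 := by linarith
  have x1 : x 1 = 1 / 6 + y1 := by linarith
  have x2 : x 2 = 1 / 6 + y2 := by linarith
  have x3 : x 3 = 1 / 6 + y3 := by linarith
  have x4 : x 4 = 1 / 6 + y4 := by linarith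
  have x5 : x 5 = 1 / 6 + y5 := by linarith
  rw [x0, x1, x2, x3, x4, x5] at hx ⊢
  have hs : y5 = -(y0 + y1 + y2 + y3 + y4) := by linarith
  have pl : ∀ a b c : ℝ, |c| ≤ 1 / 80 → a * b * c ≤ 1 / 80 * ((a ^ 2 + b ^ 2) / 2) := by
    intro a b c hc
    obtain ⟨h1, h2⟩ := abs_le.1 hc
    nlinarith [sq_nonneg (a - b), sq_nonneg (a + b), mul_nonneg (sub_nonneg.2 h2)
      (sq_nonneg (a + b)), mul_nonneg (by linarith : 0 ≤ 1 / 80 + c) (sq_nonneg (a - b))]
  -- cubic terms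
  have c1 := pl y0 y1 y2 b2
  have c2 := pl y0 y1 y3 b3
  have c3 := pl y0 y2 y4 b4
  have c4 := pl y0 y3 y5 b5
  have c5 := pl y4 y5 y0 b0
  have c6 := pl y2 y5 y1 b1
  have c7 := pl y1 y3 y4 b4
  have c8 := pl y4 y5 y1 b1
  have c9 := pl y2 y4 y3 b3
  have c10 := pl y3 y5 y2 b2
  have d0 := pl y0 y0 y0 b0
  have d1 := pl y1 y1 y1 b1
  have d2 := pl y2 y2 y2 b2
  have d3 := pl y3 y3 y3 b3
  have d4 := pl y4 y4 y4 b4
  have d5 := pl y5 y5 y5 b5
  have hQ : 0 ≤ y0 ^ 2 + y1 ^ 2 + y2 ^ 2 + y3 ^ 2 + y4 ^ 2 + y5 ^ 2 := by positivity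
  have hd : r * (y0 * y0 * y0 + y1 * y1 * y1 + y2 * y2 * y2 + y3 * y3 * y3 + y4 * y4 * y4 +
      y5 * y5 * y5) ≤ 1 / 240 * (y0 ^ 2 + y1 ^ 2 + y2 ^ 2 + y3 ^ 2 + y4 ^ 2 + y5 ^ 2) := by
    have h1 : y0 * y0 * y0 + y1 * y1 * y1 + y2 * y2 * y2 + y3 * y3 * y3 + y4 * y4 * y4 +
      y5 * y5 * y5 ≤ 1 / 80 * (y0 ^ 2 + y1 ^ 2 + y2 ^ 2 + y3 ^ 2 + y4 ^ 2 + y5 ^ 2) := by
      linarith
    have h2 : 0 ≤ 1 / 80 * (y0 ^ 2 + y1 ^ 2 + y2 ^ 2 + y3 ^ 2 + y4 ^ 2 + y5 ^ 2) := by
      positivity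
    calc _ ≤ r * (1 / 80 * (y0 ^ 2 + y1 ^ 2 + y2 ^ 2 + y3 ^ 2 + y4 ^ 2 + y5 ^ 2)) :=
          mul_le_mul_of_nonneg_left h1 hr
      _ ≤ 1 / 3 * (1 / 80 * (y0 ^ 2 + y1 ^ 2 + y2 ^ 2 + y3 ^ 2 + y4 ^ 2 + y5 ^ 2)) :=
          mul_le_mul_of_nonneg_right hr' h2
      _ = _ := by ring
  have hq : r / 2 * (y0 ^ 2 + y1 ^ 2 + y2 ^ 2 + y3 ^ 2 + y4 ^ 2 + y5 ^ 2) ≤
      1 / 6 * (y0 ^ 2 + y1 ^ 2 + y2 ^ 2 + y3 ^ 2 + y4 ^ 2 + y5 ^ 2) := by
    refine mul_le_mul_of_nonneg_right (by linarith) (by positivity)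
  have key : 6 * ((1 / 6 + y0) * (1 / 6 + y1) * (1 / 6 + y2) +
      (1 / 6 + y0) * (1 / 6 + y1) * (1 / 6 + y3) + (1 / 6 + y0) * (1 / 6 + y2) * (1 / 6 + y4) +
      (1 / 6 + y0) * (1 / 6 + y3) * (1 / 6 + y5) + (1 / 6 + y0) * (1 / 6 + y4) * (1 / 6 + y5) +
      (1 / 6 + y1) * (1 / 6 + y2) * (1 / 6 + y5) + (1 / 6 + y1) * (1 / 6 + y3) * (1 / 6 + y4) +
      (1 / 6 + y1) * (1 / 6 + y4) * (1 / 6 + y5) + (1 / 6 + y2) * (1 / 6 + y3) * (1 / 6 + y4) +
      (1 / 6 + y2) * (1 / 6 + y3) * (1 / 6 + y5)) +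
      r * ((1 / 6 + y0) ^ 3 + (1 / 6 + y1) ^ 3 + (1 / 6 + y2) ^ 3 + (1 / 6 + y3) ^ 3 +
      (1 / 6 + y4) ^ 3 + (1 / 6 + y5) ^ 3) = (10 + r) / 36 -
      (y0 ^ 2 + y1 ^ 2 + y2 ^ 2 + y3 ^ 2 + y4 ^ 2 + y5 ^ 2) +
      r / 2 * (y0 ^ 2 + y1 ^ 2 + y2 ^ 2 + y3 ^ 2 + y4 ^ 2 + y5 ^ 2) +
      6 * (y0 * y1 * y2 + y0 * y1 * y3 + y0 * y2 * y4 + y0 * y3 * y5 + y4 * y5 * y0 +
        y2 * y5 * y1 + y1 * y3 * y4 + y4 * y5 * y1 + y2 * y4 * y3 + y3 * y5 * y2) +
      r * (y0 * y0 * y0 + y1 * y1 * y1 + y2 * y2 * y2 + y3 * y3 * y3 + y4 * y4 * y4 +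
      y5 * y5 * y5) := by
    rw [hs]; ring
  rw [key]
  linarith [sq_nonneg y0, sq_nonneg y1, sq_nonneg y2, sq_nonneg y3, sq_nonneg y4, sq_nonneg y5]

/-- the second moment of the masses in a larger box -/
theorem S_pass80 (hw : IsW w) (t ε es : ℝ) (hdeg : ∀ z, deg G w z = t) (ht : rho - ε ≤ t)
    (hbox : ∀ i, |cl w c i - 1 / 6| ≤ 1 / 80) (hes : ∑ k, Ek G w c k ≤ es) (S' : ℝ)
    (n : 25 / 16 * (es + ε) ≤ S') : ∑ i, (cl w c i - 1 / 6) ^ 2 ≤ S' := by
  have hx : ∑ i, cl w c i = 1 := by rw [sum_cl, hw.sum_eq]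
  have r1 := rho_le_third
  have r2 := two_sevenths_le_rho
  have h1 := Tb_slack80 rho (by linarith) r1 (cl w c) hx hbox
  have h2 := total_eq (c := c) hw t hdeg
  have h3 : ∑ k, VV G w c k ≤ rho * ∑ k, cl w c k ^ 3 := by
    rw [mul_sum]
    exact sum_le_sum fun k _ => VV_le G w c hw.nonneg k
  linarith

theorem box_of_state {a q S0 β : ℝ} (S : State G w c a q S0 β) (h1 : 1 / 6 - 1 / 200 ≤ a)
    (h2 : q ≤ 1 / 6 + 1 / 200) (i : Fin 6) : |cl w c i - 1 / 6| ≤ 1 / 200 := by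
  rw [abs_le]
  constructor
  · have := S.lo i; linarith
  · have := S.hi i; linarith

end E3D

end K4m
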