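import Mathlib
import Pool.Agent.Lib.MP_392c14_co.End3C

/-!
# End game, third version: instances
-/

set_option autoImplicit false

namespace K4m

open Finset

/-- End game: missing degrees at most 127/10000, total missing mass at most 17/50000, masses of the
classes within 1/150 of 1/6. -/
theorem endgame3 {n : ℕ} (G : TG (Fin n)) (w : Fin n → ℝ) (c : Fin n → Fin 6) (hw : IsW w)
    (hpos : ∀ x, 0 < w x)
    (hdeg : ∀ x, deg G w x = val G w)
    (hmax : ∀ w', IsW w' → val G w' ≤ val G w) (hnear : rho - 1 / 10 ^ 12 ≤ val G w)
    (hsz : ∀ i, |cl w c i - 1 / 6| ≤ (1 / 150))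
    (hmis : ∀ z, mis G w c z ≤ (127 / 10000))
    (hM : MM G w c ≤ (17 / 50000)) : val G w ≤ (10 + rho) / 36 := by
  have hcnd := cnd_of_opt G w hw hpos hmax
  have S0 : State G w c (4 / 25) (13 / 75) (1 / 3750) (13 / 75) := start_state hw _ _ _ _ (1 /
      150) (by norm_num) (by norm_num) (by norm_num) (by norm_num) hsz
  have R1 := mkRoot3 (4 / 25) (127 / 10000) (13 / 75) (583 / 500) (7293 / 50000) (3423 / 125000)
      (583 / 5000) (66827 / 1000000) (21928363 / 50000000) (27573 / 25000) (by norm_num) (by
      norm_num) (by norm_num) (by norm_num) (by norm_num) (by norm_num) (by norm_num) (by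
      norm_num) (by norm_num) (by norm_num) (by norm_num) (by norm_num) (by norm_num) (by
      norm_num) (by norm_num) (by norm_num) (Or.inr (by norm_num)) (by norm_num) (by norm_num)
  have L1 : LocNum3 (4 / 25) (13 / 75) (127 / 10000) (13 / 75) (1063 / 25000) (535583 / 1000000)
      (38231 / 62500) (56673 / 200000) := ⟨mkLoc (4 / 25) (13 / 75) (127 / 10000) (13 / 75)
      (1063 / 25000) (535583 / 1000000) (38231 / 62500) (by norm_num) (by norm_num) (by
      norm_num) (by norm_num) (by norm_num) (by norm_num) (by norm_num) (by norm_num) (by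
      norm_num) (by norm_num) (by norm_num) (by norm_num) (by norm_num), by norm_num, by
      norm_num, by norm_num⟩
  have T1 : ∑ i, (cl w c i - 1 / 6) ^ 2 ≤ (1 / 3750) := S0.sq.trans (by norm_num)
  have S1 := size_pass3 hw _ (1 / 10 ^ 12) hdeg hnear (by norm_num) hmis _ hM L1 R1 S0 _ T1
      (3679 / 10000) (1411 / 6250000) (56667 / 500000000) (294667 / 1000000000) (73667 /
      1000000000) (1 / 150) (1 / 150) (810907 / 5000000) (1709417 / 10000000) (60353 /
      500000000) (by norm_num) (by norm_num) (by norm_num) (by norm_num) (by norm_num) (by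
      norm_num) (by norm_num) (by norm_num) (by norm_num) (by norm_num) (by norm_num) (by
      norm_num) (Or.inr ⟨(67279 / 15000000), by norm_num, by norm_num, by norm_num⟩)
  have L2 : LocNum3 (810907 / 5000000) (1709417 / 10000000) (127 / 10000) (13 / 75) (2093 /
      50000) (534489 / 1000000) (602421 / 1000000) (17983 / 62500) := ⟨mkLoc (810907 / 5000000)
      (1709417 / 10000000) (127 / 10000) (13 / 75) (2093 / 50000) (534489 / 1000000) (602421 /
      1000000) (by norm_num) (by norm_num) (by norm_num) (by norm_num) (by norm_num) (by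
      norm_num) (by norm_num) (by norm_num) (by norm_num) (by norm_num) (by norm_num) (by
      norm_num) (by norm_num), by norm_num, by norm_num, by norm_num⟩
  have O2a : OwnNum (810907 / 5000000) (1709417 / 10000000) (127 / 10000) (13 / 75) (60353 /
      500000000) (534489 / 1000000) (602421 / 1000000) (17983 / 62500) (1 / 10 ^ 12) (1 / 10 ^
      6) (17 / 50000) (41281 / 250000) (41281 / 250000) (279817 / 10000000) (853 / 500) (1427 /
      2500) := ⟨by norm_num, by norm_num, by norm_num, by norm_num, by norm_num, by norm_num, by
      norm_num⟩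
  have O2b : OwnNum (810907 / 5000000) (1709417 / 10000000) (127 / 10000) (13 / 75) (60353 /
      500000000) (534489 / 1000000) (602421 / 1000000) (17983 / 62500) (1 / 10 ^ 12) (1 / 10 ^
      6) (17 / 50000) (41281 / 250000) (1709417 / 10000000) (141737 / 5000000) (16701 / 10000)
      (1021 / 2000) := ⟨by norm_num, by norm_num, by norm_num, by norm_num, by norm_num, by
      norm_num, by norm_num⟩
  have S2 := own_pass3 hw _ (1 / 10 ^ 12) (1 / 10 ^ 6) hcnd rfl hdeg hnear (by norm_num) (by
      norm_num) (by norm_num) hmis _ hM L2 S1 (41281 / 250000) (41281 / 250000) (279817 /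
      10000000) (853 / 500) (1427 / 2500) (141737 / 5000000) (16701 / 10000) (1021 / 2000) O2a
      O2b (Or.inr (by norm_num)) (by norm_num) (by norm_num)
  have R3 := mkRoot3 (810907 / 5000000) (127 / 10000) (41281 / 250000) (537 / 500) (6607 /
      50000) (20729 / 1000000) (435457059 / 4000000000) (34487 / 500000) (2773627 / 6250000)
      (26147 / 25000) (by norm_num) (by norm_num) (by norm_num) (by norm_num) (by norm_num) (by
      norm_num) (by norm_num) (by norm_num) (by norm_num) (by norm_num) (by norm_num) (by
      norm_num) (by norm_num) (by norm_num) (by norm_num) (by norm_num) (Or.inr (by norm_num))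
      (by norm_num) (by norm_num)
  have L3 : LocNum3 (810907 / 5000000) (1709417 / 10000000) (127 / 10000) (41281 / 250000) (2093
      / 50000) (534489 / 1000000) (115509 / 200000) (142953 / 500000) := ⟨mkLoc (810907 /
      5000000) (1709417 / 10000000) (127 / 10000) (41281 / 250000) (2093 / 50000) (534489 /
      1000000) (115509 / 200000) (by norm_num) (by norm_num) (by norm_num) (by norm_num) (by
      norm_num) (by norm_num) (by norm_num) (by norm_num) (by norm_num) (by norm_num) (by
      norm_num) (by norm_num) (by norm_num), by norm_num, by norm_num, by norm_num⟩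
  have T3 : ∑ i, (cl w c i - 1 / 6) ^ 2 ≤ (60353 / 500000000) := S2.sq.trans (by norm_num)
  have S3 := size_pass3 hw _ (1 / 10 ^ 12) hdeg hnear (by norm_num) hmis _ hM L3 R3 S2 _ T3
      (2853 / 10000) (629 / 6250000) (56667 / 500000000) (54249 / 200000000) (4501 / 100000000)
      (67279 / 15000000) (128251 / 30000000) (819391 / 5000000) (1701117 / 10000000) (7121 /
      100000000) (by norm_num) (by norm_num) (by norm_num) (by norm_num) (by norm_num) (by
      norm_num) (by norm_num) (by norm_num) (by norm_num) (by norm_num) (by norm_num) (by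
      norm_num) (Or.inr ⟨(103351 / 30000000), by norm_num, by norm_num, by norm_num⟩)
  have L4 : LocNum3 (819391 / 5000000) (1701117 / 10000000) (127 / 10000) (41281 / 250000) (517
      / 12500) (533673 / 1000000) (57077 / 100000) (2893 / 10000) := ⟨mkLoc (819391 / 5000000)
      (1701117 / 10000000) (127 / 10000) (41281 / 250000) (517 / 12500) (533673 / 1000000)
      (57077 / 100000) (by norm_num) (by norm_num) (by norm_num) (by norm_num) (by norm_num) (by
      norm_num) (by norm_num) (by norm_num) (by norm_num) (by norm_num) (by norm_num) (by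
      norm_num) (by norm_num), by norm_num, by norm_num, by norm_num⟩
  have O4a : OwnNum (819391 / 5000000) (1701117 / 10000000) (127 / 10000) (41281 / 250000) (7121
      / 100000000) (533673 / 1000000) (57077 / 100000) (2893 / 10000) (1 / 10 ^ 12) (1 / 10 ^ 6)
      (17 / 50000) (80957 / 500000) (819391 / 5000000) (43567 / 2000000) (411 / 250) (5153 /
      10000) := ⟨by norm_num, by norm_num, by norm_num, by norm_num, by norm_num, by norm_num,
      by norm_num⟩
  have O4b : OwnNum (819391 / 5000000) (1701117 / 10000000) (127 / 10000) (41281 / 250000) (7121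
      / 100000000) (533673 / 1000000) (57077 / 100000) (2893 / 10000) (1 / 10 ^ 12) (1 / 10 ^ 6)
      (17 / 50000) (80957 / 500000) (1701117 / 10000000) (226511 / 10000000) (803 / 500) (907 /
      2000) := ⟨by norm_num, by norm_num, by norm_num, by norm_num, by norm_num, by norm_num, by
      norm_num⟩
  have S4 := own_pass3 hw _ (1 / 10 ^ 12) (1 / 10 ^ 6) hcnd rfl hdeg hnear (by norm_num) (by
      norm_num) (by norm_num) hmis _ hM L4 S3 (80957 / 500000) (819391 / 5000000) (43567 /
      2000000) (411 / 250) (5153 / 10000) (226511 / 10000000) (803 / 500) (907 / 2000) O4a O4b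
      (Or.inl (by norm_num)) (by norm_num) (by norm_num)
  have R5 := mkRoot3 (819391 / 5000000) (127 / 10000) (80957 / 500000) (26 / 25) (3143 / 25000)
      (10141 / 500000) (10652083 / 100000000) (68179 / 1000000) (22468181 / 50000000) (1281 /
      1250) (by norm_num) (by norm_num) (by norm_num) (by norm_num) (by norm_num) (by norm_num)
      (by norm_num) (by norm_num) (by norm_num) (by norm_num) (by norm_num) (by norm_num) (by
      norm_num) (by norm_num) (by norm_num) (by norm_num) (Or.inr (by norm_num)) (by norm_num)
      (by norm_num)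
  have L5 : LocNum3 (819391 / 5000000) (1701117 / 10000000) (127 / 10000) (80957 / 500000) (517
      / 12500) (533673 / 1000000) (280577 / 500000) (144269 / 500000) := ⟨mkLoc (819391 /
      5000000) (1701117 / 10000000) (127 / 10000) (80957 / 500000) (517 / 12500) (533673 /
      1000000) (280577 / 500000) (by norm_num) (by norm_num) (by norm_num) (by norm_num) (by
      norm_num) (by norm_num) (by norm_num) (by norm_num) (by norm_num) (by norm_num) (by
      norm_num) (by norm_num) (by norm_num), by norm_num, by norm_num, by norm_num⟩
  have T5 : ∑ i, (cl w c i - 1 / 6) ^ 2 ≤ (7121 / 100000000) := S4.sq.trans (by norm_num)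
  have S5 := size_pass3 hw _ (1 / 10 ^ 12) hdeg hnear (by norm_num) hmis _ hM L5 R5 S4 _ T5 (49
      / 200) (17 / 312500) (56667 / 500000000) (16441 / 62500000) (26857 / 1000000000) (41827 /
      15000000) (103351 / 30000000) (1645707 / 10000000) (424531 / 2500000) (29687 / 500000000)
      (by norm_num) (by norm_num) (by norm_num) (by norm_num) (by norm_num) (by norm_num) (by
      norm_num) (by norm_num) (by norm_num) (by norm_num) (by norm_num) (by norm_num) (Or.inr
      ⟨(23593 / 7500000), by norm_num, by norm_num, by norm_num⟩)
  have L6 : LocNum3 (1645707 / 10000000) (424531 / 2500000) (127 / 10000) (80957 / 500000) (1029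
      / 25000) (533349 / 1000000) (558473 / 1000000) (289923 / 1000000) := ⟨mkLoc (1645707 /
      10000000) (424531 / 2500000) (127 / 10000) (80957 / 500000) (1029 / 25000) (533349 /
      1000000) (558473 / 1000000) (by norm_num) (by norm_num) (by norm_num) (by norm_num) (by
      norm_num) (by norm_num) (by norm_num) (by norm_num) (by norm_num) (by norm_num) (by
      norm_num) (by norm_num) (by norm_num), by norm_num, by norm_num, by norm_num⟩
  have O6a : OwnNum (1645707 / 10000000) (424531 / 2500000) (127 / 10000) (80957 / 500000)
      (29687 / 500000000) (533349 / 1000000) (558473 / 1000000) (289923 / 1000000) (1 / 10 ^ 12)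
      (1 / 10 ^ 6) (17 / 50000) (39301 / 250000) (1645707 / 10000000) (199 / 10000) (15947 /
      10000) (877 / 2000) := ⟨by norm_num, by norm_num, by norm_num, by norm_num, by norm_num,
      by norm_num, by norm_num⟩
  have O6b : OwnNum (1645707 / 10000000) (424531 / 2500000) (127 / 10000) (80957 / 500000)
      (29687 / 500000000) (533349 / 1000000) (558473 / 1000000) (289923 / 1000000) (1 / 10 ^ 12)
      (1 / 10 ^ 6) (17 / 50000) (39301 / 250000) (424531 / 2500000) (103921 / 5000000) (15629 /
      10000) (1937 / 5000) := ⟨by norm_num, by norm_num, by norm_num, by norm_num, by norm_num,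
      by norm_num, by norm_num⟩
  have S6 := own_pass3 hw _ (1 / 10 ^ 12) (1 / 10 ^ 6) hcnd rfl hdeg hnear (by norm_num) (by
      norm_num) (by norm_num) hmis _ hM L6 S5 (39301 / 250000) (1645707 / 10000000) (199 /
      10000) (15947 / 10000) (877 / 2000) (103921 / 5000000) (15629 / 10000) (1937 / 5000) O6a
      O6b (Or.inl (by norm_num)) (by norm_num) (by norm_num)
  have R7 := mkRoot3 (1645707 / 10000000) (127 / 10000) (39301 / 250000) (503 / 500) (2471 /
      20000) (20729 / 1000000) (827790621 / 8000000000) (66071 / 1000000) (5659351 / 12500000)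
      (25093 / 25000) (by norm_num) (by norm_num) (by norm_num) (by norm_num) (by norm_num) (by
      norm_num) (by norm_num) (by norm_num) (by norm_num) (by norm_num) (by norm_num) (by
      norm_num) (by norm_num) (by norm_num) (by norm_num) (by norm_num) (Or.inr (by norm_num))
      (by norm_num) (by norm_num)
  have L7 : LocNum3 (1645707 / 10000000) (424531 / 2500000) (127 / 10000) (39301 / 250000) (1029
      / 25000) (533349 / 1000000) (272217 / 500000) (72187 / 250000) := ⟨mkLoc (1645707 /
      10000000) (424531 / 2500000) (127 / 10000) (39301 / 250000) (1029 / 25000) (533349 /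
      1000000) (272217 / 500000) (by norm_num) (by norm_num) (by norm_num) (by norm_num) (by
      norm_num) (by norm_num) (by norm_num) (by norm_num) (by norm_num) (by norm_num) (by
      norm_num) (by norm_num) (by norm_num), by norm_num, by norm_num, by norm_num⟩
  have E7 : ∑ k, Ek G w c k ≤ (51 / 6250000) := sum_Ek_le3 hw.nonneg R7 S6 hmis _ _ hM (by norm_num)
  have T7 : ∑ i, (cl w c i - 1 / 6) ^ 2 ≤ (10881 / 1000000000) := S_pass hw _ (1 / 10 ^ 12) _ hdeg hnear
    (box_of_state S6 (by norm_num) (by norm_num)) E7 _ (by norm_num)
  have S7 := size_pass3 hw _ (1 / 10 ^ 12) hdeg hnear (by norm_num) hmis _ hM L7 R7 S6 _ T7 (259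
      / 1250) (51 / 6250000) (56667 / 500000000) (257369 / 1000000000) (4917 / 250000000) (62879
      / 30000000) (23593 / 7500000) (1651709 / 10000000) (1695209 / 10000000) (10881 /
      1000000000) (by norm_num) (by norm_num) (by norm_num) (by norm_num) (by norm_num) (by
      norm_num) (by norm_num) (by norm_num) (by norm_num) (by norm_num) (by norm_num) (by
      norm_num) (Or.inl (by norm_num))
  have L8 : LocNum3 (1651709 / 10000000) (1695209 / 10000000) (127 / 10000) (39301 / 250000)
      (4099 / 100000) (533073 / 1000000) (27109 / 50000) (72487 / 250000) := ⟨mkLoc (1651709 /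
      10000000) (1695209 / 10000000) (127 / 10000) (39301 / 250000) (4099 / 100000) (533073 /
      1000000) (27109 / 50000) (by norm_num) (by norm_num) (by norm_num) (by norm_num) (by
      norm_num) (by norm_num) (by norm_num) (by norm_num) (by norm_num) (by norm_num) (by
      norm_num) (by norm_num) (by norm_num), by norm_num, by norm_num, by norm_num⟩
  have O8a : OwnNum (1651709 / 10000000) (1695209 / 10000000) (127 / 10000) (39301 / 250000)
      (10881 / 1000000000) (533073 / 1000000) (27109 / 50000) (72487 / 250000) (1 / 10 ^ 12) (1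
      / 10 ^ 6) (17 / 50000) (9559 / 62500) (1651709 / 10000000) (89357 / 5000000) (15431 /
      10000) (929 / 2500) := ⟨by norm_num, by norm_num, by norm_num, by norm_num, by norm_num,
      by norm_num, by norm_num⟩
  have O8b : OwnNum (1651709 / 10000000) (1695209 / 10000000) (127 / 10000) (39301 / 250000)
      (10881 / 1000000000) (533073 / 1000000) (27109 / 50000) (72487 / 250000) (1 / 10 ^ 12) (1
      / 10 ^ 6) (17 / 50000) (9559 / 62500) (1695209 / 10000000) (23461 / 1250000) (948 / 625)
      (3299 / 10000) := ⟨by norm_num, by norm_num, by norm_num, by norm_num, by norm_num, by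
      norm_num, by norm_num⟩
  have S8 := own_pass3 hw _ (1 / 10 ^ 12) (1 / 10 ^ 6) hcnd rfl hdeg hnear (by norm_num) (by
      norm_num) (by norm_num) hmis _ hM L8 S7 (9559 / 62500) (1651709 / 10000000) (89357 /
      5000000) (15431 / 10000) (929 / 2500) (23461 / 1250000) (948 / 625) (3299 / 10000) O8a O8b
      (Or.inl (by norm_num)) (by norm_num) (by norm_num)
  have RL := mkRoot3 (1651709 / 10000000) (127 / 10000) (9559 / 62500) 1 (609 / 5000) (15283 /
      500000) (1651709 / 16000000) (14533 / 250000) (22973543 / 50000000) 1 (by norm_num) (by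
      norm_num) (by norm_num) (by norm_num) (by norm_num) (by norm_num) (by norm_num) (by
      norm_num) (by norm_num) (by norm_num) (by norm_num) (by norm_num) (by norm_num) (by
      norm_num) (by norm_num) (by norm_num) (Or.inr (by norm_num)) (by norm_num) (by norm_num)
  exact last_pass3 hw hdeg hmis (box_of_state S8 (by norm_num) (by norm_num)) RL S8

end K4m
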