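import Mathlib
import Pool.Agent.Lib.MP_392c14_co.End3C

/-!
# End game, third version: instances
-/

set_option autoImplicit false

namespace K4m

open Finset

/-- End game: missing degrees at most 3/250, total missing mass at most 9/25000, masses of the
classes within 1/100 of 1/6. -/
theorem endgame3_box100 {n : ℕ} (G : TG (Fin n)) (w : Fin n → ℝ) (c : Fin n → Fin 6) (hw : IsW w)
    (hpos : ∀ x, 0 < w x)
    (hdeg : ∀ x, deg G w x = val G w)
    (hmax : ∀ w', IsW w' → val G w' ≤ val G w) (hnear : rho - 1 / 10 ^ 12 ≤ val G w)
    (hsz : ∀ i, |cl w c i - 1 / 6| ≤ (1 / 100))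
    (hmis : ∀ z, mis G w c z ≤ (3 / 250))
    (hM : MM G w c ≤ (9 / 25000)) : val G w ≤ (10 + rho) / 36 := by
  have hcnd := cnd_of_opt G w hw hpos hmax
  have S0 : State G w c (47 / 300) (53 / 300) (3 / 5000) (53 / 300) := start_state hw _ _ _ _ (1
      / 100) (by norm_num) (by norm_num) (by norm_num) (by norm_num) hsz
  have R1 := mkRoot3 (47 / 300) (3 / 250) (53 / 300) (149 / 125) (6667 / 50000) (20321 /
      1000000) (7003 / 60000) (36607 / 500000) (10615183 / 25000000) (3497 / 3125) (by norm_num)
      (by norm_num) (by norm_num) (by norm_num) (by norm_num) (by norm_num) (by norm_num) (by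
      norm_num) (by norm_num) (by norm_num) (by norm_num) (by norm_num) (by norm_num) (by
      norm_num) (by norm_num) (by norm_num) (Or.inr (by norm_num)) (by norm_num) (by norm_num)
  have L1 : LocNum3 (47 / 300) (53 / 300) (3 / 250) (53 / 300) (2049 / 50000) (106997 / 200000)
      (632373 / 1000000) (279371 / 1000000) := ⟨mkLoc (47 / 300) (53 / 300) (3 / 250) (53 / 300)
      (2049 / 50000) (106997 / 200000) (632373 / 1000000) (by norm_num) (by norm_num) (by
      norm_num) (by norm_num) (by norm_num) (by norm_num) (by norm_num) (by norm_num) (by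
      norm_num) (by norm_num) (by norm_num) (by norm_num) (by norm_num), by norm_num, by
      norm_num, by norm_num⟩
  have E1 : ∑ k, Ek G w c k ≤ (108 / 390625) := sum_Ek_le3 hw.nonneg R1 S0 hmis _ _ hM (by norm_num)
  have T1 : ∑ i, (cl w c i - 1 / 6) ^ 2 ≤ (432001 / 1000000000) := S_pass80 hw _ (1 / 10 ^ 12) _ hdeg hnear
    (fun i => (hsz i).trans (by norm_num)) E1 _ (by norm_num)
  have S1 := size_pass3 hw _ (1 / 10 ^ 12) hdeg hnear (by norm_num) hmis _ hM L1 R1 S0 _ T1
      (4207 / 10000) (108 / 390625) (3 / 25000) (363429 / 1000000000) (69593 / 500000000) (1 /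
      100) (1 / 100) (201091 / 1250000) (68959 / 400000) (100707 / 500000000) (by norm_num) (by
      norm_num) (by norm_num) (by norm_num) (by norm_num) (by norm_num) (by norm_num) (by
      norm_num) (by norm_num) (by norm_num) (by norm_num) (by norm_num) (Or.inr ⟨(21727 /
      3750000), by norm_num, by norm_num, by norm_num⟩)
  have L2 : LocNum3 (201091 / 1250000) (68959 / 400000) (3 / 250) (53 / 300) (497 / 12500)
      (532929 / 1000000) (9592 / 15625) (287783 / 1000000) := ⟨mkLoc (201091 / 1250000) (68959 /
      400000) (3 / 250) (53 / 300) (497 / 12500) (532929 / 1000000) (9592 / 15625) (by norm_num)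
      (by norm_num) (by norm_num) (by norm_num) (by norm_num) (by norm_num) (by norm_num) (by
      norm_num) (by norm_num) (by norm_num) (by norm_num) (by norm_num) (by norm_num), by
      norm_num, by norm_num, by norm_num⟩
  have O2a : OwnNum (201091 / 1250000) (68959 / 400000) (3 / 250) (53 / 300) (100707 /
      500000000) (532929 / 1000000) (9592 / 15625) (287783 / 1000000) (1 / 10 ^ 12) (1 / 10 ^ 6)
      (9 / 25000) (165657 / 1000000) (165657 / 1000000) (11979 / 400000) (17353 / 10000) (601 /
      1000) := ⟨by norm_num, by norm_num, by norm_num, by norm_num, by norm_num, by norm_num, by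
      norm_num⟩
  have O2b : OwnNum (201091 / 1250000) (68959 / 400000) (3 / 250) (53 / 300) (100707 /
      500000000) (532929 / 1000000) (9592 / 15625) (287783 / 1000000) (1 / 10 ^ 12) (1 / 10 ^ 6)
      (9 / 25000) (165657 / 1000000) (68959 / 400000) (9449 / 312500) (8467 / 5000) (5277 /
      10000) := ⟨by norm_num, by norm_num, by norm_num, by norm_num, by norm_num, by norm_num,
      by norm_num⟩
  have S2 := own_pass3 hw _ (1 / 10 ^ 12) (1 / 10 ^ 6) hcnd rfl hdeg hnear (by norm_num) (by
      norm_num) (by norm_num) hmis _ hM L2 S1 (165657 / 1000000) (165657 / 1000000) (11979 /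
      400000) (17353 / 10000) (601 / 1000) (9449 / 312500) (8467 / 5000) (5277 / 10000) O2a O2b
      (Or.inr (by norm_num)) (by norm_num) (by norm_num)
  have R3 := mkRoot3 (201091 / 1250000) (3 / 250) (165657 / 1000000) (271 / 250) (1469 / 12500)
      (4937 / 250000) (54495661 / 500000000) (13947 / 200000) (4393827 / 10000000) (13151 /
      12500) (by norm_num) (by norm_num) (by norm_num) (by norm_num) (by norm_num) (by norm_num)
      (by norm_num) (by norm_num) (by norm_num) (by norm_num) (by norm_num) (by norm_num) (by
      norm_num) (by norm_num) (by norm_num) (by norm_num) (Or.inr (by norm_num)) (by norm_num)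
      (by norm_num)
  have L3 : LocNum3 (201091 / 1250000) (68959 / 400000) (3 / 250) (165657 / 1000000) (497 /
      12500) (532929 / 1000000) (290091 / 500000) (142763 / 500000) := ⟨mkLoc (201091 / 1250000)
      (68959 / 400000) (3 / 250) (165657 / 1000000) (497 / 12500) (532929 / 1000000) (290091 /
      500000) (by norm_num) (by norm_num) (by norm_num) (by norm_num) (by norm_num) (by
      norm_num) (by norm_num) (by norm_num) (by norm_num) (by norm_num) (by norm_num) (by
      norm_num) (by norm_num), by norm_num, by norm_num, by norm_num⟩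
  have E3 : ∑ k, Ek G w c k ≤ (189 / 1562500) := sum_Ek_le3 hw.nonneg R3 S2 hmis _ _ hM (by norm_num)
  have T3 : ∑ i, (cl w c i - 1 / 6) ^ 2 ≤ (189001 / 1000000000) := S_pass80 hw _ (1 / 10 ^ 12) _ hdeg hnear
    (fun i => (hsz i).trans (by norm_num)) E3 _ (by norm_num)
  have S3 := size_pass3 hw _ (1 / 10 ^ 12) hdeg hnear (by norm_num) hmis _ hM L3 R3 S2 _ T3 (723
      / 2500) (189 / 1562500) (3 / 25000) (150103 / 500000000) (8109 / 125000000) (21727 /
      3750000) (6877 / 1200000) (163367 / 1000000) (1707061 / 10000000) (97903 / 1000000000) (by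
      norm_num) (by norm_num) (by norm_num) (by norm_num) (by norm_num) (by norm_num) (by
      norm_num) (by norm_num) (by norm_num) (by norm_num) (by norm_num) (by norm_num) (Or.inr
      ⟨(121183 / 30000000), by norm_num, by norm_num, by norm_num⟩)
  have L4 : LocNum3 (163367 / 1000000) (1707061 / 10000000) (3 / 250) (165657 / 1000000) (3907 /
      100000) (132949 / 250000) (28511 / 50000) (145257 / 500000) := ⟨mkLoc (163367 / 1000000)
      (1707061 / 10000000) (3 / 250) (165657 / 1000000) (3907 / 100000) (132949 / 250000) (28511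
      / 50000) (by norm_num) (by norm_num) (by norm_num) (by norm_num) (by norm_num) (by
      norm_num) (by norm_num) (by norm_num) (by norm_num) (by norm_num) (by norm_num) (by
      norm_num) (by norm_num), by norm_num, by norm_num, by norm_num⟩
  have O4a : OwnNum (163367 / 1000000) (1707061 / 10000000) (3 / 250) (165657 / 1000000) (97903
      / 1000000000) (132949 / 250000) (28511 / 50000) (145257 / 500000) (1 / 10 ^ 12) (1 / 10 ^
      6) (9 / 25000) (163397 / 1000000) (163397 / 1000000) (212339 / 10000000) (16587 / 10000)
      (1099 / 2000) := ⟨by norm_num, by norm_num, by norm_num, by norm_num, by norm_num, by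
      norm_num, by norm_num⟩
  have O4b : OwnNum (163367 / 1000000) (1707061 / 10000000) (3 / 250) (165657 / 1000000) (97903
      / 1000000000) (132949 / 250000) (28511 / 50000) (145257 / 500000) (1 / 10 ^ 12) (1 / 10 ^
      6) (9 / 25000) (163397 / 1000000) (1707061 / 10000000) (111629 / 5000000) (16139 / 10000)
      (2379 / 5000) := ⟨by norm_num, by norm_num, by norm_num, by norm_num, by norm_num, by
      norm_num, by norm_num⟩
  have S4 := own_pass3 hw _ (1 / 10 ^ 12) (1 / 10 ^ 6) hcnd rfl hdeg hnear (by norm_num) (by
      norm_num) (by norm_num) hmis _ hM L4 S3 (163397 / 1000000) (163397 / 1000000) (212339 /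
      10000000) (16587 / 10000) (1099 / 2000) (111629 / 5000000) (16139 / 10000) (2379 / 5000)
      O4a O4b (Or.inr (by norm_num)) (by norm_num) (by norm_num)
  have R5 := mkRoot3 (163367 / 1000000) (3 / 250) (163397 / 1000000) (263 / 250) (697 / 6250)
      (1987 / 100000) (42965521 / 400000000) (69001 / 1000000) (22366019 / 50000000) (12903 /
      12500) (by norm_num) (by norm_num) (by norm_num) (by norm_num) (by norm_num) (by norm_num)
      (by norm_num) (by norm_num) (by norm_num) (by norm_num) (by norm_num) (by norm_num) (by
      norm_num) (by norm_num) (by norm_num) (by norm_num) (Or.inr (by norm_num)) (by norm_num)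
      (by norm_num)
  have L5 : LocNum3 (163367 / 1000000) (1707061 / 10000000) (3 / 250) (163397 / 1000000) (3907 /
      100000) (132949 / 250000) (140853 / 250000) (290013 / 1000000) := ⟨mkLoc (163367 /
      1000000) (1707061 / 10000000) (3 / 250) (163397 / 1000000) (3907 / 100000) (132949 /
      250000) (140853 / 250000) (by norm_num) (by norm_num) (by norm_num) (by norm_num) (by
      norm_num) (by norm_num) (by norm_num) (by norm_num) (by norm_num) (by norm_num) (by
      norm_num) (by norm_num) (by norm_num), by norm_num, by norm_num, by norm_num⟩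
  have T5 : ∑ i, (cl w c i - 1 / 6) ^ 2 ≤ (97903 / 1000000000) := S4.sq.trans (by norm_num)
  have S5 := size_pass3 hw _ (1 / 10 ^ 12) hdeg hnear (by norm_num) hmis _ hM L5 R5 S4 _ T5
      (1227 / 5000) (117 / 1562500) (3 / 25000) (28023 / 100000000) (33961 / 1000000000) (9899 /
      3000000) (121183 / 30000000) (65679 / 400000) (425267 / 2500000) (2219 / 31250000) (by
      norm_num) (by norm_num) (by norm_num) (by norm_num) (by norm_num) (by norm_num) (by
      norm_num) (by norm_num) (by norm_num) (by norm_num) (by norm_num) (by norm_num) (Or.inr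
      ⟨(25801 / 7500000), by norm_num, by norm_num, by norm_num⟩)
  have L6 : LocNum3 (65679 / 400000) (425267 / 2500000) (3 / 250) (163397 / 1000000) (971 /
      25000) (531427 / 1000000) (140051 / 250000) (145837 / 500000) := ⟨mkLoc (65679 / 400000)
      (425267 / 2500000) (3 / 250) (163397 / 1000000) (971 / 25000) (531427 / 1000000) (140051 /
      250000) (by norm_num) (by norm_num) (by norm_num) (by norm_num) (by norm_num) (by
      norm_num) (by norm_num) (by norm_num) (by norm_num) (by norm_num) (by norm_num) (by
      norm_num) (by norm_num), by norm_num, by norm_num, by norm_num⟩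
  have O6a : OwnNum (65679 / 400000) (425267 / 2500000) (3 / 250) (163397 / 1000000) (2219 /
      31250000) (531427 / 1000000) (140051 / 250000) (145837 / 500000) (1 / 10 ^ 12) (1 / 10 ^
      6) (9 / 25000) (158087 / 1000000) (65679 / 400000) (98631 / 5000000) (4013 / 2500) (2293 /
      5000) := ⟨by norm_num, by norm_num, by norm_num, by norm_num, by norm_num, by norm_num, by
      norm_num⟩
  have O6b : OwnNum (65679 / 400000) (425267 / 2500000) (3 / 250) (163397 / 1000000) (2219 /
      31250000) (531427 / 1000000) (140051 / 250000) (145837 / 500000) (1 / 10 ^ 12) (1 / 10 ^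
      6) (9 / 25000) (158087 / 1000000) (425267 / 2500000) (207589 / 10000000) (3923 / 2500)
      (801 / 2000) := ⟨by norm_num, by norm_num, by norm_num, by norm_num, by norm_num, by
      norm_num, by norm_num⟩
  have S6 := own_pass3 hw _ (1 / 10 ^ 12) (1 / 10 ^ 6) hcnd rfl hdeg hnear (by norm_num) (by
      norm_num) (by norm_num) hmis _ hM L6 S5 (158087 / 1000000) (65679 / 400000) (98631 /
      5000000) (4013 / 2500) (2293 / 5000) (207589 / 10000000) (3923 / 2500) (801 / 2000) O6a
      O6b (Or.inl (by norm_num)) (by norm_num) (by norm_num)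
  have R7 := mkRoot3 (65679 / 400000) (3 / 250) (158087 / 1000000) (101 / 100) (10979 / 100000)
      (19141 / 1000000) (6633579 / 64000000) (13483 / 200000) (281747 / 625000) (5031 / 5000)
      (by norm_num) (by norm_num) (by norm_num) (by norm_num) (by norm_num) (by norm_num) (by
      norm_num) (by norm_num) (by norm_num) (by norm_num) (by norm_num) (by norm_num) (by
      norm_num) (by norm_num) (by norm_num) (by norm_num) (Or.inr (by norm_num)) (by norm_num)
      (by norm_num)
  have L7 : LocNum3 (65679 / 400000) (425267 / 2500000) (3 / 250) (158087 / 1000000) (971 /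
      25000) (531427 / 1000000) (5443 / 10000) (290441 / 1000000) := ⟨mkLoc (65679 / 400000)
      (425267 / 2500000) (3 / 250) (158087 / 1000000) (971 / 25000) (531427 / 1000000) (5443 /
      10000) (by norm_num) (by norm_num) (by norm_num) (by norm_num) (by norm_num) (by norm_num)
      (by norm_num) (by norm_num) (by norm_num) (by norm_num) (by norm_num) (by norm_num) (by
      norm_num), by norm_num, by norm_num, by norm_num⟩
  have E7 : ∑ k, Ek G w c k ≤ (9 / 625000) := sum_Ek_le3 hw.nonneg R7 S6 hmis _ _ hM (by norm_num)
  have T7 : ∑ i, (cl w c i - 1 / 6) ^ 2 ≤ (19201 / 1000000000) := S_pass hw _ (1 / 10 ^ 12) _ hdeg hnear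
    (box_of_state S6 (by norm_num) (by norm_num)) E7 _ (by norm_num)
  have S7 := size_pass3 hw _ (1 / 10 ^ 12) hdeg hnear (by norm_num) hmis _ hM L7 R7 S6 _ T7 (101
      / 500) (9 / 625000) (3 / 25000) (136439 / 500000000) (24621 / 1000000000) (2963 / 1200000)
      (25801 / 7500000) (82491 / 500000) (212159 / 1250000) (19201 / 1000000000) (by norm_num)
      (by norm_num) (by norm_num) (by norm_num) (by norm_num) (by norm_num) (by norm_num) (by
      norm_num) (by norm_num) (by norm_num) (by norm_num) (by norm_num) (Or.inl (by norm_num))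
  have L8 : LocNum3 (82491 / 500000) (212159 / 1250000) (3 / 250) (158087 / 1000000) (3863 /
      100000) (531089 / 1000000) (4331 / 8000) (29201 / 100000) := ⟨mkLoc (82491 / 500000)
      (212159 / 1250000) (3 / 250) (158087 / 1000000) (3863 / 100000) (531089 / 1000000) (4331 /
      8000) (by norm_num) (by norm_num) (by norm_num) (by norm_num) (by norm_num) (by norm_num)
      (by norm_num) (by norm_num) (by norm_num) (by norm_num) (by norm_num) (by norm_num) (by
      norm_num), by norm_num, by norm_num, by norm_num⟩
  have O8a : OwnNum (82491 / 500000) (212159 / 1250000) (3 / 250) (158087 / 1000000) (19201 /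
      1000000000) (531089 / 1000000) (4331 / 8000) (29201 / 100000) (1 / 10 ^ 12) (1 / 10 ^ 6)
      (9 / 25000) (152877 / 1000000) (82491 / 500000) (174511 / 10000000) (617 / 400) (3749 /
      10000) := ⟨by norm_num, by norm_num, by norm_num, by norm_num, by norm_num, by norm_num,
      by norm_num⟩
  have O8b : OwnNum (82491 / 500000) (212159 / 1250000) (3 / 250) (158087 / 1000000) (19201 /
      1000000000) (531089 / 1000000) (4331 / 8000) (29201 / 100000) (1 / 10 ^ 12) (1 / 10 ^ 6)
      (9 / 25000) (152877 / 1000000) (212159 / 1250000) (18487 / 1000000) (7569 / 5000) (3291 /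
      10000) := ⟨by norm_num, by norm_num, by norm_num, by norm_num, by norm_num, by norm_num,
      by norm_num⟩
  have S8 := own_pass3 hw _ (1 / 10 ^ 12) (1 / 10 ^ 6) hcnd rfl hdeg hnear (by norm_num) (by
      norm_num) (by norm_num) hmis _ hM L8 S7 (152877 / 1000000) (82491 / 500000) (174511 /
      10000000) (617 / 400) (3749 / 10000) (18487 / 1000000) (7569 / 5000) (3291 / 10000) O8a
      O8b (Or.inl (by norm_num)) (by norm_num) (by norm_num)
  have RL := mkRoot3 (82491 / 500000) (3 / 250) (152877 / 1000000) 1 (433 / 4000) (15131 /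
      500000) (82491 / 800000) (58281 / 1000000) (22940589 / 50000000) 1 (by norm_num) (by
      norm_num) (by norm_num) (by norm_num) (by norm_num) (by norm_num) (by norm_num) (by
      norm_num) (by norm_num) (by norm_num) (by norm_num) (by norm_num) (by norm_num) (by
      norm_num) (by norm_num) (by norm_num) (Or.inr (by norm_num)) (by norm_num) (by norm_num)
  exact last_pass3 hw hdeg hmis (box_of_state S8 (by norm_num) (by norm_num)) RL S8

end K4m
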