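import Mathlib
import Pool.Agent.Lib.MP_392c14_co.Lower
import Pool.Agent.Lib.MP_392c14_co.End3D
import Pool.Agent.Lib.MP_392c14_co.End3E

/-!
# Reduction of the Turan density of `K_4^-` to the existence of a good partition, third version
-/

set_option autoImplicit false

namespace K4m

/-- the situation of a counterexample: a weighted 3-graph which is optimal on its vertex set, as
close to the supremum as we like, with `2 / 7 < rho` -/
structure NearOpt {n : ℕ} (e : ℝ) (G : TG (Fin n)) (w : Fin n → ℝ) : Prop where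
  isW : IsW w
  pos : ∀ x, 0 < w x
  reg : ∀ x, deg G w x = val G w
  opt : ∀ w', IsW w' → val G w' ≤ val G w
  near : rho - e < val G w
  gap : (10 + rho) / 36 < val G w
  low : 2 / 7 < rho

/-- the two admissible forms of a good partition -/
def GoodPart {n : ℕ} (G : TG (Fin n)) (w : Fin n → ℝ) (c : Fin n → Fin 6) : Prop :=
  ((∀ i, |cl w c i - 1 / 6| ≤ 1 / 150) ∧ (∀ z, mis G w c z ≤ 127 / 10000) ∧
    MM G w c ≤ 17 / 50000) ∨
  ((∀ i, |cl w c i - 1 / 6| ≤ 1 / 100) ∧ (∀ z, mis G w c z ≤ 3 / 250) ∧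
    MM G w c ≤ 9 / 25000)

theorem rho_eq_of3 (e : ℝ) (he : 0 < e)
    (H : ∀ {n : ℕ} (G : TG (Fin n)) (w : Fin n → ℝ), NearOpt e G w →
      ∃ c : Fin n → Fin 6, GoodPart G w c) : rho = 2 / 7 := by
  have h0 := two_sevenths_le_rho
  refine le_antisymm ?_ h0
  by_contra hne
  push Not at hne
  set d : ℝ := min e (min (1 / 10 ^ 12) ((rho - 2 / 7) / 2)) with hd
  have hd0 : 0 < d := by
    refine lt_min he (lt_min (by norm_num) ?_)
    linarith
  obtain ⟨n, G, w, hw, hpos, hdeg, hmax, hnear⟩ := exists_near_opt d hd0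
  have e1 : d ≤ e := min_le_left _ _
  have e2 : d ≤ 1 / 10 ^ 12 := (min_le_right _ _).trans (min_le_left _ _)
  have e3 : d ≤ (rho - 2 / 7) / 2 := (min_le_right _ _).trans (min_le_right _ _)
  have hgap : (10 + rho) / 36 < val G w := by linarith
  obtain ⟨c, hc⟩ := H G w ⟨hw, hpos, hdeg, hmax, by linarith, hgap, hne⟩
  have hn : rho - 1 / 10 ^ 12 ≤ val G w := by linarith
  rcases hc with ⟨c1, c2, c3⟩ | ⟨c1, c2, c3⟩
  · have h := endgame3 G w c hw hpos hdeg hmax hn c1 c2 c3
    linarith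
  · have h := endgame3_box100 G w c hw hpos hdeg hmax hn c1 c2 c3
    linarith

theorem tendsto_of3 (e : ℝ) (he : 0 < e)
    (H : ∀ {n : ℕ} (G : TG (Fin n)) (w : Fin n → ℝ), NearOpt e G w →
      ∃ c : Fin n → Fin 6, GoodPart G w c) :
    Filter.Tendsto (fun n : ℕ => (exK4m n : ℝ) / ((n.choose 3 : ℕ) : ℝ)) Filter.atTop
      (nhds (2 / 7 : ℝ)) := by
  have h := tendsto_rho
  rw [rho_eq_of3 e he H] at h
  exact h

end K4m
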