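import Pool.Agent.Lib.MP_392c14_co.Purity2

/-!
# The Loomis-Whitney form of the purity lemma

With `r j ^ 6 = p j`: `∑ (3 r j ^ 5 - 2 r j ^ 6) ≤ 1`, and numerical consequences.
-/

set_option autoImplicit false

namespace K4m

open Finset

section Pur3

variable {V : Type} [Fintype V] (μ : Fin 6 → V → ℝ) (L : V → V → Bool)

/-- the entropy in one direction, with a tangent of the logarithm at `c` -/
theorem en_pInd_le (h0 : ∀ i v, 0 ≤ μ i v) (h1 : ∀ i, ∑ v, μ i v = 1) {c : ℝ} (hc : 0 < c)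
    (i j : Fin 6) : en μ i (pInd L j) ≤ c * PE μ (fun z => pQ μ L i j z * (1 - pInd L j z)) +
      (c - 1 - Real.log c) * pProb μ L j := by
  have a0 : PE μ (fun z => pInd L j z * Real.log (pInd L j z)) = 0 := by
    have : (fun z : Fin 6 → V => pInd L j z * Real.log (pInd L j z)) = fun _ => 0 := by
      funext z
      rcases pInd_cases L j z with ⟨-, h⟩ | ⟨-, h⟩ <;> rw [h]
      · rw [Real.log_one, mul_zero]
      · rw [zero_mul]
    rw [this, PE_const μ h1]
  have a1 : PE μ (fun z => pQ μ L i j z * pav μ i (pInd L j) z) =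
      PE μ (fun z => pQ μ L i j z * pInd L j z) :=
    PE_mul_pav μ h1 i (pInd L j) (pQ μ L i j) (pQ_update μ L i j)
  have a2 : (fun z => pQ μ L i j z * (1 - pInd L j z)) =
      fun z => pQ μ L i j z - pQ μ L i j z * pInd L j z := by
    funext z; ring
  have a3 : PE μ (fun z => pQ μ L i j z * (1 - pInd L j z)) =
      PE μ (fun z => pQ μ L i j z - pQ μ L i j z * pav μ i (pInd L j) z) := by
    rw [a2, PE_sub, PE_sub, a1]
  have a5 : pProb μ L j = PE μ (pav μ i (pInd L j)) := (PE_pav μ h1 i _).symm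
  unfold en
  rw [a0, a3, a5, zero_sub]
  have a4 : -PE μ (fun z => pav μ i (pInd L j) z * Real.log (pav μ i (pInd L j) z)) =
      PE μ (fun z => (-1) * (pav μ i (pInd L j) z * Real.log (pav μ i (pInd L j) z))) := by
    rw [PE_mul]; ring
  have a6 : c * PE μ (fun z => pQ μ L i j z - pQ μ L i j z * pav μ i (pInd L j) z) +
      (c - 1 - Real.log c) * PE μ (pav μ i (pInd L j)) =
      PE μ (fun z => c * (pQ μ L i j z - pQ μ L i j z * pav μ i (pInd L j) z) +
        (c - 1 - Real.log c) * pav μ i (pInd L j) z) := by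
    rw [← PE_mul, ← PE_mul, ← PE_add]
  rw [a4, a6]
  refine PE_mono μ h0 fun z => ?_
  set q := pav μ i (pInd L j) z with hq
  have hq0 : 0 ≤ q := pav_nonneg μ h0 i (fun z => pInd_nonneg L j z) z
  rcases hq0.eq_or_lt with h | h
  · rw [← h]
    have : pQ μ L i j z = 0 := by
      unfold pQ
      rw [← hq, ← h, if_neg (lt_irrefl 0)]
    rw [this]
    norm_num
  · have h5 : pQ μ L i j z = 1 := by
      unfold pQ
      rw [← hq, if_pos h]
    rw [h5, one_mul]
    have h6 := Real.log_le_sub_one_of_pos (show 0 < c / q by positivity)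
    rw [Real.log_div hc.ne' h.ne'] at h6
    have h7 := mul_le_mul_of_nonneg_left h6 h.le
    have h8 : q * (c / q - 1) = c - q := by field_simp
    rw [h8] at h7
    linarith

/-- one pentagon: `6 (r ^ 5 - r ^ 6)` is a lower bound for the boundary -/
theorem boundary_ge (h0 : ∀ i v, 0 ≤ μ i v) (h1 : ∀ i, ∑ v, μ i v = 1) (j : Fin 6) {r : ℝ}
    (hr : 0 ≤ r) (h6 : r ^ 6 = pProb μ L j) :
    6 * (r ^ 5 - r ^ 6) ≤ ∑ i, PE μ (fun z => pQ μ L i j z * (1 - pInd L j z)) := by
  rcases hr.eq_or_lt with h | h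
  · rw [← h]
    have : 0 ≤ ∑ i, PE μ (fun z => pQ μ L i j z * (1 - pInd L j z)) := by
      refine sum_nonneg fun i _ => PE_nonneg μ h0 fun z => ?_
      refine mul_nonneg ?_ (sub_nonneg.2 (pInd_le_one L j z))
      unfold pQ
      split_ifs <;> norm_num
    simpa using this
  · have ht := ent_tensor μ h0 h1 (f := pInd L j) (fun z => pInd_nonneg L j z)
    have a0 : PE μ (fun z => pInd L j z * Real.log (pInd L j z)) = 0 := by
      have : (fun z : Fin 6 → V => pInd L j z * Real.log (pInd L j z)) = fun _ => 0 := by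
        funext z
        rcases pInd_cases L j z with ⟨-, h⟩ | ⟨-, h⟩ <;> rw [h]
        · rw [Real.log_one, mul_zero]
        · rw [zero_mul]
      rw [this, PE_const μ h1]
    rw [a0, zero_sub] at ht
    have h2 := ht.trans (sum_le_sum fun i _ => en_pInd_le μ L h0 h1 h i j)
    rw [sum_add_distrib, ← mul_sum, sum_const, card_univ, Fintype.card_fin, nsmul_eq_mul] at h2
    have h3 : PE μ (pInd L j) = r ^ 6 := h6.symm
    have h4 : Real.log (r ^ 6) = 6 * Real.log r := by
      rw [Real.log_pow]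
      norm_num
    rw [h3, ← h6, h4] at h2
    push_cast at h2
    set U := ∑ i, PE μ (fun z => pQ μ L i j z * (1 - pInd L j z))
    have h5 : r * (6 * (r ^ 5 - r ^ 6)) ≤ r * U := by
      have e : r * (6 * (r ^ 5 - r ^ 6)) = 6 * r ^ 6 - 6 * r ^ 7 := by ring
      have e2 : 6 * ((r - 1 - Real.log r) * r ^ 6) =
        6 * r ^ 7 - 6 * r ^ 6 - 6 * Real.log r * r ^ 6 := by ring
      nlinarith [h2, e, e2]
    exact le_of_mul_le_mul_left h5 h

/-- the Loomis-Whitney form of the purity lemma -/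
theorem purity_LW (h0 : ∀ i v, 0 ≤ μ i v) (h1 : ∀ i, ∑ v, μ i v = 1)
    (hs : ∀ x y, L x y = L y x)
    (ht : ∀ x y t, ¬ (L x y = true ∧ L y t = true ∧ L x t = true))
    {r : Fin 6 → ℝ} (hr : ∀ j, 0 ≤ r j) (h6 : ∀ j, r j ^ 6 = pProb μ L j) :
    ∑ j, (3 * r j ^ 5 - 2 * r j ^ 6) ≤ 1 := by
  have e3 : ∑ j, ∑ i, PE μ (fun z => pQ μ L i j z * (1 - pInd L j z)) =
      PE μ (fun z => ∑ j, ∑ i, pQ μ L i j z * (1 - pInd L j z)) := by
    rw [PE_sum]
    exact sum_congr rfl fun j _ => (PE_sum μ univ _).symm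
  have e4 : PE μ (fun z => 2 * (1 - ∑ j, pInd L j z)) = 2 * (1 - ∑ j, pProb μ L j) := by
    rw [PE_mul, PE_sub, PE_const μ h1, PE_sum]
    rfl
  have e5 : ∑ j, ∑ i, PE μ (fun z => pQ μ L i j z * (1 - pInd L j z)) ≤
      2 * (1 - ∑ j, pProb μ L j) := by
    rw [← e4, e3]
    exact PE_mono μ h0 fun z => pur_point2 μ L hs ht z
  have e6 := (sum_le_sum fun j (_ : j ∈ univ) =>
    boundary_ge μ L h0 h1 j (hr j) (h6 j)).trans e5
  have e7 : ∑ j, pProb μ L j = ∑ j, r j ^ 6 := sum_congr rfl fun j _ => (h6 j).symm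
  rw [e7, ← mul_sum, sum_sub_distrib] at e6
  rw [sum_sub_distrib, ← mul_sum, ← mul_sum]
  linarith

theorem exists_root (h0 : ∀ i v, 0 ≤ μ i v) :
    ∃ r : Fin 6 → ℝ, (∀ j, 0 ≤ r j) ∧ ∀ j, r j ^ 6 = pProb μ L j := by
  refine ⟨fun j => pProb μ L j ^ ((1 : ℝ) / 6), fun j => Real.rpow_nonneg (pProb_nonneg μ L h0 j) _,
    fun j => ?_⟩
  beta_reduce
  rw [← Real.rpow_natCast, ← Real.rpow_mul (pProb_nonneg μ L h0 j)]
  norm_num

theorem root_cube (h0 : ∀ i v, 0 ≤ μ i v) (h1 : ∀ i, ∑ v, μ i v = 1)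
    {r : Fin 6 → ℝ} (hr : ∀ j, 0 ≤ r j) (h6 : ∀ j, r j ^ 6 = pProb μ L j) (k l : Fin 6)
    (hkl : k ≠ l) : r k ^ 3 + r l ^ 3 ≤ 1 := by
  have h := pProb_sqrt μ L h0 h1 hkl
  have e : ∀ j, Real.sqrt (pProb μ L j) = r j ^ 3 := by
    intro j
    rw [← h6 j, show r j ^ 6 = (r j ^ 3) ^ 2 by ring, Real.sqrt_sq (pow_nonneg (hr j) 3)]
  rwa [e, e] at h

theorem rootn_le {x y : ℝ} (hx : 0 ≤ x) (hy : 0 ≤ y) {n : ℕ} (hn : n ≠ 0) (h : x ^ n ≤ y ^ n) :
    x ≤ y := le_of_pow_le_pow_left₀ hn hy h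

theorem root_le_one (h0 : ∀ i v, 0 ≤ μ i v) (h1 : ∀ i, ∑ v, μ i v = 1)
    {r : Fin 6 → ℝ} (hr : ∀ j, 0 ≤ r j) (h6 : ∀ j, r j ^ 6 = pProb μ L j) (j : Fin 6) :
    r j ≤ 1 := by
  obtain ⟨k, hk⟩ : ∃ k : Fin 6, k ≠ j := exists_ne j
  have h := root_cube μ L h0 h1 hr h6 k j hk
  have h2 := pow_nonneg (hr k) 3
  refine rootn_le (hr j) (by norm_num) (n := 3) (by norm_num) ?_
  linarith

theorem erase_nonempty6 (j : Fin 6) : (univ.erase j : Finset (Fin 6)).Nonempty := by
  obtain ⟨k, hk⟩ : ∃ k : Fin 6, k ≠ j := exists_ne j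
  exact ⟨k, mem_erase.2 ⟨hk, mem_univ k⟩⟩

/-! ### the numerical part -/

theorem F5_mono {a r : ℝ} (ha : 0 ≤ a) (har : a ≤ r) (hr : r ≤ 1) :
    3 * a ^ 5 - 2 * a ^ 6 ≤ 3 * r ^ 5 - 2 * r ^ 6 := by
  have hr0 : 0 ≤ r := ha.trans har
  have e : 3 * r ^ 5 - 2 * r ^ 6 - (3 * a ^ 5 - 2 * a ^ 6) =
      (r - a) * (3 * (r ^ 4 + r ^ 3 * a + r ^ 2 * a ^ 2 + r * a ^ 3 + a ^ 4) -
        2 * (r ^ 5 + r ^ 4 * a + r ^ 3 * a ^ 2 + r ^ 2 * a ^ 3 + r * a ^ 4 + a ^ 5)) := by ring
  have t : ∀ x : ℝ, 0 ≤ x → r * x ≤ x := fun x _ => by nlinarith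
  have t1 := t (r ^ 4) (by positivity)
  have t2 := t (r ^ 3 * a) (by positivity)
  have t3 := t (r ^ 2 * a ^ 2) (by positivity)
  have t4 := t (r * a ^ 3) (by positivity)
  have t5 := t (a ^ 4) (by positivity)
  have t6 : a * a ^ 4 ≤ a ^ 4 := by nlinarith [pow_nonneg ha 4]
  have t7 : a ^ 4 ≤ r ^ 4 := pow_le_pow_left₀ ha har 4
  have t8 : 0 ≤ r ^ 3 * a := by positivity
  have t9 : 0 ≤ r ^ 2 * a ^ 2 := by positivity
  have t10 : 0 ≤ r * a ^ 3 := by positivity
  have key : 0 ≤ 3 * (r ^ 4 + r ^ 3 * a + r ^ 2 * a ^ 2 + r * a ^ 3 + a ^ 4) -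
        2 * (r ^ 5 + r ^ 4 * a + r ^ 3 * a ^ 2 + r ^ 2 * a ^ 3 + r * a ^ 4 + a ^ 5) := by
    have u1 : r * r ^ 4 = r ^ 5 := by ring
    have u2 : r * (r ^ 3 * a) = r ^ 4 * a := by ring
    have u3 : r * (r ^ 2 * a ^ 2) = r ^ 3 * a ^ 2 := by ring
    have u4 : r * (r * a ^ 3) = r ^ 2 * a ^ 3 := by ring
    have u6 : a * a ^ 4 = a ^ 5 := by ring
    rw [u1] at t1
    rw [u2] at t2
    rw [u3] at t3
    rw [u4] at t4
    rw [u6] at t6
    linarith
  have := mul_nonneg (sub_nonneg.2 har) key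
  linarith

theorem F5_nonneg {r : ℝ} (h : 0 ≤ r) (hr : r ≤ 1) : 0 ≤ 3 * r ^ 5 - 2 * r ^ 6 := by
  have := F5_mono le_rfl h hr
  norm_num at this ⊢
  linarith

theorem t5_le {r b w : ℝ} (hr : 0 ≤ r) (hrb : r ≤ b) (hw : w ≤ b) :
    r ^ 5 * (r - w) ≤ b ^ 5 * (b - w) := by
  have hb : 0 ≤ b := hr.trans hrb
  rcases le_total r w with h | h
  · have h1 : r ^ 5 * (r - w) ≤ 0 :=
      mul_nonpos_of_nonneg_of_nonpos (pow_nonneg hr 5) (by linarith)
    have h2 : 0 ≤ b ^ 5 * (b - w) := mul_nonneg (pow_nonneg hb 5) (by linarith)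
    linarith
  · exact mul_le_mul (pow_le_pow_left₀ hr hrb 5) (by linarith) (by linarith) (pow_nonneg hb 5)

variable (r : Fin 6 → ℝ)

theorem pur3_id {w : ℝ} (hw : 0 ≤ w) (hF : ∑ j, (3 * r j ^ 5 - 2 * r j ^ 6) ≤ 1) :
    (∑ k, r k ^ 6) * (3 - 2 * w) ≤ w + 3 * ∑ k, r k ^ 5 * (r k - w) := by
  have e : (∑ k, r k ^ 6) * (3 - 2 * w) =
      w * ∑ j, (3 * r j ^ 5 - 2 * r j ^ 6) + 3 * ∑ k, r k ^ 5 * (r k - w) := by
    rw [sum_mul, mul_sum, mul_sum, ← sum_add_distrib]
    exact sum_congr rfl fun k _ => by ring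
  rw [e]
  have := mul_le_mul_of_nonneg_left hF hw
  linarith

theorem pur3_fin {w S T : ℝ} (hw : 0 ≤ w) (hw1 : w < 3 / 2)
    (hF : ∑ j, (3 * r j ^ 5 - 2 * r j ^ 6) ≤ 1) (hT : ∑ k, r k ^ 5 * (r k - w) ≤ T)
    (hS : w + 3 * T ≤ S * (3 - 2 * w)) : ∑ k, r k ^ 6 ≤ S := by
  have h := pur3_id r hw hF
  have h2 : (∑ k, r k ^ 6) * (3 - 2 * w) ≤ S * (3 - 2 * w) := by linarith
  exact le_of_mul_le_mul_right h2 (by linarith)

theorem pur3_one {w S : ℝ} (hr : ∀ j, 0 ≤ r j) (hF : ∑ j, (3 * r j ^ 5 - 2 * r j ^ 6) ≤ 1)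
    (hb : ∀ k, r k ≤ w) (hw1 : w < 3 / 2) (hS : w ≤ S * (3 - 2 * w)) : ∑ k, r k ^ 6 ≤ S := by
  refine pur3_fin r ((hr 0).trans (hb 0)) hw1 hF (T := 0) ?_ (by linarith)
  exact sum_nonpos fun k _ =>
    mul_nonpos_of_nonneg_of_nonpos (pow_nonneg (hr k) 5) (by linarith [hb k])

theorem pur3_two {b c S : ℝ} (hr : ∀ j, 0 ≤ r j) (hF : ∑ j, (3 * r j ^ 5 - 2 * r j ^ 6) ≤ 1)
    {i j : Fin 6} (hi : ∀ k, k ≠ j → r k ≤ r i)
    (hb : r j ≤ b) (hbi : r i ≤ c) (hw1 : c < 3 / 2) (hcb : c ≤ b)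
    (hS : c + 3 * (b ^ 5 * (b - c)) ≤ S * (3 - 2 * c)) : ∑ k, r k ^ 6 ≤ S := by
  refine pur3_fin r ((hr i).trans hbi) hw1 hF (T := b ^ 5 * (b - c)) ?_ hS
  rw [← add_sum_erase univ _ (mem_univ j)]
  have h1 := t5_le (hr j) hb hcb
  have h2 : ∑ k ∈ univ.erase j, r k ^ 5 * (r k - c) ≤ 0 := by
    refine sum_nonpos fun k hk => mul_nonpos_of_nonneg_of_nonpos (pow_nonneg (hr k) 5) ?_
    linarith [hi k (ne_of_mem_erase hk)]
  linarith

theorem pur3_three {a b a2 b2 w S : ℝ} (hr : ∀ j, 0 ≤ r j) (hr1 : ∀ j, r j ≤ 1)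
    (hF : ∑ j, (3 * r j ^ 5 - 2 * r j ^ 6) ≤ 1) {i j : Fin 6} (hij : i ≠ j)
    (ha : a ≤ r j) (hb : r j ≤ b) (ha2 : a2 ≤ r i) (hb2 : r i ≤ b2)
    (a0 : 0 ≤ a) (a20 : 0 ≤ a2) (hw : 0 ≤ w) (hw1 : w < 3 / 2) (hwb2 : w ≤ b2) (hwb : w ≤ b)
    (h1 : 1 < (3 * w ^ 5 - 2 * w ^ 6) + (3 * a ^ 5 - 2 * a ^ 6) + (3 * a2 ^ 5 - 2 * a2 ^ 6))
    (hS : w + 3 * (b ^ 5 * (b - w) + b2 ^ 5 * (b2 - w)) ≤ S * (3 - 2 * w)) :
    ∑ k, r k ^ 6 ≤ S := by
  refine pur3_fin r hw hw1 hF (T := b ^ 5 * (b - w) + b2 ^ 5 * (b2 - w)) ?_ hS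
  have hi : i ∈ univ.erase j := mem_erase.2 ⟨hij, mem_univ i⟩
  rw [← add_sum_erase univ _ (mem_univ j), ← add_sum_erase _ _ hi]
  have g1 := t5_le (hr j) hb hwb
  have g2 := t5_le (hr i) hb2 hwb2
  have g3 : ∑ k ∈ (univ.erase j).erase i, r k ^ 5 * (r k - w) ≤ 0 := by
    refine sum_nonpos fun k hk => mul_nonpos_of_nonneg_of_nonpos (pow_nonneg (hr k) 5) ?_
    by_contra hcon
    push Not at hcon
    have hk' : w ≤ r k := by linarith
    have f1 := F5_mono hw hk' (hr1 k)
    have f2 := F5_mono a0 ha (hr1 j)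
    have f3 := F5_mono a20 ha2 (hr1 i)
    rw [← add_sum_erase univ _ (mem_univ j), ← add_sum_erase _ _ hi,
      ← add_sum_erase _ _ hk] at hF
    have f4 : 0 ≤ ∑ x ∈ ((univ.erase j).erase i).erase k, (3 * r x ^ 5 - 2 * r x ^ 6) :=
      sum_nonneg fun x _ => F5_nonneg (hr x) (hr1 x)
    linarith
  linarith

/-- if all the probabilities are at most `2 / 5`, then their sum is at most `57 / 100` -/
theorem purity_40s (h0 : ∀ i v, 0 ≤ μ i v) (h1 : ∀ i, ∑ v, μ i v = 1)
    (hs : ∀ x y, L x y = L y x)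
    (ht : ∀ x y t, ¬ (L x y = true ∧ L y t = true ∧ L x t = true))
    (hall : ∀ k, pProb μ L k ≤ 2 / 5) :
    ∑ k, pProb μ L k ≤ 57 / 100 := by
  obtain ⟨r, hr, h6⟩ := exists_root μ L h0
  have hF := purity_LW μ L h0 h1 hs ht hr h6
  have h3 := root_cube μ L h0 h1 hr h6
  have hr1 := root_le_one μ L h0 h1 hr h6
  rw [show ∑ k, pProb μ L k = ∑ k, r k ^ 6 from sum_congr rfl fun k _ => (h6 k).symm]
  obtain ⟨j, -, hj⟩ := exists_max_image univ r ⟨0, mem_univ 0⟩
  have hj' : ∀ k, r k ≤ r j := fun k => hj k (mem_univ k)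
  have hb : r j ≤ 1073 / 1250 := by
    refine rootn_le (hr j) (by norm_num) (n := 6) (by norm_num) ?_
    rw [h6 j]
    exact (hall j).trans (by norm_num)
  obtain ⟨i, hi, hi2⟩ := exists_max_image (univ.erase j) r (erase_nonempty6 j)
  have hij : i ≠ j := ne_of_mem_erase hi
  have hi' : ∀ k, k ≠ j → r k ≤ r i := fun k hk => hi2 k (mem_erase.2 ⟨hk, mem_univ k⟩)
  have hc := h3 j i hij.symm
  by_cases c0 : (4277 / 5000 : ℝ) ≤ r j
  · have hbi : r i ≤ 3603 / 5000 := by
      refine rootn_le (hr i) (by norm_num) (n := 3) (by norm_num) ?_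
      have := pow_le_pow_left₀ (by norm_num : (0 : ℝ) ≤ 4277 / 5000) c0 3
      norm_num at this ⊢
      linarith
    by_cases d0 : (3601 / 5000 : ℝ) ≤ r i
    · exact pur3_three r hr hr1 hF hij c0 hb d0 hbi (w := 353 / 625) (by norm_num) (by norm_num) (by norm_num) (by norm_num) (by norm_num)
        (by norm_num) (by norm_num) (by norm_num)
    replace hbi : r i ≤ 3601 / 5000 := (not_le.1 d0).le
    by_cases d1 : (1797 / 2500 : ℝ) ≤ r i
    · exact pur3_three r hr hr1 hF hij c0 hb d1 hbi (w := 1419 / 2500) (by norm_num) (by norm_num) (by norm_num) (by norm_num) (by norm_num)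
        (by norm_num) (by norm_num) (by norm_num)
    replace hbi : r i ≤ 1797 / 2500 := (not_le.1 d1).le
    by_cases d2 : (446 / 625 : ℝ) ≤ r i
    · exact pur3_three r hr hr1 hF hij c0 hb d2 hbi (w := 361 / 625) (by norm_num) (by norm_num) (by norm_num) (by norm_num) (by norm_num)
        (by norm_num) (by norm_num) (by norm_num)
    replace hbi : r i ≤ 446 / 625 := (not_le.1 d2).le
    by_cases d3 : (1737 / 2500 : ℝ) ≤ r i
    · exact pur3_three r hr hr1 hF hij c0 hb d3 hbi (w := 3043 / 5000) (by norm_num) (by norm_num) (by norm_num) (by norm_num) (by norm_num)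
        (by norm_num) (by norm_num) (by norm_num)
    replace hbi : r i ≤ 1737 / 2500 := (not_le.1 d3).le
    by_cases d4 : (3187 / 5000 : ℝ) ≤ r i
    · exact pur3_three r hr hr1 hF hij c0 hb d4 hbi (w := 841 / 1250) (by norm_num) (by norm_num) (by norm_num) (by norm_num) (by norm_num)
        (by norm_num) (by norm_num) (by norm_num)
    replace hbi : r i ≤ 3187 / 5000 := (not_le.1 d4).le
    exact pur3_two r hr hF hi' hb hbi (by norm_num) (by norm_num) (by norm_num)
  replace hb : r j ≤ 4277 / 5000 := (not_le.1 c0).le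
  by_cases c1 : (849 / 1000 : ℝ) ≤ r j
  · have hbi : r i ≤ 3647 / 5000 := by
      refine rootn_le (hr i) (by norm_num) (n := 3) (by norm_num) ?_
      have := pow_le_pow_left₀ (by norm_num : (0 : ℝ) ≤ 849 / 1000) c1 3
      norm_num at this ⊢
      linarith
    by_cases d0 : (1823 / 2500 : ℝ) ≤ r i
    · exact pur3_three r hr hr1 hF hij c1 hb d0 hbi (w := 2827 / 5000) (by norm_num) (by norm_num) (by norm_num) (by norm_num) (by norm_num)
        (by norm_num) (by norm_num) (by norm_num)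
    replace hbi : r i ≤ 1823 / 2500 := (not_le.1 d0).le
    by_cases d1 : (1821 / 2500 : ℝ) ≤ r i
    · exact pur3_three r hr hr1 hF hij c1 hb d1 hbi (w := 567 / 1000) (by norm_num) (by norm_num) (by norm_num) (by norm_num) (by norm_num)
        (by norm_num) (by norm_num) (by norm_num)
    replace hbi : r i ≤ 1821 / 2500 := (not_le.1 d1).le
    by_cases d2 : (453 / 625 : ℝ) ≤ r i
    · exact pur3_three r hr hr1 hF hij c1 hb d2 hbi (w := 2871 / 5000) (by norm_num) (by norm_num) (by norm_num) (by norm_num) (by norm_num)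
        (by norm_num) (by norm_num) (by norm_num)
    replace hbi : r i ≤ 453 / 625 := (not_le.1 d2).le
    by_cases d3 : (3549 / 5000 : ℝ) ≤ r i
    · exact pur3_three r hr hr1 hF hij c1 hb d3 hbi (w := 601 / 1000) (by norm_num) (by norm_num) (by norm_num) (by norm_num) (by norm_num)
        (by norm_num) (by norm_num) (by norm_num)
    replace hbi : r i ≤ 3549 / 5000 := (not_le.1 d3).le
    by_cases d4 : (817 / 1250 : ℝ) ≤ r i
    · exact pur3_three r hr hr1 hF hij c1 hb d4 hbi (w := 3349 / 5000) (by norm_num) (by norm_num) (by norm_num) (by norm_num) (by norm_num)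
        (by norm_num) (by norm_num) (by norm_num)
    replace hbi : r i ≤ 817 / 1250 := (not_le.1 d4).le
    exact pur3_two r hr hF hi' hb hbi (by norm_num) (by norm_num) (by norm_num)
  replace hb : r j ≤ 849 / 1000 := (not_le.1 c1).le
  by_cases c2 : (4183 / 5000 : ℝ) ≤ r j
  · have hbi : r i ≤ 466 / 625 := by
      refine rootn_le (hr i) (by norm_num) (n := 3) (by norm_num) ?_
      have := pow_le_pow_left₀ (by norm_num : (0 : ℝ) ≤ 4183 / 5000) c2 3
      norm_num at this ⊢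
      linarith
    by_cases d0 : (3727 / 5000 : ℝ) ≤ r i
    · exact pur3_three r hr hr1 hF hij c2 hb d0 hbi (w := 2833 / 5000) (by norm_num) (by norm_num) (by norm_num) (by norm_num) (by norm_num)
        (by norm_num) (by norm_num) (by norm_num)
    replace hbi : r i ≤ 3727 / 5000 := (not_le.1 d0).le
    by_cases d1 : (3721 / 5000 : ℝ) ≤ r i
    · exact pur3_three r hr hr1 hF hij c2 hb d1 hbi (w := 1423 / 2500) (by norm_num) (by norm_num) (by norm_num) (by norm_num) (by norm_num)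
        (by norm_num) (by norm_num) (by norm_num)
    replace hbi : r i ≤ 3721 / 5000 := (not_le.1 d1).le
    by_cases d2 : (3689 / 5000 : ℝ) ≤ r i
    · exact pur3_three r hr hr1 hF hij c2 hb d2 hbi (w := 2913 / 5000) (by norm_num) (by norm_num) (by norm_num) (by norm_num) (by norm_num)
        (by norm_num) (by norm_num) (by norm_num)
    replace hbi : r i ≤ 3689 / 5000 := (not_le.1 d2).le
    by_cases d3 : (3517 / 5000 : ℝ) ≤ r i
    · exact pur3_three r hr hr1 hF hij c2 hb d3 hbi (w := 3189 / 5000) (by norm_num) (by norm_num) (by norm_num) (by norm_num) (by norm_num)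
        (by norm_num) (by norm_num) (by norm_num)
    replace hbi : r i ≤ 3517 / 5000 := (not_le.1 d3).le
    exact pur3_two r hr hF hi' hb hbi (by norm_num) (by norm_num) (by norm_num)
  replace hb : r j ≤ 4183 / 5000 := (not_le.1 c2).le
  by_cases c3 : (4081 / 5000 : ℝ) ≤ r j
  · have hbi : r i ≤ 77 / 100 := by
      refine rootn_le (hr i) (by norm_num) (n := 3) (by norm_num) ?_
      have := pow_le_pow_left₀ (by norm_num : (0 : ℝ) ≤ 4081 / 5000) c3 3
      norm_num at this ⊢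
      linarith
    by_cases d0 : (961 / 1250 : ℝ) ≤ r i
    · exact pur3_three r hr hr1 hF hij c3 hb d0 hbi (w := 57 / 100) (by norm_num) (by norm_num) (by norm_num) (by norm_num) (by norm_num)
        (by norm_num) (by norm_num) (by norm_num)
    replace hbi : r i ≤ 961 / 1250 := (not_le.1 d0).le
    by_cases d1 : (759 / 1000 : ℝ) ≤ r i
    · exact pur3_three r hr hr1 hF hij c3 hb d1 hbi (w := 2957 / 5000) (by norm_num) (by norm_num) (by norm_num) (by norm_num) (by norm_num)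
        (by norm_num) (by norm_num) (by norm_num)
    replace hbi : r i ≤ 759 / 1000 := (not_le.1 d1).le
    by_cases d2 : (341 / 500 : ℝ) ≤ r i
    · exact pur3_three r hr hr1 hF hij c3 hb d2 hbi (w := 1741 / 2500) (by norm_num) (by norm_num) (by norm_num) (by norm_num) (by norm_num)
        (by norm_num) (by norm_num) (by norm_num)
    replace hbi : r i ≤ 341 / 500 := (not_le.1 d2).le
    exact pur3_two r hr hF hi' hb hbi (by norm_num) (by norm_num) (by norm_num)
  replace hb : r j ≤ 4081 / 5000 := (not_le.1 c3).le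
  by_cases c4 : (799 / 1000 : ℝ) ≤ r j
  · have hbi : r i ≤ 1971 / 2500 := by
      refine rootn_le (hr i) (by norm_num) (n := 3) (by norm_num) ?_
      have := pow_le_pow_left₀ (by norm_num : (0 : ℝ) ≤ 799 / 1000) c4 3
      norm_num at this ⊢
      linarith
    by_cases d0 : (829 / 1250 : ℝ) ≤ r i
    · exact pur3_three r hr hr1 hF hij c4 hb d0 hbi (w := 3677 / 5000) (by norm_num) (by norm_num) (by norm_num) (by norm_num) (by norm_num)
        (by norm_num) (by norm_num) (by norm_num)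
    replace hbi : r i ≤ 829 / 1250 := (not_le.1 d0).le
    exact pur3_two r hr hF hi' hb hbi (by norm_num) (by norm_num) (by norm_num)
  replace hb : r j ≤ 799 / 1000 := (not_le.1 c4).le
  exact pur3_one r hr hF (fun k => (hj' k).trans hb) (by norm_num) (by norm_num)

/-- if all the probabilities are at most `9 / 20`, then their sum is at most `59 / 100` -/
theorem purity_45s (h0 : ∀ i v, 0 ≤ μ i v) (h1 : ∀ i, ∑ v, μ i v = 1)
    (hs : ∀ x y, L x y = L y x)
    (ht : ∀ x y t, ¬ (L x y = true ∧ L y t = true ∧ L x t = true))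
    (hall : ∀ k, pProb μ L k ≤ 9 / 20) :
    ∑ k, pProb μ L k ≤ 59 / 100 := by
  obtain ⟨r, hr, h6⟩ := exists_root μ L h0
  have hF := purity_LW μ L h0 h1 hs ht hr h6
  have h3 := root_cube μ L h0 h1 hr h6
  have hr1 := root_le_one μ L h0 h1 hr h6
  rw [show ∑ k, pProb μ L k = ∑ k, r k ^ 6 from sum_congr rfl fun k _ => (h6 k).symm]
  obtain ⟨j, -, hj⟩ := exists_max_image univ r ⟨0, mem_univ 0⟩
  have hj' : ∀ k, r k ≤ r j := fun k => hj k (mem_univ k)
  have hb : r j ≤ 4377 / 5000 := by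
    refine rootn_le (hr j) (by norm_num) (n := 6) (by norm_num) ?_
    rw [h6 j]
    exact (hall j).trans (by norm_num)
  obtain ⟨i, hi, hi2⟩ := exists_max_image (univ.erase j) r (erase_nonempty6 j)
  have hij : i ≠ j := ne_of_mem_erase hi
  have hi' : ∀ k, k ≠ j → r k ≤ r i := fun k hk => hi2 k (mem_erase.2 ⟨hk, mem_univ k⟩)
  have hc := h3 j i hij.symm
  by_cases c0 : (2187 / 2500 : ℝ) ≤ r j
  · have hbi : r i ≤ 1729 / 2500 := by
      refine rootn_le (hr i) (by norm_num) (n := 3) (by norm_num) ?_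
      have := pow_le_pow_left₀ (by norm_num : (0 : ℝ) ≤ 2187 / 2500) c0 3
      norm_num at this ⊢
      linarith
    by_cases d0 : (1727 / 2500 : ℝ) ≤ r i
    · exact pur3_three r hr hr1 hF hij c0 hb d0 hbi (w := 351 / 625) (by norm_num) (by norm_num) (by norm_num) (by norm_num) (by norm_num)
        (by norm_num) (by norm_num) (by norm_num)
    replace hbi : r i ≤ 1727 / 2500 := (not_le.1 d0).le
    by_cases d1 : (1721 / 2500 : ℝ) ≤ r i
    · exact pur3_three r hr hr1 hF hij c0 hb d1 hbi (w := 283 / 500) (by norm_num) (by norm_num) (by norm_num) (by norm_num) (by norm_num)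
        (by norm_num) (by norm_num) (by norm_num)
    replace hbi : r i ≤ 1721 / 2500 := (not_le.1 d1).le
    by_cases d2 : (1703 / 2500 : ℝ) ≤ r i
    · exact pur3_three r hr hr1 hF hij c0 hb d2 hbi (w := 723 / 1250) (by norm_num) (by norm_num) (by norm_num) (by norm_num) (by norm_num)
        (by norm_num) (by norm_num) (by norm_num)
    replace hbi : r i ≤ 1703 / 2500 := (not_le.1 d2).le
    by_cases d3 : (661 / 1000 : ℝ) ≤ r i
    · exact pur3_three r hr hr1 hF hij c0 hb d3 hbi (w := 1519 / 2500) (by norm_num) (by norm_num) (by norm_num) (by norm_num) (by norm_num)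
        (by norm_num) (by norm_num) (by norm_num)
    replace hbi : r i ≤ 661 / 1000 := (not_le.1 d3).le
    by_cases d4 : (1539 / 2500 : ℝ) ≤ r i
    · exact pur3_three r hr hr1 hF hij c0 hb d4 hbi (w := 3273 / 5000) (by norm_num) (by norm_num) (by norm_num) (by norm_num) (by norm_num)
        (by norm_num) (by norm_num) (by norm_num)
    replace hbi : r i ≤ 1539 / 2500 := (not_le.1 d4).le
    exact pur3_two r hr hF hi' hb hbi (by norm_num) (by norm_num) (by norm_num)
  replace hb : r j ≤ 2187 / 2500 := (not_le.1 c0).le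
  by_cases c1 : (873 / 1000 : ℝ) ≤ r j
  · have hbi : r i ≤ 434 / 625 := by
      refine rootn_le (hr i) (by norm_num) (n := 3) (by norm_num) ?_
      have := pow_le_pow_left₀ (by norm_num : (0 : ℝ) ≤ 873 / 1000) c1 3
      norm_num at this ⊢
      linarith
    by_cases d0 : (347 / 500 : ℝ) ≤ r i
    · exact pur3_three r hr hr1 hF hij c1 hb d0 hbi (w := 2807 / 5000) (by norm_num) (by norm_num) (by norm_num) (by norm_num) (by norm_num)
        (by norm_num) (by norm_num) (by norm_num)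
    replace hbi : r i ≤ 347 / 500 := (not_le.1 d0).le
    by_cases d1 : (3463 / 5000 : ℝ) ≤ r i
    · exact pur3_three r hr hr1 hF hij c1 hb d1 hbi (w := 141 / 250) (by norm_num) (by norm_num) (by norm_num) (by norm_num) (by norm_num)
        (by norm_num) (by norm_num) (by norm_num)
    replace hbi : r i ≤ 3463 / 5000 := (not_le.1 d1).le
    by_cases d2 : (1721 / 2500 : ℝ) ≤ r i
    · exact pur3_three r hr hr1 hF hij c1 hb d2 hbi (w := 1429 / 2500) (by norm_num) (by norm_num) (by norm_num) (by norm_num) (by norm_num)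
        (by norm_num) (by norm_num) (by norm_num)
    replace hbi : r i ≤ 1721 / 2500 := (not_le.1 d2).le
    by_cases d3 : (3377 / 5000 : ℝ) ≤ r i
    · exact pur3_three r hr hr1 hF hij c1 hb d3 hbi (w := 1481 / 2500) (by norm_num) (by norm_num) (by norm_num) (by norm_num) (by norm_num)
        (by norm_num) (by norm_num) (by norm_num)
    replace hbi : r i ≤ 3377 / 5000 := (not_le.1 d3).le
    by_cases d4 : (1601 / 2500 : ℝ) ≤ r i
    · exact pur3_three r hr hr1 hF hij c1 hb d4 hbi (w := 3177 / 5000) (by norm_num) (by norm_num) (by norm_num) (by norm_num) (by norm_num)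
        (by norm_num) (by norm_num) (by norm_num)
    replace hbi : r i ≤ 1601 / 2500 := (not_le.1 d4).le
    exact pur3_two r hr hF hi' hb hbi (by norm_num) (by norm_num) (by norm_num)
  replace hb : r j ≤ 873 / 1000 := (not_le.1 c1).le
  by_cases c2 : (4341 / 5000 : ℝ) ≤ r j
  · have hbi : r i ≤ 3509 / 5000 := by
      refine rootn_le (hr i) (by norm_num) (n := 3) (by norm_num) ?_
      have := pow_le_pow_left₀ (by norm_num : (0 : ℝ) ≤ 4341 / 5000) c2 3
      norm_num at this ⊢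
      linarith
    by_cases d0 : (3503 / 5000 : ℝ) ≤ r i
    · exact pur3_three r hr hr1 hF hij c2 hb d0 hbi (w := 141 / 250) (by norm_num) (by norm_num) (by norm_num) (by norm_num) (by norm_num)
        (by norm_num) (by norm_num) (by norm_num)
    replace hbi : r i ≤ 3503 / 5000 := (not_le.1 d0).le
    by_cases d1 : (3481 / 5000 : ℝ) ≤ r i
    · exact pur3_three r hr hr1 hF hij c2 hb d1 hbi (w := 2861 / 5000) (by norm_num) (by norm_num) (by norm_num) (by norm_num) (by norm_num)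
        (by norm_num) (by norm_num) (by norm_num)
    replace hbi : r i ≤ 3481 / 5000 := (not_le.1 d1).le
    by_cases d2 : (681 / 1000 : ℝ) ≤ r i
    · exact pur3_three r hr hr1 hF hij c2 hb d2 hbi (w := 597 / 1000) (by norm_num) (by norm_num) (by norm_num) (by norm_num) (by norm_num)
        (by norm_num) (by norm_num) (by norm_num)
    replace hbi : r i ≤ 681 / 1000 := (not_le.1 d2).le
    by_cases d3 : (397 / 625 : ℝ) ≤ r i
    · exact pur3_three r hr hr1 hF hij c2 hb d3 hbi (w := 3253 / 5000) (by norm_num) (by norm_num) (by norm_num) (by norm_num) (by norm_num)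
        (by norm_num) (by norm_num) (by norm_num)
    replace hbi : r i ≤ 397 / 625 := (not_le.1 d3).le
    exact pur3_two r hr hF hi' hb hbi (by norm_num) (by norm_num) (by norm_num)
  replace hb : r j ≤ 4341 / 5000 := (not_le.1 c2).le
  by_cases c3 : (4281 / 5000 : ℝ) ≤ r j
  · have hbi : r i ≤ 1799 / 2500 := by
      refine rootn_le (hr i) (by norm_num) (n := 3) (by norm_num) ?_
      have := pow_le_pow_left₀ (by norm_num : (0 : ℝ) ≤ 4281 / 5000) c3 3
      norm_num at this ⊢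
      linarith
    by_cases d0 : (3593 / 5000 : ℝ) ≤ r i
    · exact pur3_three r hr hr1 hF hij c3 hb d0 hbi (w := 707 / 1250) (by norm_num) (by norm_num) (by norm_num) (by norm_num) (by norm_num)
        (by norm_num) (by norm_num) (by norm_num)
    replace hbi : r i ≤ 3593 / 5000 := (not_le.1 d0).le
    by_cases d1 : (446 / 625 : ℝ) ≤ r i
    · exact pur3_three r hr hr1 hF hij c3 hb d1 hbi (w := 2877 / 5000) (by norm_num) (by norm_num) (by norm_num) (by norm_num) (by norm_num)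
        (by norm_num) (by norm_num) (by norm_num)
    replace hbi : r i ≤ 446 / 625 := (not_le.1 d1).le
    by_cases d2 : (3449 / 5000 : ℝ) ≤ r i
    · exact pur3_three r hr hr1 hF hij c3 hb d2 hbi (w := 307 / 500) (by norm_num) (by norm_num) (by norm_num) (by norm_num) (by norm_num)
        (by norm_num) (by norm_num) (by norm_num)
    replace hbi : r i ≤ 3449 / 5000 := (not_le.1 d2).le
    exact pur3_two r hr hF hi' hb hbi (by norm_num) (by norm_num) (by norm_num)
  replace hb : r j ≤ 4281 / 5000 := (not_le.1 c3).le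
  by_cases c4 : (831 / 1000 : ℝ) ≤ r j
  · have hbi : r i ≤ 3763 / 5000 := by
      refine rootn_le (hr i) (by norm_num) (n := 3) (by norm_num) ?_
      have := pow_le_pow_left₀ (by norm_num : (0 : ℝ) ≤ 831 / 1000) c4 3
      norm_num at this ⊢
      linarith
    by_cases d0 : (1877 / 2500 : ℝ) ≤ r i
    · exact pur3_three r hr hr1 hF hij c4 hb d0 hbi (w := 2853 / 5000) (by norm_num) (by norm_num) (by norm_num) (by norm_num) (by norm_num)
        (by norm_num) (by norm_num) (by norm_num)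
    replace hbi : r i ≤ 1877 / 2500 := (not_le.1 d0).le
    by_cases d1 : (1833 / 2500 : ℝ) ≤ r i
    · exact pur3_three r hr hr1 hF hij c4 hb d1 hbi (w := 378 / 625) (by norm_num) (by norm_num) (by norm_num) (by norm_num) (by norm_num)
        (by norm_num) (by norm_num) (by norm_num)
    replace hbi : r i ≤ 1833 / 2500 := (not_le.1 d1).le
    exact pur3_two r hr hF hi' hb hbi (by norm_num) (by norm_num) (by norm_num)
  replace hb : r j ≤ 831 / 1000 := (not_le.1 c4).le
  by_cases c5 : (4059 / 5000 : ℝ) ≤ r j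
  · have hbi : r i ≤ 1937 / 2500 := by
      refine rootn_le (hr i) (by norm_num) (n := 3) (by norm_num) ?_
      have := pow_le_pow_left₀ (by norm_num : (0 : ℝ) ≤ 4059 / 5000) c5 3
      norm_num at this ⊢
      linarith
    exact pur3_two r hr hF hi' hb hbi (by norm_num) (by norm_num) (by norm_num)
  replace hb : r j ≤ 4059 / 5000 := (not_le.1 c5).le
  exact pur3_one r hr hF (fun k => (hj' k).trans hb) (by norm_num) (by norm_num)

/-- if all the probabilities are at most `1 / 2`, then their sum is at most `31 / 50` -/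
theorem purity_50s (h0 : ∀ i v, 0 ≤ μ i v) (h1 : ∀ i, ∑ v, μ i v = 1)
    (hs : ∀ x y, L x y = L y x)
    (ht : ∀ x y t, ¬ (L x y = true ∧ L y t = true ∧ L x t = true))
    (hall : ∀ k, pProb μ L k ≤ 1 / 2) :
    ∑ k, pProb μ L k ≤ 31 / 50 := by
  obtain ⟨r, hr, h6⟩ := exists_root μ L h0
  have hF := purity_LW μ L h0 h1 hs ht hr h6
  have h3 := root_cube μ L h0 h1 hr h6
  have hr1 := root_le_one μ L h0 h1 hr h6
  rw [show ∑ k, pProb μ L k = ∑ k, r k ^ 6 from sum_congr rfl fun k _ => (h6 k).symm]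
  obtain ⟨j, -, hj⟩ := exists_max_image univ r ⟨0, mem_univ 0⟩
  have hj' : ∀ k, r k ≤ r j := fun k => hj k (mem_univ k)
  have hb : r j ≤ 891 / 1000 := by
    refine rootn_le (hr j) (by norm_num) (n := 6) (by norm_num) ?_
    rw [h6 j]
    exact (hall j).trans (by norm_num)
  obtain ⟨i, hi, hi2⟩ := exists_max_image (univ.erase j) r (erase_nonempty6 j)
  have hij : i ≠ j := ne_of_mem_erase hi
  have hi' : ∀ k, k ≠ j → r k ≤ r i := fun k hk => hi2 k (mem_erase.2 ⟨hk, mem_univ k⟩)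
  have hc := h3 j i hij.symm
  by_cases c0 : (177 / 200 : ℝ) ≤ r j
  · have hbi : r i ≤ 3373 / 5000 := by
      refine rootn_le (hr i) (by norm_num) (n := 3) (by norm_num) ?_
      have := pow_le_pow_left₀ (by norm_num : (0 : ℝ) ≤ 177 / 200) c0 3
      norm_num at this ⊢
      linarith
    by_cases d0 : (421 / 625 : ℝ) ≤ r i
    · exact pur3_three r hr hr1 hF hij c0 hb d0 hbi (w := 2797 / 5000) (by norm_num) (by norm_num) (by norm_num) (by norm_num) (by norm_num)
        (by norm_num) (by norm_num) (by norm_num)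
    replace hbi : r i ≤ 421 / 625 := (not_le.1 d0).le
    by_cases d1 : (419 / 625 : ℝ) ≤ r i
    · exact pur3_three r hr hr1 hF hij c0 hb d1 hbi (w := 113 / 200) (by norm_num) (by norm_num) (by norm_num) (by norm_num) (by norm_num)
        (by norm_num) (by norm_num) (by norm_num)
    replace hbi : r i ≤ 419 / 625 := (not_le.1 d1).le
    by_cases d2 : (1651 / 2500 : ℝ) ≤ r i
    · exact pur3_three r hr hr1 hF hij c0 hb d2 hbi (w := 2903 / 5000) (by norm_num) (by norm_num) (by norm_num) (by norm_num) (by norm_num)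
        (by norm_num) (by norm_num) (by norm_num)
    replace hbi : r i ≤ 1651 / 2500 := (not_le.1 d2).le
    by_cases d3 : (1579 / 2500 : ℝ) ≤ r i
    · exact pur3_three r hr hr1 hF hij c0 hb d3 hbi (w := 771 / 1250) (by norm_num) (by norm_num) (by norm_num) (by norm_num) (by norm_num)
        (by norm_num) (by norm_num) (by norm_num)
    replace hbi : r i ≤ 1579 / 2500 := (not_le.1 d3).le
    exact pur3_two r hr hF hi' hb hbi (by norm_num) (by norm_num) (by norm_num)
  replace hb : r j ≤ 177 / 200 := (not_le.1 c0).le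
  by_cases c1 : (433 / 500 : ℝ) ≤ r j
  · have hbi : r i ≤ 1763 / 2500 := by
      refine rootn_le (hr i) (by norm_num) (n := 3) (by norm_num) ?_
      have := pow_le_pow_left₀ (by norm_num : (0 : ℝ) ≤ 433 / 500) c1 3
      norm_num at this ⊢
      linarith
    by_cases d0 : (3523 / 5000 : ℝ) ≤ r i
    · exact pur3_three r hr hr1 hF hij c1 hb d0 hbi (w := 352 / 625) (by norm_num) (by norm_num) (by norm_num) (by norm_num) (by norm_num)
        (by norm_num) (by norm_num) (by norm_num)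
    replace hbi : r i ≤ 3523 / 5000 := (not_le.1 d0).le
    by_cases d1 : (438 / 625 : ℝ) ≤ r i
    · exact pur3_three r hr hr1 hF hij c1 hb d1 hbi (w := 713 / 1250) (by norm_num) (by norm_num) (by norm_num) (by norm_num) (by norm_num)
        (by norm_num) (by norm_num) (by norm_num)
    replace hbi : r i ≤ 438 / 625 := (not_le.1 d1).le
    by_cases d2 : (339 / 500 : ℝ) ≤ r i
    · exact pur3_three r hr hr1 hF hij c1 hb d2 hbi (w := 1517 / 2500) (by norm_num) (by norm_num) (by norm_num) (by norm_num) (by norm_num)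
        (by norm_num) (by norm_num) (by norm_num)
    replace hbi : r i ≤ 339 / 500 := (not_le.1 d2).le
    exact pur3_two r hr hF hi' hb hbi (by norm_num) (by norm_num) (by norm_num)
  replace hb : r j ≤ 433 / 500 := (not_le.1 c1).le
  by_cases c2 : (4151 / 5000 : ℝ) ≤ r j
  · have hbi : r i ≤ 471 / 625 := by
      refine rootn_le (hr i) (by norm_num) (n := 3) (by norm_num) ?_
      have := pow_le_pow_left₀ (by norm_num : (0 : ℝ) ≤ 4151 / 5000) c2 3
      norm_num at this ⊢
      linarith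
    exact pur3_two r hr hF hi' hb hbi (by norm_num) (by norm_num) (by norm_num)
  replace hb : r j ≤ 4151 / 5000 := (not_le.1 c2).le
  exact pur3_one r hr hF (fun k => (hj' k).trans hb) (by norm_num) (by norm_num)

/-- if all the probabilities are at most `0.45`, then the rest is at least `0.41` -/
theorem purity_45 (h0 : ∀ i v, 0 ≤ μ i v) (h1 : ∀ i, ∑ v, μ i v = 1)
    (hs : ∀ x y, L x y = L y x)
    (ht : ∀ x y t, ¬ (L x y = true ∧ L y t = true ∧ L x t = true))
    (hp : ∀ j, pProb μ L j ≤ 9 / 20) : 41 / 100 ≤ 1 - ∑ j, pProb μ L j := by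
  have := purity_45s μ L h0 h1 hs ht hp
  linarith

end Pur3

end K4m
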