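import Mathlib
import Pool.Agent.Lib.MP_392c14_co.Z8f

/-!
# Local analysis, eight points, part G: the elimination inequality, continued (partly generated)
-/

set_option autoImplicit false

namespace K4m

open Finset Function

section Z8g

variable {V : Type} [Fintype V]

/-- sum of all own multipliers -/
noncomputable def SS8 (tH tG : ℕ) (L : V → V → Bool) (z : Fin 6 → V) : ℝ :=
  SK0 tH tG L z + SK1 tH tG L z + SK2 tH tG L z + SK3 tH tG L z + SK4 tH tG L z + SK5 tH tG L z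

theorem zin_real {N cb Q x d np b sh : ℕ} (h : zin N cb Q x d np b sh = true) :
    (Q : ℝ) * (6 * N) + 700 * x + 1400 * (N * d) + 700 * (cb * np) ≤
      7000 * N + Q * N + 2100 * (N * b) + Q * sh := by
  unfold zin at h
  have h1 : Q * (6 * N) + (700 * x + (1400 * (N * d) + 700 * (cb * np))) ≤
      7000 * N + (Q * N + (2100 * (N * b) + Q * sh)) := Nat.le_of_ble_eq_true h
  have h2 : (Q : ℝ) * (6 * N) + (700 * x + (1400 * (N * d) + 700 * (cb * np))) ≤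
      7000 * N + (Q * N + (2100 * (N * b) + Q * sh)) := by exact_mod_cast h1
  linarith

theorem np_le {cb g : ℕ} {P : Fin 6 → ℝ} (hp0 : ∀ k, 0 ≤ P k) (hk : ∀ k, g = pc8 k → P k = 1) :
    (cb : ℝ) * (1 - ∑ k, P k) ≤ cb * (np8 g : ℝ) := by
  have h0 : (0 : ℝ) ≤ cb := Nat.cast_nonneg _
  have h2 : 0 ≤ ∑ k, P k := sum_nonneg fun k _ => hp0 k
  by_cases h1 : np8 g = 1
  · rw [h1, Nat.cast_one]
    nlinarith
  · obtain ⟨k, hk'⟩ := np8_zero h1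
    have h3 : P k ≤ ∑ k, P k := single_le_sum (f := fun k => P k) (fun k _ => hp0 k) (mem_univ k)
    rw [hk k hk'] at h3
    have h4 : (0 : ℝ) ≤ cb * (np8 g : ℝ) := mul_nonneg h0 (Nat.cast_nonneg _)
    have h5 : (cb : ℝ) * (1 - ∑ k, P k) ≤ 0 := mul_nonpos_of_nonneg_of_nonpos h0 (by linarith)
    linarith

theorem and3_of {a b c : Bool} (h : ¬ ((a = true ∧ b = true) ∧ c = true)) :
    (a && b && c) = false := by
  cases a <;> cases b <;> cases c <;> simp_all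

variable {L : V → V → Bool} (hs : ∀ x y, L x y = L y x)
  (hT : ∀ x y t, ¬ (L x y = true ∧ L x t = true ∧ L y t = true)) (z : Fin 6 → V)
include hs hT

theorem zpoint {tX tH tG N cb Q1 Q2 : ℕ} (hc : chkz tX tH tG N cb Q1 Q2 = true) :
    (N * pInd L 0 z ≤ N - SK0 tH tG L z ∧ N * pInd L 1 z ≤ N - SK1 tH tG L z ∧ N * pInd L 2 z ≤ N - SK2 tH tG L z ∧ N * pInd L 3 z ≤ N - SK3 tH tG L z ∧ N * pInd L 4 z ≤ N - SK4 tH tG L z ∧ N * pInd L 5 z ≤ N - SK5 tH tG L z) ∧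
    (Q1 : ℝ) * (6 * N - SS8 tH tG L z) + 700 * SX8 tX L z + 1400 * (N * DD L z) +
      700 * (cb * (1 - ∑ k, pInd L k z)) ≤ 7000 * N + Q1 * N + 2100 * (N * BB L z) ∧
    (Q2 : ℝ) * (6 * N - SS8 tH tG L z) + 700 * SX8 tX L z + 1400 * (N * DD L z) +
      700 * (cb * (1 - ∑ k, pInd L k z)) ≤ 7000 * N + Q2 * N + 2100 * (N * BB L z) := by
  have n := lz_notri hT z
  have hz := chkz_spec hc (lz L z 0 1) (lz L z 0 2) (lz L z 1 2) (lz L z 0 3) (lz L z 1 3) (lz L z 2 3) (lz L z 0 4) (lz L z 1 4) (lz L z 2 4) (lz L z 3 4) (lz L z 0 5) (lz L z 1 5) (lz L z 2 5) (lz L z 3 5) (lz L z 4 5)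
    (and3_of fun h => n 0 1 2 ⟨h.1.1, h.1.2, h.2⟩)
    (and3_of fun h => n 0 1 3 ⟨h.1.1, h.1.2, h.2⟩)
    (and3_of fun h => n 0 2 3 ⟨h.1.1, h.1.2, h.2⟩)
    (and3_of fun h => n 1 2 3 ⟨h.1.1, h.1.2, h.2⟩)
    (and3_of fun h => n 0 1 4 ⟨h.1.1, h.1.2, h.2⟩)
    (and3_of fun h => n 0 2 4 ⟨h.1.1, h.1.2, h.2⟩)
    (and3_of fun h => n 1 2 4 ⟨h.1.1, h.1.2, h.2⟩)
    (and3_of fun h => n 0 3 4 ⟨h.1.1, h.1.2, h.2⟩)
    (and3_of fun h => n 1 3 4 ⟨h.1.1, h.1.2, h.2⟩)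
    (and3_of fun h => n 2 3 4 ⟨h.1.1, h.1.2, h.2⟩)
    (and3_of fun h => n 0 1 5 ⟨h.1.1, h.1.2, h.2⟩)
    (and3_of fun h => n 0 2 5 ⟨h.1.1, h.1.2, h.2⟩)
    (and3_of fun h => n 1 2 5 ⟨h.1.1, h.1.2, h.2⟩)
    (and3_of fun h => n 0 3 5 ⟨h.1.1, h.1.2, h.2⟩)
    (and3_of fun h => n 1 3 5 ⟨h.1.1, h.1.2, h.2⟩)
    (and3_of fun h => n 2 3 5 ⟨h.1.1, h.1.2, h.2⟩)
    (and3_of fun h => n 0 4 5 ⟨h.1.1, h.1.2, h.2⟩)
    (and3_of fun h => n 1 4 5 ⟨h.1.1, h.1.2, h.2⟩)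
    (and3_of fun h => n 2 4 5 ⟨h.1.1, h.1.2, h.2⟩)
    (and3_of fun h => n 3 4 5 ⟨h.1.1, h.1.2, h.2⟩)
  unfold zlf at hz
  simp only [frc_eq, Bool.and_eq_true] at hz
  obtain ⟨a0, a1, a2, a3, a4, a5, b0, b1, b2, b3, b4, b5, z1, z2⟩ := hz
  have e0 := sk0_eq hs z tH tG
  have e1 := sk1_eq hs z tH tG
  have e2 := sk2_eq hs z tH tG
  have e3 := sk3_eq hs z tH tG
  have e4 := sk4_eq hs z tH tG
  have e5 := sk5_eq hs z tH tG
  have ex := sx8_eq hs z tX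
  have ed := sd8_eq (L := L) z
  have eb := sb8_eq (L := L) z
  generalize hs0 : sk0 tH tG (lz L z 0 1).toNat (lz L z 0 2).toNat (lz L z 1 2).toNat (lz L z 0 3).toNat (lz L z 1 3).toNat (lz L z 2 3).toNat (lz L z 0 4).toNat (lz L z 1 4).toNat (lz L z 2 4).toNat (lz L z 3 4).toNat (lz L z 0 5).toNat (lz L z 1 5).toNat (lz L z 2 5).toNat (lz L z 3 5).toNat (lz L z 4 5).toNat = s0 at *
  generalize hs1 : sk1 tH tG (lz L z 0 1).toNat (lz L z 0 2).toNat (lz L z 1 2).toNat (lz L z 0 3).toNat (lz L z 1 3).toNat (lz L z 2 3).toNat (lz L z 0 4).toNat (lz L z 1 4).toNat (lz L z 2 4).toNat (lz L z 3 4).toNat (lz L z 0 5).toNat (lz L z 1 5).toNat (lz L z 2 5).toNat (lz L z 3 5).toNat (lz L z 4 5).toNat = s1 at *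
  generalize hs2 : sk2 tH tG (lz L z 0 1).toNat (lz L z 0 2).toNat (lz L z 1 2).toNat (lz L z 0 3).toNat (lz L z 1 3).toNat (lz L z 2 3).toNat (lz L z 0 4).toNat (lz L z 1 4).toNat (lz L z 2 4).toNat (lz L z 3 4).toNat (lz L z 0 5).toNat (lz L z 1 5).toNat (lz L z 2 5).toNat (lz L z 3 5).toNat (lz L z 4 5).toNat = s2 at *
  generalize hs3 : sk3 tH tG (lz L z 0 1).toNat (lz L z 0 2).toNat (lz L z 1 2).toNat (lz L z 0 3).toNat (lz L z 1 3).toNat (lz L z 2 3).toNat (lz L z 0 4).toNat (lz L z 1 4).toNat (lz L z 2 4).toNat (lz L z 3 4).toNat (lz L z 0 5).toNat (lz L z 1 5).toNat (lz L z 2 5).toNat (lz L z 3 5).toNat (lz L z 4 5).toNat = s3 at *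
  generalize hs4 : sk4 tH tG (lz L z 0 1).toNat (lz L z 0 2).toNat (lz L z 1 2).toNat (lz L z 0 3).toNat (lz L z 1 3).toNat (lz L z 2 3).toNat (lz L z 0 4).toNat (lz L z 1 4).toNat (lz L z 2 4).toNat (lz L z 3 4).toNat (lz L z 0 5).toNat (lz L z 1 5).toNat (lz L z 2 5).toNat (lz L z 3 5).toNat (lz L z 4 5).toNat = s4 at *
  generalize hs5 : sk5 tH tG (lz L z 0 1).toNat (lz L z 0 2).toNat (lz L z 1 2).toNat (lz L z 0 3).toNat (lz L z 1 3).toNat (lz L z 2 3).toNat (lz L z 0 4).toNat (lz L z 1 4).toNat (lz L z 2 4).toNat (lz L z 3 4).toNat (lz L z 0 5).toNat (lz L z 1 5).toNat (lz L z 2 5).toNat (lz L z 3 5).toNat (lz L z 4 5).toNat = s5 at *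
  generalize hx : sx8 tX (lz L z 0 1).toNat (lz L z 0 2).toNat (lz L z 1 2).toNat (lz L z 0 3).toNat (lz L z 1 3).toNat (lz L z 2 3).toNat (lz L z 0 4).toNat (lz L z 1 4).toNat (lz L z 2 4).toNat (lz L z 3 4).toNat (lz L z 0 5).toNat (lz L z 1 5).toNat (lz L z 2 5).toNat (lz L z 3 5).toNat (lz L z 4 5).toNat = x at *
  generalize hd : sd8 (lz L z 0 1).toNat (lz L z 0 2).toNat (lz L z 1 2).toNat (lz L z 0 3).toNat (lz L z 1 3).toNat (lz L z 2 3).toNat (lz L z 0 4).toNat (lz L z 1 4).toNat (lz L z 2 4).toNat (lz L z 3 4).toNat (lz L z 0 5).toNat (lz L z 1 5).toNat (lz L z 2 5).toNat (lz L z 3 5).toNat (lz L z 4 5).toNat = d at *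
  generalize hb : sb8 (lz L z 0 1).toNat (lz L z 0 2).toNat (lz L z 1 2).toNat (lz L z 0 3).toNat (lz L z 1 3).toNat (lz L z 2 3).toNat (lz L z 0 4).toNat (lz L z 1 4).toNat (lz L z 2 4).toNat (lz L z 3 4).toNat (lz L z 0 5).toNat (lz L z 1 5).toNat (lz L z 2 5).toNat (lz L z 3 5).toNat (lz L z 4 5).toNat = b at *
  have hp0 : ∀ k, 0 ≤ pInd L k z := fun k => pInd_nonneg L k z
  have hcode : ∀ k, (∀ a b : Fin 6, L (z a) (z b) = pTab k a b) →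
      sg8 (lz L z 0 1).toNat (lz L z 0 2).toNat (lz L z 1 2).toNat (lz L z 0 3).toNat (lz L z 1 3).toNat (lz L z 2 3).toNat (lz L z 0 4).toNat (lz L z 1 4).toNat (lz L z 2 4).toNat (lz L z 3 4).toNat (lz L z 0 5).toNat (lz L z 1 5).toNat (lz L z 2 5).toNat (lz L z 3 5).toNat (lz L z 4 5).toNat = pc8 k := fun k h => code_of_pent hs z h
  have hpent : ∀ k, sg8 (lz L z 0 1).toNat (lz L z 0 2).toNat (lz L z 1 2).toNat (lz L z 0 3).toNat (lz L z 1 3).toNat (lz L z 2 3).toNat (lz L z 0 4).toNat (lz L z 1 4).toNat (lz L z 2 4).toNat (lz L z 3 4).toNat (lz L z 0 5).toNat (lz L z 1 5).toNat (lz L z 2 5).toNat (lz L z 3 5).toNat (lz L z 4 5).toNat = pc8 k → pInd L k z = 1 := fun k h =>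
    pInd_one (pent_of_code hs z hT h)
  generalize hg : sg8 (lz L z 0 1).toNat (lz L z 0 2).toNat (lz L z 1 2).toNat (lz L z 0 3).toNat (lz L z 1 3).toNat (lz L z 2 3).toNat (lz L z 0 4).toNat (lz L z 1 4).toNat (lz L z 2 4).toNat (lz L z 3 4).toNat (lz L z 0 5).toNat (lz L z 1 5).toNat (lz L z 2 5).toNat (lz L z 3 5).toNat (lz L z 4 5).toNat = g at *
  have r0 : (s0 : ℝ) ≤ N := by exact_mod_cast Nat.le_of_ble_eq_true a0
  have q0 : N * pInd L 0 z ≤ N - SK0 tH tG L z := by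
    rcases pInd_cases L 0 z with ⟨h1, h2⟩ | ⟨-, h2⟩
    · have h3 : g = pc8 0 := hcode 0 h1
      rw [Bool.or_eq_true, Bool.not_eq_true'] at b0
      have h4 : s0 = 0 := by
        rcases b0 with h5 | h5
        · rw [h3] at h5
          exact absurd h5 (by decide)
        · exact Nat.eq_of_beq_eq_true h5
      rw [h2, ← e0, h4]
      simp
    · rw [h2, ← e0]
      linarith
  have r1 : (s1 : ℝ) ≤ N := by exact_mod_cast Nat.le_of_ble_eq_true a1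
  have q1 : N * pInd L 1 z ≤ N - SK1 tH tG L z := by
    rcases pInd_cases L 1 z with ⟨h1, h2⟩ | ⟨-, h2⟩
    · have h3 : g = pc8 1 := hcode 1 h1
      rw [Bool.or_eq_true, Bool.not_eq_true'] at b1
      have h4 : s1 = 0 := by
        rcases b1 with h5 | h5
        · rw [h3] at h5
          exact absurd h5 (by decide)
        · exact Nat.eq_of_beq_eq_true h5
      rw [h2, ← e1, h4]
      simp
    · rw [h2, ← e1]
      linarith
  have r2 : (s2 : ℝ) ≤ N := by exact_mod_cast Nat.le_of_ble_eq_true a2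
  have q2 : N * pInd L 2 z ≤ N - SK2 tH tG L z := by
    rcases pInd_cases L 2 z with ⟨h1, h2⟩ | ⟨-, h2⟩
    · have h3 : g = pc8 2 := hcode 2 h1
      rw [Bool.or_eq_true, Bool.not_eq_true'] at b2
      have h4 : s2 = 0 := by
        rcases b2 with h5 | h5
        · rw [h3] at h5
          exact absurd h5 (by decide)
        · exact Nat.eq_of_beq_eq_true h5
      rw [h2, ← e2, h4]
      simp
    · rw [h2, ← e2]
      linarith
  have r3 : (s3 : ℝ) ≤ N := by exact_mod_cast Nat.le_of_ble_eq_true a3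
  have q3 : N * pInd L 3 z ≤ N - SK3 tH tG L z := by
    rcases pInd_cases L 3 z with ⟨h1, h2⟩ | ⟨-, h2⟩
    · have h3 : g = pc8 3 := hcode 3 h1
      rw [Bool.or_eq_true, Bool.not_eq_true'] at b3
      have h4 : s3 = 0 := by
        rcases b3 with h5 | h5
        · rw [h3] at h5
          exact absurd h5 (by decide)
        · exact Nat.eq_of_beq_eq_true h5
      rw [h2, ← e3, h4]
      simp
    · rw [h2, ← e3]
      linarith
  have r4 : (s4 : ℝ) ≤ N := by exact_mod_cast Nat.le_of_ble_eq_true a4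
  have q4 : N * pInd L 4 z ≤ N - SK4 tH tG L z := by
    rcases pInd_cases L 4 z with ⟨h1, h2⟩ | ⟨-, h2⟩
    · have h3 : g = pc8 4 := hcode 4 h1
      rw [Bool.or_eq_true, Bool.not_eq_true'] at b4
      have h4 : s4 = 0 := by
        rcases b4 with h5 | h5
        · rw [h3] at h5
          exact absurd h5 (by decide)
        · exact Nat.eq_of_beq_eq_true h5
      rw [h2, ← e4, h4]
      simp
    · rw [h2, ← e4]
      linarith
  have r5 : (s5 : ℝ) ≤ N := by exact_mod_cast Nat.le_of_ble_eq_true a5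
  have q5 : N * pInd L 5 z ≤ N - SK5 tH tG L z := by
    rcases pInd_cases L 5 z with ⟨h1, h2⟩ | ⟨-, h2⟩
    · have h3 : g = pc8 5 := hcode 5 h1
      rw [Bool.or_eq_true, Bool.not_eq_true'] at b5
      have h4 : s5 = 0 := by
        rcases b5 with h5 | h5
        · rw [h3] at h5
          exact absurd h5 (by decide)
        · exact Nat.eq_of_beq_eq_true h5
      rw [h2, ← e5, h4]
      simp
    · rw [h2, ← e5]
      linarith
  have hnp := np_le (cb := cb) hp0 hpent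
  have fz1 := zin_real z1
  simp only [Nat.add_eq, Nat.cast_add] at fz1
  have gz1 : (Q1 : ℝ) * (6 * N - SS8 tH tG L z) + 700 * SX8 tX L z + 1400 * (N * DD L z) +
      700 * (cb * (1 - ∑ k, pInd L k z)) ≤ 7000 * N + Q1 * N + 2100 * (N * BB L z) := by
    unfold SS8
    rw [← e0, ← e1, ← e2, ← e3, ← e4, ← e5, ← ex, ← ed, ← eb]
    linarith
  have fz2 := zin_real z2
  simp only [Nat.add_eq, Nat.cast_add] at fz2
  have gz2 : (Q2 : ℝ) * (6 * N - SS8 tH tG L z) + 700 * SX8 tX L z + 1400 * (N * DD L z) +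
      700 * (cb * (1 - ∑ k, pInd L k z)) ≤ 7000 * N + Q2 * N + 2100 * (N * BB L z) := by
    unfold SS8
    rw [← e0, ← e1, ← e2, ← e3, ← e4, ← e5, ← ex, ← ed, ← eb]
    linarith
  exact ⟨⟨q0, q1, q2, q3, q4, q5⟩, gz1, gz2⟩

end Z8g

section Z8h

variable {V : Type} [Fintype V]

theorem E6_sum_pInd (μ : Fin 6 → V → ℝ) (L : V → V → Bool) :
    E6 μ (fun z => ∑ k, pInd L k z) = ∑ k, pProb μ L k := by
  rw [E6_sum]
  rfl

theorem E6_SK0 (μ : Fin 6 → V → ℝ) (tH tG : ℕ) (L : V → V → Bool) : E6 μ (SK0 tH tG L) =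
    E6 μ (zH8 tH (fr8 0) L) + E6 μ (zH8 tH (fr8 1) L) + E6 μ (zH8 tH (fr8 2) L) + E6 μ (zH8 tH (fr8 3) L) + E6 μ (zH8 tH (fr8 4) L) := by
  unfold SK0
  simp only [E6_add]

theorem E6_SK1 (μ : Fin 6 → V → ℝ) (tH tG : ℕ) (L : V → V → Bool) : E6 μ (SK1 tH tG L) =
    E6 μ (zG8 tG (fr8 0) L) + E6 μ (zH8 tH (fr8 5) L) + E6 μ (zH8 tH (fr8 6) L) + E6 μ (zH8 tH (fr8 7) L) + E6 μ (zH8 tH (fr8 8) L) := by
  unfold SK1
  simp only [E6_add]

theorem E6_SK2 (μ : Fin 6 → V → ℝ) (tH tG : ℕ) (L : V → V → Bool) : E6 μ (SK2 tH tG L) =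
    E6 μ (zG8 tG (fr8 1) L) + E6 μ (zG8 tG (fr8 5) L) + E6 μ (zH8 tH (fr8 9) L) + E6 μ (zH8 tH (fr8 10) L) + E6 μ (zH8 tH (fr8 11) L) := by
  unfold SK2
  simp only [E6_add]

theorem E6_SK3 (μ : Fin 6 → V → ℝ) (tH tG : ℕ) (L : V → V → Bool) : E6 μ (SK3 tH tG L) =
    E6 μ (zG8 tG (fr8 2) L) + E6 μ (zG8 tG (fr8 6) L) + E6 μ (zG8 tG (fr8 9) L) + E6 μ (zH8 tH (fr8 12) L) + E6 μ (zH8 tH (fr8 13) L) := by
  unfold SK3
  simp only [E6_add]

theorem E6_SK4 (μ : Fin 6 → V → ℝ) (tH tG : ℕ) (L : V → V → Bool) : E6 μ (SK4 tH tG L) =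
    E6 μ (zG8 tG (fr8 3) L) + E6 μ (zG8 tG (fr8 7) L) + E6 μ (zG8 tG (fr8 10) L) + E6 μ (zG8 tG (fr8 12) L) + E6 μ (zH8 tH (fr8 14) L) := by
  unfold SK4
  simp only [E6_add]

theorem E6_SK5 (μ : Fin 6 → V → ℝ) (tH tG : ℕ) (L : V → V → Bool) : E6 μ (SK5 tH tG L) =
    E6 μ (zG8 tG (fr8 4) L) + E6 μ (zG8 tG (fr8 8) L) + E6 μ (zG8 tG (fr8 11) L) + E6 μ (zG8 tG (fr8 13) L) + E6 μ (zG8 tG (fr8 14) L) := by
  unfold SK5
  simp only [E6_add]

theorem E6_SX8 (μ : Fin 6 → V → ℝ) (tX : ℕ) (L : V → V → Bool) : E6 μ (SX8 tX L) =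
    E6 μ (zX8 tX (fr8 0) L) + E6 μ (zX8 tX (fr8 1) L) + E6 μ (zX8 tX (fr8 2) L) + E6 μ (zX8 tX (fr8 3) L) + E6 μ (zX8 tX (fr8 4) L) + E6 μ (zX8 tX (fr8 5) L) + E6 μ (zX8 tX (fr8 6) L) + E6 μ (zX8 tX (fr8 7) L) + E6 μ (zX8 tX (fr8 8) L) + E6 μ (zX8 tX (fr8 9) L) + E6 μ (zX8 tX (fr8 10) L) + E6 μ (zX8 tX (fr8 11) L) + E6 μ (zX8 tX (fr8 12) L) + E6 μ (zX8 tX (fr8 13) L) + E6 μ (zX8 tX (fr8 14) L) := by
  unfold SX8
  simp only [E6_add]

/-- **The elimination inequality.** -/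
theorem elim8 {tX tH tG N cb Q1 Q2 : ℕ} (hN : 0 < N) (hc : allN 64 (chk8w tX tH tG) = true)
    (hz : chkz tX tH tG N cb Q1 Q2 = true) {μ : Fin 6 → V → ℝ} (hμ : ∀ a, IsW (μ a))
    {L : V → V → Bool} (hs : ∀ x y, L x y = L y x)
    (hT : ∀ x y t, ¬ (L x y = true ∧ L x t = true ∧ L y t = true)) {q : ℝ}
    (hq : ∀ a, qd (μ a) L ≤ q) (h1 : (Q1 : ℝ) / 700 ≤ q) (h2 : q ≤ (Q2 : ℝ) / 700) :
    ∑ k, qd (μ k) L * (1 - pProb μ L k) ≤ 10 - 2 * E6 μ (DD L) + q * (1 - ∑ k, pProb μ L k) +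
      3 * E6 μ (BB L) - (cb : ℝ) / N * (1 - ∑ k, pProb μ L k) := by
  have hN' : (0 : ℝ) < N := by exact_mod_cast hN
  have hpt := fun z => zpoint hs hT z hz
  -- the inequality for the given bound of the own densities
  have hzq : ∀ z, q * (6 * N - SS8 tH tG L z) + SX8 tX L z + 2 * (N * DD L z) +
      cb * (1 - ∑ k, pInd L k z) ≤ 10 * N + q * N + 3 * (N * BB L z) := by
    intro z
    obtain ⟨-, g1, g2⟩ := hpt z
    rcases lt_or_eq_of_le (h1.trans h2) with hlt | heq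
    · have hpos : 0 < (Q2 : ℝ) / 700 - Q1 / 700 := by linarith
      have m1 := mul_le_mul_of_nonneg_left g1 (by linarith : 0 ≤ (Q2 : ℝ) / 700 - q)
      have m2 := mul_le_mul_of_nonneg_left g2 (by linarith : 0 ≤ q - (Q1 : ℝ) / 700)
      have m3 : ((Q2 : ℝ) / 700 - Q1 / 700) * (700 * (q * (6 * N - SS8 tH tG L z) + SX8 tX L z +
          2 * (N * DD L z) + cb * (1 - ∑ k, pInd L k z))) ≤
          ((Q2 : ℝ) / 700 - Q1 / 700) * (700 * (10 * N + q * N + 3 * (N * BB L z))) := by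
        nlinarith
      have m4 := le_of_mul_le_mul_left m3 hpos
      linarith
    · have hq' : q = (Q1 : ℝ) / 700 := le_antisymm (by rw [heq]; exact h2) h1
      rw [hq']
      linarith
  have hE : q * (6 * N - E6 μ (SS8 tH tG L)) + E6 μ (SX8 tX L) + 2 * (N * E6 μ (DD L)) +
      cb * (1 - ∑ k, pProb μ L k) ≤ 10 * N + q * N + 3 * (N * E6 μ (BB L)) := by
    have h := E6_mono hμ hzq
    have e1 : E6 μ (fun z => q * (6 * N - SS8 tH tG L z) + SX8 tX L z + 2 * (N * DD L z) +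
        cb * (1 - ∑ k, pInd L k z)) = q * (6 * N - E6 μ (SS8 tH tG L)) + E6 μ (SX8 tX L) +
        2 * (N * E6 μ (DD L)) + cb * (1 - ∑ k, pProb μ L k) := by
      rw [E6_add μ (fun z => q * (6 * N - SS8 tH tG L z) + SX8 tX L z + 2 * (N * DD L z))
          (fun z => cb * (1 - ∑ k, pInd L k z)),
        E6_add μ (fun z => q * (6 * N - SS8 tH tG L z) + SX8 tX L z) (fun z => 2 * (N * DD L z)),
        E6_add μ (fun z => q * (6 * N - SS8 tH tG L z)) (SX8 tX L),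
        E6_smul μ q (fun z => 6 * N - SS8 tH tG L z), E6_sub μ (fun _ => 6 * (N : ℝ)) (SS8 tH tG L),
        E6_const hμ, E6_smul μ 2 (fun z => N * DD L z), E6_smul μ N (DD L),
        E6_smul μ cb (fun z => 1 - ∑ k, pInd L k z), E6_sub μ (fun _ => (1 : ℝ))
          (fun z => ∑ k, pInd L k z), E6_const hμ, E6_sum_pInd]
    have e2 : E6 μ (fun z => 10 * (N : ℝ) + q * N + 3 * (N * BB L z)) =
        10 * N + q * N + 3 * (N * E6 μ (BB L)) := by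
      rw [E6_add μ (fun _ => 10 * (N : ℝ) + q * N) (fun z => 3 * (N * BB L z)), E6_const hμ,
        E6_smul μ 3 (fun z => N * BB L z), E6_smul μ N (BB L)]
    rw [e1, e2] at h
    exact h
  have p0 : N * pProb μ L 0 ≤ N - E6 μ (SK0 tH tG L) := by
    have h := E6_mono hμ (fun z => (hpt z).1.1)
    rw [E6_smul μ N (pInd L 0), E6_sub μ (fun _ => (N : ℝ)) (SK0 tH tG L), E6_const hμ] at h
    exact h
  have p1 : N * pProb μ L 1 ≤ N - E6 μ (SK1 tH tG L) := by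
    have h := E6_mono hμ (fun z => (hpt z).1.2.1)
    rw [E6_smul μ N (pInd L 1), E6_sub μ (fun _ => (N : ℝ)) (SK1 tH tG L), E6_const hμ] at h
    exact h
  have p2 : N * pProb μ L 2 ≤ N - E6 μ (SK2 tH tG L) := by
    have h := E6_mono hμ (fun z => (hpt z).1.2.2.1)
    rw [E6_smul μ N (pInd L 2), E6_sub μ (fun _ => (N : ℝ)) (SK2 tH tG L), E6_const hμ] at h
    exact h
  have p3 : N * pProb μ L 3 ≤ N - E6 μ (SK3 tH tG L) := by
    have h := E6_mono hμ (fun z => (hpt z).1.2.2.2.1)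
    rw [E6_smul μ N (pInd L 3), E6_sub μ (fun _ => (N : ℝ)) (SK3 tH tG L), E6_const hμ] at h
    exact h
  have p4 : N * pProb μ L 4 ≤ N - E6 μ (SK4 tH tG L) := by
    have h := E6_mono hμ (fun z => (hpt z).1.2.2.2.2.1)
    rw [E6_smul μ N (pInd L 4), E6_sub μ (fun _ => (N : ℝ)) (SK4 tH tG L), E6_const hμ] at h
    exact h
  have p5 : N * pProb μ L 5 ≤ N - E6 μ (SK5 tH tG L) := by
    have h := E6_mono hμ (fun z => (hpt z).1.2.2.2.2.2)
    rw [E6_smul μ N (pInd L 5), E6_sub μ (fun _ => (N : ℝ)) (SK5 tH tG L), E6_const hμ] at h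
    exact h
  have eS : E6 μ (SS8 tH tG L) = E6 μ (SK0 tH tG L) + E6 μ (SK1 tH tG L) + E6 μ (SK2 tH tG L) + E6 μ (SK3 tH tG L) + E6 μ (SK4 tH tG L) + E6 μ (SK5 tH tG L) := by
    unfold SS8
    simp only [E6_add]
  have F0 : qd (μ 0) L * E6 μ (zH8 tH (fr8 0) L) + qd (μ 1) L * E6 μ (zG8 tG (fr8 0) L) ≤
      E6 μ (zX8 tX (fr8 0) L) := faceE hc (fr8_inj 0) hμ hs hT
  have F1 : qd (μ 0) L * E6 μ (zH8 tH (fr8 1) L) + qd (μ 2) L * E6 μ (zG8 tG (fr8 1) L) ≤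
      E6 μ (zX8 tX (fr8 1) L) := faceE hc (fr8_inj 1) hμ hs hT
  have F2 : qd (μ 0) L * E6 μ (zH8 tH (fr8 2) L) + qd (μ 3) L * E6 μ (zG8 tG (fr8 2) L) ≤
      E6 μ (zX8 tX (fr8 2) L) := faceE hc (fr8_inj 2) hμ hs hT
  have F3 : qd (μ 0) L * E6 μ (zH8 tH (fr8 3) L) + qd (μ 4) L * E6 μ (zG8 tG (fr8 3) L) ≤
      E6 μ (zX8 tX (fr8 3) L) := faceE hc (fr8_inj 3) hμ hs hT
  have F4 : qd (μ 0) L * E6 μ (zH8 tH (fr8 4) L) + qd (μ 5) L * E6 μ (zG8 tG (fr8 4) L) ≤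
      E6 μ (zX8 tX (fr8 4) L) := faceE hc (fr8_inj 4) hμ hs hT
  have F5 : qd (μ 1) L * E6 μ (zH8 tH (fr8 5) L) + qd (μ 2) L * E6 μ (zG8 tG (fr8 5) L) ≤
      E6 μ (zX8 tX (fr8 5) L) := faceE hc (fr8_inj 5) hμ hs hT
  have F6 : qd (μ 1) L * E6 μ (zH8 tH (fr8 6) L) + qd (μ 3) L * E6 μ (zG8 tG (fr8 6) L) ≤
      E6 μ (zX8 tX (fr8 6) L) := faceE hc (fr8_inj 6) hμ hs hT
  have F7 : qd (μ 1) L * E6 μ (zH8 tH (fr8 7) L) + qd (μ 4) L * E6 μ (zG8 tG (fr8 7) L) ≤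
      E6 μ (zX8 tX (fr8 7) L) := faceE hc (fr8_inj 7) hμ hs hT
  have F8 : qd (μ 1) L * E6 μ (zH8 tH (fr8 8) L) + qd (μ 5) L * E6 μ (zG8 tG (fr8 8) L) ≤
      E6 μ (zX8 tX (fr8 8) L) := faceE hc (fr8_inj 8) hμ hs hT
  have F9 : qd (μ 2) L * E6 μ (zH8 tH (fr8 9) L) + qd (μ 3) L * E6 μ (zG8 tG (fr8 9) L) ≤
      E6 μ (zX8 tX (fr8 9) L) := faceE hc (fr8_inj 9) hμ hs hT
  have F10 : qd (μ 2) L * E6 μ (zH8 tH (fr8 10) L) + qd (μ 4) L * E6 μ (zG8 tG (fr8 10) L) ≤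
      E6 μ (zX8 tX (fr8 10) L) := faceE hc (fr8_inj 10) hμ hs hT
  have F11 : qd (μ 2) L * E6 μ (zH8 tH (fr8 11) L) + qd (μ 5) L * E6 μ (zG8 tG (fr8 11) L) ≤
      E6 μ (zX8 tX (fr8 11) L) := faceE hc (fr8_inj 11) hμ hs hT
  have F12 : qd (μ 3) L * E6 μ (zH8 tH (fr8 12) L) + qd (μ 4) L * E6 μ (zG8 tG (fr8 12) L) ≤
      E6 μ (zX8 tX (fr8 12) L) := faceE hc (fr8_inj 12) hμ hs hT
  have F13 : qd (μ 3) L * E6 μ (zH8 tH (fr8 13) L) + qd (μ 5) L * E6 μ (zG8 tG (fr8 13) L) ≤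
      E6 μ (zX8 tX (fr8 13) L) := faceE hc (fr8_inj 13) hμ hs hT
  have F14 : qd (μ 4) L * E6 μ (zH8 tH (fr8 14) L) + qd (μ 5) L * E6 μ (zG8 tG (fr8 14) L) ≤
      E6 μ (zX8 tX (fr8 14) L) := faceE hc (fr8_inj 14) hμ hs hT
  rw [E6_SX8] at hE
  have w0 := mul_nonneg (sub_nonneg.2 (hq 0)) (sub_nonneg.2 p0)
  have w1 := mul_nonneg (sub_nonneg.2 (hq 1)) (sub_nonneg.2 p1)
  have w2 := mul_nonneg (sub_nonneg.2 (hq 2)) (sub_nonneg.2 p2)
  have w3 := mul_nonneg (sub_nonneg.2 (hq 3)) (sub_nonneg.2 p3)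
  have w4 := mul_nonneg (sub_nonneg.2 (hq 4)) (sub_nonneg.2 p4)
  have w5 := mul_nonneg (sub_nonneg.2 (hq 5)) (sub_nonneg.2 p5)
  rw [eS] at hE
  rw [E6_SK0, E6_SK1, E6_SK2, E6_SK3, E6_SK4, E6_SK5] at hE
  rw [E6_SK0] at w0
  rw [E6_SK1] at w1
  rw [E6_SK2] at w2
  rw [E6_SK3] at w3
  rw [E6_SK4] at w4
  rw [E6_SK5] at w5
  rw [Fin.sum_univ_six] at hE
  rw [Fin.sum_univ_six, Fin.sum_univ_six]
  generalize E6 μ (zH8 tH (fr8 0) L) = H0 at *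
  generalize E6 μ (zG8 tG (fr8 0) L) = G0 at *
  generalize E6 μ (zX8 tX (fr8 0) L) = X0 at *
  generalize E6 μ (zH8 tH (fr8 1) L) = H1 at *
  generalize E6 μ (zG8 tG (fr8 1) L) = G1 at *
  generalize E6 μ (zX8 tX (fr8 1) L) = X1 at *
  generalize E6 μ (zH8 tH (fr8 2) L) = H2 at *
  generalize E6 μ (zG8 tG (fr8 2) L) = G2 at *
  generalize E6 μ (zX8 tX (fr8 2) L) = X2 at *
  generalize E6 μ (zH8 tH (fr8 3) L) = H3 at *
  generalize E6 μ (zG8 tG (fr8 3) L) = G3 at *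
  generalize E6 μ (zX8 tX (fr8 3) L) = X3 at *
  generalize E6 μ (zH8 tH (fr8 4) L) = H4 at *
  generalize E6 μ (zG8 tG (fr8 4) L) = G4 at *
  generalize E6 μ (zX8 tX (fr8 4) L) = X4 at *
  generalize E6 μ (zH8 tH (fr8 5) L) = H5 at *
  generalize E6 μ (zG8 tG (fr8 5) L) = G5 at *
  generalize E6 μ (zX8 tX (fr8 5) L) = X5 at *
  generalize E6 μ (zH8 tH (fr8 6) L) = H6 at *
  generalize E6 μ (zG8 tG (fr8 6) L) = G6 at *
  generalize E6 μ (zX8 tX (fr8 6) L) = X6 at *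
  generalize E6 μ (zH8 tH (fr8 7) L) = H7 at *
  generalize E6 μ (zG8 tG (fr8 7) L) = G7 at *
  generalize E6 μ (zX8 tX (fr8 7) L) = X7 at *
  generalize E6 μ (zH8 tH (fr8 8) L) = H8 at *
  generalize E6 μ (zG8 tG (fr8 8) L) = G8 at *
  generalize E6 μ (zX8 tX (fr8 8) L) = X8 at *
  generalize E6 μ (zH8 tH (fr8 9) L) = H9 at *
  generalize E6 μ (zG8 tG (fr8 9) L) = G9 at *
  generalize E6 μ (zX8 tX (fr8 9) L) = X9 at *
  generalize E6 μ (zH8 tH (fr8 10) L) = H10 at *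
  generalize E6 μ (zG8 tG (fr8 10) L) = G10 at *
  generalize E6 μ (zX8 tX (fr8 10) L) = X10 at *
  generalize E6 μ (zH8 tH (fr8 11) L) = H11 at *
  generalize E6 μ (zG8 tG (fr8 11) L) = G11 at *
  generalize E6 μ (zX8 tX (fr8 11) L) = X11 at *
  generalize E6 μ (zH8 tH (fr8 12) L) = H12 at *
  generalize E6 μ (zG8 tG (fr8 12) L) = G12 at *
  generalize E6 μ (zX8 tX (fr8 12) L) = X12 at *
  generalize E6 μ (zH8 tH (fr8 13) L) = H13 at *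
  generalize E6 μ (zG8 tG (fr8 13) L) = G13 at *
  generalize E6 μ (zX8 tX (fr8 13) L) = X13 at *
  generalize E6 μ (zH8 tH (fr8 14) L) = H14 at *
  generalize E6 μ (zG8 tG (fr8 14) L) = G14 at *
  generalize E6 μ (zX8 tX (fr8 14) L) = X14 at *
  generalize qd (μ 0) L = n0 at *
  generalize pProb μ L 0 = r0 at *
  generalize qd (μ 1) L = n1 at *
  generalize pProb μ L 1 = r1 at *
  generalize qd (μ 2) L = n2 at *
  generalize pProb μ L 2 = r2 at *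
  generalize qd (μ 3) L = n3 at *
  generalize pProb μ L 3 = r3 at *
  generalize qd (μ 4) L = n4 at *
  generalize pProb μ L 4 = r4 at *
  generalize qd (μ 5) L = n5 at *
  generalize pProb μ L 5 = r5 at *
  generalize E6 μ (DD L) = dd at *
  generalize E6 μ (BB L) = bb at *
  have key : N * (n0 * (1 - r0) + n1 * (1 - r1) + n2 * (1 - r2) + n3 * (1 - r3) + n4 * (1 - r4) + n5 * (1 - r5)) ≤
      N * (10 - 2 * dd + q * (1 - (r0 + r1 + r2 + r3 + r4 + r5)) + 3 * bb) -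
        cb * (1 - (r0 + r1 + r2 + r3 + r4 + r5)) := by
    linarith
  have e : N * (10 - 2 * dd + q * (1 - (r0 + r1 + r2 + r3 + r4 + r5)) + 3 * bb -
      (cb : ℝ) / N * (1 - (r0 + r1 + r2 + r3 + r4 + r5))) =
      N * (10 - 2 * dd + q * (1 - (r0 + r1 + r2 + r3 + r4 + r5)) + 3 * bb) -
        cb * (1 - (r0 + r1 + r2 + r3 + r4 + r5)) := by
    field_simp
  rw [← e] at key
  exact le_of_mul_le_mul_left key hN'

end Z8h

end K4m
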