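import Mathlib
import Pool.Agent.Lib.MP_392c14_co.Z8g
import Pool.Agent.Lib.MP_392c14_co.Z8K
import Pool.Agent.Lib.MP_392c14_co.Z8L

/-!
# The elimination inequality with the numerical constants

For every graph `L` without triangles and every six probability measures the own densities, the
densities between the classes and the probabilities of the six pentagons satisfy one linear
inequality; it makes a vertex whose link is far from all pentagons impossible.
-/

set_option autoImplicit false

namespace K4m

open Finset Function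

section Z8M

variable {V : Type} [Fintype V]

/-- **The elimination inequality.** -/
theorem elimination {μ : Fin 6 → V → ℝ} (hμ : ∀ a, IsW (μ a)) {L : V → V → Bool}
    (hs : ∀ x y, L x y = L y x)
    (hT : ∀ x y t, ¬ (L x y = true ∧ L x t = true ∧ L y t = true)) {q : ℝ}
    (hq : ∀ a, qd (μ a) L ≤ q) (h1 : 2 / 7 ≤ q) (h2 : q ≤ 47 / 140) :
    ∑ k, qd (μ k) L * (1 - pProb μ L k) ≤ 10 - 2 * E6 μ (DD L) + q * (1 - ∑ k, pProb μ L k) +
      3 * E6 μ (BB L) - 5451 / 21000 * (1 - ∑ k, pProb μ L k) := by
  have h := elim8 (N := 21000) (cb := 5451) (Q1 := 200) (Q2 := 235) (by norm_num) t8_all t8_z hμ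
    hs hT hq (by norm_num; linarith) (by norm_num; linarith)
  norm_num at h ⊢
  exact h

/-- the expected number of pairs of a transversal -/
theorem E6_DD {μ : Fin 6 → V → ℝ} (hμ : ∀ a, IsW (μ a)) (L : V → V → Bool) (a b : Fin 6)
    (hab : a ≠ b) : E6 μ (fun z => lk L (z a) (z b)) = ∑ x, ∑ y, μ a x * μ b y * lk L x y := by
  have h := E6_indep2 hμ a b hab (fun x y => lk L x y) (fun _ => (1 : ℝ)) (fun _ _ => rfl)
    (fun _ _ => rfl)
  rw [E6_const hμ, mul_one] at h
  rw [← h]
  exact E6_congr μ fun z => (mul_one _).symm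

end Z8M

end K4m
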