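import Pool.Agent.Lib.MP_392c14_co.Z8b
import Pool.Agent.Lib.MP_392c14_co.Z9T

/-!
# The eight point check for the second tables
-/

set_option autoImplicit false

namespace K4m

theorem t9_all : allN 64 (chk8w t9X t9H t9G) = true := by decide +kernel

end K4m
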