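import Pool.Agent.Lib.MP_392c14_co.Purity3

/-!
# Numerical consequences of the Loomis-Whitney form for the second elimination inequality
(partly generated)
-/

set_option autoImplicit false

namespace K4m

open Finset

section Num9

variable (r : Fin 6 → ℝ)

theorem num9_fin {A B M w T : ℝ} (hw : B ≤ w * A) (hw1 : w < 3 / 2) (hAB : 0 ≤ 3 * A - 2 * B)
    (hF : ∑ j, (3 * r j ^ 5 - 2 * r j ^ 6) ≤ 1) (hT : ∑ k, r k ^ 5 * (r k - w) ≤ T)
    (hM : w * A - B + (3 * A - 2 * B) * T ≤ M * (3 - 2 * w)) :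
    ∑ k, (A * r k ^ 6 - B * r k ^ 5) ≤ M := by
  have e : (∑ k, (A * r k ^ 6 - B * r k ^ 5)) * (3 - 2 * w) =
      (w * A - B) * ∑ j, (3 * r j ^ 5 - 2 * r j ^ 6) +
        (3 * A - 2 * B) * ∑ k, r k ^ 5 * (r k - w) := by
    rw [sum_mul, mul_sum, mul_sum, ← sum_add_distrib]
    exact sum_congr rfl fun k _ => by ring
  have h1 := mul_le_mul_of_nonneg_left hF (sub_nonneg.2 hw)
  have h2 := mul_le_mul_of_nonneg_left hT hAB
  have h3 : (∑ k, (A * r k ^ 6 - B * r k ^ 5)) * (3 - 2 * w) ≤ M * (3 - 2 * w) := by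
    rw [e]
    linarith
  exact le_of_mul_le_mul_right h3 (by linarith)

theorem num9_one {A B M w : ℝ} (hr : ∀ j, 0 ≤ r j)
    (hF : ∑ j, (3 * r j ^ 5 - 2 * r j ^ 6) ≤ 1) (hb : ∀ k, r k ≤ w) (hw : B ≤ w * A)
    (hw1 : w < 3 / 2) (hAB : 0 ≤ 3 * A - 2 * B) (hM : w * A - B ≤ M * (3 - 2 * w)) :
    ∑ k, (A * r k ^ 6 - B * r k ^ 5) ≤ M := by
  refine num9_fin r hw hw1 hAB hF (T := 0) ?_ (by linarith)
  exact sum_nonpos fun k _ =>
    mul_nonpos_of_nonneg_of_nonpos (pow_nonneg (hr k) 5) (by linarith [hb k])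

theorem num9_two {A B M b c w : ℝ} (hr : ∀ j, 0 ≤ r j)
    (hF : ∑ j, (3 * r j ^ 5 - 2 * r j ^ 6) ≤ 1) {i j : Fin 6} (hi : ∀ k, k ≠ j → r k ≤ r i)
    (hb : r j ≤ b) (hbi : r i ≤ c) (hcw : c ≤ w) (hw : B ≤ w * A) (hw1 : w < 3 / 2)
    (hAB : 0 ≤ 3 * A - 2 * B) (hcb : w ≤ b)
    (hM : w * A - B + (3 * A - 2 * B) * (b ^ 5 * (b - w)) ≤ M * (3 - 2 * w)) :
    ∑ k, (A * r k ^ 6 - B * r k ^ 5) ≤ M := by
  refine num9_fin r hw hw1 hAB hF (T := b ^ 5 * (b - w)) ?_ hM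
  rw [← add_sum_erase univ _ (mem_univ j)]
  have h1 := t5_le (hr j) hb hcb
  have h2 : ∑ k ∈ univ.erase j, r k ^ 5 * (r k - w) ≤ 0 := by
    refine sum_nonpos fun k hk => mul_nonpos_of_nonneg_of_nonpos (pow_nonneg (hr k) 5) ?_
    linarith [hi k (ne_of_mem_erase hk)]
  linarith

theorem num9_three {A B M a b a2 b2 w : ℝ} (hr : ∀ j, 0 ≤ r j) (hr1 : ∀ j, r j ≤ 1)
    (hF : ∑ j, (3 * r j ^ 5 - 2 * r j ^ 6) ≤ 1) {i j : Fin 6} (hij : i ≠ j)
    (ha : a ≤ r j) (hb : r j ≤ b) (ha2 : a2 ≤ r i) (hb2 : r i ≤ b2)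
    (a0 : 0 ≤ a) (a20 : 0 ≤ a2) (hw0 : 0 ≤ w) (hw : B ≤ w * A) (hw1 : w < 3 / 2)
    (hAB : 0 ≤ 3 * A - 2 * B) (hwb : w ≤ b ∧ w ≤ b2)
    (h1 : 1 < (3 * w ^ 5 - 2 * w ^ 6) + (3 * a ^ 5 - 2 * a ^ 6) + (3 * a2 ^ 5 - 2 * a2 ^ 6))
    (hM : w * A - B + (3 * A - 2 * B) * (b ^ 5 * (b - w) + b2 ^ 5 * (b2 - w)) ≤
      M * (3 - 2 * w)) :
    ∑ k, (A * r k ^ 6 - B * r k ^ 5) ≤ M := by
  refine num9_fin r hw hw1 hAB hF (T := b ^ 5 * (b - w) + b2 ^ 5 * (b2 - w)) ?_ hM
  have hi : i ∈ univ.erase j := mem_erase.2 ⟨hij, mem_univ i⟩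
  rw [← add_sum_erase univ _ (mem_univ j), ← add_sum_erase _ _ hi]
  have g1 := t5_le (hr j) hb hwb.1
  have g2 := t5_le (hr i) hb2 hwb.2
  have g3 : ∑ k ∈ (univ.erase j).erase i, r k ^ 5 * (r k - w) ≤ 0 := by
    refine sum_nonpos fun k hk => mul_nonpos_of_nonneg_of_nonpos (pow_nonneg (hr k) 5) ?_
    by_contra hcon
    push Not at hcon
    have hk' : w ≤ r k := by linarith
    have f1 := F5_mono hw0 hk' (hr1 k)
    have f2 := F5_mono a0 ha (hr1 j)
    have f3 := F5_mono a20 ha2 (hr1 i)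
    rw [← add_sum_erase univ _ (mem_univ j), ← add_sum_erase _ _ hi,
      ← add_sum_erase _ _ hk] at hF
    have f4 : 0 ≤ ∑ x ∈ ((univ.erase j).erase i).erase k, (3 * r x ^ 5 - 2 * r x ^ 6) :=
      sum_nonneg fun x _ => F5_nonneg (hr x) (hr1 x)
    linarith
  linarith

end Num9

theorem num9_65 {r : Fin 6 → ℝ} (hr : ∀ j, 0 ≤ r j) (hr1 : ∀ j, r j ≤ 1)
    (h3 : ∀ k l, k ≠ l → r k ^ 3 + r l ^ 3 ≤ 1) (hF : ∑ j, (3 * r j ^ 5 - 2 * r j ^ 6) ≤ 1)
    (hall : ∀ k, r k ^ 6 ≤ 13 / 20) :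
    ∑ k, (3277 / 4200 * r k ^ 6 - 79 / 175 * r k ^ 5) ≤ 2689 / 14000 := by
  obtain ⟨j, -, hj⟩ := exists_max_image univ r ⟨0, mem_univ 0⟩
  have hj' : ∀ k, r k ≤ r j := fun k => hj k (mem_univ k)
  have hb : r j ≤ 2327 / 2500 := by
    refine rootn_le (hr j) (by norm_num) (n := 6) (by norm_num) ?_
    exact (hall j).trans (by norm_num)
  obtain ⟨i, hi, hi2⟩ := exists_max_image (univ.erase j) r (erase_nonempty6 j)
  have hij : i ≠ j := ne_of_mem_erase hi
  have hi' : ∀ k, k ≠ j → r k ≤ r i := fun k hk => hi2 k (mem_erase.2 ⟨hk, mem_univ k⟩)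
  have hc := h3 j i hij.symm
  by_cases c0 : (1163 / 1250 : ℝ) ≤ r j
  · have hbi : r i ≤ 1449 / 2500 := by
      refine rootn_le (hr i) (by norm_num) (n := 3) (by norm_num) ?_
      have := pow_le_pow_left₀ (by norm_num : (0 : ℝ) ≤ 1163 / 1250) c0 3
      norm_num at this ⊢
      linarith
    by_cases d0 : (1343 / 2500 : ℝ) ≤ r i
    · exact num9_three r hr hr1 hF hij c0 hb d0 hbi (w := 1447 / 2500) (by norm_num) (by norm_num) (by norm_num)
        (by norm_num) (by norm_num) (by norm_num) (by norm_num) (by norm_num) (by norm_num)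
    replace hbi : r i ≤ 1343 / 2500 := (not_le.1 d0).le
    exact num9_two r hr hF hi' hb hbi (w := 2893 / 5000) (by norm_num) (by norm_num) (by norm_num) (by norm_num)
      (by norm_num) (by norm_num)
  replace hb : r j ≤ 1163 / 1250 := (not_le.1 c0).le
  by_cases c1 : (463 / 500 : ℝ) ≤ r j
  · have hbi : r i ≤ 2953 / 5000 := by
      refine rootn_le (hr i) (by norm_num) (n := 3) (by norm_num) ?_
      have := pow_le_pow_left₀ (by norm_num : (0 : ℝ) ≤ 463 / 500) c1 3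
      norm_num at this ⊢
      linarith
    by_cases d0 : (2769 / 5000 : ℝ) ≤ r i
    · exact num9_three r hr hr1 hF hij c1 hb d0 hbi (w := 579 / 1000) (by norm_num) (by norm_num) (by norm_num)
        (by norm_num) (by norm_num) (by norm_num) (by norm_num) (by norm_num) (by norm_num)
    replace hbi : r i ≤ 2769 / 5000 := (not_le.1 d0).le
    exact num9_two r hr hF hi' hb hbi (w := 2893 / 5000) (by norm_num) (by norm_num) (by norm_num) (by norm_num)
      (by norm_num) (by norm_num)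
  replace hb : r j ≤ 463 / 500 := (not_le.1 c1).le
  by_cases c2 : (2237 / 2500 : ℝ) ≤ r j
  · have hbi : r i ≤ 657 / 1000 := by
      refine rootn_le (hr i) (by norm_num) (n := 3) (by norm_num) ?_
      have := pow_le_pow_left₀ (by norm_num : (0 : ℝ) ≤ 2237 / 2500) c2 3
      norm_num at this ⊢
      linarith
    by_cases d0 : (399 / 625 : ℝ) ≤ r i
    · exact num9_three r hr hr1 hF hij c2 hb d0 hbi (w := 364 / 625) (by norm_num) (by norm_num) (by norm_num)
        (by norm_num) (by norm_num) (by norm_num) (by norm_num) (by norm_num) (by norm_num)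
    replace hbi : r i ≤ 399 / 625 := (not_le.1 d0).le
    exact num9_two r hr hF hi' hb hbi (w := 399 / 625) (by norm_num) (by norm_num) (by norm_num) (by norm_num)
      (by norm_num) (by norm_num)
  replace hb : r j ≤ 2237 / 2500 := (not_le.1 c2).le
  by_cases c3 : (1103 / 1250 : ℝ) ≤ r j
  · have hbi : r i ≤ 679 / 1000 := by
      refine rootn_le (hr i) (by norm_num) (n := 3) (by norm_num) ?_
      have := pow_le_pow_left₀ (by norm_num : (0 : ℝ) ≤ 1103 / 1250) c3 3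
      norm_num at this ⊢
      linarith
    exact num9_two r hr hF hi' hb hbi (w := 679 / 1000) (by norm_num) (by norm_num) (by norm_num) (by norm_num)
      (by norm_num) (by norm_num)
  replace hb : r j ≤ 1103 / 1250 := (not_le.1 c3).le
  exact num9_one r hr hF (fun k => (hj' k).trans hb) (by norm_num) (by norm_num) (by norm_num) (by norm_num)

theorem num9_66 {r : Fin 6 → ℝ} (hr : ∀ j, 0 ≤ r j) (hr1 : ∀ j, r j ≤ 1)
    (h3 : ∀ k l, k ≠ l → r k ^ 3 + r l ^ 3 ≤ 1) (hF : ∑ j, (3 * r j ^ 5 - 2 * r j ^ 6) ≤ 1)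
    (hall : ∀ k, r k ^ 6 ≤ 33 / 50) :
    ∑ k, (3277 / 4200 * r k ^ 6 - 79 / 175 * r k ^ 5) ≤ 13711 / 70000 := by
  obtain ⟨j, -, hj⟩ := exists_max_image univ r ⟨0, mem_univ 0⟩
  have hj' : ∀ k, r k ≤ r j := fun k => hj k (mem_univ k)
  have hb : r j ≤ 2333 / 2500 := by
    refine rootn_le (hr j) (by norm_num) (n := 6) (by norm_num) ?_
    exact (hall j).trans (by norm_num)
  obtain ⟨i, hi, hi2⟩ := exists_max_image (univ.erase j) r (erase_nonempty6 j)
  have hij : i ≠ j := ne_of_mem_erase hi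
  have hi' : ∀ k, k ≠ j → r k ≤ r i := fun k hk => hi2 k (mem_erase.2 ⟨hk, mem_univ k⟩)
  have hc := h3 j i hij.symm
  by_cases c0 : (4653 / 5000 : ℝ) ≤ r j
  · have hbi : r i ≤ 579 / 1000 := by
      refine rootn_le (hr i) (by norm_num) (n := 3) (by norm_num) ?_
      have := pow_le_pow_left₀ (by norm_num : (0 : ℝ) ≤ 4653 / 5000) c0 3
      norm_num at this ⊢
      linarith
    exact num9_two r hr hF hi' hb hbi (w := 579 / 1000) (by norm_num) (by norm_num) (by norm_num) (by norm_num)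
      (by norm_num) (by norm_num)
  replace hb : r j ≤ 4653 / 5000 := (not_le.1 c0).le
  by_cases c1 : (4539 / 5000 : ℝ) ≤ r j
  · have hbi : r i ≤ 1579 / 2500 := by
      refine rootn_le (hr i) (by norm_num) (n := 3) (by norm_num) ?_
      have := pow_le_pow_left₀ (by norm_num : (0 : ℝ) ≤ 4539 / 5000) c1 3
      norm_num at this ⊢
      linarith
    by_cases d0 : (609 / 1000 : ℝ) ≤ r i
    · exact num9_three r hr hr1 hF hij c1 hb d0 hbi (w := 2899 / 5000) (by norm_num) (by norm_num) (by norm_num)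
        (by norm_num) (by norm_num) (by norm_num) (by norm_num) (by norm_num) (by norm_num)
    replace hbi : r i ≤ 609 / 1000 := (not_le.1 d0).le
    exact num9_two r hr hF hi' hb hbi (w := 609 / 1000) (by norm_num) (by norm_num) (by norm_num) (by norm_num)
      (by norm_num) (by norm_num)
  replace hb : r j ≤ 4539 / 5000 := (not_le.1 c1).le
  by_cases c2 : (554 / 625 : ℝ) ≤ r j
  · have hbi : r i ≤ 3361 / 5000 := by
      refine rootn_le (hr i) (by norm_num) (n := 3) (by norm_num) ?_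
      have := pow_le_pow_left₀ (by norm_num : (0 : ℝ) ≤ 554 / 625) c2 3
      norm_num at this ⊢
      linarith
    exact num9_two r hr hF hi' hb hbi (w := 3361 / 5000) (by norm_num) (by norm_num) (by norm_num) (by norm_num)
      (by norm_num) (by norm_num)
  replace hb : r j ≤ 554 / 625 := (not_le.1 c2).le
  exact num9_one r hr hF (fun k => (hj' k).trans hb) (by norm_num) (by norm_num) (by norm_num) (by norm_num)

theorem num9_67 {r : Fin 6 → ℝ} (hr : ∀ j, 0 ≤ r j) (hr1 : ∀ j, r j ≤ 1)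
    (h3 : ∀ k l, k ≠ l → r k ^ 3 + r l ^ 3 ≤ 1) (hF : ∑ j, (3 * r j ^ 5 - 2 * r j ^ 6) ≤ 1)
    (hall : ∀ k, r k ^ 6 ≤ 67 / 100) :
    ∑ k, (3277 / 4200 * r k ^ 6 - 79 / 175 * r k ^ 5) ≤ 1397 / 7000 := by
  obtain ⟨j, -, hj⟩ := exists_max_image univ r ⟨0, mem_univ 0⟩
  have hj' : ∀ k, r k ≤ r j := fun k => hj k (mem_univ k)
  have hb : r j ≤ 1871 / 2000 := by
    refine rootn_le (hr j) (by norm_num) (n := 6) (by norm_num) ?_
    exact (hall j).trans (by norm_num)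
  obtain ⟨i, hi, hi2⟩ := exists_max_image (univ.erase j) r (erase_nonempty6 j)
  have hij : i ≠ j := ne_of_mem_erase hi
  have hi' : ∀ k, k ≠ j → r k ≤ r i := fun k hk => hi2 k (mem_erase.2 ⟨hk, mem_univ k⟩)
  have hc := h3 j i hij.symm
  by_cases c0 : (931 / 1000 : ℝ) ≤ r j
  · have hbi : r i ≤ 289 / 500 := by
      refine rootn_le (hr i) (by norm_num) (n := 3) (by norm_num) ?_
      have := pow_le_pow_left₀ (by norm_num : (0 : ℝ) ≤ 931 / 1000) c0 3
      norm_num at this ⊢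
      linarith
    exact num9_two r hr hF hi' hb hbi (w := 579 / 1000) (by norm_num) (by norm_num) (by norm_num) (by norm_num)
      (by norm_num) (by norm_num)
  replace hb : r j ≤ 931 / 1000 := (not_le.1 c0).le
  by_cases c1 : (112 / 125 : ℝ) ≤ r j
  · have hbi : r i ≤ 131 / 200 := by
      refine rootn_le (hr i) (by norm_num) (n := 3) (by norm_num) ?_
      have := pow_le_pow_left₀ (by norm_num : (0 : ℝ) ≤ 112 / 125) c1 3
      norm_num at this ⊢
      linarith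
    exact num9_two r hr hF hi' hb hbi (w := 131 / 200) (by norm_num) (by norm_num) (by norm_num) (by norm_num)
      (by norm_num) (by norm_num)
  replace hb : r j ≤ 112 / 125 := (not_le.1 c1).le
  by_cases c2 : (89 / 100 : ℝ) ≤ r j
  · have hbi : r i ≤ 333 / 500 := by
      refine rootn_le (hr i) (by norm_num) (n := 3) (by norm_num) ?_
      have := pow_le_pow_left₀ (by norm_num : (0 : ℝ) ≤ 89 / 100) c2 3
      norm_num at this ⊢
      linarith
    exact num9_two r hr hF hi' hb hbi (w := 333 / 500) (by norm_num) (by norm_num) (by norm_num) (by norm_num)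
      (by norm_num) (by norm_num)
  replace hb : r j ≤ 89 / 100 := (not_le.1 c2).le
  exact num9_one r hr hF (fun k => (hj' k).trans hb) (by norm_num) (by norm_num) (by norm_num) (by norm_num)

theorem num9_65s {r : Fin 6 → ℝ} (hr : ∀ j, 0 ≤ r j) (hr1 : ∀ j, r j ≤ 1)
    (h3 : ∀ k l, k ≠ l → r k ^ 3 + r l ^ 3 ≤ 1) (hF : ∑ j, (3 * r j ^ 5 - 2 * r j ^ 6) ≤ 1)
    (hall : ∀ k, r k ^ 6 ≤ 13 / 20) :
    ∑ k, (2059 / 4200 * r k ^ 6 - 79 / 175 * r k ^ 5) ≤ 1 / 280 := by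
  obtain ⟨j, -, hj⟩ := exists_max_image univ r ⟨0, mem_univ 0⟩
  have hj' : ∀ k, r k ≤ r j := fun k => hj k (mem_univ k)
  have hb : r j ≤ 931 / 1000 := by
    refine rootn_le (hr j) (by norm_num) (n := 6) (by norm_num) ?_
    exact (hall j).trans (by norm_num)
  obtain ⟨i, hi, hi2⟩ := exists_max_image (univ.erase j) r (erase_nonempty6 j)
  have hij : i ≠ j := ne_of_mem_erase hi
  have hi' : ∀ k, k ≠ j → r k ≤ r i := fun k hk => hi2 k (mem_erase.2 ⟨hk, mem_univ k⟩)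
  have hc := h3 j i hij.symm
  by_cases c0 : (929 / 1000 : ℝ) ≤ r j
  · have hbi : r i ≤ 73 / 125 := by
      refine rootn_le (hr i) (by norm_num) (n := 3) (by norm_num) ?_
      have := pow_le_pow_left₀ (by norm_num : (0 : ℝ) ≤ 929 / 1000) c0 3
      norm_num at this ⊢
      linarith
    exact num9_two r hr hF hi' hb hbi (w := 921 / 1000) (by norm_num) (by norm_num) (by norm_num) (by norm_num)
      (by norm_num) (by norm_num)
  replace hb : r j ≤ 929 / 1000 := (not_le.1 c0).le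
  exact num9_one r hr hF (fun k => (hj' k).trans hb) (by norm_num) (by norm_num) (by norm_num) (by norm_num)

theorem num9_66s {r : Fin 6 → ℝ} (hr : ∀ j, 0 ≤ r j) (hr1 : ∀ j, r j ≤ 1)
    (h3 : ∀ k l, k ≠ l → r k ^ 3 + r l ^ 3 ≤ 1) (hF : ∑ j, (3 * r j ^ 5 - 2 * r j ^ 6) ≤ 1)
    (hall : ∀ k, r k ^ 6 ≤ 33 / 50) :
    ∑ k, (2059 / 4200 * r k ^ 6 - 79 / 175 * r k ^ 5) ≤ 313 / 70000 := by
  obtain ⟨j, -, hj⟩ := exists_max_image univ r ⟨0, mem_univ 0⟩
  have hj' : ∀ k, r k ≤ r j := fun k => hj k (mem_univ k)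
  have hb : r j ≤ 1867 / 2000 := by
    refine rootn_le (hr j) (by norm_num) (n := 6) (by norm_num) ?_
    exact (hall j).trans (by norm_num)
  obtain ⟨i, hi, hi2⟩ := exists_max_image (univ.erase j) r (erase_nonempty6 j)
  have hij : i ≠ j := ne_of_mem_erase hi
  have hi' : ∀ k, k ≠ j → r k ≤ r i := fun k hk => hi2 k (mem_erase.2 ⟨hk, mem_univ k⟩)
  have hc := h3 j i hij.symm
  by_cases c0 : (931 / 1000 : ℝ) ≤ r j
  · have hbi : r i ≤ 289 / 500 := by
      refine rootn_le (hr i) (by norm_num) (n := 3) (by norm_num) ?_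
      have := pow_le_pow_left₀ (by norm_num : (0 : ℝ) ≤ 931 / 1000) c0 3
      norm_num at this ⊢
      linarith
    exact num9_two r hr hF hi' hb hbi (w := 921 / 1000) (by norm_num) (by norm_num) (by norm_num) (by norm_num)
      (by norm_num) (by norm_num)
  replace hb : r j ≤ 931 / 1000 := (not_le.1 c0).le
  exact num9_one r hr hF (fun k => (hj' k).trans hb) (by norm_num) (by norm_num) (by norm_num) (by norm_num)

theorem num9_67s {r : Fin 6 → ℝ} (hr : ∀ j, 0 ≤ r j) (hr1 : ∀ j, r j ≤ 1)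
    (h3 : ∀ k l, k ≠ l → r k ^ 3 + r l ^ 3 ≤ 1) (hF : ∑ j, (3 * r j ^ 5 - 2 * r j ^ 6) ≤ 1)
    (hall : ∀ k, r k ^ 6 ≤ 67 / 100) :
    ∑ k, (2059 / 4200 * r k ^ 6 - 79 / 175 * r k ^ 5) ≤ 369 / 70000 := by
  obtain ⟨j, -, hj⟩ := exists_max_image univ r ⟨0, mem_univ 0⟩
  have hj' : ∀ k, r k ≤ r j := fun k => hj k (mem_univ k)
  have hb : r j ≤ 1871 / 2000 := by
    refine rootn_le (hr j) (by norm_num) (n := 6) (by norm_num) ?_
    exact (hall j).trans (by norm_num)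
  obtain ⟨i, hi, hi2⟩ := exists_max_image (univ.erase j) r (erase_nonempty6 j)
  have hij : i ≠ j := ne_of_mem_erase hi
  have hi' : ∀ k, k ≠ j → r k ≤ r i := fun k hk => hi2 k (mem_erase.2 ⟨hk, mem_univ k⟩)
  have hc := h3 j i hij.symm
  by_cases c0 : (933 / 1000 : ℝ) ≤ r j
  · have hbi : r i ≤ 573 / 1000 := by
      refine rootn_le (hr i) (by norm_num) (n := 3) (by norm_num) ?_
      have := pow_le_pow_left₀ (by norm_num : (0 : ℝ) ≤ 933 / 1000) c0 3
      norm_num at this ⊢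
      linarith
    exact num9_two r hr hF hi' hb hbi (w := 921 / 1000) (by norm_num) (by norm_num) (by norm_num) (by norm_num)
      (by norm_num) (by norm_num)
  replace hb : r j ≤ 933 / 1000 := (not_le.1 c0).le
  exact num9_one r hr hF (fun k => (hj' k).trans hb) (by norm_num) (by norm_num) (by norm_num) (by norm_num)

end K4m
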