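import Mathlib
import Pool.Agent.Lib.MP_392c14_co.Z8g
import Pool.Agent.Lib.MP_392c14_co.Purity2

/-!
# Stage 1 with the boundary of the pentagons: the check at one transversal (partly generated)

The check of `Z8e` with two more terms: `bt` at the pentagons and `gm` times the number of
directions in which the transversal agrees with a pentagon at the other transversals.
-/

set_option autoImplicit false

namespace K4m

open Finset Function

/-- evaluate the argument first -/
def frn (n : ℕ) (f : ℕ → ℕ) : ℕ :=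
  match n with
  | Nat.zero => f Nat.zero
  | Nat.succ k => f (Nat.succ k)

theorem frn_eq (n : ℕ) (f : ℕ → ℕ) : frn n f = f n := by cases n <;> rfl

/-- one of six values -/
def f9 (a c0 c1 c2 c3 c4 c5 : ℕ) : ℕ :=
  cond (Nat.beq a c0) 1 (cond (Nat.beq a c1) 1 (cond (Nat.beq a c2) 1 (cond (Nat.beq a c3) 1
    (cond (Nat.beq a c4) 1 (cond (Nat.beq a c5) 1 0)))))

/-- the transversal agrees with a pentagon off the class `0` -/
def fx90 (g : ℕ) : ℕ := frn (Nat.land g 32736) fun a => f9 a 25696 22528 12544 3200 832 672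

/-- the transversal agrees with a pentagon off the class `1` -/
def fx91 (g : ℕ) : ℕ := frn (Nat.land g 32286) fun a => f9 a 25600 22534 12296 3088 530 524

/-- the transversal agrees with a pentagon off the class `2` -/
def fx92 (g : ℕ) : ℕ := frn (Nat.land g 29149) fun a => f9 a 24640 20484 12553 145 336 140

/-- the transversal agrees with a pentagon off the class `3` -/
def fx93 (g : ℕ) : ℕ := frn (Nat.land g 19899) fun a => f9 a 17440 18434 265 3217 274 168

/-- the transversal agrees with a pentagon off the class `4` -/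
def fx94 (g : ℕ) : ℕ := frn (Nat.land g 11127) fun a => f9 a 8288 2054 8449 2065 850 548

/-- the transversal agrees with a pentagon off the class `5` -/
def fx95 (g : ℕ) : ℕ := frn (Nat.land g 5871) fun a => f9 a 1120 4102 4105 1153 578 684

/-- number of directions in which the transversal agrees with a pentagon -/
def fx9 (g : ℕ) : ℕ :=
  Nat.add (fx90 g) (Nat.add (fx91 g) (Nat.add (fx92 g) (Nat.add (fx93 g) (Nat.add (fx94 g)
    (fx95 g)))))

/-- the inequality at a transversal for one value of the bound of the own densities -/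
def zin9 (N cb bt gm KB Q x d np fx b sh : ℕ) : Bool :=
  Nat.ble (Nat.add (Nat.mul Q (Nat.mul 6 N)) (Nat.add (Nat.mul 700 x)
    (Nat.add (Nat.mul 1400 (Nat.mul N d)) (Nat.mul (Nat.mul 700 np)
      (Nat.add cb (Nat.mul gm fx))))))
    (Nat.add (Nat.mul 7000 N) (Nat.add (Nat.mul Q N) (Nat.add (Nat.mul KB (Nat.mul N b))
      (Nat.add (Nat.mul Q sh) (Nat.mul 700 (Nat.mul bt (Nat.sub 1 np)))))))

/-- the check at one graph -/
def zlf9 (tX tH tG N cb bt gm KB Q1 Q2 : ℕ) (b01 b02 b12 b03 b13 b23 b04 b14 b24 b34 b05 b15 b25 b35 b45 : ℕ) : Bool :=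
  frc (sk0 tH tG b01 b02 b12 b03 b13 b23 b04 b14 b24 b34 b05 b15 b25 b35 b45) fun s0 =>
  frc (sk1 tH tG b01 b02 b12 b03 b13 b23 b04 b14 b24 b34 b05 b15 b25 b35 b45) fun s1 =>
  frc (sk2 tH tG b01 b02 b12 b03 b13 b23 b04 b14 b24 b34 b05 b15 b25 b35 b45) fun s2 =>
  frc (sk3 tH tG b01 b02 b12 b03 b13 b23 b04 b14 b24 b34 b05 b15 b25 b35 b45) fun s3 =>
  frc (sk4 tH tG b01 b02 b12 b03 b13 b23 b04 b14 b24 b34 b05 b15 b25 b35 b45) fun s4 =>
  frc (sk5 tH tG b01 b02 b12 b03 b13 b23 b04 b14 b24 b34 b05 b15 b25 b35 b45) fun s5 =>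
  frc (sx8 tX b01 b02 b12 b03 b13 b23 b04 b14 b24 b34 b05 b15 b25 b35 b45) fun x =>
  frc (sd8 b01 b02 b12 b03 b13 b23 b04 b14 b24 b34 b05 b15 b25 b35 b45) fun d =>
  frc (sb8 b01 b02 b12 b03 b13 b23 b04 b14 b24 b34 b05 b15 b25 b35 b45) fun b =>
  frc (sg8 b01 b02 b12 b03 b13 b23 b04 b14 b24 b34 b05 b15 b25 b35 b45) fun g =>
  frc (np8 g) fun np => frc (fx9 g) fun fx =>
  frc (Nat.add s0 (Nat.add s1 (Nat.add s2 (Nat.add s3 (Nat.add s4 s5))))) fun sh =>
  Nat.ble s0 N && (Nat.ble s1 N && (Nat.ble s2 N && (Nat.ble s3 N && (Nat.ble s4 N && (Nat.ble s5 N && ((!(Nat.beq g 25696) || Nat.beq s0 0) && ((!(Nat.beq g 22534) || Nat.beq s1 0) && ((!(Nat.beq g 12553) || Nat.beq s2 0) && ((!(Nat.beq g 3217) || Nat.beq s3 0) && ((!(Nat.beq g 850) || Nat.beq s4 0) && ((!(Nat.beq g 684) || Nat.beq s5 0) && (zin9 N cb bt gm KB Q1 x d np fx b sh && (zin9 N cb bt gm KB Q2 x d np fx b sh)))))))))))))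

/-- all graphs without triangles -/
def chkz9 (tX tH tG N cb bt gm KB Q1 Q2 : ℕ) : Bool :=
  al2 fun b01 =>
  al2 fun b02 =>
  al2 fun b12 => tr3 b01 b02 b12 || (
  al2 fun b03 =>
  al2 fun b13 => tr3 b01 b03 b13 || (
  al2 fun b23 => tr3 b02 b03 b23 || ( tr3 b12 b13 b23 || (
  al2 fun b04 =>
  al2 fun b14 => tr3 b01 b04 b14 || (
  al2 fun b24 => tr3 b02 b04 b24 || ( tr3 b12 b14 b24 || (
  al2 fun b34 => tr3 b03 b04 b34 || ( tr3 b13 b14 b34 || ( tr3 b23 b24 b34 || (
  al2 fun b05 =>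
  al2 fun b15 => tr3 b01 b05 b15 || (
  al2 fun b25 => tr3 b02 b05 b25 || ( tr3 b12 b15 b25 || (
  al2 fun b35 => tr3 b03 b05 b35 || ( tr3 b13 b15 b35 || ( tr3 b23 b25 b35 || (
  al2 fun b45 => tr3 b04 b05 b45 || ( tr3 b14 b15 b45 || ( tr3 b24 b25 b45 || ( tr3 b34 b35 b45 || (
  zlf9 tX tH tG N cb bt gm KB Q1 Q2 b01 b02 b12 b03 b13 b23 b04 b14 b24 b34 b05 b15 b25 b35 b45))))))))))))))))))))

theorem chkz9_spec {tX tH tG N cb bt gm KB Q1 Q2 : ℕ}
    (h : chkz9 tX tH tG N cb bt gm KB Q1 Q2 = true) (b01 b02 b12 b03 b13 b23 b04 b14 b24 b34 b05 b15 b25 b35 b45 : Bool)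
    (h1 : (b01 && b02 && b12) = false)
    (h2 : (b01 && b03 && b13) = false)
    (h3 : (b02 && b03 && b23) = false)
    (h4 : (b12 && b13 && b23) = false)
    (h5 : (b01 && b04 && b14) = false)
    (h6 : (b02 && b04 && b24) = false)
    (h7 : (b12 && b14 && b24) = false)
    (h8 : (b03 && b04 && b34) = false)
    (h9 : (b13 && b14 && b34) = false)
    (h10 : (b23 && b24 && b34) = false)
    (h11 : (b01 && b05 && b15) = false)
    (h12 : (b02 && b05 && b25) = false)
    (h13 : (b12 && b15 && b25) = false)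
    (h14 : (b03 && b05 && b35) = false)
    (h15 : (b13 && b15 && b35) = false)
    (h16 : (b23 && b25 && b35) = false)
    (h17 : (b04 && b05 && b45) = false)
    (h18 : (b14 && b15 && b45) = false)
    (h19 : (b24 && b25 && b45) = false)
    (h20 : (b34 && b35 && b45) = false) :
    zlf9 tX tH tG N cb bt gm KB Q1 Q2 b01.toNat b02.toNat b12.toNat b03.toNat b13.toNat b23.toNat b04.toNat b14.toNat b24.toNat b34.toNat b05.toNat b15.toNat b25.toNat b35.toNat b45.toNat = true := by
  unfold chkz9 at h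
  have h := al2_spec h b01
  have h := al2_spec h b02
  have h := al2_spec h b12
  rw [tr3_false h1, Bool.false_or] at h
  have h := al2_spec h b03
  have h := al2_spec h b13
  rw [tr3_false h2, Bool.false_or] at h
  have h := al2_spec h b23
  rw [tr3_false h3, Bool.false_or] at h
  rw [tr3_false h4, Bool.false_or] at h
  have h := al2_spec h b04
  have h := al2_spec h b14
  rw [tr3_false h5, Bool.false_or] at h
  have h := al2_spec h b24
  rw [tr3_false h6, Bool.false_or] at h
  rw [tr3_false h7, Bool.false_or] at h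
  have h := al2_spec h b34
  rw [tr3_false h8, Bool.false_or] at h
  rw [tr3_false h9, Bool.false_or] at h
  rw [tr3_false h10, Bool.false_or] at h
  have h := al2_spec h b05
  have h := al2_spec h b15
  rw [tr3_false h11, Bool.false_or] at h
  have h := al2_spec h b25
  rw [tr3_false h12, Bool.false_or] at h
  rw [tr3_false h13, Bool.false_or] at h
  have h := al2_spec h b35
  rw [tr3_false h14, Bool.false_or] at h
  rw [tr3_false h15, Bool.false_or] at h
  rw [tr3_false h16, Bool.false_or] at h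
  have h := al2_spec h b45
  rw [tr3_false h17, Bool.false_or] at h
  rw [tr3_false h18, Bool.false_or] at h
  rw [tr3_false h19, Bool.false_or] at h
  rw [tr3_false h20, Bool.false_or] at h
  exact h

/-- the code of a matrix of bits -/
def cod9 (l : Fin 6 → Fin 6 → Bool) : ℕ :=
  sg8 (l 0 1).toNat (l 0 2).toNat (l 1 2).toNat (l 0 3).toNat (l 1 3).toNat (l 2 3).toNat (l 0 4).toNat (l 1 4).toNat (l 2 4).toNat (l 3 4).toNat (l 0 5).toNat (l 1 5).toNat (l 2 5).toNat (l 3 5).toNat (l 4 5).toNat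

theorem cod9_congr {l m : Fin 6 → Fin 6 → Bool} (h : ∀ a b : Fin 6, a ≠ b → l a b = m a b) :
    cod9 l = cod9 m := by
  unfold cod9
  rw [h 0 1 (by decide), h 0 2 (by decide), h 1 2 (by decide), h 0 3 (by decide), h 1 3 (by decide), h 2 3 (by decide), h 0 4 (by decide), h 1 4 (by decide), h 2 4 (by decide), h 3 4 (by decide), h 0 5 (by decide), h 1 5 (by decide), h 2 5 (by decide), h 3 5 (by decide), h 4 5 (by decide)]

/-- a pentagon off the class `i` -/
def mix9 (i j : Fin 6) (c : Fin 6 → Bool) (a b : Fin 6) : Bool :=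
  if a = i then c b else if b = i then c a else pTab j a b

/-- the six indicators -/
def fi9 (i : Fin 6) (g : ℕ) : ℕ :=
  (![fx90, fx91, fx92, fx93, fx94, fx95] : Fin 6 → ℕ → ℕ) i g

theorem fi9_mix : ∀ (i j : Fin 6) (b0 b1 b2 b3 b4 b5 : Bool),
    fi9 i (cod9 (mix9 i j ![b0, b1, b2, b3, b4, b5])) = 1 := by decide +kernel

theorem fi9_agree {l : Fin 6 → Fin 6 → Bool} (hl : ∀ a b, l a b = l b a) {i j : Fin 6}
    (h : ∀ a b : Fin 6, a ≠ i → b ≠ i → l a b = pTab j a b) : fi9 i (cod9 l) = 1 := by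
  have e : ![l i 0, l i 1, l i 2, l i 3, l i 4, l i 5] = l i := by
    funext a
    fin_cases a <;> rfl
  have h2 := fi9_mix i j (l i 0) (l i 1) (l i 2) (l i 3) (l i 4) (l i 5)
  rw [e] at h2
  rw [← h2, cod9_congr (l := l) (m := mix9 i j (l i))]
  intro a b hab
  unfold mix9
  by_cases h3 : a = i
  · rw [if_pos h3, h3]
  · rw [if_neg h3]
    by_cases h4 : b = i
    · rw [if_pos h4, h4, hl a i]
    · rw [if_neg h4, h a b h3 h4]

theorem fx9_eq (g : ℕ) : (fx9 g : ℝ) = ∑ i : Fin 6, (fi9 i g : ℝ) := by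
  rw [Fin.sum_univ_six]
  unfold fx9 fi9
  simp only [Nat.add_eq, Nat.cast_add, Matrix.cons_val_zero, Matrix.cons_val_one, Matrix.cons_val]
  ring

end K4m
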