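import Mathlib
import Pool.Agent.Lib.MP_392c14_co.Z9a

/-!
# Stage 1 with the boundary of the pentagons: the elimination inequality (partly generated)
-/

set_option autoImplicit false

namespace K4m

open Finset Function

section Z9b

variable {V : Type} [Fintype V]

/-- the boundary of the pentagons at a transversal -/
noncomputable def UU (μ : Fin 6 → V → ℝ) (L : V → V → Bool) (z : Fin 6 → V) : ℝ :=
  ∑ j, ∑ i, pQ μ L i j z * (1 - pInd L j z)

theorem UU_pent (μ : Fin 6 → V → ℝ) {L : V → V → Bool} (z : Fin 6 → V) {k : Fin 6}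
    (hk : ∀ a b : Fin 6, L (z a) (z b) = pTab k a b) : UU μ L z = 0 := by
  refine sum_eq_zero fun j _ => sum_eq_zero fun i _ => ?_
  by_cases hjk : j = k
  · rw [hjk, pInd_one hk, sub_self, mul_zero]
  · have : pQ μ L i j z = 0 := by
      unfold pQ
      rw [if_neg]
      intro hq
      have h2 := pQ_agree μ L hq
      refine hjk (pTab_pent i j k (pAgB_iff.2 fun a b ha hb => ?_))
      rw [← hk a b]
      exact h2 a b ha hb
    rw [this, zero_mul]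

theorem UU_le (μ : Fin 6 → V → ℝ) {L : V → V → Bool} (hs : ∀ x y, L x y = L y x)
    (hT : ∀ x y t, ¬ (L x y = true ∧ L x t = true ∧ L y t = true)) (z : Fin 6 → V) :
    UU μ L z ≤ (np8 (cod9 (lz L z)) : ℝ) * (fx9 (cod9 (lz L z)) : ℝ) := by
  by_cases h : ∃ k, ∀ a b : Fin 6, L (z a) (z b) = pTab k a b
  · obtain ⟨k, hk⟩ := h
    rw [UU_pent μ z hk]
    positivity
  · have hnp : np8 (cod9 (lz L z)) = 1 := by
      by_contra hcon
      obtain ⟨k, hk⟩ := np8_zero hcon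
      exact h ⟨k, pent_of_code hs z hT hk⟩
    push Not at h
    have hz : ∀ j, pInd L j z = 0 := by
      intro j
      refine pInd_zero fun hj => ?_
      obtain ⟨a, b, hab⟩ := h j
      exact hab (hj a b)
    have e3 : ∀ i, ∑ j, pQ μ L i j z ≤ (fi9 i (cod9 (lz L z)) : ℝ) := by
      intro i
      by_cases hex : ∃ j, 0 < pav μ i (pInd L j) z
      · obtain ⟨j, hj⟩ := hex
        have hagj := pQ_agree μ L hj
        have hfx : fi9 i (cod9 (lz L z)) = 1 := fi9_agree (fun a b => hs _ _) hagj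
        rw [hfx, sum_eq_single_of_mem j (mem_univ j)]
        · unfold pQ
          rw [if_pos hj, Nat.cast_one]
        · intro k _ hkj
          unfold pQ
          rw [if_neg]
          intro hk
          have hagk := pQ_agree μ L hk
          refine hkj (pTab_pent i k j (pAgB_iff.2 fun a b ha hb => ?_))
          rw [← hagk a b ha hb, ← hagj a b ha hb]
      · push Not at hex
        have : ∑ j, pQ μ L i j z = 0 := by
          refine sum_eq_zero fun j _ => ?_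
          unfold pQ
          rw [if_neg (not_lt.2 (hex j))]
        rw [this]
        exact Nat.cast_nonneg _
    have e1 : UU μ L z = ∑ i, ∑ j, pQ μ L i j z := by
      unfold UU
      rw [sum_comm]
      refine sum_congr rfl fun i _ => sum_congr rfl fun j _ => ?_
      rw [hz j, sub_zero, mul_one]
    rw [hnp, Nat.cast_one, one_mul, fx9_eq, e1]
    exact sum_le_sum fun i _ => e3 i

theorem E6_UU (μ : Fin 6 → V → ℝ) (L : V → V → Bool) :
    E6 μ (UU μ L) = ∑ j, ∑ i, PE μ (fun z => pQ μ L i j z * (1 - pInd L j z)) := by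
  change PE μ (fun z => ∑ j, ∑ i, pQ μ L i j z * (1 - pInd L j z)) = _
  rw [PE_sum]
  exact sum_congr rfl fun j _ => PE_sum μ univ _

theorem zin9_real {N cb bt gm KB Q x d np fx b sh : ℕ}
    (h : zin9 N cb bt gm KB Q x d np fx b sh = true) :
    (Q : ℝ) * (6 * N) + 700 * x + 1400 * (N * d) + 700 * np * (cb + gm * fx) ≤
      7000 * N + Q * N + KB * (N * b) + Q * sh + 700 * (bt * (1 - np : ℕ)) := by
  unfold zin9 at h
  have h1 : Q * (6 * N) + (700 * x + (1400 * (N * d) + 700 * np * (cb + gm * fx))) ≤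
      7000 * N + (Q * N + (KB * (N * b) + (Q * sh + 700 * (bt * (1 - np))))) :=
    Nat.le_of_ble_eq_true h
  have h2 : (Q : ℝ) * (6 * N) + (700 * x + (1400 * (N * d) + 700 * np * (cb + gm * fx))) ≤
      7000 * N + (Q * N + (KB * (N * b) + (Q * sh + 700 * (bt * (1 - np : ℕ))))) := by
    exact_mod_cast h1
  linarith

/-- the terms that distinguish the pentagons -/
theorem np9_le {cb bt gm fx g : ℕ} {P : Fin 6 → ℝ} {U : ℝ} (hp0 : ∀ k, 0 ≤ P k)
    (hp1 : (∃ k, g = pc8 k) → ∑ k, P k = 1) (hU : U ≤ (np8 g : ℝ) * fx) :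
    (cb : ℝ) * (1 - ∑ k, P k) + gm * U - bt * ∑ k, P k ≤
      (np8 g : ℝ) * (cb + gm * fx) - bt * (1 - np8 g : ℕ) := by
  have hc0 : (0 : ℝ) ≤ cb := Nat.cast_nonneg _
  have hb0 : (0 : ℝ) ≤ bt := Nat.cast_nonneg _
  have hg0 : (0 : ℝ) ≤ gm := Nat.cast_nonneg _
  have h2 : 0 ≤ ∑ k, P k := sum_nonneg fun k _ => hp0 k
  have h3 := mul_le_mul_of_nonneg_left hU hg0
  by_cases h1 : np8 g = 1
  · rw [h1] at h3 ⊢
    norm_num at h3 ⊢
    nlinarith
  · have h4 := hp1 (np8_zero h1)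
    obtain ⟨k, hk⟩ := np8_zero h1
    have h5 : np8 g = 0 := by
      rw [hk]
      fin_cases k <;> rfl
    rw [h5] at h3 ⊢
    rw [h4]
    norm_num at h3 ⊢
    linarith

variable (μ : Fin 6 → V → ℝ) {L : V → V → Bool} (hs : ∀ x y, L x y = L y x)
  (hT : ∀ x y t, ¬ (L x y = true ∧ L x t = true ∧ L y t = true)) (z : Fin 6 → V)
include hs hT

theorem zpoint9 {tX tH tG N cb bt gm KB Q1 Q2 : ℕ}
    (hc : chkz9 tX tH tG N cb bt gm KB Q1 Q2 = true) :
    (N * pInd L 0 z ≤ N - SK0 tH tG L z ∧ N * pInd L 1 z ≤ N - SK1 tH tG L z ∧ N * pInd L 2 z ≤ N - SK2 tH tG L z ∧ N * pInd L 3 z ≤ N - SK3 tH tG L z ∧ N * pInd L 4 z ≤ N - SK4 tH tG L z ∧ N * pInd L 5 z ≤ N - SK5 tH tG L z) ∧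
    (Q1 : ℝ) * (6 * N - SS8 tH tG L z) + 700 * SX8 tX L z + 1400 * (N * DD L z) +
      700 * (cb * (1 - ∑ k, pInd L k z) + gm * UU μ L z - bt * ∑ k, pInd L k z) ≤
      7000 * N + Q1 * N + KB * (N * BB L z) ∧
    (Q2 : ℝ) * (6 * N - SS8 tH tG L z) + 700 * SX8 tX L z + 1400 * (N * DD L z) +
      700 * (cb * (1 - ∑ k, pInd L k z) + gm * UU μ L z - bt * ∑ k, pInd L k z) ≤
      7000 * N + Q2 * N + KB * (N * BB L z) := by
  have n := lz_notri hT z
  have hz := chkz9_spec hc (lz L z 0 1) (lz L z 0 2) (lz L z 1 2) (lz L z 0 3) (lz L z 1 3) (lz L z 2 3) (lz L z 0 4) (lz L z 1 4) (lz L z 2 4) (lz L z 3 4) (lz L z 0 5) (lz L z 1 5) (lz L z 2 5) (lz L z 3 5) (lz L z 4 5)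
    (and3_of fun h => n 0 1 2 ⟨h.1.1, h.1.2, h.2⟩)
    (and3_of fun h => n 0 1 3 ⟨h.1.1, h.1.2, h.2⟩)
    (and3_of fun h => n 0 2 3 ⟨h.1.1, h.1.2, h.2⟩)
    (and3_of fun h => n 1 2 3 ⟨h.1.1, h.1.2, h.2⟩)
    (and3_of fun h => n 0 1 4 ⟨h.1.1, h.1.2, h.2⟩)
    (and3_of fun h => n 0 2 4 ⟨h.1.1, h.1.2, h.2⟩)
    (and3_of fun h => n 1 2 4 ⟨h.1.1, h.1.2, h.2⟩)
    (and3_of fun h => n 0 3 4 ⟨h.1.1, h.1.2, h.2⟩)
    (and3_of fun h => n 1 3 4 ⟨h.1.1, h.1.2, h.2⟩)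
    (and3_of fun h => n 2 3 4 ⟨h.1.1, h.1.2, h.2⟩)
    (and3_of fun h => n 0 1 5 ⟨h.1.1, h.1.2, h.2⟩)
    (and3_of fun h => n 0 2 5 ⟨h.1.1, h.1.2, h.2⟩)
    (and3_of fun h => n 1 2 5 ⟨h.1.1, h.1.2, h.2⟩)
    (and3_of fun h => n 0 3 5 ⟨h.1.1, h.1.2, h.2⟩)
    (and3_of fun h => n 1 3 5 ⟨h.1.1, h.1.2, h.2⟩)
    (and3_of fun h => n 2 3 5 ⟨h.1.1, h.1.2, h.2⟩)
    (and3_of fun h => n 0 4 5 ⟨h.1.1, h.1.2, h.2⟩)
    (and3_of fun h => n 1 4 5 ⟨h.1.1, h.1.2, h.2⟩)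
    (and3_of fun h => n 2 4 5 ⟨h.1.1, h.1.2, h.2⟩)
    (and3_of fun h => n 3 4 5 ⟨h.1.1, h.1.2, h.2⟩)
  unfold zlf9 at hz
  simp only [frc_eq, Bool.and_eq_true] at hz
  obtain ⟨a0, a1, a2, a3, a4, a5, b0, b1, b2, b3, b4, b5, z1, z2⟩ := hz
  have e0 := sk0_eq hs z tH tG
  have e1 := sk1_eq hs z tH tG
  have e2 := sk2_eq hs z tH tG
  have e3 := sk3_eq hs z tH tG
  have e4 := sk4_eq hs z tH tG
  have e5 := sk5_eq hs z tH tG
  have ex := sx8_eq hs z tX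
  have ed := sd8_eq (L := L) z
  have eb := sb8_eq (L := L) z
  have hU := UU_le μ hs hT z
  unfold cod9 at hU
  generalize hs0 : sk0 tH tG (lz L z 0 1).toNat (lz L z 0 2).toNat (lz L z 1 2).toNat (lz L z 0 3).toNat (lz L z 1 3).toNat (lz L z 2 3).toNat (lz L z 0 4).toNat (lz L z 1 4).toNat (lz L z 2 4).toNat (lz L z 3 4).toNat (lz L z 0 5).toNat (lz L z 1 5).toNat (lz L z 2 5).toNat (lz L z 3 5).toNat (lz L z 4 5).toNat = s0 at *
  generalize hs1 : sk1 tH tG (lz L z 0 1).toNat (lz L z 0 2).toNat (lz L z 1 2).toNat (lz L z 0 3).toNat (lz L z 1 3).toNat (lz L z 2 3).toNat (lz L z 0 4).toNat (lz L z 1 4).toNat (lz L z 2 4).toNat (lz L z 3 4).toNat (lz L z 0 5).toNat (lz L z 1 5).toNat (lz L z 2 5).toNat (lz L z 3 5).toNat (lz L z 4 5).toNat = s1 at *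
  generalize hs2 : sk2 tH tG (lz L z 0 1).toNat (lz L z 0 2).toNat (lz L z 1 2).toNat (lz L z 0 3).toNat (lz L z 1 3).toNat (lz L z 2 3).toNat (lz L z 0 4).toNat (lz L z 1 4).toNat (lz L z 2 4).toNat (lz L z 3 4).toNat (lz L z 0 5).toNat (lz L z 1 5).toNat (lz L z 2 5).toNat (lz L z 3 5).toNat (lz L z 4 5).toNat = s2 at *
  generalize hs3 : sk3 tH tG (lz L z 0 1).toNat (lz L z 0 2).toNat (lz L z 1 2).toNat (lz L z 0 3).toNat (lz L z 1 3).toNat (lz L z 2 3).toNat (lz L z 0 4).toNat (lz L z 1 4).toNat (lz L z 2 4).toNat (lz L z 3 4).toNat (lz L z 0 5).toNat (lz L z 1 5).toNat (lz L z 2 5).toNat (lz L z 3 5).toNat (lz L z 4 5).toNat = s3 at *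
  generalize hs4 : sk4 tH tG (lz L z 0 1).toNat (lz L z 0 2).toNat (lz L z 1 2).toNat (lz L z 0 3).toNat (lz L z 1 3).toNat (lz L z 2 3).toNat (lz L z 0 4).toNat (lz L z 1 4).toNat (lz L z 2 4).toNat (lz L z 3 4).toNat (lz L z 0 5).toNat (lz L z 1 5).toNat (lz L z 2 5).toNat (lz L z 3 5).toNat (lz L z 4 5).toNat = s4 at *
  generalize hs5 : sk5 tH tG (lz L z 0 1).toNat (lz L z 0 2).toNat (lz L z 1 2).toNat (lz L z 0 3).toNat (lz L z 1 3).toNat (lz L z 2 3).toNat (lz L z 0 4).toNat (lz L z 1 4).toNat (lz L z 2 4).toNat (lz L z 3 4).toNat (lz L z 0 5).toNat (lz L z 1 5).toNat (lz L z 2 5).toNat (lz L z 3 5).toNat (lz L z 4 5).toNat = s5 at *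
  generalize hx : sx8 tX (lz L z 0 1).toNat (lz L z 0 2).toNat (lz L z 1 2).toNat (lz L z 0 3).toNat (lz L z 1 3).toNat (lz L z 2 3).toNat (lz L z 0 4).toNat (lz L z 1 4).toNat (lz L z 2 4).toNat (lz L z 3 4).toNat (lz L z 0 5).toNat (lz L z 1 5).toNat (lz L z 2 5).toNat (lz L z 3 5).toNat (lz L z 4 5).toNat = x at *
  generalize hd : sd8 (lz L z 0 1).toNat (lz L z 0 2).toNat (lz L z 1 2).toNat (lz L z 0 3).toNat (lz L z 1 3).toNat (lz L z 2 3).toNat (lz L z 0 4).toNat (lz L z 1 4).toNat (lz L z 2 4).toNat (lz L z 3 4).toNat (lz L z 0 5).toNat (lz L z 1 5).toNat (lz L z 2 5).toNat (lz L z 3 5).toNat (lz L z 4 5).toNat = d at *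
  generalize hb : sb8 (lz L z 0 1).toNat (lz L z 0 2).toNat (lz L z 1 2).toNat (lz L z 0 3).toNat (lz L z 1 3).toNat (lz L z 2 3).toNat (lz L z 0 4).toNat (lz L z 1 4).toNat (lz L z 2 4).toNat (lz L z 3 4).toNat (lz L z 0 5).toNat (lz L z 1 5).toNat (lz L z 2 5).toNat (lz L z 3 5).toNat (lz L z 4 5).toNat = b at *
  have hp0 : ∀ k, 0 ≤ pInd L k z := fun k => pInd_nonneg L k z
  have hcode : ∀ k, (∀ a b : Fin 6, L (z a) (z b) = pTab k a b) →
      sg8 (lz L z 0 1).toNat (lz L z 0 2).toNat (lz L z 1 2).toNat (lz L z 0 3).toNat (lz L z 1 3).toNat (lz L z 2 3).toNat (lz L z 0 4).toNat (lz L z 1 4).toNat (lz L z 2 4).toNat (lz L z 3 4).toNat (lz L z 0 5).toNat (lz L z 1 5).toNat (lz L z 2 5).toNat (lz L z 3 5).toNat (lz L z 4 5).toNat = pc8 k := fun k h => code_of_pent hs z h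
  have hpent : (∃ k, sg8 (lz L z 0 1).toNat (lz L z 0 2).toNat (lz L z 1 2).toNat (lz L z 0 3).toNat (lz L z 1 3).toNat (lz L z 2 3).toNat (lz L z 0 4).toNat (lz L z 1 4).toNat (lz L z 2 4).toNat (lz L z 3 4).toNat (lz L z 0 5).toNat (lz L z 1 5).toNat (lz L z 2 5).toNat (lz L z 3 5).toNat (lz L z 4 5).toNat = pc8 k) → ∑ k, pInd L k z = 1 := by
    rintro ⟨k, hk⟩
    exact pInd_sum_one (pent_of_code hs z hT hk)
  generalize hg : sg8 (lz L z 0 1).toNat (lz L z 0 2).toNat (lz L z 1 2).toNat (lz L z 0 3).toNat (lz L z 1 3).toNat (lz L z 2 3).toNat (lz L z 0 4).toNat (lz L z 1 4).toNat (lz L z 2 4).toNat (lz L z 3 4).toNat (lz L z 0 5).toNat (lz L z 1 5).toNat (lz L z 2 5).toNat (lz L z 3 5).toNat (lz L z 4 5).toNat = g at *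
  have r0 : (s0 : ℝ) ≤ N := by exact_mod_cast Nat.le_of_ble_eq_true a0
  have q0 : N * pInd L 0 z ≤ N - SK0 tH tG L z := by
    rcases pInd_cases L 0 z with ⟨h1, h2⟩ | ⟨-, h2⟩
    · have h3 : g = pc8 0 := hcode 0 h1
      rw [Bool.or_eq_true, Bool.not_eq_true'] at b0
      have h4 : s0 = 0 := by
        rcases b0 with h5 | h5
        · rw [h3] at h5
          exact absurd h5 (by decide)
        · exact Nat.eq_of_beq_eq_true h5
      rw [h2, ← e0, h4]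
      simp
    · rw [h2, ← e0]
      linarith
  have r1 : (s1 : ℝ) ≤ N := by exact_mod_cast Nat.le_of_ble_eq_true a1
  have q1 : N * pInd L 1 z ≤ N - SK1 tH tG L z := by
    rcases pInd_cases L 1 z with ⟨h1, h2⟩ | ⟨-, h2⟩
    · have h3 : g = pc8 1 := hcode 1 h1
      rw [Bool.or_eq_true, Bool.not_eq_true'] at b1
      have h4 : s1 = 0 := by
        rcases b1 with h5 | h5
        · rw [h3] at h5
          exact absurd h5 (by decide)
        · exact Nat.eq_of_beq_eq_true h5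
      rw [h2, ← e1, h4]
      simp
    · rw [h2, ← e1]
      linarith
  have r2 : (s2 : ℝ) ≤ N := by exact_mod_cast Nat.le_of_ble_eq_true a2
  have q2 : N * pInd L 2 z ≤ N - SK2 tH tG L z := by
    rcases pInd_cases L 2 z with ⟨h1, h2⟩ | ⟨-, h2⟩
    · have h3 : g = pc8 2 := hcode 2 h1
      rw [Bool.or_eq_true, Bool.not_eq_true'] at b2
      have h4 : s2 = 0 := by
        rcases b2 with h5 | h5
        · rw [h3] at h5
          exact absurd h5 (by decide)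
        · exact Nat.eq_of_beq_eq_true h5
      rw [h2, ← e2, h4]
      simp
    · rw [h2, ← e2]
      linarith
  have r3 : (s3 : ℝ) ≤ N := by exact_mod_cast Nat.le_of_ble_eq_true a3
  have q3 : N * pInd L 3 z ≤ N - SK3 tH tG L z := by
    rcases pInd_cases L 3 z with ⟨h1, h2⟩ | ⟨-, h2⟩
    · have h3 : g = pc8 3 := hcode 3 h1
      rw [Bool.or_eq_true, Bool.not_eq_true'] at b3
      have h4 : s3 = 0 := by
        rcases b3 with h5 | h5
        · rw [h3] at h5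
          exact absurd h5 (by decide)
        · exact Nat.eq_of_beq_eq_true h5
      rw [h2, ← e3, h4]
      simp
    · rw [h2, ← e3]
      linarith
  have r4 : (s4 : ℝ) ≤ N := by exact_mod_cast Nat.le_of_ble_eq_true a4
  have q4 : N * pInd L 4 z ≤ N - SK4 tH tG L z := by
    rcases pInd_cases L 4 z with ⟨h1, h2⟩ | ⟨-, h2⟩
    · have h3 : g = pc8 4 := hcode 4 h1
      rw [Bool.or_eq_true, Bool.not_eq_true'] at b4
      have h4 : s4 = 0 := by
        rcases b4 with h5 | h5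
        · rw [h3] at h5
          exact absurd h5 (by decide)
        · exact Nat.eq_of_beq_eq_true h5
      rw [h2, ← e4, h4]
      simp
    · rw [h2, ← e4]
      linarith
  have r5 : (s5 : ℝ) ≤ N := by exact_mod_cast Nat.le_of_ble_eq_true a5
  have q5 : N * pInd L 5 z ≤ N - SK5 tH tG L z := by
    rcases pInd_cases L 5 z with ⟨h1, h2⟩ | ⟨-, h2⟩
    · have h3 : g = pc8 5 := hcode 5 h1
      rw [Bool.or_eq_true, Bool.not_eq_true'] at b5
      have h4 : s5 = 0 := by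
        rcases b5 with h5 | h5
        · rw [h3] at h5
          exact absurd h5 (by decide)
        · exact Nat.eq_of_beq_eq_true h5
      rw [h2, ← e5, h4]
      simp
    · rw [h2, ← e5]
      linarith
  have hnp := np9_le (cb := cb) (bt := bt) (gm := gm) (fx := fx9 g) hp0 hpent hU
  have fz1 := zin9_real z1
  have gz1 : (Q1 : ℝ) * (6 * N - SS8 tH tG L z) + 700 * SX8 tX L z + 1400 * (N * DD L z) +
      700 * (cb * (1 - ∑ k, pInd L k z) + gm * UU μ L z - bt * ∑ k, pInd L k z) ≤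
      7000 * N + Q1 * N + KB * (N * BB L z) := by
    simp only [Nat.add_eq, Nat.cast_add] at fz1
    unfold SS8
    rw [← e0, ← e1, ← e2, ← e3, ← e4, ← e5, ← ex, ← ed, ← eb]
    linarith
  have fz2 := zin9_real z2
  have gz2 : (Q2 : ℝ) * (6 * N - SS8 tH tG L z) + 700 * SX8 tX L z + 1400 * (N * DD L z) +
      700 * (cb * (1 - ∑ k, pInd L k z) + gm * UU μ L z - bt * ∑ k, pInd L k z) ≤
      7000 * N + Q2 * N + KB * (N * BB L z) := by
    simp only [Nat.add_eq, Nat.cast_add] at fz2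
    unfold SS8
    rw [← e0, ← e1, ← e2, ← e3, ← e4, ← e5, ← ex, ← ed, ← eb]
    linarith
  exact ⟨⟨q0, q1, q2, q3, q4, q5⟩, gz1, gz2⟩

end Z9b

section Z9c

variable {V : Type} [Fintype V]

/-- **The elimination inequality with the boundary of the pentagons.** -/
theorem elim9 {tX tH tG N cb bt gm KB Q1 Q2 : ℕ} (hN : 0 < N)
    (hc : allN 64 (chk8w tX tH tG) = true)
    (hz : chkz9 tX tH tG N cb bt gm KB Q1 Q2 = true) {μ : Fin 6 → V → ℝ} (hμ : ∀ a, IsW (μ a))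
    {L : V → V → Bool} (hs : ∀ x y, L x y = L y x)
    (hT : ∀ x y t, ¬ (L x y = true ∧ L x t = true ∧ L y t = true)) {q : ℝ}
    (hq : ∀ a, qd (μ a) L ≤ q) (h1 : (Q1 : ℝ) / 700 ≤ q) (h2 : q ≤ (Q2 : ℝ) / 700) :
    ∑ k, qd (μ k) L * (1 - pProb μ L k) ≤ 10 - 2 * E6 μ (DD L) + q * (1 - ∑ k, pProb μ L k) +
      KB / 700 * E6 μ (BB L) - ((cb : ℝ) / N * (1 - ∑ k, pProb μ L k) +
      gm / N * E6 μ (UU μ L) - bt / N * ∑ k, pProb μ L k) := by
  have hN' : (0 : ℝ) < N := by exact_mod_cast hN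
  have hpt := fun z => zpoint9 μ hs hT z hz
  set K : ℝ := (KB : ℝ) / 700 with hK
  have hKB : (KB : ℝ) = 700 * K := by rw [hK]; ring
  rw [hKB] at hpt
  set W : (Fin 6 → V) → ℝ := fun z =>
    cb * (1 - ∑ k, pInd L k z) + gm * UU μ L z - bt * ∑ k, pInd L k z with hW
  have hWE : E6 μ W = cb * (1 - ∑ k, pProb μ L k) + gm * E6 μ (UU μ L) -
      bt * ∑ k, pProb μ L k := by
    rw [hW, E6_sub μ (fun z => cb * (1 - ∑ k, pInd L k z) + gm * UU μ L z)
        (fun z => bt * ∑ k, pInd L k z),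
      E6_add μ (fun z => cb * (1 - ∑ k, pInd L k z)) (fun z => gm * UU μ L z),
      E6_smul μ cb (fun z => 1 - ∑ k, pInd L k z), E6_sub μ (fun _ => (1 : ℝ))
        (fun z => ∑ k, pInd L k z), E6_const hμ, E6_sum_pInd, E6_smul μ gm (UU μ L),
      E6_smul μ bt (fun z => ∑ k, pInd L k z), E6_sum_pInd]
  -- the inequality for the given bound of the own densities
  have hzq : ∀ z, q * (6 * N - SS8 tH tG L z) + SX8 tX L z + 2 * (N * DD L z) +
      W z ≤ 10 * N + q * N + K * (N * BB L z) := by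
    intro z
    obtain ⟨-, g1, g2⟩ := hpt z
    change (Q1 : ℝ) * (6 * N - SS8 tH tG L z) + 700 * SX8 tX L z + 1400 * (N * DD L z) +
      700 * W z ≤ 7000 * N + Q1 * N + 700 * K * (N * BB L z) at g1
    change (Q2 : ℝ) * (6 * N - SS8 tH tG L z) + 700 * SX8 tX L z + 1400 * (N * DD L z) +
      700 * W z ≤ 7000 * N + Q2 * N + 700 * K * (N * BB L z) at g2
    rcases lt_or_eq_of_le (h1.trans h2) with hlt | heq
    · have hpos : 0 < (Q2 : ℝ) / 700 - Q1 / 700 := by linarith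
      have m1 := mul_le_mul_of_nonneg_left g1 (by linarith : 0 ≤ (Q2 : ℝ) / 700 - q)
      have m2 := mul_le_mul_of_nonneg_left g2 (by linarith : 0 ≤ q - (Q1 : ℝ) / 700)
      have m3 : ((Q2 : ℝ) / 700 - Q1 / 700) * (700 * (q * (6 * N - SS8 tH tG L z) + SX8 tX L z +
          2 * (N * DD L z) + W z)) ≤
          ((Q2 : ℝ) / 700 - Q1 / 700) * (700 * (10 * N + q * N + K * (N * BB L z))) := by
        nlinarith
      have m4 := le_of_mul_le_mul_left m3 hpos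
      linarith
    · have hq' : q = (Q1 : ℝ) / 700 := le_antisymm (by rw [heq]; exact h2) h1
      rw [hq']
      linarith
  have hE : q * (6 * N - E6 μ (SS8 tH tG L)) + E6 μ (SX8 tX L) + 2 * (N * E6 μ (DD L)) +
      E6 μ W ≤ 10 * N + q * N + K * (N * E6 μ (BB L)) := by
    have h := E6_mono hμ hzq
    have e1 : E6 μ (fun z => q * (6 * N - SS8 tH tG L z) + SX8 tX L z + 2 * (N * DD L z) +
        W z) = q * (6 * N - E6 μ (SS8 tH tG L)) + E6 μ (SX8 tX L) +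
        2 * (N * E6 μ (DD L)) + E6 μ W := by
      rw [E6_add μ (fun z => q * (6 * N - SS8 tH tG L z) + SX8 tX L z + 2 * (N * DD L z)) W,
        E6_add μ (fun z => q * (6 * N - SS8 tH tG L z) + SX8 tX L z) (fun z => 2 * (N * DD L z)),
        E6_add μ (fun z => q * (6 * N - SS8 tH tG L z)) (SX8 tX L),
        E6_smul μ q (fun z => 6 * N - SS8 tH tG L z), E6_sub μ (fun _ => 6 * (N : ℝ)) (SS8 tH tG L),
        E6_const hμ, E6_smul μ 2 (fun z => N * DD L z), E6_smul μ N (DD L)]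
    have e2 : E6 μ (fun z => 10 * (N : ℝ) + q * N + K * (N * BB L z)) =
        10 * N + q * N + K * (N * E6 μ (BB L)) := by
      rw [E6_add μ (fun _ => 10 * (N : ℝ) + q * N) (fun z => K * (N * BB L z)), E6_const hμ,
        E6_smul μ K (fun z => N * BB L z), E6_smul μ N (BB L)]
    rw [e1, e2] at h
    exact h
  rw [hWE] at hE
  have p0 : N * pProb μ L 0 ≤ N - E6 μ (SK0 tH tG L) := by
    have h := E6_mono hμ (fun z => (hpt z).1.1)
    rw [E6_smul μ N (pInd L 0), E6_sub μ (fun _ => (N : ℝ)) (SK0 tH tG L), E6_const hμ] at h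
    exact h
  have p1 : N * pProb μ L 1 ≤ N - E6 μ (SK1 tH tG L) := by
    have h := E6_mono hμ (fun z => (hpt z).1.2.1)
    rw [E6_smul μ N (pInd L 1), E6_sub μ (fun _ => (N : ℝ)) (SK1 tH tG L), E6_const hμ] at h
    exact h
  have p2 : N * pProb μ L 2 ≤ N - E6 μ (SK2 tH tG L) := by
    have h := E6_mono hμ (fun z => (hpt z).1.2.2.1)
    rw [E6_smul μ N (pInd L 2), E6_sub μ (fun _ => (N : ℝ)) (SK2 tH tG L), E6_const hμ] at h
    exact h
  have p3 : N * pProb μ L 3 ≤ N - E6 μ (SK3 tH tG L) := by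
    have h := E6_mono hμ (fun z => (hpt z).1.2.2.2.1)
    rw [E6_smul μ N (pInd L 3), E6_sub μ (fun _ => (N : ℝ)) (SK3 tH tG L), E6_const hμ] at h
    exact h
  have p4 : N * pProb μ L 4 ≤ N - E6 μ (SK4 tH tG L) := by
    have h := E6_mono hμ (fun z => (hpt z).1.2.2.2.2.1)
    rw [E6_smul μ N (pInd L 4), E6_sub μ (fun _ => (N : ℝ)) (SK4 tH tG L), E6_const hμ] at h
    exact h
  have p5 : N * pProb μ L 5 ≤ N - E6 μ (SK5 tH tG L) := by
    have h := E6_mono hμ (fun z => (hpt z).1.2.2.2.2.2)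
    rw [E6_smul μ N (pInd L 5), E6_sub μ (fun _ => (N : ℝ)) (SK5 tH tG L), E6_const hμ] at h
    exact h
  have eS : E6 μ (SS8 tH tG L) = E6 μ (SK0 tH tG L) + E6 μ (SK1 tH tG L) + E6 μ (SK2 tH tG L) + E6 μ (SK3 tH tG L) + E6 μ (SK4 tH tG L) + E6 μ (SK5 tH tG L) := by
    unfold SS8
    simp only [E6_add]
  have F0 : qd (μ 0) L * E6 μ (zH8 tH (fr8 0) L) + qd (μ 1) L * E6 μ (zG8 tG (fr8 0) L) ≤
      E6 μ (zX8 tX (fr8 0) L) := faceE hc (fr8_inj 0) hμ hs hT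
  have F1 : qd (μ 0) L * E6 μ (zH8 tH (fr8 1) L) + qd (μ 2) L * E6 μ (zG8 tG (fr8 1) L) ≤
      E6 μ (zX8 tX (fr8 1) L) := faceE hc (fr8_inj 1) hμ hs hT
  have F2 : qd (μ 0) L * E6 μ (zH8 tH (fr8 2) L) + qd (μ 3) L * E6 μ (zG8 tG (fr8 2) L) ≤
      E6 μ (zX8 tX (fr8 2) L) := faceE hc (fr8_inj 2) hμ hs hT
  have F3 : qd (μ 0) L * E6 μ (zH8 tH (fr8 3) L) + qd (μ 4) L * E6 μ (zG8 tG (fr8 3) L) ≤
      E6 μ (zX8 tX (fr8 3) L) := faceE hc (fr8_inj 3) hμ hs hT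
  have F4 : qd (μ 0) L * E6 μ (zH8 tH (fr8 4) L) + qd (μ 5) L * E6 μ (zG8 tG (fr8 4) L) ≤
      E6 μ (zX8 tX (fr8 4) L) := faceE hc (fr8_inj 4) hμ hs hT
  have F5 : qd (μ 1) L * E6 μ (zH8 tH (fr8 5) L) + qd (μ 2) L * E6 μ (zG8 tG (fr8 5) L) ≤
      E6 μ (zX8 tX (fr8 5) L) := faceE hc (fr8_inj 5) hμ hs hT
  have F6 : qd (μ 1) L * E6 μ (zH8 tH (fr8 6) L) + qd (μ 3) L * E6 μ (zG8 tG (fr8 6) L) ≤
      E6 μ (zX8 tX (fr8 6) L) := faceE hc (fr8_inj 6) hμ hs hT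
  have F7 : qd (μ 1) L * E6 μ (zH8 tH (fr8 7) L) + qd (μ 4) L * E6 μ (zG8 tG (fr8 7) L) ≤
      E6 μ (zX8 tX (fr8 7) L) := faceE hc (fr8_inj 7) hμ hs hT
  have F8 : qd (μ 1) L * E6 μ (zH8 tH (fr8 8) L) + qd (μ 5) L * E6 μ (zG8 tG (fr8 8) L) ≤
      E6 μ (zX8 tX (fr8 8) L) := faceE hc (fr8_inj 8) hμ hs hT
  have F9 : qd (μ 2) L * E6 μ (zH8 tH (fr8 9) L) + qd (μ 3) L * E6 μ (zG8 tG (fr8 9) L) ≤
      E6 μ (zX8 tX (fr8 9) L) := faceE hc (fr8_inj 9) hμ hs hT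
  have F10 : qd (μ 2) L * E6 μ (zH8 tH (fr8 10) L) + qd (μ 4) L * E6 μ (zG8 tG (fr8 10) L) ≤
      E6 μ (zX8 tX (fr8 10) L) := faceE hc (fr8_inj 10) hμ hs hT
  have F11 : qd (μ 2) L * E6 μ (zH8 tH (fr8 11) L) + qd (μ 5) L * E6 μ (zG8 tG (fr8 11) L) ≤
      E6 μ (zX8 tX (fr8 11) L) := faceE hc (fr8_inj 11) hμ hs hT
  have F12 : qd (μ 3) L * E6 μ (zH8 tH (fr8 12) L) + qd (μ 4) L * E6 μ (zG8 tG (fr8 12) L) ≤
      E6 μ (zX8 tX (fr8 12) L) := faceE hc (fr8_inj 12) hμ hs hT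
  have F13 : qd (μ 3) L * E6 μ (zH8 tH (fr8 13) L) + qd (μ 5) L * E6 μ (zG8 tG (fr8 13) L) ≤
      E6 μ (zX8 tX (fr8 13) L) := faceE hc (fr8_inj 13) hμ hs hT
  have F14 : qd (μ 4) L * E6 μ (zH8 tH (fr8 14) L) + qd (μ 5) L * E6 μ (zG8 tG (fr8 14) L) ≤
      E6 μ (zX8 tX (fr8 14) L) := faceE hc (fr8_inj 14) hμ hs hT
  rw [E6_SX8] at hE
  have w0 := mul_nonneg (sub_nonneg.2 (hq 0)) (sub_nonneg.2 p0)
  have w1 := mul_nonneg (sub_nonneg.2 (hq 1)) (sub_nonneg.2 p1)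
  have w2 := mul_nonneg (sub_nonneg.2 (hq 2)) (sub_nonneg.2 p2)
  have w3 := mul_nonneg (sub_nonneg.2 (hq 3)) (sub_nonneg.2 p3)
  have w4 := mul_nonneg (sub_nonneg.2 (hq 4)) (sub_nonneg.2 p4)
  have w5 := mul_nonneg (sub_nonneg.2 (hq 5)) (sub_nonneg.2 p5)
  rw [eS] at hE
  rw [E6_SK0, E6_SK1, E6_SK2, E6_SK3, E6_SK4, E6_SK5] at hE
  rw [E6_SK0] at w0
  rw [E6_SK1] at w1
  rw [E6_SK2] at w2
  rw [E6_SK3] at w3
  rw [E6_SK4] at w4
  rw [E6_SK5] at w5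
  rw [Fin.sum_univ_six] at hE
  rw [Fin.sum_univ_six, Fin.sum_univ_six]
  generalize E6 μ (zH8 tH (fr8 0) L) = H0 at *
  generalize E6 μ (zG8 tG (fr8 0) L) = G0 at *
  generalize E6 μ (zX8 tX (fr8 0) L) = X0 at *
  generalize E6 μ (zH8 tH (fr8 1) L) = H1 at *
  generalize E6 μ (zG8 tG (fr8 1) L) = G1 at *
  generalize E6 μ (zX8 tX (fr8 1) L) = X1 at *
  generalize E6 μ (zH8 tH (fr8 2) L) = H2 at *
  generalize E6 μ (zG8 tG (fr8 2) L) = G2 at *
  generalize E6 μ (zX8 tX (fr8 2) L) = X2 at *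
  generalize E6 μ (zH8 tH (fr8 3) L) = H3 at *
  generalize E6 μ (zG8 tG (fr8 3) L) = G3 at *
  generalize E6 μ (zX8 tX (fr8 3) L) = X3 at *
  generalize E6 μ (zH8 tH (fr8 4) L) = H4 at *
  generalize E6 μ (zG8 tG (fr8 4) L) = G4 at *
  generalize E6 μ (zX8 tX (fr8 4) L) = X4 at *
  generalize E6 μ (zH8 tH (fr8 5) L) = H5 at *
  generalize E6 μ (zG8 tG (fr8 5) L) = G5 at *
  generalize E6 μ (zX8 tX (fr8 5) L) = X5 at *
  generalize E6 μ (zH8 tH (fr8 6) L) = H6 at *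
  generalize E6 μ (zG8 tG (fr8 6) L) = G6 at *
  generalize E6 μ (zX8 tX (fr8 6) L) = X6 at *
  generalize E6 μ (zH8 tH (fr8 7) L) = H7 at *
  generalize E6 μ (zG8 tG (fr8 7) L) = G7 at *
  generalize E6 μ (zX8 tX (fr8 7) L) = X7 at *
  generalize E6 μ (zH8 tH (fr8 8) L) = H8 at *
  generalize E6 μ (zG8 tG (fr8 8) L) = G8 at *
  generalize E6 μ (zX8 tX (fr8 8) L) = X8 at *
  generalize E6 μ (zH8 tH (fr8 9) L) = H9 at *
  generalize E6 μ (zG8 tG (fr8 9) L) = G9 at *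
  generalize E6 μ (zX8 tX (fr8 9) L) = X9 at *
  generalize E6 μ (zH8 tH (fr8 10) L) = H10 at *
  generalize E6 μ (zG8 tG (fr8 10) L) = G10 at *
  generalize E6 μ (zX8 tX (fr8 10) L) = X10 at *
  generalize E6 μ (zH8 tH (fr8 11) L) = H11 at *
  generalize E6 μ (zG8 tG (fr8 11) L) = G11 at *
  generalize E6 μ (zX8 tX (fr8 11) L) = X11 at *
  generalize E6 μ (zH8 tH (fr8 12) L) = H12 at *
  generalize E6 μ (zG8 tG (fr8 12) L) = G12 at *
  generalize E6 μ (zX8 tX (fr8 12) L) = X12 at *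
  generalize E6 μ (zH8 tH (fr8 13) L) = H13 at *
  generalize E6 μ (zG8 tG (fr8 13) L) = G13 at *
  generalize E6 μ (zX8 tX (fr8 13) L) = X13 at *
  generalize E6 μ (zH8 tH (fr8 14) L) = H14 at *
  generalize E6 μ (zG8 tG (fr8 14) L) = G14 at *
  generalize E6 μ (zX8 tX (fr8 14) L) = X14 at *
  generalize qd (μ 0) L = n0 at *
  generalize pProb μ L 0 = r0 at *
  generalize qd (μ 1) L = n1 at *
  generalize pProb μ L 1 = r1 at *
  generalize qd (μ 2) L = n2 at *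
  generalize pProb μ L 2 = r2 at *
  generalize qd (μ 3) L = n3 at *
  generalize pProb μ L 3 = r3 at *
  generalize qd (μ 4) L = n4 at *
  generalize pProb μ L 4 = r4 at *
  generalize qd (μ 5) L = n5 at *
  generalize pProb μ L 5 = r5 at *
  generalize E6 μ (DD L) = dd at *
  generalize E6 μ (BB L) = bb at *
  generalize E6 μ (UU μ L) = uu at *
  clear hpt hzq
  have key : N * (n0 * (1 - r0) + n1 * (1 - r1) + n2 * (1 - r2) + n3 * (1 - r3) + n4 * (1 - r4) + n5 * (1 - r5)) ≤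
      N * (10 - 2 * dd + q * (1 - (r0 + r1 + r2 + r3 + r4 + r5)) + K * bb) -
        (cb * (1 - (r0 + r1 + r2 + r3 + r4 + r5)) + gm * uu -
          bt * (r0 + r1 + r2 + r3 + r4 + r5)) := by
    linarith
  have e : N * (10 - 2 * dd + q * (1 - (r0 + r1 + r2 + r3 + r4 + r5)) + K * bb -
      ((cb : ℝ) / N * (1 - (r0 + r1 + r2 + r3 + r4 + r5)) + gm / N * uu -
        bt / N * (r0 + r1 + r2 + r3 + r4 + r5))) =
      N * (10 - 2 * dd + q * (1 - (r0 + r1 + r2 + r3 + r4 + r5)) + K * bb) -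
        (cb * (1 - (r0 + r1 + r2 + r3 + r4 + r5)) + gm * uu -
          bt * (r0 + r1 + r2 + r3 + r4 + r5)) := by
    field_simp
  rw [← e] at key
  exact le_of_mul_le_mul_left key hN'

end Z9c

end K4m
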