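import Mathlib
import Pool.Agent.Lib.MP_392c14_co.Z9b
import Pool.Agent.Lib.MP_392c14_co.Z9K
import Pool.Agent.Lib.MP_392c14_co.Z9L
import Pool.Agent.Lib.MP_392c14_co.Z9N

/-!
# The second elimination inequality with the numerical constants

The inequality of `Z8M` with the multiplier `7 / 2` for the blocks and with the boundary of the
pentagons; together with the Loomis-Whitney form of the purity lemma it makes a vertex impossible
for which all six pentagons have probability at most `0.65`.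
-/

set_option autoImplicit false

namespace K4m

open Finset Function

section Z9M

variable {V : Type} [Fintype V]

/-- **The elimination inequality with the boundary of the pentagons.** -/
theorem elimination9 {μ : Fin 6 → V → ℝ} (hμ : ∀ a, IsW (μ a)) {L : V → V → Bool}
    (hs : ∀ x y, L x y = L y x)
    (hT : ∀ x y t, ¬ (L x y = true ∧ L x t = true ∧ L y t = true)) {q : ℝ}
    (hq : ∀ a, qd (μ a) L ≤ q) (h1 : 2 / 7 ≤ q) (h2 : q ≤ 47 / 140) :
    ∑ k, qd (μ k) L * (1 - pProb μ L k) ≤ 10 - 2 * E6 μ (DD L) + q * (1 - ∑ k, pProb μ L k) +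
      7 / 2 * E6 μ (BB L) - (6396 / 21000 * (1 - ∑ k, pProb μ L k) +
      1580 / 21000 * E6 μ (UU μ L) - 509 / 21000 * ∑ k, pProb μ L k) := by
  have h := elim9 (N := 21000) (cb := 6396) (bt := 509) (gm := 1580) (KB := 2450) (Q1 := 200)
    (Q2 := 235) (by norm_num) t9_all t9_z hμ hs hT hq (by norm_num; linarith)
    (by norm_num; linarith)
  have e : ((2450 : ℕ) : ℝ) / 700 = 7 / 2 := by norm_num
  rw [e] at h
  push_cast at h
  exact h

/-- the boundary of the pentagons is at least the Loomis-Whitney bound -/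
theorem UU_ge {μ : Fin 6 → V → ℝ} (hμ : ∀ a, IsW (μ a)) (L : V → V → Bool) {r : Fin 6 → ℝ}
    (hr : ∀ j, 0 ≤ r j) (h6 : ∀ j, r j ^ 6 = pProb μ L j) :
    ∑ j, 6 * (r j ^ 5 - r j ^ 6) ≤ E6 μ (UU μ L) := by
  rw [E6_UU]
  exact sum_le_sum fun j _ => boundary_ge μ L (fun i v => (hμ i).nonneg v)
    (fun i => (hμ i).sum_eq) j (hr j) (h6 j)

/-- from a bound in terms of the roots to the elimination inequality -/
theorem stage9 {μ : Fin 6 → V → ℝ} (hμ : ∀ a, IsW (μ a)) {L : V → V → Bool}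
    (hs : ∀ x y, L x y = L y x)
    (hT : ∀ x y t, ¬ (L x y = true ∧ L x t = true ∧ L y t = true)) {q : ℝ}
    (hq : ∀ a, qd (μ a) L ≤ q) (h1 : 2 / 7 ≤ q) (h2 : q ≤ 47 / 140) {p0 s t : ℝ}
    (hall : ∀ k, pProb μ L k ≤ p0)
    (hn : ∀ r : Fin 6 → ℝ, (∀ j, 0 ≤ r j) → (∀ j, r j ≤ 1) →
      (∀ k l, k ≠ l → r k ^ 3 + r l ^ 3 ≤ 1) → ∑ j, (3 * r j ^ 5 - 2 * r j ^ 6) ≤ 1 →
      (∀ k, r k ^ 6 ≤ p0) → ∑ k, ((16385 / 21000 - s) * r k ^ 6 - 9480 / 21000 * r k ^ 5) ≤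
        6396 / 21000 - t - s * p0) :
    ∑ k, qd (μ k) L * (1 - pProb μ L k) ≤ 10 - 2 * E6 μ (DD L) + q * (1 - ∑ k, pProb μ L k) +
      7 / 2 * E6 μ (BB L) - (t + s * (1 - ∑ k, pProb μ L k - (1 - p0))) := by
  have h := elimination9 hμ hs hT hq h1 h2
  have h0 : ∀ i v, 0 ≤ μ i v := fun i v => (hμ i).nonneg v
  have h01 : ∀ i, ∑ v, μ i v = 1 := fun i => (hμ i).sum_eq
  have ht : ∀ x y t, ¬ (L x y = true ∧ L y t = true ∧ L x t = true) :=
    fun x y t hh => hT x y t ⟨hh.1, hh.2.2, hh.2.1⟩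
  obtain ⟨r, hr, h6⟩ := exists_root μ L h0
  have hF := purity_LW μ L h0 h01 hs ht hr h6
  have h3 := root_cube μ L h0 h01 hr h6
  have hr1 := root_le_one μ L h0 h01 hr h6
  have hU := UU_ge hμ L hr h6
  have hN := hn r hr hr1 h3 hF (fun k => by rw [h6 k]; exact hall k)
  have e : ∑ k, pProb μ L k = ∑ k, r k ^ 6 := sum_congr rfl fun k _ => (h6 k).symm
  rw [sum_sub_distrib, ← mul_sum, ← mul_sum] at hN
  rw [← mul_sum, sum_sub_distrib] at hU
  rw [← e] at hN hU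
  linarith

/-- all the pentagons have probability at most `0.65` -/
theorem stage1_65 {μ : Fin 6 → V → ℝ} (hμ : ∀ a, IsW (μ a)) {L : V → V → Bool}
    (hs : ∀ x y, L x y = L y x)
    (hT : ∀ x y t, ¬ (L x y = true ∧ L x t = true ∧ L y t = true)) {q : ℝ}
    (hq : ∀ a, qd (μ a) L ≤ q) (h1 : 2 / 7 ≤ q) (h2 : q ≤ 47 / 140)
    (hall : ∀ k, pProb μ L k ≤ 13 / 20) :
    ∑ k, qd (μ k) L * (1 - pProb μ L k) ≤ 10 - 2 * E6 μ (DD L) + q * (1 - ∑ k, pProb μ L k) +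
      7 / 2 * E6 μ (BB L) - 1125 / 10000 := by
  have h := stage9 hμ hs hT hq h1 h2 (s := 0) (t := 1125 / 10000) hall
    (fun r hr hr1 h3 hF hall => by
      have h := num9_65 hr hr1 h3 hF hall
      norm_num at h ⊢
      exact h)
  linarith

/-- all the pentagons have probability at most `0.65`, with a slope -/
theorem stage1_65s {μ : Fin 6 → V → ℝ} (hμ : ∀ a, IsW (μ a)) {L : V → V → Bool}
    (hs : ∀ x y, L x y = L y x)
    (hT : ∀ x y t, ¬ (L x y = true ∧ L x t = true ∧ L y t = true)) {q : ℝ}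
    (hq : ∀ a, qd (μ a) L ≤ q) (h1 : 2 / 7 ≤ q) (h2 : q ≤ 47 / 140)
    (hall : ∀ k, pProb μ L k ≤ 13 / 20) :
    ∑ k, qd (μ k) L * (1 - pProb μ L k) ≤ 10 - 2 * E6 μ (DD L) + q * (1 - ∑ k, pProb μ L k) +
      7 / 2 * E6 μ (BB L) - (1125 / 10000 + 29 / 100 * (1 - ∑ k, pProb μ L k - 7 / 20)) := by
  have h := stage9 hμ hs hT hq h1 h2 (s := 29 / 100) (t := 1125 / 10000) hall
    (fun r hr hr1 h3 hF hall => by
      have h := num9_65s hr hr1 h3 hF hall
      norm_num at h ⊢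
      exact h)
  linarith

/-- all the pentagons have probability at most `0.66` -/
theorem stage1_66 {μ : Fin 6 → V → ℝ} (hμ : ∀ a, IsW (μ a)) {L : V → V → Bool}
    (hs : ∀ x y, L x y = L y x)
    (hT : ∀ x y t, ¬ (L x y = true ∧ L x t = true ∧ L y t = true)) {q : ℝ}
    (hq : ∀ a, qd (μ a) L ≤ q) (h1 : 2 / 7 ≤ q) (h2 : q ≤ 47 / 140)
    (hall : ∀ k, pProb μ L k ≤ 33 / 50) :
    ∑ k, qd (μ k) L * (1 - pProb μ L k) ≤ 10 - 2 * E6 μ (DD L) + q * (1 - ∑ k, pProb μ L k) +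
      7 / 2 * E6 μ (BB L) - 1087 / 10000 := by
  have h := stage9 hμ hs hT hq h1 h2 (s := 0) (t := 1087 / 10000) hall
    (fun r hr hr1 h3 hF hall => by
      have h := num9_66 hr hr1 h3 hF hall
      norm_num at h ⊢
      exact h)
  linarith

/-- all the pentagons have probability at most `0.66`, with a slope -/
theorem stage1_66s {μ : Fin 6 → V → ℝ} (hμ : ∀ a, IsW (μ a)) {L : V → V → Bool}
    (hs : ∀ x y, L x y = L y x)
    (hT : ∀ x y t, ¬ (L x y = true ∧ L x t = true ∧ L y t = true)) {q : ℝ}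
    (hq : ∀ a, qd (μ a) L ≤ q) (h1 : 2 / 7 ≤ q) (h2 : q ≤ 47 / 140)
    (hall : ∀ k, pProb μ L k ≤ 33 / 50) :
    ∑ k, qd (μ k) L * (1 - pProb μ L k) ≤ 10 - 2 * E6 μ (DD L) + q * (1 - ∑ k, pProb μ L k) +
      7 / 2 * E6 μ (BB L) - (1087 / 10000 + 29 / 100 * (1 - ∑ k, pProb μ L k - 17 / 50)) := by
  have h := stage9 hμ hs hT hq h1 h2 (s := 29 / 100) (t := 1087 / 10000) hall
    (fun r hr hr1 h3 hF hall => by
      have h := num9_66s hr hr1 h3 hF hall
      norm_num at h ⊢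
      exact h)
  linarith

/-- all the pentagons have probability at most `0.67` -/
theorem stage1_67 {μ : Fin 6 → V → ℝ} (hμ : ∀ a, IsW (μ a)) {L : V → V → Bool}
    (hs : ∀ x y, L x y = L y x)
    (hT : ∀ x y t, ¬ (L x y = true ∧ L x t = true ∧ L y t = true)) {q : ℝ}
    (hq : ∀ a, qd (μ a) L ≤ q) (h1 : 2 / 7 ≤ q) (h2 : q ≤ 47 / 140)
    (hall : ∀ k, pProb μ L k ≤ 67 / 100) :
    ∑ k, qd (μ k) L * (1 - pProb μ L k) ≤ 10 - 2 * E6 μ (DD L) + q * (1 - ∑ k, pProb μ L k) +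
      7 / 2 * E6 μ (BB L) - 105 / 1000 := by
  have h := stage9 hμ hs hT hq h1 h2 (s := 0) (t := 105 / 1000) hall
    (fun r hr hr1 h3 hF hall => by
      have h := num9_67 hr hr1 h3 hF hall
      norm_num at h ⊢
      exact h)
  linarith

/-- all the pentagons have probability at most `0.67`, with a slope -/
theorem stage1_67s {μ : Fin 6 → V → ℝ} (hμ : ∀ a, IsW (μ a)) {L : V → V → Bool}
    (hs : ∀ x y, L x y = L y x)
    (hT : ∀ x y t, ¬ (L x y = true ∧ L x t = true ∧ L y t = true)) {q : ℝ}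
    (hq : ∀ a, qd (μ a) L ≤ q) (h1 : 2 / 7 ≤ q) (h2 : q ≤ 47 / 140)
    (hall : ∀ k, pProb μ L k ≤ 67 / 100) :
    ∑ k, qd (μ k) L * (1 - pProb μ L k) ≤ 10 - 2 * E6 μ (DD L) + q * (1 - ∑ k, pProb μ L k) +
      7 / 2 * E6 μ (BB L) - (105 / 1000 + 29 / 100 * (1 - ∑ k, pProb μ L k - 33 / 100)) := by
  have h := stage9 hμ hs hT hq h1 h2 (s := 29 / 100) (t := 105 / 1000) hall
    (fun r hr hr1 h3 hF hall => by
      have h := num9_67s hr hr1 h3 hF hall
      norm_num at h ⊢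
      exact h)
  linarith

end Z9M

end K4m
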