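import Mathlib
import Pool.Agent.Lib.MP_392c14_co.Z9M

/-!
# The second elimination inequality, further numerical forms (generated)
-/

set_option autoImplicit false

namespace K4m

open Finset Function

theorem num9_68 {r : Fin 6 → ℝ} (hr : ∀ j, 0 ≤ r j) (hr1 : ∀ j, r j ≤ 1)
    (h3 : ∀ k l, k ≠ l → r k ^ 3 + r l ^ 3 ≤ 1) (hF : ∑ j, (3 * r j ^ 5 - 2 * r j ^ 6) ≤ 1)
    (hall : ∀ k, r k ^ 6 ≤ 17 / 25) :
    ∑ k, (3277 / 4200 * r k ^ 6 - 79 / 175 * r k ^ 5) ≤ 3559 / 17500 := by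
  obtain ⟨j, -, hj⟩ := exists_max_image univ r ⟨0, mem_univ 0⟩
  have hj' : ∀ k, r k ≤ r j := fun k => hj k (mem_univ k)
  have hb : r j ≤ 4689 / 5000 := by
    refine rootn_le (hr j) (by norm_num) (n := 6) (by norm_num) ?_
    exact (hall j).trans (by norm_num)
  obtain ⟨i, hi, hi2⟩ := exists_max_image (univ.erase j) r (erase_nonempty6 j)
  have hij : i ≠ j := ne_of_mem_erase hi
  have hi' : ∀ k, k ≠ j → r k ≤ r i := fun k hk => hi2 k (mem_erase.2 ⟨hk, mem_univ k⟩)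
  have hc := h3 j i hij.symm
  by_cases c0 : (1163 / 1250 : ℝ) ≤ r j
  · have hbi : r i ≤ 1449 / 2500 := by
      refine rootn_le (hr i) (by norm_num) (n := 3) (by norm_num) ?_
      have := pow_le_pow_left₀ (by norm_num : (0 : ℝ) ≤ 1163 / 1250) c0 3
      norm_num at this ⊢
      linarith
    by_cases d0 : (671 / 1250 : ℝ) ≤ r i
    · exact num9_three r hr hr1 hF hij c0 hb d0 hbi (w := 362 / 625) (by norm_num) (by norm_num) (by norm_num)
        (by norm_num) (by norm_num) (by norm_num) (by norm_num) (by norm_num) (by norm_num)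
    replace hbi : r i ≤ 671 / 1250 := (not_le.1 d0).le
    exact num9_two r hr hF hi' hb hbi (w := 2893 / 5000) (by norm_num) (by norm_num) (by norm_num) (by norm_num)
      (by norm_num) (by norm_num)
  replace hb : r j ≤ 1163 / 1250 := (not_le.1 c0).le
  by_cases c1 : (4471 / 5000 : ℝ) ≤ r j
  · have hbi : r i ≤ 3291 / 5000 := by
      refine rootn_le (hr i) (by norm_num) (n := 3) (by norm_num) ?_
      have := pow_le_pow_left₀ (by norm_num : (0 : ℝ) ≤ 4471 / 5000) c1 3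
      norm_num at this ⊢
      linarith
    exact num9_two r hr hF hi' hb hbi (w := 3291 / 5000) (by norm_num) (by norm_num) (by norm_num) (by norm_num)
      (by norm_num) (by norm_num)
  replace hb : r j ≤ 4471 / 5000 := (not_le.1 c1).le
  exact num9_one r hr hF (fun k => (hj' k).trans hb) (by norm_num) (by norm_num) (by norm_num) (by norm_num)

theorem num9_68s {r : Fin 6 → ℝ} (hr : ∀ j, 0 ≤ r j) (hr1 : ∀ j, r j ≤ 1)
    (h3 : ∀ k l, k ≠ l → r k ^ 3 + r l ^ 3 ≤ 1) (hF : ∑ j, (3 * r j ^ 5 - 2 * r j ^ 6) ≤ 1)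
    (hall : ∀ k, r k ^ 6 ≤ 17 / 25) :
    ∑ k, (2059 / 4200 * r k ^ 6 - 79 / 175 * r k ^ 5) ≤ 27 / 4375 := by
  obtain ⟨j, -, hj⟩ := exists_max_image univ r ⟨0, mem_univ 0⟩
  have hj' : ∀ k, r k ≤ r j := fun k => hj k (mem_univ k)
  have hb : r j ≤ 469 / 500 := by
    refine rootn_le (hr j) (by norm_num) (n := 6) (by norm_num) ?_
    exact (hall j).trans (by norm_num)
  obtain ⟨i, hi, hi2⟩ := exists_max_image (univ.erase j) r (erase_nonempty6 j)
  have hij : i ≠ j := ne_of_mem_erase hi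
  have hi' : ∀ k, k ≠ j → r k ≤ r i := fun k hk => hi2 k (mem_erase.2 ⟨hk, mem_univ k⟩)
  have hc := h3 j i hij.symm
  by_cases c0 : (187 / 200 : ℝ) ≤ r j
  · have hbi : r i ≤ 71 / 125 := by
      refine rootn_le (hr i) (by norm_num) (n := 3) (by norm_num) ?_
      have := pow_le_pow_left₀ (by norm_num : (0 : ℝ) ≤ 187 / 200) c0 3
      norm_num at this ⊢
      linarith
    exact num9_two r hr hF hi' hb hbi (w := 921 / 1000) (by norm_num) (by norm_num) (by norm_num) (by norm_num)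
      (by norm_num) (by norm_num)
  replace hb : r j ≤ 187 / 200 := (not_le.1 c0).le
  exact num9_one r hr hF (fun k => (hj' k).trans hb) (by norm_num) (by norm_num) (by norm_num) (by norm_num)

theorem num9_69 {r : Fin 6 → ℝ} (hr : ∀ j, 0 ≤ r j) (hr1 : ∀ j, r j ≤ 1)
    (h3 : ∀ k l, k ≠ l → r k ^ 3 + r l ^ 3 ≤ 1) (hF : ∑ j, (3 * r j ^ 5 - 2 * r j ^ 6) ≤ 1)
    (hall : ∀ k, r k ^ 6 ≤ 69 / 100) :
    ∑ k, (3277 / 4200 * r k ^ 6 - 79 / 175 * r k ^ 5) ≤ 14509 / 70000 := by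
  obtain ⟨j, -, hj⟩ := exists_max_image univ r ⟨0, mem_univ 0⟩
  have hj' : ∀ k, r k ≤ r j := fun k => hj k (mem_univ k)
  have hb : r j ≤ 9401 / 10000 := by
    refine rootn_le (hr j) (by norm_num) (n := 6) (by norm_num) ?_
    exact (hall j).trans (by norm_num)
  obtain ⟨i, hi, hi2⟩ := exists_max_image (univ.erase j) r (erase_nonempty6 j)
  have hij : i ≠ j := ne_of_mem_erase hi
  have hi' : ∀ k, k ≠ j → r k ≤ r i := fun k hk => hi2 k (mem_erase.2 ⟨hk, mem_univ k⟩)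
  have hc := h3 j i hij.symm
  by_cases c0 : (9297 / 10000 : ℝ) ≤ r j
  · have hbi : r i ≤ 5813 / 10000 := by
      refine rootn_le (hr i) (by norm_num) (n := 3) (by norm_num) ?_
      have := pow_le_pow_left₀ (by norm_num : (0 : ℝ) ≤ 9297 / 10000) c0 3
      norm_num at this ⊢
      linarith
    by_cases d0 : (27 / 50 : ℝ) ≤ r i
    · exact num9_three r hr hr1 hF hij c0 hb d0 hbi (w := 1447 / 2500) (by norm_num) (by norm_num) (by norm_num)
        (by norm_num) (by norm_num) (by norm_num) (by norm_num) (by norm_num) (by norm_num)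
    replace hbi : r i ≤ 27 / 50 := (not_le.1 d0).le
    exact num9_two r hr hF hi' hb hbi (w := 2893 / 5000) (by norm_num) (by norm_num) (by norm_num) (by norm_num)
      (by norm_num) (by norm_num)
  replace hb : r j ≤ 9297 / 10000 := (not_le.1 c0).le
  by_cases c1 : (4491 / 5000 : ℝ) ≤ r j
  · have hbi : r i ≤ 3253 / 5000 := by
      refine rootn_le (hr i) (by norm_num) (n := 3) (by norm_num) ?_
      have := pow_le_pow_left₀ (by norm_num : (0 : ℝ) ≤ 4491 / 5000) c1 3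
      norm_num at this ⊢
      linarith
    exact num9_two r hr hF hi' hb hbi (w := 3253 / 5000) (by norm_num) (by norm_num) (by norm_num) (by norm_num)
      (by norm_num) (by norm_num)
  replace hb : r j ≤ 4491 / 5000 := (not_le.1 c1).le
  exact num9_one r hr hF (fun k => (hj' k).trans hb) (by norm_num) (by norm_num) (by norm_num) (by norm_num)

theorem num9_69s {r : Fin 6 → ℝ} (hr : ∀ j, 0 ≤ r j) (hr1 : ∀ j, r j ≤ 1)
    (h3 : ∀ k l, k ≠ l → r k ^ 3 + r l ^ 3 ≤ 1) (hF : ∑ j, (3 * r j ^ 5 - 2 * r j ^ 6) ≤ 1)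
    (hall : ∀ k, r k ^ 6 ≤ 69 / 100) :
    ∑ k, (2059 / 4200 * r k ^ 6 - 79 / 175 * r k ^ 5) ≤ 251 / 35000 := by
  obtain ⟨j, -, hj⟩ := exists_max_image univ r ⟨0, mem_univ 0⟩
  have hj' : ∀ k, r k ≤ r j := fun k => hj k (mem_univ k)
  have hb : r j ≤ 1881 / 2000 := by
    refine rootn_le (hr j) (by norm_num) (n := 6) (by norm_num) ?_
    exact (hall j).trans (by norm_num)
  obtain ⟨i, hi, hi2⟩ := exists_max_image (univ.erase j) r (erase_nonempty6 j)
  have hij : i ≠ j := ne_of_mem_erase hi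
  have hi' : ∀ k, k ≠ j → r k ≤ r i := fun k hk => hi2 k (mem_erase.2 ⟨hk, mem_univ k⟩)
  have hc := h3 j i hij.symm
  by_cases c0 : (937 / 1000 : ℝ) ≤ r j
  · have hbi : r i ≤ 281 / 500 := by
      refine rootn_le (hr i) (by norm_num) (n := 3) (by norm_num) ?_
      have := pow_le_pow_left₀ (by norm_num : (0 : ℝ) ≤ 937 / 1000) c0 3
      norm_num at this ⊢
      linarith
    exact num9_two r hr hF hi' hb hbi (w := 921 / 1000) (by norm_num) (by norm_num) (by norm_num) (by norm_num)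
      (by norm_num) (by norm_num)
  replace hb : r j ≤ 937 / 1000 := (not_le.1 c0).le
  exact num9_one r hr hF (fun k => (hj' k).trans hb) (by norm_num) (by norm_num) (by norm_num) (by norm_num)

section Z9P

variable {V : Type} [Fintype V]

/-- all the pentagons have probability at most `17 / 25` -/
theorem stage1_68 {μ : Fin 6 → V → ℝ} (hμ : ∀ a, IsW (μ a)) {L : V → V → Bool}
    (hs : ∀ x y, L x y = L y x)
    (hT : ∀ x y t, ¬ (L x y = true ∧ L x t = true ∧ L y t = true)) {q : ℝ}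
    (hq : ∀ a, qd (μ a) L ≤ q) (h1 : 2 / 7 ≤ q) (h2 : q ≤ 47 / 140)
    (hall : ∀ k, pProb μ L k ≤ 17 / 25) :
    ∑ k, qd (μ k) L * (1 - pProb μ L k) ≤ 10 - 2 * E6 μ (DD L) + q * (1 - ∑ k, pProb μ L k) +
      7 / 2 * E6 μ (BB L) - 253 / 2500 := by
  have h := stage9 hμ hs hT hq h1 h2 (s := 0) (t := 253 / 2500) hall
    (fun r hr hr1 h3 hF hall => by
      have h := num9_68 hr hr1 h3 hF hall
      norm_num at h ⊢
      exact h)
  linarith

/-- all the pentagons have probability at most `17 / 25`, with a slope -/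
theorem stage1_68s {μ : Fin 6 → V → ℝ} (hμ : ∀ a, IsW (μ a)) {L : V → V → Bool}
    (hs : ∀ x y, L x y = L y x)
    (hT : ∀ x y t, ¬ (L x y = true ∧ L x t = true ∧ L y t = true)) {q : ℝ}
    (hq : ∀ a, qd (μ a) L ≤ q) (h1 : 2 / 7 ≤ q) (h2 : q ≤ 47 / 140)
    (hall : ∀ k, pProb μ L k ≤ 17 / 25) :
    ∑ k, qd (μ k) L * (1 - pProb μ L k) ≤ 10 - 2 * E6 μ (DD L) + q * (1 - ∑ k, pProb μ L k) +
      7 / 2 * E6 μ (BB L) - (253 / 2500 + 29 / 100 * (1 - ∑ k, pProb μ L k - 8 / 25)) := by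
  have h := stage9 hμ hs hT hq h1 h2 (s := 29 / 100) (t := 253 / 2500) hall
    (fun r hr hr1 h3 hF hall => by
      have h := num9_68s hr hr1 h3 hF hall
      norm_num at h ⊢
      exact h)
  linarith

/-- all the pentagons have probability at most `69 / 100` -/
theorem stage1_69 {μ : Fin 6 → V → ℝ} (hμ : ∀ a, IsW (μ a)) {L : V → V → Bool}
    (hs : ∀ x y, L x y = L y x)
    (hT : ∀ x y t, ¬ (L x y = true ∧ L x t = true ∧ L y t = true)) {q : ℝ}
    (hq : ∀ a, qd (μ a) L ≤ q) (h1 : 2 / 7 ≤ q) (h2 : q ≤ 47 / 140)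
    (hall : ∀ k, pProb μ L k ≤ 69 / 100) :
    ∑ k, qd (μ k) L * (1 - pProb μ L k) ≤ 10 - 2 * E6 μ (DD L) + q * (1 - ∑ k, pProb μ L k) +
      7 / 2 * E6 μ (BB L) - 973 / 10000 := by
  have h := stage9 hμ hs hT hq h1 h2 (s := 0) (t := 973 / 10000) hall
    (fun r hr hr1 h3 hF hall => by
      have h := num9_69 hr hr1 h3 hF hall
      norm_num at h ⊢
      exact h)
  linarith

/-- all the pentagons have probability at most `69 / 100`, with a slope -/
theorem stage1_69s {μ : Fin 6 → V → ℝ} (hμ : ∀ a, IsW (μ a)) {L : V → V → Bool}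
    (hs : ∀ x y, L x y = L y x)
    (hT : ∀ x y t, ¬ (L x y = true ∧ L x t = true ∧ L y t = true)) {q : ℝ}
    (hq : ∀ a, qd (μ a) L ≤ q) (h1 : 2 / 7 ≤ q) (h2 : q ≤ 47 / 140)
    (hall : ∀ k, pProb μ L k ≤ 69 / 100) :
    ∑ k, qd (μ k) L * (1 - pProb μ L k) ≤ 10 - 2 * E6 μ (DD L) + q * (1 - ∑ k, pProb μ L k) +
      7 / 2 * E6 μ (BB L) - (973 / 10000 + 29 / 100 * (1 - ∑ k, pProb μ L k - 31 / 100)) := by
  have h := stage9 hμ hs hT hq h1 h2 (s := 29 / 100) (t := 973 / 10000) hall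
    (fun r hr hr1 h3 hF hall => by
      have h := num9_69s hr hr1 h3 hF hall
      norm_num at h ⊢
      exact h)
  linarith

end Z9P

end K4m
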