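import Mathlib
import Pool.Agent.Lib.MP_392c14_co.Z8a

/-!
# Local analysis, second stage, part A: a weighted Mantel inequality with bounded degrees

If `L` is a graph without triangles, `m` a probability measure, all degrees are at most `um`, and
the numbers `φ x ≥ 0` satisfy `2 c l (1 - l) ≤ l φ x + (1 - l) φ y` for adjacent `x, y` and all
`l ∈ [1 - um, um]`, then `c` times the edge density is at most the mean of `φ`.
-/

set_option autoImplicit false

namespace K4m

open Finset Function

section S2A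

variable {V : Type} [Fintype V]

/-- one edge -/
theorem ob_edge {um θ p q d e : ℝ} (hu : 1 / 2 ≤ um) (hp : 0 ≤ p) (hq : 0 ≤ q) (hd : 0 < d)
    (he : 0 < e) (hde : d + e ≤ 1) (hd1 : d ≤ um) (he1 : e ≤ um)
    (h : ∀ l : ℝ, 1 - um ≤ l → l ≤ um → 2 * θ * (l * (1 - l)) ≤ l * p + (1 - l) * q) :
    2 * θ ≤ p / d + q / e := by
  set l := max e (1 - um) with hl
  have l1 : 1 - um ≤ l := le_max_right _ _
  have l2 : e ≤ l := le_max_left _ _
  have l3 : l ≤ um := max_le he1 (by linarith)
  have l4 : d ≤ 1 - l := by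
    rcases max_cases e (1 - um) with ⟨h1, -⟩ | ⟨h1, -⟩ <;> rw [hl, h1] <;> linarith
  have l5 : 0 < l := lt_of_lt_of_le he l2
  have l6 : 0 < 1 - l := lt_of_lt_of_le hd l4
  have h1 := h l l1 l3
  have h2 : p / (1 - l) ≤ p / d := div_le_div_of_nonneg_left hp hd l4
  have h3 : q / l ≤ q / e := div_le_div_of_nonneg_left hq he l2
  have h4 : p / (1 - l) + q / l = (l * p + (1 - l) * q) / (l * (1 - l)) := by
    field_simp
  have h5 : 2 * θ ≤ (l * p + (1 - l) * q) / (l * (1 - l)) := by
    rw [le_div_iff₀ (mul_pos l5 l6)]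
    exact h1
  linarith

/-- **weighted Mantel inequality with bounded degrees** -/
theorem obmantel {m : V → ℝ} (hm : IsW m) {L : V → V → Bool} (hs : ∀ x y, L x y = L y x)
    (hT : ∀ x y t, ¬ (L x y = true ∧ L x t = true ∧ L y t = true)) {um : ℝ} (hu : 1 / 2 ≤ um)
    (hd : ∀ x, 0 < m x → dg m L x ≤ um) {θ : ℝ} {φ : V → ℝ} (hφ : ∀ x, 0 ≤ φ x)
    (h : ∀ x y, L x y = true → ∀ l : ℝ, 1 - um ≤ l → l ≤ um →
      2 * θ * (l * (1 - l)) ≤ l * φ x + (1 - l) * φ y) :
    θ * qd m L ≤ ∑ x, m x * φ x := by
  have hdp : ∀ x y, L x y = true → 0 < m y → 0 < dg m L x := by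
    intro x y hL hy
    have h1 : m y * lk L x y ≤ dg m L x :=
      single_le_sum (f := fun y => m y * lk L x y)
        (fun t _ => mul_nonneg (hm.nonneg t) (lk_nonneg L x t)) (mem_univ y)
    have h2 : lk L x y = 1 := by unfold lk; rw [if_pos hL]
    rw [h2, mul_one] at h1
    linarith
  have e3 : qd m L = ∑ v, ∑ y, m v * m y * lk L v y := by
    unfold qd dg
    refine sum_congr rfl fun v _ => ?_
    rw [mul_sum]
    exact sum_congr rfl fun y _ => by ring
  have h1 : 2 * θ * qd m L ≤
      ∑ v, ∑ y, m v * m y * lk L v y * (φ v / dg m L v + φ y / dg m L y) := by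
    rw [e3, mul_sum]
    refine sum_le_sum fun v _ => ?_
    rw [mul_sum]
    refine sum_le_sum fun y _ => ?_
    by_cases hL : L v y = true
    · have h2 : lk L v y = 1 := by unfold lk; rw [if_pos hL]
      rcases (hm.nonneg v).lt_or_eq with hv | hv
      · rcases (hm.nonneg y).lt_or_eq with hy | hy
        · have hL' : L y v = true := by rw [hs]; exact hL
          have h3 := ob_edge hu (hφ v) (hφ y) (hdp v y hL hy) (hdp y v hL' hv)
            (dg_add_le hm hT hL) (hd v hv) (hd y hy) (h v y hL)
          have h4 : 0 ≤ m v * m y := mul_nonneg (hm.nonneg v) (hm.nonneg y)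
          rw [h2, mul_one]
          nlinarith
        · rw [← hy]
          simp
      · rw [← hv]
        simp
    · have h2 : lk L v y = 0 := by unfold lk; rw [if_neg hL]
      rw [h2]
      simp
  have e5 : ∑ v, ∑ y, m v * m y * lk L v y * (φ v / dg m L v) =
      ∑ v, m v * (φ v / dg m L v * dg m L v) := by
    refine sum_congr rfl fun v _ => ?_
    have : m v * (φ v / dg m L v * dg m L v) = (m v * (φ v / dg m L v)) * dg m L v := by ring
    rw [this]
    unfold dg
    rw [mul_sum]
    exact sum_congr rfl fun y _ => by ring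
  have e6 : ∑ v, ∑ y, m v * m y * lk L v y * (φ y / dg m L y) =
      ∑ v, ∑ y, m v * m y * lk L v y * (φ v / dg m L v) := by
    rw [sum_comm]
    refine sum_congr rfl fun v _ => sum_congr rfl fun y _ => ?_
    have : lk L y v = lk L v y := by unfold lk; rw [hs y v]
    rw [this]; ring
  have e7 : ∑ v, ∑ y, m v * m y * lk L v y * (φ v / dg m L v + φ y / dg m L y) =
      2 * ∑ v, m v * (φ v / dg m L v * dg m L v) := by
    have : ∑ v, ∑ y, m v * m y * lk L v y * (φ v / dg m L v + φ y / dg m L y) =
        ∑ v, ∑ y, m v * m y * lk L v y * (φ v / dg m L v) +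
          ∑ v, ∑ y, m v * m y * lk L v y * (φ y / dg m L y) := by
      rw [← sum_add_distrib]
      refine sum_congr rfl fun v _ => ?_
      rw [← sum_add_distrib]
      exact sum_congr rfl fun y _ => by ring
    rw [this, e6, e5]
    ring
  have h2 : ∑ v, m v * (φ v / dg m L v * dg m L v) ≤ ∑ v, m v * φ v := by
    refine sum_le_sum fun v _ => mul_le_mul_of_nonneg_left ?_ (hm.nonneg v)
    by_cases h0 : dg m L v = 0
    · rw [h0]
      simpa using hφ v
    · rw [div_mul_cancel₀ _ h0]
  rw [e7] at h1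
  linarith

end S2A

end K4m
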