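import Mathlib
import Pool.Agent.Lib.MP_392c14_co.S2A
import Pool.Agent.Lib.MP_392c14_co.LocC

/-!
# Local analysis, second stage, part B: the check on seven points

`tX` is a table of functions of a graph on the six classes relative to a frame of one class, in
units of `1 / N`.  The lower end `l0 = p / q` of the interval of the controls is given by the two
numbers `p, q`.
-/

set_option autoImplicit false

namespace K4m

open Finset Function

/-- quadratic check for one pair of values -/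
def s2q (N p q A B : ℕ) : Bool :=
  (Nat.ble (Nat.mul 2 (Nat.mul N (Nat.sub q p))) (Nat.mul q A) ||
    Nat.ble (Nat.mul 2 (Nat.mul N (Nat.sub q p))) (Nat.mul q B)) ||
  (Nat.ble (Nat.add (Nat.mul (Nat.add (Nat.mul 2 N) B) (Nat.add (Nat.mul 2 N) B)) (Nat.mul A A))
    (Nat.add (Nat.mul 8 (Nat.mul N B)) (Nat.mul 2 (Nat.mul A (Nat.add (Nat.mul 2 N) B)))) ||
  ((Nat.ble (Nat.mul 2 (Nat.mul N (Nat.mul p (Nat.sub q p))))
      (Nat.add (Nat.mul p (Nat.mul q A)) (Nat.mul (Nat.sub q p) (Nat.mul q B))) &&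
    Nat.ble (Nat.add (Nat.mul q B) (Nat.mul 2 (Nat.mul N q)))
      (Nat.add (Nat.mul 4 (Nat.mul N p)) (Nat.mul q A))) ||
  (Nat.ble (Nat.mul 2 (Nat.mul N (Nat.mul p (Nat.sub q p))))
      (Nat.add (Nat.mul (Nat.sub q p) (Nat.mul q A)) (Nat.mul p (Nat.mul q B))) &&
    Nat.ble (Nat.add (Nat.mul 4 (Nat.mul N (Nat.sub q p))) (Nat.mul q A))
      (Nat.add (Nat.mul q B) (Nat.mul 2 (Nat.mul N q))))))

/-- the condition checked by `s2q` -/
def S2Q (N l0 A B : ℝ) : Prop :=
  ∀ l : ℝ, l0 ≤ l → l ≤ 1 - l0 → 2 * N * (l * (1 - l)) ≤ l * A + (1 - l) * B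

theorem S2Q.symm {N l0 A B : ℝ} (h : S2Q N l0 A B) : S2Q N l0 B A := by
  intro l h1 h2
  have := h (1 - l) (by linarith) (by linarith)
  nlinarith

theorem s2q_sound {N p q A B : ℕ} (hN : 0 < N) (hpq : p ≤ q) (hq : 0 < q)
    (h : s2q N p q A B = true) : S2Q N ((p : ℝ) / q) A B := by
  have hN' : (0 : ℝ) < N := by exact_mod_cast hN
  have hq' : (0 : ℝ) < q := by exact_mod_cast hq
  have hp' : (0 : ℝ) ≤ p := Nat.cast_nonneg _
  have hA : (0 : ℝ) ≤ A := Nat.cast_nonneg _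
  have hB : (0 : ℝ) ≤ B := Nat.cast_nonneg _
  set x : ℝ := (p : ℝ) / q with hx
  have hx0 : 0 ≤ x := div_nonneg hp' hq'.le
  have hxp : (p : ℝ) = x * q := by rw [hx]; field_simp
  have hsub : ((q - p : ℕ) : ℝ) = q - p := Nat.cast_sub hpq
  intro l h1 h2
  have hl0 : 0 ≤ l := hx0.trans h1
  have hl1 : 0 ≤ 1 - l := by linarith
  unfold s2q at h
  rw [Bool.or_eq_true, Bool.or_eq_true, Bool.or_eq_true, Bool.or_eq_true, Bool.and_eq_true,
    Bool.and_eq_true] at h
  rcases h with (h | h) | (h | (h | h))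
  · have e : 2 * (N * (q - p)) ≤ q * A := Nat.le_of_ble_eq_true h
    have e' : 2 * ((N : ℝ) * ((q - p : ℕ) : ℝ)) ≤ q * A := by exact_mod_cast e
    rw [hsub, hxp] at e'
    have e2 : (q : ℝ) * (2 * (N * (1 - x))) ≤ q * A := by linarith
    have e3 := le_of_mul_le_mul_left e2 hq'
    have e4 : 2 * (N : ℝ) * (1 - l) ≤ A := by nlinarith
    have e5 := mul_le_mul_of_nonneg_left e4 hl0
    nlinarith [mul_nonneg hl1 hB]
  · have e : 2 * (N * (q - p)) ≤ q * B := Nat.le_of_ble_eq_true h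
    have e' : 2 * ((N : ℝ) * ((q - p : ℕ) : ℝ)) ≤ q * B := by exact_mod_cast e
    rw [hsub, hxp] at e'
    have e2 : (q : ℝ) * (2 * (N * (1 - x))) ≤ q * B := by linarith
    have e3 := le_of_mul_le_mul_left e2 hq'
    have e4 : 2 * (N : ℝ) * l ≤ B := by nlinarith
    have e5 := mul_le_mul_of_nonneg_left e4 hl1
    nlinarith [mul_nonneg hl0 hA]
  · have e : (2 * N + B) * (2 * N + B) + A * A ≤ 8 * (N * B) + 2 * (A * (2 * N + B)) :=
      Nat.le_of_ble_eq_true h
    have e' : (2 * (N : ℝ) + B) * (2 * N + B) + A * A ≤ 8 * (N * B) + 2 * (A * (2 * N + B)) := by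
      exact_mod_cast e
    have e1 : 0 ≤ 8 * N * (l * A + (1 - l) * B - 2 * N * (l * (1 - l))) := by
      nlinarith [sq_nonneg (4 * N * l + (A - B - 2 * N))]
    have e2 : 0 < 8 * (N : ℝ) := by linarith
    have e3 := nonneg_of_mul_nonneg_right e1 e2
    linarith
  · obtain ⟨ha, hb⟩ := h
    have e : 2 * (N * (p * (q - p))) ≤ p * (q * A) + (q - p) * (q * B) := Nat.le_of_ble_eq_true ha
    have f : q * B + 2 * (N * q) ≤ 4 * (N * p) + q * A := Nat.le_of_ble_eq_true hb
    have e' : 2 * ((N : ℝ) * (p * ((q - p : ℕ) : ℝ))) ≤ p * (q * A) + ((q - p : ℕ) : ℝ) * (q * B) := by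
      exact_mod_cast e
    have f' : (q : ℝ) * B + 2 * (N * q) ≤ 4 * (N * p) + q * A := by exact_mod_cast f
    rw [hsub, hxp] at e'
    rw [hxp] at f'
    have e2 : (q : ℝ) * q * (2 * N * (x * (1 - x))) ≤ q * q * (x * A + (1 - x) * B) := by nlinarith
    have e3 := le_of_mul_le_mul_left e2 (mul_pos hq' hq')
    have f2 : (q : ℝ) * (B + 2 * N) ≤ q * (4 * N * x + A) := by nlinarith
    have f3 := le_of_mul_le_mul_left f2 hq'
    nlinarith [mul_nonneg (sub_nonneg.2 h1) (sub_nonneg.2 f3),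
      mul_nonneg hN'.le (sq_nonneg (l - x))]
  · obtain ⟨ha, hb⟩ := h
    have e : 2 * (N * (p * (q - p))) ≤ (q - p) * (q * A) + p * (q * B) := Nat.le_of_ble_eq_true ha
    have f : 4 * (N * (q - p)) + q * A ≤ q * B + 2 * (N * q) := Nat.le_of_ble_eq_true hb
    have e' : 2 * ((N : ℝ) * (p * ((q - p : ℕ) : ℝ))) ≤ ((q - p : ℕ) : ℝ) * (q * A) + p * (q * B) := by
      exact_mod_cast e
    have f' : 4 * ((N : ℝ) * ((q - p : ℕ) : ℝ)) + q * A ≤ q * B + 2 * (N * q) := by exact_mod_cast f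
    rw [hsub, hxp] at e'
    rw [hsub, hxp] at f'
    have e2 : (q : ℝ) * q * (2 * N * (x * (1 - x))) ≤ q * q * ((1 - x) * A + x * B) := by nlinarith
    have e3 := le_of_mul_le_mul_left e2 (mul_pos hq' hq')
    have f2 : (q : ℝ) * (4 * N * (1 - x) + A) ≤ q * (B + 2 * N) := by nlinarith
    have f3 := le_of_mul_le_mul_left f2 hq'
    nlinarith [mul_nonneg (sub_nonneg.2 h2) (sub_nonneg.2 f3),
      mul_nonneg hN'.le (sq_nonneg (1 - l - x))]

/-- all checks on seven points -/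
def s2chk (tX N p q : ℕ) : Bool :=
  allN 1024 fun w => !(tfW w) || allN 32 fun s => !(tfS s w) || allN (Nat.succ s) fun r =>
    !(Nat.beq (Nat.land s r) 0) || (!(tfS r w) ||
      s2q N p q (tget tX (Nat.add s (Nat.mul 32 w))) (tget tX (Nat.add r (Nat.mul 32 w))))

theorem s2chk_spec {tX N p q : ℕ} (hN : 0 < N) (hpq : p ≤ q) (hq : 0 < q)
    (h : s2chk tX N p q = true) {w s r : ℕ} (hw : w < 1024) (hs : s < 32) (hr : r < 32)
    (h1 : tfW w = true) (h2 : tfS s w = true) (h3 : tfS r w = true) (h4 : Nat.land s r = 0) :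
    S2Q N ((p : ℝ) / q) (vX tX w s) (vX tX w r) := by
  have key : ∀ s r : ℕ, s < 32 → r ≤ s → tfS s w = true → tfS r w = true → Nat.land s r = 0 →
      S2Q N ((p : ℝ) / q) (vX tX w s) (vX tX w r) := by
    intro s r hs hr h2 h3 h4
    have e1 := allN_spec h w hw
    rw [h1, Bool.not_true, Bool.false_or] at e1
    have e2 := allN_spec e1 s hs
    rw [h2, Bool.not_true, Bool.false_or] at e2
    have e3 := allN_spec e2 r (Nat.lt_succ_of_le hr)
    have e4 : Nat.beq (Nat.land s r) 0 = true := by rw [h4]; rfl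
    rw [e4, Bool.not_true, Bool.false_or, h3, Bool.not_true, Bool.false_or] at e3
    exact s2q_sound hN hpq hq e3
  rcases le_total r s with hle | hle
  · exact key s r hs hle h2 h3 h4
  · have h4' : Nat.land r s = 0 := by
      have := Nat.land_comm r s
      exact this.trans h4
    exact (key r s hr hle h3 h2 h4').symm

section S2B

variable {V : Type} [Fintype V]

/-- the inequality for one class -/
theorem s2own {tX N p q : ℕ} (hN : 0 < N) (hpq : p ≤ q) (hq : 0 < q)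
    (hc : s2chk tX N p q = true) {σ : Fin 6 → Fin 6} {a : Fin 6} (hσ : Frame σ a)
    {μ : Fin 6 → V → ℝ} (hμ : ∀ a, IsW (μ a)) {L : V → V → Bool} (hs : ∀ x y, L x y = L y x)
    (hT : ∀ x y t, ¬ (L x y = true ∧ L x t = true ∧ L y t = true)) {um : ℝ}
    (hu : um = 1 - (p : ℝ) / q) (hu2 : 1 / 2 ≤ um)
    (hd : ∀ x, 0 < μ a x → dg (μ a) L x ≤ um) :
    N * qd (μ a) L ≤ E6 μ (zX tX σ L) := by
  rw [← E6_avg hμ a, ← E6_const hμ (N * qd (μ a) L)]
  refine E6_mono hμ fun z => ?_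
  refine obmantel (hμ a) hs hT hu2 hd (fun x => by unfold zX vX; positivity) ?_
  intro x y hxy l h1 h2
  have n0 := lz_notri hT (update z a x)
  have n1 := lz_notri hT (update z a y)
  have w0 : cW (lz L (update z a x)) σ = cW (lz L z) σ := cW_update hσ L z x
  have w1 : cW (lz L (update z a y)) σ = cW (lz L z) σ := cW_update hσ L z y
  have t0 := tfS_code n0 σ
  have t1 := tfS_code n1 σ
  have t2 := tfW_code n0 σ
  rw [w0] at t0 t2
  rw [w1] at t1
  have e : update (update z a x) a y = update z a y := update_idem _ _ _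
  have hl := cS_update_land hσ hT (update z a x) y (by rw [update_self]; exact hxy)
  rw [e] at hl
  have h := s2chk_spec hN hpq hq hc (cW_lt _ _) (cS_lt _ _) (cS_lt _ _) t2 t0 t1 hl l
    (by rw [hu] at h1; linarith) (by rw [hu] at h2; linarith)
  unfold zX
  rw [w0, w1]
  exact h

end S2B

end K4m
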