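import Mathlib
import Pool.Agent.Lib.MP_392c14_co.S2B
import Pool.Agent.Lib.MP_392c14_co.Z8f

/-!
# Local analysis, second stage, part C: the inequality for one transversal (generated)

The pentagon of the class `0` is `1, 2, 4, 5, 3`; its five pairs are the positions `0, 1` of the
frames `s2s i`, its five classes the position `0` of the frames `s2f i`.
-/

set_option autoImplicit false

namespace K4m

open Finset Function

/-- frames of the classes of the pentagon -/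
def s2f : Fin 5 → Fin 6 → Fin 6 := ![![1, 0, 2, 4, 5, 3], ![2, 0, 4, 5, 3, 1], ![4, 0, 5, 3, 1, 2], ![5, 0, 3, 1, 2, 4], ![3, 0, 1, 2, 4, 5]]

/-- frames of the class `0` -/
def s2g : Fin 5 → Fin 6 → Fin 6 := ![![0, 1, 2, 4, 5, 3], ![0, 2, 4, 5, 3, 1], ![0, 4, 5, 3, 1, 2], ![0, 5, 3, 1, 2, 4], ![0, 3, 1, 2, 4, 5]]

/-- frames of the pairs of the pentagon -/
def s2s : Fin 5 → Fin 6 → Fin 6 := ![![1, 2, 0, 4, 5, 3], ![2, 4, 0, 5, 3, 1], ![4, 5, 0, 3, 1, 2], ![5, 3, 0, 1, 2, 4], ![3, 1, 0, 2, 4, 5]]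

theorem s2f_inj : ∀ i : Fin 5, Injective (s2f i) := by
  have h : ∀ i : Fin 5, ∀ a b : Fin 6, s2f i a = s2f i b → a = b := by decide +kernel
  exact fun i a b => h i a b

theorem s2g_inj : ∀ i : Fin 5, Injective (s2g i) := by
  have h : ∀ i : Fin 5, ∀ a b : Fin 6, s2g i a = s2g i b → a = b := by decide +kernel
  exact fun i a b => h i a b

theorem s2s_inj : ∀ i : Fin 5, Injective (s2s i) := by
  have h : ∀ i : Fin 5, ∀ a b : Fin 6, s2s i a = s2s i b → a = b := by decide +kernel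
  exact fun i a b => h i a b

/-- one value of the multiplier of the bound of the sum -/
def s2v (H lam off s0 s1 s2 s3 s4 M P v : ℕ) : Bool :=
  Nat.ble (Nat.add M (Nat.add (Nat.mul H v) (Nat.mul lam (Nat.add (Nat.sub s0 (Nat.add off v))
    (Nat.add (Nat.sub s1 (Nat.add off v)) (Nat.add (Nat.sub s2 (Nat.add off v))
      (Nat.add (Nat.sub s3 (Nat.add off v)) (Nat.sub s4 (Nat.add off v))))))))) P

/-- the inequality at a transversal -/
def s2in (N cb Ki Ko u H lam off x g0 g1 g2 g3 g4 s0 s1 s2 s3 s4 d b b' n0 n1 n2 n3 n4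
    e0 e1 e2 e3 e4 : ℕ) : Bool :=
  frc (Nat.add n0 (Nat.add n1 (Nat.add n2 (Nat.add n3 n4)))) fun n =>
  frc (Nat.add (Nat.mul 10000 N) (Nat.add (Nat.mul N (Nat.add (Nat.mul Ki b) (Nat.mul Ko b'))) (Nat.mul 1000
    (Nat.add (Nat.add (Nat.mul s0 n0) (Nat.add (Nat.mul s1 n1) (Nat.add (Nat.mul s2 n2)
      (Nat.add (Nat.mul s3 n3) (Nat.mul s4 n4))))) (Nat.add (Nat.mul g0 e0) (Nat.add (Nat.mul g1 e1)
        (Nat.add (Nat.mul g2 e2) (Nat.add (Nat.mul g3 e3) (Nat.mul g4 e4))))))))) fun P =>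
  frc (Nat.add (Nat.mul 2000 (Nat.mul N d)) (Nat.add (Nat.mul 1000 x) (Nat.add
    (Nat.mul 2000 (Nat.mul cb n)) (Nat.add (Nat.mul u (Nat.add g0 (Nat.add g1 (Nat.add g2
      (Nat.add g3 g4))))) (Nat.mul 1000 (Nat.mul off n)))))) fun M =>
  s2v H lam off s0 s1 s2 s3 s4 M P 0 || (s2v H lam off s0 s1 s2 s3 s4 M P (Nat.sub s0 off) ||
    (s2v H lam off s0 s1 s2 s3 s4 M P (Nat.sub s1 off) ||
    (s2v H lam off s0 s1 s2 s3 s4 M P (Nat.sub s2 off) ||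
    (s2v H lam off s0 s1 s2 s3 s4 M P (Nat.sub s3 off) ||
    s2v H lam off s0 s1 s2 s3 s4 M P (Nat.sub s4 off)))))

theorem s2v_real {H lam off s0 s1 s2 s3 s4 M P v : ℕ}
    (h : s2v H lam off s0 s1 s2 s3 s4 M P v = true) {t0 t1 t2 t3 t4 : ℝ} (h0 : 0 ≤ t0)
    (h1 : 0 ≤ t1) (h2 : 0 ≤ t2) (h3 : 0 ≤ t3) (h4 : 0 ≤ t4) (k0 : 1000 * t0 ≤ lam)
    (k1 : 1000 * t1 ≤ lam) (k2 : 1000 * t2 ≤ lam) (k3 : 1000 * t3 ≤ lam) (k4 : 1000 * t4 ≤ lam)
    (hH : 1000 * (t0 + t1 + t2 + t3 + t4) ≤ H) :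
    (M : ℝ) + 1000 * (t0 * (s0 - off) + t1 * (s1 - off) + t2 * (s2 - off) + t3 * (s3 - off) +
      t4 * (s4 - off)) ≤ P := by
  unfold s2v at h
  have e : M + (H * v + lam * ((s0 - (off + v)) + ((s1 - (off + v)) + ((s2 - (off + v)) +
      ((s3 - (off + v)) + (s4 - (off + v))))))) ≤ P := Nat.le_of_ble_eq_true h
  have e' : (M : ℝ) + (H * v + lam * (((s0 - (off + v) : ℕ) : ℝ) + (((s1 - (off + v) : ℕ) : ℝ) +
      (((s2 - (off + v) : ℕ) : ℝ) + (((s3 - (off + v) : ℕ) : ℝ) +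
        ((s4 - (off + v) : ℕ) : ℝ)))))) ≤ P := by exact_mod_cast e
  have key : ∀ (s : ℕ) (t : ℝ), 0 ≤ t → 1000 * t ≤ lam →
      1000 * (t * ((s : ℝ) - off)) ≤ 1000 * t * v + lam * ((s - (off + v) : ℕ) : ℝ) := by
    intro s t ht hk
    have a1 : (s : ℝ) ≤ ((s - (off + v) : ℕ) : ℝ) + (off + v) := by
      have : s ≤ (s - (off + v)) + (off + v) := by omega
      exact_mod_cast this
    have a2 : (0 : ℝ) ≤ ((s - (off + v) : ℕ) : ℝ) := Nat.cast_nonneg _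
    nlinarith [mul_le_mul_of_nonneg_right hk a2, mul_le_mul_of_nonneg_left a1 ht]
  have b0 := key s0 t0 h0 k0
  have b1 := key s1 t1 h1 k1
  have b2 := key s2 t2 h2 k2
  have b3 := key s3 t3 h3 k3
  have b4 := key s4 t4 h4 k4
  have hv : (0 : ℝ) ≤ v := Nat.cast_nonneg _
  have b5 := mul_le_mul_of_nonneg_right hH hv
  linarith

theorem s2in_real {N cb Ki Ko u H lam off x g0 g1 g2 g3 g4 s0 s1 s2 s3 s4 d b b' n0 n1 n2 n3 n4
    e0 e1 e2 e3 e4 : ℕ} (h : s2in N cb Ki Ko u H lam off x g0 g1 g2 g3 g4 s0 s1 s2 s3 s4 d b b'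
      n0 n1 n2 n3 n4 e0 e1 e2 e3 e4 = true) {t0 t1 t2 t3 t4 : ℝ} (h0 : 0 ≤ t0)
    (h1 : 0 ≤ t1) (h2 : 0 ≤ t2) (h3 : 0 ≤ t3) (h4 : 0 ≤ t4) (k0 : 1000 * t0 ≤ lam)
    (k1 : 1000 * t1 ≤ lam) (k2 : 1000 * t2 ≤ lam) (k3 : 1000 * t3 ≤ lam) (k4 : 1000 * t4 ≤ lam)
    (hH : 1000 * (t0 + t1 + t2 + t3 + t4) ≤ H) :
    2000 * ((N : ℝ) * d) + 1000 * x + 2000 * (cb * ((n0 : ℝ) + n1 + n2 + n3 + n4)) +
      (g0 * (u - 1000 * e0) + g1 * (u - 1000 * e1) + g2 * (u - 1000 * e2) +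
        g3 * (u - 1000 * e3) + g4 * (u - 1000 * e4)) +
      1000 * ((s0 - off) * (t0 - n0) + (s1 - off) * (t1 - n1) + (s2 - off) * (t2 - n2) +
        (s3 - off) * (t3 - n3) + (s4 - off) * (t4 - n4)) ≤ 10000 * N + N * (Ki * b + Ko * b') := by
  unfold s2in at h
  simp only [frc_eq, Bool.or_eq_true] at h
  have key : ∀ v : ℕ, s2v H lam off s0 s1 s2 s3 s4
      (Nat.add (Nat.mul 2000 (Nat.mul N d)) (Nat.add (Nat.mul 1000 x) (Nat.add
        (Nat.mul 2000 (Nat.mul cb (Nat.add n0 (Nat.add n1 (Nat.add n2 (Nat.add n3 n4)))))) (Nat.add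
          (Nat.mul u (Nat.add g0 (Nat.add g1 (Nat.add g2 (Nat.add g3 g4))))) (Nat.mul 1000
            (Nat.mul off (Nat.add n0 (Nat.add n1 (Nat.add n2 (Nat.add n3 n4))))))))))
      (Nat.add (Nat.mul 10000 N) (Nat.add (Nat.mul N (Nat.add (Nat.mul Ki b) (Nat.mul Ko b'))) (Nat.mul 1000
        (Nat.add (Nat.add (Nat.mul s0 n0) (Nat.add (Nat.mul s1 n1) (Nat.add (Nat.mul s2 n2)
          (Nat.add (Nat.mul s3 n3) (Nat.mul s4 n4))))) (Nat.add (Nat.mul g0 e0)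
            (Nat.add (Nat.mul g1 e1) (Nat.add (Nat.mul g2 e2) (Nat.add (Nat.mul g3 e3)
              (Nat.mul g4 e4))))))))) v = true →
      2000 * ((N : ℝ) * d) + 1000 * x + 2000 * (cb * ((n0 : ℝ) + n1 + n2 + n3 + n4)) +
      (g0 * (u - 1000 * e0) + g1 * (u - 1000 * e1) + g2 * (u - 1000 * e2) +
        g3 * (u - 1000 * e3) + g4 * (u - 1000 * e4)) +
      1000 * ((s0 - off) * (t0 - n0) + (s1 - off) * (t1 - n1) + (s2 - off) * (t2 - n2) +
        (s3 - off) * (t3 - n3) + (s4 - off) * (t4 - n4)) ≤ 10000 * N + N * (Ki * b + Ko * b') := by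
    intro v hv
    have := s2v_real hv h0 h1 h2 h3 h4 k0 k1 k2 k3 k4 hH
    simp only [Nat.add_eq, Nat.mul_eq, Nat.cast_add, Nat.cast_mul, Nat.cast_ofNat] at this
    linarith
  rcases h with h | h | h | h | h | h <;> exact key _ h

/-- number of blocks through the class `0` with two pairs -/
def s2bi (b01 b02 b12 b03 b13 b23 b04 b14 b24 b34 b05 b15 b25 b35 b45 : ℕ) : ℕ :=
  Nat.add (bl2 (Nat.add b01 (Nat.add b02 b12))) (Nat.add (bl2 (Nat.add b01 (Nat.add b03 b13))) (Nat.add (bl2 (Nat.add b02 (Nat.add b04 b24))) (Nat.add (bl2 (Nat.add b03 (Nat.add b05 b35))) (bl2 (Nat.add b04 (Nat.add b05 b45))))))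

/-- number of the other blocks with two pairs -/
def s2bo (b01 b02 b12 b03 b13 b23 b04 b14 b24 b34 b05 b15 b25 b35 b45 : ℕ) : ℕ :=
  Nat.add (bl2 (Nat.add b12 (Nat.add b15 b25))) (Nat.add (bl2 (Nat.add b13 (Nat.add b14 b34))) (Nat.add (bl2 (Nat.add b14 (Nat.add b15 b45))) (Nat.add (bl2 (Nat.add b23 (Nat.add b24 b34))) (bl2 (Nat.add b23 (Nat.add b25 b35))))))

/-- sum of the functions of the classes of the pentagon -/
def s2x (tX : ℕ) (b01 b02 b12 b03 b13 b23 b04 b14 b24 b34 b05 b15 b25 b35 b45 : ℕ) : ℕ :=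
  Nat.add (tget tX (Nat.add (h5 b01 b12 b14 b15 b13)
    (Nat.mul 32 (h10 b02 b04 b05 b03 b24 b25 b23 b45 b34 b35))))
    (Nat.add (tget tX (Nat.add (h5 b02 b24 b25 b23 b12)
    (Nat.mul 32 (h10 b04 b05 b03 b01 b45 b34 b14 b35 b15 b13))))
    (Nat.add (tget tX (Nat.add (h5 b04 b45 b34 b14 b24)
    (Nat.mul 32 (h10 b05 b03 b01 b02 b35 b15 b25 b13 b23 b12))))
    (Nat.add (tget tX (Nat.add (h5 b05 b35 b15 b25 b45)
    (Nat.mul 32 (h10 b03 b01 b02 b04 b13 b23 b34 b12 b14 b24))))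
    (tget tX (Nat.add (h5 b03 b13 b23 b34 b35)
    (Nat.mul 32 (h10 b01 b02 b04 b05 b12 b14 b15 b24 b25 b45)))))))

/-- the check at one graph -/
def s2lf (tX tG tS N cb Ki Ko u H lam off : ℕ) (b01 b02 b12 b03 b13 b23 b04 b14 b24 b34 b05 b15 b25 b35 b45 : ℕ) : Bool :=
  frc (s2x tX b01 b02 b12 b03 b13 b23 b04 b14 b24 b34 b05 b15 b25 b35 b45) fun x =>
  frc (tget tG (h10 b12 b14 b15 b13 b24 b25 b23 b45 b34 b35)) fun g0 =>
  frc (tget tG (h10 b24 b25 b23 b12 b45 b34 b14 b35 b15 b13)) fun g1 =>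
  frc (tget tG (h10 b45 b34 b14 b24 b35 b15 b25 b13 b23 b12)) fun g2 =>
  frc (tget tG (h10 b35 b15 b25 b45 b13 b23 b34 b12 b14 b24)) fun g3 =>
  frc (tget tG (h10 b13 b23 b34 b35 b12 b14 b15 b24 b25 b45)) fun g4 =>
  frc (tget tS (h6 b04 b05 b03 b45 b34 b35)) fun s0 =>
  frc (tget tS (h6 b05 b03 b01 b35 b15 b13)) fun s1 =>
  frc (tget tS (h6 b03 b01 b02 b13 b23 b12)) fun s2 =>
  frc (tget tS (h6 b01 b02 b04 b12 b14 b24)) fun s3 =>
  frc (tget tS (h6 b02 b04 b05 b24 b25 b45)) fun s4 =>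
  frc (sd8 b01 b02 b12 b03 b13 b23 b04 b14 b24 b34 b05 b15 b25 b35 b45) fun d =>
  frc (s2bi b01 b02 b12 b03 b13 b23 b04 b14 b24 b34 b05 b15 b25 b35 b45) fun b =>
  frc (s2bo b01 b02 b12 b03 b13 b23 b04 b14 b24 b34 b05 b15 b25 b35 b45) fun b' =>
  s2in N cb Ki Ko u H lam off x g0 g1 g2 g3 g4 s0 s1 s2 s3 s4 d b b' (Nat.sub 1 b12) (Nat.sub 1 b24) (Nat.sub 1 b45) (Nat.sub 1 b35) (Nat.sub 1 b13)
    b01 b02 b04 b05 b03

/-- all graphs without triangles -/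
def s2z (tX tG tS N cb Ki Ko u H lam off : ℕ) : Bool :=
  al2 fun b01 =>
  al2 fun b02 =>
  al2 fun b12 => tr3 b01 b02 b12 || (
  al2 fun b03 =>
  al2 fun b13 => tr3 b01 b03 b13 || (
  al2 fun b23 => tr3 b02 b03 b23 || ( tr3 b12 b13 b23 || (
  al2 fun b04 =>
  al2 fun b14 => tr3 b01 b04 b14 || (
  al2 fun b24 => tr3 b02 b04 b24 || ( tr3 b12 b14 b24 || (
  al2 fun b34 => tr3 b03 b04 b34 || ( tr3 b13 b14 b34 || ( tr3 b23 b24 b34 || (
  al2 fun b05 =>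
  al2 fun b15 => tr3 b01 b05 b15 || (
  al2 fun b25 => tr3 b02 b05 b25 || ( tr3 b12 b15 b25 || (
  al2 fun b35 => tr3 b03 b05 b35 || ( tr3 b13 b15 b35 || ( tr3 b23 b25 b35 || (
  al2 fun b45 => tr3 b04 b05 b45 || ( tr3 b14 b15 b45 || ( tr3 b24 b25 b45 || ( tr3 b34 b35 b45 || (
  s2lf tX tG tS N cb Ki Ko u H lam off b01 b02 b12 b03 b13 b23 b04 b14 b24 b34 b05 b15 b25 b35 b45))))))))))))))))))))

theorem s2z_spec {tX tG tS N cb Ki Ko u H lam off : ℕ} (h : s2z tX tG tS N cb Ki Ko u H lam off = true) (b01 b02 b12 b03 b13 b23 b04 b14 b24 b34 b05 b15 b25 b35 b45 : Bool)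
    (h1 : (b01 && b02 && b12) = false)
    (h2 : (b01 && b03 && b13) = false)
    (h3 : (b02 && b03 && b23) = false)
    (h4 : (b12 && b13 && b23) = false)
    (h5 : (b01 && b04 && b14) = false)
    (h6 : (b02 && b04 && b24) = false)
    (h7 : (b12 && b14 && b24) = false)
    (h8 : (b03 && b04 && b34) = false)
    (h9 : (b13 && b14 && b34) = false)
    (h10 : (b23 && b24 && b34) = false)
    (h11 : (b01 && b05 && b15) = false)
    (h12 : (b02 && b05 && b25) = false)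
    (h13 : (b12 && b15 && b25) = false)
    (h14 : (b03 && b05 && b35) = false)
    (h15 : (b13 && b15 && b35) = false)
    (h16 : (b23 && b25 && b35) = false)
    (h17 : (b04 && b05 && b45) = false)
    (h18 : (b14 && b15 && b45) = false)
    (h19 : (b24 && b25 && b45) = false)
    (h20 : (b34 && b35 && b45) = false) :
    s2lf tX tG tS N cb Ki Ko u H lam off b01.toNat b02.toNat b12.toNat b03.toNat b13.toNat b23.toNat b04.toNat b14.toNat b24.toNat b34.toNat b05.toNat b15.toNat b25.toNat b35.toNat b45.toNat = true := by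
  unfold s2z at h
  have h := al2_spec h b01
  have h := al2_spec h b02
  have h := al2_spec h b12
  rw [tr3_false h1, Bool.false_or] at h
  have h := al2_spec h b03
  have h := al2_spec h b13
  rw [tr3_false h2, Bool.false_or] at h
  have h := al2_spec h b23
  rw [tr3_false h3, Bool.false_or] at h
  rw [tr3_false h4, Bool.false_or] at h
  have h := al2_spec h b04
  have h := al2_spec h b14
  rw [tr3_false h5, Bool.false_or] at h
  have h := al2_spec h b24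
  rw [tr3_false h6, Bool.false_or] at h
  rw [tr3_false h7, Bool.false_or] at h
  have h := al2_spec h b34
  rw [tr3_false h8, Bool.false_or] at h
  rw [tr3_false h9, Bool.false_or] at h
  rw [tr3_false h10, Bool.false_or] at h
  have h := al2_spec h b05
  have h := al2_spec h b15
  rw [tr3_false h11, Bool.false_or] at h
  have h := al2_spec h b25
  rw [tr3_false h12, Bool.false_or] at h
  rw [tr3_false h13, Bool.false_or] at h
  have h := al2_spec h b35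
  rw [tr3_false h14, Bool.false_or] at h
  rw [tr3_false h15, Bool.false_or] at h
  rw [tr3_false h16, Bool.false_or] at h
  have h := al2_spec h b45
  rw [tr3_false h17, Bool.false_or] at h
  rw [tr3_false h18, Bool.false_or] at h
  rw [tr3_false h19, Bool.false_or] at h
  rw [tr3_false h20, Bool.false_or] at h
  exact h

section link

variable {l : Fin 6 → Fin 6 → Bool} (hs : ∀ i j, l i j = l j i)
include hs

theorem s2fs0 : cS l (s2f 0) = h5 (l 0 1).toNat (l 1 2).toNat (l 1 4).toNat (l 1 5).toNat (l 1 3).toNat := by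
  change h5 (l 1 0).toNat (l 1 2).toNat (l 1 4).toNat (l 1 5).toNat (l 1 3).toNat = _
  rw [hs 1 0]

theorem s2fw0 : cW l (s2f 0) = h10 (l 0 2).toNat (l 0 4).toNat (l 0 5).toNat (l 0 3).toNat (l 2 4).toNat (l 2 5).toNat (l 2 3).toNat (l 4 5).toNat (l 3 4).toNat (l 3 5).toNat := by
  change h10 (l 0 2).toNat (l 0 4).toNat (l 0 5).toNat (l 0 3).toNat (l 2 4).toNat (l 2 5).toNat (l 2 3).toNat (l 4 5).toNat (l 4 3).toNat (l 5 3).toNat = _
  rw [hs 4 3, hs 5 3]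

theorem s2fs1 : cS l (s2f 1) = h5 (l 0 2).toNat (l 2 4).toNat (l 2 5).toNat (l 2 3).toNat (l 1 2).toNat := by
  change h5 (l 2 0).toNat (l 2 4).toNat (l 2 5).toNat (l 2 3).toNat (l 2 1).toNat = _
  rw [hs 2 0, hs 2 1]

theorem s2fw1 : cW l (s2f 1) = h10 (l 0 4).toNat (l 0 5).toNat (l 0 3).toNat (l 0 1).toNat (l 4 5).toNat (l 3 4).toNat (l 1 4).toNat (l 3 5).toNat (l 1 5).toNat (l 1 3).toNat := by
  change h10 (l 0 4).toNat (l 0 5).toNat (l 0 3).toNat (l 0 1).toNat (l 4 5).toNat (l 4 3).toNat (l 4 1).toNat (l 5 3).toNat (l 5 1).toNat (l 3 1).toNat = _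
  rw [hs 4 3, hs 4 1, hs 5 3, hs 5 1, hs 3 1]

theorem s2fs2 : cS l (s2f 2) = h5 (l 0 4).toNat (l 4 5).toNat (l 3 4).toNat (l 1 4).toNat (l 2 4).toNat := by
  change h5 (l 4 0).toNat (l 4 5).toNat (l 4 3).toNat (l 4 1).toNat (l 4 2).toNat = _
  rw [hs 4 0, hs 4 3, hs 4 1, hs 4 2]

theorem s2fw2 : cW l (s2f 2) = h10 (l 0 5).toNat (l 0 3).toNat (l 0 1).toNat (l 0 2).toNat (l 3 5).toNat (l 1 5).toNat (l 2 5).toNat (l 1 3).toNat (l 2 3).toNat (l 1 2).toNat := by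
  change h10 (l 0 5).toNat (l 0 3).toNat (l 0 1).toNat (l 0 2).toNat (l 5 3).toNat (l 5 1).toNat (l 5 2).toNat (l 3 1).toNat (l 3 2).toNat (l 1 2).toNat = _
  rw [hs 5 3, hs 5 1, hs 5 2, hs 3 1, hs 3 2]

theorem s2fs3 : cS l (s2f 3) = h5 (l 0 5).toNat (l 3 5).toNat (l 1 5).toNat (l 2 5).toNat (l 4 5).toNat := by
  change h5 (l 5 0).toNat (l 5 3).toNat (l 5 1).toNat (l 5 2).toNat (l 5 4).toNat = _
  rw [hs 5 0, hs 5 3, hs 5 1, hs 5 2, hs 5 4]

theorem s2fw3 : cW l (s2f 3) = h10 (l 0 3).toNat (l 0 1).toNat (l 0 2).toNat (l 0 4).toNat (l 1 3).toNat (l 2 3).toNat (l 3 4).toNat (l 1 2).toNat (l 1 4).toNat (l 2 4).toNat := by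
  change h10 (l 0 3).toNat (l 0 1).toNat (l 0 2).toNat (l 0 4).toNat (l 3 1).toNat (l 3 2).toNat (l 3 4).toNat (l 1 2).toNat (l 1 4).toNat (l 2 4).toNat = _
  rw [hs 3 1, hs 3 2]

theorem s2fs4 : cS l (s2f 4) = h5 (l 0 3).toNat (l 1 3).toNat (l 2 3).toNat (l 3 4).toNat (l 3 5).toNat := by
  change h5 (l 3 0).toNat (l 3 1).toNat (l 3 2).toNat (l 3 4).toNat (l 3 5).toNat = _
  rw [hs 3 0, hs 3 1, hs 3 2]

theorem s2fw4 : cW l (s2f 4) = h10 (l 0 1).toNat (l 0 2).toNat (l 0 4).toNat (l 0 5).toNat (l 1 2).toNat (l 1 4).toNat (l 1 5).toNat (l 2 4).toNat (l 2 5).toNat (l 4 5).toNat := by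
  rfl

theorem s2gw0 : cW l (s2g 0) = h10 (l 1 2).toNat (l 1 4).toNat (l 1 5).toNat (l 1 3).toNat (l 2 4).toNat (l 2 5).toNat (l 2 3).toNat (l 4 5).toNat (l 3 4).toNat (l 3 5).toNat := by
  change h10 (l 1 2).toNat (l 1 4).toNat (l 1 5).toNat (l 1 3).toNat (l 2 4).toNat (l 2 5).toNat (l 2 3).toNat (l 4 5).toNat (l 4 3).toNat (l 5 3).toNat = _
  rw [hs 4 3, hs 5 3]

theorem s2gw1 : cW l (s2g 1) = h10 (l 2 4).toNat (l 2 5).toNat (l 2 3).toNat (l 1 2).toNat (l 4 5).toNat (l 3 4).toNat (l 1 4).toNat (l 3 5).toNat (l 1 5).toNat (l 1 3).toNat := by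
  change h10 (l 2 4).toNat (l 2 5).toNat (l 2 3).toNat (l 2 1).toNat (l 4 5).toNat (l 4 3).toNat (l 4 1).toNat (l 5 3).toNat (l 5 1).toNat (l 3 1).toNat = _
  rw [hs 2 1, hs 4 3, hs 4 1, hs 5 3, hs 5 1, hs 3 1]

theorem s2gw2 : cW l (s2g 2) = h10 (l 4 5).toNat (l 3 4).toNat (l 1 4).toNat (l 2 4).toNat (l 3 5).toNat (l 1 5).toNat (l 2 5).toNat (l 1 3).toNat (l 2 3).toNat (l 1 2).toNat := by
  change h10 (l 4 5).toNat (l 4 3).toNat (l 4 1).toNat (l 4 2).toNat (l 5 3).toNat (l 5 1).toNat (l 5 2).toNat (l 3 1).toNat (l 3 2).toNat (l 1 2).toNat = _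
  rw [hs 4 3, hs 4 1, hs 4 2, hs 5 3, hs 5 1, hs 5 2, hs 3 1, hs 3 2]

theorem s2gw3 : cW l (s2g 3) = h10 (l 3 5).toNat (l 1 5).toNat (l 2 5).toNat (l 4 5).toNat (l 1 3).toNat (l 2 3).toNat (l 3 4).toNat (l 1 2).toNat (l 1 4).toNat (l 2 4).toNat := by
  change h10 (l 5 3).toNat (l 5 1).toNat (l 5 2).toNat (l 5 4).toNat (l 3 1).toNat (l 3 2).toNat (l 3 4).toNat (l 1 2).toNat (l 1 4).toNat (l 2 4).toNat = _
  rw [hs 5 3, hs 5 1, hs 5 2, hs 5 4, hs 3 1, hs 3 2]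

theorem s2gw4 : cW l (s2g 4) = h10 (l 1 3).toNat (l 2 3).toNat (l 3 4).toNat (l 3 5).toNat (l 1 2).toNat (l 1 4).toNat (l 1 5).toNat (l 2 4).toNat (l 2 5).toNat (l 4 5).toNat := by
  change h10 (l 3 1).toNat (l 3 2).toNat (l 3 4).toNat (l 3 5).toNat (l 1 2).toNat (l 1 4).toNat (l 1 5).toNat (l 2 4).toNat (l 2 5).toNat (l 4 5).toNat = _
  rw [hs 3 1, hs 3 2]

theorem s2sw0 : w6 l (s2s 0) = h6 (l 0 4).toNat (l 0 5).toNat (l 0 3).toNat (l 4 5).toNat (l 3 4).toNat (l 3 5).toNat := by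
  change h6 (l 0 4).toNat (l 0 5).toNat (l 0 3).toNat (l 4 5).toNat (l 4 3).toNat (l 5 3).toNat = _
  rw [hs 4 3, hs 5 3]

theorem s2sw1 : w6 l (s2s 1) = h6 (l 0 5).toNat (l 0 3).toNat (l 0 1).toNat (l 3 5).toNat (l 1 5).toNat (l 1 3).toNat := by
  change h6 (l 0 5).toNat (l 0 3).toNat (l 0 1).toNat (l 5 3).toNat (l 5 1).toNat (l 3 1).toNat = _
  rw [hs 5 3, hs 5 1, hs 3 1]

theorem s2sw2 : w6 l (s2s 2) = h6 (l 0 3).toNat (l 0 1).toNat (l 0 2).toNat (l 1 3).toNat (l 2 3).toNat (l 1 2).toNat := by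
  change h6 (l 0 3).toNat (l 0 1).toNat (l 0 2).toNat (l 3 1).toNat (l 3 2).toNat (l 1 2).toNat = _
  rw [hs 3 1, hs 3 2]

theorem s2sw3 : w6 l (s2s 3) = h6 (l 0 1).toNat (l 0 2).toNat (l 0 4).toNat (l 1 2).toNat (l 1 4).toNat (l 2 4).toNat := by
  rfl

theorem s2sw4 : w6 l (s2s 4) = h6 (l 0 2).toNat (l 0 4).toNat (l 0 5).toNat (l 2 4).toNat (l 2 5).toNat (l 4 5).toNat := by
  rfl

end link

section S2C

variable {V : Type}

/-- sum of the functions of the classes of the pentagon at a transversal -/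
noncomputable def S2X (tX : ℕ) (L : V → V → Bool) (z : Fin 6 → V) : ℝ :=
  zX tX (s2f 0) L z + zX tX (s2f 1) L z + zX tX (s2f 2) L z + zX tX (s2f 3) L z + zX tX (s2f 4) L z

/-- multiplier of the bound of the degrees into the class `0` -/
noncomputable def S2G (tG : ℕ) (L : V → V → Bool) (i : Fin 5) (z : Fin 6 → V) : ℝ :=
  (tget tG (cW (lz L z) (s2g i)) : ℝ)

/-- multiplier of a pair of the pentagon -/
noncomputable def S2S (tS : ℕ) (L : V → V → Bool) (i : Fin 5) (z : Fin 6 → V) : ℝ :=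
  (tget tS (w6 (lz L z) (s2s i)) : ℝ)

variable {L : V → V → Bool} (hs : ∀ x y, L x y = L y x) (z : Fin 6 → V)
include hs

theorem s2x_eq (tX : ℕ) : (s2x tX (lz L z 0 1).toNat (lz L z 0 2).toNat (lz L z 1 2).toNat (lz L z 0 3).toNat (lz L z 1 3).toNat (lz L z 2 3).toNat (lz L z 0 4).toNat (lz L z 1 4).toNat (lz L z 2 4).toNat (lz L z 3 4).toNat (lz L z 0 5).toNat (lz L z 1 5).toNat (lz L z 2 5).toNat (lz L z 3 5).toNat (lz L z 4 5).toNat : ℝ) =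
    S2X tX L z := by
  have hz : ∀ i j, lz L z i j = lz L z j i := fun i j => hs _ _
  unfold S2X zX vX s2x
  rw [s2fs0 hz, s2fw0 hz, s2fs1 hz, s2fw1 hz, s2fs2 hz, s2fw2 hz, s2fs3 hz, s2fw3 hz, s2fs4 hz, s2fw4 hz]
  simp only [Nat.add_eq, Nat.mul_eq, Nat.cast_add]
  ring

omit hs in
theorem s2bit (a b : Fin 6) : ((lz L z a b).toNat : ℝ) = lk L (z a) (z b) := by
  unfold lk lz
  cases L (z a) (z b) <;> simp

omit hs in
theorem s2nb (a b : Fin 6) : ((Nat.sub 1 (lz L z a b).toNat : ℕ) : ℝ) = 1 - lk L (z a) (z b) := by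
  unfold lk lz
  cases L (z a) (z b) <;> simp

/-- number of blocks through the class `0` with two pairs -/
noncomputable def BBi (L : V → V → Bool) (z : Fin 6 → V) : ℝ :=
  bt L (z 0) (z 1) (z 2) + bt L (z 0) (z 1) (z 3) + bt L (z 0) (z 2) (z 4) +
    bt L (z 0) (z 3) (z 5) + bt L (z 0) (z 4) (z 5)

/-- number of the other blocks with two pairs -/
noncomputable def BBo (L : V → V → Bool) (z : Fin 6 → V) : ℝ :=
  bt L (z 1) (z 2) (z 5) + bt L (z 1) (z 3) (z 4) + bt L (z 1) (z 4) (z 5) +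
    bt L (z 2) (z 3) (z 4) + bt L (z 2) (z 3) (z 5)

/-- a pair of the pentagon -/
noncomputable def s2m (L : V → V → Bool) (z : Fin 6 → V) (i : Fin 5) : ℝ :=
  lk L (z (s2s i 0)) (z (s2s i 1))

/-- a pair with the class `0` -/
noncomputable def s2n (L : V → V → Bool) (z : Fin 6 → V) (i : Fin 5) : ℝ :=
  lk L (z 0) (z (s2g i 1))

omit hs in
theorem s2bt (a b c : Fin 6) : (bl2 (Nat.add (lz L z a b).toNat (Nat.add (lz L z a c).toNat
    (lz L z b c).toNat)) : ℝ) = bt L (z a) (z b) (z c) := by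
  unfold bt lz bl2
  cases L (z a) (z b) <;> cases L (z a) (z c) <;> cases L (z b) (z c) <;> simp (decide := true)

omit hs in
theorem s2bi_eq : (s2bi (lz L z 0 1).toNat (lz L z 0 2).toNat (lz L z 1 2).toNat (lz L z 0 3).toNat (lz L z 1 3).toNat (lz L z 2 3).toNat (lz L z 0 4).toNat (lz L z 1 4).toNat (lz L z 2 4).toNat (lz L z 3 4).toNat (lz L z 0 5).toNat (lz L z 1 5).toNat (lz L z 2 5).toNat (lz L z 3 5).toNat (lz L z 4 5).toNat : ℝ) = BBi L z := by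
  have e := s2bt (L := L) z
  unfold s2bi BBi
  simp only [Nat.add_eq, Nat.cast_add] at e ⊢
  simp only [e]
  ring

omit hs in
theorem s2bo_eq : (s2bo (lz L z 0 1).toNat (lz L z 0 2).toNat (lz L z 1 2).toNat (lz L z 0 3).toNat (lz L z 1 3).toNat (lz L z 2 3).toNat (lz L z 0 4).toNat (lz L z 1 4).toNat (lz L z 2 4).toNat (lz L z 3 4).toNat (lz L z 0 5).toNat (lz L z 1 5).toNat (lz L z 2 5).toNat (lz L z 3 5).toNat (lz L z 4 5).toNat : ℝ) = BBo L z := by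
  have e := s2bt (L := L) z
  unfold s2bo BBo
  simp only [Nat.add_eq, Nat.cast_add] at e ⊢
  simp only [e]
  ring

/-- **the inequality at a transversal** -/
theorem s2point (hT : ∀ x y t, ¬ (L x y = true ∧ L x t = true ∧ L y t = true))
    {tX tG tS N cb Ki Ko u H lam off : ℕ} (hc : s2z tX tG tS N cb Ki Ko u H lam off = true)
    {t : Fin 5 → ℝ} (h0 : ∀ i, 0 ≤ t i) (k0 : ∀ i, 1000 * t i ≤ lam)
    (hH : 1000 * ∑ i, t i ≤ H) :
    2000 * ((N : ℝ) * DD L z) + 1000 * S2X tX L z + 2000 * (cb * ∑ i, (1 - s2m L z i)) +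
      ∑ i, S2G tG L i z * (u - 1000 * s2n L z i) +
      1000 * ∑ i, (S2S tS L i z - off) * (t i - (1 - s2m L z i)) ≤
      10000 * N + N * (Ki * BBi L z + Ko * BBo L z) := by
  have n := lz_notri hT z
  have hz : ∀ i j, lz L z i j = lz L z j i := fun i j => hs _ _
  have h := s2z_spec hc (lz L z 0 1) (lz L z 0 2) (lz L z 1 2) (lz L z 0 3) (lz L z 1 3) (lz L z 2 3) (lz L z 0 4) (lz L z 1 4) (lz L z 2 4) (lz L z 3 4) (lz L z 0 5) (lz L z 1 5) (lz L z 2 5) (lz L z 3 5) (lz L z 4 5)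
    (and3_false (n 0 1 2))
    (and3_false (n 0 1 3))
    (and3_false (n 0 2 3))
    (and3_false (n 1 2 3))
    (and3_false (n 0 1 4))
    (and3_false (n 0 2 4))
    (and3_false (n 1 2 4))
    (and3_false (n 0 3 4))
    (and3_false (n 1 3 4))
    (and3_false (n 2 3 4))
    (and3_false (n 0 1 5))
    (and3_false (n 0 2 5))
    (and3_false (n 1 2 5))
    (and3_false (n 0 3 5))
    (and3_false (n 1 3 5))
    (and3_false (n 2 3 5))
    (and3_false (n 0 4 5))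
    (and3_false (n 1 4 5))
    (and3_false (n 2 4 5))
    (and3_false (n 3 4 5))
  unfold s2lf at h
  simp only [frc_eq] at h
  rw [Fin.sum_univ_five] at hH
  have h := s2in_real h (h0 0) (h0 1) (h0 2) (h0 3) (h0 4) (k0 0) (k0 1) (k0 2) (k0 3) (k0 4) hH
  rw [s2x_eq hs, sd8_eq, s2bi_eq, s2bo_eq, s2nb z 1 2, s2nb z 2 4, s2nb z 4 5, s2nb z 3 5, s2nb z 1 3, s2bit z 0 1, s2bit z 0 2, s2bit z 0 4, s2bit z 0 5, s2bit z 0 3] at h
  have hl : ∀ x y, lk L x y = lk L y x := fun x y => by unfold lk; rw [hs x y]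
  have m0 : s2m L z 0 = lk L (z 1) (z 2) := rfl
  have m1 : s2m L z 1 = lk L (z 2) (z 4) := rfl
  have m2 : s2m L z 2 = lk L (z 4) (z 5) := rfl
  have m3 : s2m L z 3 = lk L (z 3) (z 5) := hl _ _
  have m4 : s2m L z 4 = lk L (z 1) (z 3) := hl _ _
  have n0 : s2n L z 0 = lk L (z 0) (z 1) := rfl
  have n1 : s2n L z 1 = lk L (z 0) (z 2) := rfl
  have n2 : s2n L z 2 = lk L (z 0) (z 4) := rfl
  have n3 : s2n L z 3 = lk L (z 0) (z 5) := rfl
  have n4 : s2n L z 4 = lk L (z 0) (z 3) := rfl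
  rw [Fin.sum_univ_five, Fin.sum_univ_five, Fin.sum_univ_five, m0, m1, m2, m3, m4, n0, n1, n2, n3, n4]
  unfold S2G S2S
  rw [s2gw0 hz, s2gw1 hz, s2gw2 hz, s2gw3 hz, s2gw4 hz, s2sw0 hz, s2sw1 hz, s2sw2 hz, s2sw3 hz, s2sw4 hz]
  linarith

end S2C

end K4m
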