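import Mathlib
import Pool.Agent.Lib.MP_392c14_co.S2C

/-!
# Local analysis, second stage, part D: the inequality for the class `0`
-/

set_option autoImplicit false

namespace K4m

open Finset Function

section S2D

variable {V : Type} [Fintype V]

theorem E6_sum5 (μ : Fin 6 → V → ℝ) (f : Fin 5 → (Fin 6 → V) → ℝ) :
    E6 μ (fun z => ∑ i, f i z) = ∑ i, E6 μ (f i) := E6_sum univ μ f

/-- nonnegativity on the support -/
theorem E6_nonneg_supp {μ : Fin 6 → V → ℝ} (hμ : ∀ a, IsW (μ a)) {h : (Fin 6 → V) → ℝ}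
    (hh : ∀ z, (∀ a, 0 < μ a (z a)) → 0 ≤ h z) : 0 ≤ E6 μ h := by
  refine sum_nonneg fun z _ => ?_
  by_cases hz : ∀ a, 0 < μ a (z a)
  · exact mul_nonneg (PW_nonneg hμ z) (hh z hz)
  · rw [not_forall] at hz
    obtain ⟨a, ha⟩ := hz
    have h0 : μ a (z a) = 0 := le_antisymm (not_lt.1 ha) ((hμ a).nonneg _)
    have : PW μ z = 0 := prod_eq_zero (mem_univ a) h0
    rw [this, zero_mul]

theorem s2g_zero : ∀ i : Fin 5, s2g i 0 = 0 := by decide

theorem s2g_ne : ∀ i : Fin 5, s2g i 1 ≠ 0 := by decide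

/-- the multipliers of the degrees into the class `0` -/
theorem s2G_nonneg {μ : Fin 6 → V → ℝ} (hμ : ∀ a, IsW (μ a)) {L : V → V → Bool}
    (hs : ∀ x y, L x y = L y x) (tG u : ℕ)
    (i : Fin 5) (hB : ∀ v, 0 < μ (s2g i 1) v → dg (μ 0) L v ≤ (u : ℝ) / 1000) :
    0 ≤ E6 μ (fun z => S2G tG L i z * (u - 1000 * s2n L z i)) := by
  rw [← E6_avg hμ 0]
  refine E6_nonneg_supp hμ fun z hz => ?_
  have hf : Frame (s2g i) 0 := ⟨s2g_zero i, s2g_inj i⟩
  have e1 : ∀ y, S2G tG L i (update z 0 y) = S2G tG L i z := by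
    intro y
    unfold S2G
    rw [cW_update hf L z y]
  have e2 : ∀ y, s2n L (update z 0 y) i = lk L (z (s2g i 1)) y := by
    intro y
    unfold s2n
    rw [update_self, update_of_ne (s2g_ne i)]
    unfold lk
    rw [hs]
  have e3 : ∑ y, μ 0 y * (S2G tG L i (update z 0 y) * (u - 1000 * s2n L (update z 0 y) i)) =
      S2G tG L i z * ((u : ℝ) - 1000 * dg (μ 0) L (z (s2g i 1))) := by
    have h1 : ∀ y, μ 0 y * (S2G tG L i (update z 0 y) * (u - 1000 * s2n L (update z 0 y) i)) =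
        S2G tG L i z * (μ 0 y * u) - S2G tG L i z * (1000 * (μ 0 y * lk L (z (s2g i 1)) y)) := by
      intro y
      rw [e1, e2]
      ring
    rw [sum_congr rfl fun y _ => h1 y, sum_sub_distrib, ← mul_sum, ← mul_sum, ← mul_sum, ← sum_mul,
      (hμ 0).sum_eq]
    unfold dg
    ring
  rw [e3]
  refine mul_nonneg (Nat.cast_nonneg _) ?_
  have h2 := hB _ (hz (s2g i 1))
  rw [le_div_iff₀ (by norm_num)] at h2
  linarith

/-- density between the classes of a pair of the pentagon -/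
noncomputable def s2d (μ : Fin 6 → V → ℝ) (L : V → V → Bool) (i : Fin 5) : ℝ :=
  ∑ x, ∑ y, μ (s2s i 0) x * μ (s2s i 1) y * lk L x y

theorem s2s_ne : ∀ i : Fin 5, s2s i 0 ≠ s2s i 1 := by decide

theorem E6_s2m {μ : Fin 6 → V → ℝ} (hμ : ∀ a, IsW (μ a)) (L : V → V → Bool) (i : Fin 5) :
    E6 μ (fun z => s2m L z i) = s2d μ L i := by
  have h := E6_indep2 hμ (s2s i 0) (s2s i 1) (s2s_ne i) (fun x y => lk L x y) (fun _ => (1 : ℝ))
    (fun _ _ => rfl) (fun _ _ => rfl)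
  rw [E6_const hμ, mul_one] at h
  unfold s2d
  rw [← h]
  exact E6_congr μ fun z => (mul_one _).symm

theorem sum2_one {m m' : V → ℝ} (hm : IsW m) (hm' : IsW m') (r : ℝ) :
    ∑ x, ∑ y, m x * m' y * r = r := by
  have h : ∀ x, ∑ y, m x * m' y * r = m x * r := by
    intro x
    have h1 : ∀ y, m x * m' y * r = (m x * r) * m' y := fun y => by ring
    rw [sum_congr rfl fun y _ => h1 y, ← mul_sum, hm'.sum_eq, mul_one]
  rw [sum_congr rfl fun x _ => h x, ← sum_mul, hm.sum_eq, one_mul]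

/-- the multipliers of the pairs of the pentagon have expectation zero -/
theorem s2S_zero {μ : Fin 6 → V → ℝ} (hμ : ∀ a, IsW (μ a)) (L : V → V → Bool) (tS off : ℕ)
    (i : Fin 5) :
    E6 μ (fun z => (S2S tS L i z - off) * ((1 - s2d μ L i) - (1 - s2m L z i))) = 0 := by
  have hu : ∀ (j : Fin 6), j = 0 ∨ j = 1 → ∀ (z : Fin 6 → V) (y : V),
      S2S tS L i (update z (s2s i j) y) = S2S tS L i z := by
    intro j hj z y
    unfold S2S
    rw [w6_update (s2s_inj i) L z y j hj]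
  have h := E6_indep2 hμ (s2s i 0) (s2s i 1) (s2s_ne i)
    (fun x y => (1 - s2d μ L i) - (1 - lk L x y)) (fun z => S2S tS L i z - off)
    (fun z y => by rw [hu 0 (Or.inl rfl) z y]) (fun z y => by rw [hu 1 (Or.inr rfl) z y])
  have e1 : ∑ x, ∑ y, μ (s2s i 0) x * μ (s2s i 1) y * ((1 - s2d μ L i) - (1 - lk L x y)) = 0 := by
    have h1 : ∀ x y, μ (s2s i 0) x * μ (s2s i 1) y * ((1 - s2d μ L i) - (1 - lk L x y)) =
        μ (s2s i 0) x * μ (s2s i 1) y * lk L x y -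
          μ (s2s i 0) x * μ (s2s i 1) y * s2d μ L i := fun x y => by ring
    rw [sum_congr rfl fun x _ => sum_congr rfl fun y _ => h1 x y]
    simp only [sum_sub_distrib]
    rw [sum2_one (hμ _) (hμ _)]
    unfold s2d
    ring
  rw [e1, zero_mul] at h
  rw [← h]
  exact E6_congr μ fun z => by unfold s2m; ring

theorem s2d_le_one {μ : Fin 6 → V → ℝ} (hμ : ∀ a, IsW (μ a)) (L : V → V → Bool) (i : Fin 5) :
    s2d μ L i ≤ 1 := by
  rw [← sum2_one (hμ (s2s i 0)) (hμ (s2s i 1)) 1]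
  unfold s2d
  refine sum_le_sum fun x _ => sum_le_sum fun y _ => ?_
  exact mul_le_mul_of_nonneg_left (lk_le_one L x y)
    (mul_nonneg ((hμ _).nonneg x) ((hμ _).nonneg y))

/-- **the inequality of the second stage for the class `0`** -/
theorem s2zero {tX tG tS N cb Ki Ko u H lam off p q : ℕ} (hN : 0 < N) (hpq : p ≤ q) (hq : 0 < q)
    (h7 : s2chk tX N p q = true) (hz : s2z tX tG tS N cb Ki Ko u H lam off = true)
    {μ : Fin 6 → V → ℝ} (hμ : ∀ a, IsW (μ a)) {L : V → V → Bool} (hs : ∀ x y, L x y = L y x)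
    (hT : ∀ x y t, ¬ (L x y = true ∧ L x t = true ∧ L y t = true)) {um : ℝ}
    (hu : um = 1 - (p : ℝ) / q) (hu2 : 1 / 2 ≤ um)
    (hA : ∀ i : Fin 5, ∀ v, 0 < μ (s2f i 0) v → dg (μ (s2f i 0)) L v ≤ um)
    (hB : ∀ i : Fin 5, ∀ v, 0 < μ (s2g i 1) v → dg (μ 0) L v ≤ (u : ℝ) / 1000)
    (hl : ∀ i, 1000 * (1 - s2d μ L i) ≤ lam) (hH : 1000 * ∑ i, (1 - s2d μ L i) ≤ H) :
    (cb : ℝ) / N * (2 * ∑ i, (1 - s2d μ L i)) + ∑ i, qd (μ (s2f i 0)) L ≤
      10 - 2 * E6 μ (DD L) + (Ki : ℝ) / 1000 * E6 μ (BBi L) + (Ko : ℝ) / 1000 * E6 μ (BBo L) := by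
  have hN' : (0 : ℝ) < N := by exact_mod_cast hN
  have hpt := fun z => s2point hs z hT hz (t := fun i => 1 - s2d μ L i)
    (fun i => sub_nonneg.2 (s2d_le_one hμ L i)) hl hH
  have hE := E6_mono hμ hpt
  have hX : ∀ i, (N : ℝ) * qd (μ (s2f i 0)) L ≤ E6 μ (zX tX (s2f i) L) := fun i =>
    s2own hN hpq hq h7 (⟨rfl, s2f_inj i⟩ : Frame (s2f i) (s2f i 0)) hμ hs hT hu hu2 (hA i)
  have e1 : E6 μ (fun z => 2000 * ((N : ℝ) * DD L z) + 1000 * S2X tX L z +
      2000 * (cb * ∑ i, (1 - s2m L z i)) + ∑ i, S2G tG L i z * (u - 1000 * s2n L z i) +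
      1000 * ∑ i, (S2S tS L i z - off) * ((1 - s2d μ L i) - (1 - s2m L z i))) =
      2000 * (N * E6 μ (DD L)) + 1000 * ∑ i, E6 μ (zX tX (s2f i) L) +
      2000 * (cb * ∑ i, (1 - s2d μ L i)) +
      ∑ i, E6 μ (fun z => S2G tG L i z * (u - 1000 * s2n L z i)) := by
    rw [E6_add μ (fun z => 2000 * ((N : ℝ) * DD L z) + 1000 * S2X tX L z +
        2000 * (cb * ∑ i, (1 - s2m L z i)) + ∑ i, S2G tG L i z * (u - 1000 * s2n L z i))
        (fun z => 1000 * ∑ i, (S2S tS L i z - off) * ((1 - s2d μ L i) - (1 - s2m L z i))),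
      E6_add μ (fun z => 2000 * ((N : ℝ) * DD L z) + 1000 * S2X tX L z +
        2000 * (cb * ∑ i, (1 - s2m L z i))) (fun z => ∑ i, S2G tG L i z * (u - 1000 * s2n L z i)),
      E6_add μ (fun z => 2000 * ((N : ℝ) * DD L z) + 1000 * S2X tX L z)
        (fun z => 2000 * (cb * ∑ i, (1 - s2m L z i))),
      E6_add μ (fun z => 2000 * ((N : ℝ) * DD L z)) (fun z => 1000 * S2X tX L z),
      E6_smul μ 2000 (fun z => (N : ℝ) * DD L z), E6_smul μ N (DD L),
      E6_smul μ 1000 (S2X tX L), E6_smul μ 2000 (fun z => cb * ∑ i, (1 - s2m L z i)),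
      E6_smul μ cb (fun z => ∑ i, (1 - s2m L z i)),
      E6_smul μ 1000 (fun z => ∑ i, (S2S tS L i z - off) * ((1 - s2d μ L i) - (1 - s2m L z i))),
      E6_sum5 μ (fun i z => 1 - s2m L z i),
      E6_sum5 μ (fun i z => S2G tG L i z * (u - 1000 * s2n L z i)),
      E6_sum5 μ (fun i z => (S2S tS L i z - off) * ((1 - s2d μ L i) - (1 - s2m L z i)))]
    have a1 : ∀ i, E6 μ (fun z => 1 - s2m L z i) = 1 - s2d μ L i := by
      intro i
      rw [E6_sub μ (fun _ => (1 : ℝ)) (fun z => s2m L z i), E6_const hμ, E6_s2m hμ]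
    have a2 : E6 μ (S2X tX L) = ∑ i, E6 μ (zX tX (s2f i) L) := by
      rw [Fin.sum_univ_five]
      unfold S2X
      simp only [E6_add]
    have a3 : ∑ i, E6 μ (fun z => (S2S tS L i z - off) * ((1 - s2d μ L i) - (1 - s2m L z i))) =
        0 := sum_eq_zero fun i _ => s2S_zero hμ L tS off i
    rw [sum_congr rfl fun i _ => a1 i, a2, a3]
    ring
  have e2 : E6 μ (fun z => 10000 * (N : ℝ) + N * (Ki * BBi L z + Ko * BBo L z)) =
      10000 * N + N * (Ki * E6 μ (BBi L) + Ko * E6 μ (BBo L)) := by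
    rw [E6_add μ (fun _ => 10000 * (N : ℝ)) (fun z => (N : ℝ) * (Ki * BBi L z + Ko * BBo L z)),
      E6_const hμ, E6_smul μ N (fun z => Ki * BBi L z + Ko * BBo L z),
      E6_add μ (fun z => Ki * BBi L z) (fun z => Ko * BBo L z), E6_smul μ Ki (BBi L),
      E6_smul μ Ko (BBo L)]
  rw [e1, e2] at hE
  have h1 : (N : ℝ) * ∑ i, qd (μ (s2f i 0)) L ≤ ∑ i, E6 μ (zX tX (s2f i) L) := by
    rw [mul_sum]
    exact sum_le_sum fun i _ => hX i
  have h2 : 0 ≤ ∑ i, E6 μ (fun z => S2G tG L i z * (u - 1000 * s2n L z i)) :=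
    sum_nonneg fun i _ => s2G_nonneg hμ hs tG u i (hB i)
  have h3 : (N : ℝ) * ((cb : ℝ) / N * (2 * ∑ i, (1 - s2d μ L i)) + ∑ i, qd (μ (s2f i 0)) L) ≤
      N * (10 - 2 * E6 μ (DD L) + (Ki : ℝ) / 1000 * E6 μ (BBi L) +
        (Ko : ℝ) / 1000 * E6 μ (BBo L)) := by
    have h4 : (N : ℝ) * ((cb : ℝ) / N * (2 * ∑ i, (1 - s2d μ L i)) + ∑ i, qd (μ (s2f i 0)) L) =
        cb * (2 * ∑ i, (1 - s2d μ L i)) + N * ∑ i, qd (μ (s2f i 0)) L := by
      field_simp
    rw [h4]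
    nlinarith
  exact le_of_mul_le_mul_left h3 hN'

end S2D

end K4m
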