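import Mathlib
import Pool.Agent.Lib.MP_392c14_co.S2D
import Pool.Agent.Lib.MP_392c14_co.S2Defs

/-!
# Local analysis, second stage, part E: the inequality for every class

The classes are permuted by the automorphism `s2t k` of the block design, which maps `0` to `k`.
-/

set_option autoImplicit false

namespace K4m

open Finset Function

/-- automorphisms of the block design -/
def s2tt : Fin 6 → Fin 6 → Fin 6 :=
  ![![0, 1, 2, 3, 4, 5], ![1, 0, 2, 3, 5, 4], ![2, 0, 1, 4, 5, 3], ![3, 0, 1, 5, 4, 2],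
    ![4, 0, 2, 5, 3, 1], ![5, 0, 3, 4, 2, 1]]

/-- their inverses -/
def s2ti : Fin 6 → Fin 6 → Fin 6 :=
  ![![0, 1, 2, 3, 4, 5], ![1, 0, 2, 3, 5, 4], ![1, 2, 0, 5, 3, 4], ![1, 2, 5, 0, 4, 3],
    ![1, 5, 2, 4, 0, 3], ![1, 5, 4, 2, 3, 0]]

/-- automorphisms of the block design -/
def s2t (k : Fin 6) : Fin 6 ≃ Fin 6 where
  toFun := s2tt k
  invFun := s2ti k
  left_inv := by
    have h : ∀ k a : Fin 6, s2ti k (s2tt k a) = a := by decide +kernel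
    exact h k
  right_inv := by
    have h : ∀ k a : Fin 6, s2tt k (s2ti k a) = a := by decide +kernel
    exact h k

theorem s2t_apply (k a : Fin 6) : s2t k a = s2tt k a := rfl

theorem s2tt_zero : ∀ k : Fin 6, s2tt k 0 = k := by decide +kernel

theorem s2tt_pent : ∀ k a b : Fin 6, pTab k (s2tt k a) (s2tt k b) = pTab 0 a b := by
  decide +kernel

section S2E

variable {V : Type}

/-- expectation of a permuted transversal -/
theorem E6_perm [Fintype V] (μ : Fin 6 → V → ℝ) (e : Fin 6 ≃ Fin 6) (h : (Fin 6 → V) → ℝ) :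
    E6 (fun a => μ (e a)) h = E6 μ (fun z => h (fun a => z (e a))) := by
  unfold E6
  refine Fintype.sum_equiv (Equiv.arrowCongr e (Equiv.refl V)) _ _ fun z => ?_
  have h1 : (fun a => (Equiv.arrowCongr e (Equiv.refl V)) z (e a)) = z := by
    funext a
    simp [Equiv.arrowCongr]
  have h2 : PW (fun a => μ (e a)) z = PW μ ((Equiv.arrowCongr e (Equiv.refl V)) z) := by
    unfold PW
    rw [← Equiv.prod_comp e (fun b => μ b ((Equiv.arrowCongr e (Equiv.refl V)) z b))]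
    exact prod_congr rfl fun a _ => by simp [Equiv.arrowCongr]
  have h3 : (fun z => h (fun a => z (e a))) ((Equiv.arrowCongr e (Equiv.refl V)) z) = h z := by
    show h (fun a => (Equiv.arrowCongr e (Equiv.refl V)) z (e a)) = h z
    rw [h1]
  rw [h2, h3]

variable {L : V → V → Bool} (hs : ∀ x y, L x y = L y x)
include hs

theorem lk_comm' (x y : V) : lk L x y = lk L y x := by
  unfold lk
  rw [hs]

theorem bt_swap12 (x y t : V) : bt L x y t = bt L y x t := by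
  unfold bt
  rw [hs x y]
  congr 1
  rw [eq_iff_iff]
  constructor <;> intro h <;> omega

theorem bt_swap23 (x y t : V) : bt L x y t = bt L x t y := by
  unfold bt
  rw [hs y t]
  congr 1
  rw [eq_iff_iff]
  constructor <;> intro h <;> omega

theorem DD_perm (k : Fin 6) (z : Fin 6 → V) : DD L (fun a => z (s2tt k a)) = DD L z := by
  have hl := lk_comm' hs
  fin_cases k
  · rfl
  · show lk L (z 1) (z 0) + lk L (z 1) (z 2) + lk L (z 1) (z 3) + lk L (z 1) (z 5) +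
      lk L (z 1) (z 4) + lk L (z 0) (z 2) + lk L (z 0) (z 3) + lk L (z 0) (z 5) +
      lk L (z 0) (z 4) + lk L (z 2) (z 3) + lk L (z 2) (z 5) + lk L (z 2) (z 4) +
      lk L (z 3) (z 5) + lk L (z 3) (z 4) + lk L (z 5) (z 4) = _
    unfold DD
    rw [hl (z 1) (z 0), hl (z 5) (z 4)]
    ring
  · show lk L (z 2) (z 0) + lk L (z 2) (z 1) + lk L (z 2) (z 4) + lk L (z 2) (z 5) +
      lk L (z 2) (z 3) + lk L (z 0) (z 1) + lk L (z 0) (z 4) + lk L (z 0) (z 5) +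
      lk L (z 0) (z 3) + lk L (z 1) (z 4) + lk L (z 1) (z 5) + lk L (z 1) (z 3) +
      lk L (z 4) (z 5) + lk L (z 4) (z 3) + lk L (z 5) (z 3) = _
    unfold DD
    rw [hl (z 2) (z 0), hl (z 2) (z 1), hl (z 4) (z 3), hl (z 5) (z 3)]
    ring
  · show lk L (z 3) (z 0) + lk L (z 3) (z 1) + lk L (z 3) (z 5) + lk L (z 3) (z 4) +
      lk L (z 3) (z 2) + lk L (z 0) (z 1) + lk L (z 0) (z 5) + lk L (z 0) (z 4) +
      lk L (z 0) (z 2) + lk L (z 1) (z 5) + lk L (z 1) (z 4) + lk L (z 1) (z 2) +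
      lk L (z 5) (z 4) + lk L (z 5) (z 2) + lk L (z 4) (z 2) = _
    unfold DD
    rw [hl (z 3) (z 0), hl (z 3) (z 1), hl (z 3) (z 2), hl (z 5) (z 4), hl (z 5) (z 2),
      hl (z 4) (z 2)]
    ring
  · show lk L (z 4) (z 0) + lk L (z 4) (z 2) + lk L (z 4) (z 5) + lk L (z 4) (z 3) +
      lk L (z 4) (z 1) + lk L (z 0) (z 2) + lk L (z 0) (z 5) + lk L (z 0) (z 3) +
      lk L (z 0) (z 1) + lk L (z 2) (z 5) + lk L (z 2) (z 3) + lk L (z 2) (z 1) +
      lk L (z 5) (z 3) + lk L (z 5) (z 1) + lk L (z 3) (z 1) = _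
    unfold DD
    rw [hl (z 4) (z 0), hl (z 4) (z 2), hl (z 4) (z 3), hl (z 4) (z 1), hl (z 2) (z 1),
      hl (z 5) (z 3), hl (z 5) (z 1), hl (z 3) (z 1)]
    ring
  · show lk L (z 5) (z 0) + lk L (z 5) (z 3) + lk L (z 5) (z 4) + lk L (z 5) (z 2) +
      lk L (z 5) (z 1) + lk L (z 0) (z 3) + lk L (z 0) (z 4) + lk L (z 0) (z 2) +
      lk L (z 0) (z 1) + lk L (z 3) (z 4) + lk L (z 3) (z 2) + lk L (z 3) (z 1) +
      lk L (z 4) (z 2) + lk L (z 4) (z 1) + lk L (z 2) (z 1) = _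
    unfold DD
    rw [hl (z 5) (z 0), hl (z 5) (z 3), hl (z 5) (z 4), hl (z 5) (z 2), hl (z 5) (z 1),
      hl (z 3) (z 2), hl (z 3) (z 1), hl (z 4) (z 2), hl (z 4) (z 1), hl (z 2) (z 1)]
    ring

theorem BBin_0 (z : Fin 6 → V) : BBin 0 L z =
    bt L (z 0) (z 1) (z 2) + bt L (z 0) (z 1) (z 3) + bt L (z 0) (z 2) (z 4) + bt L (z 0) (z 3) (z 5) + bt L (z 0) (z 4) (z 5) := by
  have h := bt_swap23 hs
  unfold BBin
  simp only [Fin.sum_univ_six]
  simp (decide := true) only [if_true, if_false]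
  rw [h (z 0) (z 2) (z 1)]
  rw [h (z 0) (z 3) (z 1)]
  rw [h (z 0) (z 4) (z 2)]
  rw [h (z 0) (z 5) (z 3)]
  rw [h (z 0) (z 5) (z 4)]
  ring

theorem BBin_1 (z : Fin 6 → V) : BBin 1 L z =
    bt L (z 1) (z 0) (z 2) + bt L (z 1) (z 0) (z 3) + bt L (z 1) (z 2) (z 5) + bt L (z 1) (z 3) (z 4) + bt L (z 1) (z 4) (z 5) := by
  have h := bt_swap23 hs
  unfold BBin
  simp only [Fin.sum_univ_six]
  simp (decide := true) only [if_true, if_false]
  rw [h (z 1) (z 2) (z 0)]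
  rw [h (z 1) (z 3) (z 0)]
  rw [h (z 1) (z 5) (z 2)]
  rw [h (z 1) (z 4) (z 3)]
  rw [h (z 1) (z 5) (z 4)]
  ring

theorem BBin_2 (z : Fin 6 → V) : BBin 2 L z =
    bt L (z 2) (z 0) (z 1) + bt L (z 2) (z 0) (z 4) + bt L (z 2) (z 1) (z 5) + bt L (z 2) (z 3) (z 4) + bt L (z 2) (z 3) (z 5) := by
  have h := bt_swap23 hs
  unfold BBin
  simp only [Fin.sum_univ_six]
  simp (decide := true) only [if_true, if_false]
  rw [h (z 2) (z 1) (z 0)]
  rw [h (z 2) (z 4) (z 0)]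
  rw [h (z 2) (z 5) (z 1)]
  rw [h (z 2) (z 4) (z 3)]
  rw [h (z 2) (z 5) (z 3)]
  ring

theorem BBin_3 (z : Fin 6 → V) : BBin 3 L z =
    bt L (z 3) (z 0) (z 1) + bt L (z 3) (z 0) (z 5) + bt L (z 3) (z 1) (z 4) + bt L (z 3) (z 2) (z 4) + bt L (z 3) (z 2) (z 5) := by
  have h := bt_swap23 hs
  unfold BBin
  simp only [Fin.sum_univ_six]
  simp (decide := true) only [if_true, if_false]
  rw [h (z 3) (z 1) (z 0)]
  rw [h (z 3) (z 5) (z 0)]
  rw [h (z 3) (z 4) (z 1)]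
  rw [h (z 3) (z 4) (z 2)]
  rw [h (z 3) (z 5) (z 2)]
  ring

theorem BBin_4 (z : Fin 6 → V) : BBin 4 L z =
    bt L (z 4) (z 0) (z 2) + bt L (z 4) (z 0) (z 5) + bt L (z 4) (z 1) (z 3) + bt L (z 4) (z 1) (z 5) + bt L (z 4) (z 2) (z 3) := by
  have h := bt_swap23 hs
  unfold BBin
  simp only [Fin.sum_univ_six]
  simp (decide := true) only [if_true, if_false]
  rw [h (z 4) (z 2) (z 0)]
  rw [h (z 4) (z 5) (z 0)]
  rw [h (z 4) (z 3) (z 1)]
  rw [h (z 4) (z 5) (z 1)]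
  rw [h (z 4) (z 3) (z 2)]
  ring

theorem BBin_5 (z : Fin 6 → V) : BBin 5 L z =
    bt L (z 5) (z 0) (z 3) + bt L (z 5) (z 0) (z 4) + bt L (z 5) (z 1) (z 2) + bt L (z 5) (z 1) (z 4) + bt L (z 5) (z 2) (z 3) := by
  have h := bt_swap23 hs
  unfold BBin
  simp only [Fin.sum_univ_six]
  simp (decide := true) only [if_true, if_false]
  rw [h (z 5) (z 3) (z 0)]
  rw [h (z 5) (z 4) (z 0)]
  rw [h (z 5) (z 2) (z 1)]
  rw [h (z 5) (z 4) (z 1)]
  rw [h (z 5) (z 3) (z 2)]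
  ring

theorem BB_eq_in (z : Fin 6 → V) : BB L z = 1 / 3 * ∑ k, BBin k L z := by
  have h := bt_swap23 hs
  have h' := bt_swap12 hs
  rw [Fin.sum_univ_six, BBin_0 hs, BBin_1 hs, BBin_2 hs, BBin_3 hs, BBin_4 hs, BBin_5 hs]
  unfold BB
  rw [h' (z 1) (z 0) (z 2)]
  rw [h' (z 1) (z 0) (z 3)]
  rw [h' (z 2) (z 0) (z 1), h (z 0) (z 2) (z 1)]
  rw [h' (z 2) (z 0) (z 4)]
  rw [h' (z 2) (z 1) (z 5)]
  rw [h' (z 3) (z 0) (z 1), h (z 0) (z 3) (z 1)]
  rw [h' (z 3) (z 0) (z 5)]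
  rw [h' (z 3) (z 1) (z 4)]
  rw [h' (z 3) (z 2) (z 4)]
  rw [h' (z 3) (z 2) (z 5)]
  rw [h' (z 4) (z 0) (z 2), h (z 0) (z 4) (z 2)]
  rw [h' (z 4) (z 0) (z 5)]
  rw [h' (z 4) (z 1) (z 3), h (z 1) (z 4) (z 3)]
  rw [h' (z 4) (z 1) (z 5)]
  rw [h' (z 4) (z 2) (z 3), h (z 2) (z 4) (z 3)]
  rw [h' (z 5) (z 0) (z 3), h (z 0) (z 5) (z 3)]
  rw [h' (z 5) (z 0) (z 4), h (z 0) (z 5) (z 4)]
  rw [h' (z 5) (z 1) (z 2), h (z 1) (z 5) (z 2)]
  rw [h' (z 5) (z 1) (z 4), h (z 1) (z 5) (z 4)]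
  rw [h' (z 5) (z 2) (z 3), h (z 2) (z 5) (z 3)]
  ring

theorem BBi_eq (z : Fin 6 → V) : BBi L z = BBin 0 L z := by
  rw [BBin_0 hs]
  rfl

omit hs in
theorem BBo_eq (z : Fin 6 → V) : BBi L z + BBo L z = BB L z := by
  unfold BBi BBo BB
  ring

omit hs in
theorem s2tt_auto : ∀ k j a b : Fin 6,
    pTab (s2tt k j) (s2tt k a) (s2tt k b) = pTab j a b := by
  decide +kernel

omit hs in
theorem BBin_perm (k j : Fin 6) (z : Fin 6 → V) :
    BBin j L (fun a => z (s2tt k a)) = BBin (s2tt k j) L z := by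
  unfold BBin
  congr 1
  symm
  rw [← Equiv.sum_comp (s2t k)]
  refine sum_congr rfl fun a _ => ?_
  rw [← Equiv.sum_comp (s2t k)]
  refine sum_congr rfl fun b _ => ?_
  rw [s2t_apply, s2t_apply, s2tt_auto]

theorem BB_perm (k : Fin 6) (z : Fin 6 → V) : BB L (fun a => z (s2tt k a)) = BB L z := by
  rw [BB_eq_in hs, BB_eq_in hs]
  congr 1
  rw [← Equiv.sum_comp (s2t k) (fun j => BBin j L z)]
  exact sum_congr rfl fun j _ => by rw [BBin_perm, s2t_apply]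

theorem BBi_perm (k : Fin 6) (z : Fin 6 → V) :
    BBi L (fun a => z (s2tt k a)) = BBin k L z := by
  rw [BBi_eq hs, BBin_perm, s2tt_zero]

theorem BBo_perm (k : Fin 6) (z : Fin 6 → V) :
    BBo L (fun a => z (s2tt k a)) = BBout k L z := by
  have h1 := BBo_eq (L := L) (fun a => z (s2tt k a))
  rw [BB_perm hs, BBi_perm hs] at h1
  unfold BBout
  linarith

omit hs in
theorem hk_perm [Fintype V] (μ : Fin 6 → V → ℝ) (k : Fin 6) :
    hk (fun a => μ (s2tt k a)) L 0 = hk μ L k := by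
  unfold hk
  congr 1
  symm
  rw [← Equiv.sum_comp (s2t k)]
  refine sum_congr rfl fun a _ => ?_
  rw [← Equiv.sum_comp (s2t k)]
  refine sum_congr rfl fun b _ => ?_
  rw [s2t_apply, s2t_apply]
  have h := s2tt_auto k 0 a b
  rw [s2tt_zero] at h
  rw [h]

theorem sum2_comm [Fintype V] (m m' : V → ℝ) :
    ∑ x, ∑ y, m x * m' y * lk L x y = ∑ x, ∑ y, m' x * m y * lk L x y := by
  rw [sum_comm]
  refine sum_congr rfl fun x _ => sum_congr rfl fun y _ => ?_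
  rw [lk_comm' hs y x]
  ring

theorem hk_zero [Fintype V] (μ : Fin 6 → V → ℝ) : hk μ L 0 = ∑ i, (1 - s2d μ L i) := by
  have h := sum2_comm hs
  have e0 : s2d μ L 0 = ∑ x, ∑ y, μ 1 x * μ 2 y * lk L x y := rfl
  have e1 : s2d μ L 1 = ∑ x, ∑ y, μ 2 x * μ 4 y * lk L x y := rfl
  have e2 : s2d μ L 2 = ∑ x, ∑ y, μ 4 x * μ 5 y * lk L x y := rfl
  have e3 : s2d μ L 3 = ∑ x, ∑ y, μ 5 x * μ 3 y * lk L x y := rfl
  have e4 : s2d μ L 4 = ∑ x, ∑ y, μ 3 x * μ 1 y * lk L x y := rfl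
  rw [Fin.sum_univ_five, e0, e1, e2, e3, e4, h (μ 5) (μ 3), h (μ 3) (μ 1)]
  unfold hk
  simp only [Fin.sum_univ_six]
  simp (decide := true) only [if_true, if_false]
  rw [h (μ 2) (μ 1), h (μ 4) (μ 2), h (μ 5) (μ 4), h (μ 5) (μ 3), h (μ 3) (μ 1)]
  ring

theorem s2t_of_ne (k a : Fin 6) (h : a ≠ 0) : s2tt k a ≠ k := by
  intro h1
  apply h
  apply (s2t k).injective
  show s2tt k a = s2tt k 0
  rw [h1, s2tt_zero]

/-- **The inequality of the second stage for every class.** -/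
theorem s2gen [Fintype V] {tX tG tS N cb Ki Ko u H lam off p q : ℕ} (hN : 0 < N) (hpq : p ≤ q)
    (hq : 0 < q) (h7 : s2chk tX N p q = true) (hz : s2z tX tG tS N cb Ki Ko u H lam off = true)
    {μ : Fin 6 → V → ℝ} (hμ : ∀ a, IsW (μ a))
    (hT : ∀ x y t, ¬ (L x y = true ∧ L x t = true ∧ L y t = true)) {umA umB : ℝ}
    (hu : umA = 1 - (p : ℝ) / q) (hu2 : 1 / 2 ≤ umA) (huB : umB = (u : ℝ) / 1000) (k : Fin 6)
    (hA : ∀ a, a ≠ k → ∀ v, 0 < μ a v → dg (μ a) L v ≤ umA)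
    (hB : ∀ b, b ≠ k → ∀ v, 0 < μ b v → dg (μ k) L v ≤ umB)
    (hl : ∀ a b, pTab k a b = true → 1000 * (1 - ∑ x, ∑ y, μ a x * μ b y * lk L x y) ≤ lam)
    (hH : 1000 * hk μ L k ≤ H) :
    (cb : ℝ) / N * (2 * hk μ L k) + ∑ a ∈ univ.erase k, qd (μ a) L ≤
      10 - 2 * E6 μ (DD L) + (Ki : ℝ) / 1000 * E6 μ (BBin k L) +
        (Ko : ℝ) / 1000 * E6 μ (BBout k L) := by
  have hk0 := hk_perm (L := L) μ k
  rw [hk_zero hs] at hk0
  have hf : ∀ i : Fin 5, s2f i 0 ≠ 0 := by decide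
  have hp : ∀ i : Fin 5, pTab 0 (s2s i 0) (s2s i 1) = true := by decide +kernel
  have h := s2zero (μ := fun a => μ (s2tt k a)) hN hpq hq h7 hz (fun a => hμ _) hs hT hu hu2
    (fun i v hv => hA _ (s2t_of_ne hs k _ (hf i)) v hv)
    (fun i v hv => by
      have h1 := hB _ (s2t_of_ne hs k _ (s2g_ne i)) v hv
      rw [← huB]
      show dg (μ (s2tt k 0)) L v ≤ umB
      rw [s2tt_zero]
      exact h1)
    (fun i => hl _ _ (by rw [← hp i, ← s2tt_pent k]))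
    (by rw [hk0]; exact hH)
  rw [hk0] at h
  have e1 : ∀ g : (Fin 6 → V) → ℝ, E6 (fun a => μ (s2tt k a)) g =
      E6 μ (fun z => g (fun a => z (s2tt k a))) := fun g => E6_perm μ (s2t k) g
  rw [e1, e1, e1] at h
  have e2 : E6 μ (fun z => DD L (fun a => z (s2tt k a))) = E6 μ (DD L) :=
    E6_congr μ fun z => DD_perm hs k z
  have e3 : E6 μ (fun z => BBi L (fun a => z (s2tt k a))) = E6 μ (BBin k L) :=
    E6_congr μ fun z => BBi_perm hs k z
  have e4 : E6 μ (fun z => BBo L (fun a => z (s2tt k a))) = E6 μ (BBout k L) :=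
    E6_congr μ fun z => BBo_perm hs k z
  rw [e2, e3, e4] at h
  have e5 : ∑ i : Fin 5, qd (μ (s2tt k (s2f i 0))) L = ∑ a ∈ univ.erase k, qd (μ a) L := by
    have h1 : ∑ a ∈ univ.erase k, qd (μ a) L = ∑ a, qd (μ a) L - qd (μ k) L := by
      rw [← add_sum_erase univ (fun a => qd (μ a) L) (mem_univ k)]
      ring
    have h2 : ∑ a, qd (μ a) L = ∑ a, qd (μ (s2tt k a)) L :=
      (Equiv.sum_comp (s2t k) (fun a => qd (μ a) L)).symm
    rw [h1, h2, Fin.sum_univ_six, Fin.sum_univ_five]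
    show qd (μ (s2tt k 1)) L + qd (μ (s2tt k 2)) L + qd (μ (s2tt k 4)) L +
      qd (μ (s2tt k 5)) L + qd (μ (s2tt k 3)) L = _
    rw [s2tt_zero]
    ring
  rw [e5] at h
  exact h

end S2E

end K4m
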