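import Pool.Agent.Lib.MP_392c14_co.S2C
import Pool.Agent.Lib.MP_392c14_co.S2T3

/-!
# The checks of the tables of the second stage, number 3
-/

set_option autoImplicit false

namespace K4m

theorem s2seven3 : s2chk s2X3 30000 3 25 = true := by decide +kernel

theorem s2all3 : s2z s2X3 s2G3 s2S3 30000 3168 1500 3500 845 420 420 0 = true := by decide +kernel

end K4m
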