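import Mathlib
import Pool.Agent.Lib.MP_392c14_co.S2E
import Pool.Agent.Lib.MP_392c14_co.S2K3

/-!
# The inequality of the second stage: small missing density
-/

set_option autoImplicit false

namespace K4m

open Finset Function

section S2M3

variable {V : Type} [Fintype V]

/-- one missing density is at most the sum -/
theorem miss_le_hk {μ : Fin 6 → V → ℝ} (hμ : ∀ a, IsW (μ a)) {L : V → V → Bool}
    (hs : ∀ x y, L x y = L y x) (k a b : Fin 6) (h : pTab k a b = true) :
    1 - ∑ x, ∑ y, μ a x * μ b y * lk L x y ≤ hk μ L k := by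
  have h0 : ∀ a b, 0 ≤ 1 - ∑ x, ∑ y, μ a x * μ b y * lk L x y := by
    intro a b
    have h1 : ∑ x, ∑ y, μ a x * μ b y * lk L x y ≤ ∑ x, ∑ y, μ a x * μ b y * 1 :=
      sum_le_sum fun x _ => sum_le_sum fun y _ => mul_le_mul_of_nonneg_left (lk_le_one L x y)
        (mul_nonneg ((hμ _).nonneg x) ((hμ _).nonneg y))
    rw [sum2_one (hμ a) (hμ b) 1] at h1
    linarith
  set F : Fin 6 → Fin 6 → ℝ := fun a b =>
    if pTab k a b = true then 1 - ∑ x, ∑ y, μ a x * μ b y * lk L x y else 0 with hF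
  have hF0 : ∀ a b, 0 ≤ F a b := by
    intro a b
    simp only [hF]
    split_ifs
    · exact h0 a b
    · exact le_rfl
  have hFs : F b a = F a b := by
    simp only [hF]
    rw [pTab_symm k b a, sum2_comm hs (μ b) (μ a)]
  have hne : a ≠ b := by
    intro hab
    subst hab
    rw [pTab_diag] at h
    exact absurd h (by decide)
  have e1 : F a b + F b a ≤ ∑ i, ∑ j, F i j := by
    have h1 : F a b ≤ ∑ j, F a j := single_le_sum (fun j _ => hF0 a j) (mem_univ b)
    have h2 : F b a ≤ ∑ j, F b j := single_le_sum (fun j _ => hF0 b j) (mem_univ a)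
    have h3 : ∑ j, F a j + ∑ j, F b j ≤ ∑ i, ∑ j, F i j := by
      rw [← sum_pair (f := fun i => ∑ j, F i j) hne]
      exact sum_le_sum_of_subset_of_nonneg (subset_univ _)
        fun i _ _ => sum_nonneg fun j _ => hF0 i j
    linarith
  have e2 : F a b = 1 - ∑ x, ∑ y, μ a x * μ b y * lk L x y := by
    simp only [hF]
    rw [if_pos h]
  have e3 : hk μ L k = 1 / 2 * ∑ i, ∑ j, F i j := rfl
  rw [e3, ← e2]
  linarith

/-- **second stage, small missing density** -/
theorem stage2_T3 {μ : Fin 6 → V → ℝ} (hμ : ∀ a, IsW (μ a)) {L : V → V → Bool}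
    (hs : ∀ x y, L x y = L y x)
    (hT : ∀ x y t, ¬ (L x y = true ∧ L x t = true ∧ L y t = true)) (k : Fin 6)
    (hA : ∀ a, a ≠ k → ∀ v, 0 < μ a v → dg (μ a) L v ≤ 22 / 25)
    (hB : ∀ b, b ≠ k → ∀ v, 0 < μ b v → dg (μ k) L v ≤ 169 / 200)
    (hH : hk μ L k ≤ 21 / 50) :
    66 / 625 * (2 * hk μ L k) + ∑ a ∈ univ.erase k, qd (μ a) L ≤
      10 - 2 * E6 μ (DD L) + 3 / 2 * E6 μ (BBin k L) + 7 / 2 * E6 μ (BBout k L) := by
  have h := s2gen hs (by norm_num) (by norm_num) (by norm_num) s2seven3 s2all3 hμ hT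
    (umA := 22 / 25) (umB := 169 / 200) (by norm_num) (by norm_num) (by norm_num) k hA hB
    (fun a b hab => by
      have := miss_le_hk hμ hs k a b hab
      norm_num
      linarith)
    (by norm_num; linarith)
  norm_num at h ⊢
  linarith

end S2M3

end K4m
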