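import Pool.Agent.Lib.MP_392c14_co.S2C
import Pool.Agent.Lib.MP_392c14_co.S2T14

/-!
# The checks of the tables of the second stage, number 14
-/

set_option autoImplicit false

namespace K4m

theorem s2seven14 : s2chk s2X14 30000 1 10 = true := by decide +kernel

theorem s2all14 : s2z s2X14 s2G14 s2S14 30000 1676 1500 3500 900 955 345 0 = true := by decide +kernel

end K4m
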