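import Pool.Agent.Lib.MP_392c14_co.S2C
import Pool.Agent.Lib.MP_392c14_co.S2T21

/-!
# The checks of the tables of the second stage, number 21
-/

set_option autoImplicit false

namespace K4m

theorem s2seven21 : s2chk s2X21 30000 127 1000 = true := by decide +kernel

theorem s2all21 : s2z s2X21 s2G21 s2S21 30000 2251 1500 3500 873 890 325 0 = true := by decide +kernel

end K4m
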