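import Pool.Agent.Lib.MP_392c14_co.CRep

/-! Certificates, checked by the kernel (part 0) -/

set_option autoImplicit false
set_option maxRecDepth 100000

namespace K4m.C

open Cert

def t0 : Cert :=
  (br (br (br (br (br (br (br (br (br (br (br (br (br (br (br (br (br (br (br (br (br (br (br (br (br (br (br (br (br (br (br (br 
  (br (br (lf 1754760) (sy 560483)) (sy 822626)) (sy 855393)) (sy 859488)) (sy 1084762)) (sy 1117529)) 
  (sy 1121624)) (sy 1150289)) (sy 1154384)) (sy 1158472)) (sy 1346842)) (sy 1379609)) (sy 1383704)) 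
  (sy 1412369)) (sy 1416464)) (sy 1420552)) (sy 1445073)) (sy 1449168)) (sy 1453256)) (sy 1457288)) 
  (sy 1608474)) (sy 1641241)) (sy 1645336)) (sy 1674001)) (sy 1678096)) (sy 1682184)) (sy 1706705)) 
  (sy 1710800)) (sy 1714888)) (sy 1718920)) (sy 1738961)) (sy 1743056)) (sy 1747144)) (sy 1751176))

theorem t0_ok : check RT t0 34 0 = true := by decide +kernel

def t1 : Cert :=
  (br (br (br (br (br (br (br (br (br (br (br (br (br (br (br (br (br (br (br (br (br (br (br (br (br (br (br (br (br (br (br (br 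
  (br (lf 1754760) (sy 1754179)) (sy 1754690)) (sy 1754753)) (br (br (br (lf 1005704) (sy 569772)) (sy 827820))
   (sy 856492))) (sy 1266202)) (sy 1266713)) (sy 1266776)) (sy 1267217)) (sy 1267280)) (sy 1267336)) 
  (sy 1524250)) (sy 1524761)) (sy 1524824)) (sy 1525265)) (sy 1525328)) (sy 1525384)) (sy 1466577)) 
  (sy 1467088)) (sy 1467592)) (sy 1468040)) (sy 1753626)) (sy 1754137)) (sy 1754200)) (sy 1754641)) 
  (sy 1754704)) (br (br (br (br (br (br (br (br (br (br (br (br (br (br (br (br (br (br (br (br (br (br (br (br (br 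
  (lf 1693832) (sy 1653512)) (sy 1682184)) (sy 876897)) (sy 877408)) (sy 1726088)) (sy 1725633)) 
  (sy 1725640)) (sy 1726081)) (sy 1726088)) (sy 878920)) (br (br (br (br (br (br (br (br (br (br (lf 1525384) 
  (sy 284067)) (sy 284578)) (sy 876897)) (sy 877408)) (sy 285082)) (sy 1725633)) (sy 1725640)) (sy 1726081))
   (sy 1726088)) (sy 878920))) (sy 1754305)) (sy 1754312)) (sy 1754753)) (br (br (br (br (br (br (br (br (br (br 
  (br (br (br (br (lf 977032) (sy 993888)) (sy 840098)) (sy 876897)) (sy 877408)) (sy 1525328)) (br (br (br (br 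
  (br (lf 1661128) (sy 541611)) (sy 840098)) (sy 876897)) (sy 877408)) (sy 1057707))) (br (br (br (br (br (br 
  (lf 939400) (sy 573867)) (sy 840098)) (sy 876897)) (sy 877408)) (sy 1089963)) (sy 1118635))) (br (br (br (br 
  (br (sy 1682184) (sy 876897)) (sy 877408)) (sy 1061802)) (sy 1062313)) (br (sy 1725640) (sy 1062313)))) 
  (sy 842128)) (sy 878920)) (sy 1356194)) (br (sy 1525328) (sy 1356194))) (sy 1357216)) (sy 1413538))) 
  (sy 879368)) (sy 1466577)) (sy 1467088)) (sy 1467592)) (sy 1468040)) (br (br (br (br (br (br (br (br (br (br (br 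
  (br (br (br (br (br (br (br (br (br (lf 1620752) (sy 288099)) (sy 288610)) (sy 876897)) (sy 877408)) (sy 289114))
   (sy 1725633)) (sy 1725640)) (sy 1726081)) (sy 1726088)) (sy 878920)) (sy 289562)) (sy 1754305)) 
  (sy 1754312)) (sy 1754753)) (br (br (br (br (br (br (br (br (br (br (br (br (br (br (lf 1620752) (sy 288099)) 
  (sy 288610)) (sy 876897)) (sy 877408)) (sy 289114)) (br (br (br (br (br (lf 1616216) (sy 288099)) (sy 288610))
   (sy 876897)) (sy 877408)) (sy 289114))) (br (br (sy 1753626) (sy 289114)) (sy 1118635))) (br (br (br (br (br 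
  (sy 1682184) (sy 876897)) (sy 877408)) (sy 289114)) (sy 1062313)) (br (sy 1725640) (sy 1062313)))) 
  (sy 842128)) (sy 878920)) (sy 289562)) (br (br (br (br (br (br (br (br (br (br (br (lf 1516228) (sy 288099)) 
  (sy 288610)) (sy 876897)) (sy 877408)) (sy 289114)) (sy 547225)) (br (sy 1754305) (sy 547225))) (br (br (br 
  (br (br (br (br (lf 975121) (sy 288099)) (sy 288610)) (sy 876897)) (sy 877408)) (sy 289114)) (sy 547225)) (br 
  (br (br (br (br (br (lf 939400) (sy 288099)) (sy 288610)) (sy 876897)) (sy 877408)) (sy 289114)) (sy 547225)))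
  ) (sy 842128)) (sy 878920)) (sy 289562))) (sy 1357216)) (sy 1413538))) (sy 879368)) (sy 1466577)) 
  (sy 1467088)) (sy 1467592)) (sy 1468040))) (sy 1651041)) (sy 1651552)) (sy 1679713)) (sy 1680224))) 
  (sy 1724625)) (sy 1725136)) (sy 1725640)) (sy 1726088)) (sy 1753297)) (sy 1753808)) (sy 1754312))

theorem t1_ok : check RT t1 33 2 = true := by decide +kernel

def t2 : Cert :=
  (br (br (br (br (br (br (br (br (br (br (br (br (br (br (br (br (br (br (br (br (br (br (br (br (br (br (br (br (lf 1754760) 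
  (lf 1754760)) (sy 1751106)) (sy 1751169)) (sy 1751176)) (sy 1754690)) (sy 1754753)) (br (br (br (br (br (br 
  (lf 1754760) (lf 742168)) (sy 1754704)) (br (br (lf 929096) (sy 559349)) (sy 795564))) (br (br (br 
  (lf 1158472) (sy 575029)) (sy 827820)) (sy 1751176))) (sy 1089963)) (br (sy 1118635) (k4 1092)))) 
  (sy 1754641)) (sy 1754704)) (br (br (br (br (br (br (br (br (br (lf 1754760) (lf 1158472)) (sy 1751176)) 
  (sy 1751169)) (sy 1751176)) (br (br (br (br (lf 1174152) (lf 1156008)) (br (lf 1154370) (sy 280245))) 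
  (sy 1751169)) (sy 1751176))) (sy 1754753)) (br (br (sy 1127336) (sy 1119797)) (sy 1126965))) (sy 1754753)) 
  (br (br (br (br (sy 1156008) (sy 1152053)) (sy 1155637)) (k4 1676)) (sy 1155637)))) (sy 1525314)) 
  (sy 1525377)) (sy 1525384)) (sy 1521681)) (sy 1521744)) (sy 1521800)) (sy 1525265)) (sy 1525328)) 
  (sy 1525384)) (k4 3357)) (sy 1754690)) (sy 1754753)) (br (br (br (br (br (br (br (br (br (br (br (br (br (br (br (br 
  (br (br (br (br (br (br (lf 1745688) (lf 1745688)) (sy 1751120)) (sy 1751176)) (sy 1751176)) (sy 1754704)) (br 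
  (br (br (br (br (lf 1661128) (sy 560427)) (br (lf 1688645) (sy 560427))) (br (br (lf 741657) (sy 542325)) 
  (sy 1751176))) (sy 1751176)) (br (br (br (br (sy 1057707) (k4 2184)) (sy 1754704)) (br (br (sy 83573) (k4 2184)
  ) (br (sy 83573) (k4 1672)))) (sy 1751176)))) (br (br (br (br (br (br (lf 1645336) (sy 583723)) (sy 1754704)) 
  (br (br (sy 583877) (sy 583723)) (br (sy 583877) (k4 1672)))) (sy 583912)) (sy 1754704)) (br (br (br (br (br 
  (sy 576555) (k4 2114)) (br (sy 576555) (k4 2114))) (br (br (sy 576555) (k4 2114)) (br (sy 576555) (k4 1672))))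
   (sy 583912)) (k4 1092)))) (br (br (br (br (br (br (br (lf 1754641) (lf 1716561)) (sy 1751120)) (sy 1751176)) 
  (sy 1751176)) (sy 1754704)) (br (br (br (br (br (lf 1253721) (sy 560427)) (sy 144501)) (k4 2256)) (sy 1751176)
  ) (sy 1062005))) (br (br (br (br (br (br (lf 1717352) (sy 583723)) (sy 1754704)) (br (br (lf 878696) (sy 583723)
  ) (sy 803957))) (sy 583912)) (sy 1054389)) (br (sy 1058421) (k4 1092))))) (sy 1754704)) (br (br (br (br (br 
  (br (br (br (br (lf 1747144) (lf 1645336)) (sy 1751176)) (sy 1751176)) (sy 1751176)) (br (br (br (br 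
  (lf 1710744) (sy 331051)) (br (lf 476994) (sy 280245))) (sy 1751176)) (sy 1751176))) (br (br (br (br (br 
  (sy 1126825) (sy 560427)) (br (sy 1126825) (sy 560427))) (k4 2242)) (sy 1751176)) (sy 1115765))) (br (br (br 
  (sy 661416) (k4 2250)) (sy 1119797)) (sy 1126965))) (br (br (br (br (br (br (sy 1155497) (sy 918645)) (k4 2179)
  ) (sy 1751176)) (sy 1148021)) (k4 1668)) (br (sy 1126965) (k4 1668)))) (br (br (br (br (br (br (br (sy 1156008) 
  (sy 922677)) (sy 926261)) (k4 2187)) (sy 1152053)) (sy 1155637)) (k4 1676)) (sy 1155637)))) (sy 1754704)) 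
  (br (br (br (br (br (br (br (br (br (br (br (lf 1516067) (sy 560483)) (sy 1751176)) (sy 1521793)) (sy 1751176)) 
  (br (br (br (br (lf 1511699) (sy 560483)) (br (lf 450842) (sy 280245))) (sy 1521793)) (sy 1751176))) 
  (sy 1525377)) (br (br (br (br (br (br (lf 1659672) (sy 583723)) (br (sy 583723) (sy 583723))) (br (br (sy 583723)
   (sy 583723)) (sy 1521793))) (sy 583912)) (br (br (br (br (sy 347179) (k4 2177)) (br (sy 347179) (k4 2177))) 
  (br (br (sy 347179) (k4 2177)) (br (sy 347179) (k4 1672)))) (sy 583912))) (br (br (br (br (br (sy 576555) 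
  (k4 2114)) (br (sy 576555) (k4 2114))) (sy 547057)) (sy 583912)) (k4 1092)))) (sy 1525377)) (br (br (br (br 
  (br (br (br (br (lf 1742104) (sy 560483)) (sy 1751176)) (sy 1751176)) (sy 1751176)) (br (br (br (br (lf 477715) 
  (sy 560483)) (k4 2241)) (sy 1751176)) (sy 1751176))) (br (br (br (br (br (lf 714777) (sy 546931)) (br 
  (lf 1129352) (sy 546931))) (sy 547057)) (sy 1751176)) (sy 1083061))) (br (br (br (sy 403368) (k4 2257)) 
  (sy 1094709)) (br (sy 1091125) (k4 1092)))) (br (br (br (br (br (br (sy 1151402) (k4 2115)) (sy 1521793)) 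
  (sy 1751176)) (k4 1604)) (sy 1525377)) (br (br (sy 1094709) (k4 1604)) (br (sy 1094709) (k4 1092)))))) (br 
  (br (br (br (br (br (br (br (br (lf 1517768) (sy 560483)) (sy 1751176)) (sy 625009)) (sy 1751176)) (br (br (br (br 
  (lf 1517635) (sy 560483)) (br (lf 1155952) (sy 280245))) (sy 625009)) (sy 1751176))) (sy 1525377)) (br (br 
  (br (sy 661416) (k4 2250)) (sy 1119797)) (sy 1126965))) (sy 1525377)) (br (br (br (br (br (br (br (sy 1156008) 
  (sy 922677)) (sy 625009)) (k4 2187)) (sy 1152053)) (sy 1155637)) (k4 1676)) (sy 1155637)))) (sy 1525265)))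
   (br (br (br (br (br (br (br (br (br (br (br (br (lf 1745688) (sy 584227)) (sy 1751120)) (sy 1751176)) (sy 584416))
   (sy 1754704)) (br (br (br (br (br (lf 743491) (sy 584227)) (br (lf 1741859) (sy 584227))) (br (br (sy 584227) 
  (sy 584227)) (sy 1751176))) (sy 584416)) (br (br (br (br (sy 584451) (k4 2184)) (sy 1754704)) (br (br 
  (sy 83573) (k4 2184)) (br (sy 83573) (k4 1672)))) (sy 584416)))) (sy 584472)) (br (br (br (br (br (br (br 
  (lf 1754760) (sy 584227)) (sy 1751120)) (sy 1751176)) (sy 584416)) (sy 1754704)) (br (br (br (br (br 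
  (lf 743512) (sy 584227)) (sy 144501)) (k4 2256)) (sy 584416)) (sy 1062005))) (sy 584472))) (sy 1754704)) 
  (br (br (br (br (br (br (br (br (br (lf 1745688) (sy 584227)) (sy 1751176)) (sy 1751176)) (sy 584416)) (br (br (br 
  (br (lf 742168) (sy 584227)) (br (sy 354851) (sy 584227))) (sy 1751176)) (sy 584416))) (br (br (br (br (br 
  (sy 584472) (sy 584227)) (br (sy 584472) (sy 584227))) (k4 2242)) (sy 584416)) (sy 1115765))) (sy 584472)) 
  (br (br (br (br (br (br (br (lf 743624) (sy 584227)) (sy 918645)) (k4 2179)) (sy 584416)) (sy 1148021)) 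
  (k4 1668)) (sy 584472))) (br (br (br (br (br (br (br (br (lf 743624) (sy 584227)) (sy 922677)) (sy 926261)) 
  (k4 2187)) (sy 1152053)) (sy 1155637)) (k4 1676)) (sy 1155637)))) (sy 1525328)) (sy 1525384))) 
  (sy 1521681)) (sy 1521744)) (sy 1521800)) (sy 1525265)) (sy 1525328)) (sy 1525384)) (k4 3357)) 
  (sy 1754704)) (br (br (br (br (br (br (br (br (br (br (br (br (br (br (br (br (br (br (br (br (br (lf 1661128) (k4 3138)) 
  (sy 1751176)) (sy 1751169)) (sy 1751176)) (br (br (br (br (sy 1642851) (k4 3138)) (br (sy 1642851) (k4 3138)))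
   (sy 1751169)) (sy 1751176))) (sy 1754753)) (br (br (br (br (br (br (sy 583723) (k4 3138)) (br (sy 583723) 
  (k4 3138))) (br (br (sy 583723) (k4 3138)) (sy 1751169))) (sy 583912)) (br (br (br (br (sy 583723) (k4 2177)) 
  (br (sy 583723) (k4 2177))) (br (br (sy 583723) (k4 2177)) (br (sy 583723) (k4 1672)))) (sy 583912))) (br (br 
  (br (br (br (sy 583723) (k4 2114)) (br (sy 583723) (k4 2114))) (sy 551145)) (sy 583912)) (k4 1092)))) 
  (sy 1754753)) (br (br (br (br (br (br (br (br (lf 1661128) (k4 3138)) (sy 1751176)) (sy 1751176)) (sy 1751176)) 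
  (br (br (br (br (lf 1709400) (k4 3138)) (k4 2241)) (sy 1751176)) (sy 1751176))) (br (br (br (br (br (sy 551019) 
  (k4 3138)) (br (sy 551019) (k4 3138))) (sy 551145)) (sy 1751176)) (sy 1083061))) (br (br (br (sy 403368) 
  (k4 2257)) (sy 1094709)) (br (sy 1091125) (k4 1092)))) (br (br (br (br (br (br (br (lf 1717576) (k4 3138)) 
  (k4 2115)) (sy 1751169)) (sy 1751176)) (k4 1604)) (sy 1754753)) (br (br (sy 1094709) (k4 1604)) (br 
  (sy 1094709) (k4 1092)))))) (br (br (br (br (br (br (br (br (br (sy 1642851) (k4 3138)) (sy 1751176)) (sy 625065)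
  ) (sy 1751176)) (br (br (br (br (sy 1642851) (k4 3138)) (br (sy 1642851) (k4 3138))) (sy 625065)) (sy 1751176)
  )) (sy 1754753)) (br (br (br (sy 661416) (k4 2250)) (sy 1119797)) (sy 1126965))) (sy 1754753)) (br (br (br (br 
  (br (br (br (br (sy 1642851) (k4 3138)) (sy 922677)) (sy 625065)) (k4 2187)) (sy 1152053)) (sy 1155637)) 
  (k4 1676)) (sy 1155637)))) (br (br (br (br (br (br (br (br (br (br (lf 1740963) (k4 3138)) (sy 1751176)) 
  (sy 1751169)) (sy 1751176)) (br (br (br (br (lf 1608467) (k4 3138)) (sy 284914)) (sy 1751169)) (sy 1751176)))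
   (sy 1754753)) (br (br (br (br (br (br (sy 583723) (k4 3138)) (br (sy 583723) (k4 3138))) (br (br (sy 583723) 
  (k4 3138)) (sy 1751169))) (sy 583912)) (br (br (br (br (sy 583723) (k4 2177)) (sy 284914)) (br (br (sy 583723) 
  (k4 2177)) (sy 284914))) (sy 583912))) (br (br (br (br (br (sy 583723) (k4 2114)) (br (sy 583723) (k4 2114))) 
  (sy 551145)) (sy 583912)) (k4 1092)))) (sy 1754753)) (br (br (br (br (br (br (br (br (lf 1627171) (k4 3138)) 
  (sy 362866)) (sy 1751176)) (sy 1751176)) (br (br (br (sy 395122) (k4 2241)) (sy 1751176)) (sy 1751176))) (br 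
  (br (br (br (br (sy 551019) (k4 3138)) (sy 362866)) (sy 551145)) (sy 1751176)) (sy 1083061))) (br (br (br 
  (sy 403368) (k4 2257)) (sy 1094709)) (br (sy 1091125) (k4 1092)))) (br (br (br (br (br (br (br (lf 1741082) 
  (k4 3138)) (k4 2115)) (sy 1751169)) (sy 1751176)) (k4 1604)) (sy 1754753)) (br (br (sy 1094709) (k4 1604)) 
  (br (sy 1094709) (k4 1092)))))) (br (br (br (br (br (br (br (br (br (lf 1661128) (k4 3138)) (sy 1751176)) 
  (sy 625065)) (sy 1751176)) (br (br (br (br (sy 1642851) (k4 3138)) (sy 284914)) (sy 625065)) (sy 1751176))) 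
  (sy 1754753)) (br (br (br (sy 661416) (k4 2250)) (sy 1119797)) (sy 1126965))) (sy 1754753)) (br (br (br (br (br 
  (br (br (br (lf 1754704) (k4 3138)) (sy 362866)) (sy 625065)) (k4 2187)) (sy 1152053)) (sy 1155637)) 
  (k4 1676)) (sy 1155637))))) (sy 1754753)) (br (br (br (br (br (br (br (br (br (br (br (br (sy 584227) (k4 3138)) 
  (sy 1751176)) (sy 1751176)) (sy 584416)) (br (br (br (br (sy 584227) (k4 3138)) (br (sy 584227) (k4 3138))) 
  (sy 1751176)) (sy 584416))) (br (br (br (br (br (sy 584227) (k4 3138)) (br (sy 584227) (k4 3138))) (sy 551145))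
   (sy 584416)) (br (br (br (br (sy 584227) (k4 2184)) (br (sy 584227) (k4 2184))) (sy 551145)) (sy 584416)))) 
  (sy 584472)) (br (br (br (br (br (br (br (sy 584227) (k4 3138)) (sy 1751176)) (sy 1751176)) (sy 584416)) (br (br 
  (br (br (sy 584227) (k4 3138)) (k4 2248)) (sy 1751176)) (sy 584416))) (br (br (br (sy 141225) (k4 2256)) 
  (sy 584416)) (sy 1062005))) (sy 584472))) (br (br (br (br (br (br (br (br (sy 584227) (k4 3138)) (sy 1751176)) 
  (sy 1751176)) (sy 584416)) (br (br (br (br (sy 584227) (k4 3138)) (k4 2241)) (sy 1751176)) (sy 584416))) (br 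
  (br (br (br (br (sy 584227) (k4 3138)) (br (sy 584227) (k4 3138))) (sy 551145)) (sy 584416)) (sy 1083061))) 
  (sy 584472)) (br (br (br (br (br (br (br (sy 584227) (k4 3138)) (k4 2115)) (sy 1751176)) (sy 584416)) (k4 1604))
   (br (sy 1062005) (k4 1604))) (sy 584472)))) (br (br (br (br (br (br (br (br (br (sy 584227) (k4 3138)) 
  (sy 1751176)) (sy 625065)) (sy 584416)) (br (br (br (br (sy 584227) (k4 3138)) (br (sy 584227) (k4 3138))) 
  (sy 625065)) (sy 584416))) (br (br (br (sy 657321) (k4 2242)) (sy 584416)) (sy 1115765))) (sy 584472)) (br 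
  (br (br (br (br (br (br (sy 584227) (k4 3138)) (sy 918645)) (k4 2179)) (sy 584416)) (sy 1148021)) (k4 1668)) 
  (sy 584472))) (br (br (br (br (br (br (br (br (sy 584227) (k4 3138)) (sy 922677)) (sy 625065)) (k4 2187)) 
  (sy 1152053)) (sy 1155637)) (k4 1676)) (sy 1155637)))) (br (br (br (br (br (br (br (br (br (br (sy 584227) 
  (k4 2689)) (sy 1521744)) (sy 1751176)) (sy 584416)) (sy 1525328)) (br (br (br (br (br (sy 584227) (k4 2689)) 
  (br (sy 584227) (k4 2689))) (sy 551145)) (sy 584416)) (br (br (br (br (sy 584227) (k4 2184)) (sy 284914)) 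
  (sy 551145)) (sy 584416)))) (sy 584472)) (br (br (br (br (br (br (br (sy 584227) (k4 2689)) (sy 104818)) 
  (sy 1751176)) (sy 584416)) (sy 1525328)) (br (br (br (sy 141225) (k4 2256)) (sy 584416)) (sy 1062005))) 
  (sy 584472))) (sy 1525328)) (br (br (br (br (br (br (br (br (br (sy 584227) (k4 2689)) (sy 1751176)) (sy 625065))
   (sy 584416)) (br (br (br (br (sy 584227) (k4 2689)) (sy 284914)) (sy 625065)) (sy 584416))) (br (br (br 
  (sy 657321) (k4 2242)) (sy 584416)) (sy 1115765))) (sy 584472)) (br (br (br (br (br (br (br (sy 584227) 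
  (k4 2689)) (sy 104818)) (k4 2179)) (sy 584416)) (sy 1148021)) (k4 1668)) (sy 584472))) (br (br (br (br (br (br 
  (br (br (sy 584227) (k4 2689)) (sy 362866)) (sy 625065)) (k4 2187)) (sy 1152053)) (sy 1155637)) (k4 1676)) 
  (sy 1155637))))) (br (br (br (br (br (br (br (br (br (br (br (sy 584227) (k4 2626)) (sy 1751176)) (sy 551649)) 
  (sy 584416)) (br (br (br (br (sy 584227) (k4 2626)) (br (sy 584227) (k4 2626))) (sy 551649)) (sy 584416))) 
  (sy 551705)) (sy 584472)) (sy 1754753)) (br (br (br (br (br (br (br (br (sy 584227) (k4 2626)) (sy 1751176)) 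
  (sy 551649)) (sy 584416)) (br (br (br (br (sy 584227) (k4 2626)) (k4 2241)) (sy 551649)) (sy 584416))) 
  (sy 551705)) (sy 584472)) (br (br (br (br (br (br (br (sy 584227) (k4 2626)) (k4 2115)) (sy 551649)) (sy 584416)
  ) (k4 1604)) (sy 551705)) (sy 584472)))) (br (br (br (br (br (br (br (br (br (sy 584227) (k4 2626)) (sy 1751176))
   (sy 551649)) (sy 584416)) (br (br (br (br (sy 584227) (k4 2626)) (br (sy 584227) (k4 2626))) (sy 551649)) 
  (sy 584416))) (sy 551705)) (sy 584472)) (sy 1754753)) (br (br (br (br (br (br (br (br (sy 584227) (k4 2626)) 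
  (sy 922677)) (sy 551649)) (k4 2187)) (sy 1152053)) (sy 551705)) (k4 1676)) (sy 1155637)))) (k4 1093)))) 
  (sy 1521681)) (sy 1521744)) (sy 1521800)) (sy 1525265)) (sy 1525328)) (sy 1525384)) (k4 3357)) (k4 1094)))
  ) (sy 1751057)) (sy 1751120)) (sy 1751176)) (sy 1754641)) (sy 1754704))

theorem t2_ok : check RT t2 28 96 = true := by decide +kernel

def t3 : Cert :=
  (br (br (br (br (br (br (br (br (br (br (br (br (br (br (br (br (br (br (br (br (br (br (br (br (lf 1726088) (sy 1725640)) 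
  (br (lf 1754760) (lf 1606892))) (sy 1754753)) (br (br (br (lf 1726088) (sy 1725640)) (br (lf 1690248) 
  (k4 1665))) (br (br (lf 649992) (k4 1602)) (k4 1091)))) (sy 1725640)) (sy 1725633)) (sy 1725640)) 
  (sy 1754753)) (br (br (br (sy 1725640) (sy 1725633)) (sy 1725640)) (br (br (sy 1725640) (sy 1139033)) 
  (sy 1725640)))) (sy 1725640)) (br (br (br (br (br (br (br (br (br (br (lf 1524936) (lf 1747011)) (br (lf 1525314) 
  (sy 284340))) (sy 1754753)) (br (br (br (lf 1517152) (lf 1383683)) (br (sy 361844) (k4 1665))) (br (br 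
  (lf 646408) (k4 1602)) (k4 1091)))) (br (br (br (br (lf 1724954) (sy 284851)) (sy 284914)) (sy 1754753)) (br 
  (br (br (lf 1219610) (sy 284851)) (sy 284914)) (br (br (lf 1726088) (k4 1602)) (k4 1091))))) (sy 1725633)) 
  (sy 1725640)) (sy 1754753)) (br (br (br (sy 1725640) (sy 1725633)) (sy 1725640)) (br (br (sy 1725640) 
  (sy 1139033)) (sy 1725640)))) (sy 1725640))) (sy 1754753)) (br (br (br (br (br (br (br (br (br (br (br (br 
  (lf 1524824) (lf 713475)) (br (lf 1513232) (lf 351512))) (br (br (lf 1517313) (sy 559860)) (br (lf 1391880) 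
  (k4 1672)))) (br (br (br (lf 1745688) (sy 579124)) (br (sy 369012) (k4 1665))) (br (br (sy 571956) (k4 1602)) 
  (k4 1091)))) (br (br (br (br (lf 1725059) (lf 682563)) (br (lf 1219792) (sy 280245))) (br (br (lf 1754123) 
  (sy 559860)) (br (lf 551145) (k4 1672)))) (br (br (br (lf 694680) (sy 579124)) (br (sy 368998) (k4 1665))) (br 
  (br (sy 571956) (k4 1602)) (k4 1091))))) (sy 1725633)) (sy 1725640)) (br (br (br (br (br (br (br (lf 1238664) 
  (sy 1725633)) (br (lf 1718864) (sy 272230))) (sy 1725633)) (br (br (br (lf 743624) (sy 579124)) (sy 792757)) 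
  (br (sy 796789) (k4 1091)))) (sy 1725633)) (sy 1139033)) (sy 1725640))) (br (br (br (br (br (br (br (br 
  (lf 1237712) (sy 1725640)) (br (lf 1447824) (sy 272230))) (br (br (lf 1726088) (sy 559860)) (sy 821429))) 
  (br (br (br (lf 645512) (sy 579124)) (sy 836661)) (br (sy 829493) (k4 1091)))) (sy 1725640)) (sy 1725633)) 
  (sy 1725640)) (br (br (sy 1725640) (sy 1139033)) (sy 1725640)))) (sy 1725640)) (br (br (br (br (br (br (br (br 
  (br (br (lf 1516312) (k4 2689)) (br (lf 1370138) (k4 2689))) (br (br (lf 1401379) (k4 2689)) (br (sy 284340) 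
  (k4 1672)))) (br (br (br (sy 434420) (k4 2689)) (br (sy 349748) (k4 1665))) (br (br (sy 571956) (k4 1602)) 
  (k4 1091)))) (br (br (br (br (lf 1363075) (k4 2689)) (sy 284914)) (br (br (sy 427315) (k4 2689)) (sy 284914))) 
  (br (br (br (sy 427294) (k4 2689)) (sy 284914)) (br (br (sy 427294) (k4 1602)) (k4 1091))))) (sy 1725633)) 
  (sy 1725640)) (br (br (br (br (br (br (br (lf 1523795) (k4 2689)) (br (sy 47894) (k4 2689))) (br (br (lf 1390977) 
  (k4 2689)) (sy 803957))) (br (br (br (lf 1447152) (k4 2689)) (sy 792757)) (br (sy 796789) (k4 1091)))) (br (br 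
  (br (br (sy 51926) (k4 2689)) (k4 2248)) (sy 1725633)) (br (br (br (sy 427294) (k4 2689)) (k4 2248)) (br 
  (sy 796789) (k4 1091))))) (sy 1139033)) (sy 1725640))) (br (br (br (br (br (br (br (br (lf 1513624) (k4 2689)) 
  (br (sy 277270) (k4 2689))) (br (br (lf 1451632) (k4 2689)) (sy 821429))) (br (br (br (sy 342790) (k4 2689)) 
  (sy 836661)) (br (sy 829493) (k4 1091)))) (br (br (br (br (sy 281302) (k4 2689)) (k4 2241)) (br (br (sy 281302) 
  (k4 2689)) (k4 2241))) (br (br (br (sy 342790) (k4 2689)) (k4 2241)) (br (sy 829493) (k4 1091))))) 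
  (sy 1725633)) (sy 1725640)) (br (br (sy 1725640) (sy 1139033)) (sy 1725640)))) (sy 1725640))) (br (br (br (br 
  (br (br (br (br (br (br (br (lf 1517635) (k4 2626)) (br (lf 1517124) (k4 2626))) (sy 1754753)) (br (br (br 
  (sy 579124) (k4 2626)) (br (sy 579124) (k4 1665))) (br (br (sy 579124) (k4 1602)) (k4 1091)))) (br (br (br (br 
  (lf 1402947) (k4 2626)) (br (lf 1344931) (k4 2626))) (sy 1754753)) (br (br (br (sy 579124) (k4 2626)) (br 
  (sy 368998) (k4 1665))) (br (br (sy 579124) (k4 1602)) (k4 1091))))) (sy 1725633)) (sy 1725640)) 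
  (sy 1754753)) (br (br (br (br (br (br (br (br (lf 1524824) (k4 2626)) (br (lf 1415344) (k4 2626))) (br (br 
  (sy 546420) (k4 2626)) (sy 821429))) (br (br (br (sy 579124) (k4 2626)) (sy 836661)) (br (sy 829493) (k4 1091)
  ))) (br (br (br (br (lf 1238083) (k4 2626)) (k4 2241)) (br (br (sy 546420) (k4 2626)) (k4 2241))) (br (br (br 
  (sy 371014) (k4 2626)) (k4 2241)) (br (sy 829493) (k4 1091))))) (sy 1725633)) (sy 1725640)) (br (br (br (br 
  (br (br (br (lf 1238664) (k4 2626)) (k4 2115)) (sy 1754753)) (br (br (sy 836661) (k4 2115)) (br (sy 836661) 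
  (k4 1091)))) (k4 1604)) (sy 1139033)) (sy 1725640)))) (sy 1725640)) (k4 1093)))) (sy 1754753)) (br (br (br 
  (br (br (br (br (br (br (br (br (br (br (br (lf 1525384) (lf 1516312)) (sy 1521744)) (br (sy 1521744) (sy 840084)))
   (sy 1521744)) (br (br (br (br (lf 1237698) (lf 1105104)) (sy 957474)) (br (br (lf 1525265) (lf 1509585)) 
  (sy 840084))) (sy 1521744))) (br (br (br (br (br (lf 1726088) (sy 1725633)) (br (lf 1525265) (lf 476504))) 
  (sy 1255961)) (sy 1521744)) (sy 1139019))) (br (br (br (br (br (br (lf 1726088) (sy 1725640)) (br (lf 1415568) 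
  (sy 275814))) (br (br (lf 1653512) (sy 573853)) (sy 840084))) (br (br (br (lf 703752) (sy 575029)) (sy 840756)
  ) (br (sy 841092) (k4 1091)))) (sy 1139523)) (sy 1139243))) (br (br (br (br (br (br (br (lf 1525384) 
  (lf 1525384)) (sy 840098)) (br (sy 1521744) (sy 803957))) (sy 1521744)) (br (br (br (br (lf 1260042) 
  (lf 1219778)) (k4 2248)) (br (br (lf 944657) (sy 115829)) (k4 2248))) (sy 1521744))) (sy 1139033)) (br 
  (sy 1725640) (sy 1139243)))) (sy 1434384)) (sy 1725640)) (sy 1434370)) (br (sy 1521744) (sy 1434370))) 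
  (sy 1434384)) (sy 1434146))) (br (br (br (br (br (br (br (br (br (br (br (br (br (br (br (lf 1525384) (lf 1517768)) 
  (sy 1521800)) (sy 1521793)) (sy 1521800)) (br (br (br (br (lf 1267336) (lf 1714888)) (br (lf 1525384) 
  (sy 280245))) (sy 1521793)) (sy 1521800))) (sy 1754753)) (br (br (br (br (br (br (lf 714952) (sy 662571)) (br 
  (lf 1517320) (sy 662571))) (br (br (lf 743176) (sy 573853)) (sy 872844))) (br (br (br (sy 575400) (sy 575029))
   (sy 873348)) (sy 873012))) (sy 1139523)) (sy 1139243))) (sy 1754753)) (br (br (br (br (br (br (br (br 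
  (lf 944776) (lf 714952)) (sy 1521800)) (sy 1521800)) (sy 1521800)) (br (br (br (br (lf 1260168) (lf 1218224))
   (k4 2241)) (sy 1521800)) (sy 1521800))) (br (sy 1255961) (sy 1139019))) (br (sy 1139544) (sy 1139243))) 
  (br (br (br (br (br (br (br (lf 944776) (lf 929096)) (k4 2115)) (sy 872865)) (sy 1521800)) (k4 1604)) 
  (sy 1139033)) (br (sy 1139544) (sy 1139243))))) (br (br (br (br (br (br (br (br (br (lf 944776) (sy 671048)) 
  (sy 961800)) (sy 874545)) (sy 874608)) (sy 1256136)) (sy 1140265)) (sy 1140328)) (sy 1754753)) (br (br (br 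
  (sy 1140552) (sy 1140265)) (k4 1676)) (sy 1155637)))) (sy 1521800)) (sy 1434881)) (sy 1434888)) 
  (sy 1434657)) (sy 1434720))) (sy 1754753)) (br (br (br (br (br (br (br (br (br (br (br (br (br (br (br (br (br 
  (lf 1238664) (sy 1266776)) (sy 1525328)) (br (br (lf 1726088) (sy 1725640)) (br (lf 1521800) (k4 1672)))) 
  (br (br (br (lf 1238664) (sy 1266776)) (sy 1525328)) (br (br (lf 1653512) (k4 1602)) (k4 1091)))) (sy 1237635)
  ) (sy 1266755)) (sy 1266776)) (br (br (sy 1725640) (sy 1139033)) (sy 1266776))) (sy 1467088)) (sy 1725640))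
   (sy 1467074)) (br (sy 1525328) (sy 1467074))) (sy 1467088)) (sy 1525314)) (sy 1525328)) (br (sy 1525328) 
  (sy 1434720))) (sy 1466906))) (k4 3412)) (k4 3357)) (br (br (br (br (br (br (br (br (br (br (br (br (br (br (br (br 
  (br (br (br (br (lf 1724954) (sy 1725640)) (br (lf 1608026) (sy 288428))) (sy 1754753)) (br (br (br (lf 1725136)
   (sy 1725640)) (br (lf 1620752) (k4 1665))) (br (br (lf 1653512) (k4 1602)) (k4 1091)))) (sy 1725640)) 
  (sy 1725633)) (sy 1725640)) (sy 1754753)) (br (br (br (sy 1725640) (sy 1725633)) (sy 1725640)) (br (br 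
  (sy 1725640) (sy 1139033)) (sy 1725640)))) (sy 1725640)) (br (br (br (br (br (br (br (br (br (br (lf 1753626) 
  (sy 289443)) (sy 289506)) (sy 1754753)) (br (br (br (lf 1628291) (sy 289443)) (sy 289506)) (br (br 
  (lf 1607508) (k4 1602)) (k4 1091)))) (sy 289562)) (sy 1725633)) (sy 1725640)) (sy 1754753)) (br (br (br 
  (sy 1725640) (sy 1725633)) (sy 1725640)) (br (br (sy 1725640) (sy 1139033)) (sy 1725640)))) (sy 1725640))) 
  (sy 1754753)) (br (br (br (br (br (br (br (br (br (br (br (br (lf 1742104) (lf 1616643)) (br (lf 1628179) 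
  (sy 288428))) (br (br (lf 1659147) (sy 559860)) (br (lf 1581804) (k4 1672)))) (br (br (br (lf 1742048) 
  (sy 579124)) (br (sy 361900) (k4 1665))) (br (br (sy 571956) (k4 1602)) (k4 1091)))) (br (br (br (br 
  (lf 1742979) (sy 288939)) (sy 289002)) (br (br (lf 1589931) (sy 288939)) (sy 289002))) (br (br (br (lf 469784)
   (sy 288939)) (sy 289002)) (br (br (sy 571956) (k4 1602)) (k4 1091))))) (sy 1725633)) (sy 1725640)) (br (br 
  (br (br (br (br (br (lf 1724954) (sy 1725633)) (br (lf 1737442) (sy 288428))) (sy 1725633)) (br (br (br 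
  (lf 1725640) (sy 579124)) (br (sy 361900) (k4 1665))) (br (br (sy 627046) (k4 1602)) (k4 1091)))) 
  (sy 1725633)) (sy 1139033)) (sy 1725640))) (br (br (br (br (br (br (br (br (lf 1725136) (sy 1725640)) (br 
  (lf 477008) (sy 288428))) (br (br (lf 1725136) (sy 273756)) (br (sy 277781) (k4 1672)))) (br (br (br 
  (lf 481488) (sy 579124)) (sy 836661)) (br (br (sy 342790) (k4 1602)) (k4 1091)))) (sy 1725640)) (sy 1725633)
  ) (sy 1725640)) (br (br (sy 1725640) (sy 1139033)) (sy 1725640)))) (sy 1725640)) (br (br (br (br (br (br (br (br 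
  (br (br (lf 1512483) (k4 2689)) (sy 289506)) (br (br (lf 1741852) (k4 2689)) (sy 289506))) (br (br (br 
  (sy 427420) (k4 2689)) (sy 289506)) (br (br (sy 427420) (k4 1602)) (k4 1091)))) (sy 289562)) (sy 1725633)) 
  (sy 1725640)) (br (br (br (br (br (br (br (lf 1742867) (k4 2689)) (sy 289506)) (br (br (lf 1737827) (k4 2689)) 
  (sy 289506))) (br (br (br (sy 427420) (k4 2689)) (sy 289506)) (br (br (sy 427420) (k4 1602)) (k4 1091)))) 
  (sy 289562)) (sy 1139033)) (sy 1725640))) (br (br (br (br (br (br (br (br (sy 427427) (k4 2689)) (sy 289506)) 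
  (br (br (sy 427427) (k4 2689)) (sy 289506))) (br (br (br (sy 427420) (k4 2689)) (sy 289506)) (br (br (sy 427420)
   (k4 1602)) (k4 1091)))) (sy 289562)) (sy 1725633)) (sy 1725640)) (br (br (sy 1725640) (sy 1139033)) 
  (sy 1725640)))) (sy 1725640))) (br (br (br (br (br (br (br (br (br (br (br (lf 1516067) (k4 2626)) (br (lf 1745436)
   (k4 2626))) (sy 1754753)) (br (br (br (lf 1745688) (k4 2626)) (br (sy 361900) (k4 1665))) (br (br (sy 579124) 
  (k4 1602)) (k4 1091)))) (br (br (br (br (lf 1740963) (k4 2626)) (sy 289002)) (sy 1754753)) (br (br (br 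
  (sy 579124) (k4 2626)) (sy 289002)) (br (br (sy 579124) (k4 1602)) (k4 1091))))) (sy 1725633)) (sy 1725640))
   (sy 1754753)) (br (br (br (br (br (br (br (br (lf 1745667) (k4 2626)) (br (lf 1743056) (k4 2626))) (br (br 
  (lf 1402436) (k4 2626)) (br (sy 103852) (k4 1672)))) (br (br (br (sy 342790) (k4 2626)) (sy 836661)) (br (br 
  (sy 579124) (k4 1602)) (k4 1091)))) (br (br (br (br (lf 1251859) (k4 2626)) (k4 2241)) (br (br (lf 158347) 
  (k4 2626)) (k4 2241))) (br (br (br (sy 395157) (k4 2626)) (k4 2241)) (br (br (sy 579124) (k4 1602)) (k4 1091)))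
  )) (sy 1725633)) (sy 1725640)) (br (br (br (br (br (br (br (lf 1724954) (k4 2626)) (k4 2115)) (sy 1754753)) (br 
  (br (br (sy 342790) (k4 2626)) (k4 2115)) (br (sy 836661) (k4 1091)))) (k4 1604)) (sy 1139033)) (sy 1725640))
  )) (sy 1725640)) (k4 1093)))) (sy 1754753)) (br (br (br (br (br (br (br (br (br (br (br (br (br (br (lf 1742594) 
  (lf 1742979)) (br (lf 1627682) (sy 288428))) (br (br (lf 1751057) (lf 1594068)) (sy 840084))) (br (br (br 
  (lf 1742608) (sy 329644)) (sy 840756)) (br (sy 841092) (k4 1091)))) (br (br (br (br (lf 1753626) (sy 288939)) 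
  (sy 289002)) (br (br (lf 1671978) (sy 288939)) (sy 289002))) (br (br (br (lf 473872) (sy 288939)) (sy 289002))
   (br (sy 841092) (k4 1091))))) (br (br (br (br (br (lf 1724954) (sy 1725633)) (br (lf 1620010) (sy 288428))) 
  (sy 1725633)) (br (br (br (lf 1681736) (sy 329644)) (sy 840756)) (br (sy 841092) (k4 1091)))) (sy 1139019))) 
  (br (br (br (br (br (br (lf 1725136) (sy 330155)) (br (sy 363426) (sy 288428))) (br (br (lf 1651552) (sy 573853))
   (sy 840084))) (br (br (br (lf 477904) (sy 575029)) (sy 840756)) (br (sy 841092) (k4 1091)))) (sy 1139523)) 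
  (sy 1139243))) (br (br (br (br (br (br (br (lf 1726018) (lf 1607466)) (sy 840098)) (br (br (lf 1693713) 
  (sy 71589)) (sy 803957))) (br (br (br (lf 1005648) (sy 329644)) (sy 840756)) (br (sy 841092) (k4 1091)))) (br 
  (br (br (br (lf 1250858) (sy 288939)) (k4 2248)) (br (br (sy 137109) (sy 288939)) (k4 2248))) (br (br (br 
  (lf 419650) (sy 288939)) (k4 2248)) (br (sy 841092) (k4 1091))))) (sy 1139033)) (br (sy 1725640) 
  (sy 1139243)))) (br (br (br (br (br (br (br (br (lf 1710800) (lf 476994)) (sy 841778)) (br (sy 957712) 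
  (sy 841778))) (sy 841904)) (br (br (br (sy 405874) (k4 2241)) (br (sy 405874) (k4 2241))) (sy 841904))) 
  (sy 1725633)) (br (sy 1139544) (sy 1139243))) (br (br (br (br (br (br (sy 842114) (k4 2115)) (br (sy 842114) 
  (k4 2115))) (sy 841904)) (k4 1604)) (sy 1139033)) (br (sy 1139544) (sy 1139243))))) (sy 1725640)) 
  (sy 1434370)) (br (br (br (br (br (br (br (br (br (br (br (lf 1512483) (lf 1512483)) (sy 1521744)) (br (sy 1521744)
   (sy 840084))) (sy 1521744)) (br (br (br (br (lf 1524243) (sy 288939)) (sy 289002)) (br (br (lf 1738513) 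
  (sy 288939)) (sy 289002))) (sy 1521744))) (br (br (br (br (br (lf 1509529) (sy 546931)) (br (lf 1738513) 
  (sy 546931))) (sy 547057)) (sy 1521744)) (sy 1139019))) (br (br (br (br (br (br (lf 1512707) (sy 573867)) (br 
  (sy 363426) (sy 288428))) (br (br (lf 1516312) (sy 546420)) (sy 840084))) (br (br (br (lf 480536) (sy 575029))
   (sy 840756)) (br (sy 841092) (k4 1091)))) (sy 1139523)) (sy 1139243))) (br (br (br (br (br (br (br (lf 1738513)
   (lf 1738513)) (sy 840098)) (br (sy 1521744) (sy 803957))) (sy 1521744)) (br (br (br (br (lf 1706586) 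
  (sy 288939)) (k4 2248)) (br (br (sy 137109) (sy 288939)) (k4 2248))) (sy 1521744))) (sy 1139033)) (br (br (br 
  (br (br (br (lf 1724954) (sy 573867)) (sy 840098)) (br (br (lf 1582945) (sy 546420)) (sy 803957))) (br (br (br 
  (lf 703752) (sy 575029)) (sy 840756)) (br (sy 841092) (k4 1091)))) (sy 1139523)) (sy 1139243)))) 
  (sy 1434384)) (sy 1725640)) (sy 1434370))) (sy 1434384)) (sy 1434146))) (br (br (br (br (br (br (br (br (br (br 
  (br (br (br (br (br (lf 1746696) (lf 1659427)) (br (lf 1749538) (sy 288428))) (sy 1754753)) (br (br (br 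
  (lf 1746528) (lf 1660512)) (sy 873348)) (sy 873012))) (br (br (br (br (lf 1753626) (sy 288939)) (sy 289002)) 
  (sy 1754753)) (br (br (br (lf 1717352) (sy 288939)) (sy 289002)) (sy 873012)))) (sy 1754753)) (br (br (br (br 
  (br (br (lf 1754200) (lf 1655640)) (br (lf 1680168) (sy 288428))) (br (br (lf 739137) (sy 573853)) (sy 872844)
  )) (br (br (br (sy 575400) (sy 575029)) (sy 873348)) (sy 873012))) (sy 1139523)) (sy 1139243))) (sy 1754753)
  ) (br (br (br (br (br (br (br (br (lf 1726088) (lf 1717352)) (br (lf 1693776) (sy 288428))) (br (br (lf 993608) 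
  (lf 877380)) (sy 872844))) (br (sy 873376) (sy 873012))) (br (br (br (br (lf 1266384) (sy 288939)) (k4 2241)) 
  (br (br (lf 1716554) (sy 288939)) (k4 2241))) (br (sy 873376) (sy 873012)))) (br (br (br (br (br (lf 1255233) 
  (lf 1139432)) (br (lf 1257802) (sy 288428))) (br (br (sy 542633) (sy 542325)) (sy 872844))) (br (sy 873376) 
  (sy 873012))) (sy 1139019))) (br (sy 1139544) (sy 1139243))) (br (br (br (br (br (br (br (lf 1260098) 
  (lf 1258005)) (k4 2115)) (sy 872865)) (br (sy 873376) (sy 873012))) (k4 1604)) (sy 1139033)) (br 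
  (sy 1139544) (sy 1139243))))) (br (br (br (br (br (br (br (br (br (lf 1726088) (sy 1725640)) (br (lf 1005704) 
  (sy 288428))) (sy 874545)) (sy 874608)) (sy 1725640)) (sy 1140265)) (sy 1140328)) (sy 1754753)) (br (br (br 
  (sy 1140552) (sy 1140265)) (k4 1676)) (sy 1155637)))) (br (br (br (br (br (br (br (br (br (br (lf 1511587) 
  (sy 289443)) (sy 289506)) (sy 1521793)) (sy 1521800)) (sy 289562)) (sy 1754753)) (br (br (br (br (br (br 
  (lf 1512728) (sy 289443)) (sy 289506)) (br (br (lf 1515619) (sy 289443)) (sy 289506))) (br (br (br (sy 575400)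
   (sy 289443)) (sy 289506)) (sy 873012))) (sy 289562)) (sy 1139243))) (sy 1754753)) (br (br (br (br (br (br (br 
  (br (lf 1513680) (sy 289443)) (sy 289506)) (sy 1521800)) (sy 1521800)) (sy 289562)) (br (br (br (br (br 
  (lf 1724506) (sy 289443)) (sy 289506)) (br (br (sy 542633) (sy 289443)) (sy 289506))) (sy 1521800)) 
  (sy 289562))) (br (sy 1139544) (sy 1139243))) (br (br (br (br (br (br (br (lf 944706) (sy 289443)) (k4 2115)) 
  (sy 872865)) (sy 1521800)) (k4 1604)) (sy 1139033)) (br (sy 1139544) (sy 1139243))))) (br (br (br (br (br (br 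
  (br (br (br (lf 1525384) (sy 289443)) (sy 289506)) (sy 874545)) (sy 874608)) (sy 289562)) (sy 1140265)) 
  (sy 1140328)) (sy 1754753)) (br (br (br (sy 1140552) (sy 1140265)) (k4 1676)) (sy 1155637))))) (sy 1434881))
   (sy 1434888)) (sy 1434657)) (sy 1434720))) (sy 1754753)) (br (br (br (br (br (br (br (br (br (br (br (br (br (br 
  (br (br (br (lf 1725136) (sy 1725640)) (br (lf 1724954) (sy 288428))) (br (br (lf 1726088) (sy 1725640)) (br 
  (lf 1688106) (k4 1672)))) (br (br (br (lf 1624784) (sy 1725640)) (br (lf 477904) (k4 1665))) (br (br 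
  (lf 1651552) (k4 1602)) (k4 1091)))) (sy 1237635)) (sy 1266755)) (sy 1266776)) (br (br (sy 1725640) 
  (sy 1139033)) (sy 1266776))) (br (br (sy 1237656) (sy 1103536)) (br (sy 1237656) (sy 1103536)))) 
  (sy 1725640)) (sy 1467074)) (br (br (br (br (br (br (br (br (br (br (br (lf 1524803) (lf 1516291)) (sy 1525328)) 
  (br (br (lf 1523851) (sy 546420)) (br (sy 103852) (k4 1672)))) (br (br (br (lf 1524803) (lf 469763)) 
  (sy 1525328)) (br (br (lf 1745667) (k4 1602)) (k4 1091)))) (sy 1237635)) (sy 1266755)) (sy 1266776)) (br (br 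
  (br (br (br (br (br (lf 1237201) (sy 1266776)) (sy 1525328)) (br (br (lf 1237201) (sy 546420)) (sy 803957))) 
  (br (br (br (lf 1237201) (sy 1266776)) (sy 1525328)) (br (br (lf 219345) (k4 1602)) (k4 1091)))) (sy 1102234))
   (sy 1139033)) (sy 1266776))) (sy 1467088)) (sy 1725640)) (sy 1467074))) (sy 1467088)) (sy 1525314)) 
  (sy 1525328)) (br (sy 1525328) (sy 1434720))) (sy 1466906))) (k4 3412)) (k4 3357))) (sy 1725633)) 
  (sy 1725640)) (sy 1754753))

theorem t3_ok : check RT t3 24 1552 = true := by decide +kernel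

def t4 : Cert :=
  (br (br (br (br (br (br (br (br (br (br (br (br (br (br (br (br (br (br (br (br (br (lf 1690248) (lf 1690248)) 
  (sy 1751120)) (br (sy 1751120) (sy 1751120))) (sy 1751120)) (br (br (br (br (lf 1717058) (lf 1623874)) 
  (sy 1751120)) (br (br (lf 1690129) (lf 1578269)) (sy 1751120))) (sy 1751120))) (br (br (br (br (br (lf 1717569)
   (lf 1714776)) (br (lf 1688680) (lf 1614109))) (br (br (lf 1713985) (sy 542325)) (sy 1751120))) (sy 1751120)
  ) (br (br (br (br (lf 1257578) (k4 2184)) (br (lf 1257578) (k4 2184))) (br (br (sy 1117291) (k4 2184)) (br 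
  (sy 83573) (k4 1672)))) (sy 1751120)))) (br (br (br (br (br (br (lf 1709288) (lf 1655640)) (br (lf 1620304) 
  (lf 476392))) (br (br (lf 1713768) (sy 573853)) (br (sy 822444) (k4 1672)))) (br (br (br (lf 1688680) 
  (sy 575029)) (sy 844844)) (br (sy 1751120) (k4 1091)))) (br (br (br (br (sy 1139523) (k4 2177)) (br 
  (sy 1139523) (k4 2177))) (br (br (sy 1121323) (k4 2177)) (br (sy 276885) (k4 1672)))) (br (br (br (sy 345653) 
  (k4 2177)) (sy 844844)) (br (br (sy 575365) (k4 1602)) (k4 1091))))) (sy 1139243))) (br (br (br (br (br (br (br 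
  (lf 1690248) (lf 1688645)) (sy 1751120)) (br (sy 1751120) (sy 803957))) (sy 1751120)) (br (br (br (br 
  (lf 1717058) (lf 1257557)) (k4 2248)) (br (br (lf 1687889) (sy 115829)) (k4 2248))) (sy 1751120))) (br (br 
  (br (br (br (lf 1260161) (sy 1117417)) (br (lf 942417) (sy 144501))) (k4 2256)) (sy 1751120)) (sy 1062005))) 
  (br (br (br (br (br (br (lf 1717072) (lf 1712837)) (br (sy 822570) (sy 275877))) (br (br (lf 1688897) (sy 573853)
  ) (sy 803957))) (br (br (br (lf 1688680) (sy 575029)) (sy 844844)) (br (sy 830508) (k4 1091)))) (sy 1121323))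
   (sy 1139243)))) (sy 1751120)) (br (br (br (br (br (br (br (br (br (lf 1718920) (lf 1688680)) (br (lf 1002120) 
  (lf 1677480))) (br (br (lf 993608) (sy 639373)) (sy 822444))) (br (br (br (lf 1000776) (sy 628789)) 
  (sy 844844)) (sy 868917))) (br (br (br (br (lf 1258320) (lf 1709736)) (br (lf 1717072) (sy 280245))) (br (br 
  (lf 1717352) (sy 639373)) (sy 822444))) (br (br (br (sy 830760) (sy 340389)) (sy 844844)) (sy 868917)))) 
  (sy 1140265)) (sy 1140328)) (br (br (br (br (br (br (br (lf 1260168) (sy 1129513)) (sy 822570)) (k4 2179)) (br 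
  (sy 1129513) (k4 2179))) (sy 1129513)) (k4 1668)) (sy 1140328))) (br (br (br (br (br (br (br (br (lf 944776) 
  (sy 1129576)) (sy 845866)) (sy 1129576)) (k4 2187)) (sy 1129576)) (sy 1140265)) (k4 1676)) (sy 1155637))))
   (sy 1751120)) (br (br (br (br (br (br (br (br (br (br (br (lf 1746689) (lf 1660512)) (br (lf 1693832) (lf 1608404)
  )) (br (br (lf 1682177) (sy 546420)) (br (lf 1673868) (k4 1672)))) (br (br (br (lf 1682184) (lf 1644384)) 
  (sy 844844)) (br (br (lf 879172) (k4 1602)) (k4 1091)))) (br (br (br (br (lf 1754690) (lf 1705291)) (br 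
  (lf 1741082) (sy 280245))) (br (br (lf 1724569) (sy 546420)) (br (sy 822444) (k4 1672)))) (br (br (br 
  (lf 1753752) (sy 329525)) (sy 844844)) (br (br (sy 830508) (k4 1602)) (k4 1091))))) (br (br (br (br (br 
  (lf 1746969) (sy 546931)) (br (lf 1653281) (sy 546931))) (sy 547057)) (br (br (br (lf 740040) (sy 546931)) 
  (sy 844844)) (sy 547057))) (sy 1139019))) (br (br (br (br (br (br (lf 1657544) (lf 739928)) (br (lf 1742048) 
  (sy 559475))) (br (br (lf 740040) (sy 546420)) (br (lf 649257) (k4 1672)))) (br (br (br (lf 1661128) 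
  (sy 575029)) (sy 844844)) (br (br (sy 571445) (k4 1602)) (k4 1091)))) (br (br (br (br (sy 1139523) (k4 2177)) 
  (br (sy 1139523) (k4 2177))) (br (br (sy 1139523) (k4 2177)) (br (sy 276885) (k4 1672)))) (br (br (br 
  (sy 345653) (k4 2177)) (sy 844844)) (br (br (sy 571445) (k4 1602)) (k4 1091))))) (sy 1139243))) (br (br (br 
  (br (br (br (br (lf 1751057) (lf 1657369)) (br (lf 985425) (sy 822570))) (br (br (lf 1679657) (sy 546420)) 
  (sy 803957))) (br (br (br (lf 1000769) (lf 876652)) (sy 844844)) (br (sy 830508) (k4 1091)))) (br (br (br (br 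
  (lf 1705802) (lf 1075865)) (k4 2248)) (br (br (sy 108878) (sy 546420)) (k4 2248))) (br (br (br (lf 1171597) 
  (sy 43358)) (k4 2248)) (br (sy 830508) (k4 1091))))) (br (sy 1139033) (sy 1062005))) (br (br (br (br (br (br 
  (lf 1256136) (lf 1140265)) (br (lf 1258509) (sy 275877))) (br (br (lf 1717289) (sy 546420)) (sy 803957))) 
  (br (br (br (lf 1172808) (sy 575029)) (sy 844844)) (br (sy 830508) (k4 1091)))) (sy 1121323)) (sy 1139243))))
   (br (br (br (br (br (br (br (br (lf 1693832) (lf 1659672)) (sy 845866)) (br (br (lf 993608) (sy 546420)) 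
  (sy 845866))) (sy 845992)) (br (br (br (br (lf 1725122) (sy 405909)) (k4 2241)) (br (br (lf 1172493) 
  (sy 546420)) (k4 2241))) (sy 845992))) (br (br (br (br (br (lf 1255240) (sy 546931)) (sy 845866)) (sy 547057))
   (sy 845992)) (sy 1117291))) (br (br (br (br (br (br (lf 1266888) (sy 402997)) (sy 845866)) (br (br (sy 1139544)
   (sy 546420)) (sy 845866))) (k4 2257)) (sy 1094709)) (sy 1139243))) (br (br (br (br (br (br (br (lf 944706) 
  (lf 1172521)) (k4 2115)) (br (sy 838698) (k4 2115))) (sy 845992)) (k4 1604)) (br (sy 1117417) (k4 1604))) 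
  (br (br (sy 1121512) (k4 1604)) (sy 1139243))))) (br (br (br (br (br (br (br (br (br (lf 1750280) (lf 1660673)) 
  (br (lf 1002120) (lf 878661))) (br (br (sy 639401) (sy 546420)) (sy 822444))) (br (br (br (lf 1682184) 
  (sy 628789)) (sy 844844)) (sy 868917))) (br (br (br (br (lf 1258824) (lf 1139243)) (br (lf 1171541) 
  (sy 280245))) (br (br (sy 639401) (sy 546420)) (sy 822444))) (br (br (br (lf 1000776) (sy 628789)) (sy 844844)
  ) (sy 868917)))) (sy 1140265)) (sy 1140328)) (br (br (br (br (br (sy 1140545) (k4 2179)) (br (sy 1129513) 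
  (k4 2179))) (sy 1129513)) (k4 1668)) (sy 1140328))) (br (br (br (br (br (br (br (br (lf 1260168) (sy 1140552)) 
  (sy 845866)) (sy 1129576)) (k4 2187)) (sy 1129576)) (sy 1140265)) (k4 1676)) (sy 1155637)))) (br (br (br (br 
  (br (br (br (br (br (br (lf 1737379) (k4 2696)) (sy 1751120)) (br (sy 1751120) (sy 844116))) (sy 1751120)) (br 
  (br (br (br (lf 1738835) (k4 2696)) (sy 284914)) (br (br (lf 1337553) (k4 2696)) (sy 284914))) (sy 1751120))) 
  (br (br (br (br (br (lf 1738905) (k4 2696)) (br (lf 1337105) (k4 2696))) (sy 547057)) (sy 1751120)) 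
  (sy 1139019))) (br (br (br (br (br (br (lf 1742104) (k4 2696)) (br (lf 1369284) (k4 2696))) (br (br (lf 1401603) 
  (k4 2696)) (sy 844116))) (br (br (br (lf 355096) (k4 2696)) (sy 844844)) (br (sy 1751120) (k4 1091)))) (br (br 
  (br (br (sy 1139523) (k4 2177)) (sy 284914)) (br (br (sy 1139523) (k4 2177)) (sy 284914))) (br (br (br 
  (sy 345653) (k4 2177)) (sy 284914)) (br (br (sy 345653) (k4 1602)) (k4 1091))))) (sy 1139243))) (br (br (br 
  (br (br (br (br (lf 1509137) (k4 2696)) (sy 822570)) (br (sy 1751120) (sy 803957))) (sy 1751120)) (br (br (br 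
  (br (lf 219338) (k4 2696)) (k4 2248)) (br (br (sy 80654) (k4 2696)) (k4 2248))) (sy 1751120))) (br 
  (sy 1139033) (sy 1062005))) (br (br (br (br (br (br (lf 1237082) (k4 2696)) (sy 822570)) (br (br (sy 80654) 
  (k4 2696)) (sy 803957))) (br (br (br (lf 1616104) (k4 2696)) (sy 844844)) (br (sy 830508) (k4 1091)))) 
  (sy 1121323)) (sy 1139243)))) (sy 1751120)) (br (br (br (br (br (br (br (br (br (lf 1520897) (k4 2696)) (br 
  (lf 1434720) (k4 2696))) (br (br (sy 639401) (k4 2696)) (sy 822444))) (br (br (br (lf 1391712) (k4 2696)) 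
  (sy 844844)) (sy 868917))) (br (br (br (br (lf 1237530) (k4 2696)) (sy 284914)) (br (br (sy 639401) (k4 2696)) 
  (sy 284914))) (br (br (br (lf 1000776) (k4 2696)) (sy 284914)) (sy 868917)))) (sy 1140265)) (sy 1140328)) 
  (br (br (br (br (br (sy 1140545) (k4 2179)) (br (sy 1129513) (k4 2179))) (sy 1129513)) (k4 1668)) (sy 1140328))
  ) (br (br (br (br (br (br (br (br (lf 1690248) (k4 2696)) (sy 845866)) (sy 1129576)) (k4 2187)) (sy 1129576)) 
  (sy 1140265)) (k4 1676)) (sy 1155637)))))) (br (br (br (br (br (br (br (br (br (br (br (br (lf 1742104) 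
  (lf 1742104)) (sy 1751120)) (br (sy 1751120) (sy 1751120))) (sy 1751120)) (br (br (br (br (lf 1628312) 
  (lf 1624728)) (sy 1751120)) (br (br (lf 1690248) (lf 1614109)) (sy 1751120))) (sy 1751120))) (br (br (br (br 
  (br (lf 1661128) (lf 1657432)) (br (lf 1616664) (sy 530803))) (br (br (lf 740040) (sy 542325)) (sy 1751120)))
   (sy 1751120)) (br (br (br (br (lf 1251992) (k4 2184)) (br (lf 419370) (k4 2184))) (br (br (sy 1117291) 
  (k4 2184)) (br (sy 83573) (k4 1672)))) (sy 1751120)))) (br (br (br (br (br (br (lf 1753752) (sy 579635)) (br 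
  (lf 1623272) (sy 579635))) (br (br (lf 1653064) (sy 579635)) (br (sy 822444) (k4 1672)))) (sy 579824)) 
  (sy 1139523)) (sy 1139243))) (br (br (br (br (br (br (br (lf 1751176) (lf 1688680)) (sy 1751120)) (br 
  (sy 1751120) (sy 803957))) (sy 1751120)) (br (br (br (br (lf 1258320) (lf 1106259)) (k4 2248)) (br (br 
  (lf 943173) (sy 115829)) (k4 2248))) (sy 1751120))) (br (br (br (br (br (lf 1256136) (sy 1117417)) (br 
  (lf 1688645) (sy 144501))) (k4 2256)) (sy 1751120)) (sy 1062005))) (br (br (br (br (br (br (lf 1250984) 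
  (sy 579635)) (br (lf 1258152) (sy 579635))) (br (br (lf 1255016) (sy 579635)) (sy 803957))) (sy 579824)) 
  (sy 1121323)) (sy 1139243)))) (sy 1751120)) (br (br (br (br (br (br (br (br (br (lf 1690248) (lf 1644888)) (br 
  (lf 992040) (lf 859432))) (br (br (lf 1653512) (sy 624757)) (sy 822444))) (br (br (sy 830760) (sy 844844)) 
  (sy 868917))) (br (br (br (br (lf 1250984) (lf 1139544)) (br (lf 380072) (sy 280245))) (br (br (lf 878696) 
  (sy 624757)) (sy 822444))) (br (br (sy 830760) (sy 844844)) (sy 868917)))) (sy 1140265)) (sy 1140328)) (br 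
  (br (br (br (br (br (br (lf 1688904) (lf 993384)) (sy 822570)) (k4 2179)) (br (sy 1129513) (k4 2179))) 
  (sy 1129513)) (k4 1668)) (sy 1140328))) (br (br (br (br (br (br (br (br (lf 944776) (sy 1129576)) (sy 845866)) 
  (sy 1129576)) (k4 2187)) (sy 1129576)) (sy 1140265)) (k4 1676)) (sy 1155637)))) (sy 1751120)) (br (br (br 
  (br (br (br (br (br (br (br (br (lf 1516312) (k4 2626)) (br (lf 1749636) (k4 2626))) (br (br (lf 714497) (k4 2626))
   (br (lf 1402380) (k4 1672)))) (br (br (br (lf 1746528) (k4 2626)) (sy 844844)) (br (sy 845124) (k4 1091)))) 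
  (br (br (br (br (lf 1745667) (k4 2626)) (br (lf 1368290) (k4 2626))) (br (br (lf 1400924) (k4 2626)) (br 
  (sy 822444) (k4 1672)))) (br (br (br (lf 1401624) (k4 2626)) (sy 844844)) (br (sy 845124) (k4 1091))))) (br 
  (br (br (br (br (lf 1747011) (k4 2626)) (br (lf 1515619) (k4 2626))) (sy 547057)) (br (br (br (sy 546931) 
  (k4 2626)) (sy 844844)) (sy 547057))) (sy 1139019))) (br (br (br (br (br (br (lf 1659672) (k4 2626)) (br 
  (lf 713496) (k4 2626))) (br (br (sy 579635) (k4 2626)) (br (sy 579635) (k4 1672)))) (sy 579824)) (sy 1139523)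
  ) (sy 1139243))) (br (br (br (br (br (br (br (lf 1521800) (k4 2626)) (br (lf 1520673) (k4 2626))) (br (br 
  (lf 1746465) (k4 2626)) (sy 803957))) (br (br (br (lf 1402632) (k4 2626)) (sy 844844)) (br (sy 830508) 
  (k4 1091)))) (br (br (br (br (lf 1466458) (k4 2626)) (k4 2248)) (br (br (lf 1587369) (k4 2626)) (k4 2248))) (br 
  (br (br (lf 1615712) (k4 2626)) (k4 2248)) (br (sy 830508) (k4 1091))))) (br (sy 1139033) (sy 1062005))) (br 
  (br (br (br (br (br (lf 714952) (k4 2626)) (br (lf 1653064) (k4 2626))) (br (br (sy 579635) (k4 2626)) 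
  (sy 803957))) (sy 579824)) (sy 1121323)) (sy 1139243)))) (br (br (br (br (br (br (br (br (lf 1512672) (k4 2626))
   (sy 845866)) (br (br (lf 1520736) (k4 2626)) (sy 845866))) (sy 845992)) (br (br (br (br (lf 1108632) (k4 2626)
  ) (k4 2241)) (br (br (lf 1688400) (k4 2626)) (k4 2241))) (sy 845992))) (br (br (br (br (br (lf 1453256) 
  (k4 2626)) (sy 845866)) (sy 547057)) (sy 845992)) (sy 1117291))) (br (br (sy 1139544) (sy 1094709)) 
  (sy 1139243))) (br (br (br (br (br (br (br (lf 944776) (k4 2626)) (k4 2115)) (br (sy 838698) (k4 2115))) 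
  (sy 845992)) (k4 1604)) (br (sy 1117417) (k4 1604))) (br (br (sy 1121512) (k4 1604)) (sy 1139243))))) (br (br 
  (br (br (br (br (br (br (br (lf 1746696) (k4 2626)) (br (lf 1402464) (k4 2626))) (br (br (sy 625009) (k4 2626)) 
  (sy 822444))) (br (br (sy 830760) (sy 844844)) (sy 868917))) (br (br (br (br (lf 1402968) (k4 2626)) (br 
  (lf 1688904) (k4 2626))) (br (br (sy 625009) (k4 2626)) (sy 822444))) (br (br (sy 830760) (sy 844844)) 
  (sy 868917)))) (sy 1140265)) (sy 1140328)) (br (br (br (br (br (br (br (lf 960904) (k4 2626)) (sy 822570)) 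
  (k4 2179)) (br (sy 1129513) (k4 2179))) (sy 1129513)) (k4 1668)) (sy 1140328))) (br (br (br (br (br (br (br (br 
  (lf 1260168) (k4 2626)) (sy 845866)) (sy 1129576)) (k4 2187)) (sy 1129576)) (sy 1140265)) (k4 1676)) 
  (sy 1155637)))) (k4 1093)))) (sy 1751120)) (k4 3403)) (br (sy 1751120) (k4 3403))) (br (br (br (br (br (br (br 
  (br (br (br (br (br (br (br (br (br (lf 1726081) (lf 1726081)) (br (lf 1693706) (lf 1589994))) (br (br (lf 1725969)
   (lf 1640233)) (br (lf 985425) (k4 1672)))) (br (br (br (lf 1690192) (lf 1657432)) (sy 844844)) (br (br 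
  (lf 1005697) (k4 1602)) (k4 1091)))) (br (br (br (br (lf 1266370) (sy 1237131)) (br (lf 1266370) (sy 280245)))
   (br (br (lf 1257802) (sy 1237131)) (br (lf 211274) (k4 1672)))) (br (br (br (lf 1266384) (lf 419370)) 
  (sy 844844)) (br (br (lf 942417) (k4 1602)) (k4 1091))))) (sy 1266713)) (br (br (sy 1266699) (sy 1256003)) 
  (sy 1139243))) (br (br (br (sy 1237145) (sy 1070706)) (sy 1070769)) (br (br (sy 1237145) (sy 1070706)) 
  (sy 1070769)))) (br (br (br (br (br (br (br (br (lf 1260112) (lf 1725122)) (sy 845866)) (br (br (lf 1002120) 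
  (lf 1172521)) (sy 845866))) (sy 845992)) (sy 1069978)) (sy 1266713)) (br (br (sy 1139544) (sy 1094709)) 
  (sy 1139243))) (br (br (br (sy 1215697) (k4 1604)) (sy 1070769)) (br (br (sy 1139544) (k4 1604)) (sy 1070769))
  ))) (br (br (br (br (br (sy 1266713) (sy 1266713)) (sy 1140265)) (sy 1140328)) (br (br (sy 1256129) (k4 1668)) 
  (sy 1140328))) (br (br (br (sy 1140552) (sy 1140265)) (k4 1676)) (sy 1155637)))) (br (br (br (br (br (br (br (br 
  (br (br (lf 1524418) (lf 1753619)) (br (lf 1749538) (sy 284340))) (br (br (lf 1754634) (lf 218393)) (br 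
  (sy 822444) (k4 1672)))) (br (br (br (lf 1513232) (lf 451808)) (sy 844844)) (br (br (lf 1691809) (k4 1602)) 
  (k4 1091)))) (k4 2824)) (sy 1266713)) (br (br (br (br (br (br (lf 1467032) (sy 1266699)) (sy 1466570)) (br (br 
  (lf 1467585) (sy 43750)) (sy 1466570))) (br (br (br (lf 1266328) (sy 575029)) (sy 844844)) (br (br (sy 571445)
   (k4 1602)) (k4 1091)))) (k4 2824)) (sy 1139243))) (sy 1466570)) (br (br (br (br (sy 1466570) (k4 2824)) 
  (sy 1266713)) (br (br (sy 1139544) (k4 2824)) (sy 1139243))) (sy 1466570))) (br (br (br (br (br (sy 1266713) 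
  (k4 2824)) (sy 1140265)) (sy 1140328)) (sy 1466570)) (br (br (br (sy 1140552) (sy 1140265)) (k4 1676)) 
  (sy 1155637))))) (br (sy 1466577) (sy 1328243))) (br (br (br (br (br (br (br (br (br (br (br (br (lf 1524824) 
  (lf 1753731)) (br (lf 1513232) (lf 450786))) (br (br (lf 1525384) (lf 1401113)) (br (lf 1519777) (k4 1672))))
   (br (br (br (lf 1517152) (sy 579124)) (sy 844844)) (br (br (sy 830508) (k4 1602)) (k4 1091)))) (br (br (br (br 
  (lf 1266370) (sy 1237131)) (br (lf 1266370) (sy 280245))) (br (br (lf 1467914) (sy 43246)) (br (lf 211274) 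
  (k4 1672)))) (br (br (br (lf 1524432) (sy 579124)) (sy 844844)) (br (br (sy 830508) (k4 1602)) (k4 1091))))) 
  (sy 1266713)) (br (br (br (br (br (br (lf 1524376) (sy 579635)) (br (lf 1237656) (sy 579635))) (br (br 
  (lf 1517768) (sy 579635)) (br (lf 1717576) (k4 1672)))) (sy 579824)) (sy 1256003)) (sy 1139243))) (br (br 
  (br (sy 1237145) (sy 1070706)) (sy 1070769)) (br (br (sy 1237145) (sy 1070706)) (sy 1070769)))) (br (br (br 
  (br (br (br (br (br (lf 1753808) (lf 1237656)) (sy 845866)) (br (br (lf 1267336) (lf 1688400)) (sy 845866))) 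
  (sy 845992)) (sy 1069978)) (sy 1266713)) (br (br (sy 1139544) (sy 1094709)) (sy 1139243))) (br (br (br 
  (sy 1215697) (k4 1604)) (sy 1070769)) (br (br (sy 1139544) (k4 1604)) (sy 1070769))))) (br (br (br (br (br 
  (sy 1266713) (sy 1266713)) (sy 1140265)) (sy 1140328)) (br (br (sy 1256129) (k4 1668)) (sy 1140328))) (br 
  (br (br (sy 1140552) (sy 1140265)) (k4 1676)) (sy 1155637)))) (sy 1444954)) (br (sy 1445017) (k4 1093)))) 
  (sy 1525265)) (k4 3403)) (br (sy 1751120) (k4 3403)))) (br (br (br (br (br (br (br (br (br (br (br (br (br (br (br (br 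
  (br (lf 1725136) (lf 1725080)) (br (lf 1627920) (lf 1620290))) (br (br (lf 1726032) (lf 1651552)) (br 
  (lf 1000258) (k4 1672)))) (br (br (br (lf 1718864) (lf 1615656)) (sy 844844)) (br (br (lf 994056) (k4 1602)) 
  (k4 1091)))) (br (br (br (br (lf 1252048) (lf 477848)) (br (lf 477890) (sy 280245))) (br (br (lf 1258306) 
  (lf 419048)) (br (lf 1717058) (k4 1672)))) (br (br (br (lf 1624784) (sy 329525)) (sy 844844)) (br (br 
  (lf 1096872) (k4 1602)) (k4 1091))))) (br (br (br (br (br (lf 1725080) (lf 1714776)) (br (lf 1726032) 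
  (lf 420560))) (br (br (lf 1256136) (sy 542325)) (br (lf 1174145) (k4 1672)))) (br (br (br (lf 1250648) 
  (lf 1092952)) (sy 844844)) (br (br (lf 943432) (k4 1602)) (k4 1091)))) (sy 1266755))) (sy 1266776)) (br (br 
  (br (br (br (br (br (lf 1260112) (lf 1718850)) (br (lf 1000258) (lf 1717058))) (br (br (lf 1002120) (lf 1172584)
  ) (sy 803957))) (br (br (br (lf 1688400) (lf 942760)) (sy 844844)) (br (sy 830508) (k4 1091)))) (sy 1102234))
   (br (sy 1139033) (sy 1062005))) (sy 1266776))) (br (br (br (br (br (br (br (br (lf 1267280) (sy 1237656)) 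
  (sy 845866)) (br (br (lf 1718864) (lf 1258320)) (sy 845866))) (sy 845992)) (sy 1103410)) (br (sy 1237656) 
  (sy 1103410))) (sy 1103536)) (br (br (br (sy 1219792) (k4 1604)) (br (sy 1219792) (k4 1604))) (sy 1103536))))
   (br (br (br (br (br (sy 1266776) (sy 1266776)) (sy 1140265)) (sy 1140328)) (br (br (sy 1256136) (k4 1668)) 
  (sy 1140328))) (br (br (br (sy 1256136) (sy 1140265)) (k4 1676)) (sy 1155637)))) (br (br (br (br (br (br (br (br 
  (br (br (lf 1743056) (lf 481488)) (br (lf 452802) (sy 284340))) (br (br (lf 1525314) (lf 451843)) (br 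
  (lf 1004290) (k4 1672)))) (br (br (br (lf 481488) (sy 329588)) (sy 844844)) (br (br (lf 1359008) (k4 1602)) 
  (k4 1091)))) (k4 2817)) (br (br (br (br (br (lf 1266202) (lf 1624595)) (br (lf 1742874) (sy 284340))) (br (br 
  (lf 1754641) (sy 542325)) (br (lf 452354) (k4 1672)))) (br (br (br (lf 1251992) (sy 329588)) (sy 844844)) (br 
  (br (lf 1751176) (k4 1602)) (k4 1091)))) (k4 2817))) (sy 1266776)) (br (br (br (br (br (br (br (lf 1237698) 
  (lf 1753626)) (br (sy 822570) (sy 284340))) (br (br (lf 1227786) (lf 1509466)) (sy 803957))) (br (br (br 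
  (lf 1154384) (sy 329588)) (sy 844844)) (br (sy 830508) (k4 1091)))) (k4 2817)) (br (sy 1139033) (k4 2817))) 
  (sy 1266776))) (br (br (br (br (sy 1237656) (k4 2817)) (br (sy 1237656) (k4 2817))) (sy 1103536)) (br (br (br 
  (sy 1219792) (k4 1604)) (br (sy 1219792) (k4 1604))) (sy 1103536)))) (br (br (br (br (br (sy 1266776) (k4 2817)
  ) (sy 1140265)) (sy 1140328)) (br (br (sy 1256136) (k4 1668)) (sy 1140328))) (br (br (br (sy 1256136) 
  (sy 1140265)) (k4 1676)) (sy 1155637))))) (br (br (br (br (br (br (br (br (br (br (br (lf 1754200) (lf 1747032)) 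
  (br (lf 1525328) (lf 1369312))) (br (br (lf 1525384) (sy 546420)) (br (lf 1520897) (k4 1672)))) (br (br (br 
  (lf 1513680) (lf 1369312)) (sy 844844)) (br (br (lf 1004808) (k4 1602)) (k4 1091)))) (br (br (br (br 
  (lf 1753731) (lf 1237523)) (br (lf 1628186) (sy 280245))) (br (br (lf 1468033) (sy 546420)) (br (lf 419370) 
  (k4 1672)))) (br (br (br (lf 1628368) (sy 329525)) (sy 844844)) (br (br (lf 1718864) (k4 1602)) (k4 1091))))) 
  (br (br (br (br (br (lf 1754179) (sy 546931)) (br (lf 1524243) (sy 546931))) (sy 547057)) (br (br (br (lf 714952)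
   (sy 546931)) (sy 844844)) (sy 547057))) (sy 1266755))) (sy 1266776)) (br (br (br (br (br (br (br (lf 1468033) 
  (lf 1467403)) (br (lf 1170442) (lf 985866))) (br (br (lf 1227793) (sy 546420)) (sy 803957))) (br (br (br 
  (lf 1260168) (lf 1753808)) (sy 844844)) (br (sy 830508) (k4 1091)))) (sy 1102234)) (br (sy 1139033) 
  (sy 1062005))) (sy 1266776))) (br (br (br (br (br (br (br (br (lf 1267280) (sy 1237656)) (sy 845866)) (br (br 
  (lf 1726032) (sy 546420)) (sy 845866))) (sy 845992)) (sy 1103410)) (br (sy 1237656) (sy 1103410))) 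
  (sy 1103536)) (br (br (br (sy 1219792) (k4 1604)) (br (sy 1219792) (k4 1604))) (sy 1103536)))) (br (br (br (br 
  (br (sy 1266776) (sy 1266776)) (sy 1140265)) (sy 1140328)) (br (br (sy 1256136) (k4 1668)) (sy 1140328))) 
  (br (br (br (sy 1256136) (sy 1140265)) (k4 1676)) (sy 1155637)))) (sy 1448986))) (br (br (br (br (br (br (br (br 
  (br (br (br (br (lf 1743056) (lf 1512728)) (br (lf 1513232) (sy 272244))) (br (br (lf 1521800) (lf 580832)) (br 
  (lf 452368) (k4 1672)))) (br (br (br (lf 1369872) (sy 579124)) (sy 844844)) (br (br (lf 452256) (k4 1602)) 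
  (k4 1091)))) (sy 1467088)) (br (br (br (br (br (lf 1467480) (lf 1645315)) (br (lf 1237656) (sy 272244))) (br 
  (br (lf 714952) (sy 542325)) (br (lf 1525328) (k4 1672)))) (br (br (br (lf 1513624) (sy 579124)) (sy 844844)) 
  (br (br (sy 538741) (k4 1602)) (k4 1091)))) (sy 1266755))) (k4 2833)) (br (br (br (br (br (br (br (lf 1754704) 
  (lf 1524432)) (br (lf 924994) (sy 272244))) (br (br (lf 944776) (lf 1513624)) (sy 803957))) (br (br (br 
  (lf 1743056) (sy 579124)) (sy 844844)) (br (sy 830508) (k4 1091)))) (sy 1102234)) (br (sy 1139033) 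
  (sy 1062005))) (k4 2833))) (sy 1467088)) (br (br (br (br (br (br (br (br (br (lf 1467592) (sy 1266776)) 
  (sy 1467088)) (br (br (lf 1726088) (sy 624757)) (sy 822444))) (br (br (br (lf 1390984) (sy 579124)) 
  (sy 844844)) (sy 868917))) (sy 1266776)) (sy 1140265)) (k4 2833)) (br (br (sy 1256136) (k4 1668)) (k4 2833))
  ) (sy 1467088))) (sy 1360947)) (br (sy 1449112) (k4 1093)))) (br (br (br (br (br (br (br (br (br (br (br (br (br 
  (lf 1521744) (lf 1521744)) (sy 1004066)) (br (sy 1521674) (sy 808052))) (br (br (sy 1521674) (sy 844844)) 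
  (br (sy 989828) (k4 1091)))) (br (br (br (br (lf 1467074) (lf 1742874)) (sy 1004066)) (br (sy 1521674) 
  (sy 808052))) (br (br (br (lf 1154384) (sy 329525)) (sy 844844)) (br (sy 989828) (k4 1091))))) (br (br (br (br 
  (br (lf 1267210) (lf 1466458)) (sy 1004066)) (br (br (lf 944769) (sy 542325)) (sy 808052))) (br (br (br 
  (lf 1002120) (lf 1751176)) (sy 844844)) (br (sy 989828) (k4 1091)))) (sy 1266755))) (sy 1266776)) 
  (sy 1521674)) (br (br (br (br (br (br (br (br (lf 1521744) (lf 1521744)) (sy 845866)) (br (sy 1004066) 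
  (sy 845866))) (sy 845992)) (sy 1103410)) (br (sy 1237656) (sy 1103410))) (sy 1103536)) (sy 1521674))) (br 
  (br (br (br (br (br (br (br (br (lf 977032) (lf 1002120)) (sy 1004066)) (br (sy 808353) (sy 808052))) (br (br 
  (sy 845152) (sy 844844)) (sy 868917))) (sy 1266776)) (sy 1140265)) (sy 1140328)) (br (br (sy 1256136) 
  (k4 1668)) (sy 1140328))) (br (br (br (sy 1256136) (sy 1140265)) (k4 1676)) (sy 1155637)))) (sy 1525314)) 
  (br (sy 1433873) (sy 1324148))) (br (br (sy 1467088) (sy 1360947)) (br (sy 1467088) (k4 1093))))) (k4 3403)) 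
  (br (br (br (br (br (br (br (br (br (br (br (br (br (br (br (lf 1525384) (lf 1525384)) (sy 1751120)) (sy 1521800)) 
  (sy 975968)) (sy 1525328)) (br (br (br (br (br (lf 1467592) (lf 714952)) (br (lf 1751176) (lf 1751176))) (br 
  (br (lf 929089) (sy 542325)) (sy 975940))) (sy 975968)) (sy 1266755))) (sy 1266776)) (br (br (br (br (br (br 
  (br (lf 944776) (lf 944776)) (sy 844130)) (sy 1521800)) (sy 975968)) (sy 1102234)) (br (sy 1139033) 
  (sy 1062005))) (sy 1266776))) (sy 1525328)) (br (br (br (br (br (br (br (br (br (lf 1525384) (lf 944776)) 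
  (sy 975968)) (sy 874545)) (sy 874608)) (sy 1266776)) (sy 1140265)) (sy 1140328)) (br (br (sy 1256136) 
  (k4 1668)) (sy 1140328))) (br (br (br (sy 1256136) (sy 1140265)) (k4 1676)) (sy 1155637)))) (sy 1525328)) 
  (sy 1521800)) (sy 1521800)) (sy 1434657)) (k4 3403))) (sy 1466906))) (k4 3412)) (k4 3357)) (sy 1751120))

theorem t4_ok : check RT t4 21 12424 = true := by decide +kernel

def t5 : Cert :=
  (br (br (br (br (br (br (br (br (br (br (br (br (br (br (br (br (br (br (br (br (br (lf 1653512) (sy 1725633)) (br 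
  (lf 1688617) (lf 1651244))) (sy 1725633)) (br (br (br (lf 1653064) (lf 1644293)) (sy 844844)) (br (br 
  (lf 1653512) (k4 1602)) (k4 1091)))) (sy 1725633)) (k4 3330)) (br (sy 1725633) (k4 3330))) (br (br 
  (sy 1725633) (k4 3330)) (br (sy 1725633) (k4 3330)))) (br (br (br (sy 1725633) (k4 3330)) (br (sy 1725633) 
  (k4 3330))) (br (br (sy 1725633) (k4 3330)) (br (sy 1725633) (k4 3330))))) (sy 1725633)) (br (br (br (br (br (br 
  (br (br (br (br (lf 1745436) (lf 1642844)) (br (lf 1594068) (sy 284340))) (br (br (lf 1660449) (sy 550508)) (br 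
  (lf 1586284) (k4 1672)))) (br (br (br (lf 1742496) (lf 1616412)) (sy 844844)) (br (br (lf 1679468) (k4 1602)) 
  (k4 1091)))) (br (br (br (br (lf 1579354) (sy 284851)) (sy 284914)) (sy 1725633)) (br (br (br (lf 1618260) 
  (sy 284851)) (sy 284914)) (br (br (lf 1651244) (k4 1602)) (k4 1091))))) (k4 3330)) (br (sy 1725633) (k4 3330)
  )) (br (br (sy 1725633) (k4 3330)) (br (sy 1725633) (k4 3330)))) (br (br (br (sy 1725633) (k4 3330)) (br 
  (sy 1725633) (k4 3330))) (br (br (sy 1725633) (k4 3330)) (br (sy 1725633) (k4 3330))))) (sy 1725633))) (br 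
  (br (br (br (br (br (br (br (br (br (br (lf 1745121) (sy 551523)) (br (lf 1659084) (sy 551523))) (sy 551649)) (br 
  (br (br (lf 1653505) (sy 551523)) (sy 844844)) (sy 551649))) (br (br (br (br (lf 1738009) (sy 551523)) (br 
  (lf 1578213) (sy 551523))) (sy 551649)) (br (br (br (lf 1640037) (sy 551523)) (sy 844844)) (sy 551649)))) 
  (k4 3330)) (br (sy 1725633) (k4 3330))) (br (br (sy 1725633) (k4 3330)) (br (sy 1725633) (k4 3330)))) (br (br 
  (br (br (br (br (br (br (lf 1754312) (sy 551523)) (sy 845866)) (sy 551649)) (sy 845992)) (sy 1725633)) 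
  (k4 3330)) (br (sy 1725633) (k4 3330))) (br (br (sy 1725633) (k4 3330)) (br (sy 1725633) (k4 3330))))) 
  (sy 1725633)) (br (br (br (br (br (br (br (br (br (br (lf 1738009) (k4 2696)) (br (lf 1738380) (k4 2696))) 
  (sy 551649)) (br (br (br (lf 1746500) (k4 2696)) (sy 844844)) (sy 551649))) (br (br (br (br (lf 1738835) 
  (k4 2696)) (sy 284914)) (sy 551649)) (br (br (br (lf 1614172) (k4 2696)) (sy 284914)) (sy 551649)))) 
  (k4 3330)) (br (sy 1725633) (k4 3330))) (br (br (sy 1725633) (k4 3330)) (br (sy 1725633) (k4 3330)))) (br (br 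
  (br (br (br (br (br (br (lf 1738380) (k4 2696)) (sy 845866)) (sy 551649)) (sy 845992)) (br (br (br (br 
  (lf 1724506) (k4 2696)) (k4 2241)) (sy 551649)) (sy 845992))) (k4 3330)) (br (sy 1725633) (k4 3330))) (br 
  (br (sy 1725633) (k4 3330)) (br (sy 1725633) (k4 3330))))) (sy 1725633)))) (br (br (br (br (br (br (br (br (br (br 
  (br (br (lf 1747144) (lf 1645336)) (br (lf 1749664) (lf 1615404))) (br (br (lf 1653512) (sy 550508)) (br 
  (lf 1651020) (k4 1672)))) (br (br (br (lf 1651552) (sy 579124)) (sy 844844)) (br (br (sy 623532) (k4 1602)) 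
  (k4 1091)))) (br (br (br (br (lf 1616664) (lf 1644587)) (br (lf 1618260) (sy 280245))) (br (br (lf 1640793) 
  (sy 550508)) (br (lf 1640037) (k4 1672)))) (br (br (br (lf 1645336) (sy 579124)) (sy 844844)) (br (br 
  (sy 623532) (k4 1602)) (k4 1091))))) (k4 3330)) (br (sy 1725633) (k4 3330))) (br (br (br (br (br (br (br 
  (lf 1653512) (sy 1725633)) (br (lf 1675618) (lf 1606892))) (sy 1725633)) (br (br (br (lf 1653344) (sy 579124)
  ) (sy 844844)) (br (br (sy 830508) (k4 1602)) (k4 1091)))) (sy 1725633)) (k4 3330)) (br (sy 1725633) 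
  (k4 3330)))) (br (br (br (br (br (br (br (br (lf 1676640) (lf 1615656)) (sy 845866)) (br (br (lf 1681736) 
  (sy 550508)) (sy 845866))) (sy 845992)) (br (br (br (br (lf 1624728) (sy 279790)) (k4 2241)) (br (br 
  (lf 1717317) (sy 550508)) (k4 2241))) (sy 845992))) (k4 3330)) (br (sy 1725633) (k4 3330))) (br (br 
  (sy 1725633) (k4 3330)) (br (sy 1725633) (k4 3330))))) (sy 1725633)) (br (br (br (br (br (br (br (br (br (br 
  (lf 1742048) (k4 2689)) (br (lf 1741012) (k4 2689))) (br (br (lf 1659588) (k4 2689)) (br (lf 1607508) 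
  (k4 1672)))) (br (br (br (lf 1616608) (k4 2689)) (sy 844844)) (br (br (sy 623532) (k4 1602)) (k4 1091)))) (br 
  (br (br (br (lf 1741075) (k4 2689)) (sy 284914)) (br (br (lf 1616419) (k4 2689)) (sy 284914))) (br (br (br 
  (sy 349748) (k4 2689)) (sy 284914)) (br (br (sy 623532) (k4 1602)) (k4 1091))))) (k4 3330)) (br (sy 1725633) 
  (k4 3330))) (br (br (br (br (br (br (br (lf 1742608) (k4 2689)) (br (lf 1594082) (k4 2689))) (br (br (lf 1653260) 
  (k4 2689)) (sy 803957))) (br (br (br (lf 1692320) (k4 2689)) (sy 844844)) (br (br (sy 830508) (k4 1602)) 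
  (k4 1091)))) (br (br (br (br (lf 1579354) (k4 2689)) (k4 2248)) (sy 1725633)) (br (br (br (sy 349748) (k4 2689))
   (k4 2248)) (br (br (sy 830508) (k4 1602)) (k4 1091))))) (k4 3330)) (br (sy 1725633) (k4 3330)))) (br (br (br 
  (br (br (br (br (br (lf 1628368) (k4 2689)) (sy 845866)) (br (br (lf 1692740) (k4 2689)) (sy 845866))) 
  (sy 845992)) (br (br (br (br (lf 1624595) (k4 2689)) (k4 2241)) (br (br (lf 481488) (k4 2689)) (k4 2241))) 
  (sy 845992))) (k4 3330)) (br (sy 1725633) (k4 3330))) (br (br (sy 1725633) (k4 3330)) (br (sy 1725633) 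
  (k4 3330))))) (sy 1725633))) (br (br (br (br (br (br (br (br (br (br (br (lf 1660428) (k4 2626)) (br (lf 1745100) 
  (k4 2626))) (sy 551649)) (br (br (br (lf 743008) (k4 2626)) (sy 844844)) (sy 551649))) (br (br (br (br 
  (lf 1744995) (k4 2626)) (br (lf 1627164) (k4 2626))) (sy 551649)) (br (br (br (sy 689052) (k4 2626)) 
  (sy 844844)) (sy 551649)))) (k4 3330)) (br (sy 1725633) (k4 3330))) (br (br (br (br (br (br (br (lf 1745177) 
  (k4 2626)) (br (lf 1691788) (k4 2626))) (sy 551649)) (br (br (br (lf 1660449) (k4 2626)) (sy 844844)) 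
  (sy 551649))) (br (br (br (br (lf 1725465) (k4 2626)) (k4 2248)) (sy 551649)) (br (br (br (lf 743449) (k4 2626))
   (k4 2248)) (sy 551649)))) (k4 3330)) (br (sy 1725633) (k4 3330)))) (br (br (br (br (br (br (br (br (lf 1747144) 
  (k4 2626)) (sy 845866)) (sy 551649)) (sy 845992)) (br (br (br (br (lf 1710744) (k4 2626)) (k4 2241)) 
  (sy 551649)) (sy 845992))) (k4 3330)) (br (sy 1725633) (k4 3330))) (br (br (br (br (br (br (br (lf 1754312) 
  (k4 2626)) (k4 2115)) (sy 551649)) (sy 845992)) (k4 1604)) (k4 3330)) (br (sy 1725633) (k4 3330))))) 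
  (sy 1725633)) (k4 1093)))) (br (br (br (br (br (br (br (br (br (br (br (br (br (lf 1692929) (lf 1691809)) 
  (sy 1004066)) (br (br (lf 1692705) (sy 550508)) (sy 808052))) (br (br (br (lf 1692705) (lf 1653316)) 
  (sy 844844)) (br (sy 989828) (k4 1091)))) (br (br (br (br (lf 1687889) (lf 1581804)) (sy 1004066)) (br (br 
  (lf 1587369) (sy 550508)) (sy 808052))) (br (br (br (lf 1692292) (lf 1614053)) (sy 844844)) (br (sy 989828) 
  (k4 1091))))) (k4 3330)) (br (br (br (br (br (br (lf 1754312) (sy 680491)) (sy 1004066)) (sy 1725633)) (br (br 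
  (br (lf 1652840) (sy 575029)) (sy 844844)) (br (sy 989828) (k4 1091)))) (sy 1725633)) (k4 3330))) (br (br (br 
  (br (br (br (br (lf 1674001) (lf 1586473)) (sy 809074)) (sy 809137)) (br (br (sy 974946) (sy 809074)) 
  (sy 809137))) (br (br (br (br (lf 1716561) (lf 214634)) (k4 2248)) (sy 809137)) (br (br (sy 974946) (k4 2248)) 
  (sy 809137)))) (k4 3330)) (br (sy 1725633) (k4 3330)))) (br (br (br (br (br (br (br (br (lf 1693762) (lf 1692180)
  ) (sy 845866)) (br (sy 1004066) (sy 845866))) (sy 845992)) (br (br (br (br (lf 1717058) (lf 1579221)) 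
  (k4 2241)) (br (sy 1004066) (k4 2241))) (sy 845992))) (k4 3330)) (br (sy 1725633) (k4 3330))) (br (br (br (br 
  (br (br (sy 989954) (k4 2115)) (sy 809137)) (sy 845992)) (k4 1604)) (k4 3330)) (br (sy 1725633) (k4 3330)))))
   (sy 1725633)) (br (br (br (br (br (br (br (br (br (br (lf 1738338) (lf 1594012)) (k4 2760)) (br (br (lf 1673889) 
  (sy 550508)) (k4 2760))) (br (br (br (lf 1692684) (lf 1745436)) (k4 2760)) (br (sy 989828) (k4 1091)))) (br 
  (br (br (br (lf 1737498) (sy 284851)) (k4 2760)) (br (br (sy 119924) (sy 284851)) (k4 2760))) (br (br (br 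
  (lf 1587810) (sy 284851)) (k4 2760)) (br (sy 989828) (k4 1091))))) (k4 3330)) (br (br (br (br (br (br 
  (lf 1751057) (sy 680491)) (k4 2760)) (br (br (lf 1640268) (sy 550508)) (k4 2760))) (br (br (br (lf 1746528) 
  (sy 575029)) (k4 2760)) (br (sy 989828) (k4 1091)))) (br (br (br (br (lf 1579354) (k4 2177)) (k4 2760)) 
  (sy 1725633)) (br (br (br (sy 345653) (k4 2177)) (k4 2760)) (br (sy 989828) (k4 1091))))) (k4 3330))) (br (br 
  (br (br (br (br (br (lf 1691921) (lf 218785)) (k4 2760)) (sy 809137)) (br (br (sy 974946) (k4 2760)) (sy 809137)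
  )) (br (br (br (sy 120946) (k4 2248)) (sy 809137)) (br (br (sy 120946) (k4 2248)) (sy 809137)))) (k4 3330)) 
  (br (sy 1725633) (k4 3330)))) (br (br (br (br (br (br (br (br (lf 1749258) (lf 1673826)) (k4 2760)) (br 
  (sy 1004066) (k4 2760))) (sy 845992)) (br (br (br (br (lf 1608418) (sy 284851)) (k4 2241)) (br (sy 1004066) 
  (k4 2241))) (sy 845992))) (k4 3330)) (br (sy 1725633) (k4 3330))) (br (br (br (br (br (br (sy 989954) (k4 2115))
   (sy 809137)) (sy 845992)) (k4 1604)) (k4 3330)) (br (sy 1725633) (k4 3330))))) (sy 1725633))) (br (br (br 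
  (br (br (br (br (br (br (br (br (lf 1746465) (sy 551523)) (sy 1004066)) (k4 2768)) (br (br (br (lf 1746444) 
  (sy 551523)) (sy 844844)) (k4 2768))) (br (br (br (br (lf 1595153) (sy 551523)) (sy 1004066)) (k4 2768)) (br 
  (br (br (lf 1659105) (sy 551523)) (sy 844844)) (k4 2768)))) (k4 3330)) (br (br (br (br (br (br (lf 1661121) 
  (sy 551523)) (sy 1004066)) (k4 2768)) (br (br (br (sy 737387) (sy 551523)) (sy 844844)) (k4 2768))) (br (br 
  (br (br (lf 1655129) (k4 2177)) (sy 1004066)) (k4 2768)) (br (br (br (sy 737387) (k4 2177)) (sy 844844)) 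
  (k4 2768)))) (k4 3330))) (br (br (br (br (br (br (br (lf 1674001) (sy 551523)) (sy 809074)) (k4 2768)) (br (br 
  (sy 974946) (sy 809074)) (k4 2768))) (br (br (br (br (sy 177457) (sy 551523)) (k4 2248)) (k4 2768)) (br (br 
  (sy 974946) (k4 2248)) (k4 2768)))) (k4 3330)) (br (sy 1725633) (k4 3330)))) (br (br (br (br (br (br (br (br 
  (lf 1750049) (sy 551523)) (sy 845866)) (k4 2768)) (sy 845992)) (br (br (br (br (lf 1592010) (sy 551523)) 
  (k4 2241)) (k4 2768)) (sy 845992))) (k4 3330)) (br (br (br (br (br (br (lf 1653512) (sy 551523)) (sy 845866)) 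
  (k4 2768)) (k4 2257)) (sy 1094709)) (k4 3330))) (br (br (br (br (br (br (sy 989954) (k4 2115)) (k4 2768)) 
  (sy 845992)) (k4 1604)) (k4 3330)) (br (sy 1725633) (k4 3330))))) (sy 1725633)) (sy 1324148))) (br (br (br 
  (br (br (br (br (br (br (br (br (br (lf 1750280) (lf 1660484)) (sy 1004066)) (br (br (lf 1750049) (sy 550508)) 
  (sy 808052))) (br (br (br (lf 1746528) (sy 579124)) (sy 844844)) (br (sy 989828) (k4 1091)))) (br (br (br (br 
  (lf 1751169) (lf 1627164)) (sy 1004066)) (br (br (lf 1660449) (sy 550508)) (sy 808052))) (br (br (br 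
  (lf 1746528) (sy 579124)) (sy 844844)) (br (sy 989828) (k4 1091))))) (k4 3330)) (br (br (br (br (br (br 
  (lf 1659616) (sy 579635)) (sy 1004066)) (br (br (sy 680491) (sy 579635)) (sy 808052))) (sy 579824)) (br (br 
  (br (br (lf 1628291) (k4 2177)) (sy 1004066)) (br (br (sy 680491) (k4 2177)) (sy 808052))) (sy 579824))) 
  (k4 3330))) (br (br (br (br (br (br (br (lf 1749153) (lf 1659084)) (sy 809074)) (sy 809137)) (br (br (sy 974946) 
  (sy 809074)) (sy 809137))) (br (br (br (br (lf 1595601) (sy 50421)) (k4 2248)) (sy 809137)) (br (br (sy 974946)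
   (k4 2248)) (sy 809137)))) (k4 3330)) (br (br (br (br (br (br (lf 1754312) (sy 579635)) (sy 809074)) 
  (sy 809137)) (sy 579824)) (sy 1725633)) (k4 3330)))) (br (br (br (br (br (br (br (br (lf 1750280) (lf 1746500)) 
  (sy 845866)) (br (sy 1004066) (sy 845866))) (sy 845992)) (br (br (br (br (lf 1754704) (lf 476840)) (k4 2241)) 
  (br (sy 1004066) (k4 2241))) (sy 845992))) (k4 3330)) (br (br (br (br (br (br (lf 1680224) (sy 579635)) 
  (sy 845866)) (br (sy 1004066) (sy 845866))) (k4 2257)) (sy 1094709)) (k4 3330))) (br (br (br (br (br (br 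
  (sy 989954) (k4 2115)) (sy 809137)) (sy 845992)) (k4 1604)) (k4 3330)) (br (sy 1725633) (k4 3330))))) 
  (sy 1725633)) (br (br (br (br (br (br (br (br (br (sy 1412194) (k4 2760)) (br (sy 1323924) (k4 2760))) (br (br 
  (sy 1412194) (k4 2760)) (br (sy 989828) (k4 1091)))) (br (br (br (sy 1412194) (k4 2760)) (br (sy 1323924) 
  (k4 2760))) (br (br (sy 1412194) (k4 2760)) (br (sy 989828) (k4 1091))))) (k4 3330)) (br (br (br (br (br 
  (sy 1412194) (k4 2760)) (br (sy 1323924) (k4 2760))) (sy 579824)) (br (br (br (sy 1412194) (k4 2760)) (br 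
  (sy 1323924) (k4 2760))) (sy 579824))) (k4 3330))) (br (br (br (br (br (br (sy 1412194) (k4 2760)) (sy 809137))
   (br (br (sy 974946) (k4 2760)) (sy 809137))) (br (br (br (sy 120946) (k4 2248)) (sy 809137)) (br (br 
  (sy 120946) (k4 2248)) (sy 809137)))) (k4 3330)) (br (br (br (br (br (sy 1412194) (k4 2760)) (sy 809137)) 
  (sy 579824)) (br (br (br (sy 120946) (k4 2248)) (sy 809137)) (sy 579824))) (k4 3330)))) (br (br (br (br (br (br 
  (br (sy 1412194) (k4 2760)) (br (sy 1004066) (k4 2760))) (sy 845992)) (br (br (br (sy 1412194) (k4 2241)) (br 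
  (sy 1004066) (k4 2241))) (sy 845992))) (k4 3330)) (br (br (br (br (br (sy 1412194) (k4 2760)) (br (sy 1004066) 
  (k4 2760))) (k4 2257)) (sy 1094709)) (k4 3330))) (br (br (br (br (br (br (sy 989954) (k4 2115)) (sy 809137)) 
  (sy 845992)) (k4 1604)) (k4 3330)) (br (sy 1725633) (k4 3330))))) (sy 1725633))) (br (br (br (br (br (br (br (br 
  (br (br (sy 1324428) (sy 1004066)) (k4 2768)) (br (br (sy 1324428) (sy 844844)) (k4 2768))) (br (br (br 
  (sy 1324428) (sy 1004066)) (k4 2768)) (br (br (sy 1324428) (sy 844844)) (k4 2768)))) (k4 3330)) (br (br (br 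
  (br (br (sy 1324428) (sy 1004066)) (k4 2768)) (sy 579824)) (br (br (br (sy 1324428) (sy 1004066)) (k4 2768)) 
  (sy 579824))) (k4 3330))) (br (br (br (br (br (sy 1412257) (k4 2768)) (br (sy 1412257) (k4 2768))) (br (br 
  (sy 1412257) (k4 2768)) (br (sy 1412257) (k4 2768)))) (k4 3330)) (br (br (br (br (sy 1412257) (k4 2768)) 
  (sy 579824)) (br (br (sy 1412257) (k4 2768)) (sy 579824))) (k4 3330)))) (br (br (br (br (br (br (br (sy 1324428) 
  (sy 845866)) (k4 2768)) (sy 845992)) (br (br (br (sy 1324428) (k4 2241)) (k4 2768)) (sy 845992))) (k4 3330)) 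
  (br (br (br (br (br (sy 1324428) (sy 845866)) (k4 2768)) (k4 2257)) (sy 1094709)) (k4 3330))) (br (br (br (br (br 
  (sy 1412257) (k4 2768)) (sy 845992)) (k4 1604)) (k4 3330)) (br (br (br (sy 1121512) (k4 2257)) (k4 1604)) 
  (k4 3330))))) (sy 1725633)) (k4 1093))))) (k4 3403)) (br (br (br (br (br (br (br (br (br (br (br (br (br (br (br 
  (lf 1692929) (lf 1653505)) (br (lf 1692768) (lf 1653316))) (br (br (lf 1653281) (sy 550508)) (sy 975940))) 
  (sy 975968)) (br (br (br (br (lf 1688904) (lf 1660512)) (br (lf 1691788) (sy 280245))) (br (br (lf 1652777) 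
  (sy 550508)) (sy 975940))) (sy 975968))) (k4 3330)) (br (br (br (br (br (br (lf 1661128) (sy 680491)) (br 
  (lf 1652840) (sy 680491))) (br (br (lf 735560) (sy 550508)) (sy 975940))) (sy 975968)) (br (br (br (br 
  (lf 1714888) (k4 2177)) (br (lf 1680168) (k4 2177))) (br (br (lf 735273) (k4 2177)) (sy 975940))) (sy 975968)
  )) (k4 3330))) (br (br (br (br (br (br (br (lf 1690241) (lf 1681449)) (br (lf 1000769) (lf 984165))) (br (br 
  (sy 872865) (sy 550508)) (sy 803957))) (sy 975968)) (br (br (br (br (lf 1688617) (lf 1655017)) (k4 2248)) (br 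
  (br (sy 872865) (sy 550508)) (k4 2248))) (sy 975968))) (k4 3330)) (br (br (br (br (br (br (lf 1656648) 
  (sy 680491)) (br (lf 1681449) (sy 680491))) (br (br (sy 872865) (sy 550508)) (sy 803957))) (sy 975968)) (br 
  (br (br (br (sy 1121323) (k4 2177)) (k4 2248)) (br (br (sy 872865) (k4 2177)) (k4 2248))) (sy 975968))) 
  (k4 3330)))) (br (br (br (br (br (br (br (br (lf 1688904) (lf 1652840)) (sy 845866)) (br (sy 1004192) (sy 845866)
  )) (sy 845992)) (br (br (br (br (lf 1690248) (lf 1712837)) (k4 2241)) (br (sy 1004192) (k4 2241))) (sy 845992)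
  )) (k4 3330)) (br (br (br (br (br (br (lf 1652840) (sy 680491)) (sy 845866)) (br (sy 1004192) (sy 845866))) 
  (k4 2257)) (sy 1094709)) (k4 3330))) (br (br (br (br (br (br (sy 989968) (k4 2115)) (br (sy 989968) (k4 2115))) 
  (sy 845992)) (k4 1604)) (k4 3330)) (br (br (br (br (br (sy 989968) (k4 2115)) (br (sy 989968) (k4 2115))) 
  (k4 2257)) (k4 1604)) (k4 3330))))) (br (br (br (br (br (br (br (br (br (lf 1653512) (sy 681513)) (sy 975968)) 
  (sy 874545)) (sy 874608)) (sy 1725633)) (k4 3330)) (sy 1140328)) (br (br (sy 1725633) (k4 1668)) 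
  (sy 1140328))) (br (br (br (sy 1725633) (k4 3330)) (k4 1676)) (sy 1155637)))) (br (br (br (br (br (br (br (br (br 
  (br (lf 1750280) (lf 1659420)) (br (lf 1691732) (sy 284340))) (br (br (lf 1692705) (sy 550508)) (sy 975940)))
   (sy 975968)) (br (br (br (br (lf 1749538) (sy 284851)) (sy 284914)) (br (br (lf 1746465) (sy 284851)) 
  (sy 284914))) (sy 975968))) (k4 3330)) (br (br (br (br (br (br (lf 1659672) (sy 680491)) (br (lf 1746528) 
  (sy 284340))) (br (br (lf 1653316) (sy 550508)) (sy 975940))) (sy 975968)) (br (br (br (br (lf 1616664) 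
  (k4 2177)) (sy 284914)) (br (br (lf 737373) (k4 2177)) (sy 284914))) (sy 975968))) (k4 3330))) (br (br (br (br 
  (br (br (br (lf 1749265) (lf 1660428)) (br (lf 985698) (sy 284340))) (br (br (sy 872865) (sy 550508)) 
  (sy 803957))) (sy 975968)) (br (br (br (br (lf 1738954) (sy 284851)) (k4 2248)) (br (br (sy 872865) (sy 284851)
  ) (k4 2248))) (sy 975968))) (k4 3330)) (br (br (br (br (br (br (lf 1725640) (sy 680491)) (br (sy 844130) 
  (sy 284340))) (br (br (sy 872865) (sy 550508)) (sy 803957))) (sy 975968)) (br (br (br (br (lf 1725507) 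
  (k4 2177)) (k4 2248)) (br (br (sy 872865) (k4 2177)) (k4 2248))) (sy 975968))) (k4 3330)))) (br (br (br (br (br 
  (br (br (br (lf 1693776) (lf 1746500)) (sy 845866)) (br (sy 1004192) (sy 845866))) (sy 845992)) (br (br (br (br 
  (lf 1753808) (sy 284851)) (k4 2241)) (br (sy 1004192) (k4 2241))) (sy 845992))) (k4 3330)) (br (br (br (br (br 
  (br (lf 1628368) (sy 680491)) (sy 845866)) (br (sy 1004192) (sy 845866))) (k4 2257)) (sy 1094709)) (k4 3330)
  )) (br (br (br (br (br (br (sy 989968) (k4 2115)) (br (sy 989968) (k4 2115))) (sy 845992)) (k4 1604)) (k4 3330))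
   (br (br (br (br (br (sy 989968) (k4 2115)) (br (sy 989968) (k4 2115))) (k4 2257)) (k4 1604)) (k4 3330))))) (br 
  (br (br (br (br (br (br (br (br (lf 1692929) (sy 681513)) (sy 975968)) (sy 874545)) (sy 874608)) (br (br (br (br 
  (lf 1754312) (sy 284851)) (sy 284914)) (sy 874545)) (sy 874608))) (k4 3330)) (sy 1140328)) (br (br 
  (sy 1725633) (k4 1668)) (sy 1140328))) (br (br (br (sy 1725633) (k4 3330)) (k4 1676)) (sy 1155637))))) (br 
  (br (br (br (br (br (br (br (br (br (br (lf 1746465) (sy 551523)) (br (lf 1692684) (sy 551523))) (k4 2754)) 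
  (sy 975968)) (br (br (br (br (lf 1661121) (sy 551523)) (br (lf 1660449) (sy 551523))) (k4 2754)) (sy 975968)))
   (k4 3330)) (br (br (br (br (br (br (sy 723275) (sy 551523)) (br (sy 723275) (sy 551523))) (k4 2754)) 
  (sy 975968)) (br (br (br (br (sy 723275) (k4 2177)) (br (sy 723275) (k4 2177))) (k4 2754)) (sy 975968))) 
  (k4 3330))) (br (br (br (br (br (br (br (lf 1681953) (sy 551523)) (br (lf 1692705) (sy 551523))) (k4 2754)) 
  (sy 975968)) (br (br (br (br (lf 1590617) (sy 551523)) (k4 2248)) (k4 2754)) (sy 975968))) (k4 3330)) (br (br 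
  (br (br (br (br (sy 723275) (sy 551523)) (br (sy 723275) (sy 551523))) (k4 2754)) (sy 975968)) (br (br (br (br 
  (sy 1121323) (k4 2177)) (k4 2248)) (k4 2754)) (sy 975968))) (k4 3330)))) (br (br (br (br (br (br (br (br 
  (lf 1653505) (sy 551523)) (sy 845866)) (k4 2754)) (sy 845992)) (br (br (br (br (lf 1726088) (sy 551523)) 
  (k4 2241)) (k4 2754)) (sy 845992))) (k4 3330)) (br (br (br (br (br (br (sy 723275) (sy 551523)) (sy 845866)) 
  (k4 2754)) (k4 2257)) (sy 1094709)) (k4 3330))) (br (br (br (br (br (br (sy 989968) (k4 2115)) (k4 2754)) 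
  (sy 845992)) (k4 1604)) (k4 3330)) (br (br (br (br (br (sy 989968) (k4 2115)) (k4 2754)) (k4 2257)) (k4 1604)) 
  (k4 3330))))) (br (br (br (br (br (br (br (sy 671041) (k4 2754)) (sy 874608)) (br (br (sy 671041) (k4 2754)) 
  (sy 874608))) (k4 3330)) (sy 1140328)) (br (br (sy 1725633) (k4 1668)) (sy 1140328))) (br (br (br (br (br (br 
  (sy 961800) (k4 2754)) (k4 2187)) (sy 1725633)) (k4 3330)) (k4 1676)) (sy 1155637)))) (br (br (br (br (br (br 
  (br (br (br (br (lf 1746465) (k4 2696)) (br (lf 1517068) (k4 2696))) (k4 2754)) (sy 975968)) (br (br (br (br 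
  (lf 1508451) (k4 2696)) (sy 284914)) (k4 2754)) (sy 975968))) (k4 3330)) (br (br (br (br (br (br (lf 742112) 
  (k4 2696)) (br (sy 1388940) (k4 2696))) (k4 2754)) (sy 975968)) (br (br (br (br (sy 723275) (k4 2177)) 
  (sy 284914)) (k4 2754)) (sy 975968))) (k4 3330))) (br (br (br (br (br (br (br (lf 1517089) (k4 2696)) (br 
  (sy 169204) (k4 2696))) (k4 2754)) (sy 975968)) (br (br (br (br (lf 1594593) (k4 2696)) (k4 2248)) (k4 2754)) 
  (sy 975968))) (k4 3330)) (br (br (br (br (br (br (lf 743169) (k4 2696)) (br (sy 169204) (k4 2696))) (k4 2754)) 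
  (sy 975968)) (br (br (br (br (sy 1121323) (k4 2177)) (k4 2248)) (k4 2754)) (sy 975968))) (k4 3330)))) (br (br 
  (br (br (br (br (br (br (lf 1746444) (k4 2696)) (sy 845866)) (k4 2754)) (sy 845992)) (br (br (br (br (lf 1749762) 
  (k4 2696)) (k4 2241)) (k4 2754)) (sy 845992))) (k4 3330)) (br (br (br (br (br (br (lf 1401624) (k4 2696)) 
  (sy 845866)) (k4 2754)) (k4 2257)) (sy 1094709)) (k4 3330))) (br (br (br (br (br (br (sy 989968) (k4 2115)) 
  (k4 2754)) (sy 845992)) (k4 1604)) (k4 3330)) (br (br (br (br (br (sy 989968) (k4 2115)) (k4 2754)) (k4 2257)) 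
  (k4 1604)) (k4 3330))))) (br (br (br (br (br (br (br (sy 671041) (k4 2754)) (sy 874608)) (br (br (sy 671041) 
  (k4 2754)) (sy 874608))) (k4 3330)) (sy 1140328)) (br (br (sy 1725633) (k4 1668)) (sy 1140328))) (br (br (br 
  (br (br (br (sy 961800) (k4 2754)) (k4 2187)) (br (sy 1129576) (k4 2187))) (k4 3330)) (k4 1676)) (sy 1155637))
  )))) (br (br (br (br (br (br (br (br (br (br (br (br (lf 1746696) (lf 742112)) (br (lf 1746528) (sy 560028))) (br 
  (br (lf 743169) (sy 550508)) (sy 975940))) (k4 2762)) (br (br (br (br (lf 1661016) (sy 531811)) (br 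
  (lf 1653344) (sy 280245))) (br (br (lf 735840) (sy 550508)) (sy 975940))) (k4 2762))) (k4 3330)) (br (br (br 
  (br (br (br (lf 1659672) (sy 579635)) (br (lf 1660512) (sy 579635))) (br (br (sy 576408) (sy 579635)) 
  (sy 975940))) (k4 2762)) (br (br (br (br (sy 662851) (k4 2177)) (br (sy 662851) (k4 2177))) (br (br (sy 576408) 
  (k4 2177)) (sy 975940))) (k4 2762))) (k4 3330))) (br (br (br (br (br (br (br (lf 1746696) (lf 1660512)) (br 
  (lf 1682177) (sy 560028))) (br (sy 961548) (sy 803957))) (k4 2762)) (br (br (br (br (lf 1713992) (sy 531811)) 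
  (k4 2248)) (br (sy 961548) (k4 2248))) (k4 2762))) (k4 3330)) (br (br (br (br (br (br (lf 1661128) (sy 579635)) 
  (br (lf 879200) (sy 579635))) (br (sy 961548) (sy 803957))) (k4 2762)) (br (br (br (br (sy 662851) (k4 2177)) 
  (k4 2248)) (br (sy 961548) (k4 2248))) (k4 2762))) (k4 3330)))) (br (br (br (br (br (br (br (br (lf 1660512) 
  (lf 1660512)) (sy 845866)) (br (sy 1004192) (sy 845866))) (k4 2762)) (br (br (br (br (lf 1624784) (sy 531811))
   (k4 2241)) (br (sy 1004192) (k4 2241))) (k4 2762))) (k4 3330)) (br (br (br (br (br (br (sy 576408) (sy 579635))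
   (sy 845866)) (br (sy 1004192) (sy 845866))) (k4 2257)) (sy 1094709)) (k4 3330))) (br (br (br (br (br (br 
  (sy 989968) (k4 2115)) (br (sy 989968) (k4 2115))) (k4 2762)) (k4 1604)) (k4 3330)) (br (br (br (sy 1121512) 
  (k4 2257)) (k4 1604)) (k4 3330))))) (br (br (br (br (br (br (br (br (br (lf 743176) (sy 641928)) (sy 975968)) 
  (sy 874545)) (k4 2762)) (br (br (br (br (lf 743176) (sy 641928)) (sy 975968)) (sy 874545)) (k4 2762))) 
  (k4 3330)) (sy 1140328)) (br (br (br (br (br (br (sy 961800) (sy 961800)) (k4 2179)) (k4 2762)) (sy 1725633)) 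
  (k4 1668)) (sy 1140328))) (br (br (br (br (br (br (sy 961800) (sy 874545)) (k4 2187)) (br (sy 1129576) (k4 2187)
  )) (k4 3330)) (k4 1676)) (sy 1155637)))) (br (br (br (br (br (br (br (br (br (br (lf 1516228) (k4 2689)) (br 
  (lf 1517124) (k4 2689))) (sy 1389444)) (k4 2762)) (br (br (br (br (lf 1516256) (k4 2689)) (sy 284914)) 
  (sy 1389444)) (k4 2762))) (k4 3330)) (br (br (br (br (br (br (lf 713496) (k4 2689)) (br (lf 437444) (k4 2689))) 
  (sy 1389444)) (k4 2762)) (br (br (br (br (sy 350259) (k4 2177)) (sy 284914)) (sy 1389444)) (k4 2762))) 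
  (k4 3330))) (br (br (br (br (br (br (br (lf 1746500) (k4 2689)) (br (lf 974932) (k4 2689))) (sy 1389444)) 
  (k4 2762)) (br (br (br (br (lf 1747137) (k4 2689)) (k4 2248)) (sy 1389444)) (k4 2762))) (k4 3330)) (br (br (br 
  (br (br (br (lf 1403080) (k4 2689)) (br (lf 975968) (k4 2689))) (sy 1389444)) (k4 2762)) (br (br (br (br 
  (sy 350259) (k4 2177)) (k4 2248)) (sy 1389444)) (k4 2762))) (k4 3330)))) (br (br (br (br (br (br (br (br 
  (lf 1517152) (k4 2689)) (sy 845866)) (sy 1389444)) (k4 2762)) (br (br (br (br (lf 1627808) (k4 2689)) 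
  (k4 2241)) (sy 1389444)) (k4 2762))) (k4 3330)) (br (br (br (br (br (br (sy 576408) (k4 2689)) (sy 845866)) 
  (sy 1389444)) (k4 2257)) (sy 1094709)) (k4 3330))) (br (br (br (br (br (br (br (lf 1005704) (k4 2689)) (k4 2115)
  ) (sy 1389444)) (k4 2762)) (k4 1604)) (k4 3330)) (br (br (br (sy 1121512) (k4 2257)) (k4 1604)) (k4 3330)))))
   (br (br (br (br (br (br (sy 1420384) (k4 2762)) (br (sy 1420384) (k4 2762))) (k4 3330)) (sy 1140328)) (br (br 
  (br (br (sy 1420384) (k4 2762)) (br (sy 1420384) (k4 2762))) (k4 1668)) (sy 1140328))) (br (br (br (br (br 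
  (sy 1420384) (k4 2187)) (br (sy 1420384) (k4 2187))) (k4 3330)) (k4 1676)) (sy 1155637))))) (sy 1389108))) 
  (sy 1434657)) (k4 3403))) (sy 1725633)) (br (br (br (br (br (br (br (br (br (br (br (br (br (br (br (br (br 
  (lf 1725640) (lf 1742979)) (br (lf 1717072) (lf 1607508))) (br (br (lf 1693825) (sy 550508)) (br (lf 1672020)
   (k4 1672)))) (br (br (br (lf 1693776) (lf 1616216)) (sy 844844)) (br (br (lf 1651552) (k4 1602)) (k4 1091))))
   (br (br (br (br (lf 1710800) (lf 1709379)) (br (lf 1623594) (sy 280245))) (br (br (lf 1725507) (sy 550508)) 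
  (br (lf 1708266) (k4 1672)))) (br (br (br (lf 1623720) (sy 329525)) (sy 844844)) (br (br (lf 1709736) (k4 1602)
  ) (k4 1091))))) (k4 3330)) (sy 1266776)) (br (br (br (br (br (br (br (lf 1726032) (lf 1725465)) (br (lf 1716554)
   (lf 1705578))) (br (br (lf 1688897) (sy 550508)) (sy 803957))) (br (br (br (lf 1690248) (lf 1688232)) 
  (sy 844844)) (br (br (lf 1681736) (k4 1602)) (k4 1091)))) (br (br (br (br (lf 1709890) (lf 1245853)) (k4 2248))
   (br (br (lf 1705613) (sy 550508)) (k4 2248))) (br (br (br (lf 1250858) (sy 329525)) (k4 2248)) (br (br 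
  (lf 1687693) (k4 1602)) (k4 1091))))) (k4 3330)) (sy 1266776))) (br (br (br (br (br (br (br (br (lf 1717072) 
  (lf 1623888)) (sy 845866)) (br (br (lf 1717072) (sy 550508)) (sy 845866))) (sy 845992)) (sy 1103410)) 
  (k4 3330)) (sy 1103536)) (br (br (br (br (br (br (br (lf 1718864) (lf 1258026)) (k4 2115)) (br (br (lf 1174096) 
  (sy 550508)) (k4 2115))) (sy 845992)) (k4 1604)) (k4 3330)) (sy 1103536)))) (br (br (br (br (br (br (br (br (br 
  (lf 1725640) (lf 1714776)) (br (lf 1717352) (lf 1688645))) (sy 681513)) (br (br (br (lf 1681736) (sy 670789))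
   (sy 844844)) (sy 868917))) (sy 1266776)) (k4 3330)) (sy 1140328)) (br (br (br (br (br (br (br (lf 1260168) 
  (sy 1140545)) (br (lf 1258026) (sy 792981))) (k4 2179)) (br (sy 1140545) (k4 2179))) (sy 1256136)) (k4 1668)
  ) (sy 1140328))) (br (br (br (sy 1256136) (k4 3330)) (k4 1676)) (sy 1155637)))) (br (br (br (br (br (br (br (br 
  (br (br (lf 1743042) (lf 1741859)) (br (lf 1628186) (sy 284340))) (br (br (lf 1753626) (sy 550508)) (br 
  (lf 1618274) (k4 1672)))) (br (br (br (lf 1627360) (lf 480480)) (sy 844844)) (br (br (lf 1746528) (k4 1602)) 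
  (k4 1091)))) (k4 2817)) (k4 3330)) (sy 1266776)) (br (br (br (br (br (br (br (lf 1725122) (lf 1608019)) (br 
  (lf 1607522) (sy 284340))) (br (br (lf 1591121) (sy 550508)) (sy 803957))) (br (br (br (lf 1690192) 
  (lf 473760)) (sy 844844)) (br (br (lf 988421) (k4 1602)) (k4 1091)))) (k4 2817)) (k4 3330)) (sy 1266776))) 
  (br (br (br (br (br (br (br (br (lf 1710800) (lf 477827)) (sy 845866)) (br (br (lf 1678096) (sy 550508)) 
  (sy 845866))) (sy 845992)) (k4 2817)) (k4 3330)) (sy 1103536)) (br (br (br (sy 1103746) (k4 1604)) (k4 3330))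
   (sy 1103536)))) (br (br (br (br (br (br (br (br (br (lf 1754760) (lf 1644867)) (br (lf 1678096) (sy 284340))) 
  (sy 681513)) (br (br (br (lf 1745688) (sy 670789)) (sy 844844)) (sy 868917))) (k4 2817)) (k4 3330)) 
  (sy 1140328)) (br (br (br (br (br (br (br (lf 1260049) (lf 1260168)) (br (sy 822570) (sy 284340))) (k4 2179)) 
  (br (sy 1140545) (k4 2179))) (k4 2817)) (k4 1668)) (sy 1140328))) (br (br (br (sy 1256136) (k4 3330)) 
  (k4 1676)) (sy 1155637))))) (br (br (br (br (br (br (br (br (br (br (br (lf 1747144) (sy 551523)) (br (lf 1754753) 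
  (sy 551523))) (sy 551649)) (br (br (br (lf 1746528) (sy 551523)) (sy 844844)) (sy 551649))) (br (br (br (br 
  (lf 1754123) (sy 551523)) (br (lf 1594131) (sy 551523))) (sy 551649)) (br (br (br (lf 1627416) (sy 551523)) 
  (sy 844844)) (sy 551649)))) (k4 3330)) (sy 1266776)) (br (br (br (br (br (br (br (lf 1754137) (sy 551523)) (br 
  (lf 1738961) (sy 551523))) (sy 551649)) (br (br (br (lf 1726081) (sy 551523)) (sy 844844)) (sy 551649))) (br 
  (br (br (br (lf 1247897) (sy 551523)) (k4 2248)) (sy 551649)) (br (br (br (lf 1714776) (sy 551523)) (k4 2248)) 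
  (sy 551649)))) (k4 3330)) (sy 1266776))) (br (br (br (br (br (br (br (br (lf 1726032) (sy 551523)) (sy 845866)) 
  (sy 551649)) (sy 845992)) (sy 1103410)) (k4 3330)) (sy 1103536)) (br (br (br (br (br (br (br (lf 1267217) 
  (sy 551523)) (k4 2115)) (sy 551649)) (sy 845992)) (k4 1604)) (k4 3330)) (sy 1103536)))) (br (br (br (br (br 
  (br (br (br (br (lf 1725640) (sy 551523)) (br (lf 1751169) (sy 551523))) (sy 551649)) (br (br (br (sy 737513) 
  (sy 551523)) (sy 844844)) (sy 551649))) (sy 1266776)) (k4 3330)) (sy 1140328)) (br (br (br (br (br 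
  (sy 1140545) (k4 2179)) (br (sy 1140545) (k4 2179))) (sy 1256136)) (k4 1668)) (sy 1140328))) (br (br (br 
  (sy 1256136) (k4 3330)) (k4 1676)) (sy 1155637)))) (br (br (br (br (br (br (br (br (br (br (lf 1753619) (k4 2696))
   (br (lf 1507996) (k4 2696))) (sy 551649)) (br (br (br (lf 1742048) (k4 2696)) (sy 844844)) (sy 551649))) 
  (k4 2817)) (k4 3330)) (sy 1266776)) (br (br (br (br (br (br (br (lf 1509459) (k4 2696)) (br (sy 54950) (k4 2696))
  ) (sy 551649)) (br (br (br (lf 1751176) (k4 2696)) (sy 844844)) (sy 551649))) (k4 2817)) (k4 3330)) 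
  (sy 1266776))) (br (br (br (br (sy 1448986) (k4 2817)) (k4 3330)) (sy 1103536)) (br (br (br (sy 1103746) 
  (k4 1604)) (k4 3330)) (sy 1103536)))) (br (br (br (br (br (br (br (br (br (lf 1746955) (k4 2696)) (br (lf 1525328)
   (k4 2696))) (sy 551649)) (br (br (br (sy 737513) (k4 2696)) (sy 844844)) (sy 551649))) (k4 2817)) (k4 3330))
   (sy 1140328)) (br (br (br (br (br (sy 1140545) (k4 2179)) (br (sy 1140545) (k4 2179))) (k4 2817)) (k4 1668)) 
  (sy 1140328))) (br (br (br (sy 1256136) (k4 3330)) (k4 1676)) (sy 1155637)))))) (br (br (br (br (br (br (br (br 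
  (br (br (br (br (lf 1745688) (lf 1659651)) (br (lf 1627920) (lf 469539))) (br (br (lf 1659672) (sy 550508)) (br 
  (lf 1651524) (k4 1672)))) (br (br (br (lf 1745632) (sy 579124)) (sy 844844)) (br (br (lf 1651552) (k4 1602)) 
  (k4 1091)))) (br (br (br (br (lf 1753731) (sy 443443)) (br (lf 1624707) (sy 280245))) (br (br (lf 1616216) 
  (sy 550508)) (br (lf 1618218) (k4 1672)))) (br (br (br (lf 1627416) (sy 579124)) (sy 844844)) (br (br 
  (lf 584416) (k4 1602)) (k4 1091))))) (k4 3330)) (k4 2833)) (br (br (br (br (br (br (br (lf 1753752) (lf 1624728)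
  ) (br (lf 1726032) (sy 272244))) (br (br (lf 1713985) (sy 550508)) (sy 803957))) (br (br (br (lf 1623888) 
  (sy 579124)) (sy 844844)) (br (br (lf 879368) (k4 1602)) (k4 1091)))) (sy 1219603)) (k4 3330)) (k4 2833))) 
  (br (br (br (br (br (br (br (br (lf 1628368) (lf 1628312)) (sy 845866)) (br (br (lf 1644384) (sy 550508)) 
  (sy 845866))) (sy 845992)) (sy 1103410)) (k4 3330)) (k4 2833)) (br (br (br (sy 1219792) (k4 1604)) (k4 3330))
   (k4 2833)))) (br (br (br (br (br (br (br (br (br (lf 1657544) (lf 1657432)) (br (lf 1620752) (lf 727384))) 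
  (sy 681513)) (br (br (br (lf 1657432) (sy 579124)) (sy 844844)) (sy 868917))) (sy 1266776)) (k4 3330)) 
  (k4 2833)) (br (br (br (br (br (br (br (lf 1717576) (lf 1254232)) (br (lf 1000552) (sy 272244))) (k4 2179)) (br 
  (sy 1140545) (k4 2179))) (sy 1256136)) (k4 1668)) (k4 2833))) (br (br (br (sy 1256136) (k4 3330)) (k4 1676)) 
  (sy 1155637)))) (sy 1360947)) (br (br (br (br (br (br (br (br (br (br (br (lf 1745667) (k4 2626)) (br (lf 1516256) 
  (k4 2626))) (sy 551649)) (br (br (br (lf 1516256) (k4 2626)) (sy 844844)) (sy 551649))) (br (br (br (br 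
  (lf 1524803) (k4 2626)) (br (lf 1628179) (k4 2626))) (sy 551649)) (br (br (br (sy 1361283) (k4 2626)) 
  (sy 844844)) (sy 551649)))) (k4 3330)) (k4 2833)) (br (br (br (br (br (br (br (lf 1524803) (k4 2626)) (br 
  (lf 1523851) (k4 2626))) (sy 551649)) (br (br (br (lf 743512) (k4 2626)) (sy 844844)) (sy 551649))) 
  (sy 1219603)) (k4 3330)) (k4 2833))) (br (br (br (br (sy 1449112) (sy 1103410)) (k4 3330)) (k4 2833)) (br (br 
  (br (sy 1219792) (k4 1604)) (k4 3330)) (k4 2833)))) (br (br (br (br (br (br (br (br (br (lf 1747144) (k4 2626)) 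
  (br (lf 743512) (k4 2626))) (sy 551649)) (br (br (br (sy 639912) (k4 2626)) (sy 844844)) (sy 551649))) 
  (sy 1266776)) (k4 3330)) (k4 2833)) (br (br (br (br (br (br (br (lf 1714888) (k4 2626)) (br (lf 1260168) 
  (k4 2626))) (k4 2179)) (br (sy 1140545) (k4 2179))) (sy 1256136)) (k4 1668)) (k4 2833))) (br (br (br 
  (sy 1256136) (k4 3330)) (k4 1676)) (sy 1155637)))) (k4 1093)))) (br (br (br (br (br (br (br (br (br (br (br (br (br 
  (lf 1754690) (lf 1754641)) (sy 1004066)) (br (br (lf 1750273) (sy 550508)) (sy 808052))) (br (br (br 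
  (lf 1693832) (lf 1746528)) (sy 844844)) (br (sy 989828) (k4 1091)))) (br (br (br (br (lf 1754690) (lf 1608019)
  ) (sy 1004066)) (br (br (lf 1706705) (sy 550508)) (sy 808052))) (br (br (br (lf 1749776) (lf 473872)) 
  (sy 844844)) (br (sy 989828) (k4 1091))))) (k4 3330)) (sy 1266776)) (br (br (br (br (br (br (br (lf 1754641) 
  (lf 1592010)) (sy 809074)) (sy 809137)) (br (br (br (lf 1690129) (lf 1692320)) (sy 809074)) (sy 809137))) 
  (br (br (br (br (lf 1267210) (lf 1592010)) (k4 2248)) (sy 809137)) (br (br (br (lf 1690122) (lf 1607466)) 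
  (k4 2248)) (sy 809137)))) (k4 3330)) (sy 1266776))) (br (br (br (br (br (br (br (br (lf 1754704) (lf 1751120)) 
  (sy 845866)) (br (br (lf 1690178) (sy 550508)) (sy 845866))) (sy 845992)) (sy 1103410)) (k4 3330)) 
  (sy 1103536)) (br (br (br (br (br (br (sy 989954) (k4 2115)) (sy 809137)) (sy 845992)) (k4 1604)) (k4 3330)) 
  (sy 1103536)))) (br (br (br (br (br (br (br (br (br (lf 1690241) (lf 1653064)) (sy 1004066)) (sy 681513)) (br (br 
  (br (lf 1693832) (sy 670789)) (sy 844844)) (sy 868917))) (sy 1266776)) (k4 3330)) (sy 1140328)) (br (br (br 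
  (br (br (br (br (lf 1690241) (lf 1260049)) (sy 809074)) (k4 2179)) (br (br (sy 845152) (sy 809074)) (k4 2179)))
   (sy 1256136)) (k4 1668)) (sy 1140328))) (br (br (br (sy 1256136) (k4 3330)) (k4 1676)) (sy 1155637)))) 
  (sy 1525314)) (br (br (br (br (br (br (br (br (br (br (br (lf 1525377) (sy 551523)) (sy 1004066)) (k4 2768)) (br 
  (br (sy 1521674) (sy 844844)) (k4 2768))) (br (br (br (br (lf 1509459) (sy 551523)) (sy 1004066)) (k4 2768)) 
  (br (br (br (lf 1521744) (sy 551523)) (sy 844844)) (k4 2768)))) (k4 3330)) (sy 1266776)) (sy 1521674)) (br 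
  (br (br (br (br (br (br (br (lf 1525377) (sy 551523)) (sy 845866)) (k4 2768)) (sy 845992)) (sy 1103410)) 
  (k4 3330)) (sy 1103536)) (sy 1521674))) (br (br (br (br (br (br (br (br (br (lf 1746689) (sy 551523)) 
  (sy 1004066)) (k4 2768)) (br (br (br (lf 1520904) (sy 551523)) (sy 844844)) (k4 2768))) (sy 1266776)) 
  (k4 3330)) (sy 1140328)) (br (br (br (br (br (br (br (lf 944769) (sy 551523)) (sy 809074)) (k4 2179)) (br 
  (sy 1140545) (k4 2179))) (sy 1256136)) (k4 1668)) (sy 1140328))) (br (br (br (sy 1256136) (k4 3330)) 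
  (k4 1676)) (sy 1155637)))) (sy 1324148))) (br (br (br (br (br (br (br (br (br (br (br (br (lf 1513624) (lf 1745443)
  ) (sy 1004066)) (br (br (lf 1746500) (sy 550508)) (sy 808052))) (br (br (br (lf 1742048) (sy 579124)) 
  (sy 844844)) (br (sy 989828) (k4 1091)))) (br (br (br (br (lf 1513624) (sy 443443)) (sy 1004066)) (br (br 
  (lf 1525265) (sy 550508)) (sy 808052))) (br (br (br (lf 481040) (sy 579124)) (sy 844844)) (br (sy 989828) 
  (k4 1091))))) (k4 3330)) (k4 2833)) (br (br (br (br (br (br (br (lf 1521674) (lf 1520897)) (sy 809074)) 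
  (sy 809137)) (br (br (br (lf 1750112) (sy 579124)) (sy 809074)) (sy 809137))) (br (br (br (br (lf 1466570) 
  (sy 443443)) (k4 2248)) (sy 809137)) (br (br (br (lf 1749762) (sy 579124)) (k4 2248)) (sy 809137)))) 
  (k4 3330)) (k4 2833))) (sy 1467088)) (br (br (br (br (br (br (br (br (br (lf 1754760) (lf 1403080)) (sy 1004066))
   (sy 681513)) (br (br (br (lf 1682184) (sy 579124)) (sy 844844)) (sy 868917))) (br (br (br (br (lf 1467592) 
  (sy 443443)) (sy 1004066)) (sy 681513)) (br (br (br (lf 1390984) (sy 579124)) (sy 844844)) (sy 868917)))) 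
  (k4 3330)) (k4 2833)) (br (br (br (br (br (br (br (lf 1260161) (lf 1255233)) (sy 809074)) (k4 2179)) (br (br 
  (sy 845152) (sy 809074)) (k4 2179))) (sy 1256136)) (k4 1668)) (k4 2833))) (sy 1467088))) (sy 1360947)) (br 
  (sy 1467088) (k4 1093))))) (k4 3403)) (br (br (br (br (br (br (br (br (br (br (br (br (br (br (br (lf 1750280) 
  (lf 1659672)) (br (lf 1693776) (lf 1653316))) (br (br (lf 1653505) (sy 550508)) (sy 975940))) (sy 975968)) 
  (br (br (br (br (lf 1726032) (lf 1616195)) (br (lf 1627920) (sy 280245))) (br (br (lf 1754312) (sy 550508)) 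
  (sy 975940))) (sy 975968))) (k4 3330)) (sy 1266776)) (br (br (br (br (br (br (br (lf 1751169) (lf 1717576)) (br 
  (lf 1690241) (lf 1004066))) (br (br (lf 1681729) (sy 550508)) (sy 803957))) (sy 975968)) (br (br (br (br 
  (lf 1718850) (lf 1266713)) (k4 2248)) (br (br (lf 1172801) (sy 550508)) (k4 2248))) (sy 975968))) (k4 3330))
   (sy 1266776))) (br (br (br (br (br (br (br (br (lf 1751120) (lf 1645336)) (sy 845866)) (br (br (lf 1682184) 
  (sy 550508)) (sy 845866))) (sy 845992)) (sy 1103410)) (k4 3330)) (sy 1103536)) (br (br (br (br (br (br (br 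
  (lf 1174152) (lf 1718864)) (k4 2115)) (br (sy 989968) (k4 2115))) (sy 845992)) (k4 1604)) (k4 3330)) 
  (sy 1103536)))) (br (br (br (br (br (br (br (br (br (lf 1661128) (lf 735560)) (br (lf 1692936) (lf 647976))) 
  (sy 874545)) (sy 874608)) (br (br (br (br (lf 1726088) (lf 1255240)) (br (lf 944776) (sy 280245))) (sy 874545)
  ) (sy 874608))) (k4 3330)) (sy 1140328)) (br (br (br (br (br (br (br (lf 1260168) (sy 1140545)) (sy 961800)) 
  (k4 2179)) (sy 874608)) (sy 1256136)) (k4 1668)) (sy 1140328))) (br (br (br (sy 1256136) (k4 3330)) (k4 1676)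
  ) (sy 1155637)))) (br (br (br (br (br (br (br (br (br (br (lf 1525384) (lf 1516312)) (sy 1525328)) (br (br 
  (lf 1746444) (sy 550508)) (sy 975940))) (sy 975968)) (k4 2817)) (k4 3330)) (sy 1266776)) (br (br (br (br (br 
  (br (br (lf 1525384) (lf 1525265)) (sy 1525328)) (br (br (lf 1519777) (sy 550508)) (sy 803957))) (sy 975968))
   (k4 2817)) (k4 3330)) (sy 1266776))) (sy 1525328)) (br (br (br (br (br (br (br (br (br (lf 1746696) (lf 1402632)
  ) (br (lf 1435784) (sy 284340))) (sy 874545)) (sy 874608)) (k4 2817)) (k4 3330)) (sy 1140328)) (br (br (br 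
  (br (br (br (br (lf 1174145) (lf 703752)) (sy 961800)) (k4 2179)) (sy 874608)) (k4 2817)) (k4 1668)) 
  (sy 1140328))) (br (br (br (sy 1256136) (k4 3330)) (k4 1676)) (sy 1155637))))) (br (br (br (br (br (br (br (br (br 
  (br (br (lf 1517768) (sy 551523)) (sy 1521800)) (k4 2754)) (sy 975968)) (br (br (br (br (lf 1517656) 
  (sy 551523)) (br (lf 1754690) (sy 551523))) (k4 2754)) (sy 975968))) (k4 3330)) (sy 1266776)) (br (br (br (br 
  (br (br (br (lf 1525377) (sy 551523)) (sy 1521800)) (k4 2754)) (sy 975968)) (br (br (br (br (lf 1753241) 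
  (sy 551523)) (k4 2248)) (k4 2754)) (sy 975968))) (k4 3330)) (sy 1266776))) (br (br (br (br (br (br (br (br 
  (lf 1517768) (sy 551523)) (sy 845866)) (k4 2754)) (sy 845992)) (sy 1103410)) (k4 3330)) (sy 1103536)) (br 
  (br (br (br (br (br (br (lf 1525377) (sy 551523)) (k4 2115)) (k4 2754)) (sy 845992)) (k4 1604)) (k4 3330)) 
  (sy 1103536)))) (br (br (br (br (br (br (br (sy 671041) (k4 2754)) (sy 874608)) (br (br (sy 671041) (k4 2754)) 
  (sy 874608))) (k4 3330)) (sy 1140328)) (br (br (br (br (br (sy 671041) (k4 2179)) (sy 874608)) (sy 1256136)) 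
  (k4 1668)) (sy 1140328))) (br (br (br (sy 1256136) (k4 3330)) (k4 1676)) (sy 1155637)))) (sy 1521800))) 
  (sy 1521800)) (sy 1434657)) (k4 3403))) (sy 1466906))) (k4 3412)) (k4 3357)) (br (br (br (br (br (br (br (br (br 
  (br (br (br (br (br (br (br (br (br (br (br (lf 1616664) (k4 3208)) (k4 3265)) (sy 1714713)) (sy 1751120)) 
  (sy 1714713)) (k4 3330)) (br (sy 1655115) (k4 3330))) (br (br (sy 1725633) (k4 3330)) (br (sy 1655115) 
  (k4 3330)))) (sy 1692418)) (sy 1725633)) (sy 1751120)) (br (br (br (br (br (br (sy 1655115) (k4 3330)) (br 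
  (sy 1655115) (k4 3330))) (br (br (sy 1655115) (k4 3330)) (br (sy 1655115) (k4 3330)))) (sy 1692418)) 
  (sy 1725633)) (br (br (br (br (br (sy 1655115) (k4 3330)) (br (sy 1655115) (k4 3330))) (br (br (sy 1655115) 
  (k4 3330)) (br (sy 1655115) (k4 3330)))) (sy 1692418)) (sy 1725633)))) (br (br (br (br (br (br (br (br (br (br (br 
  (br (lf 1616664) (k4 3208)) (k4 3265)) (br (sy 1751120) (k4 3265))) (sy 1751120)) (br (br (br (br (sy 1578213) 
  (k4 3208)) (k4 3265)) (br (br (sy 1581853) (k4 3208)) (k4 3265))) (sy 1751120))) (k4 3330)) (br (sy 1655115) 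
  (k4 3330))) (br (br (br (br (br (br (br (lf 1616664) (k4 3208)) (k4 3265)) (sy 1714713)) (sy 1751120)) 
  (sy 1714713)) (k4 3330)) (br (sy 1655115) (k4 3330)))) (sy 1692418)) (sy 1725633)) (sy 1751120)) (br (br (br 
  (br (br (br (sy 1655115) (k4 3330)) (br (sy 1655115) (k4 3330))) (br (br (sy 1655115) (k4 3330)) (br 
  (sy 1655115) (k4 3330)))) (sy 1692418)) (sy 1725633)) (k4 1093)))) (sy 1692418)) (k4 3403)) (br 
  (sy 1751120) (k4 3403))) (sy 1725633)) (br (br (br (br (br (br (br (br (br (br (br (br (br (br (br (br (br (lf 1624770)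
   (k4 3208)) (k4 3265)) (br (br (lf 1712473) (k4 3208)) (k4 3265))) (br (br (br (sy 1618260) (k4 3208)) 
  (k4 3265)) (br (br (sy 1618260) (k4 1602)) (k4 1091)))) (br (br (br (br (lf 1708378) (k4 3208)) (k4 3265)) (br 
  (br (sy 1581853) (k4 3208)) (k4 3265))) (br (br (br (sy 1618260) (k4 3208)) (k4 3265)) (br (br (sy 1581853) 
  (k4 1602)) (k4 1091))))) (k4 3330)) (sy 1266776)) (br (br (br (br (br (br (br (lf 1706586) (k4 3208)) (k4 3265))
   (br (br (sy 1581853) (k4 3208)) (k4 3265))) (br (br (br (sy 1618260) (k4 3208)) (k4 3265)) (br (br (sy 1581853)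
   (k4 1602)) (k4 1091)))) (br (br (br (br (sy 1578213) (k4 3208)) (k4 2248)) (br (br (sy 81165) (k4 3208)) 
  (k4 2248))) (br (br (br (sy 1618260) (k4 3208)) (k4 2248)) (br (br (sy 81165) (k4 1602)) (k4 1091))))) 
  (k4 3330)) (sy 1266776))) (br (br (br (br (br (br (br (br (lf 1624784) (k4 3208)) (k4 3265)) (br (sy 1677858) 
  (k4 3265))) (sy 845992)) (sy 1103410)) (k4 3330)) (sy 1103536)) (br (br (br (br (br (br (sy 1677858) (k4 2115))
   (br (sy 1677858) (k4 2115))) (sy 845992)) (k4 1604)) (k4 3330)) (sy 1103536)))) (br (br (br (br (sy 1714713) 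
  (k4 3330)) (sy 1140328)) (br (br (sy 1714713) (k4 1668)) (sy 1140328))) (br (br (br (sy 1256136) (k4 3330)) 
  (k4 1676)) (sy 1155637)))) (br (br (br (br (br (br (br (br (br (br (lf 1628179) (k4 3208)) (k4 3265)) (br (br 
  (sy 1581853) (k4 3208)) (k4 3265))) (br (br (sy 1618260) (k4 3265)) (br (sy 1618260) (k4 1091)))) (k4 2817)) 
  (k4 3330)) (sy 1266776)) (br (br (br (br (br (br (br (lf 1591898) (k4 3208)) (k4 3265)) (br (br (sy 1581853) 
  (k4 3208)) (k4 3265))) (br (br (sy 1618260) (k4 3265)) (br (sy 1618260) (k4 1091)))) (k4 2817)) (k4 3330)) 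
  (sy 1266776))) (br (br (br (br (br (br (br (sy 380226) (k4 3265)) (br (sy 380226) (k4 3265))) (sy 845992)) 
  (k4 2817)) (k4 3330)) (sy 1103536)) (br (br (br (br (br (br (sy 380226) (k4 2115)) (br (sy 380226) (k4 2115))) 
  (sy 845992)) (k4 1604)) (k4 3330)) (sy 1103536)))) (br (br (br (br (sy 1714713) (k4 3330)) (sy 1140328)) (br 
  (br (sy 1714713) (k4 1668)) (sy 1140328))) (br (br (br (sy 1256136) (k4 3330)) (k4 1676)) (sy 1155637))))) 
  (br (br (br (br (br (br (br (br (br (br (br (lf 1740963) (k4 3208)) (k4 3265)) (sy 551649)) (br (br (br (lf 1616664) 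
  (k4 3208)) (k4 3265)) (sy 551649))) (br (br (br (br (sy 1578213) (k4 3208)) (k4 3265)) (sy 551649)) (br (br (br 
  (sy 1618260) (k4 3208)) (k4 3265)) (sy 551649)))) (k4 3330)) (sy 1266776)) (br (br (br (br (br (br (br 
  (lf 1591947) (k4 3208)) (k4 3265)) (sy 551649)) (br (br (br (lf 1616664) (k4 3208)) (k4 3265)) (sy 551649))) 
  (br (br (br (br (sy 1578213) (k4 3208)) (k4 2248)) (sy 551649)) (br (br (br (sy 1618260) (k4 3208)) (k4 2248)) 
  (sy 551649)))) (k4 3330)) (sy 1266776))) (br (br (br (br (br (br (br (br (lf 1624707) (k4 3208)) (k4 3265)) 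
  (sy 551649)) (sy 845992)) (sy 1103410)) (k4 3330)) (sy 1103536)) (br (br (br (br (br (br (sy 1677858) (k4 2115)
  ) (sy 551649)) (sy 845992)) (k4 1604)) (k4 3330)) (sy 1103536)))) (br (br (br (br (sy 1714713) (k4 3330)) 
  (sy 1140328)) (br (br (sy 1714713) (k4 1668)) (sy 1140328))) (br (br (br (sy 1256136) (k4 3330)) (k4 1676)) 
  (sy 1155637)))) (br (br (br (br (br (br (br (br (br (br (sy 92771) (k4 2696)) (k4 3265)) (sy 551649)) (br (br 
  (sy 1618260) (k4 3265)) (sy 551649))) (k4 2817)) (k4 3330)) (sy 1266776)) (br (br (br (br (br (br (br (sy 92771)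
   (k4 2696)) (k4 3265)) (sy 551649)) (br (br (sy 1618260) (k4 3265)) (sy 551649))) (k4 2817)) (k4 3330)) 
  (sy 1266776))) (br (br (br (br (br (br (br (sy 380226) (k4 3265)) (sy 551649)) (sy 845992)) (k4 2817)) (k4 3330)
  ) (sy 1103536)) (br (br (br (br (br (br (sy 380226) (k4 2115)) (sy 551649)) (sy 845992)) (k4 1604)) (k4 3330)) 
  (sy 1103536)))) (br (br (br (br (sy 1714713) (k4 3330)) (sy 1140328)) (br (br (sy 1714713) (k4 1668)) 
  (sy 1140328))) (br (br (br (sy 1256136) (k4 3330)) (k4 1676)) (sy 1155637)))))) (br (br (br (br (br (br (br (br 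
  (br (br (br (br (lf 1628291) (k4 3208)) (k4 3265)) (br (br (lf 1742048) (k4 3208)) (k4 3265))) (br (br (br 
  (sy 1618260) (k4 3208)) (k4 3265)) (br (br (sy 1618260) (k4 1602)) (k4 1091)))) (br (br (br (br (lf 1628179) 
  (k4 3208)) (k4 3265)) (br (br (sy 1581853) (k4 3208)) (k4 3265))) (br (br (br (sy 1618260) (k4 3208)) (k4 3265)
  ) (br (br (sy 372036) (k4 1602)) (k4 1091))))) (k4 3330)) (k4 2833)) (br (br (br (br (br (br (br (lf 1743056) 
  (k4 3208)) (k4 3265)) (br (br (lf 1595594) (k4 3208)) (k4 3265))) (br (br (br (sy 1618260) (k4 3208)) (k4 3265)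
  ) (br (br (sy 1618260) (k4 1602)) (k4 1091)))) (br (br (br (br (lf 1708378) (k4 3208)) (k4 2248)) (br (br 
  (sy 81165) (k4 3208)) (k4 2248))) (br (br (br (sy 281946) (k4 3208)) (k4 2248)) (br (br (sy 81165) (k4 1602)) 
  (k4 1091))))) (k4 3330)) (k4 2833))) (br (br (br (br (br (br (br (br (lf 1624728) (k4 3208)) (k4 3265)) (br (br 
  (lf 1616216) (k4 3208)) (k4 3265))) (sy 845992)) (sy 1103410)) (k4 3330)) (k4 2833)) (br (br (br (br (br (br 
  (br (lf 1624784) (k4 3208)) (k4 2115)) (br (sy 1677858) (k4 2115))) (sy 845992)) (k4 1604)) (k4 3330)) 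
  (k4 2833)))) (br (br (br (br (sy 1714713) (k4 3330)) (k4 2833)) (br (br (sy 1714713) (k4 1668)) (k4 2833))) (br 
  (br (br (sy 1256136) (k4 3330)) (k4 1676)) (sy 1155637)))) (sy 1360947)) (br (br (br (br (br (br (br (br (br (br 
  (br (lf 1742083) (k4 2626)) (k4 3265)) (sy 551649)) (br (br (br (lf 1616664) (k4 2626)) (k4 3265)) (sy 551649)
  )) (br (br (br (br (sy 1578213) (k4 2626)) (k4 3265)) (sy 551649)) (br (br (br (sy 1618260) (k4 2626)) (k4 3265)
  ) (sy 551649)))) (k4 3330)) (k4 2833)) (br (br (br (br (br (br (br (lf 1747011) (k4 2626)) (k4 3265)) 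
  (sy 551649)) (br (br (br (lf 1616664) (k4 2626)) (k4 3265)) (sy 551649))) (br (br (br (br (sy 1578213) (k4 2626)
  ) (k4 2248)) (sy 551649)) (br (br (br (sy 281946) (k4 2626)) (k4 2248)) (sy 551649)))) (k4 3330)) (k4 2833)))
   (br (br (br (br (br (br (br (br (lf 1627416) (k4 2626)) (k4 3265)) (sy 551649)) (sy 845992)) (sy 1103410)) 
  (k4 3330)) (k4 2833)) (br (br (br (br (br (br (br (lf 1628186) (k4 2626)) (k4 2115)) (sy 551649)) (sy 845992)) 
  (k4 1604)) (k4 3330)) (k4 2833)))) (br (br (br (br (sy 1714713) (k4 3330)) (k4 2833)) (br (br (sy 1714713) 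
  (k4 1668)) (k4 2833))) (br (br (br (sy 1256136) (k4 3330)) (k4 1676)) (sy 1155637)))) (k4 1093)))) (br (br (br 
  (br (br (br (br (br (br (br (br (br (br (lf 1738338) (k4 3208)) (k4 3265)) (br (br (lf 1587796) (k4 3208)) (k4 3265)
  )) (br (br (sy 1692418) (k4 3265)) (br (sy 989828) (k4 1091)))) (br (br (br (br (lf 1579802) (k4 3208)) 
  (k4 3265)) (br (br (sy 1581853) (k4 3208)) (k4 3265))) (br (br (sy 1692418) (k4 3265)) (br (sy 989828) 
  (k4 1091))))) (k4 3330)) (sy 1266776)) (br (br (br (br (br (br (br (lf 1718794) (k4 3208)) (k4 3265)) 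
  (sy 809137)) (br (br (sy 1692418) (k4 3265)) (sy 809137))) (br (br (br (br (lf 1589994) (k4 3208)) (k4 2248)) 
  (sy 809137)) (br (br (sy 1692418) (k4 2248)) (sy 809137)))) (k4 3330)) (sy 1266776))) (sy 1692418)) (br (br 
  (br (br (br (br (br (br (br (lf 1726081) (k4 3208)) (k4 3265)) (sy 681513)) (br (br (sy 1692418) (k4 3265)) 
  (sy 868917))) (sy 1714713)) (k4 3330)) (sy 1140328)) (br (br (sy 1714713) (k4 1668)) (sy 1140328))) 
  (sy 1692418))) (sy 1525314)) (br (br (br (br (br (br (br (br (br (br (br (lf 1737428) (k4 3208)) (k4 3265)) 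
  (k4 2768)) (br (br (br (lf 1742468) (k4 3208)) (k4 3265)) (k4 2768))) (br (br (br (br (lf 1595482) (k4 3208)) 
  (k4 3265)) (k4 2768)) (br (br (br (sy 1618260) (k4 3208)) (k4 3265)) (k4 2768)))) (k4 3330)) (sy 1266776)) 
  (br (br (br (br (br (br (br (lf 1738961) (k4 3208)) (k4 3265)) (k4 2768)) (br (br (sy 1692418) (k4 3265)) 
  (k4 2768))) (br (br (br (br (sy 205667) (k4 3208)) (k4 2248)) (k4 2768)) (br (br (sy 1692418) (k4 2248)) 
  (k4 2768)))) (k4 3330)) (sy 1266776))) (sy 1692418)) (br (br (br (br (br (br (br (br (br (lf 1750049) (k4 3208)) 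
  (k4 3265)) (k4 2768)) (br (br (sy 1692418) (k4 3265)) (k4 2768))) (br (br (br (br (lf 1724618) (k4 3208)) 
  (k4 3265)) (k4 2768)) (br (br (br (lf 1616664) (k4 3208)) (k4 3265)) (k4 2768)))) (k4 3330)) (sy 1140328)) 
  (br (br (sy 1714713) (k4 1668)) (sy 1140328))) (sy 1692418))) (sy 1324148))) (br (br (br (br (br (br (br (br (br 
  (br (br (br (lf 1741075) (k4 3208)) (k4 3265)) (br (br (lf 1749524) (k4 3208)) (k4 3265))) (br (br (br 
  (lf 1627360) (k4 3208)) (k4 3265)) (br (sy 989828) (k4 1091)))) (br (br (br (br (lf 1626394) (k4 3208)) 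
  (k4 3265)) (br (br (sy 1581853) (k4 3208)) (k4 3265))) (br (br (br (sy 1618260) (k4 3208)) (k4 3265)) (br 
  (sy 989828) (k4 1091))))) (k4 3330)) (k4 2833)) (br (br (br (br (br (br (br (lf 1749762) (k4 3208)) (k4 3265)) 
  (sy 809137)) (br (br (sy 1692418) (k4 3265)) (sy 809137))) (br (br (br (br (lf 1628186) (k4 3208)) (k4 2248)) 
  (sy 809137)) (br (br (sy 1692418) (k4 2248)) (sy 809137)))) (k4 3330)) (k4 2833))) (sy 1692418)) (br (br (br 
  (br (br (br (br (br (br (lf 1751176) (k4 3208)) (k4 3265)) (sy 681513)) (br (br (br (lf 1692320) (k4 3208)) 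
  (k4 3265)) (sy 868917))) (br (br (br (br (lf 1628291) (k4 3208)) (k4 3265)) (sy 681513)) (br (br (br 
  (sy 1618260) (k4 3208)) (k4 3265)) (sy 868917)))) (k4 3330)) (k4 2833)) (br (br (br (br (br (br (br (lf 1751050)
   (k4 3208)) (k4 3265)) (k4 2179)) (br (br (sy 1692418) (k4 3265)) (k4 2179))) (sy 1266776)) (k4 1668)) 
  (k4 2833))) (sy 1692418))) (sy 1360947)) (br (br (br (br (br (br (br (br (br (br (br (lf 1508451) (k4 2626)) 
  (k4 3265)) (k4 2768)) (br (br (sy 1521674) (k4 3265)) (k4 2768))) (br (br (br (br (lf 1740963) (k4 2626)) 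
  (k4 3265)) (k4 2768)) (br (br (br (sy 1361283) (k4 2626)) (k4 3265)) (k4 2768)))) (k4 3330)) (k4 2833)) 
  (sy 1521674)) (sy 1467088)) (br (br (br (br (br (br (br (br (br (lf 1746969) (k4 2626)) (k4 3265)) (k4 2768)) (br 
  (br (br (lf 743008) (k4 2626)) (k4 3265)) (k4 2768))) (br (br (br (br (lf 1753619) (k4 2626)) (k4 3265)) 
  (k4 2768)) (br (br (br (sy 342944) (k4 2626)) (k4 3265)) (k4 2768)))) (k4 3330)) (k4 2833)) (br (br (br (br (br 
  (br (br (lf 1525377) (k4 2626)) (k4 3265)) (k4 2179)) (br (br (sy 1692418) (k4 3265)) (k4 2179))) (br (br (br 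
  (br (lf 215761) (k4 2626)) (k4 2248)) (k4 2179)) (br (br (br (lf 1390984) (k4 2626)) (k4 2248)) (k4 2179)))) 
  (k4 1668)) (k4 2833))) (sy 1467088))) (k4 1093))))) (k4 3403)) (br (br (br (br (br (br (br (br (br (br (br (br (br 
  (br (br (lf 1742104) (k4 3208)) (k4 3265)) (br (sy 1751120) (k4 3265))) (sy 975968)) (br (br (br (br 
  (lf 1624602) (k4 3208)) (k4 3265)) (br (br (lf 1616664) (k4 3208)) (k4 3265))) (sy 975968))) (k4 3330)) 
  (sy 1266776)) (br (br (br (br (br (br (br (lf 1751057) (k4 3208)) (k4 3265)) (br (sy 1751120) (k4 3265))) 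
  (sy 975968)) (br (br (br (br (lf 1724506) (k4 3208)) (k4 2248)) (br (br (sy 81165) (k4 3208)) (k4 2248))) 
  (sy 975968))) (k4 3330)) (sy 1266776))) (sy 1751120)) (br (br (br (br (br (br (br (br (br (lf 1693832) (k4 3208))
   (k4 3265)) (sy 874545)) (sy 874608)) (br (br (br (br (lf 1714888) (k4 3208)) (k4 3265)) (sy 874545)) 
  (sy 874608))) (k4 3330)) (sy 1140328)) (br (br (br (br (br (br (br (lf 1718913) (k4 3208)) (k4 3265)) (k4 2179))
   (sy 874608)) (br (br (br (br (lf 1260168) (k4 3208)) (k4 2248)) (k4 2179)) (sy 874608))) (k4 1668)) 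
  (sy 1140328))) (br (br (br (sy 1256136) (k4 3330)) (k4 1676)) (sy 1155637)))) (sy 1751120)) (br (br (br (br (br 
  (br (br (br (br (br (br (lf 1746465) (k4 3208)) (k4 3265)) (k4 2754)) (sy 975968)) (br (br (br (br (lf 1745667) 
  (k4 3208)) (k4 3265)) (k4 2754)) (sy 975968))) (k4 3330)) (sy 1266776)) (br (br (br (br (br (br (br (lf 1754641)
   (k4 3208)) (k4 3265)) (k4 2754)) (sy 975968)) (br (br (br (br (lf 1753290) (k4 3208)) (k4 2248)) (k4 2754)) 
  (sy 975968))) (k4 3330)) (sy 1266776))) (br (br (br (br (br (br (br (br (lf 1743056) (k4 3208)) (k4 3265)) 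
  (k4 2754)) (sy 845992)) (sy 1103410)) (k4 3330)) (sy 1103536)) (br (br (br (br (br (br (br (lf 1751050) 
  (k4 3208)) (k4 2115)) (k4 2754)) (sy 845992)) (k4 1604)) (k4 3330)) (sy 1103536)))) (br (br (br (br (br (br (br 
  (sy 671041) (k4 2754)) (sy 874608)) (br (br (sy 671041) (k4 2754)) (sy 874608))) (k4 3330)) (sy 1140328)) 
  (br (br (br (br (br (sy 671041) (k4 2179)) (sy 874608)) (br (br (sy 671041) (k4 2179)) (sy 874608))) (k4 1668)) 
  (sy 1140328))) (br (br (br (sy 1256136) (k4 3330)) (k4 1676)) (sy 1155637)))) (br (br (br (br (br (br (br (br (br 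
  (br (sy 92771) (k4 2696)) (k4 3265)) (k4 2754)) (sy 975968)) (k4 2817)) (k4 3330)) (sy 1266776)) (br (br (br 
  (br (br (br (br (sy 92771) (k4 2696)) (k4 3265)) (k4 2754)) (sy 975968)) (k4 2817)) (k4 3330)) (sy 1266776))) 
  (sy 1525328)) (br (br (br (br (br (br (br (sy 671041) (k4 2754)) (sy 874608)) (k4 2817)) (k4 3330)) (sy 1140328)
  ) (br (br (br (br (br (sy 671041) (k4 2179)) (sy 874608)) (k4 2817)) (k4 1668)) (sy 1140328))) (br (br (br 
  (sy 1256136) (k4 3330)) (k4 1676)) (sy 1155637)))))) (sy 1521800)) (sy 1434657)) (k4 3403))) (sy 1466906))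
  ) (k4 3412)) (k4 3357)))

theorem t5_ok : check RT t5 21 12425 = true := by decide +kernel

def t6 : Cert :=
  (br (br (br (br (br (br (br (br (br (br (br (br (br (br (br (br (br (br (br (br (br (br (lf 1653512) (sy 1644776)) 
  (sy 1677984)) (br (sy 1677984) (sy 1677984))) (k4 3281)) (sy 1714776)) (sy 1714776)) (k4 3338)) (br (br 
  (sy 1725640) (sy 1714776)) (k4 3338))) (sy 1692432)) (sy 1725640)) (sy 1751120)) (br (br (br (br (br (br (br 
  (br (br (br (br (lf 1661128) (sy 1644776)) (sy 1677984)) (br (br (sy 1655640) (sy 546420)) (sy 1677984))) 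
  (k4 3281)) (sy 1714776)) (sy 1714776)) (k4 3338)) (br (br (br (br (br (br (br (lf 1653505) (sy 1644776)) 
  (sy 1677984)) (br (sy 1692432) (sy 803957))) (k4 3281)) (sy 1725640)) (sy 1714776)) (k4 3338))) 
  (sy 1692432)) (sy 1725640)) (br (br (br (br (br (br (br (br (br (br (lf 1742104) (k4 2696)) (sy 1677984)) (br 
  (sy 1751120) (sy 1677984))) (k4 3281)) (br (br (br (br (lf 1626387) (k4 2696)) (sy 284914)) (br (br 
  (sy 1655640) (k4 2696)) (sy 284914))) (k4 3281))) (sy 1714776)) (k4 3338)) (br (br (br (br (br (br (br 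
  (lf 1738513) (k4 2696)) (sy 1677984)) (br (sy 1751120) (sy 803957))) (k4 3281)) (br (br (br (br (lf 1591898) 
  (k4 2696)) (k4 2248)) (br (br (lf 219345) (k4 2696)) (k4 2248))) (k4 3281))) (sy 1714776)) (k4 3338))) 
  (sy 1692432)) (sy 1725640)))) (br (br (br (br (br (br (br (sy 1655640) (sy 1714776)) (k4 3338)) (br (br 
  (sy 1655640) (sy 1714776)) (k4 3338))) (sy 1692432)) (sy 1725640)) (sy 1751120)) (br (br (br (br (br (br 
  (sy 1655640) (sy 1714776)) (k4 3338)) (br (br (sy 1655640) (sy 1714776)) (k4 3338))) (sy 1692432)) 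
  (sy 1725640)) (k4 1093)))) (sy 1751120)) (k4 3403)) (br (sy 1751120) (k4 3403))) (br (br (br (br (br (br (br (br 
  (br (br (br (br (br (br (br (br (lf 1725136) (sy 1725640)) (br (lf 1693762) (sy 472108))) (br (br (lf 1653505) 
  (sy 1644776)) (sy 1677984))) (k4 3281)) (sy 1725640)) (sy 1266713)) (k4 3338)) (br (br (sy 1725640) 
  (sy 1070769)) (k4 3338))) (br (br (br (sy 1725640) (sy 1266713)) (k4 3338)) (br (br (sy 1725640) (sy 1070769))
   (k4 3338)))) (sy 1725640)) (br (br (br (br (br (br (br (br (br (br (lf 1753808) (lf 1628291)) (br (sy 1619296) 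
  (sy 284340))) (br (br (lf 1738954) (sy 1644776)) (sy 1677984))) (k4 3281)) (k4 2824)) (sy 1266713)) 
  (k4 3338)) (br (br (sy 1725640) (sy 1070769)) (k4 3338))) (br (br (br (sy 1725640) (sy 1266713)) (k4 3338)) 
  (br (br (sy 1725640) (sy 1070769)) (k4 3338)))) (sy 1725640))) (br (br (br (br (br (br (br (br (br (br (br 
  (lf 1754305) (lf 1744995)) (br (lf 1738954) (sy 472108))) (br (br (lf 1659161) (sy 546420)) (br (lf 1582945) 
  (k4 1672)))) (k4 3281)) (br (br (br (br (lf 1724947) (sy 181363)) (br (lf 1579354) (sy 280245))) (br (br 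
  (lf 1583435) (sy 546420)) (br (lf 1582945) (k4 1672)))) (k4 3281))) (k4 2832)) (k4 3338)) (br (br (br (br (br 
  (br (br (lf 1724625) (sy 1725640)) (br (lf 1595601) (sy 472108))) (sy 153265)) (k4 3281)) (sy 1070706)) 
  (k4 2832)) (k4 3338))) (br (br (br (sy 1725640) (k4 2832)) (k4 3338)) (br (br (sy 1725640) (k4 2832)) (k4 3338)
  ))) (sy 1725640)) (sy 1328243))) (br (br (br (br (br (br (br (br (br (sy 1644776) (k4 3281)) (br (sy 1644776) 
  (k4 3281))) (sy 1266713)) (k4 3338)) (br (br (br (br (sy 1644776) (k4 3281)) (sy 1070706)) (sy 1070769)) 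
  (k4 3338))) (br (br (br (br (br (sy 1677984) (k4 3281)) (sy 1725640)) (sy 1266713)) (k4 3338)) (br (br 
  (sy 1725640) (sy 1070769)) (k4 3338)))) (sy 1725640)) (br (br (br (br (br (br (br (sy 1644776) (k4 3281)) 
  (k4 2824)) (sy 1266713)) (k4 3338)) (br (br (br (br (sy 1644776) (k4 3281)) (k4 2824)) (sy 1070769)) (k4 3338)
  )) (br (br (br (br (br (sy 1677984) (k4 3281)) (k4 2824)) (sy 1266713)) (k4 3338)) (br (br (sy 1725640) 
  (sy 1070769)) (k4 3338)))) (sy 1725640))) (br (br (br (br (br (br (br (br (sy 1644776) (k4 3281)) (br 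
  (sy 1644776) (k4 3281))) (k4 2832)) (k4 3338)) (br (br (br (br (sy 1644776) (k4 3281)) (sy 1070706)) (k4 2832)
  ) (k4 3338))) (br (br (br (br (br (sy 1677984) (k4 3281)) (br (sy 1677984) (k4 3281))) (k4 2832)) (k4 3338)) 
  (br (br (br (br (sy 1677984) (k4 3281)) (k4 1604)) (k4 2832)) (k4 3338)))) (sy 1725640)) (k4 1093)))) 
  (sy 1525265)) (k4 3403)) (br (sy 1751120) (k4 3403)))) (br (br (br (br (br (br (br (br (br (br (br (br (br (br (br (br 
  (br (lf 1624784) (sy 1725640)) (br (lf 1627920) (sy 472108))) (br (br (lf 1653512) (sy 1725640)) (br 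
  (lf 1620752) (k4 1672)))) (k4 3281)) (sy 1725640)) (sy 1725640)) (k4 3338)) (br (br (sy 1725640) 
  (sy 1725640)) (k4 3338))) (br (br (br (sy 1725640) (sy 1725640)) (k4 3338)) (br (br (sy 1725640) (sy 1725640))
   (k4 3338)))) (sy 1725640)) (br (br (br (br (br (br (br (br (br (br (lf 1628368) (lf 1627416)) (br (lf 481040) 
  (sy 284340))) (br (br (lf 1627808) (lf 480284)) (br (lf 481026) (k4 1672)))) (k4 3281)) (k4 2817)) 
  (sy 1725640)) (k4 3338)) (br (br (sy 1725640) (sy 1725640)) (k4 3338))) (br (br (br (sy 1725640) (sy 1725640))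
   (k4 3338)) (br (br (sy 1725640) (sy 1725640)) (k4 3338)))) (sy 1725640))) (br (br (br (br (br (br (br (br (br (br 
  (br (lf 1753752) (lf 1645315)) (br (lf 1742496) (sy 472108))) (br (br (lf 1659672) (sy 546420)) (br 
  (lf 1627332) (k4 1672)))) (k4 3281)) (br (br (br (br (lf 1710723) (lf 477827)) (br (lf 477715) (sy 280245))) 
  (br (br (lf 1645336) (sy 546420)) (br (lf 471205) (k4 1672)))) (k4 3281))) (sy 1725640)) (k4 3338)) (br (br 
  (br (br (br (br (br (lf 1725136) (sy 1725640)) (br (lf 1753808) (sy 472108))) (br (br (lf 1726081) (sy 546420)) 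
  (sy 803957))) (k4 3281)) (sy 1725640)) (sy 1725640)) (k4 3338))) (br (br (br (sy 1725640) (sy 1725640)) 
  (k4 3338)) (br (br (sy 1725640) (sy 1725640)) (k4 3338)))) (sy 1725640)) (br (br (br (br (br (br (br (br (br (br 
  (lf 1742104) (k4 2696)) (br (lf 1627416) (k4 2696))) (br (br (lf 1512707) (k4 2696)) (br (sy 87668) (k4 1672))
  )) (k4 3281)) (k4 2817)) (sy 1725640)) (k4 3338)) (br (br (br (br (br (br (br (lf 1513491) (k4 2696)) (br 
  (lf 1511706) (k4 2696))) (br (br (lf 1511650) (k4 2696)) (sy 803957))) (k4 3281)) (k4 2817)) (sy 1725640)) 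
  (k4 3338))) (br (br (br (sy 1725640) (sy 1725640)) (k4 3338)) (br (br (sy 1725640) (sy 1725640)) (k4 3338)))) 
  (sy 1725640)))) (br (br (br (br (br (br (br (br (br (br (br (br (lf 1628312) (sy 584227)) (br (sy 1615656) 
  (sy 584227))) (br (br (sy 1615656) (sy 584227)) (br (sy 1615656) (k4 1672)))) (k4 3281)) (br (br (br (br 
  (sy 1615656) (sy 584227)) (br (sy 1615656) (sy 584227))) (br (br (sy 1615656) (sy 584227)) (br (sy 1615656) 
  (k4 1672)))) (k4 3281))) (sy 1725640)) (k4 2833)) (br (br (br (br (br (br (br (lf 1624784) (sy 584227)) (br 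
  (sy 1615656) (sy 584227))) (br (br (lf 1657432) (sy 584227)) (sy 803957))) (k4 3281)) (br (br (br (br 
  (sy 1615656) (sy 584227)) (k4 2248)) (br (br (sy 1615656) (sy 584227)) (k4 2248))) (k4 3281))) (sy 1725640))
   (k4 2833))) (br (br (br (br (br (br (br (sy 1619296) (sy 845866)) (br (sy 1619296) (sy 845866))) (k4 3281)) 
  (sy 1103410)) (sy 1725640)) (k4 2833)) (br (br (sy 1725640) (sy 1725640)) (k4 2833)))) (sy 1725640)) 
  (sy 1360947)) (br (br (br (br (br (br (br (br (br (br (br (lf 1745688) (k4 2626)) (br (sy 1615656) (k4 2626))) (br 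
  (br (lf 1516256) (k4 2626)) (br (sy 1615656) (k4 1672)))) (k4 3281)) (br (br (br (br (lf 1628291) (k4 2626)) 
  (br (sy 1615656) (k4 2626))) (br (br (sy 1615656) (k4 2626)) (br (sy 1615656) (k4 1672)))) (k4 3281))) 
  (sy 1725640)) (k4 2833)) (br (br (br (br (br (br (br (lf 1512728) (k4 2626)) (br (sy 1615656) (k4 2626))) (br (br 
  (lf 742168) (k4 2626)) (sy 803957))) (k4 3281)) (br (br (br (br (lf 445592) (k4 2626)) (k4 2248)) (br (br 
  (lf 1657432) (k4 2626)) (k4 2248))) (k4 3281))) (sy 1725640)) (k4 2833))) (br (br (br (br (br (br (br 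
  (sy 1619296) (sy 845866)) (br (sy 1619296) (sy 845866))) (k4 3281)) (sy 1103410)) (sy 1725640)) (k4 2833)) 
  (br (br (br (br (br (br (sy 1619296) (k4 2115)) (br (sy 1619296) (k4 2115))) (k4 3281)) (k4 1604)) (sy 1725640))
   (k4 2833)))) (sy 1725640)) (k4 1093)))) (br (br (br (br (br (br (br (br (br (br (br (br (br (lf 1754704) 
  (lf 1742496)) (sy 1004066)) (br (br (lf 1693832) (lf 1627332)) (sy 808052))) (k4 3281)) (br (br (br (br 
  (lf 1624770) (lf 481306)) (sy 1004066)) (br (br (lf 1627920) (lf 467299)) (sy 808052))) (k4 3281))) (br (br 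
  (br (br (br (lf 1726088) (sy 737835)) (sy 1004066)) (br (br (lf 1653505) (sy 542325)) (sy 808052))) (k4 3281))
   (sy 1725640))) (k4 3338)) (br (br (br (br (br (br (br (lf 1693776) (lf 1710786)) (sy 809074)) (sy 809137)) 
  (k4 3281)) (br (br (br (br (lf 1252034) (lf 419370)) (k4 2248)) (sy 809137)) (k4 3281))) (sy 1725640)) 
  (k4 3338))) (br (br (br (br (br (br (br (br (lf 1693776) (sy 1619296)) (sy 845866)) (br (sy 1677984) (sy 845866))
  ) (k4 3281)) (sy 1103410)) (sy 1725640)) (k4 3338)) (br (br (br (br (br (br (sy 1677984) (k4 2115)) (sy 809137)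
  ) (k4 3281)) (k4 1604)) (sy 1725640)) (k4 3338)))) (sy 1725640)) (br (br (br (br (br (br (br (br (br (br 
  (lf 1513232) (lf 1513232)) (k4 2760)) (br (sy 1521674) (k4 2760))) (k4 3281)) (k4 2817)) (br (br (br (br (br 
  (lf 1742867) (sy 737835)) (k4 2760)) (br (br (lf 1513232) (sy 542325)) (k4 2760))) (k4 3281)) (k4 2817))) 
  (k4 3338)) (sy 1433866)) (br (br (br (br (br (br (br (br (lf 1513232) (sy 1619296)) (k4 2760)) (br (sy 1433866) 
  (k4 2760))) (k4 3281)) (k4 2817)) (sy 1725640)) (k4 3338)) (sy 1433866))) (sy 1725640))) (br (br (br (br (br 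
  (br (br (br (br (br (br (lf 1513624) (lf 1516312)) (sy 1004066)) (k4 2768)) (k4 3281)) (br (br (br (br 
  (lf 1513603) (lf 452739)) (sy 1004066)) (k4 2768)) (k4 3281))) (br (br (br (br (br (lf 1517768) (sy 546931)) 
  (sy 1004066)) (k4 2768)) (k4 3281)) (sy 1139019))) (k4 3338)) (br (br (br (br (br (br (br (lf 1751120) 
  (lf 1519777)) (sy 809074)) (k4 2768)) (k4 3281)) (br (br (br (br (lf 1525258) (lf 1246042)) (k4 2248)) 
  (k4 2768)) (k4 3281))) (br (br (br (br (sy 121009) (sy 809074)) (k4 2256)) (k4 3281)) (sy 1062005))) (k4 3338)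
  )) (br (br (br (br (br (br (br (br (lf 1524432) (sy 1619296)) (sy 845866)) (k4 2768)) (k4 3281)) (sy 1103410)) 
  (sy 1725640)) (k4 3338)) (br (br (br (br (br (br (sy 974946) (k4 2115)) (k4 2768)) (k4 3281)) (k4 1604)) 
  (sy 1725640)) (k4 3338)))) (sy 1725640)) (sy 1324148))) (br (br (br (br (br (br (br (br (br (br (br (br 
  (lf 1742608) (sy 584227)) (sy 1004066)) (br (br (lf 1513120) (sy 584227)) (sy 808052))) (k4 3281)) (br (br 
  (br (br (lf 452816) (sy 584227)) (sy 1004066)) (br (br (lf 1627360) (sy 584227)) (sy 808052))) (k4 3281))) 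
  (br (br (br (br (br (lf 1742104) (sy 584227)) (sy 1004066)) (br (br (lf 1745688) (sy 584227)) (sy 808052))) 
  (k4 3281)) (br (br (br (br (lf 1105048) (k4 2184)) (sy 1004066)) (br (br (lf 1256024) (k4 2184)) (sy 808052))) 
  (k4 3281)))) (k4 2833)) (br (br (br (br (br (br (br (lf 1513680) (sy 584227)) (sy 809074)) (sy 809137)) 
  (k4 3281)) (br (br (br (br (lf 1363138) (sy 584227)) (k4 2248)) (sy 809137)) (k4 3281))) (br (br (br (br (br 
  (lf 1467032) (sy 584227)) (sy 809074)) (k4 2256)) (k4 3281)) (sy 1062005))) (k4 2833))) (br (br (br (br (br 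
  (br (br (sy 1619296) (sy 845866)) (br (sy 1619296) (sy 845866))) (k4 3281)) (sy 1103410)) (br (br (br (br 
  (sy 1619296) (sy 845866)) (br (sy 1619296) (sy 845866))) (k4 3281)) (sy 1103410))) (k4 2833)) (br (br (br (br 
  (br (br (sy 1619296) (k4 2115)) (sy 809137)) (k4 3281)) (k4 1604)) (sy 1725640)) (k4 2833)))) (sy 1725640)) 
  (sy 1360947)) (br (br (br (br (br (br (br (br (br (br (br (lf 1516312) (k4 2626)) (sy 1004066)) (k4 2768)) 
  (k4 3281)) (br (br (br (br (lf 1370243) (k4 2626)) (sy 1004066)) (k4 2768)) (k4 3281))) (br (br (br (br (br 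
  (lf 1402968) (k4 2626)) (sy 1004066)) (k4 2768)) (k4 3281)) (sy 1139019))) (k4 2833)) (br (br (br (br (br (br 
  (br (lf 1520736) (k4 2626)) (sy 809074)) (k4 2768)) (k4 3281)) (br (br (br (br (lf 1466899) (k4 2626)) 
  (k4 2248)) (k4 2768)) (k4 3281))) (br (br (br (br (sy 121009) (sy 809074)) (k4 2256)) (k4 3281)) (sy 1062005))
  ) (k4 2833))) (br (br (br (br (br (br (br (sy 1619296) (sy 845866)) (k4 2768)) (k4 3281)) (sy 1103410)) (br (br 
  (br (br (sy 1619296) (sy 845866)) (k4 2768)) (k4 3281)) (sy 1103410))) (k4 2833)) (br (br (br (br (br (br 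
  (sy 1619296) (k4 2115)) (k4 2768)) (k4 3281)) (k4 1604)) (br (br (br (br (sy 121009) (k4 2115)) (k4 2256)) 
  (k4 3281)) (k4 1604))) (k4 2833)))) (sy 1725640)) (k4 1093))))) (k4 3403)) (br (br (br (br (br (br (br (br (br 
  (br (br (br (br (br (br (lf 1742104) (lf 1742104)) (sy 1751120)) (br (sy 1751120) (sy 1751120))) (k4 3281)) (br 
  (br (br (br (lf 1710800) (lf 1616216)) (sy 1751120)) (br (br (lf 1688680) (lf 355096)) (sy 1751120))) 
  (k4 3281))) (br (br (br (br (br (lf 1661016) (sy 737835)) (br (lf 1688680) (sy 737835))) (br (br (lf 1657544) 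
  (sy 542325)) (sy 1751120))) (k4 3281)) (br (br (br (br (lf 1250648) (k4 2184)) (br (lf 476840) (k4 2184))) (br 
  (br (lf 1141448) (k4 2184)) (br (sy 83573) (k4 1672)))) (k4 3281)))) (k4 3338)) (br (br (br (br (br (br (br 
  (lf 1751176) (lf 1688680)) (sy 1751120)) (br (sy 1751120) (sy 803957))) (k4 3281)) (br (br (br (br 
  (lf 1710800) (lf 1107176)) (k4 2248)) (br (br (lf 1690248) (sy 115829)) (k4 2248))) (k4 3281))) (br (br (br 
  (br (br (lf 1725640) (sy 737835)) (br (lf 1690248) (sy 737835))) (k4 2256)) (k4 3281)) (sy 1062005))) 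
  (k4 3338))) (sy 1751120)) (br (br (br (br (br (br (br (br (br (lf 1726088) (sy 1725640)) (br (lf 1005648) 
  (sy 472108))) (sy 874545)) (k4 3281)) (sy 1714776)) (sy 1140265)) (k4 3338)) (br (br (sy 1725640) (k4 1668))
   (k4 3338))) (br (br (br (sy 1725640) (sy 1140265)) (k4 1676)) (sy 1155637)))) (sy 1751120)) (br (br (br (br 
  (br (br (br (br (br (br (br (lf 1745632) (lf 1745632)) (br (lf 1516256) (sy 472108))) (k4 2754)) (k4 3281)) (br 
  (br (br (br (lf 1516312) (lf 351512)) (br (lf 1743056) (sy 280245))) (k4 2754)) (k4 3281))) (br (br (br (br (br 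
  (lf 1517768) (sy 546931)) (br (lf 743512) (sy 546931))) (k4 2754)) (k4 3281)) (br (br (br (br (lf 1256024) 
  (k4 2184)) (br (lf 1250648) (k4 2184))) (k4 2754)) (k4 3281)))) (k4 3338)) (br (br (br (br (br (br (br 
  (lf 1517768) (lf 743176)) (br (lf 1434384) (sy 472108))) (k4 2754)) (k4 3281)) (br (br (br (br (lf 1467592) 
  (lf 1714755)) (k4 2248)) (k4 2754)) (k4 3281))) (br (br (br (br (br (lf 1747144) (sy 546931)) (br (lf 1750273) 
  (sy 546931))) (k4 2256)) (k4 3281)) (sy 1062005))) (k4 3338))) (br (br (br (br (br (br (br (br (lf 1517320) 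
  (lf 1745688)) (sy 845866)) (k4 2754)) (k4 3281)) (sy 1103410)) (br (br (br (br (br (lf 1524824) (sy 546931)) 
  (sy 845866)) (k4 2754)) (k4 3281)) (sy 1103410))) (k4 3338)) (br (br (br (br (br (br (sy 1692432) (k4 2115)) 
  (k4 2754)) (k4 3281)) (k4 1604)) (br (br (br (br (sy 1692432) (k4 2115)) (k4 2256)) (k4 3281)) (k4 1604))) 
  (k4 3338)))) (br (br (br (br (br (br (br (br (br (lf 1747144) (lf 743624)) (br (lf 1653512) (sy 472108))) 
  (k4 2754)) (k4 3281)) (br (br (br (br (lf 1395912) (lf 662872)) (br (lf 371056) (sy 280245))) (k4 2754)) 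
  (k4 3281))) (sy 1140265)) (k4 3338)) (br (br (br (br (br (br (br (lf 1653512) (sy 1725640)) (br (lf 875784) 
  (sy 472108))) (k4 2179)) (k4 3281)) (sy 1725640)) (k4 1668)) (k4 3338))) (br (br (br (sy 1725640) 
  (sy 1140265)) (k4 1676)) (sy 1155637)))) (br (br (br (br (br (br (br (br (br (br (lf 1516312) (k4 2696)) 
  (sy 1751120)) (k4 2754)) (k4 3281)) (k4 2817)) (br (br (br (br (br (lf 1517656) (k4 2696)) (br (lf 1516067) 
  (k4 2696))) (k4 2754)) (k4 3281)) (k4 2817))) (k4 3338)) (br (br (br (br (br (br (br (lf 1525384) (k4 2696)) 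
  (sy 1751120)) (k4 2754)) (k4 3281)) (k4 2817)) (br (br (br (br (br (lf 1402968) (k4 2696)) (br (lf 1382640) 
  (k4 2696))) (k4 2256)) (k4 3281)) (k4 2817))) (k4 3338))) (sy 1751120)) (br (br (br (br (br (br (br (br (br 
  (lf 1517768) (k4 2696)) (br (lf 1359008) (k4 2696))) (k4 2754)) (k4 3281)) (k4 2817)) (sy 1140265)) 
  (k4 3338)) (br (br (br (br (br (br (br (lf 1455496) (k4 2696)) (br (lf 960624) (k4 2696))) (k4 2179)) (k4 3281)) 
  (k4 2817)) (k4 1668)) (k4 3338))) (br (br (br (sy 1725640) (sy 1140265)) (k4 1676)) (sy 1155637)))))) (br (br 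
  (br (br (br (br (br (br (br (br (br (br (lf 1516312) (sy 584227)) (sy 1751120)) (sy 1521800)) (k4 2762)) 
  (sy 1525328)) (br (br (br (br (br (lf 743512) (sy 584227)) (br (lf 1742104) (sy 584227))) (br (br (lf 713496) 
  (sy 584227)) (sy 1521800))) (k4 2762)) (br (br (br (br (lf 1516312) (k4 2184)) (sy 1525328)) (br (br 
  (lf 579992) (k4 2184)) (br (sy 83573) (k4 1672)))) (k4 2762)))) (k4 2833)) (br (br (br (br (br (br (br 
  (lf 1516312) (sy 584227)) (sy 1751120)) (sy 1521800)) (k4 2762)) (sy 1525328)) (br (br (br (br (br 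
  (lf 1395800) (sy 584227)) (br (lf 926632) (sy 584227))) (k4 2256)) (k4 2762)) (sy 1062005))) (k4 2833))) 
  (sy 1525328)) (br (br (br (br (br (br (br (br (br (lf 714952) (sy 584227)) (sy 1521800)) (sy 874545)) (k4 2762)) 
  (br (br (br (br (sy 1655640) (sy 584227)) (br (sy 1655640) (sy 584227))) (sy 874545)) (k4 2762))) (sy 1140265)
  ) (k4 2833)) (br (br (br (br (br (br (br (lf 714952) (sy 584227)) (sy 1521800)) (k4 2179)) (k4 2762)) (br (br (br 
  (br (lf 1153712) (sy 584227)) (k4 2248)) (k4 2179)) (k4 2762))) (k4 1668)) (k4 2833))) (br (br (br (br (br (br 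
  (br (br (lf 944776) (sy 584227)) (sy 845866)) (sy 874545)) (k4 2187)) (sy 1103410)) (sy 1140265)) (k4 1676))
   (sy 1155637)))) (sy 1360947)) (sy 1389108))) (sy 1434657)) (k4 3403))) (sy 1466906))) (k4 3412)) 
  (k4 3357)) (sy 1618988)) (sy 1655339))

theorem t6_ok : check RT t6 22 6213 = true := by decide +kernel

def t7 : Cert :=
  (sy 1692194)

theorem t7_ok : check RT t7 23 3107 = true := by decide +kernel

def t8 : Cert :=
  (br (br (br (br (br (br (br (br (br (br (br (br (br (br (br (br (br (br (br (br (br (br (br (br (br (lf 1718920) (sy 1656648)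
  ) (sy 1692936)) (sy 1682177)) (sy 1682184)) (sy 1725640)) (sy 1714881)) (sy 1714888)) (sy 1754753)) (br 
  (br (br (sy 1725640) (sy 1714881)) (sy 1714888)) (br (br (sy 1725640) (sy 1714881)) (sy 1714888)))) (k4 3354)
  ) (br (br (br (br (br (br (br (br (br (br (lf 1747144) (lf 1745443)) (sy 1751176)) (sy 1682177)) (sy 1682184)) 
  (br (br (br (br (lf 1726088) (sy 284851)) (sy 284914)) (sy 1682177)) (sy 1682184))) (sy 1714881)) 
  (sy 1714888)) (sy 1754753)) (br (br (br (sy 1725640) (sy 1714881)) (sy 1714888)) (br (br (sy 1725640) 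
  (sy 1714881)) (sy 1714888)))) (k4 3354))) (sy 1754753)) (br (br (br (br (br (br (br (br (br (br (br (br 
  (lf 1747144) (sy 1656648)) (sy 1751176)) (sy 1682177)) (sy 1682184)) (br (br (br (br (lf 1725528) 
  (sy 1656648)) (br (lf 1717072) (sy 280245))) (sy 1682177)) (sy 1682184))) (sy 1714881)) (sy 1714888)) (br 
  (br (br (br (br (br (br (lf 1718920) (sy 1656648)) (sy 1692929)) (sy 1682177)) (sy 1682184)) (sy 1725633)) 
  (sy 1714881)) (sy 1714888))) (br (br (br (br (br (br (br (br (lf 1718920) (sy 1656648)) (sy 1692936)) 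
  (sy 1682177)) (sy 1682184)) (sy 1725640)) (sy 1714881)) (sy 1714888)) (br (br (sy 1725640) (sy 1714881)) 
  (sy 1714888)))) (k4 3354)) (br (br (br (br (br (br (br (br (br (br (lf 1747144) (k4 2689)) (sy 1751176)) 
  (sy 1682177)) (sy 1682184)) (br (br (br (br (lf 1742104) (k4 2689)) (sy 284914)) (sy 1682177)) (sy 1682184)))
   (sy 1714881)) (sy 1714888)) (br (br (br (br (br (br (br (lf 1517768) (k4 2689)) (sy 1751176)) (sy 1682177)) 
  (sy 1682184)) (br (br (br (br (lf 1237530) (k4 2689)) (k4 2248)) (sy 1682177)) (sy 1682184))) (sy 1714881)) 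
  (sy 1714888))) (br (br (br (br (br (br (br (br (lf 1512728) (k4 2689)) (sy 1751176)) (sy 1682177)) (sy 1682184))
   (br (br (br (br (lf 1237712) (k4 2689)) (k4 2241)) (sy 1682177)) (sy 1682184))) (sy 1714881)) (sy 1714888)) 
  (br (br (sy 1725640) (sy 1714881)) (sy 1714888)))) (k4 3354))) (br (br (br (br (br (br (br (br (br (br (br 
  (lf 1403080) (k4 2626)) (sy 1751176)) (sy 1682177)) (sy 1682184)) (br (br (br (br (lf 1747144) (k4 2626)) (br 
  (lf 1401379) (k4 2626))) (sy 1682177)) (sy 1682184))) (sy 1714881)) (sy 1714888)) (sy 1754753)) (br (br (br 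
  (br (br (br (br (br (lf 1747144) (k4 2626)) (sy 1751176)) (sy 1682177)) (sy 1682184)) (br (br (br (br 
  (lf 1747032) (k4 2626)) (k4 2241)) (sy 1682177)) (sy 1682184))) (sy 1714881)) (sy 1714888)) (br (br (br (br 
  (br (br (br (lf 1168776) (k4 2626)) (k4 2115)) (sy 1682177)) (sy 1682184)) (k4 1604)) (sy 1714881)) 
  (sy 1714888)))) (k4 3354)) (k4 1093)))) (sy 1751169)) (sy 1751176)) (k4 3411)) (sy 1754753)) (br (br (br (br 
  (br (br (br (br (br (br (br (br (br (br (br (br (br (lf 1726088) (sy 1725640)) (br (lf 1726032) (lf 1651552))) (br 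
  (br (lf 1690248) (sy 1653057)) (sy 1682177))) (br (br (br (lf 1690248) (sy 1653064)) (sy 1682184)) 
  (sy 877100))) (sy 1725640)) (sy 1725640)) (sy 1725640)) (br (br (sy 1725640) (sy 1725640)) (sy 1725640))) 
  (br (br (br (sy 1725640) (sy 1725640)) (sy 1103536)) (br (br (sy 1725640) (sy 1725640)) (sy 1103536)))) 
  (k4 3354)) (br (br (br (br (br (br (br (br (br (br (lf 1525328) (lf 1742104)) (br (lf 1753808) (sy 284340))) (br 
  (br (lf 1525384) (lf 714952)) (br (lf 1693832) (k4 1672)))) (br (br (br (lf 1524432) (lf 713496)) (br 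
  (lf 975632) (k4 1665))) (sy 877100))) (k4 2817)) (sy 1725640)) (sy 1725640)) (br (br (sy 1725640) 
  (sy 1725640)) (sy 1725640))) (br (br (br (sy 1725640) (sy 1725640)) (sy 1103536)) (br (br (sy 1725640) 
  (sy 1725640)) (sy 1103536)))) (k4 3354))) (br (br (br (br (br (br (br (br (br (br (br (lf 1517768) (lf 743624)) 
  (br (lf 1525377) (lf 1401603))) (sy 1653057)) (br (br (br (lf 1661128) (sy 1653064)) (br (sy 1653064) 
  (k4 1665))) (sy 877100))) (br (br (br (br (lf 1266713) (lf 1747011)) (br (lf 1525258) (sy 280245))) 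
  (sy 1653057)) (br (br (br (lf 1754200) (sy 1653064)) (br (lf 924336) (k4 1665))) (sy 877100)))) (sy 1725640))
   (sy 1725640)) (br (br (br (br (br (br (br (lf 1238657) (sy 1725640)) (br (lf 1725969) (lf 181937))) 
  (sy 1682177)) (br (br (br (lf 939400) (sy 1653064)) (sy 1682184)) (sy 877100))) (sy 1725640)) (sy 1725640)) 
  (sy 1725640))) (br (br (br (sy 1725640) (sy 1725640)) (sy 1103536)) (br (br (sy 1725640) (sy 1725640)) 
  (sy 1103536)))) (k4 3354)) (br (br (br (br (br (br (br (br (br (br (lf 1517768) (k4 2696)) (br (lf 1525377) 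
  (k4 2696))) (sy 1653057)) (br (br (br (lf 1516256) (k4 2696)) (br (lf 1382276) (k4 1665))) (sy 877100))) 
  (k4 2817)) (sy 1725640)) (sy 1725640)) (br (br (br (br (br (br (br (lf 1466521) (k4 2696)) (br (lf 1445066) 
  (k4 2696))) (sy 1682177)) (br (br (br (lf 1403073) (k4 2696)) (br (lf 954646) (k4 1665))) (sy 877100))) 
  (k4 2817)) (sy 1725640)) (sy 1725640))) (br (br (br (sy 1725640) (sy 1725640)) (sy 1103536)) (br (br 
  (sy 1725640) (sy 1725640)) (sy 1103536)))) (k4 3354)))) (br (br (br (br (br (br (br (br (br (br (br (br 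
  (lf 1747144) (lf 1747032)) (br (lf 1749776) (lf 469728))) (br (br (lf 1517320) (lf 743008)) (br (lf 1660512) 
  (k4 1672)))) (br (br (br (lf 1661128) (sy 579124)) (br (sy 1653064) (k4 1665))) (sy 877100))) (br (br (br (br 
  (lf 1524824) (lf 676760)) (br (lf 481488) (sy 280245))) (br (br (lf 1725528) (lf 676760)) (br (lf 1454768) 
  (k4 1672)))) (br (br (br (lf 1393560) (sy 579124)) (br (lf 379568) (k4 1665))) (sy 877100)))) (sy 1725640)) 
  (k4 2833)) (br (br (br (br (br (br (br (lf 1726088) (lf 1754312)) (br (lf 1690192) (lf 1361136))) (br (br 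
  (lf 968072) (sy 1682177)) (sy 803957))) (br (br (br (lf 714952) (sy 579124)) (br (sy 1653064) (k4 1665))) 
  (sy 877100))) (br (br (br (br (lf 1237712) (sy 413875)) (k4 2248)) (br (br (lf 1258817) (sy 279902)) (k4 2248))
  ) (br (br (br (lf 1250536) (sy 579124)) (k4 2248)) (sy 877100)))) (sy 1725640)) (k4 2833))) (br (br (br (br (br 
  (br (br (br (lf 1725136) (sy 1725640)) (br (lf 1219792) (lf 444080))) (br (br (lf 1238664) (sy 1725640)) (br 
  (lf 989968) (k4 1672)))) (br (br (br (lf 473872) (sy 579124)) (sy 836661)) (sy 877100))) (sy 1103410)) 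
  (sy 1725640)) (k4 2833)) (br (br (sy 1725640) (sy 1725640)) (k4 2833)))) (k4 3354)) (sy 1360947)) (br (br (br 
  (br (br (br (br (br (br (br (br (lf 1403080) (k4 2626)) (br (lf 1516256) (k4 2626))) (br (br (lf 714952) (k4 2626))
   (br (sy 1653057) (k4 1672)))) (br (br (br (lf 714952) (k4 2626)) (br (sy 1653064) (k4 1665))) (sy 877100))) 
  (br (br (br (br (lf 1402968) (k4 2626)) (br (lf 1395779) (k4 2626))) (br (br (lf 1403080) (k4 2626)) (br 
  (lf 714952) (k4 1672)))) (br (br (br (lf 1402968) (k4 2626)) (br (lf 351512) (k4 1665))) (sy 877100)))) 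
  (sy 1725640)) (k4 2833)) (br (br (br (br (br (br (br (lf 1403080) (k4 2626)) (br (lf 1524936) (k4 2626))) (br (br 
  (sy 1653057) (k4 2626)) (sy 803957))) (br (br (br (lf 714952) (k4 2626)) (br (sy 1653064) (k4 1665))) 
  (sy 877100))) (br (br (br (br (lf 1467585) (k4 2626)) (k4 2248)) (br (br (sy 1653057) (k4 2626)) (k4 2248))) 
  (br (br (br (lf 1136240) (k4 2626)) (k4 2248)) (sy 877100)))) (sy 1725640)) (k4 2833))) (br (br (br (br (br (br 
  (br (br (lf 1402968) (k4 2626)) (br (lf 1369872) (k4 2626))) (br (br (lf 1402632) (k4 2626)) (br (lf 702576) 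
  (k4 1672)))) (br (br (br (sy 443632) (k4 2626)) (sy 836661)) (sy 877100))) (sy 1103410)) (sy 1725640)) 
  (k4 2833)) (br (br (br (br (br (br (br (lf 1226120) (k4 2626)) (k4 2115)) (br (br (lf 939400) (k4 2626)) (k4 2115)
  )) (br (br (br (sy 415408) (k4 2626)) (k4 2115)) (sy 877100))) (k4 1604)) (sy 1725640)) (k4 2833)))) 
  (k4 3354)) (k4 1093)))) (br (br (br (br (br (br (br (br (br (br (br (br (br (lf 1751176) (lf 1521800)) (sy 1751169))
   (sy 1692929)) (br (sy 1751169) (sy 877100))) (br (br (br (br (lf 1725969) (lf 1754137)) (br (lf 1690178) 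
  (sy 280245))) (sy 1692929)) (br (sy 1751169) (sy 877100)))) (br (br (br (br (br (lf 1726081) (sy 1725640)) (br 
  (lf 1718801) (lf 1225777))) (sy 1692929)) (br (br (br (lf 939400) (sy 1653064)) (sy 1682184)) (sy 877100))) 
  (sy 1725640))) (sy 1725640)) (sy 1751169)) (br (br (br (br (br (br (br (br (lf 969808) (lf 1690248)) (br 
  (lf 969794) (lf 838978))) (sy 1692929)) (br (sy 1682184) (sy 877100))) (sy 1103410)) (sy 1725640)) 
  (sy 1103536)) (br (br (br (br (br (br (br (lf 941122) (lf 944776)) (k4 2115)) (sy 809137)) (br (sy 1682184) 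
  (sy 809137))) (k4 1604)) (sy 1725640)) (sy 1103536)))) (k4 3354)) (br (br (br (br (br (br (br (br (br (br 
  (lf 1521800) (lf 1517320)) (k4 2760)) (sy 1692929)) (br (sy 1751169) (sy 877100))) (k4 2817)) (br (br (br (br 
  (br (lf 1467921) (lf 1379595)) (k4 2760)) (sy 1692929)) (br (br (br (lf 1517320) (lf 713251)) (k4 2760)) 
  (sy 877100))) (k4 2817))) (sy 1725640)) (sy 1751169)) (br (br (br (br (br (br (br (br (lf 1435714) (lf 1359120))
   (k4 2760)) (sy 1692929)) (br (sy 1682184) (sy 877100))) (k4 2817)) (sy 1725640)) (sy 1103536)) (br (br (br 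
  (br (br (br (br (lf 941122) (lf 1428546)) (k4 2115)) (sy 809137)) (br (sy 1682184) (sy 809137))) (k4 1604)) 
  (sy 1725640)) (sy 1103536)))) (k4 3354))) (sy 1751169)) (br (br (br (br (br (br (br (br (br (br (br (br 
  (lf 1524936) (lf 1517152)) (br (lf 1435784) (lf 1369284))) (sy 1692929)) (br (br (br (lf 1520904) (sy 579124)
  ) (br (lf 1434720) (k4 1665))) (sy 877100))) (br (br (br (br (lf 1467592) (lf 1363096)) (br (lf 1416450) 
  (sy 280245))) (sy 1692929)) (br (br (br (lf 1363152) (sy 579124)) (br (lf 440720) (k4 1665))) (sy 877100)))) 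
  (br (br (br (br (br (lf 1524929) (lf 1403073)) (br (lf 1391880) (lf 695324))) (sy 1692929)) (br (br (br 
  (lf 714952) (sy 579124)) (br (sy 1653064) (k4 1665))) (sy 877100))) (br (br (br (br (lf 1467403) (k4 2184)) 
  (br (lf 1447446) (k4 2184))) (sy 1692929)) (br (br (br (lf 1393560) (k4 2184)) (br (lf 379526) (k4 1665))) 
  (sy 877100))))) (k4 2833)) (br (br (br (br (br (br (br (lf 1468040) (lf 1517768)) (sy 809074)) (sy 809137)) (br 
  (br (sy 1692929) (sy 809074)) (sy 809137))) (br (br (br (br (lf 1457162) (lf 1224881)) (k4 2248)) (sy 809137))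
   (br (br (sy 1692929) (k4 2248)) (sy 809137)))) (br (br (br (br (br (lf 1226113) (lf 1394225)) (sy 809074)) 
  (k4 2256)) (br (br (br (lf 939400) (sy 579124)) (sy 809074)) (k4 2256))) (sy 1062005))) (k4 2833))) (br (br 
  (br (br (br (br (br (br (lf 1435728) (lf 1369368)) (br (lf 1435728) (lf 841120))) (sy 1692929)) (br (br (br 
  (lf 956592) (sy 579124)) (sy 836661)) (sy 877100))) (sy 1103410)) (br (br (br (br (br (lf 1226120) 
  (sy 1725640)) (br (lf 1168496) (lf 858886))) (sy 1692929)) (br (br (br (lf 939400) (sy 579124)) (sy 836661)) 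
  (sy 877100))) (sy 1103410))) (k4 2833)) (br (br (br (br (br (br (br (lf 1457288) (lf 941192)) (k4 2115)) 
  (sy 809137)) (br (sy 1682184) (sy 809137))) (k4 1604)) (sy 1725640)) (k4 2833)))) (k4 3354)) (sy 1360947)) 
  (br (br (br (br (br (br (br (br (br (br (br (lf 1402632) (k4 2626)) (sy 1751169)) (k4 2768)) (br (sy 1751169) 
  (k4 2768))) (br (br (br (br (lf 1517768) (k4 2626)) (br (lf 1508122) (k4 2626))) (k4 2768)) (br (sy 1751169) 
  (k4 2768)))) (br (br (br (br (br (lf 1395737) (k4 2626)) (br (lf 1401113) (k4 2626))) (k4 2768)) (br (br (br 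
  (lf 706440) (k4 2626)) (sy 1751169)) (k4 2768))) (br (br (br (br (lf 1450379) (k4 2184)) (br (lf 1443057) 
  (k4 2184))) (k4 2768)) (br (br (br (lf 705054) (k4 2184)) (br (lf 706118) (k4 1665))) (k4 2768))))) (k4 2833))
   (sy 1751169)) (br (br (br (br (br (br (br (br (lf 1435784) (k4 2626)) (br (lf 1434384) (k4 2626))) (k4 2768)) 
  (br (br (br (lf 1390984) (k4 2626)) (sy 836661)) (k4 2768))) (sy 1103410)) (br (br (br (br (br (lf 1394561) 
  (k4 2626)) (br (lf 1426824) (k4 2626))) (k4 2768)) (br (br (br (sy 443632) (k4 2626)) (sy 836661)) (k4 2768)))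
   (sy 1103410))) (k4 2833)) (br (br (br (br (br (br (br (lf 1428616) (k4 2626)) (k4 2115)) (k4 2768)) (br 
  (sy 1751169) (k4 2768))) (k4 1604)) (br (br (br (br (br (lf 1226113) (k4 2626)) (k4 2115)) (k4 2256)) (br (br 
  (br (lf 939400) (k4 2626)) (k4 2115)) (k4 2256))) (k4 1604))) (k4 2833)))) (k4 3354)) (k4 1093))))) (br (br 
  (br (br (br (br (br (br (br (br (br (br (br (br (lf 1525384) (lf 1516312)) (sy 1521744)) (sy 1751176)) (sy 1751176)
  ) (sy 1525328)) (br (br (br (br (br (lf 1725640) (lf 743512)) (br (lf 1521800) (lf 1152424))) (br (br 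
  (lf 1172808) (sy 542325)) (sy 1751176))) (sy 1751176)) (br (br (br (br (lf 1238664) (k4 2184)) (sy 1525328)) 
  (br (br (lf 1258824) (k4 2184)) (br (lf 1152424) (k4 1672)))) (sy 1751176)))) (br (br (br (br (br (br 
  (lf 1238664) (sy 1266776)) (sy 1525328)) (br (br (lf 649992) (sy 1725640)) (br (lf 975968) (k4 1672)))) (br 
  (br (br (lf 1168776) (sy 575029)) (sy 840756)) (sy 877100))) (sy 1102899)) (sy 1139243))) (br (br (br (br (br 
  (br (br (lf 1170568) (lf 1525384)) (sy 1521744)) (sy 1751176)) (sy 1751176)) (sy 1525328)) (br (br (br (br (br 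
  (lf 1238657) (lf 1158465)) (br (lf 941192) (lf 941192))) (k4 2256)) (sy 1751176)) (sy 1062005))) (br 
  (sy 1725640) (sy 1139243)))) (k4 2841)) (k4 3354)) (sy 1361458)) (br (sy 1525328) (sy 1361458))) 
  (sy 1361584)) (sy 1434146))) (k4 3411)) (sy 1466906))) (k4 3412)) (k4 3357)) (br (br (br (br (br (br (br (br (br 
  (br (br (br (br (br (br (br (br (br (br (br (lf 1718920) (sy 1656648)) (sy 1692936)) (sy 1682177)) (sy 1682184)) 
  (sy 1725640)) (sy 1714881)) (sy 1714888)) (sy 1754753)) (br (br (br (sy 1725640) (sy 1714881)) (sy 1714888))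
   (br (br (sy 1725640) (sy 1714881)) (sy 1714888)))) (k4 3354)) (br (br (br (br (br (br (br (br (br (br (lf 1745443)
   (sy 289443)) (sy 289506)) (sy 1682177)) (sy 1682184)) (sy 289562)) (sy 1714881)) (sy 1714888)) 
  (sy 1754753)) (br (br (br (sy 1725640) (sy 1714881)) (sy 1714888)) (br (br (sy 1725640) (sy 1714881)) 
  (sy 1714888)))) (k4 3354))) (sy 1754753)) (br (br (br (br (br (br (br (br (br (br (br (br (lf 1745688) (sy 1656648)
  ) (sy 1751176)) (sy 1682177)) (sy 1682184)) (br (br (br (br (lf 1747011) (sy 288939)) (sy 289002)) 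
  (sy 1682177)) (sy 1682184))) (sy 1714881)) (sy 1714888)) (br (br (br (br (br (br (br (lf 1718920) (sy 1656648))
   (sy 1692929)) (sy 1682177)) (sy 1682184)) (sy 1725633)) (sy 1714881)) (sy 1714888))) (br (br (br (br (br (br 
  (br (br (lf 1623888) (sy 1656648)) (sy 1692936)) (sy 1682177)) (sy 1682184)) (sy 1725640)) (sy 1714881)) 
  (sy 1714888)) (br (br (sy 1725640) (sy 1714881)) (sy 1714888)))) (k4 3354)) (br (br (br (br (br (br (br (br (br 
  (br (lf 1745688) (k4 2689)) (sy 289506)) (sy 1682177)) (sy 1682184)) (sy 289562)) (sy 1714881)) 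
  (sy 1714888)) (br (br (br (br (br (br (br (lf 1741082) (k4 2689)) (sy 289506)) (sy 1682177)) (sy 1682184)) 
  (sy 289562)) (sy 1714881)) (sy 1714888))) (br (br (br (br (br (br (br (br (lf 1743056) (k4 2689)) (sy 289506)) 
  (sy 1682177)) (sy 1682184)) (sy 289562)) (sy 1714881)) (sy 1714888)) (br (br (sy 1725640) (sy 1714881)) 
  (sy 1714888)))) (k4 3354))) (br (br (br (br (br (br (br (br (br (br (br (lf 1745443) (k4 2626)) (sy 1751176)) 
  (sy 1682177)) (sy 1682184)) (br (br (br (br (lf 1747011) (k4 2626)) (sy 289002)) (sy 1682177)) (sy 1682184)))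
   (sy 1714881)) (sy 1714888)) (sy 1754753)) (br (br (br (br (br (br (br (br (lf 1745688) (k4 2626)) (sy 1751176))
   (sy 1682177)) (sy 1682184)) (br (br (br (br (lf 1710723) (k4 2626)) (k4 2241)) (sy 1682177)) (sy 1682184))) 
  (sy 1714881)) (sy 1714888)) (br (br (br (br (br (br (br (lf 1718920) (k4 2626)) (k4 2115)) (sy 1682177)) 
  (sy 1682184)) (k4 1604)) (sy 1714881)) (sy 1714888)))) (k4 3354)) (k4 1093)))) (sy 1751169)) (sy 1751176))
   (k4 3411)) (sy 1754753)) (br (br (br (br (br (br (br (br (br (br (br (br (br (br (br (br (br (lf 1725136) (sy 1725640)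
  ) (br (lf 1718850) (sy 288428))) (br (br (lf 1690248) (sy 1653057)) (sy 1682177))) (br (br (br (lf 1690248) 
  (sy 1653064)) (sy 1682184)) (sy 877100))) (sy 1725640)) (sy 1725640)) (sy 1725640)) (br (br (sy 1725640) 
  (sy 1725640)) (sy 1725640))) (br (br (br (sy 1725640) (sy 1725640)) (sy 1103536)) (br (br (sy 1725640) 
  (sy 1725640)) (sy 1103536)))) (k4 3354)) (br (br (br (br (br (br (br (br (br (br (lf 1753808) (sy 289443)) 
  (sy 289506)) (br (br (lf 1743042) (sy 289443)) (sy 289506))) (br (br (br (lf 1627808) (sy 289443)) (sy 289506)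
  ) (sy 877100))) (k4 2817)) (sy 1725640)) (sy 1725640)) (br (br (sy 1725640) (sy 1725640)) (sy 1725640))) 
  (br (br (br (sy 1725640) (sy 1725640)) (sy 1103536)) (br (br (sy 1725640) (sy 1725640)) (sy 1103536)))) 
  (k4 3354))) (br (br (br (br (br (br (br (br (br (br (br (lf 1754305) (lf 1659651)) (br (lf 1753626) (sy 288428))) 
  (sy 1653057)) (br (br (br (lf 1661128) (sy 1653064)) (br (sy 1653064) (k4 1665))) (sy 877100))) (br (br (br (br 
  (lf 1724555) (sy 288939)) (sy 289002)) (sy 1653057)) (br (br (br (lf 1627416) (sy 288939)) (sy 289002)) 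
  (sy 877100)))) (sy 1725640)) (sy 1725640)) (br (br (br (br (br (br (br (lf 1726081) (sy 1725640)) (br 
  (lf 1738954) (sy 288428))) (sy 1682177)) (br (br (br (lf 1690248) (sy 1653064)) (sy 1682184)) (sy 877100))) 
  (sy 1725640)) (sy 1725640)) (sy 1725640))) (br (br (br (sy 1725640) (sy 1725640)) (sy 1103536)) (br (br 
  (sy 1725640) (sy 1725640)) (sy 1103536)))) (k4 3354)) (br (br (br (br (br (br (br (br (br (br (lf 1754179) 
  (k4 2696)) (sy 289506)) (sy 1653057)) (br (br (br (lf 1745632) (k4 2696)) (sy 289506)) (sy 877100))) 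
  (k4 2817)) (sy 1725640)) (sy 1725640)) (br (br (br (br (br (br (br (lf 1509515) (k4 2696)) (sy 289506)) 
  (sy 1682177)) (br (br (br (lf 1751120) (k4 2696)) (sy 289506)) (sy 877100))) (k4 2817)) (sy 1725640)) 
  (sy 1725640))) (br (br (br (sy 1725640) (sy 1725640)) (sy 1103536)) (br (br (sy 1725640) (sy 1725640)) 
  (sy 1103536)))) (k4 3354)))) (br (br (br (br (br (br (br (br (br (br (br (br (lf 1753752) (lf 1659651)) (br 
  (lf 1742048) (sy 288428))) (br (br (lf 1746528) (lf 1659427)) (br (lf 1615684) (k4 1672)))) (br (br (br 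
  (lf 1659672) (sy 579124)) (br (sy 1653064) (k4 1665))) (sy 877100))) (br (br (br (br (lf 1753752) (sy 288939))
   (sy 289002)) (br (br (lf 1655640) (sy 288939)) (sy 289002))) (br (br (br (lf 1627416) (sy 288939)) 
  (sy 289002)) (sy 877100)))) (sy 1725640)) (k4 2833)) (br (br (br (br (br (br (br (lf 1754200) (lf 1712984)) (br 
  (lf 1623874) (sy 288428))) (br (br (lf 1713992) (sy 1682177)) (sy 803957))) (br (br (br (lf 1620304) 
  (sy 579124)) (br (sy 1653064) (k4 1665))) (sy 877100))) (br (br (br (br (lf 1251866) (sy 288939)) (k4 2248)) 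
  (br (br (lf 1266888) (sy 288939)) (k4 2248))) (br (br (br (lf 420560) (sy 288939)) (k4 2248)) (sy 877100)))) 
  (sy 1725640)) (k4 2833))) (br (br (br (br (br (br (br (br (lf 1725136) (sy 1725640)) (br (lf 1624784) (sy 288428)
  )) (br (br (lf 1615712) (sy 1725640)) (br (lf 387856) (k4 1672)))) (br (br (br (lf 473872) (sy 579124)) 
  (sy 836661)) (sy 877100))) (sy 1103410)) (sy 1725640)) (k4 2833)) (br (br (sy 1725640) (sy 1725640)) 
  (k4 2833)))) (k4 3354)) (sy 1360947)) (br (br (br (br (br (br (br (br (br (br (br (lf 1745667) (k4 2626)) (br 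
  (lf 1516312) (k4 2626))) (br (br (lf 1659427) (k4 2626)) (br (sy 1653057) (k4 1672)))) (br (br (br (lf 713496) 
  (k4 2626)) (br (sy 1653064) (k4 1665))) (sy 877100))) (br (br (br (br (lf 1517635) (k4 2626)) (sy 289002)) (br 
  (br (lf 741923) (k4 2626)) (sy 289002))) (br (br (br (lf 437507) (k4 2626)) (sy 289002)) (sy 877100)))) 
  (sy 1725640)) (k4 2833)) (br (br (br (br (br (br (br (lf 1517635) (k4 2626)) (br (lf 1517313) (k4 2626))) (br (br 
  (sy 1653057) (k4 2626)) (sy 803957))) (br (br (br (lf 1661128) (k4 2626)) (br (sy 1653064) (k4 1665))) 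
  (sy 877100))) (br (br (br (br (lf 1237075) (k4 2626)) (k4 2248)) (br (br (sy 1653057) (k4 2626)) (k4 2248))) 
  (br (br (br (lf 1238104) (k4 2626)) (k4 2248)) (sy 877100)))) (sy 1725640)) (k4 2833))) (br (br (br (br (br (br 
  (br (br (lf 1517656) (k4 2626)) (br (lf 1743000) (k4 2626))) (br (br (lf 743008) (k4 2626)) (br (lf 355040) 
  (k4 1672)))) (br (br (br (sy 443632) (k4 2626)) (sy 836661)) (sy 877100))) (sy 1103410)) (sy 1725640)) 
  (k4 2833)) (br (br (br (br (br (br (br (lf 1725136) (k4 2626)) (k4 2115)) (br (br (lf 1690248) (k4 2626)) 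
  (k4 2115))) (br (br (br (sy 415408) (k4 2626)) (k4 2115)) (sy 877100))) (k4 1604)) (sy 1725640)) (k4 2833))))
   (k4 3354)) (k4 1093)))) (br (br (br (br (br (br (br (br (br (br (br (br (br (lf 1751176) (lf 1751106)) (sy 1751169)
  ) (sy 1692929)) (br (sy 1751169) (sy 877100))) (br (br (br (br (lf 1753290) (sy 288939)) (sy 289002)) 
  (sy 1692929)) (br (sy 1751169) (sy 877100)))) (br (br (br (br (br (lf 1726081) (sy 1725640)) (br (lf 1706705) 
  (sy 288428))) (sy 1692929)) (br (br (br (lf 1690248) (sy 1653064)) (sy 1682184)) (sy 877100))) (sy 1725640))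
  ) (sy 1725640)) (sy 1751169)) (br (br (br (br (br (br (br (br (lf 1751106) (lf 1620752)) (br (lf 989506) 
  (sy 288428))) (sy 1692929)) (br (sy 1682184) (sy 877100))) (sy 1103410)) (sy 1725640)) (sy 1103536)) (br 
  (br (br (br (br (br (br (lf 944706) (lf 1690178)) (k4 2115)) (sy 809137)) (br (sy 1682184) (sy 809137))) 
  (k4 1604)) (sy 1725640)) (sy 1103536)))) (k4 3354)) (br (br (br (br (br (br (br (br (br (br (lf 1751106) 
  (sy 289443)) (k4 2760)) (sy 1692929)) (br (sy 1751169) (sy 877100))) (k4 2817)) (br (br (br (br (br 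
  (lf 1738842) (sy 289443)) (k4 2760)) (sy 1692929)) (br (br (br (lf 1751176) (sy 289443)) (k4 2760)) 
  (sy 877100))) (k4 2817))) (sy 1725640)) (sy 1751169)) (br (br (br (br (br (br (br (br (lf 1513218) (sy 289443)) 
  (k4 2760)) (sy 1692929)) (br (sy 1682184) (sy 877100))) (k4 2817)) (sy 1725640)) (sy 1103536)) (br (br (br 
  (br (br (br (br (lf 944706) (sy 289443)) (k4 2115)) (sy 809137)) (br (sy 1682184) (sy 809137))) (k4 1604)) 
  (sy 1725640)) (sy 1103536)))) (k4 3354))) (sy 1751169)) (br (br (br (br (br (br (br (br (br (br (br (br 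
  (lf 1517656) (lf 1741859)) (br (lf 1513092) (sy 288428))) (sy 1692929)) (br (br (br (lf 1745632) (sy 579124))
   (br (lf 1742468) (k4 1665))) (sy 877100))) (br (br (br (br (lf 1513666) (sy 288939)) (sy 289002)) 
  (sy 1692929)) (br (br (br (lf 1742104) (sy 288939)) (sy 289002)) (sy 877100)))) (br (br (br (br (br (lf 1747032)
   (lf 1660939)) (br (lf 1525258) (sy 288428))) (sy 1692929)) (br (br (br (lf 714952) (sy 579124)) (br 
  (sy 1653064) (k4 1665))) (sy 877100))) (br (br (br (br (lf 1523795) (k4 2184)) (sy 289002)) (sy 1692929)) (br 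
  (br (br (lf 1221528) (k4 2184)) (sy 289002)) (sy 877100))))) (k4 2833)) (br (br (br (br (br (br (br (lf 1751057) 
  (lf 1520386)) (sy 809074)) (sy 809137)) (br (br (sy 1692929) (sy 809074)) (sy 809137))) (br (br (br (br 
  (lf 1466570) (sy 288939)) (k4 2248)) (sy 809137)) (br (br (sy 1692929) (k4 2248)) (sy 809137)))) (br (br (br 
  (br (br (lf 1724625) (lf 183435)) (sy 809074)) (k4 2256)) (br (br (br (lf 1690248) (sy 579124)) (sy 809074)) 
  (k4 2256))) (sy 1062005))) (k4 2833))) (br (br (br (br (br (br (br (br (lf 1525328) (lf 1743056)) (br 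
  (lf 1749776) (sy 288428))) (sy 1692929)) (br (br (br (lf 957712) (sy 579124)) (sy 836661)) (sy 877100))) 
  (sy 1103410)) (br (br (br (br (br (lf 1725136) (sy 1725640)) (br (lf 1218434) (sy 288428))) (sy 1692929)) (br 
  (br (br (lf 1620304) (sy 579124)) (sy 836661)) (sy 877100))) (sy 1103410))) (k4 2833)) (br (br (br (br (br (br 
  (br (lf 1227856) (lf 1218448)) (k4 2115)) (sy 809137)) (br (sy 1682184) (sy 809137))) (k4 1604)) 
  (sy 1725640)) (k4 2833)))) (k4 3354)) (sy 1360947)) (br (br (br (br (br (br (br (br (br (br (br (lf 1515619) 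
  (k4 2626)) (sy 1751169)) (k4 2768)) (br (sy 1751169) (k4 2768))) (br (br (br (br (lf 1524803) (k4 2626)) 
  (sy 289002)) (k4 2768)) (br (sy 1751169) (k4 2768)))) (br (br (br (br (br (lf 1401113) (k4 2626)) (br 
  (lf 1322083) (k4 2626))) (k4 2768)) (br (br (br (lf 714952) (k4 2626)) (sy 1751169)) (k4 2768))) (br (br (br 
  (br (lf 1402891) (k4 2184)) (sy 289002)) (k4 2768)) (br (br (br (lf 705075) (k4 2184)) (sy 289002)) (k4 2768))
  ))) (k4 2833)) (sy 1751169)) (br (br (br (br (br (br (br (br (lf 1513680) (k4 2626)) (br (lf 1520260) (k4 2626)))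
   (k4 2768)) (br (br (br (lf 1369760) (k4 2626)) (sy 836661)) (k4 2768))) (sy 1103410)) (br (br (br (br (br 
  (lf 1395905) (k4 2626)) (br (lf 1419376) (k4 2626))) (k4 2768)) (br (br (br (sy 443632) (k4 2626)) (sy 836661)
  ) (k4 2768))) (sy 1103410))) (k4 2833)) (br (br (br (br (br (br (br (lf 1521800) (k4 2626)) (k4 2115)) (k4 2768)
  ) (br (sy 1751169) (k4 2768))) (k4 1604)) (br (br (br (br (br (lf 1238657) (k4 2626)) (k4 2115)) (k4 2256)) (br 
  (br (br (lf 939400) (k4 2626)) (k4 2115)) (k4 2256))) (k4 1604))) (k4 2833)))) (k4 3354)) (k4 1093))))) (br 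
  (br (br (br (br (br (br (br (br (br (br (br (br (br (lf 1754704) (lf 1742104)) (sy 1751176)) (sy 1751176)) 
  (sy 1751176)) (br (br (br (br (lf 1743056) (sy 288939)) (sy 289002)) (sy 1751176)) (sy 1751176))) (br (br (br 
  (br (br (lf 1726032) (lf 1644867)) (br (lf 1725136) (sy 288428))) (br (br (lf 1661128) (sy 542325)) 
  (sy 1751176))) (sy 1751176)) (br (br (br (br (lf 1710611) (k4 2184)) (sy 289002)) (br (br (lf 1716330) 
  (k4 2184)) (sy 289002))) (sy 1751176)))) (br (br (br (br (br (br (lf 1725136) (sy 1725640)) (br (lf 1624784) 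
  (sy 288428))) (br (br (lf 1653512) (sy 1725640)) (br (lf 473256) (k4 1672)))) (br (br (br (lf 1623888) 
  (sy 575029)) (sy 840756)) (sy 877100))) (sy 1102899)) (sy 1139243))) (br (br (br (br (br (br (br (lf 1718850) 
  (lf 1743056)) (sy 1751176)) (sy 1751176)) (sy 1751176)) (br (br (br (br (lf 1251138) (sy 288939)) (k4 2248)) 
  (sy 1751176)) (sy 1751176))) (br (br (br (br (br (lf 1726018) (lf 1253469)) (br (lf 1688106) (sy 288428))) 
  (k4 2256)) (sy 1751176)) (sy 1062005))) (br (sy 1725640) (sy 1139243)))) (k4 2841)) (k4 3354)) (sy 1361458)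
  ) (br (br (br (br (br (br (br (br (br (br (br (lf 1525384) (lf 1516312)) (sy 1521744)) (sy 1751176)) (sy 1751176))
   (sy 1525328)) (br (br (br (br (br (lf 1746955) (sy 546931)) (br (lf 1521800) (sy 546931))) (sy 547057)) 
  (sy 1751176)) (br (br (br (br (lf 1523851) (k4 2184)) (sy 289002)) (sy 547057)) (sy 1751176)))) (br (br (br (br 
  (br (br (lf 1516312) (lf 469784)) (sy 1525328)) (br (br (lf 1516256) (sy 546420)) (br (lf 343364) (k4 1672))))
   (br (br (br (lf 1401624) (sy 575029)) (sy 840756)) (sy 877100))) (sy 1102899)) (sy 1139243))) (br (br (br (br 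
  (br (br (br (lf 1525384) (lf 1525265)) (sy 1521744)) (sy 1751176)) (sy 1751176)) (sy 1525328)) (br (br (br (br 
  (br (lf 1724569) (sy 546931)) (br (lf 218897) (sy 546931))) (k4 2256)) (sy 1751176)) (sy 1062005))) (br (br 
  (br (br (br (br (lf 1238664) (sy 1266776)) (sy 1525328)) (br (br (lf 1660680) (sy 546420)) (sy 803957))) (br 
  (br (br (lf 1168776) (sy 575029)) (sy 840756)) (sy 877100))) (sy 1102899)) (sy 1139243)))) (k4 2841)) 
  (k4 3354)) (sy 1361458))) (sy 1361584)) (sy 1434146))) (k4 3411)) (sy 1466906))) (k4 3412)) (k4 3357))) 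
  (sy 1656361)) (sy 1656424)) (sy 1692705)) (sy 1692768))

theorem t8_ok : check RT t8 25 777 = true := by decide +kernel

def t9 : Cert :=
  (sy 1725465)

theorem t9_ok : check RT t9 26 389 = true := by decide +kernel

def t10 : Cert :=
  (sy 1725528)

theorem t10_ok : check RT t10 27 195 = true := by decide +kernel

def t11 : Cert :=
  (k4 2846)

theorem t11_ok : check RT t11 29 49 = true := by decide +kernel

def t12 : Cert :=
  (sy 1754641)

theorem t12_ok : check RT t12 30 25 = true := by decide +kernel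

def t13 : Cert :=
  (sy 1754704)

theorem t13_ok : check RT t13 31 13 = true := by decide +kernel

def t14 : Cert :=
  (br (br (br (br (br (br (br (br (br (br (br (br (br (br (br (br (br (br (br (br (br (br (br (br (br (br (br (lf 1754760) 
  (sy 1747144)) (sy 1751176)) (sy 1750273)) (sy 1750280)) (br (br (br (br (lf 1754760) (sy 1754312)) (br 
  (lf 1741082) (lf 479514))) (sy 1750273)) (sy 1750280))) (sy 1754305)) (sy 1754312)) (sy 1754753)) (br (br 
  (br (br (br (br (br (br (lf 1754760) (lf 1754760)) (sy 1751176)) (sy 1751176)) (sy 1751176)) (br (br (br (br 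
  (lf 1266370) (lf 420504)) (k4 2241)) (sy 1751176)) (sy 1751176))) (br (br (br (br (br (lf 1266888) 
  (sy 1754305)) (br (lf 1005585) (lf 1265754))) (sy 1747137)) (sy 1751176)) (br (br (br (br (lf 1265754) 
  (k4 2184)) (k4 2241)) (sy 1747137)) (sy 1751176)))) (br (br (br (br (br (br (lf 1753808) (sy 1754312)) (br 
  (lf 420560) (lf 406952))) (br (br (lf 1267336) (sy 1754312)) (br (lf 858536) (k4 1672)))) (k4 2257)) 
  (sy 1094709)) (sy 1754312))) (br (br (br (br (br (br (br (lf 1174152) (lf 1174152)) (k4 2115)) (sy 1751169)) 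
  (sy 1751176)) (k4 1604)) (sy 1754753)) (br (br (br (br (br (br (lf 1267280) (lf 1120168)) (k4 2115)) (br (br 
  (lf 929096) (lf 929096)) (k4 2115))) (k4 2257)) (k4 1604)) (br (br (br (br (br (lf 1267336) (k4 2114)) 
  (k4 2115)) (k4 2256)) (k4 2257)) (k4 1092)))))) (br (br (br (br (br (br (br (br (br (lf 1754760) (sy 1747144)) 
  (sy 1751176)) (sy 1750273)) (sy 1750280)) (br (br (br (br (lf 1754760) (sy 1754312)) (br (lf 1754760) 
  (lf 1156008))) (sy 1750273)) (sy 1750280))) (sy 1754305)) (sy 1754312)) (sy 1754753)) (br (br (br (br (br (br 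
  (br (br (lf 1174152) (lf 671048)) (sy 1751176)) (sy 1751176)) (k4 2187)) (br (br (br (br (lf 1174152) 
  (lf 1095080)) (k4 2241)) (sy 1751176)) (k4 2187))) (br (br (br (br (br (lf 1129800) (sy 1754305)) (br 
  (lf 944776) (lf 1129800))) (k4 2242)) (k4 2187)) (br (br (br (br (lf 1266888) (k4 2184)) (k4 2241)) (k4 2242))
   (k4 2187)))) (k4 1676)) (br (br (br (sy 1155637) (k4 1604)) (k4 1668)) (k4 1676))))) (sy 1525384)) 
  (sy 1517761)) (sy 1517768)) (sy 1521793)) (sy 1521800)) (k4 3285)) (sy 1525377)) (sy 1525384)) (k4 3349)) 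
  (k4 3357)) (br (br (br (br (br (br (br (br (br (br (br (br (br (br (br (br (br (br (br (br (lf 1754760) (sy 1747144)) 
  (sy 1751176)) (sy 1750273)) (sy 1750280)) (br (br (br (br (lf 1741082) (sy 1754312)) (br (lf 1608474) 
  (sy 288981))) (sy 1750273)) (sy 1750280))) (sy 1754305)) (sy 1754312)) (sy 1754753)) (br (br (br (br (br (br 
  (br (br (lf 1743056) (lf 1626275)) (sy 1751176)) (sy 1751176)) (sy 1751176)) (br (br (br (br (lf 1628354) 
  (sy 281757)) (k4 2241)) (sy 1751176)) (sy 1751176))) (br (br (br (br (br (lf 1753178) (sy 1754305)) (br 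
  (lf 1607466) (sy 277669))) (sy 1747137)) (sy 1751176)) (br (br (br (br (lf 1246042) (k4 2184)) (k4 2241)) 
  (sy 1747137)) (sy 1751176)))) (br (br (br (br (br (br (lf 1743056) (sy 1754312)) (br (lf 473424) (sy 277669))) 
  (br (br (lf 1754760) (sy 1754312)) (br (lf 1677956) (k4 1672)))) (k4 2257)) (br (br (br (br (sy 394933) 
  (k4 2177)) (k4 2241)) (br (br (sy 394933) (k4 2177)) (k4 2241))) (k4 2257))) (sy 1754312))) (br (br (br (br (br 
  (br (br (lf 1754690) (lf 1607914)) (k4 2115)) (sy 1751169)) (sy 1751176)) (k4 1604)) (sy 1754753)) (br (br 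
  (br (br (br (br (lf 1260112) (lf 1710618)) (k4 2115)) (br (br (lf 1690248) (lf 59605)) (k4 2115))) (k4 2257)) 
  (k4 1604)) (br (br (br (br (br (lf 1267336) (k4 2114)) (k4 2115)) (k4 2256)) (k4 2257)) (k4 1092)))))) (br (br 
  (br (br (br (br (br (br (br (lf 1754760) (sy 1747144)) (sy 1751176)) (sy 1750273)) (sy 1750280)) (br (br (br (br 
  (lf 1753626) (sy 1754312)) (br (lf 1716778) (sy 288981))) (sy 1750273)) (sy 1750280))) (sy 1754305)) 
  (sy 1754312)) (sy 1754753)) (br (br (br (br (br (br (br (br (lf 1754760) (lf 1754760)) (sy 1751176)) 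
  (sy 1751176)) (k4 2187)) (br (br (br (br (lf 1258320) (sy 281757)) (k4 2241)) (sy 1751176)) (k4 2187))) (br 
  (br (br (br (br (lf 1266888) (sy 1754305)) (br (lf 1716554) (sy 277669))) (k4 2242)) (k4 2187)) (br (br (br (br 
  (lf 1265754) (k4 2184)) (k4 2241)) (k4 2242)) (k4 2187)))) (k4 1676)) (br (br (br (br (br (br (sy 1155637) 
  (k4 2115)) (k4 2179)) (k4 2187)) (k4 1604)) (k4 1668)) (k4 1676))))) (br (br (br (br (br (br (br (br (br (br 
  (lf 1741082) (sy 1747144)) (sy 1751176)) (sy 1750273)) (sy 1750280)) (br (br (br (br (lf 1741082) (sy 289555)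
  ) (sy 289562)) (sy 1750273)) (sy 1750280))) (sy 1754305)) (sy 1754312)) (sy 1754753)) (br (br (br (br (br (br 
  (br (br (lf 1741082) (lf 1741082)) (sy 1751176)) (sy 1751176)) (sy 1751176)) (br (br (br (br (sy 281946) 
  (sy 289555)) (k4 2241)) (sy 1751176)) (sy 1751176))) (br (br (br (br (br (lf 1753178) (sy 44387)) (br 
  (sy 277858) (sy 289492))) (sy 1747137)) (sy 1751176)) (br (br (br (br (sy 281946) (k4 2184)) (k4 2241)) 
  (sy 1747137)) (sy 1751176)))) (br (br (br (br (br (br (lf 1742874) (sy 273763)) (br (sy 277858) (sy 289492))) 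
  (br (br (lf 480928) (sy 273763)) (br (sy 277858) (k4 1672)))) (k4 2257)) (br (br (br (br (sy 281946) (k4 2177)) 
  (k4 2241)) (br (br (sy 281946) (k4 2177)) (k4 2241))) (k4 2257))) (sy 1754312))) (br (br (br (br (br (br (br 
  (lf 1741082) (sy 289443)) (k4 2115)) (sy 1751169)) (sy 1751176)) (k4 1604)) (sy 1754753)) (br (br (br (br (br 
  (br (lf 1743042) (sy 273763)) (k4 2115)) (br (br (lf 1751106) (sy 273763)) (k4 2115))) (k4 2257)) (k4 1604)) 
  (br (br (br (br (br (lf 1084762) (k4 2114)) (k4 2115)) (k4 2256)) (k4 2257)) (k4 1092)))))) (br (br (br (br (br 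
  (br (br (br (br (lf 1754760) (sy 1747144)) (sy 1751176)) (sy 1750273)) (sy 1750280)) (br (br (br (br 
  (lf 1741082) (sy 289555)) (sy 289562)) (sy 1750273)) (sy 1750280))) (sy 1754305)) (sy 1754312)) 
  (sy 1754753)) (br (br (br (br (br (br (br (br (lf 1754704) (lf 481474)) (sy 1751176)) (sy 1751176)) (k4 2187)) 
  (br (br (br (br (sy 281946) (sy 289555)) (k4 2241)) (sy 1751176)) (k4 2187))) (br (br (br (br (br (lf 1265754) 
  (sy 44387)) (br (sy 277858) (sy 289492))) (k4 2242)) (k4 2187)) (br (br (br (br (sy 281946) (k4 2184)) 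
  (k4 2241)) (k4 2242)) (k4 2187)))) (k4 1676)) (br (br (br (br (br (br (br (lf 1174082) (lf 481474)) (k4 2115)) 
  (k4 2179)) (k4 2187)) (k4 1604)) (k4 1668)) (k4 1676)))))) (sy 1517761)) (sy 1517768)) (sy 1521793)) 
  (sy 1521800)) (k4 3285)) (sy 1525377)) (sy 1525384)) (k4 3349)) (k4 3357))) (sy 1747137)) (sy 1747144)) 
  (sy 1751169)) (sy 1751176)) (k4 2774)) (sy 1754753))

theorem t14_ok : check RT t14 27 224 = true := by decide +kernel

def t15 : Cert :=
  (br (br (br (br (br (br (br (br (br (br (br (br (br (br (br (br (br (br (br (br (br (br (br (lf 1753808) (sy 1754312)) (br 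
  (lf 1749776) (lf 1626394))) (br (br (lf 1750273) (sy 1754312)) (br (lf 1751106) (k4 1672)))) (br (br (br 
  (lf 1743056) (sy 1754312)) (br (lf 1749664) (k4 1665))) (br (br (lf 1682184) (k4 1602)) (k4 1091)))) (br (br 
  (br (br (lf 1724954) (sy 1754312)) (br (lf 1753626) (lf 479514))) (br (br (lf 1753297) (sy 1754312)) (br 
  (lf 1578850) (k4 1672)))) (br (br (br (lf 1743056) (sy 1754312)) (br (lf 477904) (k4 1665))) (br (br 
  (lf 1680224) (k4 1602)) (k4 1091))))) (sy 1754312)) (sy 1754312)) (br (br (br (br (br (br (br (lf 1725962) 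
  (lf 1753171)) (br (lf 1690122) (lf 1579242))) (br (br (lf 1690129) (lf 1583841)) (br (lf 1673553) (k4 1672)))
  ) (br (br (br (lf 1754760) (lf 1712984)) (br (lf 1002064) (k4 1665))) (br (br (lf 1004808) (k4 1602)) (k4 1091)
  ))) (br (br (br (br (lf 1725962) (lf 1706586)) (k4 2248)) (br (br (lf 1706705) (lf 1246539)) (k4 2248))) (br 
  (br (br (lf 1710800) (lf 1709400)) (k4 2248)) (br (br (lf 1000769) (k4 1602)) (k4 1091))))) (br (br (br (br (br 
  (lf 1726081) (sy 1754312)) (br (lf 1706705) (lf 1075802))) (k4 2256)) (br (br (br (lf 1726088) (sy 1754312)) 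
  (br (lf 1174145) (k4 1665))) (k4 2256))) (sy 1054389))) (sy 1754312))) (br (br (br (br (br (br (br (br 
  (lf 1753808) (lf 1743056)) (br (lf 1620752) (lf 473410))) (br (br (lf 1718920) (lf 1645280)) (br (lf 989506) 
  (k4 1672)))) (br (br (br (lf 1628368) (lf 480536)) (br (sy 377909) (k4 1665))) (br (br (lf 1004640) (k4 1602)) 
  (k4 1091)))) (br (br (br (br (lf 1266384) (sy 1106154)) (k4 2241)) (br (br (lf 1260112) (sy 1106154)) (k4 2241)
  )) (br (br (sy 1107498) (k4 2241)) (br (sy 1107498) (k4 1091))))) (br (br (br (br (br (lf 1266888) (lf 1250648))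
   (br (lf 1252048) (lf 1250627))) (br (br (lf 1725640) (lf 682521)) (br (lf 1172808) (k4 1672)))) (br (br (br 
  (lf 1260112) (lf 419160)) (br (sy 377909) (k4 1665))) (br (br (lf 1688680) (k4 1602)) (k4 1091)))) 
  (sy 1106154))) (br (br (br (br (br (br (lf 1266384) (sy 1107176)) (sy 1107624)) (br (br (lf 1266384) 
  (sy 1107176)) (sy 1107624))) (k4 2257)) (sy 1107589)) (sy 1754312))) (br (br (br (br (br (br (br (lf 1726032) 
  (lf 1709890)) (k4 2115)) (br (br (lf 1174096) (lf 1002113)) (k4 2115))) (br (br (br (lf 1690192) (lf 989520)) 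
  (k4 2115)) (br (br (lf 943432) (k4 1602)) (k4 1091)))) (k4 1604)) (br (br (br (br (br (lf 1260112) (lf 1266755))
   (k4 2115)) (k4 2256)) (br (br (br (lf 1260112) (lf 1127301)) (k4 2115)) (k4 2256))) (k4 1604))) (br (br 
  (sy 1107624) (k4 1604)) (br (sy 1095045) (k4 1092)))))) (br (br (br (br (br (br (br (br (br (lf 1726088) 
  (sy 1754312)) (br (lf 1718920) (lf 1624784))) (br (br (lf 1754760) (sy 1754312)) (br (lf 1004801) (k4 1672)))
  ) (br (br (br (lf 1754760) (sy 1754312)) (br (lf 1004192) (k4 1665))) (br (br (lf 1681736) (k4 1602)) (k4 1091)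
  ))) (br (br (br (br (lf 1267336) (sy 1754312)) (br (lf 1252048) (lf 1108506))) (br (br (lf 1267336) 
  (sy 1754312)) (br (lf 1174082) (k4 1672)))) (br (br (br (lf 1258824) (sy 1754312)) (br (lf 1258320) (k4 1665))
  ) (br (br (lf 878696) (k4 1602)) (k4 1091))))) (sy 1754312)) (sy 1754312)) (br (br (br (br (br (br (br 
  (lf 1267336) (lf 1726081)) (br (lf 944720) (lf 1172304))) (k4 2179)) (br (br (br (lf 943432) (lf 1688680)) 
  (br (lf 944776) (k4 1665))) (k4 2179))) (br (br (br (br (lf 1260168) (lf 1251866)) (k4 2248)) (k4 2179)) (br 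
  (br (br (lf 1260112) (lf 1172549)) (k4 2248)) (k4 2179)))) (k4 1668)) (sy 1754312))) (br (br (br (br (br (br (br 
  (br (lf 1726032) (lf 1725080)) (br (lf 1260112) (lf 1000272))) (br (br (lf 1172808) (lf 1652840)) (br 
  (lf 944720) (k4 1672)))) (k4 2187)) (sy 1107498)) (br (br (br (br (br (lf 1266888) (lf 1141448)) (br 
  (lf 1260112) (lf 1158213))) (k4 2242)) (k4 2187)) (sy 1094037))) (k4 1676)) (br (br (br (sy 1152053) 
  (k4 1604)) (k4 1668)) (k4 1676))))) (br (br (br (br (br (br (br (br (br (br (lf 1743056) (sy 1754312)) (br 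
  (lf 1742874) (lf 450842))) (br (br (lf 1750028) (sy 1754312)) (br (lf 1749524) (k4 1672)))) (br (br (br 
  (lf 1513680) (sy 1754312)) (br (lf 1513218) (k4 1665))) (br (br (lf 1520708) (k4 1602)) (k4 1091)))) (br (br 
  (br (br (lf 1753626) (sy 1754312)) (br (lf 1628186) (sy 284886))) (br (br (lf 1738842) (sy 279923)) (br 
  (sy 280434) (k4 1672)))) (br (br (br (lf 1513680) (sy 279923)) (br (sy 280434) (k4 1665))) (br (br (lf 1626324)
   (k4 1602)) (k4 1091))))) (sy 1754312)) (sy 1754312)) (br (br (br (br (br (br (br (lf 1753178) (lf 1753178)) 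
  (br (lf 1512994) (sy 47782))) (br (br (lf 1521674) (lf 217882)) (br (lf 1412194) (k4 1672)))) (br (br (br 
  (lf 1749776) (lf 1626324)) (br (lf 1358882) (k4 1665))) (br (br (lf 1691732) (k4 1602)) (k4 1091)))) (br (br 
  (br (br (lf 1466906) (sy 281267)) (k4 2248)) (br (br (lf 1445066) (sy 50526)) (k4 2248))) (br (br (br 
  (lf 1524250) (sy 279923)) (k4 2248)) (br (br (lf 1069810) (k4 1602)) (k4 1091))))) (br (br (br (br (br 
  (lf 1237201) (sy 1754312)) (br (lf 1330266) (sy 46438))) (k4 2256)) (br (br (br (lf 1724506) (sy 1754312)) 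
  (br (lf 170226) (k4 1665))) (k4 2256))) (sy 1054389))) (sy 1754312))) (br (br (br (br (br (br (br (br 
  (lf 1743056) (lf 1513624)) (br (lf 452354) (sy 277158))) (br (br (lf 1749762) (lf 1627360)) (br (lf 1369858) 
  (k4 1672)))) (br (br (br (lf 452368) (lf 452368)) (br (sy 377013) (k4 1665))) (br (br (lf 1513120) (k4 1602)) 
  (k4 1091)))) (br (br (br (sy 1106154) (k4 2241)) (br (sy 1106154) (k4 2241))) (br (br (sy 1106154) (k4 2241)) 
  (br (sy 1106154) (k4 1091))))) (br (br (br (br (br (lf 1266307) (lf 1448979)) (br (lf 1513498) (sy 277158))) 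
  (br (br (lf 1725465) (sy 71918)) (br (lf 428274) (k4 1672)))) (br (br (br (lf 1513624) (lf 476483)) (br 
  (sy 377013) (k4 1665))) (br (br (lf 1454768) (k4 1602)) (k4 1091)))) (sy 1106154))) (br (br (br (br (br (br 
  (lf 452816) (sy 404677)) (sy 1107624)) (br (br (lf 452816) (sy 404677)) (sy 1107624))) (k4 2257)) 
  (sy 1107589)) (sy 1754312))) (br (br (br (br (br (br (br (lf 1725122) (lf 1524250)) (k4 2115)) (br (br 
  (lf 1467914) (lf 1213170)) (k4 2115))) (br (br (br (lf 1513232) (lf 473410)) (k4 2115)) (br (br (lf 989954) 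
  (k4 1602)) (k4 1091)))) (k4 1604)) (br (br (br (br (br (lf 1265754) (lf 1084755)) (k4 2115)) (k4 2256)) (br (br 
  (br (lf 1097026) (lf 1103746)) (k4 2115)) (k4 2256))) (k4 1604))) (br (br (sy 1107624) (k4 1604)) (br 
  (sy 1095045) (k4 1092)))))) (br (br (br (br (br (br (br (br (br (lf 1753808) (sy 1754312)) (br (lf 1749776) 
  (lf 479444))) (br (br (lf 1520904) (sy 1754312)) (br (lf 1692180) (k4 1672)))) (br (br (br (lf 1520736) 
  (sy 1754312)) (br (lf 1520288) (k4 1665))) (br (br (lf 879200) (k4 1602)) (k4 1091)))) (br (br (br (br 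
  (lf 1266384) (sy 1754312)) (br (lf 1370138) (sy 284886))) (br (br (lf 1726081) (sy 279923)) (br (sy 280434) 
  (k4 1672)))) (br (br (br (lf 1370320) (sy 279923)) (br (sy 280434) (k4 1665))) (br (br (lf 1419376) (k4 1602)) 
  (k4 1091))))) (sy 1754312)) (sy 1754312)) (br (br (br (br (br (br (br (lf 1754690) (lf 1724947)) (br 
  (lf 1457162) (lf 1361458))) (k4 2179)) (br (br (br (lf 1726032) (lf 1451632)) (br (lf 1002050) (k4 1665))) 
  (k4 2179))) (br (br (br (br (lf 1266202) (sy 281267)) (k4 2248)) (k4 2179)) (br (br (br (lf 1252034) (sy 279923)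
  ) (k4 2248)) (k4 2179)))) (k4 1668)) (sy 1754312))) (br (br (br (br (br (br (br (br (lf 1467088) (lf 1513624)) 
  (br (lf 452354) (sy 277158))) (br (br (lf 1754760) (lf 1225840)) (br (lf 1005648) (k4 1672)))) (k4 2187)) 
  (sy 1107498)) (br (br (br (br (br (lf 1238608) (lf 1251971)) (br (lf 1174096) (sy 277158))) (k4 2242)) 
  (k4 2187)) (sy 1094037))) (k4 1676)) (br (br (br (sy 1152053) (k4 1604)) (k4 1668)) (k4 1676)))))) 
  (sy 1754312)) (sy 1754312)) (br (br (br (br (br (br (br (br (br (br (br (br (br (lf 1525384) (lf 1516067)) 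
  (sy 1521793)) (sy 1521793)) (br (sy 1521793) (sy 1521793))) (br (br (br (br (lf 1753178) (lf 1509459)) (br 
  (lf 1525314) (lf 217882))) (sy 1521793)) (br (sy 1521793) (sy 1521793)))) (br (br (br (br (br (lf 1523865) 
  (lf 1517579)) (br (lf 1525265) (lf 189140))) (sy 1521793)) (br (br (br (lf 1517768) (lf 1516067)) 
  (sy 1521793)) (sy 1521793))) (br (br (br (br (lf 1523802) (k4 2184)) (br (lf 1072330) (k4 2184))) (sy 1521793)
  ) (br (br (br (lf 1753178) (k4 2184)) (br (lf 51114) (k4 1665))) (sy 1521793))))) (br (br (br (br (br (br 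
  (lf 1753752) (lf 1747032)) (br (lf 1751120) (lf 481474))) (br (br (lf 1525384) (lf 1517768)) (sy 1521793))) 
  (br (br (br (lf 1746696) (lf 713440)) (br (lf 1620752) (k4 1665))) (sy 1521793))) (br (br (br (br (lf 1266195) 
  (k4 2177)) (br (lf 1266370) (k4 2177))) (br (br (lf 1753171) (k4 2177)) (br (lf 924994) (k4 1672)))) (br (br 
  (br (sy 1106987) (k4 2177)) (br (sy 401821) (k4 1665))) (sy 1521793)))) (br (br (br (br (br (lf 1754123) 
  (k4 2114)) (br (lf 1753626) (k4 2114))) (br (br (lf 1453081) (k4 2114)) (br (sy 808052) (k4 1672)))) (br (br 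
  (br (lf 1238216) (k4 2114)) (br (lf 1095080) (k4 1665))) (br (br (lf 714952) (k4 1602)) (k4 1091)))) (k4 1092)
  ))) (sy 1521793)) (br (br (br (br (br (br (br (br (lf 1754704) (lf 1742594)) (br (lf 1005634) (lf 843010))) (br 
  (br (lf 1435784) (lf 1434720)) (sy 807604))) (br (br (br (lf 1005648) (lf 1677984)) (sy 821422)) (br (br 
  (lf 975632) (k4 1602)) (k4 1091)))) (br (br (br (br (lf 1238594) (lf 1108506)) (k4 2241)) (br (br (lf 1238594) 
  (lf 117866)) (k4 2241))) (br (br (br (lf 1260112) (sy 405909)) (k4 2241)) (br (br (lf 944720) (k4 1602)) 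
  (k4 1091))))) (br (br (br (br (br (lf 1726081) (lf 1725059)) (br (lf 1521674) (lf 821674))) (br (br (lf 1227793)
   (lf 641921)) (sy 807604))) (br (br (br (lf 1693776) (lf 406952)) (sy 821422)) (br (br (lf 1002120) (k4 1602))
   (k4 1091)))) (sy 1106154))) (br (br (br (br (br (br (lf 1467984) (lf 1710800)) (br (lf 944706) (sy 406917))) 
  (br (br (lf 1690192) (lf 642376)) (sy 807604))) (k4 2257)) (sy 1107589)) (br (sy 1107176) (k4 1092)))) (br 
  (br (br (br (br (br (br (lf 1525314) (lf 944706)) (k4 2115)) (sy 1521793)) (br (sy 1521793) (sy 1521793))) 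
  (k4 1604)) (br (br (br (br (br (lf 1260049) (lf 1215690)) (k4 2115)) (k4 2256)) (br (br (br (lf 944706) 
  (lf 944706)) (k4 2115)) (k4 2256))) (k4 1604))) (br (br (sy 1107624) (k4 1604)) (br (sy 1095045) (k4 1092))))
  )) (br (br (br (br (br (br (br (br (br (lf 1525384) (lf 1525384)) (sy 1521793)) (sy 1521793)) (br (sy 1521793) 
  (sy 1521793))) (br (br (br (br (lf 1725969) (lf 1724555)) (br (lf 944706) (lf 924994))) (sy 1521793)) (br 
  (sy 1521793) (sy 1521793)))) (br (br (br (br (br (lf 1467585) (lf 1467417)) (br (lf 1467921) (lf 116081))) 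
  (k4 2242)) (br (br (br (lf 1525384) (lf 714952)) (sy 1521793)) (k4 2242))) (br (br (br (br (lf 1265873) 
  (k4 2184)) (br (lf 1167754) (k4 2184))) (k4 2242)) (br (br (br (lf 1223873) (k4 2184)) (br (lf 944776) 
  (k4 1665))) (k4 2242))))) (br (br (br (br (br (br (lf 1238664) (lf 1524936)) (br (lf 1693776) (lf 1091496))) 
  (br (br (lf 944776) (lf 743176)) (sy 808052))) (k4 2250)) (sy 1106987)) (br (sy 1119797) (k4 1092)))) 
  (sy 1521793)) (br (br (br (br (br (br (br (br (lf 969808) (lf 1690192)) (br (lf 969794) (lf 989968))) (br (br 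
  (lf 944769) (lf 994049)) (sy 795494))) (k4 2187)) (sy 1107498)) (br (br (br (br (br (lf 1170561) (lf 1226120))
   (br (lf 1174026) (lf 1170512))) (k4 2242)) (k4 2187)) (sy 1094037))) (k4 1676)) (br (br (br (sy 1152053) 
  (k4 1604)) (k4 1668)) (k4 1676))))) (sy 1521793)) (sy 1520897)) (sy 1754312))) (br (br (br (br (br (br (br (br 
  (br (br (br (br (br (br (lf 1513680) (lf 1512728)) (sy 1521800)) (sy 1521800)) (sy 1521800)) (br (br (br (br 
  (lf 1743056) (lf 1628179)) (br (lf 452802) (sy 280245))) (sy 1521800)) (sy 1521800))) (br (br (br (br (br 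
  (lf 1754200) (lf 1742083)) (br (lf 1754690) (lf 1742020))) (br (br (lf 1525384) (lf 713251)) (sy 1521800))) 
  (sy 1521800)) (br (br (br (br (lf 1524243) (k4 2184)) (br (lf 1266370) (k4 2184))) (br (br (lf 1754753) 
  (k4 2184)) (br (lf 47530) (k4 1672)))) (sy 1521800)))) (br (br (br (br (br (br (lf 1743056) (lf 1512728)) (br 
  (lf 481040) (lf 481040))) (br (br (lf 1513232) (lf 1516256)) (br (lf 1513232) (k4 1672)))) (br (br (br 
  (lf 1513680) (sy 345653)) (sy 1521800)) (sy 1521800))) (br (br (br (br (lf 1363152) (k4 2177)) (br (sy 396445)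
   (k4 2177))) (br (br (lf 481488) (k4 2177)) (br (sy 396445) (k4 1672)))) (br (br (br (sy 404509) (k4 2177)) (br 
  (sy 401821) (k4 1665))) (sy 1521800)))) (br (br (br (br (br (lf 1238104) (k4 2114)) (br (lf 1753752) (k4 2114))
  ) (br (br (lf 1266888) (k4 2114)) (br (lf 1152424) (k4 1672)))) (br (br (br (lf 420504) (k4 2114)) (br 
  (sy 371238) (k4 1665))) (br (br (lf 639912) (k4 1602)) (k4 1091)))) (k4 1092)))) (br (br (br (br (br (br (br 
  (lf 1525328) (lf 1513666)) (sy 1521800)) (sy 1521800)) (sy 1521800)) (br (br (br (br (lf 1267266) 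
  (lf 1725122)) (k4 2248)) (sy 1521800)) (sy 1521800))) (br (br (br (br (br (lf 1725969) (lf 1725507)) (br 
  (lf 1521730) (lf 115626))) (k4 2256)) (sy 1521800)) (sy 1054389))) (br (br (br (br (br (br (lf 1267280) 
  (lf 1753808)) (br (lf 976962) (lf 452816))) (br (br (lf 1751176) (lf 1095080)) (sy 792750))) (br (br (br 
  (lf 452816) (sy 345653)) (sy 839860)) (sy 1521800))) (sy 1106091)) (br (br (br (br (br (lf 1237712) (k4 2114))
   (br (lf 1219792) (k4 2114))) (k4 2256)) (br (br (br (lf 1258152) (k4 2114)) (sy 839860)) (k4 2256))) 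
  (k4 1092))))) (br (br (br (br (br (br (br (br (lf 1525328) (lf 452816)) (sy 1521800)) (sy 1521800)) (sy 1521800)
  ) (br (br (br (br (lf 1266384) (sy 405930)) (k4 2241)) (sy 1521800)) (sy 1521800))) (br (br (br (br (br 
  (lf 1267280) (lf 1753808)) (br (lf 975632) (sy 377202))) (br (br (lf 1525328) (lf 639912)) (sy 839986))) 
  (sy 1521800)) (sy 1106154))) (br (br (br (br (br (br (lf 1266384) (sy 406952)) (sy 408744)) (br (br (lf 1266384)
   (sy 406952)) (sy 408744))) (k4 2257)) (sy 1107589)) (br (sy 1107176) (k4 1092)))) (br (br (br (br (br (br (br 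
  (lf 1525314) (lf 1525328)) (k4 2115)) (sy 1521800)) (sy 1521800)) (k4 1604)) (br (br (br (br (br (lf 1260098) 
  (lf 1219778)) (k4 2115)) (k4 2256)) (sy 1521800)) (k4 1604))) (br (br (sy 1107624) (k4 1604)) (br 
  (sy 1095045) (k4 1092)))))) (br (br (br (br (br (br (br (br (br (lf 1525328) (lf 1512728)) (sy 1521800)) 
  (sy 1521800)) (sy 1521800)) (br (br (br (br (lf 1266384) (lf 1743000)) (br (lf 452802) (sy 280245))) 
  (sy 1521800)) (sy 1521800))) (br (br (br (br (br (lf 1524936) (lf 1747032)) (br (lf 1751176) (lf 1152368))) 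
  (k4 2242)) (sy 1521800)) (br (br (br (br (lf 1238608) (k4 2184)) (br (lf 1170512) (k4 2184))) (k4 2242)) 
  (sy 1521800)))) (br (br (br (br (br (br (lf 1467592) (lf 1266328)) (br (lf 1238608) (lf 406952))) (br (br 
  (lf 1238664) (lf 661416)) (br (lf 967792) (k4 1672)))) (k4 2250)) (sy 1106987)) (br (sy 1119797) (k4 1092)))
  ) (br (br (br (br (br (br (br (lf 944776) (lf 1525328)) (sy 1521800)) (k4 2179)) (sy 1521800)) (br (br (br (br 
  (lf 1260098) (lf 1237712)) (k4 2248)) (k4 2179)) (sy 1521800))) (k4 1668)) (br (br (br (br (br (br (lf 1227856)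
   (lf 1254120)) (br (lf 1154384) (lf 378280))) (k4 2179)) (k4 2250)) (sy 1089949)) (k4 1668)))) (br (br (br 
  (br (br (br (br (br (lf 1525328) (lf 944720)) (sy 841778)) (sy 1521800)) (k4 2187)) (sy 1107498)) (br (br (br 
  (br (br (lf 1227856) (lf 1139432)) (sy 841778)) (k4 2242)) (k4 2187)) (sy 1094037))) (k4 1676)) (br (br (br 
  (sy 1152053) (k4 1604)) (k4 1668)) (k4 1676))))) (sy 1521800)) (sy 1520904)) (sy 1520904)) (sy 1521800))) 
  (k4 3285)) (br (br (br (br (br (br (br (br (br (br (br (br (br (br (br (br (lf 1525384) (sy 1754312)) (br (lf 1524250) 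
  (lf 1524250))) (sy 1525377)) (br (br (br (lf 1753808) (sy 1754312)) (br (lf 1754704) (k4 1665))) (br (br 
  (lf 1525384) (k4 1602)) (k4 1091)))) (br (br (br (br (lf 1524250) (sy 1754312)) (br (lf 1237530) (lf 1104922))
  ) (sy 1525377)) (br (br (br (lf 1724954) (sy 1754312)) (br (lf 1252034) (k4 1665))) (br (br (lf 1524250) 
  (k4 1602)) (k4 1091))))) (sy 1524929)) (sy 1754312)) (sy 1525377)) (br (br (br (br (br (br (br (br (lf 1524432) 
  (lf 1753731)) (br (lf 1266370) (lf 1251866))) (br (br (lf 1525314) (lf 1753619)) (br (lf 941066) (k4 1672))))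
   (br (br (br (lf 1753808) (lf 1628312)) (br (lf 1002064) (k4 1665))) (br (br (lf 944776) (k4 1602)) (k4 1091)))
  ) (sy 1106154)) (br (br (br (br (br (lf 1265754) (sy 1524929)) (br (lf 1237698) (lf 1056090))) (sy 1524929)) 
  (br (br (br (lf 1238104) (lf 1092931)) (br (lf 1251138) (k4 1665))) (br (br (lf 1129352) (k4 1602)) (k4 1091)))
  ) (sy 1084650))) (br (br (sy 1107624) (sy 1107589)) (sy 1754312))) (br (br (br (br (br (br (br (lf 1238594) 
  (lf 1237530)) (k4 2115)) (sy 1525377)) (br (br (br (lf 1267280) (lf 1174082)) (k4 2115)) (br (br (lf 941192) 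
  (k4 1602)) (k4 1091)))) (k4 1604)) (sy 1525377)) (br (br (sy 1107624) (k4 1604)) (br (sy 1095045) (k4 1092)))
  ))) (br (br (br (br (br (br (br (br (br (lf 1525384) (sy 1754312)) (br (lf 1525314) (lf 1237530))) (sy 1525377)) 
  (br (br (br (lf 1525384) (sy 1754312)) (br (lf 1002064) (k4 1665))) (br (br (lf 875784) (k4 1602)) (k4 1091))))
   (br (br (br (br (lf 1237530) (sy 1754312)) (br (lf 1238594) (lf 1104922))) (sy 1525377)) (br (br (br 
  (lf 1238664) (sy 1754312)) (br (lf 1097026) (k4 1665))) (br (br (lf 1238664) (k4 1602)) (k4 1091))))) 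
  (sy 1524929)) (sy 1754312)) (sy 1525377)) (br (br (br (br (br (br (br (br (lf 1267280) (lf 1237656)) (br 
  (lf 1267280) (lf 1174096))) (br (br (lf 1174152) (lf 1174152)) (br (lf 1170442) (k4 1672)))) (k4 2187)) 
  (sy 1106154)) (br (br (br (br (br (lf 1238216) (sy 1524929)) (br (lf 1238664) (lf 1265754))) (k4 2242)) 
  (k4 2187)) (sy 1084650))) (k4 1676)) (br (br (br (sy 1151157) (k4 1604)) (k4 1668)) (k4 1676))))) 
  (sy 1525377)) (sy 1524929)) (sy 1754312)) (sy 1525377)) (br (sy 1521800) (sy 1521800))) (k4 3285))) 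
  (k4 3404)) (k4 3349)) (k4 3357)) (br (br (br (br (br (br (br (br (br (br (br (br (br (br (br (br (br (br (br (br 
  (lf 1742874) (sy 1754312)) (br (lf 1627906) (lf 1608474))) (br (br (lf 1742496) (sy 1754312)) (br 
  (lf 1608418) (k4 1672)))) (br (br (br (lf 1627808) (sy 1754312)) (br (lf 1627920) (k4 1665))) (br (br 
  (lf 1680224) (k4 1602)) (k4 1091)))) (k4 3329)) (sy 1754312)) (sy 1754312)) (br (br (br (br (br (br (br 
  (lf 1725962) (lf 1594131)) (br (lf 1594082) (lf 1578794))) (br (br (lf 1716554) (lf 1578220)) (br 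
  (lf 1587978) (k4 1672)))) (br (br (br (lf 1620304) (lf 1607011)) (br (lf 1677354) (k4 1665))) (br (br 
  (lf 1692705) (k4 1602)) (k4 1091)))) (k4 3329)) (br (br (br (br (br (lf 1706586) (sy 1754312)) (br (lf 1705802)
   (sy 46501))) (k4 2256)) (br (br (br (lf 1724506) (sy 1754312)) (br (lf 1687637) (k4 1665))) (k4 2256))) 
  (k4 3329))) (sy 1754312))) (br (br (br (br (br (br (br (br (lf 1725122) (lf 1628186)) (br (lf 1627906) 
  (sy 288421))) (br (br (lf 1620290) (lf 1623384)) (br (lf 1620738) (k4 1672)))) (br (br (br (lf 1620752) 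
  (lf 1620304)) (br (sy 377013) (k4 1665))) (br (br (lf 1677984) (k4 1602)) (k4 1091)))) (k4 3329)) (br (br (br 
  (br (br (lf 1725122) (lf 1709379)) (br (lf 1709610) (sy 288421))) (br (br (lf 1710611) (lf 1589917)) (br 
  (lf 1677354) (k4 1672)))) (br (br (br (lf 1709288) (lf 469021)) (br (sy 377013) (k4 1665))) (br (br 
  (lf 1681512) (k4 1602)) (k4 1091)))) (k4 3329))) (br (br (br (br (br (br (lf 1624784) (sy 419013)) (sy 419461))
   (br (br (lf 1624784) (sy 419013)) (sy 419461))) (k4 2257)) (k4 3329)) (sy 1754312))) (br (br (br (br (br (br 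
  (br (lf 1709890) (lf 1623594)) (k4 2115)) (br (br (lf 1690122) (lf 1671978)) (k4 2115))) (br (br (br 
  (lf 1688400) (lf 473256)) (k4 2115)) (br (br (lf 999978) (k4 1602)) (k4 1091)))) (k4 1604)) (br (br (br (br (br 
  (lf 1717058) (lf 1704605)) (k4 2115)) (k4 2256)) (br (br (br (lf 1258026) (lf 1709085)) (k4 2115)) (k4 2256))
  ) (k4 1604))) (br (br (sy 1107624) (k4 1604)) (br (sy 1095045) (k4 1092)))))) (br (br (br (br (br (br (br (br (br 
  (lf 1753808) (sy 1754312)) (br (lf 1688386) (lf 1608474))) (br (br (lf 1717576) (sy 1754312)) (br 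
  (lf 1673868) (k4 1672)))) (br (br (br (lf 1750112) (sy 1754312)) (br (lf 1676640) (k4 1665))) (br (br 
  (lf 1681736) (k4 1602)) (k4 1091)))) (k4 3329)) (sy 1754312)) (sy 1754312)) (br (br (br (br (br (br (br 
  (lf 1718920) (lf 1725122)) (br (lf 1688386) (lf 1673301))) (k4 2179)) (br (br (br (lf 1688680) (lf 1652840)) 
  (br (lf 1688232) (k4 1665))) (k4 2179))) (k4 3329)) (k4 1668)) (sy 1754312))) (br (br (br (br (br (br (br (br 
  (lf 1726032) (lf 1709288)) (br (lf 1688400) (sy 288421))) (br (br (lf 1688232) (lf 1681477)) (br (lf 989226) 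
  (k4 1672)))) (k4 2187)) (k4 3329)) (br (br (br (br (br (lf 1717352) (lf 1254120)) (br (lf 1250858) (sy 288421))
  ) (k4 2242)) (k4 2187)) (k4 3329))) (k4 1676)) (br (br (br (br (br (br (sy 1152053) (k4 2115)) (k4 2179)) 
  (k4 2187)) (k4 1604)) (k4 1668)) (k4 1676))))) (br (br (br (br (br (br (br (br (br (br (lf 1741082) (sy 1754312)) 
  (br (lf 1741082) (sy 289492))) (br (br (lf 1737498) (sy 1754312)) (br (lf 1594082) (k4 1672)))) (br (br (br 
  (lf 1627780) (sy 288099)) (br (sy 288610) (k4 1665))) (br (br (lf 1741012) (k4 1602)) (k4 1091)))) (k4 3329))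
   (sy 1754312)) (sy 1754312)) (br (br (br (br (br (br (br (lf 1738842) (lf 1626387)) (br (lf 1594082) (sy 289492)
  )) (br (br (lf 1738954) (sy 44380)) (br (sy 48482) (k4 1672)))) (br (br (br (lf 1741082) (sy 288099)) (br 
  (sy 288610) (k4 1665))) (br (br (lf 1626324) (k4 1602)) (k4 1091)))) (k4 3329)) (br (br (br (br (br (lf 1738842)
   (sy 44387)) (br (sy 48482) (sy 289492))) (k4 2256)) (br (br (br (lf 1710618) (sy 288099)) (br (sy 288610) 
  (k4 1665))) (k4 2256))) (k4 3329))) (sy 1754312))) (br (br (br (br (br (br (br (br (lf 1628186) (lf 481306)) (br 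
  (sy 288610) (sy 289492))) (br (br (lf 1742594) (sy 288099)) (br (sy 288610) (k4 1672)))) (br (br (br 
  (lf 481040) (sy 288099)) (br (sy 277858) (k4 1665))) (br (br (lf 481026) (k4 1602)) (k4 1091)))) (k4 3329)) 
  (br (br (br (br (br (lf 1753626) (sy 288099)) (br (sy 288610) (sy 289492))) (br (br (lf 1724954) (sy 44387)) (br 
  (sy 288610) (k4 1672)))) (br (br (br (lf 477904) (sy 288099)) (br (sy 277858) (k4 1665))) (br (br (lf 460971) 
  (k4 1602)) (k4 1091)))) (k4 3329))) (br (br (br (br (br (br (sy 419461) (sy 288099)) (sy 419461)) (br (br 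
  (sy 419461) (sy 288099)) (sy 419461))) (k4 2257)) (k4 3329)) (sy 1754312))) (br (br (br (br (br (br (br 
  (lf 1753794) (sy 289443)) (k4 2115)) (br (br (lf 1673826) (sy 288099)) (k4 2115))) (br (br (br (lf 476994) 
  (sy 288099)) (k4 2115)) (br (br (lf 1677634) (k4 1602)) (k4 1091)))) (k4 1604)) (br (br (br (br (br (lf 1266202)
   (sy 288099)) (k4 2115)) (k4 2256)) (br (br (br (lf 420378) (sy 288099)) (k4 2115)) (k4 2256))) (k4 1604))) 
  (br (br (sy 1107624) (k4 1604)) (br (sy 1095045) (k4 1092)))))) (br (br (br (br (br (br (br (br (br (lf 1743056) 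
  (sy 1754312)) (br (lf 1742874) (sy 289492))) (br (br (lf 1750084) (sy 1754312)) (br (lf 1594082) (k4 1672))))
   (br (br (br (lf 1742496) (sy 288099)) (br (sy 288610) (k4 1665))) (br (br (lf 1750084) (k4 1602)) (k4 1091))))
   (k4 3329)) (sy 1754312)) (sy 1754312)) (br (br (br (br (br (br (br (lf 1753626) (lf 1710611)) (br (lf 1620738) 
  (sy 289492))) (k4 2179)) (br (br (br (lf 1725122) (sy 288099)) (br (sy 288610) (k4 1665))) (k4 2179))) 
  (k4 3329)) (k4 1668)) (sy 1754312))) (br (br (br (br (br (br (br (br (lf 1753794) (lf 1628179)) (br (sy 288610) 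
  (sy 289492))) (br (br (lf 1753808) (sy 288099)) (br (sy 288610) (k4 1672)))) (k4 2187)) (k4 3329)) (br (br (br 
  (br (br (lf 1251866) (sy 288099)) (br (sy 288610) (sy 289492))) (k4 2242)) (k4 2187)) (k4 3329))) (k4 1676)) 
  (br (br (br (br (br (br (br (lf 1725122) (lf 477890)) (k4 2115)) (k4 2179)) (k4 2187)) (k4 1604)) (k4 1668)) 
  (k4 1676)))))) (sy 1754312)) (sy 1754312)) (br (br (br (br (br (br (br (br (br (br (br (br (br (lf 1754690) 
  (lf 1741075)) (br (lf 1749538) (lf 1741026))) (br (br (lf 1749153) (lf 1594068)) (br (lf 1691746) (k4 1672)))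
  ) (br (br (br (lf 1749776) (lf 1742356)) (br (lf 1677858) (k4 1665))) (br (br (lf 1692180) (k4 1602)) (k4 1091)
  ))) (k4 3329)) (br (br (br (br (br (lf 1738891) (lf 1594131)) (br (lf 1594082) (sy 46508))) (br (br (lf 1595153)
   (sy 71477)) (br (sy 103796) (k4 1672)))) (br (br (br (lf 1751169) (lf 1744988)) (br (lf 1749090) (k4 1665))) 
  (br (br (lf 1587852) (k4 1602)) (k4 1091)))) (k4 3329))) (br (br (br (br (br (br (lf 1753808) (lf 1626387)) (br 
  (lf 1742874) (sy 287973))) (br (br (lf 1753171) (lf 1737372)) (br (lf 1587796) (k4 1672)))) (br (br (br 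
  (lf 1627920) (sy 344309)) (br (lf 480788) (k4 1665))) (br (br (lf 1619296) (k4 1602)) (k4 1091)))) (k4 3329))
   (br (br (br (br (br (lf 1724947) (k4 2114)) (br (lf 1753626) (k4 2114))) (br (br (lf 1583897) (k4 2114)) (br 
  (sy 103796) (k4 1672)))) (br (br (br (lf 1754179) (k4 2114)) (br (lf 1628186) (k4 1665))) (br (br (lf 735301) 
  (k4 1602)) (k4 1091)))) (k4 1092)))) (br (br (br (br (br (br (br (lf 1749258) (lf 1595594)) (br (lf 1673994) 
  (sy 105266))) (br (br (lf 1749258) (lf 218722)) (sy 809102))) (br (br (br (lf 1691746) (lf 1742356)) 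
  (sy 807730)) (br (sy 808241) (k4 1091)))) (k4 3329)) (br (br (br (br (br (lf 1592010) (lf 215705)) (br 
  (sy 104818) (sy 105266))) (k4 2256)) (br (br (br (lf 1592010) (lf 213843)) (sy 807730)) (k4 2256))) (k4 3329)
  )) (br (br (br (br (br (br (lf 1724506) (lf 1724954)) (br (lf 1742874) (sy 105266))) (br (br (lf 1687889) 
  (lf 218897)) (sy 809102))) (br (br (br (lf 1710800) (sy 344309)) (sy 807730)) (br (sy 808241) (k4 1091)))) 
  (k4 3329)) (br (br (br (br (br (lf 1247897) (k4 2114)) (br (sy 104818) (k4 2114))) (k4 2256)) (br (br (br 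
  (lf 1250837) (k4 2114)) (sy 807730)) (k4 2256))) (k4 1092))))) (br (br (br (br (br (br (br (br (lf 1754690) 
  (lf 1741082)) (br (lf 1692194) (sy 288421))) (br (br (lf 1693762) (lf 1741026)) (sy 807604))) (br (br (br 
  (lf 1742608) (lf 480928)) (br (sy 377013) (k4 1665))) (br (br (lf 1677956) (k4 1602)) (k4 1091)))) (k4 3329))
   (br (br (br (br (br (lf 1724954) (lf 1724954)) (br (lf 1741026) (sy 288421))) (br (br (lf 1592010) (sy 71477)) 
  (sy 807604))) (br (br (br (lf 1718850) (lf 1626394)) (br (sy 377013) (k4 1665))) (br (br (lf 1004192) (k4 1602)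
  ) (k4 1091)))) (k4 3329))) (br (br (br (br (br (br (lf 1743056) (sy 419013)) (sy 419461)) (br (br (lf 1710800) 
  (sy 419013)) (sy 419461))) (k4 2257)) (k4 3329)) (br (sy 1107176) (k4 1092)))) (br (br (br (br (br (br (br 
  (lf 1693762) (lf 1741026)) (k4 2115)) (br (sy 809137) (k4 2115))) (br (br (br (lf 1690178) (lf 1677634)) 
  (k4 2115)) (br (sy 804174) (k4 1091)))) (k4 1604)) (br (br (br (br (br (lf 1725962) (lf 1592010)) (k4 2115)) 
  (k4 2256)) (br (br (br (lf 1690178) (lf 476714)) (k4 2115)) (k4 2256))) (k4 1604))) (br (br (sy 1107624) 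
  (k4 1604)) (br (sy 1095045) (k4 1092)))))) (br (br (br (br (br (br (br (br (br (lf 1751169) (lf 1749258)) (br 
  (lf 1692194) (lf 1594082))) (br (br (lf 1691921) (lf 1673889)) (sy 808052))) (br (br (br (lf 1749776) 
  (lf 1619268)) (br (lf 1678096) (k4 1665))) (br (br (lf 993825) (k4 1602)) (k4 1091)))) (k4 3329)) (br (br (br 
  (br (br (lf 1725633) (lf 1590603)) (br (lf 1592010) (sy 46508))) (k4 2242)) (br (br (br (lf 1726088) 
  (lf 737989)) (br (lf 1004304) (k4 1665))) (k4 2242))) (k4 3329))) (br (br (br (br (br (br (lf 1753808) 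
  (lf 1753731)) (br (lf 1624770) (sy 287973))) (br (br (lf 1692936) (lf 726565)) (sy 808052))) (k4 2250)) 
  (k4 3329)) (br (br (br (br (br (lf 1266699) (k4 2114)) (br (lf 1708245) (k4 2114))) (k4 2242)) (k4 2250)) 
  (k4 1092)))) (br (br (br (br (br (br (br (lf 1693706) (lf 1591121)) (sy 809074)) (k4 2179)) (br (br (br 
  (lf 1690241) (lf 1002064)) (sy 803670)) (k4 2179))) (k4 3329)) (k4 1668)) (br (br (br (br (br (br (lf 1260098) 
  (lf 1257613)) (sy 809074)) (k4 2179)) (k4 2250)) (k4 3329)) (k4 1668)))) (br (br (br (br (br (br (br (br 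
  (lf 1726018) (lf 1623888)) (br (lf 1678082) (sy 288421))) (br (br (lf 1690192) (lf 1004066)) (sy 795494))) 
  (k4 2187)) (k4 3329)) (br (br (br (br (br (lf 1267336) (lf 1249437)) (br (lf 1260042) (sy 288421))) (k4 2242)) 
  (k4 2187)) (k4 3329))) (k4 1676)) (br (br (br (br (br (br (sy 1151157) (k4 2115)) (k4 2179)) (k4 2187)) 
  (k4 1604)) (k4 1668)) (k4 1676))))) (br (br (br (br (br (br (br (br (br (br (lf 1511706) (lf 1511706)) (k4 2760)) 
  (sy 1521793)) (br (sy 1521793) (sy 1521793))) (k4 3329)) (br (br (br (br (br (lf 1738842) (sy 43939)) (k4 2760)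
  ) (sy 1521793)) (br (br (br (lf 1511706) (sy 288099)) (k4 2760)) (sy 1521793))) (k4 3329))) (br (br (br (br (br 
  (br (lf 1511699) (sy 288099)) (k4 2760)) (br (br (lf 1511706) (sy 288099)) (k4 2760))) (br (br (br (lf 1369284)
   (sy 273763)) (k4 2760)) (sy 1521793))) (k4 3329)) (br (br (br (br (br (lf 1753619) (k4 2114)) (k4 2760)) (br 
  (br (lf 1509515) (k4 2114)) (k4 2760))) (br (br (br (lf 450723) (k4 2114)) (k4 2760)) (br (br (lf 713251) 
  (k4 1602)) (k4 1091)))) (k4 1092)))) (sy 1521793)) (br (br (br (br (br (br (br (br (lf 1743042) (lf 1626394)) 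
  (k4 2760)) (br (br (lf 1519714) (sy 54684)) (k4 2760))) (br (br (br (lf 480802) (sy 288099)) (k4 2760)) (br (br 
  (lf 989716) (k4 1602)) (k4 1091)))) (k4 3329)) (br (br (br (br (br (lf 1753626) (sy 43939)) (k4 2760)) (br (br 
  (lf 1595146) (sy 44387)) (k4 2760))) (br (br (br (lf 450842) (sy 288099)) (k4 2760)) (br (br (lf 1336020) 
  (k4 1602)) (k4 1091)))) (k4 3329))) (br (br (br (br (br (br (sy 419461) (sy 288099)) (k4 2760)) (br (br 
  (sy 419461) (sy 288099)) (k4 2760))) (k4 2257)) (k4 3329)) (br (sy 1107176) (k4 1092)))) (br (br (br (br (br 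
  (br (br (lf 1511706) (sy 289443)) (k4 2115)) (sy 1521793)) (br (sy 1521793) (sy 1521793))) (k4 1604)) (br (br 
  (br (br (br (lf 219226) (sy 43939)) (k4 2115)) (k4 2256)) (br (br (br (lf 1525314) (sy 288099)) (k4 2115)) 
  (k4 2256))) (k4 1604))) (br (br (sy 1107624) (k4 1604)) (br (sy 1095045) (k4 1092)))))) (br (br (br (br (br (br 
  (br (br (br (lf 1525314) (lf 1511706)) (k4 2760)) (sy 1521793)) (br (sy 1521793) (sy 1521793))) (k4 3329)) 
  (br (br (br (br (br (lf 1738905) (sy 43939)) (k4 2760)) (k4 2242)) (br (br (br (lf 1517768) (sy 288099)) 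
  (k4 2760)) (k4 2242))) (k4 3329))) (br (br (br (br (br (br (lf 1742867) (sy 288099)) (k4 2760)) (br (br 
  (lf 1516067) (sy 288099)) (k4 2760))) (k4 2250)) (k4 3329)) (br (br (br (br (br (lf 1523795) (k4 2114)) 
  (k4 2760)) (k4 2242)) (k4 2250)) (k4 1092)))) (sy 1521793)) (br (br (br (br (br (br (br (br (lf 1742594) 
  (lf 450786)) (k4 2760)) (br (br (lf 1692418) (sy 54684)) (k4 2760))) (k4 2187)) (k4 3329)) (br (br (br (br (br 
  (lf 1466458) (sy 43939)) (k4 2760)) (k4 2242)) (k4 2187)) (k4 3329))) (k4 1676)) (br (br (br (br (br (br (br 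
  (lf 1525314) (lf 441602)) (k4 2115)) (k4 2179)) (k4 2187)) (k4 1604)) (k4 1668)) (k4 1676)))))) 
  (sy 1520897)) (sy 1754312))) (br (br (br (br (br (br (br (br (br (br (br (br (br (br (lf 1742608) (lf 1740956)) (br 
  (lf 1742370) (sy 277676))) (br (br (lf 1749762) (lf 1627780)) (br (lf 1677858) (k4 1672)))) (br (br (br 
  (lf 1742608) (lf 1627360)) (br (lf 481026) (k4 1665))) (br (br (lf 1627808) (k4 1602)) (k4 1091)))) (k4 3329)
  ) (br (br (br (br (br (lf 1742874) (lf 1742083)) (br (lf 1628354) (sy 277676))) (br (br (lf 1750273) 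
  (lf 1594012)) (br (lf 1749090) (k4 1672)))) (br (br (br (lf 1628312) (lf 480291)) (br (lf 480928) (k4 1665))) 
  (br (br (lf 1677984) (k4 1602)) (k4 1091)))) (k4 3329))) (br (br (br (br (br (br (lf 1743056) (lf 480536)) (br 
  (lf 481488) (sy 287973))) (br (br (lf 1627416) (lf 480291)) (br (lf 480788) (k4 1672)))) (br (br (br 
  (lf 480536) (sy 344309)) (br (sy 361844) (k4 1665))) (br (br (lf 1620640) (k4 1602)) (k4 1091)))) (k4 3329)) 
  (br (br (br (br (br (lf 1743000) (k4 2114)) (br (lf 481488) (k4 2114))) (br (br (lf 1624707) (k4 2114)) (br 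
  (lf 477904) (k4 1672)))) (br (br (br (lf 480536) (k4 2114)) (br (sy 361844) (k4 1665))) (br (br (lf 1645336) 
  (k4 1602)) (k4 1091)))) (k4 1092)))) (br (br (br (br (br (br (br (lf 1754690) (lf 1627906)) (br (lf 1620514) 
  (sy 277676))) (br (br (lf 1693762) (lf 1741012)) (br (sy 792750) (k4 1672)))) (br (br (br (lf 1692432) 
  (lf 480928)) (sy 839860)) (br (br (lf 1678096) (k4 1602)) (k4 1091)))) (k4 3329)) (br (br (br (br (br 
  (lf 1724954) (lf 1710611)) (br (lf 1751106) (sy 46501))) (k4 2256)) (br (br (br (lf 1710800) (lf 477904)) 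
  (sy 839860)) (k4 2256))) (k4 3329))) (br (br (br (br (br (br (lf 1624784) (lf 477848)) (br (lf 481474) 
  (sy 287973))) (br (br (lf 1710800) (lf 481488)) (br (sy 792750) (k4 1672)))) (br (br (br (lf 477904) 
  (sy 344309)) (sy 839860)) (br (br (lf 1677984) (k4 1602)) (k4 1091)))) (k4 3329)) (br (br (br (br (br 
  (lf 1252048) (k4 2114)) (br (lf 420546) (k4 2114))) (k4 2256)) (br (br (br (lf 1710800) (k4 2114)) (sy 839860)
  ) (k4 2256))) (k4 1092))))) (br (br (br (br (br (br (br (br (lf 1742608) (lf 481474)) (sy 377202)) (br (br 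
  (lf 1692432) (lf 480928)) (sy 377202))) (br (br (br (lf 481040) (sy 378224)) (sy 841862)) (br (sy 841008) 
  (k4 1091)))) (k4 3329)) (br (br (br (br (br (lf 1710800) (lf 477827)) (sy 377202)) (br (br (lf 1725122) 
  (lf 469763)) (sy 377202))) (br (br (br (lf 477904) (sy 378224)) (sy 841862)) (br (sy 841008) (k4 1091)))) 
  (k4 3329))) (br (br (br (br (br (sy 408744) (sy 408744)) (br (sy 408744) (sy 408744))) (k4 2257)) (k4 3329)) 
  (br (sy 1107176) (k4 1092)))) (br (br (br (br (br (br (br (lf 1751106) (lf 481474)) (k4 2115)) (br (br 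
  (lf 1000258) (lf 1677634)) (k4 2115))) (br (br (sy 841904) (k4 2115)) (br (sy 836934) (k4 1091)))) (k4 1604))
   (br (br (br (br (br (lf 1252034) (lf 419650)) (k4 2115)) (k4 2256)) (br (br (sy 841904) (k4 2115)) (k4 2256))) 
  (k4 1604))) (br (br (sy 1107624) (k4 1604)) (br (sy 1095045) (k4 1092)))))) (br (br (br (br (br (br (br (br (br 
  (lf 1753808) (lf 1627920)) (br (lf 1620738) (sy 277676))) (br (br (lf 1693832) (lf 1627780)) (br (lf 1677858)
   (k4 1672)))) (br (br (br (lf 1620640) (lf 1619296)) (sy 840756)) (br (br (lf 989856) (k4 1602)) (k4 1091)))) 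
  (k4 3329)) (br (br (br (br (br (lf 1754200) (lf 1710723)) (br (lf 1726032) (sy 277676))) (k4 2242)) (br (br (br 
  (lf 1653512) (lf 469728)) (sy 840756)) (k4 2242))) (k4 3329))) (br (br (br (br (br (br (lf 1743056) (lf 481432)
  ) (br (lf 473424) (sy 287973))) (br (br (lf 1653512) (lf 469784)) (br (lf 472360) (k4 1672)))) (k4 2250)) 
  (k4 3329)) (br (br (br (br (br (lf 1725080) (k4 2114)) (br (lf 1624784) (k4 2114))) (k4 2242)) (k4 2250)) 
  (k4 1092)))) (br (br (br (br (br (br (br (lf 1754690) (lf 1710800)) (br (lf 1688386) (sy 277676))) (k4 2179)) 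
  (br (br (br (lf 1677648) (lf 473872)) (sy 827750)) (k4 2179))) (k4 3329)) (k4 1668)) (br (br (br (br (br (br 
  (lf 1266384) (lf 1710800)) (br (lf 1709904) (sy 287973))) (k4 2179)) (k4 2250)) (k4 3329)) (k4 1668)))) (br 
  (br (br (br (br (br (br (br (lf 1620752) (lf 477008)) (sy 377202)) (br (br (lf 1000272) (lf 473256)) (sy 377202))
  ) (k4 2187)) (k4 3329)) (br (br (br (br (br (lf 1267280) (lf 1710800)) (sy 377202)) (k4 2242)) (k4 2187)) 
  (k4 3329))) (k4 1676)) (br (br (br (br (br (br (sy 1152053) (k4 2115)) (k4 2179)) (k4 2187)) (k4 1604)) 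
  (k4 1668)) (k4 1676))))) (br (br (br (br (br (br (br (br (br (br (lf 1513666) (sy 289443)) (k4 2753)) (sy 1521800)
  ) (sy 1521800)) (k4 3329)) (br (br (br (br (br (lf 1742874) (sy 289443)) (k4 2753)) (br (br (lf 1508003) 
  (sy 44387)) (k4 2753))) (sy 1521800)) (k4 3329))) (br (br (br (br (br (br (lf 481432) (sy 288099)) (k4 2753)) 
  (br (br (lf 1512707) (sy 288099)) (k4 2753))) (br (br (br (lf 451864) (sy 273763)) (k4 2753)) (sy 1521800))) 
  (k4 3329)) (br (br (br (br (br (lf 452627) (k4 2114)) (k4 2753)) (br (br (lf 1511587) (k4 2114)) (k4 2753))) (br 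
  (br (br (lf 452760) (k4 2114)) (k4 2753)) (br (br (lf 451619) (k4 1602)) (k4 1091)))) (k4 1092)))) (br (br (br 
  (br (br (br (br (lf 1513666) (sy 289443)) (k4 2753)) (sy 1521800)) (sy 1521800)) (k4 3329)) (br (br (br (br (br 
  (lf 1753626) (sy 289443)) (k4 2753)) (k4 2256)) (sy 1521800)) (k4 3329))) (br (br (br (br (br (br (lf 1370138) 
  (sy 288099)) (k4 2753)) (br (br (lf 479458) (sy 288099)) (k4 2753))) (br (br (br (lf 452802) (sy 273763)) 
  (k4 2753)) (sy 1521800))) (k4 3329)) (br (br (br (br (br (lf 445459) (k4 2114)) (k4 2753)) (k4 2256)) (br (br 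
  (br (lf 445648) (k4 2114)) (k4 2753)) (k4 2256))) (k4 1092))))) (br (br (br (br (br (br (br (br (lf 1513666) 
  (sy 289443)) (k4 2753)) (sy 1521800)) (sy 1521800)) (k4 3329)) (br (br (br (br (br (lf 1370138) (sy 289443)) 
  (k4 2753)) (br (br (lf 450842) (sy 44387)) (k4 2753))) (sy 1521800)) (k4 3329))) (br (br (br (br (br (sy 408744)
   (k4 2753)) (br (sy 408744) (k4 2753))) (k4 2257)) (k4 3329)) (br (sy 1107176) (k4 1092)))) (br (br (br (br (br 
  (br (br (lf 452802) (sy 289443)) (k4 2115)) (sy 1521800)) (sy 1521800)) (k4 1604)) (br (br (br (br (br 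
  (lf 420546) (sy 289443)) (k4 2115)) (k4 2256)) (sy 1521800)) (k4 1604))) (br (br (sy 1107624) (k4 1604)) (br 
  (sy 1095045) (k4 1092)))))) (br (br (br (br (br (br (br (br (br (lf 1513666) (sy 289443)) (k4 2753)) (sy 1521800)
  ) (sy 1521800)) (k4 3329)) (br (br (br (br (br (lf 1753752) (sy 289443)) (k4 2753)) (k4 2242)) (sy 1521800)) 
  (k4 3329))) (br (br (br (br (br (br (lf 1370320) (sy 288099)) (k4 2753)) (br (br (lf 452256) (sy 288099)) 
  (k4 2753))) (k4 2250)) (k4 3329)) (br (br (br (br (br (lf 1370243) (k4 2114)) (k4 2753)) (k4 2242)) (k4 2250)) 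
  (k4 1092)))) (br (br (br (br (br (br (br (lf 1525314) (sy 289443)) (k4 2753)) (k4 2179)) (sy 1521800)) (k4 3329)
  ) (k4 1668)) (br (br (br (br (br (br (lf 1108674) (sy 288099)) (k4 2753)) (k4 2179)) (k4 2250)) (k4 3329)) 
  (k4 1668)))) (br (br (br (br (br (br (br (br (lf 452816) (sy 289443)) (k4 2753)) (sy 1521800)) (k4 2187)) 
  (k4 3329)) (br (br (br (br (br (lf 1252034) (sy 289443)) (k4 2753)) (k4 2242)) (k4 2187)) (k4 3329))) (k4 1676)
  ) (br (br (br (br (br (br (sy 1152053) (k4 2115)) (k4 2179)) (k4 2187)) (k4 1604)) (k4 1668)) (k4 1676)))))) 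
  (sy 1520904)) (sy 1520904)) (sy 1521800))) (k4 3285)) (br (br (br (br (br (br (br (br (br (br (br (br (br (br (br (br 
  (lf 1753178) (sy 1754312)) (br (lf 1737498) (lf 1737498))) (br (br (lf 1738842) (sy 1754312)) (br 
  (lf 1594082) (k4 1672)))) (br (br (br (lf 1742874) (sy 1754312)) (br (lf 1742594) (k4 1665))) (br (br 
  (lf 1754753) (k4 1602)) (k4 1091)))) (k4 3329)) (sy 1754312)) (sy 1754312)) (br (br (br (br (br (br (br 
  (lf 1753290) (lf 1706586)) (br (lf 1753178) (lf 1590106))) (br (br (lf 1724618) (lf 219345)) (br (sy 104629) 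
  (k4 1672)))) (br (br (br (lf 1724618) (lf 1753178)) (br (lf 1742370) (k4 1665))) (br (br (lf 1595594) (k4 1602)
  ) (k4 1091)))) (k4 3329)) (br (br (br (br (br (lf 1724506) (sy 1754312)) (br (lf 215642) (sy 46501))) (k4 2256)
  ) (br (br (br (lf 1247953) (sy 1754312)) (br (lf 1592010) (k4 1665))) (k4 2256))) (k4 3329))) (sy 1754312))) 
  (br (br (br (br (br (br (br (br (lf 1725122) (lf 1710618)) (br (lf 1710786) (sy 288421))) (br (br (lf 1725122) 
  (lf 1753626)) (br (lf 1741026) (k4 1672)))) (br (br (br (lf 1753794) (lf 481488)) (br (sy 377013) (k4 1665))) 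
  (br (br (lf 1725122) (k4 1602)) (k4 1091)))) (k4 3329)) (br (br (br (br (br (lf 1265754) (lf 1251859)) (br 
  (lf 1266202) (sy 288421))) (br (br (lf 1247946) (sy 71925)) (br (lf 1592010) (k4 1672)))) (br (br (br 
  (lf 1724947) (lf 418859)) (br (sy 377013) (k4 1665))) (br (br (lf 1266328) (k4 1602)) (k4 1091)))) (k4 3329))
  ) (br (br (br (br (br (br (lf 1266384) (sy 419013)) (sy 419461)) (br (br (lf 1266384) (sy 419013)) (sy 419461)))
   (k4 2257)) (k4 3329)) (sy 1754312))) (br (br (br (br (br (br (br (lf 1267210) (lf 1266202)) (k4 2115)) (br (br 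
  (lf 1705802) (lf 1706586)) (k4 2115))) (br (br (br (lf 1266370) (lf 420546)) (k4 2115)) (br (br (lf 1718850) 
  (k4 1602)) (k4 1091)))) (k4 1604)) (br (sy 1070769) (k4 1604))) (br (br (sy 1107624) (k4 1604)) (br 
  (sy 1095045) (k4 1092)))))) (br (br (br (br (br (br (br (br (br (lf 1753808) (sy 1754312)) (br (lf 1724954) 
  (lf 1753626))) (br (br (lf 1753297) (sy 1754312)) (br (lf 1592010) (k4 1672)))) (br (br (br (lf 1726088) 
  (sy 1754312)) (br (lf 1710786) (k4 1665))) (br (br (lf 1717576) (k4 1602)) (k4 1091)))) (k4 3329)) 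
  (sy 1754312)) (sy 1754312)) (br (br (br (br (br (br (br (lf 1724625) (lf 1247834)) (br (lf 1718794) (lf 213850))
  ) (k4 2179)) (br (br (br (lf 1260049) (lf 1266881)) (br (lf 1690122) (k4 1665))) (k4 2179))) (k4 3329)) 
  (k4 1668)) (sy 1754312))) (br (br (br (br (br (br (br (br (lf 1726018) (lf 1725136)) (br (lf 1266370) (sy 288421)
  )) (br (br (lf 1260042) (lf 1266307)) (br (lf 1690122) (k4 1672)))) (k4 2187)) (k4 3329)) (br (br (br (br (br 
  (lf 1265873) (lf 1249451)) (br (lf 1250858) (sy 288421))) (k4 2242)) (k4 2187)) (k4 3329))) (k4 1676)) (br 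
  (br (br (sy 1151157) (k4 1604)) (k4 1668)) (k4 1676))))) (br (br (br (br (br (br (br (br (br (br (lf 1511706) 
  (sy 1754312)) (br (lf 1511706) (sy 289492))) (sy 1525377)) (br (br (br (lf 1742874) (sy 288099)) (br 
  (sy 288610) (k4 1665))) (br (br (lf 1511706) (k4 1602)) (k4 1091)))) (k4 2824)) (sy 1524929)) (sy 1754312)) 
  (sy 1525377)) (br (br (br (br (br (br (br (br (lf 1753626) (lf 450842)) (br (sy 288610) (sy 289492))) (br (br 
  (lf 1524250) (sy 54691)) (br (sy 288610) (k4 1672)))) (br (br (br (lf 452802) (sy 288099)) (br (sy 277858) 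
  (k4 1665))) (br (br (lf 452634) (k4 1602)) (k4 1091)))) (k4 2824)) (br (br (br (br (br (lf 1265754) (sy 54691)) 
  (br (sy 288610) (sy 289492))) (sy 1524929)) (br (br (br (lf 1266195) (sy 54691)) (br (sy 277858) (k4 1665))) 
  (br (br (lf 1737498) (k4 1602)) (k4 1091)))) (k4 2824))) (br (br (br (br (br (br (lf 1370138) (sy 288099)) 
  (sy 419461)) (br (br (lf 1724954) (sy 288099)) (sy 419461))) (k4 2257)) (k4 2824)) (sy 1754312))) (br (br (br 
  (br (br (br (br (lf 1524250) (lf 1237530)) (k4 2115)) (sy 1525377)) (br (br (br (lf 1724954) (sy 288099)) 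
  (k4 2115)) (br (br (lf 975394) (k4 1602)) (k4 1091)))) (k4 1604)) (sy 1525377)) (br (br (sy 1107624) (k4 1604)
  ) (br (sy 1095045) (k4 1092)))))) (br (br (br (br (br (br (br (br (br (lf 1524250) (sy 1754312)) (br (lf 1511706) 
  (sy 289492))) (sy 1525377)) (br (br (br (lf 1753808) (sy 288099)) (br (sy 288610) (k4 1665))) (br (br 
  (lf 1525384) (k4 1602)) (k4 1091)))) (k4 2824)) (sy 1524929)) (sy 1754312)) (sy 1525377)) (br (br (br (br (br 
  (br (br (br (lf 1753626) (lf 477715)) (br (sy 288610) (sy 289492))) (br (br (lf 1237530) (sy 54691)) (br 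
  (sy 288610) (k4 1672)))) (k4 2187)) (k4 2824)) (br (br (br (br (br (lf 1265754) (sy 54691)) (br (sy 288610) 
  (sy 289492))) (k4 2242)) (k4 2187)) (k4 2824))) (k4 1676)) (br (br (br (sy 1151157) (k4 1604)) (k4 1668)) 
  (k4 1676)))))) (sy 1524929)) (sy 1754312)) (sy 1525377)) (br (sy 1521800) (sy 1521800))) (k4 3285))) 
  (k4 3404)) (k4 3349)) (k4 3357))) (sy 1754312)) (sy 1754312))

theorem t15_ok : check RT t15 23 3600 = true := by decide +kernel

end K4m.C
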