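import Pool.Agent.Lib.MP_392c14_co.CRep

/-! Certificates, checked by the kernel (part 1) -/

set_option autoImplicit false
set_option maxRecDepth 100000

namespace K4m.C

open Cert

def t16 : Cert :=
  (br (br (br (br (br (br (br (br (br (br (br (br (br (br (br (br (br (br (br (br (lf 1751106) (lf 1746696)) (sy 1751169)) 
  (sy 1751169)) (br (sy 1751169) (sy 1751169))) (br (br (br (br (lf 1753290) (lf 1628186)) (br (lf 1579802) 
  (lf 1579802))) (sy 1751169)) (br (sy 1751169) (sy 1751169)))) (br (br (br (br (br (lf 1754137) (lf 1712473)) 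
  (br (lf 1705809) (lf 1585836))) (sy 1751169)) (br (br (br (lf 1690248) (lf 1658979)) (sy 1751169)) 
  (sy 1751169))) (br (br (br (br (lf 1706649) (k4 2184)) (br (lf 1590890) (k4 2184))) (sy 1751169)) (br (br (br 
  (lf 1710611) (k4 2184)) (br (lf 1579221) (k4 1665))) (sy 1751169))))) (br (br (br (br (br (br (lf 1754760) 
  (lf 1616216)) (br (lf 1623874) (lf 1607837))) (br (br (lf 1746696) (lf 1639267)) (sy 1751169))) (br (br (br 
  (lf 1628312) (lf 1616664)) (br (lf 1677480) (k4 1665))) (sy 1751169))) (br (br (br (br (lf 1710723) (k4 2177))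
   (br (lf 1623874) (k4 2177))) (br (br (lf 1724954) (k4 2177)) (br (lf 1579221) (k4 1672)))) (br (br (br 
  (lf 1623720) (k4 2177)) (br (sy 401821) (k4 1665))) (sy 1751169)))) (br (br (br (br (br (lf 1714755) (k4 2114))
   (br (lf 1710723) (k4 2114))) (br (br (lf 1656361) (k4 2114)) (br (lf 1640681) (k4 1672)))) (br (br (br 
  (lf 1656424) (k4 2114)) (br (lf 1651496) (k4 1665))) (br (br (lf 1653064) (k4 1602)) (k4 1091)))) (k4 1092)))
  ) (sy 1751169)) (br (br (br (br (br (br (br (br (lf 1751120) (lf 1688400)) (br (lf 1688386) (lf 1678082))) (br 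
  (br (lf 1690129) (lf 1693832)) (br (lf 1003786) (k4 1672)))) (br (br (br (lf 1688400) (lf 1677984)) (br 
  (lf 989968) (k4 1665))) (br (br (lf 1680168) (k4 1602)) (k4 1091)))) (br (br (br (br (lf 1710786) (lf 1624770))
   (k4 2241)) (br (br (lf 1717058) (lf 1620010)) (k4 2241))) (br (br (br (lf 1709904) (sy 405909)) (k4 2241)) 
  (br (br (lf 1688400) (k4 1602)) (k4 1091))))) (br (br (br (br (br (lf 1726018) (lf 1710611)) (br (lf 1690122) 
  (lf 1708266))) (br (br (lf 1688617) (lf 1587369)) (br (sy 793765) (k4 1672)))) (br (br (br (lf 1688680) 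
  (lf 1655528)) (br (lf 1677648) (k4 1665))) (br (br (lf 1681729) (k4 1602)) (k4 1091)))) (br (br (br (br 
  (sy 1106154) (k4 2184)) (k4 2241)) (br (br (sy 1106154) (k4 2184)) (k4 2241))) (br (br (br (sy 1084629) 
  (k4 2184)) (k4 2241)) (br (br (sy 1084629) (k4 1602)) (k4 1091)))))) (br (br (br (br (br (br (lf 1718864) 
  (lf 1624728)) (br (lf 1717072) (sy 406917))) (br (br (lf 1688680) (lf 1616069)) (br (lf 1000258) (k4 1672))))
   (k4 2257)) (sy 1107589)) (br (br (br (br (br (lf 1258824) (k4 2114)) (br (sy 1092805) (k4 2114))) (br (br 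
  (lf 1258824) (k4 2114)) (br (sy 1092805) (k4 1672)))) (k4 2257)) (k4 1092)))) (br (br (br (br (br (br (br 
  (lf 1690178) (lf 1690178)) (k4 2115)) (sy 1751169)) (br (sy 1751169) (sy 1751169))) (k4 1604)) (br (br (br 
  (br (br (lf 1257802) (lf 1705641)) (k4 2115)) (k4 2256)) (br (br (br (lf 1690248) (lf 1688645)) (k4 2115)) 
  (k4 2256))) (k4 1604))) (br (br (br (br (br (br (lf 1260112) (sy 1096837)) (k4 2115)) (br (br (lf 944706) 
  (sy 1096837)) (k4 2115))) (k4 2257)) (k4 1604)) (br (sy 1095045) (k4 1092)))))) (br (br (br (br (br (br (br (br 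
  (br (lf 1690248) (lf 1653064)) (sy 1751169)) (sy 1751169)) (br (sy 1751169) (sy 1751169))) (br (br (br (br 
  (lf 1726032) (lf 1724625)) (br (lf 1690178) (lf 1579221))) (sy 1751169)) (br (sy 1751169) (sy 1751169)))) 
  (br (br (br (br (br (lf 1725633) (lf 1713705)) (br (lf 1717289) (lf 1652777))) (k4 2242)) (br (br (br 
  (lf 1653064) (lf 739144)) (sy 1751169)) (k4 2242))) (br (br (br (br (lf 1713705) (k4 2184)) (br (lf 1705557) 
  (k4 2184))) (k4 2242)) (br (br (br (lf 1713985) (k4 2184)) (br (lf 1688085) (k4 1665))) (k4 2242))))) (br (br 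
  (br (br (br (br (lf 1726088) (lf 1657544)) (br (lf 1688680) (lf 1644293))) (br (br (lf 1688904) (lf 735301)) 
  (sy 1751169))) (k4 2250)) (br (br (br (br (lf 1712872) (k4 2177)) (br (sy 1092637) (k4 2177))) (br (br 
  (lf 1717569) (k4 2177)) (br (sy 1092637) (k4 1672)))) (k4 2250))) (br (br (br (br (br (lf 1255233) (k4 2114)) 
  (br (lf 1713992) (k4 2114))) (k4 2242)) (k4 2250)) (k4 1092)))) (sy 1751169)) (br (br (br (br (br (br (br (br 
  (lf 1690192) (lf 1688680)) (br (lf 1000272) (lf 1677354))) (br (br (lf 1688904) (lf 1688897)) (sy 795557))) 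
  (k4 2187)) (br (br (br (br (lf 1717072) (sy 1096725)) (k4 2241)) (br (br (lf 1717072) (sy 1096725)) (k4 2241)))
   (k4 2187))) (br (br (br (br (br (lf 1717569) (lf 1717576)) (br (lf 1690241) (lf 1687693))) (k4 2242)) 
  (k4 2187)) (sy 1094037))) (k4 1676)) (br (br (br (br (br (br (br (lf 1690248) (lf 1690248)) (k4 2115)) (k4 2179)
  ) (k4 2187)) (k4 1604)) (k4 1668)) (k4 1676))))) (br (br (br (br (br (br (br (br (br (br (lf 1751106) (lf 1737498)
  ) (sy 1751169)) (sy 1751169)) (br (sy 1751169) (sy 1751169))) (br (br (br (br (lf 1753178) (lf 1737498)) (br 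
  (lf 1579802) (sy 284886))) (sy 1751169)) (br (sy 1751169) (sy 1751169)))) (br (br (br (br (br (lf 1738961) 
  (lf 1594131)) (br (lf 1737442) (sy 46452))) (sy 1751169)) (br (br (br (lf 1751176) (lf 1579683)) (sy 1751169)
  ) (sy 1751169))) (br (br (br (br (lf 1595482) (k4 2184)) (br (sy 51030) (k4 2184))) (sy 1751169)) (br (br (br 
  (lf 1595482) (k4 2184)) (br (sy 280434) (k4 1665))) (sy 1751169))))) (br (br (br (br (br (br (lf 1753752) 
  (lf 1741075)) (br (lf 1742594) (lf 1608348))) (br (br (lf 1751106) (lf 1737379)) (sy 1751169))) (br (br (br 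
  (lf 1628368) (lf 480284)) (br (lf 473732) (k4 1665))) (sy 1751169))) (br (br (br (br (lf 1742874) (k4 2177)) 
  (br (sy 281330) (k4 2177))) (br (br (lf 1608019) (k4 2177)) (br (sy 281330) (k4 1672)))) (br (br (br (sy 394667)
   (k4 2177)) (br (sy 281330) (k4 1665))) (sy 1751169)))) (br (br (br (br (br (lf 1754179) (k4 2114)) (br 
  (lf 1595482) (k4 2114))) (br (br (lf 1594649) (k4 2114)) (br (sy 103852) (k4 1672)))) (br (br (br (lf 1754200) 
  (k4 2114)) (br (lf 477904) (k4 1665))) (br (br (lf 743176) (k4 1602)) (k4 1091)))) (k4 1092)))) (sy 1751169))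
   (br (br (br (br (br (br (br (br (lf 1754690) (lf 1742370)) (br (lf 1742370) (lf 471394))) (br (br (lf 1751106) 
  (lf 1677858)) (br (sy 793765) (k4 1672)))) (br (br (br (lf 1678096) (lf 473732)) (br (sy 362670) (k4 1665))) 
  (br (br (lf 989856) (k4 1602)) (k4 1091)))) (br (br (br (br (lf 1628354) (sy 396522)) (k4 2241)) (br (br 
  (lf 1706698) (sy 396522)) (k4 2241))) (br (br (br (sy 395178) (sy 396522)) (k4 2241)) (br (br (sy 395178) 
  (k4 1602)) (k4 1091))))) (br (br (br (br (br (lf 1753290) (lf 1706579)) (br (lf 1579802) (sy 46452))) (br (br 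
  (lf 1693706) (sy 78645)) (br (sy 103852) (k4 1672)))) (br (br (br (lf 1726032) (lf 473410)) (br (sy 362670) 
  (k4 1665))) (br (br (lf 1003604) (k4 1602)) (k4 1091)))) (br (br (br (sy 1106154) (k4 2241)) (br (sy 1106154) 
  (k4 2241))) (br (br (sy 1106154) (k4 2241)) (br (sy 1106154) (k4 1091)))))) (br (br (br (br (br (br (lf 1743042) 
  (lf 1628368)) (br (lf 1620738) (sy 406917))) (br (br (lf 1754704) (lf 475482)) (br (sy 793765) (k4 1672)))) 
  (k4 2257)) (sy 1107589)) (br (br (br (br (br (lf 1266384) (k4 2114)) (br (sy 1092805) (k4 2114))) (br (br 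
  (lf 1266202) (k4 2114)) (br (sy 103852) (k4 1672)))) (k4 2257)) (k4 1092)))) (br (br (br (br (br (br (br 
  (lf 1751106) (lf 1579802)) (k4 2115)) (sy 1751169)) (br (sy 1751169) (sy 1751169))) (k4 1604)) (br (br (br 
  (br (br (lf 1267210) (lf 1591114)) (k4 2115)) (k4 2256)) (br (br (br (lf 1690178) (lf 1688106)) (k4 2115)) 
  (k4 2256))) (k4 1604))) (br (br (br (br (br (br (lf 1266370) (sy 1096837)) (k4 2115)) (br (br (lf 944706) 
  (sy 1096837)) (k4 2115))) (k4 2257)) (k4 1604)) (br (sy 1095045) (k4 1092)))))) (br (br (br (br (br (br (br (br 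
  (br (lf 1751176) (lf 1737498)) (sy 1751169)) (sy 1751169)) (br (sy 1751169) (sy 1751169))) (br (br (br (br 
  (lf 1753178) (lf 1624602)) (br (lf 1751106) (sy 284886))) (sy 1751169)) (br (sy 1751169) (sy 1751169)))) 
  (br (br (br (br (br (lf 1724625) (lf 1595531)) (br (lf 1693713) (lf 1586004))) (k4 2242)) (br (br (br 
  (lf 1751176) (lf 739144)) (sy 1751169)) (k4 2242))) (br (br (br (br (lf 1247834) (k4 2184)) (br (sy 51030) 
  (k4 2184))) (k4 2242)) (br (br (br (lf 1266195) (k4 2184)) (br (sy 280434) (k4 1665))) (k4 2242))))) (br (br 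
  (br (br (br (br (lf 1725136) (lf 1743000)) (br (lf 1751106) (lf 475475))) (br (br (lf 1746696) (lf 741475)) 
  (sy 1751169))) (k4 2250)) (br (br (br (br (sy 1106987) (k4 2177)) (br (sy 281330) (k4 2177))) (br (br 
  (sy 1106987) (k4 2177)) (br (sy 281330) (k4 1672)))) (k4 2250))) (br (br (br (br (br (lf 1256129) (k4 2114)) 
  (br (lf 1266195) (k4 2114))) (k4 2242)) (k4 2250)) (k4 1092)))) (sy 1751169)) (br (br (br (br (br (br (br (br 
  (lf 1693776) (lf 1751120)) (br (lf 1005634) (lf 471338))) (br (br (lf 1002120) (lf 1004304)) (sy 795557))) 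
  (k4 2187)) (br (br (br (sy 1107498) (k4 2241)) (br (sy 1107498) (k4 2241))) (k4 2187))) (br (br (br (br (br 
  (lf 1260161) (lf 1260098)) (br (lf 1260042) (sy 46452))) (k4 2242)) (k4 2187)) (sy 1094037))) (k4 1676)) 
  (br (br (br (br (br (br (br (lf 944706) (lf 1688106)) (k4 2115)) (k4 2179)) (k4 2187)) (k4 1604)) (k4 1668)) 
  (k4 1676)))))) (sy 1751169)) (br (br (br (br (br (br (br (br (br (br (br (br (lf 1754760) (lf 1745688)) (br 
  (lf 1749762) (lf 1627780))) (br (br (lf 1750049) (lf 1660484)) (br (lf 1691788) (k4 1672)))) (br (br (br 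
  (lf 1750112) (lf 1745604)) (br (lf 1627780) (k4 1665))) (br (br (lf 1660512) (k4 1602)) (k4 1091)))) (br (br 
  (br (br (lf 1753808) (lf 1627171)) (br (lf 1627906) (lf 479514))) (br (br (lf 1746696) (lf 1745436)) (br 
  (lf 1608418) (k4 1672)))) (br (br (br (lf 1628312) (lf 480452)) (br (lf 480788) (k4 1665))) (br (br 
  (lf 1616608) (k4 1602)) (k4 1091))))) (br (br (br (br (br (lf 1747032) (lf 1659651)) (br (lf 1746689) 
  (lf 1627164))) (br (br (lf 1746689) (lf 741475)) (br (lf 1586529) (k4 1672)))) (br (br (br (lf 1659616) 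
  (lf 727776)) (br (lf 1627360) (k4 1665))) (br (br (lf 1653260) (k4 1602)) (k4 1091)))) (br (br (br (br 
  (lf 1724555) (k4 2184)) (br (lf 1753626) (k4 2184))) (br (br (lf 1641241) (k4 2184)) (br (sy 107429) (k4 1672)
  ))) (br (br (br (lf 1753752) (k4 2184)) (br (lf 477722) (k4 1665))) (br (br (lf 743449) (k4 1602)) (k4 1091))))
  )) (br (br (br (br (br (br (lf 1754200) (lf 1745688)) (br (lf 1627416) (lf 480452))) (br (br (lf 1661016) 
  (sy 577843)) (br (lf 1627808) (k4 1672)))) (br (br (br (lf 1645336) (sy 579782)) (br (lf 473760) (k4 1665))) 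
  (br (br (sy 579376) (k4 1602)) (k4 1091)))) (br (br (br (br (lf 1743000) (k4 2177)) (br (lf 1628354) (k4 2177)))
   (br (br (lf 1624728) (k4 2177)) (br (sy 401835) (k4 1672)))) (br (br (br (sy 346864) (k4 2177)) (br (sy 346864)
   (k4 1665))) (br (br (sy 346864) (k4 1602)) (k4 1091))))) (br (br (br (br (br (lf 1661016) (k4 2114)) (br 
  (lf 1657432) (k4 2114))) (br (br (lf 1657537) (k4 2114)) (br (lf 742945) (k4 1672)))) (br (br (br (sy 576198) 
  (k4 2114)) (br (sy 345968) (k4 1665))) (br (br (sy 575302) (k4 1602)) (k4 1091)))) (k4 1092)))) (br (br (br (br 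
  (br (br (br (lf 1751169) (lf 1749762)) (br (lf 1692194) (lf 1608404))) (br (br (lf 1691809) (lf 1586529)) 
  (sy 813197))) (br (br (br (lf 1749664) (lf 1651552)) (br (lf 1678082) (k4 1665))) (br (br (lf 1681988) 
  (k4 1602)) (k4 1091)))) (br (br (br (br (lf 1726018) (lf 1742867)) (k4 2248)) (br (br (lf 1738506) (sy 116109))
   (k4 2248))) (br (br (br (lf 1690178) (lf 1624707)) (k4 2248)) (br (br (lf 1000552) (k4 1602)) (k4 1091))))) 
  (br (br (br (br (br (lf 1726081) (lf 1712473)) (br (lf 1738954) (sy 115605))) (k4 2256)) (br (br (br (lf 1690241)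
   (lf 1658979)) (br (sy 793877) (k4 1665))) (k4 2256))) (br (br (br (br (lf 1247834) (k4 2184)) (k4 2248)) 
  (k4 2256)) (br (br (br (lf 1708189) (k4 2184)) (k4 2248)) (k4 2256))))) (br (br (br (br (br (br (lf 1753752) 
  (lf 1616216)) (br (lf 1718864) (lf 471380))) (br (br (lf 1726088) (lf 741580)) (sy 813197))) (br (br (br 
  (lf 1693832) (sy 579782)) (br (lf 846496) (k4 1665))) (br (br (sy 579376) (k4 1602)) (k4 1091)))) (br (br (br 
  (br (lf 1266370) (k4 2177)) (k4 2248)) (br (br (lf 1257641) (k4 2177)) (k4 2248))) (br (br (br (sy 346864) 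
  (k4 2177)) (k4 2248)) (br (br (sy 346864) (k4 1602)) (k4 1091))))) (br (br (br (br (br (lf 1256024) (k4 2114)) 
  (br (lf 1257557) (k4 2114))) (k4 2256)) (br (br (br (sy 576198) (k4 2114)) (br (sy 345968) (k4 1665))) 
  (k4 2256))) (k4 1092))))) (br (br (br (br (br (br (br (br (lf 1754704) (lf 1628368)) (br (lf 1742608) (lf 480788)
  )) (br (br (lf 1751120) (lf 1619268)) (br (lf 1677956) (k4 1672)))) (br (br (br (lf 1749664) (lf 472416)) (br 
  (sy 377909) (k4 1665))) (br (br (lf 988512) (k4 1602)) (k4 1091)))) (br (br (br (br (lf 1743042) (lf 1628312)) 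
  (k4 2241)) (br (br (lf 1717072) (lf 477827)) (k4 2241))) (br (br (br (lf 1627920) (sy 405909)) (k4 2241)) (br 
  (br (lf 846608) (k4 1602)) (k4 1091))))) (br (br (br (br (br (lf 1754312) (lf 1714776)) (br (lf 1710800) 
  (lf 480291))) (br (br (lf 1718913) (lf 1659084)) (br (lf 993384) (k4 1672)))) (br (br (br (lf 1645336) 
  (sy 559846)) (br (sy 377909) (k4 1665))) (br (br (lf 993384) (k4 1602)) (k4 1091)))) (br (br (br (br 
  (lf 1710744) (k4 2184)) (k4 2241)) (br (br (lf 1708189) (k4 2184)) (k4 2241))) (br (br (br (sy 1084629) 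
  (k4 2184)) (k4 2241)) (br (br (sy 1084629) (k4 1602)) (k4 1091)))))) (br (br (br (br (br (br (lf 1743000) 
  (sy 404712)) (br (lf 1627920) (sy 404712))) (br (br (lf 1688904) (sy 404712)) (br (lf 989856) (k4 1672)))) 
  (k4 2257)) (sy 1107589)) (br (br (sy 1107176) (k4 2257)) (k4 1092)))) (br (br (br (br (br (br (br (lf 1754690) 
  (lf 1726032)) (k4 2115)) (br (br (lf 1693825) (lf 992040)) (k4 2115))) (br (br (br (lf 1005648) (lf 846496)) 
  (k4 2115)) (br (sy 804237) (k4 1091)))) (k4 1604)) (br (br (br (br (br (lf 1267217) (lf 1253917)) (k4 2115)) 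
  (k4 2256)) (br (br (br (lf 1172808) (sy 559846)) (k4 2115)) (k4 2256))) (k4 1604))) (br (br (br (br (br (br 
  (lf 1260112) (sy 404712)) (k4 2115)) (br (br (lf 943432) (sy 404712)) (k4 2115))) (k4 2257)) (k4 1604)) (br 
  (sy 1095045) (k4 1092)))))) (br (br (br (br (br (br (br (br (br (lf 1750280) (lf 1661016)) (br (lf 1749776) 
  (lf 1620612))) (br (br (lf 1750280) (lf 1653281)) (br (lf 1692929) (k4 1672)))) (br (br (br (lf 1682184) 
  (lf 735840)) (br (lf 1004640) (k4 1665))) (br (br (lf 1682016) (k4 1602)) (k4 1091)))) (br (br (br (br 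
  (lf 1753808) (lf 1710744)) (br (lf 1718850) (lf 479514))) (br (br (lf 1725640) (lf 741916)) (br (lf 989317) 
  (k4 1672)))) (br (br (br (lf 1616664) (sy 571942)) (br (lf 989856) (k4 1665))) (br (br (lf 992040) (k4 1602)) 
  (k4 1091))))) (br (br (br (br (br (lf 1725633) (lf 1657544)) (br (lf 1718920) (lf 739851))) (k4 2242)) (br (br 
  (br (lf 1653064) (sy 569702)) (br (lf 994056) (k4 1665))) (k4 2242))) (br (br (br (br (lf 1266881) (k4 2184)) 
  (br (lf 1249493) (k4 2184))) (k4 2242)) (br (br (br (lf 1256024) (k4 2184)) (br (lf 1688197) (k4 1665))) 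
  (k4 2242))))) (br (br (br (br (br (br (lf 1661016) (sy 576030)) (br (lf 1676640) (sy 344435))) (br (br 
  (lf 1653064) (sy 573790)) (br (lf 992040) (k4 1672)))) (k4 2250)) (br (br (br (br (sy 1092637) (k4 2177)) (br 
  (sy 401835) (k4 2177))) (br (br (sy 1092637) (k4 2177)) (br (sy 401835) (k4 1672)))) (k4 2250))) (br (br (br 
  (br (br (lf 1256136) (k4 2114)) (br (lf 1655640) (k4 2114))) (k4 2242)) (k4 2250)) (k4 1092)))) (br (br (br (br 
  (br (br (br (lf 1726081) (lf 1726088)) (br (lf 1690122) (lf 1000104))) (k4 2179)) (br (br (br (lf 1005704) 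
  (lf 877408)) (sy 803733)) (k4 2179))) (br (br (br (br (lf 1267217) (lf 1246441)) (k4 2248)) (k4 2179)) (br (br 
  (br (lf 1172808) (sy 571942)) (k4 2248)) (k4 2179)))) (k4 1668)) (br (br (br (br (br (br (lf 1267336) 
  (sy 576030)) (br (lf 1000776) (sy 344435))) (k4 2179)) (k4 2250)) (sy 1089949)) (k4 1668)))) (br (br (br (br 
  (br (br (br (br (lf 1693776) (lf 1645336)) (br (lf 1002064) (lf 989968))) (br (br (lf 1005704) (lf 992040)) 
  (sy 795557))) (k4 2187)) (br (br (br (br (lf 1251152) (sy 1096725)) (k4 2241)) (br (br (lf 942928) (sy 1096725)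
  ) (k4 2241))) (k4 2187))) (br (br (br (br (br (lf 1267336) (lf 1657432)) (br (lf 1000272) (lf 681541))) 
  (k4 2242)) (k4 2187)) (sy 1094037))) (k4 1676)) (br (br (br (br (br (br (br (lf 1260112) (lf 1000104)) (k4 2115)
  ) (k4 2179)) (k4 2187)) (k4 1604)) (k4 1668)) (k4 1676))))) (br (br (br (br (br (br (br (br (br (br (lf 1513603) 
  (k4 2689)) (br (lf 1512994) (k4 2689))) (br (br (lf 1745436) (k4 2689)) (br (lf 1508948) (k4 1672)))) (br (br 
  (br (lf 1742020) (k4 2689)) (br (lf 480788) (k4 1665))) (br (br (lf 1517124) (k4 1602)) (k4 1091)))) (br (br 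
  (br (br (lf 1742867) (k4 2689)) (br (lf 1626338) (k4 2689))) (br (br (lf 1511706) (k4 2689)) (br (sy 47922) 
  (k4 1672)))) (br (br (br (lf 1626324) (k4 2689)) (br (sy 284438) (k4 1665))) (br (br (lf 452116) (k4 1602)) 
  (k4 1091))))) (br (br (br (br (br (lf 1742979) (k4 2689)) (br (lf 1508066) (k4 2689))) (br (br (lf 1515724) 
  (k4 2689)) (br (lf 1508948) (k4 1672)))) (br (br (br (lf 1512483) (k4 2689)) (br (lf 451780) (k4 1665))) (br 
  (br (lf 1745100) (k4 1602)) (k4 1091)))) (br (br (br (br (lf 1523795) (k4 2184)) (br (sy 281330) (k4 2184))) 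
  (br (br (lf 190547) (k4 2184)) (br (sy 47922) (k4 1672)))) (br (br (br (lf 480291) (k4 2184)) (br (sy 284438) 
  (k4 1665))) (br (br (lf 189084) (k4 1602)) (k4 1091)))))) (br (br (br (br (br (br (lf 1742104) (k4 2689)) (br 
  (lf 1627395) (k4 2689))) (br (br (lf 1512707) (k4 2689)) (br (lf 451780) (k4 1672)))) (br (br (br (sy 350406) 
  (k4 2689)) (br (sy 349958) (k4 1665))) (br (br (sy 579376) (k4 1602)) (k4 1091)))) (br (br (br (br (sy 401835) 
  (k4 2177)) (br (sy 281330) (k4 2177))) (br (br (sy 401835) (k4 2177)) (br (sy 281330) (k4 1672)))) (br (br (br 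
  (sy 346864) (k4 2177)) (br (sy 346864) (k4 1665))) (br (br (sy 346864) (k4 1602)) (k4 1091))))) (br (br (br (br 
  (br (lf 1754179) (k4 2114)) (br (lf 479507) (k4 2114))) (br (br (lf 1745667) (k4 2114)) (br (lf 1336419) 
  (k4 1672)))) (br (br (br (sy 579824) (k4 2114)) (br (sy 349958) (k4 1665))) (br (br (sy 575302) (k4 1602)) 
  (k4 1091)))) (k4 1092)))) (br (br (br (br (br (br (br (lf 1524250) (k4 2689)) (br (lf 1738338) (k4 2689))) (br 
  (br (lf 1749090) (k4 2689)) (sy 813197))) (br (br (br (lf 1513120) (k4 2689)) (sy 811818)) (br (br (lf 1520260)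
   (k4 1602)) (k4 1091)))) (br (br (br (br (lf 1753626) (k4 2689)) (k4 2248)) (br (br (lf 1738506) (k4 2689)) 
  (k4 2248))) (br (br (br (lf 1511650) (k4 2689)) (k4 2248)) (br (br (lf 427938) (k4 1602)) (k4 1091))))) (br (br 
  (br (br (br (lf 1753290) (k4 2689)) (br (lf 1738338) (k4 2689))) (k4 2256)) (br (br (br (lf 1754753) (k4 2689)) 
  (sy 811818)) (k4 2256))) (br (br (br (br (sy 136878) (k4 2184)) (k4 2248)) (k4 2256)) (br (br (br (sy 136878) 
  (k4 2184)) (k4 2248)) (k4 2256))))) (br (br (br (br (br (br (lf 1513603) (k4 2689)) (br (lf 1513666) (k4 2689)))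
   (br (br (lf 1737995) (k4 2689)) (sy 813197))) (br (br (br (sy 350406) (k4 2689)) (sy 811818)) (br (br 
  (sy 579376) (k4 1602)) (k4 1091)))) (br (br (br (br (sy 401835) (k4 2177)) (k4 2248)) (br (br (sy 401835) 
  (k4 2177)) (k4 2248))) (br (br (br (sy 346864) (k4 2177)) (k4 2248)) (br (br (sy 346864) (k4 1602)) (k4 1091)))
  )) (br (br (br (br (br (lf 1524803) (k4 2114)) (br (lf 1508115) (k4 2114))) (k4 2256)) (br (br (br (sy 579824) 
  (k4 2114)) (sy 811818)) (k4 2256))) (k4 1092))))) (br (br (br (br (br (br (br (br (lf 1743042) (k4 2689)) (br 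
  (lf 452130) (k4 2689))) (br (br (lf 1513232) (k4 2689)) (br (sy 793765) (k4 1672)))) (br (br (br (lf 452368) 
  (k4 2689)) (br (sy 368942) (k4 1665))) (br (br (lf 989828) (k4 1602)) (k4 1091)))) (br (br (br (br (lf 452802) 
  (k4 2689)) (k4 2241)) (br (br (lf 1369634) (k4 2689)) (k4 2241))) (br (br (br (sy 395178) (k4 2689)) (k4 2241))
   (br (br (sy 395178) (k4 1602)) (k4 1091))))) (br (br (br (br (br (lf 1513491) (k4 2689)) (br (lf 1513666) 
  (k4 2689))) (br (br (lf 1746689) (k4 2689)) (br (sy 103852) (k4 1672)))) (br (br (br (lf 1628312) (k4 2689)) 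
  (br (sy 368942) (k4 1665))) (br (br (lf 1402464) (k4 1602)) (k4 1091)))) (br (br (br (sy 1106154) (k4 2241)) 
  (br (sy 1106154) (k4 2241))) (br (br (sy 1106154) (k4 2241)) (br (sy 1106154) (k4 1091)))))) (br (br (br (br (br 
  (br (lf 1743056) (k4 2689)) (br (sy 403368) (k4 2689))) (br (br (lf 480536) (k4 2689)) (br (sy 403368) 
  (k4 1672)))) (k4 2257)) (sy 1107589)) (br (br (sy 1107176) (k4 2257)) (k4 1092)))) (br (br (br (br (br (br (br 
  (lf 1754690) (k4 2689)) (k4 2115)) (br (br (lf 1520386) (k4 2689)) (k4 2115))) (br (br (br (lf 957698) 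
  (k4 2689)) (k4 2115)) (br (sy 804237) (k4 1091)))) (k4 1604)) (br (br (br (br (br (lf 1523914) (k4 2689)) 
  (k4 2115)) (k4 2256)) (br (br (br (lf 1725136) (k4 2689)) (k4 2115)) (k4 2256))) (k4 1604))) (br (br (br (br (br 
  (br (lf 1266370) (k4 2689)) (k4 2115)) (br (br (lf 1260098) (k4 2689)) (k4 2115))) (k4 2257)) (k4 1604)) (br 
  (sy 1095045) (k4 1092)))))) (br (br (br (br (br (br (br (br (br (lf 1747032) (k4 2689)) (br (lf 1742356) (k4 2689)
  )) (br (br (lf 1746444) (k4 2689)) (br (lf 1519700) (k4 1672)))) (br (br (br (lf 1517152) (k4 2689)) (br 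
  (lf 989856) (k4 1665))) (br (br (lf 1434692) (k4 1602)) (k4 1091)))) (br (br (br (br (lf 1513491) (k4 2689)) 
  (br (lf 1368346) (k4 2689))) (br (br (lf 1524803) (k4 2689)) (br (sy 47922) (k4 1672)))) (br (br (br 
  (lf 1628368) (k4 2689)) (br (sy 284438) (k4 1665))) (br (br (lf 703556) (k4 1602)) (k4 1091))))) (br (br (br 
  (br (br (lf 1524803) (k4 2689)) (br (lf 1747137) (k4 2689))) (k4 2242)) (br (br (br (lf 1517152) (k4 2689)) (br 
  (lf 1402436) (k4 1665))) (k4 2242))) (br (br (br (br (lf 1523795) (k4 2184)) (br (sy 281330) (k4 2184))) 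
  (k4 2242)) (br (br (br (lf 1754200) (k4 2184)) (br (sy 284438) (k4 1665))) (k4 2242))))) (br (br (br (br (br (br 
  (lf 1517656) (k4 2689)) (br (lf 1627920) (k4 2689))) (br (br (lf 1517656) (k4 2689)) (br (lf 452256) (k4 1672)
  ))) (k4 2250)) (br (br (br (br (sy 401835) (k4 2177)) (br (sy 281330) (k4 2177))) (br (br (sy 401835) (k4 2177))
   (br (sy 281330) (k4 1672)))) (k4 2250))) (br (br (br (br (br (lf 1517635) (k4 2114)) (br (lf 1754200) (k4 2114)
  )) (k4 2242)) (k4 2250)) (k4 1092)))) (br (br (br (br (br (br (br (lf 1525258) (k4 2689)) (br (lf 1519714) 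
  (k4 2689))) (k4 2179)) (br (br (br (lf 1004192) (k4 2689)) (sy 803733)) (k4 2179))) (br (br (br (br (lf 1237082)
   (k4 2689)) (k4 2248)) (k4 2179)) (br (br (br (lf 387842) (k4 2689)) (k4 2248)) (k4 2179)))) (k4 1668)) (br 
  (br (br (br (br (br (lf 1754200) (k4 2689)) (br (lf 481040) (k4 2689))) (k4 2179)) (k4 2250)) (sy 1089949)) 
  (k4 1668)))) (br (br (br (br (br (br (br (br (lf 1754704) (k4 2689)) (br (lf 957712) (k4 2689))) (br (br 
  (lf 1004304) (k4 2689)) (sy 795557))) (k4 2187)) (br (br (br (br (lf 1266384) (k4 2689)) (k4 2241)) (br (br 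
  (lf 1266384) (k4 2689)) (k4 2241))) (k4 2187))) (br (br (br (br (br (lf 1754704) (k4 2689)) (br (lf 1725122) 
  (k4 2689))) (k4 2242)) (k4 2187)) (sy 1094037))) (k4 1676)) (br (br (br (br (br (br (br (lf 1002050) (k4 2689)) 
  (k4 2115)) (k4 2179)) (k4 2187)) (k4 1604)) (k4 1668)) (k4 1676)))))) (sy 1517768))) (k4 3395)) (br 
  (sy 1751169) (k4 3395))) (k4 3285)) (br (br (br (br (br (br (br (br (br (br (br (br (br (br (br (br (lf 1754641) 
  (lf 1738954)) (br (lf 1738954) (lf 1594978))) (br (br (lf 1738961) (lf 1595545)) (br (lf 1691914) (k4 1672)))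
  ) (br (br (br (lf 1751106) (lf 1754312)) (br (lf 1693762) (k4 1665))) (br (br (lf 1693825) (k4 1602)) (k4 1091)
  ))) (br (br (br (br (lf 1753178) (lf 1591898)) (br (lf 1724506) (lf 215642))) (br (br (lf 1753290) (lf 215635))
   (br (lf 1592010) (k4 1672)))) (br (br (br (lf 1753290) (lf 1595482)) (br (lf 1751050) (k4 1665))) (br (br 
  (lf 1724625) (k4 1602)) (k4 1091))))) (br (br (br (br (br (lf 1724569) (lf 1724569)) (br (lf 1738961) 
  (lf 219275))) (br (br (lf 1706705) (lf 215705)) (br (lf 1587985) (k4 1672)))) (br (br (br (lf 1753241) 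
  (lf 1595545)) (br (lf 1738513) (k4 1665))) (br (br (lf 1688617) (k4 1602)) (k4 1091)))) (sy 1069747))) (br 
  (br (br (br (br (br (lf 1725136) (lf 1724555)) (br (lf 1725962) (lf 1738842))) (br (br (lf 1754641) (lf 1595531)
  ) (br (lf 1716561) (k4 1672)))) (br (br (br (lf 1754200) (lf 1616216)) (br (lf 1677634) (k4 1665))) (br (br 
  (lf 1718920) (k4 1602)) (k4 1091)))) (sy 1106091)) (br (br (br (br (br (lf 1265803) (k4 2114)) (br (lf 1706649)
   (k4 2114))) (br (br (lf 1266713) (k4 2114)) (br (lf 214865) (k4 1672)))) (br (br (br (lf 1256136) (k4 2114)) 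
  (br (lf 1267217) (k4 1665))) (br (br (lf 1655129) (k4 1602)) (k4 1091)))) (k4 1092)))) (br (br (br (br (br (br 
  (br (lf 1753290) (lf 1724625)) (br (lf 1738506) (lf 1592010))) (br (br (lf 1591121) (lf 1591121)) (sy 813197)
  )) (br (br (br (lf 1754641) (lf 1693706)) (br (lf 985866) (k4 1665))) (br (br (lf 1002001) (k4 1602)) (k4 1091)
  ))) (sy 1069810)) (br (br (br (br (br (lf 1265873) (lf 1591961)) (sy 146097)) (k4 2256)) (br (br (br 
  (lf 1265873) (lf 1591121)) (sy 146097)) (k4 2256))) (sy 1070734))) (br (br (br (br (br (br (lf 1724618) 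
  (lf 1247883)) (br (lf 1257802) (lf 215754))) (br (br (lf 1247057) (lf 1074521)) (sy 813197))) (br (br (br 
  (lf 1260168) (lf 1266755)) (br (lf 1001994) (k4 1665))) (br (br (lf 1000489) (k4 1602)) (k4 1091)))) 
  (sy 1055474)) (br (sy 1070321) (k4 1092))))) (br (br (br (br (br (br (br (br (lf 1754690) (lf 1725962)) (br 
  (lf 1693762) (lf 1738506))) (br (br (lf 1751050) (lf 1693706)) (br (lf 1687882) (k4 1672)))) (br (br (br 
  (lf 1726018) (lf 1688386)) (br (lf 989506) (k4 1665))) (br (br (lf 1002064) (k4 1602)) (k4 1091)))) 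
  (sy 1106154)) (br (br (br (br (br (lf 1267217) (lf 1247953)) (br (lf 1247946) (lf 1592010))) (br (br 
  (lf 1267217) (lf 1074521)) (br (lf 125265) (k4 1672)))) (br (br (br (lf 1260098) (lf 1266713)) (br 
  (lf 1000258) (k4 1665))) (br (br (lf 1258537) (k4 1602)) (k4 1091)))) (sy 1084650))) (br (br (br (br (br (br 
  (lf 1726032) (lf 1266370)) (br (lf 1725122) (sy 406917))) (br (br (lf 1718864) (lf 1265817)) (br (lf 942914) 
  (k4 1672)))) (k4 2257)) (sy 1107589)) (br (sy 1107176) (k4 1092)))) (br (br (br (br (br (br (br (lf 1725962) 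
  (lf 1260042)) (k4 2115)) (br (br (lf 1002001) (sy 116137)) (k4 2115))) (br (br (br (lf 1260098) (lf 1260042)) 
  (k4 2115)) (br (sy 804237) (k4 1091)))) (k4 1604)) (br (sy 1070769) (k4 1604))) (br (br (sy 1107624) (k4 1604)
  ) (br (sy 1095045) (k4 1092)))))) (br (br (br (br (br (br (br (br (br (lf 1726081) (lf 1754305)) (br (lf 1754641) 
  (lf 1690129))) (br (br (lf 1718801) (lf 1641185)) (br (lf 1691921) (k4 1672)))) (br (br (br (lf 1726081) 
  (lf 1718913)) (br (lf 1005704) (k4 1665))) (br (br (lf 1005697) (k4 1602)) (k4 1091)))) (br (br (br (br 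
  (lf 1265873) (lf 1247834)) (br (lf 1260042) (lf 215642))) (br (br (lf 1265873) (lf 1246441)) (br (lf 813393) 
  (k4 1672)))) (br (br (br (lf 1260049) (lf 1266881)) (br (lf 1718794) (k4 1665))) (br (br (lf 1000769) (k4 1602)
  ) (k4 1091))))) (br (br (br (br (br (lf 1265873) (lf 1265817)) (br (lf 1265873) (lf 1592017))) (k4 2242)) (br 
  (br (br (lf 1266881) (lf 1657369)) (br (lf 1690241) (k4 1665))) (k4 2242))) (sy 1069747))) (br (br (br (br (br 
  (br (lf 1725633) (lf 1256024)) (br (lf 1260161) (lf 1265873))) (br (br (lf 1266881) (lf 1253609)) (br 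
  (lf 999761) (k4 1672)))) (k4 2250)) (sy 1106091)) (br (sy 1118453) (k4 1092)))) (br (br (br (br (br (br (br 
  (lf 1267217) (lf 1260049)) (br (lf 1687889) (sy 115626))) (k4 2179)) (br (br (br (lf 1260161) (lf 1687889)) 
  (sy 803733)) (k4 2179))) (sy 1069810)) (k4 1668)) (br (br (br (br (br (br (lf 1267329) (lf 1266881)) (br 
  (lf 1257809) (sy 115626))) (k4 2179)) (k4 2250)) (sy 1055474)) (k4 1668)))) (br (br (br (br (br (br (br (br 
  (lf 1260112) (lf 1260161)) (br (lf 1174082) (lf 1690122))) (br (br (lf 1002001) (lf 1258537)) (sy 795557))) 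
  (k4 2187)) (sy 1106154)) (br (br (br (br (br (lf 1260049) (lf 1267329)) (br (lf 1260042) (lf 1064105))) 
  (k4 2242)) (k4 2187)) (sy 1084650))) (k4 1676)) (br (br (br (sy 1151157) (k4 1604)) (k4 1668)) (k4 1676))))) 
  (br (br (br (br (br (br (br (br (br (br (lf 1753178) (lf 1508122)) (br (lf 1508066) (lf 1737442))) (br (br 
  (lf 1509578) (lf 1594467)) (br (lf 1337098) (k4 1672)))) (br (br (br (lf 1749258) (lf 1511587)) (br 
  (lf 1512994) (k4 1665))) (br (br (lf 1519756) (k4 1602)) (k4 1091)))) (k4 2824)) (br (br (br (br (br 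
  (lf 1523921) (lf 1595475)) (br (lf 219338) (sy 54502))) (br (br (lf 190673) (sy 82670)) (br (sy 103852) 
  (k4 1672)))) (br (br (br (lf 1509466) (lf 190603)) (br (lf 219226) (k4 1665))) (br (br (lf 1595545) (k4 1602)) 
  (k4 1091)))) (k4 2824))) (br (br (br (br (br (br (lf 1523795) (lf 1524243)) (br (lf 1513498) (lf 203539))) (br 
  (br (lf 1509585) (lf 189091)) (br (lf 218722) (k4 1672)))) (br (br (br (lf 1513491) (lf 1513603)) (br 
  (lf 450842) (k4 1665))) (br (br (lf 1747011) (k4 1602)) (k4 1091)))) (k4 2824)) (br (br (br (br (br (lf 1753227)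
   (k4 2114)) (br (lf 158291) (k4 2114))) (br (br (lf 158347) (k4 2114)) (br (sy 103852) (k4 1672)))) (br (br (br 
  (lf 1524355) (k4 2114)) (br (lf 1466906) (k4 1665))) (br (br (lf 1467417) (k4 1602)) (k4 1091)))) (k4 1092)))
  ) (br (br (br (br (br (br (br (lf 1509578) (lf 219226)) (sy 115626)) (br (br (lf 218890) (sy 116137)) (sy 813197)
  )) (br (br (br (lf 1521674) (lf 219338)) (sy 115626)) (br (br (lf 1691914) (k4 1602)) (k4 1091)))) (k4 2824)) 
  (br (br (br (br (br (lf 219345) (sy 152782)) (sy 146097)) (k4 2256)) (br (br (br (lf 1237201) (sy 152782)) 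
  (sy 146097)) (k4 2256))) (k4 2824))) (br (br (br (br (br (br (lf 1523914) (lf 215635)) (sy 115626)) (br (br 
  (lf 183505) (sy 116137)) (sy 813197))) (br (br (br (lf 1237194) (lf 1370131)) (sy 115626)) (br (br (lf 985873)
   (k4 1602)) (k4 1091)))) (k4 2824)) (br (sy 1070321) (k4 1092))))) (br (br (br (br (br (br (br (br (lf 1524250) 
  (lf 1513498)) (br (lf 1524250) (sy 47796))) (br (br (lf 1521674) (lf 1594978)) (br (lf 1003786) (k4 1672)))) 
  (br (br (br (lf 1749762) (lf 452634)) (br (lf 452354) (k4 1665))) (br (br (lf 1434370) (k4 1602)) (k4 1091)))) 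
  (k4 2824)) (br (br (br (br (br (lf 1466570) (lf 215635)) (br (lf 1466458) (sy 54502))) (br (br (lf 183505) 
  (sy 82670)) (br (sy 103852) (k4 1672)))) (br (br (br (lf 1266370) (lf 1524243)) (br (sy 362670) (k4 1665))) 
  (br (br (lf 1749265) (k4 1602)) (k4 1091)))) (k4 2824))) (br (br (br (br (br (br (lf 1753626) (lf 1710611)) (br 
  (lf 1710618) (sy 406917))) (br (br (lf 1754634) (lf 1448986)) (br (lf 1150282) (k4 1672)))) (k4 2257)) 
  (k4 2824)) (br (sy 1107176) (k4 1092)))) (br (br (br (br (br (br (br (lf 1237194) (lf 1466570)) (k4 2115)) (br 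
  (br (lf 1072330) (sy 116137)) (k4 2115))) (br (br (br (lf 1238538) (lf 480802)) (k4 2115)) (br (sy 804237) 
  (k4 1091)))) (k4 1604)) (br (sy 1070769) (k4 1604))) (br (br (sy 1107624) (k4 1604)) (br (sy 1095045) 
  (k4 1092)))))) (br (br (br (br (br (br (br (br (br (lf 1753290) (lf 1523921)) (br (lf 1521674) (lf 219338))) (br 
  (br (lf 1751057) (lf 1595545)) (br (lf 1587985) (k4 1672)))) (br (br (br (lf 1521681) (lf 1746696)) (br 
  (lf 1434146) (k4 1665))) (br (br (lf 1692929) (k4 1602)) (k4 1091)))) (k4 2824)) (br (br (br (br (br 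
  (lf 1237201) (lf 215691)) (br (lf 183498) (sy 54502))) (k4 2242)) (br (br (br (lf 1525377) (lf 1524747)) (br 
  (lf 1749265) (k4 1665))) (k4 2242))) (k4 2824))) (br (br (br (br (br (br (lf 1753290) (lf 1237635)) (br 
  (lf 1753178) (lf 1446291))) (br (br (lf 1525377) (lf 548121)) (br (lf 1509137) (k4 1672)))) (k4 2250)) 
  (k4 2824)) (br (sy 1118453) (k4 1092)))) (br (br (br (br (br (br (br (lf 1525258) (lf 1237201)) (sy 115626)) 
  (k4 2179)) (br (br (br (lf 1467914) (lf 1738506)) (sy 115626)) (k4 2179))) (k4 2824)) (k4 1668)) (br (br (br 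
  (br (br (br (lf 1267217) (lf 1237145)) (sy 115626)) (k4 2179)) (k4 2250)) (k4 2824)) (k4 1668)))) (br (br (br 
  (br (br (br (br (br (lf 1754690) (lf 1237530)) (br (lf 1238594) (lf 429338))) (br (br (lf 969745) (lf 1738513)) 
  (sy 795557))) (k4 2187)) (k4 2824)) (br (br (br (br (br (lf 1267217) (lf 1237201)) (br (lf 1227786) (sy 54502))
  ) (k4 2242)) (k4 2187)) (k4 2824))) (k4 1676)) (br (br (br (sy 1151157) (k4 1604)) (k4 1668)) (k4 1676)))))) 
  (sy 1524929)) (br (br (br (br (br (br (br (br (br (br (br (br (lf 1524250) (sy 1524929)) (br (lf 1524250) 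
  (lf 1508052))) (sy 1524929)) (br (br (br (lf 1525328) (lf 1516291)) (br (lf 1742356) (k4 1665))) (br (br 
  (lf 1746696) (k4 1602)) (k4 1091)))) (br (br (br (br (lf 1524250) (sy 1524929)) (br (lf 1741082) (lf 450842)))
   (sy 1524929)) (br (br (br (lf 1513491) (lf 1512483)) (br (lf 479458) (k4 1665))) (br (br (lf 1511706) 
  (k4 1602)) (k4 1091))))) (sy 1524929)) (br (sy 1524929) (sy 1524929))) (br (br (br (br (br (br (br (lf 1754641) 
  (lf 1738954)) (br (lf 1509578) (lf 1738842))) (br (br (lf 1738513) (lf 1509585)) (sy 813197))) (br (br (br 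
  (lf 1525314) (lf 1524418)) (br (lf 1519882) (k4 1665))) (br (br (lf 1691921) (k4 1602)) (k4 1091)))) 
  (sy 1069810)) (sy 1524929)) (br (br (br (br (br (br (lf 1525384) (sy 1524929)) (br (lf 1266370) (lf 1524250))) 
  (sy 1524929)) (br (br (br (lf 1754760) (sy 579782)) (br (lf 1742608) (k4 1665))) (br (br (lf 1238664) (k4 1602)
  ) (k4 1091)))) (sy 1055474)) (sy 1524929)))) (br (br (br (br (br (br (br (br (lf 1525314) (lf 1513603)) (br 
  (lf 1742594) (lf 481306))) (br (br (lf 1525314) (lf 1754634)) (br (lf 1520386) (k4 1672)))) (br (br (br 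
  (lf 1749776) (lf 1742104)) (br (lf 843010) (k4 1665))) (br (br (lf 1004192) (k4 1602)) (k4 1091)))) 
  (sy 1106154)) (br (br (br (br (br (lf 1525384) (sy 1524929)) (br (lf 1267210) (lf 285978))) (sy 1524929)) (br 
  (br (br (lf 1753752) (lf 1742104)) (br (lf 1709890) (k4 1665))) (br (br (lf 642376) (k4 1602)) (k4 1091)))) 
  (sy 1084650))) (br (br (br (br (br (br (lf 1467032) (sy 404712)) (br (lf 1753794) (sy 404712))) (br (br 
  (lf 1266328) (sy 404712)) (br (lf 1258306) (k4 1672)))) (k4 2257)) (sy 1107589)) (sy 1524929))) (br (br (br 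
  (br (br (br (br (lf 1525258) (lf 1754634)) (k4 2115)) (br (br (lf 1435658) (lf 183498)) (k4 2115))) (br (br (br 
  (lf 976976) (lf 1710800)) (k4 2115)) (br (sy 804237) (k4 1091)))) (k4 1604)) (br (sy 1070769) (k4 1604))) 
  (br (br (sy 1107624) (k4 1604)) (br (sy 1095045) (k4 1092)))))) (br (br (br (br (br (br (br (br (br (lf 1525384) 
  (sy 1524929)) (br (lf 1521744) (lf 1746696))) (sy 1524929)) (br (br (br (lf 1750280) (lf 1401624)) (br 
  (lf 1004192) (k4 1665))) (br (br (lf 1746696) (k4 1602)) (k4 1091)))) (br (br (br (br (lf 1525384) (sy 1524929)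
  ) (br (lf 1265866) (lf 1104922))) (sy 1524929)) (br (br (br (lf 1754200) (lf 1742104)) (br (lf 387856) 
  (k4 1665))) (br (br (lf 1746696) (k4 1602)) (k4 1091))))) (sy 1524929)) (br (sy 1524929) (sy 1524929))) (br 
  (br (br (br (br (br (br (lf 1725969) (lf 1525265)) (br (lf 1227786) (lf 190225))) (k4 2179)) (br (br (br 
  (lf 969864) (lf 1746696)) (sy 803733)) (k4 2179))) (sy 1069810)) (k4 1668)) (br (br (br (br (br (br 
  (lf 1238664) (sy 1524929)) (br (lf 1227786) (lf 1225392))) (k4 2179)) (k4 2250)) (sy 1055474)) (k4 1668))))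
   (br (br (br (br (br (br (br (br (lf 1754704) (lf 1753752)) (br (lf 941122) (lf 1753794))) (br (br (lf 969864) 
  (lf 1746696)) (sy 795557))) (k4 2187)) (sy 1106154)) (br (br (br (br (br (lf 1238216) (sy 1524929)) (br 
  (lf 1170449) (lf 1054389))) (k4 2242)) (k4 2187)) (sy 1084650))) (k4 1676)) (br (br (br (sy 1151157) 
  (k4 1604)) (k4 1668)) (k4 1676))))) (sy 1517768)) (sy 1517768))) (k4 3395)) (br (br (br (br (br (br (br (br (br 
  (br (br (br (br (br (lf 1525314) (lf 1525314)) (sy 1521800)) (sy 1751169)) (sy 1521800)) (br (br (br (br 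
  (lf 1524250) (lf 1511706)) (br (lf 1511706) (lf 450842))) (sy 1751169)) (sy 1521800))) (sy 1525377)) (br 
  (br (br (br (br (br (lf 1525314) (lf 1513603)) (br (lf 1753794) (lf 479514))) (br (br (lf 1751176) (lf 1746696))
   (sy 811692))) (br (br (br (lf 1525328) (lf 1513680)) (sy 839860)) (sy 1521800))) (sy 1106091)) (br (br (br 
  (br (br (lf 1237523) (k4 2114)) (br (lf 1237530) (k4 2114))) (sy 1525377)) (br (br (br (lf 1725136) (k4 2114)) 
  (sy 839860)) (br (br (lf 714952) (k4 1602)) (k4 1091)))) (k4 1092)))) (sy 1525377)) (br (br (br (br (br (br (br 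
  (br (lf 1525314) (lf 1525314)) (sy 839986)) (sy 1521800)) (sy 1521800)) (sy 1106154)) (br (br (br (br (br 
  (lf 1267266) (lf 1267266)) (sy 839986)) (br (br (lf 1174033) (lf 1738961)) (sy 822066))) (sy 1521800)) 
  (sy 1084650))) (br (br (br (br (br (br (lf 1266370) (lf 1710786)) (sy 408744)) (br (br (lf 1267280) (lf 477904))
   (sy 408744))) (k4 2257)) (sy 1107589)) (br (sy 1107176) (k4 1092)))) (br (br (br (br (br (br (br (lf 944706) 
  (lf 944706)) (k4 2115)) (sy 1751169)) (sy 1521800)) (k4 1604)) (sy 1525377)) (br (br (sy 1107624) (k4 1604))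
   (br (sy 1095045) (k4 1092)))))) (br (br (br (br (br (br (br (br (br (lf 1525384) (lf 1525314)) (sy 1521800)) 
  (sy 1751169)) (sy 1521800)) (br (br (br (br (lf 1525314) (lf 1237530)) (br (lf 1525314) (lf 450842))) 
  (sy 1751169)) (sy 1521800))) (sy 1525377)) (br (br (br (br (br (br (lf 1525384) (lf 1753752)) (br (lf 1170498) 
  (lf 1742608))) (br (br (lf 944776) (lf 1746696)) (sy 811692))) (k4 2250)) (sy 1106091)) (br (sy 1118453) 
  (k4 1092)))) (sy 1525377)) (br (br (br (br (br (br (br (br (lf 944720) (lf 944720)) (sy 839986)) (sy 1521800)) 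
  (k4 2187)) (sy 1106154)) (br (br (br (br (br (lf 1267217) (lf 1174145)) (sy 839986)) (k4 2242)) (k4 2187)) 
  (sy 1084650))) (k4 1676)) (br (br (br (sy 1151157) (k4 1604)) (k4 1668)) (k4 1676))))) (sy 1521800)) 
  (sy 1524929)) (sy 1520904)) (k4 3395))) (k4 3285))) (k4 3404)) (k4 3349)) (k4 3357))

theorem t16_ok : check RT t16 20 28808 = true := by decide +kernel

def t17 : Cert :=
  (br (br (br (br (br (br (br (br (br (br (br (br (br (br (br (br (br (br (br (br (lf 1751106) (lf 1579802)) (k4 3272)) 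
  (sy 1751169)) (br (sy 1751169) (sy 1751169))) (k4 3329)) (br (br (br (br (br (lf 1724618) (lf 1581867)) 
  (k4 3272)) (sy 1751169)) (br (br (br (lf 1737498) (lf 1639267)) (k4 3272)) (sy 1751169))) (k4 3329))) (br (br 
  (br (br (br (br (lf 1725080) (lf 1616195)) (k4 3272)) (br (br (lf 1737498) (lf 1639197)) (k4 3272))) (br (br (br 
  (lf 1619296) (sy 344309)) (k4 3272)) (sy 1751169))) (k4 3329)) (br (br (br (br (br (lf 1705291) (k4 2114)) 
  (k4 3272)) (br (br (lf 1640653) (k4 2114)) (k4 3272))) (br (br (br (lf 1655493) (k4 2114)) (k4 3272)) (br (br 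
  (lf 1652805) (k4 1602)) (k4 1091)))) (k4 1092)))) (sy 1751169)) (br (br (br (br (br (br (br (br (lf 1688386) 
  (lf 1607914)) (k4 3272)) (br (br (lf 1673994) (lf 1578794)) (k4 3272))) (br (br (br (lf 1620738) (lf 1620136))
   (k4 3272)) (br (br (lf 1678096) (k4 1602)) (k4 1091)))) (k4 3329)) (br (br (br (br (br (lf 1706586) 
  (lf 1579354)) (k4 3272)) (br (br (lf 1590869) (sy 78645)) (k4 3272))) (br (br (br (lf 1619989) (lf 1607893)) 
  (k4 3272)) (br (br (lf 1673301) (k4 1602)) (k4 1091)))) (k4 3329))) (br (br (br (br (br (br (lf 1624770) 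
  (sy 419013)) (k4 3272)) (br (br (lf 1709701) (sy 419013)) (k4 3272))) (k4 2257)) (k4 3329)) (br (br (br (br (br 
  (lf 1708371) (k4 2114)) (k4 3272)) (br (br (lf 1708245) (k4 2114)) (k4 3272))) (k4 2257)) (k4 1092)))) (br 
  (br (br (br (br (br (br (lf 1688106) (lf 1579242)) (k4 2115)) (sy 1751169)) (br (sy 1751169) (sy 1751169))) 
  (k4 1604)) (br (br (br (br (br (lf 1705578) (lf 1704682)) (k4 2115)) (k4 2256)) (br (br (br (lf 1688106) 
  (lf 1688085)) (k4 2115)) (k4 2256))) (k4 1604))) (br (br (br (br (br (br (lf 1716778) (sy 419013)) (k4 2115)) 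
  (br (br (lf 1688106) (sy 419013)) (k4 2115))) (k4 2257)) (k4 1604)) (br (sy 1095045) (k4 1092)))))) (br (br 
  (br (br (br (br (br (br (br (lf 1690248) (lf 1737498)) (k4 3272)) (sy 1751169)) (br (sy 1751169) (sy 1751169))) 
  (k4 3329)) (br (br (br (br (br (lf 1705193) (lf 1640541)) (k4 3272)) (k4 2242)) (br (br (br (lf 1653064) 
  (lf 1639197)) (k4 3272)) (k4 2242))) (k4 3329))) (br (br (br (br (br (br (lf 1717576) (lf 1644573)) (k4 3272)) 
  (br (br (lf 1653064) (lf 1639197)) (k4 3272))) (k4 2250)) (k4 3329)) (br (br (br (br (br (lf 1712837) (k4 2114))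
   (k4 3272)) (k4 2242)) (k4 2250)) (k4 1092)))) (sy 1751169)) (br (br (br (br (br (br (br (br (lf 1690178) 
  (lf 1716869)) (k4 3272)) (br (br (lf 1688232) (lf 1671957)) (k4 3272))) (k4 2187)) (k4 3329)) (br (br (br (br 
  (br (lf 1716309) (lf 1708245)) (k4 3272)) (k4 2242)) (k4 2187)) (k4 3329))) (k4 1676)) (br (br (br (br (br (br 
  (br (lf 1690178) (lf 1688106)) (k4 2115)) (k4 2179)) (k4 2187)) (k4 1604)) (k4 1668)) (k4 1676))))) (br (br 
  (br (br (br (br (br (br (br (br (lf 1737498) (lf 1737379)) (k4 3272)) (sy 1751169)) (br (sy 1751169) (sy 1751169)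
  )) (k4 3329)) (br (br (br (br (br (lf 1595475) (lf 1594131)) (k4 3272)) (sy 1751169)) (br (br (br (lf 1737498) 
  (lf 1579683)) (k4 3272)) (sy 1751169))) (k4 3329))) (br (br (br (br (br (br (lf 1628179) (sy 288099)) (k4 3272)
  ) (br (br (lf 1579683) (sy 288099)) (k4 3272))) (br (br (br (lf 1627332) (sy 273763)) (k4 3272)) (sy 1751169))
  ) (k4 3329)) (br (br (br (br (br (lf 1594131) (k4 2114)) (k4 3272)) (br (br (lf 1594131) (k4 2114)) (k4 3272))) 
  (br (br (br (lf 1628179) (k4 2114)) (k4 3272)) (br (br (lf 1639267) (k4 1602)) (k4 1091)))) (k4 1092)))) 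
  (sy 1751169)) (br (br (br (br (br (br (br (br (lf 1741082) (lf 1626338)) (k4 3272)) (br (br (lf 1594082) 
  (sy 58716)) (k4 3272))) (br (br (br (lf 1627906) (sy 288099)) (k4 3272)) (br (br (lf 1620514) (k4 1602)) 
  (k4 1091)))) (k4 3329)) (br (br (br (br (br (lf 1595482) (lf 1579354)) (k4 3272)) (br (br (lf 1595482) 
  (sy 44387)) (k4 3272))) (br (br (br (lf 1627906) (sy 288099)) (k4 3272)) (br (br (lf 1585941) (k4 1602)) 
  (k4 1091)))) (k4 3329))) (br (br (br (br (br (br (lf 1624602) (sy 288099)) (k4 3272)) (br (br (lf 1626394) 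
  (sy 288099)) (k4 3272))) (k4 2257)) (k4 3329)) (br (br (br (br (br (lf 1624602) (k4 2114)) (k4 3272)) (br (br 
  (lf 1622229) (k4 2114)) (k4 3272))) (k4 2257)) (k4 1092)))) (br (br (br (br (br (br (br (lf 1688106) 
  (lf 1579802)) (k4 2115)) (sy 1751169)) (br (sy 1751169) (sy 1751169))) (k4 1604)) (br (br (br (br (br 
  (lf 1591114) (sy 58716)) (k4 2115)) (k4 2256)) (br (br (br (lf 1688106) (sy 288099)) (k4 2115)) (k4 2256))) 
  (k4 1604))) (br (br (br (br (br (br (lf 1710786) (sy 288099)) (k4 2115)) (br (br (lf 1579242) (sy 288099)) 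
  (k4 2115))) (k4 2257)) (k4 1604)) (br (sy 1095045) (k4 1092)))))) (br (br (br (br (br (br (br (br (br (lf 1737498)
   (lf 1579802)) (k4 3272)) (sy 1751169)) (br (sy 1751169) (sy 1751169))) (k4 3329)) (br (br (br (br (br 
  (lf 1753297) (lf 1594019)) (k4 3272)) (k4 2242)) (br (br (br (lf 1737498) (lf 1639197)) (k4 3272)) (k4 2242))
  ) (k4 3329))) (br (br (br (br (br (br (lf 1742979) (sy 288099)) (k4 3272)) (br (br (lf 1751106) (sy 288099)) 
  (k4 3272))) (k4 2250)) (k4 3329)) (br (br (br (br (br (lf 1709099) (k4 2114)) (k4 3272)) (k4 2242)) (k4 2250)) 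
  (k4 1092)))) (sy 1751169)) (br (br (br (br (br (br (br (br (lf 1717058) (lf 1628186)) (k4 3272)) (br (br 
  (lf 1688106) (sy 58716)) (k4 3272))) (k4 2187)) (k4 3329)) (br (br (br (br (br (lf 1704682) (lf 1607893)) 
  (k4 3272)) (k4 2242)) (k4 2187)) (k4 3329))) (k4 1676)) (br (br (br (br (br (br (br (lf 1690178) (lf 1579242)) 
  (k4 2115)) (k4 2179)) (k4 2187)) (k4 1604)) (k4 1668)) (k4 1676)))))) (sy 1751169)) (br (br (br (br (br (br (br 
  (br (br (br (br (br (lf 1742874) (lf 1741852)) (k4 3272)) (br (br (lf 1740956) (lf 1616412)) (k4 3272))) (br (br 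
  (br (lf 1627780) (lf 1627164)) (k4 3272)) (br (br (lf 1750084) (k4 1602)) (k4 1091)))) (k4 3329)) (br (br (br 
  (br (br (lf 1753227) (lf 1614179)) (k4 3272)) (br (br (lf 1583820) (sy 78645)) (k4 3272))) (br (br (br 
  (lf 1645336) (lf 1645084)) (k4 3272)) (br (br (lf 1641164) (k4 1602)) (k4 1091)))) (k4 3329))) (br (br (br (br 
  (br (br (lf 1743000) (sy 344435)) (k4 3272)) (br (br (lf 1616412) (sy 344435)) (k4 3272))) (br (br (br 
  (lf 1616608) (sy 579782)) (k4 3272)) (br (br (lf 1645280) (k4 1602)) (k4 1091)))) (k4 3329)) (br (br (br (br 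
  (br (lf 1742979) (k4 2114)) (k4 3272)) (br (br (lf 1659651) (k4 2114)) (k4 3272))) (br (br (br (lf 1645336) 
  (k4 2114)) (k4 3272)) (br (br (sy 575302) (k4 1602)) (k4 1091)))) (k4 1092)))) (br (br (br (br (br (br (br 
  (lf 1753626) (lf 1741082)) (k4 3272)) (br (br (lf 1587873) (sy 124173)) (k4 3272))) (br (br (br (lf 1678082) 
  (lf 1608348)) (k4 3272)) (br (br (lf 1692180) (k4 1602)) (k4 1091)))) (k4 3329)) (br (br (br (br (br 
  (lf 1591891) (lf 1579347)) (k4 3272)) (k4 2256)) (br (br (br (lf 1590869) (lf 1639260)) (k4 3272)) (k4 2256))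
  ) (k4 3329))) (br (br (br (br (br (br (lf 1710618) (sy 344435)) (k4 3272)) (br (br (lf 1671957) (sy 344435)) 
  (k4 3272))) (br (br (br (lf 1619240) (sy 579782)) (k4 3272)) (br (br (lf 1615712) (k4 1602)) (k4 1091)))) 
  (k4 3329)) (br (br (br (br (br (lf 1710611) (k4 2114)) (k4 3272)) (k4 2256)) (br (br (br (lf 1644888) (k4 2114)) 
  (k4 3272)) (k4 2256))) (k4 1092))))) (br (br (br (br (br (br (br (br (lf 1742594) (lf 1627780)) (k4 3272)) (br 
  (br (lf 1677984) (lf 1607508)) (k4 3272))) (br (br (br (lf 1627808) (lf 480480)) (k4 3272)) (br (br 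
  (lf 1619296) (k4 1602)) (k4 1091)))) (k4 3329)) (br (br (br (br (br (lf 1725080) (lf 1622355)) (k4 3272)) (br 
  (br (lf 1590869) (sy 78645)) (k4 3272))) (br (br (br (lf 1616104) (sy 329588)) (k4 3272)) (br (br (lf 1676640) 
  (k4 1602)) (k4 1091)))) (k4 3329))) (br (br (br (br (br (br (lf 1628312) (sy 404712)) (k4 3272)) (br (br 
  (lf 1623272) (sy 404712)) (k4 3272))) (k4 2257)) (k4 3329)) (br (br (br (br (br (lf 1623384) (k4 2114)) 
  (k4 3272)) (br (br (lf 1655640) (k4 2114)) (k4 3272))) (k4 2257)) (k4 1092)))) (br (br (br (br (br (br (br 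
  (lf 1620290) (lf 1628354)) (k4 2115)) (br (br (lf 1691914) (sy 124173)) (k4 2115))) (br (br (br (lf 1620290) 
  (lf 1619296)) (k4 2115)) (br (sy 804237) (k4 1091)))) (k4 1604)) (br (br (br (br (br (lf 1706698) (lf 1607851))
   (k4 2115)) (k4 2256)) (br (br (br (lf 1688400) (sy 329588)) (k4 2115)) (k4 2256))) (k4 1604))) (br (br (br (br 
  (br (br (lf 1623874) (sy 404712)) (k4 2115)) (br (br (lf 1620290) (sy 404712)) (k4 2115))) (k4 2257)) 
  (k4 1604)) (br (sy 1095045) (k4 1092)))))) (br (br (br (br (br (br (br (br (br (lf 1753808) (lf 1616643)) 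
  (k4 3272)) (br (br (lf 1653260) (lf 1650796)) (k4 3272))) (br (br (br (lf 1682016) (lf 1645252)) (k4 3272)) 
  (br (br (lf 1651524) (k4 1602)) (k4 1091)))) (k4 3329)) (br (br (br (br (br (lf 1657355) (lf 1655115)) (k4 3272)
  ) (k4 2242)) (br (br (br (lf 1656424) (sy 569702)) (k4 3272)) (k4 2242))) (k4 3329))) (br (br (br (br (br (br 
  (lf 1709400) (sy 344435)) (k4 3272)) (br (br (lf 1644776) (sy 344435)) (k4 3272))) (k4 2250)) (k4 3329)) (br 
  (br (br (br (br (lf 1714755) (k4 2114)) (k4 3272)) (k4 2242)) (k4 2250)) (k4 1092)))) (br (br (br (br (br (br (br 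
  (lf 1751169) (lf 1585941)) (k4 3272)) (k4 2179)) (br (br (br (lf 1688400) (lf 1619296)) (k4 3272)) (k4 2179))
  ) (k4 3329)) (k4 1668)) (br (br (br (br (br (br (lf 1710800) (sy 344435)) (k4 3272)) (k4 2179)) (k4 2250)) 
  (k4 3329)) (k4 1668)))) (br (br (br (br (br (br (br (br (lf 1677648) (lf 1623272)) (k4 3272)) (br (br (lf 1680224)
   (lf 1644356)) (k4 3272))) (k4 2187)) (k4 3329)) (br (br (br (br (br (lf 1709400) (lf 1655640)) (k4 3272)) 
  (k4 2242)) (k4 2187)) (k4 3329))) (k4 1676)) (br (br (br (br (br (br (br (lf 1717058) (lf 1677648)) (k4 2115)) 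
  (k4 2179)) (k4 2187)) (k4 1604)) (k4 1668)) (k4 1676))))) (br (br (br (br (br (br (br (br (br (br (lf 1741026) 
  (k4 2689)) (k4 3272)) (br (br (lf 1740956) (k4 2689)) (k4 3272))) (br (br (br (lf 1742468) (k4 2689)) (k4 3272)
  ) (br (br (lf 1742468) (k4 1602)) (k4 1091)))) (k4 3329)) (br (br (br (br (br (lf 1737379) (k4 2689)) (k4 3272))
   (br (br (lf 1594460) (k4 2689)) (k4 3272))) (br (br (br (lf 1627171) (k4 2689)) (k4 3272)) (br (br (lf 1578332)
   (k4 1602)) (k4 1091)))) (k4 3329))) (br (br (br (br (br (br (lf 1741075) (k4 2689)) (k4 3272)) (br (br 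
  (lf 1627164) (k4 2689)) (k4 3272))) (br (br (br (sy 350406) (k4 2689)) (k4 3272)) (br (br (sy 350406) (k4 1602)
  ) (k4 1091)))) (k4 3329)) (br (br (br (br (br (lf 1628291) (k4 2114)) (k4 3272)) (br (br (lf 1578339) (k4 2114))
   (k4 3272))) (br (br (br (sy 346864) (k4 2114)) (k4 3272)) (br (br (sy 575302) (k4 1602)) (k4 1091)))) 
  (k4 1092)))) (br (br (br (br (br (br (br (lf 1741026) (k4 2689)) (k4 3272)) (br (br (lf 1594068) (k4 2689)) 
  (k4 3272))) (br (br (br (lf 1742370) (k4 2689)) (k4 3272)) (br (br (lf 1594964) (k4 1602)) (k4 1091)))) 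
  (k4 3329)) (br (br (br (br (br (lf 1595475) (k4 2689)) (k4 3272)) (k4 2256)) (br (br (br (lf 1737498) (k4 2689)) 
  (k4 3272)) (k4 2256))) (k4 3329))) (br (br (br (br (br (br (lf 1741082) (k4 2689)) (k4 3272)) (br (br 
  (lf 1594131) (k4 2689)) (k4 3272))) (br (br (br (sy 350406) (k4 2689)) (k4 3272)) (br (br (sy 350406) (k4 1602)
  ) (k4 1091)))) (k4 3329)) (br (br (br (br (br (lf 1738835) (k4 2114)) (k4 3272)) (k4 2256)) (br (br (br 
  (sy 346864) (k4 2114)) (k4 3272)) (k4 2256))) (k4 1092))))) (br (br (br (br (br (br (br (br (lf 1743042) 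
  (k4 2689)) (k4 3272)) (br (br (lf 1742370) (k4 2689)) (k4 3272))) (br (br (br (lf 1627906) (k4 2689)) (k4 3272)
  ) (br (br (lf 473732) (k4 1602)) (k4 1091)))) (k4 3329)) (br (br (br (br (br (lf 1741075) (k4 2689)) (k4 3272)) 
  (br (br (lf 1737498) (k4 2689)) (k4 3272))) (br (br (br (lf 1626394) (k4 2689)) (k4 3272)) (br (br (lf 469532) 
  (k4 1602)) (k4 1091)))) (k4 3329))) (br (br (br (br (br (br (sy 419013) (k4 2689)) (k4 3272)) (br (br (sy 419013)
   (k4 2689)) (k4 3272))) (k4 2257)) (k4 3329)) (br (br (br (br (br (sy 404712) (k4 2114)) (k4 3272)) (br (br 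
  (sy 404712) (k4 2114)) (k4 3272))) (k4 2257)) (k4 1092)))) (br (br (br (br (br (br (br (lf 1628354) (k4 2689)) 
  (k4 2115)) (br (br (lf 1586018) (k4 2689)) (k4 2115))) (br (br (br (lf 473634) (k4 2689)) (k4 2115)) (br 
  (sy 804237) (k4 1091)))) (k4 1604)) (br (br (br (br (br (lf 1608474) (k4 2689)) (k4 2115)) (k4 2256)) (br (br 
  (br (lf 481306) (k4 2689)) (k4 2115)) (k4 2256))) (k4 1604))) (br (br (br (br (br (br (sy 419013) (k4 2689)) 
  (k4 2115)) (br (br (sy 419013) (k4 2689)) (k4 2115))) (k4 2257)) (k4 1604)) (br (sy 1095045) (k4 1092)))))) 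
  (br (br (br (br (br (br (br (br (br (lf 1741852) (k4 2689)) (k4 3272)) (br (br (lf 1749076) (k4 2689)) (k4 3272))) 
  (br (br (br (lf 1742468) (k4 2689)) (k4 3272)) (br (br (lf 1750084) (k4 1602)) (k4 1091)))) (k4 3329)) (br (br 
  (br (br (br (lf 1753171) (k4 2689)) (k4 3272)) (k4 2242)) (br (br (br (lf 1645084) (k4 2689)) (k4 3272)) 
  (k4 2242))) (k4 3329))) (br (br (br (br (br (br (lf 1743000) (k4 2689)) (k4 3272)) (br (br (lf 1616608) (k4 2689)
  ) (k4 3272))) (k4 2250)) (k4 3329)) (br (br (br (br (br (lf 1725507) (k4 2114)) (k4 3272)) (k4 2242)) (k4 2250)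
  ) (k4 1092)))) (br (br (br (br (br (br (br (lf 1742370) (k4 2689)) (k4 3272)) (k4 2179)) (br (br (br (lf 1677984) 
  (k4 2689)) (k4 3272)) (k4 2179))) (k4 3329)) (k4 1668)) (br (br (br (br (br (br (lf 1628312) (k4 2689)) 
  (k4 3272)) (k4 2179)) (k4 2250)) (k4 3329)) (k4 1668)))) (br (br (br (br (br (br (br (br (lf 1628354) (k4 2689)) 
  (k4 3272)) (br (br (lf 1677984) (k4 2689)) (k4 3272))) (k4 2187)) (k4 3329)) (br (br (br (br (br (lf 1628354) 
  (k4 2689)) (k4 3272)) (k4 2242)) (k4 2187)) (k4 3329))) (k4 1676)) (br (br (br (br (br (br (br (lf 1717058) 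
  (k4 2689)) (k4 2115)) (k4 2179)) (k4 2187)) (k4 1604)) (k4 1668)) (k4 1676)))))) (sy 1517768))) (k4 3395)) 
  (br (sy 1751169) (k4 3395))) (k4 3285)) (br (br (br (br (br (br (br (br (br (br (br (br (br (br (br (br (lf 1738842) 
  (lf 1595475)) (k4 3272)) (br (br (lf 1595153) (lf 1594635)) (k4 3272))) (br (br (br (lf 1753626) (lf 1741012))
   (k4 3272)) (br (br (lf 1738401) (k4 1602)) (k4 1091)))) (k4 3329)) (br (br (br (br (br (lf 1724569) 
  (lf 1595531)) (k4 3272)) (br (br (lf 1591961) (sy 78645)) (k4 3272))) (br (br (br (lf 1706586) (lf 1581867)) 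
  (k4 3272)) (br (br (lf 1582889) (k4 1602)) (k4 1091)))) (k4 3329))) (br (br (br (br (br (br (lf 1724499) 
  (lf 1579347)) (k4 3272)) (br (br (lf 1753241) (lf 1579179)) (k4 3272))) (br (br (br (lf 1742979) (sy 344309)) 
  (k4 3272)) (br (br (lf 1619989) (k4 1602)) (k4 1091)))) (k4 3329)) (br (br (br (br (br (lf 1706635) (k4 2114)) 
  (k4 3272)) (br (br (lf 1706635) (k4 2114)) (k4 3272))) (br (br (br (lf 1712963) (k4 2114)) (k4 3272)) (br (br 
  (lf 1705291) (k4 1602)) (k4 1091)))) (k4 1092)))) (br (br (br (br (br (br (br (lf 1592010) (lf 1595482)) 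
  (k4 3272)) (br (br (lf 1595601) (sy 124173)) (k4 3272))) (br (br (br (lf 1753290) (lf 1592010)) (k4 3272)) (br 
  (br (lf 1587537) (k4 1602)) (k4 1091)))) (k4 3329)) (br (br (br (br (br (lf 1592010) (lf 1592017)) (k4 3272)) 
  (k4 2256)) (br (br (br (lf 1592017) (lf 214697)) (k4 3272)) (k4 2256))) (k4 3329))) (br (br (br (br (br (br 
  (lf 1706586) (lf 1706586)) (k4 3272)) (br (br (lf 1591114) (sy 124173)) (k4 3272))) (br (br (br (lf 1724506) 
  (sy 344309)) (k4 3272)) (br (br (lf 1716330) (k4 1602)) (k4 1091)))) (k4 3329)) (br (br (br (br (br (lf 1706705)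
   (k4 2114)) (k4 3272)) (k4 2256)) (br (br (br (lf 1247953) (k4 2114)) (k4 3272)) (k4 2256))) (k4 1092))))) 
  (br (br (br (br (br (br (br (br (lf 1753178) (lf 1579354)) (k4 3272)) (br (br (lf 1595594) (lf 1590106)) (k4 3272)
  )) (br (br (br (lf 1693762) (lf 1607914)) (k4 3272)) (br (br (lf 1672034) (k4 1602)) (k4 1091)))) (k4 3329)) 
  (br (br (br (br (br (lf 1706698) (lf 1704794)) (k4 3272)) (br (br (lf 1592010) (sy 78645)) (k4 3272))) (br (br 
  (br (lf 1704794) (lf 1590106)) (k4 3272)) (br (br (lf 1673553) (k4 1602)) (k4 1091)))) (k4 3329))) (br (br (br 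
  (br (br (br (lf 1710618) (sy 419013)) (k4 3272)) (br (br (lf 1710786) (sy 419013)) (k4 3272))) (k4 2257)) 
  (k4 3329)) (br (br (br (br (br (lf 1251866) (k4 2114)) (k4 3272)) (br (br (lf 1705193) (k4 2114)) (k4 3272))) 
  (k4 2257)) (k4 1092)))) (br (br (br (br (br (br (br (lf 1724618) (lf 1591114)) (k4 2115)) (br (br (lf 1705802) 
  (sy 124173)) (k4 2115))) (br (br (br (lf 1687882) (lf 1671978)) (k4 2115)) (br (sy 804237) (k4 1091)))) 
  (k4 1604)) (br (br (br (br (br (sy 1063566) (sy 144753)) (k4 2115)) (k4 2256)) (br (br (br (sy 1063566) 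
  (sy 144753)) (k4 2115)) (k4 2256))) (k4 1604))) (br (br (br (br (br (br (lf 1257802) (sy 419013)) (k4 2115)) 
  (br (br (lf 1257802) (sy 419013)) (k4 2115))) (k4 2257)) (k4 1604)) (br (sy 1095045) (k4 1092)))))) (br (br 
  (br (br (br (br (br (br (br (lf 1754641) (lf 1738961)) (k4 3272)) (br (br (lf 1705809) (lf 1586473)) (k4 3272))) 
  (br (br (br (lf 1690241) (lf 1618197)) (k4 3272)) (br (br (lf 1679657) (k4 1602)) (k4 1091)))) (k4 3329)) (br 
  (br (br (br (br (lf 1706705) (lf 1591947)) (k4 3272)) (k4 2242)) (br (br (br (lf 1712473) (lf 1590617)) 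
  (k4 3272)) (k4 2242))) (k4 3329))) (br (br (br (br (br (br (lf 1725633) (lf 1709099)) (k4 3272)) (br (br 
  (lf 1717289) (lf 1640779)) (k4 3272))) (k4 2250)) (k4 3329)) (br (br (br (br (br (lf 1255961) (k4 2114)) 
  (k4 3272)) (k4 2242)) (k4 2250)) (k4 1092)))) (br (br (br (br (br (br (br (lf 1725969) (lf 1706698)) (k4 3272)) 
  (k4 2179)) (br (br (br (lf 1690129) (lf 1716554)) (k4 3272)) (k4 2179))) (k4 3329)) (k4 1668)) (br (br (br (br 
  (br (br (lf 1257809) (lf 1246441)) (k4 3272)) (k4 2179)) (k4 2250)) (k4 3329)) (k4 1668)))) (br (br (br (br (br 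
  (br (br (br (lf 1726018) (lf 1717058)) (k4 3272)) (br (br (lf 1718794) (lf 1587537)) (k4 3272))) (k4 2187)) 
  (k4 3329)) (br (br (br (br (br (lf 1267217) (lf 1246315)) (k4 3272)) (k4 2242)) (k4 2187)) (k4 3329))) 
  (k4 1676)) (br (br (br (br (br (br (sy 1147566) (k4 2115)) (k4 2179)) (k4 2187)) (k4 1604)) (k4 1668)) (k4 1676)
  )))) (br (br (br (br (br (br (br (br (br (br (lf 1738842) (lf 1594138)) (k4 3272)) (br (br (lf 1594138) (sy 58716))
   (k4 3272))) (br (br (br (lf 1741026) (lf 1626338)) (k4 3272)) (br (br (lf 1737442) (k4 1602)) (k4 1091)))) 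
  (k4 2824)) (br (br (br (br (br (lf 1595482) (sy 54691)) (k4 3272)) (br (br (lf 1595475) (sy 44387)) (k4 3272))) 
  (br (br (br (lf 1595475) (sy 54691)) (k4 3272)) (br (br (lf 1595475) (k4 1602)) (k4 1091)))) (k4 2824))) (br 
  (br (br (br (br (br (lf 1741082) (sy 288099)) (k4 3272)) (br (br (lf 1737491) (sy 288099)) (k4 3272))) (br (br 
  (br (lf 1742867) (sy 273763)) (k4 3272)) (br (br (lf 1741026) (k4 1602)) (k4 1091)))) (k4 2824)) (br (br (br 
  (br (br (lf 1724499) (k4 2114)) (k4 3272)) (br (br (lf 219275) (k4 2114)) (k4 3272))) (br (br (br (lf 1590099) 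
  (k4 2114)) (k4 3272)) (br (br (lf 218379) (k4 1602)) (k4 1091)))) (k4 1092)))) (br (br (br (br (br (br (br 
  (lf 1595594) (lf 219226)) (k4 3272)) (br (br (lf 219338) (sy 58716)) (k4 3272))) (br (br (br (lf 1595482) 
  (sy 60060)) (k4 3272)) (br (br (sy 125069) (k4 1602)) (k4 1091)))) (k4 2824)) (br (br (br (br (br (lf 219338) 
  (sy 54691)) (k4 3272)) (k4 2256)) (br (br (br (lf 219338) (sy 54691)) (k4 3272)) (k4 2256))) (k4 2824))) (br 
  (br (br (br (br (br (lf 1595482) (sy 288099)) (k4 3272)) (br (br (lf 1591898) (sy 288099)) (k4 3272))) (br (br 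
  (br (lf 1622362) (sy 273763)) (k4 3272)) (br (br (sy 125069) (k4 1602)) (k4 1091)))) (k4 2824)) (br (br (br (br 
  (br (sy 1070321) (k4 2114)) (k4 3272)) (k4 2256)) (br (br (br (sy 1070321) (k4 2114)) (k4 3272)) (k4 2256))) 
  (k4 1092))))) (br (br (br (br (br (br (br (br (lf 1753178) (lf 1579802)) (k4 3272)) (br (br (lf 1595146) 
  (sy 58716)) (k4 3272))) (br (br (br (lf 1741082) (sy 288099)) (k4 3272)) (br (br (lf 1737442) (k4 1602)) 
  (k4 1091)))) (k4 2824)) (br (br (br (br (br (lf 1753178) (sy 54691)) (k4 3272)) (br (br (lf 1595594) (sy 44387))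
   (k4 3272))) (br (br (br (lf 1590106) (sy 54691)) (k4 3272)) (br (br (lf 217882) (k4 1602)) (k4 1091)))) 
  (k4 2824))) (br (br (br (br (br (br (lf 1710618) (sy 288099)) (k4 3272)) (br (br (lf 1708378) (sy 288099)) 
  (k4 3272))) (k4 2257)) (k4 2824)) (br (br (br (br (br (lf 1246042) (k4 2114)) (k4 3272)) (br (br (lf 156506) 
  (k4 2114)) (k4 3272))) (k4 2257)) (k4 1092)))) (br (br (br (br (br (br (br (lf 1724506) (sy 60060)) (k4 2115)) 
  (br (br (sy 117929) (sy 58716)) (k4 2115))) (br (br (br (lf 1749538) (sy 288099)) (k4 2115)) (br (sy 804237) 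
  (k4 1091)))) (k4 1604)) (br (br (br (sy 1070769) (k4 2256)) (br (sy 1070769) (k4 2256))) (k4 1604))) (br (br 
  (br (br (br (br (lf 1724954) (sy 288099)) (k4 2115)) (br (br (sy 117929) (sy 288099)) (k4 2115))) (k4 2257)) 
  (k4 1604)) (br (sy 1095045) (k4 1092)))))) (br (br (br (br (br (br (br (br (br (lf 1753290) (lf 1594131)) 
  (k4 3272)) (br (br (lf 1738954) (sy 58716)) (k4 3272))) (br (br (br (lf 1749258) (lf 1741012)) (k4 3272)) (br 
  (br (lf 1587978) (k4 1602)) (k4 1091)))) (k4 2824)) (br (br (br (br (br (lf 1753290) (sy 54691)) (k4 3272)) 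
  (k4 2242)) (br (br (br (lf 1595601) (sy 54691)) (k4 3272)) (k4 2242))) (k4 2824))) (br (br (br (br (br (br 
  (lf 1753171) (sy 288099)) (k4 3272)) (br (br (lf 1595594) (sy 288099)) (k4 3272))) (k4 2250)) (k4 2824)) (br 
  (br (br (br (br (lf 1247827) (k4 2114)) (k4 3272)) (k4 2242)) (k4 2250)) (k4 1092)))) (br (br (br (br (br (br (br 
  (lf 1738954) (lf 1592010)) (k4 3272)) (k4 2179)) (br (br (br (lf 1754634) (sy 60060)) (k4 3272)) (k4 2179))) 
  (k4 2824)) (k4 1668)) (br (br (br (br (br (br (lf 1706586) (sy 288099)) (k4 3272)) (k4 2179)) (k4 2250)) 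
  (k4 2824)) (k4 1668)))) (br (br (br (br (br (br (br (br (lf 1724506) (lf 1608026)) (k4 3272)) (br (br (lf 1738954)
   (sy 58716)) (k4 3272))) (k4 2187)) (k4 2824)) (br (br (br (br (br (lf 1247946) (sy 54691)) (k4 3272)) 
  (k4 2242)) (k4 2187)) (k4 2824))) (k4 1676)) (br (br (br (br (br (br (br (lf 1725962) (lf 1705802)) (k4 2115)) 
  (k4 2179)) (k4 2187)) (k4 1604)) (k4 1668)) (k4 1676)))))) (sy 1524929)) (br (br (br (br (br (br (br (br (br (br 
  (br (br (lf 1741075) (lf 1737491)) (k4 3272)) (br (br (lf 1737498) (lf 1594467)) (k4 3272))) (br (br (br 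
  (lf 1741012) (lf 1741859)) (k4 3272)) (br (br (lf 1749132) (k4 1602)) (k4 1091)))) (k4 3329)) (br (br (br (br 
  (br (lf 1753171) (lf 1738835)) (k4 3272)) (br (br (lf 1594649) (sy 78645)) (k4 3272))) (br (br (br (lf 1753171)
   (lf 1745443)) (k4 3272)) (br (br (lf 1583715) (k4 1602)) (k4 1091)))) (k4 3329))) (br (br (br (br (br (br 
  (lf 1742867) (sy 344435)) (k4 3272)) (br (br (lf 1753619) (sy 344435)) (k4 3272))) (br (br (br (lf 1742104) 
  (sy 579782)) (k4 3272)) (br (br (lf 1616419) (k4 1602)) (k4 1091)))) (k4 3329)) (br (br (br (br (br (lf 1724947)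
   (k4 2114)) (k4 3272)) (br (br (lf 1738891) (k4 2114)) (k4 3272))) (br (br (br (lf 1747011) (k4 2114)) 
  (k4 3272)) (br (br (sy 575302) (k4 1602)) (k4 1091)))) (k4 1092)))) (br (br (br (br (br (br (br (lf 1738954) 
  (lf 1594138)) (k4 3272)) (br (br (lf 1738513) (sy 124173)) (k4 3272))) (br (br (br (lf 1742874) (lf 1594068)) 
  (k4 3272)) (br (br (lf 1595020) (k4 1602)) (k4 1091)))) (k4 3329)) (br (br (br (br (br (lf 1738842) (lf 215635))
   (k4 3272)) (k4 2256)) (br (br (br (lf 1595475) (lf 1590099)) (k4 3272)) (k4 2256))) (k4 3329))) (br (br (br 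
  (br (br (br (lf 1753626) (sy 344435)) (k4 3272)) (br (br (lf 1738842) (sy 344435)) (k4 3272))) (br (br (br 
  (lf 1725136) (sy 579782)) (k4 3272)) (br (br (lf 1657369) (k4 1602)) (k4 1091)))) (k4 3329)) (br (br (br (br 
  (br (lf 1724499) (k4 2114)) (k4 3272)) (k4 2256)) (br (br (br (lf 1245867) (k4 2114)) (k4 3272)) (k4 2256))) 
  (k4 1092))))) (br (br (br (br (br (br (br (br (lf 1743042) (lf 1742867)) (k4 3272)) (br (br (lf 1743042) 
  (lf 1579676)) (k4 3272))) (br (br (br (lf 1743056) (lf 1628186)) (k4 3272)) (br (br (lf 1692292) (k4 1602)) 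
  (k4 1091)))) (k4 3329)) (br (br (br (br (br (lf 1753619) (lf 1753619)) (k4 3272)) (br (br (lf 1595482) 
  (sy 78645)) (k4 3272))) (br (br (br (lf 1710618) (lf 480515)) (k4 3272)) (br (br (lf 1705557) (k4 1602)) 
  (k4 1091)))) (k4 3329))) (br (br (br (br (br (br (lf 1628186) (sy 404712)) (k4 3272)) (br (br (lf 1710618) 
  (sy 404712)) (k4 3272))) (k4 2257)) (k4 3329)) (br (br (sy 1107176) (k4 2257)) (k4 1092)))) (br (br (br (br (br 
  (br (br (lf 1753290) (lf 1595482)) (k4 2115)) (br (br (lf 1687882) (sy 124173)) (k4 2115))) (br (br (br 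
  (lf 1693762) (lf 461538)) (k4 2115)) (br (sy 804237) (k4 1091)))) (k4 1604)) (br (br (br (br (br (lf 1724618) 
  (sy 144753)) (k4 2115)) (k4 2256)) (br (br (br (lf 1706698) (sy 144753)) (k4 2115)) (k4 2256))) (k4 1604))) 
  (br (br (br (br (br (br (lf 1266370) (sy 404712)) (k4 2115)) (br (br (lf 1266370) (sy 404712)) (k4 2115))) 
  (k4 2257)) (k4 1604)) (br (sy 1095045) (k4 1092)))))) (br (br (br (br (br (br (br (br (br (lf 1753752) 
  (lf 1741075)) (k4 3272)) (br (br (lf 1750273) (lf 1583883)) (k4 3272))) (br (br (br (lf 1754760) (lf 1616412))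
   (k4 3272)) (br (br (lf 1692768) (k4 1602)) (k4 1091)))) (k4 3329)) (br (br (br (br (br (lf 1724569) 
  (lf 1753227)) (k4 3272)) (k4 2242)) (br (br (br (lf 1725451) (sy 569702)) (k4 3272)) (k4 2242))) (k4 3329))) 
  (br (br (br (br (br (br (lf 1725507) (sy 344435)) (k4 3272)) (br (br (lf 1725451) (sy 344435)) (k4 3272))) 
  (k4 2250)) (k4 3329)) (br (br (br (br (br (lf 1266699) (k4 2114)) (k4 3272)) (k4 2242)) (k4 2250)) (k4 1092))))
   (br (br (br (br (br (br (br (lf 1724625) (lf 1595482)) (k4 3272)) (k4 2179)) (br (br (br (lf 1693832) 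
  (lf 1640681)) (k4 3272)) (k4 2179))) (k4 3329)) (k4 1668)) (br (br (br (br (br (br (lf 1725122) (sy 344435)) 
  (k4 3272)) (k4 2179)) (k4 2250)) (k4 3329)) (k4 1668)))) (br (br (br (br (br (br (br (br (lf 1753808) 
  (lf 1710786)) (k4 3272)) (br (br (lf 1693762) (lf 1705557)) (k4 3272))) (k4 2187)) (k4 3329)) (br (br (br (br 
  (br (lf 1725528) (lf 1249619)) (k4 3272)) (k4 2242)) (k4 2187)) (k4 3329))) (k4 1676)) (br (br (br (br (br (br 
  (br (lf 1267210) (lf 1260042)) (k4 2115)) (k4 2179)) (k4 2187)) (k4 1604)) (k4 1668)) (k4 1676))))) (br (br 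
  (br (br (br (br (br (br (br (br (lf 1511706) (k4 2689)) (k4 3272)) (sy 1524929)) (br (br (br (lf 1511706) (k4 2689)
  ) (k4 3272)) (br (br (lf 1508052) (k4 1602)) (k4 1091)))) (k4 2824)) (sy 1524929)) (br (sy 1524929) 
  (sy 1524929))) (br (br (br (br (br (br (br (lf 1508122) (k4 2689)) (k4 3272)) (br (br (lf 1738954) (k4 2689)) 
  (k4 3272))) (br (br (br (lf 1741026) (k4 2689)) (k4 3272)) (br (br (lf 1738324) (k4 1602)) (k4 1091)))) 
  (k4 2824)) (sy 1524929)) (br (br (br (br (br (br (lf 1524250) (k4 2689)) (k4 3272)) (sy 1524929)) (br (br (br 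
  (lf 1626387) (k4 2689)) (k4 3272)) (br (br (lf 1511706) (k4 1602)) (k4 1091)))) (k4 2824)) (sy 1524929)))) 
  (br (br (br (br (br (br (br (br (lf 1511706) (k4 2689)) (k4 3272)) (br (br (lf 1737442) (k4 2689)) (k4 3272))) (br 
  (br (br (lf 452634) (k4 2689)) (k4 3272)) (br (br (lf 1369634) (k4 1602)) (k4 1091)))) (k4 2824)) (br (br (br 
  (br (br (lf 1511706) (k4 2689)) (k4 3272)) (sy 1524929)) (br (br (br (lf 1626387) (k4 2689)) (k4 3272)) (br (br 
  (lf 1511706) (k4 1602)) (k4 1091)))) (k4 2824))) (br (br (br (br (br (br (lf 481306) (k4 2689)) (k4 3272)) (br 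
  (br (lf 1628179) (k4 2689)) (k4 3272))) (k4 2257)) (k4 2824)) (sy 1524929))) (br (br (br (br (br (br (br 
  (lf 1742874) (k4 2689)) (k4 2115)) (br (br (sy 117929) (k4 2689)) (k4 2115))) (br (br (br (lf 1513498) 
  (k4 2689)) (k4 2115)) (br (sy 804237) (k4 1091)))) (k4 1604)) (br (br (br (sy 1070769) (k4 2256)) (br 
  (sy 1070769) (k4 2256))) (k4 1604))) (br (br (br (br (br (br (lf 1370138) (k4 2689)) (k4 2115)) (br (br 
  (sy 117929) (k4 2689)) (k4 2115))) (k4 2257)) (k4 1604)) (br (sy 1095045) (k4 1092)))))) (br (br (br (br (br 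
  (br (br (br (br (lf 1511706) (k4 2689)) (k4 3272)) (sy 1524929)) (br (br (br (lf 1741075) (k4 2689)) (k4 3272)) 
  (br (br (lf 1746500) (k4 1602)) (k4 1091)))) (k4 2824)) (sy 1524929)) (br (sy 1524929) (sy 1524929))) (br (br 
  (br (br (br (br (br (lf 1509578) (k4 2689)) (k4 3272)) (k4 2179)) (br (br (br (lf 1749258) (k4 2689)) (k4 3272)) 
  (k4 2179))) (k4 2824)) (k4 1668)) (br (br (br (br (br (br (lf 1237530) (k4 2689)) (k4 3272)) (k4 2179)) 
  (k4 2250)) (k4 2824)) (k4 1668)))) (br (br (br (br (br (br (br (br (lf 1524250) (k4 2689)) (k4 3272)) (br (br 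
  (lf 1751106) (k4 2689)) (k4 3272))) (k4 2187)) (k4 2824)) (br (br (br (br (br (lf 1265754) (k4 2689)) (k4 3272)
  ) (k4 2242)) (k4 2187)) (k4 2824))) (k4 1676)) (br (br (br (br (br (br (br (lf 1267210) (k4 2689)) (k4 2115)) 
  (k4 2179)) (k4 2187)) (k4 1604)) (k4 1668)) (k4 1676)))))) (sy 1517768))) (k4 3395)) (br (br (br (br (br (br 
  (br (br (br (br (br (br (br (br (lf 1751106) (lf 1737498)) (k4 3272)) (sy 1751169)) (br (sy 1751169) (sy 1751169)
  )) (k4 3329)) (br (br (br (br (br (lf 1738842) (lf 1594131)) (k4 3272)) (sy 1751169)) (br (br (br (lf 1751106) 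
  (lf 1579683)) (k4 3272)) (sy 1751169))) (k4 3329))) (br (br (br (br (br (br (lf 1753794) (lf 1742874)) 
  (k4 3272)) (br (br (lf 1751106) (lf 1579683)) (k4 3272))) (br (br (br (lf 1628368) (sy 344309)) (k4 3272)) 
  (sy 1751169))) (k4 3329)) (br (br (br (br (br (lf 1724947) (k4 2114)) (k4 3272)) (br (br (lf 1595594) (k4 2114))
   (k4 3272))) (br (br (br (lf 1628179) (k4 2114)) (k4 3272)) (br (br (lf 1578339) (k4 1602)) (k4 1091)))) 
  (k4 1092)))) (sy 1751169)) (br (br (br (br (br (br (br (br (lf 1743042) (lf 1742594)) (k4 3272)) (br (br 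
  (lf 1692418) (lf 1749538)) (k4 3272))) (br (br (br (lf 1678082) (lf 473634)) (k4 3272)) (br (br (lf 1692194) 
  (k4 1602)) (k4 1091)))) (k4 3329)) (br (br (br (br (br (lf 1724618) (lf 1753626)) (k4 3272)) (br (br 
  (lf 1754634) (sy 78645)) (k4 3272))) (br (br (br (lf 1742594) (lf 1620738)) (k4 3272)) (br (br (lf 1688106) 
  (k4 1602)) (k4 1091)))) (k4 3329))) (br (br (br (br (br (br (lf 1725122) (sy 419013)) (k4 3272)) (br (br 
  (lf 1726018) (sy 419013)) (k4 3272))) (k4 2257)) (k4 3329)) (br (br (br (br (br (lf 1251866) (k4 2114)) 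
  (k4 3272)) (br (br (lf 1718850) (k4 2114)) (k4 3272))) (k4 2257)) (k4 1092)))) (br (br (br (br (br (br (br 
  (lf 1690178) (lf 1737498)) (k4 2115)) (sy 1751169)) (br (sy 1751169) (sy 1751169))) (k4 1604)) (br (br (br 
  (br (br (lf 1724618) (lf 214634)) (k4 2115)) (k4 2256)) (br (br (br (lf 1688106) (lf 922026)) (k4 2115)) 
  (k4 2256))) (k4 1604))) (br (br (br (br (br (br (lf 1266370) (sy 419013)) (k4 2115)) (br (br (lf 944706) 
  (sy 419013)) (k4 2115))) (k4 2257)) (k4 1604)) (br (sy 1095045) (k4 1092)))))) (br (br (br (br (br (br (br (br 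
  (br (lf 1751106) (lf 1751106)) (k4 3272)) (sy 1751169)) (br (sy 1751169) (sy 1751169))) (k4 3329)) (br (br 
  (br (br (br (lf 1725969) (lf 1595482)) (k4 3272)) (k4 2242)) (br (br (br (lf 1690178) (lf 1579221)) (k4 3272)) 
  (k4 2242))) (k4 3329))) (br (br (br (br (br (br (lf 1726032) (lf 1710786)) (k4 3272)) (br (br (lf 1690178) 
  (lf 1579221)) (k4 3272))) (k4 2250)) (k4 3329)) (br (br (br (br (br (lf 1267336) (k4 2114)) (k4 3272)) 
  (k4 2242)) (k4 2250)) (k4 1092)))) (sy 1751169)) (br (br (br (br (br (br (br (br (lf 1693762) (lf 1751106)) 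
  (k4 3272)) (br (br (lf 1001994) (lf 999530)) (k4 3272))) (k4 2187)) (k4 3329)) (br (br (br (br (br (lf 1260042) 
  (lf 1251138)) (k4 3272)) (k4 2242)) (k4 2187)) (k4 3329))) (k4 1676)) (br (br (br (br (br (br (sy 1151157) 
  (k4 2115)) (k4 2179)) (k4 2187)) (k4 1604)) (k4 1668)) (k4 1676))))) (br (br (br (br (br (br (br (br (br (br 
  (lf 1511706) (lf 1511706)) (k4 2753)) (sy 1751169)) (sy 1521800)) (k4 2824)) (sy 1525377)) (br (br (br (br 
  (br (br (lf 1741082) (sy 288099)) (k4 2753)) (br (br (lf 1737498) (sy 288099)) (k4 2753))) (br (br (br 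
  (lf 450842) (sy 273763)) (k4 2753)) (sy 1521800))) (k4 2824)) (br (br (br (br (br (lf 1511699) (k4 2114)) 
  (k4 2753)) (sy 1525377)) (br (br (br (lf 1628186) (k4 2114)) (k4 2753)) (br (br (lf 1511587) (k4 1602)) 
  (k4 1091)))) (k4 1092)))) (sy 1525377)) (br (br (br (br (br (br (br (br (lf 1513666) (lf 450842)) (k4 2753)) 
  (sy 1521800)) (sy 1521800)) (k4 2824)) (br (br (br (br (br (lf 1524250) (sy 54691)) (k4 2753)) (br (br 
  (lf 217882) (sy 44387)) (k4 2753))) (sy 1521800)) (k4 2824))) (br (br (br (br (br (br (lf 1628186) (sy 288099))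
   (k4 2753)) (br (br (lf 452634) (sy 288099)) (k4 2753))) (k4 2257)) (k4 2824)) (br (br (br (br (br (lf 1266202) 
  (k4 2114)) (k4 2753)) (br (br (lf 189210) (k4 2114)) (k4 2753))) (k4 2257)) (k4 1092)))) (br (br (br (br (br (br 
  (br (lf 1511706) (sy 289443)) (k4 2115)) (sy 1751169)) (sy 1521800)) (k4 1604)) (sy 1525377)) (br (br (br (br 
  (br (br (lf 1266370) (sy 288099)) (k4 2115)) (br (br (lf 944706) (sy 288099)) (k4 2115))) (k4 2257)) (k4 1604)
  ) (br (sy 1095045) (k4 1092)))))) (br (br (br (br (br (br (br (br (br (lf 1525314) (lf 1511706)) (k4 2753)) 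
  (sy 1751169)) (sy 1521800)) (k4 2824)) (sy 1525377)) (br (br (br (br (br (br (lf 1524250) (sy 288099)) 
  (k4 2753)) (br (br (lf 1737498) (sy 288099)) (k4 2753))) (k4 2250)) (k4 2824)) (br (br (br (br (br (lf 1237523) 
  (k4 2114)) (k4 2753)) (k4 2242)) (k4 2250)) (k4 1092)))) (sy 1525377)) (br (br (br (br (br (br (br (br 
  (lf 1525314) (lf 450842)) (k4 2753)) (sy 1521800)) (k4 2187)) (k4 2824)) (br (br (br (br (br (lf 1237530) 
  (sy 54691)) (k4 2753)) (k4 2242)) (k4 2187)) (k4 2824))) (k4 1676)) (br (br (br (br (br (br (br (lf 1525314) 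
  (lf 452802)) (k4 2115)) (k4 2179)) (k4 2187)) (k4 1604)) (k4 1668)) (k4 1676)))))) (sy 1524929)) 
  (sy 1520904)) (k4 3395))) (k4 3285))) (k4 3404)) (k4 3349)) (k4 3357))

theorem t17_ok : check RT t17 20 28809 = true := by decide +kernel

def t18 : Cert :=
  (sy 1750273)

theorem t18_ok : check RT t18 21 14405 = true := by decide +kernel

def t19 : Cert :=
  (sy 1754312)

theorem t19_ok : check RT t19 22 7203 = true := by decide +kernel

def t20 : Cert :=
  (br (br (br (br (br (br (br (br (br (br (br (br (br (br (br (br (br (br (br (br (lf 1754704) (lf 1743056)) (sy 1751176)) 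
  (sy 1751176)) (sy 1751176)) (br (br (br (br (lf 1753794) (lf 1628186)) (br (lf 1628354) (lf 476994))) 
  (sy 1751176)) (sy 1751176))) (br (br (br (br (br (lf 1754200) (lf 1616216)) (br (lf 1709890) (lf 1619296))) 
  (br (br (lf 1717576) (lf 1659161)) (sy 1751176))) (sy 1751176)) (br (br (br (br (lf 1724954) (k4 2184)) (br 
  (lf 1709890) (k4 2184))) (br (br (lf 1710723) (k4 2184)) (br (lf 1607914) (k4 1672)))) (sy 1751176)))) (br 
  (br (br (br (br (br (lf 1710800) (lf 1616664)) (br (lf 1620304) (lf 477848))) (br (br (lf 1682184) (lf 1645280))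
   (br (lf 1677480) (k4 1672)))) (br (br (br (lf 1628368) (sy 345653)) (sy 1751176)) (sy 1751176))) (br (br (br 
  (br (lf 1710800) (k4 2177)) (br (sy 417949) (k4 2177))) (br (br (lf 1624784) (k4 2177)) (br (sy 417949) 
  (k4 1672)))) (br (br (br (sy 418845) (k4 2177)) (br (sy 418845) (k4 1665))) (sy 1751176)))) (br (br (br (br (br 
  (lf 1710744) (k4 2114)) (br (lf 1710800) (k4 2114))) (br (br (lf 1656648) (k4 2114)) (br (lf 1680133) 
  (k4 1672)))) (br (br (br (lf 1712984) (k4 2114)) (br (sy 386085) (k4 1665))) (br (br (lf 727272) (k4 1602)) 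
  (k4 1091)))) (k4 1092)))) (br (br (br (br (br (br (br (lf 1754690) (lf 1623874)) (sy 1751176)) (sy 1751176)) 
  (sy 1751176)) (br (br (br (br (lf 1717058) (lf 1623874)) (k4 2248)) (sy 1751176)) (sy 1751176))) (br (br (br 
  (br (br (lf 1725962) (lf 1725507)) (br (lf 1690178) (lf 1709610))) (k4 2256)) (sy 1751176)) (br (br (br (br 
  (lf 1717058) (k4 2184)) (k4 2248)) (k4 2256)) (sy 1751176)))) (br (br (br (br (br (br (lf 1725136) (lf 1624728)
  ) (br (lf 1688400) (lf 1620136))) (br (br (lf 1688680) (lf 1656389)) (br (lf 1688386) (k4 1672)))) (br (br (br 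
  (lf 1623888) (sy 345653)) (sy 1751176)) (sy 1751176))) (br (br (br (br (lf 1709904) (k4 2177)) (k4 2248)) (br 
  (br (lf 1717072) (k4 2177)) (k4 2248))) (br (br (br (sy 418845) (k4 2177)) (k4 2248)) (sy 1751176)))) (br (br 
  (br (br (br (lf 1709736) (k4 2114)) (br (lf 1258320) (k4 2114))) (k4 2256)) (br (br (br (lf 1717352) (k4 2114)) 
  (br (sy 386085) (k4 1665))) (k4 2256))) (k4 1092))))) (k4 3353)) (br (br (br (br (br (br (br (br (br (lf 1754704) 
  (lf 1616664)) (sy 1751176)) (sy 1751176)) (sy 1751176)) (br (br (br (br (lf 1717072) (lf 1709400)) (br 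
  (lf 1717072) (lf 476994))) (sy 1751176)) (sy 1751176))) (br (br (br (br (br (lf 1725640) (lf 1713992)) (br 
  (lf 1716904) (lf 1656389))) (k4 2242)) (sy 1751176)) (br (br (br (br (lf 1717352) (k4 2184)) (br (lf 1251152) 
  (k4 2184))) (k4 2242)) (sy 1751176)))) (br (br (br (br (br (br (lf 1717072) (lf 1616104)) (br (lf 1688400) 
  (lf 1623720))) (br (br (lf 1713992) (lf 738920)) (br (lf 1688680) (k4 1672)))) (k4 2250)) (br (br (br (br 
  (lf 1250984) (k4 2177)) (br (sy 417949) (k4 2177))) (br (br (lf 1713768) (k4 2177)) (br (sy 417949) (k4 1672))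
  )) (k4 2250))) (br (br (br (br (br (lf 1714888) (k4 2114)) (br (lf 1713768) (k4 2114))) (k4 2242)) (k4 2250)) 
  (k4 1092)))) (br (br (br (br (br (br (br (lf 1718864) (lf 1716904)) (sy 1751176)) (k4 2179)) (sy 1751176)) (br 
  (br (br (br (lf 1258320) (lf 1258320)) (k4 2248)) (k4 2179)) (sy 1751176))) (k4 1668)) (br (br (br (br (br (br 
  (lf 1718920) (lf 1717352)) (br (lf 1716904) (lf 476840))) (k4 2179)) (k4 2250)) (sy 1089949)) (k4 1668)))) 
  (k4 3353))) (br (br (br (br (br (br (br (br (br (br (lf 1743042) (lf 1627416)) (sy 1751176)) (sy 1751176)) 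
  (sy 1751176)) (br (br (br (br (lf 1628186) (lf 1626387)) (br (lf 481474) (sy 284886))) (sy 1751176)) 
  (sy 1751176))) (br (br (br (br (br (lf 1743042) (lf 1742083)) (br (lf 1742874) (lf 1608418))) (br (br 
  (lf 1738009) (lf 1741859)) (sy 1751176))) (sy 1751176)) (br (br (br (br (lf 1742874) (k4 2184)) (br 
  (sy 280434) (k4 2184))) (br (br (lf 1738842) (k4 2184)) (br (sy 280434) (k4 1672)))) (sy 1751176)))) (br (br 
  (br (br (br (br (lf 1628368) (lf 480536)) (br (lf 1627920) (lf 481474))) (br (br (lf 1742496) (lf 480515)) (br 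
  (lf 480900) (k4 1672)))) (br (br (br (lf 480536) (sy 345653)) (sy 1751176)) (sy 1751176))) (br (br (br (br 
  (lf 477890) (k4 2177)) (br (sy 281330) (k4 2177))) (br (br (lf 1628179) (k4 2177)) (br (sy 281330) (k4 1672)))
  ) (br (br (br (sy 418845) (k4 2177)) (br (sy 281330) (k4 1665))) (sy 1751176)))) (br (br (br (br (br (lf 1628291)
   (k4 2114)) (br (lf 481306) (k4 2114))) (br (br (lf 1743000) (k4 2114)) (br (lf 476693) (k4 1672)))) (br (br 
  (br (lf 1627416) (k4 2114)) (br (sy 386085) (k4 1665))) (br (br (lf 727272) (k4 1602)) (k4 1091)))) (k4 1092))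
  )) (br (br (br (br (br (br (br (lf 1743042) (lf 1743042)) (sy 1751176)) (sy 1751176)) (sy 1751176)) (br (br (br 
  (br (lf 1753626) (lf 1608026)) (k4 2248)) (sy 1751176)) (sy 1751176))) (br (br (br (br (br (lf 1753178) 
  (lf 1710611)) (br (lf 1753794) (sy 46438))) (k4 2256)) (sy 1751176)) (br (br (br (br (lf 1706586) (k4 2184)) 
  (k4 2248)) (k4 2256)) (sy 1751176)))) (br (br (br (br (br (br (lf 1743042) (lf 477715)) (br (lf 476994) 
  (lf 473858))) (br (br (lf 1624784) (lf 460586)) (br (lf 471394) (k4 1672)))) (br (br (br (lf 477008) 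
  (sy 345653)) (sy 1751176)) (sy 1751176))) (br (br (br (br (lf 1108506) (k4 2177)) (k4 2248)) (br (br 
  (lf 1106154) (k4 2177)) (k4 2248))) (br (br (br (sy 418845) (k4 2177)) (k4 2248)) (sy 1751176)))) (br (br (br 
  (br (br (lf 1725136) (k4 2114)) (br (lf 419650) (k4 2114))) (k4 2256)) (br (br (br (lf 420560) (k4 2114)) (br 
  (sy 386085) (k4 1665))) (k4 2256))) (k4 1092))))) (k4 3353)) (br (br (br (br (br (br (br (br (br (lf 1754704) 
  (lf 1628368)) (sy 1751176)) (sy 1751176)) (sy 1751176)) (br (br (br (br (lf 1628354) (lf 1624728)) (br 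
  (lf 476994) (sy 284886))) (sy 1751176)) (sy 1751176))) (br (br (br (br (br (lf 1754760) (lf 1725059)) (br 
  (lf 1693762) (lf 1607893))) (k4 2242)) (sy 1751176)) (br (br (br (br (lf 1710800) (k4 2184)) (br (sy 280434) 
  (k4 2184))) (k4 2242)) (sy 1751176)))) (br (br (br (br (br (br (lf 1628312) (lf 1623384)) (br (lf 473424) 
  (lf 476840))) (br (br (lf 1660512) (lf 469336)) (br (lf 1619240) (k4 1672)))) (k4 2250)) (br (br (br (br 
  (lf 477904) (k4 2177)) (br (sy 281330) (k4 2177))) (br (br (lf 1250536) (k4 2177)) (br (sy 281330) (k4 1672)))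
  ) (k4 2250))) (br (br (br (br (br (lf 1266328) (k4 2114)) (br (lf 477848) (k4 2114))) (k4 2242)) (k4 2250)) 
  (k4 1092)))) (br (br (br (br (br (br (br (lf 1718850) (lf 1718864)) (sy 1751176)) (k4 2179)) (sy 1751176)) (br 
  (br (br (br (lf 1267266) (lf 1249626)) (k4 2248)) (k4 2179)) (sy 1751176))) (k4 1668)) (br (br (br (br (br (br 
  (lf 1260112) (lf 1108688)) (br (lf 1688400) (lf 476994))) (k4 2179)) (k4 2250)) (sy 1089949)) (k4 1668)))) 
  (k4 3353)))) (br (br (br (br (br (br (br (br (br (br (br (lf 1754760) (lf 1745688)) (sy 1751176)) (sy 1751176)) 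
  (sy 1751176)) (br (br (br (br (lf 1753808) (lf 1740963)) (br (lf 1626394) (lf 479514))) (sy 1751176)) 
  (sy 1751176))) (br (br (br (br (br (lf 1747137) (lf 1744995)) (br (lf 1738506) (lf 1659420))) (br (br 
  (lf 1745177) (sy 547022)) (sy 1751176))) (sy 1751176)) (br (br (br (br (lf 1724947) (k4 2184)) (br 
  (lf 1738835) (k4 2184))) (br (br (lf 1659161) (k4 2184)) (br (lf 218211) (k4 1672)))) (sy 1751176)))) (br (br 
  (br (br (br (br (lf 1754200) (lf 1742083)) (br (lf 1742496) (lf 480536))) (br (br (lf 1661016) (lf 1645280)) 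
  (br (lf 1620612) (k4 1672)))) (br (br (br (lf 1659672) (sy 345653)) (sy 1751176)) (sy 1751176))) (br (br (br 
  (br (lf 1742979) (k4 2177)) (br (sy 417949) (k4 2177))) (br (br (lf 1710744) (k4 2177)) (br (sy 417949) 
  (k4 1672)))) (br (br (br (sy 418845) (k4 2177)) (br (sy 418845) (k4 1665))) (sy 1751176)))) (br (br (br (br (br 
  (lf 1714776) (k4 2114)) (br (lf 1616195) (k4 2114))) (br (br (lf 1657432) (k4 2114)) (br (lf 1659084) 
  (k4 1672)))) (br (br (br (lf 727832) (k4 2114)) (br (sy 386085) (k4 1665))) (br (br (sy 542542) (k4 1602)) 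
  (k4 1091)))) (k4 1092)))) (br (br (br (br (br (br (br (lf 1754760) (lf 1738961)) (sy 1751176)) (sy 1751176)) 
  (sy 1751176)) (br (br (br (br (lf 1724954) (lf 1738835)) (k4 2248)) (sy 1751176)) (sy 1751176))) (br (br (br 
  (br (br (lf 1724569) (lf 1657369)) (br (lf 1706705) (lf 1590617))) (k4 2256)) (sy 1751176)) (br (br (br (br 
  (lf 1706705) (k4 2184)) (k4 2248)) (k4 2256)) (sy 1751176)))) (br (br (br (br (br (br (lf 1753752) (lf 1714776)
  ) (br (lf 1753794) (lf 1627668))) (br (br (lf 1690241) (lf 1658972)) (br (lf 1671845) (k4 1672)))) (br (br (br 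
  (lf 1616104) (sy 345653)) (sy 1751176)) (sy 1751176))) (br (br (br (br (lf 1710618) (k4 2177)) (k4 2248)) (br 
  (br (lf 1708189) (k4 2177)) (k4 2248))) (br (br (br (sy 418845) (k4 2177)) (k4 2248)) (sy 1751176)))) (br (br 
  (br (br (br (lf 1256136) (k4 2114)) (br (lf 1249493) (k4 2114))) (k4 2256)) (br (br (br (lf 1256136) (k4 2114)) 
  (br (sy 386085) (k4 1665))) (k4 2256))) (k4 1092))))) (k4 3353)) (br (br (br (br (br (br (br (br (br (lf 1747144) 
  (lf 1659672)) (sy 1751176)) (sy 1751176)) (sy 1751176)) (br (br (br (br (lf 1754760) (lf 1710723)) (br 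
  (lf 1754690) (lf 479514))) (sy 1751176)) (sy 1751176))) (br (br (br (br (br (lf 1725640) (lf 1657544)) (br 
  (lf 1717569) (lf 1657355))) (k4 2242)) (sy 1751176)) (br (br (br (br (lf 1256024) (k4 2184)) (br (lf 1246441) 
  (k4 2184))) (k4 2242)) (sy 1751176)))) (br (br (br (br (br (br (lf 1747144) (lf 739928)) (br (lf 1615656) 
  (lf 1616216))) (br (br (lf 735560) (sy 537446)) (br (lf 994056) (k4 1672)))) (k4 2250)) (br (br (br (br 
  (lf 1250648) (k4 2177)) (br (sy 417949) (k4 2177))) (br (br (lf 1139544) (k4 2177)) (br (sy 417949) (k4 1672))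
  )) (k4 2250))) (br (br (br (br (br (lf 1141336) (k4 2114)) (br (lf 1657544) (k4 2114))) (k4 2242)) (k4 2250)) 
  (k4 1092)))) (br (br (br (br (br (br (br (lf 1718913) (lf 1718920)) (sy 1751176)) (k4 2179)) (sy 1751176)) (br 
  (br (br (br (lf 1260042) (lf 1258005)) (k4 2248)) (k4 2179)) (sy 1751176))) (k4 1668)) (br (br (br (br (br (br 
  (lf 1718920) (lf 739928)) (br (lf 942760) (lf 1623272))) (k4 2179)) (k4 2250)) (sy 1089949)) (k4 1668)))) 
  (k4 3353))) (br (br (br (br (br (br (br (br (br (br (lf 1741082) (k4 2696)) (sy 1751176)) (sy 1751176)) 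
  (sy 1751176)) (br (br (br (br (lf 1511706) (k4 2696)) (br (lf 1741082) (k4 2696))) (sy 1751176)) (sy 1751176))
  ) (br (br (br (br (br (lf 1524243) (k4 2696)) (br (lf 1737428) (k4 2696))) (br (br (lf 1515619) (k4 2696)) 
  (sy 1751176))) (sy 1751176)) (br (br (br (br (lf 1524243) (k4 2184)) (br (sy 280434) (k4 2184))) (br (br 
  (sy 88270) (k4 2184)) (br (sy 88270) (k4 1672)))) (sy 1751176)))) (br (br (br (br (br (br (lf 1743000) (k4 2696)
  ) (br (lf 1742048) (k4 2696))) (br (br (lf 1512707) (k4 2696)) (br (lf 1369116) (k4 1672)))) (br (br (br 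
  (lf 451864) (k4 2696)) (sy 1751176)) (sy 1751176))) (br (br (br (br (lf 1742867) (k4 2177)) (br (sy 281330) 
  (k4 2177))) (br (br (lf 450723) (k4 2177)) (br (sy 281330) (k4 1672)))) (br (br (br (sy 418845) (k4 2177)) (br 
  (sy 281330) (k4 1665))) (sy 1751176)))) (br (br (br (br (br (lf 1524803) (k4 2114)) (br (lf 1369123) (k4 2114))
  ) (br (br (lf 1401603) (k4 2114)) (br (sy 87822) (k4 1672)))) (br (br (br (lf 713496) (k4 2114)) (br (sy 386085)
   (k4 1665))) (br (br (sy 542542) (k4 1602)) (k4 1091)))) (k4 1092)))) (br (br (br (br (br (br (br (lf 1741082) 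
  (k4 2696)) (sy 1751176)) (sy 1751176)) (sy 1751176)) (br (br (br (br (lf 1738842) (k4 2696)) (k4 2248)) 
  (sy 1751176)) (sy 1751176))) (br (br (br (br (br (lf 1753227) (k4 2696)) (br (lf 1738338) (k4 2696))) (k4 2256)
  ) (sy 1751176)) (br (br (br (br (sy 136430) (k4 2184)) (k4 2248)) (k4 2256)) (sy 1751176)))) (br (br (br (br (br 
  (br (lf 1513498) (k4 2696)) (br (lf 479514) (k4 2696))) (br (br (lf 1509025) (k4 2696)) (br (sy 103726) 
  (k4 1672)))) (br (br (br (lf 1628368) (k4 2696)) (sy 1751176)) (sy 1751176))) (br (br (br (br (lf 1266195) 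
  (k4 2177)) (k4 2248)) (br (br (lf 1622355) (k4 2177)) (k4 2248))) (br (br (br (sy 418845) (k4 2177)) (k4 2248))
   (sy 1751176)))) (br (br (br (br (br (lf 1524747) (k4 2114)) (br (lf 1737491) (k4 2114))) (k4 2256)) (br (br (br 
  (lf 1725059) (k4 2114)) (br (sy 386085) (k4 1665))) (k4 2256))) (k4 1092))))) (k4 3353)) (br (br (br (br (br 
  (br (br (br (br (lf 1525328) (k4 2696)) (sy 1751176)) (sy 1751176)) (sy 1751176)) (br (br (br (br (lf 1513666) 
  (k4 2696)) (br (lf 1628354) (k4 2696))) (sy 1751176)) (sy 1751176))) (br (br (br (br (br (lf 1524803) (k4 2696)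
  ) (br (lf 1509130) (k4 2696))) (k4 2242)) (sy 1751176)) (br (br (br (br (lf 1523795) (k4 2184)) (br (sy 280434)
   (k4 2184))) (k4 2242)) (sy 1751176)))) (br (br (br (br (br (br (lf 1754200) (k4 2696)) (br (lf 1742496) 
  (k4 2696))) (br (br (lf 742168) (k4 2696)) (br (lf 1645280) (k4 1672)))) (k4 2250)) (br (br (br (br (lf 1108632)
   (k4 2177)) (br (sy 281330) (k4 2177))) (br (br (lf 1725059) (k4 2177)) (br (sy 281330) (k4 1672)))) (k4 2250)
  )) (br (br (br (br (br (lf 714840) (k4 2114)) (br (lf 1725507) (k4 2114))) (k4 2242)) (k4 2250)) (k4 1092)))) 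
  (br (br (br (br (br (br (br (lf 1525314) (k4 2696)) (sy 1751176)) (k4 2179)) (sy 1751176)) (br (br (br (br 
  (lf 1753626) (k4 2696)) (k4 2248)) (k4 2179)) (sy 1751176))) (k4 1668)) (br (br (br (br (br (br (lf 1524936) 
  (k4 2696)) (br (lf 1521730) (k4 2696))) (k4 2179)) (k4 2250)) (sy 1089949)) (k4 1668)))) (k4 3353))))) (br 
  (br (br (br (br (br (br (br (br (br (br (br (lf 1742104) (lf 1742104)) (sy 1751176)) (sy 1751176)) (sy 1751176)) 
  (br (br (br (br (lf 1743000) (lf 1628291)) (br (lf 1628354) (sy 280245))) (sy 1751176)) (sy 1751176))) (br (br 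
  (br (br (br (lf 1747032) (lf 1742083)) (br (lf 1743056) (lf 480536))) (br (br (lf 1745688) (lf 1645091)) 
  (sy 1751176))) (sy 1751176)) (br (br (br (br (lf 1710723) (k4 2184)) (br (lf 481488) (k4 2184))) (br (br 
  (lf 1628312) (k4 2184)) (br (lf 477008) (k4 1672)))) (sy 1751176)))) (br (br (br (br (br (br (lf 1742104) 
  (lf 1627416)) (br (lf 1627920) (lf 469784))) (br (br (lf 1645280) (lf 355040)) (br (lf 1620640) (k4 1672)))) 
  (br (br (br (lf 480536) (sy 579782)) (sy 1751176)) (sy 1751176))) (br (br (br (br (lf 477848) (k4 2177)) (br 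
  (sy 417949) (k4 2177))) (br (br (lf 1628312) (k4 2177)) (br (sy 417949) (k4 1672)))) (br (br (br (sy 346864) 
  (k4 2177)) (br (sy 346864) (k4 1665))) (sy 1751176)))) (br (br (br (br (br (lf 1657432) (k4 2114)) (br 
  (lf 1616664) (k4 2114))) (br (br (lf 1644888) (k4 2114)) (br (lf 727384) (k4 1672)))) (br (br (br (sy 345968) 
  (k4 2114)) (br (sy 342832) (k4 1665))) (br (br (sy 575302) (k4 1602)) (k4 1091)))) (k4 1092)))) (br (br (br (br 
  (br (br (br (lf 1743056) (lf 1743056)) (sy 1751176)) (sy 1751176)) (sy 1751176)) (br (br (br (br (lf 1753794) 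
  (lf 481432)) (k4 2248)) (sy 1751176)) (sy 1751176))) (br (br (br (br (br (lf 1753752) (lf 1709400)) (br 
  (lf 1623874) (lf 473424))) (k4 2256)) (sy 1751176)) (br (br (br (br (lf 1710611) (k4 2184)) (k4 2248)) 
  (k4 2256)) (sy 1751176)))) (br (br (br (br (br (br (lf 1753752) (lf 1616216)) (br (lf 481488) (lf 472416))) (br 
  (br (lf 1661016) (lf 1644888)) (br (lf 846496) (k4 1672)))) (br (br (br (lf 480536) (sy 579782)) (sy 1751176))
   (sy 1751176))) (br (br (br (br (lf 1710744) (k4 2177)) (k4 2248)) (br (br (lf 477848) (k4 2177)) (k4 2248))) 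
  (br (br (br (sy 346864) (k4 2177)) (k4 2248)) (sy 1751176)))) (br (br (br (br (br (lf 1256024) (k4 2114)) (br 
  (lf 420504) (k4 2114))) (k4 2256)) (br (br (br (sy 345968) (k4 2114)) (br (sy 342832) (k4 1665))) (k4 2256))) 
  (k4 1092))))) (k4 3353)) (br (br (br (br (br (br (br (br (br (lf 1754704) (lf 1645336)) (sy 1751176)) 
  (sy 1751176)) (sy 1751176)) (br (br (br (br (lf 1753752) (lf 1623384)) (br (lf 481488) (sy 280245))) 
  (sy 1751176)) (sy 1751176))) (br (br (br (br (br (lf 1657432) (lf 738136)) (br (lf 1661016) (lf 469784))) 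
  (k4 2242)) (sy 1751176)) (br (br (br (br (lf 1266328) (k4 2184)) (br (lf 1710744) (k4 2184))) (k4 2242)) 
  (sy 1751176)))) (br (br (br (br (br (br (lf 1725080) (lf 1644888)) (br (lf 1624728) (lf 355096))) (br (br 
  (lf 1652840) (sy 573790)) (br (lf 354144) (k4 1672)))) (k4 2250)) (br (br (br (br (lf 1108632) (k4 2177)) (br 
  (sy 417949) (k4 2177))) (br (br (lf 419160) (k4 2177)) (br (sy 417949) (k4 1672)))) (k4 2250))) (br (br (br (br 
  (br (lf 738136) (k4 2114)) (br (lf 1107288) (k4 2114))) (k4 2242)) (k4 2250)) (k4 1092)))) (br (br (br (br (br 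
  (br (br (lf 1718920) (lf 1659672)) (sy 1751176)) (k4 2179)) (sy 1751176)) (br (br (br (br (lf 1260112) 
  (lf 1624728)) (k4 2248)) (k4 2179)) (sy 1751176))) (k4 1668)) (br (br (br (br (br (br (lf 1716904) (lf 419160))
   (br (lf 1251152) (lf 342440))) (k4 2179)) (k4 2250)) (sy 1089949)) (k4 1668)))) (k4 3353))) (br (br (br (br 
  (br (br (br (br (br (br (lf 1743056) (k4 2689)) (sy 1751176)) (sy 1751176)) (sy 1751176)) (br (br (br (br 
  (lf 1628179) (k4 2689)) (br (sy 280434) (k4 2689))) (sy 1751176)) (sy 1751176))) (br (br (br (br (br 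
  (lf 1742104) (k4 2689)) (br (lf 1741012) (k4 2689))) (br (br (lf 1516312) (k4 2689)) (sy 1751176))) 
  (sy 1751176)) (br (br (br (br (lf 1628179) (k4 2184)) (br (sy 280434) (k4 2184))) (br (br (lf 1512707) (k4 2184)
  ) (br (sy 280434) (k4 1672)))) (sy 1751176)))) (br (br (br (br (br (br (lf 1370264) (k4 2689)) (br (lf 452256) 
  (k4 2689))) (br (br (lf 480480) (k4 2689)) (br (lf 480480) (k4 1672)))) (br (br (br (sy 345968) (k4 2689)) 
  (sy 1751176)) (sy 1751176))) (br (br (br (br (sy 401835) (k4 2177)) (br (sy 281330) (k4 2177))) (br (br 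
  (sy 401835) (k4 2177)) (br (sy 281330) (k4 1672)))) (br (br (br (sy 346864) (k4 2177)) (br (sy 346864) 
  (k4 1665))) (sy 1751176)))) (br (br (br (br (br (lf 480515) (k4 2114)) (br (lf 481411) (k4 2114))) (br (br 
  (lf 355096) (k4 2114)) (br (lf 469539) (k4 1672)))) (br (br (br (sy 345968) (k4 2114)) (br (sy 342832) 
  (k4 1665))) (br (br (sy 345968) (k4 1602)) (k4 1091)))) (k4 1092)))) (br (br (br (br (br (br (br (lf 1743056) 
  (k4 2689)) (sy 1751176)) (sy 1751176)) (sy 1751176)) (br (br (br (br (lf 481306) (k4 2689)) (k4 2248)) 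
  (sy 1751176)) (sy 1751176))) (br (br (br (br (br (lf 1524376) (k4 2689)) (br (lf 1513666) (k4 2689))) (k4 2256)
  ) (sy 1751176)) (br (br (br (br (lf 452634) (k4 2184)) (k4 2248)) (k4 2256)) (sy 1751176)))) (br (br (br (br (br 
  (br (lf 481488) (k4 2689)) (br (lf 452816) (k4 2689))) (br (br (lf 1742608) (k4 2689)) (br (lf 441504) 
  (k4 1672)))) (br (br (br (sy 345968) (k4 2689)) (sy 1751176)) (sy 1751176))) (br (br (br (br (sy 401835) 
  (k4 2177)) (k4 2248)) (br (br (sy 401835) (k4 2177)) (k4 2248))) (br (br (br (sy 346864) (k4 2177)) (k4 2248)) 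
  (sy 1751176)))) (br (br (br (br (br (lf 420504) (k4 2114)) (br (lf 452627) (k4 2114))) (k4 2256)) (br (br (br 
  (sy 345968) (k4 2114)) (br (sy 342832) (k4 1665))) (k4 2256))) (k4 1092))))) (k4 3353)) (br (br (br (br (br (br 
  (br (br (br (lf 1742104) (k4 2689)) (sy 1751176)) (sy 1751176)) (sy 1751176)) (br (br (br (br (lf 1743000) 
  (k4 2689)) (br (sy 280434) (k4 2689))) (sy 1751176)) (sy 1751176))) (br (br (br (br (br (lf 1524824) (k4 2689))
   (br (lf 480536) (k4 2689))) (k4 2242)) (sy 1751176)) (br (br (br (br (lf 1710744) (k4 2184)) (br (sy 280434) 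
  (k4 2184))) (k4 2242)) (sy 1751176)))) (br (br (br (br (br (br (lf 1743000) (k4 2689)) (br (lf 481040) (k4 2689)
  )) (br (br (lf 351512) (k4 2689)) (br (lf 473760) (k4 1672)))) (k4 2250)) (br (br (br (br (sy 401835) (k4 2177))
   (br (sy 281330) (k4 2177))) (br (br (sy 401835) (k4 2177)) (br (sy 281330) (k4 1672)))) (k4 2250))) (br (br 
  (br (br (br (lf 1137752) (k4 2114)) (br (lf 347480) (k4 2114))) (k4 2242)) (k4 2250)) (k4 1092)))) (br (br (br 
  (br (br (br (br (lf 1754704) (k4 2689)) (sy 1751176)) (k4 2179)) (sy 1751176)) (br (br (br (br (lf 1449168) 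
  (k4 2689)) (k4 2248)) (k4 2179)) (sy 1751176))) (k4 1668)) (br (br (br (br (br (br (lf 420504) (k4 2689)) (br 
  (lf 473872) (k4 2689))) (k4 2179)) (k4 2250)) (sy 1089949)) (k4 1668)))) (k4 3353)))) (sy 1517768))) 
  (sy 1751176)) (k4 3403)) (k4 3285)) (br (br (br (br (br (br (br (br (br (br (br (br (br (br (br (br (lf 1754690) 
  (lf 1743042)) (br (lf 1743042) (lf 1741026))) (br (br (lf 1751106) (lf 1753241)) (br (lf 1693762) (k4 1672)))
  ) (br (br (br (lf 1743056) (lf 1743000)) (br (lf 1692418) (k4 1665))) (br (br (lf 1749664) (k4 1602)) (k4 1091)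
  ))) (br (br (br (br (lf 1724954) (lf 1710618)) (br (lf 1710618) (lf 479514))) (br (br (lf 1753794) (lf 1753178)
  ) (br (lf 1677354) (k4 1672)))) (br (br (br (lf 1753794) (lf 481432)) (br (sy 385189) (k4 1665))) (br (br 
  (lf 1710786) (k4 1602)) (k4 1091))))) (br (br (br (br (br (lf 1726032) (lf 1725451)) (br (lf 1725122) 
  (lf 1741082))) (br (br (lf 1754137) (lf 1660953)) (br (lf 1673994) (k4 1672)))) (br (br (br (lf 1726032) 
  (lf 1624707)) (br (lf 1678096) (k4 1665))) (br (br (lf 1718913) (k4 1602)) (k4 1091)))) (br (br (br (br 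
  (lf 1724499) (k4 2184)) (br (lf 1247834) (k4 2184))) (br (br (lf 1247946) (k4 2184)) (br (sy 1055411) 
  (k4 1672)))) (br (br (br (lf 1725080) (k4 2184)) (br (lf 1107778) (k4 1665))) (br (br (lf 1265754) (k4 1602)) 
  (k4 1091)))))) (br (br (br (br (br (br (lf 1753752) (lf 1753731)) (br (lf 1743042) (lf 481411))) (br (br 
  (lf 1753752) (lf 1725080)) (br (lf 1624784) (k4 1672)))) (br (br (br (lf 1743056) (lf 1627416)) (br 
  (sy 386085) (k4 1665))) (br (br (lf 1688232) (k4 1602)) (k4 1091)))) (br (br (br (br (lf 1266370) (k4 2177)) 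
  (br (sy 1106091) (k4 2177))) (br (br (lf 1266370) (k4 2177)) (br (sy 1106091) (k4 1672)))) (br (br (br 
  (sy 1106091) (k4 2177)) (br (sy 418845) (k4 1665))) (br (br (sy 1106091) (k4 1602)) (k4 1091))))) (br (br (br 
  (br (br (lf 1266776) (k4 2114)) (br (lf 1724947) (k4 2114))) (br (br (lf 1714881) (k4 2114)) (br (lf 1724954) 
  (k4 1672)))) (br (br (br (lf 1266328) (k4 2114)) (br (sy 386085) (k4 1665))) (br (br (lf 1714776) (k4 1602)) 
  (k4 1091)))) (k4 1092)))) (br (br (br (br (br (br (br (lf 1754634) (lf 1725122)) (br (lf 1693706) (lf 1743042)))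
   (br (br (lf 1754634) (lf 1673994)) (br (lf 985866) (k4 1672)))) (br (br (br (lf 1726018) (lf 1690178)) (br 
  (lf 1678082) (k4 1665))) (br (br (lf 1690248) (k4 1602)) (k4 1091)))) (br (br (br (br (lf 1267210) (lf 1706586)
  ) (k4 2248)) (br (br (lf 1247050) (sy 1055474)) (k4 2248))) (br (br (br (lf 1266370) (lf 418138)) (k4 2248)) 
  (br (br (lf 1690122) (k4 1602)) (k4 1091))))) (br (br (br (br (br (lf 1725969) (lf 1706705)) (br (lf 1706698) 
  (lf 215754))) (k4 2256)) (br (br (br (lf 1718864) (lf 1724569)) (br (lf 1690178) (k4 1665))) (k4 2256))) 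
  (sy 1070734))) (br (br (br (br (br (br (lf 1726032) (lf 1724954)) (br (lf 1252034) (lf 419650))) (br (br 
  (lf 1260161) (lf 1266195)) (br (lf 1690122) (k4 1672)))) (br (br (br (lf 1266384) (lf 1251992)) (br 
  (sy 386085) (k4 1665))) (br (br (lf 944776) (k4 1602)) (k4 1091)))) (sy 1055474)) (br (br (br (br (br 
  (lf 1267217) (k4 2114)) (br (lf 1249626) (k4 2114))) (k4 2256)) (br (br (br (lf 1251992) (k4 2114)) (br 
  (sy 386085) (k4 1665))) (k4 2256))) (k4 1092))))) (k4 3353)) (br (br (br (br (br (br (br (br (br (lf 1754760) 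
  (lf 1725528)) (br (lf 1726018) (lf 1690192))) (br (br (lf 1726081) (lf 1718920)) (br (lf 1693825) (k4 1672)))
  ) (br (br (br (lf 1751120) (lf 1616104)) (br (lf 1677648) (k4 1665))) (br (br (lf 1004808) (k4 1602)) (k4 1091)
  ))) (br (br (br (br (lf 1726032) (lf 1725136)) (br (lf 1266370) (lf 1108506))) (br (br (lf 1260042) 
  (lf 1266195)) (br (lf 1718850) (k4 1672)))) (br (br (br (lf 1252048) (lf 476392)) (br (sy 385189) (k4 1665))) 
  (br (br (lf 944720) (k4 1602)) (k4 1091))))) (br (br (br (br (br (lf 1267336) (lf 1256129)) (br (lf 1260042) 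
  (lf 1265873))) (k4 2242)) (br (br (br (lf 1714888) (lf 1256136)) (br (lf 942928) (k4 1665))) (k4 2242))) 
  (sy 1069747))) (br (br (br (br (br (br (lf 1726088) (lf 1266328)) (br (lf 1266384) (lf 420504))) (br (br 
  (lf 1713992) (lf 739928)) (br (lf 1174096) (k4 1672)))) (k4 2250)) (sy 1106091)) (br (br (br (br (br 
  (lf 1256136) (k4 2114)) (br (lf 1266888) (k4 2114))) (k4 2242)) (k4 2250)) (k4 1092)))) (br (br (br (br (br (br 
  (br (lf 1718850) (lf 1260049)) (br (lf 1260098) (lf 1718794))) (k4 2179)) (br (br (br (lf 944720) (lf 1174152)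
  ) (sy 827813)) (k4 2179))) (sy 1069810)) (k4 1668)) (br (br (br (br (br (br (lf 1260112) (lf 1266384)) (br 
  (lf 1258306) (lf 1258152))) (k4 2179)) (k4 2250)) (sy 1055474)) (k4 1668)))) (k4 3353))) (br (br (br (br (br 
  (br (br (br (br (br (lf 1753626) (lf 1741082)) (br (lf 1513218) (lf 1626394))) (br (br (lf 1749762) (lf 1737379)
  ) (br (lf 1738338) (k4 1672)))) (br (br (br (lf 1513680) (lf 1742104)) (br (lf 1369858) (k4 1665))) (br (br 
  (lf 1520148) (k4 1602)) (k4 1091)))) (k4 2824)) (br (br (br (br (br (lf 1524243) (lf 1509459)) (br (lf 1738842)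
   (lf 1608467))) (br (br (lf 1738835) (lf 1595531)) (br (lf 1594138) (k4 1672)))) (br (br (br (lf 1513666) 
  (lf 1369123)) (br (lf 480802) (k4 1665))) (br (br (lf 1517579) (k4 1602)) (k4 1091)))) (k4 2824))) (br (br (br 
  (br (br (br (lf 1524432) (lf 1742867)) (br (lf 481474) (lf 450842))) (br (br (lf 1513498) (lf 1370131)) (br 
  (lf 479514) (k4 1672)))) (br (br (br (lf 1743056) (sy 345653)) (br (sy 386085) (k4 1665))) (br (br (lf 1628312)
   (k4 1602)) (k4 1091)))) (k4 2824)) (br (br (br (br (br (lf 1753619) (k4 2114)) (br (lf 420371) (k4 2114))) (br 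
  (br (lf 1753227) (k4 2114)) (br (lf 1724506) (k4 1672)))) (br (br (br (lf 416899) (k4 2114)) (br (sy 386085) 
  (k4 1665))) (br (br (lf 1725528) (k4 1602)) (k4 1091)))) (k4 1092)))) (br (br (br (br (br (br (br (lf 1524250) 
  (lf 1738842)) (br (lf 1524250) (sy 47782))) (br (br (lf 1509130) (lf 1595594)) (br (lf 1594978) (k4 1672)))) 
  (br (br (br (lf 1521730) (lf 1741026)) (br (lf 1692194) (k4 1665))) (br (br (lf 1751050) (k4 1602)) (k4 1091)))
  ) (k4 2824)) (br (br (br (br (br (lf 1523914) (lf 215642)) (br (lf 219338) (sy 153230))) (k4 2256)) (br (br (br 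
  (lf 1753178) (lf 215642)) (br (lf 838530) (k4 1665))) (k4 2256))) (k4 2824))) (br (br (br (br (br (br 
  (lf 1237530) (lf 420371)) (br (lf 1724954) (sy 47782))) (br (br (lf 1724618) (lf 1738842)) (br (sy 104622) 
  (k4 1672)))) (br (br (br (lf 445648) (sy 345653)) (br (sy 386085) (k4 1665))) (br (br (lf 1435714) (k4 1602)) 
  (k4 1091)))) (k4 2824)) (br (br (br (br (br (lf 1265747) (k4 2114)) (br (sy 153230) (k4 2114))) (k4 2256)) (br 
  (br (br (lf 1219603) (k4 2114)) (br (sy 386085) (k4 1665))) (k4 2256))) (k4 1092))))) (k4 3353)) (br (br (br 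
  (br (br (br (br (br (br (lf 1524432) (lf 1524250)) (br (lf 1521730) (lf 481026))) (br (br (lf 1521674) 
  (lf 1515745)) (br (lf 1749538) (k4 1672)))) (br (br (br (lf 1751120) (lf 1743000)) (br (lf 384272) (k4 1665)))
   (br (br (lf 1434888) (k4 1602)) (k4 1091)))) (k4 2824)) (br (br (br (br (br (lf 1753808) (lf 1725507)) (br 
  (lf 1753626) (lf 219219))) (k4 2242)) (br (br (br (lf 1468040) (lf 1645336)) (br (lf 383362) (k4 1665))) 
  (k4 2242))) (k4 2824))) (br (br (br (br (br (br (lf 1467088) (lf 452760)) (br (lf 445648) (lf 452634))) (br (br 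
  (lf 1238664) (lf 1754179)) (br (lf 1434370) (k4 1672)))) (k4 2250)) (k4 2824)) (br (br (br (br (br (lf 1266307)
   (k4 2114)) (br (lf 1219792) (k4 2114))) (k4 2242)) (k4 2250)) (k4 1092)))) (br (br (br (br (br (br (br 
  (lf 1467914) (lf 1724506)) (br (lf 1267210) (lf 1357874))) (k4 2179)) (br (br (br (lf 969808) (lf 1370306)) 
  (sy 827813)) (k4 2179))) (k4 2824)) (k4 1668)) (br (br (br (br (br (br (lf 1267266) (lf 1219792)) (br 
  (lf 1238594) (sy 47782))) (k4 2179)) (k4 2250)) (k4 2824)) (k4 1668)))) (k4 3353)))) (br (br (br (br (br (br 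
  (br (br (br (br (br (lf 1524250) (sy 1524929)) (br (lf 1753178) (lf 1511636))) (sy 1524929)) (br (br (br 
  (lf 1513624) (lf 1512672)) (br (lf 1520162) (k4 1665))) (br (br (lf 1520904) (k4 1602)) (k4 1091)))) (br (br 
  (br (br (lf 1524250) (sy 1524929)) (br (lf 1737498) (lf 217882))) (sy 1524929)) (br (br (br (lf 1513666) 
  (lf 1368227)) (br (lf 1513218) (k4 1665))) (br (br (lf 1511706) (k4 1602)) (k4 1091))))) (k4 2832)) (br 
  (sy 1524929) (k4 2832))) (br (br (br (br (br (br (br (lf 1523921) (lf 1738835)) (br (lf 1509130) (lf 1595594))) 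
  (br (br (lf 1519889) (lf 1336601)) (br (lf 125713) (k4 1672)))) (br (br (br (lf 1754690) (lf 1753178)) (br 
  (lf 1693762) (k4 1665))) (br (br (lf 1691809) (k4 1602)) (k4 1091)))) (br (br (br (br (lf 1237082) (sy 1069810)
  ) (k4 2248)) (br (br (lf 1237201) (sy 153174)) (k4 2248))) (br (br (br (lf 1753626) (sy 1069810)) (k4 2248)) 
  (br (br (lf 1237201) (k4 1602)) (k4 1091))))) (k4 2832)) (br (br (br (br (br (br (lf 1525384) (sy 1524929)) (br 
  (lf 1754690) (lf 1524250))) (sy 1524929)) (br (br (br (lf 1467592) (lf 1628291)) (br (sy 386085) (k4 1665))) 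
  (br (br (lf 1525384) (k4 1602)) (k4 1091)))) (sy 1055474)) (k4 2832)))) (k4 3353)) (br (br (br (br (br (br (br 
  (br (br (lf 1525384) (sy 1524929)) (br (lf 1751050) (lf 1511636))) (sy 1524929)) (br (br (br (lf 1517320) 
  (lf 1402464)) (br (lf 1004304) (k4 1665))) (br (br (lf 649992) (k4 1602)) (k4 1091)))) (br (br (br (br 
  (lf 1525384) (sy 1524929)) (br (lf 1753290) (lf 1075802))) (sy 1524929)) (br (br (br (lf 1467984) 
  (lf 1659672)) (br (sy 385189) (k4 1665))) (br (br (lf 1520904) (k4 1602)) (k4 1091))))) (k4 2832)) (br 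
  (sy 1524929) (k4 2832))) (br (br (br (br (br (br (br (lf 1725969) (lf 1724569)) (br (lf 944657) (lf 1509578))) 
  (k4 2179)) (br (br (br (lf 1002120) (lf 1517761)) (sy 827813)) (k4 2179))) (sy 1069810)) (k4 1668)) (br (br 
  (br (br (br (br (lf 1238664) (sy 1524929)) (br (lf 1170449) (lf 1158024))) (k4 2179)) (k4 2250)) (sy 1055474))
   (k4 1668)))) (k4 3353))) (sy 1524929))) (br (br (br (br (br (br (br (br (br (br (br (br (lf 1513680) (lf 1742979))
   (br (lf 1513666) (lf 1742496))) (br (br (lf 1750112) (lf 1516256)) (br (lf 1520288) (k4 1672)))) (br (br (br 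
  (lf 1742048) (lf 1369368)) (br (lf 1742608) (k4 1665))) (br (br (lf 1750112) (k4 1602)) (k4 1091)))) (br (br 
  (br (br (lf 1524432) (lf 1742979)) (br (lf 1513666) (sy 280245))) (br (br (lf 1524376) (lf 1368339)) (br 
  (lf 1626394) (k4 1672)))) (br (br (br (lf 481488) (lf 451864)) (br (sy 385189) (k4 1665))) (br (br (lf 1743000)
   (k4 1602)) (k4 1091))))) (br (br (br (br (br (lf 1753731) (lf 1516291)) (br (lf 1513680) (lf 1368339))) (br 
  (br (lf 1754123) (lf 1402891)) (br (lf 1524824) (k4 1672)))) (br (br (br (lf 1517656) (lf 1355011)) (br 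
  (lf 480928) (k4 1665))) (br (br (lf 713440) (k4 1602)) (k4 1091)))) (br (br (br (br (lf 1266195) (k4 2184)) (br 
  (lf 445459) (k4 2184))) (br (br (lf 1754123) (k4 2184)) (br (lf 219226) (k4 1672)))) (br (br (br (lf 420483) 
  (k4 2184)) (br (sy 385189) (k4 1665))) (br (br (lf 1725507) (k4 1602)) (k4 1091)))))) (br (br (br (br (br (br 
  (lf 1753752) (lf 480515)) (br (lf 1628368) (lf 451843))) (br (br (lf 1516312) (lf 1401624)) (br (lf 1742048) 
  (k4 1672)))) (br (br (br (lf 1370264) (sy 579782)) (br (sy 342832) (k4 1665))) (br (br (lf 713496) (k4 1602)) 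
  (k4 1091)))) (br (br (br (br (lf 1363096) (k4 2177)) (br (sy 417949) (k4 2177))) (br (br (lf 1266328) (k4 2177))
   (br (sy 417949) (k4 1672)))) (br (br (br (sy 346864) (k4 2177)) (br (sy 346864) (k4 1665))) (br (br (sy 346864)
   (k4 1602)) (k4 1091))))) (br (br (br (br (br (lf 1237635) (k4 2114)) (br (lf 1266328) (k4 2114))) (br (br 
  (lf 1524803) (k4 2114)) (br (lf 1725080) (k4 1672)))) (br (br (br (lf 713496) (k4 2114)) (br (sy 342832) 
  (k4 1665))) (br (br (sy 575302) (k4 1602)) (k4 1091)))) (k4 1092)))) (br (br (br (br (br (br (br (lf 1524418) 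
  (lf 1513624)) (br (lf 1749762) (lf 1626394))) (br (br (lf 1525258) (lf 1525328)) (br (lf 1751050) (k4 1672)))
  ) (br (br (br (lf 1751120) (lf 480480)) (br (lf 384258) (k4 1665))) (br (br (lf 1004192) (k4 1602)) (k4 1091)))
  ) (br (br (br (br (lf 1466906) (lf 445466)) (k4 2248)) (br (br (lf 1725962) (lf 219219)) (k4 2248))) (br (br (br 
  (lf 416962) (lf 416920)) (k4 2248)) (br (br (lf 1227842) (k4 1602)) (k4 1091))))) (br (br (br (br (br 
  (lf 1725136) (lf 1754123)) (br (lf 1754634) (lf 475475))) (k4 2256)) (br (br (br (lf 1467032) (lf 1753731)) 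
  (br (lf 1168258) (k4 1665))) (k4 2256))) (sy 1070734))) (br (br (br (br (br (br (lf 1266328) (lf 1624728)) (br 
  (lf 445634) (lf 452627))) (br (br (lf 1467032) (lf 1659672)) (br (lf 976962) (k4 1672)))) (br (br (br 
  (lf 1251992) (sy 579782)) (br (sy 342832) (k4 1665))) (br (br (lf 1158024) (k4 1602)) (k4 1091)))) 
  (sy 1055474)) (br (br (br (br (br (lf 1238083) (k4 2114)) (br (lf 1219778) (k4 2114))) (k4 2256)) (br (br (br 
  (lf 1137752) (k4 2114)) (br (sy 342832) (k4 1665))) (k4 2256))) (k4 1092))))) (k4 3353)) (br (br (br (br (br 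
  (br (br (br (br (lf 1524376) (lf 1517656)) (br (lf 1751120) (lf 1742048))) (br (br (lf 1746696) (lf 714952)) 
  (br (lf 1005648) (k4 1672)))) (br (br (br (lf 1513680) (lf 1401568)) (br (lf 975520) (k4 1665))) (br (br 
  (lf 1520736) (k4 1602)) (k4 1091)))) (br (br (br (br (lf 1753808) (lf 477848)) (br (lf 445648) (sy 280245))) 
  (br (br (lf 1468040) (lf 1745667)) (br (lf 1435714) (k4 1672)))) (br (br (br (lf 1266384) (lf 354648)) (br 
  (sy 385189) (k4 1665))) (br (br (lf 1222536) (k4 1602)) (k4 1091))))) (br (br (br (br (br (lf 1524936) 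
  (lf 679000)) (br (lf 1467984) (lf 1742083))) (k4 2242)) (br (br (br (lf 1754200) (sy 569702)) (br (lf 1153936)
   (k4 1665))) (k4 2242))) (sy 1069747))) (br (br (br (br (br (br (lf 1725080) (lf 437528)) (br (lf 1725080) 
  (lf 355096))) (br (br (lf 1266776) (sy 573790)) (br (lf 976136) (k4 1672)))) (k4 2250)) (sy 1106091)) (br (br 
  (br (br (br (lf 1223768) (k4 2114)) (br (lf 1237656) (k4 2114))) (k4 2242)) (k4 2250)) (k4 1092)))) (br (br (br 
  (br (br (br (br (lf 1525328) (lf 1467032)) (br (lf 969808) (lf 1370306))) (k4 2179)) (br (br (br (lf 1525328) 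
  (lf 1135512)) (sy 827813)) (k4 2179))) (sy 1069810)) (k4 1668)) (br (br (br (br (br (br (lf 1238104) 
  (lf 1105048)) (br (lf 1172304) (lf 1105104))) (k4 2179)) (k4 2250)) (sy 1055474)) (k4 1668)))) (k4 3353))) 
  (br (br (br (br (br (br (br (br (br (br (lf 1513491) (k4 2689)) (br (lf 1511650) (k4 2689))) (br (br (lf 1513666) 
  (k4 2689)) (br (lf 1511650) (k4 1672)))) (br (br (br (lf 1370264) (k4 2689)) (br (sy 369068) (k4 1665))) (br 
  (br (lf 1369284) (k4 1602)) (k4 1091)))) (k4 2824)) (br (br (br (br (br (lf 1513491) (k4 2689)) (br (lf 1513491)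
   (k4 2689))) (br (br (lf 1523795) (k4 2689)) (br (lf 1368276) (k4 1672)))) (br (br (br (lf 1370243) (k4 2689)) 
  (br (sy 369068) (k4 1665))) (br (br (lf 1512644) (k4 1602)) (k4 1091)))) (k4 2824))) (br (br (br (br (br (br 
  (lf 1370243) (k4 2689)) (br (lf 1370131) (k4 2689))) (br (br (lf 1369347) (k4 2689)) (br (lf 1368339) 
  (k4 1672)))) (br (br (br (sy 345968) (k4 2689)) (br (sy 342832) (k4 1665))) (br (br (sy 345968) (k4 1602)) 
  (k4 1091)))) (k4 2824)) (br (br (br (br (br (lf 1524355) (k4 2114)) (br (lf 1362963) (k4 2114))) (br (br 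
  (lf 1513603) (k4 2114)) (br (lf 442547) (k4 1672)))) (br (br (br (sy 345968) (k4 2114)) (br (sy 342832) 
  (k4 1665))) (br (br (sy 345968) (k4 1602)) (k4 1091)))) (k4 1092)))) (br (br (br (br (br (br (br (lf 1513666) 
  (k4 2689)) (br (lf 1369634) (k4 2689))) (br (br (lf 1523802) (k4 2689)) (br (lf 1413538) (k4 1672)))) (br (br 
  (br (lf 1369858) (k4 2689)) (br (sy 369068) (k4 1665))) (br (br (lf 1434132) (k4 1602)) (k4 1091)))) (k4 2824)
  ) (br (br (br (br (br (lf 1524250) (k4 2689)) (br (lf 1466906) (k4 2689))) (k4 2256)) (br (br (br (lf 1370264) 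
  (k4 2689)) (br (sy 369068) (k4 1665))) (k4 2256))) (k4 2824))) (br (br (br (br (br (br (lf 1524243) (k4 2689)) 
  (br (lf 452802) (k4 2689))) (br (br (lf 1513666) (k4 2689)) (br (lf 444290) (k4 1672)))) (br (br (br (sy 345968)
   (k4 2689)) (br (sy 342832) (k4 1665))) (br (br (sy 345968) (k4 1602)) (k4 1091)))) (k4 2824)) (br (br (br (br 
  (br (lf 1467011) (k4 2114)) (br (lf 1448986) (k4 2114))) (k4 2256)) (br (br (br (sy 345968) (k4 2114)) (br 
  (sy 342832) (k4 1665))) (k4 2256))) (k4 1092))))) (k4 3353)) (br (br (br (br (br (br (br (br (br (lf 1524432) 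
  (k4 2689)) (br (lf 1369872) (k4 2689))) (br (br (lf 1524824) (k4 2689)) (br (lf 1434384) (k4 1672)))) (br (br 
  (br (lf 1512672) (k4 2689)) (br (sy 369068) (k4 1665))) (br (br (lf 1389472) (k4 1602)) (k4 1091)))) (k4 2824)
  ) (br (br (br (br (br (lf 1467480) (k4 2689)) (br (lf 1370131) (k4 2689))) (k4 2242)) (br (br (br (lf 1450904) 
  (k4 2689)) (br (sy 369068) (k4 1665))) (k4 2242))) (k4 2824))) (br (br (br (br (br (br (lf 1524376) (k4 2689)) 
  (br (lf 452816) (k4 2689))) (br (br (lf 1447320) (k4 2689)) (br (lf 439712) (k4 1672)))) (k4 2250)) (k4 2824))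
   (br (br (br (br (br (lf 1223747) (k4 2114)) (br (lf 1447299) (k4 2114))) (k4 2242)) (k4 2250)) (k4 1092)))) 
  (br (br (br (br (br (br (br (lf 1524418) (k4 2689)) (br (lf 1467074) (k4 2689))) (k4 2179)) (br (br (br 
  (lf 1467088) (k4 2689)) (sy 827813)) (k4 2179))) (k4 2824)) (k4 1668)) (br (br (br (br (br (br (lf 1467032) 
  (k4 2689)) (br (lf 1361794) (k4 2689))) (k4 2179)) (k4 2250)) (k4 2824)) (k4 1668)))) (k4 3353)))) 
  (sy 1517768))) (br (br (br (br (br (br (br (br (br (br (br (br (br (lf 1525314) (lf 1525314)) (sy 1751176)) 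
  (sy 1521793)) (sy 1751176)) (br (br (br (br (lf 1524250) (lf 1511706)) (br (lf 1525314) (lf 450842))) 
  (sy 1521793)) (sy 1751176))) (sy 1525377)) (br (br (br (br (br (br (lf 1753808) (lf 1513491)) (br (lf 1743042) 
  (lf 1370306))) (br (br (lf 1521730) (lf 1517320)) (sy 1521793))) (br (br (br (lf 1754704) (lf 1513680)) 
  (sy 1751176)) (sy 1751176))) (br (br (br (br (lf 1467074) (k4 2177)) (br (lf 1266370) (k4 2177))) (br (br 
  (lf 1523914) (k4 2177)) (br (lf 938882) (k4 1672)))) (br (br (br (lf 445648) (k4 2177)) (br (sy 418845) 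
  (k4 1665))) (sy 1751176)))) (br (br (br (br (br (lf 1524803) (k4 2114)) (br (lf 1524250) (k4 2114))) 
  (sy 1525377)) (br (br (br (lf 1468040) (k4 2114)) (br (lf 383362) (k4 1665))) (br (br (lf 1517768) (k4 1602)) 
  (k4 1091)))) (k4 1092)))) (k4 2840)) (k4 3353)) (br (br (br (br (br (br (br (br (br (lf 1525384) (lf 1525314)) 
  (sy 1751176)) (sy 1521793)) (sy 1751176)) (br (br (br (br (lf 1238594) (lf 1524250)) (br (lf 1525314) 
  (lf 1153922))) (sy 1521793)) (sy 1751176))) (sy 1525377)) (br (br (br (br (br (br (lf 1525328) (lf 1467032)) 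
  (br (lf 941136) (lf 1370306))) (br (br (lf 941192) (lf 1517320)) (sy 807604))) (k4 2250)) (sy 1106091)) (br 
  (br (br (br (br (lf 1238216) (k4 2114)) (br (lf 1170568) (k4 2114))) (k4 2242)) (k4 2250)) (k4 1092)))) 
  (k4 2840)) (k4 3353))) (sy 1525377)) (sy 1525377)) (br (sy 1525377) (sy 1517768)))) (k4 3403)) (k4 3285))) 
  (k4 3404)) (k4 3349)) (k4 3357))

theorem t20_ok : check RT t20 20 28816 = true := by decide +kernel

def t21 : Cert :=
  (br (br (br (br (br (br (br (br (br (br (br (br (br (br (br (br (br (br (br (br (lf 1628368) (sy 1623594)) (k4 3265)) 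
  (sy 1751176)) (sy 1751176)) (k4 3329)) (br (br (br (br (br (lf 1628291) (sy 1623594)) (k4 3265)) (br (br 
  (lf 1627171) (sy 1623594)) (k4 3265))) (sy 1751176)) (k4 3329))) (br (br (sy 1623594) (k4 3329)) (br 
  (sy 1623594) (k4 1092)))) (br (br (br (br (br (br (br (sy 1623594) (sy 1623594)) (k4 3265)) (sy 1751176)) 
  (sy 1751176)) (k4 3329)) (br (br (br (br (br (sy 1623594) (sy 1623594)) (k4 3265)) (k4 2256)) (sy 1751176)) 
  (k4 3329))) (br (br (sy 1623594) (k4 3329)) (br (sy 1623594) (k4 1092))))) (k4 3353)) (br (br (br (br (br (br (br 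
  (br (br (lf 1718864) (sy 1623594)) (k4 3265)) (sy 1751176)) (sy 1751176)) (k4 3329)) (br (br (br (br (br 
  (lf 1709736) (sy 1623594)) (k4 3265)) (k4 2242)) (sy 1751176)) (k4 3329))) (br (br (sy 1623594) (k4 3329)) 
  (br (sy 1623594) (k4 1092)))) (br (br (br (br (br (br (br (lf 1717072) (sy 1623594)) (k4 3265)) (k4 2179)) 
  (sy 1751176)) (k4 3329)) (k4 1668)) (br (br (sy 1623594) (k4 3329)) (k4 1668)))) (k4 3353))) (br (br (br (br 
  (br (br (br (br (br (sy 1623594) (k4 3265)) (sy 1751176)) (sy 1751176)) (k4 3329)) (br (br (br (br (sy 1623594) 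
  (k4 3265)) (br (sy 1623594) (k4 3265))) (sy 1751176)) (k4 3329))) (br (br (sy 1623594) (k4 3329)) (br 
  (sy 1623594) (k4 1092)))) (br (br (br (br (br (br (sy 1623594) (k4 3265)) (sy 1751176)) (sy 1751176)) (k4 3329)
  ) (br (br (br (br (sy 1623594) (k4 3265)) (k4 2256)) (sy 1751176)) (k4 3329))) (br (br (sy 1623594) (k4 3329)) 
  (br (sy 1623594) (k4 1092))))) (k4 3353)) (br (br (br (br (br (br (br (br (sy 1623594) (k4 3265)) (sy 1751176)) 
  (sy 1751176)) (k4 3329)) (br (br (br (br (sy 1623594) (k4 3265)) (k4 2242)) (sy 1751176)) (k4 3329))) (br (br 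
  (sy 1623594) (k4 3329)) (br (sy 1623594) (k4 1092)))) (br (br (br (br (br (br (sy 1623594) (k4 3265)) (k4 2179))
   (sy 1751176)) (k4 3329)) (k4 1668)) (br (br (sy 1623594) (k4 3329)) (k4 1668)))) (k4 3353)))) (br (br (br (br 
  (br (br (br (br (br (br (br (lf 1743056) (lf 1627171)) (k4 3265)) (sy 1751176)) (sy 1751176)) (k4 3329)) (br (br 
  (br (br (br (lf 1754123) (lf 1583715)) (k4 3265)) (br (br (lf 1744995) (sy 547022)) (k4 3265))) (sy 1751176)) 
  (k4 3329))) (br (br (sy 1623594) (k4 3329)) (br (sy 1623594) (k4 1092)))) (br (br (br (br (br (br (br (lf 1754634)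
   (sy 1623594)) (k4 3265)) (sy 1751176)) (sy 1751176)) (k4 3329)) (br (br (br (br (br (lf 1595601) (sy 1623594)
  ) (k4 3265)) (k4 2256)) (sy 1751176)) (k4 3329))) (br (br (sy 1623594) (k4 3329)) (br (sy 1623594) (k4 1092))
  ))) (k4 3353)) (br (br (br (br (br (br (br (br (br (lf 1754760) (lf 1616664)) (k4 3265)) (sy 1751176)) 
  (sy 1751176)) (k4 3329)) (br (br (br (br (br (lf 1657432) (lf 1657411)) (k4 3265)) (k4 2242)) (sy 1751176)) 
  (k4 3329))) (br (br (sy 1623594) (k4 3329)) (br (sy 1623594) (k4 1092)))) (br (br (br (br (br (br (br (lf 1754753)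
   (lf 1716393)) (k4 3265)) (k4 2179)) (sy 1751176)) (k4 3329)) (k4 1668)) (br (br (sy 1623594) (k4 3329)) 
  (k4 1668)))) (k4 3353))) (br (br (br (br (br (br (br (br (br (sy 1623594) (k4 3265)) (sy 1751176)) (sy 1751176)) 
  (k4 3329)) (br (br (br (br (sy 1623594) (k4 3265)) (br (sy 1623594) (k4 3265))) (sy 1751176)) (k4 3329))) (br 
  (br (sy 1623594) (k4 3329)) (br (sy 1623594) (k4 1092)))) (br (br (br (br (br (br (sy 1623594) (k4 3265)) 
  (sy 1751176)) (sy 1751176)) (k4 3329)) (br (br (br (br (sy 1623594) (k4 3265)) (k4 2256)) (sy 1751176)) 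
  (k4 3329))) (br (br (sy 1623594) (k4 3329)) (br (sy 1623594) (k4 1092))))) (k4 3353)) (br (br (br (br (br (br (br 
  (br (sy 1623594) (k4 3265)) (sy 1751176)) (sy 1751176)) (k4 3329)) (br (br (br (br (sy 1623594) (k4 3265)) 
  (k4 2242)) (sy 1751176)) (k4 3329))) (br (br (sy 1623594) (k4 3329)) (br (sy 1623594) (k4 1092)))) (br (br (br 
  (br (br (br (sy 1623594) (k4 3265)) (k4 2179)) (sy 1751176)) (k4 3329)) (k4 1668)) (br (br (sy 1623594) 
  (k4 3329)) (k4 1668)))) (k4 3353))))) (br (br (br (br (br (br (br (br (br (br (br (br (lf 1743056) (lf 1627171)) 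
  (k4 3265)) (sy 1751176)) (sy 1751176)) (k4 3329)) (br (br (br (br (br (lf 1627395) (lf 1627395)) (k4 3265)) 
  (br (br (lf 1745688) (lf 1616419)) (k4 3265))) (sy 1751176)) (k4 3329))) (br (br (sy 1623594) (k4 3329)) (br 
  (sy 1623594) (k4 1092)))) (br (br (br (br (br (br (br (lf 1743042) (lf 1627171)) (k4 3265)) (sy 1751176)) 
  (sy 1751176)) (k4 3329)) (br (br (br (br (br (lf 1624784) (lf 1622355)) (k4 3265)) (k4 2256)) (sy 1751176)) 
  (k4 3329))) (br (br (sy 1623594) (k4 3329)) (br (sy 1623594) (k4 1092))))) (k4 3353)) (br (br (br (br (br (br (br 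
  (br (br (lf 1628368) (lf 1616664)) (k4 3265)) (sy 1751176)) (sy 1751176)) (k4 3329)) (br (br (br (br (br 
  (lf 1623384) (lf 1616643)) (k4 3265)) (k4 2242)) (sy 1751176)) (k4 3329))) (br (br (sy 1623594) (k4 3329)) 
  (br (sy 1623594) (k4 1092)))) (br (br (br (br (br (br (br (lf 1717072) (lf 1616104)) (k4 3265)) (k4 2179)) 
  (sy 1751176)) (k4 3329)) (k4 1668)) (br (br (sy 1623594) (k4 3329)) (k4 1668)))) (k4 3353))) (br (br (br (br 
  (br (br (br (br (br (br (lf 1628368) (k4 2689)) (k4 3265)) (sy 1751176)) (sy 1751176)) (k4 3329)) (br (br (br (br 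
  (br (lf 1628291) (k4 2689)) (k4 3265)) (br (br (lf 1627171) (k4 2689)) (k4 3265))) (sy 1751176)) (k4 3329))) 
  (br (br (sy 1623594) (k4 3329)) (br (sy 1623594) (k4 1092)))) (br (br (br (br (br (br (br (sy 1623594) (k4 2689)) 
  (k4 3265)) (sy 1751176)) (sy 1751176)) (k4 3329)) (br (br (br (br (br (sy 1623594) (k4 2689)) (k4 3265)) 
  (k4 2256)) (sy 1751176)) (k4 3329))) (br (br (sy 1623594) (k4 3329)) (br (sy 1623594) (k4 1092))))) (k4 3353)
  ) (br (br (br (br (br (br (br (br (br (lf 1628368) (k4 2689)) (k4 3265)) (sy 1751176)) (sy 1751176)) (k4 3329)) 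
  (br (br (br (br (br (lf 1628312) (k4 2689)) (k4 3265)) (k4 2242)) (sy 1751176)) (k4 3329))) (br (br (sy 1623594)
   (k4 3329)) (br (sy 1623594) (k4 1092)))) (br (br (br (br (br (br (br (lf 1628368) (k4 2689)) (k4 3265)) 
  (k4 2179)) (sy 1751176)) (k4 3329)) (k4 1668)) (br (br (sy 1623594) (k4 3329)) (k4 1668)))) (k4 3353)))) 
  (sy 1517768))) (sy 1751176)) (k4 3403)) (k4 3285)) (br (br (br (br (br (br (br (br (br (br (br (br (br (br (br (br 
  (lf 1743042) (lf 1742867)) (k4 3265)) (br (br (lf 1737498) (lf 1737428)) (k4 3265))) (br (br (br (lf 1628368) 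
  (sy 1620010)) (k4 3265)) (br (br (sy 1620010) (k4 1602)) (k4 1091)))) (k4 3329)) (br (br (br (br (br 
  (lf 1724947) (lf 1622355)) (k4 3265)) (br (br (lf 1591961) (lf 1581867)) (k4 3265))) (br (br (br (lf 1742867) 
  (sy 1620010)) (k4 3265)) (br (br (lf 1687721) (k4 1602)) (k4 1091)))) (k4 3329))) (br (br (br (br (br (br 
  (lf 1710723) (sy 1623594)) (k4 3265)) (br (br (lf 1628368) (sy 1623594)) (k4 3265))) (br (br (sy 1623594) 
  (k4 3265)) (br (sy 1623594) (k4 1091)))) (k4 3329)) (br (br (br (br (br (lf 1710723) (k4 2114)) (k4 3265)) (br 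
  (br (lf 1705291) (k4 2114)) (k4 3265))) (br (br (sy 1623594) (k4 3265)) (br (sy 1623594) (k4 1091)))) 
  (k4 1092)))) (br (br (br (br (br (br (br (lf 1753794) (lf 1622362)) (k4 3265)) (br (br (lf 1693706) (lf 1578794))
   (k4 3265))) (br (br (br (sy 1620010) (sy 1620010)) (k4 3265)) (br (br (sy 1620010) (k4 1602)) (k4 1091)))) 
  (k4 3329)) (br (br (br (br (br (lf 1724506) (lf 1706586)) (k4 3265)) (k4 2256)) (br (br (br (sy 1620010) 
  (sy 1620010)) (k4 3265)) (k4 2256))) (k4 3329))) (br (br (br (br (br (br (sy 1623594) (sy 1623594)) (k4 3265)) 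
  (br (br (sy 1623594) (sy 1623594)) (k4 3265))) (br (br (sy 1623594) (k4 3265)) (br (sy 1623594) (k4 1091)))) 
  (k4 3329)) (br (br (br (br (br (sy 1623594) (k4 2114)) (k4 3265)) (k4 2256)) (br (br (sy 1623594) (k4 3265)) 
  (k4 2256))) (k4 1092))))) (k4 3353)) (br (br (br (br (br (br (br (br (br (lf 1725136) (lf 1725122)) (k4 3265)) 
  (br (br (lf 1690241) (lf 1688589)) (k4 3265))) (br (br (br (lf 1628368) (sy 1620010)) (k4 3265)) (br (br 
  (lf 1680224) (k4 1602)) (k4 1091)))) (k4 3329)) (br (br (br (br (br (lf 1725640) (lf 1709379)) (k4 3265)) 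
  (k4 2242)) (br (br (br (lf 1725136) (sy 1620010)) (k4 3265)) (k4 2242))) (k4 3329))) (br (br (br (br (br (br 
  (lf 1725136) (sy 1623594)) (k4 3265)) (br (br (lf 1725528) (sy 1623594)) (k4 3265))) (k4 2250)) (k4 3329)) 
  (br (br (br (br (br (lf 1714755) (k4 2114)) (k4 3265)) (k4 2242)) (k4 2250)) (k4 1092)))) (br (br (br (br (br (br 
  (br (lf 1725962) (lf 1705802)) (k4 3265)) (k4 2179)) (br (br (br (lf 1717072) (sy 1620010)) (k4 3265)) 
  (k4 2179))) (k4 3329)) (k4 1668)) (br (br (br (br (br (br (lf 1266384) (sy 1623594)) (k4 3265)) (k4 2179)) 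
  (k4 2250)) (k4 3329)) (k4 1668)))) (k4 3353))) (br (br (br (br (br (br (br (br (br (br (lf 1741082) (sy 461034)) 
  (k4 3265)) (br (br (lf 1741026) (sy 461034)) (k4 3265))) (br (br (sy 1620010) (k4 3265)) (br (sy 1620010) 
  (k4 1091)))) (k4 2824)) (br (br (br (br (br (lf 1741082) (sy 461034)) (k4 3265)) (br (br (lf 1594131) 
  (sy 461034)) (k4 3265))) (br (br (sy 1620010) (k4 3265)) (br (sy 1620010) (k4 1091)))) (k4 2824))) (br (br (br 
  (br (br (sy 1623594) (k4 3265)) (br (sy 1623594) (k4 3265))) (br (br (sy 1623594) (k4 3265)) (br (sy 1623594) 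
  (k4 1091)))) (k4 2824)) (br (br (br (br (sy 1623594) (k4 3265)) (br (sy 1623594) (k4 3265))) (br (br 
  (sy 1623594) (k4 3265)) (br (sy 1623594) (k4 1091)))) (k4 1092)))) (br (br (br (br (br (br (br (lf 1753626) 
  (sy 461034)) (k4 3265)) (br (br (lf 1738842) (sy 461034)) (k4 3265))) (br (br (sy 1620010) (k4 3265)) (br 
  (sy 1620010) (k4 1091)))) (k4 2824)) (br (br (br (br (br (lf 1595482) (sy 461034)) (k4 3265)) (k4 2256)) (br 
  (br (sy 1620010) (k4 3265)) (k4 2256))) (k4 2824))) (br (br (br (br (br (sy 1623594) (k4 3265)) (br (sy 1623594)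
   (k4 3265))) (br (br (sy 1623594) (k4 3265)) (br (sy 1623594) (k4 1091)))) (k4 2824)) (br (br (br (br 
  (sy 1623594) (k4 3265)) (k4 2256)) (br (br (sy 1623594) (k4 3265)) (k4 2256))) (k4 1092))))) (k4 3353)) (br 
  (br (br (br (br (br (br (br (br (lf 1753626) (sy 461034)) (k4 3265)) (br (br (lf 1738506) (sy 461034)) (k4 3265)))
   (br (br (sy 1620010) (k4 3265)) (br (sy 1620010) (k4 1091)))) (k4 2824)) (br (br (br (br (br (lf 1753171) 
  (sy 461034)) (k4 3265)) (k4 2242)) (br (br (sy 1620010) (k4 3265)) (k4 2242))) (k4 2824))) (br (br (br (br (br 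
  (sy 1623594) (k4 3265)) (br (sy 1623594) (k4 3265))) (k4 2250)) (k4 2824)) (br (br (br (br (sy 1623594) 
  (k4 3265)) (k4 2242)) (k4 2250)) (k4 1092)))) (br (br (br (br (br (br (br (lf 1725962) (sy 461034)) (k4 3265)) 
  (k4 2179)) (br (br (sy 1620010) (k4 3265)) (k4 2179))) (k4 2824)) (k4 1668)) (br (br (br (br (br (sy 1623594) 
  (k4 3265)) (k4 2179)) (k4 2250)) (k4 2824)) (k4 1668)))) (k4 3353)))) (br (br (br (br (br (br (br (br (br (br (br 
  (lf 1738835) (lf 1737491)) (k4 3265)) (br (br (lf 1738842) (lf 1737379)) (k4 3265))) (br (br (br (lf 1741012) 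
  (lf 1627171)) (k4 3265)) (br (br (lf 1750028) (k4 1602)) (k4 1091)))) (k4 3329)) (k4 2832)) (br (br (br (br (br 
  (br (lf 1753731) (lf 1628291)) (k4 3265)) (br (br (lf 1738835) (lf 1583715)) (k4 3265))) (br (br (sy 1623594) 
  (k4 3265)) (br (sy 1623594) (k4 1091)))) (k4 3329)) (k4 2832))) (br (br (br (br (br (br (br (lf 1753290) 
  (lf 1595475)) (k4 3265)) (br (br (lf 1595153) (sy 87654)) (k4 3265))) (br (br (br (lf 1753290) (sy 1620010)) 
  (k4 3265)) (br (br (lf 1587852) (k4 1602)) (k4 1091)))) (k4 3329)) (k4 2832)) (br (br (br (br (br (br 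
  (lf 1753171) (sy 1623594)) (k4 3265)) (br (br (lf 1738954) (sy 87654)) (k4 3265))) (br (br (sy 1623594) 
  (k4 3265)) (br (sy 1623594) (k4 1091)))) (k4 3329)) (k4 2832)))) (k4 3353)) (br (br (br (br (br (br (br (br (br 
  (lf 1754123) (lf 1742867)) (k4 3265)) (br (br (lf 1751169) (lf 1658979)) (k4 3265))) (br (br (br (lf 1754760) 
  (lf 1741859)) (k4 3265)) (br (br (lf 1750112) (k4 1602)) (k4 1091)))) (k4 3329)) (k4 2832)) (br (br (br (br (br 
  (br (lf 1753752) (lf 1754179)) (k4 3265)) (br (br (lf 1754200) (sy 537446)) (k4 3265))) (k4 2250)) (k4 3329))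
   (k4 2832))) (br (br (br (br (br (br (br (lf 1724625) (lf 1738954)) (k4 3265)) (k4 2179)) (br (br (br (lf 1751106)
   (lf 1717072)) (k4 3265)) (k4 2179))) (k4 3329)) (k4 1668)) (br (br (br (br (br (br (lf 1724555) (lf 1266307)) 
  (k4 3265)) (k4 2179)) (k4 2250)) (k4 3329)) (k4 1668)))) (k4 3353))) (br (br (br (br (br (br (br (br (br (br 
  (lf 1511706) (k4 2696)) (k4 3265)) (sy 1524929)) (br (br (sy 1620010) (k4 3265)) (br (sy 1620010) (k4 1091)))
  ) (k4 2824)) (k4 2832)) (br (sy 1524929) (k4 2832))) (br (br (br (br (br (br (br (sy 1328243) (k4 2696)) 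
  (k4 3265)) (br (br (sy 181342) (k4 2696)) (k4 3265))) (br (br (sy 1620010) (k4 3265)) (br (sy 1620010) 
  (k4 1091)))) (k4 2824)) (k4 2832)) (br (br (br (br (br (sy 1623594) (k4 3265)) (sy 1524929)) (br (br 
  (sy 1623594) (k4 3265)) (br (sy 1623594) (k4 1091)))) (k4 2824)) (k4 2832)))) (k4 3353)) (br (br (br (br (br 
  (br (br (br (br (lf 1511706) (k4 2696)) (k4 3265)) (sy 1524929)) (br (br (sy 1620010) (k4 3265)) (br 
  (sy 1620010) (k4 1091)))) (k4 2824)) (k4 2832)) (br (sy 1524929) (k4 2832))) (br (br (br (br (br (br (br 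
  (sy 1328243) (k4 2696)) (k4 3265)) (k4 2179)) (br (br (sy 1620010) (k4 3265)) (k4 2179))) (k4 2824)) 
  (k4 1668)) (br (br (br (br (br (sy 1623594) (k4 3265)) (k4 2179)) (k4 2250)) (k4 2824)) (k4 1668)))) (k4 3353))
  ))) (br (br (br (br (br (br (br (br (br (br (br (br (lf 1743042) (lf 1628179)) (k4 3265)) (br (br (lf 1740963) 
  (lf 1626275)) (k4 3265))) (br (br (br (lf 1627808) (lf 1627332)) (k4 3265)) (br (br (lf 1742468) (k4 1602)) 
  (k4 1091)))) (k4 3329)) (br (br (br (br (br (lf 1753731) (lf 1628291)) (k4 3265)) (br (br (lf 1737491) 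
  (lf 1744995)) (k4 3265))) (br (br (br (lf 1627416) (lf 480515)) (k4 3265)) (br (br (lf 1659672) (k4 1602)) 
  (k4 1091)))) (k4 3329))) (br (br (br (br (br (br (lf 1628312) (lf 481411)) (k4 3265)) (br (br (lf 1627395) 
  (sy 330099)) (k4 3265))) (br (br (sy 1623594) (k4 3265)) (br (sy 1623594) (k4 1091)))) (k4 3329)) (br (br (br 
  (br (br (lf 1725059) (k4 2114)) (k4 3265)) (br (br (lf 1747011) (k4 2114)) (k4 3265))) (br (br (sy 1623594) 
  (k4 3265)) (br (sy 1623594) (k4 1091)))) (k4 1092)))) (br (br (br (br (br (br (br (lf 1753626) (lf 1628186)) 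
  (k4 3265)) (br (br (lf 1738954) (lf 1579676)) (k4 3265))) (br (br (br (lf 1628368) (lf 481026)) (k4 3265)) (br 
  (br (lf 1742496) (k4 1602)) (k4 1091)))) (k4 3329)) (br (br (br (br (br (lf 1724947) (lf 1724947)) (k4 3265)) 
  (k4 2256)) (br (br (br (lf 1624602) (lf 480515)) (k4 3265)) (k4 2256))) (k4 3329))) (br (br (br (br (br (br 
  (lf 1628179) (lf 1624707)) (k4 3265)) (br (br (lf 1725080) (sy 330099)) (k4 3265))) (br (br (sy 1623594) 
  (k4 3265)) (br (sy 1623594) (k4 1091)))) (k4 3329)) (br (br (br (br (br (lf 1710723) (k4 2114)) (k4 3265)) 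
  (k4 2256)) (br (br (sy 1623594) (k4 3265)) (k4 2256))) (k4 1092))))) (k4 3353)) (br (br (br (br (br (br (br (br 
  (br (lf 1743000) (lf 1627395)) (k4 3265)) (br (br (lf 1753808) (lf 1659616)) (k4 3265))) (br (br (br 
  (lf 1627920) (lf 469784)) (k4 3265)) (br (br (lf 1692768) (k4 1602)) (k4 1091)))) (k4 3329)) (br (br (br (br 
  (br (lf 1725080) (lf 1742979)) (k4 3265)) (k4 2242)) (br (br (br (lf 1627416) (sy 569702)) (k4 3265)) 
  (k4 2242))) (k4 3329))) (br (br (br (br (br (br (lf 1725080) (lf 477848)) (k4 3265)) (br (br (lf 1657432) 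
  (sy 573790)) (k4 3265))) (k4 2250)) (k4 3329)) (br (br (br (br (br (lf 1712984) (k4 2114)) (k4 3265)) (k4 2242)
  ) (k4 2250)) (k4 1092)))) (br (br (br (br (br (br (br (lf 1753808) (lf 1628354)) (k4 3265)) (k4 2179)) (br (br 
  (br (lf 1620752) (lf 476504)) (k4 3265)) (k4 2179))) (k4 3329)) (k4 1668)) (br (br (br (br (br (br (lf 1266384) 
  (lf 1108632)) (k4 3265)) (k4 2179)) (k4 2250)) (k4 3329)) (k4 1668)))) (k4 3353))) (br (br (br (br (br (br (br 
  (br (br (br (lf 1741082) (k4 2689)) (k4 3265)) (br (br (lf 1511699) (k4 2689)) (k4 3265))) (br (br (br 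
  (lf 1627171) (k4 2689)) (k4 3265)) (br (br (sy 1620010) (k4 1602)) (k4 1091)))) (k4 2824)) (br (br (br (br (br 
  (lf 1742867) (k4 2689)) (k4 3265)) (br (br (lf 1508003) (k4 2689)) (k4 3265))) (br (br (br (lf 1368339) 
  (k4 2689)) (k4 3265)) (br (br (lf 451619) (k4 1602)) (k4 1091)))) (k4 2824))) (br (br (br (br (br (br 
  (lf 1628291) (k4 2689)) (k4 3265)) (br (br (lf 452739) (k4 2689)) (k4 3265))) (br (br (sy 1623594) (k4 3265)) 
  (br (sy 1623594) (k4 1091)))) (k4 2824)) (br (br (br (br (br (lf 1628291) (k4 2114)) (k4 3265)) (br (br 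
  (lf 452739) (k4 2114)) (k4 3265))) (br (br (sy 1623594) (k4 3265)) (br (sy 1623594) (k4 1091)))) (k4 1092))))
   (br (br (br (br (br (br (br (lf 1513498) (k4 2689)) (k4 3265)) (br (br (lf 1508066) (k4 2689)) (k4 3265))) (br 
  (br (br (sy 1620010) (k4 2689)) (k4 3265)) (br (br (sy 1620010) (k4 1602)) (k4 1091)))) (k4 2824)) (br (br (br 
  (br (br (lf 1742874) (k4 2689)) (k4 3265)) (k4 2256)) (br (br (br (sy 1620010) (k4 2689)) (k4 3265)) (k4 2256))
  ) (k4 2824))) (br (br (br (br (br (br (sy 1623594) (k4 2689)) (k4 3265)) (br (br (sy 1623594) (k4 2689)) 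
  (k4 3265))) (br (br (sy 1623594) (k4 3265)) (br (sy 1623594) (k4 1091)))) (k4 2824)) (br (br (br (br (br 
  (sy 1623594) (k4 2114)) (k4 3265)) (k4 2256)) (br (br (sy 1623594) (k4 3265)) (k4 2256))) (k4 1092))))) 
  (k4 3353)) (br (br (br (br (br (br (br (br (br (lf 1513491) (k4 2689)) (k4 3265)) (br (br (lf 1743000) (k4 2689)) 
  (k4 3265))) (br (br (br (lf 451808) (k4 2689)) (k4 3265)) (br (br (lf 1742020) (k4 1602)) (k4 1091)))) 
  (k4 2824)) (br (br (br (br (br (lf 1742979) (k4 2689)) (k4 3265)) (k4 2242)) (br (br (br (lf 1369347) (k4 2689)) 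
  (k4 3265)) (k4 2242))) (k4 2824))) (br (br (br (br (br (br (lf 1742979) (k4 2689)) (k4 3265)) (br (br 
  (lf 1512707) (k4 2689)) (k4 3265))) (k4 2250)) (k4 2824)) (br (br (br (br (br (lf 1251971) (k4 2114)) (k4 3265)
  ) (k4 2242)) (k4 2250)) (k4 1092)))) (br (br (br (br (br (br (br (lf 1513666) (k4 2689)) (k4 3265)) (k4 2179)) 
  (br (br (br (lf 452816) (k4 2689)) (k4 3265)) (k4 2179))) (k4 2824)) (k4 1668)) (br (br (br (br (br (br 
  (lf 1363075) (k4 2689)) (k4 3265)) (k4 2179)) (k4 2250)) (k4 2824)) (k4 1668)))) (k4 3353)))) (sy 1517768))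
  ) (br (br (br (br (br (br (br (br (br (br (br (br (br (lf 1743042) (lf 1741082)) (k4 3265)) (sy 1751176)) 
  (sy 1751176)) (k4 3329)) (br (br (br (br (br (lf 1753290) (lf 1595482)) (k4 3265)) (br (br (lf 1738961) 
  (sy 83566)) (k4 3265))) (sy 1751176)) (k4 3329))) (br (br (br (br (br (br (lf 1753626) (lf 1742867)) (k4 3265))
   (br (br (lf 1738954) (lf 1626268)) (k4 3265))) (br (br (br (lf 1628368) (sy 476693)) (k4 3265)) (sy 1751176))
  ) (k4 3329)) (br (br (br (br (br (lf 1753171) (k4 2114)) (k4 3265)) (br (br (lf 1738835) (k4 2114)) (k4 3265))) 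
  (br (br (br (lf 1628368) (k4 2114)) (k4 3265)) (br (br (lf 1627171) (k4 1602)) (k4 1091)))) (k4 1092)))) 
  (k4 2840)) (k4 3353)) (br (br (br (br (br (br (br (br (br (lf 1754634) (lf 1738954)) (k4 3265)) (sy 1751176)) 
  (sy 1751176)) (k4 3329)) (br (br (br (br (br (lf 1753297) (lf 1738954)) (k4 3265)) (k4 2242)) (sy 1751176)) 
  (k4 3329))) (br (br (br (br (br (br (lf 1754704) (lf 1725136)) (k4 3265)) (br (br (lf 1690178) (lf 1718864)) 
  (k4 3265))) (k4 2250)) (k4 3329)) (br (br (br (br (br (lf 1725969) (k4 2114)) (k4 3265)) (k4 2242)) (k4 2250)) 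
  (k4 1092)))) (k4 2840)) (k4 3353))) (br (br (br (br (br (br (br (br (br (br (lf 1511706) (sy 461034)) (k4 2760)) 
  (sy 1521793)) (sy 1751176)) (k4 2824)) (sy 1525377)) (br (br (br (br (br (br (lf 1511706) (sy 461034)) 
  (k4 2760)) (br (br (lf 1737498) (sy 461034)) (k4 2760))) (br (br (sy 1623594) (k4 2760)) (sy 1751176))) 
  (k4 2824)) (br (br (br (br (br (lf 1524243) (k4 2114)) (k4 2760)) (sy 1525377)) (br (br (sy 1623594) (k4 2760)) 
  (br (sy 1623594) (k4 1091)))) (k4 1092)))) (k4 2840)) (k4 3353)) (br (br (br (br (br (br (br (br (br (lf 1525314) 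
  (sy 461034)) (k4 2760)) (sy 1521793)) (sy 1751176)) (k4 2824)) (sy 1525377)) (br (br (br (br (br (br 
  (lf 1742874) (sy 461034)) (k4 2760)) (br (br (lf 1737498) (sy 461034)) (k4 2760))) (k4 2250)) (k4 2824)) (br 
  (br (br (br (br (lf 1237523) (k4 2114)) (k4 2760)) (k4 2242)) (k4 2250)) (k4 1092)))) (k4 2840)) (k4 3353)))) 
  (sy 1525377)) (br (sy 1525377) (sy 1517768)))) (k4 3403)) (k4 3285))) (k4 3404)) (k4 3349)) (k4 3357))

theorem t21_ok : check RT t21 20 28817 = true := by decide +kernel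

end K4m.C
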