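import Pool.Agent.Lib.MP_392c14_co.CRep

/-! Certificates, checked by the kernel (part 2) -/

set_option autoImplicit false
set_option maxRecDepth 100000

namespace K4m.C

open Cert

def t22 : Cert :=
  (br (br (br (br (br (br (br (br (br (br (br (br (br (br (br (br (br (br (br (br (lf 1754760) (lf 1741859)) (sy 1751176)) 
  (sy 1751176)) (sy 1751176)) (br (br (br (br (lf 1725136) (lf 1615915)) (br (lf 1623594) (lf 1608474))) 
  (sy 1751176)) (sy 1751176))) (br (br (br (br (br (lf 1714699) (lf 1645315)) (br (lf 1742468) (lf 1642732))) 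
  (br (br (lf 1656641) (sy 551117)) (sy 1751176))) (sy 1751176)) (br (br (br (br (lf 1725451) (k4 2184)) (br 
  (lf 1622229) (k4 2184))) (br (br (lf 1654877) (k4 2184)) (br (lf 1581853) (k4 1672)))) (sy 1751176)))) (br 
  (br (br (br (br (br (lf 1657432) (lf 1645336)) (br (lf 1619296) (lf 1615915))) (br (br (lf 1652840) (lf 1644384)
  ) (br (lf 1619205) (k4 1672)))) (br (br (br (lf 1644776) (lf 1616664)) (sy 1751176)) (sy 1751176))) (br (br 
  (br (br (lf 1624728) (k4 2177)) (br (lf 1622355) (k4 2177))) (br (br (lf 1709085) (k4 2177)) (br (lf 1623685) 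
  (k4 1672)))) (br (br (br (lf 1616104) (k4 2177)) (br (sy 418845) (k4 1665))) (sy 1751176)))) (br (br (br (br (br 
  (lf 1657432) (k4 2114)) (br (lf 1655325) (k4 2114))) (br (br (lf 1655640) (k4 2114)) (br (lf 1650789) 
  (k4 1672)))) (br (br (br (lf 1655528) (k4 2114)) (br (lf 1616069) (k4 1665))) (br (br (lf 738920) (k4 1602)) 
  (k4 1091)))) (k4 1092)))) (br (br (br (br (br (br (br (lf 1718864) (lf 1744995)) (sy 1751176)) (sy 1751176)) 
  (sy 1751176)) (br (br (br (br (lf 1724954) (lf 1622187)) (k4 2248)) (sy 1751176)) (sy 1751176))) (br (br (br 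
  (br (br (lf 1717569) (lf 1654989)) (br (lf 1687693) (lf 1582693))) (k4 2256)) (sy 1751176)) (br (br (br (br 
  (lf 1704787) (k4 2184)) (k4 2248)) (k4 2256)) (sy 1751176)))) (br (br (br (br (br (br (lf 1713768) (lf 1644573)
  ) (br (lf 1677445) (lf 1620101))) (br (br (lf 1717576) (lf 1640205)) (br (lf 1677445) (k4 1672)))) (br (br (br 
  (lf 1623720) (lf 1644741)) (sy 1751176)) (sy 1751176))) (br (br (br (br (lf 1709890) (k4 2177)) (k4 2248)) 
  (br (br (lf 1709701) (k4 2177)) (k4 2248))) (br (br (br (lf 1623272) (k4 2177)) (k4 2248)) (sy 1751176)))) (br 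
  (br (br (br (br (lf 1712683) (k4 2114)) (br (lf 1716869) (k4 2114))) (k4 2256)) (br (br (br (lf 1656389) 
  (k4 2114)) (br (lf 1619205) (k4 1665))) (k4 2256))) (k4 1092))))) (k4 3353)) (br (br (br (br (br (br (br (br (br 
  (lf 1717576) (lf 1644776)) (sy 1751176)) (sy 1751176)) (sy 1751176)) (br (br (br (br (lf 1709288) 
  (lf 1616069)) (br (lf 1623685) (lf 1623685))) (sy 1751176)) (sy 1751176))) (br (br (br (br (br (lf 1657544) 
  (lf 1655528)) (br (lf 1656641) (lf 1639141))) (k4 2242)) (sy 1751176)) (br (br (br (br (lf 1712361) (k4 2184))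
   (br (lf 1709253) (k4 2184))) (k4 2242)) (sy 1751176)))) (br (br (br (br (br (br (lf 1655528) (lf 1644888)) (br 
  (lf 1620136) (lf 1644293))) (br (br (lf 1652840) (lf 727272)) (br (lf 1652805) (k4 1672)))) (k4 2250)) (br 
  (br (br (br (lf 1712984) (k4 2177)) (br (lf 1709288) (k4 2177))) (br (br (lf 1712837) (k4 2177)) (br 
  (lf 1709253) (k4 1672)))) (k4 2250))) (br (br (br (br (br (lf 1713992) (k4 2114)) (br (lf 1655528) (k4 2114))) 
  (k4 2242)) (k4 2250)) (k4 1092)))) (br (br (br (br (br (br (br (lf 1718920) (lf 1717352)) (sy 1751176)) 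
  (k4 2179)) (sy 1751176)) (br (br (br (br (lf 1716393) (lf 1709253)) (k4 2248)) (k4 2179)) (sy 1751176))) 
  (k4 1668)) (br (br (br (br (br (br (lf 1717352) (lf 1655493)) (br (lf 1717352) (lf 1709253))) (k4 2179)) 
  (k4 2250)) (br (br (br (br (sy 1089949) (k4 2177)) (k4 2248)) (k4 2179)) (k4 2250))) (k4 1668)))) (k4 3353))) 
  (br (br (br (br (br (br (br (br (br (br (lf 1743042) (lf 1741859)) (sy 1751176)) (sy 1751176)) (sy 1751176)) (br 
  (br (br (br (lf 1741075) (lf 1626387)) (br (lf 1608474) (sy 284886))) (sy 1751176)) (sy 1751176))) (br (br (br 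
  (br (br (lf 1753619) (lf 1658979)) (br (lf 1608474) (sy 73003))) (br (br (lf 1737827) (sy 551117)) 
  (sy 1751176))) (sy 1751176)) (br (br (br (br (lf 1738835) (k4 2184)) (br (lf 1608474) (k4 2184))) (br (br 
  (lf 1594019) (k4 2184)) (br (lf 202986) (k4 1672)))) (sy 1751176)))) (br (br (br (br (br (br (lf 1742104) 
  (lf 1616419)) (br (lf 1627171) (lf 461475))) (br (br (lf 1745604) (lf 1614179)) (br (lf 1627332) (k4 1672))))
   (br (br (br (lf 1627416) (sy 345653)) (sy 1751176)) (sy 1751176))) (br (br (br (br (lf 1628179) (k4 2177)) (br 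
  (sy 281330) (k4 2177))) (br (br (lf 1628179) (k4 2177)) (br (sy 281330) (k4 1672)))) (br (br (br (sy 418845) 
  (k4 2177)) (br (sy 281330) (k4 1665))) (sy 1751176)))) (br (br (br (br (br (lf 1616195) (k4 2114)) (br 
  (lf 1628291) (k4 2114))) (br (br (lf 1639211) (k4 2114)) (br (lf 1639267) (k4 1672)))) (br (br (br (lf 1645336)
   (k4 2114)) (br (sy 386085) (k4 1665))) (br (br (lf 727272) (k4 1602)) (k4 1091)))) (k4 1092)))) (br (br (br 
  (br (br (br (br (lf 1754634) (lf 1579802)) (sy 1751176)) (sy 1751176)) (sy 1751176)) (br (br (br (br 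
  (lf 1608474) (lf 1608467)) (k4 2248)) (sy 1751176)) (sy 1751176))) (br (br (br (br (br (lf 1738905) 
  (lf 1594635)) (br (lf 1595594) (sy 73003))) (k4 2256)) (sy 1751176)) (br (br (br (br (lf 1591891) (k4 2184)) 
  (k4 2248)) (k4 2256)) (sy 1751176)))) (br (br (br (br (br (br (lf 1753794) (lf 1626275)) (br (lf 1624770) 
  (lf 460460))) (br (br (lf 1743056) (lf 1578213)) (br (lf 1585829) (k4 1672)))) (br (br (br (lf 1628368) 
  (sy 345653)) (sy 1751176)) (sy 1751176))) (br (br (br (br (lf 1622355) (k4 2177)) (k4 2248)) (br (br 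
  (lf 1579165) (k4 2177)) (k4 2248))) (br (br (br (sy 418845) (k4 2177)) (k4 2248)) (sy 1751176)))) (br (br (br 
  (br (br (lf 1708203) (k4 2114)) (br (lf 1579347) (k4 2114))) (k4 2256)) (br (br (br (lf 1655493) (k4 2114)) (br 
  (sy 386085) (k4 1665))) (k4 2256))) (k4 1092))))) (k4 3353)) (br (br (br (br (br (br (br (br (br (lf 1754704) 
  (lf 1745688)) (sy 1751176)) (sy 1751176)) (sy 1751176)) (br (br (br (br (lf 1753808) (lf 1626387)) (br 
  (lf 1628354) (sy 284886))) (sy 1751176)) (sy 1751176))) (br (br (br (br (br (lf 1746969) (lf 1654891)) (br 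
  (lf 1742104) (sy 73003))) (k4 2242)) (sy 1751176)) (br (br (br (br (lf 1712963) (k4 2184)) (br (lf 1579242) 
  (k4 2184))) (k4 2242)) (sy 1751176)))) (br (br (br (br (br (br (lf 1644888) (lf 1616643)) (br (lf 1623384) 
  (lf 469336))) (br (br (lf 1660680) (sy 530341)) (br (lf 1618981) (k4 1672)))) (k4 2250)) (br (br (br (br 
  (lf 1624728) (k4 2177)) (br (sy 281330) (k4 2177))) (br (br (lf 1644741) (k4 2177)) (br (sy 281330) (k4 1672))
  )) (k4 2250))) (br (br (br (br (br (lf 1712984) (k4 2114)) (br (lf 1644741) (k4 2114))) (k4 2242)) (k4 2250)) 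
  (k4 1092)))) (br (br (br (br (br (br (br (lf 1754690) (lf 1743056)) (sy 1751176)) (k4 2179)) (sy 1751176)) (br 
  (br (br (br (lf 1709890) (lf 1579221)) (k4 2248)) (k4 2179)) (sy 1751176))) (k4 1668)) (br (br (br (br (br (br 
  (lf 1726032) (lf 1655493)) (br (lf 1623685) (lf 1607445))) (k4 2179)) (k4 2250)) (br (br (br (br (sy 1082781) 
  (k4 2177)) (k4 2248)) (k4 2179)) (k4 2250))) (k4 1668)))) (k4 3353)))) (k4 3394)) (br (br (br (br (br (br (br 
  (br (br (br (br (br (lf 1742104) (lf 1742104)) (sy 1751176)) (sy 1751176)) (sy 1751176)) (br (br (br (br 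
  (lf 1628291) (lf 1627171)) (br (lf 1627171) (lf 469539))) (sy 1751176)) (sy 1751176))) (br (br (br (br (br 
  (lf 1747032) (lf 1645315)) (br (lf 1745667) (lf 1645084))) (br (br (lf 1661121) (sy 551117)) (sy 1751176))) 
  (sy 1751176)) (br (br (br (br (lf 1627395) (k4 2184)) (br (lf 1607851) (k4 2184))) (br (br (lf 1655619) 
  (k4 2184)) (br (lf 1639267) (k4 1672)))) (sy 1751176)))) (br (br (br (br (br (br (lf 1616664) (lf 1645336)) (br 
  (lf 1616608) (lf 1616608))) (br (br (lf 1659672) (sy 559923)) (br (lf 1615712) (k4 1672)))) (br (br (br 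
  (lf 1616664) (sy 579782)) (sy 1751176)) (sy 1751176))) (br (br (br (br (lf 1627395) (k4 2177)) (br (sy 417949)
   (k4 2177))) (br (br (lf 1616195) (k4 2177)) (br (sy 417949) (k4 1672)))) (br (br (br (sy 346864) (k4 2177)) 
  (br (sy 346864) (k4 1665))) (sy 1751176)))) (br (br (br (br (br (lf 1661016) (k4 2114)) (br (lf 1645315) 
  (k4 2114))) (br (br (lf 1644888) (k4 2114)) (br (lf 1644888) (k4 1672)))) (br (br (br (lf 727832) (k4 2114)) 
  (br (sy 342832) (k4 1665))) (br (br (sy 542605) (k4 1602)) (k4 1091)))) (k4 1092)))) (br (br (br (br (br (br (br 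
  (lf 1743056) (lf 1645336)) (sy 1751176)) (sy 1751176)) (sy 1751176)) (br (br (br (br (lf 1743056) 
  (lf 1616195)) (k4 2248)) (sy 1751176)) (sy 1751176))) (br (br (br (br (br (lf 1714776) (lf 1641059)) (br 
  (lf 1679629) (lf 1614179))) (k4 2256)) (sy 1751176)) (br (br (br (br (lf 1706579) (k4 2184)) (k4 2248)) 
  (k4 2256)) (sy 1751176)))) (br (br (br (br (br (br (lf 1616664) (lf 1645336)) (br (lf 1616104) (lf 468741))) 
  (br (br (lf 1651552) (sy 559923)) (br (lf 1615712) (k4 1672)))) (br (br (br (lf 1616664) (sy 579782)) 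
  (sy 1751176)) (sy 1751176))) (br (br (br (br (lf 1623363) (k4 2177)) (k4 2248)) (br (br (lf 1655619) (k4 2177))
   (k4 2248))) (br (br (br (sy 346864) (k4 2177)) (k4 2248)) (sy 1751176)))) (br (br (br (br (br (lf 1714776) 
  (k4 2114)) (br (lf 1644888) (k4 2114))) (k4 2256)) (br (br (br (lf 1655528) (k4 2114)) (br (sy 342832) 
  (k4 1665))) (k4 2256))) (k4 1092))))) (k4 3353)) (br (br (br (br (br (br (br (br (br (lf 1659672) (lf 1645336)) 
  (sy 1751176)) (sy 1751176)) (sy 1751176)) (br (br (br (br (lf 1644888) (lf 1616643)) (br (lf 1616664) 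
  (lf 469224))) (sy 1751176)) (sy 1751176))) (br (br (br (br (br (lf 1661128) (lf 1660995)) (br (lf 1657432) 
  (sy 531755))) (k4 2242)) (sy 1751176)) (br (br (br (br (lf 1657411) (k4 2184)) (br (lf 1623083) (k4 2184))) 
  (k4 2242)) (sy 1751176)))) (br (br (br (br (br (br (lf 1645336) (sy 577843)) (br (lf 1616216) (sy 559923))) (br 
  (br (lf 733992) (sy 559923)) (br (lf 1651496) (k4 1672)))) (k4 2250)) (br (br (br (br (lf 1616216) (k4 2177)) 
  (br (sy 417949) (k4 2177))) (br (br (lf 1644888) (k4 2177)) (br (sy 417949) (k4 1672)))) (k4 2250))) (br (br 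
  (br (br (br (lf 1655640) (k4 2114)) (br (lf 1644776) (k4 2114))) (k4 2242)) (k4 2250)) (k4 1092)))) (br (br (br 
  (br (br (br (br (lf 1747144) (lf 1645336)) (sy 1751176)) (k4 2179)) (sy 1751176)) (br (br (br (br (lf 1709736) 
  (lf 1709099)) (k4 2248)) (k4 2179)) (sy 1751176))) (k4 1668)) (br (br (br (br (br (br (lf 1712872) (sy 577843))
   (br (lf 1709288) (sy 559923))) (k4 2179)) (k4 2250)) (br (br (br (br (sy 1089949) (k4 2177)) (k4 2248)) 
  (k4 2179)) (k4 2250))) (k4 1668)))) (k4 3353))) (br (br (br (br (br (br (br (br (br (br (lf 1741859) (k4 2689)) 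
  (sy 1751176)) (sy 1751176)) (sy 1751176)) (br (br (br (br (lf 1741075) (k4 2689)) (br (lf 479514) (k4 2689))) 
  (sy 1751176)) (sy 1751176))) (br (br (br (br (br (lf 1741859) (k4 2689)) (br (lf 1627164) (k4 2689))) (br (br 
  (lf 1659427) (k4 2689)) (sy 1751176))) (sy 1751176)) (br (br (br (br (lf 1742867) (k4 2184)) (br (sy 280434) 
  (k4 2184))) (br (br (lf 1639267) (k4 2184)) (br (sy 280434) (k4 1672)))) (sy 1751176)))) (br (br (br (br (br (br 
  (lf 1627416) (k4 2689)) (br (lf 1627395) (k4 2689))) (br (br (lf 1745632) (k4 2689)) (br (lf 480452) (k4 1672)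
  ))) (br (br (br (lf 480536) (k4 2689)) (sy 1751176)) (sy 1751176))) (br (br (br (br (lf 1627395) (k4 2177)) (br 
  (sy 281330) (k4 2177))) (br (br (lf 469539) (k4 2177)) (br (sy 281330) (k4 1672)))) (br (br (br (sy 346864) 
  (k4 2177)) (br (sy 346864) (k4 1665))) (sy 1751176)))) (br (br (br (br (br (lf 1745667) (k4 2114)) (br 
  (lf 480291) (k4 2114))) (br (br (lf 727811) (k4 2114)) (br (lf 727587) (k4 1672)))) (br (br (br (sy 345968) 
  (k4 2114)) (br (sy 342832) (k4 1665))) (br (br (sy 542605) (k4 1602)) (k4 1091)))) (k4 1092)))) (br (br (br (br 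
  (br (br (br (lf 1741859) (k4 2689)) (sy 1751176)) (sy 1751176)) (sy 1751176)) (br (br (br (br (lf 1742867) 
  (k4 2689)) (k4 2248)) (sy 1751176)) (sy 1751176))) (br (br (br (br (br (lf 1737995) (k4 2689)) (br (lf 1579795)
   (k4 2689))) (k4 2256)) (sy 1751176)) (br (br (br (br (lf 1724499) (k4 2184)) (k4 2248)) (k4 2256)) 
  (sy 1751176)))) (br (br (br (br (br (br (lf 1742979) (k4 2689)) (br (lf 1627395) (k4 2689))) (br (br (lf 1627332)
   (k4 2689)) (br (lf 480900) (k4 1672)))) (br (br (br (lf 480536) (k4 2689)) (sy 1751176)) (sy 1751176))) (br 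
  (br (br (br (sy 394667) (k4 2177)) (k4 2248)) (br (br (sy 394667) (k4 2177)) (k4 2248))) (br (br (br (sy 346864) 
  (k4 2177)) (k4 2248)) (sy 1751176)))) (br (br (br (br (br (lf 1745667) (k4 2114)) (br (lf 479395) (k4 2114))) 
  (k4 2256)) (br (br (br (sy 345968) (k4 2114)) (br (sy 342832) (k4 1665))) (k4 2256))) (k4 1092))))) (k4 3353))
   (br (br (br (br (br (br (br (br (br (lf 1745688) (k4 2689)) (sy 1751176)) (sy 1751176)) (sy 1751176)) (br (br (br 
  (br (lf 1742104) (k4 2689)) (br (lf 1628354) (k4 2689))) (sy 1751176)) (sy 1751176))) (br (br (br (br (br 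
  (lf 1660995) (k4 2689)) (br (lf 1627416) (k4 2689))) (k4 2242)) (sy 1751176)) (br (br (br (br (lf 1747011) 
  (k4 2184)) (br (sy 280434) (k4 2184))) (k4 2242)) (sy 1751176)))) (br (br (br (br (br (br (lf 1745688) (k4 2689)
  ) (br (lf 1627360) (k4 2689))) (br (br (lf 727832) (k4 2689)) (br (lf 1615712) (k4 1672)))) (k4 2250)) (br (br 
  (br (br (sy 401835) (k4 2177)) (br (sy 281330) (k4 2177))) (br (br (sy 401835) (k4 2177)) (br (sy 281330) 
  (k4 1672)))) (k4 2250))) (br (br (br (br (br (lf 738115) (k4 2114)) (br (lf 1644867) (k4 2114))) (k4 2242)) 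
  (k4 2250)) (k4 1092)))) (br (br (br (br (br (br (br (lf 1742104) (k4 2689)) (sy 1751176)) (k4 2179)) 
  (sy 1751176)) (br (br (br (br (lf 1628312) (k4 2689)) (k4 2248)) (k4 2179)) (sy 1751176))) (k4 1668)) (br (br 
  (br (br (br (br (lf 1627416) (k4 2689)) (br (lf 481432) (k4 2689))) (k4 2179)) (k4 2250)) (br (br (br (br 
  (sy 401835) (k4 2177)) (k4 2248)) (k4 2179)) (k4 2250))) (k4 1668)))) (k4 3353)))) (k4 3394))) (sy 1751176)
  ) (k4 3403)) (k4 3285)) (br (br (br (br (br (br (br (br (br (br (br (br (br (br (br (br (lf 1753171) (lf 1741075)) (br 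
  (lf 1737498) (lf 1579683))) (br (br (lf 1738401) (lf 1583883)) (br (lf 1587978) (k4 1672)))) (br (br (br 
  (lf 1754200) (lf 1616412)) (br (lf 1620500) (k4 1665))) (br (br (lf 1746444) (k4 1602)) (k4 1091)))) (br (br 
  (br (br (lf 1724506) (lf 1704787)) (br (lf 1706586) (lf 1579795))) (br (br (lf 1706579) (lf 1589931)) (br 
  (lf 1585962) (k4 1672)))) (br (br (br (lf 1725136) (lf 1623363)) (br (lf 1624770) (k4 1665))) (br (br 
  (lf 1713733) (k4 1602)) (k4 1091))))) (br (br (br (br (br (lf 1754123) (lf 1754123)) (br (lf 1591898) 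
  (lf 1583435))) (br (br (lf 1640793) (sy 551117)) (br (lf 1583337) (k4 1672)))) (br (br (br (lf 1657432) 
  (lf 1659147)) (br (lf 1677445) (k4 1665))) (br (br (lf 1655129) (k4 1602)) (k4 1091)))) (br (br (br (br 
  (lf 1706635) (k4 2184)) (br (lf 1706579) (k4 2184))) (br (br (sy 85225) (k4 2184)) (br (sy 85225) (k4 1672))))
   (br (br (br (lf 1710611) (k4 2184)) (br (lf 1608019) (k4 1665))) (br (br (sy 85225) (k4 1602)) (k4 1091)))))) 
  (br (br (br (br (br (br (lf 1725528) (lf 1747011)) (br (lf 1742867) (lf 1622355))) (br (br (lf 1657355) 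
  (lf 1641227)) (br (lf 1677445) (k4 1672)))) (br (br (br (lf 1714776) (lf 1616216)) (br (lf 1623720) (k4 1665))
  ) (br (br (lf 1651496) (k4 1602)) (k4 1091)))) (br (br (br (br (lf 1710611) (k4 2177)) (br (lf 1622362) 
  (k4 2177))) (br (br (lf 1708371) (k4 2177)) (br (lf 1590099) (k4 1672)))) (br (br (br (lf 1623384) (k4 2177)) 
  (br (sy 418845) (k4 1665))) (br (br (lf 1655619) (k4 1602)) (k4 1091))))) (br (br (br (br (br (lf 1714699) 
  (k4 2114)) (br (lf 1708371) (k4 2114))) (br (br (lf 1714713) (k4 2114)) (br (lf 1705193) (k4 1672)))) (br (br 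
  (br (lf 1714755) (k4 2114)) (br (lf 1616216) (k4 1665))) (br (br (lf 739137) (k4 1602)) (k4 1091)))) (k4 1092)
  ))) (br (br (br (br (br (br (br (lf 1754641) (lf 1592017)) (br (lf 1753290) (lf 1578794))) (br (br (lf 1673553) 
  (lf 1590505)) (br (lf 1587537) (k4 1672)))) (br (br (br (lf 1690192) (lf 1616069)) (br (lf 1693762) (k4 1665))
  ) (br (br (lf 1681729) (k4 1602)) (k4 1091)))) (br (br (br (br (lf 1706586) (lf 1706579)) (k4 2248)) (br (br 
  (lf 1706698) (lf 213661)) (k4 2248))) (br (br (br (lf 1710618) (lf 1590106)) (k4 2248)) (br (br (lf 1673546) 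
  (k4 1602)) (k4 1091))))) (br (br (br (br (br (lf 1706705) (sy 142065)) (br (lf 1706705) (sy 142065))) (k4 2256)
  ) (br (br (br (lf 1716561) (sy 142065)) (br (lf 1705809) (k4 1665))) (k4 2256))) (sy 1070734))) (br (br (br (br 
  (br (br (lf 1726081) (lf 1709099)) (br (lf 1718850) (lf 1579347))) (br (br (lf 1713985) (lf 1640793)) (br 
  (lf 1687889) (k4 1672)))) (br (br (br (lf 1709904) (lf 1644776)) (br (lf 1688232) (k4 1665))) (br (br 
  (lf 1717261) (k4 1602)) (k4 1091)))) (sy 1055474)) (br (br (br (br (br (lf 1246553) (k4 2114)) (br (lf 1246315)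
   (k4 2114))) (k4 2256)) (br (br (br (lf 1713992) (k4 2114)) (br (lf 1705557) (k4 1665))) (k4 2256))) (k4 1092)
  )))) (k4 3353)) (br (br (br (br (br (br (br (br (br (lf 1754760) (lf 1657369)) (br (lf 1690129) (lf 1615621))) 
  (br (br (lf 1751169) (lf 1640793)) (br (lf 1673553) (k4 1672)))) (br (br (br (lf 1656648) (lf 1644384)) (br 
  (lf 1677984) (k4 1665))) (br (br (lf 1653064) (k4 1602)) (k4 1091)))) (br (br (br (br (lf 1725633) (lf 1712963)
  ) (br (lf 1709890) (lf 1579354))) (br (br (lf 1712361) (lf 1640793)) (br (lf 1591114) (k4 1672)))) (br (br (br 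
  (lf 1726088) (lf 1623083)) (br (lf 1688232) (k4 1665))) (br (br (lf 1653057) (k4 1602)) (k4 1091))))) (br (br 
  (br (br (br (lf 1725465) (lf 1714713)) (br (lf 1705641) (lf 1590617))) (k4 2242)) (br (br (br (lf 1713992) 
  (lf 738024)) (br (lf 1713992) (k4 1665))) (k4 2242))) (br (br (br (br (lf 1246553) (k4 2184)) (br (sy 1055411) 
  (k4 2184))) (k4 2242)) (br (br (br (lf 1254232) (k4 2184)) (br (sy 1055411) (k4 1665))) (k4 2242))))) (br (br 
  (br (br (br (br (lf 1725528) (lf 1712963)) (br (lf 1725080) (lf 1644776))) (br (br (lf 1656648) (lf 737821)) 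
  (br (lf 1688897) (k4 1672)))) (k4 2250)) (br (br (br (br (lf 1266328) (k4 2177)) (br (sy 1106091) (k4 2177))) 
  (br (br (lf 1253609) (k4 2177)) (br (sy 1106091) (k4 1672)))) (k4 2250))) (br (br (br (br (br (lf 1255961) 
  (k4 2114)) (br (lf 1255961) (k4 2114))) (k4 2242)) (k4 2250)) (k4 1092)))) (br (br (br (br (br (br (br 
  (lf 1725969) (lf 1705809)) (br (lf 1716554) (lf 1716561))) (k4 2179)) (br (br (br (lf 1688904) (lf 1713985)) 
  (br (lf 999509) (k4 1665))) (k4 2179))) (br (br (br (br (lf 1247953) (sy 1055474)) (k4 2248)) (k4 2179)) (br 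
  (br (br (lf 1717317) (sy 1055474)) (k4 2248)) (k4 2179)))) (k4 1668)) (br (br (br (br (br (br (lf 1266881) 
  (lf 1253483)) (br (lf 1257578) (lf 1717261))) (k4 2179)) (k4 2250)) (sy 1055474)) (k4 1668)))) (k4 3353))) 
  (br (br (br (br (br (br (br (br (br (br (lf 1737491) (lf 1737379)) (br (lf 1741026) (lf 1579683))) (br (br 
  (lf 1738905) (lf 1737379)) (br (lf 1594082) (k4 1672)))) (br (br (br (lf 1742356) (lf 1626275)) (br 
  (lf 1741026) (k4 1665))) (br (br (lf 1746444) (k4 1602)) (k4 1091)))) (k4 2824)) (br (br (br (br (br 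
  (lf 1738835) (lf 1595475)) (br (lf 1737491) (sy 73003))) (br (br (lf 1737995) (sy 551117)) (br (lf 1595594) 
  (k4 1672)))) (br (br (br (lf 1754179) (lf 1645091)) (br (lf 1594012) (k4 1665))) (br (br (lf 1594467) (k4 1602)
  ) (k4 1091)))) (k4 2824))) (br (br (br (br (br (br (lf 1742867) (lf 1742979)) (br (lf 1626394) (lf 1608355))) 
  (br (br (lf 1738891) (lf 1658979)) (br (lf 1608355) (k4 1672)))) (br (br (br (lf 1743000) (lf 469539)) (br 
  (lf 1626394) (k4 1665))) (br (br (lf 1659427) (k4 1602)) (k4 1091)))) (k4 2824)) (br (br (br (br (br 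
  (lf 1725451) (k4 2114)) (br (lf 1622355) (k4 2114))) (br (br (lf 1659147) (k4 2114)) (br (lf 1595475) 
  (k4 1672)))) (br (br (br (lf 1627395) (k4 2114)) (br (lf 480291) (k4 1665))) (br (br (lf 741643) (k4 1602)) 
  (k4 1091)))) (k4 1092)))) (br (br (br (br (br (br (br (lf 1753290) (lf 1738835)) (br (lf 1738842) (sy 47782))) 
  (br (br (lf 1595153) (lf 1595545)) (br (lf 1587978) (k4 1672)))) (br (br (br (lf 1754690) (lf 1608404)) (br 
  (lf 1673826) (k4 1665))) (br (br (lf 1587810) (k4 1602)) (k4 1091)))) (k4 2824)) (br (br (br (br (br 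
  (lf 1592010) (sy 142065)) (br (lf 219338) (sy 142065))) (k4 2256)) (br (br (br (lf 1595482) (sy 142065)) (br 
  (lf 219338) (k4 1665))) (k4 2256))) (k4 2824))) (br (br (br (br (br (br (lf 1753171) (lf 1706579)) (br 
  (lf 1590106) (sy 47782))) (br (br (lf 1595594) (lf 1595475)) (br (sy 104622) (k4 1672)))) (br (br (br 
  (lf 1710744) (lf 1607011)) (br (sy 386085) (k4 1665))) (br (br (lf 1619205) (k4 1602)) (k4 1091)))) (k4 2824)
  ) (br (br (br (br (br (lf 1724555) (k4 2114)) (br (sy 153230) (k4 2114))) (k4 2256)) (br (br (br (lf 1245867) 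
  (k4 2114)) (br (sy 386085) (k4 1665))) (k4 2256))) (k4 1092))))) (k4 3353)) (br (br (br (br (br (br (br (br (br 
  (lf 1753626) (lf 1745667)) (br (lf 1742594) (lf 1608474))) (br (br (lf 1746689) (lf 1594460)) (br 
  (lf 1587978) (k4 1672)))) (br (br (br (lf 1754704) (lf 1659427)) (br (lf 1627808) (k4 1665))) (br (br 
  (lf 1750280) (k4 1602)) (k4 1091)))) (k4 2824)) (br (br (br (br (br (lf 1724569) (lf 1660939)) (br (lf 1595601)
   (sy 73003))) (k4 2242)) (br (br (br (lf 1660939) (sy 541597)) (br (lf 1655129) (k4 1665))) (k4 2242))) 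
  (k4 2824))) (br (br (br (br (br (br (lf 1754200) (lf 1725507)) (br (lf 1710744) (lf 479507))) (br (br 
  (lf 1661016) (lf 741643)) (br (lf 1716869) (k4 1672)))) (k4 2250)) (k4 2824)) (br (br (br (br (br (lf 1266755) 
  (k4 2114)) (br (lf 1246315) (k4 2114))) (k4 2242)) (k4 2250)) (k4 1092)))) (br (br (br (br (br (br (br 
  (lf 1724625) (lf 1595482)) (br (lf 1738954) (lf 1579802))) (k4 2179)) (br (br (br (lf 1693832) (lf 1676549)) 
  (br (sy 820645) (k4 1665))) (k4 2179))) (k4 2824)) (k4 1668)) (br (br (br (br (br (br (lf 1724506) (lf 1250627))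
   (br (lf 1251138) (sy 47782))) (k4 2179)) (k4 2250)) (k4 2824)) (k4 1668)))) (k4 3353)))) (k4 3394)) (br (br 
  (br (br (br (br (br (br (br (br (br (br (lf 1754200) (lf 1741859)) (br (lf 1742020) (lf 1627171))) (br (br 
  (lf 1746500) (lf 1745443)) (br (lf 1749132) (k4 1672)))) (br (br (br (lf 1742104) (lf 1659672)) (br 
  (lf 1742496) (k4 1665))) (br (br (lf 1659588) (k4 1602)) (k4 1091)))) (br (br (br (br (lf 1742979) (lf 1741859)
  ) (br (lf 1628179) (lf 479507))) (br (br (lf 1753227) (lf 1744995)) (br (lf 1608474) (k4 1672)))) (br (br (br 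
  (lf 1627395) (lf 469539)) (br (lf 1626268) (k4 1665))) (br (br (lf 1627416) (k4 1602)) (k4 1091))))) (br (br 
  (br (br (br (lf 1754179) (lf 1660939)) (br (lf 1738891) (lf 1616419))) (br (br (lf 1660939) (sy 551117)) (br 
  (lf 1641059) (k4 1672)))) (br (br (br (lf 1661016) (sy 531755)) (br (lf 1742104) (k4 1665))) (br (br 
  (lf 743008) (k4 1602)) (k4 1091)))) (br (br (br (br (lf 1724555) (k4 2184)) (br (lf 1724947) (k4 2184))) (br 
  (br (sy 85225) (k4 2184)) (br (sy 85225) (k4 1672)))) (br (br (br (lf 1742083) (k4 2184)) (br (lf 479507) 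
  (k4 1665))) (br (br (sy 85225) (k4 1602)) (k4 1091)))))) (br (br (br (br (br (br (lf 1754179) (lf 1627395)) (br 
  (lf 1628312) (lf 469539))) (br (br (lf 1659651) (sy 559923)) (br (lf 1627360) (k4 1672)))) (br (br (br 
  (lf 1659672) (sy 579782)) (br (sy 342832) (k4 1665))) (br (br (lf 727832) (k4 1602)) (k4 1091)))) (br (br (br 
  (br (lf 1753731) (k4 2177)) (br (sy 417949) (k4 2177))) (br (br (lf 1742979) (k4 2177)) (br (sy 417949) 
  (k4 1672)))) (br (br (br (sy 346864) (k4 2177)) (br (sy 346864) (k4 1665))) (br (br (sy 346864) (k4 1602)) 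
  (k4 1091))))) (br (br (br (br (br (lf 1747011) (k4 2114)) (br (lf 1742083) (k4 2114))) (br (br (lf 739851) 
  (k4 2114)) (br (lf 737611) (k4 1672)))) (br (br (br (lf 1659672) (k4 2114)) (br (sy 342832) (k4 1665))) (br (br 
  (sy 542605) (k4 1602)) (k4 1091)))) (k4 1092)))) (br (br (br (br (br (br (br (lf 1753178) (lf 1745163)) (br 
  (lf 1749762) (lf 1608355))) (br (br (lf 1754641) (lf 1583708)) (br (lf 1691746) (k4 1672)))) (br (br (br 
  (lf 1745632) (lf 1627171)) (br (lf 1627920) (k4 1665))) (br (br (lf 1653505) (k4 1602)) (k4 1091)))) (br (br 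
  (br (br (lf 1753171) (lf 1738835)) (k4 2248)) (br (br (lf 1595545) (lf 1594467)) (k4 2248))) (br (br (br 
  (lf 1624602) (lf 1626275)) (k4 2248)) (br (br (lf 1578794) (k4 1602)) (k4 1091))))) (br (br (br (br (br 
  (lf 1753227) (sy 142065)) (br (lf 1595475) (sy 142065))) (k4 2256)) (br (br (br (lf 1661121) (sy 142065)) (br 
  (lf 1583708) (k4 1665))) (k4 2256))) (sy 1070734))) (br (br (br (br (br (br (lf 1754179) (lf 1745667)) (br 
  (lf 1710800) (lf 1608467))) (br (br (lf 1714713) (sy 559923)) (br (lf 1578283) (k4 1672)))) (br (br (br 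
  (lf 1623384) (sy 579782)) (br (sy 342832) (k4 1665))) (br (br (lf 1655528) (k4 1602)) (k4 1091)))) 
  (sy 1055474)) (br (br (br (br (br (lf 1255947) (k4 2114)) (br (lf 1253483) (k4 2114))) (k4 2256)) (br (br (br 
  (lf 1141315) (k4 2114)) (br (sy 342832) (k4 1665))) (k4 2256))) (k4 1092))))) (k4 3353)) (br (br (br (br (br 
  (br (br (br (br (lf 1754312) (lf 1660995)) (br (lf 1754312) (lf 1627416))) (br (br (lf 1746689) (lf 743435)) 
  (br (lf 1692936) (k4 1672)))) (br (br (br (lf 1745632) (lf 742112)) (br (lf 1692768) (k4 1665))) (br (br 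
  (lf 743008) (k4 1602)) (k4 1091)))) (br (br (br (br (lf 1725528) (lf 1747011)) (br (lf 1710744) (lf 479507))) 
  (br (br (lf 1714776) (lf 721763)) (br (lf 1620101) (k4 1672)))) (br (br (br (lf 1627416) (sy 559860)) (br 
  (sy 385189) (k4 1665))) (br (br (lf 1652840) (k4 1602)) (k4 1091))))) (br (br (br (br (br (lf 1754200) 
  (lf 739907)) (br (lf 1714776) (sy 531755))) (k4 2242)) (br (br (br (lf 739928) (sy 531755)) (br (lf 733992) 
  (k4 1665))) (k4 2242))) (br (br (br (br (lf 1255947) (k4 2184)) (br (lf 1246315) (k4 2184))) (k4 2242)) (br (br 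
  (br (lf 1712963) (k4 2184)) (br (lf 738024) (k4 1665))) (k4 2242))))) (br (br (br (br (br (br (lf 1661016) 
  (lf 1644867)) (br (lf 1725528) (sy 559923))) (br (br (lf 739928) (sy 559923)) (br (lf 738024) (k4 1672)))) 
  (k4 2250)) (br (br (br (br (lf 1712984) (k4 2177)) (br (sy 1106091) (k4 2177))) (br (br (lf 738136) (k4 2177)) 
  (br (sy 1106091) (k4 1672)))) (k4 2250))) (br (br (br (br (br (lf 1256024) (k4 2114)) (br (lf 1256003) (k4 2114)
  )) (k4 2242)) (k4 2250)) (k4 1092)))) (br (br (br (br (br (br (br (lf 1754760) (lf 1714776)) (br (lf 1693832) 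
  (lf 1620101))) (k4 2179)) (br (br (br (lf 1693832) (lf 1644776)) (br (lf 1692768) (k4 1665))) (k4 2179))) (br 
  (br (br (br (lf 1266699) (lf 1246035)) (k4 2248)) (k4 2179)) (br (br (br (lf 1251152) (sy 559860)) (k4 2248)) 
  (k4 2179)))) (k4 1668)) (br (br (br (br (br (br (lf 1256136) (lf 738136)) (br (lf 1250648) (sy 559923))) 
  (k4 2179)) (k4 2250)) (sy 1055474)) (k4 1668)))) (k4 3353))) (br (br (br (br (br (br (br (br (br (br (lf 1742083) 
  (k4 2689)) (br (lf 1511587) (k4 2689))) (br (br (lf 1508451) (k4 2689)) (br (lf 1511636) (k4 1672)))) (br (br 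
  (br (lf 1742020) (k4 2689)) (br (lf 1742020) (k4 1665))) (br (br (lf 1512644) (k4 1602)) (k4 1091)))) 
  (k4 2824)) (br (br (br (br (br (lf 1742083) (k4 2689)) (br (lf 1511699) (k4 2689))) (br (br (lf 1515619) 
  (k4 2689)) (br (lf 217763) (k4 1672)))) (br (br (br (lf 1745667) (k4 2689)) (br (lf 1740956) (k4 1665))) (br 
  (br (lf 1659427) (k4 1602)) (k4 1091)))) (k4 2824))) (br (br (br (br (br (br (lf 1512707) (k4 2689)) (br 
  (lf 481411) (k4 2689))) (br (br (lf 1745443) (k4 2689)) (br (lf 1740963) (k4 1672)))) (br (br (br (lf 1627395) 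
  (k4 2689)) (br (sy 342832) (k4 1665))) (br (br (lf 1616664) (k4 1602)) (k4 1091)))) (k4 2824)) (br (br (br (br 
  (br (lf 1512707) (k4 2114)) (br (lf 1742083) (k4 2114))) (br (br (lf 712971) (k4 2114)) (br (lf 203427) 
  (k4 1672)))) (br (br (br (lf 480515) (k4 2114)) (br (sy 342832) (k4 1665))) (br (br (sy 542605) (k4 1602)) 
  (k4 1091)))) (k4 1092)))) (br (br (br (br (br (br (br (lf 1509459) (k4 2689)) (br (lf 1511650) (k4 2689))) (br 
  (br (lf 1737995) (k4 2689)) (br (lf 1508948) (k4 1672)))) (br (br (br (lf 1512644) (k4 2689)) (br (lf 1511636) 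
  (k4 1665))) (br (br (lf 1737428) (k4 1602)) (k4 1091)))) (k4 2824)) (br (br (br (br (br (lf 1753171) (k4 2689)) 
  (br (lf 189203) (k4 2689))) (k4 2256)) (br (br (br (lf 1524747) (k4 2689)) (br (lf 1368227) (k4 1665))) 
  (k4 2256))) (k4 2824))) (br (br (br (br (br (br (lf 1753619) (k4 2689)) (br (lf 1626387) (k4 2689))) (br (br 
  (lf 1508619) (k4 2689)) (br (lf 1508003) (k4 1672)))) (br (br (br (lf 1742104) (k4 2689)) (br (sy 342832) 
  (k4 1665))) (br (br (lf 713496) (k4 1602)) (k4 1091)))) (k4 2824)) (br (br (br (br (br (lf 1237131) (k4 2114)) 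
  (br (lf 1579795) (k4 2114))) (k4 2256)) (br (br (br (lf 713475) (k4 2114)) (br (sy 342832) (k4 1665))) 
  (k4 2256))) (k4 1092))))) (k4 3353)) (br (br (br (br (br (br (br (br (br (lf 1524803) (k4 2689)) (br (lf 1511699) 
  (k4 2689))) (br (br (lf 1745163) (k4 2689)) (br (lf 1745604) (k4 1672)))) (br (br (br (lf 1512728) (k4 2689)) 
  (br (lf 1627808) (k4 1665))) (br (br (lf 714336) (k4 1602)) (k4 1091)))) (k4 2824)) (br (br (br (br (br 
  (lf 1517635) (k4 2689)) (br (lf 1508619) (k4 2689))) (k4 2242)) (br (br (br (lf 1402968) (k4 2689)) (br 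
  (lf 1512707) (k4 1665))) (k4 2242))) (k4 2824))) (br (br (br (br (br (br (lf 1524824) (k4 2689)) (br 
  (lf 1742104) (k4 2689))) (br (br (lf 1401624) (k4 2689)) (br (lf 1516291) (k4 1672)))) (k4 2250)) (k4 2824)) 
  (br (br (br (br (br (lf 1754179) (k4 2114)) (br (lf 415107) (k4 2114))) (k4 2242)) (k4 2250)) (k4 1092)))) (br 
  (br (br (br (br (br (br (lf 1523851) (k4 2689)) (br (lf 1753794) (k4 2689))) (k4 2179)) (br (br (br (lf 1745688) 
  (k4 2689)) (br (sy 369068) (k4 1665))) (k4 2179))) (k4 2824)) (k4 1668)) (br (br (br (br (br (br (lf 1725059) 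
  (k4 2689)) (br (lf 1753752) (k4 2689))) (k4 2179)) (k4 2250)) (k4 2824)) (k4 1668)))) (k4 3353)))) (k4 3394)
  )) (br (br (br (br (br (br (br (br (br (br (br (br (br (lf 1754634) (lf 1738961)) (sy 1751176)) (sy 1751176)) 
  (sy 1751176)) (br (br (br (br (lf 1738842) (lf 1594138)) (br (lf 1594138) (lf 217882))) (sy 1751176)) 
  (sy 1751176))) (br (br (br (br (br (lf 1738905) (lf 1594635)) (br (lf 1738961) (lf 1595531))) (br (br 
  (lf 1595601) (sy 551117)) (sy 1751176))) (sy 1751176)) (br (br (br (br (lf 1724506) (k4 2184)) (br 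
  (lf 1592010) (k4 2184))) (br (br (sy 85225) (k4 2184)) (br (sy 85225) (k4 1672)))) (sy 1751176)))) (br (br (br 
  (br (br (br (lf 1753619) (lf 1742083)) (br (lf 1749762) (lf 1579746))) (br (br (lf 1751169) (lf 1737820)) (br 
  (lf 1738506) (k4 1672)))) (br (br (br (lf 1747144) (lf 1659427)) (sy 1751176)) (sy 1751176))) (br (br (br (br 
  (lf 1753178) (k4 2177)) (br (lf 1590106) (k4 2177))) (br (br (lf 1753227) (k4 2177)) (br (lf 203098) (k4 1672)
  ))) (br (br (br (lf 1743056) (k4 2177)) (br (sy 418845) (k4 1665))) (sy 1751176)))) (br (br (br (br (br 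
  (lf 1753241) (k4 2114)) (br (lf 1738842) (k4 2114))) (br (br (lf 1640793) (k4 2114)) (br (sy 81193) (k4 1672))
  )) (br (br (br (lf 1754137) (k4 2114)) (br (lf 1658972) (k4 1665))) (br (br (lf 739137) (k4 1602)) (k4 1091))))
   (k4 1092)))) (k4 2840)) (k4 3353)) (br (br (br (br (br (br (br (br (br (lf 1754641) (lf 1738961)) (sy 1751176)) 
  (sy 1751176)) (sy 1751176)) (br (br (br (br (lf 1753290) (lf 1738961)) (br (lf 1591114) (lf 217882))) 
  (sy 1751176)) (sy 1751176))) (br (br (br (br (br (lf 1754137) (lf 1640793)) (br (lf 1691921) (lf 1595601))) 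
  (k4 2242)) (sy 1751176)) (br (br (br (br (lf 1265817) (k4 2184)) (br (sy 1069747) (k4 2184))) (k4 2242)) 
  (sy 1751176)))) (br (br (br (br (br (br (lf 1725640) (lf 1747137)) (br (lf 1718864) (lf 1717569))) (br (br 
  (lf 1754305) (lf 723681)) (br (lf 999761) (k4 1672)))) (k4 2250)) (br (br (br (br (lf 1265866) (k4 2177)) (br 
  (lf 1266370) (k4 2177))) (br (br (lf 1266713) (k4 2177)) (br (sy 807604) (k4 1672)))) (k4 2250))) (br (br (br 
  (br (br (lf 1266713) (k4 2114)) (br (lf 1246441) (k4 2114))) (k4 2242)) (k4 2250)) (k4 1092)))) (k4 2840)) 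
  (k4 3353))) (br (br (br (br (br (br (br (br (br (br (lf 1509578) (lf 1737498)) (k4 2760)) (sy 1751176)) 
  (sy 1751176)) (k4 2824)) (br (br (br (br (br (lf 1738891) (lf 219275)) (k4 2760)) (br (br (lf 1594649) 
  (sy 551117)) (k4 2760))) (sy 1751176)) (k4 2824))) (br (br (br (br (br (br (lf 1741082) (lf 1511587)) (k4 2760)
  ) (br (br (lf 1738380) (lf 189084)) (k4 2760))) (br (br (br (lf 1513666) (lf 1740963)) (k4 2760)) (sy 1751176)
  )) (k4 2824)) (br (br (br (br (br (lf 1523851) (k4 2114)) (k4 2760)) (br (br (lf 218393) (k4 2114)) (k4 2760))) 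
  (br (br (br (lf 1511587) (k4 2114)) (k4 2760)) (br (br (lf 189539) (k4 1602)) (k4 1091)))) (k4 1092)))) 
  (k4 2840)) (k4 3353)) (br (br (br (br (br (br (br (br (br (lf 1738954) (lf 1737498)) (k4 2760)) (sy 1751176)) 
  (sy 1751176)) (k4 2824)) (br (br (br (br (br (lf 1523921) (lf 218393)) (k4 2760)) (k4 2242)) (sy 1751176)) 
  (k4 2824))) (br (br (br (br (br (br (lf 1753626) (lf 1509515)) (k4 2760)) (br (br (lf 1509137) (lf 189665)) 
  (k4 2760))) (k4 2250)) (k4 2824)) (br (br (br (br (br (lf 1266699) (k4 2114)) (k4 2760)) (k4 2242)) (k4 2250)) 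
  (k4 1092)))) (k4 2840)) (k4 3353)))) (k4 3394)) (br (br (br (br (br (br (br (br (br (br (br (br (lf 1525384) 
  (lf 1740963)) (sy 1751176)) (sy 1521793)) (sy 1751176)) (br (br (br (br (lf 1511706) (lf 1511699)) (br 
  (lf 1511706) (lf 450842))) (sy 1521793)) (sy 1751176))) (sy 1525377)) (br (br (br (br (br (br (lf 1747011) 
  (lf 1741859)) (br (lf 1512707) (lf 1740956))) (br (br (lf 1746696) (sy 559923)) (sy 1521793))) (br (br (br 
  (lf 1512728) (sy 579782)) (sy 1751176)) (sy 1751176))) (br (br (br (br (lf 1742867) (k4 2177)) (br 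
  (lf 1741082) (k4 2177))) (br (br (lf 1737379) (k4 2177)) (br (lf 60186) (k4 1672)))) (br (br (br (sy 346864) 
  (k4 2177)) (br (sy 346864) (k4 1665))) (sy 1751176)))) (br (br (br (br (br (lf 1524803) (k4 2114)) (br 
  (lf 1511699) (k4 2114))) (sy 1525377)) (br (br (br (lf 713496) (k4 2114)) (br (sy 342832) (k4 1665))) (br (br 
  (sy 542605) (k4 1602)) (k4 1091)))) (k4 1092)))) (k4 2840)) (k4 3353)) (br (br (br (br (br (br (br (br (br 
  (lf 1525384) (lf 1745443)) (sy 1751176)) (sy 1521793)) (sy 1751176)) (br (br (br (br (lf 1524250) 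
  (lf 1524803)) (br (lf 1525314) (lf 450842))) (sy 1521793)) (sy 1751176))) (sy 1525377)) (br (br (br (br (br 
  (br (lf 1754200) (lf 713475)) (br (lf 1743000) (lf 742168))) (br (br (lf 1746696) (sy 559923)) (sy 1521793)))
   (k4 2250)) (br (br (br (br (lf 1725080) (k4 2177)) (br (lf 1266328) (k4 2177))) (br (br (lf 1524929) (k4 2177))
   (br (lf 938882) (k4 1672)))) (k4 2250))) (br (br (br (br (br (lf 1137731) (k4 2114)) (br (lf 1524803) (k4 2114)
  )) (k4 2242)) (k4 2250)) (k4 1092)))) (k4 2840)) (k4 3353))) (sy 1525377)) (k4 3394)))) (k4 3403)) 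
  (k4 3285))) (k4 3404)) (k4 3349)) (k4 3357))

theorem t22_ok : check RT t22 20 28818 = true := by decide +kernel

def t23 : Cert :=
  (br (br (br (br (br (br (br (br (br (br (br (br (br (br (br (br (br (br (br (br (lf 1628368) (k4 3208)) (k4 3265)) 
  (sy 1751176)) (sy 1751176)) (k4 3329)) (br (br (br (br (br (lf 1583435) (k4 3208)) (k4 3265)) (br (br 
  (lf 1583337) (k4 3208)) (k4 3265))) (sy 1751176)) (k4 3329))) (br (br (sy 1623594) (k4 3329)) (br 
  (sy 1623594) (k4 1092)))) (br (br (br (br (br (br (br (sy 1623594) (k4 3208)) (k4 3265)) (sy 1751176)) 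
  (sy 1751176)) (k4 3329)) (br (br (br (br (br (sy 1623594) (k4 3208)) (k4 3265)) (k4 2256)) (sy 1751176)) 
  (k4 3329))) (br (br (sy 1623594) (k4 3329)) (br (sy 1623594) (k4 1092))))) (k4 3353)) (br (br (br (br (br (br (br 
  (br (br (lf 1747144) (k4 3208)) (k4 3265)) (sy 1751176)) (sy 1751176)) (k4 3329)) (br (br (br (br (br 
  (lf 1657544) (k4 3208)) (k4 3265)) (k4 2242)) (sy 1751176)) (k4 3329))) (br (br (sy 1623594) (k4 3329)) (br 
  (sy 1623594) (k4 1092)))) (br (br (br (br (br (br (br (lf 1717072) (k4 3208)) (k4 3265)) (k4 2179)) (sy 1751176)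
  ) (k4 3329)) (k4 1668)) (br (br (sy 1623594) (k4 3329)) (k4 1668)))) (k4 3353))) (br (br (br (br (br (br (br (br 
  (br (sy 1623594) (k4 3265)) (sy 1751176)) (sy 1751176)) (k4 3329)) (br (br (br (br (sy 1623594) (k4 3265)) (br 
  (sy 1623594) (k4 3265))) (sy 1751176)) (k4 3329))) (br (br (sy 1623594) (k4 3329)) (br (sy 1623594) (k4 1092)
  ))) (br (br (br (br (br (br (sy 1623594) (k4 3265)) (sy 1751176)) (sy 1751176)) (k4 3329)) (br (br (br (br 
  (sy 1623594) (k4 3265)) (k4 2256)) (sy 1751176)) (k4 3329))) (br (br (sy 1623594) (k4 3329)) (br (sy 1623594)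
   (k4 1092))))) (k4 3353)) (br (br (br (br (br (br (br (br (sy 1623594) (k4 3265)) (sy 1751176)) (sy 1751176)) 
  (k4 3329)) (br (br (br (br (sy 1623594) (k4 3265)) (k4 2242)) (sy 1751176)) (k4 3329))) (br (br (sy 1623594) 
  (k4 3329)) (br (sy 1623594) (k4 1092)))) (br (br (br (br (br (br (sy 1623594) (k4 3265)) (k4 2179)) (sy 1751176)
  ) (k4 3329)) (k4 1668)) (br (br (sy 1623594) (k4 3329)) (k4 1668)))) (k4 3353)))) (k4 3394)) (br (br (br (br 
  (br (br (br (br (br (br (br (br (lf 1742104) (k4 3208)) (k4 3265)) (sy 1751176)) (sy 1751176)) (k4 3329)) (br (br 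
  (br (br (br (lf 1745443) (k4 3208)) (k4 3265)) (br (br (lf 1658979) (k4 3208)) (k4 3265))) (sy 1751176)) 
  (k4 3329))) (br (br (sy 1623594) (k4 3329)) (br (sy 1623594) (k4 1092)))) (br (br (br (br (br (br (br (lf 1740963)
   (k4 3208)) (k4 3265)) (sy 1751176)) (sy 1751176)) (k4 3329)) (br (br (br (br (br (lf 1579347) (k4 3208)) 
  (k4 3265)) (k4 2256)) (sy 1751176)) (k4 3329))) (br (br (sy 1623594) (k4 3329)) (br (sy 1623594) (k4 1092))))
  ) (k4 3353)) (br (br (br (br (br (br (br (br (br (lf 1745688) (k4 3208)) (k4 3265)) (sy 1751176)) (sy 1751176)) 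
  (k4 3329)) (br (br (br (br (br (lf 1657432) (k4 3208)) (k4 3265)) (k4 2242)) (sy 1751176)) (k4 3329))) (br (br 
  (sy 1623594) (k4 3329)) (br (sy 1623594) (k4 1092)))) (br (br (br (br (br (br (br (lf 1623888) (k4 3208)) 
  (k4 3265)) (k4 2179)) (sy 1751176)) (k4 3329)) (k4 1668)) (br (br (sy 1623594) (k4 3329)) (k4 1668)))) 
  (k4 3353))) (br (br (br (br (br (br (br (br (br (br (lf 1627171) (k4 2689)) (k4 3265)) (sy 1751176)) (sy 1751176))
   (k4 3329)) (br (br (br (br (br (lf 1627171) (k4 2689)) (k4 3265)) (br (br (lf 1627171) (k4 2689)) (k4 3265))) 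
  (sy 1751176)) (k4 3329))) (br (br (sy 1623594) (k4 3329)) (br (sy 1623594) (k4 1092)))) (br (br (br (br (br (br 
  (br (sy 1623594) (k4 2689)) (k4 3265)) (sy 1751176)) (sy 1751176)) (k4 3329)) (br (br (br (br (br (sy 1623594) 
  (k4 2689)) (k4 3265)) (k4 2256)) (sy 1751176)) (k4 3329))) (br (br (sy 1623594) (k4 3329)) (br (sy 1623594) 
  (k4 1092))))) (k4 3353)) (br (br (br (br (br (br (br (br (br (lf 1741859) (k4 2689)) (k4 3265)) (sy 1751176)) 
  (sy 1751176)) (k4 3329)) (br (br (br (br (br (lf 1659651) (k4 2689)) (k4 3265)) (k4 2242)) (sy 1751176)) 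
  (k4 3329))) (br (br (sy 1623594) (k4 3329)) (br (sy 1623594) (k4 1092)))) (br (br (br (br (br (br (br (lf 1628368)
   (k4 2689)) (k4 3265)) (k4 2179)) (sy 1751176)) (k4 3329)) (k4 1668)) (br (br (sy 1623594) (k4 3329)) 
  (k4 1668)))) (k4 3353)))) (k4 3394))) (sy 1751176)) (k4 3403)) (k4 3285)) (br (br (br (br (br (br (br (br (br (br 
  (br (br (br (br (br (br (lf 1738835) (k4 3208)) (k4 3265)) (br (br (lf 1738380) (k4 3208)) (k4 3265))) (br (br (br 
  (lf 1627171) (k4 3208)) (k4 3265)) (br (br (sy 1620010) (k4 1602)) (k4 1091)))) (k4 3329)) (br (br (br (br (br 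
  (lf 1595531) (k4 3208)) (k4 3265)) (br (br (lf 1583883) (k4 3208)) (k4 3265))) (br (br (br (lf 1616419) 
  (k4 3208)) (k4 3265)) (br (br (lf 1639267) (k4 1602)) (k4 1091)))) (k4 3329))) (br (br (br (br (br (br 
  (lf 1710723) (k4 3208)) (k4 3265)) (br (br (lf 1583715) (k4 3208)) (k4 3265))) (br (br (sy 1623594) (k4 3265))
   (br (sy 1623594) (k4 1091)))) (k4 3329)) (br (br (br (br (br (lf 1705291) (k4 2114)) (k4 3265)) (br (br 
  (lf 1705291) (k4 2114)) (k4 3265))) (br (br (sy 1623594) (k4 3265)) (br (sy 1623594) (k4 1091)))) (k4 1092)))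
  ) (br (br (br (br (br (br (br (lf 1595482) (k4 3208)) (k4 3265)) (br (br (lf 1595146) (k4 3208)) (k4 3265))) (br 
  (br (br (sy 1620010) (k4 3208)) (k4 3265)) (br (br (sy 1620010) (k4 1602)) (k4 1091)))) (k4 3329)) (br (br (br 
  (br (br (lf 1706579) (k4 3208)) (k4 3265)) (k4 2256)) (br (br (br (sy 1620010) (k4 3208)) (k4 3265)) (k4 2256))
  ) (k4 3329))) (br (br (br (br (br (br (sy 1623594) (k4 3208)) (k4 3265)) (br (br (sy 1623594) (k4 3208)) 
  (k4 3265))) (br (br (sy 1623594) (k4 3265)) (br (sy 1623594) (k4 1091)))) (k4 3329)) (br (br (br (br (br 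
  (sy 1623594) (k4 2114)) (k4 3265)) (k4 2256)) (br (br (sy 1623594) (k4 3265)) (k4 2256))) (k4 1092))))) 
  (k4 3353)) (br (br (br (br (br (br (br (br (br (lf 1726081) (k4 3208)) (k4 3265)) (br (br (lf 1751057) (k4 3208)) 
  (k4 3265))) (br (br (br (lf 1725528) (k4 3208)) (k4 3265)) (br (br (lf 1653260) (k4 1602)) (k4 1091)))) 
  (k4 3329)) (br (br (br (br (br (lf 1714699) (k4 3208)) (k4 3265)) (k4 2242)) (br (br (br (lf 1712683) (k4 3208)) 
  (k4 3265)) (k4 2242))) (k4 3329))) (br (br (br (br (br (br (lf 1725059) (k4 3208)) (k4 3265)) (br (br 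
  (lf 1712361) (k4 3208)) (k4 3265))) (k4 2250)) (k4 3329)) (br (br (br (br (br (lf 1714699) (k4 2114)) (k4 3265)
  ) (k4 2242)) (k4 2250)) (k4 1092)))) (br (br (br (br (br (br (br (lf 1716554) (k4 3208)) (k4 3265)) (k4 2179)) 
  (br (br (br (lf 1687721) (k4 3208)) (k4 3265)) (k4 2179))) (k4 3329)) (k4 1668)) (br (br (br (br (br (br 
  (lf 1710723) (k4 3208)) (k4 3265)) (k4 2179)) (k4 2250)) (k4 3329)) (k4 1668)))) (k4 3353))) (br (br (br (br 
  (br (br (br (br (br (br (lf 1741082) (k4 3208)) (k4 3265)) (br (br (lf 1594082) (k4 3208)) (k4 3265))) (br (br 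
  (sy 1620010) (k4 3265)) (br (sy 1620010) (k4 1091)))) (k4 2824)) (br (br (br (br (br (lf 1738835) (k4 3208)) 
  (k4 3265)) (br (br (lf 1595475) (k4 3208)) (k4 3265))) (br (br (sy 1620010) (k4 3265)) (br (sy 1620010) 
  (k4 1091)))) (k4 2824))) (br (br (br (br (br (sy 1623594) (k4 3265)) (br (sy 1623594) (k4 3265))) (br (br 
  (sy 1623594) (k4 3265)) (br (sy 1623594) (k4 1091)))) (k4 2824)) (br (br (br (br (sy 1623594) (k4 3265)) (br 
  (sy 1623594) (k4 3265))) (br (br (sy 1623594) (k4 3265)) (br (sy 1623594) (k4 1091)))) (k4 1092)))) (br (br 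
  (br (br (br (br (br (lf 1737498) (k4 3208)) (k4 3265)) (br (br (lf 1594138) (k4 3208)) (k4 3265))) (br (br 
  (sy 1620010) (k4 3265)) (br (sy 1620010) (k4 1091)))) (k4 2824)) (br (br (br (br (br (lf 1595482) (k4 3208)) 
  (k4 3265)) (k4 2256)) (br (br (sy 1620010) (k4 3265)) (k4 2256))) (k4 2824))) (br (br (br (br (br (sy 1623594) 
  (k4 3265)) (br (sy 1623594) (k4 3265))) (br (br (sy 1623594) (k4 3265)) (br (sy 1623594) (k4 1091)))) 
  (k4 2824)) (br (br (br (br (sy 1623594) (k4 3265)) (k4 2256)) (br (br (sy 1623594) (k4 3265)) (k4 2256))) 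
  (k4 1092))))) (k4 3353)) (br (br (br (br (br (br (br (br (br (lf 1742867) (k4 3208)) (k4 3265)) (br (br 
  (lf 1594635) (k4 3208)) (k4 3265))) (br (br (sy 1620010) (k4 3265)) (br (sy 1620010) (k4 1091)))) (k4 2824)) 
  (br (br (br (br (br (lf 1753227) (k4 3208)) (k4 3265)) (k4 2242)) (br (br (sy 1620010) (k4 3265)) (k4 2242))) 
  (k4 2824))) (br (br (br (br (br (sy 1623594) (k4 3265)) (br (sy 1623594) (k4 3265))) (k4 2250)) (k4 2824)) (br 
  (br (br (br (sy 1623594) (k4 3265)) (k4 2242)) (k4 2250)) (k4 1092)))) (br (br (br (br (br (br (br (lf 1738954) 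
  (k4 3208)) (k4 3265)) (k4 2179)) (br (br (sy 1620010) (k4 3265)) (k4 2179))) (k4 2824)) (k4 1668)) (br (br (br 
  (br (br (sy 1623594) (k4 3265)) (k4 2179)) (k4 2250)) (k4 2824)) (k4 1668)))) (k4 3353)))) (k4 3394)) (br (br 
  (br (br (br (br (br (br (br (br (br (br (lf 1742867) (k4 3208)) (k4 3265)) (br (br (lf 1737379) (k4 3208)) (k4 3265)
  )) (br (br (br (lf 1627164) (k4 3208)) (k4 3265)) (br (br (lf 1659420) (k4 1602)) (k4 1091)))) (k4 3329)) (br 
  (br (br (br (br (lf 1737995) (k4 3208)) (k4 3265)) (br (br (lf 1659147) (k4 3208)) (k4 3265))) (br (br (br 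
  (lf 1627171) (k4 3208)) (k4 3265)) (br (br (lf 1641059) (k4 1602)) (k4 1091)))) (k4 3329))) (br (br (br (br (br 
  (br (lf 1627395) (k4 3208)) (k4 3265)) (br (br (lf 1745443) (k4 3208)) (k4 3265))) (br (br (sy 1623594) 
  (k4 3265)) (br (sy 1623594) (k4 1091)))) (k4 3329)) (br (br (br (br (br (lf 1742979) (k4 2114)) (k4 3265)) (br 
  (br (lf 1640555) (k4 2114)) (k4 3265))) (br (br (sy 1623594) (k4 3265)) (br (sy 1623594) (k4 1091)))) 
  (k4 1092)))) (br (br (br (br (br (br (br (lf 1737491) (k4 3208)) (k4 3265)) (br (br (lf 1738324) (k4 3208)) 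
  (k4 3265))) (br (br (br (lf 1628312) (k4 3208)) (k4 3265)) (br (br (lf 1607004) (k4 1602)) (k4 1091)))) 
  (k4 3329)) (br (br (br (br (br (lf 1753227) (k4 3208)) (k4 3265)) (k4 2256)) (br (br (br (lf 1741075) (k4 3208)) 
  (k4 3265)) (k4 2256))) (k4 3329))) (br (br (br (br (br (br (lf 1710611) (k4 3208)) (k4 3265)) (br (br 
  (lf 1740963) (k4 3208)) (k4 3265))) (br (br (sy 1623594) (k4 3265)) (br (sy 1623594) (k4 1091)))) (k4 3329)) 
  (br (br (br (br (br (lf 1705291) (k4 2114)) (k4 3265)) (k4 2256)) (br (br (sy 1623594) (k4 3265)) (k4 2256))) 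
  (k4 1092))))) (k4 3353)) (br (br (br (br (br (br (br (br (br (lf 1754179) (k4 3208)) (k4 3265)) (br (br 
  (lf 1747137) (k4 3208)) (k4 3265))) (br (br (br (lf 1627416) (k4 3208)) (k4 3265)) (br (br (lf 1653316) 
  (k4 1602)) (k4 1091)))) (k4 3329)) (br (br (br (br (br (lf 1657355) (k4 3208)) (k4 3265)) (k4 2242)) (br (br (br 
  (lf 1655619) (k4 3208)) (k4 3265)) (k4 2242))) (k4 3329))) (br (br (br (br (br (br (lf 1659651) (k4 3208)) 
  (k4 3265)) (br (br (lf 1655640) (k4 3208)) (k4 3265))) (k4 2250)) (k4 3329)) (br (br (br (br (br (lf 1712963) 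
  (k4 2114)) (k4 3265)) (k4 2242)) (k4 2250)) (k4 1092)))) (br (br (br (br (br (br (br (lf 1754305) (k4 3208)) 
  (k4 3265)) (k4 2179)) (br (br (br (lf 1623720) (k4 3208)) (k4 3265)) (k4 2179))) (k4 3329)) (k4 1668)) (br (br 
  (br (br (br (br (lf 1714755) (k4 3208)) (k4 3265)) (k4 2179)) (k4 2250)) (k4 3329)) (k4 1668)))) (k4 3353))) 
  (br (br (br (br (br (br (br (br (br (br (lf 1741075) (k4 2689)) (k4 3265)) (br (br (lf 1740956) (k4 2689)) (k4 3265)
  )) (br (br (br (lf 1627171) (k4 2689)) (k4 3265)) (br (br (sy 1620010) (k4 1602)) (k4 1091)))) (k4 2824)) (br 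
  (br (br (br (br (lf 1741075) (k4 2689)) (k4 3265)) (br (br (lf 1594019) (k4 2689)) (k4 3265))) (br (br (br 
  (lf 1740963) (k4 2689)) (k4 3265)) (br (br (lf 1627171) (k4 1602)) (k4 1091)))) (k4 2824))) (br (br (br (br (br 
  (br (lf 1628291) (k4 2689)) (k4 3265)) (br (br (lf 1627171) (k4 2689)) (k4 3265))) (br (br (sy 1623594) 
  (k4 3265)) (br (sy 1623594) (k4 1091)))) (k4 2824)) (br (br (br (br (br (lf 1627171) (k4 2114)) (k4 3265)) (br 
  (br (lf 1583715) (k4 2114)) (k4 3265))) (br (br (sy 1623594) (k4 3265)) (br (sy 1623594) (k4 1091)))) 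
  (k4 1092)))) (br (br (br (br (br (br (br (lf 1737498) (k4 2689)) (k4 3265)) (br (br (lf 1594082) (k4 2689)) 
  (k4 3265))) (br (br (br (sy 1620010) (k4 2689)) (k4 3265)) (br (br (sy 1620010) (k4 1602)) (k4 1091)))) 
  (k4 2824)) (br (br (br (br (br (lf 1737491) (k4 2689)) (k4 3265)) (k4 2256)) (br (br (br (sy 1620010) (k4 2689)) 
  (k4 3265)) (k4 2256))) (k4 2824))) (br (br (br (br (br (br (sy 1623594) (k4 2689)) (k4 3265)) (br (br 
  (sy 1623594) (k4 2689)) (k4 3265))) (br (br (sy 1623594) (k4 3265)) (br (sy 1623594) (k4 1091)))) (k4 2824)) 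
  (br (br (br (br (br (sy 1623594) (k4 2114)) (k4 3265)) (k4 2256)) (br (br (sy 1623594) (k4 3265)) (k4 2256))) 
  (k4 1092))))) (k4 3353)) (br (br (br (br (br (br (br (br (br (lf 1742979) (k4 2689)) (k4 3265)) (br (br 
  (lf 1737827) (k4 2689)) (k4 3265))) (br (br (br (lf 1627332) (k4 2689)) (k4 3265)) (br (br (lf 1745604) 
  (k4 1602)) (k4 1091)))) (k4 2824)) (br (br (br (br (br (lf 1737995) (k4 2689)) (k4 3265)) (k4 2242)) (br (br (br 
  (lf 1645091) (k4 2689)) (k4 3265)) (k4 2242))) (k4 2824))) (br (br (br (br (br (br (lf 1742083) (k4 2689)) 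
  (k4 3265)) (br (br (lf 1645315) (k4 2689)) (k4 3265))) (k4 2250)) (k4 2824)) (br (br (br (br (br (lf 1709379) 
  (k4 2114)) (k4 3265)) (k4 2242)) (k4 2250)) (k4 1092)))) (br (br (br (br (br (br (br (lf 1753171) (k4 2689)) 
  (k4 3265)) (k4 2179)) (br (br (br (lf 1628368) (k4 2689)) (k4 3265)) (k4 2179))) (k4 2824)) (k4 1668)) (br (br 
  (br (br (br (br (lf 1628291) (k4 2689)) (k4 3265)) (k4 2179)) (k4 2250)) (k4 2824)) (k4 1668)))) (k4 3353)))) 
  (k4 3394))) (br (br (br (br (br (br (br (br (br (br (br (br (br (lf 1738954) (k4 3208)) (k4 3265)) (sy 1751176)) 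
  (sy 1751176)) (k4 3329)) (br (br (br (br (br (lf 1595531) (k4 3208)) (k4 3265)) (br (br (lf 1594649) (k4 3208)) 
  (k4 3265))) (sy 1751176)) (k4 3329))) (br (br (br (br (br (br (lf 1738842) (k4 3208)) (k4 3265)) (br (br 
  (lf 1595601) (k4 3208)) (k4 3265))) (br (br (br (lf 1627171) (k4 3208)) (k4 3265)) (sy 1751176))) (k4 3329)) 
  (br (br (br (br (br (lf 1706635) (k4 2114)) (k4 3265)) (br (br (lf 1591961) (k4 2114)) (k4 3265))) (br (br (br 
  (lf 1705291) (k4 2114)) (k4 3265)) (br (br (lf 1583715) (k4 1602)) (k4 1091)))) (k4 1092)))) (k4 2840)) 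
  (k4 3353)) (br (br (br (br (br (br (br (br (br (lf 1738954) (k4 3208)) (k4 3265)) (sy 1751176)) (sy 1751176)) 
  (k4 3329)) (br (br (br (br (br (lf 1595545) (k4 3208)) (k4 3265)) (k4 2242)) (sy 1751176)) (k4 3329))) (br (br 
  (br (br (br (br (lf 1725080) (k4 3208)) (k4 3265)) (br (br (lf 1725465) (k4 3208)) (k4 3265))) (k4 2250)) 
  (k4 3329)) (br (br (br (br (br (lf 1706635) (k4 2114)) (k4 3265)) (k4 2242)) (k4 2250)) (k4 1092)))) (k4 2840))
   (k4 3353))) (br (br (br (br (br (br (br (br (br (br (lf 1737498) (k4 3208)) (k4 2760)) (sy 1751176)) (sy 1751176)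
  ) (k4 2824)) (br (br (br (br (br (lf 1737498) (k4 3208)) (k4 2760)) (br (br (lf 218211) (k4 3208)) (k4 2760))) 
  (sy 1751176)) (k4 2824))) (br (br (br (br (br (br (lf 1737491) (k4 3208)) (k4 2760)) (br (br (lf 1737428) 
  (k4 3208)) (k4 2760))) (br (br (sy 1623594) (k4 2760)) (sy 1751176))) (k4 2824)) (br (br (br (br (br 
  (lf 1738835) (k4 2114)) (k4 2760)) (br (br (lf 219275) (k4 2114)) (k4 2760))) (br (br (sy 1623594) (k4 2760)) 
  (br (sy 1623594) (k4 1091)))) (k4 1092)))) (k4 2840)) (k4 3353)) (br (br (br (br (br (br (br (br (br (lf 1738954) 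
  (k4 3208)) (k4 2760)) (sy 1751176)) (sy 1751176)) (k4 2824)) (br (br (br (br (br (lf 1738835) (k4 3208)) 
  (k4 2760)) (k4 2242)) (sy 1751176)) (k4 2824))) (br (br (br (br (br (br (lf 1753178) (k4 3208)) (k4 2760)) (br 
  (br (lf 1595475) (k4 3208)) (k4 2760))) (k4 2250)) (k4 2824)) (br (br (br (br (br (lf 1724499) (k4 2114)) 
  (k4 2760)) (k4 2242)) (k4 2250)) (k4 1092)))) (k4 2840)) (k4 3353)))) (k4 3394)) (br (br (br (br (br (br (br (br 
  (br (br (br (br (lf 1740963) (k4 3208)) (k4 3265)) (sy 1751176)) (sy 1751176)) (k4 3329)) (br (br (br (br (br 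
  (lf 1737379) (k4 3208)) (k4 3265)) (br (br (lf 1594467) (k4 3208)) (k4 3265))) (sy 1751176)) (k4 3329))) (br 
  (br (br (br (br (br (lf 1742867) (k4 3208)) (k4 3265)) (br (br (lf 1740956) (k4 3208)) (k4 3265))) (br (br (br 
  (lf 1627171) (k4 3208)) (k4 3265)) (sy 1751176))) (k4 3329)) (br (br (br (br (br (lf 1742083) (k4 2114)) 
  (k4 3265)) (br (br (lf 1737827) (k4 2114)) (k4 3265))) (br (br (br (lf 1659651) (k4 2114)) (k4 3265)) (br (br 
  (lf 1645091) (k4 1602)) (k4 1091)))) (k4 1092)))) (k4 2840)) (k4 3353)) (br (br (br (br (br (br (br (br (br 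
  (lf 1742104) (k4 3208)) (k4 3265)) (sy 1751176)) (sy 1751176)) (k4 3329)) (br (br (br (br (br (lf 1737995) 
  (k4 3208)) (k4 3265)) (k4 2242)) (sy 1751176)) (k4 3329))) (br (br (br (br (br (br (lf 1754179) (k4 3208)) 
  (k4 3265)) (br (br (lf 1660953) (k4 3208)) (k4 3265))) (k4 2250)) (k4 3329)) (br (br (br (br (br (lf 1657355) 
  (k4 2114)) (k4 3265)) (k4 2242)) (k4 2250)) (k4 1092)))) (k4 2840)) (k4 3353))) (br (br (br (br (br (br (br (br 
  (br (br (lf 1511706) (k4 2689)) (k4 2760)) (sy 1521793)) (sy 1751176)) (k4 2824)) (sy 1525377)) (br (br (br 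
  (br (br (br (lf 1511699) (k4 2689)) (k4 2760)) (br (br (lf 1508003) (k4 2689)) (k4 2760))) (br (br (br 
  (lf 451619) (k4 2689)) (k4 2760)) (sy 1751176))) (k4 2824)) (br (br (br (br (br (lf 1511699) (k4 2114)) 
  (k4 2760)) (sy 1525377)) (br (br (br (lf 451619) (k4 2114)) (k4 2760)) (br (br (lf 1627171) (k4 1602)) 
  (k4 1091)))) (k4 1092)))) (k4 2840)) (k4 3353)) (br (br (br (br (br (br (br (br (br (lf 1511706) (k4 2689)) 
  (k4 2760)) (sy 1521793)) (sy 1751176)) (k4 2824)) (sy 1525377)) (br (br (br (br (br (br (lf 1511699) (k4 2689))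
   (k4 2760)) (br (br (lf 1508003) (k4 2689)) (k4 2760))) (k4 2250)) (k4 2824)) (br (br (br (br (br (lf 1524803) 
  (k4 2114)) (k4 2760)) (k4 2242)) (k4 2250)) (k4 1092)))) (k4 2840)) (k4 3353)))) (k4 3394)))) (k4 3403)) 
  (k4 3285))) (k4 3404)) (k4 3349)) (k4 3357))

theorem t23_ok : check RT t23 20 28819 = true := by decide +kernel

def t24 : Cert :=
  (br (br (br (br (br (br (br (br (br (br (br (br (br (br (br (br (br (br (br (br (br (br (lf 1743056) (sy 1616104)) 
  (sy 1620136)) (sy 1750280)) (k4 3281)) (sy 1623720)) (sy 1754312)) (k4 3345)) (br (br (br (br (br (br (br 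
  (lf 1743056) (sy 1616104)) (sy 1620136)) (sy 1751176)) (k4 3281)) (sy 1623720)) (br (br (br (br (br 
  (lf 1717576) (sy 1616104)) (sy 1620136)) (k4 2256)) (k4 3281)) (sy 1623720))) (k4 3345))) (k4 3353)) (br 
  (br (br (br (br (br (br (br (br (lf 1743056) (sy 1616104)) (sy 1620136)) (sy 1750280)) (k4 3281)) (sy 1623720)) 
  (sy 1754312)) (k4 3345)) (br (br (br (br (br (br (br (lf 1717576) (sy 1616104)) (sy 1620136)) (k4 2179)) 
  (k4 3281)) (sy 1623720)) (k4 1668)) (k4 3345))) (k4 3353))) (br (br (br (br (br (br (br (br (br (br (lf 1743056) 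
  (sy 1616104)) (sy 1620136)) (sy 1750280)) (k4 3281)) (sy 1623720)) (sy 1754312)) (k4 3345)) (br (br (br (br 
  (br (br (br (lf 1743042) (sy 1616104)) (sy 1620136)) (sy 1751176)) (k4 3281)) (sy 1623720)) (br (br (br (br (br 
  (lf 1743056) (sy 1616104)) (sy 1620136)) (k4 2256)) (k4 3281)) (sy 1623720))) (k4 3345))) (k4 3353)) (br 
  (br (br (br (br (br (br (br (br (lf 1743056) (sy 1616104)) (sy 1620136)) (sy 1750280)) (k4 3281)) (sy 1623720)) 
  (sy 1754312)) (k4 3345)) (br (br (br (br (br (br (br (lf 1718864) (sy 1616104)) (sy 1620136)) (k4 2179)) 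
  (k4 3281)) (sy 1623720)) (k4 1668)) (k4 3345))) (k4 3353)))) (sy 1747144)) (k4 3402)) (sy 1751176)) 
  (k4 3403)) (k4 3285)) (br (br (br (br (br (br (br (br (br (br (br (br (br (br (br (br (lf 1743056) (sy 1754312)) (br 
  (lf 1628354) (sy 1619240))) (br (br (lf 1753808) (sy 1615656)) (br (sy 1619240) (k4 1672)))) (k4 3281)) (br 
  (br (br (br (lf 1725136) (sy 1623272)) (sy 1623720)) (br (br (lf 1725136) (sy 1623272)) (sy 1623720))) 
  (k4 3281))) (sy 1754312)) (k4 3345)) (br (br (br (br (br (br (br (lf 1753794) (lf 1743042)) (br (lf 1628354) 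
  (sy 1619240))) (br (br (lf 1690129) (lf 1655017)) (br (sy 1620136) (k4 1672)))) (k4 3281)) (br (br (br (br 
  (lf 1725122) (sy 1623272)) (k4 2248)) (br (br (lf 1706586) (sy 1623272)) (k4 2248))) (k4 3281))) (br (br (br 
  (br (br (lf 1726088) (sy 1754312)) (br (lf 1704682) (sy 1619240))) (k4 2256)) (k4 3281)) (sy 1070734))) 
  (k4 3345))) (k4 3353)) (br (br (br (br (br (br (br (br (br (lf 1725136) (sy 1754312)) (br (lf 1628368) 
  (sy 1619240))) (br (br (lf 1717576) (sy 1615656)) (br (sy 1619240) (k4 1672)))) (k4 3281)) (br (br (br (br 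
  (lf 1725136) (sy 1623272)) (sy 1623720)) (br (br (lf 1725136) (sy 1623272)) (sy 1623720))) (k4 3281))) 
  (sy 1754312)) (k4 3345)) (br (br (br (br (br (br (br (lf 1726032) (lf 1726032)) (br (lf 1690192) (sy 1619240))) 
  (k4 2179)) (k4 3281)) (br (br (br (br (lf 1266384) (sy 1623272)) (k4 2248)) (k4 2179)) (k4 3281))) (k4 1668)) 
  (k4 3345))) (k4 3353))) (br (br (br (br (br (br (br (br (br (br (lf 1743056) (sy 1754312)) (br (lf 1628354) 
  (sy 1619240))) (br (br (lf 1741082) (sy 1615656)) (br (sy 1619240) (k4 1672)))) (k4 3281)) (k4 2824)) 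
  (sy 1754312)) (k4 3345)) (br (br (br (br (br (br (br (lf 1753626) (lf 1742867)) (br (lf 1628354) (sy 1619240))) 
  (br (br (lf 1741082) (lf 1579746)) (br (sy 1620136) (k4 1672)))) (k4 3281)) (k4 2824)) (br (br (br (br (br 
  (lf 1724506) (sy 1754312)) (br (lf 1708378) (sy 1619240))) (k4 2256)) (k4 3281)) (k4 2824))) (k4 3345))) 
  (k4 3353)) (br (br (br (br (br (br (br (br (br (lf 1743056) (sy 1754312)) (br (lf 1628368) (sy 1619240))) (br (br 
  (lf 1754760) (sy 1615656)) (br (sy 1619240) (k4 1672)))) (k4 3281)) (k4 2824)) (sy 1754312)) (k4 3345)) (br 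
  (br (br (br (br (br (br (lf 1753808) (lf 1628368)) (br (lf 1628354) (sy 1619240))) (k4 2179)) (k4 3281)) 
  (k4 2824)) (k4 1668)) (k4 3345))) (k4 3353)))) (sy 1754312)) (k4 3402)) (br (br (br (br (br (br (br (br (br (br 
  (br (br (br (lf 1754690) (lf 1740963)) (sy 1751176)) (sy 1751176)) (k4 3281)) (br (br (br (br (lf 1753626) 
  (lf 1628186)) (br (lf 1743042) (sy 1623720))) (sy 1751176)) (k4 3281))) (br (br (br (br (br (lf 1753752) 
  (lf 1746955)) (br (lf 1749258) (lf 1626338))) (br (br (lf 1754753) (lf 1658979)) (sy 1751176))) (k4 3281)) 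
  (br (br (br (br (lf 1753626) (k4 2184)) (br (lf 1706586) (k4 2184))) (br (br (lf 1738835) (k4 2184)) (br 
  (lf 1591114) (k4 1672)))) (k4 3281)))) (k4 3345)) (k4 2840)) (k4 3353)) (br (br (br (br (br (br (br (br (br 
  (lf 1754760) (lf 1754760)) (sy 1751176)) (sy 1751176)) (k4 3281)) (br (br (br (br (lf 1754704) (lf 1710800)) 
  (br (lf 1743042) (sy 1623720))) (sy 1751176)) (k4 3281))) (br (br (br (br (br (lf 1725640) (lf 1747144)) (br 
  (lf 1690248) (lf 1656648))) (k4 2242)) (k4 3281)) (br (br (br (br (lf 1267210) (k4 2184)) (br (lf 1706586) 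
  (k4 2184))) (k4 2242)) (k4 3281)))) (k4 3345)) (k4 2840)) (k4 3353))) (br (br (br (br (br (br (br (br (br (br 
  (lf 1743042) (lf 1741082)) (k4 2760)) (sy 1751176)) (k4 3281)) (k4 2824)) (br (br (br (br (br (lf 1742874) 
  (lf 1737379)) (k4 2760)) (br (br (lf 1738954) (lf 218211)) (k4 2760))) (k4 3281)) (k4 2824))) (k4 3345)) 
  (k4 2840)) (k4 3353)) (br (br (br (br (br (br (br (br (br (lf 1513666) (lf 1513666)) (k4 2760)) (sy 1751176)) 
  (k4 3281)) (k4 2824)) (br (br (br (br (br (lf 1753626) (lf 1508115)) (k4 2760)) (k4 2242)) (k4 3281)) (k4 2824)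
  )) (k4 3345)) (k4 2840)) (k4 3353)))) (br (br (br (br (br (br (br (br (br (br (br (lf 1525384) (sy 1747144)) 
  (sy 1751176)) (k4 2768)) (k4 3281)) (br (br (br (br (lf 1511706) (sy 1754312)) (br (lf 1511706) (lf 1368346)))
   (k4 2768)) (k4 3281))) (k4 2832)) (k4 3345)) (k4 2840)) (k4 3353)) (br (br (br (br (br (br (br (br (br 
  (lf 1525384) (sy 1747144)) (sy 1751176)) (k4 2768)) (k4 3281)) (br (br (br (br (lf 1524250) (sy 1754312)) (br 
  (lf 1511706) (lf 1368346))) (k4 2768)) (k4 3281))) (k4 2832)) (k4 3345)) (k4 2840)) (k4 3353))) 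
  (sy 1328782))) (k4 3402))) (k4 3403)) (k4 3285))) (k4 3404)) (k4 3349)) (k4 3357)) (sy 1623685)) 
  (sy 1747144))

theorem t24_ok : check RT t24 22 7205 = true := by decide +kernel

def t25 : Cert :=
  (sy 1751176)

theorem t25_ok : check RT t25 23 3603 = true := by decide +kernel

def t26 : Cert :=
  (k4 2774)

theorem t26_ok : check RT t26 25 901 = true := by decide +kernel

def t27 : Cert :=
  (br (br (br (br (br (br (br (br (br (br (br (br (br (br (br (br (br (br (br (br (br (br (br (br (lf 1726088) (sy 1724947)) 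
  (sy 1724954)) (sy 1754753)) (br (br (br (lf 1754760) (sy 1754312)) (br (lf 1677648) (k4 1665))) (br (br 
  (lf 1681736) (k4 1602)) (k4 1091)))) (k4 3140)) (sy 1754305)) (sy 1754312)) (sy 1754753)) (br (br (br (br 
  (sy 1724954) (k4 3140)) (br (sy 1724954) (k4 3140))) (br (br (sy 1724954) (k4 3140)) (sy 1754312))) (br (br 
  (br (sy 1724954) (k4 1604)) (sy 1754753)) (br (br (sy 1249626) (k4 1604)) (br (sy 1249626) (k4 1092)))))) (br 
  (br (br (br (br (sy 1724954) (k4 3140)) (sy 1754305)) (sy 1754312)) (sy 1754753)) (br (br (br (br (sy 1724954) 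
  (k4 3140)) (br (sy 1724954) (k4 3140))) (k4 1676)) (br (br (br (sy 1724954) (k4 1604)) (k4 1668)) (k4 1676))))
  ) (br (br (br (br (br (br (br (br (br (br (lf 1753626) (sy 1754312)) (br (lf 1753626) (lf 1741082))) (sy 1754753))
   (br (br (br (lf 1742874) (sy 1754312)) (br (lf 1741026) (k4 1665))) (br (br (lf 1754760) (k4 1602)) (k4 1091))
  )) (k4 3140)) (sy 1754305)) (sy 1754312)) (sy 1754753)) (br (br (br (br (sy 1724954) (k4 3140)) (br 
  (sy 1724954) (k4 3140))) (br (br (sy 1724954) (k4 3140)) (sy 1754312))) (br (br (br (sy 1724954) (k4 1604)) 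
  (sy 1754753)) (br (br (sy 1249626) (k4 1604)) (br (sy 1249626) (k4 1092)))))) (br (br (br (br (br (br (br (br (br 
  (lf 1726088) (sy 1724947)) (sy 1724954)) (sy 1754753)) (br (br (br (lf 1726088) (sy 1754312)) (br 
  (lf 1726032) (k4 1665))) (br (br (lf 1754760) (k4 1602)) (k4 1091)))) (k4 3140)) (sy 1754305)) (sy 1754312))
   (sy 1754753)) (br (br (br (br (sy 1724954) (k4 3140)) (br (sy 1724954) (k4 3140))) (k4 1676)) (br (br (br 
  (sy 1724954) (k4 1604)) (k4 1668)) (k4 1676)))))) (sy 1754305)) (sy 1754312)) (sy 1754753)) (br (br (br (br 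
  (br (br (br (br (br (br (br (br (br (br (lf 1753808) (lf 1742874)) (br (lf 1743042) (lf 1627682))) (br (br 
  (lf 1751050) (lf 1751169)) (br (lf 1749762) (k4 1672)))) (br (br (br (lf 1742608) (lf 1628312)) (br 
  (lf 1692418) (k4 1665))) (br (br (lf 1749664) (k4 1602)) (k4 1091)))) (k4 3140)) (br (br (br (br (br 
  (lf 1725969) (sy 1724499)) (br (sy 1724499) (sy 1724499))) (br (br (lf 1754305) (sy 1724499)) (br 
  (lf 1673553) (k4 1672)))) (br (br (br (lf 1753808) (lf 1725528)) (br (lf 1717072) (k4 1665))) (br (br 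
  (lf 1726081) (k4 1602)) (k4 1091)))) (k4 3140))) (br (br (sy 1724947) (k4 3140)) (br (sy 1724947) (k4 1092)))
  ) (br (br (br (br (br (br (br (lf 1725962) (lf 1724954)) (br (lf 1725962) (lf 1742594))) (br (br (lf 1690122) 
  (lf 1591114)) (br (lf 1691914) (k4 1672)))) (br (br (br (lf 1726018) (lf 1751120)) (br (lf 1688386) (k4 1665))
  ) (br (br (lf 1001994) (k4 1602)) (k4 1091)))) (k4 3140)) (br (sy 1724506) (k4 3140))) (br (br (sy 1724506) 
  (k4 3140)) (br (sy 1246035) (k4 1092))))) (br (br (br (br (br (br (br (br (lf 1726032) (sy 1724954)) (sy 1724954)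
  ) (br (br (lf 1751106) (lf 1726032)) (sy 1724954))) (br (br (br (lf 1717072) (lf 1620752)) (sy 841862)) (br 
  (br (lf 1690192) (k4 1602)) (k4 1091)))) (k4 3140)) (br (sy 1724954) (k4 3140))) (br (br (sy 1724954) 
  (k4 3140)) (br (sy 1249619) (k4 1092)))) (br (br (br (sy 1724954) (k4 1604)) (br (sy 1246042) (k4 1604))) (br 
  (br (sy 1249626) (k4 1604)) (br (sy 1249626) (k4 1092)))))) (br (br (br (br (br (br (br (br (br (lf 1754704) 
  (lf 1725528)) (br (lf 1754704) (lf 1726032))) (br (br (lf 1726088) (lf 1726088)) (br (lf 1002120) (k4 1672)))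
  ) (br (br (br (lf 1718864) (lf 1615712)) (br (lf 1692432) (k4 1665))) (br (br (lf 1692936) (k4 1602)) (k4 1091)
  ))) (k4 3140)) (br (sy 1724499) (k4 3140))) (br (br (sy 1724947) (k4 3140)) (br (sy 1724947) (k4 1092)))) (br 
  (br (br (sy 1724506) (k4 3140)) (k4 1668)) (br (br (sy 1724506) (k4 3140)) (k4 1668)))) (br (br (br (br 
  (sy 1724954) (k4 3140)) (br (sy 1724954) (k4 3140))) (k4 1676)) (br (br (br (sy 1724954) (k4 1604)) (k4 1668))
   (k4 1676))))) (br (br (br (br (br (br (br (br (br (br (lf 1742874) (lf 1742874)) (k4 2753)) (br (br (lf 1749762) 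
  (lf 1737491)) (k4 2753))) (br (br (br (lf 1513666) (lf 452627)) (k4 2753)) (br (br (lf 1749664) (k4 1602)) 
  (k4 1091)))) (k4 3140)) (br (br (br (br (br (lf 1524243) (lf 1523795)) (k4 2753)) (br (br (lf 1509459) 
  (lf 1737995)) (k4 2753))) (br (br (br (lf 1524432) (lf 1511699)) (k4 2753)) (br (br (lf 1515619) (k4 1602)) 
  (k4 1091)))) (k4 3140))) (br (br (br (br (br (br (lf 1524432) (lf 1742867)) (k4 2753)) (br (br (lf 1524250) 
  (lf 1512483)) (k4 2753))) (br (br (br (lf 1513680) (lf 452760)) (k4 2753)) (br (br (lf 1628312) (k4 1602)) 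
  (k4 1091)))) (k4 3140)) (br (sy 1724947) (k4 1092)))) (br (br (br (br (br (br (br (lf 1523802) (lf 1523802)) 
  (k4 2753)) (br (br (lf 1525258) (lf 1595594)) (k4 2753))) (br (br (br (lf 1521730) (lf 1627906)) (k4 2753)) 
  (br (br (lf 976906) (k4 1602)) (k4 1091)))) (k4 3140)) (br (sy 1724506) (k4 3140))) (br (br (sy 1724506) 
  (k4 3140)) (br (sy 1246035) (k4 1092))))) (br (br (br (br (br (br (br (br (lf 1513666) (lf 1742874)) (k4 2753)) 
  (br (br (lf 1525314) (lf 1627906)) (k4 2753))) (br (br (br (lf 1627906) (lf 452816)) (k4 2753)) (br (br 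
  (lf 1692418) (k4 1602)) (k4 1091)))) (k4 3140)) (br (sy 1724954) (k4 3140))) (br (br (sy 1724954) (k4 3140)) 
  (br (sy 1249619) (k4 1092)))) (br (br (br (sy 1724954) (k4 1604)) (br (sy 1246042) (k4 1604))) (br (br 
  (sy 1249626) (k4 1604)) (br (sy 1249626) (k4 1092)))))) (br (br (br (br (br (br (br (br (br (lf 1524418) 
  (lf 1513680)) (k4 2753)) (br (br (lf 1525328) (lf 1517761)) (k4 2753))) (br (br (br (lf 1525328) (lf 1628312))
   (k4 2753)) (br (br (lf 1521800) (k4 1602)) (k4 1091)))) (k4 3140)) (br (br (br (br (br (lf 1238664) 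
  (sy 1724499)) (k4 2753)) (k4 2242)) (br (br (br (lf 1267336) (lf 1644888)) (k4 2753)) (k4 2242))) (k4 3140)))
   (br (br (sy 1724947) (k4 3140)) (br (sy 1724947) (k4 1092)))) (br (br (br (br (br (br (br (lf 1267266) 
  (lf 1524250)) (k4 2753)) (k4 2179)) (br (br (br (lf 969808) (lf 1753808)) (k4 2753)) (k4 2179))) (k4 3140)) 
  (k4 1668)) (br (br (sy 1724506) (k4 3140)) (k4 1668)))) (br (br (br (br (br (br (br (br (lf 1238608) (sy 1724954))
   (k4 2753)) (br (br (lf 1525314) (lf 1726032)) (k4 2753))) (k4 2187)) (k4 3140)) (br (sy 1724954) (k4 3140)))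
   (k4 1676)) (br (br (br (sy 1724954) (k4 1604)) (k4 1668)) (k4 1676)))))) (br (br (br (br (br (br (br (br (br (br 
  (br (lf 1523802) (sy 1754305)) (br (lf 1737498) (lf 1737498))) (sy 1754305)) (br (br (br (lf 1754200) 
  (lf 1741852)) (br (lf 1749762) (k4 1665))) (br (br (lf 1517124) (k4 1602)) (k4 1091)))) (k4 3140)) 
  (sy 1754305)) (br (sy 1754305) (sy 1754305))) (br (br (br (br (br (br (br (lf 1525258) (lf 1509515)) (br 
  (lf 1523914) (lf 1594082))) (br (br (lf 1521681) (lf 1738905)) (br (lf 1749258) (k4 1672)))) (br (br (br 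
  (lf 1521674) (lf 1520162)) (br (lf 1435658) (k4 1665))) (br (br (lf 976913) (k4 1602)) (k4 1091)))) (k4 3140)
  ) (sy 1754305)) (br (br (br (br (br (br (lf 1238664) (sy 1724947)) (sy 1724506)) (sy 1754305)) (br (br (br 
  (lf 1266384) (sy 1724947)) (br (lf 1751120) (k4 1665))) (br (br (lf 1653512) (k4 1602)) (k4 1091)))) 
  (k4 3140)) (sy 1754305)))) (br (br (br (br (br (br (br (br (lf 1525328) (lf 1513666)) (br (lf 1513666) 
  (lf 1741026))) (br (br (lf 1521674) (lf 1508948)) (br (lf 1435714) (k4 1672)))) (br (br (br (lf 1513680) 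
  (lf 1743056)) (sy 841862)) (br (br (lf 1520400) (k4 1602)) (k4 1091)))) (k4 3140)) (br (br (br (br (br 
  (lf 1238216) (sy 1724499)) (sy 1724954)) (sy 1754305)) (br (br (br (lf 1266776) (lf 1725528)) (sy 841862)) 
  (br (br (lf 1754312) (k4 1602)) (k4 1091)))) (k4 3140))) (br (br (sy 1724954) (k4 3140)) (sy 1754305))) (br 
  (br (br (sy 1724954) (k4 1604)) (br (sy 1246042) (k4 1604))) (br (br (sy 1249626) (k4 1604)) (br (sy 1249626) 
  (k4 1092)))))) (br (br (br (br (br (br (br (br (br (lf 1524936) (sy 1754305)) (br (lf 1525265) (lf 1524936))) 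
  (sy 1754305)) (br (br (br (lf 1747144) (lf 713440)) (br (lf 1521744) (k4 1665))) (br (br (lf 649992) (k4 1602))
   (k4 1091)))) (k4 3140)) (sy 1754305)) (br (sy 1754305) (sy 1754305))) (br (br (br (br (br (br (br (lf 1467921) 
  (lf 1265817)) (br (lf 1005585) (lf 1724625))) (k4 2179)) (br (br (br (lf 969864) (lf 1754312)) (br (lf 941073)
   (k4 1665))) (k4 2179))) (k4 3140)) (k4 1668)) (br (br (sy 1724506) (k4 3140)) (k4 1668)))) (br (br (br (br (br 
  (br (br (br (lf 1267280) (lf 1267280)) (br (lf 1751106) (lf 1743042))) (br (br (lf 969857) (lf 1747137)) (br 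
  (lf 941122) (k4 1672)))) (k4 2187)) (k4 3140)) (br (sy 1724954) (k4 3140))) (k4 1676)) (br (br (br 
  (sy 1724954) (k4 1604)) (k4 1668)) (k4 1676))))) (br (br (br (br (br (br (br (br (br (br (lf 1523802) (k4 2696)) 
  (k4 2753)) (sy 1754305)) (br (br (br (lf 1511636) (k4 2696)) (k4 2753)) (br (br (lf 1517124) (k4 1602)) 
  (k4 1091)))) (k4 3140)) (sy 1754305)) (br (sy 1754305) (sy 1754305))) (br (br (br (br (br (br (br (lf 1523914) 
  (k4 2696)) (k4 2753)) (br (br (lf 1337553) (k4 2696)) (k4 2753))) (br (br (br (lf 1525258) (k4 2696)) (k4 2753)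
  ) (br (br (lf 1519714) (k4 1602)) (k4 1091)))) (k4 3140)) (sy 1754305)) (br (br (br (br (br (br (lf 1523802) 
  (k4 2696)) (k4 2753)) (sy 1754305)) (br (br (br (lf 1449091) (k4 2696)) (k4 2753)) (br (br (lf 1451590) 
  (k4 1602)) (k4 1091)))) (k4 3140)) (sy 1754305)))) (br (br (br (br (br (br (br (br (lf 1513498) (k4 2696)) 
  (k4 2753)) (br (br (lf 1524418) (k4 2696)) (k4 2753))) (br (br (br (lf 1513232) (k4 2696)) (k4 2753)) (br (br 
  (lf 1369634) (k4 1602)) (k4 1091)))) (k4 3140)) (br (br (br (br (br (lf 1523802) (k4 2696)) (k4 2753)) 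
  (sy 1754305)) (br (br (br (lf 1467088) (k4 2696)) (k4 2753)) (br (br (lf 1467592) (k4 1602)) (k4 1091)))) 
  (k4 3140))) (br (br (sy 1724954) (k4 3140)) (sy 1754305))) (br (br (br (sy 1724954) (k4 1604)) (br (sy 1246042)
   (k4 1604))) (br (br (sy 1249626) (k4 1604)) (br (sy 1249626) (k4 1092)))))) (br (br (br (br (br (br (br (br (br 
  (lf 1524936) (k4 2696)) (k4 2753)) (sy 1754305)) (br (br (br (lf 1525384) (k4 2696)) (k4 2753)) (br (br 
  (lf 1391684) (k4 1602)) (k4 1091)))) (k4 3140)) (sy 1754305)) (br (sy 1754305) (sy 1754305))) (br (br (br (br 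
  (br (br (br (lf 1466570) (k4 2696)) (k4 2753)) (k4 2179)) (br (br (br (lf 1435658) (k4 2696)) (k4 2753)) 
  (k4 2179))) (k4 3140)) (k4 1668)) (br (br (br (br (br (br (lf 1238664) (k4 2696)) (k4 2753)) (k4 2179)) 
  (k4 2250)) (k4 3140)) (k4 1668)))) (br (br (br (br (br (br (br (br (lf 1467074) (k4 2696)) (k4 2753)) (br (br 
  (lf 1435658) (k4 2696)) (k4 2753))) (k4 2187)) (k4 3140)) (br (br (br (br (br (lf 1238216) (k4 2696)) (k4 2753)
  ) (k4 2242)) (k4 2187)) (k4 3140))) (k4 1676)) (br (br (br (sy 1724954) (k4 1604)) (k4 1668)) (k4 1676)))))))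
   (br (br (br (br (br (br (br (br (br (br (br (br (lf 1753808) (sy 1754312)) (br (lf 1513666) (lf 1370320))) (br (br 
  (lf 1750112) (sy 1754312)) (br (lf 1749776) (k4 1672)))) (k4 2769)) (k4 3140)) (sy 1754312)) (sy 1754312)) 
  (br (br (br (br (br (br (br (lf 1524418) (lf 1753752)) (br (lf 1521730) (lf 1628186))) (br (br (lf 1751050) 
  (lf 1749776)) (br (lf 1435658) (k4 1672)))) (k4 2769)) (k4 3140)) (br (sy 1724506) (k4 3140))) (sy 1754312))
  ) (br (br (br (br (br (br (br (br (lf 1753808) (lf 1628312)) (br (lf 1627906) (lf 452802))) (br (br (lf 1521744) 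
  (lf 1743056)) (br (lf 1749776) (k4 1672)))) (k4 2769)) (k4 3140)) (br (br (br (br (br (lf 1753808) (lf 477827))
   (br (lf 1710800) (lf 416794))) (br (br (lf 1266384) (lf 1747011)) (br (lf 1521744) (k4 1672)))) (k4 2769)) 
  (k4 3140))) (br (br (sy 1724954) (k4 3140)) (sy 1754312))) (br (br (br (br (br (br (br (lf 1726032) (sy 1724954))
   (k4 2115)) (br (br (lf 1726018) (lf 1238608)) (k4 2115))) (k4 2769)) (k4 1604)) (br (sy 1246042) (k4 1604)))
   (br (br (sy 1249626) (k4 1604)) (br (sy 1249626) (k4 1092)))))) (br (br (br (br (br (br (br (br (br (lf 1524432) 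
  (sy 1754312)) (br (lf 1525328) (lf 1743056))) (br (br (lf 1525384) (sy 1754312)) (br (lf 1005648) (k4 1672)))
  ) (k4 2769)) (k4 3140)) (sy 1754312)) (sy 1754312)) (br (br (br (br (br (br (br (lf 1525328) (lf 1266328)) (br 
  (lf 944720) (lf 1753794))) (k4 2179)) (k4 2769)) (k4 3140)) (k4 1668)) (sy 1754312))) (br (br (br (br (br (br 
  (br (br (lf 1753808) (lf 1725136)) (br (lf 1717072) (lf 408464))) (br (br (lf 1754704) (lf 676592)) (br 
  (lf 842128) (k4 1672)))) (k4 2187)) (k4 3140)) (br (br (br (br (br (lf 1267280) (lf 1121176)) (br (lf 1105104) 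
  (lf 1103256))) (k4 2242)) (k4 2187)) (k4 3140))) (k4 1676)) (br (br (br (sy 1724954) (k4 1604)) (k4 1668)) 
  (k4 1676))))) (br (br (br (br (br (br (br (br (br (br (lf 1513680) (k4 2689)) (k4 2753)) (br (br (lf 1511636) 
  (k4 2689)) (k4 2753))) (k4 2769)) (k4 3140)) (sy 1754312)) (sy 1754312)) (br (br (br (br (br (br (br 
  (lf 1524250) (k4 2689)) (k4 2753)) (br (br (lf 1508122) (k4 2689)) (k4 2753))) (k4 2769)) (k4 3140)) (br 
  (sy 1724506) (k4 3140))) (sy 1754312))) (br (br (br (br (br (br (br (br (lf 1513680) (k4 2689)) (k4 2753)) (br 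
  (br (lf 1370306) (k4 2689)) (k4 2753))) (k4 2769)) (k4 3140)) (br (br (br (br (br (lf 1467032) (k4 2689)) 
  (k4 2753)) (br (br (lf 1467011) (k4 2689)) (k4 2753))) (k4 2769)) (k4 3140))) (br (br (sy 1724954) (k4 3140)) 
  (sy 1754312))) (br (br (br (br (br (br (br (lf 1449154) (k4 2689)) (k4 2115)) (br (br (lf 1467970) (k4 2689)) 
  (k4 2115))) (k4 2769)) (k4 1604)) (br (sy 1246042) (k4 1604))) (br (br (sy 1249626) (k4 1604)) (br 
  (sy 1249626) (k4 1092)))))) (br (br (br (br (br (br (br (br (br (lf 1513680) (k4 2689)) (k4 2753)) (br (br 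
  (lf 1524432) (k4 2689)) (k4 2753))) (k4 2769)) (k4 3140)) (sy 1754312)) (sy 1754312)) (br (br (br (br (br (br 
  (br (lf 1525328) (k4 2689)) (k4 2753)) (k4 2179)) (k4 2769)) (k4 3140)) (k4 1668)) (sy 1754312))) (br (br (br 
  (br (br (br (br (br (lf 1370320) (k4 2689)) (k4 2753)) (br (br (lf 1467984) (k4 2689)) (k4 2753))) (k4 2187)) 
  (k4 3140)) (br (br (br (br (br (lf 1219792) (k4 2689)) (k4 2753)) (k4 2242)) (k4 2187)) (k4 3140))) (k4 1676)) 
  (br (br (br (br (br (br (br (lf 1225616) (k4 2689)) (k4 2115)) (k4 2179)) (k4 2187)) (k4 1604)) (k4 1668)) 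
  (k4 1676)))))) (sy 1517320))) (br (br (br (br (br (br (br (br (br (br (br (br (br (lf 1525314) (lf 1525314)) 
  (k4 2627)) (sy 1521793)) (sy 1521800)) (k4 3140)) (sy 1754753)) (br (br (br (br (br (br (lf 1525314) 
  (lf 1513624)) (k4 2627)) (br (br (lf 1751176) (lf 1515619)) (k4 2627))) (br (br (br (lf 1513680) (lf 1513680))
   (k4 2627)) (sy 1521800))) (k4 3140)) (br (br (br (br (br (lf 1753619) (k4 2114)) (k4 2627)) (sy 1754753)) (br 
  (br (br (lf 1753808) (k4 2114)) (k4 2627)) (br (br (lf 1517768) (k4 1602)) (k4 1091)))) (k4 1092)))) 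
  (sy 1754753)) (br (br (br (br (br (br (br (br (lf 1525314) (lf 1525314)) (k4 2627)) (sy 1521800)) (sy 1521800)) 
  (k4 3140)) (br (br (br (br (br (lf 1754690) (lf 1754690)) (k4 2627)) (br (br (lf 1525265) (lf 1509585)) 
  (k4 2627))) (sy 1521800)) (k4 3140))) (br (br (br (br (br (br (lf 1726032) (sy 1724954)) (k4 2627)) (br (br 
  (lf 1238608) (lf 1726032)) (k4 2627))) (k4 2257)) (k4 3140)) (br (sy 1249619) (k4 1092)))) (br (br (br (br (br 
  (br (br (lf 944706) (lf 1525314)) (k4 2115)) (sy 1521793)) (sy 1521800)) (k4 1604)) (sy 1754753)) (br (br 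
  (sy 1249626) (k4 1604)) (br (sy 1249626) (k4 1092)))))) (br (br (br (br (br (br (br (br (br (lf 1525384) 
  (lf 1525314)) (k4 2627)) (sy 1521793)) (sy 1521800)) (k4 3140)) (sy 1754753)) (br (br (br (br (br (br 
  (lf 1267280) (lf 1266328)) (k4 2627)) (br (br (lf 1751176) (lf 1751176)) (k4 2627))) (k4 2250)) (k4 3140)) 
  (br (br (br (br (br (lf 1267336) (k4 2114)) (k4 2627)) (k4 2242)) (k4 2250)) (k4 1092)))) (sy 1754753)) (br (br 
  (br (br (br (br (br (br (lf 944720) (lf 1525328)) (k4 2627)) (sy 1521800)) (k4 2187)) (k4 3140)) (br (br (br (br 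
  (br (lf 1238545) (lf 1174145)) (k4 2627)) (k4 2242)) (k4 2187)) (k4 3140))) (k4 1676)) (br (br (br (br (br (br 
  (br (lf 944706) (lf 944706)) (k4 2115)) (k4 2179)) (k4 2187)) (k4 1604)) (k4 1668)) (k4 1676))))) (k4 1605))
   (sy 1520897)) (sy 1520904)))) (k4 3285)) (k4 3396)) (k4 3404)) (k4 3349)) (k4 3357)) (k4 2118)) 
  (sy 1754305)) (sy 1754312)) (sy 1754753))

theorem t27_ok : check RT t27 24 1804 = true := by decide +kernel

def t28 : Cert :=
  (br (br (br (br (br (br (br (br (br (br (br (br (br (br (br (br (br (br (br (br (br (br (br (br (lf 1726032) (sy 1724954)) 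
  (sy 1724954)) (br (br (lf 1718801) (lf 1725465)) (sy 1724954))) (br (br (br (lf 1678096) (lf 1624784)) (br 
  (lf 1677648) (k4 1665))) (br (br (lf 1676640) (k4 1602)) (k4 1091)))) (k4 3140)) (br (sy 1724954) (k4 3140)))
   (br (br (sy 1724954) (k4 3140)) (br (sy 1724954) (k4 1092)))) (br (br (br (sy 1724954) (k4 3140)) (br 
  (sy 1724954) (k4 3140))) (br (br (sy 1724954) (k4 3140)) (br (sy 1724954) (k4 1092))))) (k4 3353)) (br (br (br 
  (br (br (sy 1724954) (k4 3140)) (br (sy 1724954) (k4 3140))) (br (br (sy 1724954) (k4 3140)) (br (sy 1724954) 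
  (k4 1092)))) (br (br (br (sy 1724954) (k4 3140)) (k4 1668)) (br (br (sy 1724954) (k4 3140)) (k4 1668)))) 
  (k4 3353))) (br (br (br (br (br (br (br (br (br (br (lf 1743042) (lf 1626387)) (br (lf 1742594) (lf 1626338))) (br 
  (br (lf 1737498) (lf 1579746)) (br (lf 1677858) (k4 1672)))) (br (br (br (lf 1627920) (lf 1627171)) (br 
  (lf 1620514) (k4 1665))) (br (br (lf 1742468) (k4 1602)) (k4 1091)))) (k4 3140)) (br (sy 1724954) (k4 3140)))
   (br (br (sy 1724954) (k4 3140)) (br (sy 1724954) (k4 1092)))) (br (br (br (sy 1724954) (k4 3140)) (br 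
  (sy 1724954) (k4 3140))) (br (br (sy 1724954) (k4 3140)) (br (sy 1724954) (k4 1092))))) (k4 3353)) (br (br (br 
  (br (br (br (br (br (br (lf 1726032) (sy 1724954)) (sy 1724954)) (br (br (lf 1718864) (lf 1726032)) (sy 1724954)
  )) (br (br (br (lf 1624784) (lf 1619296)) (br (lf 1677648) (k4 1665))) (br (br (lf 1693832) (k4 1602)) 
  (k4 1091)))) (k4 3140)) (br (sy 1724954) (k4 3140))) (br (br (sy 1724954) (k4 3140)) (br (sy 1724954) 
  (k4 1092)))) (br (br (br (sy 1724954) (k4 3140)) (k4 1668)) (br (br (sy 1724954) (k4 3140)) (k4 1668)))) 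
  (k4 3353)))) (br (br (br (br (br (br (br (br (br (br (br (lf 1754123) (lf 1745443)) (br (lf 1737498) (lf 1579802)))
   (br (br (lf 1754137) (lf 1744988)) (br (lf 1587796) (k4 1672)))) (br (br (br (lf 1747032) (lf 1645252)) (br 
  (lf 1620612) (k4 1665))) (br (br (lf 1653344) (k4 1602)) (k4 1091)))) (k4 3140)) (br (br (br (br (br 
  (lf 1725465) (sy 1724954)) (sy 1724954)) (br (br (lf 1712473) (sy 547022)) (sy 1724954))) (br (br (br 
  (lf 1657544) (lf 1658979)) (br (lf 1618092) (k4 1665))) (br (br (lf 1655017) (k4 1602)) (k4 1091)))) 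
  (k4 3140))) (br (br (sy 1724954) (k4 3140)) (br (sy 1724954) (k4 1092)))) (br (br (br (sy 1724954) (k4 3140)) 
  (br (sy 1724954) (k4 3140))) (br (br (sy 1724954) (k4 3140)) (br (sy 1724954) (k4 1092))))) (k4 3353)) (br (br 
  (br (br (br (br (br (br (br (lf 1726081) (lf 1714713)) (br (lf 1718913) (lf 1709589))) (br (br (lf 1751169) 
  (lf 1655017)) (br (lf 1687889) (k4 1672)))) (br (br (br (lf 1718920) (lf 1644888)) (br (lf 1688680) (k4 1665))
  ) (br (br (lf 1653064) (k4 1602)) (k4 1091)))) (k4 3140)) (br (sy 1724954) (k4 3140))) (br (br (sy 1724954) 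
  (k4 3140)) (br (sy 1724954) (k4 1092)))) (br (br (br (sy 1724954) (k4 3140)) (k4 1668)) (br (br (sy 1724954) 
  (k4 3140)) (k4 1668)))) (k4 3353))) (br (br (br (br (br (br (br (br (br (br (lf 1737491) (k4 2696)) (br 
  (lf 1741026) (k4 2696))) (br (br (lf 1738338) (k4 2696)) (br (lf 1594068) (k4 1672)))) (br (br (br (lf 1742468)
   (k4 2696)) (br (lf 1741012) (k4 1665))) (br (br (lf 1750084) (k4 1602)) (k4 1091)))) (k4 3140)) (br (br (br 
  (br (br (lf 1753171) (k4 2696)) (br (lf 1737498) (k4 2696))) (br (br (lf 1738891) (k4 2696)) (br (lf 1594082) 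
  (k4 1672)))) (br (br (br (lf 1753619) (k4 2696)) (br (lf 1594138) (k4 1665))) (br (br (lf 1641227) (k4 1602)) 
  (k4 1091)))) (k4 3140))) (br (br (sy 1724954) (k4 3140)) (br (sy 1724954) (k4 1092)))) (br (br (br (sy 1724954)
   (k4 3140)) (br (sy 1724954) (k4 3140))) (br (br (sy 1724954) (k4 3140)) (br (sy 1724954) (k4 1092))))) 
  (k4 3353)) (br (br (br (br (br (br (br (br (br (lf 1753171) (k4 2696)) (br (lf 1753626) (k4 2696))) (br (br 
  (lf 1750049) (k4 2696)) (br (lf 1587852) (k4 1672)))) (br (br (br (lf 1749664) (k4 2696)) (br (lf 1627668) 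
  (k4 1665))) (br (br (lf 1692740) (k4 1602)) (k4 1091)))) (k4 3140)) (br (br (br (br (br (lf 1725465) (k4 2696)) 
  (sy 1724954)) (k4 2242)) (br (br (br (lf 1746955) (k4 2696)) (br (lf 1640793) (k4 1665))) (k4 2242))) 
  (k4 3140))) (br (br (sy 1724954) (k4 3140)) (br (sy 1724954) (k4 1092)))) (br (br (br (sy 1724954) (k4 3140)) 
  (k4 1668)) (br (br (sy 1724954) (k4 3140)) (k4 1668)))) (k4 3353))))) (br (br (br (br (br (br (br (br (br (br (br 
  (br (lf 1753808) (lf 1628291)) (br (lf 1627906) (lf 1627395))) (br (br (lf 1754200) (lf 1645280)) (br 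
  (lf 1742496) (k4 1672)))) (br (br (br (lf 1743056) (lf 1627360)) (br (lf 1620640) (k4 1665))) (br (br 
  (lf 1676640) (k4 1602)) (k4 1091)))) (k4 3140)) (br (br (br (br (br (lf 1725080) (lf 1627395)) (br (lf 1624707)
   (lf 1608019))) (br (br (lf 1657432) (lf 1641059)) (br (lf 1671845) (k4 1672)))) (br (br (br (lf 1616664) 
  (lf 1645336)) (br (lf 1616104) (k4 1665))) (br (br (lf 1652840) (k4 1602)) (k4 1091)))) (k4 3140))) (br (br 
  (sy 1724954) (k4 3140)) (br (sy 1724954) (k4 1092)))) (br (br (br (br (br (br (br (lf 1726032) (sy 1724954)) 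
  (sy 1724954)) (br (br (lf 1693776) (lf 1581804)) (sy 1724954))) (br (br (br (lf 1677648) (lf 1616104)) (br 
  (lf 1677648) (k4 1665))) (br (br (lf 1688680) (k4 1602)) (k4 1091)))) (k4 3140)) (br (sy 1724954) (k4 3140)))
   (br (br (sy 1724954) (k4 3140)) (br (sy 1724954) (k4 1092))))) (k4 3353)) (br (br (br (br (br (br (br (br (br 
  (lf 1725640) (lf 1623384)) (br (lf 1620304) (lf 1619240))) (br (br (lf 1751176) (lf 1656424)) (br 
  (lf 1677480) (k4 1672)))) (br (br (br (lf 1676584) (lf 1615656)) (br (lf 1677480) (k4 1665))) (br (br 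
  (lf 1681512) (k4 1602)) (k4 1091)))) (k4 3140)) (br (br (br (br (br (lf 1714776) (lf 1657411)) (br (lf 1712984)
   (lf 1644587))) (k4 2242)) (br (br (br (lf 1656424) (lf 1655528)) (br (lf 1623272) (k4 1665))) (k4 2242))) 
  (k4 3140))) (br (br (sy 1724954) (k4 3140)) (br (sy 1724954) (k4 1092)))) (br (br (br (sy 1724954) (k4 3140)) 
  (k4 1668)) (br (br (sy 1724954) (k4 3140)) (k4 1668)))) (k4 3353))) (br (br (br (br (br (br (br (br (br (br 
  (lf 1742874) (k4 2689)) (br (lf 1741082) (k4 2689))) (br (br (lf 1741859) (k4 2689)) (br (lf 1742370) 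
  (k4 1672)))) (br (br (br (lf 1742608) (k4 2689)) (br (lf 1627920) (k4 1665))) (br (br (lf 1742496) (k4 1602)) 
  (k4 1091)))) (k4 3140)) (br (br (br (br (br (lf 1753731) (k4 2689)) (br (lf 1741082) (k4 2689))) (br (br 
  (lf 1738835) (k4 2689)) (br (lf 1579795) (k4 1672)))) (br (br (br (lf 1742104) (k4 2689)) (br (lf 1627920) 
  (k4 1665))) (br (br (lf 1645315) (k4 1602)) (k4 1091)))) (k4 3140))) (br (br (sy 1724954) (k4 3140)) (br 
  (sy 1724954) (k4 1092)))) (br (br (br (br (br (br (br (lf 1753626) (k4 2689)) (br (lf 1627906) (k4 2689))) (br 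
  (br (lf 1737442) (k4 2689)) (br (lf 1675618) (k4 1672)))) (br (br (br (lf 1628368) (k4 2689)) (br (lf 1620514) 
  (k4 1665))) (br (br (lf 1627808) (k4 1602)) (k4 1091)))) (k4 3140)) (br (sy 1724954) (k4 3140))) (br (br 
  (sy 1724954) (k4 3140)) (br (sy 1724954) (k4 1092))))) (k4 3353)) (br (br (br (br (br (br (br (br (br (lf 1753752)
   (k4 2689)) (br (lf 1628368) (k4 2689))) (br (br (lf 1742608) (k4 2689)) (br (lf 1627668) (k4 1672)))) (br (br 
  (br (lf 1627808) (k4 2689)) (br (lf 1620640) (k4 1665))) (br (br (lf 1676640) (k4 1602)) (k4 1091)))) 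
  (k4 3140)) (br (br (br (br (br (lf 1754179) (k4 2689)) (br (lf 1710800) (k4 2689))) (k4 2242)) (br (br (br 
  (lf 1628312) (k4 2689)) (br (lf 1616664) (k4 1665))) (k4 2242))) (k4 3140))) (br (br (sy 1724954) (k4 3140)) 
  (br (sy 1724954) (k4 1092)))) (br (br (br (br (br (br (br (lf 1726032) (k4 2689)) (sy 1724954)) (k4 2179)) (br 
  (br (br (lf 1620304) (k4 2689)) (br (lf 846160) (k4 1665))) (k4 2179))) (k4 3140)) (k4 1668)) (br (br 
  (sy 1724954) (k4 3140)) (k4 1668)))) (k4 3353)))) (br (br (br (br (br (br (br (br (br (br (br (lf 1742104) 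
  (k4 2626)) (br (lf 1742594) (k4 2626))) (br (br (lf 1745177) (k4 2626)) (br (lf 1750084) (k4 1672)))) (br (br 
  (br (lf 1742048) (k4 2626)) (br (lf 1742496) (k4 1665))) (br (br (lf 1659616) (k4 1602)) (k4 1091)))) 
  (k4 3140)) (br (br (br (br (br (lf 1747011) (k4 2626)) (br (lf 1737995) (k4 2626))) (br (br (lf 1660939) 
  (k4 2626)) (br (lf 1594635) (k4 1672)))) (br (br (br (lf 1745688) (k4 2626)) (br (lf 1659672) (k4 1665))) (br 
  (br (lf 743449) (k4 1602)) (k4 1091)))) (k4 3140))) (br (br (sy 1724954) (k4 3140)) (br (sy 1724954) (k4 1092)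
  ))) (br (br (br (br (br (br (br (lf 1753752) (k4 2626)) (br (lf 1749538) (k4 2626))) (br (br (lf 1751057) 
  (k4 2626)) (br (lf 1691914) (k4 1672)))) (br (br (br (lf 1743056) (k4 2626)) (br (lf 1627920) (k4 1665))) (br 
  (br (lf 1653281) (k4 1602)) (k4 1091)))) (k4 3140)) (br (br (br (br (br (lf 1725465) (k4 2626)) (sy 1724954)) 
  (k4 2256)) (br (br (br (lf 1725633) (k4 2626)) (br (lf 1640793) (k4 1665))) (k4 2256))) (k4 3140))) (br (br 
  (sy 1724954) (k4 3140)) (br (sy 1724954) (k4 1092))))) (k4 3353)) (br (br (br (br (br (br (br (br (br (lf 1754312)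
   (k4 2626)) (br (lf 1746696) (k4 2626))) (br (br (lf 1661128) (k4 2626)) (br (lf 1692740) (k4 1672)))) (br (br 
  (br (lf 1747032) (k4 2626)) (br (lf 1682016) (k4 1665))) (br (br (lf 1653344) (k4 1602)) (k4 1091)))) 
  (k4 3140)) (br (br (br (br (br (lf 1657544) (k4 2626)) (br (lf 1747032) (k4 2626))) (k4 2242)) (br (br (br 
  (lf 740040) (k4 2626)) (br (lf 740040) (k4 1665))) (k4 2242))) (k4 3140))) (br (br (sy 1724954) (k4 3140)) 
  (br (sy 1724954) (k4 1092)))) (br (br (br (br (br (br (br (lf 1725633) (k4 2626)) (br (lf 1690248) (k4 2626))) 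
  (k4 2179)) (br (br (br (lf 1751176) (k4 2626)) (br (lf 1688680) (k4 1665))) (k4 2179))) (k4 3140)) (k4 1668)) 
  (br (br (sy 1724954) (k4 3140)) (k4 1668)))) (k4 3353))) (k4 1093)))) (br (br (br (br (br (br (br (br (br (br (br 
  (br (br (lf 1751106) (lf 1738338)) (br (lf 1749762) (lf 1672034))) (br (br (lf 1751057) (lf 1587852)) (br 
  (lf 1691746) (k4 1672)))) (br (br (br (lf 1751120) (lf 1742468)) (br (lf 1677858) (k4 1665))) (br (br 
  (lf 1692705) (k4 1602)) (k4 1091)))) (k4 3140)) (br (br (br (br (br (lf 1724625) (lf 1595545)) (br (lf 1753290)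
   (lf 1579242))) (br (br (lf 1725969) (lf 1582889)) (br (lf 1587978) (k4 1672)))) (br (br (br (lf 1690129) 
  (lf 1618988)) (br (lf 1672034) (k4 1665))) (br (br (lf 1681449) (k4 1602)) (k4 1091)))) (k4 3140))) (br (br 
  (br (br (br (br (lf 1726032) (sy 1724954)) (sy 1724954)) (br (br (lf 1690129) (lf 1618092)) (sy 1724954))) (br 
  (br (br (lf 1690192) (lf 1615656)) (br (lf 1677648) (k4 1665))) (br (br (lf 1677984) (k4 1602)) (k4 1091)))) 
  (k4 3140)) (br (sy 1724954) (k4 1092)))) (br (br (br (br (br (br (br (lf 1751050) (lf 1751050)) (br (lf 1693706) 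
  (lf 1673546))) (br (br (lf 1693713) (lf 1587537)) (sy 809102))) (br (br (br (lf 1693706) (lf 1673826)) (br 
  (lf 999754) (k4 1665))) (br (br (lf 1687889) (k4 1602)) (k4 1091)))) (k4 3140)) (br (br (br (br (br (lf 1705809)
   (lf 1705809)) (br (lf 1591114) (sy 115542))) (k4 2256)) (br (br (br (lf 1690122) (lf 1587530)) (br 
  (lf 999754) (k4 1665))) (k4 2256))) (k4 3140))) (br (br (sy 1724954) (k4 3140)) (br (sy 1724954) (k4 1092))))
  ) (k4 3353)) (br (br (br (br (br (br (br (br (br (lf 1690129) (lf 1718850)) (br (lf 1693706) (lf 1671978))) (br 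
  (br (lf 1693713) (lf 1688617)) (br (lf 1687889) (k4 1672)))) (br (br (br (lf 1693832) (lf 1690248)) (br 
  (lf 1000258) (k4 1665))) (br (br (lf 1688897) (k4 1602)) (k4 1091)))) (k4 3140)) (br (br (br (br (br 
  (lf 1718801) (lf 1713985)) (br (lf 1718794) (lf 1673553))) (k4 2242)) (br (br (br (lf 1688897) (lf 1681729)) 
  (br (lf 999593) (k4 1665))) (k4 2242))) (k4 3140))) (br (br (sy 1724954) (k4 3140)) (br (sy 1724954) (k4 1092)
  ))) (br (br (br (br (br (br (br (lf 1718794) (lf 1716561)) (br (lf 1001994) (lf 999530))) (k4 2179)) (br (br (br 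
  (lf 1002001) (lf 1002001)) (sy 793394)) (k4 2179))) (k4 3140)) (k4 1668)) (br (br (sy 1724954) (k4 3140)) 
  (k4 1668)))) (k4 3353))) (br (br (br (br (br (br (br (br (br (br (lf 1754634) (lf 1741026)) (k4 2760)) (br (br 
  (lf 1749258) (lf 1738324)) (k4 2760))) (br (br (br (lf 1749538) (lf 1626324)) (k4 2760)) (br (br (lf 1691732) 
  (k4 1602)) (k4 1091)))) (k4 3140)) (br (br (br (br (br (lf 1753290) (lf 1737491)) (k4 2760)) (br (br 
  (lf 1738513) (lf 1595041)) (k4 2760))) (br (br (br (lf 1738506) (lf 1608467)) (k4 2760)) (br (br (lf 1594978) 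
  (k4 1602)) (k4 1091)))) (k4 3140))) (br (br (br (br (br (br (lf 1753626) (lf 1626387)) (k4 2760)) (br (br 
  (lf 1738506) (lf 1608467)) (k4 2760))) (br (br (br (lf 1742608) (lf 479444)) (k4 2760)) (br (br (lf 1627906) 
  (k4 1602)) (k4 1091)))) (k4 3140)) (br (sy 1724954) (k4 1092)))) (br (br (br (br (br (br (br (lf 1738954) 
  (lf 1738338)) (k4 2760)) (br (br (lf 1749258) (lf 1587978)) (k4 2760))) (br (br (br (lf 1692194) (lf 1672034))
   (k4 2760)) (br (br (lf 1691746) (k4 1602)) (k4 1091)))) (k4 3140)) (br (br (br (br (br (lf 1738954) (lf 219338)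
  ) (k4 2760)) (k4 2256)) (br (br (br (lf 1738954) (lf 219338)) (k4 2760)) (k4 2256))) (k4 3140))) (br (br 
  (sy 1724954) (k4 3140)) (br (sy 1724954) (k4 1092))))) (k4 3353)) (br (br (br (br (br (br (br (br (br (lf 1754690)
   (lf 1753290)) (k4 2760)) (br (br (lf 1693713) (lf 1738324)) (k4 2760))) (br (br (br (lf 1751120) (lf 1677844)
  ) (k4 2760)) (br (br (lf 1691921) (k4 1602)) (k4 1091)))) (k4 3140)) (br (br (br (br (br (lf 1753297) 
  (lf 1706586)) (k4 2760)) (k4 2242)) (br (br (br (lf 1693776) (lf 1618988)) (k4 2760)) (k4 2242))) (k4 3140)))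
   (br (br (br (br (br (br (lf 1726032) (sy 1724954)) (k4 2760)) (br (br (lf 1693776) (lf 1618092)) (k4 2760))) 
  (k4 2250)) (k4 3140)) (br (sy 1724954) (k4 1092)))) (br (br (br (br (br (br (br (lf 1690122) (lf 1738506)) 
  (k4 2760)) (k4 2179)) (br (br (br (lf 1005634) (lf 985194)) (k4 2760)) (k4 2179))) (k4 3140)) (k4 1668)) (br 
  (br (sy 1724954) (k4 3140)) (k4 1668)))) (k4 3353)))) (br (br (br (br (br (br (br (br (br (br (br (lf 1749258) 
  (lf 1738338)) (br (lf 1738338) (lf 1594068))) (k4 2768)) (br (br (br (lf 1749776) (lf 1742468)) (br 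
  (lf 1749076) (k4 1665))) (k4 2768))) (k4 3140)) (br (br (br (br (br (lf 1753241) (lf 1595531)) (br (lf 1595601)
   (lf 1595475))) (k4 2768)) (br (br (br (lf 1751057) (lf 1658979)) (br (lf 1749258) (k4 1665))) (k4 2768))) 
  (k4 3140))) (br (br (br (br (br (br (lf 1753171) (lf 1741859)) (br (lf 1749538) (lf 1579676))) (k4 2768)) (br 
  (br (br (lf 1747144) (lf 1745667)) (br (lf 1742594) (k4 1665))) (k4 2768))) (k4 3140)) (br (br (br (br (br 
  (lf 1725465) (k4 2114)) (sy 1724954)) (k4 2768)) (br (br (br (lf 1754137) (k4 2114)) (br (lf 1725465) 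
  (k4 1665))) (k4 2768))) (k4 1092)))) (br (br (br (br (br (br (br (lf 1749258) (lf 1595594)) (br (lf 1738506) 
  (lf 1587978))) (k4 2768)) (br (br (br (lf 1691921) (lf 1738506)) (br (sy 793394) (k4 1665))) (k4 2768))) 
  (k4 3140)) (br (br (br (br (br (lf 1753297) (lf 1595545)) (br (lf 1591121) (sy 144809))) (k4 2256)) (br (br (br 
  (lf 1673553) (sy 84574)) (br (sy 793394) (k4 1665))) (k4 2256))) (k4 3140))) (br (br (sy 1724954) (k4 3140)) 
  (br (sy 1724954) (k4 1092))))) (k4 3353)) (br (br (br (br (br (br (br (br (br (lf 1754753) (lf 1738513)) (br 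
  (lf 1693713) (lf 1738401))) (k4 2768)) (br (br (br (lf 1693832) (lf 1750049)) (br (lf 1691809) (k4 1665))) 
  (k4 2768))) (k4 3140)) (br (br (br (br (br (lf 1753241) (lf 1705305)) (br (lf 1687889) (lf 207585))) (k4 2242))
   (br (br (br (lf 1754753) (lf 737625)) (br (lf 1002113) (k4 1665))) (k4 2242))) (k4 3140))) (br (br (br (br (br 
  (br (lf 1725633) (lf 1747137)) (br (lf 1751120) (lf 1691809))) (k4 2768)) (k4 2250)) (k4 3140)) (br 
  (sy 1724954) (k4 1092)))) (br (br (br (br (br (br (br (lf 1751057) (lf 1705809)) (br (lf 1690122) (lf 813386))) 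
  (k4 2179)) (br (br (br (lf 1005585) (lf 985257)) (sy 793394)) (k4 2179))) (k4 3140)) (k4 1668)) (br (br 
  (sy 1724954) (k4 3140)) (k4 1668)))) (k4 3353))) (br (br (br (br (br (br (br (br (br (br (lf 1738506) (k4 2696)) 
  (k4 2760)) (k4 2768)) (br (br (br (lf 1511650) (k4 2696)) (k4 2760)) (k4 2768))) (k4 3140)) (br (br (br (br (br 
  (lf 1738891) (k4 2696)) (k4 2760)) (k4 2768)) (br (br (br (lf 1737995) (k4 2696)) (k4 2760)) (k4 2768))) 
  (k4 3140))) (br (br (br (br (br (br (lf 1753626) (k4 2696)) (k4 2760)) (k4 2768)) (br (br (br (lf 1512994) 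
  (k4 2696)) (k4 2760)) (k4 2768))) (k4 3140)) (br (br (br (br (br (lf 1523851) (k4 2114)) (k4 2760)) (k4 2768)) 
  (br (br (br (lf 1511699) (k4 2114)) (k4 2760)) (k4 2768))) (k4 1092)))) (br (br (br (br (br (br (br (lf 1738954) 
  (k4 2696)) (k4 2760)) (k4 2768)) (br (br (br (lf 1519714) (k4 2696)) (k4 2760)) (k4 2768))) (k4 3140)) (br (br 
  (br (br (br (lf 1509578) (k4 2696)) (k4 2760)) (k4 2256)) (br (br (br (lf 218897) (k4 2696)) (k4 2760)) 
  (k4 2256))) (k4 3140))) (br (br (sy 1724954) (k4 3140)) (br (sy 1724954) (k4 1092))))) (k4 3353)) (br (br (br 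
  (br (br (br (br (br (br (lf 1523914) (k4 2696)) (k4 2760)) (k4 2768)) (br (br (br (lf 1749762) (k4 2696)) 
  (k4 2760)) (k4 2768))) (k4 3140)) (br (br (br (br (br (lf 1753297) (k4 2696)) (k4 2760)) (k4 2242)) (br (br (br 
  (lf 1523921) (k4 2696)) (k4 2760)) (k4 2242))) (k4 3140))) (br (br (br (br (br (br (lf 1753626) (k4 2696)) 
  (k4 2760)) (k4 2768)) (k4 2250)) (k4 3140)) (br (br (br (br (br (lf 1725465) (k4 2114)) (k4 2760)) (k4 2242)) 
  (k4 2250)) (k4 1092)))) (br (br (br (br (br (br (br (lf 1519889) (k4 2696)) (k4 2760)) (k4 2179)) (br (br (br 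
  (lf 1005585) (k4 2696)) (k4 2760)) (k4 2179))) (k4 3140)) (k4 1668)) (br (br (sy 1724954) (k4 3140)) 
  (k4 1668)))) (k4 3353))))) (br (br (br (br (br (br (br (br (br (br (br (br (lf 1749776) (lf 1742867)) (br 
  (lf 1742594) (lf 1627668))) (br (br (lf 1749090) (lf 1750084)) (br (lf 1749076) (k4 1672)))) (br (br (br 
  (lf 1749664) (lf 1742048)) (br (lf 1627808) (k4 1665))) (br (br (lf 1692768) (k4 1602)) (k4 1091)))) 
  (k4 3140)) (br (br (br (br (br (lf 1753731) (lf 1737827)) (br (lf 1749090) (lf 1608348))) (br (br (lf 1750273) 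
  (lf 1641227)) (br (lf 1594978) (k4 1672)))) (br (br (br (lf 1743056) (lf 1616643)) (br (lf 1620752) (k4 1665))
  ) (br (br (lf 1692705) (k4 1602)) (k4 1091)))) (k4 3140))) (br (br (br (br (br (br (lf 1753808) (lf 1743000)) 
  (br (lf 1742594) (lf 479514))) (br (br (lf 1753808) (lf 1616664)) (br (lf 1620514) (k4 1672)))) (br (br (br 
  (lf 1742104) (sy 579782)) (br (lf 1620752) (k4 1665))) (br (br (lf 1615712) (k4 1602)) (k4 1091)))) (k4 3140)
  ) (br (br (br (br (br (lf 1725507) (k4 2114)) (br (lf 1710744) (k4 2114))) (br (br (lf 1754305) (k4 2114)) (br 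
  (lf 1579165) (k4 1672)))) (br (br (br (lf 1725080) (k4 2114)) (br (lf 480536) (k4 1665))) (br (br (lf 733992) 
  (k4 1602)) (k4 1091)))) (k4 1092)))) (br (br (br (br (br (br (br (lf 1754690) (lf 1737442)) (br (lf 1691746) 
  (lf 1673826))) (br (br (lf 1693713) (lf 1595153)) (sy 809102))) (br (br (br (lf 1749762) (lf 1692432)) (br 
  (lf 1004290) (k4 1665))) (br (br (lf 1693706) (k4 1602)) (k4 1091)))) (k4 3140)) (br (br (br (br (br 
  (lf 1725969) (lf 1591947)) (br (lf 1687882) (lf 1592010))) (k4 2256)) (br (br (br (lf 1718850) (lf 1640233)) 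
  (br (lf 1004290) (k4 1665))) (k4 2256))) (k4 3140))) (br (br (br (br (br (br (lf 1726032) (sy 1724954)) 
  (sy 1724954)) (br (br (lf 1754690) (lf 1640793)) (sy 809102))) (br (br (br (lf 1624784) (sy 579782)) (br 
  (sy 822444) (k4 1665))) (br (br (lf 1000552) (k4 1602)) (k4 1091)))) (k4 3140)) (br (sy 1724954) (k4 1092))))
  ) (k4 3353)) (br (br (br (br (br (br (br (br (br (lf 1754704) (lf 1751120)) (br (lf 1751120) (lf 1677844))) (br 
  (br (lf 1751176) (lf 1692740)) (br (lf 1692929) (k4 1672)))) (br (br (br (lf 1751120) (lf 1653344)) (br 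
  (lf 1004192) (k4 1665))) (br (br (lf 1692768) (k4 1602)) (k4 1091)))) (k4 3140)) (br (br (br (br (br 
  (lf 1725633) (lf 1747032)) (br (lf 1693762) (lf 1618092))) (k4 2242)) (br (br (br (lf 1690248) (lf 727272)) 
  (br (lf 1681736) (k4 1665))) (k4 2242))) (k4 3140))) (br (br (br (br (br (br (lf 1753808) (lf 1725528)) (br 
  (lf 1710800) (lf 1616608))) (br (br (lf 1726088) (lf 727272)) (br (lf 1000272) (k4 1672)))) (k4 2250)) 
  (k4 3140)) (br (br (br (br (br (lf 1266888) (k4 2114)) (br (lf 1267336) (k4 2114))) (k4 2242)) (k4 2250)) 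
  (k4 1092)))) (br (br (br (br (br (br (br (lf 1718913) (lf 1751050)) (br (lf 1005578) (lf 1690122))) (k4 2179)) 
  (br (br (br (lf 1693776) (lf 1000104)) (sy 793394)) (k4 2179))) (k4 3140)) (k4 1668)) (br (br (sy 1724954) 
  (k4 3140)) (k4 1668)))) (k4 3353))) (br (br (br (br (br (br (br (br (br (br (lf 1513218) (k4 2689)) (k4 2760)) (br 
  (br (lf 1508962) (k4 2689)) (k4 2760))) (br (br (br (lf 1513120) (k4 2689)) (k4 2760)) (br (br (lf 1742468) 
  (k4 1602)) (k4 1091)))) (k4 3140)) (br (br (br (br (br (lf 1523802) (k4 2689)) (k4 2760)) (br (br (lf 1738338) 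
  (k4 2689)) (k4 2760))) (br (br (br (lf 1742608) (k4 2689)) (k4 2760)) (br (br (lf 1507996) (k4 1602)) (k4 1091)
  ))) (k4 3140))) (br (br (br (br (br (br (lf 1513603) (k4 2689)) (k4 2760)) (br (br (lf 1742083) (k4 2689)) 
  (k4 2760))) (br (br (br (lf 1743000) (k4 2689)) (k4 2760)) (br (br (lf 1369760) (k4 1602)) (k4 1091)))) 
  (k4 3140)) (br (br (br (br (br (lf 1742979) (k4 2114)) (k4 2760)) (br (br (lf 1738835) (k4 2114)) (k4 2760))) 
  (br (br (br (lf 481432) (k4 2114)) (k4 2760)) (br (br (lf 1512483) (k4 1602)) (k4 1091)))) (k4 1092)))) (br (br 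
  (br (br (br (br (br (lf 1512994) (k4 2689)) (k4 2760)) (br (br (lf 1519714) (k4 2689)) (k4 2760))) (br (br (br 
  (lf 1749538) (k4 2689)) (k4 2760)) (br (br (lf 1004066) (k4 1602)) (k4 1091)))) (k4 3140)) (br (br (br (br (br 
  (lf 1509466) (k4 2689)) (k4 2760)) (k4 2256)) (br (br (br (lf 1519882) (k4 2689)) (k4 2760)) (k4 2256))) 
  (k4 3140))) (br (br (br (br (br (br (lf 1524418) (k4 2689)) (k4 2760)) (br (br (lf 1525258) (k4 2689)) (k4 2760))
  ) (br (br (br (lf 1370320) (k4 2689)) (k4 2760)) (br (br (lf 1416450) (k4 1602)) (k4 1091)))) (k4 3140)) (br 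
  (sy 1724954) (k4 1092))))) (k4 3353)) (br (br (br (br (br (br (br (br (br (lf 1525314) (k4 2689)) (k4 2760)) (br 
  (br (lf 1519882) (k4 2689)) (k4 2760))) (br (br (br (lf 1513120) (k4 2689)) (k4 2760)) (br (br (lf 1004640) 
  (k4 1602)) (k4 1091)))) (k4 3140)) (br (br (br (br (br (lf 1523914) (k4 2689)) (k4 2760)) (k4 2242)) (br (br (br 
  (lf 1754704) (k4 2689)) (k4 2760)) (k4 2242))) (k4 3140))) (br (br (br (br (br (br (lf 1743056) (k4 2689)) 
  (k4 2760)) (br (br (lf 1753808) (k4 2689)) (k4 2760))) (k4 2250)) (k4 3140)) (br (br (br (br (br (lf 1524803) 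
  (k4 2114)) (k4 2760)) (k4 2242)) (k4 2250)) (k4 1092)))) (br (br (br (br (br (br (br (lf 1525314) (k4 2689)) 
  (k4 2760)) (k4 2179)) (br (br (br (lf 1520400) (k4 2689)) (k4 2760)) (k4 2179))) (k4 3140)) (k4 1668)) (br (br 
  (br (br (br (br (lf 1726032) (k4 2689)) (k4 2760)) (k4 2179)) (k4 2250)) (k4 3140)) (k4 1668)))) (k4 3353)))) 
  (br (br (br (br (br (br (br (br (br (br (br (lf 1521800) (k4 2626)) (br (lf 1511650) (k4 2626))) (k4 2768)) (br 
  (sy 1517313) (k4 2768))) (k4 3140)) (br (br (br (sy 1517313) (k4 2768)) (br (sy 1517313) (k4 2768))) (k4 3140)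
  )) (br (br (br (br (br (br (lf 1742979) (k4 2626)) (br (lf 1511699) (k4 2626))) (k4 2768)) (br (sy 1517313) 
  (k4 2768))) (k4 3140)) (br (br (br (br (br (lf 1524803) (k4 2114)) (br (lf 1511699) (k4 2114))) (k4 2768)) (br 
  (sy 1517313) (k4 2768))) (k4 1092)))) (br (br (br (br (br (br (br (lf 1749258) (k4 2626)) (br (lf 1509130) 
  (k4 2626))) (k4 2768)) (br (br (br (lf 1520162) (k4 2626)) (br (lf 975394) (k4 1665))) (k4 2768))) (k4 3140)) 
  (br (br (br (br (br (lf 1509529) (k4 2626)) (br (lf 1595601) (k4 2626))) (k4 2256)) (br (sy 1517313) (k4 2256)))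
   (k4 3140))) (br (br (br (br (br (br (lf 1754634) (k4 2626)) (br (lf 1513498) (k4 2626))) (k4 2768)) (br (br (br 
  (lf 1743056) (k4 2626)) (br (lf 1359106) (k4 1665))) (k4 2768))) (k4 3140)) (br (br (br (br (br (lf 1725465) 
  (k4 2114)) (sy 1724954)) (k4 2256)) (br (br (br (lf 1137864) (k4 2114)) (br (lf 928648) (k4 1665))) (k4 2256))
  ) (k4 1092))))) (k4 3353)) (br (br (br (br (br (br (br (br (br (lf 1521800) (k4 2626)) (br (lf 1520162) (k4 2626))
  ) (k4 2768)) (br (sy 1517313) (k4 2768))) (k4 3140)) (br (br (br (sy 1517313) (k4 2242)) (br (sy 1517313) 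
  (k4 2242))) (k4 3140))) (br (br (br (br (br (br (lf 1754200) (k4 2626)) (br (lf 1742104) (k4 2626))) (k4 2768)) 
  (k4 2250)) (k4 3140)) (br (br (br (br (br (lf 1137731) (k4 2114)) (br (lf 1137731) (k4 2114))) (k4 2242)) 
  (k4 2250)) (k4 1092)))) (br (br (br (br (br (br (br (lf 1521681) (k4 2626)) (br (lf 975121) (k4 2626))) (k4 2179)
  ) (br (br (br (lf 1521800) (k4 2626)) (sy 793394)) (k4 2179))) (k4 3140)) (k4 1668)) (br (br (br (br (br (br 
  (lf 1525384) (k4 2626)) (br (lf 1525384) (k4 2626))) (k4 2179)) (k4 2250)) (k4 3140)) (k4 1668)))) (k4 3353)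
  )) (k4 1093))))) (k4 3403)) (k4 3285)) (k4 3396)) (k4 3404)) (k4 3349)) (k4 3357)) (k4 2118)) (br (br (br (br 
  (br (br (br (br (br (br (br (br (br (br (br (br (br (br (br (br (br (lf 1725640) (sy 1724499)) (sy 1724954)) 
  (sy 1754305)) (br (br (br (lf 1749664) (lf 1644888)) (br (lf 1618092) (k4 1665))) (br (br (lf 1653064) 
  (k4 1602)) (k4 1091)))) (k4 3140)) (k4 3344)) (br (sy 1754305) (k4 3344))) (br (br (br (sy 1724499) (k4 3140))
   (k4 3344)) (br (br (sy 1724954) (k4 3140)) (k4 3344)))) (k4 3353)) (br (br (br (br (br (sy 1724954) (k4 3140)) 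
  (k4 3344)) (br (sy 1754305) (k4 3344))) (br (br (br (sy 1724499) (k4 3140)) (k4 1668)) (br (br (sy 1724954) 
  (k4 3140)) (k4 1668)))) (k4 3353))) (br (br (br (br (br (br (br (br (br (br (lf 1737498) (sy 1754305)) (br 
  (lf 1608418) (lf 1579732))) (sy 1754305)) (br (br (br (lf 1742104) (lf 1614179)) (br (lf 1618274) (k4 1665)))
   (br (br (lf 1737428) (k4 1602)) (k4 1091)))) (k4 3140)) (k4 3344)) (br (sy 1754305) (k4 3344))) (br (br (br 
  (sy 1724499) (k4 3140)) (k4 3344)) (br (br (sy 1724954) (k4 3140)) (k4 3344)))) (k4 3353)) (br (br (br (br (br 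
  (br (br (br (br (lf 1725640) (sy 1724499)) (sy 1724954)) (sy 1754305)) (br (br (br (lf 1709400) (lf 1644888)) 
  (br (lf 1618092) (k4 1665))) (br (br (lf 1652805) (k4 1602)) (k4 1091)))) (k4 3140)) (k4 3344)) (br 
  (sy 1754305) (k4 3344))) (br (br (br (sy 1724499) (k4 3140)) (k4 1668)) (br (br (sy 1724954) (k4 3140)) 
  (k4 1668)))) (k4 3353)))) (k4 3394)) (br (sy 1754305) (k4 3394))) (br (br (br (br (br (br (br (br (br (br (br (br 
  (br (lf 1738954) (lf 1738891)) (br (lf 1595146) (lf 1586018))) (br (br (lf 1587873) (lf 1583841)) (br 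
  (lf 1587873) (k4 1672)))) (br (br (br (lf 1692705) (lf 1608404)) (br (lf 1692194) (k4 1665))) (br (br 
  (lf 1681932) (k4 1602)) (k4 1091)))) (k4 3140)) (k4 3344)) (br (br (br (br (br (br (lf 1725465) (sy 1724954)) 
  (sy 1724954)) (br (br (lf 1714881) (lf 1640793)) (sy 1724954))) (br (br (br (lf 1692320) (lf 1644069)) (br 
  (lf 1677648) (k4 1665))) (br (br (lf 1651461) (k4 1602)) (k4 1091)))) (k4 3140)) (k4 3344))) (br (br (br (br 
  (br (br (br (lf 1673553) (sy 1724499)) (br (sy 1724499) (sy 1724499))) (br (br (lf 1587985) (sy 1724499)) 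
  (sy 809102))) (br (br (br (lf 1690122) (lf 1673553)) (br (lf 1671978) (k4 1665))) (br (br (lf 1673889) 
  (k4 1602)) (k4 1091)))) (k4 3140)) (k4 3344)) (br (br (sy 1724954) (k4 3140)) (k4 3344)))) (k4 3353)) (br (br 
  (br (br (br (br (br (br (br (lf 1754753) (lf 1712473)) (br (lf 1673553) (lf 1672461))) (br (br (lf 1691809) 
  (lf 1679713)) (br (lf 1674001) (k4 1672)))) (br (br (br (lf 1682177) (lf 1679629)) (br (lf 1690192) (k4 1665))
  ) (br (br (lf 1682177) (k4 1602)) (k4 1091)))) (k4 3140)) (k4 3344)) (br (br (sy 1724954) (k4 3140)) (k4 3344)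
  )) (br (br (br (sy 1724499) (k4 3140)) (k4 1668)) (br (br (sy 1724954) (k4 3140)) (k4 1668)))) (k4 3353))) (br 
  (br (br (br (br (br (br (br (br (br (lf 1738338) (lf 1737372)) (k4 2760)) (br (br (lf 1738513) (lf 1594572)) 
  (k4 2760))) (br (br (br (lf 1741026) (lf 1608348)) (k4 2760)) (br (br (lf 1691788) (k4 1602)) (k4 1091)))) 
  (k4 3140)) (k4 3344)) (br (br (br (br (br (br (lf 1742874) (lf 1740963)) (k4 2760)) (br (br (lf 1595601) 
  (lf 1579683)) (k4 2760))) (br (br (br (lf 1741852) (lf 1626268)) (k4 2760)) (br (br (lf 1742468) (k4 1602)) 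
  (k4 1091)))) (k4 3140)) (k4 3344))) (br (br (br (br (br (br (br (lf 1738506) (lf 1595482)) (k4 2760)) (br (br 
  (lf 1595146) (lf 211554)) (k4 2760))) (br (br (br (lf 1738338) (lf 1586004)) (k4 2760)) (br (br (lf 1587985) 
  (k4 1602)) (k4 1091)))) (k4 3140)) (k4 3344)) (br (br (sy 1724954) (k4 3140)) (k4 3344)))) (k4 3353)) (br (br 
  (br (br (br (br (br (br (br (lf 1738506) (lf 1594012)) (k4 2760)) (br (br (lf 1738401) (lf 1587873)) (k4 2760))) 
  (br (br (br (lf 1750084) (lf 1746444)) (k4 2760)) (br (br (lf 1672545) (k4 1602)) (k4 1091)))) (k4 3140)) 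
  (k4 3344)) (br (br (br (br (br (br (lf 1726081) (sy 1724954)) (k4 2760)) (br (br (lf 1705193) (lf 1640793)) 
  (k4 2760))) (k4 2250)) (k4 3140)) (k4 3344))) (br (br (br (br (br (br (br (lf 1673553) (sy 1724499)) (k4 2760)) 
  (k4 2179)) (br (br (br (lf 1673553) (lf 1673553)) (k4 2760)) (k4 2179))) (k4 3140)) (k4 1668)) (br (br 
  (sy 1724954) (k4 3140)) (k4 1668)))) (k4 3353)))) (k4 3394)) (br (br (br (br (br (br (br (br (br (br (br (br 
  (lf 1754312) (sy 1754305)) (br (lf 1741026) (lf 1579732))) (sy 1754305)) (br (br (br (lf 1750112) 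
  (lf 1645252)) (br (lf 1677956) (k4 1665))) (br (br (lf 1746500) (k4 1602)) (k4 1091)))) (k4 3140)) (k4 3344))
   (br (sy 1754305) (k4 3344))) (br (br (br (br (br (br (br (lf 1751057) (lf 1737820)) (br (lf 1673826) 
  (lf 1587810))) (br (br (lf 1595041) (lf 1582945)) (sy 809102))) (br (br (br (lf 1751176) (lf 1737428)) (br 
  (lf 1673812) (k4 1665))) (br (br (lf 1673868) (k4 1602)) (k4 1091)))) (k4 3140)) (k4 3344)) (br (br (br (br (br 
  (br (lf 1725640) (sy 1724499)) (sy 1724954)) (sy 1754305)) (br (br (br (lf 1688680) (sy 579782)) (br 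
  (lf 1618092) (k4 1665))) (br (br (lf 1653512) (k4 1602)) (k4 1091)))) (k4 3140)) (k4 3344)))) (k4 3353)) (br 
  (br (br (br (br (br (br (br (br (lf 1754312) (sy 1754305)) (br (lf 1750084) (lf 1746500))) (sy 1754305)) (br (br 
  (br (lf 1750112) (lf 1651552)) (br (lf 1682016) (k4 1665))) (br (br (lf 1653316) (k4 1602)) (k4 1091)))) 
  (k4 3140)) (k4 3344)) (br (sy 1754305) (k4 3344))) (br (br (br (br (br (br (br (lf 1690241) (lf 1712361)) (br 
  (lf 1690122) (lf 1587537))) (k4 2179)) (br (br (br (lf 1682184) (lf 1679629)) (br (lf 999754) (k4 1665))) 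
  (k4 2179))) (k4 3140)) (k4 1668)) (br (br (sy 1724954) (k4 3140)) (k4 1668)))) (k4 3353))) (br (br (br (br (br 
  (br (br (br (br (br (lf 1737428) (k4 2689)) (k4 2760)) (sy 1754305)) (br (br (br (lf 1741012) (k4 2689)) 
  (k4 2760)) (br (br (lf 1737428) (k4 1602)) (k4 1091)))) (k4 3140)) (k4 3344)) (br (sy 1754305) (k4 3344))) 
  (br (br (br (br (br (br (br (lf 1737498) (k4 2689)) (k4 2760)) (br (br (lf 1594978) (k4 2689)) (k4 2760))) (br (br 
  (br (lf 1742356) (k4 2689)) (k4 2760)) (br (br (lf 1673868) (k4 1602)) (k4 1091)))) (k4 3140)) (k4 3344)) (br 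
  (br (br (br (br (br (lf 1753178) (k4 2689)) (k4 2760)) (sy 1754305)) (br (br (br (lf 1742496) (k4 2689)) 
  (k4 2760)) (br (br (lf 1579732) (k4 1602)) (k4 1091)))) (k4 3140)) (k4 3344)))) (k4 3353)) (br (br (br (br (br 
  (br (br (br (br (lf 1746500) (k4 2689)) (k4 2760)) (sy 1754305)) (br (br (br (lf 1742496) (k4 2689)) (k4 2760)) 
  (br (br (lf 1653316) (k4 1602)) (k4 1091)))) (k4 3140)) (k4 3344)) (br (sy 1754305) (k4 3344))) (br (br (br (br 
  (br (br (br (lf 1753290) (k4 2689)) (k4 2760)) (k4 2179)) (br (br (br (lf 1692768) (k4 2689)) (k4 2760)) 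
  (k4 2179))) (k4 3140)) (k4 1668)) (br (br (br (br (br (br (lf 1725640) (k4 2689)) (k4 2760)) (k4 2179)) 
  (k4 2250)) (k4 3140)) (k4 1668)))) (k4 3353)))) (k4 3394)))) (k4 3403)) (k4 3285)) (k4 3396)) (k4 3404)) 
  (k4 3349)) (k4 3357)) (k4 2118))) (br (br (sy 1724954) (k4 2118)) (sy 1754312))) (br (br (br (br (br (br (br (br 
  (br (br (br (br (br (br (br (br (br (br (br (br (br (br (br (lf 1718850) (lf 1716778)) (k4 3139)) (sy 1751169)) 
  (sy 1751176)) (k4 3140)) (sy 1754753)) (br (br (br (br (br (br (lf 1710800) (lf 1622173)) (k4 3139)) (br (br 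
  (lf 1690178) (lf 1688085)) (k4 3139))) (br (br (br (lf 1717072) (lf 1623720)) (k4 3139)) (sy 1751176))) 
  (k4 3140)) (br (br (br (br (br (lf 1717576) (k4 2114)) (k4 3139)) (sy 1754753)) (br (br (br (lf 1716904) 
  (k4 2114)) (k4 3139)) (br (br (lf 1656389) (k4 1602)) (k4 1091)))) (k4 1092)))) (k4 3352)) (k4 3353)) (br (br 
  (br (br (br (br (br (br (br (lf 1718850) (lf 1718850)) (k4 3139)) (sy 1751169)) (sy 1751176)) (k4 3140)) 
  (sy 1754753)) (br (br (br (br (br (br (lf 1717072) (lf 1713768)) (k4 3139)) (br (br (lf 1688645) (lf 1652805)) 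
  (k4 3139))) (k4 2250)) (k4 3140)) (br (br (br (br (br (lf 1713733) (k4 2114)) (k4 3139)) (k4 2242)) (k4 2250)) 
  (k4 1092)))) (k4 3352)) (k4 3353))) (br (br (br (br (br (br (br (br (br (br (lf 1741082) (lf 1608474)) (k4 3139)) 
  (sy 1751169)) (sy 1751176)) (k4 3140)) (sy 1754753)) (br (br (br (br (br (br (lf 1628354) (lf 1608026)) 
  (k4 3139)) (br (br (lf 1737498) (lf 1579683)) (k4 3139))) (br (br (br (lf 1623874) (lf 1627416)) (k4 3139)) 
  (sy 1751176))) (k4 3140)) (br (br (br (br (br (lf 1724954) (k4 2114)) (k4 3139)) (sy 1754753)) (br (br (br 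
  (lf 1623594) (k4 2114)) (k4 3139)) (br (br (lf 1656389) (k4 1602)) (k4 1091)))) (k4 1092)))) (k4 3352)) 
  (k4 3353)) (br (br (br (br (br (br (br (br (br (lf 1754690) (lf 1741082)) (k4 3139)) (sy 1751169)) (sy 1751176)) 
  (k4 3140)) (sy 1754753)) (br (br (br (br (br (br (lf 1709904) (lf 1708378)) (k4 3139)) (br (br (lf 1688645) 
  (lf 1688645)) (k4 3139))) (k4 2250)) (k4 3140)) (br (br (br (br (br (lf 1717317) (k4 2114)) (k4 3139)) 
  (k4 2242)) (k4 2250)) (k4 1092)))) (k4 3352)) (k4 3353)))) (sy 1754753)) (br (br (br (br (br (br (br (br (br (br 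
  (br (br (lf 1743042) (lf 1743056)) (k4 3139)) (sy 1751176)) (sy 1751176)) (k4 3140)) (br (br (br (br (br 
  (lf 1753794) (lf 1654891)) (k4 3139)) (br (br (lf 1745177) (lf 1641059)) (k4 3139))) (sy 1751176)) (k4 3140)
  )) (br (br (br (br (br (br (lf 1743000) (lf 1628312)) (k4 3139)) (br (br (lf 1692936) (lf 1615656)) (k4 3139))) 
  (br (br (br (lf 1616104) (sy 579782)) (k4 3139)) (sy 1751176))) (k4 3140)) (br (br (br (br (br (lf 1710723) 
  (k4 2114)) (k4 3139)) (br (br (lf 1712333) (k4 2114)) (k4 3139))) (br (br (br (lf 1623272) (k4 2114)) (k4 3139)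
  ) (br (br (lf 1644776) (k4 1602)) (k4 1091)))) (k4 1092)))) (k4 3352)) (k4 3353)) (br (br (br (br (br (br (br (br 
  (br (lf 1754704) (lf 1717072)) (k4 3139)) (sy 1751176)) (sy 1751176)) (k4 3140)) (br (br (br (br (br 
  (lf 1725633) (lf 1655493)) (k4 3139)) (k4 2242)) (sy 1751176)) (k4 3140))) (br (br (br (br (br (br (lf 1712984)
   (lf 1712984)) (k4 3139)) (br (br (lf 1681512) (lf 1644776)) (k4 3139))) (k4 2250)) (k4 3140)) (br (br (br (br 
  (br (lf 1713992) (k4 2114)) (k4 3139)) (k4 2242)) (k4 2250)) (k4 1092)))) (k4 3352)) (k4 3353))) (br (br (br 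
  (br (br (br (br (br (br (br (lf 1741082) (k4 2689)) (k4 3139)) (sy 1751176)) (sy 1751176)) (k4 3140)) (br (br (br 
  (br (br (lf 1738842) (k4 2689)) (k4 3139)) (br (br (lf 1737379) (k4 2689)) (k4 3139))) (sy 1751176)) (k4 3140)
  )) (br (br (br (br (br (br (lf 1743042) (k4 2689)) (k4 3139)) (br (br (lf 1627360) (k4 2689)) (k4 3139))) (br (br 
  (br (lf 1627416) (k4 2689)) (k4 3139)) (sy 1751176))) (k4 3140)) (br (br (br (br (br (lf 1710611) (k4 2114)) 
  (k4 3139)) (br (br (lf 1737995) (k4 2114)) (k4 3139))) (br (br (br (lf 1616216) (k4 2114)) (k4 3139)) (br (br 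
  (lf 1616419) (k4 1602)) (k4 1091)))) (k4 1092)))) (k4 3352)) (k4 3353)) (br (br (br (br (br (br (br (br (br 
  (lf 1743056) (k4 2689)) (k4 3139)) (sy 1751176)) (sy 1751176)) (k4 3140)) (br (br (br (br (br (lf 1724954) 
  (k4 2689)) (k4 3139)) (k4 2242)) (sy 1751176)) (k4 3140))) (br (br (br (br (br (br (lf 1710800) (k4 2689)) 
  (k4 3139)) (br (br (lf 1713768) (k4 2689)) (k4 3139))) (k4 2250)) (k4 3140)) (br (br (br (br (br (lf 1714776) 
  (k4 2114)) (k4 3139)) (k4 2242)) (k4 2250)) (k4 1092)))) (k4 3352)) (k4 3353)))) (br (br (br (br (br (br (br (br 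
  (br (br (br (lf 1754760) (k4 2626)) (k4 3139)) (sy 1751169)) (sy 1751176)) (k4 3140)) (sy 1754753)) (br (br 
  (br (br (br (br (lf 1747032) (k4 2626)) (k4 3139)) (br (br (lf 1660680) (k4 2626)) (k4 3139))) (br (br (br 
  (lf 1616664) (k4 2626)) (k4 3139)) (sy 1751176))) (k4 3140)) (br (br (br (br (br (lf 1747011) (k4 2114)) 
  (k4 3139)) (sy 1754753)) (br (br (br (lf 1660995) (k4 2114)) (k4 3139)) (br (br (lf 743624) (k4 1602)) 
  (k4 1091)))) (k4 1092)))) (k4 3352)) (k4 3353)) (br (br (br (br (br (br (br (br (br (lf 1754760) (k4 2626)) 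
  (k4 3139)) (sy 1751169)) (sy 1751176)) (k4 3140)) (sy 1754753)) (br (br (br (br (br (br (lf 1657432) (k4 2626))
   (k4 3139)) (br (br (lf 1653064) (k4 2626)) (k4 3139))) (k4 2250)) (k4 3140)) (br (br (br (br (br (lf 1657411) 
  (k4 2114)) (k4 3139)) (k4 2242)) (k4 2250)) (k4 1092)))) (k4 3352)) (k4 3353))) (k4 1093)))) (k4 3395)) 
  (k4 3403)) (k4 3285)) (k4 3396)) (k4 3404)) (k4 3349)) (k4 3357)) (k4 1606)) (sy 1754753)) (br (br (br (br (br 
  (br (br (br (br (br (br (br (br (br (br (br (br (br (br (br (br (br (lf 1718864) (sy 1623720)) (k4 3139)) (sy 1751176))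
   (k4 3281)) (k4 3140)) (br (sy 1724954) (k4 3140))) (k4 3345)) (k4 3352)) (k4 3353)) (br (br (br (br (br 
  (sy 1724954) (k4 3140)) (br (sy 1724954) (k4 3140))) (k4 3345)) (k4 3352)) (k4 3353))) (br (br (br (br (br (br 
  (br (br (br (br (lf 1741082) (sy 1623720)) (k4 3139)) (sy 1751176)) (k4 3281)) (k4 3140)) (br (sy 1724954) 
  (k4 3140))) (k4 3345)) (k4 3352)) (k4 3353)) (br (br (br (br (br (br (br (br (br (lf 1718864) (sy 1623720)) 
  (k4 3139)) (sy 1751176)) (k4 3281)) (k4 3140)) (br (sy 1724954) (k4 3140))) (k4 3345)) (k4 3352)) (k4 3353))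
  )) (br (br (br (br (br (br (br (br (br (br (br (lf 1754690) (lf 1583715)) (k4 3139)) (sy 1751176)) (k4 3281)) 
  (k4 3140)) (br (br (br (br (br (lf 1725465) (sy 1724954)) (k4 3139)) (br (br (lf 1640681) (sy 547022)) (k4 3139)
  )) (k4 3281)) (k4 3140))) (k4 3345)) (k4 3352)) (k4 3353)) (br (br (br (br (br (br (br (br (br (lf 1661128) 
  (lf 1659672)) (k4 3139)) (sy 1751176)) (k4 3281)) (k4 3140)) (br (sy 1724954) (k4 3140))) (k4 3345)) 
  (k4 3352)) (k4 3353))) (br (br (br (br (br (br (br (br (br (br (lf 1737498) (k4 2696)) (k4 3139)) (sy 1751176)) 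
  (k4 3281)) (k4 3140)) (br (br (br (br (br (lf 1737995) (k4 2696)) (k4 3139)) (br (br (lf 1583897) (k4 2696)) 
  (k4 3139))) (k4 3281)) (k4 3140))) (k4 3345)) (k4 3352)) (k4 3353)) (br (br (br (br (br (br (br (br (br 
  (lf 1754704) (k4 2696)) (k4 3139)) (sy 1751176)) (k4 3281)) (k4 3140)) (br (br (br (br (br (lf 1640793) 
  (k4 2696)) (k4 3139)) (k4 2242)) (k4 3281)) (k4 3140))) (k4 3345)) (k4 3352)) (k4 3353))))) (k4 3402)) 
  (k4 3395)) (k4 3403)) (k4 3285)) (k4 3396)) (k4 3404)) (k4 3349)) (k4 3357)) (k4 1606)) (br (br (br (br (br (br 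
  (br (br (br (br (br (br (br (br (br (br (br (br (br (br (br (lf 1717576) (k4 3138)) (k4 3139)) (k4 3280)) (k4 3281)) 
  (k4 3140)) (k4 3344)) (k4 3345)) (k4 3352)) (k4 3353)) (br (br (br (br (br (sy 1724954) (k4 3140)) (k4 3344)) 
  (k4 3345)) (k4 3352)) (k4 3353))) (br (br (br (br (br (br (br (br (br (br (lf 1741082) (k4 3138)) (k4 3139)) 
  (k4 3280)) (k4 3281)) (k4 3140)) (k4 3344)) (k4 3345)) (k4 3352)) (k4 3353)) (br (br (br (br (br (br (br (br (br 
  (lf 1717576) (k4 3138)) (k4 3139)) (k4 3280)) (k4 3281)) (k4 3140)) (k4 3344)) (k4 3345)) (k4 3352)) 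
  (k4 3353)))) (k4 3394)) (k4 3402)) (k4 3395)) (k4 3403)) (k4 3285)) (k4 3396)) (k4 3404)) (k4 3349)) 
  (k4 3357)) (k4 1094)))))

theorem t28_ok : check RT t28 24 1805 = true := by decide +kernel

def t29 : Cert :=
  (k4 2774)

theorem t29_ok : check RT t29 25 903 = true := by decide +kernel

def t30 : Cert :=
  (k4 2838)

theorem t30_ok : check RT t30 28 113 = true := by decide +kernel

def t31 : Cert :=
  (k4 2846)

theorem t31_ok : check RT t31 29 57 = true := by decide +kernel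

def t32 : Cert :=
  (sy 1754753)

theorem t32_ok : check RT t32 30 29 = true := by decide +kernel

def t33 : Cert :=
  (br (br (br (br (br (br (br (br (br (br (br (br (br (br (br (br (br (br (br (br (br (br (br (br (br (br (br (br (br (br (br 
  (lf 1754760) (sy 1745688)) (sy 1749776)) (sy 1750280)) (sy 1750112)) (sy 1753808)) (sy 1754312)) 
  (sy 1754200)) (br (br (br (br (br (br (br (lf 1754760) (lf 1747144)) (sy 1751120)) (sy 1751176)) (sy 1750112)) 
  (sy 1754704)) (br (br (br (br (br (lf 1753297) (sy 1754312)) (br (lf 1751057) (lf 218785))) (k4 2256)) 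
  (sy 1750112)) (br (br (br (br (lf 1753297) (k4 2184)) (k4 2248)) (k4 2256)) (sy 1750112)))) (sy 1754200))) 
  (sy 1754704)) (br (br (br (br (br (br (br (br (br (lf 1754760) (sy 1747144)) (sy 1751176)) (sy 1750280)) 
  (sy 1750280)) (br (br (br (br (lf 1753808) (sy 1754312)) (br (lf 1754690) (lf 479514))) (sy 1750280)) 
  (sy 1750280))) (sy 1754312)) (sy 1754312)) (br (br (br (br (br (br (br (lf 1754760) (lf 1754753)) (sy 1751176))
   (k4 2179)) (sy 1750280)) (br (br (br (br (lf 1267210) (lf 1266307)) (k4 2248)) (k4 2179)) (sy 1750280))) 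
  (k4 1668)) (sy 1754312))) (br (br (br (br (br (br (br (br (lf 1754760) (lf 1754760)) (sy 1751120)) (sy 1751176))
   (k4 2187)) (sy 1754704)) (br (br (br (br (br (lf 1266888) (lf 743512)) (br (lf 1751176) (lf 1751176))) 
  (k4 2242)) (k4 2187)) (br (br (br (br (lf 1267336) (k4 2184)) (k4 2241)) (k4 2242)) (k4 2187)))) (k4 1676)) 
  (br (br (br (br (br (br (br (lf 1754760) (lf 1174152)) (k4 2115)) (k4 2179)) (k4 2187)) (k4 1604)) (k4 1668)) 
  (k4 1676))))) (sy 1513680)) (sy 1517768)) (k4 3213)) (sy 1521800)) (k4 3277)) (k4 3285)) (sy 1525384)) 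
  (k4 3341)) (k4 3349)) (k4 3357)) (sy 1743056)) (sy 1747144)) (k4 2702)) (sy 1751176)) (k4 2766)) (k4 2774))
   (br (br (br (br (br (br (br (br (br (br (br (br (br (br (br (br (br (br (br (br (br (br (br (br (br (br (lf 1754760) 
  (sy 1754200)) (sy 1754704)) (br (br (lf 1750273) (sy 1754312)) (br (lf 1738513) (k4 1672)))) (br (br (br 
  (lf 1750112) (sy 1754200)) (sy 1754704)) (br (br (lf 1750112) (k4 1602)) (k4 1091)))) (sy 1753808)) 
  (sy 1754312)) (sy 1754200)) (br (br (br (br (br (br (br (lf 1754641) (lf 1753297)) (sy 1754704)) (br (br 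
  (lf 1754641) (lf 1594649)) (br (lf 1674001) (k4 1672)))) (br (br (br (lf 1754641) (lf 1754200)) (sy 1754704))
   (br (br (lf 1693825) (k4 1602)) (k4 1091)))) (sy 1754704)) (br (br (br (br (br (lf 1753297) (sy 1754312)) (br 
  (lf 1738961) (lf 219345))) (k4 2256)) (br (br (br (lf 1726081) (sy 1754312)) (br (lf 1592017) (k4 1665))) 
  (k4 2256))) (br (br (br (br (lf 1265873) (k4 2184)) (k4 2248)) (k4 2256)) (br (br (br (lf 1265873) (k4 2184)) 
  (k4 2248)) (k4 2256))))) (sy 1754200))) (sy 1754704)) (br (br (br (br (br (br (br (br (br (lf 1754760) 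
  (sy 1754312)) (br (lf 1751169) (lf 1743056))) (br (br (lf 1754753) (sy 1754312)) (br (lf 1693713) (k4 1672)))
  ) (br (br (br (lf 1754760) (sy 1754312)) (br (lf 1749776) (k4 1665))) (br (br (lf 1682177) (k4 1602)) (k4 1091)
  ))) (br (br (br (br (lf 1753297) (sy 1754312)) (br (lf 1753626) (lf 1704794))) (br (br (lf 1754753) 
  (sy 1754312)) (br (lf 1706698) (k4 1672)))) (br (br (br (lf 1754760) (sy 1754312)) (br (lf 1754690) (k4 1665))
  ) (br (br (lf 1754760) (k4 1602)) (k4 1091))))) (sy 1754312)) (sy 1754312)) (br (br (br (br (br (br (br 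
  (lf 1725969) (lf 1754137)) (br (lf 1751057) (lf 1724625))) (k4 2179)) (br (br (br (lf 1690241) (lf 1751176)) 
  (br (lf 1005585) (k4 1665))) (k4 2179))) (br (br (br (br (lf 1725962) (lf 1265873)) (k4 2248)) (k4 2179)) (br 
  (br (br (lf 1725962) (lf 1725528)) (k4 2248)) (k4 2179)))) (k4 1668)) (sy 1754312))) (br (br (br (br (br (br (br 
  (br (lf 1726088) (lf 1754200)) (sy 1754704)) (br (br (lf 1718920) (lf 1726088)) (br (lf 1002120) (k4 1672))))
   (k4 2187)) (sy 1754704)) (br (br (br (br (br (lf 1267336) (lf 1725465)) (br (lf 1726088) (lf 1266384))) 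
  (k4 2242)) (k4 2187)) (br (br (br (br (lf 1265803) (k4 2184)) (k4 2241)) (k4 2242)) (k4 2187)))) (k4 1676)) 
  (br (br (br (br (br (br (br (lf 1718801) (lf 1726088)) (k4 2115)) (k4 2179)) (k4 2187)) (k4 1604)) (k4 1668)) 
  (k4 1676))))) (sy 1753808)) (sy 1754312)) (k4 3213)) (br (br (br (br (br (br (br (br (br (br (br (br (br 
  (lf 1525265) (lf 1508451)) (sy 1521744)) (sy 1521800)) (sy 1521800)) (sy 1754704)) (br (br (br (br (br 
  (lf 1523921) (lf 1738905)) (br (lf 1738513) (lf 1508003))) (br (br (lf 1509585) (lf 189721)) (sy 1521800))) 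
  (sy 1521800)) (br (br (br (br (lf 1509585) (k4 2184)) (sy 1754704)) (br (br (lf 219345) (k4 2184)) (br 
  (lf 190673) (k4 1672)))) (sy 1521800)))) (br (br (br (br (br (br (lf 1754179) (lf 1523851)) (sy 1754704)) (br 
  (br (lf 1524761) (lf 1737932)) (br (lf 1749265) (k4 1672)))) (br (br (br (lf 1525384) (lf 1516067)) 
  (sy 1521744)) (sy 1521800))) (sy 1754704)) (br (br (br (br (br (lf 1523851) (k4 2114)) (br (lf 1509585) 
  (k4 2114))) (br (br (lf 1753241) (k4 2114)) (br (lf 1509025) (k4 1672)))) (br (br (br (lf 1754123) (k4 2114)) 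
  (br (lf 1512483) (k4 1665))) (br (br (lf 1515801) (k4 1602)) (k4 1091)))) (k4 1092)))) (br (br (br (br (br (br 
  (br (lf 1509585) (lf 1509585)) (sy 1521744)) (sy 1521800)) (sy 1521800)) (sy 1754704)) (br (br (br (br (br 
  (lf 1753297) (lf 1595545)) (br (lf 1738513) (lf 218897))) (k4 2256)) (sy 1521800)) (br (br (br (br (lf 190673)
   (k4 2184)) (k4 2248)) (k4 2256)) (sy 1521800)))) (br (br (br (br (br (br (lf 1754641) (lf 1509585)) 
  (sy 1754704)) (br (br (lf 1738961) (lf 1738961)) (br (lf 218897) (k4 1672)))) (br (br (br (lf 1525265) 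
  (lf 1525265)) (sy 1521744)) (sy 1521800))) (sy 1754704)) (br (br (br (br (br (lf 1753297) (k4 2114)) (br 
  (lf 183498) (k4 2114))) (k4 2256)) (br (br (br (lf 1237201) (k4 2114)) (br (lf 118097) (k4 1665))) (k4 2256)))
   (k4 1092))))) (sy 1754704)) (br (br (br (br (br (br (br (br (br (lf 1525265) (lf 1517761)) (sy 1521800)) 
  (sy 1521800)) (sy 1521800)) (br (br (br (br (lf 1754641) (lf 1509466)) (br (lf 1525258) (lf 1509578))) 
  (sy 1521800)) (sy 1521800))) (br (br (br (br (br (lf 1753241) (lf 1753241)) (br (lf 1521681) (lf 1738401))) 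
  (k4 2242)) (sy 1521800)) (br (br (br (br (lf 1724569) (k4 2184)) (br (lf 1445066) (k4 2184))) (k4 2242)) 
  (sy 1521800)))) (br (br (br (br (br (br (lf 1525377) (lf 1754179)) (br (lf 1751176) (lf 1742048))) (br (br 
  (lf 1525377) (lf 1515745)) (br (lf 1005697) (k4 1672)))) (k4 2250)) (br (br (br (br (lf 1725507) (k4 2177)) 
  (br (lf 1237082) (k4 2177))) (br (br (lf 1238545) (k4 2177)) (br (lf 125713) (k4 1672)))) (k4 2250))) (br (br 
  (br (br (br (lf 1754305) (k4 2114)) (br (lf 1238545) (k4 2114))) (k4 2242)) (k4 2250)) (k4 1092)))) (br (br (br 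
  (br (br (br (br (lf 1525265) (lf 1525265)) (sy 1521800)) (k4 2179)) (sy 1521800)) (br (br (br (br (lf 1466570) 
  (lf 1215697)) (k4 2248)) (k4 2179)) (sy 1521800))) (k4 1668)) (br (br (br (br (br (br (lf 1754641) (lf 1525265)
  ) (br (lf 941066) (lf 118090))) (k4 2179)) (k4 2250)) (br (br (br (br (lf 1267210) (k4 2177)) (k4 2248)) 
  (k4 2179)) (k4 2250))) (k4 1668)))) (br (br (br (br (br (br (br (br (lf 1525384) (lf 1525265)) (sy 1521744)) 
  (sy 1521800)) (k4 2187)) (sy 1754704)) (br (br (br (br (br (lf 1725969) (lf 1524761)) (br (lf 944657) 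
  (lf 1738513))) (k4 2242)) (k4 2187)) (br (br (br (br (lf 1267217) (k4 2184)) (k4 2241)) (k4 2242)) (k4 2187)))
  ) (k4 1676)) (br (br (br (br (br (br (br (lf 944657) (lf 944657)) (k4 2115)) (k4 2179)) (k4 2187)) (k4 1604)) 
  (k4 1668)) (k4 1676))))) (sy 1520400)) (sy 1520904)) (k4 3213))) (k4 3277)) (k4 3285)) (k4 3396)) (k4 3341)
  ) (k4 3349)) (k4 3357)) (sy 1753808)) (sy 1754312)) (k4 2702)) (br (br (br (br (br (br (br (br (br (br (br (br (br 
  (br (br (br (br (br (br (br (br (br (br (lf 1754641) (lf 1737827)) (sy 1751120)) (sy 1751176)) (sy 1751176)) 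
  (sy 1754704)) (br (br (br (br (br (lf 1753297) (lf 1738891)) (br (lf 1738513) (lf 1594019))) (br (br 
  (lf 1594649) (lf 1583897)) (sy 1751176))) (sy 1751176)) (br (br (br (br (lf 1706635) (k4 2184)) (sy 1754704))
   (br (br (lf 1591961) (k4 2184)) (br (lf 1595601) (k4 1672)))) (sy 1751176)))) (br (br (br (br (br (br 
  (lf 1754179) (lf 1753227)) (sy 1754704)) (br (br (lf 1738513) (lf 1583883)) (br (lf 1587985) (k4 1672)))) 
  (br (br (br (lf 1754760) (lf 1645091)) (sy 1751120)) (sy 1751176))) (sy 1754704)) (br (br (br (br (br 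
  (lf 1754123) (k4 2114)) (br (lf 1738891) (k4 2114))) (br (br (lf 1725465) (k4 2114)) (br (lf 1583337) 
  (k4 1672)))) (br (br (br (lf 1714755) (k4 2114)) (br (lf 1738513) (k4 1665))) (br (br (lf 1656361) (k4 1602)) 
  (k4 1091)))) (k4 1092)))) (k4 3352)) (sy 1754704)) (br (br (br (br (br (br (br (br (br (lf 1754641) (lf 1754641))
   (sy 1751176)) (sy 1751176)) (sy 1751176)) (br (br (br (br (lf 1754641) (lf 1724618)) (br (lf 1738954) 
  (lf 1579802))) (sy 1751176)) (sy 1751176))) (br (br (br (br (br (lf 1725465) (lf 1754137)) (br (lf 1738513) 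
  (lf 1587369))) (k4 2242)) (sy 1751176)) (br (br (br (br (lf 1706705) (k4 2184)) (br (lf 1592010) (k4 2184))) 
  (k4 2242)) (sy 1751176)))) (br (br (br (br (br (br (lf 1726088) (lf 1661016)) (br (lf 1718920) (lf 1738506))) 
  (br (br (lf 1718913) (lf 1640793)) (br (lf 1679713) (k4 1672)))) (k4 2250)) (br (br (br (br (lf 1725080) 
  (k4 2177)) (br (lf 1705578) (k4 2177))) (br (br (lf 1717569) (k4 2177)) (br (lf 1687889) (k4 1672)))) 
  (k4 2250))) (br (br (br (br (br (lf 1714713) (k4 2114)) (br (lf 1712473) (k4 2114))) (k4 2242)) (k4 2250)) 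
  (k4 1092)))) (k4 3352)) (br (br (br (br (br (br (br (br (lf 1718920) (lf 1754641)) (sy 1751120)) (sy 1751176)) 
  (k4 2187)) (sy 1754704)) (br (br (br (br (br (lf 1726081) (lf 1713705)) (br (lf 1687889) (lf 1687889))) 
  (k4 2242)) (k4 2187)) (br (br (br (br (lf 1247057) (k4 2184)) (k4 2241)) (k4 2242)) (k4 2187)))) (k4 1676)) 
  (k4 3352)))) (sy 1754704)) (br (br (br (br (br (br (br (br (br (br (br (lf 1738961) (lf 1738009)) (sy 1751176)) 
  (sy 1751176)) (sy 1751176)) (br (br (br (br (lf 1738961) (lf 1738835)) (br (lf 1595594) (lf 1594138))) 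
  (sy 1751176)) (sy 1751176))) (br (br (br (br (br (lf 1738905) (lf 1738009)) (br (lf 1738905) (lf 1594635))) 
  (br (br (lf 1594649) (lf 218393)) (sy 1751176))) (sy 1751176)) (br (br (br (br (lf 1595545) (k4 2184)) (br 
  (lf 219275) (k4 2184))) (br (br (lf 1595545) (k4 2184)) (br (lf 218393) (k4 1672)))) (sy 1751176)))) (br (br 
  (br (br (br (br (lf 1738009) (lf 1745163)) (br (lf 1737932) (lf 1594012))) (br (br (lf 1745177) (lf 1641241)) 
  (br (lf 1737932) (k4 1672)))) (br (br (br (lf 1745688) (lf 1658979)) (sy 1751176)) (sy 1751176))) (br (br (br 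
  (br (lf 1738891) (k4 2177)) (br (lf 1738842) (k4 2177))) (br (br (lf 1594649) (k4 2177)) (br (lf 218764) 
  (k4 1672)))) (br (br (br (lf 1753171) (k4 2177)) (br (lf 1608355) (k4 1665))) (sy 1751176)))) (br (br (br (br 
  (br (lf 1745177) (k4 2114)) (br (lf 1595531) (k4 2114))) (br (br (lf 1659161) (k4 2114)) (br (lf 218393) 
  (k4 1672)))) (br (br (br (lf 1745163) (k4 2114)) (br (lf 1583841) (k4 1665))) (br (br (lf 1659161) (k4 1602)) 
  (k4 1091)))) (k4 1092)))) (k4 3352)) (br (br (br (br (br (br (br (br (lf 1738961) (lf 1737379)) (sy 1751176)) 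
  (sy 1751176)) (sy 1751176)) (br (br (br (br (lf 1738954) (lf 1738842)) (k4 2241)) (sy 1751176)) (sy 1751176))
  ) (br (br (br (br (br (lf 1753297) (lf 1737995)) (br (lf 1738513) (lf 219219))) (br (br (lf 1738009) (lf 218393)
  ) (sy 1751176))) (sy 1751176)) (br (br (br (br (lf 1595545) (k4 2184)) (k4 2241)) (br (br (lf 1591961) 
  (k4 2184)) (k4 2241))) (sy 1751176)))) (br (br (br (br (br (br (lf 1753619) (lf 1746955)) (br (lf 1749258) 
  (lf 1608355))) (br (br (lf 1738513) (lf 1583883)) (br (lf 1595041) (k4 1672)))) (k4 2257)) (br (br (br (br 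
  (lf 1753619) (k4 2177)) (k4 2241)) (br (br (lf 1591898) (k4 2177)) (k4 2241))) (k4 2257))) (br (br (br (br (br 
  (lf 1754123) (k4 2114)) (br (lf 1595545) (k4 2114))) (br (br (lf 1738905) (k4 2114)) (br (lf 1587873) 
  (k4 1672)))) (k4 2257)) (k4 1092)))) (k4 3352))) (br (br (br (br (br (br (br (br (br (lf 1747137) (lf 1738009)) 
  (sy 1751176)) (sy 1751176)) (sy 1751176)) (br (br (br (br (lf 1753241) (lf 1594635)) (br (lf 1738954) 
  (lf 219338))) (sy 1751176)) (sy 1751176))) (br (br (br (br (br (lf 1753241) (lf 1738009)) (br (lf 1738961) 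
  (lf 207585))) (k4 2242)) (sy 1751176)) (br (br (br (br (lf 1706649) (k4 2184)) (br (lf 215761) (k4 2184))) 
  (k4 2242)) (sy 1751176)))) (br (br (br (br (br (br (lf 1754305) (lf 1746955)) (br (lf 1754641) (lf 1583897))) 
  (br (br (lf 1745121) (lf 1659105)) (br (lf 1692705) (k4 1672)))) (k4 2250)) (br (br (br (br (lf 1754123) 
  (k4 2177)) (br (lf 1595594) (k4 2177))) (br (br (lf 1738009) (k4 2177)) (br (lf 1583897) (k4 1672)))) 
  (k4 2250))) (br (br (br (br (br (lf 1714713) (k4 2114)) (br (lf 1725465) (k4 2114))) (k4 2242)) (k4 2250)) 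
  (k4 1092)))) (k4 3352)) (br (br (br (br (br (br (br (br (lf 1754641) (lf 1754641)) (sy 1751176)) (sy 1751176)) 
  (k4 2187)) (br (br (br (br (lf 1725962) (lf 1595594)) (k4 2241)) (sy 1751176)) (k4 2187))) (br (br (br (br (br 
  (lf 1724625) (lf 1745177)) (br (lf 1738961) (lf 1583897))) (k4 2242)) (k4 2187)) (br (br (br (br (lf 1706705) 
  (k4 2184)) (k4 2241)) (k4 2242)) (k4 2187)))) (k4 1676)) (k4 3352)))) (br (br (br (br (br (br (br (br (br (br 
  (lf 1509585) (k4 2696)) (sy 1751120)) (sy 1751176)) (sy 1516256)) (sy 1754704)) (br (br (br (br (br 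
  (lf 1509529) (k4 2696)) (br (lf 1509137) (k4 2696))) (br (br (sy 1516312) (k4 2696)) (sy 1751176))) 
  (sy 1516256)) (br (br (br (br (lf 1337483) (k4 2184)) (sy 1754704)) (br (br (lf 190617) (k4 2184)) (br 
  (lf 190673) (k4 1672)))) (sy 1516256)))) (sy 1516312)) (k4 3352)) (sy 1754704)) (br (br (br (br (br (br (br (br 
  (br (lf 1738961) (k4 2696)) (sy 1751176)) (sy 1751176)) (sy 1751176)) (br (br (br (br (lf 1738835) (k4 2696)) 
  (br (lf 1337546) (k4 2696))) (sy 1751176)) (sy 1751176))) (br (br (br (br (br (lf 1738905) (k4 2696)) (br 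
  (lf 189721) (k4 2696))) (k4 2242)) (sy 1751176)) (br (br (br (br (lf 1595531) (k4 2184)) (br (lf 190554) 
  (k4 2184))) (k4 2242)) (sy 1751176)))) (br (br (br (br (br (br (lf 1524761) (k4 2696)) (br (lf 1509529) 
  (k4 2696))) (br (br (sy 1516312) (k4 2696)) (br (sy 1516312) (k4 1672)))) (k4 2250)) (br (br (br (br 
  (lf 1509515) (k4 2177)) (br (lf 1738842) (k4 2177))) (br (br (lf 1509529) (k4 2177)) (br (lf 190617) (k4 1672)
  ))) (k4 2250))) (br (br (br (br (br (lf 1509529) (k4 2114)) (br (lf 1509529) (k4 2114))) (k4 2242)) (k4 2250)) 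
  (k4 1092)))) (k4 3352)) (br (br (br (br (br (br (br (br (lf 1754641) (k4 2696)) (sy 1751120)) (sy 1751176)) 
  (k4 2187)) (sy 1754704)) (br (br (br (br (br (lf 1738961) (k4 2696)) (br (lf 1509137) (k4 2696))) (k4 2242)) 
  (k4 2187)) (br (br (br (br (lf 1247883) (k4 2184)) (k4 2241)) (k4 2242)) (k4 2187)))) (k4 1676)) (k4 3352)))))
  ) (k4 3213)) (k4 3395)) (k4 3277)) (k4 3285)) (k4 3396)) (k4 3341)) (k4 3349)) (k4 3357)) (sy 1754704)) (br 
  (br (br (br (br (br (br (br (br (br (br (br (br (br (br (br (br (br (br (br (br (lf 1738961) (sy 1747144)) (sy 1751176)) 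
  (k4 3280)) (sy 1750280)) (br (br (br (br (lf 1595601) (sy 1754312)) (br (lf 1595594) (lf 1579802))) (k4 3280))
   (sy 1750280))) (k4 3344)) (sy 1754312)) (k4 3352)) (br (br (br (br (br (br (br (br (lf 1754634) (lf 1594467)) 
  (sy 1751176)) (k4 3280)) (sy 1751176)) (br (br (br (br (lf 1592010) (lf 1579795)) (k4 2241)) (k4 3280)) 
  (sy 1751176))) (k4 3344)) (br (br (br (br (br (br (lf 1754753) (sy 1754312)) (br (lf 1753626) (lf 1579221))) 
  (k4 3280)) (k4 2257)) (br (br (br (br (lf 1724506) (k4 2177)) (k4 2241)) (k4 3280)) (k4 2257))) (k4 3344))) 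
  (k4 3352))) (br (br (br (br (br (br (br (br (br (lf 1754753) (sy 1747144)) (sy 1751176)) (k4 3280)) (sy 1750280))
   (br (br (br (br (lf 1592017) (sy 1754312)) (br (lf 1595594) (lf 1594138))) (k4 3280)) (sy 1750280))) 
  (k4 3344)) (sy 1754312)) (k4 3352)) (br (br (br (br (br (br (br (br (lf 1754641) (lf 1754753)) (sy 1751176)) 
  (k4 3280)) (k4 2187)) (br (br (br (br (lf 1706705) (lf 1705613)) (k4 2241)) (k4 3280)) (k4 2187))) (k4 3344)) 
  (k4 1676)) (k4 3352)))) (br (br (br (br (br (br (br (br (br (br (lf 1737498) (sy 1747144)) (sy 1751176)) (k4 3280)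
  ) (sy 1750280)) (br (br (br (br (lf 1737498) (sy 1754312)) (br (lf 1594138) (lf 217882))) (k4 3280)) 
  (sy 1750280))) (k4 3344)) (sy 1754312)) (k4 3352)) (br (br (br (br (br (br (br (br (lf 1738954) (lf 1594019)) 
  (sy 1751176)) (k4 3280)) (sy 1751176)) (br (br (br (br (lf 1595482) (lf 1579802)) (k4 2241)) (k4 3280)) 
  (sy 1751176))) (k4 3344)) (br (br (br (br (br (br (lf 1753626) (sy 1754312)) (br (lf 1737498) (lf 1579802))) 
  (k4 3280)) (k4 2257)) (br (br (br (br (lf 1626394) (k4 2177)) (k4 2241)) (k4 3280)) (k4 2257))) (k4 3344))) 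
  (k4 3352))) (br (br (br (br (br (br (br (br (br (lf 1738961) (sy 1747144)) (sy 1751176)) (k4 3280)) (sy 1750280))
   (br (br (br (br (lf 1738961) (sy 1754312)) (br (lf 1595594) (lf 217882))) (k4 3280)) (sy 1750280))) (k4 3344)
  ) (sy 1754312)) (k4 3352)) (br (br (br (br (br (br (br (br (lf 1754634) (lf 1594138)) (sy 1751176)) (k4 3280)) 
  (k4 2187)) (br (br (br (br (lf 1724618) (lf 1579347)) (k4 2241)) (k4 3280)) (k4 2187))) (k4 3344)) (k4 1676)) 
  (k4 3352))))) (k4 3394)) (k4 3213)) (k4 3395)) (k4 3277)) (k4 3285)) (k4 3396)) (k4 3341)) (k4 3349)) 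
  (k4 3357)) (br (br (br (br (br (br (br (br (br (br (br (br (br (br (br (br (br (br (br (br (lf 1738961) (k4 3208)) 
  (k4 3272)) (k4 3280)) (sy 1750112)) (k4 3336)) (k4 3344)) (sy 1754200)) (k4 3352)) (sy 1754704)) (br (br (br 
  (br (br (br (br (br (br (lf 1738961) (k4 3208)) (k4 3272)) (k4 3280)) (sy 1750280)) (k4 3336)) (k4 3344)) 
  (sy 1754312)) (k4 3352)) (br (br (br (br (br (br (br (br (lf 1738961) (k4 3208)) (k4 3272)) (k4 3280)) (k4 2187))
   (k4 3336)) (k4 3344)) (k4 1676)) (k4 3352)))) (k4 3393)) (k4 3394)) (k4 3213)) (k4 3395)) (k4 3277)) 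
  (k4 3285)) (k4 3396)) (k4 3341)) (k4 3349)) (k4 3357)))) (k4 2702))) (k4 2766)) (k4 2774))) (k4 2830)) 
  (k4 2838)) (k4 2846)) (br (br (br (br (br (br (br (br (br (br (br (br (br (br (br (br (br (br (br (br (br (br (br (br (br (br 
  (br (br (br (br (lf 1754760) (sy 1745443)) (sy 1749538)) (sy 1750049)) (sy 1750112)) (sy 1753626)) 
  (sy 1754137)) (sy 1754200)) (sy 1754641)) (sy 1754704)) (br (br (br (br (br (br (br (br (br (lf 1754760) 
  (sy 1747144)) (sy 1751176)) (sy 1750273)) (sy 1750280)) (br (br (br (br (lf 1753808) (sy 1741075)) 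
  (sy 1741082)) (sy 1750273)) (sy 1750280))) (sy 1754305)) (sy 1754312)) (sy 1754753)) (br (br (br (br (br (br 
  (br (br (lf 1754760) (lf 1745688)) (sy 1751120)) (sy 1751176)) (k4 2187)) (sy 1754704)) (br (br (br (br (br 
  (lf 1754312) (sy 1754305)) (br (lf 1751176) (lf 1742104))) (k4 2242)) (k4 2187)) (br (br (br (br (lf 1266776) 
  (k4 2184)) (k4 2241)) (k4 2242)) (k4 2187)))) (k4 1676)) (br (br (br (br (br (br (br (lf 1754760) (lf 1754760)) 
  (k4 2115)) (k4 2179)) (k4 2187)) (k4 1604)) (k4 1668)) (k4 1676))))) (k4 3141)) (k4 3205)) (k4 3213)) 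
  (k4 3269)) (k4 3277)) (k4 3285)) (k4 3333)) (k4 3341)) (k4 3349)) (k4 3357)) (k4 2630)) (k4 2694)) (k4 2702)
  ) (k4 2758)) (k4 2766)) (k4 2774)) (k4 2822)) (k4 2830)) (k4 2838)) (k4 2846)))

theorem t33_ok : check RT t33 31 15 = true := by decide +kernel

end K4m.C
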