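import Mathlib
import Pool.Agent.Lib.MP_392c14_co.Defs
import Pool.Agent.Lib.MP_392c14_co.Reps
import Pool.Agent.Lib.MP_392c14_co.CT0
import Pool.Agent.Lib.MP_392c14_co.CT1
import Pool.Agent.Lib.MP_392c14_co.CT2

/-!
# Completeness of the list of `K_4^-`-free 3-graphs on 7 vertices

`complete` : every `K_4^-`-free 3-graph on `Fin 7` can be relabelled so that its code is in `reps`.
Proof: take the relabelling with the largest code; the kernel-checked certificate (`C.check`) shows
that every code without `K_4^-` which cannot be enlarged by a permutation is (up to a permutation) in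
the list.
-/

set_option autoImplicit false

namespace K4m

open C

/-! ## bits -/

theorem testBit_bits (l : List Bool) (n : ℕ) : (bits l).testBit n = (l[n]?).getD false := by
  induction l generalizing n with
  | nil => simp [bits]
  | cons b l ih =>
    cases n with
    | zero => cases b
              · simp [bits]
              · simp [bits]
    | succ n =>
      rw [bits, Nat.testBit_succ]
      have h : (b.toNat + 2 * bits l) / 2 = bits l := by
        cases b <;> simp <;> omega
      rw [h, ih]; simp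

def trs : List (Fin 7 × Fin 7 × Fin 7) :=
  [(0,1,2), (0,1,3), (0,2,3), (1,2,3),
    (0,1,4), (0,2,4), (1,2,4), (0,3,4), (1,3,4), (2,3,4),
    (0,1,5), (0,2,5), (1,2,5), (0,3,5), (1,3,5), (2,3,5),
    (0,4,5), (1,4,5), (2,4,5), (3,4,5),
    (0,1,6), (0,2,6), (1,2,6), (0,3,6), (1,3,6), (2,3,6),
    (0,4,6), (1,4,6), (2,4,6), (3,4,6),
    (0,5,6), (1,5,6), (2,5,6), (3,5,6), (4,5,6)]

theorem code7_eq (H : TG (Fin 7)) : code7 H = bits (trs.map fun t => H.E t.1 t.2.1 t.2.2) := rfl

theorem testBit_code7 (H : TG (Fin 7)) (n : ℕ) :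
    (code7 H).testBit n = ((trs[n]?).map fun t => H.E t.1 t.2.1 t.2.2).getD false := by
  rw [code7_eq, testBit_bits, List.getElem?_map]

theorem testBit_code7_ge (H : TG (Fin 7)) (n : ℕ) (hn : 35 ≤ n) : (code7 H).testBit n = false := by
  rw [testBit_code7]
  have : trs[n]? = none := by
    rw [List.getElem?_eq_none_iff]; exact hn
  rw [this]; rfl

theorem tid_sorted : ∀ x y z : Fin 7, x < y → y < z → trs[C.tid x y z]? = some (x, y, z) := by
  decide +kernel

theorem tid_swap₁ : ∀ x y z : Fin 7, C.tid y x z = C.tid x y z := by decide +kernel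

theorem tid_swap₂ : ∀ x y z : Fin 7, C.tid x z y = C.tid x y z := by decide +kernel

theorem tid_deg : ∀ x z : Fin 7, C.tid x x z = 63 := by decide +kernel

theorem tid_lt : ∀ x y z : Fin 8, C.tid x y z ≠ 63 → (x : ℕ) < 7 ∧ (y : ℕ) < 7 ∧ (z : ℕ) < 7 := by
  decide +kernel

theorem tb_sorted (H : TG (Fin 7)) (x y z : Fin 7) (h1 : x < y) (h2 : y < z) :
    (code7 H).testBit (C.tid x y z) = H.E x y z := by
  rw [testBit_code7, tid_sorted x y z h1 h2]; rfl

theorem tb (H : TG (Fin 7)) (x y z : Fin 7) :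
    (code7 H).testBit (C.tid x y z) = H.E x y z := by
  have hd : ∀ a b : Fin 7, (code7 H).testBit (C.tid a a b) = H.E a a b := by
    intro a b
    rw [tid_deg, H.irr, testBit_code7_ge H 63 (by norm_num)]
  rcases lt_trichotomy x y with h | h | h
  · rcases lt_trichotomy y z with h2 | h2 | h2
    · exact tb_sorted H x y z h h2
    · subst h2
      rw [← tid_swap₁, ← tid_swap₂, ← H.symm₁, ← H.symm₂]; exact hd y x
    · rcases lt_trichotomy x z with h3 | h3 | h3
      · rw [← tid_swap₂, ← H.symm₂]; exact tb_sorted H x z y h3 h2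
      · subst h3
        rw [← tid_swap₂, ← H.symm₂]; exact hd x y
      · rw [← tid_swap₂, ← H.symm₂, ← tid_swap₁, ← H.symm₁]; exact tb_sorted H z x y h3 h
  · subst h; exact hd x z
  · rcases lt_trichotomy x z with h2 | h2 | h2
    · rw [← tid_swap₁, ← H.symm₁]; exact tb_sorted H y x z h h2
    · subst h2
      rw [← tid_swap₂, ← H.symm₂]; exact hd x y
    · rcases lt_trichotomy y z with h3 | h3 | h3
      · rw [← tid_swap₁, ← H.symm₁, ← tid_swap₂, ← H.symm₂]; exact tb_sorted H y z x h3 h2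
      · subst h3
        rw [← tid_swap₁, ← H.symm₁, ← tid_swap₂, ← H.symm₂]; exact hd y x
      · rw [← tid_swap₁, ← H.symm₁, ← tid_swap₂, ← H.symm₂, ← tid_swap₁, ← H.symm₁]
        exact tb_sorted H z y x h3 h

/-! ## the checker is sound -/

theorem kb_eq (c m p : ℕ) (h : m ≤ p) : C.kb m (c >>> m) p = (c.testBit p).toNat := by
  have h1 : C.kb m (c >>> m) p = ((c >>> m) >>> (p - m)) &&& 1 := rfl
  rw [h1, ← Nat.shiftRight_add, Nat.add_sub_cancel' h, Nat.and_one_is_mod, Nat.shiftRight_eq_div_pow,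
    Nat.testBit_eq_decide_div_mod_eq]
  rcases Nat.mod_two_eq_zero_or_one (c / 2 ^ p) with h | h <;> simp [h]

theorem brec_false (x y : Bool) :
    (Bool.rec (motive := fun _ => Bool) false x y : Bool) = true ↔ y = true ∧ x = true := by
  cases y <;> simp

theorem known1_sound (c m p : ℕ) (h : C.known1 m (c >>> m) p = true) : c.testBit p = true := by
  unfold C.known1 at h
  rw [brec_false] at h
  obtain ⟨h1, h2⟩ := h
  have h1' : m ≤ p := Nat.le_of_ble_eq_true h1
  have h2' := Nat.eq_of_beq_eq_true h2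
  rw [kb_eq c m p h1'] at h2'
  cases hb : c.testBit p
  · rw [hb] at h2'; simp at h2'
  · rfl

theorem dg_lt (s i : ℕ) : C.dg s i < 8 := by
  have h1 : C.dg s i = (s >>> i) &&& (2 ^ 3 - 1) := rfl
  rw [h1, Nat.and_two_pow_sub_one_eq_mod]; exact Nat.mod_lt _ (by norm_num)

theorem tb_true (H : TG (Fin 7)) (x y z : ℕ) (hx : x < 8) (hy : y < 8) (hz : z < 8)
    (h : (code7 H).testBit (C.tid x y z) = true) :
    ∃ (h1 : x < 7) (h2 : y < 7) (h3 : z < 7), H.E ⟨x, h1⟩ ⟨y, h2⟩ ⟨z, h3⟩ = true := by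
  have hne : C.tid x y z ≠ 63 := by
    intro h0
    rw [h0, testBit_code7_ge H 63 (by norm_num)] at h
    exact absurd h (by simp)
  obtain ⟨h1, h2, h3⟩ := tid_lt ⟨x, hx⟩ ⟨y, hy⟩ ⟨z, hz⟩ hne
  refine ⟨h1, h2, h3, ?_⟩
  rw [← tb H]; exact h

theorem k4_sound (H : TG (Fin 7)) (m s : ℕ) (h : C.chkK4 m (code7 H >>> m) s = true) : False := by
  unfold C.chkK4 at h
  rw [brec_false, brec_false] at h
  obtain ⟨h1, h2, h3⟩ := h
  obtain ⟨a1, a2, a3, e1⟩ := tb_true H _ _ _ (dg_lt _ _) (dg_lt _ _) (dg_lt _ _)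
    (known1_sound _ _ _ h1)
  obtain ⟨b1, b2, b3, e2⟩ := tb_true H _ _ _ (dg_lt _ _) (dg_lt _ _) (dg_lt _ _)
    (known1_sound _ _ _ h2)
  obtain ⟨c1, c2, c3, e3⟩ := tb_true H _ _ _ (dg_lt _ _) (dg_lt _ _) (dg_lt _ _)
    (known1_sound _ _ _ h3)
  exact H.free _ _ _ _ ⟨e1, e2, e3⟩

/-- the permutation coded by `s` -/
theorem isPerm_sound (s : ℕ) (h : C.isPerm s = true) :
    ∃ σ : Equiv.Perm (Fin 7), ∀ i : Fin 7, ((σ i : Fin 7) : ℕ) = C.dg s (3 * (i : ℕ)) := by
  have h1 : (1 <<< C.dg s 0) ||| ((1 <<< C.dg s 3) ||| ((1 <<< C.dg s 6) ||| ((1 <<< C.dg s 9) |||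
      ((1 <<< C.dg s 12) ||| ((1 <<< C.dg s 15) ||| (1 <<< C.dg s 18)))))) = 127 :=
    Nat.eq_of_beq_eq_true h
  have h2 : ∀ j : Fin 7, ∃ i : Fin 7, C.dg s (3 * (i : ℕ)) = j := by
    intro j
    have h3 : (127 : ℕ).testBit j = true := by
      revert j; decide
    rw [← h1] at h3
    simp only [Nat.testBit_or, Bool.or_eq_true, Nat.one_shiftLeft, Nat.testBit_two_pow,
      decide_eq_true_eq] at h3
    rcases h3 with h3 | h3 | h3 | h3 | h3 | h3 | h3
    · exact ⟨0, h3⟩
    · exact ⟨1, h3⟩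
    · exact ⟨2, h3⟩
    · exact ⟨3, h3⟩
    · exact ⟨4, h3⟩
    · exact ⟨5, h3⟩
    · exact ⟨6, h3⟩
  choose g hg using h2
  have hinj : Function.Injective g := by
    intro a b hab
    apply Fin.ext
    rw [← hg a, ← hg b, hab]
  have hbij : Function.Bijective g := (Finite.injective_iff_bijective).1 hinj
  refine ⟨(Equiv.ofBijective g hbij).symm, fun i => ?_⟩
  obtain ⟨j, rfl⟩ := hbij.2 i
  rw [Equiv.ofBijective_symm_apply_apply, hg]

/-- the list `l` starts at position `k - 1` and descends with the right vertices -/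
def TLok : ℕ → TL → Bool
  | 0, TL.nil => true
  | k + 1, TL.cons p a b c t => (p == k) &&
      ((match trs[k]? with
        | some (x, y, z) => (a == 3 * (x : ℕ)) && ((b == 3 * (y : ℕ)) && (c == 3 * (z : ℕ)))
        | none => false) && TLok k t)
  | _, _ => false

theorem tl_ok : TLok 35 C.tl = true := by decide +kernel

theorem TLok_succ (k p a b c : ℕ) (t : TL) (h : TLok (k + 1) (TL.cons p a b c t) = true) :
    p = k ∧ (∃ x y z : Fin 7, trs[k]? = some (x, y, z) ∧
      a = 3 * (x : ℕ) ∧ b = 3 * (y : ℕ) ∧ c = 3 * (z : ℕ)) ∧ TLok k t = true := by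
  simp only [TLok, Bool.and_eq_true, beq_iff_eq] at h
  obtain ⟨h1, h2, h3⟩ := h
  refine ⟨h1, ?_, h3⟩
  rcases htr : trs[k]? with _ | ⟨x, y, z⟩
  · rw [htr] at h2; simp at h2
  · rw [htr] at h2
    simp only [Bool.and_eq_true, beq_iff_eq] at h2
    exact ⟨x, y, z, rfl, h2.1, h2.2.1, h2.2.2⟩

theorem testBit_pull (H : TG (Fin 7)) (σ : Equiv.Perm (Fin 7)) (s : ℕ)
    (hσ : ∀ i : Fin 7, ((σ i : Fin 7) : ℕ) = C.dg s (3 * (i : ℕ))) (k : ℕ) (x y z : Fin 7)
    (hk : trs[k]? = some (x, y, z)) :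
    (code7 (H.pull σ)).testBit k =
      (code7 H).testBit (C.tid (C.dg s (3 * (x : ℕ))) (C.dg s (3 * (y : ℕ))) (C.dg s (3 * (z : ℕ)))) := by
  rw [← hσ, ← hσ, ← hσ, tb, testBit_code7, hk]; rfl

theorem toNat_inj (a b : Bool) (h : a.toNat = b.toNat) : a = b := by
  cases a <;> cases b <;> simp at h ⊢

theorem cmp_sound (H : TG (Fin 7)) (σ : Equiv.Perm (Fin 7)) (s m : ℕ)
    (hσ : ∀ i : Fin 7, ((σ i : Fin 7) : ℕ) = C.dg s (3 * (i : ℕ))) (l : TL) :
    ∀ k : ℕ, TLok k l = true →
      (∀ q, k ≤ q → (code7 (H.pull σ)).testBit q = (code7 H).testBit q) →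
      C.cmp m (code7 H >>> m) s l = true → code7 H < code7 (H.pull σ) := by
  induction l with
  | nil => intro k _ _ h; exact absurd h (by simp [C.cmp])
  | cons p a b c t ih =>
    intro k hk hq h
    cases k with
    | zero => exact absurd hk (by simp [TLok])
    | succ k =>
      obtain ⟨rfl, ⟨x, y, z, htr, rfl, rfl, rfl⟩, ht⟩ := TLok_succ _ _ _ _ _ _ hk
      have h' : (Bool.rec (motive := fun _ => Bool) false
        (Bool.rec (motive := fun _ => Bool) false
          (Bool.rec (motive := fun _ => Bool)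
            (Nat.beq (C.kb m (code7 H >>> m) (C.tid (C.dg s (3 * (x : ℕ))) (C.dg s (3 * (y : ℕ)))
              (C.dg s (3 * (z : ℕ))))) 1)
            (C.cmp m (code7 H >>> m) s t)
            (Nat.beq (C.kb m (code7 H >>> m) (C.tid (C.dg s (3 * (x : ℕ))) (C.dg s (3 * (y : ℕ)))
              (C.dg s (3 * (z : ℕ))))) (C.kb m (code7 H >>> m) p)))
          (Nat.ble m (C.tid (C.dg s (3 * (x : ℕ))) (C.dg s (3 * (y : ℕ))) (C.dg s (3 * (z : ℕ))))))
        (Nat.ble m p) : Bool) = true := h
      rw [brec_false, brec_false] at h'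
      obtain ⟨h1, h2, h3⟩ := h'
      have h1' : m ≤ p := Nat.le_of_ble_eq_true h1
      have h2' := Nat.le_of_ble_eq_true h2
      rw [kb_eq _ _ _ h2', kb_eq _ _ _ h1'] at h3
      have hpull := testBit_pull H σ s hσ p x y z htr
      rw [← hpull] at h3
      cases hb : Nat.beq ((code7 (H.pull σ)).testBit p).toNat ((code7 H).testBit p).toNat with
      | true =>
        rw [hb] at h3
        have heq := toNat_inj _ _ (Nat.eq_of_beq_eq_true hb)
        refine ih p ht (fun q hqp => ?_) h3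
        rcases Nat.eq_or_lt_of_le hqp with h4 | h4
        · rw [← h4]; exact heq
        · exact hq q h4
      | false =>
        rw [hb] at h3
        have h4 := Nat.eq_of_beq_eq_true h3
        have h5 : (code7 (H.pull σ)).testBit p = true := by
          cases h6 : (code7 (H.pull σ)).testBit p
          · rw [h6] at h4; simp at h4
          · rfl
        have h7 : (code7 H).testBit p = false := by
          cases h6 : (code7 H).testBit p
          · rfl
          · rw [h5, h6] at hb; simp at hb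
        exact Nat.lt_of_testBit p h7 h5 (fun j hj => (hq j hj).symm)

theorem shiftRight_step (c k : ℕ) : c >>> k = 2 * (c >>> (k + 1)) + (c.testBit k).toNat := by
  rw [Nat.testBit_eq_decide_div_mod_eq, Nat.shiftRight_eq_div_pow, Nat.shiftRight_eq_div_pow,
    pow_succ, ← Nat.div_div_eq_div_mul]
  rcases Nat.mod_two_eq_zero_or_one (c / 2 ^ k) with h | h <;> simp [h] <;> omega

theorem gather_sound (H : TG (Fin 7)) (σ : Equiv.Perm (Fin 7)) (s : ℕ)
    (hσ : ∀ i : Fin 7, ((σ i : Fin 7) : ℕ) = C.dg s (3 * (i : ℕ))) (l : TL) :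
    ∀ (k acc : ℕ), TLok k l = true → acc = code7 (H.pull σ) >>> k →
      C.gather (code7 H) s l acc = code7 (H.pull σ) := by
  induction l with
  | nil =>
    intro k acc hk hacc
    cases k with
    | zero => rw [hacc]; rfl
    | succ k => exact absurd hk (by simp [TLok])
  | cons p a b c t ih =>
    intro k acc hk hacc
    cases k with
    | zero => exact absurd hk (by simp [TLok])
    | succ k =>
      obtain ⟨rfl, ⟨x, y, z, htr, rfl, rfl, rfl⟩, ht⟩ := TLok_succ _ _ _ _ _ _ hk
      have h1 : C.gather (code7 H) s (TL.cons p (3 * (x : ℕ)) (3 * (y : ℕ)) (3 * (z : ℕ)) t) acc =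
          C.gather (code7 H) s t (2 * acc + (((code7 H) >>> (C.tid (C.dg s (3 * (x : ℕ)))
            (C.dg s (3 * (y : ℕ))) (C.dg s (3 * (z : ℕ))))) &&& 1)) := rfl
      rw [h1]
      refine ih p _ ht ?_
      have h2 := kb_eq (code7 H) 0 (C.tid (C.dg s (3 * (x : ℕ))) (C.dg s (3 * (y : ℕ)))
        (C.dg s (3 * (z : ℕ)))) (Nat.zero_le _)
      have h3 : C.kb 0 (code7 H >>> 0) (C.tid (C.dg s (3 * (x : ℕ))) (C.dg s (3 * (y : ℕ)))
        (C.dg s (3 * (z : ℕ)))) = ((code7 H) >>> (C.tid (C.dg s (3 * (x : ℕ)))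
            (C.dg s (3 * (y : ℕ))) (C.dg s (3 * (z : ℕ))))) &&& 1 := rfl
      rw [← h3, h2, ← testBit_pull H σ s hσ p x y z htr, shiftRight_step _ p, hacc]

theorem chk_node (a b : BT) (k : ℕ) (l : List ℕ) :
    (BT.nd a k b).chk l = Option.rec (motive := fun _ => Option (List ℕ)) none
      (fun l1 => List.rec (motive := fun _ => Option (List ℕ)) none
      (fun x l2 _ => Bool.rec (motive := fun _ => Option (List ℕ)) none (b.chk l2)
        (Nat.beq x k)) l1) (a.chk l) := rfl

theorem mem_node (a b : BT) (k x : ℕ) : (BT.nd a k b).mem x =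
    Bool.rec (motive := fun _ => Bool)
        (Bool.rec (motive := fun _ => Bool) (b.mem x) (a.mem x) (Nat.ble x k))
        true (Nat.beq x k) := rfl

theorem chk_sound (t : BT) : ∀ (l rest : List ℕ), t.chk l = some rest →
    (∀ x, t.mem x = true → x ∈ l) ∧ ∀ y ∈ rest, y ∈ l := by
  induction t with
  | e =>
    intro l rest h
    have h' : some l = some rest := h
    obtain rfl := Option.some.inj h'
    exact ⟨fun x hx => absurd hx (by simp [BT.mem]), fun y hy => hy⟩
  | nd a k b iha ihb =>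
    intro l rest h
    rw [chk_node] at h
    cases ha : a.chk l with
    | none => rw [ha] at h; exact absurd h (by simp)
    | some rest1 =>
      rw [ha] at h
      obtain ⟨h1, h3⟩ := iha l rest1 ha
      cases rest1 with
      | nil => exact absurd h (by simp)
      | cons x l2 =>
        have h2 : (Bool.rec (motive := fun _ => Option (List ℕ)) none (b.chk l2)
          (Nat.beq x k) : Option (List ℕ)) = some rest := h
        cases e : Nat.beq x k with
        | false => rw [e] at h2; exact absurd h2 (by simp)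
        | true =>
          rw [e] at h2
          have hx := Nat.eq_of_beq_eq_true e
          obtain ⟨h4, h6⟩ := ihb l2 rest h2
          refine ⟨fun y hy => ?_, fun y hy => h3 y (List.mem_cons_of_mem _ (h6 y hy))⟩
          rw [mem_node] at hy
          cases e1 : Nat.beq y k with
          | true =>
            have := Nat.eq_of_beq_eq_true e1
            rw [this, ← hx]
            exact h3 x List.mem_cons_self
          | false =>
            rw [e1] at hy
            cases e2 : Nat.ble y k with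
            | true => rw [e2] at hy; exact h1 y hy
            | false => rw [e2] at hy; exact h3 y (List.mem_cons_of_mem _ (h4 y hy))

theorem code7_shift (H : TG (Fin 7)) : code7 H >>> 35 = 0 := by
  rw [Nat.shiftRight_eq_div_pow]
  exact Nat.div_eq_of_lt (Nat.lt_pow_two_of_testBit _ (fun i hi => testBit_code7_ge H i hi))

/-- the statement certified by a node -/
def P (m c : ℕ) : Prop :=
  ∀ H : TG (Fin 7), (∀ σ : Equiv.Perm (Fin 7), code7 (H.pull σ) ≤ code7 H) → code7 H >>> m = c →
    ∃ σ : Equiv.Perm (Fin 7), code7 (H.pull σ) ∈ reps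

theorem P_br (m c : ℕ) (h0 : P m (2 * c)) (h1 : P m (2 * c + 1)) : P (m + 1) c := by
  intro H hH hc
  have h2 := shiftRight_step (code7 H) m
  rw [hc] at h2
  cases hb : (code7 H).testBit m with
  | false => rw [hb] at h2; exact h0 H hH h2
  | true => rw [hb] at h2; exact h1 H hH h2

theorem P_of_check (R : BT) (hR : ∀ x, R.mem x = true → x ∈ reps) (T : Cert) :
    ∀ m c : ℕ, C.check R T m c = true → P m c := by
  induction T with
  | br a b iha ihb =>
    intro m c h
    cases m with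
    | zero => exact absurd h (by simp [C.check])
    | succ m =>
      have h' : (Bool.rec (motive := fun _ => Bool) false
          (C.check R b m (2 * c + 1)) (C.check R a m (2 * c)) : Bool) = true := h
      rw [brec_false] at h'
      exact P_br m c (iha _ _ h'.1) (ihb _ _ h'.2)
  | k4 s =>
    intro m c h H hH hc
    have h' : C.chkK4 m c s = true := h
    rw [← hc] at h'
    exact (k4_sound H m s h').elim
  | sy s =>
    intro m c h H hH hc
    have h' : (Bool.rec (motive := fun _ => Bool) false (C.cmp m c s C.tl) (C.isPerm s) : Bool) =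
      true := h
    rw [brec_false] at h'
    obtain ⟨h1, h2⟩ := h'
    obtain ⟨σ, hσ⟩ := isPerm_sound s h1
    rw [← hc] at h2
    have h3 := cmp_sound H σ s m hσ C.tl 35 tl_ok (fun q hq => by
      rw [testBit_code7_ge _ q hq, testBit_code7_ge _ q hq]) h2
    exact absurd (hH σ) (not_le.2 h3)
  | lf s =>
    intro m c h H hH hc
    have h' : (Bool.rec (motive := fun _ => Bool) false
      (Bool.rec (motive := fun _ => Bool) false (R.mem (C.gather c s C.tl 0)) (C.isPerm s))
        (Nat.beq m 0) : Bool) = true := h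
    rw [brec_false, brec_false] at h'
    obtain ⟨h0, h1, h2⟩ := h'
    have hm := Nat.eq_of_beq_eq_true h0
    obtain ⟨σ, hσ⟩ := isPerm_sound s h1
    have hc' : c = code7 H := by rw [← hc, hm]; rfl
    rw [hc', gather_sound H σ s hσ C.tl 35 0 tl_ok (code7_shift _).symm] at h2
    exact ⟨σ, hR _ h2⟩

theorem RT_chk : C.isSome (C.RT.chk reps) = true := by decide +kernel

theorem RT_sub : ∀ x, C.RT.mem x = true → x ∈ reps := by
  have h := RT_chk
  cases e : C.RT.chk reps with
  | none => rw [e] at h; exact absurd h (by simp [C.isSome])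
  | some rest => exact (chk_sound _ _ _ e).1

set_option maxRecDepth 100000 in
theorem P_top : P 35 0 :=
  (P_br 34 0
  (P_of_check RT RT_sub C.t0 34 0 C.t0_ok)
  (P_br 33 1
  (P_of_check RT RT_sub C.t1 33 2 C.t1_ok)
  (P_br 32 3
  (P_br 31 6
  (P_br 30 12
  (P_br 29 24
  (P_br 28 48
  (P_of_check RT RT_sub C.t2 28 96 C.t2_ok)
  (P_br 27 97
  (P_br 26 194
  (P_br 25 388
  (P_br 24 776
  (P_of_check RT RT_sub C.t3 24 1552 C.t3_ok)
  (P_br 23 1553
  (P_br 22 3106
  (P_br 21 6212
  (P_of_check RT RT_sub C.t4 21 12424 C.t4_ok)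
  (P_of_check RT RT_sub C.t5 21 12425 C.t5_ok))
  (P_of_check RT RT_sub C.t6 22 6213 C.t6_ok))
  (P_of_check RT RT_sub C.t7 23 3107 C.t7_ok)))
  (P_of_check RT RT_sub C.t8 25 777 C.t8_ok))
  (P_of_check RT RT_sub C.t9 26 389 C.t9_ok))
  (P_of_check RT RT_sub C.t10 27 195 C.t10_ok)))
  (P_of_check RT RT_sub C.t11 29 49 C.t11_ok))
  (P_of_check RT RT_sub C.t12 30 25 C.t12_ok))
  (P_of_check RT RT_sub C.t13 31 13 C.t13_ok))
  (P_br 31 7
  (P_br 30 14
  (P_br 29 28
  (P_br 28 56
  (P_br 27 112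
  (P_of_check RT RT_sub C.t14 27 224 C.t14_ok)
  (P_br 26 225
  (P_br 25 450
  (P_br 24 900
  (P_br 23 1800
  (P_of_check RT RT_sub C.t15 23 3600 C.t15_ok)
  (P_br 22 3601
  (P_br 21 7202
  (P_br 20 14404
  (P_of_check RT RT_sub C.t16 20 28808 C.t16_ok)
  (P_of_check RT RT_sub C.t17 20 28809 C.t17_ok))
  (P_of_check RT RT_sub C.t18 21 14405 C.t18_ok))
  (P_of_check RT RT_sub C.t19 22 7203 C.t19_ok)))
  (P_br 23 1801
  (P_br 22 3602
  (P_br 21 7204
  (P_br 20 14408
  (P_of_check RT RT_sub C.t20 20 28816 C.t20_ok)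
  (P_of_check RT RT_sub C.t21 20 28817 C.t21_ok))
  (P_br 20 14409
  (P_of_check RT RT_sub C.t22 20 28818 C.t22_ok)
  (P_of_check RT RT_sub C.t23 20 28819 C.t23_ok)))
  (P_of_check RT RT_sub C.t24 22 7205 C.t24_ok))
  (P_of_check RT RT_sub C.t25 23 3603 C.t25_ok)))
  (P_of_check RT RT_sub C.t26 25 901 C.t26_ok))
  (P_br 25 451
  (P_br 24 902
  (P_of_check RT RT_sub C.t27 24 1804 C.t27_ok)
  (P_of_check RT RT_sub C.t28 24 1805 C.t28_ok))
  (P_of_check RT RT_sub C.t29 25 903 C.t29_ok))))
  (P_of_check RT RT_sub C.t30 28 113 C.t30_ok))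
  (P_of_check RT RT_sub C.t31 29 57 C.t31_ok))
  (P_of_check RT RT_sub C.t32 30 29 C.t32_ok))
  (P_of_check RT RT_sub C.t33 31 15 C.t33_ok)))))

/-- every `K_4^-`-free 3-graph on 7 vertices is isomorphic to one in the list -/
theorem complete : ∀ H : TG (Fin 7), ∃ σ : Equiv.Perm (Fin 7), code7 (H.pull σ) ∈ reps := by
  intro H
  obtain ⟨τ, -, hτ⟩ := Finset.exists_max_image (Finset.univ : Finset (Equiv.Perm (Fin 7)))
    (fun τ => code7 (H.pull τ)) ⟨1, Finset.mem_univ _⟩
  obtain ⟨σ, hσ⟩ := P_top (H.pull τ) (fun σ => by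
    exact hτ (τ * σ) (Finset.mem_univ _)) (code7_shift _)
  exact ⟨τ * σ, hσ⟩

end K4m
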