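import Mathlib
import Pool.Agent.Lib.MP_392c14_co.Defs

/-! # Symmetrisation of the functionals, and injectivity of the code of a 3-graph on 7 vertices -/

set_option autoImplicit false

namespace K4m

theorem Ex_pull_perm {V : Type} [Fintype V] (G : TG V) (w : V → ℝ)
    (h : TG (Fin 7) → ℝ) (σ : Equiv.Perm (Fin 7)) :
    Ex G w (fun H => h (H.pull σ)) = Ex G w h := by
  unfold Ex
  refine Fintype.sum_equiv (Equiv.arrowCongr σ.symm (Equiv.refl V)) _ _ ?_
  intro φ
  have h1 : (Equiv.arrowCongr σ.symm (Equiv.refl V)) φ = φ ∘ σ := by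
    funext i
    rfl
  rw [h1]
  have h2 : (∏ i, w ((φ ∘ σ) i)) = ∏ i, w (φ i) := Equiv.prod_comp σ (fun i => w (φ i))
  rw [h2]
  rfl

theorem sum_prod_eq_one {V : Type} [Fintype V] (w : V → ℝ) (hw : IsW w) :
    ∑ φ : Fin 7 → V, (∏ i, w (φ i)) = 1 := by
  classical
  have h := Finset.prod_univ_sum (fun _ : Fin 7 => (Finset.univ : Finset V)) (fun _ x => w x)
  rw [Fintype.piFinset_univ] at h
  rw [← h]
  simp [hw.sum_eq]

theorem Ex_le {V : Type} [Fintype V] (G : TG V) (w : V → ℝ) (hw : IsW w)
    (h : TG (Fin 7) → ℝ) (c : ℝ)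
    (hc : ∀ H : TG (Fin 7), ∑ σ : Equiv.Perm (Fin 7), h (H.pull σ) ≤ 5040 * c) :
    Ex G w h ≤ c := by
  have h1 : ∑ σ : Equiv.Perm (Fin 7), Ex G w (fun H => h (H.pull σ)) = 5040 * Ex G w h := by
    rw [Finset.sum_congr rfl (fun σ _ => Ex_pull_perm G w h σ), Finset.sum_const,
      Finset.card_univ, Fintype.card_perm, Fintype.card_fin, nsmul_eq_mul]
    norm_num [Nat.factorial]
  have h2 : ∑ σ : Equiv.Perm (Fin 7), Ex G w (fun H => h (H.pull σ)) ≤ 5040 * c := by
    unfold Ex
    rw [Finset.sum_comm]
    calc ∑ φ : Fin 7 → V, ∑ σ : Equiv.Perm (Fin 7), (∏ i, w (φ i)) * h ((G.pull φ).pull σ)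
        ≤ ∑ φ : Fin 7 → V, (∏ i, w (φ i)) * (5040 * c) := by
          apply Finset.sum_le_sum
          intro φ _
          rw [← Finset.mul_sum]
          exact mul_le_mul_of_nonneg_left (hc _) (Finset.prod_nonneg fun i _ => hw.nonneg _)
      _ = 5040 * c := by
          rw [← Finset.sum_mul, sum_prod_eq_one w hw, one_mul]
  rw [h1] at h2
  linarith

theorem bits_inj : ∀ (l l' : List Bool), l.length = l'.length → bits l = bits l' → l = l'
  | [], [], _, _ => rfl
  | [], _ :: _, h, _ => by simp at h
  | _ :: _, [], h, _ => by simp at h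
  | b :: l, b' :: l', h, h' => by
    have hlen : l.length = l'.length := by simpa using h
    have h1 : b.toNat + 2 * bits l = b'.toNat + 2 * bits l' := h'
    have h2 : b.toNat = b'.toNat ∧ bits l = bits l' := by
      have hb : b.toNat ≤ 1 := by cases b <;> simp
      have hb' : b'.toNat ≤ 1 := by cases b' <;> simp
      constructor <;> omega
    have h3 : b = b' := by
      have := h2.1
      cases b <;> cases b' <;> simp_all
    rw [h3, bits_inj l l' hlen h2.2]

theorem TG.ext' {V : Type} (H H' : TG V) (h : ∀ i j k, H.E i j k = H'.E i j k) : H = H' := by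
  cases H with
  | mk E s1 s2 ir fr =>
    cases H' with
    | mk E' s1' s2' ir' fr' =>
      have : E = E' := by
        funext i j k
        exact h i j k
      subst this
      rfl

theorem TG.ext_lt {n : ℕ} (H H' : TG (Fin n))
    (h : ∀ i j k, i < j → j < k → H.E i j k = H'.E i j k) : H = H' := by
  apply TG.ext'
  have irr2 : ∀ (K : TG (Fin n)) (x z : Fin n), K.E x z z = false := by
    intro K x z
    rw [← K.symm₁ x z z, K.symm₂ z z x]
    exact K.irr z x
  have irr3 : ∀ (K : TG (Fin n)) (x z : Fin n), K.E x z x = false := by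
    intro K x z
    rw [K.symm₂]
    exact K.irr x z
  -- first step: `i < j`, `k` arbitrary
  have step1 : ∀ i j k, i < j → H.E i j k = H'.E i j k := by
    intro i j k hij
    rcases lt_trichotomy j k with hjk | hjk | hjk
    · exact h i j k hij hjk
    · subst hjk
      rw [irr2, irr2]
    · rcases lt_trichotomy i k with hik | hik | hik
      · rw [H.symm₂ i k j, H'.symm₂ i k j]
        exact h i k j hik hjk
      · subst hik
        rw [irr3, irr3]
      · rw [H.symm₂ i k j, H'.symm₂ i k j, H.symm₁ k i j, H'.symm₁ k i j]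
        exact h k i j hik hij
  intro i j k
  rcases lt_trichotomy i j with hij | hij | hij
  · exact step1 i j k hij
  · subst hij
    rw [H.irr, H'.irr]
  · rw [H.symm₁ j i k, H'.symm₁ j i k]
    exact step1 j i k hij

theorem code7_inj (H H' : TG (Fin 7)) (h : code7 H = code7 H') : H = H' := by
  apply TG.ext_lt
  unfold code7 at h
  have h1 := bits_inj _ _ (by rfl) h
  simp only [List.cons.injEq, and_true] at h1
  obtain ⟨e012, e013, e023, e123, e014, e024, e124, e034, e134, e234,
    e015, e025, e125, e035, e135, e235, e045, e145, e245, e345,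
    e016, e026, e126, e036, e136, e236, e046, e146, e246, e346,
    e056, e156, e256, e356, e456⟩ := h1
  intro i j k hij hjk
  fin_cases i <;> fin_cases j <;> first
    | exact absurd hij (by decide)
    | (fin_cases k <;> first | exact absurd hjk (by decide) | assumption)

end K4m
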