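import Mathlib
import Pool.Agent.Lib.MP_392c14_co.StepA5
import Pool.Agent.Lib.MP_392c14_co.Purity
import Pool.Agent.Lib.MP_392c14_co.Ev.PlanB

/-!
# Step A, part 6: the functionals of Step A in terms of the link codes

The links of a vertex on a standard copy are triangle-free and contain at most one pair of every
block.  A Boolean search over these links proves a pointwise inequality between the functionals
`Xu, xi, xm, xc` and a table of weights.
-/

set_option autoImplicit false

namespace K4m

open Finset Function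
open K4m.Ev (lk15 wl WL)

/-- the six indices -/
def F6 : List (Fin 6) := [0, 1, 2, 3, 4, 5]

theorem mem_F6 : ∀ a : Fin 6, a ∈ F6 := by decide

theorem sum_F6 (f : Fin 6 → ℕ) : (F6.map f).sum = ∑ i, f i := by
  rw [Fin.sum_univ_six]
  simp only [F6, List.map_cons, List.map_nil, List.sum_cons, List.sum_nil]
  ring

theorem all_F6 (p : Fin 6 → Bool) : F6.all p = true ↔ ∀ a, p a = true := by
  rw [List.all_eq_true]
  exact ⟨fun h a => h a (mem_F6 a), fun h a _ => h a⟩

theorem any_F6 (p : Fin 6 → Bool) : F6.any p = true ↔ ∃ a, p a = true := by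
  rw [List.any_eq_true]
  exact ⟨fun ⟨a, _, h⟩ => ⟨a, h⟩, fun ⟨a, h⟩ => ⟨a, mem_F6 a, h⟩⟩

/-- adjacency of a link code -/
def padj (m : ℕ) (a b : Fin 6) : Bool :=
  if Nat.ble b a then (if Nat.ble a b then false else
    Nat.testBit m ((a : ℕ) * ((a : ℕ) - 1) / 2 + (b : ℕ)))
  else Nat.testBit m ((b : ℕ) * ((b : ℕ) - 1) / 2 + (a : ℕ))

theorem padj_symm (m : ℕ) (a b : Fin 6) : padj m b a = padj m a b := by
  fin_cases a <;> fin_cases b <;> rfl

theorem padj_mod (m n : ℕ) (a b : Fin 6) (h : padj (m % 2 ^ n) a b = true) :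
    padj m a b = true := by
  unfold padj at h ⊢
  have key : ∀ i, Nat.testBit (m % 2 ^ n) i = true → Nat.testBit m i = true := by
    intro i hi
    rw [Nat.testBit_mod_two_pow] at hi
    simp only [Bool.and_eq_true] at hi
    exact hi.2
  split_ifs at h ⊢
  · exact key _ h
  · exact key _ h

/-- the pairs in the order of the code -/
def PL : List (Fin 6 × Fin 6) := [(0, 1), (0, 2), (1, 2), (0, 3), (1, 3), (2, 3), (0, 4), (1, 4),
  (2, 4), (3, 4), (0, 5), (1, 5), (2, 5), (3, 5), (4, 5)]

theorem padj_PL (m : ℕ) : ∀ n < 15, padj m (PL.getD n (0, 0)).1 (PL.getD n (0, 0)).2 =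
    Nat.testBit m n := by
  intro n hn
  interval_cases n <;> rfl

/-- triangle-free with at most one pair in every block -/
def vokB (m : ℕ) : Bool :=
  F6.all fun a => F6.all fun b => F6.all fun c =>
    !(padj m a b && (padj m a c && (padj m b c || pTab a b c)))

/-- a conflict when the pair `n` is added -/
def cfl (n m : ℕ) : Bool :=
  F6.any fun c => (padj m (PL.getD n (0, 0)).1 c &&
      (padj m (PL.getD n (0, 0)).2 c || pTab (PL.getD n (0, 0)).1 (PL.getD n (0, 0)).2 c)) ||
    (padj m (PL.getD n (0, 0)).2 c && pTab (PL.getD n (0, 0)).1 (PL.getD n (0, 0)).2 c)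

/-- the search -/
def dfs (T : ℕ → Bool) : ℕ → ℕ → Bool
  | 0, m => T m
  | k + 1, m => dfs T k m && (cfl (14 - k) m || dfs T k (m + 2 ^ (14 - k)))

theorem vok_point {m : ℕ} (h : vokB m = true) (a b c : Fin 6) (h1 : padj m a b = true)
    (h2 : padj m a c = true) : padj m b c = false ∧ pTab a b c = false := by
  unfold vokB at h
  have h3 := (all_F6 _).1 ((all_F6 _).1 ((all_F6 _).1 h a) b) c
  rw [h1, h2] at h3
  cases hb : padj m b c <;> cases hc : pTab a b c <;> simp_all

theorem pTab_symm₁ (a b c : Fin 6) : pTab b a c = pTab a b c := by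
  rw [← pTab_eq, ← pTab_eq, D6.symm₁]

theorem cfl_false {M n : ℕ} (hn : n < 15) (hM : vokB M = true) (hb : Nat.testBit M n = true) :
    cfl n (M % 2 ^ n) = false := by
  rw [← padj_PL M n hn] at hb
  unfold cfl
  rw [← Bool.not_eq_true, any_F6]
  rintro ⟨c, hc⟩
  rw [Bool.or_eq_true, Bool.and_eq_true, Bool.and_eq_true, Bool.or_eq_true] at hc
  set a := (PL.getD n (0, 0)).1 with ha
  set b := (PL.getD n (0, 0)).2 with hb'
  rcases hc with ⟨h1, h2⟩ | ⟨h1, h2⟩
  · have h3 := padj_mod _ _ _ _ h1
    have h4 := vok_point hM a b c hb h3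
    rcases h2 with h2 | h2
    · rw [padj_mod _ _ _ _ h2] at h4
      exact absurd h4.1 (by decide)
    · rw [h2] at h4
      exact absurd h4.2 (by decide)
  · have h3 := padj_mod _ _ _ _ h1
    have hb2 : padj M b a = true := by rw [padj_symm]; exact hb
    have h4 := (vok_point hM b a c hb2 h3).2
    rw [pTab_symm₁, h2] at h4
    exact absurd h4 (by decide)

theorem dfs_sound (T : ℕ → Bool) (h : dfs T 15 0 = true) (M : ℕ) (hlt : M < 2 ^ 15)
    (hM : vokB M = true) : T M = true := by
  have key : ∀ j, j ≤ 15 → dfs T (15 - j) (M % 2 ^ j) = true := by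
    intro j
    induction j with
    | zero =>
      intro _
      rw [pow_zero, Nat.mod_one]
      exact h
    | succ j ih =>
      intro hj
      have h1 := ih (by omega)
      have e1 : 15 - j = (15 - (j + 1)) + 1 := by omega
      have e2 : 14 - (15 - (j + 1)) = j := by omega
      rw [e1, dfs, e2, Bool.and_eq_true, Bool.or_eq_true] at h1
      cases hb : Nat.testBit M j with
      | false =>
        have e3 : M % 2 ^ (j + 1) = M % 2 ^ j := by
          rw [Nat.mod_pow_succ]
          have : M / 2 ^ j % 2 = 0 := by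
            have h5 := Nat.testBit_eq_decide_div_mod_eq (x := M) (i := j)
            rw [hb] at h5
            have h6 : ¬ (M / 2 ^ j % 2 = 1) := by
              intro h7
              rw [h7] at h5
              simp at h5
            omega
          rw [this, mul_zero, add_zero]
        rw [e3]
        exact h1.1
      | true =>
        have e3 : M % 2 ^ (j + 1) = M % 2 ^ j + 2 ^ j := by
          rw [Nat.mod_pow_succ]
          have : M / 2 ^ j % 2 = 1 := by
            have h5 := Nat.testBit_eq_decide_div_mod_eq (x := M) (i := j)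
            rw [hb] at h5
            exact of_decide_eq_true h5.symm
          rw [this, mul_one]
        rw [e3]
        rcases h1.2 with h2 | h2
        · rw [cfl_false (by omega) hM hb] at h2
          exact absurd h2 (by decide)
        · exact h2
  have h2 := key 15 (le_refl _)
  rw [Nat.mod_eq_of_lt hlt] at h2
  exact h2

/-- agreement of a code with the pentagon `k` on a set of indices -/
def agB (m : ℕ) (S : Fin 6 → Bool) (k : Fin 6) : Bool :=
  F6.all fun a => !S a || F6.all fun b => !S b || (padj m a b == pTab k a b)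

theorem agB_iff (m : ℕ) (S : Fin 6 → Bool) (k : Fin 6) :
    agB m S k = true ↔ ∀ a b, S a = true → S b = true → padj m a b = D6.E k a b := by
  unfold agB
  rw [all_F6]
  constructor
  · intro h a b ha hb
    have h1 := h a
    rw [ha, Bool.not_true, Bool.false_or, all_F6] at h1
    have h2 := h1 b
    rw [hb, Bool.not_true, Bool.false_or, beq_iff_eq] at h2
    rw [h2, pTab_eq]
  · intro h a
    cases ha : S a with
    | false => simp
    | true =>
      rw [Bool.not_true, Bool.false_or, all_F6]
      intro b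
      cases hb : S b with
      | false => simp
      | true =>
        rw [Bool.not_true, Bool.false_or, beq_iff_eq, ← pTab_eq]
        exact h a b ha hb

/-- not a pentagon -/
def ncB (m : ℕ) : ℕ := if F6.any (fun k => agB m Sall k) then 0 else 1

def nPB (m : ℕ) : ℕ := (F6.map fun i => (F6.map fun j =>
  if (i != j) && (agB m (Soff i) j && !agB m Sall j) then 1 else 0).sum).sum

def nQB (m : ℕ) : ℕ := (F6.map fun i => (F6.map fun j => (F6.map fun k =>
  if pTab i j k && (!padj m i j && agB m (Soff2 i j) k) then 1 else 0).sum).sum).sum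

def nRB (m : ℕ) : ℕ := (F6.map fun i => (F6.map fun j =>
  if (i != j) && (padj m i j && agB m (Soff j) i) then 1 else 0).sum).sum

section Real

variable {V : Type} [Fintype V] [DecidableEq V] (G : TG V) (w : V → ℝ)

omit [Fintype V] [DecidableEq V] in
theorem padj_lk15 (u : Fin 6 → V) (y : V) (a b : Fin 6) :
    padj (lk15 G u y) a b = G.E (u a) (u b) y := by
  have hs : ∀ a b, padj (lk15 G u y) b a = G.E (u b) (u a) y →
      padj (lk15 G u y) a b = G.E (u a) (u b) y := by
    intro a b h
    rw [← padj_symm, h, G.symm₁]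
  have hd : ∀ a, padj (lk15 G u y) a a = G.E (u a) (u a) y := by
    intro a
    rw [G.irr]
    unfold padj
    rw [if_pos (Nat.ble_eq_true_of_le (le_refl _)), if_pos (Nat.ble_eq_true_of_le (le_refl _))]
  have key : ∀ n < 15, Nat.testBit (lk15 G u y) n =
      G.E (u (PL.getD n (0, 0)).1) (u (PL.getD n (0, 0)).2) y := by
    intro n hn
    unfold lk15
    rw [testBit_bits]
    interval_cases n <;> rfl
  have hk : ∀ n < 15, padj (lk15 G u y) (PL.getD n (0, 0)).1 (PL.getD n (0, 0)).2 =
      G.E (u (PL.getD n (0, 0)).1) (u (PL.getD n (0, 0)).2) y := fun n hn => by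
    rw [padj_PL _ n hn, key n hn]
  have tot : ∀ a b : Fin 6, a = b ∨ (∃ n < 15, a = (PL.getD n (0, 0)).1 ∧
      b = (PL.getD n (0, 0)).2) ∨ (∃ n < 15, b = (PL.getD n (0, 0)).1 ∧
      a = (PL.getD n (0, 0)).2) := by decide +kernel
  rcases tot a b with h | ⟨n, hn, h1, h2⟩ | ⟨n, hn, h1, h2⟩
  · subst h; exact hd a
  · subst h1 h2; exact hk n hn
  · subst h1 h2; exact hs _ _ (hk n hn)

omit [Fintype V] [DecidableEq V] in
theorem lk15_lt (u : Fin 6 → V) (y : V) : lk15 G u y < 2 ^ 15 := by
  unfold lk15
  exact K4m.Ev.bits_lt _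

omit [Fintype V] in
theorem vok_lk15 {u : Fin 6 → V} (hu : St G u) (y : V) : vokB (lk15 G u y) = true := by
  unfold vokB
  rw [all_F6]; intro a
  rw [all_F6]; intro b
  rw [all_F6]; intro c
  rw [padj_lk15, padj_lk15, padj_lk15, ← pTab_eq]
  cases h1 : G.E (u a) (u b) y with
  | false => simp
  | true =>
    cases h2 : G.E (u a) (u c) y with
    | false => simp
    | true =>
      have h3 : G.E (u b) (u c) y = false := by
        rw [← Bool.not_eq_true]
        intro h3
        refine G.free y (u a) (u b) (u c) ⟨?_, ?_, ?_⟩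
        · rw [G.symm₁, G.symm₂]; exact h1
        · rw [G.symm₁, G.symm₂]; exact h2
        · rw [G.symm₁, G.symm₂]; exact h3
      have h4 : D6.E a b c = false := by
        rw [← Bool.not_eq_true]
        intro h4
        rw [← hu a b c] at h4
        exact G.free (u a) (u b) (u c) y ⟨h4, h1, h2⟩
      rw [h3, h4]
      rfl

omit [Fintype V] [DecidableEq V] in
theorem agB_lk15 (S : Fin 6 → Bool) (k : Fin 6) (u : Fin 6 → V) (y : V) :
    agB (lk15 G u y) S k = true ↔ Ag G S k u y := by
  rw [agB_iff]
  unfold Ag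
  refine forall_congr' fun a => forall_congr' fun b => forall_congr' fun _ =>
    forall_congr' fun _ => ?_
  rw [padj_lk15]
  have : G.E (u a) (u b) y = G.E y (u a) (u b) := by
    rw [G.symm₂, G.symm₁]
  rw [this]

omit [Fintype V] in
theorem agB_all {u : Fin 6 → V} (hu : St G u) (k : Fin 6) (y : V) :
    agB (lk15 G u y) Sall k = true ↔ St G (update u k y) := by
  rw [agB_lk15]
  constructor
  · intro h
    exact clone_of G hu fun a b _ _ => h a b rfl rfl
  · intro h a b _ _
    exact clone_all G hu h a b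

theorem nc_eq {u : Fin 6 → V} (hu : St G u) (y : V) :
    1 - ∑ k, st G (update u k y) = (ncB (lk15 G u y) : ℝ) := by
  unfold ncB
  by_cases h : ∃ k, agB (lk15 G u y) Sall k = true
  · have h' : F6.any (fun k => agB (lk15 G u y) Sall k) = true := (any_F6 _).2 h
    rw [if_pos h']
    obtain ⟨k, hk⟩ := h
    have hk' := (agB_all G hu k y).1 hk
    rw [sum_eq_single_of_mem k (mem_univ k), st_of G _ hk']
    · simp
    · intro j _ hjk
      rcases st_cases G (update u j y) with ⟨p, _⟩ | ⟨_, q⟩
      · exact absurd (clone_unique G hu p hk') hjk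
      · exact q
  · have h' : ¬ F6.any (fun k => agB (lk15 G u y) Sall k) = true := fun h1 => h ((any_F6 _).1 h1)
    rw [if_neg h']
    rw [sum_eq_zero]
    · simp
    · intro j _
      rcases st_cases G (update u j y) with ⟨p, _⟩ | ⟨_, q⟩
      · exact absurd ⟨j, (agB_all G hu j y).2 p⟩ h
      · exact q

theorem nP_eq {u : Fin 6 → V} (hu : St G u) (y : V) :
    ∑ i, ∑ j, nee i j * (agi G (Soff i) j u y * (1 - st G (update u j y))) =
      (nPB (lk15 G u y) : ℝ) := by
  unfold nPB
  rw [sum_F6, Nat.cast_sum]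
  refine sum_congr rfl fun i _ => ?_
  rw [sum_F6, Nat.cast_sum]
  refine sum_congr rfl fun j _ => ?_
  by_cases hij : i = j
  · subst hij
    have : nee i i = 0 := by unfold nee; rw [if_pos rfl]
    rw [this]
    simp
  · have hn : nee i j = 1 := by unfold nee; rw [if_neg hij]
    have hb : (i != j) = true := bne_iff_ne.2 hij
    rw [hn, one_mul, hb, Bool.true_and]
    unfold agi ind
    by_cases hA : Ag G (Soff i) j u y
    · have h1 := (agB_lk15 G (Soff i) j u y).2 hA
      rw [h1, Bool.true_and]
      rcases st_cases G (update u j y) with ⟨p, q⟩ | ⟨p, q⟩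
      · have h2 := (agB_all G hu j y).2 p
        rw [q, h2]
        simp
      · have h2 : agB (lk15 G u y) Sall j = false := by
          rw [← Bool.not_eq_true]
          exact fun h => p ((agB_all G hu j y).1 h)
        rw [q, h2]
        simp [hA]
    · have h1 : agB (lk15 G u y) (Soff i) j = false := by
        rw [← Bool.not_eq_true]
        exact fun h => hA ((agB_lk15 G (Soff i) j u y).1 h)
      rw [h1]
      simp [hA]

theorem nQ_eq (u : Fin 6 → V) (y : V) :
    ∑ i, ∑ j, ∑ k, blk i j k * (agi G (Soff2 i j) k u y * (1 - ind (G.E (u i) (u j) y))) =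
      (nQB (lk15 G u y) : ℝ) := by
  unfold nQB
  rw [sum_F6, Nat.cast_sum]
  refine sum_congr rfl fun i _ => ?_
  rw [sum_F6, Nat.cast_sum]
  refine sum_congr rfl fun j _ => ?_
  rw [sum_F6, Nat.cast_sum]
  refine sum_congr rfl fun k _ => ?_
  rw [padj_lk15, ← pTab_eq]
  unfold blk agi ind
  cases hb : D6.E i j k with
  | false => simp
  | true =>
    cases hE : G.E (u i) (u j) y with
    | true => simp
    | false =>
      by_cases hA : Ag G (Soff2 i j) k u y
      · have h1 := (agB_lk15 G (Soff2 i j) k u y).2 hA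
        rw [h1]
        simp [hA]
      · have h1 : agB (lk15 G u y) (Soff2 i j) k = false := by
          rw [← Bool.not_eq_true]
          exact fun h => hA ((agB_lk15 G (Soff2 i j) k u y).1 h)
        rw [h1]
        simp [hA]

theorem nR_eq (u : Fin 6 → V) (y : V) :
    ∑ i, ∑ j, nee i j * (agi G (Soff j) i u y * ind (G.E (u i) (u j) y)) =
      (nRB (lk15 G u y) : ℝ) := by
  unfold nRB
  rw [sum_F6, Nat.cast_sum]
  refine sum_congr rfl fun i _ => ?_
  rw [sum_F6, Nat.cast_sum]
  refine sum_congr rfl fun j _ => ?_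
  rw [padj_lk15]
  by_cases hij : i = j
  · subst hij
    have : nee i i = 0 := by unfold nee; rw [if_pos rfl]
    rw [this]
    simp
  · have hn : nee i j = 1 := by unfold nee; rw [if_neg hij]
    have hb : (i != j) = true := bne_iff_ne.2 hij
    rw [hn, one_mul, hb, Bool.true_and]
    unfold agi ind
    cases hE : G.E (u i) (u j) y with
    | false => simp
    | true =>
      by_cases hA : Ag G (Soff j) i u y
      · have h1 := (agB_lk15 G (Soff j) i u y).2 hA
        rw [h1]
        simp [hA]
      · have h1 : agB (lk15 G u y) (Soff j) i = false := by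
          rw [← Bool.not_eq_true]
          exact fun h => hA ((agB_lk15 G (Soff j) i u y).1 h)
        rw [h1]
        simp [hA]

/-- the table is large enough -/
noncomputable def tabB (a b c d : ℕ) (W : WL) : Bool :=
  dfs (fun m => Nat.ble (a * ncB m + b * nPB m + c * nQB m + d * nRB m) (wl W m)) 15 0

theorem tab_point (a b c d : ℕ) (W : WL) (h : tabB a b c d W = true) {u : Fin 6 → V}
    (hu : St G u) (y : V) :
    (a : ℝ) * ncB (lk15 G u y) + b * nPB (lk15 G u y) + c * nQB (lk15 G u y) +
      d * nRB (lk15 G u y) ≤ (wl W (lk15 G u y) : ℝ) := by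
  have h1 := dfs_sound _ h (lk15 G u y) (lk15_lt G u y) (vok_lk15 G hu y)
  have h2 := Nat.le_of_ble_eq_true h1
  exact_mod_cast h2

theorem EU_const_mul_sum (F : Fin 6 → Fin 6 → (Fin 6 → V) → ℝ) (n : Fin 6 → Fin 6 → ℝ) :
    EU G w (fun u => ∑ i, ∑ j, n i j * F i j u) = ∑ i, ∑ j, n i j * EU G w (F i j) := by
  rw [EU_sum]
  refine sum_congr rfl fun i _ => ?_
  rw [EU_sum]
  refine sum_congr rfl fun j _ => ?_
  rw [EU_mul]

theorem EU_Pf (hw : ∀ x, 0 < w x) :
    EU G w (Pf G w) = EU G w (fun u => ∑ i, ∑ j, nee i j * xi G w i j u) := by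
  unfold Pf
  rw [EU_const_mul_sum, EU_const_mul_sum]
  refine sum_congr rfl fun i _ => sum_congr rfl fun j _ => ?_
  rw [EU_PK G w hw]

theorem EU_Rf (hw : ∀ x, 0 < w x) :
    EU G w (Rf G w) = EU G w (fun u => ∑ i, ∑ j, nee i j * xc G w i j u) := by
  unfold Rf
  rw [EU_const_mul_sum, EU_const_mul_sum]
  refine sum_congr rfl fun i _ => sum_congr rfl fun j _ => ?_
  rw [EU_PK G w hw, EU_PK G w hw]

theorem EU_Qf (hw : ∀ x, 0 < w x) :
    EU G w (Qf G w) = EU G w (fun u => ∑ i, ∑ j, ∑ k, blk i j k * xm G w i j k u) := by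
  unfold Qf
  rw [EU_sum, EU_sum]
  refine sum_congr rfl fun i _ => ?_
  rw [EU_const_mul_sum, EU_const_mul_sum]
  refine sum_congr rfl fun j _ => sum_congr rfl fun k _ => ?_
  rw [EU_PK G w hw, EU_PK G w hw]

/-- the functional of Step A is bounded by the table -/
theorem EU_table (hw : ∀ x, 0 < w x) (a b c d : ℕ) (W : WL) (h : tabB a b c d W = true) :
    EU G w (fun u => (a : ℝ) * Xu G w u + b * Pf G w u + c * Qf G w u + d * Rf G w u) ≤
      EU G w (fun u => ∑ y, w y * (wl W (lk15 G u y) : ℝ)) := by
  have e1 : EU G w (fun u => (a : ℝ) * Xu G w u + b * Pf G w u + c * Qf G w u +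
      d * Rf G w u) = EU G w (fun u => (a : ℝ) * Xu G w u +
      b * (∑ i, ∑ j, nee i j * xi G w i j u) +
      c * (∑ i, ∑ j, ∑ k, blk i j k * xm G w i j k u) +
      d * (∑ i, ∑ j, nee i j * xc G w i j u)) := by
    rw [EU_add, EU_add, EU_add, EU_mul, EU_mul, EU_mul, EU_mul, EU_add, EU_add, EU_add, EU_mul,
      EU_mul, EU_mul, EU_mul, EU_Pf G w hw, EU_Qf G w hw, EU_Rf G w hw]
  rw [e1]
  refine EU_mono G w (fun x => (hw x).le) _ _ fun u hu => ?_
  have e2 : (a : ℝ) * Xu G w u + b * (∑ i, ∑ j, nee i j * xi G w i j u) +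
      c * (∑ i, ∑ j, ∑ k, blk i j k * xm G w i j k u) +
      d * (∑ i, ∑ j, nee i j * xc G w i j u) = ∑ y, w y * ((a : ℝ) * ncB (lk15 G u y) +
        b * nPB (lk15 G u y) + c * nQB (lk15 G u y) + d * nRB (lk15 G u y)) := by
    have x1 : Xu G w u = ∑ y, w y * (ncB (lk15 G u y) : ℝ) := by
      unfold Xu
      exact sum_congr rfl fun y _ => by rw [nc_eq G hu]
    have x2 : ∑ i, ∑ j, nee i j * xi G w i j u = ∑ y, w y * (nPB (lk15 G u y) : ℝ) := by
      have : ∀ y, w y * (nPB (lk15 G u y) : ℝ) = ∑ i, ∑ j, nee i j * (w y *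
          (agi G (Soff i) j u y * (1 - st G (update u j y)))) := by
        intro y
        rw [← nP_eq G hu, mul_sum]
        refine sum_congr rfl fun i _ => ?_
        rw [mul_sum]
        exact sum_congr rfl fun j _ => by ring
      rw [sum_congr rfl fun y _ => this y, sum_comm (f := fun y i => ∑ j, nee i j * (w y *
          (agi G (Soff i) j u y * (1 - st G (update u j y)))))]
      refine sum_congr rfl fun i _ => ?_
      rw [sum_comm (f := fun y j => nee i j * (w y *
          (agi G (Soff i) j u y * (1 - st G (update u j y)))))]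
      refine sum_congr rfl fun j _ => ?_
      rw [← mul_sum]
      rfl
    have x3 : ∑ i, ∑ j, ∑ k, blk i j k * xm G w i j k u =
        ∑ y, w y * (nQB (lk15 G u y) : ℝ) := by
      have : ∀ y, w y * (nQB (lk15 G u y) : ℝ) = ∑ i, ∑ j, ∑ k, blk i j k * (w y *
          (agi G (Soff2 i j) k u y * (1 - ind (G.E (u i) (u j) y)))) := by
        intro y
        rw [← nQ_eq G, mul_sum]
        refine sum_congr rfl fun i _ => ?_
        rw [mul_sum]
        refine sum_congr rfl fun j _ => ?_
        rw [mul_sum]
        exact sum_congr rfl fun k _ => by ring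
      rw [sum_congr rfl fun y _ => this y, sum_comm (f := fun y i => ∑ j, ∑ k, blk i j k * (w y *
          (agi G (Soff2 i j) k u y * (1 - ind (G.E (u i) (u j) y)))))]
      refine sum_congr rfl fun i _ => ?_
      rw [sum_comm (f := fun y j => ∑ k, blk i j k * (w y *
          (agi G (Soff2 i j) k u y * (1 - ind (G.E (u i) (u j) y)))))]
      refine sum_congr rfl fun j _ => ?_
      rw [sum_comm (f := fun y k => blk i j k * (w y *
          (agi G (Soff2 i j) k u y * (1 - ind (G.E (u i) (u j) y)))))]
      refine sum_congr rfl fun k _ => ?_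
      rw [← mul_sum]
      rfl
    have x4 : ∑ i, ∑ j, nee i j * xc G w i j u = ∑ y, w y * (nRB (lk15 G u y) : ℝ) := by
      have : ∀ y, w y * (nRB (lk15 G u y) : ℝ) = ∑ i, ∑ j, nee i j * (w y *
          (agi G (Soff j) i u y * ind (G.E (u i) (u j) y))) := by
        intro y
        rw [← nR_eq G, mul_sum]
        refine sum_congr rfl fun i _ => ?_
        rw [mul_sum]
        exact sum_congr rfl fun j _ => by ring
      rw [sum_congr rfl fun y _ => this y, sum_comm (f := fun y i => ∑ j, nee i j * (w y *
          (agi G (Soff j) i u y * ind (G.E (u i) (u j) y))))]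
      refine sum_congr rfl fun i _ => ?_
      rw [sum_comm (f := fun y j => nee i j * (w y *
          (agi G (Soff j) i u y * ind (G.E (u i) (u j) y))))]
      refine sum_congr rfl fun j _ => ?_
      rw [← mul_sum]
      rfl
    rw [x1, x2, x3, x4, mul_sum, mul_sum, mul_sum, mul_sum, ← sum_add_distrib,
      ← sum_add_distrib, ← sum_add_distrib]
    exact sum_congr rfl fun y _ => by ring
  rw [e2]
  exact sum_le_sum fun y _ => mul_le_mul_of_nonneg_left (tab_point G a b c d W h hu y) (hw y).le

end Real

end K4m
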