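/-!
# Kernel checker for the completeness of the list of 7-vertex 3-graphs (no Mathlib import)

The 35 bits of `code7` are assigned from the top (bit 34) downwards; `m` is the number of unknown bits,
`c` the number formed by the known ones.  A certificate refutes a partial assignment by a 4-set with
3 edges (`k4`), or by a permutation that makes the code larger (`sy`); a full assignment is mapped by a
permutation to a code of the list (`lf`).
-/

set_option autoImplicit false

namespace K4m.C

inductive Cert where
  | br : Cert → Cert → Cert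
  | k4 : Nat → Cert
  | sy : Nat → Cert
  | lf : Nat → Cert

/-- positions (descending) with the three vertices, multiplied by 3 -/
inductive TL where
  | nil : TL
  | cons : Nat → Nat → Nat → Nat → TL → TL

/-- search tree -/
inductive BT where
  | e : BT
  | nd : BT → Nat → BT → BT

/-- table of positions: entry `64 x + 8 y + z` (6 bits) is the position of the triple `x y z`, 63 if degenerate -/
def tt : Nat := 0xffffffffffffffffffffffffffffffffffffffffffffffffffffffffffffffffffffffffffffffffffffffffffffffffffffffffffffffffffffffffffffe28607defff8bf75c6dafff85dfd9617fff81c67f595fff7db616fd4fff79a5d553fffffffffffffffffe28607defffffffffffffe2fff4d2450fe1fd3fcf38dfe0fd23ff30bfdffd138cfcafdefd034b2bffffffffffffffff8bf75c6dafe2fff4d2450fffffffffffffdd4fffc9207fdc4bf27f185fdb47f206fc4fda43f1c513ffffffffffffffff85dfd9617fe1fd3fcf38dfdd4fffc9207fffffffffffffd93c9fff0c2fd8388fc3fc1fd7347fc207ffffffffffffffff81c67f595fe0fd23ff30bfdc4bf27f185fd93c9fff0c2fffffffffffffd63060fffc0fd52c50bf03ffffffffffffffff7db616fd4fdffd138cfcafdb47f206fc4fd8388fc3fc1fd63060fffc0fffffffffffffd4284040ffffffffffffffffff79a5d553ffdefd034b2bffda43f1c513ffd7347fc207ffd52c50bf03ffd4284040fffffffffffffff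

noncomputable def dg (s i : Nat) : Nat := Nat.land (Nat.shiftRight s i) 7

noncomputable def tid (x y z : Nat) : Nat :=
  Nat.land (Nat.shiftRight tt (Nat.add (Nat.mul 384 x) (Nat.add (Nat.mul 48 y) (Nat.mul 6 z)))) 63

/-- bit `p` of a code of which `c` are the bits from `m` on -/
noncomputable def kb (m c p : Nat) : Nat := Nat.land (Nat.shiftRight c (Nat.sub p m)) 1

noncomputable def ite' (b : Bool) (x y : Bool) : Bool := Bool.rec (motive := fun _ => Bool) y x b

noncomputable def known1 (m c p : Nat) : Bool :=
  Bool.rec (motive := fun _ => Bool) false (Nat.beq (kb m c p) 1) (Nat.ble m p)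

noncomputable def chkK4 (m c s : Nat) : Bool :=
  Bool.rec (motive := fun _ => Bool) false
    (Bool.rec (motive := fun _ => Bool) false
      (known1 m c (tid (dg s 0) (dg s 6) (dg s 9)))
      (known1 m c (tid (dg s 0) (dg s 3) (dg s 9))))
    (known1 m c (tid (dg s 0) (dg s 3) (dg s 6)))

noncomputable def isPerm (s : Nat) : Bool :=
  Nat.beq (Nat.lor (Nat.shiftLeft 1 (dg s 0)) (Nat.lor (Nat.shiftLeft 1 (dg s 3))
    (Nat.lor (Nat.shiftLeft 1 (dg s 6)) (Nat.lor (Nat.shiftLeft 1 (dg s 9))
    (Nat.lor (Nat.shiftLeft 1 (dg s 12)) (Nat.lor (Nat.shiftLeft 1 (dg s 15))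
    (Nat.shiftLeft 1 (dg s 18)))))))) 127

def tl : TL := 
  .cons 34 12 15 18 (.cons 33 9 15 18 (.cons 32 6 15 18 (.cons 31 3 15 18 (.cons 30 0 15 18 (
  .cons 29 9 12 18 (.cons 28 6 12 18 (.cons 27 3 12 18 (.cons 26 0 12 18 (.cons 25 6 9 18 (
  .cons 24 3 9 18 (.cons 23 0 9 18 (.cons 22 3 6 18 (.cons 21 0 6 18 (.cons 20 0 3 18 (
  .cons 19 9 12 15 (.cons 18 6 12 15 (.cons 17 3 12 15 (.cons 16 0 12 15 (.cons 15 6 9 15 (
  .cons 14 3 9 15 (.cons 13 0 9 15 (.cons 12 3 6 15 (.cons 11 0 6 15 (.cons 10 0 3 15 (
  .cons 9 6 9 12 (.cons 8 3 9 12 (.cons 7 0 9 12 (.cons 6 3 6 12 (.cons 5 0 6 12 (.cons 4 0 3 12 (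
  .cons 3 3 6 9 (.cons 2 0 6 9 (.cons 1 0 3 9 (.cons 0 0 3 6 (.nil)))))))))))))))))))))))))))))))))))

/-- the permuted code is larger (decided by known bits) -/
noncomputable def cmp (m c s : Nat) (l : TL) : Bool :=
  TL.rec (motive := fun _ => Bool) false
    (fun p a3 b3 c3 _ ih =>
      Bool.rec (motive := fun _ => Bool) false
        (Bool.rec (motive := fun _ => Bool) false
          (Bool.rec (motive := fun _ => Bool)
            -- different bits: the source bit must be 1
            (Nat.beq (kb m c (tid (dg s a3) (dg s b3) (dg s c3))) 1)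
            ih
            (Nat.beq (kb m c (tid (dg s a3) (dg s b3) (dg s c3))) (kb m c p)))
          (Nat.ble m (tid (dg s a3) (dg s b3) (dg s c3))))
        (Nat.ble m p)) l

/-- the permuted code (`acc` : the higher bits) -/
noncomputable def gather (c s : Nat) (l : TL) : Nat → Nat :=
  TL.rec (motive := fun _ => Nat → Nat) (fun acc => acc)
    (fun _ a3 b3 c3 _ ih acc =>
      ih (Nat.add (Nat.mul 2 acc) (Nat.land (Nat.shiftRight c (tid (dg s a3) (dg s b3) (dg s c3))) 1))) l

noncomputable def BT.mem (t : BT) (x : Nat) : Bool :=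
  BT.rec (motive := fun _ => Bool) false
    (fun _ k _ il ir =>
      Bool.rec (motive := fun _ => Bool)
        (Bool.rec (motive := fun _ => Bool) ir il (Nat.ble x k))
        true (Nat.beq x k)) t

/-- if the in-order traversal of the tree is a prefix of the list: the rest of the list -/
noncomputable def BT.chk (t : BT) : List Nat → Option (List Nat) :=
  BT.rec (motive := fun _ => List Nat → Option (List Nat)) (fun l => some l)
    (fun _ k _ ia ib l => Option.rec (motive := fun _ => Option (List Nat)) none
      (fun l1 => List.rec (motive := fun _ => Option (List Nat)) none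
      (fun x l2 _ => Bool.rec (motive := fun _ => Option (List Nat)) none (ib l2)
        (Nat.beq x k)) l1) (ia l)) t

noncomputable def isSome (o : Option (List Nat)) : Bool :=
  Option.rec (motive := fun _ => Bool) false (fun _ => true) o

noncomputable def check (R : BT) (T : Cert) : Nat → Nat → Bool :=
  Cert.rec (motive := fun _ => Nat → Nat → Bool)
    (fun _ _ ia ib m c =>
      Nat.rec (motive := fun _ => Bool) false
        (fun m' _ => Bool.rec (motive := fun _ => Bool) false
          (ib m' (Nat.add (Nat.mul 2 c) 1)) (ia m' (Nat.mul 2 c))) m)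
    (fun s m c => chkK4 m c s)
    (fun s m c => Bool.rec (motive := fun _ => Bool) false (cmp m c s tl) (isPerm s))
    (fun s m c => Bool.rec (motive := fun _ => Bool) false
      (Bool.rec (motive := fun _ => Bool) false (R.mem (gather c s tl 0)) (isPerm s)) (Nat.beq m 0))
    T

end K4m.C
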