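import Mathlib
import Pool.Agent.Lib.MP_392c14_co.Root4

/-!
# Couplings of triple densities in a `K_4^-`-free 3-graph
-/

set_option autoImplicit false

namespace K4m

open Finset

section Cp

variable {V : Type} [Fintype V] (G : TG V)

omit [Fintype V] in
private theorem ind3_le (x y z t : V) :
    ind (G.E x y z) + ind (G.E x y t) + ind (G.E x z t) ≤ 2 := by
  have hf := G.free x y z t
  rcases ind_cases (G.E x y z) with ⟨e, e'⟩ | ⟨e, e'⟩
  · rcases ind_cases (G.E x y t) with ⟨f, f'⟩ | ⟨f, f'⟩
    · rcases ind_cases (G.E x z t) with ⟨g, g'⟩ | ⟨g, g'⟩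
      · exact absurd ⟨e, f, g⟩ hf
      · rw [e', f', g']; norm_num
    · rcases ind_cases (G.E x z t) with ⟨g, g'⟩ | ⟨g, g'⟩
      · rw [e', f', g']; norm_num
      · rw [e', f', g']; norm_num
  · rcases ind_cases (G.E x y t) with ⟨f, f'⟩ | ⟨f, f'⟩
    · rcases ind_cases (G.E x z t) with ⟨g, g'⟩ | ⟨g, g'⟩
      · rw [e', f', g']; norm_num
      · rw [e', f', g']; norm_num
    · rcases ind_cases (G.E x z t) with ⟨g, g'⟩ | ⟨g, g'⟩
      · rw [e', f', g']; norm_num
      · rw [e', f', g']; norm_num

private theorem quad_le {a b c d : V → ℝ} (ha : IsW a) (hb : IsW b) (hc : IsW c) (hd : IsW d)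
    (F : V → V → V → V → ℝ) (hF : ∀ x y z t, F x y z t ≤ 2) :
    ∑ x, ∑ y, ∑ z, ∑ t, a x * b y * c z * d t * F x y z t ≤ 2 := by
  have h1 : ∑ x, ∑ y, ∑ z, ∑ t, a x * b y * c z * d t * F x y z t
      ≤ ∑ x, ∑ y, ∑ z, ∑ t, a x * b y * c z * d t * 2 := by
    refine sum_le_sum fun x _ => sum_le_sum fun y _ => sum_le_sum fun z _ =>
      sum_le_sum fun t _ => ?_
    refine mul_le_mul_of_nonneg_left (hF x y z t) ?_
    have := ha.nonneg x
    have := hb.nonneg y
    have := hc.nonneg z
    have := hd.nonneg t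
    positivity
  have h2 : ∑ x, ∑ y, ∑ z, ∑ t, a x * b y * c z * d t * 2 = 2 := by
    have s1 : ∀ x y z, ∑ t, a x * b y * c z * d t * 2 = a x * b y * c z * 2 := by
      intro x y z
      have : ∑ t, a x * b y * c z * d t * 2 = ∑ t, (a x * b y * c z * 2) * d t :=
        sum_congr rfl fun t _ => by ring
      rw [this, ← mul_sum, hd.sum_eq, mul_one]
    have s2 : ∀ x y, ∑ z, a x * b y * c z * 2 = a x * b y * 2 := by
      intro x y
      have : ∑ z, a x * b y * c z * 2 = ∑ z, (a x * b y * 2) * c z :=
        sum_congr rfl fun t _ => by ring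
      rw [this, ← mul_sum, hc.sum_eq, mul_one]
    have s3 : ∀ x, ∑ y, a x * b y * 2 = a x * 2 := by
      intro x
      have : ∑ y, a x * b y * 2 = ∑ y, (a x * 2) * b y :=
        sum_congr rfl fun t _ => by ring
      rw [this, ← mul_sum, hb.sum_eq, mul_one]
    simp only [s1, s2, s3]
    rw [← sum_mul, ha.sum_eq, one_mul]
  linarith

/-- Three of the four triples on four independent random points: at most two are edges. -/
theorem tri_couple {a b c d : V → ℝ} (ha : IsW a) (hb : IsW b) (hc : IsW c) (hd : IsW d) :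
    tri G a b c + tri G a b d + tri G a c d ≤ 2 := by
  have key := quad_le ha hb hc hd
    (fun x y z t => ind (G.E x y z) + ind (G.E x y t) + ind (G.E x z t)) (ind3_le G)
  have e1 : tri G a b c = ∑ x, ∑ y, ∑ z, ∑ t, a x * b y * c z * d t * ind (G.E x y z) := by
    unfold tri
    refine sum_congr rfl fun x _ => sum_congr rfl fun y _ => sum_congr rfl fun z _ => ?_
    have : ∑ t, a x * b y * c z * d t * ind (G.E x y z)
        = ∑ t, (a x * b y * c z * ind (G.E x y z)) * d t := sum_congr rfl fun t _ => by ring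
    rw [this, ← mul_sum, hd.sum_eq, mul_one]
  have e2 : tri G a b d = ∑ x, ∑ y, ∑ z, ∑ t, a x * b y * c z * d t * ind (G.E x y t) := by
    unfold tri
    refine sum_congr rfl fun x _ => sum_congr rfl fun y _ => ?_
    rw [sum_comm]
    refine sum_congr rfl fun t _ => ?_
    have : ∑ z, a x * b y * c z * d t * ind (G.E x y t)
        = ∑ z, (a x * b y * d t * ind (G.E x y t)) * c z := sum_congr rfl fun t _ => by ring
    rw [this, ← mul_sum, hc.sum_eq, mul_one]
  have e3 : tri G a c d = ∑ x, ∑ y, ∑ z, ∑ t, a x * b y * c z * d t * ind (G.E x z t) := by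
    unfold tri
    refine sum_congr rfl fun x _ => ?_
    symm
    rw [sum_comm]
    refine sum_congr rfl fun z _ => ?_
    rw [sum_comm]
    refine sum_congr rfl fun t _ => ?_
    have : ∑ y, a x * b y * c z * d t * ind (G.E x z t)
        = ∑ y, (a x * c z * d t * ind (G.E x z t)) * b y := sum_congr rfl fun t _ => by ring
    rw [this, ← mul_sum, hb.sum_eq, mul_one]
  have e4 : ∑ x, ∑ y, ∑ z, ∑ t, a x * b y * c z * d t
        * (ind (G.E x y z) + ind (G.E x y t) + ind (G.E x z t))
      = tri G a b c + tri G a b d + tri G a c d := by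
    rw [e1, e2, e3]
    simp only [mul_add, sum_add_distrib]
  rw [← e4]
  exact key

/-- bad triples with two points of the measure `a`: at most twice the missing part of any triple
`(a, b, d)` -/
theorem tri_aab_le {a b d : V → ℝ} (ha : IsW a) (hb : IsW b) (hd : IsW d) :
    tri G a a b ≤ 2 * (1 - tri G a b d) := by
  have h := tri_couple G hb ha ha hd
  have e1 : tri G b a a = tri G a a b := by
    rw [tri_swap12 G b a a, tri_swap23 G a b a]
  have e2 : tri G b a d = tri G a b d := tri_swap12 G b a d
  rw [e1, e2] at h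
  linarith

/-- a triple `(a, b, c)` against two of the other three triples with a fourth measure `d` -/
theorem tri_abc_le {a b c d : V → ℝ} (ha : IsW a) (hb : IsW b) (hc : IsW c) (hd : IsW d) :
    tri G a b c ≤ (1 - tri G a b d) + (1 - tri G a c d) := by
  have h := tri_couple G ha hb hc hd
  linarith

end Cp

end K4m
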