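import Mathlib
import Pool.Agent.Lib.MP_392c14_co.Lower
import Pool.Agent.Lib.MP_392c14_co.PA.Main

set_option autoImplicit false

namespace Pool.Agent.Lib.MP_392c14_co.DensityUpper

/-- The Turan density of `K_4^-` (the limit exists) is less than `0.28572`. -/
theorem result :
    ∃ p : ℝ, Filter.Tendsto
      (fun n : ℕ =>
        ((sSup {m : ℕ | ∃ H : Finset (Finset (Fin n)),
            (∀ e ∈ H, e.card = 3) ∧
            (∀ a b c d : Fin n, a ≠ b → a ≠ c → a ≠ d → b ≠ c → b ≠ d → c ≠ d →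
              ¬ (({a, b, c} : Finset (Fin n)) ∈ H ∧ ({a, b, d} : Finset (Fin n)) ∈ H ∧
                  ({a, c, d} : Finset (Fin n)) ∈ H)) ∧
            H.card = m} : ℕ) : ℝ) / ((n.choose 3 : ℕ) : ℝ))
      Filter.atTop (nhds p) ∧ p < 28572 / 100000 :=
  ⟨K4m.rho, K4m.tendsto_rho, K4m.rho_lt⟩

end Pool.Agent.Lib.MP_392c14_co.DensityUpper
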