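import Mathlib
import Pool.Agent.Lib.MP_392c14_co.End2F

/-!
# End game, second version: missing degrees up to 1/96
-/

set_option autoImplicit false

namespace K4m

open Finset

theorem own_le_cl' {n : ℕ} {G : TG (Fin n)} {w : Fin n → ℝ} {c : Fin n → Fin 6}
    (hw : ∀ x, 0 ≤ w x) (u v : Fin n) : own G w c u v ≤ cl w c (c u) := by
  unfold own cl
  refine sum_le_sum fun y _ => mul_le_mul_of_nonneg_left ?_ (hw y)
  have := ind_le_one (G.E u y v)
  have := ind_nonneg (G.E u y v)
  split_ifs <;> linarith

/-- End game: missing degrees at most 1/96, total missing mass at most 28/10^5. -/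
theorem endgame_a {n : ℕ} (G : TG (Fin n)) (w : Fin n → ℝ) (c : Fin n → Fin 6) (hw : IsW w)
    (hpos : ∀ x, 0 < w x) (hdeg : ∀ x, deg G w x = val G w)
    (hmax : ∀ w', IsW w' → val G w' ≤ val G w) (hnear : rho - 1 / 10 ^ 12 ≤ val G w)
    (hsz : ∀ i, |cl w c i - 1 / 6| ≤ 1 / 200)
    (hmis : ∀ z, mis G w c z ≤ (1 / 96))
    (hM : MM G w c ≤ (7 / 25000)) : val G w ≤ (10 + rho) / 36 := by
  have hcnd := cnd_of_opt G w hw hpos hmax
  have S0 : State G w c (97 / 600) (103 / 600) (3 / 20000) (103 / 600) := by
    refine ⟨fun i => ?_, fun i => ?_, ?_, fun r z _ => ?_⟩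
    · have := (abs_le.1 (hsz i)).1; linarith
    · have := (abs_le.1 (hsz i)).2; linarith
    · refine S_box (97 / 600) (103 / 600) (1 / 200) _ (fun i => ?_) (fun i => ?_) (by norm_num) (by norm_num)
        (by norm_num)
      · have := (abs_le.1 (hsz i)).1; linarith
      · have := (abs_le.1 (hsz i)).2; linarith
    · refine (own_le_cl' hw.nonneg z r).trans ?_
      have := (abs_le.1 (hsz (c z))).2; linarith
  have R1 := mkRoot (97 / 600) (1 / 96) (103 / 600) (279 / 5000) (62 / 3125) (293 / 250) (1777 / 20000) (59 / 100) (4891 / 2000) (35559 / 1000000)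
      (by norm_num) (by norm_num) (by norm_num) (by norm_num) (by norm_num) (by norm_num) (by norm_num) (by norm_num) (by norm_num) (by norm_num) (by norm_num) (by norm_num) (by norm_num) (by norm_num) (by norm_num) (by norm_num) (by norm_num) (by norm_num) (by norm_num) (by norm_num) (by norm_num) (by norm_num) (by norm_num)
  have L1 := mkLoc (97 / 600) (103 / 600) (1 / 96) (103 / 600) (3401 / 100000) (527757 / 1000000) (585907 / 1000000)
      (by norm_num) (by norm_num) (by norm_num) (by norm_num) (by norm_num) (by norm_num)
      (by norm_num) (by norm_num) (by norm_num) (by norm_num) (by norm_num) (by norm_num) (by norm_num)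
  have S1 := size_pass hw _ (1 / 10 ^ 12) hdeg hnear (by norm_num) hmis _ hM hsz L1 R1 S0
    (819 / 2500) (301 / 1562500) (46667 / 500000000) (22879 / 100000000) (5307 / 125000000) (1 / 200) (1 / 200) (3 / 20000) (81553 / 500000) (1697541 / 10000000) (76071 / 1000000000)
    (by norm_num) (by norm_num) (by norm_num) (by norm_num) (by norm_num) (by norm_num)
    (by norm_num) (Or.inl (by norm_num)) (by norm_num) (by norm_num) (by norm_num) (by norm_num)
    (by norm_num) (Or.inr ⟨(5341 / 1500000), by norm_num, by norm_num, by norm_num⟩)
  have L2 := mkLoc (81553 / 500000) (1697541 / 10000000) (1 / 96) (103 / 600) (3367 / 100000) (65901 / 125000) (290103 / 500000)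
      (by norm_num) (by norm_num) (by norm_num) (by norm_num) (by norm_num) (by norm_num)
      (by norm_num) (by norm_num) (by norm_num) (by norm_num) (by norm_num) (by norm_num) (by norm_num)
  have S2 := own_pass hw _ (1 / 10 ^ 12) (1 / 10 ^ 6) hcnd rfl hdeg hnear (by norm_num)
    (by norm_num) (by norm_num) hmis _ hM L2 S1
    (173 / 10000) (19237 / 125000) (19599 / 2000) (31067 / 10000) (83409 / 500000) (by norm_num) (by norm_num)
    (by norm_num) (by norm_num) (by norm_num) (by norm_num) (by norm_num) (by norm_num)
    (by norm_num)
  have L3 := mkLoc (81553 / 500000) (1697541 / 10000000) (1 / 96) (83409 / 500000) (3367 / 100000) (65901 / 125000) (8836 / 15625)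
      (by norm_num) (by norm_num) (by norm_num) (by norm_num) (by norm_num) (by norm_num)
      (by norm_num) (by norm_num) (by norm_num) (by norm_num) (by norm_num) (by norm_num) (by norm_num)
  have S3 := own_pass hw _ (1 / 10 ^ 12) (1 / 10 ^ 6) hcnd rfl hdeg hnear (by norm_num)
    (by norm_num) (by norm_num) hmis _ hM L3 S2
    (167 / 5000) (17343 / 125000) (48107 / 5000) (28917 / 10000) (32817 / 200000) (by norm_num) (by norm_num)
    (by norm_num) (by norm_num) (by norm_num) (by norm_num) (by norm_num) (by norm_num)
    (by norm_num)
  have L4 := mkLoc (81553 / 500000) (1697541 / 10000000) (1 / 96) (32817 / 200000) (3367 / 100000) (65901 / 125000) (557221 / 1000000)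
      (by norm_num) (by norm_num) (by norm_num) (by norm_num) (by norm_num) (by norm_num)
      (by norm_num) (by norm_num) (by norm_num) (by norm_num) (by norm_num) (by norm_num) (by norm_num)
  have S4 := own_pass hw _ (1 / 10 ^ 12) (1 / 10 ^ 6) hcnd rfl hdeg hnear (by norm_num)
    (by norm_num) (by norm_num) hmis _ hM L4 S3
    (209 / 5000) (26173 / 200000) (47609 / 5000) (6949 / 2500) (162659 / 1000000) (by norm_num) (by norm_num)
    (by norm_num) (by norm_num) (by norm_num) (by norm_num) (by norm_num) (by norm_num)
    (by norm_num)
  have R5 := mkRoot (81553 / 500000) (1 / 96) (162659 / 1000000) (549 / 10000) (391 / 20000) (553 / 500) (1743 / 20000) (29 / 50) (12357 / 5000) (7083 / 200000)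
      (by norm_num) (by norm_num) (by norm_num) (by norm_num) (by norm_num) (by norm_num) (by norm_num) (by norm_num) (by norm_num) (by norm_num) (by norm_num) (by norm_num) (by norm_num) (by norm_num) (by norm_num) (by norm_num) (by norm_num) (by norm_num) (by norm_num) (by norm_num) (by norm_num) (by norm_num) (by norm_num)
  have L5 := mkLoc (81553 / 500000) (1697541 / 10000000) (1 / 96) (162659 / 1000000) (3367 / 100000) (65901 / 125000) (552901 / 1000000)
      (by norm_num) (by norm_num) (by norm_num) (by norm_num) (by norm_num) (by norm_num)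
      (by norm_num) (by norm_num) (by norm_num) (by norm_num) (by norm_num) (by norm_num) (by norm_num)
  have S5 := size_pass hw _ (1 / 10 ^ 12) hdeg hnear (by norm_num) hmis _ hM hsz L5 R5 S4
    (2519 / 10000) (371 / 3125000) (46667 / 500000000) (108893 / 500000000) (28527 / 1000000000) (5341 / 1500000) (92623 / 30000000) (76071 / 1000000000) (82037 / 500000) (2646 / 15625) (43009 / 1000000000)
    (by norm_num) (by norm_num) (by norm_num) (by norm_num) (by norm_num) (by norm_num)
    (by norm_num) (Or.inl (by norm_num)) (by norm_num) (by norm_num) (by norm_num) (by norm_num)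
    (by norm_num) (Or.inr ⟨(251 / 93750), by norm_num, by norm_num, by norm_num⟩)
  have L6 := mkLoc (82037 / 500000) (2646 / 15625) (1 / 96) (162659 / 1000000) (669 / 20000) (526853 / 1000000) (549287 / 1000000)
      (by norm_num) (by norm_num) (by norm_num) (by norm_num) (by norm_num) (by norm_num)
      (by norm_num) (by norm_num) (by norm_num) (by norm_num) (by norm_num) (by norm_num) (by norm_num)
  have S6 := own_pass hw _ (1 / 10 ^ 12) (1 / 10 ^ 6) hcnd rfl hdeg hnear (by norm_num)
    (by norm_num) (by norm_num) hmis _ hM L6 S5
    (743 / 10000) (30919 / 250000) (9241 / 1000) (2861 / 1250) (78381 / 500000) (by norm_num) (by norm_num)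
    (by norm_num) (by norm_num) (by norm_num) (by norm_num) (by norm_num) (by norm_num)
    (by norm_num)
  have L7 := mkLoc (82037 / 500000) (2646 / 15625) (1 / 96) (78381 / 500000) (669 / 20000) (526853 / 1000000) (106307 / 200000)
      (by norm_num) (by norm_num) (by norm_num) (by norm_num) (by norm_num) (by norm_num)
      (by norm_num) (by norm_num) (by norm_num) (by norm_num) (by norm_num) (by norm_num) (by norm_num)
  have S7 := own_pass hw _ (1 / 10 ^ 12) (1 / 10 ^ 6) hcnd rfl hdeg hnear (by norm_num)
    (by norm_num) (by norm_num) hmis _ hM L7 S6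
    (873 / 10000) (110211 / 1000000) (90403 / 10000) (4239 / 2000) (154561 / 1000000) (by norm_num) (by norm_num)
    (by norm_num) (by norm_num) (by norm_num) (by norm_num) (by norm_num) (by norm_num)
    (by norm_num)
  have L8 := mkLoc (82037 / 500000) (2646 / 15625) (1 / 96) (154561 / 1000000) (669 / 20000) (526853 / 1000000) (262457 / 500000)
      (by norm_num) (by norm_num) (by norm_num) (by norm_num) (by norm_num) (by norm_num)
      (by norm_num) (by norm_num) (by norm_num) (by norm_num) (by norm_num) (by norm_num) (by norm_num)
  have S8 := own_pass hw _ (1 / 10 ^ 12) (1 / 10 ^ 6) hcnd rfl hdeg hnear (by norm_num)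
    (by norm_num) (by norm_num) hmis _ hM L8 S7
    (459 / 5000) (52761 / 500000) (89659 / 10000) (1288 / 625) (153799 / 1000000) (by norm_num) (by norm_num)
    (by norm_num) (by norm_num) (by norm_num) (by norm_num) (by norm_num) (by norm_num)
    (by norm_num)
  have R9 := mkRoot (82037 / 500000) (1 / 96) (153799 / 1000000) (34 / 625) (1937 / 100000) (523 / 500) (4303 / 50000) (57 / 100) (12459 / 5000) (35423 / 1000000)
      (by norm_num) (by norm_num) (by norm_num) (by norm_num) (by norm_num) (by norm_num) (by norm_num) (by norm_num) (by norm_num) (by norm_num) (by norm_num) (by norm_num) (by norm_num) (by norm_num) (by norm_num) (by norm_num) (by norm_num) (by norm_num) (by norm_num) (by norm_num) (by norm_num) (by norm_num) (by norm_num)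
  have L9 := mkLoc (82037 / 500000) (2646 / 15625) (1 / 96) (153799 / 1000000) (669 / 20000) (526853 / 1000000) (261311 / 500000)
      (by norm_num) (by norm_num) (by norm_num) (by norm_num) (by norm_num) (by norm_num)
      (by norm_num) (by norm_num) (by norm_num) (by norm_num) (by norm_num) (by norm_num) (by norm_num)
  have S9 := size_pass hw _ (1 / 10 ^ 12) hdeg hnear (by norm_num) hmis _ hM hsz L9 R9 S8
    (1847 / 10000) (161 / 3125000) (46667 / 500000000) (104951 / 500000000) (19901 / 1000000000) (3889 / 1500000) (251 / 93750) (43009 / 1000000000) (1648973 / 10000000) (1691243 / 10000000) (453 / 12500000)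
    (by norm_num) (by norm_num) (by norm_num) (by norm_num) (by norm_num) (by norm_num)
    (by norm_num) (Or.inl (by norm_num)) (by norm_num) (by norm_num) (by norm_num) (by norm_num)
    (by norm_num) (Or.inr ⟨(73729 / 30000000), by norm_num, by norm_num, by norm_num⟩)
  have L10 := mkLoc (1648973 / 10000000) (1691243 / 10000000) (1 / 96) (153799 / 1000000) (3327 / 100000) (3291 / 6250) (103943 / 200000)
      (by norm_num) (by norm_num) (by norm_num) (by norm_num) (by norm_num) (by norm_num)
      (by norm_num) (by norm_num) (by norm_num) (by norm_num) (by norm_num) (by norm_num) (by norm_num)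
  have S10 := own_pass hw _ (1 / 10 ^ 12) (1 / 10 ^ 6) hcnd rfl hdeg hnear (by norm_num)
    (by norm_num) (by norm_num) hmis _ hM L10 S9
    (541 / 5000) (51589 / 500000) (17579 / 2000) (1133 / 625) (75413 / 500000) (by norm_num) (by norm_num)
    (by norm_num) (by norm_num) (by norm_num) (by norm_num) (by norm_num) (by norm_num)
    (by norm_num)
  have L11 := mkLoc (1648973 / 10000000) (1691243 / 10000000) (1 / 96) (75413 / 500000) (3327 / 100000) (3291 / 6250) (25541 / 50000)
      (by norm_num) (by norm_num) (by norm_num) (by norm_num) (by norm_num) (by norm_num)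
      (by norm_num) (by norm_num) (by norm_num) (by norm_num) (by norm_num) (by norm_num) (by norm_num)
  have S11 := own_pass hw _ (1 / 10 ^ 12) (1 / 10 ^ 6) hcnd rfl hdeg hnear (by norm_num)
    (by norm_num) (by norm_num) hmis _ hM L11 S10
    (283 / 2500) (97599 / 1000000) (21731 / 2500) (17489 / 10000) (7499 / 50000) (by norm_num) (by norm_num)
    (by norm_num) (by norm_num) (by norm_num) (by norm_num) (by norm_num) (by norm_num)
    (by norm_num)
  have L12 := mkLoc (1648973 / 10000000) (1691243 / 10000000) (1 / 96) (7499 / 50000) (3327 / 100000) (3291 / 6250) (508291 / 1000000)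
      (by norm_num) (by norm_num) (by norm_num) (by norm_num) (by norm_num) (by norm_num)
      (by norm_num) (by norm_num) (by norm_num) (by norm_num) (by norm_num) (by norm_num) (by norm_num)
  have S12 := own_pass hw _ (1 / 10 ^ 12) (1 / 10 ^ 6) hcnd rfl hdeg hnear (by norm_num)
    (by norm_num) (by norm_num) hmis _ hM L12 S11
    (573 / 5000) (4803 / 50000) (86647 / 10000) (1731 / 1000) (149743 / 1000000) (by norm_num) (by norm_num)
    (by norm_num) (by norm_num) (by norm_num) (by norm_num) (by norm_num) (by norm_num)
    (by norm_num)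
  have R13 := mkRoot (1648973 / 10000000) (1 / 96) (149743 / 1000000) (539 / 10000) (961 / 50000) (127 / 125) (8517 / 100000) (57 / 100) (12531 / 5000) (35339 / 1000000)
      (by norm_num) (by norm_num) (by norm_num) (by norm_num) (by norm_num) (by norm_num) (by norm_num) (by norm_num) (by norm_num) (by norm_num) (by norm_num) (by norm_num) (by norm_num) (by norm_num) (by norm_num) (by norm_num) (by norm_num) (by norm_num) (by norm_num) (by norm_num) (by norm_num) (by norm_num) (by norm_num)
  have L13 := mkLoc (1648973 / 10000000) (1691243 / 10000000) (1 / 96) (149743 / 1000000) (3327 / 100000) (3291 / 6250) (253791 / 500000)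
      (by norm_num) (by norm_num) (by norm_num) (by norm_num) (by norm_num) (by norm_num)
      (by norm_num) (by norm_num) (by norm_num) (by norm_num) (by norm_num) (by norm_num) (by norm_num)
  have S13 := size_pass hw _ (1 / 10 ^ 12) hdeg hnear (by norm_num) hmis _ hM hsz L13 R13 S12
    (753 / 5000) (7 / 390625) (46667 / 500000000) (51377 / 250000000) (13231 / 1000000000) (53081 / 30000000) (73729 / 30000000) (11947 / 500000000) (1653317 / 10000000) (42249 / 250000) (11947 / 500000000)
    (by norm_num) (by norm_num) (by norm_num) (by norm_num) (by norm_num) (by norm_num)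
    (by norm_num) (Or.inr (by norm_num)) (by norm_num) (by norm_num) (by norm_num) (by norm_num)
    (by norm_num) (Or.inl (by norm_num))
  have L14 := mkLoc (1653317 / 10000000) (42249 / 250000) (1 / 96) (149743 / 1000000) (3317 / 100000) (526403 / 1000000) (506091 / 1000000)
      (by norm_num) (by norm_num) (by norm_num) (by norm_num) (by norm_num) (by norm_num)
      (by norm_num) (by norm_num) (by norm_num) (by norm_num) (by norm_num) (by norm_num) (by norm_num)
  have S14 := own_pass hw _ (1 / 10 ^ 12) (1 / 10 ^ 6) hcnd rfl hdeg hnear (by norm_num)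
    (by norm_num) (by norm_num) hmis _ hM L14 S13
    (76 / 625) (19111 / 200000) (1073 / 125) (16253 / 10000) (148447 / 1000000) (by norm_num) (by norm_num)
    (by norm_num) (by norm_num) (by norm_num) (by norm_num) (by norm_num) (by norm_num)
    (by norm_num)
  have L15 := mkLoc (1653317 / 10000000) (42249 / 250000) (1 / 96) (148447 / 1000000) (3317 / 100000) (526403 / 1000000) (502227 / 1000000)
      (by norm_num) (by norm_num) (by norm_num) (by norm_num) (by norm_num) (by norm_num)
      (by norm_num) (by norm_num) (by norm_num) (by norm_num) (by norm_num) (by norm_num) (by norm_num)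
  have S15 := own_pass hw _ (1 / 10 ^ 12) (1 / 10 ^ 6) hcnd rfl hdeg hnear (by norm_num)
    (by norm_num) (by norm_num) hmis _ hM L15 S14
    (247 / 2000) (93307 / 1000000) (42713 / 5000) (16013 / 10000) (237 / 1600) (by norm_num) (by norm_num)
    (by norm_num) (by norm_num) (by norm_num) (by norm_num) (by norm_num) (by norm_num)
    (by norm_num)
  have L16 := mkLoc (1653317 / 10000000) (42249 / 250000) (1 / 96) (237 / 1600) (3317 / 100000) (526403 / 1000000) (501267 / 1000000)
      (by norm_num) (by norm_num) (by norm_num) (by norm_num) (by norm_num) (by norm_num)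
      (by norm_num) (by norm_num) (by norm_num) (by norm_num) (by norm_num) (by norm_num) (by norm_num)
  have S16 := own_pass hw _ (1 / 10 ^ 12) (1 / 10 ^ 6) hcnd rfl hdeg hnear (by norm_num)
    (by norm_num) (by norm_num) hmis _ hM L16 S15
    (31 / 250) (46381 / 500000) (85321 / 10000) (319 / 200) (148041 / 1000000) (by norm_num) (by norm_num)
    (by norm_num) (by norm_num) (by norm_num) (by norm_num) (by norm_num) (by norm_num)
    (by norm_num)
  have R17 := mkRoot (1653317 / 10000000) (1 / 96) (148041 / 1000000) (67 / 1250) (1913 / 100000) (251 / 250) (8471 / 100000) (57 / 100) (5031 / 2000) (35323 / 1000000)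
      (by norm_num) (by norm_num) (by norm_num) (by norm_num) (by norm_num) (by norm_num) (by norm_num) (by norm_num) (by norm_num) (by norm_num) (by norm_num) (by norm_num) (by norm_num) (by norm_num) (by norm_num) (by norm_num) (by norm_num) (by norm_num) (by norm_num) (by norm_num) (by norm_num) (by norm_num) (by norm_num)
  have L17 := mkLoc (1653317 / 10000000) (42249 / 250000) (1 / 96) (148041 / 1000000) (3317 / 100000) (526403 / 1000000) (62627 / 125000)
      (by norm_num) (by norm_num) (by norm_num) (by norm_num) (by norm_num) (by norm_num)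
      (by norm_num) (by norm_num) (by norm_num) (by norm_num) (by norm_num) (by norm_num) (by norm_num)
  have S17 := size_pass hw _ (1 / 10 ^ 12) hdeg hnear (by norm_num) hmis _ hM hsz L17 R17 S16
    (271 / 2000) (7 / 1562500) (46667 / 500000000) (203451 / 1000000000) (9857 / 1000000000) (40049 / 30000000) (1747 / 750000) (2987 / 500000000) (1655179 / 10000000) (211129 / 1250000) (2987 / 500000000)
    (by norm_num) (by norm_num) (by norm_num) (by norm_num) (by norm_num) (by norm_num)
    (by norm_num) (Or.inr (by norm_num)) (by norm_num) (by norm_num) (by norm_num) (by norm_num)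
    (by norm_num) (Or.inl (by norm_num))
  have L18 := mkLoc (1655179 / 10000000) (211129 / 1250000) (1 / 96) (148041 / 1000000) (3313 / 100000) (263169 / 500000) (250193 / 500000)
      (by norm_num) (by norm_num) (by norm_num) (by norm_num) (by norm_num) (by norm_num)
      (by norm_num) (by norm_num) (by norm_num) (by norm_num) (by norm_num) (by norm_num) (by norm_num)
  have S18 := own_pass hw _ (1 / 10 ^ 12) (1 / 10 ^ 6) hcnd rfl hdeg hnear (by norm_num)
    (by norm_num) (by norm_num) hmis _ hM L18 S17
    (1271 / 10000) (92699 / 1000000) (84973 / 10000) (3871 / 2500) (36859 / 250000) (by norm_num) (by norm_num)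
    (by norm_num) (by norm_num) (by norm_num) (by norm_num) (by norm_num) (by norm_num)
    (by norm_num)
  have RL := mkRoot (1655179 / 10000000) (1 / 96) (36859 / 250000) (107 / 2000) (191 / 10000) 1 (8451 / 100000) (14 / 25) (5039 / 2000) (35327 / 1000000)
      (by norm_num) (by norm_num) (by norm_num) (by norm_num) (by norm_num) (by norm_num) (by norm_num) (by norm_num) (by norm_num) (by norm_num) (by norm_num) (by norm_num) (by norm_num) (by norm_num) (by norm_num) (by norm_num) (by norm_num) (by norm_num) (by norm_num) (by norm_num) (by norm_num) (by norm_num) (by norm_num)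
  exact last_pass hw hdeg hmis hsz RL S18

end K4m
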