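import Mathlib
import Pool.Agent.Lib.MP_392c14_co.End2G

/-!
# End game, second version: further instances
-/

set_option autoImplicit false

namespace K4m

open Finset

/-- End game: missing degrees at most 109/10^4, total missing mass at most 26/10^5. -/
theorem endgame_b {n : ℕ} (G : TG (Fin n)) (w : Fin n → ℝ) (c : Fin n → Fin 6) (hw : IsW w)
    (hpos : ∀ x, 0 < w x) (hdeg : ∀ x, deg G w x = val G w)
    (hmax : ∀ w', IsW w' → val G w' ≤ val G w) (hnear : rho - 1 / 10 ^ 12 ≤ val G w)
    (hsz : ∀ i, |cl w c i - 1 / 6| ≤ 1 / 200)
    (hmis : ∀ z, mis G w c z ≤ (109 / 10000))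
    (hM : MM G w c ≤ (13 / 50000)) : val G w ≤ (10 + rho) / 36 := by
  have hcnd := cnd_of_opt G w hw hpos hmax
  have S0 : State G w c (97 / 600) (103 / 600) (3 / 20000) (103 / 600) := by
    refine ⟨fun i => ?_, fun i => ?_, ?_, fun r z _ => ?_⟩
    · have := (abs_le.1 (hsz i)).1; linarith
    · have := (abs_le.1 (hsz i)).2; linarith
    · refine S_box (97 / 600) (103 / 600) (1 / 200) _ (fun i => ?_) (fun i => ?_) (by norm_num) (by norm_num)
        (by norm_num)
      · have := (abs_le.1 (hsz i)).1; linarith
      · have := (abs_le.1 (hsz i)).2; linarith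
    · refine (own_le_cl' hw.nonneg z r).trans ?_
      have := (abs_le.1 (hsz (c z))).2; linarith
  have R1 := mkRoot (97 / 600) (109 / 10000) (103 / 600) (149 / 2500) (2109 / 100000) (589 / 500) (4791 / 50000) (3 / 5) (24007 / 10000) (37399 / 1000000)
      (by norm_num) (by norm_num) (by norm_num) (by norm_num) (by norm_num) (by norm_num) (by norm_num) (by norm_num) (by norm_num) (by norm_num) (by norm_num) (by norm_num) (by norm_num) (by norm_num) (by norm_num) (by norm_num) (by norm_num) (by norm_num) (by norm_num) (by norm_num) (by norm_num) (by norm_num) (by norm_num)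
  have L1 := mkLoc (97 / 600) (103 / 600) (109 / 10000) (103 / 600) (223 / 6250) (529199 / 1000000) (117747 / 200000)
      (by norm_num) (by norm_num) (by norm_num) (by norm_num) (by norm_num) (by norm_num)
      (by norm_num) (by norm_num) (by norm_num) (by norm_num) (by norm_num) (by norm_num) (by norm_num)
  have S1 := size_pass hw _ (1 / 10 ^ 12) hdeg hnear (by norm_num) hmis _ hM hsz L1 R1 S0
    (1701 / 5000) (1157 / 6250000) (86667 / 1000000000) (213539 / 1000000000) (19813 / 500000000) (1 / 200) (1 / 200) (3 / 20000) (1632847 / 10000000) (1695843 / 10000000) (68627 / 1000000000)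
    (by norm_num) (by norm_num) (by norm_num) (by norm_num) (by norm_num) (by norm_num)
    (by norm_num) (Or.inl (by norm_num)) (by norm_num) (by norm_num) (by norm_num) (by norm_num)
    (by norm_num) (Or.inr ⟨(101459 / 30000000), by norm_num, by norm_num, by norm_num⟩)
  have L2 := mkLoc (1632847 / 10000000) (1695843 / 10000000) (109 / 10000) (103 / 600) (3529 / 100000) (528559 / 1000000) (582273 / 1000000)
      (by norm_num) (by norm_num) (by norm_num) (by norm_num) (by norm_num) (by norm_num)
      (by norm_num) (by norm_num) (by norm_num) (by norm_num) (by norm_num) (by norm_num) (by norm_num)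
  have S2 := own_pass hw _ (1 / 10 ^ 12) (1 / 10 ^ 6) hcnd rfl hdeg hnear (by norm_num)
    (by norm_num) (by norm_num) hmis _ hM L2 S1
    (173 / 10000) (158647 / 1000000) (157 / 16) (15443 / 5000) (166651 / 1000000) (by norm_num) (by norm_num)
    (by norm_num) (by norm_num) (by norm_num) (by norm_num) (by norm_num) (by norm_num)
    (by norm_num)
  have L3 := mkLoc (1632847 / 10000000) (1695843 / 10000000) (109 / 10000) (166651 / 1000000) (3529 / 100000) (528559 / 1000000) (283549 / 500000)
      (by norm_num) (by norm_num) (by norm_num) (by norm_num) (by norm_num) (by norm_num)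
      (by norm_num) (by norm_num) (by norm_num) (by norm_num) (by norm_num) (by norm_num) (by norm_num)
  have S3 := own_pass hw _ (1 / 10 ^ 12) (1 / 10 ^ 6) hcnd rfl hdeg hnear (by norm_num)
    (by norm_num) (by norm_num) hmis _ hM L3 S2
    (69 / 2000) (71317 / 500000) (19253 / 2000) (28603 / 10000) (81867 / 500000) (by norm_num) (by norm_num)
    (by norm_num) (by norm_num) (by norm_num) (by norm_num) (by norm_num) (by norm_num)
    (by norm_num)
  have L4 := mkLoc (1632847 / 10000000) (1695843 / 10000000) (109 / 10000) (81867 / 500000) (3529 / 100000) (528559 / 1000000) (558279 / 1000000)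
      (by norm_num) (by norm_num) (by norm_num) (by norm_num) (by norm_num) (by norm_num)
      (by norm_num) (by norm_num) (by norm_num) (by norm_num) (by norm_num) (by norm_num) (by norm_num)
  have S4 := own_pass hw _ (1 / 10 ^ 12) (1 / 10 ^ 6) hcnd rfl hdeg hnear (by norm_num)
    (by norm_num) (by norm_num) hmis _ hM L4 S3
    (437 / 10000) (67049 / 500000) (95193 / 10000) (13691 / 5000) (81087 / 500000) (by norm_num) (by norm_num)
    (by norm_num) (by norm_num) (by norm_num) (by norm_num) (by norm_num) (by norm_num)
    (by norm_num)
  have R5 := mkRoot (1632847 / 10000000) (109 / 10000) (81087 / 500000) (117 / 2000) (1037 / 50000) (277 / 250) (2339 / 25000) (59 / 100) (12159 / 5000) (9309 / 250000)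
      (by norm_num) (by norm_num) (by norm_num) (by norm_num) (by norm_num) (by norm_num) (by norm_num) (by norm_num) (by norm_num) (by norm_num) (by norm_num) (by norm_num) (by norm_num) (by norm_num) (by norm_num) (by norm_num) (by norm_num) (by norm_num) (by norm_num) (by norm_num) (by norm_num) (by norm_num) (by norm_num)
  have L5 := mkLoc (1632847 / 10000000) (1695843 / 10000000) (109 / 10000) (81087 / 500000) (3529 / 100000) (528559 / 1000000) (138391 / 250000)
      (by norm_num) (by norm_num) (by norm_num) (by norm_num) (by norm_num) (by norm_num)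
      (by norm_num) (by norm_num) (by norm_num) (by norm_num) (by norm_num) (by norm_num) (by norm_num)
  have S5 := size_pass hw _ (1 / 10 ^ 12) hdeg hnear (by norm_num) hmis _ hM hsz L5 R5 S4
    (647 / 2500) (351 / 3125000) (86667 / 1000000000) (4049 / 20000000) (25159 / 1000000000) (101459 / 30000000) (87529 / 30000000) (68627 / 1000000000) (1642499 / 10000000) (338291 / 2000000) (9217 / 250000000)
    (by norm_num) (by norm_num) (by norm_num) (by norm_num) (by norm_num) (by norm_num)
    (by norm_num) (Or.inl (by norm_num)) (by norm_num) (by norm_num) (by norm_num) (by norm_num)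
    (by norm_num) (Or.inr ⟨(14873 / 6000000), by norm_num, by norm_num, by norm_num⟩)
  have L6 := mkLoc (1642499 / 10000000) (338291 / 2000000) (109 / 10000) (81087 / 500000) (1753 / 50000) (528187 / 1000000) (549941 / 1000000)
      (by norm_num) (by norm_num) (by norm_num) (by norm_num) (by norm_num) (by norm_num)
      (by norm_num) (by norm_num) (by norm_num) (by norm_num) (by norm_num) (by norm_num) (by norm_num)
  have S6 := own_pass hw _ (1 / 10 ^ 12) (1 / 10 ^ 6) hcnd rfl hdeg hnear (by norm_num)
    (by norm_num) (by norm_num) hmis _ hM L6 S5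
    (19 / 250) (25211 / 200000) (739 / 80) (22531 / 10000) (156291 / 1000000) (by norm_num) (by norm_num)
    (by norm_num) (by norm_num) (by norm_num) (by norm_num) (by norm_num) (by norm_num)
    (by norm_num)
  have L7 := mkLoc (1642499 / 10000000) (338291 / 2000000) (109 / 10000) (156291 / 1000000) (1753 / 50000) (528187 / 1000000) (266137 / 500000)
      (by norm_num) (by norm_num) (by norm_num) (by norm_num) (by norm_num) (by norm_num)
      (by norm_num) (by norm_num) (by norm_num) (by norm_num) (by norm_num) (by norm_num) (by norm_num)
  have S7 := own_pass hw _ (1 / 10 ^ 12) (1 / 10 ^ 6) hcnd rfl hdeg hnear (by norm_num)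
    (by norm_num) (by norm_num) hmis _ hM L7 S6
    (223 / 2500) (7033 / 62500) (45181 / 5000) (10411 / 5000) (77029 / 500000) (by norm_num) (by norm_num)
    (by norm_num) (by norm_num) (by norm_num) (by norm_num) (by norm_num) (by norm_num)
    (by norm_num)
  have L8 := mkLoc (1642499 / 10000000) (338291 / 2000000) (109 / 10000) (77029 / 500000) (1753 / 50000) (528187 / 1000000) (262787 / 500000)
      (by norm_num) (by norm_num) (by norm_num) (by norm_num) (by norm_num) (by norm_num)
      (by norm_num) (by norm_num) (by norm_num) (by norm_num) (by norm_num) (by norm_num) (by norm_num)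
  have S8 := own_pass hw _ (1 / 10 ^ 12) (1 / 10 ^ 6) hcnd rfl hdeg hnear (by norm_num)
    (by norm_num) (by norm_num) hmis _ hM L8 S7
    (939 / 10000) (107753 / 1000000) (224 / 25) (20213 / 10000) (153263 / 1000000) (by norm_num) (by norm_num)
    (by norm_num) (by norm_num) (by norm_num) (by norm_num) (by norm_num) (by norm_num)
    (by norm_num)
  have R9 := mkRoot (1642499 / 10000000) (109 / 10000) (153263 / 1000000) (579 / 10000) (2053 / 100000) (131 / 125) (923 / 10000) (59 / 100) (1534 / 625) (37267 / 1000000)
      (by norm_num) (by norm_num) (by norm_num) (by norm_num) (by norm_num) (by norm_num) (by norm_num) (by norm_num) (by norm_num) (by norm_num) (by norm_num) (by norm_num) (by norm_num) (by norm_num) (by norm_num) (by norm_num) (by norm_num) (by norm_num) (by norm_num) (by norm_num) (by norm_num) (by norm_num) (by norm_num)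
  have L9 := mkLoc (1642499 / 10000000) (338291 / 2000000) (109 / 10000) (153263 / 1000000) (1753 / 50000) (528187 / 1000000) (52319 / 100000)
      (by norm_num) (by norm_num) (by norm_num) (by norm_num) (by norm_num) (by norm_num)
      (by norm_num) (by norm_num) (by norm_num) (by norm_num) (by norm_num) (by norm_num) (by norm_num)
  have S9 := size_pass hw _ (1 / 10 ^ 12) hdeg hnear (by norm_num) hmis _ hM hsz L9 R9 S8
    (1911 / 10000) (39 / 781250) (86667 / 1000000000) (97531 / 500000000) (17221 / 1000000000) (72503 / 30000000) (14873 / 6000000) (9217 / 250000000) (51567 / 312500) (1689371 / 10000000) (3093 / 100000000)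
    (by norm_num) (by norm_num) (by norm_num) (by norm_num) (by norm_num) (by norm_num)
    (by norm_num) (Or.inl (by norm_num)) (by norm_num) (by norm_num) (by norm_num) (by norm_num)
    (by norm_num) (Or.inr ⟨(68113 / 30000000), by norm_num, by norm_num, by norm_num⟩)
  have L10 := mkLoc (51567 / 312500) (1689371 / 10000000) (109 / 10000) (153263 / 1000000) (3487 / 100000) (32993 / 62500) (520473 / 1000000)
      (by norm_num) (by norm_num) (by norm_num) (by norm_num) (by norm_num) (by norm_num)
      (by norm_num) (by norm_num) (by norm_num) (by norm_num) (by norm_num) (by norm_num) (by norm_num)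
  have S10 := own_pass hw _ (1 / 10 ^ 12) (1 / 10 ^ 6) hcnd rfl hdeg hnear (by norm_num)
    (by norm_num) (by norm_num) hmis _ hM L10 S9
    (1091 / 10000) (13143 / 125000) (17589 / 2000) (1793 / 1000) (150507 / 1000000) (by norm_num) (by norm_num)
    (by norm_num) (by norm_num) (by norm_num) (by norm_num) (by norm_num) (by norm_num)
    (by norm_num)
  have L11 := mkLoc (51567 / 312500) (1689371 / 10000000) (109 / 10000) (150507 / 1000000) (3487 / 100000) (32993 / 62500) (256123 / 500000)
      (by norm_num) (by norm_num) (by norm_num) (by norm_num) (by norm_num) (by norm_num)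
      (by norm_num) (by norm_num) (by norm_num) (by norm_num) (by norm_num) (by norm_num) (by norm_num)
  have S11 := own_pass hw _ (1 / 10 ^ 12) (1 / 10 ^ 6) hcnd rfl hdeg hnear (by norm_num)
    (by norm_num) (by norm_num) hmis _ hM L11 S10
    (569 / 5000) (99919 / 1000000) (43521 / 5000) (4333 / 2500) (149713 / 1000000) (by norm_num) (by norm_num)
    (by norm_num) (by norm_num) (by norm_num) (by norm_num) (by norm_num) (by norm_num)
    (by norm_num)
  have L12 := mkLoc (51567 / 312500) (1689371 / 10000000) (109 / 10000) (149713 / 1000000) (3487 / 100000) (32993 / 62500) (509877 / 1000000)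
      (by norm_num) (by norm_num) (by norm_num) (by norm_num) (by norm_num) (by norm_num)
      (by norm_num) (by norm_num) (by norm_num) (by norm_num) (by norm_num) (by norm_num) (by norm_num)
  have S12 := own_pass hw _ (1 / 10 ^ 12) (1 / 10 ^ 6) hcnd rfl hdeg hnear (by norm_num)
    (by norm_num) (by norm_num) hmis _ hM L12 S11
    (72 / 625) (98467 / 1000000) (86777 / 10000) (8577 / 5000) (37369 / 250000) (by norm_num) (by norm_num)
    (by norm_num) (by norm_num) (by norm_num) (by norm_num) (by norm_num) (by norm_num)
    (by norm_num)
  have R13 := mkRoot (51567 / 312500) (109 / 10000) (37369 / 250000) (287 / 5000) (1019 / 50000) (51 / 50) (9133 / 100000) (29 / 50) (12343 / 5000) (3719 / 100000)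
      (by norm_num) (by norm_num) (by norm_num) (by norm_num) (by norm_num) (by norm_num) (by norm_num) (by norm_num) (by norm_num) (by norm_num) (by norm_num) (by norm_num) (by norm_num) (by norm_num) (by norm_num) (by norm_num) (by norm_num) (by norm_num) (by norm_num) (by norm_num) (by norm_num) (by norm_num) (by norm_num)
  have L13 := mkLoc (51567 / 312500) (1689371 / 10000000) (109 / 10000) (37369 / 250000) (3487 / 100000) (32993 / 62500) (50917 / 100000)
      (by norm_num) (by norm_num) (by norm_num) (by norm_num) (by norm_num) (by norm_num)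
      (by norm_num) (by norm_num) (by norm_num) (by norm_num) (by norm_num) (by norm_num) (by norm_num)
  have S13 := size_pass hw _ (1 / 10 ^ 12) hdeg hnear (by norm_num) hmis _ hM hsz L13 R13 S12
    (1591 / 10000) (13 / 625000) (86667 / 1000000000) (191243 / 1000000000) (1149 / 100000000) (1549 / 937500) (68113 / 30000000) (13867 / 500000000) (1653859 / 10000000) (1688527 / 10000000) (13867 / 500000000)
    (by norm_num) (by norm_num) (by norm_num) (by norm_num) (by norm_num) (by norm_num)
    (by norm_num) (Or.inr (by norm_num)) (by norm_num) (by norm_num) (by norm_num) (by norm_num)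
    (by norm_num) (Or.inl (by norm_num))
  have L14 := mkLoc (1653859 / 10000000) (1688527 / 10000000) (109 / 10000) (37369 / 250000) (3479 / 100000) (105551 / 200000) (101577 / 200000)
      (by norm_num) (by norm_num) (by norm_num) (by norm_num) (by norm_num) (by norm_num)
      (by norm_num) (by norm_num) (by norm_num) (by norm_num) (by norm_num) (by norm_num) (by norm_num)
  have S14 := own_pass hw _ (1 / 10 ^ 12) (1 / 10 ^ 6) hcnd rfl hdeg hnear (by norm_num)
    (by norm_num) (by norm_num) hmis _ hM L14 S13
    (121 / 1000) (97821 / 1000000) (86091 / 10000) (16283 / 10000) (74211 / 500000) (by norm_num) (by norm_num)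
    (by norm_num) (by norm_num) (by norm_num) (by norm_num) (by norm_num) (by norm_num)
    (by norm_num)
  have L15 := mkLoc (1653859 / 10000000) (1688527 / 10000000) (109 / 10000) (74211 / 500000) (3479 / 100000) (105551 / 200000) (126187 / 250000)
      (by norm_num) (by norm_num) (by norm_num) (by norm_num) (by norm_num) (by norm_num)
      (by norm_num) (by norm_num) (by norm_num) (by norm_num) (by norm_num) (by norm_num) (by norm_num)
  have S15 := own_pass hw _ (1 / 10 ^ 12) (1 / 10 ^ 6) hcnd rfl hdeg hnear (by norm_num)
    (by norm_num) (by norm_num) hmis _ hM L15 S14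
    (613 / 5000) (2399 / 25000) (10719 / 1250) (16081 / 10000) (18519 / 125000) (by norm_num) (by norm_num)
    (by norm_num) (by norm_num) (by norm_num) (by norm_num) (by norm_num) (by norm_num)
    (by norm_num)
  have L16 := mkLoc (1653859 / 10000000) (1688527 / 10000000) (109 / 10000) (18519 / 125000) (3479 / 100000) (105551 / 200000) (62993 / 125000)
      (by norm_num) (by norm_num) (by norm_num) (by norm_num) (by norm_num) (by norm_num)
      (by norm_num) (by norm_num) (by norm_num) (by norm_num) (by norm_num) (by norm_num) (by norm_num)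
  have S16 := own_pass hw _ (1 / 10 ^ 12) (1 / 10 ^ 6) hcnd rfl hdeg hnear (by norm_num)
    (by norm_num) (by norm_num) hmis _ hM L16 S15
    (123 / 1000) (95487 / 1000000) (17133 / 2000) (16031 / 10000) (37021 / 250000) (by norm_num) (by norm_num)
    (by norm_num) (by norm_num) (by norm_num) (by norm_num) (by norm_num) (by norm_num)
    (by norm_num)
  have R17 := mkRoot (1653859 / 10000000) (109 / 10000) (37021 / 250000) (571 / 10000) (203 / 10000) (126 / 125) (284 / 3125) (29 / 50) (24741 / 10000) (18549 / 500000)
      (by norm_num) (by norm_num) (by norm_num) (by norm_num) (by norm_num) (by norm_num) (by norm_num) (by norm_num) (by norm_num) (by norm_num) (by norm_num) (by norm_num) (by norm_num) (by norm_num) (by norm_num) (by norm_num) (by norm_num) (by norm_num) (by norm_num) (by norm_num) (by norm_num) (by norm_num) (by norm_num)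
  have L17 := mkLoc (1653859 / 10000000) (1688527 / 10000000) (109 / 10000) (37021 / 250000) (3479 / 100000) (105551 / 200000) (251871 / 500000)
      (by norm_num) (by norm_num) (by norm_num) (by norm_num) (by norm_num) (by norm_num)
      (by norm_num) (by norm_num) (by norm_num) (by norm_num) (by norm_num) (by norm_num) (by norm_num)
  have S17 := size_pass hw _ (1 / 10 ^ 12) hdeg hnear (by norm_num) hmis _ hM hsz L17 R17 S16
    (733 / 5000) (13 / 1562500) (86667 / 1000000000) (189673 / 1000000000) (4407 / 500000000) (38423 / 30000000) (65581 / 30000000) (5547 / 500000000) (413887 / 2500000) (168771 / 1000000) (5547 / 500000000)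
    (by norm_num) (by norm_num) (by norm_num) (by norm_num) (by norm_num) (by norm_num)
    (by norm_num) (Or.inr (by norm_num)) (by norm_num) (by norm_num) (by norm_num) (by norm_num)
    (by norm_num) (Or.inl (by norm_num))
  have L18 := mkLoc (413887 / 2500000) (168771 / 1000000) (109 / 10000) (37021 / 250000) (139 / 4000) (527691 / 1000000) (125791 / 250000)
      (by norm_num) (by norm_num) (by norm_num) (by norm_num) (by norm_num) (by norm_num)
      (by norm_num) (by norm_num) (by norm_num) (by norm_num) (by norm_num) (by norm_num) (by norm_num)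
  have S18 := own_pass hw _ (1 / 10 ^ 12) (1 / 10 ^ 6) hcnd rfl hdeg hnear (by norm_num)
    (by norm_num) (by norm_num) hmis _ hM L18 S17
    (1259 / 10000) (9539 / 100000) (42673 / 5000) (15599 / 10000) (147523 / 1000000) (by norm_num) (by norm_num)
    (by norm_num) (by norm_num) (by norm_num) (by norm_num) (by norm_num) (by norm_num)
    (by norm_num)
  have R19 := mkRoot (413887 / 2500000) (109 / 10000) (147523 / 1000000) (57 / 1000) (1013 / 50000) (251 / 250) (9067 / 100000) (29 / 50) (991 / 400) (9273 / 250000)
      (by norm_num) (by norm_num) (by norm_num) (by norm_num) (by norm_num) (by norm_num) (by norm_num) (by norm_num) (by norm_num) (by norm_num) (by norm_num) (by norm_num) (by norm_num) (by norm_num) (by norm_num) (by norm_num) (by norm_num) (by norm_num) (by norm_num) (by norm_num) (by norm_num) (by norm_num) (by norm_num)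
  have L19 := mkLoc (413887 / 2500000) (168771 / 1000000) (109 / 10000) (147523 / 1000000) (139 / 4000) (527691 / 1000000) (62687 / 125000)
      (by norm_num) (by norm_num) (by norm_num) (by norm_num) (by norm_num) (by norm_num)
      (by norm_num) (by norm_num) (by norm_num) (by norm_num) (by norm_num) (by norm_num) (by norm_num)
  have S19 := size_pass hw _ (1 / 10 ^ 12) hdeg hnear (by norm_num) hmis _ hM hsz L19 R19 S18
    (707 / 5000) (13 / 3125000) (86667 / 1000000000) (47239 / 250000000) (1523 / 200000000) (8339 / 7500000) (6313 / 3000000) (5547 / 1000000000) (828069 / 5000000) (1687411 / 10000000) (5547 / 1000000000)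
    (by norm_num) (by norm_num) (by norm_num) (by norm_num) (by norm_num) (by norm_num)
    (by norm_num) (Or.inr (by norm_num)) (by norm_num) (by norm_num) (by norm_num) (by norm_num)
    (by norm_num) (Or.inl (by norm_num))
  have L20 := mkLoc (828069 / 5000000) (1687411 / 10000000) (109 / 10000) (147523 / 1000000) (3473 / 100000) (32979 / 62500) (100259 / 200000)
      (by norm_num) (by norm_num) (by norm_num) (by norm_num) (by norm_num) (by norm_num)
      (by norm_num) (by norm_num) (by norm_num) (by norm_num) (by norm_num) (by norm_num) (by norm_num)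
  have S20 := own_pass hw _ (1 / 10 ^ 12) (1 / 10 ^ 6) hcnd rfl hdeg hnear (by norm_num)
    (by norm_num) (by norm_num) hmis _ hM L20 S19
    (319 / 2500) (23607 / 250000) (21267 / 2500) (7681 / 5000) (14721 / 100000) (by norm_num) (by norm_num)
    (by norm_num) (by norm_num) (by norm_num) (by norm_num) (by norm_num) (by norm_num)
    (by norm_num)
  have R21 := mkRoot (828069 / 5000000) (109 / 10000) (14721 / 100000) (57 / 1000) (81 / 4000) (501 / 500) (453 / 5000) (29 / 50) (4957 / 2000) (4637 / 125000)
      (by norm_num) (by norm_num) (by norm_num) (by norm_num) (by norm_num) (by norm_num) (by norm_num) (by norm_num) (by norm_num) (by norm_num) (by norm_num) (by norm_num) (by norm_num) (by norm_num) (by norm_num) (by norm_num) (by norm_num) (by norm_num) (by norm_num) (by norm_num) (by norm_num) (by norm_num) (by norm_num)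
  have L21 := mkLoc (828069 / 5000000) (1687411 / 10000000) (109 / 10000) (14721 / 100000) (3473 / 100000) (32979 / 62500) (100073 / 200000)
      (by norm_num) (by norm_num) (by norm_num) (by norm_num) (by norm_num) (by norm_num)
      (by norm_num) (by norm_num) (by norm_num) (by norm_num) (by norm_num) (by norm_num) (by norm_num)
  have S21 := size_pass hw _ (1 / 10 ^ 12) hdeg hnear (by norm_num) hmis _ hM hsz L21 R21 S20
    (347 / 2500) (13 / 6250000) (86667 / 1000000000) (47159 / 250000000) (1799 / 250000000) (15793 / 15000000) (62233 / 30000000) (1387 / 500000000) (1656417 / 10000000) (1687269 / 10000000) (1387 / 500000000)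
    (by norm_num) (by norm_num) (by norm_num) (by norm_num) (by norm_num) (by norm_num)
    (by norm_num) (Or.inr (by norm_num)) (by norm_num) (by norm_num) (by norm_num) (by norm_num)
    (by norm_num) (Or.inl (by norm_num))
  have L22 := mkLoc (1656417 / 10000000) (1687269 / 10000000) (109 / 10000) (14721 / 100000) (3473 / 100000) (527659 / 1000000) (50027 / 100000)
      (by norm_num) (by norm_num) (by norm_num) (by norm_num) (by norm_num) (by norm_num)
      (by norm_num) (by norm_num) (by norm_num) (by norm_num) (by norm_num) (by norm_num) (by norm_num)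
  have S22 := own_pass hw _ (1 / 10 ^ 12) (1 / 10 ^ 6) hcnd rfl hdeg hnear (by norm_num)
    (by norm_num) (by norm_num) hmis _ hM L22 S21
    (257 / 2000) (9391 / 100000) (2123 / 250) (7619 / 5000) (73523 / 500000) (by norm_num) (by norm_num)
    (by norm_num) (by norm_num) (by norm_num) (by norm_num) (by norm_num) (by norm_num)
    (by norm_num)
  have RL := mkRoot (1656417 / 10000000) (109 / 10000) (73523 / 500000) (57 / 1000) (81 / 4000) 1 (9057 / 100000) (29 / 50) (3097 / 1250) (4633 / 125000)
      (by norm_num) (by norm_num) (by norm_num) (by norm_num) (by norm_num) (by norm_num) (by norm_num) (by norm_num) (by norm_num) (by norm_num) (by norm_num) (by norm_num) (by norm_num) (by norm_num) (by norm_num) (by norm_num) (by norm_num) (by norm_num) (by norm_num) (by norm_num) (by norm_num) (by norm_num) (by norm_num)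
  exact last_pass hw hdeg hmis hsz RL S22

/-- End game: missing degrees at most 9/1000, total missing mass at most 34/10^5. -/
theorem endgame_c {n : ℕ} (G : TG (Fin n)) (w : Fin n → ℝ) (c : Fin n → Fin 6) (hw : IsW w)
    (hpos : ∀ x, 0 < w x) (hdeg : ∀ x, deg G w x = val G w)
    (hmax : ∀ w', IsW w' → val G w' ≤ val G w) (hnear : rho - 1 / 10 ^ 12 ≤ val G w)
    (hsz : ∀ i, |cl w c i - 1 / 6| ≤ 1 / 200)
    (hmis : ∀ z, mis G w c z ≤ (9 / 1000))
    (hM : MM G w c ≤ (17 / 50000)) : val G w ≤ (10 + rho) / 36 := by
  have hcnd := cnd_of_opt G w hw hpos hmax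
  have S0 : State G w c (97 / 600) (103 / 600) (3 / 20000) (103 / 600) := by
    refine ⟨fun i => ?_, fun i => ?_, ?_, fun r z _ => ?_⟩
    · have := (abs_le.1 (hsz i)).1; linarith
    · have := (abs_le.1 (hsz i)).2; linarith
    · refine S_box (97 / 600) (103 / 600) (1 / 200) _ (fun i => ?_) (fun i => ?_) (by norm_num) (by norm_num)
        (by norm_num)
      · have := (abs_le.1 (hsz i)).1; linarith
      · have := (abs_le.1 (hsz i)).2; linarith
    · refine (own_le_cl' hw.nonneg z r).trans ?_
      have := (abs_le.1 (hsz (c z))).2; linarith
  have R1 := mkRoot (97 / 600) (9 / 1000) (103 / 600) (229 / 5000) (823 / 50000) (289 / 250) (7147 / 100000) (11 / 20) (6401 / 2500) (30303 / 1000000)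
      (by norm_num) (by norm_num) (by norm_num) (by norm_num) (by norm_num) (by norm_num) (by norm_num) (by norm_num) (by norm_num) (by norm_num) (by norm_num) (by norm_num) (by norm_num) (by norm_num) (by norm_num) (by norm_num) (by norm_num) (by norm_num) (by norm_num) (by norm_num) (by norm_num) (by norm_num) (by norm_num)
  have L1 := mkLoc (97 / 600) (103 / 600) (9 / 1000) (103 / 600) (583 / 20000) (523603 / 1000000) (57777 / 100000)
      (by norm_num) (by norm_num) (by norm_num) (by norm_num) (by norm_num) (by norm_num)
      (by norm_num) (by norm_num) (by norm_num) (by norm_num) (by norm_num) (by norm_num) (by norm_num)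
  have S1 := size_pass hw _ (1 / 10 ^ 12) hdeg hnear (by norm_num) hmis _ hM hsz L1 R1 S0
    (1453 / 5000) (663 / 3125000) (56667 / 500000000) (274667 / 1000000000) (5097 / 100000000) (1 / 200) (1 / 200) (3 / 20000) (813013 / 5000000) (1702649 / 10000000) (991 / 10000000)
    (by norm_num) (by norm_num) (by norm_num) (by norm_num) (by norm_num) (by norm_num)
    (by norm_num) (Or.inl (by norm_num)) (by norm_num) (by norm_num) (by norm_num) (by norm_num)
    (by norm_num) (Or.inr ⟨(60961 / 15000000), by norm_num, by norm_num, by norm_num⟩)
  have L2 := mkLoc (813013 / 5000000) (1702649 / 10000000) (9 / 1000) (103 / 600) (2897 / 100000) (523309 / 1000000) (574153 / 1000000)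
      (by norm_num) (by norm_num) (by norm_num) (by norm_num) (by norm_num) (by norm_num)
      (by norm_num) (by norm_num) (by norm_num) (by norm_num) (by norm_num) (by norm_num) (by norm_num)
  have S2 := own_pass hw _ (1 / 10 ^ 12) (1 / 10 ^ 6) hcnd rfl hdeg hnear (by norm_num)
    (by norm_num) (by norm_num) hmis _ hM L2 S1
    (147 / 10000) (139789 / 1000000) (19547 / 2000) (15977 / 5000) (167763 / 1000000) (by norm_num) (by norm_num)
    (by norm_num) (by norm_num) (by norm_num) (by norm_num) (by norm_num) (by norm_num)
    (by norm_num)
  have L3 := mkLoc (813013 / 5000000) (1702649 / 10000000) (9 / 1000) (167763 / 1000000) (2897 / 100000) (523309 / 1000000) (140561 / 250000)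
      (by norm_num) (by norm_num) (by norm_num) (by norm_num) (by norm_num) (by norm_num)
      (by norm_num) (by norm_num) (by norm_num) (by norm_num) (by norm_num) (by norm_num) (by norm_num)
  have S3 := own_pass hw _ (1 / 10 ^ 12) (1 / 10 ^ 6) hcnd rfl hdeg hnear (by norm_num)
    (by norm_num) (by norm_num) hmis _ hM L3 S2
    (267 / 10000) (128147 / 1000000) (48169 / 5000) (7581 / 2500) (165719 / 1000000) (by norm_num) (by norm_num)
    (by norm_num) (by norm_num) (by norm_num) (by norm_num) (by norm_num) (by norm_num)
    (by norm_num)
  have L4 := mkLoc (813013 / 5000000) (1702649 / 10000000) (9 / 1000) (165719 / 1000000) (2897 / 100000) (523309 / 1000000) (55601 / 100000)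
      (by norm_num) (by norm_num) (by norm_num) (by norm_num) (by norm_num) (by norm_num)
      (by norm_num) (by norm_num) (by norm_num) (by norm_num) (by norm_num) (by norm_num) (by norm_num)
  have S4 := own_pass hw _ (1 / 10 ^ 12) (1 / 10 ^ 6) hcnd rfl hdeg hnear (by norm_num)
    (by norm_num) (by norm_num) hmis _ hM L4 S3
    (327 / 10000) (61199 / 500000) (95607 / 10000) (29509 / 10000) (82349 / 500000) (by norm_num) (by norm_num)
    (by norm_num) (by norm_num) (by norm_num) (by norm_num) (by norm_num) (by norm_num)
    (by norm_num)
  have R5 := mkRoot (813013 / 5000000) (9 / 1000) (82349 / 500000) (227 / 5000) (1633 / 100000) (553 / 500) (3537 / 50000) (11 / 20) (25741 / 10000) (30219 / 1000000)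
      (by norm_num) (by norm_num) (by norm_num) (by norm_num) (by norm_num) (by norm_num) (by norm_num) (by norm_num) (by norm_num) (by norm_num) (by norm_num) (by norm_num) (by norm_num) (by norm_num) (by norm_num) (by norm_num) (by norm_num) (by norm_num) (by norm_num) (by norm_num) (by norm_num) (by norm_num) (by norm_num)
  have L5 := mkLoc (813013 / 5000000) (1702649 / 10000000) (9 / 1000) (82349 / 500000) (2897 / 100000) (523309 / 1000000) (8639 / 15625)
      (by norm_num) (by norm_num) (by norm_num) (by norm_num) (by norm_num) (by norm_num)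
      (by norm_num) (by norm_num) (by norm_num) (by norm_num) (by norm_num) (by norm_num) (by norm_num)
  have S5 := size_pass hw _ (1 / 10 ^ 12) hdeg hnear (by norm_num) hmis _ hM hsz L5 R5 S4
    (47 / 200) (901 / 6250000) (56667 / 500000000) (131991 / 500000000) (9897 / 250000000) (60961 / 15000000) (107947 / 30000000) (991 / 10000000) (1634699 / 10000000) (1699457 / 10000000) (64513 / 1000000000)
    (by norm_num) (by norm_num) (by norm_num) (by norm_num) (by norm_num) (by norm_num)
    (by norm_num) (Or.inl (by norm_num)) (by norm_num) (by norm_num) (by norm_num) (by norm_num)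
    (by norm_num) (Or.inr ⟨(98371 / 30000000), by norm_num, by norm_num, by norm_num⟩)
  have L6 := mkLoc (1634699 / 10000000) (1699457 / 10000000) (9 / 1000) (82349 / 500000) (18 / 625) (261519 / 500000) (109939 / 200000)
      (by norm_num) (by norm_num) (by norm_num) (by norm_num) (by norm_num) (by norm_num)
      (by norm_num) (by norm_num) (by norm_num) (by norm_num) (by norm_num) (by norm_num) (by norm_num)
  have S6 := own_pass hw _ (1 / 10 ^ 12) (1 / 10 ^ 6) hcnd rfl hdeg hnear (by norm_num)
    (by norm_num) (by norm_num) hmis _ hM L6 S5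
    (637 / 10000) (117811 / 1000000) (46519 / 5000) (4951 / 2000) (159121 / 1000000) (by norm_num) (by norm_num)
    (by norm_num) (by norm_num) (by norm_num) (by norm_num) (by norm_num) (by norm_num)
    (by norm_num)
  have L7 := mkLoc (1634699 / 10000000) (1699457 / 10000000) (9 / 1000) (159121 / 1000000) (18 / 625) (261519 / 500000) (106557 / 200000)
      (by norm_num) (by norm_num) (by norm_num) (by norm_num) (by norm_num) (by norm_num)
      (by norm_num) (by norm_num) (by norm_num) (by norm_num) (by norm_num) (by norm_num) (by norm_num)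
  have S7 := own_pass hw _ (1 / 10 ^ 12) (1 / 10 ^ 6) hcnd rfl hdeg hnear (by norm_num)
    (by norm_num) (by norm_num) hmis _ hM L7 S6
    (757 / 10000) (26229 / 250000) (5698 / 625) (579 / 250) (157081 / 1000000) (by norm_num) (by norm_num)
    (by norm_num) (by norm_num) (by norm_num) (by norm_num) (by norm_num) (by norm_num)
    (by norm_num)
  have L8 := mkLoc (1634699 / 10000000) (1699457 / 10000000) (9 / 1000) (157081 / 1000000) (18 / 625) (261519 / 500000) (263301 / 500000)
      (by norm_num) (by norm_num) (by norm_num) (by norm_num) (by norm_num) (by norm_num)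
      (by norm_num) (by norm_num) (by norm_num) (by norm_num) (by norm_num) (by norm_num) (by norm_num)
  have S8 := own_pass hw _ (1 / 10 ^ 12) (1 / 10 ^ 6) hcnd rfl hdeg hnear (by norm_num)
    (by norm_num) (by norm_num) hmis _ hM L8 S7
    (799 / 10000) (100493 / 1000000) (45241 / 5000) (11301 / 5000) (9773 / 62500) (by norm_num) (by norm_num)
    (by norm_num) (by norm_num) (by norm_num) (by norm_num) (by norm_num) (by norm_num)
    (by norm_num)
  have R9 := mkRoot (1634699 / 10000000) (9 / 1000) (9773 / 62500) (9 / 200) (81 / 5000) (21 / 20) (219 / 3125) (27 / 50) (2591 / 1000) (15109 / 500000)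
      (by norm_num) (by norm_num) (by norm_num) (by norm_num) (by norm_num) (by norm_num) (by norm_num) (by norm_num) (by norm_num) (by norm_num) (by norm_num) (by norm_num) (by norm_num) (by norm_num) (by norm_num) (by norm_num) (by norm_num) (by norm_num) (by norm_num) (by norm_num) (by norm_num) (by norm_num) (by norm_num)
  have L9 := mkLoc (1634699 / 10000000) (1699457 / 10000000) (9 / 1000) (9773 / 62500) (18 / 625) (261519 / 500000) (524441 / 1000000)
      (by norm_num) (by norm_num) (by norm_num) (by norm_num) (by norm_num) (by norm_num)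
      (by norm_num) (by norm_num) (by norm_num) (by norm_num) (by norm_num) (by norm_num) (by norm_num)
  have S9 := size_pass hw _ (1 / 10 ^ 12) hdeg hnear (by norm_num) hmis _ hM hsz L9 R9 S8
    (108 / 625) (17 / 250000) (56667 / 500000000) (255923 / 1000000000) (30029 / 1000000000) (95903 / 30000000) (98371 / 30000000) (64513 / 1000000000) (205499 / 1250000) (169717 / 1000000) (13957 / 250000000)
    (by norm_num) (by norm_num) (by norm_num) (by norm_num) (by norm_num) (by norm_num)
    (by norm_num) (Or.inl (by norm_num)) (by norm_num) (by norm_num) (by norm_num) (by norm_num)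
    (by norm_num) (Or.inr ⟨(9151 / 3000000), by norm_num, by norm_num, by norm_num⟩)
  have L10 := mkLoc (205499 / 1250000) (169717 / 1000000) (9 / 1000) (9773 / 62500) (1431 / 50000) (8168 / 15625) (65149 / 125000)
      (by norm_num) (by norm_num) (by norm_num) (by norm_num) (by norm_num) (by norm_num)
      (by norm_num) (by norm_num) (by norm_num) (by norm_num) (by norm_num) (by norm_num) (by norm_num)
  have S10 := own_pass hw _ (1 / 10 ^ 12) (1 / 10 ^ 6) hcnd rfl hdeg hnear (by norm_num)
    (by norm_num) (by norm_num) hmis _ hM L10 S9
    (1001 / 10000) (24727 / 250000) (5527 / 625) (9749 / 5000) (152729 / 1000000) (by norm_num) (by norm_num)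
    (by norm_num) (by norm_num) (by norm_num) (by norm_num) (by norm_num) (by norm_num)
    (by norm_num)
  have L11 := mkLoc (205499 / 1250000) (169717 / 1000000) (9 / 1000) (152729 / 1000000) (1431 / 50000) (8168 / 15625) (510229 / 1000000)
      (by norm_num) (by norm_num) (by norm_num) (by norm_num) (by norm_num) (by norm_num)
      (by norm_num) (by norm_num) (by norm_num) (by norm_num) (by norm_num) (by norm_num) (by norm_num)
  have S11 := own_pass hw _ (1 / 10 ^ 12) (1 / 10 ^ 6) hcnd rfl hdeg hnear (by norm_num)
    (by norm_num) (by norm_num) hmis _ hM L11 S10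
    (53 / 500) (5751 / 62500) (4363 / 500) (18731 / 10000) (151727 / 1000000) (by norm_num) (by norm_num)
    (by norm_num) (by norm_num) (by norm_num) (by norm_num) (by norm_num) (by norm_num)
    (by norm_num)
  have L12 := mkLoc (205499 / 1250000) (169717 / 1000000) (9 / 1000) (151727 / 1000000) (1431 / 50000) (8168 / 15625) (507211 / 1000000)
      (by norm_num) (by norm_num) (by norm_num) (by norm_num) (by norm_num) (by norm_num)
      (by norm_num) (by norm_num) (by norm_num) (by norm_num) (by norm_num) (by norm_num) (by norm_num)
  have S12 := own_pass hw _ (1 / 10 ^ 12) (1 / 10 ^ 6) hcnd rfl hdeg hnear (by norm_num)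
    (by norm_num) (by norm_num) hmis _ hM L12 S11
    (269 / 2500) (18037 / 200000) (10867 / 1250) (9261 / 5000) (4733 / 31250) (by norm_num) (by norm_num)
    (by norm_num) (by norm_num) (by norm_num) (by norm_num) (by norm_num) (by norm_num)
    (by norm_num)
  have R13 := mkRoot (205499 / 1250000) (9 / 1000) (4733 / 31250) (223 / 5000) (1607 / 100000) (507 / 500) (6939 / 100000) (27 / 50) (26041 / 10000) (1883 / 62500)
      (by norm_num) (by norm_num) (by norm_num) (by norm_num) (by norm_num) (by norm_num) (by norm_num) (by norm_num) (by norm_num) (by norm_num) (by norm_num) (by norm_num) (by norm_num) (by norm_num) (by norm_num) (by norm_num) (by norm_num) (by norm_num) (by norm_num) (by norm_num) (by norm_num) (by norm_num) (by norm_num)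
  have L13 := mkLoc (205499 / 1250000) (169717 / 1000000) (9 / 1000) (4733 / 31250) (1431 / 50000) (8168 / 15625) (101279 / 200000)
      (by norm_num) (by norm_num) (by norm_num) (by norm_num) (by norm_num) (by norm_num)
      (by norm_num) (by norm_num) (by norm_num) (by norm_num) (by norm_num) (by norm_num) (by norm_num)
  have S13 := size_pass hw _ (1 / 10 ^ 12) hdeg hnear (by norm_num) hmis _ hM hsz L13 R13 S12
    (1327 / 10000) (119 / 6250000) (56667 / 500000000) (31273 / 125000000) (647 / 31250000) (8503 / 3750000) (9151 / 3000000) (25387 / 1000000000) (825177 / 5000000) (847487 / 5000000) (25387 / 1000000000)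
    (by norm_num) (by norm_num) (by norm_num) (by norm_num) (by norm_num) (by norm_num)
    (by norm_num) (Or.inr (by norm_num)) (by norm_num) (by norm_num) (by norm_num) (by norm_num)
    (by norm_num) (Or.inl (by norm_num))
  have L14 := mkLoc (825177 / 5000000) (847487 / 5000000) (9 / 1000) (4733 / 31250) (57 / 2000) (522561 / 1000000) (2017 / 4000)
      (by norm_num) (by norm_num) (by norm_num) (by norm_num) (by norm_num) (by norm_num)
      (by norm_num) (by norm_num) (by norm_num) (by norm_num) (by norm_num) (by norm_num) (by norm_num)
  have S14 := own_pass hw _ (1 / 10 ^ 12) (1 / 10 ^ 6) hcnd rfl hdeg hnear (by norm_num)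
    (by norm_num) (by norm_num) hmis _ hM L14 S13
    (297 / 2500) (90237 / 1000000) (85717 / 10000) (16809 / 10000) (74681 / 500000) (by norm_num) (by norm_num)
    (by norm_num) (by norm_num) (by norm_num) (by norm_num) (by norm_num) (by norm_num)
    (by norm_num)
  have RL := mkRoot (825177 / 5000000) (9 / 1000) (74681 / 500000) (443 / 10000) (799 / 50000) 1 (6893 / 100000) (27 / 50) (13083 / 5000) (30129 / 1000000)
      (by norm_num) (by norm_num) (by norm_num) (by norm_num) (by norm_num) (by norm_num) (by norm_num) (by norm_num) (by norm_num) (by norm_num) (by norm_num) (by norm_num) (by norm_num) (by norm_num) (by norm_num) (by norm_num) (by norm_num) (by norm_num) (by norm_num) (by norm_num) (by norm_num) (by norm_num) (by norm_num)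
  exact last_pass hw hdeg hmis hsz RL S14

end K4m
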