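import Mathlib
import Pool.Agent.Lib.MP_392c14_co.End2G

/-!
# End game, second version: with a bound for the own neighbourhoods
-/

set_option autoImplicit false

namespace K4m

open Finset

/-- End game with a bound for the own neighbourhoods; no bound for the total missing mass is
needed. -/
theorem endgame_own {n : ℕ} (G : TG (Fin n)) (w : Fin n → ℝ) (c : Fin n → Fin 6) (hw : IsW w)
    (hdeg : ∀ x, deg G w x = val G w)
    (hsz : ∀ i, |cl w c i - 1 / 6| ≤ (1 / 200))
    (hmis : ∀ z, mis G w c z ≤ (1123 / 100000))
    (hown : ∀ r z, c r ≠ c z → own G w c z r ≤ (283 / 2000)) : val G w ≤ (10 + rho) / 36 := by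
  have S0 : State G w c (97 / 600) (103 / 600) (3 / 20000) (283 / 2000) := by
    refine ⟨fun i => ?_, fun i => ?_, ?_, hown⟩
    · have := (abs_le.1 (hsz i)).1; linarith
    · have := (abs_le.1 (hsz i)).2; linarith
    · refine S_box (97 / 600) (103 / 600) (1 / 200) _ (fun i => ?_) (fun i => ?_) (by norm_num) (by norm_num)
        (by norm_num)
      · have := (abs_le.1 (hsz i)).1; linarith
      · have := (abs_le.1 (hsz i)).2; linarith
  have RL := mkRoot (97 / 600) (1123 / 100000) (283 / 2000) (39 / 625) (2199 / 100000) 1 (1263 / 12500) (3 / 5) (2403 / 1000) (19841 / 500000)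
      (by norm_num) (by norm_num) (by norm_num) (by norm_num) (by norm_num) (by norm_num) (by norm_num) (by norm_num) (by norm_num) (by norm_num) (by norm_num) (by norm_num) (by norm_num) (by norm_num) (by norm_num) (by norm_num) (by norm_num) (by norm_num) (by norm_num) (by norm_num) (by norm_num) (by norm_num) (by norm_num)
  exact last_pass hw hdeg hmis hsz RL S0

/-- End game with a bound for the own neighbourhoods; no bound for the total missing mass is
needed. -/
theorem endgame_own145 {n : ℕ} (G : TG (Fin n)) (w : Fin n → ℝ) (c : Fin n → Fin 6) (hw : IsW w)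
    (hdeg : ∀ x, deg G w x = val G w)
    (hsz : ∀ i, |cl w c i - 1 / 6| ≤ (1 / 200))
    (hmis : ∀ z, mis G w c z ≤ (483 / 50000))
    (hown : ∀ r z, c r ≠ c z → own G w c z r ≤ (29 / 200)) : val G w ≤ (10 + rho) / 36 := by
  have S0 : State G w c (97 / 600) (103 / 600) (3 / 20000) (29 / 200) := by
    refine ⟨fun i => ?_, fun i => ?_, ?_, hown⟩
    · have := (abs_le.1 (hsz i)).1; linarith
    · have := (abs_le.1 (hsz i)).2; linarith
    · refine S_box (97 / 600) (103 / 600) (1 / 200) _ (fun i => ?_) (fun i => ?_) (by norm_num) (by norm_num)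
        (by norm_num)
      · have := (abs_le.1 (hsz i)).1; linarith
      · have := (abs_le.1 (hsz i)).2; linarith
  have RL := mkRoot (97 / 600) (483 / 50000) (29 / 200) (503 / 10000) (1799 / 100000) 1 (7911 / 100000) (14 / 25) (317 / 125) (33311 / 1000000)
      (by norm_num) (by norm_num) (by norm_num) (by norm_num) (by norm_num) (by norm_num) (by norm_num) (by norm_num) (by norm_num) (by norm_num) (by norm_num) (by norm_num) (by norm_num) (by norm_num) (by norm_num) (by norm_num) (by norm_num) (by norm_num) (by norm_num) (by norm_num) (by norm_num) (by norm_num) (by norm_num)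
  exact last_pass hw hdeg hmis hsz RL S0

/-- End game with a bound for the own neighbourhoods; no bound for the total missing mass is
needed. -/
theorem endgame_own400 {n : ℕ} (G : TG (Fin n)) (w : Fin n → ℝ) (c : Fin n → Fin 6) (hw : IsW w)
    (hdeg : ∀ x, deg G w x = val G w)
    (hsz : ∀ i, |cl w c i - 1 / 6| ≤ (1 / 400))
    (hmis : ∀ z, mis G w c z ≤ (579 / 50000))
    (hown : ∀ r z, c r ≠ c z → own G w c z r ≤ (18 / 125)) : val G w ≤ (10 + rho) / 36 := by
  have S0 : State G w c (197 / 1200) (203 / 1200) (3 / 80000) (18 / 125) := by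
    refine ⟨fun i => ?_, fun i => ?_, ?_, hown⟩
    · have := (abs_le.1 (hsz i)).1; linarith
    · have := (abs_le.1 (hsz i)).2; linarith
    · refine S_box (197 / 1200) (203 / 1200) (1 / 400) _ (fun i => ?_) (fun i => ?_) (by norm_num) (by norm_num)
        (by norm_num)
      · have := (abs_le.1 (hsz i)).1; linarith
      · have := (abs_le.1 (hsz i)).2; linarith
  have RL := mkRoot (197 / 1200) (579 / 50000) (18 / 125) (633 / 10000) (279 / 12500) 1 (513 / 5000) (3 / 5) (24009 / 10000) (40209 / 1000000)
      (by norm_num) (by norm_num) (by norm_num) (by norm_num) (by norm_num) (by norm_num) (by norm_num) (by norm_num) (by norm_num) (by norm_num) (by norm_num) (by norm_num) (by norm_num) (by norm_num) (by norm_num) (by norm_num) (by norm_num) (by norm_num) (by norm_num) (by norm_num) (by norm_num) (by norm_num) (by norm_num)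
  exact last_pass hw hdeg hmis (fun i => (hsz i).trans (by norm_num)) RL S0

end K4m
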