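import Mathlib
import Pool.Agent.Lib.MP_392c14_co.End3C

/-!
# End game, third version: instances
-/

set_option autoImplicit false

namespace K4m

open Finset

/-- End game: missing degrees at most 23/2000, total missing mass at most 9/25000, masses of the
classes within 1/80 of 1/6. -/
theorem endgame3_box80 {n : ℕ} (G : TG (Fin n)) (w : Fin n → ℝ) (c : Fin n → Fin 6) (hw : IsW w)
    (hpos : ∀ x, 0 < w x)
    (hdeg : ∀ x, deg G w x = val G w)
    (hmax : ∀ w', IsW w' → val G w' ≤ val G w) (hnear : rho - 1 / 10 ^ 12 ≤ val G w)
    (hsz : ∀ i, |cl w c i - 1 / 6| ≤ (1 / 80))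
    (hmis : ∀ z, mis G w c z ≤ (23 / 2000))
    (hM : MM G w c ≤ (9 / 25000)) : val G w ≤ (10 + rho) / 36 := by
  have hcnd := cnd_of_opt G w hw hpos hmax
  have S0 : State G w c (37 / 240) (43 / 240) (3 / 3200) (43 / 240) := start_state hw _ _ _ _ (1
      / 80) (by norm_num) (by norm_num) (by norm_num) (by norm_num) hsz
  have R1 := mkRoot3 (37 / 240) (23 / 2000) (43 / 240) (307 / 250) (12647 / 100000) (9873 /
      500000) (11359 / 96000) (74359 / 1000000) (20819871 / 50000000) (14267 / 12500) (by
      norm_num) (by norm_num) (by norm_num) (by norm_num) (by norm_num) (by norm_num) (by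
      norm_num) (by norm_num) (by norm_num) (by norm_num) (by norm_num) (by norm_num) (by
      norm_num) (by norm_num) (by norm_num) (by norm_num) (Or.inr (by norm_num)) (by norm_num)
      (by norm_num)
  have L1 : LocNum3 (37 / 240) (43 / 240) (23 / 2000) (43 / 240) (997 / 25000) (534571 /
      1000000) (64859 / 100000) (3453 / 12500) := ⟨mkLoc (37 / 240) (43 / 240) (23 / 2000) (43 /
      240) (997 / 25000) (534571 / 1000000) (64859 / 100000) (by norm_num) (by norm_num) (by
      norm_num) (by norm_num) (by norm_num) (by norm_num) (by norm_num) (by norm_num) (by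
      norm_num) (by norm_num) (by norm_num) (by norm_num) (by norm_num), by norm_num, by
      norm_num, by norm_num⟩
  have E1 : ∑ k, Ek G w c k ≤ (513 / 1562500) := sum_Ek_le3 hw.nonneg R1 S0 hmis _ _ hM (by norm_num)
  have T1 : ∑ i, (cl w c i - 1 / 6) ^ 2 ≤ (513001 / 1000000000) := S_pass80 hw _ (1 / 10 ^ 12) _ hdeg hnear
    (fun i => (hsz i).trans (by norm_num)) E1 _ (by norm_num)
  have S1 := size_pass3 hw _ (1 / 10 ^ 12) hdeg hnear (by norm_num) hmis _ hM L1 R1 S0 _ T1
      (4641 / 10000) (513 / 1562500) (3 / 25000) (129 / 312500) (100411 / 500000000) (1 / 80) (1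
      / 80) (199637 / 1250000) (433333 / 2500000) (58081 / 200000000) (by norm_num) (by
      norm_num) (by norm_num) (by norm_num) (by norm_num) (by norm_num) (by norm_num) (by
      norm_num) (by norm_num) (by norm_num) (by norm_num) (by norm_num) (Or.inr ⟨(26089 /
      3750000), by norm_num, by norm_num, by norm_num⟩)
  have L2 : LocNum3 (199637 / 1250000) (433333 / 2500000) (23 / 2000) (43 / 240) (383 / 10000)
      (531889 / 1000000) (311783 / 500000) (143663 / 500000) := ⟨mkLoc (199637 / 1250000)
      (433333 / 2500000) (23 / 2000) (43 / 240) (383 / 10000) (531889 / 1000000) (311783 /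
      500000) (by norm_num) (by norm_num) (by norm_num) (by norm_num) (by norm_num) (by
      norm_num) (by norm_num) (by norm_num) (by norm_num) (by norm_num) (by norm_num) (by
      norm_num) (by norm_num), by norm_num, by norm_num, by norm_num⟩
  have O2a : OwnNum (199637 / 1250000) (433333 / 2500000) (23 / 2000) (43 / 240) (58081 /
      200000000) (531889 / 1000000) (311783 / 500000) (143663 / 500000) (1 / 10 ^ 12) (1 / 10 ^
      6) (9 / 25000) (166057 / 1000000) (166057 / 1000000) (158271 / 5000000) (4397 / 2500)
      (6269 / 10000) := ⟨by norm_num, by norm_num, by norm_num, by norm_num, by norm_num, by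
      norm_num, by norm_num⟩
  have O2b : OwnNum (199637 / 1250000) (433333 / 2500000) (23 / 2000) (43 / 240) (58081 /
      200000000) (531889 / 1000000) (311783 / 500000) (143663 / 500000) (1 / 10 ^ 12) (1 / 10 ^
      6) (9 / 25000) (166057 / 1000000) (433333 / 2500000) (79587 / 2500000) (17133 / 10000)
      (1089 / 2000) := ⟨by norm_num, by norm_num, by norm_num, by norm_num, by norm_num, by
      norm_num, by norm_num⟩
  have S2 := own_pass3 hw _ (1 / 10 ^ 12) (1 / 10 ^ 6) hcnd rfl hdeg hnear (by norm_num) (by
      norm_num) (by norm_num) hmis _ hM L2 S1 (166057 / 1000000) (166057 / 1000000) (158271 /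
      5000000) (4397 / 2500) (6269 / 10000) (79587 / 2500000) (17133 / 10000) (1089 / 2000) O2a
      O2b (Or.inr (by norm_num)) (by norm_num) (by norm_num)
  have R3 := mkRoot3 (199637 / 1250000) (23 / 2000) (166057 / 1000000) (547 / 500) (2741 /
      25000) (2423 / 125000) (109201439 / 1000000000) (70031 / 1000000) (21785479 / 50000000)
      (26457 / 25000) (by norm_num) (by norm_num) (by norm_num) (by norm_num) (by norm_num) (by
      norm_num) (by norm_num) (by norm_num) (by norm_num) (by norm_num) (by norm_num) (by
      norm_num) (by norm_num) (by norm_num) (by norm_num) (by norm_num) (Or.inr (by norm_num))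
      (by norm_num) (by norm_num)
  have L3 : LocNum3 (199637 / 1250000) (433333 / 2500000) (23 / 2000) (166057 / 1000000) (383 /
      10000) (531889 / 1000000) (583081 / 1000000) (35599 / 125000) := ⟨mkLoc (199637 / 1250000)
      (433333 / 2500000) (23 / 2000) (166057 / 1000000) (383 / 10000) (531889 / 1000000) (583081
      / 1000000) (by norm_num) (by norm_num) (by norm_num) (by norm_num) (by norm_num) (by
      norm_num) (by norm_num) (by norm_num) (by norm_num) (by norm_num) (by norm_num) (by
      norm_num) (by norm_num), by norm_num, by norm_num, by norm_num⟩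
  have E3 : ∑ k, Ek G w c k ≤ (423 / 3125000) := sum_Ek_le3 hw.nonneg R3 S2 hmis _ _ hM (by norm_num)
  have T3 : ∑ i, (cl w c i - 1 / 6) ^ 2 ≤ (211501 / 1000000000) := S_pass80 hw _ (1 / 10 ^ 12) _ hdeg hnear
    (fun i => (hsz i).trans (by norm_num)) E3 _ (by norm_num)
  have S3 := size_pass3 hw _ (1 / 10 ^ 12) hdeg hnear (by norm_num) hmis _ hM L3 R3 S2 _ T3 (589
      / 2000) (423 / 3125000) (3 / 25000) (78513 / 250000000) (82083 / 1000000000) (26089 /
      3750000) (49999 / 7500000) (1630431 / 10000000) (427419 / 2500000) (110989 / 1000000000)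
      (by norm_num) (by norm_num) (by norm_num) (by norm_num) (by norm_num) (by norm_num) (by
      norm_num) (by norm_num) (by norm_num) (by norm_num) (by norm_num) (by norm_num) (Or.inr
      ⟨(32257 / 7500000), by norm_num, by norm_num, by norm_num⟩)
  have L4 : LocNum3 (1630431 / 10000000) (427419 / 2500000) (23 / 2000) (166057 / 1000000) (1871
      / 50000) (132609 / 250000) (569743 / 1000000) (291459 / 1000000) := ⟨mkLoc (1630431 /
      10000000) (427419 / 2500000) (23 / 2000) (166057 / 1000000) (1871 / 50000) (132609 /
      250000) (569743 / 1000000) (by norm_num) (by norm_num) (by norm_num) (by norm_num) (by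
      norm_num) (by norm_num) (by norm_num) (by norm_num) (by norm_num) (by norm_num) (by
      norm_num) (by norm_num) (by norm_num), by norm_num, by norm_num, by norm_num⟩
  have O4a : OwnNum (1630431 / 10000000) (427419 / 2500000) (23 / 2000) (166057 / 1000000)
      (110989 / 1000000000) (132609 / 250000) (569743 / 1000000) (291459 / 1000000) (1 / 10 ^
      12) (1 / 10 ^ 6) (9 / 25000) (163197 / 1000000) (163197 / 1000000) (104131 / 5000000)
      (4151 / 2500) (693 / 1250) := ⟨by norm_num, by norm_num, by norm_num, by norm_num, by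
      norm_num, by norm_num, by norm_num⟩
  have O4b : OwnNum (1630431 / 10000000) (427419 / 2500000) (23 / 2000) (166057 / 1000000)
      (110989 / 1000000000) (132609 / 250000) (569743 / 1000000) (291459 / 1000000) (1 / 10 ^
      12) (1 / 10 ^ 6) (9 / 25000) (163197 / 1000000) (427419 / 2500000) (220493 / 10000000)
      (16127 / 10000) (297 / 625) := ⟨by norm_num, by norm_num, by norm_num, by norm_num, by
      norm_num, by norm_num, by norm_num⟩
  have S4 := own_pass3 hw _ (1 / 10 ^ 12) (1 / 10 ^ 6) hcnd rfl hdeg hnear (by norm_num) (by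
      norm_num) (by norm_num) hmis _ hM L4 S3 (163197 / 1000000) (163197 / 1000000) (104131 /
      5000000) (4151 / 2500) (693 / 1250) (220493 / 10000000) (16127 / 10000) (297 / 625) O4a
      O4b (Or.inr (by norm_num)) (by norm_num) (by norm_num)
  have R5 := mkRoot3 (1630431 / 10000000) (23 / 2000) (163197 / 1000000) (21 / 20) (10319 /
      100000) (9409 / 500000) (34239051 / 320000000) (34801 / 500000) (22298803 / 50000000)
      (1031 / 1000) (by norm_num) (by norm_num) (by norm_num) (by norm_num) (by norm_num) (by
      norm_num) (by norm_num) (by norm_num) (by norm_num) (by norm_num) (by norm_num) (by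
      norm_num) (by norm_num) (by norm_num) (by norm_num) (by norm_num) (Or.inl (by norm_num))
      (by norm_num) (by norm_num)
  have L5 : LocNum3 (1630431 / 10000000) (427419 / 2500000) (23 / 2000) (163197 / 1000000) (1871
      / 50000) (132609 / 250000) (561099 / 1000000) (72713 / 250000) := ⟨mkLoc (1630431 /
      10000000) (427419 / 2500000) (23 / 2000) (163197 / 1000000) (1871 / 50000) (132609 /
      250000) (561099 / 1000000) (by norm_num) (by norm_num) (by norm_num) (by norm_num) (by
      norm_num) (by norm_num) (by norm_num) (by norm_num) (by norm_num) (by norm_num) (by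
      norm_num) (by norm_num) (by norm_num), by norm_num, by norm_num, by norm_num⟩
  have E5 : ∑ k, Ek G w c k ≤ (9 / 125000) := sum_Ek_le3 hw.nonneg R5 S4 hmis _ _ hM (by norm_num)
  have T5 : ∑ i, (cl w c i - 1 / 6) ^ 2 ≤ (96001 / 1000000000) := S_pass hw _ (1 / 10 ^ 12) _ hdeg hnear
    (box_of_state S4 (by norm_num) (by norm_num)) E5 _ (by norm_num)
  have S5 := size_pass3 hw _ (1 / 10 ^ 12) hdeg hnear (by norm_num) hmis _ hM L5 R5 S4 _ T5 (148
      / 625) (9 / 125000) (3 / 25000) (280081 / 1000000000) (37349 / 1000000000) (108707 /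
      30000000) (32257 / 7500000) (1641993 / 10000000) (425261 / 2500000) (70909 / 1000000000)
      (by norm_num) (by norm_num) (by norm_num) (by norm_num) (by norm_num) (by norm_num) (by
      norm_num) (by norm_num) (by norm_num) (by norm_num) (by norm_num) (by norm_num) (Or.inr
      ⟨(25783 / 7500000), by norm_num, by norm_num, by norm_num⟩)
  have L6 : LocNum3 (1641993 / 10000000) (425261 / 2500000) (23 / 2000) (163197 / 1000000) (116
      / 3125) (16561 / 31250) (556673 / 1000000) (58633 / 200000) := ⟨mkLoc (1641993 / 10000000)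
      (425261 / 2500000) (23 / 2000) (163197 / 1000000) (116 / 3125) (16561 / 31250) (556673 /
      1000000) (by norm_num) (by norm_num) (by norm_num) (by norm_num) (by norm_num) (by
      norm_num) (by norm_num) (by norm_num) (by norm_num) (by norm_num) (by norm_num) (by
      norm_num) (by norm_num), by norm_num, by norm_num, by norm_num⟩
  have O6a : OwnNum (1641993 / 10000000) (425261 / 2500000) (23 / 2000) (163197 / 1000000)
      (70909 / 1000000000) (16561 / 31250) (556673 / 1000000) (58633 / 200000) (1 / 10 ^ 12) (1
      / 10 ^ 6) (9 / 25000) (156437 / 1000000) (1641993 / 10000000) (190059 / 10000000) (15903 /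
      10000) (4369 / 10000) := ⟨by norm_num, by norm_num, by norm_num, by norm_num, by norm_num,
      by norm_num, by norm_num⟩
  have O6b : OwnNum (1641993 / 10000000) (425261 / 2500000) (23 / 2000) (163197 / 1000000)
      (70909 / 1000000000) (16561 / 31250) (556673 / 1000000) (58633 / 200000) (1 / 10 ^ 12) (1
      / 10 ^ 6) (9 / 25000) (156437 / 1000000) (425261 / 2500000) (40263 / 2000000) (1943 /
      1250) (947 / 2500) := ⟨by norm_num, by norm_num, by norm_num, by norm_num, by norm_num, by
      norm_num, by norm_num⟩
  have S6 := own_pass3 hw _ (1 / 10 ^ 12) (1 / 10 ^ 6) hcnd rfl hdeg hnear (by norm_num) (by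
      norm_num) (by norm_num) hmis _ hM L6 S5 (156437 / 1000000) (1641993 / 10000000) (190059 /
      10000000) (15903 / 10000) (4369 / 10000) (40263 / 2000000) (1943 / 1250) (947 / 2500) O6a
      O6b (Or.inl (by norm_num)) (by norm_num) (by norm_num)
  have RL := mkRoot3 (1641993 / 10000000) (23 / 2000) (156437 / 1000000) 1 (5063 / 50000) (4851
      / 250000) (1641993 / 16000000) (4161 / 62500) (22566039 / 50000000) 1 (by norm_num) (by
      norm_num) (by norm_num) (by norm_num) (by norm_num) (by norm_num) (by norm_num) (by
      norm_num) (by norm_num) (by norm_num) (by norm_num) (by norm_num) (by norm_num) (by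
      norm_num) (by norm_num) (by norm_num) (Or.inl (by norm_num)) (by norm_num) (by norm_num)
  exact last_pass3 hw hdeg hmis (box_of_state S6 (by norm_num) (by norm_num)) RL S6

end K4m
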