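import Mathlib
import Pool.Agent.Lib.MP_392c14_co.Cnd
import Pool.Agent.Lib.MP_392c14_co.OwnAvg

/-!
# Second order removal of an exceptional set

`a` is (the indicator of) a set `A` of mass `α = ma w a` in an optimal weighted 3-graph.  Then
`T(A, A, V) ≤ t α ^ 2`, the average over `A` of the degree into `V - A` is at least
`t (1 - 2 α)`, and the density of `V - A` is at least `t (1 - 3 α)`.
-/

set_option autoImplicit false

namespace K4m

open Finset

section HessRem

variable {V : Type} [Fintype V] (G : TG V) (w : V → ℝ) (a : V → ℝ)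

theorem tri_scale (u v p : V → ℝ) (r : ℝ) : tri G (fun x => r * u x) v p = r * tri G u v p := by
  unfold tri
  simp only [mul_sum]
  refine sum_congr rfl fun x _ => sum_congr rfl fun y _ => sum_congr rfl fun z _ => ?_
  ring

theorem tri_wa_ww (hdeg : ∀ x, deg G w x = val G w) :
    tri G (fun x => w x * a x) w w = ma w a * val G w := by
  rw [tri_eq_sum_deg]
  unfold ma
  rw [sum_mul]
  refine sum_congr rfl fun x _ => ?_
  rw [hdeg x]

/-- `T(A, A, V) ≤ t α ^ 2` -/
theorem tri_AAV_le (hw : IsW w) (hcnd : ∀ f : V → ℝ, ∑ x, f x = 0 → tri G f f w ≤ 0)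
    (hdeg : ∀ x, deg G w x = val G w) :
    tri G (fun x => w x * a x) (fun x => w x * a x) w ≤ val G w * ma w a ^ 2 := by
  set α := ma w a with hα
  set A : V → ℝ := fun x => w x * a x with hA
  have h1 := hcnd (fun x => A x + (-α) * w x) (by
    rw [sum_add_distrib, ← mul_sum, hw.sum_eq]
    have : ∑ x, A x = α := rfl
    rw [this]; ring)
  have e1 := tri_lin G A w (fun x => A x + (-α) * w x) w (-α)
  have e2 := tri_lin2 G A A w w (-α)
  have e3 := tri_lin2 G w A w w (-α)
  rw [e1, e2, e3] at h1
  have h2 : tri G A w w = α * val G w := tri_wa_ww G w a hdeg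
  have h3 : tri G w A w = α * val G w := by rw [tri_swap12]; exact h2
  have h4 : tri G w w w = val G w := rfl
  rw [h2, h3, h4] at h1
  nlinarith

theorem sum_ia_eq : ∑ x, w x * (a x * ia G w (fun y => 1 - a y) x) =
    tri G (fun x => w x * a x) w w - 2 * tri G (fun x => w x * a x) (fun x => w x * a x) w +
      tri G (fun x => w x * a x) (fun x => w x * a x) (fun x => w x * a x) := by
  have h : tri G (fun x => w x * a x) (fun x => w x * a x) w =
      tri G (fun x => w x * a x) w (fun x => w x * a x) := by
    rw [tri_swap23]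
  rw [two_mul]
  nth_rewrite 2 [h]
  unfold tri ia
  simp only [mul_sum, ← sum_add_distrib, ← sum_sub_distrib]
  refine sum_congr rfl fun x _ => sum_congr rfl fun y _ => sum_congr rfl fun z _ => ?_
  ring

/-- the average over `A` of the degree into the complement of `A` is at least `t (1 - 2 α)` -/
theorem hess_avg (hw : IsW w) (ha : ∀ x, 0 ≤ a x)
    (hcnd : ∀ f : V → ℝ, ∑ x, f x = 0 → tri G f f w ≤ 0)
    (hdeg : ∀ x, deg G w x = val G w) :
    ma w a * (val G w * (1 - 2 * ma w a)) ≤ ∑ x, w x * (a x * ia G w (fun y => 1 - a y) x) := by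
  rw [sum_ia_eq, tri_wa_ww G w a hdeg]
  have h1 := tri_AAV_le G w a hw hcnd hdeg
  have h2 : 0 ≤ tri G (fun x => w x * a x) (fun x => w x * a x) (fun x => w x * a x) := by
    unfold tri
    refine sum_nonneg fun x _ => sum_nonneg fun y _ => sum_nonneg fun z _ => ?_
    have := mul_nonneg (hw.nonneg x) (ha x)
    have := mul_nonneg (hw.nonneg y) (ha y)
    have := mul_nonneg (hw.nonneg z) (ha z)
    have := ind_nonneg (G.E x y z)
    positivity
  nlinarith

/-- a weighted version: the average over `A` of any function bounded below -/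
theorem exists_of_avg (hw : IsW w) (ha : ∀ x, 0 ≤ a x) (F : V → ℝ) (b : ℝ)
    (hpos : 0 < ma w a) (h : ma w a * b ≤ ∑ x, w x * (a x * F x)) :
    ∃ x, 0 < w x ∧ 0 < a x ∧ b ≤ F x := by
  by_contra hne
  push Not at hne
  have h1 : ∑ x, w x * (a x * F x) < ma w a * b := by
    unfold ma
    rw [sum_mul]
    obtain ⟨x0, -, hx0⟩ : ∃ x ∈ univ, 0 < w x * a x := by
      by_contra hn
      push Not at hn
      have : ma w a ≤ 0 := sum_nonpos hn
      linarith
    refine sum_lt_sum (fun x _ => ?_) ⟨x0, mem_univ _, ?_⟩
    · by_cases hx : 0 < w x * a x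
      · have hwx : 0 < w x := by
          rcases (hw.nonneg x).lt_or_eq with h' | h'
          · exact h'
          · rw [← h'] at hx; simp at hx
        have hax : 0 < a x := by
          rcases (ha x).lt_or_eq with h' | h'
          · exact h'
          · rw [← h'] at hx; simp at hx
        have := mul_le_mul_of_nonneg_left (hne x hwx hax).le hx.le
        linarith
      · have : w x * a x = 0 :=
          le_antisymm (not_lt.1 hx) (mul_nonneg (hw.nonneg x) (ha x))
        have e1 : w x * (a x * F x) = (w x * a x) * F x := by ring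
        rw [e1, this]; simp
    · have hwx : 0 < w x0 := by
        rcases (hw.nonneg x0).lt_or_eq with h' | h'
        · exact h'
        · rw [← h'] at hx0; simp at hx0
      have hax : 0 < a x0 := by
        rcases (ha x0).lt_or_eq with h' | h'
        · exact h'
        · rw [← h'] at hx0; simp at hx0
      have := mul_lt_mul_of_pos_left (hne x0 hwx hax) hx0
      linarith
  linarith

/-- some vertex of `A` has degree at least `t (1 - 2 α)` into the complement -/
theorem hess_exists (hw : IsW w) (ha : ∀ x, 0 ≤ a x)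
    (hcnd : ∀ f : V → ℝ, ∑ x, f x = 0 → tri G f f w ≤ 0)
    (hdeg : ∀ x, deg G w x = val G w) (hpos : 0 < ma w a) :
    ∃ x, 0 < w x ∧ 0 < a x ∧ val G w * (1 - 2 * ma w a) ≤ ia G w (fun y => 1 - a y) x :=
  exists_of_avg w a hw ha _ _ hpos (hess_avg G w a hw ha hcnd hdeg)

/-- the density of the complement of `A` -/
theorem val_compl_ge (hw : IsW w) (ha : ∀ x, 0 ≤ a x) (ha1 : ∀ x, a x ≤ 1)
    (hdeg : ∀ x, deg G w x = val G w) :
    val G w * (1 - 3 * ma w a) ≤ val G (fun x => w x * (1 - a x)) := by
  have h1 := val_line G w (fun x => w x * a x) (-1)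
  have h2 : (fun x => w x + (-1) * (w x * a x)) = fun x => w x * (1 - a x) := by
    funext x; ring
  rw [h2, tri_wa_ww G w a hdeg] at h1
  have h3 : tri G (fun x => w x * a x) (fun x => w x * a x) (fun x => w x * a x) ≤
      tri G (fun x => w x * a x) (fun x => w x * a x) w := by
    unfold tri
    refine sum_le_sum fun x _ => sum_le_sum fun y _ => sum_le_sum fun z _ => ?_
    have p1 := mul_nonneg (hw.nonneg x) (ha x)
    have p2 := mul_nonneg (hw.nonneg y) (ha y)
    have p3 := hw.nonneg z
    have p4 := ind_nonneg (G.E x y z)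
    have p5 : w z * a z ≤ w z := by
      have := mul_le_mul_of_nonneg_left (ha1 z) p3
      linarith
    have p6 := mul_nonneg p1 p2
    have p7 := mul_le_mul_of_nonneg_left p5 p6
    exact mul_le_mul_of_nonneg_right p7 p4
  have h4 : 0 ≤ tri G (fun x => w x * a x) (fun x => w x * a x) w := by
    unfold tri
    refine sum_nonneg fun x _ => sum_nonneg fun y _ => sum_nonneg fun z _ => ?_
    have p1 := mul_nonneg (hw.nonneg x) (ha x)
    have p2 := mul_nonneg (hw.nonneg y) (ha y)
    have p3 := hw.nonneg z
    have p4 := ind_nonneg (G.E x y z)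
    positivity
  rw [h1]
  nlinarith

/-- the error of removing `A` from the codegree of an arbitrary vertex, on average over `A` -/
theorem cross_avg (hw : IsW w) (hcnd : ∀ f : V → ℝ, ∑ x, f x = 0 → tri G f f w ≤ 0)
    (hdeg : ∀ x, deg G w x = val G w) :
    ∑ x, w x * (a x * ca G w a x) ≤ val G w * ma w a ^ 2 := by
  refine le_trans (le_of_eq ?_) (tri_AAV_le G w a hw hcnd hdeg)
  unfold tri ca
  simp only [mul_sum]
  refine sum_congr rfl fun x _ => sum_congr rfl fun y _ => sum_congr rfl fun z _ => ?_
  ring

end HessRem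

end K4m
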