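import Mathlib
import Pool.Agent.Lib.MP_392c14_co.Sem1

/-!
# Motzkin-Straus reduction inside a class

A functional `∑ μ A + c * q(μ)` of a probability weight `μ`, `q` the adjacency form of a
triangle-free graph, is at most its value at some weight supported on one vertex or on two
adjacent vertices.
-/

set_option autoImplicit false

namespace K4m

open Finset

section MStr

variable {V : Type} [Fintype V] [DecidableEq V]

/-- adjacency form of a graph -/
noncomputable def qf (L : V → V → Bool) (μ : V → ℝ) : ℝ := ∑ y, ∑ v, μ y * μ v * ind (L y v)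

/-- the functional -/
noncomputable def mF (A : V → ℝ) (c : ℝ) (L : V → V → Bool) (μ : V → ℝ) : ℝ :=
  ∑ y, μ y * A y + c * qf L μ

theorem sum_dlt (a b : V) (g : V → ℝ) :
    ∑ x, ((if x = a then (1 : ℝ) else 0) - (if x = b then 1 else 0)) * g x = g a - g b := by
  simp [sub_mul, sum_sub_distrib, ite_mul]

theorem mF_line (A : V → ℝ) (c : ℝ) (L : V → V → Bool) (hs : ∀ x y, L x y = L y x)
    (hi : ∀ x, L x x = false) (μ : V → ℝ) (a b : V) (hL : L a b = false) (s : ℝ) :
    mF A c L (fun x => μ x + s * ((if x = a then (1 : ℝ) else 0) - (if x = b then 1 else 0))) =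
      mF A c L μ + s * (A a - A b + 2 * c * (∑ v, μ v * ind (L a v) - ∑ v, μ v * ind (L b v))) := by
  unfold mF qf
  have e0 : ∑ y, (μ y + s * ((if y = a then (1 : ℝ) else 0) - (if y = b then 1 else 0))) * A y =
      ∑ y, μ y * A y + s * (A a - A b) := by
    rw [← sum_dlt a b A, mul_sum, ← sum_add_distrib]
    refine sum_congr rfl fun y _ => ?_
    ring
  have e1 : ∑ y, ∑ v, (μ y + s * ((if y = a then (1 : ℝ) else 0) - (if y = b then 1 else 0))) *
      (μ v + s * ((if v = a then (1 : ℝ) else 0) - (if v = b then 1 else 0))) * ind (L y v) =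
      ∑ y, ∑ v, μ y * μ v * ind (L y v) +
      s * (∑ y, ((if y = a then (1 : ℝ) else 0) - (if y = b then 1 else 0)) *
        ∑ v, μ v * ind (L y v)) +
      s * (∑ y, μ y * ∑ v, ((if v = a then (1 : ℝ) else 0) - (if v = b then 1 else 0)) *
        ind (L y v)) +
      s ^ 2 * (∑ y, ((if y = a then (1 : ℝ) else 0) - (if y = b then 1 else 0)) *
        ∑ v, ((if v = a then (1 : ℝ) else 0) - (if v = b then 1 else 0)) * ind (L y v)) := by
    simp only [mul_sum, ← sum_add_distrib]
    refine sum_congr rfl fun y _ => sum_congr rfl fun v _ => ?_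
    ring
  rw [e0, e1]
  simp only [sum_dlt]
  rw [hi a, hi b, hL, hs b a, hL]
  have e2 : ∑ y, μ y * (ind (L y a) - ind (L y b)) =
      ∑ v, μ v * ind (L a v) - ∑ v, μ v * ind (L b v) := by
    rw [← sum_sub_distrib]
    refine sum_congr rfl fun v _ => ?_
    rw [hs v a, hs v b]; ring
  rw [e2]
  ring

theorem ms_step (A : V → ℝ) (c : ℝ) (L : V → V → Bool) (hs : ∀ x y, L x y = L y x)
    (hi : ∀ x, L x x = false) (μ : V → ℝ) (hμ : IsW μ) (a b : V) (hab : a ≠ b)
    (ha : μ a ≠ 0) (hb : μ b ≠ 0) (hL : L a b = false) :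
    ∃ μ' : V → ℝ, IsW μ' ∧ mF A c L μ ≤ mF A c L μ' ∧ (∀ x, μ x = 0 → μ' x = 0) ∧
      (μ' a = 0 ∨ μ' b = 0) := by
  wlog hD : 0 ≤ A a - A b + 2 * c * (∑ v, μ v * ind (L a v) - ∑ v, μ v * ind (L b v))
    generalizing a b
  · obtain ⟨μ', h1, h2, h3, h4⟩ := this b a hab.symm hb ha (by rw [hs]; exact hL) (by linarith)
    exact ⟨μ', h1, h2, h3, h4.symm⟩
  refine ⟨fun x => μ x + μ b * ((if x = a then (1 : ℝ) else 0) - (if x = b then 1 else 0)),
    ⟨fun x => ?_, ?_⟩, ?_, fun x hx => ?_, Or.inr ?_⟩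
  · have := hμ.nonneg x
    have := hμ.nonneg b
    by_cases hxa : x = a
    · have hxb : x ≠ b := fun h => hab (hxa.symm.trans h)
      rw [if_pos hxa, if_neg hxb]; linarith
    · by_cases hxb : x = b
      · rw [if_neg hxa, if_pos hxb, hxb]; linarith
      · rw [if_neg hxa, if_neg hxb]; linarith
  · rw [sum_add_distrib, ← mul_sum, hμ.sum_eq]
    have := sum_dlt a b (fun _ => (1 : ℝ))
    simp only [mul_one, sub_self] at this
    rw [this]; ring
  · rw [mF_line A c L hs hi μ a b hL]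
    have := mul_nonneg (hμ.nonneg b) hD
    linarith
  · have hxa : x ≠ a := fun h => ha (h ▸ hx)
    have hxb : x ≠ b := fun h => hb (h ▸ hx)
    simp only [if_neg hxa, if_neg hxb, hx]; ring
  · simp only [if_neg (Ne.symm hab), if_true]; ring

theorem ms_clique (A : V → ℝ) (c : ℝ) (L : V → V → Bool) (hs : ∀ x y, L x y = L y x)
    (hi : ∀ x, L x x = false) : ∀ (n : ℕ) (μ : V → ℝ), IsW μ →
    (univ.filter fun x => μ x ≠ 0).card ≤ n →
    ∃ μ' : V → ℝ, IsW μ' ∧ mF A c L μ ≤ mF A c L μ' ∧ (∀ x, μ x = 0 → μ' x = 0) ∧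
      ∀ a b, μ' a ≠ 0 → μ' b ≠ 0 → a ≠ b → L a b = true := by
  intro n
  induction n with
  | zero =>
    intro μ hμ hn
    refine ⟨μ, hμ, le_rfl, fun x h => h, fun a b ha => ?_⟩
    have h1 : (univ.filter fun x => μ x ≠ 0) = ∅ := card_eq_zero.1 (Nat.le_zero.1 hn)
    have h2 : a ∈ univ.filter fun x => μ x ≠ 0 := mem_filter.2 ⟨mem_univ a, ha⟩
    rw [h1] at h2
    exact absurd h2 (notMem_empty a)
  | succ n ih =>
    intro μ hμ hn
    by_cases hc : ∀ a b, μ a ≠ 0 → μ b ≠ 0 → a ≠ b → L a b = true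
    · exact ⟨μ, hμ, le_rfl, fun x h => h, hc⟩
    · push Not at hc
      obtain ⟨a, b, ha, hb, hab, hL⟩ := hc
      obtain ⟨μ', h1, h2, h3, h4⟩ := ms_step A c L hs hi μ hμ a b hab ha hb
        (by simpa using hL)
      have hsub : (univ.filter fun x => μ' x ≠ 0) ⊆ univ.filter fun x => μ x ≠ 0 := by
        intro x hx
        rw [mem_filter] at hx ⊢
        exact ⟨hx.1, fun h => hx.2 (h3 x h)⟩
      have hlt : (univ.filter fun x => μ' x ≠ 0).card < (univ.filter fun x => μ x ≠ 0).card := by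
        refine card_lt_card ⟨hsub, fun h => ?_⟩
        rcases h4 with h4 | h4
        · have := h (mem_filter.2 ⟨mem_univ a, ha⟩)
          rw [mem_filter] at this
          exact this.2 h4
        · have := h (mem_filter.2 ⟨mem_univ b, hb⟩)
          rw [mem_filter] at this
          exact this.2 h4
      obtain ⟨μ'', k1, k2, k3, k4⟩ := ih μ' h1 (by omega)
      exact ⟨μ'', k1, h2.trans k2, fun x h => k3 x (h3 x h), k4⟩

/-- the reduction: one vertex, or two adjacent vertices -/
theorem ms_two (A : V → ℝ) (c : ℝ) (L : V → V → Bool) (hs : ∀ x y, L x y = L y x)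
    (hi : ∀ x, L x x = false) (ht : ∀ x y z, ¬ (L x y = true ∧ L y z = true ∧ L x z = true))
    (μ : V → ℝ) (hμ : IsW μ) :
    (∃ y, μ y ≠ 0 ∧ mF A c L μ ≤ A y) ∨
    (∃ y v l, μ y ≠ 0 ∧ μ v ≠ 0 ∧ L y v = true ∧ 0 < l ∧ l < 1 ∧
      mF A c L μ ≤ l * A y + (1 - l) * A v + c * (2 * l * (1 - l))) := by
  obtain ⟨μ', h1, h2, h3, h4⟩ := ms_clique A c L hs hi _ μ hμ le_rfl
  obtain ⟨y, hy⟩ : ∃ y, μ' y ≠ 0 := by
    by_contra hne
    push Not at hne
    have := h1.sum_eq
    rw [sum_congr rfl (fun x _ => hne x)] at this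
    simp at this
  by_cases hv : ∃ v, v ≠ y ∧ μ' v ≠ 0
  · obtain ⟨v, hvy, hv⟩ := hv
    right
    have hyv : L y v = true := h4 y v hy hv hvy.symm
    have hz : ∀ x, x ≠ y → x ≠ v → μ' x = 0 := by
      intro x hxy hxv
      by_contra hx
      exact ht x y v ⟨h4 x y hx hy hxy, hyv, h4 x v hx hv hxv⟩
    have hsum : ∀ g : V → ℝ, (∀ x, x ≠ y → x ≠ v → g x = 0) → ∑ x, g x = g y + g v := by
      intro g hg
      rw [← sum_subset (subset_univ {y, v})]
      · rw [sum_pair hvy.symm]
      · intro x _ hx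
        simp only [mem_insert, mem_singleton, not_or] at hx
        exact hg x hx.1 hx.2
    have hs1 : μ' y + μ' v = 1 := by
      rw [← hsum μ' hz]; exact h1.sum_eq
    have y0 : 0 < μ' y := lt_of_le_of_ne (h1.nonneg y) (Ne.symm hy)
    have v0 : 0 < μ' v := lt_of_le_of_ne (h1.nonneg v) (Ne.symm hv)
    refine ⟨y, v, μ' y, fun h => hy (h3 y h), fun h => hv (h3 v h), hyv, y0, by linarith, ?_⟩
    have e : mF A c L μ' = μ' y * A y + (1 - μ' y) * A v + c * (2 * μ' y * (1 - μ' y)) := by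
      unfold mF qf
      rw [hsum (fun x => μ' x * A x) (fun x h5 h6 => by rw [hz x h5 h6, zero_mul])]
      rw [hsum (fun x => ∑ u, μ' x * μ' u * ind (L x u))
        (fun x h5 h6 => by simp [hz x h5 h6])]
      rw [hsum (fun u => μ' y * μ' u * ind (L y u)) (fun x h5 h6 => by simp [hz x h5 h6])]
      rw [hsum (fun u => μ' v * μ' u * ind (L v u)) (fun x h5 h6 => by simp [hz x h5 h6])]
      rw [hi y, hi v, hyv, hs v y, hyv]
      have : μ' v = 1 - μ' y := by linarith
      rw [this]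
      simp only [ind, if_true, Bool.false_eq_true, if_false]
      ring
    rw [← e]; exact h2
  · push Not at hv
    left
    have hsum : ∀ g : V → ℝ, (∀ x, x ≠ y → g x = 0) → ∑ x, g x = g y := by
      intro g hg
      exact sum_eq_single y (fun x _ hx => hg x hx) (fun h => absurd (mem_univ y) h)
    have hy1 : μ' y = 1 := by
      rw [← hsum μ' hv]; exact h1.sum_eq
    refine ⟨y, fun h => hy (h3 y h), ?_⟩
    have e : mF A c L μ' = A y := by
      unfold mF qf
      rw [hsum (fun x => μ' x * A x) (fun x h5 => by rw [hv x h5, zero_mul])]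
      rw [hsum (fun x => ∑ u, μ' x * μ' u * ind (L x u)) (fun x h5 => by simp [hv x h5])]
      rw [hsum (fun u => μ' y * μ' u * ind (L y u)) (fun x h5 => by simp [hv x h5])]
      rw [hi y, hy1]
      simp [ind]
    rw [← e]; exact h2

end MStr

end K4m
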