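import Mathlib
import Pool.Agent.Lib.MP_392c14_co.Acc.Fin2

/-!
# The iterated blow-up inequality and the exact bounds for `ex(n, K_4^-)`
-/

set_option autoImplicit false

namespace K4m

open Finset

/-- the Turan density as a supremum over weighted 3-graphs -/
theorem rho_eq : rho = 2 / 7 := tendsto_nhds_unique tendsto_rho tendsto_two_sevenths

/-! ### composition -/

/-- copies of `K`, joined by `G` -/
def ocomp {V U : Type} [DecidableEq V] (G : TG V) (K : TG U) : TG (V × U) where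
  E x y z := if x.1 = y.1 ∧ y.1 = z.1 then K.E x.2 y.2 z.2 else G.E x.1 y.1 z.1
  symm₁ x y z := by
    by_cases h : x.1 = y.1 ∧ y.1 = z.1
    · rw [if_pos h, if_pos ⟨h.1.symm, h.1.trans h.2⟩, K.symm₁]
    · rw [if_neg h, if_neg (fun h' => h ⟨h'.1.symm, h'.1.trans h'.2⟩), G.symm₁]
  symm₂ x y z := by
    by_cases h : x.1 = y.1 ∧ y.1 = z.1
    · rw [if_pos h, if_pos ⟨h.1.trans h.2, h.2.symm⟩, K.symm₂]
    · rw [if_neg h, if_neg (fun h' => h ⟨h'.1.trans h'.2, h'.2.symm⟩), G.symm₂]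
  irr x z := by
    by_cases h : x.1 = z.1
    · rw [if_pos ⟨rfl, h⟩, K.irr]
    · rw [if_neg (fun h' => h h'.2), G.irr]
  free a b c d := by
    rintro ⟨h1, h2, h3⟩
    by_cases hab : a.1 = b.1
    · have hc : b.1 = c.1 := by
        by_contra hne
        rw [if_neg (fun h' => hne h'.2), hab, G.irr] at h1
        exact Bool.noConfusion h1
      have hd : b.1 = d.1 := by
        by_contra hne
        rw [if_neg (fun h' => hne h'.2), hab, G.irr] at h2
        exact Bool.noConfusion h2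
      rw [if_pos ⟨hab, hc⟩] at h1
      rw [if_pos ⟨hab, hd⟩] at h2
      rw [if_pos ⟨hab.trans hc, hc.symm.trans hd⟩] at h3
      exact K.free _ _ _ _ ⟨h1, h2, h3⟩
    · rw [if_neg (fun h' => hab h'.1)] at h1 h2
      by_cases hacd : a.1 = c.1 ∧ c.1 = d.1
      · rw [← hacd.1, G.symm₂, G.irr] at h1
        exact Bool.noConfusion h1
      · rw [if_neg hacd] at h3
        exact G.free _ _ _ _ ⟨h1, h2, h3⟩

theorem ind_ocomp {V U : Type} [DecidableEq V] (G : TG V) (K : TG U) (x y z : V × U) :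
    ind ((ocomp G K).E x y z) = ind (G.E x.1 y.1 z.1)
      + if x.1 = y.1 ∧ y.1 = z.1 then ind (K.E x.2 y.2 z.2) else 0 := by
  show ind (if x.1 = y.1 ∧ y.1 = z.1 then K.E x.2 y.2 z.2 else G.E x.1 y.1 z.1) = _
  by_cases h : x.1 = y.1 ∧ y.1 = z.1
  · rw [if_pos h, if_pos h, h.1, G.irr]
    simp [ind]
  · rw [if_neg h, if_neg h, add_zero]

theorem val_ocomp {V U : Type} [Fintype V] [Fintype U] [DecidableEq V] (G : TG V) (K : TG U)
    (w : V → ℝ) (u : U → ℝ) :
    val (ocomp G K) (fun p => w p.1 * u p.2)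
      = val G w * (∑ a, u a) ^ 3 + (∑ v, w v ^ 3) * val K u := by
  have h1 : val (ocomp G K) (fun p => w p.1 * u p.2)
      = val (G.pull Prod.fst) (fun p : V × U => w p.1 * u p.2)
      + ∑ x : V × U, ∑ y : V × U, ∑ z : V × U, (w x.1 * u x.2) * (w y.1 * u y.2) * (w z.1 * u z.2) *
        (if x.1 = y.1 ∧ y.1 = z.1 then ind (K.E x.2 y.2 z.2) else 0) := by
    unfold K4m.val
    rw [← sum_add_distrib]
    refine sum_congr rfl fun x _ => ?_
    rw [← sum_add_distrib]
    refine sum_congr rfl fun y _ => ?_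
    rw [← sum_add_distrib]
    refine sum_congr rfl fun z _ => ?_
    rw [ind_ocomp, mul_add]
    rfl
  have hpush : low_push (Prod.fst : V × U → V) (fun p => w p.1 * u p.2)
      = fun v => w v * ∑ a, u a := by
    funext i
    unfold low_push
    rw [sum_filter, Fintype.sum_prod_type, sum_eq_single i]
    · simp only [if_true]
      rw [mul_sum]
    · intro j _ hj
      refine sum_eq_zero fun a _ => ?_
      rw [if_neg hj]
    · intro h
      exact absurd (mem_univ _) h
  have h2 : val (G.pull Prod.fst) (fun p : V × U => w p.1 * u p.2)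
      = val G w * (∑ a, u a) ^ 3 := by
    rw [low_val_pull, hpush]
    unfold K4m.val
    rw [sum_mul]
    refine sum_congr rfl fun x _ => ?_
    rw [sum_mul]
    refine sum_congr rfl fun y _ => ?_
    rw [sum_mul]
    refine sum_congr rfl fun z _ => ?_
    ring
  have h3 : ∑ x : V × U, ∑ y : V × U, ∑ z : V × U, (w x.1 * u x.2) * (w y.1 * u y.2) *
      (w z.1 * u z.2) * (if x.1 = y.1 ∧ y.1 = z.1 then ind (K.E x.2 y.2 z.2) else 0)
      = (∑ v, w v ^ 3) * val K u := by
    have e1 : ∀ (i : V) (a : U), ∑ y : V × U, ∑ z : V × U,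
        (w i * u a) * (w y.1 * u y.2) * (w z.1 * u z.2) *
        (if i = y.1 ∧ y.1 = z.1 then ind (K.E a y.2 z.2) else 0)
        = w i ^ 3 * ∑ b : U, ∑ c : U, u a * u b * u c * ind (K.E a b c) := by
      intro i a
      rw [Fintype.sum_prod_type, sum_eq_single i]
      · rw [mul_sum]
        refine sum_congr rfl fun b _ => ?_
        rw [Fintype.sum_prod_type, sum_eq_single i]
        · rw [mul_sum]
          refine sum_congr rfl fun c _ => ?_
          simp only [and_self, if_true]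
          ring
        · intro j _ hj
          refine sum_eq_zero fun c _ => ?_
          rw [if_neg (fun h => hj h.2.symm), mul_zero]
        · intro h
          exact absurd (mem_univ _) h
      · intro j _ hj
        refine sum_eq_zero fun b _ => sum_eq_zero fun z _ => ?_
        rw [if_neg (fun h => hj h.1.symm), mul_zero]
      · intro h
        exact absurd (mem_univ _) h
    rw [Fintype.sum_prod_type, sum_mul]
    refine sum_congr rfl fun i _ => ?_
    rw [sum_congr rfl fun a _ => e1 i a, ← mul_sum]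
    rfl
  rw [h1, h2, h3]

/-- the iterated blow-up inequality -/
theorem val_le_iter {V : Type} [Fintype V] (G : TG V) (w : V → ℝ) (hw : ∀ x, 0 ≤ w x) :
    7 * val G w ≤ 2 * ((∑ x, w x) ^ 3 - ∑ x, w x ^ 3) := by
  classical
  have hS : 0 ≤ ∑ v, w v ^ 3 := sum_nonneg fun v _ => pow_nonneg (hw v) 3
  have key : val G w + (∑ v, w v ^ 3) * rho ≤ rho * (∑ x, w x) ^ 3 := by
    by_contra hcon
    push Not at hcon
    rcases hS.eq_or_lt with h0 | h0
    · rw [← h0, zero_mul, add_zero] at hcon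
      exact absurd (val_le_rho_hom G w hw) (not_le.2 hcon)
    · have h1 : (rho * (∑ x, w x) ^ 3 - val G w) / (∑ v, w v ^ 3) < rho := by
        rw [div_lt_iff₀ h0]
        linarith
      obtain ⟨t, ⟨n, K, u, hu, rfl⟩, ht⟩ := exists_lt_of_lt_csSup (by
        refine ⟨0, 1, ⟨fun _ _ _ => false, fun _ _ _ => rfl, fun _ _ _ => rfl, fun _ _ => rfl,
          fun _ _ _ _ h => Bool.noConfusion h.1⟩, fun _ => 1, ⟨fun _ => zero_le_one, by simp⟩, ?_⟩
        simp [K4m.val, ind]) h1
      rw [div_lt_iff₀ h0] at ht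
      have h2 := val_le_rho_hom (ocomp G K) (fun p => w p.1 * u p.2)
        (fun p => mul_nonneg (hw _) (hu.nonneg _))
      rw [val_ocomp, hu.sum_eq] at h2
      have h3 : ∑ p : V × Fin n, w p.1 * u p.2 = ∑ x, w x := by
        rw [Fintype.sum_prod_type]
        refine sum_congr rfl fun x _ => ?_
        simp only
        rw [← mul_sum, hu.sum_eq, mul_one]
      rw [h3] at h2
      linarith
  rw [rho_eq] at key
  linarith

/-! ### 3-graphs on arbitrary finite vertex sets -/

/-- the relation of a system of 3-sets -/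
def oTG {V : Type} [DecidableEq V] (H : Finset (Finset V)) (h3 : ∀ e ∈ H, e.card = 3)
    (hf : ∀ a b c d : V, a ≠ b → a ≠ c → a ≠ d → b ≠ c → b ≠ d → c ≠ d →
      ¬ (({a, b, c} : Finset V) ∈ H ∧ ({a, b, d} : Finset V) ∈ H ∧ ({a, c, d} : Finset V) ∈ H)) :
    TG V where
  E x y z := decide (({x, y, z} : Finset V) ∈ H)
  symm₁ x y z := by
    have : ({y, x, z} : Finset V) = {x, y, z} := by ext t; simp; tauto
    rw [this]
  symm₂ x y z := by
    have : ({x, z, y} : Finset V) = {x, y, z} := by ext t; simp; tauto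
    rw [this]
  irr x z := by
    refine decide_eq_false fun h => ?_
    exact (low_ne (h3 _ h)).1 rfl
  free a b c d := by
    rintro ⟨h1, h2, h3'⟩
    have h1 := of_decide_eq_true h1
    have h2 := of_decide_eq_true h2
    have h3' := of_decide_eq_true h3'
    obtain ⟨hab, hac, hbc⟩ := low_ne (h3 _ h1)
    obtain ⟨_, had, hbd⟩ := low_ne (h3 _ h2)
    obtain ⟨_, _, hcd⟩ := low_ne (h3 _ h3')
    exact hf a b c d hab hac had hbc hbd hcd ⟨h1, h2, h3'⟩

theorem oprod {V : Type} [DecidableEq V] (w : V → ℝ) {x y z : V}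
    (h : ({x, y, z} : Finset V).card = 3) : ∏ v ∈ ({x, y, z} : Finset V), w v = w x * w y * w z := by
  obtain ⟨h1, h2, h3⟩ := low_ne h
  rw [prod_insert (by simp [h1, h2]), prod_insert (by simp [h3]), prod_singleton]
  ring

theorem val_oTG {V : Type} [Fintype V] [DecidableEq V] (H : Finset (Finset V))
    (h3 : ∀ e ∈ H, e.card = 3)
    (hf : ∀ a b c d : V, a ≠ b → a ≠ c → a ≠ d → b ≠ c → b ≠ d → c ≠ d →
      ¬ (({a, b, c} : Finset V) ∈ H ∧ ({a, b, d} : Finset V) ∈ H ∧ ({a, c, d} : Finset V) ∈ H))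
    (w : V → ℝ) : val (oTG H h3 hf) w = 6 * ∑ e ∈ H, ∏ v ∈ e, w v := by
  have h1 : val (oTG H h3 hf) w = ∑ p ∈ univ.filter (fun p : V × V × V =>
      ({p.1, p.2.1, p.2.2} : Finset V) ∈ H), ∏ v ∈ ({p.1, p.2.1, p.2.2} : Finset V), w v := by
    rw [sum_filter, Fintype.sum_prod_type]
    unfold K4m.val
    refine sum_congr rfl fun x _ => ?_
    rw [Fintype.sum_prod_type]
    refine sum_congr rfl fun y _ => sum_congr rfl fun z _ => ?_
    simp only
    by_cases h : ({x, y, z} : Finset V) ∈ H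
    · rw [if_pos h, oprod w (h3 _ h)]
      simp [oTG, ind, h]
    · rw [if_neg h]
      simp [oTG, ind, h]
  rw [h1, ← sum_fiberwise_of_maps_to (g := fun p : V × V × V => ({p.1, p.2.1, p.2.2} : Finset V))
    (t := H) (fun p hp => (mem_filter.1 hp).2), mul_sum]
  refine sum_congr rfl fun e he => ?_
  have h2 : ∀ p ∈ (univ.filter (fun p : V × V × V => ({p.1, p.2.1, p.2.2} : Finset V) ∈ H)).filter
      (fun p => ({p.1, p.2.1, p.2.2} : Finset V) = e),
      ∏ v ∈ ({p.1, p.2.1, p.2.2} : Finset V), w v = ∏ v ∈ e, w v := by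
    intro p hp
    rw [(mem_filter.1 hp).2]
  rw [sum_congr rfl h2, sum_const, nsmul_eq_mul]
  obtain ⟨a, b, c, hab, hac, hbc, rfl⟩ := card_eq_three.1 (h3 e he)
  have h4 : (univ.filter (fun p : V × V × V => ({p.1, p.2.1, p.2.2} : Finset V) ∈ H)).filter
      (fun p => ({p.1, p.2.1, p.2.2} : Finset V) = {a, b, c})
      = univ.filter (fun p : V × V × V => ({p.1, p.2.1, p.2.2} : Finset V) = {a, b, c}) := by
    ext p
    simp only [mem_filter, mem_univ, true_and]
    constructor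
    · exact fun h => h.2
    · exact fun h => ⟨h ▸ he, h⟩
  rw [h4, low_triples hab hac hbc]
  norm_num

/-- the weighted inequality for systems of 3-sets -/
theorem weighted_le {V : Type} [Fintype V] [DecidableEq V] (H : Finset (Finset V))
    (h3 : ∀ e ∈ H, e.card = 3)
    (hf : ∀ a b c d : V, a ≠ b → a ≠ c → a ≠ d → b ≠ c → b ≠ d → c ≠ d →
      ¬ (({a, b, c} : Finset V) ∈ H ∧ ({a, b, d} : Finset V) ∈ H ∧ ({a, c, d} : Finset V) ∈ H))
    (w : V → ℝ) (hw : ∀ x, 0 ≤ w x) :
    21 * ∑ e ∈ H, ∏ v ∈ e, w v ≤ (∑ x, w x) ^ 3 - ∑ x, w x ^ 3 := by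
  have h1 := val_le_iter (oTG H h3 hf) w hw
  rw [val_oTG] at h1
  linarith

theorem card_bound {V : Type} [Fintype V] [DecidableEq V] (H : Finset (Finset V))
    (h3 : ∀ e ∈ H, e.card = 3)
    (hf : ∀ a b c d : V, a ≠ b → a ≠ c → a ≠ d → b ≠ c → b ≠ d → c ≠ d →
      ¬ (({a, b, c} : Finset V) ∈ H ∧ ({a, b, d} : Finset V) ∈ H ∧ ({a, c, d} : Finset V) ∈ H)) :
    21 * H.card + Fintype.card V ≤ Fintype.card V ^ 3 := by
  have h1 := weighted_le H h3 hf (fun _ => 1) (fun _ => zero_le_one)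
  simp only [prod_const_one, sum_const, one_pow, nsmul_eq_mul, mul_one, card_univ] at h1
  have : (21 * H.card + Fintype.card V : ℝ) ≤ (Fintype.card V : ℝ) ^ 3 := by linarith
  exact_mod_cast this

/-! ### exact values at powers of six -/

theorem ex_upper (n : ℕ) : 21 * exK4m n + n ≤ n ^ 3 := by
  obtain ⟨H, hH, hc⟩ := low_exists_ex n
  have := card_bound H hH.1 hH.2
  rwa [hc, Fintype.card_fin] at this

/-- a weighted 3-graph with vertex set of size `n` has at most `ex n` edges -/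
theorem val_one_le_ex {V : Type} [Fintype V] (G : TG V) :
    val G (fun _ => 1) ≤ 6 * exK4m (Fintype.card V) := by
  classical
  let e : Fin (Fintype.card V) ≃ V := (Fintype.equivFin V).symm
  have h1 := low_sum_ind (G.pull e)
  have h2 : val G (fun _ => 1) = ∑ x, ∑ y, ∑ z, ind ((G.pull e).E x y z) := by
    unfold K4m.val
    rw [← Equiv.sum_comp e]
    refine sum_congr rfl fun x _ => ?_
    rw [← Equiv.sum_comp e]
    refine sum_congr rfl fun y _ => ?_
    rw [← Equiv.sum_comp e]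
    refine sum_congr rfl fun z _ => ?_
    simp only [one_mul]
    rfl
  rw [h2, h1]
  have h3 : ((low_edges (G.pull e)).card : ℝ) ≤ exK4m (Fintype.card V) := by
    exact_mod_cast low_le_ex (low_adm_edges (G.pull e))
  linarith

theorem exists_val_one (n : ℕ) : ∃ G : TG (Fin n), val G (fun _ => 1) = 6 * exK4m n := by
  obtain ⟨H, hH, hc⟩ := low_exists_ex n
  refine ⟨oTG H hH.1 hH.2, ?_⟩
  rw [val_oTG, ← hc]
  simp

theorem ex_six_mul (n : ℕ) : 10 * n ^ 3 + 6 * exK4m n ≤ exK4m (6 * n) := by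
  obtain ⟨G, hG⟩ := exists_val_one n
  have h1 := val_one_le_ex (ocomp D6 G)
  have h2 : val (ocomp D6 G) (fun _ => 1) = 60 * (n : ℝ) ^ 3 + 6 * (6 * exK4m n) := by
    have h3 := val_ocomp D6 G (fun _ => 1) (fun _ => 1)
    simp only [mul_one, one_pow, sum_const, card_univ, Fintype.card_fin, nsmul_eq_mul] at h3
    rw [h3, hG]
    have h4 : val D6 (fun _ => 1) = 60 := by
      rw [← low_D6_sum]
      unfold K4m.val
      simp only [one_mul]
    rw [h4]
    norm_num
  rw [h2, Fintype.card_prod, Fintype.card_fin, Fintype.card_fin] at h1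
  have h5 : (10 * n ^ 3 + 6 * exK4m n : ℝ) ≤ exK4m (6 * n) := by linarith
  exact_mod_cast h5

theorem ex_pow_six (k : ℕ) : 21 * exK4m (6 ^ k) + 6 ^ k = (6 ^ k) ^ 3 := by
  refine le_antisymm (ex_upper _) ?_
  induction k with
  | zero => norm_num
  | succ k ih =>
    have h := ex_six_mul (6 ^ k)
    have h2 : 6 ^ (k + 1) = 6 * 6 ^ k := by ring
    rw [h2]
    generalize 6 ^ k = N at *
    nlinarith

/-! ### the lower bound for every `n` -/

theorem ex_avg (n : ℕ) (hn : 2 ≤ n) : ((n : ℝ) - 2) * exK4m (n + 1) ≤ (n + 1) * exK4m n := by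
  obtain ⟨G, hG⟩ := exists_val_one (n + 1)
  have h1 : ∀ v : Fin (n + 1), val (G.pull v.succAbove) (fun _ => 1) ≤ 6 * exK4m n := by
    intro v
    have := val_one_le_ex (G.pull v.succAbove)
    rwa [Fintype.card_fin] at this
  have h2 : ∀ v : Fin (n + 1), val (G.pull v.succAbove) (fun _ => 1)
      = ∑ x, ∑ y, ∑ z, (if x ≠ v ∧ y ≠ v ∧ z ≠ v then (1 : ℝ) else 0) * ind (G.E x y z) := by
    intro v
    unfold K4m.val
    rw [Fin.sum_univ_succAbove _ v]
    have z0 : ∑ y, ∑ z, (if v ≠ v ∧ y ≠ v ∧ z ≠ v then (1 : ℝ) else 0) * ind (G.E v y z) = 0 := by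
      refine sum_eq_zero fun y _ => sum_eq_zero fun z _ => ?_
      rw [if_neg (fun h => h.1 rfl), zero_mul]
    rw [z0, zero_add]
    refine sum_congr rfl fun x _ => ?_
    rw [Fin.sum_univ_succAbove _ v]
    have z1 : ∑ z, (if v.succAbove x ≠ v ∧ v ≠ v ∧ z ≠ v then (1 : ℝ) else 0)
        * ind (G.E (v.succAbove x) v z) = 0 := by
      refine sum_eq_zero fun z _ => ?_
      rw [if_neg (fun h => h.2.1 rfl), zero_mul]
    rw [z1, zero_add]
    refine sum_congr rfl fun y _ => ?_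
    rw [Fin.sum_univ_succAbove _ v, if_neg (fun h => h.2.2 rfl), zero_mul, zero_add]
    refine sum_congr rfl fun z _ => ?_
    rw [if_pos ⟨Fin.succAbove_ne v x, Fin.succAbove_ne v y, Fin.succAbove_ne v z⟩]
    simp only [one_mul]
    rfl
  have h3 : ∑ v : Fin (n + 1), val (G.pull v.succAbove) (fun _ => 1)
      = ((n : ℝ) - 2) * val G (fun _ => 1) := by
    rw [sum_congr rfl fun v _ => h2 v, sum_comm]
    unfold K4m.val
    rw [mul_sum]
    refine sum_congr rfl fun x _ => ?_
    rw [sum_comm, mul_sum]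
    refine sum_congr rfl fun y _ => ?_
    rw [sum_comm, mul_sum]
    refine sum_congr rfl fun z _ => ?_
    rw [← sum_mul]
    by_cases hE : G.E x y z = true
    · obtain ⟨hxy, hxz, hyz⟩ := low_E_ne G hE
      have h4 : ∑ v : Fin (n + 1), (if x ≠ v ∧ y ≠ v ∧ z ≠ v then (1 : ℝ) else 0) = (n : ℝ) - 2 := by
        rw [sum_boole]
        have h5 : univ.filter (fun v : Fin (n + 1) => x ≠ v ∧ y ≠ v ∧ z ≠ v)
            = univ \ {x, y, z} := by
          ext v
          simp only [mem_filter, mem_univ, true_and, mem_sdiff, mem_insert, mem_singleton, not_or]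
          exact ⟨fun h => ⟨h.1.symm, h.2.1.symm, h.2.2.symm⟩,
            fun h => ⟨Ne.symm h.1, Ne.symm h.2.1, Ne.symm h.2.2⟩⟩
        rw [h5, card_sdiff_of_subset (subset_univ _), card_univ, Fintype.card_fin,
          low_card hxy hxz hyz, Nat.cast_sub (by omega)]
        push_cast
        ring
      rw [h4]
      ring
    · have : ind (G.E x y z) = 0 := by simp [ind, hE]
      rw [this]
      ring
  have h4 : ∑ v : Fin (n + 1), val (G.pull v.succAbove) (fun _ => 1)
      ≤ ∑ v : Fin (n + 1), (6 * exK4m n : ℝ) := sum_le_sum fun v _ => h1 v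
  rw [h3, hG, sum_const, card_univ, Fintype.card_fin, nsmul_eq_mul] at h4
  push_cast at h4
  linarith

theorem ex_lower (n : ℕ) : 2 * n.choose 3 ≤ 7 * exK4m n := by
  rcases Nat.lt_or_ge n 3 with hn | hn
  · rw [Nat.choose_eq_zero_of_lt hn]
    omega
  · obtain ⟨m, rfl⟩ : ∃ m, n = 3 + m := ⟨n - 3, by omega⟩
    have hanti : Antitone (fun m : ℕ => (exK4m (m + 3) : ℝ) / (((m + 3).choose 3 : ℕ) : ℝ)) := by
      refine antitone_nat_of_succ_le fun m => ?_
      have h1 := ex_avg (m + 3) (by omega)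
      have hc1 : (0 : ℝ) < (((m + 3).choose 3 : ℕ) : ℝ) := by
        exact_mod_cast Nat.choose_pos (by omega)
      have hc2 : (0 : ℝ) < (((m + 1 + 3).choose 3 : ℕ) : ℝ) := by
        exact_mod_cast Nat.choose_pos (by omega)
      have hr : (((m + 1 + 3).choose 3 : ℕ) : ℝ) * ((m : ℝ) + 1)
          = (((m + 3).choose 3 : ℕ) : ℝ) * ((m : ℝ) + 4) := by
        have h := Nat.choose_mul_succ_eq (m + 3) 3
        have h2 : m + 3 + 1 - 3 = m + 1 := by omega
        rw [h2] at h
        have h3 : (((m + 3).choose 3 : ℕ) : ℝ) * ((m : ℝ) + 3 + 1)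
            = (((m + 3 + 1).choose 3 : ℕ) : ℝ) * ((m : ℝ) + 1) := by exact_mod_cast h
        have h4 : m + 1 + 3 = m + 3 + 1 := by omega
        rw [h4]
        linarith
      rw [div_le_div_iff₀ hc2 hc1]
      have h4 : m + 1 + 3 = m + 3 + 1 := by omega
      rw [h4] at hr hc2 ⊢
      push_cast at h1
      have hm : (0 : ℝ) < (m : ℝ) + 1 := by positivity
      have e : (exK4m (m + 3 + 1) : ℝ) * (((m + 3).choose 3 : ℕ) : ℝ) * ((m : ℝ) + 1)
          ≤ (exK4m (m + 3) : ℝ) * (((m + 3 + 1).choose 3 : ℕ) : ℝ) * ((m : ℝ) + 1) := by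
        have e1 : ((m : ℝ) + 1) * (exK4m (m + 3 + 1) : ℝ) ≤ ((m : ℝ) + 4) * (exK4m (m + 3) : ℝ) := by
          linarith
        calc (exK4m (m + 3 + 1) : ℝ) * (((m + 3).choose 3 : ℕ) : ℝ) * ((m : ℝ) + 1)
            = (((m + 3).choose 3 : ℕ) : ℝ) * (((m : ℝ) + 1) * (exK4m (m + 3 + 1) : ℝ)) := by ring
          _ ≤ (((m + 3).choose 3 : ℕ) : ℝ) * (((m : ℝ) + 4) * (exK4m (m + 3) : ℝ)) :=
              mul_le_mul_of_nonneg_left e1 hc1.le
          _ = (exK4m (m + 3) : ℝ) * ((((m + 3).choose 3 : ℕ) : ℝ) * ((m : ℝ) + 4)) := by ring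
          _ = (exK4m (m + 3) : ℝ) * (((m + 3 + 1).choose 3 : ℕ) : ℝ) * ((m : ℝ) + 1) := by
              rw [← hr]; ring
      exact le_of_mul_le_mul_right e hm
    have hlim : Filter.Tendsto (fun m : ℕ => (exK4m (m + 3) : ℝ) / (((m + 3).choose 3 : ℕ) : ℝ))
        Filter.atTop (nhds (2 / 7 : ℝ)) :=
      (Filter.tendsto_add_atTop_iff_nat (f := fun n : ℕ => (exK4m n : ℝ) / ((n.choose 3 : ℕ) : ℝ))
        3).2 tendsto_two_sevenths
    have h := hanti.le_of_tendsto hlim m
    have hc1 : (0 : ℝ) < (((m + 3).choose 3 : ℕ) : ℝ) := by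
      exact_mod_cast Nat.choose_pos (by omega)
    rw [le_div_iff₀ hc1] at h
    rw [add_comm 3 m]
    have h2 : (2 * (m + 3).choose 3 : ℝ) ≤ 7 * exK4m (m + 3) := by linarith
    exact_mod_cast h2

end K4m
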