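import Mathlib
import Pool.Agent.Lib.MP_392c14_co.EndGame

/-!
# Reduction of the Turan density of `K_4^-` to the existence of a good partition
-/

set_option autoImplicit false

namespace K4m

/-- It suffices to find, for every near-extremal optimal weighted 3-graph, a partition into six
classes in which every vertex misses little. -/
theorem rho_eq_of (ε : ℝ) (hε : 0 < ε)
    (H : ∀ {n : ℕ} (G : TG (Fin n)) (w : Fin n → ℝ), IsW w → (∀ x, 0 < w x) →
      (∀ x, deg G w x = val G w) → (∀ w', IsW w' → val G w' ≤ val G w) →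
      rho - ε < val G w → ∃ c : Fin n → Fin 6, (∀ i, |cl w c i - 1 / 6| ≤ 1 / 200) ∧
        (∀ z, mis G w c z ≤ 6 / 1000) ∧ MM G w c ≤ 1 / 10 ^ 4) : rho = 2 / 7 := by
  have h0 := two_sevenths_le_rho
  refine le_antisymm ?_ h0
  by_contra hne
  push Not at hne
  set e : ℝ := min ε (min (1 / 10 ^ 7) ((rho - 2 / 7) / 2)) with he
  have he0 : 0 < e := by
    refine lt_min hε (lt_min (by norm_num) ?_)
    linarith
  obtain ⟨n, G, w, hw, hpos, hdeg, hmax, hnear⟩ := exists_near_opt e he0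
  have e1 : e ≤ ε := min_le_left _ _
  have e2 : e ≤ 1 / 10 ^ 7 := (min_le_right _ _).trans (min_le_left _ _)
  have e3 : e ≤ (rho - 2 / 7) / 2 := (min_le_right _ _).trans (min_le_right _ _)
  obtain ⟨c, c1, c2, c3⟩ := H G w hw hpos hdeg hmax (by linarith)
  have h := endgame G w c hw hpos hdeg hmax (by linarith) c1 c2 c3
  linarith

theorem tendsto_of (ε : ℝ) (hε : 0 < ε)
    (H : ∀ {n : ℕ} (G : TG (Fin n)) (w : Fin n → ℝ), IsW w → (∀ x, 0 < w x) →
      (∀ x, deg G w x = val G w) → (∀ w', IsW w' → val G w' ≤ val G w) →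
      rho - ε < val G w → ∃ c : Fin n → Fin 6, (∀ i, |cl w c i - 1 / 6| ≤ 1 / 200) ∧
        (∀ z, mis G w c z ≤ 6 / 1000) ∧ MM G w c ≤ 1 / 10 ^ 4) :
    Filter.Tendsto (fun n : ℕ => (exK4m n : ℝ) / ((n.choose 3 : ℕ) : ℝ)) Filter.atTop
      (nhds (2 / 7 : ℝ)) := by
  have h := tendsto_rho
  rw [rho_eq_of ε hε H] at h
  exact h

end K4m
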