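import Mathlib
import Pool.Agent.Lib.MP_392c14_co.Defs

/-!
# Resampling (Gibbs step) identities for weighted tuples
-/

set_option autoImplicit false

namespace K4m

open Finset

section Resample

variable {V : Type} [Fintype V] {n : ℕ} (w : V → ℝ)

/-- weight of a tuple -/
noncomputable def pwR (u : Fin n → V) : ℝ := ∏ j, w (u j)

theorem pwR_update (u : Fin n → V) (i : Fin n) (x : V) :
    pwR w (Function.update u i x) * w (u i) = pwR w u * w x := by
  unfold pwR
  have h1 : (fun j => w (Function.update u i x j)) = Function.update (fun j => w (u j)) i (w x) := by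
    funext j
    by_cases h : j = i
    · subst h; simp
    · simp [h]
  rw [h1, prod_update_of_mem (mem_univ i)]
  rw [← mul_prod_erase univ (fun j => w (u j)) (mem_univ i), sdiff_singleton_eq_erase]
  ring

/-- the involution `(u, x) ↦ (u[i := x], u i)` -/
def swapE (i : Fin n) : ((Fin n → V) × V) ≃ ((Fin n → V) × V) where
  toFun p := (Function.update p.1 i p.2, p.1 i)
  invFun p := (Function.update p.1 i p.2, p.1 i)
  left_inv p := by
    rcases p with ⟨u, x⟩
    simp
  right_inv p := by
    rcases p with ⟨u, x⟩
    simp

/-- one step of resampling -/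
theorem resample (i : Fin n) (f : (Fin n → V) → V → ℝ) :
    ∑ u, pwR w u * ∑ x, w x * f u x =
      ∑ u, pwR w u * ∑ x, w x * f (Function.update u i x) (u i) := by
  have e1 : ∀ g : (Fin n → V) → V → ℝ, ∑ u, pwR w u * ∑ x, w x * g u x =
      ∑ p : (Fin n → V) × V, pwR w p.1 * w p.2 * g p.1 p.2 := by
    intro g
    rw [Fintype.sum_prod_type]
    refine sum_congr rfl fun u _ => ?_
    rw [mul_sum]
    refine sum_congr rfl fun x _ => ?_
    ring
  rw [e1, e1 (fun u x => f (Function.update u i x) (u i))]
  rw [← Equiv.sum_comp (swapE i)]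
  refine sum_congr rfl fun p _ => ?_
  rcases p with ⟨u, x⟩
  show pwR w (Function.update u i x) * w (u i) * f (Function.update u i x) (u i) = _
  rw [pwR_update]

/-- two steps of resampling: `(u, x, y) ↦ (u[i := x][j := y], u i, u j)` -/
theorem resample2 (i j : Fin n) (hij : i ≠ j) (f : (Fin n → V) → V → V → ℝ) :
    ∑ u, pwR w u * ∑ x, w x * ∑ y, w y * f u x y =
      ∑ u, pwR w u * ∑ x, w x * ∑ y, w y *
        f (Function.update (Function.update u i x) j y) (u i) (u j) := by
  rw [resample w i (fun u x => ∑ y, w y * f u x y)]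
  have h1 : ∀ u : Fin n → V, ∑ x, w x * ∑ y, w y * f (Function.update u i x) (u i) y =
      ∑ y, w y * ∑ x, w x * f (Function.update u i x) (u i) y := by
    intro u
    simp only [mul_sum]
    rw [sum_comm]
    refine sum_congr rfl fun y _ => sum_congr rfl fun x _ => ?_
    ring
  rw [sum_congr rfl (fun u _ => by rw [h1 u] : ∀ u ∈ univ, pwR w u * ∑ x, w x * ∑ y, w y *
    f (Function.update u i x) (u i) y = pwR w u * ∑ y, w y * ∑ x, w x *
      f (Function.update u i x) (u i) y)]
  rw [resample w j (fun u y => ∑ x, w x * f (Function.update u i x) (u i) y)]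
  refine sum_congr rfl fun u _ => ?_
  congr 1
  simp only [mul_sum]
  rw [sum_comm]
  refine sum_congr rfl fun x _ => sum_congr rfl fun y _ => ?_
  rw [Function.update_comm hij, Function.update_of_ne hij]
  ring

end Resample

end K4m
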