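import Pool.Agent.Lib.MP_392c14_co.S2C
import Pool.Agent.Lib.MP_392c14_co.S2T10

/-!
# The checks of the tables of the second stage, number 10
-/

set_option autoImplicit false

namespace K4m

theorem s2seven10 : s2chk s2X10 30000 11 100 = true := by decide +kernel

theorem s2all10 : s2z s2X10 s2G10 s2S10 30000 1817 1500 3500 890 970 350 0 = true := by decide +kernel

end K4m
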