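import Pool.Agent.Lib.MP_392c14_co.S2C
import Pool.Agent.Lib.MP_392c14_co.S2T11

/-!
# The checks of the tables of the second stage, number 11
-/

set_option autoImplicit false

namespace K4m

theorem s2seven11 : s2chk s2X11 30000 23 200 = true := by decide +kernel

theorem s2all11 : s2z s2X11 s2G11 s2S11 30000 1982 1500 3500 885 920 335 0 = true := by decide +kernel

end K4m
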