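import Mathlib
import Pool.Agent.Lib.MP_392c14_co.S2M3
import Pool.Agent.Lib.MP_392c14_co.S2K24

/-!
# The inequality of the second stage: table T24
-/

set_option autoImplicit false

namespace K4m

open Finset Function

section S2M24

variable {V : Type} [Fintype V]

/-- **second stage, table T24** -/
theorem stage2_T24 {μ : Fin 6 → V → ℝ} (hμ : ∀ a, IsW (μ a)) {L : V → V → Bool}
    (hs : ∀ x y, L x y = L y x)
    (hT : ∀ x y t, ¬ (L x y = true ∧ L x t = true ∧ L y t = true)) (k : Fin 6)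
    (hA : ∀ a, a ≠ k → ∀ v, 0 < μ a v → dg (μ a) L v ≤ 873 / 1000)
    (hB : ∀ b, b ≠ k → ∀ v, 0 < μ b v → dg (μ k) L v ≤ 21 / 25)
    (hH : hk μ L k ≤ 3 / 10) :
    3571 / 30000 * (2 * hk μ L k) + ∑ a ∈ univ.erase k, qd (μ a) L ≤
      10 - 2 * E6 μ (DD L) + 3 / 2 * E6 μ (BBin k L) + 7 / 2 * E6 μ (BBout k L) := by
  have h := s2gen hs (by norm_num) (by norm_num) (by norm_num) s2seven24 s2all24 hμ hT
    (umA := 873 / 1000) (umB := 21 / 25) (by norm_num) (by norm_num) (by norm_num) k hA hB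
    (fun a b hab => by
      have := miss_le_hk hμ hs k a b hab
      norm_num
      linarith)
    (by norm_num; linarith)
  norm_num at h ⊢
  linarith

end S2M24

end K4m
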