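import Mathlib
import Pool.Agent.Lib.MP_392c14_co.Sizes0
import Pool.Agent.Lib.MP_392c14_co.OwnAvg3
import Pool.Agent.Lib.MP_392c14_co.EndGame

/-!
# The masses of the classes of an initial partition with garbage

`c` is a map to the six classes (total), `g` the indicator of the good vertices.
-/

set_option autoImplicit false

namespace K4m

open Finset

section Sizes1

variable {V : Type} [Fintype V] (G : TG V) (w : V → ℝ) (c : V → Fin 6) (g : V → ℝ)

/-- the error of a class: bad triples of good vertices, edges with a garbage vertex, garbage -/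
noncomputable def Eg (t : ℝ) (k : Fin 6) : ℝ := WBg G w c g k +
  (∑ z, w z * (gp c g k z * grb G w g z)) + t * (cl w c k - ma w (gp c g k))

theorem cl_sub_ma (k : Fin 6) :
    cl w c k - ma w (gp c g k) = ∑ z, w z * (pin c k z * (1 - g z)) := by
  rw [cl_eq_pin]
  unfold ma
  rw [← sum_sub_distrib]
  refine sum_congr rfl fun z _ => ?_
  unfold gp; ring

theorem sum_cl_sub_ma : ∑ k, (cl w c k - ma w (gp c g k)) = Xg w g := by
  rw [sum_congr rfl fun k _ => cl_sub_ma w c g k, sum_comm]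
  unfold Xg
  refine sum_congr rfl fun z _ => ?_
  rw [← mul_sum, ← sum_mul, sum_pin, one_mul]

variable (hw : ∀ x, 0 ≤ w x) (hg : ∀ x, g x = 0 ∨ g x = 1)
include hw hg

theorem Xg_nonneg : 0 ≤ Xg w g := sum_nonneg fun z _ => mul_nonneg (hw z) (by
    have := g_le_one g hg z; linarith)

theorem cl_sub_ma_nonneg (k : Fin 6) : 0 ≤ cl w c k - ma w (gp c g k) := by
  rw [cl_sub_ma]
  refine sum_nonneg fun z _ => mul_nonneg (hw z) (mul_nonneg (pin_nonneg c k z) ?_)
  have := g_le_one g hg z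
  linarith

theorem bzg_nonneg (z : V) : 0 ≤ bzg G w c g z := S2_nonneg w hw fun u v =>
    mul_nonneg (gg_nonneg g hg u v) (mul_nonneg (p1_nonneg _ _ _) (ind_nonneg _))

theorem btg_nonneg (z : V) : 0 ≤ btg G w c g z := S2_nonneg w hw fun u v =>
    mul_nonneg (gg_nonneg g hg u v) (mul_nonneg (p1_nonneg _ _ _) (ind_nonneg _))

theorem gmg_nonneg (z : V) : 0 ≤ gmg G w c g z := S2_nonneg w hw fun u v =>
    mul_nonneg (gg_nonneg g hg u v) (mul_nonneg (nbl_nonneg _ _ _) (ind_nonneg _))

theorem misg_nonneg (z : V) : 0 ≤ misg G w c g z := S2_nonneg w hw fun u v => by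
    have := ind_le_one (G.E z u v)
    exact mul_nonneg (gg_nonneg g hg u v) (mul_nonneg (blk_nonneg _ _ _) (by linarith))

theorem gp_nonneg (k : Fin 6) (z : V) : 0 ≤ gp c g k z :=
  mul_nonneg (pin_nonneg c k z) (g_nonneg g hg z)

theorem WBg_nonneg (k : Fin 6) : 0 ≤ WBg G w c g k := by
  unfold WBg
  refine sum_nonneg fun z _ => mul_nonneg (hw z) (mul_nonneg (gp_nonneg w c g hw hg k z) ?_)
  have h1 := bzg_nonneg G w c g hw hg z
  have h2 := btg_nonneg G w c g hw hg z
  have h3 := gmg_nonneg G w c g hw hg z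
  linarith

theorem WMg_nonneg (k : Fin 6) : 0 ≤ WMg G w c g k := by
  unfold WMg
  exact sum_nonneg fun z _ => mul_nonneg (hw z) (mul_nonneg (gp_nonneg w c g hw hg k z)
    (misg_nonneg G w c g hw hg z))

theorem grb_nonneg (z : V) : 0 ≤ grb G w g z := by
  refine S2_nonneg w hw fun u v => mul_nonneg ?_ (ind_nonneg _)
  rcases hg u with hu | hu <;> rcases hg v with hv | hv <;> rw [hu, hv] <;> norm_num

theorem Eg_nonneg (t : ℝ) (ht : 0 ≤ t) (k : Fin 6) : 0 ≤ Eg G w c g t k := by
  unfold Eg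
  have h1 := WBg_nonneg G w c g hw hg k
  have h2 : 0 ≤ ∑ z, w z * (gp c g k z * grb G w g z) := sum_nonneg fun z _ =>
    mul_nonneg (hw z) (mul_nonneg (gp_nonneg w c g hw hg k z) (grb_nonneg G w g hw hg z))
  have h3 := mul_nonneg ht (cl_sub_ma_nonneg w c g hw hg k)
  linarith

/-- bad pairs at a vertex: good ones and ones with a garbage vertex -/
theorem bad_le_good (z : V) : bad G w c z ≤
    2 * bzg G w c g z + btg G w c g z + gmg G w c g z + grb G w g z := by
  have hu1 : ∀ u v : V, 0 ≤ 1 - g u * g v := fun u v => by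
    rcases hg u with hu | hu <;> rcases hg v with hv | hv <;> rw [hu, hv] <;> norm_num
  have s1 := S2_swap w (fun u v => p1 (c z) (c u) (c v) * ind (G.E z u v))
  have s2 := S2_swap w (fun u v => g u * g v * (p1 (c z) (c u) (c v) * ind (G.E z u v)))
  have e1 : bad G w c z = S2 w (fun u v => p1 (c z) (c u) (c v) * ind (G.E z u v) +
      (p1 (c z) (c v) (c u) * ind (G.E z v u) + (p1 (c u) (c v) (c z) * ind (G.E z u v) +
      nbl (c z) (c u) (c v) * ind (G.E z u v)))) := by
    rw [S2_add, S2_add, S2_add, s1]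
    unfold bad bz btw gm
    ring
  have e2 : 2 * bzg G w c g z + btg G w c g z + gmg G w c g z + grb G w g z =
      S2 w (fun u v => g u * g v * (p1 (c z) (c u) (c v) * ind (G.E z u v)) +
      (g v * g u * (p1 (c z) (c v) (c u) * ind (G.E z v u)) +
      (g u * g v * (p1 (c u) (c v) (c z) * ind (G.E z u v)) +
      (g u * g v * (nbl (c z) (c u) (c v) * ind (G.E z u v)) +
      (1 - g u * g v) * ind (G.E z u v))))) := by
    rw [S2_add, S2_add, S2_add, S2_add, s2]
    unfold bzg btg gmg grb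
    ring
  rw [e1, e2]
  refine S2_mono w hw fun u v => ?_
  have hp := pattern_sum (c z) (c u) (c v)
  have p1' := p1_nonneg (c z) (c u) (c v)
  have p2' := p1_nonneg (c z) (c v) (c u)
  have p3' := p1_nonneg (c u) (c v) (c z)
  have p4' := nbl_nonneg (c z) (c u) (c v)
  have p5' := blk_nonneg (c z) (c u) (c v)
  have p6' := e3_nonneg (c z) (c u) (c v)
  rw [G.symm₂ z u v]
  have i0 := ind_nonneg (G.E z u v)
  set I := ind (G.E z u v) with hI
  set q := p1 (c z) (c u) (c v) + p1 (c z) (c v) (c u) + p1 (c u) (c v) (c z) +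
    nbl (c z) (c u) (c v) with hq
  have hq1 : q ≤ 1 := by rw [hq]; linarith
  have h3 : 0 ≤ (1 - g u * g v) * I * (1 - q) :=
    mul_nonneg (mul_nonneg (hu1 u v) i0) (by linarith)
  have e3' : (1 - g u * g v) * I * (1 - q) = (1 - g u * g v) * I - (1 - g u * g v) * I * q := by
    ring
  rw [e3', hq] at h3
  linarith

theorem mis_ge_good (z : V) : misg G w c g z ≤ mis G w c z := by
  have e : mis G w c z = S2 w (fun u v => blk (c z) (c u) (c v) * (1 - ind (G.E z u v))) := by
    unfold mis miss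
    rw [S2_eq]
  rw [e]
  refine S2_mono w hw fun u v => ?_
  have h1 := ind_le_one (G.E z u v)
  have h2 : 0 ≤ blk (c z) (c u) (c v) * (1 - ind (G.E z u v)) :=
    mul_nonneg (blk_nonneg _ _ _) (by linarith)
  have h3 : g u * g v ≤ 1 := by
    rcases hg u with hu | hu <;> rcases hg v with hv | hv <;> rw [hu, hv] <;> norm_num
  calc g u * g v * (blk (c z) (c u) (c v) * (1 - ind (G.E z u v))) ≤
      1 * (blk (c z) (c u) (c v) * (1 - ind (G.E z u v))) := mul_le_mul_of_nonneg_right h3 h2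
    _ = _ := one_mul _

theorem Ek_le_Eg (t : ℝ) (hdeg : ∀ z, deg G w z = t) (k : Fin 6) :
    Ek G w c k ≤ Eg G w c g t k - WMg G w c g k := by
  have e : Eg G w c g t k - WMg G w c g k = ∑ z, w z * (gp c g k z *
      (2 * bzg G w c g z + btg G w c g z + gmg G w c g z + grb G w g z - misg G w c g z) +
      pin c k z * (1 - g z) * t) := by
    unfold Eg WBg WMg
    rw [cl_sub_ma, mul_sum, ← sum_add_distrib, ← sum_add_distrib, ← sum_sub_distrib]
    refine sum_congr rfl fun z _ => ?_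
    ring
  rw [e]
  unfold Ek
  refine sum_le_sum fun z _ => mul_le_mul_of_nonneg_left ?_ (hw z)
  have hp := pin_nonneg c k z
  rcases hg z with hz | hz
  · have h1 := deg_eq G w c z
    rw [hdeg] at h1
    have h2 : 0 ≤ inn G w c (c z) z := by
      unfold inn
      exact sum_nonneg fun u _ => sum_nonneg fun v _ => mul_nonneg (mul_nonneg (hw _) (hw _))
        (mul_nonneg (mul_nonneg (pin_nonneg _ _ _) (pin_nonneg _ _ _)) (ind_nonneg _))
    have h3 : 0 ≤ idl w c (c z) := S2_nonneg w hw fun u v => blk_nonneg _ _ _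
    have h4 : bad G w c z - mis G w c z ≤ t := by linarith
    unfold gp
    rw [hz, mul_zero, zero_mul, zero_add, sub_zero, mul_one]
    exact mul_le_mul_of_nonneg_left h4 hp
  · have h1 := bad_le_good G w c g hw hg z
    have h2 := mis_ge_good G w c g hw hg z
    unfold gp
    rw [hz, mul_one, sub_self, mul_zero, zero_mul, add_zero]
    exact mul_le_mul_of_nonneg_left (by linarith) hp

theorem sum_grb_le (t : ℝ) (hdeg : ∀ z, deg G w z = t) :
    ∑ k, ∑ z, w z * (gp c g k z * grb G w g z) ≤ 2 * t * Xg w g := by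
  rw [sum_comm]
  have e1 : ∀ z ∈ univ, ∑ k, w z * (gp c g k z * grb G w g z) = w z * (g z * grb G w g z) := by
    intro z _
    rw [← mul_sum, ← sum_mul]
    unfold gp
    rw [← sum_mul, sum_pin, one_mul]
  rw [sum_congr rfl e1]
  have e2 : ∑ z, w z * (g z * grb G w g z) =
      T3 w (fun z u v => g z * ((1 - g u * g v) * ind (G.E z u v))) := by
    rw [T3_S2]
    refine sum_congr rfl fun z _ => ?_
    unfold grb
    rw [S2_mul]
  rw [e2]
  have e3 : T3 w (fun z u v => (1 - g z) * ind (G.E z u v)) = t * Xg w g := by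
    rw [T3_S2]
    unfold Xg
    rw [mul_sum]
    refine sum_congr rfl fun z _ => ?_
    rw [S2_mul]
    have : S2 w (fun u v => ind (G.E z u v)) = deg G w z := rfl
    rw [this, hdeg]; ring
  have e4 : T3 w (fun z u v => (1 - g u) * ind (G.E z u v)) = t * Xg w g := by
    rw [← e3, ← T3_swap12 w (fun z u v => (1 - g z) * ind (G.E z u v))]
    exact T3_congr w fun x y z => by rw [G.symm₁]
  have e5 : T3 w (fun z u v => (1 - g v) * ind (G.E z u v)) = t * Xg w g := by
    rw [← e4, ← T3_swap23 w (fun z u v => (1 - g u) * ind (G.E z u v))]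
    exact T3_congr w fun x y z => by rw [G.symm₂]
  calc T3 w (fun z u v => g z * ((1 - g u * g v) * ind (G.E z u v))) ≤
      T3 w (fun z u v => (1 - g u) * ind (G.E z u v) + (1 - g v) * ind (G.E z u v)) := by
        refine T3_mono w hw fun z u v => ?_
        have i0 := ind_nonneg (G.E z u v)
        rcases hg z with hz | hz <;> rcases hg u with hu | hu <;> rcases hg v with hv | hv <;>
          rw [hz, hu, hv] <;> linarith
    _ = 2 * t * Xg w g := by rw [T3_add, e4, e5]; ring

theorem sum_Eg_le (t : ℝ) (hdeg : ∀ z, deg G w z = t) :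
    ∑ k, Eg G w c g t k ≤ ∑ k, WBg G w c g k + 3 * t * Xg w g := by
  have h1 := sum_grb_le G w c g hw hg t hdeg
  have h2 := sum_cl_sub_ma w c g
  have e : ∑ k, Eg G w c g t k = ∑ k, WBg G w c g k +
      ∑ k, ∑ z, w z * (gp c g k z * grb G w g z) + t * Xg w g := by
    rw [← h2, mul_sum, ← sum_add_distrib, ← sum_add_distrib]
    rfl
  rw [e]; linarith

end Sizes1

/-- Masses and inner densities of the classes of an initial partition with garbage. -/
theorem sizes0 {n : ℕ} (G : TG (Fin n)) (w : Fin n → ℝ) (c : Fin n → Fin 6) (g : Fin n → ℝ)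
    (hw : IsW w) (hg : ∀ x, g x = 0 ∨ g x = 1)
    (hcnd : ∀ f : Fin n → ℝ, ∑ x, f x = 0 → tri G f f w ≤ 0)
    (hdeg : ∀ x, deg G w x = val G w) (ε : ℝ) (hε : 0 ≤ ε) (hnear : rho - ε ≤ val G w)
    (hz : (∑ k, WBg G w c g k) + Xg w g + ε ≤ 1 / 4000)
    (hmin : ∀ k, 5 * WBg G w c g k + Xg w g / 2 < ma w (gp c g k)) :
    (∀ k, |cl w c k - 1 / 6| ≤ 25 / 2 * ((∑ k, WBg G w c g k) + Xg w g + ε)) ∧
    (∑ i, (cl w c i - 1 / 6) ^ 2 ≤ 320 * ((∑ k, WBg G w c g k) + Xg w g + ε) ^ 2) ∧
    ∑ k, (rho * cl w c k ^ 3 - VV G w c k) ≤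
      (∑ k, WBg G w c g k) - (∑ k, WMg G w c g k) + 3 * val G w * Xg w g + ε := by
  have hw0 := hw.nonneg
  have r1 := rho_le_third
  have r2 := two_sevenths_le_rho
  set t := val G w with ht
  have htr : t ≤ rho := val_le_rho G w hw
  have t0 : 0 ≤ t := val_nonneg_of G w hw0
  have hX0 := Xg_nonneg w g hw0 hg
  have hWB0 : ∀ k, 0 ≤ WBg G w c g k := WBg_nonneg G w c g hw0 hg
  have hx : ∑ i, cl w c i = 1 := by rw [sum_cl, hw.sum_eq]
  have hx0 : ∀ i, 0 ≤ cl w c i := fun i => by
    rw [cl_eq_pin]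
    exact sum_nonneg fun x _ => mul_nonneg (hw0 x) (pin_nonneg c i x)
  have hcd := class_deg G w c t hdeg
  have hVV := VV_le G w c hw0
  have hEk := Ek_le_Eg G w c g hw0 hg t hdeg
  have hWM := WMg_nonneg G w c g hw0 hg
  have hEg0 := Eg_nonneg G w c g hw0 hg t t0
  have hsumE := sum_Eg_le G w c g hw0 hg t hdeg
  have h3t : 3 * t * Xg w g ≤ Xg w g := by
    calc 3 * t * Xg w g ≤ 1 * Xg w g := mul_le_mul_of_nonneg_right (by linarith) hX0
      _ = Xg w g := one_mul _
  have hE : ∀ k, t * cl w c k ≤ rho * cl w c k ^ 3 + cl w c k * idp (cl w c) k +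
      Eg G w c g t k := by
    intro k
    have h1 := hcd k
    have h2 := hVV k
    have h3 := hEk k
    have h4 := hWM k
    rw [idl_eq_idp] at h1
    linarith
  have hη : ∑ k, Eg G w c g t k ≤ (∑ k, WBg G w c g k) + Xg w g := by linarith
  have hmin' : ∀ k, 4 * Eg G w c g t k < cl w c k := by
    intro k
    have h1 := hmin k
    have h2 : ∑ z, w z * (gp c g k z * grb G w g z) ≤
        4 / 3 * Xg w g * ma w (gp c g k) := by
      unfold ma
      rw [mul_sum]
      refine sum_le_sum fun z _ => ?_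
      have h3 := (grb_bounds G w c g hw0 hg hcnd hw.sum_eq t hdeg z).2.2.2
      have h4 : 4 * t * Xg w g ≤ 4 / 3 * Xg w g := mul_le_mul_of_nonneg_right (by linarith) hX0
      have h5 : gp c g k z * grb G w g z ≤ gp c g k z * (4 / 3 * Xg w g) :=
        mul_le_mul_of_nonneg_left (h3.trans h4) (gp_nonneg w c g hw0 hg k z)
      calc w z * (gp c g k z * grb G w g z) ≤ w z * (gp c g k z * (4 / 3 * Xg w g)) :=
            mul_le_mul_of_nonneg_left h5 (hw0 z)
        _ = _ := by ring
    have hXle : Xg w g ≤ 1 / 4000 := by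
      have := sum_nonneg fun k (_ : k ∈ univ) => hWB0 k
      linarith
    have m0 : 0 ≤ ma w (gp c g k) := sum_nonneg fun z _ => mul_nonneg (hw0 z)
      (gp_nonneg w c g hw0 hg k z)
    have h6 : 4 / 3 * Xg w g * ma w (gp c g k) ≤ 1 / 3000 * ma w (gp c g k) :=
      mul_le_mul_of_nonneg_right (by linarith) m0
    have h7 := cl_sub_ma_nonneg w c g hw0 hg k
    have h8 : t * (cl w c k - ma w (gp c g k)) ≤ 1 / 3 * (cl w c k - ma w (gp c g k)) :=
      mul_le_mul_of_nonneg_right (by linarith) h7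
    have h9 : cl w c k - ma w (gp c g k) ≤ Xg w g := by
      rw [← sum_cl_sub_ma w c g]
      exact single_le_sum (f := fun k => cl w c k - ma w (gp c g k))
        (fun i _ => cl_sub_ma_nonneg w c g hw0 hg i) (mem_univ k)
    have h10 := hWB0 k
    unfold Eg
    linarith
  obtain ⟨c1, c2⟩ := sizes0_num rho t ε _ (cl w c) (Eg G w c g t) hx hx0 r2 r1 hnear hE hEg0 hη
    hε hz hmin'
  refine ⟨c1, c2, ?_⟩
  -- inner densities
  have hzz : (∑ k, WBg G w c g k) + Xg w g + ε ≤ 1 / 4000 := hz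
  have hzz0 : 0 ≤ (∑ k, WBg G w c g k) + Xg w g + ε := by
    have := sum_nonneg fun k (_ : k ∈ univ) => hWB0 k
    linarith
  have hbox : ∀ k, |cl w c k - 1 / 6| ≤ 1 / 200 := fun k => (c1 k).trans (by linarith)
  have h1 := Tb_slack rho (by linarith) r1 (cl w c) hx hbox
  have hS0 : 0 ≤ ∑ i, (cl w c i - 1 / 6) ^ 2 := sum_nonneg fun i _ => sq_nonneg _
  have h2 : ∑ k, VV G w c k = t - Tb (cl w c) - ∑ k, Ek G w c k := by
    have h3 : ∑ k, t * cl w c k = ∑ k, (VV G w c k + cl w c k * idl w c k + Ek G w c k) :=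
      sum_congr rfl fun k _ => hcd k
    rw [← mul_sum, hx, sum_add_distrib, sum_add_distrib] at h3
    have h4 : ∑ k, cl w c k * idl w c k = Tb (cl w c) := by
      rw [← sum_mul_idp]
      exact sum_congr rfl fun k _ => by rw [idl_eq_idp]
    rw [h4] at h3
    linarith
  have h5 : ∑ k, Ek G w c k ≤ ∑ k, Eg G w c g t k - ∑ k, WMg G w c g k := by
    rw [← sum_sub_distrib]
    exact sum_le_sum fun k _ => hEk k
  rw [sum_sub_distrib, ← mul_sum, h2]
  linarith

end K4m
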